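import Mathlib
import Pool.Agent.Lib.NV.Defs

/-!
# NVG2 (MP_663568_nt), part A: ambient groups, rational subgroups, filtrations, polynomial maps

Paper: nvg2_MP_663568_nt_h30 with the simplifications (S1) - (S6) of helper19.
An ambient group has real powers `pw`, a lattice `La`, a size `nm` and a rank `dm`.  Quotients by `M`
are filtrations with `G_i = M` for `i > d`.  Products of ambient groups are ambient groups (row PRD).
-/

set_option autoImplicit false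
open Finset Topology

namespace Pool.Agent.NG

noncomputable section

/-- An ambient group: real powers, a lattice, a size function and a rank. -/
class Amb (U : Type) extends Group U, TopologicalSpace U where
  tgrp : IsTopologicalGroup U
  t2 : T2Space U
  lc : LocallyCompactSpace U
  fc : FirstCountableTopology U
  /-- real powers -/
  pw : ℝ → U → U
  pw_cont : Continuous fun q : ℝ × U => pw q.1 q.2
  pw_add : ∀ s t x, pw (s + t) x = pw s x * pw t x
  pw_mul : ∀ s t x, pw (s * t) x = pw s (pw t x)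
  pw_one : ∀ x, pw 1 x = x
  /-- the lattice -/
  La : Subgroup U
  La_fin : ∀ K : Set U, IsCompact K → ((La : Set U) ∩ K).Finite
  /-- the size -/
  nm : U → ℝ
  nm_nn : ∀ x, 0 ≤ nm x
  nm_one : nm 1 = 0
  nm_cont : Continuous nm
  nm_nhds : ∀ W ∈ 𝓝 (1 : U), ∃ ρ : ℝ, 0 < ρ ∧ ∀ x, nm x ≤ ρ → x ∈ W
  nm_mul : ∃ C : ℝ, 0 < C ∧ ∀ x y, nm x ≤ 1 → nm y ≤ 1 → nm (x * y) ≤ C * (nm x + nm y)
  nm_conj : ∀ K : Set U, IsCompact K → ∃ C : ℝ, 0 < C ∧ ∀ y ∈ K, ∀ x, nm x ≤ 1 →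
    nm (y * x * y⁻¹) ≤ C * nm x
  nm_pw : ∀ K : Set U, IsCompact K → ∃ C : ℝ, 0 < C ∧ ∀ x ∈ K, ∀ t : ℝ, |t| ≤ 1 →
    nm (pw t x) ≤ C * |t|
  /-- the rank -/
  dm : Subgroup U → ℕ
  dm_lt : ∀ H H' : Subgroup U, (∀ x ∈ H, ∀ t, pw t x ∈ H) → (∀ x ∈ H', ∀ t, pw t x ∈ H') →
    H < H' → dm H < dm H'

attribute [instance] Amb.tgrp Amb.t2 Amb.lc Amb.fc

open Amb Pool.Agent.Lib.MP_663568_nt Pool.Agent.Lib.MP_663568_nt.Katai

section
variable {U : Type} [Amb U]

/-- `H` is closed under real powers. -/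
def PwC (H : Subgroup U) : Prop := ∀ x ∈ H, ∀ t : ℝ, pw t x ∈ H

/-- Rational subgroups: closed under real powers, closed, with cocompact lattice. -/
structure Rat (H : Subgroup U) : Prop where
  pwc : PwC H
  cl : IsClosed (H : Set U)
  coc : ∃ K : Set U, IsCompact K ∧ K ⊆ H ∧ ∀ x ∈ H, ∃ k ∈ K, ∃ γ ∈ (La : Subgroup U), γ ∈ H ∧
    x = k * γ

/-- `H` is normalised by `G`. -/
def Nrm (G H : Subgroup U) : Prop := ∀ x ∈ G, ∀ y ∈ H, x * y * x⁻¹ ∈ H

/-- `[G, H] ≤ M`. -/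
def Cm (G H M : Subgroup U) : Prop := ∀ x ∈ G, ∀ y ∈ H, x * y * x⁻¹ * y⁻¹ ∈ M

/-- A filtration of `G = Gf 0` of degree `d` modulo `M = Gf (d + 1)`. -/
structure Filt (Gf : ℕ → Subgroup U) (d : ℕ) : Prop where
  rat : ∀ i, Rat (Gf i)
  anti : ∀ i, Gf (i + 1) ≤ Gf i
  top : Gf 1 = Gf 0
  com : ∀ i j, Cm (Gf i) (Gf j) (Gf (i + j))
  stab : ∀ i, d < i → Gf i = Gf (d + 1)

/-- A `G`-invariant character of `J` modulo `M`: additive on `J`, invariant under conjugation by `G`,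
integral on the lattice, zero on `M`, continuous, not zero.  A character of `G` is `Chr G G M`. -/
structure Chr (G J M : Subgroup U) (χ : U → ℝ) : Prop where
  mul : ∀ x ∈ J, ∀ y ∈ J, χ (x * y) = χ x + χ y
  inv : ∀ g ∈ G, ∀ x ∈ J, χ (g * x * g⁻¹) = χ x
  int : ∀ γ ∈ (La : Subgroup U), γ ∈ J → ∃ j : ℤ, χ γ = j
  van : ∀ x ∈ M, χ x = 0
  cont : ContinuousOn χ (J : Set U)
  ne : ∃ x ∈ J, χ x ≠ 0

/-- The kernel of `χ` on `H` (see row KER for the elements). -/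
def kerS (H : Subgroup U) (χ : U → ℝ) : Subgroup U := Subgroup.closure {x | x ∈ H ∧ χ x = 0}

/-- The group generated by `H` and the real powers of `z` (see row ADJ for the elements). -/
def adj (H : Subgroup U) (z : U) : Subgroup U := Subgroup.closure {x | ∃ h ∈ H, ∃ t : ℝ,
  x = h * pw t z}

/-- `z` is an element of the lattice of `G` whose real powers are central modulo `M`, and `z` is not
in `M`. -/
structure Cen (G M : Subgroup U) (z : U) : Prop where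
  la : z ∈ (La : Subgroup U)
  mem : z ∈ G
  cen : ∀ g ∈ G, ∀ t : ℝ, g * pw t z * g⁻¹ * (pw t z)⁻¹ ∈ M
  ne : z ∉ M

/-- Differences. -/
def dif {A : Type} [AddCommGroup A] (h : A) (g : A → U) : A → U := fun n => g (n + h) * (g n)⁻¹

/-- Polynomial maps, shifted by `i`: the `k`-th differences have values in `G_(i+k)`. -/
def PS {A : Type} [AddCommGroup A] (Gf : ℕ → Subgroup U) (i : ℕ) (g : A → U) : Prop :=
  ∀ (l : List A) (n : A), l.foldr dif g n ∈ Gf (i + l.length)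

/-- Functions on `G`: bounded, uniformly continuous, right invariant under the lattice, left
invariant under `M`. -/
structure Fn (G M : Subgroup U) (F : U → ℂ) : Prop where
  bd : ∃ B : ℝ, ∀ x ∈ G, ‖F x‖ ≤ B
  uc : ∀ ε : ℝ, 0 < ε → ∃ ρ : ℝ, 0 < ρ ∧ ∀ k ∈ G, nm k ≤ ρ → ∀ x ∈ G, ‖F (k * x) - F x‖ ≤ ε
  lat : ∀ x ∈ G, ∀ γ ∈ (La : Subgroup U), γ ∈ G → F (x * γ) = F x
  inv : ∀ m ∈ M, ∀ x ∈ G, F (m * x) = F x

/-- `F` has the character `k` along `z`. -/
def Vrt (G : Subgroup U) (F : U → ℂ) (z : U) (k : ℤ) : Prop :=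
  ∀ t : ℝ, ∀ x ∈ G, F (pw t z * x) = ee (k * t) * F x

/-- The fibre product `{(x, y) ∈ G × G : x y⁻¹ ∈ J}` (row FIB for the elements). -/
def FP {U : Type} [Group U] (G J : Subgroup U) : Subgroup (U × U) :=
  Subgroup.closure {q | q.1 ∈ G ∧ q.2 ∈ G ∧ q.1 * q.2⁻¹ ∈ J}

/-- The triple fibre product `{(x, y, w) ∈ G³ : y x⁻¹, w x⁻¹ ∈ J}`. -/
def FP3 {U : Type} [Group U] (G J : Subgroup U) : Subgroup (U × U × U) :=
  Subgroup.closure {q | q.1 ∈ G ∧ q.2.1 * q.1⁻¹ ∈ J ∧ q.2.2 * q.1⁻¹ ∈ J}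

end

/-! ### Polynomials in several variables, as arrays of coefficients -/

/-- The value of the polynomial with the coefficients `c` (degree at most `d` in each variable). -/
def mev {r d : ℕ} (c : (Fin r → Fin (d + 1)) → ℝ) (x : Fin r → ℝ) : ℝ :=
  ∑ a, c a * ∏ i, x i ^ (a i : ℕ)

/-- The function `P` on `ℤ^r` is a polynomial of degree at most `d` in each variable, whose
coefficients, apart from the constant one, are rational (denominator `Q`) up to `E / L^a`. -/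
def Near (r d : ℕ) (E : ℝ) (Q : ℕ) (L : Fin r → ℕ) (P : (Fin r → ℤ) → ℝ) : Prop :=
  ∃ c : (Fin r → Fin (d + 1)) → ℝ, (∀ x : Fin r → ℤ, P x = mev c fun i => (x i : ℝ)) ∧
    ∀ a : Fin r → Fin (d + 1), a ≠ 0 → ∃ j : ℤ,
      |c a - j / Q| ≤ E / ∏ i, (L i : ℝ) ^ (a i : ℕ)

/-- The points `x` with `0 ≤ x i < L i`. -/
def box {r : ℕ} (L : Fin r → ℕ) : Finset (Fin r → ℤ) := Fintype.piFinset fun i => Ico 0 (L i : ℤ)

end

end Pool.Agent.NG
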