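import Mathlib
import Pool.Agent.Lib.NG.A

/-!
# NVG2 (MP_663568_nt): the product of two ambient groups is an ambient group  (helper55)
-/

set_option autoImplicit false
open Finset Topology

namespace Pool.Agent.NG

noncomputable section

/-! ### Products -/

open Amb

/-- Products of ambient groups. -/
instance ambProd {U V : Type} [Amb U] [Amb V] : Amb (U × V) where
  tgrp := inferInstance
  t2 := inferInstance
  lc := inferInstance
  fc := inferInstance
  pw t x := (pw t x.1, pw t x.2)
  pw_cont := by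
    apply Continuous.prodMk
    · exact pw_cont.comp (continuous_fst.prodMk (continuous_fst.comp continuous_snd))
    · exact pw_cont.comp (continuous_fst.prodMk (continuous_snd.comp continuous_snd))
  pw_add s t x := Prod.ext (pw_add s t x.1) (pw_add s t x.2)
  pw_mul s t x := Prod.ext (pw_mul s t x.1) (pw_mul s t x.2)
  pw_one x := Prod.ext (pw_one x.1) (pw_one x.2)
  La := (La : Subgroup U).prod (La : Subgroup V)
  La_fin := by
    intro K hK
    have h1 := La_fin (Prod.fst '' K) (hK.image continuous_fst)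
    have h2 := La_fin (Prod.snd '' K) (hK.image continuous_snd)
    apply (h1.prod h2).subset
    rintro x ⟨hx, hxK⟩
    have hx' := Subgroup.mem_prod.mp hx
    exact ⟨⟨hx'.1, x, hxK, rfl⟩, ⟨hx'.2, x, hxK, rfl⟩⟩
  nm x := max (nm x.1) (nm x.2)
  nm_nn x := le_max_of_le_left (nm_nn x.1)
  nm_one := by
    show max (nm (1 : U)) (nm (1 : V)) = 0
    rw [nm_one, nm_one, max_self]
  nm_cont := (nm_cont.comp continuous_fst).max (nm_cont.comp continuous_snd)
  nm_nhds := by
    intro W hW
    obtain ⟨u, hu, v, hv, huv⟩ := mem_nhds_prod_iff.mp hW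
    obtain ⟨r, hr, h1⟩ := nm_nhds u hu
    obtain ⟨s, hs, h2⟩ := nm_nhds v hv
    refine ⟨min r s, lt_min hr hs, ?_⟩
    intro x hx
    apply huv
    exact ⟨h1 _ ((le_max_left _ _).trans (hx.trans (min_le_left _ _))),
      h2 _ ((le_max_right _ _).trans (hx.trans (min_le_right _ _)))⟩
  nm_mul := by
    obtain ⟨C, hC, h1⟩ := nm_mul (U := U)
    obtain ⟨D, hD, h2⟩ := nm_mul (U := V)
    refine ⟨max C D, lt_max_of_lt_left hC, ?_⟩
    intro x y hx hy
    have hx1 := (le_max_left _ _).trans hx
    have hx2 := (le_max_right _ _).trans hx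
    have hy1 := (le_max_left _ _).trans hy
    have hy2 := (le_max_right _ _).trans hy
    have hx0 : 0 ≤ max (nm x.1) (nm x.2) + max (nm y.1) (nm y.2) :=
      add_nonneg (le_max_of_le_left (nm_nn _)) (le_max_of_le_left (nm_nn _))
    apply max_le
    · refine (h1 x.1 y.1 hx1 hy1).trans ?_
      apply mul_le_mul (le_max_left _ _) _ _ (lt_max_of_lt_left hC).le
      · exact add_le_add (le_max_left _ _) (le_max_left _ _)
      · exact add_nonneg (nm_nn _) (nm_nn _)
    · refine (h2 x.2 y.2 hx2 hy2).trans ?_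
      apply mul_le_mul (le_max_right _ _) _ _ (lt_max_of_lt_left hC).le
      · exact add_le_add (le_max_right _ _) (le_max_right _ _)
      · exact add_nonneg (nm_nn _) (nm_nn _)
  nm_conj := by
    intro K hK
    obtain ⟨C, hC, h1⟩ := nm_conj (Prod.fst '' K) (hK.image continuous_fst)
    obtain ⟨D, hD, h2⟩ := nm_conj (Prod.snd '' K) (hK.image continuous_snd)
    refine ⟨max C D, lt_max_of_lt_left hC, ?_⟩
    intro y hy x hx
    have hx1 := (le_max_left _ _).trans hx
    have hx2 := (le_max_right _ _).trans hx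
    apply max_le
    · refine (h1 y.1 ⟨y, hy, rfl⟩ x.1 hx1).trans ?_
      exact mul_le_mul (le_max_left _ _) (le_max_left _ _) (nm_nn _) (lt_max_of_lt_left hC).le
    · refine (h2 y.2 ⟨y, hy, rfl⟩ x.2 hx2).trans ?_
      exact mul_le_mul (le_max_right _ _) (le_max_right _ _) (nm_nn _) (lt_max_of_lt_left hC).le
  nm_pw := by
    intro K hK
    obtain ⟨C, hC, h1⟩ := nm_pw (Prod.fst '' K) (hK.image continuous_fst)
    obtain ⟨D, hD, h2⟩ := nm_pw (Prod.snd '' K) (hK.image continuous_snd)
    refine ⟨max C D, lt_max_of_lt_left hC, ?_⟩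
    intro x hx t ht
    apply max_le
    · refine (h1 x.1 ⟨x, hx, rfl⟩ t ht).trans ?_
      exact mul_le_mul_of_nonneg_right (le_max_left _ _) (abs_nonneg t)
    · refine (h2 x.2 ⟨x, hx, rfl⟩ t ht).trans ?_
      exact mul_le_mul_of_nonneg_right (le_max_right _ _) (abs_nonneg t)
  dm H := dm (H.map (MonoidHom.fst U V)) + dm (H.comap (MonoidHom.inr U V))
  dm_lt := by
    intro H H' hH hH' hlt
    have pa : ∀ G : Subgroup (U × V), (∀ x ∈ G, ∀ t, (pw t x.1, pw t x.2) ∈ G) →
        ∀ x ∈ G.map (MonoidHom.fst U V), ∀ t, pw t x ∈ G.map (MonoidHom.fst U V) := by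
      rintro G hG x ⟨y, hy, rfl⟩ t
      exact ⟨_, hG y hy t, rfl⟩
    have pone : ∀ t : ℝ, pw t (1 : U) = 1 := by
      intro t
      have h0 : pw 0 (1 : U) = 1 := by
        have := pw_add 0 0 (1 : U)
        rw [add_zero] at this
        exact (mul_eq_left.mp this.symm)
      have h1 := pw_mul t 0 (1 : U)
      rw [mul_zero, h0] at h1
      exact h1.symm
    have pb : ∀ G : Subgroup (U × V), (∀ x ∈ G, ∀ t, (pw t x.1, pw t x.2) ∈ G) →
        ∀ x ∈ G.comap (MonoidHom.inr U V), ∀ t, pw t x ∈ G.comap (MonoidHom.inr U V) := by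
      intro G hG x hx t
      have h := hG _ hx t
      rw [Subgroup.mem_comap]
      have h2 : (pw t ((MonoidHom.inr U V) x).1, pw t ((MonoidHom.inr U V) x).2)
          = (MonoidHom.inr U V) (pw t x) := Prod.ext (pone t) rfl
      rw [h2] at h
      exact h
    have m1 : H.map (MonoidHom.fst U V) ≤ H'.map (MonoidHom.fst U V) := Subgroup.map_mono hlt.le
    have m2 : H.comap (MonoidHom.inr U V) ≤ H'.comap (MonoidHom.inr U V) :=
      Subgroup.comap_mono hlt.le
    rcases m1.lt_or_eq with l1 | e1
    · have a1 := dm_lt _ _ (pa H hH) (pa H' hH') l1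
      rcases m2.lt_or_eq with l2 | e2
      · have a2 := dm_lt _ _ (pb H hH) (pb H' hH') l2
        omega
      · rw [e2]
        omega
    · rcases m2.lt_or_eq with l2 | e2
      · have a2 := dm_lt _ _ (pb H hH) (pb H' hH') l2
        rw [e1]
        omega
      · exfalso
        apply hlt.not_ge
        rintro ⟨u, v⟩ huv
        have h1 : u ∈ H.map (MonoidHom.fst U V) := by
          rw [e1]
          exact ⟨(u, v), huv, rfl⟩
        obtain ⟨⟨u', v'⟩, h2, h3⟩ := h1
        have h3' : u' = u := h3
        subst h3'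
        have h4 : v'⁻¹ * v ∈ H'.comap (MonoidHom.inr U V) := by
          rw [Subgroup.mem_comap]
          have h5 : (MonoidHom.inr U V) (v'⁻¹ * v) = (u', v')⁻¹ * (u', v) := by
            apply Prod.ext
            · show (1 : U) = u'⁻¹ * u'
              rw [inv_mul_cancel]
            · rfl
          rw [h5]
          exact H'.mul_mem (H'.inv_mem (hlt.le h2)) huv
        rw [← e2, Subgroup.mem_comap] at h4
        have h6 : (u', v) = (u', v') * (MonoidHom.inr U V) (v'⁻¹ * v) := by
          apply Prod.ext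
          · show u' = u' * 1
            rw [mul_one]
          · show v = v' * (v'⁻¹ * v)
            group
        rw [h6]
        exact H.mul_mem h2 h4

end

end Pool.Agent.NG
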