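import Mathlib
import Pool.Agent.Lib.NG.A
import Pool.Agent.Lib.NG.Prd

/-!
# NVG2 (MP_663568_nt), part A: the algebra rows

Each row is a Prop `X_stmt`; the row is to be proved as `theorem x : X_stmt` in `Lib/NG/X.lean`.
(helper19)
-/

set_option autoImplicit false
open Finset Topology

namespace Pool.Agent.NG

noncomputable section

open Amb Pool.Agent.Lib.MP_663568_nt Pool.Agent.Lib.MP_663568_nt.Katai

/-! ### Real powers and rational subgroups -/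

/-- Row PWB: real powers. -/
def PWB_stmt : Prop := ∀ (U : Type) [Amb U],
  (∀ x : U, pw 0 x = 1) ∧ (∀ (n : ℕ) (x : U), pw n x = x ^ n) ∧ (∀ (n : ℤ) (x : U), pw n x = x ^ n) ∧
  (∀ (t : ℝ) (x : U), pw (-t) x = (pw t x)⁻¹) ∧ (∀ t : ℝ, pw t (1 : U) = 1) ∧
  (∀ (t : ℝ) (x y : U), pw t (x * y * x⁻¹) = x * pw t y * x⁻¹) ∧
  (∀ (t : ℝ) (x y : U), x * y = y * x → pw t (x * y) = pw t x * pw t y) ∧
  ∀ (M : Subgroup U), PwC M → ∀ (n : ℕ) (x : U), 1 ≤ n → x ^ n ∈ M → x ∈ M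

/-- Row CLS: closedness. -/
def CLS_stmt : Prop := ∀ (U : Type) [Amb U],
  (∀ S : Set U, S ⊆ (La : Subgroup U) → IsClosed S) ∧
  ∀ K S : Set U, IsCompact K → S ⊆ (La : Subgroup U) → IsClosed {x | ∃ k ∈ K, ∃ s ∈ S, x = k * s}

/-- Row CHS: additive continuous functions and real powers. -/
def CHS_stmt : Prop := ∀ (U : Type) [Amb U] (H : Subgroup U) (χ : U → ℝ), PwC H →
  (∀ x ∈ H, ∀ y ∈ H, χ (x * y) = χ x + χ y) → ContinuousOn χ (H : Set U) →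
  ∀ x ∈ H, ∀ t : ℝ, χ (pw t x) = t * χ x

/-- Row KER: the kernel of an integral additive function. -/
def KER_stmt : Prop := ∀ (U : Type) [Amb U] (H : Subgroup U) (χ : U → ℝ), Rat H →
  (∀ x ∈ H, ∀ y ∈ H, χ (x * y) = χ x + χ y) → (∀ γ ∈ (La : Subgroup U), γ ∈ H → ∃ j : ℤ, χ γ = j) →
  ContinuousOn χ (H : Set U) → (∀ x, x ∈ kerS H χ ↔ x ∈ H ∧ χ x = 0) ∧ Rat (kerS H χ)

/-- Row INT: the intersection of two rational subgroups. -/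
def INT_stmt : Prop := ∀ (U : Type) [Amb U] (H H' : Subgroup U), Rat H → Rat H' → Rat (H ⊓ H')

/-- Row ADJ: adjunction of a central one-parameter group. -/
def ADJ_stmt : Prop := ∀ (U : Type) [Amb U] (G H M : Subgroup U) (z : U), Rat G → Rat H → Rat M →
  M ≤ H → H ≤ G → Nrm G H → Nrm G M → z ∈ (La : Subgroup U) → z ∈ G →
  (∀ g ∈ G, ∀ t : ℝ, g * pw t z * g⁻¹ * (pw t z)⁻¹ ∈ M) →
  (∀ x, x ∈ adj H z ↔ ∃ h ∈ H, ∃ t : ℝ, x = h * pw t z) ∧ Rat (adj H z) ∧ Nrm G (adj H z) ∧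
    adj H z ≤ G

/-- Row PRR: products and projections of rational subgroups. -/
def PRR_stmt : Prop := ∀ (U V : Type) [Amb U] [Amb V],
  (∀ (H : Subgroup U) (H' : Subgroup V), Rat H → Rat H' → Rat (H.prod H')) ∧
  ∀ J : Subgroup (U × V), Rat J → Rat (J.map (MonoidHom.fst U V)) ∧
    Rat (J.map (MonoidHom.snd U V))

/-- Row FIB: fibre products (the condition on powers is row PWJ, Lib/NG/PWJ.lean). -/
def FIB_stmt : Prop := ∀ (U : Type) [Amb U] (G J : Subgroup U), Rat G → Rat J → J ≤ G → Nrm G J →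
  (∀ x ∈ G, ∀ y ∈ G, x * y⁻¹ ∈ J → ∀ t : ℝ, pw t x * (pw t y)⁻¹ ∈ J) →
  ((∀ q : U × U, q ∈ FP G J ↔ q.1 ∈ G ∧ q.2 ∈ G ∧ q.1 * q.2⁻¹ ∈ J) ∧ Rat (FP G J)) ∧
  (∀ q : U × U × U, q ∈ FP3 G J ↔ q.1 ∈ G ∧ q.2.1 * q.1⁻¹ ∈ J ∧ q.2.2 * q.1⁻¹ ∈ J) ∧
  Rat (FP3 G J)

/-- Row UNB: a central element all of whose powers are near `M` is in `M`. -/
def UNB_stmt : Prop := ∀ (U : Type) [Amb U] (G M : Subgroup U) (w : U) (K : Set U), Rat G → Rat M →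
  M ≤ G → Nrm G M → w ∈ G → (∀ g ∈ G, ∀ t : ℝ, g * pw t w * g⁻¹ * (pw t w)⁻¹ ∈ M) →
  IsCompact K → (∀ n : ℕ, ∃ k ∈ K, ∃ m ∈ M, pw n w = k * m) → w ∈ M

/-- Row CENZ: a central commutator. -/
def CENZ_stmt : Prop := ∀ (U : Type) [Amb U] (Gf : ℕ → Subgroup U) (d : ℕ) (N : Subgroup U),
  Filt Gf d → Rat N → Nrm (Gf 0) N → Gf (d + 1) ≤ N → N ≤ Gf 0 → ¬ Cm (Gf 0) N (Gf (d + 1)) →
  ∃ γ ν z : U, γ ∈ (La : Subgroup U) ∧ γ ∈ Gf 0 ∧ ν ∈ (La : Subgroup U) ∧ ν ∈ N ∧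
    Cen (Gf 0) (Gf (d + 1)) z ∧ z ∈ N ∧
    ∀ t : ℝ, γ * pw t ν * γ⁻¹ * (pw t ν)⁻¹ * (pw t z)⁻¹ ∈ Gf (d + 1)

/-- The ordered product of real powers. -/
def tau {U : Type} [Amb U] {D : ℕ} (e : Fin D → U) (v : Fin D → ℝ) : U :=
  (List.ofFn fun i => pw (v i) (e i)).prod

/-- Row COO: coordinates of an abelian quotient. -/
def COO_stmt : Prop := ∀ (U : Type) [Amb U] (H H' : Subgroup U), Rat H → Rat H' → H' ≤ H →
  Nrm H H' → Cm H H H' → ∃ (D : ℕ) (e : Fin D → U) (π : U → Fin D → ℝ) (k : ℕ),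
    (∀ i, e i ∈ (La : Subgroup U) ∧ e i ∈ H) ∧
    (∀ x ∈ H, ∀ y ∈ H, π (x * y) = π x + π y) ∧ (∀ x ∈ H, π x = 0 ↔ x ∈ H') ∧
    (∀ i, π (e i) = Pi.single i 1) ∧ ContinuousOn π (H : Set U) ∧ 1 ≤ k ∧
    (∀ γ ∈ (La : Subgroup U), γ ∈ H → ∀ i, ∃ j : ℤ, k * π γ i = j) ∧
    ∀ v : Fin D → ℝ, tau e v ∈ H ∧ π (tau e v) = v

/-! ### Filtrations -/

/-- The filtration of the square (degree `d - 1`). -/
def Gsq {U : Type} [Amb U] (Gf : ℕ → Subgroup U) (d i : ℕ) : Subgroup (U × U) :=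
  if i = 0 then FP (Gf 0) (Gf 2) else if i < d then FP (Gf i) (Gf (i + 1)) else
    FP (Gf d) (Gf (d + 1))

/-- The filtration of the triple fibre product. -/
def G3 {U : Type} [Amb U] (Gf : ℕ → Subgroup U) (J : Subgroup U) (i : ℕ) : Subgroup (U × U × U) :=
  FP3 (Gf i) (J ⊓ Gf i)

/-- Row FIL: the filtrations which are used. -/
def FIL_stmt : Prop := ∀ (U : Type) [Amb U] (Gf : ℕ → Subgroup U) (d : ℕ), Filt Gf d →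
  (2 ≤ d → Filt (Gsq Gf d) (d - 1)) ∧
  (∀ J : Subgroup U, Rat J → Nrm (Gf 0) J → Gf (d + 1) ≤ J → J ≤ Gf 0 → Filt (G3 Gf J) d) ∧
  (1 ≤ d → Filt (fun i => Gf (min i d)) (d - 1)) ∧
  (∀ z, Cen (Gf 0) (Gf (d + 1)) z → Filt (fun i => adj (Gf i) z) d) ∧
  (∀ χ, Chr (Gf 0) (Gf 0) (Gf (d + 1)) χ → Filt (fun i => Gf i ⊓ kerS (Gf 0) χ) d) ∧
  (∀ χ, Chr (Gf 0) (Gf 0) (Gf (d + 1)) χ →
    Filt (fun i => if i ≤ 1 then Gf 0 else Gf i ⊓ kerS (Gf 0) χ) d)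

/-- Row FIP: products of filtrations. -/
def FIP_stmt : Prop := ∀ (U V : Type) [Amb U] [Amb V] (Gf : ℕ → Subgroup U) (Gf' : ℕ → Subgroup V)
  (d : ℕ), Filt Gf d → Filt Gf' d → Filt (fun i => (Gf i).prod (Gf' i)) d

/-! ### Polynomial maps -/

/-- Row LBM: polynomial maps form a group (Lazard, Leibman). -/
def LBM_stmt : Prop := ∀ (U : Type) [Amb U] (A : Type) [AddCommGroup A] (Gf : ℕ → Subgroup U)
  (d : ℕ), Filt Gf d →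
  (∀ (i : ℕ) (g g' : A → U), PS Gf i g → PS Gf i g' → PS Gf i fun n => g n * g' n) ∧
  (∀ (i : ℕ) (g : A → U), PS Gf i g → PS Gf i fun n => (g n)⁻¹) ∧
  (∀ (i j : ℕ) (g g' : A → U), PS Gf i g → PS Gf j g' →
    PS Gf (i + j) fun n => g n * g' n * (g n)⁻¹ * (g' n)⁻¹) ∧
  (∀ (i : ℕ) (x : U), x ∈ Gf i → PS Gf i fun _ : A => x) ∧
  (∀ (i : ℕ) (g : A → U), PS Gf (i + 1) g → PS Gf i g) ∧
  (∀ (i : ℕ) (g : A → U), PS Gf i g ↔ (∀ n, g n ∈ Gf i) ∧ ∀ h, PS Gf (i + 1) (dif h g)) ∧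
  ∀ (i : ℕ) (g : A → U), (∀ n, g n ∈ Gf (d + 1)) → PS Gf i g

/-- Row LBN: polynomial maps with values in a normal subgroup, affine substitutions, products and
projections. -/
def LBN_stmt : Prop := ∀ (U : Type) [Amb U] (A : Type) [AddCommGroup A] (Gf : ℕ → Subgroup U)
  (i : ℕ) (g : A → U),
  (∀ (B : Type) [AddCommGroup B] (f : B →+ A) (a : A), PS Gf i g → PS Gf i fun n => g (f n + a)) ∧
  (∀ J : Subgroup U, (PS (fun i => J ⊓ Gf i) i g ↔ PS Gf i g ∧ ∀ n, g n ∈ J)) ∧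
  (∀ (V : Type) [Amb V] (Gf' : ℕ → Subgroup V) (g' : A → V),
    (PS (fun i => (Gf i).prod (Gf' i)) i (fun n => (g n, g' n)) ↔ PS Gf i g ∧ PS Gf' i g'))

/-- Row TRP: the triple of section 4 is a polynomial map. -/
def TRP_stmt : Prop := ∀ (U : Type) [Amb U] (A : Type) [AddCommGroup A] (Gf : ℕ → Subgroup U)
  (d : ℕ) (J : Subgroup U), Filt Gf d → Rat J → Nrm (Gf 0) J → Gf (d + 1) ≤ J → J ≤ Gf 0 →
  ∀ g n n' : A → U, PS Gf 0 g → PS (fun i => J ⊓ Gf i) 0 n → PS (fun i => J ⊓ Gf i) 0 n' →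
  PS (G3 Gf J) 0 fun m => (g m, n m * g m, n' m * g m)

/-- Row RPO: a function on `ℤ^r` with vanishing differences of order `D + 1` is a polynomial. -/
def RPO_stmt : Prop := ∀ (r d D : ℕ) (P : (Fin r → ℤ) → ℝ), D ≤ d →
  (∀ (l : List (Fin r → ℤ)) (n : Fin r → ℤ), l.length = D + 1 →
    l.foldr (fun h (Q : (Fin r → ℤ) → ℝ) => fun n => Q (n + h) - Q n) P n = 0) →
  ∃ c : (Fin r → Fin (d + 1)) → ℝ, (∀ x : Fin r → ℤ, P x = mev c fun i => (x i : ℝ)) ∧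
    ∀ a : Fin r → Fin (d + 1), D < ∑ i, (a i : ℕ) → c a = 0

/-- Row DEG: an additive function along a polynomial map is a polynomial. -/
def DEG_stmt : Prop := ∀ (U : Type) [Amb U] (Gf : ℕ → Subgroup U) (d D r : ℕ) (J : Subgroup U)
  (χ : U → ℝ) (n : (Fin r → ℤ) → U), D ≤ d →
  (∀ x ∈ J, ∀ y ∈ J, χ (x * y) = χ x + χ y) → (∀ x ∈ J ⊓ Gf (D + 1), χ x = 0) →
  PS (fun i => J ⊓ Gf i) 0 n →
  ∃ c : (Fin r → Fin (d + 1)) → ℝ, (∀ x : Fin r → ℤ, χ (n x) = mev c fun i => (x i : ℝ)) ∧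
    ∀ a : Fin r → Fin (d + 1), D < ∑ i, (a i : ℕ) → c a = 0

/-- Row SIG: real powers with polynomial exponents are polynomial maps. -/
def SIG_stmt : Prop := ∀ (U : Type) [Amb U] (Gf : ℕ → Subgroup U) (d j r : ℕ) (x : U)
  (c : (Fin r → Fin (d + 1)) → ℝ), Filt Gf d → x ∈ Gf j →
  (∀ a : Fin r → Fin (d + 1), j < ∑ i, (a i : ℕ) → c a = 0) →
  PS Gf 0 fun n : Fin r → ℤ => pw (mev c fun i => (n i : ℝ)) x

/-- Row LEV: a character of `J` is detected by an element of the lattice at its last level. -/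
def LEV_stmt : Prop := ∀ (U : Type) [Amb U] (Gf : ℕ → Subgroup U) (d : ℕ) (J : Subgroup U)
  (χ : U → ℝ), Filt Gf d → Rat J → Nrm (Gf 0) J → Gf (d + 1) ≤ J → J ≤ Gf 0 →
  Chr (Gf 0) J (Gf (d + 1)) χ →
  ∃ (j M : ℕ) (s : U), 1 ≤ j ∧ j ≤ d ∧ 1 ≤ M ∧ s ∈ J ⊓ Gf j ∧ (∀ x ∈ J ⊓ Gf (j + 1), χ x = 0) ∧
    χ s = 1 ∧ pw M s ∈ (La : Subgroup U)

/-! ### Characters of fibre products -/

/-- Row CHF: characters of the fibre products. -/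
def CHF_stmt : Prop := ∀ (U : Type) [Amb U] (G J : Subgroup U), Rat G → Rat J → J ≤ G → Nrm G J →
  (∀ (M : Subgroup U) (M' : Subgroup (U × U)) (θ : U × U → ℝ), Chr (FP G J) (FP G J) M' θ →
    (∀ m ∈ M, (m, (1 : U)) ∈ M' ∧ (m, m) ∈ M') → M ≤ J →
    ∃ η₁ η₂ : U → ℝ, (∀ q ∈ FP G J, θ q = η₁ q.2 + η₂ (q.1 * q.2⁻¹)) ∧
      ((∀ x ∈ G, η₁ x = 0) ∨ Chr G G M η₁) ∧ ((∀ x ∈ J, η₂ x = 0) ∨ Chr G J M η₂) ∧
      ((∃ x ∈ G, η₁ x ≠ 0) ∨ ∃ x ∈ J, η₂ x ≠ 0)) ∧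
  (∀ (M : Subgroup U) (M' : Subgroup (U × U × U)) (θ : U × U × U → ℝ),
    Chr (FP3 G J) (FP3 G J) M' θ →
    (∀ m ∈ M, (m, m, m) ∈ M' ∧ ((1 : U), m, (1 : U)) ∈ M' ∧ ((1 : U), (1 : U), m) ∈ M') → M ≤ J →
    ∃ η₁ η₂ η₃ : U → ℝ,
      (∀ q ∈ FP3 G J, θ q = η₁ q.1 + η₂ (q.2.1 * q.1⁻¹) + η₃ (q.2.2 * q.1⁻¹)) ∧
      ((∀ x ∈ G, η₁ x = 0) ∨ Chr G G M η₁) ∧ ((∀ x ∈ J, η₂ x = 0) ∨ Chr G J M η₂) ∧
      ((∀ x ∈ J, η₃ x = 0) ∨ Chr G J M η₃) ∧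
      ((∃ x ∈ G, η₁ x ≠ 0) ∨ (∃ x ∈ J, η₂ x ≠ 0) ∨ ∃ x ∈ J, η₃ x ≠ 0))

/-! ### Functions -/

/-- The Fourier coefficient along `z`. -/
def fz {U : Type} [Amb U] (z : U) (k : ℤ) (F : U → ℂ) (x : U) : ℂ :=
  ∫ t in (0 : ℝ)..1, F (pw t z * x) * ee (-(k * t))

/-- Row FOU: Fourier coefficients along a central one-parameter group. -/
def FOU_stmt : Prop := ∀ (U : Type) [Amb U] (G M : Subgroup U) (z : U) (F : U → ℂ), Rat G → Rat M →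
  M ≤ G → Nrm G M → Cen G M z → Fn G M F →
  (∀ k : ℤ, Fn G M (fz z k F) ∧ Vrt G (fz z k F) z k) ∧ Fn G (adj M z) (fz z 0 F) ∧
  (∀ (w : U) (k j : ℤ), w ∈ G → Vrt G F w j → Vrt G (fz z k F) w j) ∧
  ∀ ε : ℝ, 0 < ε → ∃ (K : ℕ) (c : ℤ → ℝ), (∀ k, |c k| ≤ 1) ∧ c 0 = 1 ∧
    ∀ x ∈ G, ‖F x - ∑ k ∈ Icc (-(K : ℤ)) K, (c k : ℂ) * fz z k F x‖ ≤ ε

/-- Row FNC: constructions of functions: left translates, restriction to a rational subgroup,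
products on `G × G`. -/
def FNC_stmt : Prop := ∀ (U : Type) [Amb U] (G M : Subgroup U) (F : U → ℂ), Rat G → Nrm G M →
  Fn G M F →
  (∀ y ∈ G, Fn G M fun x => F (y * x)) ∧
  (∀ G' M' : Subgroup U, G' ≤ G → M' ≤ M → Fn G' M' F) ∧
  (∀ (V : Type) [Amb V] (G' M' : Subgroup V) (F' : V → ℂ), Fn G' M' F' →
    Fn (G.prod G') (M.prod M') fun q => F q.1 * (starRingEnd ℂ) (F' q.2))

end

end Pool.Agent.NG
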