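import Mathlib
import Pool.Agent.Lib.NG.A
import Pool.Agent.Lib.NG.ARows
import Pool.Agent.Lib.NV.Defs

/-!
# NVG2 (MP_663568_nt), part C: the property PL, data, and the rows of sections 3, 5 and 6

Paper: nvg2_MP_663568_nt_h30.  (helper30)
-/

set_option autoImplicit false
open Finset Topology Polynomial

namespace Pool.Agent.NG

open Amb Pool.Agent.Lib.MP_663568_nt Pool.Agent.Lib.MP_663568_nt.Katai
  Pool.Agent.Lib.MP_663568_nt.Nul Pool.Agent.SV Pool.Agent.VQ Pool.Agent.NV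

noncomputable section

/-! ### Leibman's theorem on boxes (the black box of part B) -/

/-- Leibman's theorem for polynomial maps on `ℤ^r` and functions with a nonzero character along a
central one parameter group. -/
def LEIB (r : ℕ) : Prop := ∀ (U : Type) [Amb U] (Gf : ℕ → Subgroup U) (d : ℕ) (z : U) (k : ℤ)
  (F : U → ℂ) (c : ℝ), Filt Gf d → Cen (Gf 0) (Gf (d + 1)) z → k ≠ 0 →
  Fn (Gf 0) (Gf (d + 1)) F → Vrt (Gf 0) F z k → 0 < c →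
  ∃ (X : List (U → ℝ)) (E : ℝ) (Q L₀ : ℕ), (∀ χ ∈ X, Chr (Gf 0) (Gf 0) (Gf (d + 1)) χ) ∧
    0 ≤ E ∧ 1 ≤ Q ∧ ∀ (L : Fin r → ℕ), (∀ i, L₀ ≤ L i) → ∀ g : (Fin r → ℤ) → U, PS Gf 0 g →
    c * ∏ i, (L i : ℝ) ≤ ‖∑ x ∈ box L, F (g x)‖ → ∃ χ ∈ X, Near r d E Q L fun x => χ (g x)

section
variable {U : Type} [Amb U]

/-- A rational subgroup between `M` and `G`, normal in `G`. -/
structure Nor (Gf : ℕ → Subgroup U) (d : ℕ) (J : Subgroup U) : Prop where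
  rat : Rat J
  le : J ≤ Gf 0
  ge : Gf (d + 1) ≤ J
  nrm : Nrm (Gf 0) J

/-- The filtration `J ∩ G_i`. -/
def cut (J : Subgroup U) (Gf : ℕ → Subgroup U) (i : ℕ) : Subgroup U := J ⊓ Gf i

/-! ### The property PL (section 3) -/

/-- **Property PL**, with the polynomial map `n`: for the `m` of `[m₀, m₀ + L)` in the class `a`
modulo `q` the shift by `Q h` is the left multiplication by `n (m, h) ∈ J`, up to a small factor on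
the left and a factor of the lattice on the right.  (`q ∣ Q`; `q` is the modulus of the class, `Q` the
step.) -/
def PLn (Gf : ℕ → Subgroup U) (J : Subgroup U) (a : ℤ) (q Q : ℕ) (E : ℝ) (m₀ L l : ℕ)
    (g : ℤ → U) (n : (Fin 2 → ℤ) → U) : Prop :=
  PS (cut J Gf) 0 n ∧ (∀ m : ℤ, n ![m, 0] = 1) ∧
  ∀ m h : ℤ, (m₀ : ℤ) ≤ m → m < m₀ + L → m ≡ a [ZMOD q] → 0 ≤ h → E * ((h : ℝ) * Q) ≤ l →
    ∃ k ∈ Gf 0, nm k ≤ E * ((h : ℝ) * Q) / l ∧ ∃ γ ∈ (La : Subgroup U), γ ∈ Gf 0 ∧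
      g (m + Q * h) = k * n ![m, h] * g m * γ

/-- Property PL. -/
def PL (Gf : ℕ → Subgroup U) (J : Subgroup U) (a : ℤ) (q Q : ℕ) (E : ℝ) (m₀ L l : ℕ)
    (g : ℤ → U) : Prop := ∃ n : (Fin 2 → ℤ) → U, PLn Gf J a q Q E m₀ L l g n

/-- The function `P` on `[m₀, m₀ + L)` is a polynomial with almost rational coefficients. -/
def Nr1 (d : ℕ) (E : ℝ) (Q m₀ L : ℕ) (P : ℤ → ℝ) : Prop :=
  Near 1 d E Q ![L] fun u => P (m₀ + u 0)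

open Classical in
/-- The window means of `f` in the class `a` modulo `q` are large for many base points. -/
def Mny (c : ℝ) (a : ℤ) (q m₀ L l : ℕ) (f : ℤ → ℂ) : Prop :=
  c * L ≤ (#((Ico m₀ (m₀ + L)).filter fun m : ℕ =>
    c * l ≤ ‖∑ h ∈ Icc 1 l, if ((m : ℤ) + h) ≡ a [ZMOD q] then f (m + h) else 0‖) : ℝ)

end

/-- Row PLM: PL is monotone in the cell, the windows and the constant, and passes to classes of a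
multiple of the modulus, to multiples of the step and to larger groups and filtrations. -/
def PLM_stmt : Prop := ∀ (U : Type) [Amb U] (Gf Gf' : ℕ → Subgroup U) (J J' : Subgroup U)
  (a a' : ℤ) (q q' Q Q' : ℕ) (E E' : ℝ) (m₀ L l m₀' L' l' : ℕ) (g : ℤ → U),
  (∀ i, Gf i ≤ Gf' i) → J ≤ J' → q ∣ q' → 1 ≤ Q' → Q ∣ Q' → a' ≡ a [ZMOD q] → 0 < E → E ≤ E' →
  m₀ ≤ m₀' → m₀' + L' ≤ m₀ + L → 1 ≤ l' → l' ≤ l → PL Gf J a q Q E m₀ L l g →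
  PL Gf' J' a' q' Q' E' m₀' L' l' g

/-- Row PLD: dilations. -/
def PLD_stmt : Prop := ∀ (U : Type) [Amb U] (Gf : ℕ → Subgroup U) (J : Subgroup U)
  (p q Q : ℕ) (a a' : ℤ) (E : ℝ) (m₀ L l L' l' : ℕ) (g : ℤ → U), 1 ≤ p → 0 < E →
  (p : ℤ) * a' ≡ a [ZMOD q] → p * L' ≤ L → 1 ≤ l' → p * l' ≤ l →
  PL Gf J a q Q E (p * m₀) L l g → PL Gf J a' q Q E m₀ L' l' fun m => g (p * m)

/-- Row PLG: PL holds for `J = G`. -/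
def PLG_stmt : Prop := ∀ (U : Type) [Amb U] (Gf : ℕ → Subgroup U) (d : ℕ) (a : ℤ) (q Q : ℕ)
  (E : ℝ) (m₀ L l : ℕ) (g : ℤ → U), Filt Gf d → 0 < E → PS Gf 0 g →
  PL Gf (Gf 0) a q Q E m₀ L l g

/-- Row LOW (3.1): one character. -/
def LOW' : Prop := ∀ (U : Type) [Amb U] (Gf : ℕ → Subgroup U) (d : ℕ) (J : Subgroup U)
  (η : U → ℝ) (q Q Q₁ : ℕ) (E E₁ : ℝ), Filt Gf d → Nor Gf d J → Chr (Gf 0) J (Gf (d + 1)) η →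
  1 ≤ q → 1 ≤ Q → q ∣ Q → 1 ≤ Q₁ → 0 < E → 0 < E₁ →
  ∃ (Q' : ℕ) (E' : ℝ), 1 ≤ Q' ∧ 0 < E' ∧ Q ∣ Q' ∧ ∀ (a b : ℤ) (m₀ L l L' l' : ℕ) (g : ℤ → U)
  (n : (Fin 2 → ℤ) → U), PS Gf 0 g → PLn Gf J a q Q E m₀ L l g n → b ≡ a [ZMOD q] →
  (m₀ : ℤ) ≤ b → b < m₀ + q → 1 ≤ L' → 1 ≤ l' → L ≤ E₁ * L' → l ≤ E₁ * l' →
  Near 2 d E₁ Q₁ ![L', l'] (fun u => η (n ![b + q * u 0, u 1])) →
  PL Gf (kerS J η) a q Q' E' m₀ L l g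

/-- Lemma LJ (section 4): large windows of a function with a nonzero character along a central one
parameter group of `J`. -/
def LJ' : Prop := ∀ (U : Type) [Amb U] (Gf : ℕ → Subgroup U) (d : ℕ) (J : Subgroup U) (z : U)
  (k : ℤ) (F : U → ℂ) (q Q : ℕ) (E c : ℝ), Filt Gf d → Nor Gf d J →
  Cen (Gf 0) (Gf (d + 1)) z → z ∈ J → k ≠ 0 → Fn (Gf 0) (Gf (d + 1)) F → Vrt (Gf 0) F z k →
  1 ≤ q → 1 ≤ Q → q ∣ Q → 0 < E → 0 < c →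
  ∃ (X Y : List (U → ℝ)) (Q' : ℕ) (E' : ℝ) (l₀ : ℕ),
    (∀ χ ∈ X, Chr (Gf 0) (Gf 0) (Gf (d + 1)) χ) ∧ (∀ η ∈ Y, Chr (Gf 0) J (Gf (d + 1)) η) ∧
    1 ≤ Q' ∧ 0 < E' ∧ Q ∣ Q' ∧ ∀ (a : ℤ) (m₀ L l : ℕ) (g : ℤ → U), PS Gf 0 g → l₀ ≤ l →
    l * l ≤ L → PL Gf J a q Q E m₀ (2 * L) l g → Mny c a q m₀ L l (fun m => F (g m)) →
    (∃ χ ∈ X, Nr1 d E' Q' m₀ (2 * L) fun m => χ (g m)) ∨
    ∃ η ∈ Y, PL Gf (kerS J η) a q Q' E' m₀ (2 * L) l g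

/-- Section 3 to lemma LJ. -/
def LJ_stmt : Prop := LEIB 3 → LOW' → LJ'

/-! ### Two systems (section 5) -/

section
variable {U : Type} [Amb U]

/-- `z` is the commutator of two elements of the lattice, and so are its powers modulo `M`. -/
structure CC (Gf : ℕ → Subgroup U) (d : ℕ) (N : Subgroup U) (z g₀ v₀ : U) : Prop where
  g : g₀ ∈ Gf 0
  v : v₀ ∈ N
  eq : ∀ t : ℝ, (pw t z)⁻¹ * (g₀ * pw t v₀ * g₀⁻¹ * (pw t v₀)⁻¹) ∈ Gf (d + 1)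

/-- Zero or a character. -/
def Chr0 (Gf : ℕ → Subgroup U) (d : ℕ) (χ : U → ℝ) : Prop :=
  (∀ x, χ x = 0) ∨ Chr (Gf 0) (Gf 0) (Gf (d + 1)) χ

end

/-- **Section 5**: two systems whose functions correlate on many windows. -/
def TWO' : Prop := ∀ (U : Type) [Amb U] (Gf : ℕ → Subgroup U) (d : ℕ) (N : Subgroup U)
  (z g₀ v₀ : U) (k : ℤ) (F : U → ℂ) (q Q : ℕ) (E c : ℝ), Filt Gf d → Nor Gf d N →
  Cen (Gf 0) (Gf (d + 1)) z → CC Gf d N z g₀ v₀ → k ≠ 0 → Fn (Gf 0) (Gf (d + 1)) F →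
  Vrt (Gf 0) F z k → 1 ≤ q → 1 ≤ Q → q ∣ Q → 0 < E → 0 < c →
  ∃ (X : List ((U → ℝ) × (U → ℝ))) (Y : List (Subgroup U)) (Q' : ℕ) (E' : ℝ) (l₀ : ℕ),
    (∀ r ∈ X, Chr0 Gf d r.1 ∧ Chr0 Gf d r.2 ∧ ((∃ x, r.1 x ≠ 0) ∨ ∃ x, r.2 x ≠ 0)) ∧
    (∀ N₁ ∈ Y, Nor Gf d N₁ ∧ N₁ < N) ∧ 1 ≤ Q' ∧ 0 < E' ∧ Q ∣ Q' ∧
    ∀ (a : ℤ) (m₀ L l : ℕ) (g g' : ℤ → U), PS Gf 0 g → PS Gf 0 g' → l₀ ≤ l → l * l ≤ L →
    PL Gf N a q Q E m₀ (2 * L) l g → PL Gf N a q Q E m₀ (2 * L) l g' →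
    Mny c a q m₀ L l (fun m => F (g m) * (starRingEnd ℂ) (F (g' m))) →
    (∃ r ∈ X, Nr1 d E' Q' m₀ (2 * L) fun m => r.1 (g m) - r.2 (g' m)) ∨
    ∃ N₁ ∈ Y, PL Gf N₁ a q Q' E' m₀ (2 * L) l g ∨ PL Gf N₁ a q Q' E' m₀ (2 * L) l g'
def TWO_stmt : Prop := LJ' → TWO'

/-! ### Data and slow families -/

section
variable {U : Type} [Amb U]

/-- The data of a nilsequence: a polynomial sequence and a set of residue classes. -/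
structure Dat (Gf : ℕ → Subgroup U) (q : ℕ) where
  g : ℤ → U
  ps : PS Gf 0 g
  A : Set (ZMod q)

theorem foldr_dif_dil (p : ℤ) (g : ℤ → U) (l : List ℤ) (n : ℤ) :
    l.foldr dif (fun m => g (p * m)) n = (l.map fun h => p * h).foldr dif g (p * n) := by
  induction l generalizing n with
  | nil => rfl
  | cons h l ih =>
    change (l.foldr dif (fun m => g (p * m))) (n + h) *
      ((l.foldr dif (fun m => g (p * m))) n)⁻¹ =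
      ((l.map fun h => p * h).foldr dif g) (p * n + p * h) *
      (((l.map fun h => p * h).foldr dif g) (p * n))⁻¹
    rw [ih, ih, mul_add]

theorem PS.dil {Gf : ℕ → Subgroup U} {g : ℤ → U} (hg : PS Gf 0 g) (p : ℤ) :
    PS Gf 0 fun m => g (p * m) := by
  intro l n
  rw [foldr_dif_dil]
  have h := hg (l.map fun h => p * h) (p * n)
  rwa [List.length_map] at h

theorem foldr_dif_one (l : List ℤ) (n : ℤ) : l.foldr dif (fun _ : ℤ => (1 : U)) n = 1 := by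
  induction l generalizing n with
  | nil => rfl
  | cons h l ih =>
    change (l.foldr dif (fun _ : ℤ => (1 : U))) (n + h) *
      ((l.foldr dif (fun _ : ℤ => (1 : U))) n)⁻¹ = 1
    rw [ih, ih]
    simp

theorem PS.one (Gf : ℕ → Subgroup U) : PS Gf 0 fun _ : ℤ => (1 : U) := by
  intro l n
  rw [foldr_dif_one]
  exact one_mem _

namespace Dat

variable {Gf : ℕ → Subgroup U} {q : ℕ}

open Classical in
/-- The nilsequence. -/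
def ev (F : U → ℂ) (x : Dat Gf q) (m : ℕ) : ℂ := if (m : ZMod q) ∈ x.A then F (x.g m) else 0

/-- The dilated data. -/
def dl (p : ℕ) (x : Dat Gf q) : Dat Gf q :=
  ⟨fun m => x.g (p * m), x.ps.dil p, {m | (p : ZMod q) * m ∈ x.A}⟩

/-- The empty data. -/
def nul : Dat Gf q := ⟨fun _ => 1, PS.one Gf, ∅⟩

/-- PL, with the step `Q`, for all the classes of the data. -/
def PLs (Q : ℕ) (N : Subgroup U) (E : ℝ) (m₀ L l : ℕ) (x : Dat Gf q) : Prop :=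
  ∀ a : ℤ, (a : ZMod q) ∈ x.A → PL Gf N a q Q E m₀ L l x.g

open Classical in
/-- The coefficient of `m ^ k` in `χ (g m)` (zero if this is not a polynomial). -/
def cof (χ : U → ℝ) (k : ℕ) (x : Dat Gf q) : ℝ :=
  if h : ∃ P : ℝ[X], ∀ m : ℤ, χ (x.g m) = P.eval (m : ℝ) then h.choose.coeff k else 0

end Dat

end

/-- The means of the windows along slow families with the local property `P` are small. -/
def Sm {α : Type} (ev : α → ℕ → ℂ) (P : ℕ → ℝ → ℕ → α → Prop) : Prop :=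
  ∀ A ε : ℝ, 0 ≤ A → 0 < ε → ∃ (B : ℝ) (H₀ : ℕ), 0 ≤ B ∧ ∀ H : ℕ, H₀ ≤ H →
  ∀ xa xb : ℝ, (H : ℝ) ^ B ≤ xa → xa * H ≤ xb → ∀ X : ℕ → α, SlowA X ((H : ℝ) ^ A) →
  (∀ m : ℕ, 1 ≤ m → P H A m (X m)) →
  ∑ n ∈ Ioc ⌊xa⌋₊ ⌊xb⌋₊, (1 / (n : ℝ)) * Wg H n (ev (X n)) ≤ ε * (Real.log xb - Real.log xa)

section
variable {U : Type} [Amb U]

/-- **The statement NS (G, N)** (section 6). -/
def NS (Gf : ℕ → Subgroup U) (d : ℕ) (N : Subgroup U) : Prop :=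
  ∀ F : U → ℂ, Fn (Gf 0) (Gf (d + 1)) F → ∀ (q Q : ℕ) (E : ℝ), 1 ≤ q → 1 ≤ Q → q ∣ Q →
  0 < E → Sm (Dat.ev F) fun H A m (x : Dat Gf q) => x.PLs Q N E m ⌊(m : ℝ) / (H : ℝ) ^ A⌋₊ H

/-- The statement for functions with a nonzero character along `z` and single classes. -/
def NSV (Gf : ℕ → Subgroup U) (d : ℕ) (N : Subgroup U) (z : U) : Prop :=
  ∀ (F : U → ℂ) (k : ℤ), Fn (Gf 0) (Gf (d + 1)) F → (∀ x ∈ Gf 0, ‖F x‖ ≤ 1) → k ≠ 0 →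
  Vrt (Gf 0) F z k → ∀ (q Q : ℕ) (E : ℝ), 1 ≤ q → 1 ≤ Q → q ∣ Q → 0 < E →
  Sm (Dat.ev F) fun H A m (x : Dat Gf q) =>
    x.A.Subsingleton ∧ x.PLs Q N E m ⌊(m : ℝ) / (H : ℝ) ^ A⌋₊ H

/-- The statement for families along which the character `χ` is almost rational. -/
def NSL (Gf : ℕ → Subgroup U) (d : ℕ) (N : Subgroup U) (χ : U → ℝ) : Prop :=
  ∀ F : U → ℂ, Fn (Gf 0) (Gf (d + 1)) F → ∀ (q Q Q₁ : ℕ) (E : ℝ), 1 ≤ q → 1 ≤ Q → q ∣ Q →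
  1 ≤ Q₁ → 0 < E → Sm (Dat.ev F) fun H A m (x : Dat Gf q) =>
    x.PLs Q N E m ⌊(m : ℝ) / (H : ℝ) ^ A⌋₊ H ∧
    Nr1 d E Q₁ m ⌊(m : ℝ) / (H : ℝ) ^ A⌋₊ fun i => χ (x.g i)

/-- The filtration of the kernel of `χ`. -/
def kf (Gf : ℕ → Subgroup U) (χ : U → ℝ) (i : ℕ) : Subgroup U := Gf i ⊓ kerS (Gf 0) χ

/-- The filtration of `G` modulo `M` and the powers of `z`. -/
def af (Gf : ℕ → Subgroup U) (z : U) (i : ℕ) : Subgroup U := adj (Gf i) z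

end

/-! ### Generic rows and rows on polynomials -/

/-- Row CELL: a family which on each cell is a sum of data of finitely many types. -/
def CELL' : Prop := ∀ (α : Type) (ev : α → ℕ → ℂ) (P : ℕ → ℝ → ℕ → α → Prop) (B₀ : ℝ),
  (∀ x m, ‖ev x m‖ ≤ B₀) →
  (∀ A ε : ℝ, 0 ≤ A → 0 < ε → ∃ (T : ℕ) (β : Type) (ev' : Fin T → β → ℕ → ℂ)
    (P' : Fin T → ℕ → ℝ → ℕ → β → Prop) (A₁ : ℝ) (H₁ : ℕ), A ≤ A₁ ∧
    (∀ j, Sm (ev' j) (P' j)) ∧ (∃ y : β, ∀ j H A m, P' j H A m y) ∧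
    ∀ (H m₀ : ℕ) (x : α), H₁ ≤ H → (H : ℝ) ^ (A₁ + 3) ≤ m₀ → P H A m₀ x →
    ∃ y : Fin T → β, ∀ m : ℕ, m₀ ≤ m → (m : ℝ) ≤ m₀ + m₀ / (H : ℝ) ^ A₁ →
      ‖ev x m - ∑ j, ev' j (y j) m‖ ≤ ε ∧ ∀ j, P' j H (A₁ + 2) m (y j)) →
  Sm ev P

/-- Row SCL: multiples. -/
def SCL_stmt : Prop := ∀ (α : Type) (ev : α → ℕ → ℂ) (P P' : ℕ → ℝ → ℕ → α → Prop) (c : ℂ),
  Sm ev P → (∀ H A m x, 1 ≤ H → P' H A m x → P H A m x) → Sm (fun x m => c * ev x m) P'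

/-- Row NRP: from a progression to all the integers. -/
def NRP_stmt : Prop := ∀ (d q Q₁ : ℕ) (E : ℝ), 1 ≤ q → 1 ≤ Q₁ → 0 < E →
  ∃ (Q' : ℕ) (E' : ℝ), 1 ≤ Q' ∧ 0 < E' ∧ Q₁ ∣ Q' ∧ ∀ (m₀ L L' : ℕ) (b : ℤ) (P : ℤ → ℝ),
  (∃ R : ℝ[X], R.natDegree ≤ d ∧ ∀ m : ℤ, P m = R.eval (m : ℝ)) → (m₀ : ℤ) ≤ b →
  b < m₀ + q → 1 ≤ L' → L ≤ E * L' → Near 1 d E Q₁ ![L'] (fun u => P (b + q * u 0)) →
  Nr1 d E' Q' m₀ L P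

/-- Row NRG: from one cell to the coefficients. -/
def NRG_stmt : Prop := ∀ d : ℕ, ∃ C : ℝ, 1 ≤ C ∧ ∀ (Q m₀ L : ℕ) (E R : ℝ) (P : ℤ → ℝ) (p : ℝ[X]),
  1 ≤ Q → 0 ≤ E → 1 ≤ L → 1 ≤ R → (m₀ : ℝ) ≤ R * L → (∀ m : ℤ, P m = p.eval (m : ℝ)) →
  Nr1 d E Q m₀ L P → ∀ k : ℕ, 1 ≤ k → k ≤ d → 1 ≤ m₀ →
    ∃ j : ℤ, |p.coeff k - j / Q| ≤ C * E * R ^ d / (m₀ : ℝ) ^ k

/-- Row NRL: from the coefficients to one cell. -/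
def NRL_stmt : Prop := ∀ d : ℕ, ∃ C : ℝ, 1 ≤ C ∧ ∀ (Q m₀ L : ℕ) (τ : ℝ) (P : ℤ → ℝ) (p : ℝ[X]),
  1 ≤ Q → 1 ≤ τ → 1 ≤ m₀ → 1 ≤ L → C * τ * L ≤ m₀ → p.natDegree ≤ d → (∀ m : ℤ, P m = p.eval (m : ℝ)) →
  (∀ k : ℕ, 1 ≤ k → k ≤ d → ∃ j : ℤ, |p.coeff k - j / Q| ≤ τ / (m₀ : ℝ) ^ k) →
  Nr1 d 1 Q m₀ L P

/-- Row NRM: monotonicity and sums. -/
def NRM_stmt : Prop := ∀ d : ℕ, (∀ (Q Q' m₀ L L' : ℕ) (E E' : ℝ) (P : ℤ → ℝ), Q ∣ Q' → 1 ≤ Q' →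
    L' ≤ L → 1 ≤ L' → 0 ≤ E → E ≤ E' → Nr1 d E Q m₀ L P → Nr1 d E' Q' m₀ L' P) ∧
  (∀ (Q m₀ L : ℕ) (E : ℝ) (P : ℤ → ℝ), 0 ≤ E → Nr1 d E Q m₀ L P →
    Nr1 d (2 ^ d * E) Q m₀ (2 * L) P) ∧
  ∃ C : ℝ, 1 ≤ C ∧ ∀ (Q m₀ m₁ L L' : ℕ) (E R : ℝ) (P : ℤ → ℝ), 1 ≤ Q → 0 ≤ E → 1 ≤ R →
    m₀ ≤ m₁ → (m₁ : ℝ) ≤ m₀ + R * L → L' ≤ L → 1 ≤ L' → Nr1 d E Q m₀ L P →
    Nr1 d (C * R ^ d * E) Q m₁ L' P

/-- Row CHP: characters along polynomial sequences. -/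
def CHP_stmt : Prop := ∀ (U : Type) [Amb U] (Gf : ℕ → Subgroup U) (d : ℕ) (χ : U → ℝ), Filt Gf d →
  Chr0 Gf d χ → ∀ g : ℤ → U, PS Gf 0 g →
  ∃ P : ℝ[X], P.natDegree ≤ d ∧ ∀ m : ℤ, χ (g m) = P.eval (m : ℝ)

/-! ### The one sided long case -/

/-- Row RED: the reduction to the kernel of `χ` on one cell. -/
def RED' : Prop := ∀ (U : Type) [Amb U] (Gf : ℕ → Subgroup U) (d : ℕ) (N : Subgroup U)
  (χ : U → ℝ) (F : U → ℂ) (q Q Q₁ : ℕ) (E ε : ℝ), Filt Gf d → Nor Gf d N →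
  Chr (Gf 0) (Gf 0) (Gf (d + 1)) χ → Fn (Gf 0) (Gf (d + 1)) F → 1 ≤ q → 1 ≤ Q → q ∣ Q →
  1 ≤ Q₁ → 0 < E → 0 < ε →
  ∃ (T : ℕ) (Fs : Fin T → U → ℂ) (Q' : ℕ) (E' : ℝ) (l₀ : ℕ), 1 ≤ Q' ∧ 0 < E' ∧
    (∀ t, Fn (kf Gf χ 0) (kf Gf χ (d + 1)) (Fs t)) ∧
    ∀ (m₀ L l : ℕ) (x : Dat Gf q), l₀ ≤ l → l * l ≤ L → x.PLs Q N E m₀ L l →
    Nr1 d E Q₁ m₀ L (fun i => χ (x.g i)) →
    ∃ y : Fin T → Dat (kf Gf χ) Q',
      (∀ t, (y t).PLs Q' (N ⊓ kerS (Gf 0) χ) E' m₀ L l) ∧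
      ∀ m : ℕ, m₀ ≤ m → l * m ≤ l * m₀ + L → ‖x.ev F m - ∑ t, (y t).ev (Fs t) m‖ ≤ ε
def RED_stmt : Prop := LOW' → RED'

/-- Row ONES: the one sided long case. -/
def ONES' : Prop := ∀ (U : Type) [Amb U] (Gf : ℕ → Subgroup U)
  (d : ℕ) (N : Subgroup U) (χ : U → ℝ), Filt Gf d → Nor Gf d N →
  Chr (Gf 0) (Gf 0) (Gf (d + 1)) χ → NS (kf Gf χ) d (N ⊓ kerS (Gf 0) χ) → NSL Gf d N χ
def ONES_stmt : Prop := RED' → CELL' → PLM_stmt → ONES'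

/-! ### The main step -/

/-- Row STEPV: the functions with a nonzero character along a commutator (by `gstep`). -/
def STEPV' : Prop := ∀ (U : Type) [Amb U] (Gf : ℕ → Subgroup U) (d : ℕ) (N : Subgroup U)
  (z g₀ v₀ : U), Filt Gf d → Nor Gf d N → Cen (Gf 0) (Gf (d + 1)) z → CC Gf d N z g₀ v₀ →
  (∀ N₁ : Subgroup U, Nor Gf d N₁ → N₁ < N → NS Gf d N₁) →
  (∀ χ : U → ℝ, Chr (Gf 0) (Gf 0) (Gf (d + 1)) χ → NSL Gf d N χ) → NSV Gf d N z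
def STEPV_stmt : Prop := TWO' → PLM_stmt → PLD_stmt → NRG_stmt → NRL_stmt → NRM_stmt → CHP_stmt →
  STEPV'

/-- Row SPLIT: Fourier expansion along `z`; single classes. -/
def SPLIT' : Prop := ∀ (U : Type) [Amb U] (Gf : ℕ → Subgroup U) (d : ℕ) (N : Subgroup U) (z : U),
  Filt Gf d → Nor Gf d N → Cen (Gf 0) (Gf (d + 1)) z → NSV Gf d N z → NS (af Gf z) d N →
  NS Gf d N
def SPLIT_stmt : Prop := CELL' → SCL_stmt → PLM_stmt → FOU_stmt → SPLIT'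

/-! ### The case `[G, N] ≤ M` -/

/-- `F` has the character `ξ` along `N`. -/
structure FCh {U : Type} [Amb U] (Gf : ℕ → Subgroup U) (d : ℕ) (N : Subgroup U) (ξ : U → ℝ) (F : U → ℂ) : Prop where
  add : ∀ x ∈ N, ∀ y ∈ N, ξ (x * y) = ξ x + ξ y
  van : ∀ x ∈ Gf (d + 1), ξ x = 0
  eq : ∀ x ∈ N, ∀ y ∈ Gf 0, F (x * y) = ee (ξ x) * F y

/-- Row FUL: expansion in functions with a full character. -/
def FUL' : Prop := ∀ (U : Type) [Amb U] (Gf : ℕ → Subgroup U) (d : ℕ) (N : Subgroup U),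
  Filt Gf d → Nor Gf d N → Cm (Gf 0) N (Gf (d + 1)) → ∀ F : U → ℂ, Fn (Gf 0) (Gf (d + 1)) F →
  ∀ ε : ℝ, 0 < ε → ∃ (T : ℕ) (Fs : Fin T → U → ℂ) (ξ : Fin T → U → ℝ),
    (∀ t, Fn (Gf 0) (Gf (d + 1)) (Fs t)) ∧ (∀ t, FCh Gf d N (ξ t) (Fs t)) ∧
    ∀ x ∈ Gf 0, ‖F x - ∑ t, Fs t x‖ ≤ ε
def FUL_stmt : Prop := COO_stmt → FOU_stmt → FUL'

/-- Row FULN: the case `[G, N] ≤ M` (by 95's `fullc`). -/
def FULN' : Prop := ∀ (U : Type) [Amb U] (Gf : ℕ → Subgroup U) (d : ℕ) (N : Subgroup U),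
  Filt Gf d → Nor Gf d N → Cm (Gf 0) N (Gf (d + 1)) → NS Gf d N
def FULN_stmt : Prop := FUL' → CELL' → PLM_stmt → DEG_stmt → FULN'

/-- The statement NS for all the groups. -/
def NSA : Prop := ∀ (U : Type) [Amb U] (Gf : ℕ → Subgroup U) (d : ℕ) (N : Subgroup U),
  Filt Gf d → Nor Gf d N → NS Gf d N

/-- Row IND: the induction. -/
def IND_stmt : Prop := CENZ_stmt → KER_stmt → INT_stmt → ADJ_stmt → FIL_stmt → FULN' → ONES' →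
  STEPV' → SPLIT' → NSA

/-- **Theorem NVG** for ambient groups, one window. -/
def NVG : Prop := ∀ (U : Type) [Amb U] (Gf : ℕ → Subgroup U) (d : ℕ), Filt Gf d →
  ∀ F : U → ℂ, Fn (Gf 0) (Gf (d + 1)) F → ∀ A ε : ℝ, 0 ≤ A → 0 < ε →
  ∃ (B : ℝ) (H₀ : ℕ), 0 ≤ B ∧ ∀ H : ℕ, H₀ ≤ H → ∀ xa xb : ℝ, (H : ℝ) ^ B ≤ xa → xa * H ≤ xb →
  ∀ g x : ℕ → U, (∀ n, g n ∈ Gf 0) → (∀ n, x n ∈ Gf 0) →
  SlowA (fun n => (g n, x n)) ((H : ℝ) ^ A) →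
  ∑ n ∈ Ioc ⌊xa⌋₊ ⌊xb⌋₊, (1 / (n : ℝ)) *
    (‖∑ h ∈ Icc 1 H, muC (n + h) * F ((g n) ^ (n + h) * x n)‖ / H) ≤
      ε * (Real.log xb - Real.log xa)

/-- Row NVGA: from NS to the theorem. -/
def NVGA_stmt : Prop := LBM_stmt → PLG_stmt → NSA → NVG

end

end Pool.Agent.NG
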