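import Mathlib
import Pool.Agent.Lib.NG.A

/-!
# NVG2 (MP_663568_nt): continuous functions on `G / Γ` are functions in the sense of `Fn`

(helper55)
-/

set_option autoImplicit false
open Finset Topology

namespace Pool.Agent.NG

noncomputable section

open Amb

/-- A function which is continuous on `G` and right invariant under the lattice of `G`. -/
theorem fn_of_cont {U : Type} [Amb U] {G : Subgroup U} {F : U → ℂ} (hG : Rat G)
    (hF : ContinuousOn F (G : Set U))
    (hl : ∀ x ∈ G, ∀ γ ∈ (La : Subgroup U), γ ∈ G → F (x * γ) = F x) : Fn G ⊥ F := by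
  obtain ⟨K, hK, hKG, hcoc⟩ := hG.coc
  have hFK : ContinuousOn F K := hF.mono hKG
  refine ⟨?_, ?_, hl, ?_⟩
  · obtain ⟨B, hB⟩ := hK.exists_bound_of_continuousOn hFK
    refine ⟨B, ?_⟩
    intro x hx
    obtain ⟨k, hk, γ, hγ, hγG, rfl⟩ := hcoc x hx
    rw [hl k (hKG hk) γ hγ hγG]
    exact hB k hk
  · intro ε hε
    have h1 : ContinuousOn (fun q : U × U => F (q.1 * q.2) - F q.2) ((G : Set U) ×ˢ K) := by
      apply ContinuousOn.sub
      · apply hF.comp continuous_mul.continuousOn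
        intro q hq
        exact G.mul_mem hq.1 (hKG hq.2)
      · apply hFK.comp continuous_snd.continuousOn
        intro q hq
        exact hq.2
    obtain ⟨V, hV, hV2⟩ := continuousOn_iff'.mp h1 (Metric.ball 0 ε) Metric.isOpen_ball
    have h2 : ({1} : Set U) ×ˢ K ⊆ V := by
      rintro ⟨a, b⟩ ⟨ha, hb⟩
      have ha' : a = 1 := ha
      subst ha'
      have h3 : ((1 : U), b) ∈ (fun q : U × U => F (q.1 * q.2) - F q.2) ⁻¹' Metric.ball 0 ε
          ∩ (G : Set U) ×ˢ K := by
        refine ⟨?_, G.one_mem, hb⟩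
        show F ((1 : U) * b) - F b ∈ Metric.ball 0 ε
        rw [one_mul, sub_self]
        exact Metric.mem_ball_self hε
      rw [hV2] at h3
      exact h3.1
    obtain ⟨u, v, hu, _, h1u, hKv, huv⟩ := generalized_tube_lemma isCompact_singleton hK hV h2
    obtain ⟨ρ, hρ, h3⟩ := nm_nhds u (hu.mem_nhds (h1u rfl))
    refine ⟨ρ, hρ, ?_⟩
    intro k' hk' hn x hx
    obtain ⟨k, hk, γ, hγ, hγG, rfl⟩ := hcoc x hx
    rw [← mul_assoc, hl _ (G.mul_mem hk' (hKG hk)) γ hγ hγG, hl k (hKG hk) γ hγ hγG]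
    have h4 : (k', k) ∈ V ∩ (G : Set U) ×ˢ K := ⟨huv ⟨h3 k' hn, hKv hk⟩, hk', hk⟩
    rw [← hV2] at h4
    have h5 : F (k' * k) - F k ∈ Metric.ball (0 : ℂ) ε := h4.1
    rw [mem_ball_zero_iff] at h5
    exact h5.le
  · intro m hm x _
    have : m = 1 := (Subgroup.mem_bot).mp hm
    rw [this, one_mul]

end

end Pool.Agent.NG
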