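import Mathlib

/-!
# NVG2 (MP_663568_nt): unitriangular real matrices

The group `UT n` of real upper unitriangular `n × n` matrices: real powers `pw`, the lattice of
integral matrices, the size function and the dimension of subgroups closed under real powers.
(helper55)
-/

set_option autoImplicit false
open Finset

namespace Pool.Agent.NG

noncomputable section

/-- The matrices whose entries `(i, j)` vanish for `j < i + k`. -/
def Lv (n k : ℕ) : Submodule ℝ (Matrix (Fin n) (Fin n) ℝ) where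
  carrier := {A | ∀ i j : Fin n, (j : ℕ) < i + k → A i j = 0}
  zero_mem' := by intro i j _; rfl
  add_mem' := by
    intro A B hA hB i j h
    rw [Matrix.add_apply, hA i j h, hB i j h, add_zero]
  smul_mem' := by
    intro c A hA i j h
    rw [Matrix.smul_apply, hA i j h, smul_zero]

theorem lv_mul {n k l : ℕ} {A B : Matrix (Fin n) (Fin n) ℝ} (hA : A ∈ Lv n k) (hB : B ∈ Lv n l) :
    A * B ∈ Lv n (k + l) := by
  intro i j h
  rw [Matrix.mul_apply]
  apply Finset.sum_eq_zero
  intro m _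
  by_cases hm : (m : ℕ) < i + k
  · rw [hA i m hm, zero_mul]
  · rw [hB m j (by omega), mul_zero]

theorem lv_mono {n k l : ℕ} (h : k ≤ l) : Lv n l ≤ Lv n k := by
  intro A hA i j hij
  exact hA i j (by omega)

theorem lv_top {n k : ℕ} (hk : n ≤ k) {A : Matrix (Fin n) (Fin n) ℝ} (hA : A ∈ Lv n k) : A = 0 := by
  ext i j
  exact hA i j (by have := j.2; omega)

theorem lv_one_mul {n k : ℕ} {A B : Matrix (Fin n) (Fin n) ℝ} (hA : A - 1 ∈ Lv n 1)
    (hB : B ∈ Lv n k) : A * B - B ∈ Lv n (k + 1) := by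
  have h : A * B - B = (A - 1) * B := by rw [sub_mul, one_mul]
  rw [h, add_comm]
  exact lv_mul hA hB

theorem lv_pow {n k : ℕ} {A : Matrix (Fin n) (Fin n) ℝ} (hA : A ∈ Lv n k) (m : ℕ) :
    A ^ m ∈ Lv n (k * m) := by
  induction m with
  | zero =>
    intro i j h
    have h1 : i ≠ j := by
      intro h2
      rw [h2] at h
      omega
    rw [pow_zero, Matrix.one_apply_ne h1]
  | succ m ih =>
    rw [pow_succ]
    exact lv_mul ih hA

theorem lv_pow_one {n : ℕ} {A : Matrix (Fin n) (Fin n) ℝ} (hA : A ∈ Lv n 1) (m : ℕ) (hm : n ≤ m) :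
    A ^ m = 0 := by
  apply lv_top (k := 1 * m) (by omega)
  exact lv_pow hA m

/-- The unitriangular matrices. -/
def UT (n : ℕ) : Type := {x : Matrix (Fin n) (Fin n) ℝ // x - 1 ∈ Lv n 1}

/-- The nilpotent part. -/
def nilp {n : ℕ} (x : UT n) : Matrix (Fin n) (Fin n) ℝ := x.1 - 1

theorem nilp_mem {n : ℕ} (x : UT n) : nilp x ∈ Lv n 1 := x.2

/-- The real binomial coefficient. -/
def bin (t : ℝ) (k : ℕ) : ℝ := Ring.choose t k

/-- The polynomial with the values `bin t k`. -/
def binP (k : ℕ) : Polynomial ℝ := Polynomial.C ((k.factorial : ℝ)⁻¹) * descPochhammer ℝ k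

theorem binP_eval (k : ℕ) (t : ℝ) : (binP k).eval t = bin t k := by
  unfold binP bin
  rw [Polynomial.eval_mul, Polynomial.eval_C]
  have h := Ring.descPochhammer_eq_factorial_smul_choose t k
  have h2 : (descPochhammer ℤ k).smeval t = (descPochhammer ℝ k).eval t := by
    clear h
    induction k with
    | zero => simp [Polynomial.smeval_one]
    | succ k ih =>
      rw [descPochhammer_succ_right, descPochhammer_succ_right, Polynomial.smeval_mul, ih,
        Polynomial.eval_mul, Polynomial.smeval_sub, Polynomial.smeval_X, pow_one,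
        Polynomial.smeval_natCast, pow_zero, nsmul_one, Polynomial.eval_sub, Polynomial.eval_X,
        Polynomial.eval_natCast]
  rw [← h2, h, nsmul_eq_mul, ← mul_assoc, inv_mul_cancel₀, one_mul]
  exact_mod_cast k.factorial_ne_zero

theorem bin_continuous (k : ℕ) : Continuous fun t : ℝ => bin t k := by
  have h : (fun t : ℝ => bin t k) = fun t => (binP k).eval t := by
    funext t
    rw [binP_eval]
  rw [h]
  exact (binP k).continuous

theorem bin_zero_right (t : ℝ) : bin t 0 = 1 := Ring.choose_zero_right t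

theorem bin_one_right (t : ℝ) : bin t 1 = t := Ring.choose_one_right t

theorem bin_nat (m k : ℕ) : bin (m : ℝ) k = (m.choose k : ℝ) := by
  unfold bin
  exact Ring.choose_natCast m k

theorem bin_add (s t : ℝ) (k : ℕ) :
    bin (s + t) k = ∑ ij ∈ antidiagonal k, bin s ij.1 * bin t ij.2 :=
  Ring.add_choose_eq k (Commute.all s t)

/-- The real power of `1 + N`, `N` nilpotent. -/
def pwM (n : ℕ) (N : Matrix (Fin n) (Fin n) ℝ) (t : ℝ) : Matrix (Fin n) (Fin n) ℝ :=
  ∑ k ∈ range (n + 1), bin t k • N ^ k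

theorem pwM_sub_mem {n k : ℕ} {N : Matrix (Fin n) (Fin n) ℝ} (hN : N ∈ Lv n k) (hk : 1 ≤ k)
    (t : ℝ) : pwM n N t - 1 - t • N ∈ Lv n (k + 1) := by
  rcases Nat.eq_zero_or_pos n with hn | hn
  · subst hn
    intro i
    exact i.elim0
  unfold pwM
  rw [Finset.sum_range_succ', ← Finset.sum_erase_add (range n) _
    (by simpa using hn : 0 ∈ range n)]
  have h1 : ∑ k ∈ (range n).erase 0, bin t (k + 1) • N ^ (k + 1) ∈ Lv n (k + 1) := by
    apply Submodule.sum_mem
    intro j hj
    apply Submodule.smul_mem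
    apply lv_mono _ (lv_pow hN (j + 1))
    have hj1 : j ≠ 0 := by
      intro h
      rw [h] at hj
      simp at hj
    obtain ⟨j', rfl⟩ := Nat.exists_eq_succ_of_ne_zero hj1
    have : k * (j'.succ + 1) = k * j' + k + k := by
      rw [Nat.succ_eq_add_one]; ring
    rw [this]
    have := Nat.zero_le (k * j')
    omega
  have h2 : ∑ k ∈ (range n).erase 0, bin t (k + 1) • N ^ (k + 1) + bin t (0 + 1) • N ^ (0 + 1)
      + bin t 0 • N ^ 0 - 1 - t • N = ∑ k ∈ (range n).erase 0, bin t (k + 1) • N ^ (k + 1) := by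
    rw [bin_zero_right, zero_add, bin_one_right, pow_zero, pow_one, one_smul]
    abel
  rw [h2]
  exact h1

theorem pwM_mem {n : ℕ} {N : Matrix (Fin n) (Fin n) ℝ} (hN : N ∈ Lv n 1) (t : ℝ) :
    pwM n N t - 1 ∈ Lv n 1 := by
  have h := lv_mono (by norm_num) (pwM_sub_mem hN le_rfl t) (l := 1 + 1) (k := 1)
  have h2 : pwM n N t - 1 = (pwM n N t - 1 - t • N) + t • N := by abel
  rw [h2]
  exact Submodule.add_mem _ h (Submodule.smul_mem _ _ hN)

theorem pwM_zero (n : ℕ) (N : Matrix (Fin n) (Fin n) ℝ) : pwM n N 0 = 1 := by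
  unfold pwM
  rw [Finset.sum_range_succ', bin_zero_right, pow_zero, one_smul]
  rw [Finset.sum_eq_zero, zero_add]
  intro k _
  have h := bin_nat 0 (k + 1)
  rw [Nat.cast_zero] at h
  rw [h, Nat.choose_zero_succ, Nat.cast_zero, zero_smul]

theorem pwM_nat {n : ℕ} {N : Matrix (Fin n) (Fin n) ℝ} (hN : N ∈ Lv n 1) (m : ℕ) :
    pwM n N m = (1 + N) ^ m := by
  have h1 : (1 + N) ^ m = ∑ k ∈ range (m + 1), (m.choose k : ℝ) • N ^ k := by
    rw [add_comm, (Commute.one_right N).add_pow]
    apply Finset.sum_congr rfl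
    intro k _
    rw [one_pow, mul_one, ← nsmul_eq_mul']
    rw [← Nat.cast_smul_eq_nsmul ℝ]
  rw [h1]
  unfold pwM
  have h2 : ∀ a b : ℕ, a ≤ b → (∀ k, a ≤ k → (m.choose k : ℝ) • N ^ k = 0) →
      ∑ k ∈ range a, (m.choose k : ℝ) • N ^ k = ∑ k ∈ range b, (m.choose k : ℝ) • N ^ k := by
    intro a b hab h
    apply Finset.sum_subset
    · exact Finset.range_mono hab
    · intro k _ hk
      exact h k (by simpa using hk)
  have h3 : ∀ k, n + 1 ≤ k → (m.choose k : ℝ) • N ^ k = 0 := by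
    intro k hk
    rw [lv_pow_one hN k (by omega), smul_zero]
  have h4 : ∀ k, m + 1 ≤ k → (m.choose k : ℝ) • N ^ k = 0 := by
    intro k hk
    rw [Nat.choose_eq_zero_of_lt (by omega), Nat.cast_zero, zero_smul]
  have h5 : ∑ k ∈ range (n + 1), bin (m : ℝ) k • N ^ k
      = ∑ k ∈ range (n + 1), (m.choose k : ℝ) • N ^ k := by
    apply Finset.sum_congr rfl
    intro k _
    rw [bin_nat]
  rw [h5]
  rcases le_total (n + 1) (m + 1) with h | h
  · exact h2 _ _ h h3
  · exact (h2 _ _ h h4).symm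

theorem pwM_add {n : ℕ} {N : Matrix (Fin n) (Fin n) ℝ} (hN : N ∈ Lv n 1) (s t : ℝ) :
    pwM n N (s + t) = pwM n N s * pwM n N t := by
  unfold pwM
  rw [Finset.sum_mul_sum]
  have h1 : ∀ a ∈ range (n + 1), ∀ b ∈ range (n + 1),
      bin s a • N ^ a * bin t b • N ^ b = (bin s a * bin t b) • N ^ (a + b) := by
    intro a _ b _
    rw [smul_mul_smul_comm, pow_add]
  rw [Finset.sum_congr rfl fun a ha => Finset.sum_congr rfl fun b hb => h1 a ha b hb]
  rw [← Finset.sum_product']
  have h2 : ∑ k ∈ range (n + 1), bin (s + t) k • N ^ k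
      = ∑ k ∈ range (n + 1), ∑ ij ∈ antidiagonal k, (bin s ij.1 * bin t ij.2) • N ^ (ij.1 + ij.2) := by
    apply Finset.sum_congr rfl
    intro k _
    rw [bin_add, Finset.sum_smul]
    apply Finset.sum_congr rfl
    intro ij hij
    rw [Finset.HasAntidiagonal.mem_antidiagonal.mp hij]
  rw [h2, Finset.sum_sigma']
  symm
  have h3 : ∑ x ∈ range (n + 1) ×ˢ range (n + 1), (bin s x.1 * bin t x.2) • N ^ (x.1 + x.2)
      = ∑ x ∈ (range (n + 1) ×ˢ range (n + 1)).filter (fun x => x.1 + x.2 < n + 1),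
        (bin s x.1 * bin t x.2) • N ^ (x.1 + x.2) := by
    symm
    apply Finset.sum_filter_of_ne
    intro x _ hx
    by_contra h
    apply hx
    rw [lv_pow_one hN _ (by omega), smul_zero]
  rw [h3]
  apply Finset.sum_bij' (i := fun x _ => (⟨x.1 + x.2, x⟩ : Σ _ : ℕ, ℕ × ℕ))
    (j := fun y _ => y.2)
  · intro x hx
    simp only [mem_filter, mem_product, mem_range] at hx
    simp only [mem_sigma, mem_range, Finset.HasAntidiagonal.mem_antidiagonal]
    exact ⟨hx.2, trivial⟩
  · intro y hy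
    simp only [mem_sigma, mem_range, Finset.HasAntidiagonal.mem_antidiagonal] at hy
    simp only [mem_filter, mem_product, mem_range]
    omega
  · intro x _
    rfl
  · intro y hy
    simp only [mem_sigma, mem_range, Finset.HasAntidiagonal.mem_antidiagonal] at hy
    obtain ⟨k, ij⟩ := y
    simp only at hy ⊢
    obtain ⟨_, h⟩ := hy
    subst h
    rfl
  · intro x _
    rfl

instance (n : ℕ) : Mul (UT n) := ⟨fun x y => ⟨x.1 * y.1, by
  have h : x.1 * y.1 - 1 = (x.1 * y.1 - y.1) + (y.1 - 1) := by abel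
  rw [h]
  apply Submodule.add_mem _ _ y.2
  have h2 : x.1 * y.1 - y.1 = (x.1 - 1) * (y.1 - 1) + (x.1 - 1) := by noncomm_ring
  rw [h2]
  apply Submodule.add_mem _ _ x.2
  exact lv_mono (by norm_num) (lv_mul x.2 y.2) (l := 1 + 1) (k := 1)⟩⟩

instance (n : ℕ) : One (UT n) := ⟨⟨1, by rw [sub_self]; exact Submodule.zero_mem _⟩⟩

/-- The real power. -/
def pwU {n : ℕ} (x : UT n) (t : ℝ) : UT n := ⟨pwM n (nilp x) t, pwM_mem (nilp_mem x) t⟩

instance (n : ℕ) : Inv (UT n) := ⟨fun x => pwU x (-1)⟩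

theorem ut_ext {n : ℕ} {x y : UT n} (h : x.1 = y.1) : x = y := Subtype.ext h

theorem mul_val {n : ℕ} (x y : UT n) : (x * y).1 = x.1 * y.1 := rfl

theorem one_val {n : ℕ} : (1 : UT n).1 = 1 := rfl

theorem pwU_val {n : ℕ} (x : UT n) (t : ℝ) : (pwU x t).1 = pwM n (nilp x) t := rfl

theorem val_eq {n : ℕ} (x : UT n) : x.1 = 1 + nilp x := by
  unfold nilp
  abel

theorem pwU_add {n : ℕ} (x : UT n) (s t : ℝ) : pwU x (s + t) = pwU x s * pwU x t :=
  ut_ext (pwM_add (nilp_mem x) s t)

theorem pwU_zero {n : ℕ} (x : UT n) : pwU x 0 = 1 := ut_ext (pwM_zero n _)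

theorem pwU_one {n : ℕ} (x : UT n) : pwU x 1 = x := by
  apply ut_ext
  have h := pwM_nat (nilp_mem x) 1
  rw [Nat.cast_one, pow_one, ← val_eq] at h
  exact h

instance (n : ℕ) : Group (UT n) where
  mul_assoc x y z := ut_ext (mul_assoc _ _ _)
  one_mul x := ut_ext (one_mul _)
  mul_one x := ut_ext (mul_one _)
  inv_mul_cancel x := by
    have h := pwU_add x (-1) 1
    rw [neg_add_cancel, pwU_zero, pwU_one] at h
    exact h.symm

theorem inv_eq {n : ℕ} (x : UT n) : x⁻¹ = pwU x (-1) := rfl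

theorem pow_val {n : ℕ} (x : UT n) (m : ℕ) : (x ^ m).1 = x.1 ^ m := by
  induction m with
  | zero => rfl
  | succ m ih => rw [pow_succ, pow_succ, mul_val, ih]

theorem pwU_nat {n : ℕ} (x : UT n) (m : ℕ) : pwU x m = x ^ m := by
  apply ut_ext
  rw [pwU_val, pwM_nat (nilp_mem x), ← val_eq, pow_val]


theorem pwU_pow {n : ℕ} (x : UT n) (s : ℝ) (m : ℕ) : pwU x s ^ m = pwU x (s * m) := by
  induction m with
  | zero => rw [pow_zero, Nat.cast_zero, mul_zero, pwU_zero]
  | succ m ih => rw [pow_succ, ih, ← pwU_add, Nat.cast_succ, mul_add, mul_one]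

theorem pwM_apply {n : ℕ} (N : Matrix (Fin n) (Fin n) ℝ) (t : ℝ) (i j : Fin n) :
    pwM n N t i j = ∑ k ∈ range (n + 1), bin t k * (N ^ k) i j := by
  unfold pwM
  rw [Matrix.sum_apply]
  rfl

/-- An entry of the real power is a polynomial. -/
def entP {n : ℕ} (N : Matrix (Fin n) (Fin n) ℝ) (i j : Fin n) : Polynomial ℝ :=
  ∑ k ∈ range (n + 1), Polynomial.C ((N ^ k) i j) * binP k

theorem entP_eval {n : ℕ} (N : Matrix (Fin n) (Fin n) ℝ) (i j : Fin n) (t : ℝ) :
    (entP N i j).eval t = pwM n N t i j := by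
  unfold entP
  rw [Polynomial.eval_finsetSum, pwM_apply]
  apply Finset.sum_congr rfl
  intro k _
  rw [Polynomial.eval_mul, Polynomial.eval_C, binP_eval, mul_comm]

theorem pwU_mul {n : ℕ} (x : UT n) (s t : ℝ) : pwU (pwU x s) t = pwU x (s * t) := by
  apply ut_ext
  ext i j
  have h1 : (pwU (pwU x s) t).1 i j = (entP (nilp (pwU x s)) i j).eval t := (entP_eval _ i j t).symm
  have h2 : (pwU x (s * t)).1 i j
      = ((entP (nilp x) i j).comp (Polynomial.C s * Polynomial.X)).eval t := by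
    rw [Polynomial.eval_comp, Polynomial.eval_mul, Polynomial.eval_C, Polynomial.eval_X, entP_eval]
    rfl
  rw [h1, h2]
  have h3 : entP (nilp (pwU x s)) i j
      = (entP (nilp x) i j).comp (Polynomial.C s * Polynomial.X) := by
    apply Polynomial.eq_of_infinite_eval_eq
    apply Set.Infinite.mono (s := Set.range fun m : ℕ => (m : ℝ))
    · rintro _ ⟨m, rfl⟩
      show Polynomial.eval (m : ℝ) _ = Polynomial.eval (m : ℝ) _
      rw [Polynomial.eval_comp, Polynomial.eval_mul, Polynomial.eval_C, Polynomial.eval_X,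
        entP_eval, entP_eval]
      have h4 := pwU_nat (pwU x s) m
      rw [pwU_pow] at h4
      exact congrFun (congrFun (congrArg Subtype.val h4) i) j
    · exact Set.infinite_range_of_injective Nat.cast_injective
  rw [h3]

theorem nilp_conj {n : ℕ} (g x : UT n) : nilp (g * x * g⁻¹) = g.1 * nilp x * g⁻¹.1 := by
  unfold nilp
  rw [mul_val, mul_val, mul_sub, sub_mul, mul_one]
  have h : g.1 * g⁻¹.1 = 1 := by
    rw [← mul_val, mul_inv_cancel]
    rfl
  rw [h]

theorem inv_mul_val {n : ℕ} (g : UT n) : g⁻¹.1 * g.1 = 1 := by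
  rw [← mul_val, inv_mul_cancel]
  rfl

theorem mul_inv_val {n : ℕ} (g : UT n) : g.1 * g⁻¹.1 = 1 := by
  rw [← mul_val, mul_inv_cancel]
  rfl

theorem pwU_conj {n : ℕ} (g x : UT n) (t : ℝ) :
    pwU (g * x * g⁻¹) t = g * pwU x t * g⁻¹ := by
  apply ut_ext
  rw [pwU_val, nilp_conj, mul_val, mul_val, pwU_val]
  unfold pwM
  rw [Finset.mul_sum, Finset.sum_mul]
  apply Finset.sum_congr rfl
  intro k hk
  clear hk
  rw [mul_smul_comm, smul_mul_assoc]
  congr 1
  induction k with
  | zero => rw [pow_zero, pow_zero, mul_one, mul_inv_val]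
  | succ k ih =>
    rw [pow_succ, ih, pow_succ]
    simp only [mul_assoc]
    rw [← mul_assoc (g⁻¹.1) (g.1), inv_mul_val, one_mul]

theorem pwU_inv {n : ℕ} (x : UT n) (t : ℝ) : (pwU x t)⁻¹ = pwU x (-t) := by
  rw [inv_eq, pwU_mul, mul_neg, mul_one]

/-! ### Topology -/

instance (n : ℕ) : TopologicalSpace (UT n) :=
  inferInstanceAs (TopologicalSpace {x : Matrix (Fin n) (Fin n) ℝ // x - 1 ∈ Lv n 1})

instance (n : ℕ) : T2Space (UT n) :=
  inferInstanceAs (T2Space {x : Matrix (Fin n) (Fin n) ℝ // x - 1 ∈ Lv n 1})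

theorem val_continuous (n : ℕ) : Continuous fun x : UT n => x.1 := continuous_subtype_val

theorem nilp_continuous (n : ℕ) : Continuous fun x : UT n => nilp x :=
  (val_continuous n).sub continuous_const

theorem ut_mk_continuous {n : ℕ} {X : Type*} [TopologicalSpace X] {f : X → UT n}
    (h : Continuous fun x => (f x).1) : Continuous f :=
  Topology.IsInducing.subtypeVal.continuous_iff.mpr h

theorem pwU_continuous (n : ℕ) : Continuous fun p : UT n × ℝ => pwU p.1 p.2 := by
  apply ut_mk_continuous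
  show Continuous fun p : UT n × ℝ => ∑ k ∈ range (n + 1), bin p.2 k • nilp p.1 ^ k
  apply continuous_finsetSum
  intro k _
  have h1 : Continuous fun p : UT n × ℝ => bin p.2 k := (bin_continuous k).comp continuous_snd
  have h2 : Continuous fun p : UT n × ℝ => nilp p.1 ^ k :=
    ((nilp_continuous n).comp continuous_fst).pow k
  exact h1.smul h2

instance (n : ℕ) : IsTopologicalGroup (UT n) where
  continuous_mul := by
    apply ut_mk_continuous
    exact ((val_continuous n).comp continuous_fst).mul ((val_continuous n).comp continuous_snd)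
  continuous_inv := by
    have h := (pwU_continuous n).comp (Continuous.prodMk_left (-1 : ℝ))
    exact h

/-! ### The size function -/

/-- The size of a unitriangular matrix. -/
def nmU {n : ℕ} (x : UT n) : ℝ := ∑ i, ∑ j, |nilp x i j|

/-- The sum of the absolute values of the entries. -/
def l1 {n : ℕ} (A : Matrix (Fin n) (Fin n) ℝ) : ℝ := ∑ i, ∑ j, |A i j|

theorem l1_nonneg {n : ℕ} (A : Matrix (Fin n) (Fin n) ℝ) : 0 ≤ l1 A :=
  Finset.sum_nonneg fun _ _ => Finset.sum_nonneg fun _ _ => abs_nonneg _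

theorem l1_add {n : ℕ} (A B : Matrix (Fin n) (Fin n) ℝ) : l1 (A + B) ≤ l1 A + l1 B := by
  unfold l1
  rw [← Finset.sum_add_distrib]
  apply Finset.sum_le_sum
  intro i _
  rw [← Finset.sum_add_distrib]
  apply Finset.sum_le_sum
  intro j _
  exact abs_add_le _ _

theorem l1_smul {n : ℕ} (c : ℝ) (A : Matrix (Fin n) (Fin n) ℝ) : l1 (c • A) = |c| * l1 A := by
  unfold l1
  rw [Finset.mul_sum]
  apply Finset.sum_congr rfl
  intro i _
  rw [Finset.mul_sum]
  apply Finset.sum_congr rfl
  intro j _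
  rw [Matrix.smul_apply, smul_eq_mul, abs_mul]

theorem l1_mul {n : ℕ} (A B : Matrix (Fin n) (Fin n) ℝ) : l1 (A * B) ≤ l1 A * l1 B := by
  unfold l1
  have h1 : ∀ i, ∑ j, |(A * B) i j| ≤ ∑ k, |A i k| * ∑ j, |B k j| := by
    intro i
    calc ∑ j, |(A * B) i j| ≤ ∑ j, ∑ k, |A i k| * |B k j| := by
          apply Finset.sum_le_sum
          intro j _
          rw [Matrix.mul_apply]
          refine (Finset.abs_sum_le_sum_abs _ _).trans ?_
          apply Finset.sum_le_sum
          intro k _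
          rw [abs_mul]
      _ = ∑ k, |A i k| * ∑ j, |B k j| := by
          rw [Finset.sum_comm]
          apply Finset.sum_congr rfl
          intro k _
          rw [Finset.mul_sum]
  calc ∑ i, ∑ j, |(A * B) i j| ≤ ∑ i, ∑ k, |A i k| * ∑ j, |B k j| :=
        Finset.sum_le_sum fun i _ => h1 i
    _ ≤ ∑ i, ∑ k, |A i k| * ∑ k', ∑ j, |B k' j| := by
        apply Finset.sum_le_sum
        intro i _
        apply Finset.sum_le_sum
        intro k _
        apply mul_le_mul_of_nonneg_left _ (abs_nonneg _)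
        exact Finset.single_le_sum (f := fun k => ∑ j, |B k j|)
          (fun k _ => Finset.sum_nonneg fun j _ => abs_nonneg _) (Finset.mem_univ k)
    _ = (∑ i, ∑ k, |A i k|) * ∑ k', ∑ j, |B k' j| := by
        rw [Finset.sum_mul]
        apply Finset.sum_congr rfl
        intro i _
        rw [Finset.sum_mul]

theorem l1_entry {n : ℕ} (A : Matrix (Fin n) (Fin n) ℝ) (i j : Fin n) : |A i j| ≤ l1 A := by
  unfold l1
  calc |A i j| ≤ ∑ j, |A i j| :=
        Finset.single_le_sum (f := fun j => |A i j|) (fun _ _ => abs_nonneg _) (Finset.mem_univ j)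
    _ ≤ ∑ i, ∑ j, |A i j| :=
        Finset.single_le_sum (f := fun i => ∑ j, |A i j|)
          (fun _ _ => Finset.sum_nonneg fun _ _ => abs_nonneg _) (Finset.mem_univ i)

theorem l1_continuous (n : ℕ) : Continuous fun A : Matrix (Fin n) (Fin n) ℝ => l1 A := by
  unfold l1
  fun_prop

theorem nmU_eq {n : ℕ} (x : UT n) : nmU x = l1 (nilp x) := rfl

theorem nmU_nonneg {n : ℕ} (x : UT n) : 0 ≤ nmU x := l1_nonneg _

theorem nilp_one {n : ℕ} : nilp (1 : UT n) = 0 := by
  unfold nilp
  rw [one_val, sub_self]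

theorem nmU_one {n : ℕ} : nmU (1 : UT n) = 0 := by
  rw [nmU_eq, nilp_one]
  unfold l1
  simp

theorem nmU_eq_zero {n : ℕ} {x : UT n} (h : nmU x = 0) : x = 1 := by
  apply ut_ext
  rw [val_eq, one_val]
  have h2 : nilp x = 0 := by
    ext i j
    have := l1_entry (nilp x) i j
    rw [← nmU_eq, h] at this
    exact abs_nonpos_iff.mp this
  rw [h2, add_zero]

theorem nmU_continuous (n : ℕ) : Continuous fun x : UT n => nmU x :=
  (l1_continuous n).comp (nilp_continuous n)

theorem nilp_mul {n : ℕ} (x y : UT n) :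
    nilp (x * y) = nilp x * nilp y + nilp x + nilp y := by
  unfold nilp
  rw [mul_val]
  noncomm_ring

theorem nmU_mul {n : ℕ} (x y : UT n) : nmU (x * y) ≤ nmU x * nmU y + nmU x + nmU y := by
  rw [nmU_eq, nilp_mul]
  refine (l1_add _ _).trans ?_
  refine (add_le_add_left (l1_add _ _) _).trans ?_
  have := l1_mul (nilp x) (nilp y)
  rw [nmU_eq, nmU_eq]
  linarith

theorem l1_pow {n : ℕ} (A : Matrix (Fin n) (Fin n) ℝ) (k : ℕ) (hk : 1 ≤ k) :
    l1 (A ^ k) ≤ l1 A ^ k := by
  induction k, hk using Nat.le_induction with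
  | base => rw [pow_one, pow_one]
  | succ k _ ih =>
    rw [pow_succ, pow_succ]
    exact (l1_mul _ _).trans (mul_le_mul_of_nonneg_right ih (l1_nonneg _))

theorem bin_succ (t : ℝ) (k : ℕ) : bin t (k + 1) = bin t k * (t - k) / (k + 1) := by
  rw [← binP_eval, ← binP_eval]
  unfold binP
  rw [Polynomial.eval_mul, Polynomial.eval_mul, Polynomial.eval_C, Polynomial.eval_C,
    descPochhammer_succ_right, Polynomial.eval_mul, Polynomial.eval_sub, Polynomial.eval_X,
    Polynomial.eval_natCast, Nat.factorial_succ]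
  push_cast
  have h1 : (k.factorial : ℝ) ≠ 0 := by exact_mod_cast k.factorial_ne_zero
  have h2 : (k : ℝ) + 1 ≠ 0 := by positivity
  field_simp

theorem bin_le {t : ℝ} (ht : |t| ≤ 1) (k : ℕ) (hk : 1 ≤ k) : |bin t k| ≤ |t| := by
  induction k, hk using Nat.le_induction with
  | base => rw [bin_one_right]
  | succ k _ ih =>
    rw [bin_succ, abs_div, abs_mul]
    have h1 : |t - k| ≤ k + 1 := by
      have h2 := abs_sub t (k : ℝ)
      have h3 : |(k : ℝ)| = k := abs_of_nonneg (Nat.cast_nonneg k)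
      rw [h3] at h2
      linarith
    have h4 : |((k : ℝ) + 1)| = k + 1 := abs_of_pos (by positivity)
    rw [h4, div_le_iff₀ (by positivity)]
    exact mul_le_mul ih h1 (abs_nonneg _) (abs_nonneg _)

theorem nilp_pwU {n : ℕ} (x : UT n) (t : ℝ) :
    nilp (pwU x t) = ∑ k ∈ range n, bin t (k + 1) • nilp x ^ (k + 1) := by
  unfold nilp
  rw [pwU_val]
  unfold pwM
  rw [Finset.sum_range_succ', bin_zero_right, pow_zero, one_smul]
  unfold nilp
  abel

theorem l1_sum {n : ℕ} {ι : Type*} (s : Finset ι) (f : ι → Matrix (Fin n) (Fin n) ℝ) :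
    l1 (∑ k ∈ s, f k) ≤ ∑ k ∈ s, l1 (f k) := by
  classical
  induction s using Finset.induction_on with
  | empty => simp [l1]
  | insert a s ha ih =>
    rw [Finset.sum_insert ha, Finset.sum_insert ha]
    exact (l1_add _ _).trans (by linarith)

theorem nmU_pw {n : ℕ} (x : UT n) {t : ℝ} (ht : |t| ≤ 1) :
    nmU (pwU x t) ≤ |t| * ∑ k ∈ range n, nmU x ^ (k + 1) := by
  rw [nmU_eq, nilp_pwU]
  refine (l1_sum _ _).trans ?_
  rw [Finset.mul_sum]
  apply Finset.sum_le_sum
  intro k _
  rw [l1_smul]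
  exact mul_le_mul (bin_le ht _ (by omega)) (l1_pow _ _ (by omega)) (l1_nonneg _) (abs_nonneg _)

theorem nmU_conj {n : ℕ} (g x : UT n) : nmU (g * x * g⁻¹) ≤ l1 g.1 * nmU x * l1 g⁻¹.1 := by
  rw [nmU_eq, nilp_conj, nmU_eq]
  refine (l1_mul _ _).trans ?_
  exact mul_le_mul_of_nonneg_right (l1_mul _ _) (l1_nonneg _)

end

end Pool.Agent.NG
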