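import Mathlib
import Pool.Agent.Lib.NG.A
import Pool.Agent.Lib.NG.UT

/-!
# NVG2 (MP_663568_nt): unitriangular matrices are an ambient group

`UTG n S hS` is the group `UT n` of real unitriangular matrices with the lattice `S`, a subgroup of
the integral matrices; it is an ambient group.  For `S = LaU n` (all integral matrices) the whole
group is rational.  (helper55)
-/

set_option autoImplicit false
open Finset Topology

namespace Pool.Agent.NG

noncomputable section

/-! ### The lattice -/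

/-- The integral unitriangular matrices. -/
def LaU (n : ℕ) : Subgroup (UT n) where
  carrier := {x | ∀ i j, ∃ m : ℤ, nilp x i j = m}
  one_mem' := by
    intro i j
    exact ⟨0, by rw [nilp_one]; simp⟩
  mul_mem' := by
    intro x y hx hy i j
    choose f hf using hx
    choose g hg using hy
    refine ⟨(∑ k, f i k * g k j) + f i j + g i j, ?_⟩
    rw [nilp_mul, Matrix.add_apply, Matrix.add_apply, Matrix.mul_apply]
    push_cast
    rw [hf, hg]
    congr 2
    apply Finset.sum_congr rfl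
    intro k _
    rw [hf, hg]
  inv_mem' := by
    intro x hx
    have h1 : ∀ k : ℕ, ∀ i j, ∃ m : ℤ, (nilp x ^ k) i j = m := by
      intro k
      induction k with
      | zero =>
        intro i j
        by_cases h : i = j
        · exact ⟨1, by rw [pow_zero, h, Matrix.one_apply_eq, Int.cast_one]⟩
        · exact ⟨0, by rw [pow_zero, Matrix.one_apply_ne h, Int.cast_zero]⟩
      | succ k ih =>
        intro i j
        choose f hf using hx
        choose g hg using ih
        refine ⟨∑ l, g i l * f l j, ?_⟩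
        rw [pow_succ, Matrix.mul_apply]
        push_cast
        apply Finset.sum_congr rfl
        intro l _
        rw [hf, hg]
    have h2 : ∀ k : ℕ, ∃ m : ℤ, bin (-1) k = m := by
      intro k
      induction k with
      | zero => exact ⟨1, by rw [bin_zero_right, Int.cast_one]⟩
      | succ k ih =>
        obtain ⟨m, hm⟩ := ih
        refine ⟨-m, ?_⟩
        rw [bin_succ, hm]
        have : (k : ℝ) + 1 ≠ 0 := by positivity
        push_cast
        field_simp
        ring
    intro i j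
    choose g hg using h1
    choose b hb using h2
    refine ⟨∑ k ∈ range n, b (k + 1) * g (k + 1) i j, ?_⟩
    rw [inv_eq, nilp_pwU, Matrix.sum_apply]
    push_cast
    apply Finset.sum_congr rfl
    intro k _
    rw [Matrix.smul_apply, smul_eq_mul, hb, hg]

theorem laU_fin {n : ℕ} (K : Set (UT n)) (hK : IsCompact K) :
    ((LaU n : Set (UT n)) ∩ K).Finite := by
  obtain ⟨R, hR⟩ := hK.bddAbove_image (nmU_continuous n).continuousOn
  have hR2 : ∀ x ∈ K, nmU x ≤ R := fun x hx => hR ⟨x, hx, rfl⟩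
  set M : ℤ := ⌈R⌉ with hM
  have hS : (Set.pi Set.univ fun _ : Fin n => Set.pi Set.univ fun _ : Fin n =>
      (Set.Icc (-M) M : Set ℤ)).Finite :=
    Set.Finite.pi fun _ => Set.Finite.pi fun _ => Set.finite_Icc _ _
  have hT := hS.image fun f : Fin n → Fin n → ℤ => (1 + Matrix.of fun i j => (f i j : ℝ) :
    Matrix (Fin n) (Fin n) ℝ)
  apply (hT.preimage (Set.injOn_of_injective (f := fun x : UT n => x.1)
    (fun x y h => ut_ext h))).subset
  rintro x ⟨hx, hxK⟩
  have hx2 : ∀ i j, ∃ m : ℤ, nilp x i j = m := hx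
  choose f hf using hx2
  refine ⟨f, ?_, ?_⟩
  · intro i _ j _
    have h1 := l1_entry (nilp x) i j
    rw [← nmU_eq, hf] at h1
    have h2 : |(f i j : ℝ)| ≤ M := h1.trans ((hR2 x hxK).trans (Int.le_ceil R))
    have h3 : |f i j| ≤ M := by exact_mod_cast h2
    exact abs_le.mp h3
  · show 1 + Matrix.of (fun i j => (f i j : ℝ)) = x.1
    rw [val_eq]
    congr 1
    ext i j
    rw [Matrix.of_apply, hf]

/-! ### Topology -/

theorem isClosed_ut (n : ℕ) : IsClosed {x : Matrix (Fin n) (Fin n) ℝ | x - 1 ∈ Lv n 1} := by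
  have h : {x : Matrix (Fin n) (Fin n) ℝ | x - 1 ∈ Lv n 1}
      = ⋂ i : Fin n, ⋂ j : Fin n, {x | (j : ℕ) < i + 1 → (x - 1) i j = 0} := by
    ext x
    simp only [Set.mem_iInter]
    rfl
  rw [h]
  apply isClosed_iInter
  intro i
  apply isClosed_iInter
  intro j
  by_cases hij : (j : ℕ) < i + 1
  · have h2 : {x : Matrix (Fin n) (Fin n) ℝ | (j : ℕ) < i + 1 → (x - 1) i j = 0}
        = {x | (x - 1) i j = 0} := by
      ext x
      simp [hij]
    rw [h2]
    apply isClosed_eq _ continuous_const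
    exact ((continuous_id.sub continuous_const).matrix_elem i j)
  · have h2 : {x : Matrix (Fin n) (Fin n) ℝ | (j : ℕ) < i + 1 → (x - 1) i j = 0}
        = Set.univ := by
      ext x
      simp [hij]
    rw [h2]
    exact isClosed_univ

instance (n : ℕ) : LocallyCompactSpace (UT n) := by
  have : LocallyCompactSpace (Matrix (Fin n) (Fin n) ℝ) :=
    inferInstanceAs (LocallyCompactSpace (Fin n → Fin n → ℝ))
  exact (isClosed_ut n).isClosedEmbedding_subtypeVal.locallyCompactSpace

instance (n : ℕ) : FirstCountableTopology (UT n) := by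
  have : FirstCountableTopology (Matrix (Fin n) (Fin n) ℝ) :=
    inferInstanceAs (FirstCountableTopology (Fin n → Fin n → ℝ))
  exact (isClosed_ut n).isClosedEmbedding_subtypeVal.isInducing.firstCountableTopology

theorem nmU_nhds {n : ℕ} (W : Set (UT n)) (hW : W ∈ 𝓝 (1 : UT n)) :
    ∃ ρ : ℝ, 0 < ρ ∧ ∀ x, nmU x ≤ ρ → x ∈ W := by
  have h1 : 𝓝 (1 : UT n) = Filter.comap (fun x : UT n => (x.1 : Fin n → Fin n → ℝ))
      (𝓝 (fun i j => (1 : Matrix (Fin n) (Fin n) ℝ) i j)) :=
    (isClosed_ut n).isClosedEmbedding_subtypeVal.isInducing.nhds_eq_comap _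
  rw [h1, Filter.mem_comap] at hW
  obtain ⟨V, hV, hVW⟩ := hW
  have hV' : V ∈ @nhds (Fin n → Fin n → ℝ) Pi.topologicalSpace
      (fun i j => (1 : Matrix (Fin n) (Fin n) ℝ) i j) := hV
  obtain ⟨ε, hε, hb⟩ := Metric.mem_nhds_iff.mp hV'
  refine ⟨ε / 2, by positivity, ?_⟩
  intro x hx
  apply hVW
  apply hb
  rw [Metric.mem_ball]
  apply (dist_pi_lt_iff hε).mpr
  intro i
  apply (dist_pi_lt_iff hε).mpr
  intro j
  rw [Real.dist_eq]
  have h2 := l1_entry (nilp x) i j
  rw [← nmU_eq] at h2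
  have h3 : nilp x i j = x.1 i j - (1 : Matrix (Fin n) (Fin n) ℝ) i j := rfl
  rw [h3] at h2
  linarith

theorem isCompact_nmU {n : ℕ} (R : ℝ) : IsCompact {x : UT n | nmU x ≤ R} := by
  have h1 : IsCompact {A : Fin n → Fin n → ℝ | ∀ i, A i ∈ {a : Fin n → ℝ | ∀ j, a j ∈
      Set.Icc (-(R + 1)) (R + 1)}} :=
    isCompact_pi_infinite fun _ => isCompact_pi_infinite fun _ => isCompact_Icc
  have h2 : IsCompact ((fun x : UT n => (x.1 : Fin n → Fin n → ℝ)) ⁻¹' {A : Fin n → Fin n → ℝ |
      ∀ i, A i ∈ {a : Fin n → ℝ | ∀ j, a j ∈ Set.Icc (-(R + 1)) (R + 1)}}) :=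
    (isClosed_ut n).isClosedEmbedding_subtypeVal.isCompact_preimage h1
  apply h2.of_isClosed_subset (isClosed_le (nmU_continuous n) continuous_const)
  intro x hx i j
  have hx2 : nmU x ≤ R := hx
  have h3 := l1_entry (nilp x) i j
  rw [← nmU_eq] at h3
  have h4 : x.1 i j = (1 : Matrix (Fin n) (Fin n) ℝ) i j + nilp x i j := by
    rw [val_eq x]
    rfl
  have h5 : |(1 : Matrix (Fin n) (Fin n) ℝ) i j| ≤ 1 := by
    by_cases h : i = j
    · rw [h, Matrix.one_apply_eq, abs_one]
    · rw [Matrix.one_apply_ne h, abs_zero]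
      exact zero_le_one
  have h6 : |x.1 i j| ≤ R + 1 := by
    rw [h4]
    exact (abs_add_le _ _).trans (by linarith)
  exact abs_le.mp h6

/-! ### The rank -/

/-- The `k`-th superdiagonal. -/
def spd {n : ℕ} (k : ℕ) (x : UT n) : Matrix (Fin n) (Fin n) ℝ :=
  Matrix.of fun i j => if (j : ℕ) = i + k then nilp x i j else 0

theorem spd_apply {n : ℕ} (k : ℕ) (x : UT n) (i j : Fin n) :
    spd k x i j = if (j : ℕ) = i + k then nilp x i j else 0 := rfl

theorem mul_lv {n k : ℕ} {x y : UT n} (hx : nilp x ∈ Lv n k) (hy : nilp y ∈ Lv n k) :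
    nilp (x * y) ∈ Lv n k := by
  rw [nilp_mul]
  refine Submodule.add_mem _ (Submodule.add_mem _ ?_ hx) hy
  exact lv_mono (by omega) (lv_mul hx hy)

theorem pw_lv {n k : ℕ} (hk : 1 ≤ k) {x : UT n} (hx : nilp x ∈ Lv n k) (t : ℝ) :
    nilp (pwU x t) ∈ Lv n k := by
  have h := pwM_sub_mem hx hk t
  have h2 : nilp (pwU x t) = (pwM n (nilp x) t - 1 - t • nilp x) + t • nilp x := by
    rw [sub_add_cancel]
    rfl
  rw [h2]
  exact Submodule.add_mem _ (lv_mono (by omega) h) (Submodule.smul_mem _ _ hx)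

theorem spd_mul {n k : ℕ} (hk : 1 ≤ k) {x y : UT n} (hx : nilp x ∈ Lv n k)
    (hy : nilp y ∈ Lv n k) : spd k (x * y) = spd k x + spd k y := by
  ext i j
  rw [Matrix.add_apply, spd_apply, spd_apply, spd_apply]
  by_cases h : (j : ℕ) = i + k
  · rw [if_pos h, if_pos h, if_pos h, nilp_mul, Matrix.add_apply, Matrix.add_apply,
      lv_mul hx hy i j (by omega), zero_add]
  · rw [if_neg h, if_neg h, if_neg h, add_zero]

theorem spd_pw {n k : ℕ} (hk : 1 ≤ k) {x : UT n} (hx : nilp x ∈ Lv n k) (t : ℝ) :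
    spd k (pwU x t) = t • spd k x := by
  ext i j
  rw [Matrix.smul_apply, spd_apply, spd_apply]
  by_cases h : (j : ℕ) = i + k
  · rw [if_pos h, if_pos h]
    have h2 := pwM_sub_mem hx hk t i j (by omega)
    rw [Matrix.sub_apply, Matrix.smul_apply] at h2
    have h3 : nilp (pwU x t) i j = (pwM n (nilp x) t - 1) i j := rfl
    rw [h3]
    linarith
  · rw [if_neg h, if_neg h, smul_zero]

theorem spd_zero {n k : ℕ} {x : UT n} (hx : nilp x ∈ Lv n k) (h : spd k x = 0) :
    nilp x ∈ Lv n (k + 1) := by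
  intro i j hij
  by_cases h2 : (j : ℕ) = i + k
  · have h3 := congrFun (congrFun h i) j
    rw [spd_apply, if_pos h2] at h3
    exact h3
  · exact hx i j (by omega)

/-- The space of the `k`-th superdiagonals. -/
def spV {n : ℕ} (k : ℕ) (H : Subgroup (UT n)) : Submodule ℝ (Matrix (Fin n) (Fin n) ℝ) :=
  Submodule.span ℝ {A | ∃ x ∈ H, nilp x ∈ Lv n k ∧ A = spd k x}

theorem spV_mono {n : ℕ} (k : ℕ) {H H' : Subgroup (UT n)} (h : H ≤ H') : spV k H ≤ spV k H' := by
  apply Submodule.span_mono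
  rintro A ⟨x, hx, h1, h2⟩
  exact ⟨x, h hx, h1, h2⟩

theorem spV_mem {n k : ℕ} (hk : 1 ≤ k) {H : Subgroup (UT n)} (hH : ∀ x ∈ H, ∀ t, pwU x t ∈ H)
    {A : Matrix (Fin n) (Fin n) ℝ} (hA : A ∈ spV k H) :
    ∃ x ∈ H, nilp x ∈ Lv n k ∧ A = spd k x := by
  unfold spV at hA
  induction hA using Submodule.span_induction with
  | mem A h => exact h
  | zero =>
    refine ⟨1, H.one_mem, ?_, ?_⟩
    · rw [nilp_one]
      exact Submodule.zero_mem _
    · ext i j
      rw [spd_apply, nilp_one]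
      simp
  | add A B _ _ hA hB =>
    obtain ⟨x, hx, hx1, rfl⟩ := hA
    obtain ⟨y, hy, hy1, rfl⟩ := hB
    exact ⟨x * y, H.mul_mem hx hy, mul_lv hx1 hy1, (spd_mul hk hx1 hy1).symm⟩
  | smul t A _ hA =>
    obtain ⟨x, hx, hx1, rfl⟩ := hA
    exact ⟨pwU x t, hH x hx t, pw_lv hk hx1 t, (spd_pw hk hx1 t).symm⟩

/-- The rank. -/
def dmU {n : ℕ} (H : Subgroup (UT n)) : ℕ := ∑ k ∈ Icc 1 n, Module.finrank ℝ (spV k H)

theorem dmU_lt {n : ℕ} (H H' : Subgroup (UT n)) (hH : ∀ x ∈ H, ∀ t, pwU x t ∈ H)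
    (hH' : ∀ x ∈ H', ∀ t, pwU x t ∈ H') (h : H < H') : dmU H < dmU H' := by
  have hle : ∀ k, Module.finrank ℝ (spV k H) ≤ Module.finrank ℝ (spV k H') :=
    fun k => Submodule.finrank_mono (spV_mono k h.le)
  by_contra hcon
  rw [not_lt] at hcon
  have heq : ∀ k ∈ Icc 1 n, Module.finrank ℝ (spV k H) = Module.finrank ℝ (spV k H') := by
    have h1 : dmU H = dmU H' := le_antisymm (Finset.sum_le_sum fun k _ => hle k) hcon
    exact (Finset.sum_eq_sum_iff_of_le fun k _ => hle k).mp h1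
  have heq2 : ∀ k ∈ Icc 1 n, spV k H = spV k H' := fun k hk =>
    Submodule.eq_of_le_of_finrank_eq (spV_mono k h.le) (heq k hk)
  have key : ∀ j k : ℕ, 1 ≤ k → k + j = n + 1 → ∀ x ∈ H', nilp x ∈ Lv n k → x ∈ H := by
    intro j
    induction j with
    | zero =>
      intro k _ hkj x _ hx1
      have h1 : nilp x = 0 := lv_top (by omega) hx1
      have h2 : x = 1 := by
        apply ut_ext
        rw [val_eq, h1, add_zero, one_val]
      rw [h2]
      exact H.one_mem
    | succ j ih =>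
      intro k hk hkj x hx hx1
      have h1 : spd k x ∈ spV k H' := Submodule.subset_span ⟨x, hx, hx1, rfl⟩
      rw [← heq2 k (Finset.mem_Icc.mpr ⟨hk, by omega⟩)] at h1
      obtain ⟨y, hy, hy1, hxy⟩ := spV_mem hk hH h1
      have hyi : nilp y⁻¹ ∈ Lv n k := by
        rw [inv_eq]
        exact pw_lv hk hy1 _
      have h2 : spd k (y⁻¹ * x) = 0 := by
        rw [spd_mul hk hyi hx1, inv_eq, spd_pw hk hy1, hxy]
        module
      have h3 := ih (k + 1) (by omega) (by omega) (y⁻¹ * x)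
        (H'.mul_mem (H'.inv_mem (h.le hy)) hx) (spd_zero (mul_lv hyi hx1) h2)
      have h4 : x = y * (y⁻¹ * x) := by group
      rw [h4]
      exact H.mul_mem hy h3
  apply h.not_ge
  intro x hx
  rcases Nat.eq_zero_or_pos n with hn | hn
  · subst hn
    have h2 : x = 1 := by
      apply ut_ext
      ext i
      exact i.elim0
    rw [h2]
    exact H.one_mem
  · exact key n 1 le_rfl (by omega) x hx (nilp_mem x)

theorem nmU_mul_le (n : ℕ) : ∃ C : ℝ, 0 < C ∧ ∀ x y : UT n, nmU x ≤ 1 → nmU y ≤ 1 →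
    nmU (x * y) ≤ C * (nmU x + nmU y) := by
  refine ⟨2, by norm_num, ?_⟩
  intro x y hx hy
  have h := nmU_mul x y
  have hx0 := nmU_nonneg x
  have hy0 := nmU_nonneg y
  nlinarith

theorem nmU_conj_le {n : ℕ} (K : Set (UT n)) (hK : IsCompact K) : ∃ C : ℝ, 0 < C ∧
    ∀ y ∈ K, ∀ x, nmU x ≤ 1 → nmU (y * x * y⁻¹) ≤ C * nmU x := by
  obtain ⟨R, hR⟩ := hK.bddAbove_image
    (f := fun g : UT n => l1 g.1 * l1 g⁻¹.1) (Continuous.continuousOn
      (((l1_continuous n).comp (val_continuous n)).mul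
        ((l1_continuous n).comp ((val_continuous n).comp continuous_inv))))
  refine ⟨max R 1, lt_max_of_lt_right one_pos, ?_⟩
  intro y hy x _
  have h1 : l1 y.1 * l1 y⁻¹.1 ≤ max R 1 := (hR ⟨y, hy, rfl⟩).trans (le_max_left _ _)
  have h2 := nmU_conj y x
  have h3 : l1 y.1 * nmU x * l1 y⁻¹.1 = (l1 y.1 * l1 y⁻¹.1) * nmU x := by ring
  rw [h3] at h2
  exact h2.trans (mul_le_mul_of_nonneg_right h1 (nmU_nonneg x))

theorem nmU_pw_le {n : ℕ} (K : Set (UT n)) (hK : IsCompact K) : ∃ C : ℝ, 0 < C ∧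
    ∀ x ∈ K, ∀ t : ℝ, |t| ≤ 1 → nmU (pwU x t) ≤ C * |t| := by
  obtain ⟨R, hR⟩ := hK.bddAbove_image
    (f := fun g : UT n => ∑ k ∈ range n, nmU g ^ (k + 1)) (Continuous.continuousOn
      (continuous_finsetSum _ fun k _ => (nmU_continuous n).pow (k + 1)))
  refine ⟨max R 1, lt_max_of_lt_right one_pos, ?_⟩
  intro x hx t ht
  have h1 : ∑ k ∈ range n, nmU x ^ (k + 1) ≤ max R 1 := (hR ⟨x, hx, rfl⟩).trans (le_max_left _ _)
  have h2 := nmU_pw x ht
  rw [mul_comm (max R 1)]
  exact h2.trans (mul_le_mul_of_nonneg_left h1 (abs_nonneg t))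

/-- The group of unitriangular matrices with the lattice `S`, a subgroup of the integral
matrices. -/
def UTG (n : ℕ) (S : Subgroup (UT n)) (_ : S ≤ LaU n) : Type := UT n

instance (n : ℕ) (S : Subgroup (UT n)) (hS : S ≤ LaU n) : Group (UTG n S hS) :=
  inferInstanceAs (Group (UT n))

instance (n : ℕ) (S : Subgroup (UT n)) (hS : S ≤ LaU n) : TopologicalSpace (UTG n S hS) :=
  inferInstanceAs (TopologicalSpace (UT n))

/-- Unitriangular matrices with a lattice of integral matrices are an ambient group. -/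
instance instAmbUT (n : ℕ) (S : Subgroup (UT n)) (hS : S ≤ LaU n) : Amb (UTG n S hS) where
  tgrp := inferInstanceAs (IsTopologicalGroup (UT n))
  t2 := inferInstanceAs (T2Space (UT n))
  lc := inferInstanceAs (LocallyCompactSpace (UT n))
  fc := inferInstanceAs (FirstCountableTopology (UT n))
  pw t x := pwU x t
  pw_cont := (pwU_continuous n).comp continuous_swap
  pw_add s t x := pwU_add x s t
  pw_mul s t x := by rw [pwU_mul, mul_comm]
  pw_one := pwU_one
  La := S
  La_fin K hK := (laU_fin K hK).subset fun _ hx => ⟨hS hx.1, hx.2⟩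
  nm := nmU
  nm_nn := nmU_nonneg
  nm_one := nmU_one
  nm_cont := nmU_continuous n
  nm_nhds := nmU_nhds
  nm_mul := nmU_mul_le n
  nm_conj := nmU_conj_le (n := n)
  nm_pw := nmU_pw_le (n := n)
  dm := dmU
  dm_lt := dmU_lt

/-! ### The whole group is rational -/

theorem ut_coc {n : ℕ} (j k : ℕ) (hk : 1 ≤ k) (hkj : k + j = n + 1) (x : UT n)
    (hx : ∀ a b : Fin n, (b : ℕ) < a + k → |nilp x a b| ≤ 1) :
    ∃ γ ∈ LaU n, ∀ a b : Fin n, |nilp (x * γ) a b| ≤ 1 := by
  induction j generalizing k x with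
  | zero =>
    refine ⟨1, Subgroup.one_mem _, ?_⟩
    intro a b
    rw [mul_one]
    exact hx a b (by have := b.2; omega)
  | succ j ih =>
    set M : Matrix (Fin n) (Fin n) ℝ := Matrix.of fun a b =>
      if (b : ℕ) = a + k then (-(⌊nilp x a b⌋ : ℝ)) else 0 with hM
    have hMk : M ∈ Lv n k := by
      intro a b h
      rw [hM, Matrix.of_apply, if_neg (by omega)]
    have hM1 : M ∈ Lv n 1 := lv_mono hk hMk
    let g : UT n := ⟨1 + M, by rw [add_sub_cancel_left]; exact hM1⟩
    have hgn : nilp g = M := by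
      show 1 + M - 1 = M
      rw [add_sub_cancel_left]
    have hg : g ∈ LaU n := by
      intro a b
      rw [hgn, hM, Matrix.of_apply]
      split_ifs
      · exact ⟨-⌊nilp x a b⌋, by push_cast; rfl⟩
      · exact ⟨0, by rw [Int.cast_zero]⟩
    have h1 : ∀ a b : Fin n, (b : ℕ) < a + (k + 1) → |nilp (x * g) a b| ≤ 1 := by
      intro a b hab
      have h2 : nilp (x * g) a b = nilp x a b + M a b := by
        rw [nilp_mul, hgn, Matrix.add_apply, Matrix.add_apply]
        have h3 : (nilp x * M) a b = 0 := lv_mul (nilp_mem x) hMk a b (by omega)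
        rw [h3, zero_add]
      rw [h2]
      by_cases h4 : (b : ℕ) = a + k
      · rw [hM, Matrix.of_apply, if_pos h4]
        have h5 := Int.floor_le (nilp x a b)
        have h6 := Int.lt_floor_add_one (nilp x a b)
        rw [abs_le]
        constructor <;> linarith
      · rw [hM, Matrix.of_apply, if_neg h4, add_zero]
        exact hx a b (by omega)
    obtain ⟨γ, hγ, h7⟩ := ih (k + 1) (by omega) (by omega) (x * g) h1
    refine ⟨g * γ, Subgroup.mul_mem _ hg hγ, ?_⟩
    intro a b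
    rw [← mul_assoc]
    exact h7 a b

theorem rat_top (n : ℕ) : Rat (⊤ : Subgroup (UTG n (LaU n) le_rfl)) where
  pwc := fun _ _ _ => trivial
  cl := by
    rw [Subgroup.coe_top]
    exact isClosed_univ
  coc := by
    refine ⟨{x : UT n | nmU x ≤ (n : ℝ) * n}, isCompact_nmU _, fun _ _ => trivial, ?_⟩
    intro (x : UT n) _
    have h0 : ∃ γ ∈ LaU n, ∀ a b : Fin n, |nilp (x * γ) a b| ≤ 1 := by
      apply ut_coc n 1 le_rfl (by omega) x
      intro a b h
      rw [nilp_mem x a b h, abs_zero]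
      exact zero_le_one
    obtain ⟨γ, hγ, h⟩ := h0
    refine ⟨x * γ, ?_, γ⁻¹, Subgroup.inv_mem _ hγ, trivial, (mul_inv_cancel_right x γ).symm⟩
    show nmU (x * γ) ≤ (n : ℝ) * n
    unfold nmU
    calc ∑ a, ∑ b, |nilp (x * γ) a b| ≤ ∑ a : Fin n, ∑ b : Fin n, (1 : ℝ) :=
          Finset.sum_le_sum fun a _ => Finset.sum_le_sum fun b _ => h a b
      _ = (n : ℝ) * n := by simp

end

end Pool.Agent.NG
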