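import Mathlib
import Pool.Agent.Lib.NG.ARows
import Pool.Agent.Lib.NG.Inst

/-! # NVG2, row FUT: the filtration of a rational group of unitriangular matrices (helper19) -/

set_option autoImplicit false

namespace Pool.Agent.NG

noncomputable section

open Amb

/-- The matrices of `UT n` whose first `i - 1` superdiagonals vanish. -/
def lvS (n : ℕ) (S : Subgroup (UT n)) (hS : S ≤ LaU n) (i : ℕ) : Subgroup (UTG n S hS) where
  carrier := {x : UT n | nilp x ∈ Lv n (max i 1)}
  mul_mem' := fun {x y} hx hy => mul_lv (x := x) (y := y) hx hy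
  one_mem' := by
    show nilp (1 : UT n) ∈ Lv n (max i 1)
    rw [nilp_one]; exact Submodule.zero_mem _
  inv_mem' := fun {x} hx => pw_lv (x := x) (by omega) hx (-1)

lemma mem_lvS {n : ℕ} {S : Subgroup (UT n)} {hS : S ≤ LaU n} {i : ℕ} (x : UT n) :
    (x : UTG n S hS) ∈ lvS n S hS i ↔ nilp x ∈ Lv n (max i 1) := Iff.rfl

/-- The part of `lvS i` with zero entries at the places of the list `T`. -/
def lvT (n : ℕ) (S : Subgroup (UT n)) (hS : S ≤ LaU n) (i : ℕ) (T : List (Fin n × Fin n)) :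
    Set (UTG n S hS) :=
  {x : UT n | nilp x ∈ Lv n (max i 1) ∧ ∀ q ∈ T, (q.2 : ℕ) = q.1 + max i 1 → nilp x q.1 q.2 = 0}

lemma entry_add {n k : ℕ} (hk : 1 ≤ k) {x y : UT n} (hx : nilp x ∈ Lv n k) (hy : nilp y ∈ Lv n k)
    {a b : Fin n} (hab : (b : ℕ) = a + k) : nilp (x * y) a b = nilp x a b + nilp y a b := by
  have e := spd_mul hk hx hy
  have e2 := congrFun (congrFun e a) b
  rw [Matrix.add_apply, spd_apply, spd_apply, spd_apply, if_pos hab, if_pos hab,
    if_pos hab] at e2
  exact e2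

lemma rat_congr {U : Type} [Amb U] {H H' : Subgroup U} (h : Rat H) (e : H = H') : Rat H' := e ▸ h

theorem rat_lvS (hK : KER_stmt) {n : ℕ} {S : Subgroup (UT n)} {hS : S ≤ LaU n}
    (G : Subgroup (UTG n S hS)) (hG : Rat G) : ∀ i, Rat (G ⊓ lvS n S hS i) := by
  have step : ∀ i, Rat (G ⊓ lvS n S hS i) → ∀ T : List (Fin n × Fin n),
      ∃ H : Subgroup (UTG n S hS), Rat H ∧ (H : Set (UTG n S hS)) = (G : Set _) ∩ lvT n S hS i T := by
    intro i hi T
    induction T with
    | nil =>
      refine ⟨_, hi, ?_⟩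
      ext x
      constructor
      · rintro ⟨h1, h2⟩
        exact ⟨h1, h2, fun q hq => absurd hq (List.not_mem_nil)⟩
      · rintro ⟨h1, h2, _⟩
        exact ⟨h1, h2⟩
    | cons q T ih =>
      obtain ⟨H, hH, hHs⟩ := ih
      by_cases hq : (q.2 : ℕ) = q.1 + max i 1
      · have hmem : ∀ x : UT n, (x : UTG n S hS) ∈ H ↔ (x : UTG n S hS) ∈ G ∧
            (nilp x ∈ Lv n (max i 1) ∧
              ∀ q ∈ T, (q.2 : ℕ) = q.1 + max i 1 → nilp x q.1 q.2 = 0) := by
          intro x
          have := Set.ext_iff.1 hHs x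
          exact this
        have hk : 1 ≤ max i 1 := by omega
        have hA : ∀ x ∈ H, ∀ y ∈ H, (fun x : UT n => nilp x q.1 q.2) (x * y) =
            (fun x : UT n => nilp x q.1 q.2) x + (fun x : UT n => nilp x q.1 q.2) y := by
          intro x hx y hy
          exact entry_add hk ((hmem x).1 hx).2.1 ((hmem y).1 hy).2.1 hq
        have hB : ∀ γ ∈ (La : Subgroup (UTG n S hS)), γ ∈ H → ∃ j : ℤ,
            (fun x : UT n => nilp x q.1 q.2) γ = j := by
          intro γ hγ _
          obtain ⟨j, hj⟩ := hS hγ q.1 q.2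
          exact ⟨j, hj⟩
        have hC : Continuous fun x : UT n => nilp x q.1 q.2 := by
          have h1 := nilp_continuous n
          exact (continuous_apply_apply q.1 q.2).comp h1
        obtain ⟨k1, k2⟩ := hK (UTG n S hS) H (fun x : UT n => nilp x q.1 q.2) hH hA hB
          (Continuous.continuousOn hC)
        refine ⟨kerS H (fun x : UT n => nilp x q.1 q.2), k2, ?_⟩
        ext x
        rw [SetLike.mem_coe, k1 x]
        constructor
        · rintro ⟨h1, h2⟩
          obtain ⟨h3, h4, h5⟩ := (hmem x).1 h1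
          refine ⟨h3, h4, ?_⟩
          intro p hp
          rcases List.mem_cons.1 hp with rfl | hp
          · exact fun _ => h2
          · exact h5 p hp
        · rintro ⟨h1, h2, h3⟩
          exact ⟨(hmem x).2 ⟨h1, h2, fun p hp => h3 p (List.mem_cons_of_mem _ hp)⟩,
            h3 q List.mem_cons_self hq⟩
      · refine ⟨H, hH, ?_⟩
        rw [hHs]
        ext x
        constructor
        · rintro ⟨h1, h2, h3⟩
          refine ⟨h1, h2, ?_⟩
          intro p hp hp2
          rcases List.mem_cons.1 hp with rfl | hp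
          · exact absurd hp2 hq
          · exact h3 p hp hp2
        · rintro ⟨h1, h2, h3⟩
          exact ⟨h1, h2, fun p hp => h3 p (List.mem_cons_of_mem _ hp)⟩
  intro i
  induction i with
  | zero =>
    refine rat_congr hG ?_
    ext x
    constructor
    · exact fun h => ⟨h, nilp_mem (n := n) x⟩
    · exact fun h => h.1
  | succ i ih =>
    obtain ⟨H, hH, hHs⟩ := step i ih ((Finset.univ : Finset (Fin n × Fin n)).toList)
    by_cases hi : i = 0
    · subst hi
      exact ih
    · refine rat_congr hH ?_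
      ext x
      have := Set.ext_iff.1 hHs x
      constructor
      · intro h
        obtain ⟨h1, h2, h3⟩ := this.1 h
        refine ⟨h1, ?_⟩
        show nilp (n := n) x ∈ Lv n (max (i + 1) 1)
        have e : max (i + 1) 1 = max i 1 + 1 := by omega
        rw [e]
        intro a b hab
        by_cases h4 : (b : ℕ) = a + max i 1
        · exact h3 (a, b) (by simp) h4
        · exact h2 a b (by omega)
      · rintro ⟨h1, h2⟩
        refine this.2 ⟨h1, lv_mono (by omega) h2, ?_⟩
        intro q _ hq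
        exact h2 q.1 q.2 (by omega)

lemma comm_lv {n i j : ℕ} {x y : UT n} (hx : nilp x ∈ Lv n (max i 1)) (hy : nilp y ∈ Lv n (max j 1)) :
    nilp (x * y * x⁻¹ * y⁻¹) ∈ Lv n (max (i + j) 1) := by
  have e : nilp (x * y * x⁻¹ * y⁻¹) =
      (nilp x * nilp y - nilp y * nilp x) * (x⁻¹.1 * y⁻¹.1) := by
    have h1 : x * y * x⁻¹ * y⁻¹ = x * y * (y * x)⁻¹ := by group
    have h2 : (y * x)⁻¹ = x⁻¹ * y⁻¹ := by group
    rw [h1]
    have h3 : nilp (x * y * (y * x)⁻¹) = (x.1 * y.1) * (y * x)⁻¹.1 - 1 := by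
      rw [nilp, mul_val, mul_val]
    have h4 : (y * x).1 * (y * x)⁻¹.1 = 1 := mul_inv_val (y * x)
    have h5 : nilp x * nilp y - nilp y * nilp x = x.1 * y.1 - (y * x).1 := by
      rw [mul_val, nilp, nilp]
      noncomm_ring
    rw [h3, h5, ← mul_val x⁻¹ y⁻¹, ← h2, sub_mul, h4]
  rw [e]
  have h1 : nilp x * nilp y - nilp y * nilp x ∈ Lv n (max i 1 + max j 1) := by
    refine Submodule.sub_mem _ (lv_mul hx hy) ?_
    rw [add_comm]; exact lv_mul hy hx
  have h2 : x⁻¹.1 * y⁻¹.1 ∈ Lv n 0 := by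
    rw [← mul_val, val_eq]
    refine Submodule.add_mem _ ?_ (lv_mono (by omega) (nilp_mem _))
    intro a b h
    rw [Matrix.one_apply_ne]
    intro h3
    rw [h3] at h
    omega
  exact lv_mono (by omega) (lv_mul h1 h2)

/-- **Row FUT.** -/
theorem fut (hK : KER_stmt) (n : ℕ) (S : Subgroup (UT n)) (hS : S ≤ LaU n)
    (G : Subgroup (UTG n S hS)) (hG : Rat G) :
    Filt (fun i => G ⊓ lvS n S hS i) n ∧ G ⊓ lvS n S hS 0 = G ∧ G ⊓ lvS n S hS (n + 1) = ⊥ := by
  have htop : ∀ i, n ≤ i → G ⊓ lvS n S hS i = ⊥ := by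
    intro i hi
    rw [eq_bot_iff]
    rintro (x : UT n) ⟨-, h2⟩
    have h3 : nilp x = 0 := lv_top (by omega) h2
    have h4 : x = 1 := ut_ext (by rw [val_eq, h3, add_zero, one_val])
    exact (Subgroup.mem_bot (G := UTG n S hS)).2 h4
  refine ⟨⟨rat_lvS hK G hG, ?_, ?_, ?_, ?_⟩, ?_, htop _ (by omega)⟩
  · rintro i (x : UT n) ⟨h1, h2⟩
    exact ⟨h1, lv_mono (by omega) h2⟩
  · ext x
    exact Iff.rfl
  · rintro i j (x : UT n) ⟨h1, h2⟩ (y : UT n) ⟨h3, h4⟩
    refine ⟨G.mul_mem (G.mul_mem (G.mul_mem h1 h3) (G.inv_mem h1)) (G.inv_mem h3), ?_⟩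
    exact comm_lv h2 h4
  · intro i hi
    rw [htop i (by omega), htop (n + 1) (by omega)]
  · ext x
    constructor
    · exact fun h => h.1
    · exact fun h => ⟨h, nilp_mem (n := n) x⟩

end

end Pool.Agent.NG
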