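import Mathlib
import Pool.Agent.Lib.NG.FUT

/-!
# NVG2 (MP_663568_nt), row FINAL: polynomial matrix sequences are polynomial maps

(helper26)
-/

set_option autoImplicit false
open Finset Topology Polynomial

namespace Pool.Agent.NG

open Amb

noncomputable section

/-! ### Polynomials of degree less than `e` -/

/-- `u` is a polynomial of degree less than `e` (zero if `e = 0`). -/
def Dg (e : ℕ) (u : ℤ → ℝ) : Prop := ∃ p : ℝ[X], p ∈ degreeLT ℝ e ∧ ∀ m : ℤ, u m = p.eval (m : ℝ)

theorem dg_mono {e e' : ℕ} (h : e ≤ e') {u : ℤ → ℝ} (hu : Dg e u) : Dg e' u := by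
  obtain ⟨p, hp, h1⟩ := hu
  exact ⟨p, degreeLT_mono h hp, h1⟩

theorem dg_zero (e : ℕ) : Dg e fun _ => 0 := ⟨0, Submodule.zero_mem _, fun m => by simp⟩

theorem dg_eq_zero {u : ℤ → ℝ} (hu : Dg 0 u) (m : ℤ) : u m = 0 := by
  obtain ⟨p, hp, h1⟩ := hu
  rw [mem_degreeLT] at hp
  have h2 : p = 0 := by
    by_contra h
    rw [degree_eq_natDegree h] at hp
    exact absurd hp (by simp)
  rw [h1, h2, eval_zero]

theorem dg_const {e : ℕ} (he : 1 ≤ e) (c : ℝ) : Dg e fun _ => c := by
  refine ⟨C c, ?_, fun m => by simp⟩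
  rw [mem_degreeLT]
  exact lt_of_le_of_lt degree_C_le (by exact_mod_cast he)

theorem dg_add {e : ℕ} {u v : ℤ → ℝ} (hu : Dg e u) (hv : Dg e v) : Dg e fun m => u m + v m := by
  obtain ⟨p, hp, h1⟩ := hu
  obtain ⟨q, hq, h2⟩ := hv
  exact ⟨p + q, Submodule.add_mem _ hp hq, fun m => by show u m + v m = _; rw [h1, h2, eval_add]⟩

theorem dg_neg {e : ℕ} {u : ℤ → ℝ} (hu : Dg e u) : Dg e fun m => -u m := by
  obtain ⟨p, hp, h1⟩ := hu
  exact ⟨-p, Submodule.neg_mem _ hp, fun m => by show -u m = _; rw [h1, eval_neg]⟩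

theorem dg_sum {e : ℕ} {ι : Type*} (s : Finset ι) (u : ι → ℤ → ℝ) (hu : ∀ i ∈ s, Dg e (u i)) :
    Dg e fun m => ∑ i ∈ s, u i m := by
  classical
  induction s using Finset.induction_on with
  | empty => simpa using dg_zero e
  | insert a s ha ih =>
    have h1 := dg_add (hu a (mem_insert_self _ _)) (ih fun i hi => hu i (mem_insert_of_mem hi))
    simpa [Finset.sum_insert ha] using h1

theorem dg_mul {e e' : ℕ} {u v : ℤ → ℝ} (hu : Dg e u) (hv : Dg e' v) :
    Dg (e + e' - 1) fun m => u m * v m := by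
  rcases Nat.eq_zero_or_pos e with h0 | h0
  · subst h0
    have : (fun m => u m * v m) = fun _ => 0 := by
      funext m
      rw [dg_eq_zero hu, zero_mul]
    rw [this]
    exact dg_zero _
  rcases Nat.eq_zero_or_pos e' with h0' | h0'
  · subst h0'
    have : (fun m => u m * v m) = fun _ => 0 := by
      funext m
      rw [dg_eq_zero hv, mul_zero]
    rw [this]
    exact dg_zero _
  obtain ⟨p, hp, h1⟩ := hu
  obtain ⟨q, hq, h2⟩ := hv
  refine ⟨p * q, ?_, fun m => by show u m * v m = _; rw [h1, h2, eval_mul]⟩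
  rw [mem_degreeLT] at hp hq ⊢
  by_cases hz : p * q = 0
  · rw [hz, degree_zero]
    exact WithBot.bot_lt_coe _
  have hp0 : p ≠ 0 := left_ne_zero_of_mul hz
  have hq0 : q ≠ 0 := right_ne_zero_of_mul hz
  rw [degree_eq_natDegree hp0] at hp
  rw [degree_eq_natDegree hq0] at hq
  rw [degree_eq_natDegree hz, natDegree_mul hp0 hq0]
  have h3 : p.natDegree < e := by exact_mod_cast hp
  have h4 : q.natDegree < e' := by exact_mod_cast hq
  have h5 : p.natDegree + q.natDegree < e + e' - 1 := by omega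
  exact_mod_cast h5

theorem dg_diff {e : ℕ} {u : ℤ → ℝ} (hu : Dg (e + 1) u) (h : ℤ) :
    Dg e fun m => u (m + h) - u m := by
  obtain ⟨p, hp, h1⟩ := hu
  refine ⟨p.comp (X + C (h : ℝ)) - p, ?_, fun m => by
    show u (m + h) - u m = _
    rw [h1, h1, eval_sub, eval_comp]
    simp⟩
  rw [mem_degreeLT] at hp ⊢
  by_cases hp0 : p = 0
  · rw [hp0]
    simp
  have hX : (X + C (h : ℝ)).natDegree = 1 := natDegree_X_add_C _
  have hn : (p.comp (X + C (h : ℝ))).natDegree = p.natDegree := by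
    rw [natDegree_comp, hX, mul_one]
  rw [degree_eq_natDegree hp0] at hp
  have hpe : p.natDegree < e + 1 := by exact_mod_cast hp
  by_cases hc : p.natDegree = 0
  · obtain ⟨c, hc2⟩ := natDegree_eq_zero.mp hc
    rw [← hc2]
    simp
  have hcomp0 : p.comp (X + C (h : ℝ)) ≠ 0 := by
    intro h0
    rw [h0, natDegree_zero] at hn
    exact hc hn.symm
  have hlead : (p.comp (X + C (h : ℝ))).leadingCoeff = p.leadingCoeff := by
    rw [leadingCoeff_comp (by rw [hX]; exact one_ne_zero), leadingCoeff_X_add_C, one_pow, mul_one]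
  have hlt := degree_sub_lt_left (p := p.comp (X + C (h : ℝ))) (q := p)
    (by rw [degree_eq_natDegree hcomp0, degree_eq_natDegree hp0, hn]) hcomp0 hlead
  rw [degree_eq_natDegree hcomp0, hn] at hlt
  refine lt_of_lt_of_le hlt ?_
  exact_mod_cast (by omega : p.natDegree ≤ e)

/-! ### Matrices whose entries have weighted degrees -/

/-- The entries `(a, b)` are polynomials of degree at most `D (b - a) - s`, zero if this is negative
or if `b < a`. -/
def Wd {n : ℕ} (D s : ℕ) (M : ℤ → Matrix (Fin n) (Fin n) ℝ) : Prop := ∀ a b : Fin n,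
  ((b : ℕ) < a → ∀ m, M m a b = 0) ∧ ((a : ℕ) ≤ b → Dg (D * (b - a) + 1 - s) fun m => M m a b)

theorem wd_mono {n D s s' : ℕ} (h : s' ≤ s) {M : ℤ → Matrix (Fin n) (Fin n) ℝ} (hM : Wd D s M) :
    Wd D s' M := fun a b => ⟨(hM a b).1, fun hab => dg_mono (by omega) ((hM a b).2 hab)⟩

theorem wd_one {n D : ℕ} : Wd D 0 fun _ => (1 : Matrix (Fin n) (Fin n) ℝ) := by
  intro a b
  refine ⟨fun h m => ?_, fun h => dg_const (by omega) _⟩
  show (1 : Matrix (Fin n) (Fin n) ℝ) a b = 0
  rw [Matrix.one_apply_ne]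
  intro h2
  rw [h2] at h
  omega

theorem wd_add {n D s : ℕ} {M M' : ℤ → Matrix (Fin n) (Fin n) ℝ} (hM : Wd D s M)
    (hM' : Wd D s M') : Wd D s fun m => M m + M' m := by
  intro a b
  refine ⟨fun h m => ?_, fun h => ?_⟩
  · show (M m + M' m) a b = 0
    rw [Matrix.add_apply, (hM a b).1 h, (hM' a b).1 h, add_zero]
  · exact dg_add ((hM a b).2 h) ((hM' a b).2 h)

theorem wd_smul {n D s : ℕ} {M : ℤ → Matrix (Fin n) (Fin n) ℝ} (hM : Wd D s M) (c : ℝ) :
    Wd D s fun m => c • M m := by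
  intro a b
  refine ⟨fun h m => ?_, fun h => ?_⟩
  · show (c • M m) a b = 0
    rw [Matrix.smul_apply, (hM a b).1 h, smul_zero]
  · have h1 := dg_mul (dg_const (le_refl 1) c) ((hM a b).2 h)
    exact dg_mono (by omega) h1

theorem wd_mul {n D s : ℕ} {M M' : ℤ → Matrix (Fin n) (Fin n) ℝ} (hM : Wd D s M)
    (hM' : Wd D 0 M') : Wd D s fun m => M m * M' m := by
  intro a b
  refine ⟨fun h m => ?_, fun h => ?_⟩
  · show (M m * M' m) a b = 0
    rw [Matrix.mul_apply]
    refine Finset.sum_eq_zero fun c _ => ?_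
    by_cases hc : (c : ℕ) < a
    · rw [(hM a c).1 hc, zero_mul]
    · rw [(hM' c b).1 (by omega), mul_zero]
  · have h1 : (fun m => (M m * M' m) a b) = fun m => ∑ c, M m a c * M' m c b := by
      funext m
      rw [Matrix.mul_apply]
    rw [h1]
    refine dg_sum _ (fun c m => M m a c * M' m c b) fun c _ => ?_
    by_cases hc : (c : ℕ) < a
    · have : (fun m => M m a c * M' m c b) = fun _ => 0 := by
        funext m
        rw [(hM a c).1 hc, zero_mul]
      rw [this]
      exact dg_zero _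
    by_cases hc2 : (b : ℕ) < c
    · have : (fun m => M m a c * M' m c b) = fun _ => 0 := by
        funext m
        rw [(hM' c b).1 hc2, mul_zero]
      rw [this]
      exact dg_zero _
    · have h2 := dg_mul ((hM a c).2 (by omega)) ((hM' c b).2 (by omega))
      by_cases h3 : D * (c - a) + 1 - s = 0
      · rw [h3] at h2
        have : (fun m => M m a c * M' m c b) = fun _ => 0 := by
          funext m
          have h4 := (hM a c).2 (by omega)
          rw [h3] at h4
          rw [dg_eq_zero h4, zero_mul]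
        rw [this]
        exact dg_zero _
      · refine dg_mono ?_ h2
        have h5 : D * ((b : ℕ) - a) = D * (c - a) + D * (b - c) := by
          rw [← Nat.mul_add]
          congr 1
          omega
        rw [h5]
        omega

theorem wd_diff {n D s : ℕ} {M : ℤ → Matrix (Fin n) (Fin n) ℝ} (hM : Wd D s M) (h : ℤ) : Wd D (s + 1) fun m => M (m + h) - M m := by
  intro a b
  refine ⟨fun hab m => ?_, fun hab => ?_⟩
  · show (M (m + h) - M m) a b = 0
    rw [Matrix.sub_apply, (hM a b).1 hab, (hM a b).1 hab, sub_zero]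
  · by_cases h3 : D * (b - a) + 1 - s = 0
    · have : (fun m => (M (m + h) - M m) a b) = fun _ => 0 := by
        funext m
        have h4 := (hM a b).2 hab
        rw [h3] at h4
        rw [Matrix.sub_apply, dg_eq_zero h4, dg_eq_zero h4, sub_zero]
      rw [this]
      exact dg_zero _
    · have h4 := (hM a b).2 hab
      obtain ⟨e, he⟩ := Nat.exists_eq_succ_of_ne_zero h3
      rw [he] at h4
      have h5 := dg_diff h4 h
      exact dg_mono (by omega) h5

/-! ### Polynomial maps -/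

/-- `⌈i / D⌉`. -/
def cl' (D i : ℕ) : ℕ := (i + D - 1) / D

theorem cl'_le {D : ℕ} (hD : 1 ≤ D) (i k : ℕ) : cl' D i ≤ k ↔ i ≤ D * k := by
  unfold cl'
  rw [Nat.div_le_iff_le_mul_add_pred (by omega)]
  constructor <;> intro h <;> omega

theorem wd_inv {n D : ℕ} (g : ℤ → UT n) (hg : Wd D 0 fun m => nilp (g m)) :
    Wd D 0 fun m => ((g m)⁻¹).1 := by
  have h1 : ∀ k : ℕ, Wd D 0 fun m => nilp (g m) ^ k := by
    intro k
    induction k with
    | zero => simpa using wd_one
    | succ k ih =>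
      have := wd_mul ih hg
      simpa [pow_succ] using this
  have h2 : (fun m => ((g m)⁻¹).1) = fun m => ∑ k ∈ range (n + 1), bin (-1) k • nilp (g m) ^ k := by
    funext m
    rw [inv_eq, pwU_val]
    rfl
  rw [h2]
  have h3 : ∀ N : ℕ, Wd D 0 fun m => ∑ k ∈ range N, bin (-1) k • nilp (g m) ^ k := by
    intro N
    induction N with
    | zero =>
      intro a b
      exact ⟨fun _ m => by simp, fun _ => by simpa using dg_zero _⟩
    | succ N ih =>
      have := wd_add ih (wd_smul (h1 N) (bin (-1) N))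
      simpa [Finset.sum_range_succ] using this
  exact h3 (n + 1)

theorem wd_dif {n D s : ℕ} (g : ℤ → UT n) (hg : Wd D s fun m => nilp (g m)) (h : ℤ) :
    Wd D (s + 1) fun m => nilp (g (m + h) * (g m)⁻¹) := by
  have h1 : (fun m => nilp (g (m + h) * (g m)⁻¹)) =
      fun m => (nilp (g (m + h)) - nilp (g m)) * ((g m)⁻¹).1 := by
    funext m
    show (g (m + h)).1 * ((g m)⁻¹).1 - 1 = _
    have h2 := mul_inv_val (g m)
    have h3 : nilp (g (m + h)) - nilp (g m) = (g (m + h)).1 - (g m).1 := by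
      unfold nilp
      abel
    rw [h3, sub_mul, h2]
  rw [h1]
  exact wd_mul (wd_diff hg h) (wd_inv g (wd_mono (Nat.zero_le _) hg))

theorem wd_mem {n D s : ℕ} (hD : 1 ≤ D) (g : ℤ → UT n) (hg : Wd D s fun m => nilp (g m)) (m : ℤ) :
    nilp (g m) ∈ Lv n (max (cl' D s) 1) := by
  intro a b hab
  by_cases h1 : (b : ℕ) < a + 1
  · exact nilp_mem (g m) a b h1
  have h2 : (b : ℕ) - a < cl' D s := by
    omega
  have h3 : ¬ s ≤ D * (b - a) := by
    rw [← cl'_le hD]
    omega
  have h4 := (hg a b).2 (by omega)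
  rw [show D * ((b : ℕ) - a) + 1 - s = 0 by omega] at h4
  exact dg_eq_zero h4 m

/-- **Polynomial matrix sequences with values in `G` are polynomial maps.** -/
theorem ps_of_wd {n D : ℕ} (hD : 1 ≤ D) (S : Subgroup (UT n)) (hS : S ≤ LaU n)
    (G : Subgroup (UTG n S hS)) (g : ℤ → UTG n S hS) (hg : Wd D 0 fun m => nilp (n := n) (g m))
    (hG : ∀ m, g m ∈ G) : PS (fun i => G ⊓ lvS n S hS (cl' D i)) 0 g := by
  have key : ∀ l : List ℤ, (∀ m, (l.foldr dif g) m ∈ G) ∧
      Wd D l.length fun m => nilp (n := n) ((l.foldr dif g) m) := by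
    intro l
    induction l with
    | nil => exact ⟨hG, hg⟩
    | cons h l ih =>
      refine ⟨fun m => ?_, ?_⟩
      · exact G.mul_mem (ih.1 (m + h)) (G.inv_mem (ih.1 m))
      · exact wd_dif (n := n) (fun m => (l.foldr dif g) m) ih.2 h
  intro l m
  refine ⟨(key l).1 m, ?_⟩
  rw [zero_add]
  exact wd_mem (n := n) hD (fun m => (l.foldr dif g) m) (key l).2 m

/-- The stretched filtration. -/
theorem filt_stretch {U : Type} [Amb U] {Gf : ℕ → Subgroup U} {d : ℕ} (hF : Filt Gf d) {D : ℕ}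
    (hD : 1 ≤ D) : Filt (fun i => Gf (cl' D i)) (D * d) := by
  have hanti : Antitone Gf := antitone_nat_of_succ_le hF.anti
  have hcl : ∀ i j, i ≤ j → cl' D i ≤ cl' D j := fun i j h => by
    rw [cl'_le hD]
    exact h.trans ((cl'_le hD _ _).1 le_rfl)
  have hst : ∀ i, d < i → Gf i = Gf (d + 1) := hF.stab
  have hgt : ∀ i, D * d < i → d < cl' D i := fun i h => by
    by_contra h2
    rw [not_lt, cl'_le hD] at h2
    omega
  refine ⟨fun i => hF.rat _, fun i => hanti (hcl _ _ (Nat.le_succ i)), ?_, fun i j => ?_,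
    fun i hi => ?_⟩
  · have h0 : cl' D 0 = 0 := Nat.le_zero.1 ((cl'_le hD 0 0).2 (Nat.zero_le _))
    have h1 : cl' D 1 ≤ 1 := (cl'_le hD 1 1).2 (by omega)
    show Gf (cl' D 1) = Gf (cl' D 0)
    rw [h0]
    rcases Nat.le_one_iff_eq_zero_or_eq_one.1 h1 with h | h
    · rw [h]
    · rw [h, hF.top]
  · intro x hx y hy
    refine hanti ?_ (hF.com _ _ x hx y hy)
    rw [cl'_le hD, Nat.mul_add]
    exact Nat.add_le_add ((cl'_le hD _ _).1 le_rfl) ((cl'_le hD _ _).1 le_rfl)
  · show Gf (cl' D i) = Gf (cl' D (D * d + 1))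
    rw [hst _ (hgt i hi), hst _ (hgt _ (Nat.lt_succ_self _))]

end

end Pool.Agent.NG
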