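import Pool.Agent.Lib.NG.CLS

/-!
# NVG2, rows KER and ADJ
-/

set_option autoImplicit false
open Finset Topology

namespace Pool.Agent.NG

open Amb

variable {U : Type} [Amb U]

theorem add_one {H : Subgroup U} {χ : U → ℝ} (hmul : ∀ x ∈ H, ∀ y ∈ H, χ (x * y) = χ x + χ y) :
    χ 1 = 0 := by
  have h := hmul 1 H.one_mem 1 H.one_mem
  rw [mul_one] at h
  linarith

theorem add_inv {H : Subgroup U} {χ : U → ℝ} (hmul : ∀ x ∈ H, ∀ y ∈ H, χ (x * y) = χ x + χ y)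
    {x : U} (hx : x ∈ H) : χ x⁻¹ = - χ x := by
  have h := hmul x hx x⁻¹ (H.inv_mem hx)
  rw [mul_inv_cancel, add_one hmul] at h
  linarith

theorem mem_kerS {H : Subgroup U} {χ : U → ℝ} (hmul : ∀ x ∈ H, ∀ y ∈ H, χ (x * y) = χ x + χ y)
    (x : U) : x ∈ kerS H χ ↔ x ∈ H ∧ χ x = 0 := by
  let L : Subgroup U :=
    { carrier := {x | x ∈ H ∧ χ x = 0}
      mul_mem' := by
        rintro a b ⟨ha, ha'⟩ ⟨hb, hb'⟩
        exact ⟨H.mul_mem ha hb, by rw [hmul a ha b hb, ha', hb', add_zero]⟩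
      one_mem' := ⟨H.one_mem, add_one hmul⟩
      inv_mem' := by
        rintro a ⟨ha, ha'⟩
        exact ⟨H.inv_mem ha, by rw [add_inv hmul ha, ha', neg_zero]⟩ }
  have h : kerS H χ = L := Subgroup.closure_eq L
  rw [h]
  rfl

/-- **row KER** -/
theorem ker_row : KER_stmt := by
  intro U _ H χ hH hmul hint hcont
  classical
  refine ⟨mem_kerS hmul, ?_⟩
  have hmem := mem_kerS (χ := χ) hmul
  have hset : ((kerS H χ : Subgroup U) : Set U) = (H : Set U) ∩ χ ⁻¹' {0} := by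
    ext x
    exact hmem x
  obtain ⟨K, hK, hKH, hKγ⟩ := hH.coc
  -- values of `χ` on `K`
  have hKc : IsCompact (χ '' K) := hK.image_of_continuousOn (hcont.mono hKH)
  obtain ⟨B, hB⟩ := hKc.isBounded.exists_norm_le
  let D : Set ℤ := {j | ∃ k ∈ K, χ k = -(j : ℝ)}
  have hD : D.Finite := by
    refine (Set.finite_Icc (-⌈B⌉) ⌈B⌉).subset ?_
    rintro j ⟨k, hk, hj⟩
    have h1 := hB _ ⟨k, hk, rfl⟩
    rw [hj, norm_neg, Real.norm_eq_abs, abs_le] at h1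
    have h2 := Int.le_ceil B
    constructor
    · have : (-(⌈B⌉ : ℤ) : ℝ) ≤ j := by push_cast; linarith [h1.1]
      exact_mod_cast this
    · have : (j : ℝ) ≤ ⌈B⌉ := by linarith [h1.2]
      exact_mod_cast this
  let Ad : ℤ → U → Prop := fun j d => d ∈ (La : Subgroup U) ∧ d ∈ H ∧ χ d = j
  let r : ℤ → U := fun j => if h : ∃ d, Ad j d then h.choose else 1
  have hr : ∀ j d, Ad j d → Ad j (r j) := by
    intro j d hd
    have h : ∃ d, Ad j d := ⟨d, hd⟩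
    simp only [r]
    rw [dif_pos h]
    exact h.choose_spec
  refine rat_of_fin (H := H) ?_ ?_ K hK (r '' D) (hD.image r) ?_ ?_
  · intro x hx t
    obtain ⟨h1, h2⟩ := (hmem x).1 hx
    exact (hmem _).2 ⟨hH.pwc x h1 t, by rw [add_pw hH.pwc hmul hcont h1, h2, mul_zero]⟩
  · rw [hset]
    exact hcont.preimage_isClosed_of_isClosed hH.cl isClosed_singleton
  · intro x hx
    obtain ⟨hxH, hx0⟩ := (hmem x).1 hx
    obtain ⟨k, hk, γ, hγ, hγH, rfl⟩ := hKγ x hxH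
    obtain ⟨j, hj⟩ := hint γ hγ hγH
    have h1 : χ k = -(j : ℝ) := by
      have h2 := hmul k (hKH hk) γ hγH
      rw [hx0, hj] at h2
      linarith
    obtain ⟨h3, h4, h5⟩ := hr j γ ⟨hγ, hγH, hj⟩
    refine ⟨k, hk, r j, ⟨j, ⟨k, hk, h1⟩, rfl⟩, (r j)⁻¹ * γ,
      (La : Subgroup U).mul_mem ((La : Subgroup U).inv_mem h3) hγ, ?_, by group⟩
    refine (hmem _).2 ⟨H.mul_mem (H.inv_mem h4) hγH, ?_⟩
    rw [hmul _ (H.inv_mem h4) _ hγH, add_inv hmul h4, h5, hj]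
    ring
  · intro x hx
    exact ((hmem x).1 hx).1

end Pool.Agent.NG
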