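import Mathlib
import Pool.Agent.Lib.NG.ARows

/-!
# NVG2 (MP_663568_nt), row LBM: polynomial maps form a group (Lazard, Leibman)  (helper33)
-/

set_option autoImplicit false
open Finset Topology

namespace Pool.Agent.NG

noncomputable section

open Amb

namespace Lbm

variable {U : Type} [Amb U] {A : Type} [AddCommGroup A] {Gf : ℕ → Subgroup U} {d : ℕ}

/-- Polynomial maps up to order `k`. -/
def P (Gf : ℕ → Subgroup U) : ℕ → ℕ → (A → U) → Prop
  | 0, i, g => ∀ n, g n ∈ Gf i
  | k + 1, i, g => (∀ n, g n ∈ Gf i) ∧ ∀ h, P Gf k (i + 1) (dif h g)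

theorem P_val {k i : ℕ} {g : A → U} (hg : P Gf k i g) (n : A) : g n ∈ Gf i := by
  cases k with
  | zero => exact hg n
  | succ k => exact hg.1 n

theorem P_down {k : ℕ} : ∀ {i : ℕ} {g : A → U}, P Gf (k + 1) i g → P Gf k i g := by
  induction k with
  | zero => intro i g hg; exact fun n => hg.1 n
  | succ k ih => intro i g hg; exact ⟨hg.1, fun h => ih (hg.2 h)⟩

theorem P_one (hG : Filt Gf d) {k : ℕ} : ∀ {i : ℕ} {g : A → U}, P Gf k (i + 1) g → P Gf k i g := by
  induction k with
  | zero => intro i g hg n; exact hG.anti i (hg n)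
  | succ k ih => intro i g hg; exact ⟨fun n => hG.anti i (hg.1 n), fun h => ih (hg.2 h)⟩

theorem P_le (hG : Filt Gf d) {k i j : ℕ} (hij : i ≤ j) {g : A → U} (hg : P Gf k j g) :
    P Gf k i g := by
  induction j, hij using Nat.le_induction with
  | base => exact hg
  | succ j _ ih => exact ih (P_one hG hg)

/-- The induction statement. -/
def Q (A : Type) [AddCommGroup A] (Gf : ℕ → Subgroup U) (k : ℕ) : Prop :=
  (∀ (i : ℕ) (g g' : A → U), P Gf k i g → P Gf k i g' → P Gf k i fun n => g n * g' n) ∧
  (∀ (i : ℕ) (g : A → U), P Gf k i g → P Gf k i fun n => (g n)⁻¹) ∧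
  (∀ (i j : ℕ) (g g' : A → U), P Gf k i g → P Gf k j g' →
    P Gf k (i + j) fun n => g n * g' n * (g n)⁻¹ * (g' n)⁻¹)

theorem conj_mem {k m : ℕ} (hG : Filt Gf d) (hQ : Q A Gf k) {i : ℕ} {g u : A → U}
    (hg : P Gf k i g) (hu : P Gf k m u) : P Gf k m fun n => g n * u n * (g n)⁻¹ := by
  have h := hQ.1 m _ _ (P_le hG (Nat.le_add_left m i) (hQ.2.2 i m g u hg hu)) hu
  have e : (fun n => g n * u n * (g n)⁻¹ * (u n)⁻¹ * u n) = fun n => g n * u n * (g n)⁻¹ := by
    funext n; group
  rwa [e] at h

theorem main (hG : Filt Gf d) (k : ℕ) : Q A Gf k := by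
  induction k with
  | zero =>
    refine ⟨fun i g g' h h' n => (Gf i).mul_mem (h n) (h' n), fun i g h n => (Gf i).inv_mem (h n),
      fun i j g g' h h' n => hG.com i j _ (h n) _ (h' n)⟩
  | succ k ih =>
    refine ⟨?_, ?_, ?_⟩
    · intro i g g' hg hg'
      refine ⟨fun n => (Gf i).mul_mem (hg.1 n) (hg'.1 n), fun h => ?_⟩
      have e : dif h (fun n => g n * g' n) = fun n => dif h g n *
          ((g n * dif h g' n * (g n)⁻¹ * (dif h g' n)⁻¹) * dif h g' n) := by
        funext n; simp only [dif]; group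
      rw [e]
      refine ih.1 _ _ _ (hg.2 h) (ih.1 _ _ _ ?_ (hg'.2 h))
      exact P_le hG (by omega) (ih.2.2 i (i + 1) g (dif h g') (P_down hg) (hg'.2 h))
    · intro i g hg
      refine ⟨fun n => (Gf i).inv_mem (hg.1 n), fun h => ?_⟩
      have e : dif h (fun n => (g n)⁻¹) = fun n => (g n)⁻¹ * (dif h g n)⁻¹ * ((g n)⁻¹)⁻¹ := by
        funext n; simp only [dif]; group
      rw [e]
      exact conj_mem hG ih (ih.2.1 i g (P_down hg)) (ih.2.1 _ _ (hg.2 h))
    · intro i j g g' hg hg'
      refine ⟨fun n => hG.com i j _ (hg.1 n) _ (hg'.1 n), fun h => ?_⟩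
      set a := dif h g with ha
      set b := dif h g' with hb
      set c : A → U := fun n => g n * g' n * (g n)⁻¹ * (g' n)⁻¹ with hc
      have pa : P Gf k (i + 1) a := hg.2 h
      have pb : P Gf k (j + 1) b := hg'.2 h
      have pg := P_down hg
      have pg' := P_down hg'
      have pc : P Gf k (i + j) c := ih.2.2 i j g g' pg pg'
      have pX : P Gf k (i + j + 1) fun n => g n * b n * (g n)⁻¹ * (b n)⁻¹ :=
        ih.2.2 i (j + 1) g b pg pb
      have pY : P Gf k (i + j + 1) fun n => a n * b n * (a n)⁻¹ * (b n)⁻¹ :=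
        P_le hG (by omega) (ih.2.2 (i + 1) (j + 1) a b pa pb)
      have pZ : P Gf k (i + j + 1) fun n => a n * g' n * (a n)⁻¹ * (g' n)⁻¹ :=
        P_le hG (by omega) (ih.2.2 (i + 1) j a g' pa pg')
      have pac : P Gf k (i + j + 1) fun n => a n * c n * (a n)⁻¹ * (c n)⁻¹ :=
        P_le hG (by omega) (ih.2.2 (i + 1) (i + j) a c pa pc)
      have pbc : P Gf k (i + j + 1) fun n => b n * c n * (b n)⁻¹ * (c n)⁻¹ :=
        P_le hG (by omega) (ih.2.2 (j + 1) (i + j) b c pb pc)
      have pabc := ih.1 _ _ _ (conj_mem hG ih pa pbc) pac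
      have p1 := conj_mem hG ih pa pX
      have p2 := conj_mem hG ih pc pY
      have p3 := conj_mem hG ih pc (conj_mem hG ih pb pZ)
      have pall := ih.1 _ _ _ p1 (ih.1 _ _ _ pabc (ih.1 _ _ _ p2 p3))
      have e : dif h c = fun n => (a n * (g n * b n * (g n)⁻¹ * (b n)⁻¹) * (a n)⁻¹) *
          ((a n * (b n * c n * (b n)⁻¹ * (c n)⁻¹) * (a n)⁻¹ *
            (a n * c n * (a n)⁻¹ * (c n)⁻¹)) *
          ((c n * (a n * b n * (a n)⁻¹ * (b n)⁻¹) * (c n)⁻¹) *
          (c n * (b n * (a n * g' n * (a n)⁻¹ * (g' n)⁻¹) * (b n)⁻¹) * (c n)⁻¹))) := by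
        funext n
        have e1 : g (n + h) = a n * g n := by simp [ha, dif]
        have e2 : g' (n + h) = b n * g' n := by simp [hb, dif]
        simp only [dif, hc, e1, e2]
        group
      rw [e]
      exact pall

theorem PS_iff_P {i : ℕ} {g : A → U} : PS Gf i g ↔ ∀ k, P Gf k i g := by
  constructor
  · intro h k
    induction k generalizing i g with
    | zero => intro n; simpa using h [] n
    | succ k ih =>
      refine ⟨fun n => by simpa using h [] n, fun a => ih fun l n => ?_⟩
      have := h (l ++ [a]) n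
      simpa [List.foldr_append, add_assoc, add_comm, add_left_comm] using this
  · intro h l
    induction l using List.reverseRecOn generalizing i g with
    | nil => intro n; simpa using h 0 n
    | append_singleton l a ih =>
      intro n
      have h' : ∀ k, P Gf k (i + 1) (dif a g) := fun k => (h (k + 1)).2 a
      have := ih h' n
      simpa [List.foldr_append, add_assoc, add_comm, add_left_comm] using this

theorem foldr_val {S : Subgroup U} {g : A → U} (hg : ∀ n, g n ∈ S) (l : List A) (n : A) :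
    l.foldr dif g n ∈ S := by
  induction l generalizing n with
  | nil => exact hg n
  | cons a l ih => exact S.mul_mem (ih _) (S.inv_mem (ih _))

theorem last_le (hG : Filt Gf d) (i : ℕ) : Gf (d + 1) ≤ Gf i := by
  rcases le_or_gt i (d + 1) with h | h
  · exact antitone_nat_of_succ_le hG.anti h
  · rw [hG.stab i (by omega)]

end Lbm

open Lbm in
theorem lbm : LBM_stmt := by
  intro U _ A _ Gf d hG
  refine ⟨?_, ?_, ?_, ?_, ?_, ?_, ?_⟩
  · intro i g g' hg hg'
    rw [PS_iff_P] at *
    exact fun k => (main hG k).1 i g g' (hg k) (hg' k)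
  · intro i g hg
    rw [PS_iff_P] at *
    exact fun k => (main hG k).2.1 i g (hg k)
  · intro i j g g' hg hg'
    rw [PS_iff_P] at *
    exact fun k => (main hG k).2.2 i j g g' (hg k) (hg' k)
  · intro i x hx
    rw [PS_iff_P]
    intro k
    have h1 : ∀ (k m : ℕ), P Gf k m (fun _ : A => (1 : U)) := by
      intro k
      induction k with
      | zero => intro m n; exact (Gf m).one_mem
      | succ k ih =>
        intro m
        refine ⟨fun n => (Gf m).one_mem, fun h => ?_⟩
        have e : dif h (fun _ : A => (1 : U)) = fun _ => 1 := by funext n; simp [dif]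
        rw [e]; exact ih _
    cases k with
    | zero => exact fun _ => hx
    | succ k =>
      refine ⟨fun _ => hx, fun h => ?_⟩
      have e : dif h (fun _ : A => x) = fun _ => 1 := by funext n; simp [dif]
      rw [e]; exact h1 _ _
  · intro i g hg
    rw [PS_iff_P] at *
    exact fun k => P_one hG (hg k)
  · intro i g
    constructor
    · intro h
      rw [PS_iff_P] at h
      refine ⟨fun n => h 0 n, fun a => ?_⟩
      rw [PS_iff_P]
      exact fun k => (h (k + 1)).2 a
    · rintro ⟨h0, h1⟩
      rw [PS_iff_P]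
      intro k
      cases k with
      | zero => exact h0
      | succ k => exact ⟨h0, fun a => PS_iff_P.1 (h1 a) k⟩
  · intro i g hg l n
    exact last_le hG _ (foldr_val hg l n)

end

end Pool.Agent.NG
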