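import Mathlib
import Pool.Agent.Lib.NG.LBM

/-!
# NVG2 (MP_663568_nt), rows LBN, FIP, TRP  (helper33)
-/

set_option autoImplicit false
open Finset Topology

namespace Pool.Agent.NG

noncomputable section

open Amb

namespace Lbn

variable {U : Type} [Amb U] {A : Type} [AddCommGroup A]

theorem foldr_aff {B : Type} [AddCommGroup B] (f : B →+ A) (a : A) (g : A → U) (l : List B) :
    l.foldr dif (fun n => g (f n + a)) = fun n => (l.map f).foldr dif g (f n + a) := by
  induction l with
  | nil => rfl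
  | cons h l ih =>
    simp only [List.foldr_cons, List.map_cons, ih]
    funext n
    simp only [dif, map_add]
    rw [add_right_comm]

theorem foldr_prod {V : Type} [Amb V] (g : A → U) (g' : A → V) (l : List A) :
    l.foldr dif (fun n => (g n, g' n)) = fun n => (l.foldr dif g n, l.foldr dif g' n) := by
  induction l with
  | nil => rfl
  | cons h l ih =>
    simp only [List.foldr_cons, ih]
    rfl

theorem foldr_one (l : List A) : l.foldr dif (fun _ : A => (1 : U)) = fun _ => 1 := by
  induction l with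
  | nil => rfl
  | cons h l ih =>
    simp only [List.foldr_cons, ih]
    funext n
    simp [dif]

end Lbn

open Lbn Lbm

theorem lbn : LBN_stmt := by
  intro U _ A _ Gf i g
  refine ⟨?_, ?_, ?_⟩
  · intro B _ f a h l n
    rw [foldr_aff]
    have := h (l.map f) (f n + a)
    rwa [List.length_map] at this
  · intro J
    constructor
    · intro h
      exact ⟨fun l n => (h l n).2, fun n => (h [] n).1⟩
    · rintro ⟨h, hJ⟩ l n
      exact ⟨foldr_val hJ l n, h l n⟩
  · intro V _ Gf' g'
    constructor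
    · intro h
      refine ⟨fun l n => ?_, fun l n => ?_⟩
      · have := h l n
        rw [foldr_prod] at this
        exact (Subgroup.mem_prod.1 this).1
      · have := h l n
        rw [foldr_prod] at this
        exact (Subgroup.mem_prod.1 this).2
    · rintro ⟨h, h'⟩ l n
      rw [foldr_prod]
      exact Subgroup.mem_prod.2 ⟨h l n, h' l n⟩

/-- Row FIP from row PRR. -/
theorem fip_of (hP : PRR_stmt) : FIP_stmt := by
  intro U V _ _ Gf Gf' d h h'
  refine ⟨fun i => (hP U V).1 _ _ (h.rat i) (h'.rat i), ?_, ?_, ?_, ?_⟩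
  · intro i x hx
    have hx := Subgroup.mem_prod.1 hx
    exact Subgroup.mem_prod.2 ⟨h.anti i hx.1, h'.anti i hx.2⟩
  · show (Gf 1).prod (Gf' 1) = (Gf 0).prod (Gf' 0)
    rw [h.top, h'.top]
  · intro i j x hx y hy
    have hx := Subgroup.mem_prod.1 hx
    have hy := Subgroup.mem_prod.1 hy
    exact Subgroup.mem_prod.2 ⟨h.com i j _ hx.1 _ hy.1, h'.com i j _ hx.2 _ hy.2⟩
  · intro i hi
    show (Gf i).prod (Gf' i) = (Gf (d + 1)).prod (Gf' (d + 1))
    rw [h.stab i hi, h'.stab i hi]

/-- Row TRP from row FIL. -/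
theorem trp_of (hF : FIL_stmt) : TRP_stmt := by
  intro U _ A _ Gf d J hG hJ hN hM hJG g n n' hg hn hn'
  have hF3 : Filt (G3 Gf J) d := (hF U Gf d hG).2.1 J hJ hN hM hJG
  have h1 : PS (G3 Gf J) 0 fun m => (g m, g m, g m) := by
    intro l m
    rw [foldr_prod g (fun m => (g m, g m)), foldr_prod]
    refine Subgroup.subset_closure ⟨hg l m, ?_, ?_⟩
    · show l.foldr dif g m * (l.foldr dif g m)⁻¹ ∈ J ⊓ Gf (0 + l.length)
      rw [mul_inv_cancel]; exact Subgroup.one_mem _
    · show l.foldr dif g m * (l.foldr dif g m)⁻¹ ∈ J ⊓ Gf (0 + l.length)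
      rw [mul_inv_cancel]; exact Subgroup.one_mem _
  have h2 : PS (G3 Gf J) 0 fun m => ((1 : U), n m, n' m) := by
    intro l m
    rw [foldr_prod (fun _ => (1 : U)) (fun m => (n m, n' m)), foldr_prod, foldr_one]
    refine Subgroup.subset_closure ⟨Subgroup.one_mem _, ?_, ?_⟩
    · show l.foldr dif n m * (1 : U)⁻¹ ∈ J ⊓ Gf (0 + l.length)
      rw [inv_one, mul_one]; exact hn l m
    · show l.foldr dif n' m * (1 : U)⁻¹ ∈ J ⊓ Gf (0 + l.length)
      rw [inv_one, mul_one]; exact hn' l m
  have h3 := (lbm (U × U × U) A (G3 Gf J) d hF3).1 0 _ _ h2 h1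
  have e : (fun m => ((1 : U), n m, n' m) * (g m, g m, g m)) =
      fun m => (g m, n m * g m, n' m * g m) := by
    funext m
    exact Prod.ext (one_mul _) rfl
  rwa [e] at h3

end

end Pool.Agent.NG
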