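import Pool.Agent.Lib.NG.C
import Pool.Agent.Lib.NG.LBN

/-!
# NVG2 (MP_663568_nt), part C, rows PLM, PLD, PLG: elementary properties of PL (helper66)
-/

set_option autoImplicit false
open Finset Topology

namespace Pool.Agent.NG

open Amb Pool.Agent.Lib.MP_663568_nt Pool.Agent.Lib.MP_663568_nt.Katai
  Pool.Agent.Lib.MP_663568_nt.Nul Pool.Agent.SV Pool.Agent.VQ Pool.Agent.NV

noncomputable section

namespace PLMx

variable {U : Type} [Amb U]

/-- The map `(m, h) ↦ (s m, t h)`. -/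
def hom2 (s t : ℤ) : (Fin 2 → ℤ) →+ (Fin 2 → ℤ) where
  toFun v := ![s * v 0, t * v 1]
  map_zero' := by
    funext i
    fin_cases i <;> simp
  map_add' v w := by
    funext i
    fin_cases i <;> simp [mul_add]

lemma hom2_apply (s t m h : ℤ) : hom2 s t ![m, h] = ![s * m, t * h] := rfl

lemma ps_mono {A : Type} [AddCommGroup A] {Gf Gf' : ℕ → Subgroup U} (h : ∀ i, Gf i ≤ Gf' i)
    {g : A → U} (hg : PS Gf 0 g) : PS Gf' 0 g := fun l n => h _ (hg l n)

lemma ps_hom {A B : Type} [AddCommGroup A] [AddCommGroup B] {Gf : ℕ → Subgroup U} {g : A → U}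
    (hg : PS Gf 0 g) (f : B →+ A) : PS Gf 0 fun n => g (f n) := by
  have h := (lbn U A Gf 0 g).1 B f 0 hg
  simpa only [add_zero] using h

end PLMx

open PLMx

/-- **Row PLM.** -/
theorem plm : PLM_stmt := by
  intro U _ Gf Gf' J J' a a' q q' Q Q' E E' m₀ L l m₀' L' l' g hG hJ hqq hQ' hQQ haa hE hEE hm hmL
    hl1 hll hPL
  obtain ⟨n, hps, h0, hn⟩ := hPL
  obtain ⟨c, rfl⟩ := hQQ
  refine ⟨fun v => n (hom2 1 c v), ?_, ?_, ?_⟩
  · exact ps_mono (fun i => inf_le_inf hJ (hG i)) (ps_hom hps (hom2 1 c))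
  · intro m
    show n (hom2 1 c ![m, 0]) = 1
    rw [hom2_apply, mul_zero]
    exact h0 _
  · intro m h hm1 hm2 hma hh hEh
    have hE' : 0 < E' := hE.trans_le hEE
    have hh0 : (0 : ℝ) ≤ h := by exact_mod_cast hh
    have hQc : (0 : ℝ) ≤ ((Q * c : ℕ) : ℝ) := Nat.cast_nonneg _
    have hl0 : (0 : ℝ) < l' := by exact_mod_cast hl1
    have hll' : (l' : ℝ) ≤ l := by exact_mod_cast hll
    have e1 : (((c : ℤ) * h : ℤ) : ℝ) * Q = (h : ℝ) * ((Q * c : ℕ) : ℝ) := by
      push_cast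
      ring
    have e2 : E * ((h : ℝ) * ((Q * c : ℕ) : ℝ)) ≤ E' * ((h : ℝ) * ((Q * c : ℕ) : ℝ)) := by
      gcongr
    obtain ⟨k, hk, hkn, γ, hγ, hγG, he⟩ := hn m (c * h) (by omega) (by
        have : ((m₀' : ℤ) + L') ≤ m₀ + L := by exact_mod_cast hmL
        omega)
      ((hma.of_dvd (by exact_mod_cast hqq)).trans haa) (by positivity) (by
        rw [e1]
        exact e2.trans (hEh.trans hll'))
    refine ⟨k, hG 0 hk, ?_, γ, hγ, hG 0 hγG, ?_⟩
    · refine hkn.trans ?_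
      rw [e1]
      exact (div_le_div_of_nonneg_left (by positivity) hl0 hll').trans (by gcongr)
    · show g (m + ((Q * c : ℕ) : ℤ) * h) = k * n (hom2 1 c ![m, h]) * g m * γ
      rw [hom2_apply, one_mul, ← he]
      congr 1
      push_cast
      ring

/-- **Row PLD.** -/
theorem pld : PLD_stmt := by
  intro U _ Gf J p q Q a a' E m₀ L l L' l' g hp hE haa hpL hl1 hpl hPL
  obtain ⟨n, hps, h0, hn⟩ := hPL
  refine ⟨fun v => n (hom2 p p v), ?_, ?_, ?_⟩
  · exact ps_hom hps (hom2 p p)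
  · intro m
    show n (hom2 p p ![m, 0]) = 1
    rw [hom2_apply, mul_zero]
    exact h0 _
  · intro m h hm1 hm2 hma hh hEh
    have hh0 : (0 : ℝ) ≤ h := by exact_mod_cast hh
    have hl0 : (0 : ℝ) < l' := by exact_mod_cast hl1
    have hp0 : (0 : ℝ) < p := by exact_mod_cast hp
    have hpl' : (p : ℝ) * l' ≤ l := by exact_mod_cast hpl
    have hlpos : (0 : ℝ) < l := lt_of_lt_of_le (by positivity) hpl'
    have e1 : (((p : ℤ) * h : ℤ) : ℝ) * Q = p * ((h : ℝ) * Q) := by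
      push_cast
      ring
    have hpZ : (1 : ℤ) ≤ p := by exact_mod_cast hp
    have hpLZ : (p : ℤ) * L' ≤ L := by exact_mod_cast hpL
    obtain ⟨k, hk, hkn, γ, hγ, hγG, he⟩ := hn (p * m) (p * h) (by
        push_cast
        nlinarith) (by
        push_cast
        nlinarith)
      ((hma.mul_left _).trans haa) (by positivity) (by
        rw [e1]
        calc E * (p * ((h : ℝ) * Q)) = p * (E * ((h : ℝ) * Q)) := by ring
          _ ≤ p * l' := by gcongr
          _ ≤ l := hpl')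
    refine ⟨k, hk, ?_, γ, hγ, hγG, ?_⟩
    · refine hkn.trans ?_
      rw [e1, div_le_div_iff₀ hlpos hl0]
      calc E * (p * ((h : ℝ) * Q)) * l' = E * ((h : ℝ) * Q) * (p * l') := by ring
        _ ≤ E * ((h : ℝ) * Q) * l := by gcongr
    · show g (p * (m + Q * h)) = k * n (hom2 p p ![m, h]) * g (p * m) * γ
      rw [hom2_apply, ← he]
      congr 1
      ring

/-- **Row PLG.** -/
theorem plg : PLG_stmt := by
  intro U _ Gf d a q Q E m₀ L l g hG hE hg
  obtain ⟨hmul, hinv, -⟩ := lbm U (Fin 2 → ℤ) Gf d hG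
  -- the two maps
  let f₁ : (Fin 2 → ℤ) →+ ℤ :=
    { toFun := fun v => v 0 + Q * v 1
      map_zero' := by simp
      map_add' := fun v w => by simp only [Pi.add_apply]; ring }
  let f₂ : (Fin 2 → ℤ) →+ ℤ :=
    { toFun := fun v => v 0
      map_zero' := by simp
      map_add' := fun v w => by simp only [Pi.add_apply] }
  have h1 : PS Gf 0 fun v : Fin 2 → ℤ => g (f₁ v) := ps_hom hg f₁
  have h2 : PS Gf 0 fun v : Fin 2 → ℤ => g (f₂ v) := ps_hom hg f₂
  have h3 := hmul 0 _ _ h1 (hinv 0 _ h2)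
  have hanti : ∀ i, Gf i ≤ Gf 0 := by
    intro i
    induction i with
    | zero => exact le_rfl
    | succ i ih => exact (hG.anti i).trans ih
  refine ⟨fun v => g (f₁ v) * (g (f₂ v))⁻¹, ?_, ?_, ?_⟩
  · exact ps_mono (fun i => le_inf (hanti i) le_rfl) h3
  · intro m
    show g (m + Q * 0) * (g m)⁻¹ = 1
    rw [mul_zero, add_zero, mul_inv_cancel]
  · intro m h _ _ _ hh _
    have hh0 : (0 : ℝ) ≤ h := by exact_mod_cast hh
    refine ⟨1, one_mem _, ?_, 1, one_mem _, one_mem _, ?_⟩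
    · rw [nm_one]
      positivity
    · show g (m + Q * h) = 1 * (g (m + Q * h) * (g m)⁻¹) * g m * 1
      group

end

end Pool.Agent.NG
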