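import Mathlib
import Pool.Agent.Lib.NG.C
import Pool.Agent.Lib.NG.FPoly
import Pool.Agent.Lib.NG.FNCont
import Pool.Agent.Lib.NG.KER
import Pool.Agent.Lib.NG.PLM

/-!
# NVG2 (MP_663568_nt), row FINAL: groups of unitriangular matrices

(helper26)
-/

set_option autoImplicit false
open Finset Topology

namespace Pool.Agent.NG

open Amb

noncomputable section

/-- `G` is a closed group of upper unitriangular real matrices and each element of `G` lies on a
one parameter subgroup of `G`. -/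
structure Unip {m : ℕ} (G : Subgroup (Matrix.GeneralLinearGroup (Fin m) ℝ)) : Prop where
  upper : ∀ g ∈ G, ∀ i j : Fin m, j ≤ i →
    (g : Matrix (Fin m) (Fin m) ℝ) i j = if i = j then 1 else 0
  closed : IsClosed (G : Set (Matrix.GeneralLinearGroup (Fin m) ℝ))
  line : ∀ g ∈ G, ∃ φ : ℝ → Matrix.GeneralLinearGroup (Fin m) ℝ, Continuous φ ∧
    (∀ s t, φ (s + t) = φ s * φ t) ∧ φ 1 = g ∧ ∀ t, φ t ∈ G

namespace FM

variable {m : ℕ}

/-- Unitriangular matrices are invertible. -/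
def toGL (m : ℕ) : UT m →* Matrix.GeneralLinearGroup (Fin m) ℝ where
  toFun x := ⟨x.1, (x⁻¹).1, mul_inv_val x, inv_mul_val x⟩
  map_one' := Units.ext rfl
  map_mul' _ _ := Units.ext rfl

theorem toGL_val (x : UT m) : ((toGL m x : Matrix.GeneralLinearGroup (Fin m) ℝ) :
    Matrix (Fin m) (Fin m) ℝ) = x.1 := rfl

theorem toGL_cont : Continuous (toGL m) := by
  rw [Units.continuous_iff]
  exact ⟨val_continuous m, (val_continuous m).comp continuous_inv⟩

theorem toGL_inj {x y : UT m} (h : toGL m x = toGL m y) : x = y :=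
  ut_ext (congrArg Units.val h)

variable {G : Subgroup (Matrix.GeneralLinearGroup (Fin m) ℝ)}

/-- An element of `G` as a unitriangular matrix. -/
def ofG (hG : Unip G) (g : G) : UT m :=
  ⟨((g : Matrix.GeneralLinearGroup (Fin m) ℝ) : Matrix (Fin m) (Fin m) ℝ), by
    intro i j hij
    have h1 : (j : ℕ) ≤ i := by omega
    rw [Matrix.sub_apply, hG.upper g g.2 i j h1, Matrix.one_apply, sub_self]⟩

theorem toGL_ofG (hG : Unip G) (g : G) : toGL m (ofG hG g) = g := Units.ext rfl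

theorem ofG_mul (hG : Unip G) (g g' : G) : ofG hG (g * g') = ofG hG g * ofG hG g' :=
  ut_ext rfl

theorem ofG_one (hG : Unip G) : ofG hG 1 = 1 := ut_ext rfl

theorem ofG_inv (hG : Unip G) (g : G) : ofG hG g⁻¹ = (ofG hG g)⁻¹ := by
  rw [eq_inv_iff_mul_eq_one, ← ofG_mul, inv_mul_cancel, ofG_one]

theorem ofG_cont (hG : Unip G) : Continuous (ofG hG) := by
  apply ut_mk_continuous
  exact Units.continuous_val.comp continuous_subtype_val

/-- A one parameter subgroup is given by the real powers. -/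
theorem oneparam (x : UT m) (ψ : ℝ → UT m) (hc : Continuous ψ)
    (ha : ∀ s t, ψ (s + t) = ψ s * ψ t) (h1 : ψ 1 = x) (t : ℝ) : ψ t = pwU x t := by
  have h0 : ψ 0 = 1 := by
    have := ha 0 0
    rw [add_zero] at this
    exact (mul_eq_left (a := ψ 0)).1 this.symm
  have hn : ∀ (s : ℝ) (n : ℕ), ψ (n * s) = ψ s ^ n := by
    intro s n
    induction n with
    | zero => rw [Nat.cast_zero, zero_mul, h0, pow_zero]
    | succ n ih => rw [Nat.cast_succ, add_mul, one_mul, ha, ih, pow_succ]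
  have hneg : ∀ s, ψ (-s) = (ψ s)⁻¹ := by
    intro s
    rw [eq_inv_iff_mul_eq_one, ← ha, neg_add_cancel, h0]
  have hz : ∀ z : ℤ, ψ z = pwU x z := by
    intro z
    obtain ⟨n, rfl | rfl⟩ := z.eq_nat_or_neg
    · rw [Int.cast_natCast]
      have := hn 1 n
      rw [mul_one] at this
      rw [this, h1, pwU_nat]
    · rw [Int.cast_neg, Int.cast_natCast, hneg, ← pwU_inv]
      have := hn 1 n
      rw [mul_one] at this
      rw [this, h1, pwU_nat]
  have hq : ∀ r : ℚ, ψ r = pwU x r := by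
    intro r
    have hd : (r.den : ℝ) ≠ 0 := by exact_mod_cast r.den_nz
    have e1 : (r.den : ℝ) * (r : ℝ) = (r.num : ℝ) := by
      have := Rat.den_mul_eq_num r
      exact_mod_cast this
    have e2 := hn (r : ℝ) r.den
    rw [e1, hz] at e2
    have e3 : ψ r = pwU (ψ r ^ r.den) (1 / r.den) := by
      rw [← pwU_nat, pwU_mul, mul_one_div_cancel hd, pwU_one]
    rw [e3, ← e2, pwU_mul]
    congr 1
    rw [mul_one_div, ← e1]
    field_simp
  have hpc : Continuous fun t : ℝ => pwU x t := (pwU_continuous m).comp (Continuous.prodMk_right x)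
  have h := DenseRange.equalizer (Rat.denseRange_cast (𝕜 := ℝ)) hc hpc (funext hq)
  exact congrFun h t

/-- The lattice. -/
def La' (Γ : Subgroup G) : Subgroup (UT m) := (Γ.map G.subtype).comap (toGL m)

theorem La'_le {Γ : Subgroup G}
    (hΓ : ∀ γ ∈ Γ, ∀ i j, ∃ k : ℤ, ((γ : Matrix.GeneralLinearGroup (Fin m) ℝ) :
      Matrix (Fin m) (Fin m) ℝ) i j = k) : La' Γ ≤ LaU m := by
  intro x hx i j
  obtain ⟨γ, hγ, h2⟩ := hx
  obtain ⟨k, hk⟩ := hΓ γ hγ i j
  have h3 : ((γ : Matrix.GeneralLinearGroup (Fin m) ℝ) : Matrix (Fin m) (Fin m) ℝ) = x.1 :=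
    congrArg Units.val h2
  rw [h3] at hk
  by_cases h : i = j
  · refine ⟨k - 1, ?_⟩
    show (x.1 - 1) i j = _
    rw [Matrix.sub_apply, hk, h, Matrix.one_apply_eq]
    push_cast
    ring
  · refine ⟨k, ?_⟩
    show (x.1 - 1) i j = _
    rw [Matrix.sub_apply, hk, Matrix.one_apply_ne h, sub_zero]

/-- The group. -/
def Gr (S : Subgroup (UT m)) (hS : S ≤ LaU m)
    (G : Subgroup (Matrix.GeneralLinearGroup (Fin m) ℝ)) : Subgroup (UTG m S hS) :=
  (G.comap (toGL m) : Subgroup (UT m))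

theorem mem_Gr {S : Subgroup (UT m)} {hS : S ≤ LaU m} (x : UT m) :
    (x : UTG m S hS) ∈ Gr S hS G ↔ toGL m x ∈ G := Iff.rfl

theorem rat_Gr (hG : Unip G) (Γ : Subgroup G)
    (hΓ : ∀ γ ∈ Γ, ∀ i j, ∃ k : ℤ, ((γ : Matrix.GeneralLinearGroup (Fin m) ℝ) :
      Matrix (Fin m) (Fin m) ℝ) i j = k) [CompactSpace (G ⧸ Γ)] :
    Rat (Gr (La' Γ) (La'_le hΓ) G) := by
  refine ⟨?_, ?_, ?_⟩
  · rintro (x : UT m) hx t
    obtain ⟨φ, hc, ha, h1, hφ⟩ := hG.line _ hx
    have h2 := oneparam x (fun t => ofG hG ⟨φ t, hφ t⟩)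
      ((ofG_cont hG).comp (Continuous.subtype_mk hc hφ))
      (fun s t => ut_ext (by
        show ((φ (s + t) : Matrix.GeneralLinearGroup (Fin m) ℝ) : Matrix (Fin m) (Fin m) ℝ) =
          ((φ s : Matrix.GeneralLinearGroup (Fin m) ℝ) : Matrix (Fin m) (Fin m) ℝ) *
          ((φ t : Matrix.GeneralLinearGroup (Fin m) ℝ) : Matrix (Fin m) (Fin m) ℝ)
        rw [ha]; rfl))
      (ut_ext (by
        show ((φ 1 : Matrix.GeneralLinearGroup (Fin m) ℝ) : Matrix (Fin m) (Fin m) ℝ) = x.1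
        rw [h1]; rfl)) t
    show toGL m (pwU x t) ∈ G
    rw [← h2, toGL_ofG]
    exact hφ t
  · exact hG.closed.preimage toGL_cont
  · have hcov : (Set.univ : Set (G ⧸ Γ)) ⊆ ⋃ N : ℕ,
        (QuotientGroup.mk '' {g : G | nmU (ofG hG g) < N} : Set (G ⧸ Γ)) := by
      intro u _
      obtain ⟨g, rfl⟩ := QuotientGroup.mk_surjective u
      obtain ⟨N, hN⟩ := exists_nat_gt (nmU (ofG hG g))
      exact Set.mem_iUnion.2 ⟨N, g, hN, rfl⟩
    obtain ⟨N, hN⟩ := isCompact_univ.elim_directed_cover _ (fun N => by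
      apply QuotientGroup.isOpenMap_coe
      exact isOpen_lt ((nmU_continuous m).comp (ofG_cont hG)) continuous_const) hcov (by
      intro a b
      refine ⟨max a b, ?_, ?_⟩
      · rintro _ ⟨g, hg, rfl⟩
        have hg' : nmU (ofG hG g) < (a : ℝ) := hg
        have hab : (a : ℝ) ≤ (max a b : ℕ) := by exact_mod_cast le_max_left a b
        exact ⟨g, hg'.trans_le hab, rfl⟩
      · rintro _ ⟨g, hg, rfl⟩
        have hg' : nmU (ofG hG g) < (b : ℝ) := hg
        have hab : (b : ℝ) ≤ (max a b : ℕ) := by exact_mod_cast le_max_right a b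
        exact ⟨g, hg'.trans_le hab, rfl⟩)
    refine ⟨{x : UT m | nmU x ≤ N} ∩ {x : UT m | toGL m x ∈ G},
      (isCompact_nmU _).inter_right (hG.closed.preimage toGL_cont), fun x hx => hx.2, ?_⟩
    rintro (x : UT m) hx
    obtain ⟨k, hk, hk2⟩ := hN (Set.mem_univ (QuotientGroup.mk (⟨toGL m x, hx⟩ : G)))
    have h3 : k⁻¹ * ⟨toGL m x, hx⟩ ∈ Γ := QuotientGroup.eq.1 hk2
    have hk' : nmU (ofG hG k) < (N : ℝ) := hk
    obtain ⟨g₀, hg₀⟩ : ∃ g₀ : G, g₀ = k⁻¹ * ⟨toGL m x, hx⟩ := ⟨_, rfl⟩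
    rw [← hg₀] at h3
    refine ⟨ofG hG k, ⟨hk'.le, ?_⟩, ofG hG g₀, ?_, ?_, ?_⟩
    · show toGL m (ofG hG k) ∈ G
      rw [toGL_ofG]
      exact k.2
    · refine ⟨g₀, h3, ?_⟩
      exact (toGL_ofG hG g₀).symm
    · show toGL m (ofG hG g₀) ∈ G
      rw [toGL_ofG]
      exact g₀.2
    · show x = ofG hG k * ofG hG g₀
      rw [← ofG_mul, hg₀, mul_inv_cancel_left]
      exact ut_ext rfl

open Classical in
/-- The function on the matrices. -/
def Fu (Γ : Subgroup G) (f : G ⧸ Γ → ℂ) (x : UT m) : ℂ :=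
  if h : toGL m x ∈ G then f (QuotientGroup.mk ⟨toGL m x, h⟩) else 0

theorem Fu_ofG (hG : Unip G) (Γ : Subgroup G) (f : G ⧸ Γ → ℂ) (g : G) :
    Fu Γ f (ofG hG g) = f (QuotientGroup.mk g) := by
  have h : toGL m (ofG hG g) ∈ G := by
    rw [toGL_ofG]
    exact g.2
  unfold Fu
  rw [dif_pos h]
  have h2 : (⟨toGL m (ofG hG g), h⟩ : G) = g := Subtype.ext (toGL_ofG hG g)
  rw [h2]

theorem fn_Fu (hG : Unip G) (Γ : Subgroup G)
    (hΓ : ∀ γ ∈ Γ, ∀ i j, ∃ k : ℤ, ((γ : Matrix.GeneralLinearGroup (Fin m) ℝ) :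
      Matrix (Fin m) (Fin m) ℝ) i j = k) [CompactSpace (G ⧸ Γ)] (f : G ⧸ Γ → ℂ)
    (hf : Continuous f) :
    Fn (Gr (La' Γ) (La'_le hΓ) G) ⊥ (fun x : UTG m (La' Γ) (La'_le hΓ) => Fu Γ f x) := by
  apply fn_of_cont (rat_Gr hG Γ hΓ)
  · rw [continuousOn_iff_continuous_domRestrict]
    have h1 : Continuous fun x : {x : UT m // toGL m x ∈ G} =>
        f (QuotientGroup.mk (⟨toGL m x.1, x.2⟩ : G)) :=
      hf.comp (QuotientGroup.continuous_mk.comp
        (Continuous.subtype_mk (toGL_cont.comp continuous_subtype_val) _))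
    refine h1.congr fun x => ?_
    show _ = Fu Γ f x.1
    unfold Fu
    rw [dif_pos x.2]
  · rintro (x : UT m) hx (γ : UT m) hγ hγG
    show Fu Γ f (x * γ) = Fu Γ f x
    have hx' : toGL m x ∈ G := hx
    have hγ' : toGL m γ ∈ G := hγG
    have hxγ : toGL m (x * γ) ∈ G := by
      rw [map_mul]
      exact G.mul_mem hx' hγ'
    unfold Fu
    rw [dif_pos hx', dif_pos hxγ]
    congr 1
    symm
    rw [QuotientGroup.eq]
    obtain ⟨γ', hγ2, h3⟩ := hγ
    have h4 : (⟨toGL m x, hx'⟩ : G)⁻¹ * ⟨toGL m (x * γ), hxγ⟩ = γ' := by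
      apply Subtype.ext
      show (toGL m x)⁻¹ * toGL m (x * γ) = γ'
      rw [map_mul, inv_mul_cancel_left]
      exact h3.symm
    rw [h4]
    exact hγ2

end FM

end

end Pool.Agent.NG
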