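import Mathlib
import Pool.Agent.Lib.NG.C
import Pool.Agent.Lib.NG.PLM
import Pool.Agent.Lib.VQ.MET

/-!
# NVG2 (MP_663568_nt): slow families of polynomial maps, with periodic weights

(helper26)
-/

set_option autoImplicit false
open Finset Topology

namespace Pool.Agent.NG

open Amb Pool.Agent.Lib.MP_663568_nt Pool.Agent.Lib.MP_663568_nt.Katai
  Pool.Agent.Lib.MP_663568_nt.Nul Pool.Agent.SV Pool.Agent.VQ Pool.Agent.NV

noncomputable section

theorem ee_int' (z : ℤ) : ee z = 1 := by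
  unfold ee
  have : (2 * Real.pi * Complex.I * ((z : ℝ) : ℂ)) = (z : ℂ) * (2 * Real.pi * Complex.I) := by
    push_cast
    ring
  rw [this, Complex.exp_int_mul_two_pi_mul_I]

/-- Slow families of polynomial maps, with periodic weights. -/
theorem nvpq (hNSA : NSA) (U : Type) [Amb U] (Gf : ℕ → Subgroup U) (d : ℕ) (hF : Filt Gf d)
    (F : U → ℂ) (hFn : Fn (Gf 0) (Gf (d + 1)) F) (q b : ℕ) (hq : 1 ≤ q) (A ε : ℝ) (hA : 0 ≤ A)
    (hε : 0 < ε) :
    ∃ (B : ℝ) (H₀ : ℕ), 0 ≤ B ∧ ∀ H : ℕ, H₀ ≤ H → ∀ xa xb : ℝ, (H : ℝ) ^ B ≤ xa → xa * H ≤ xb →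
    ∀ X : ℕ → ℤ → U, (∀ n, PS Gf 0 (X n)) → SlowA X ((H : ℝ) ^ A) →
    ∑ n ∈ Ioc ⌊xa⌋₊ ⌊xb⌋₊, (1 / (n : ℝ)) *
      Wg H n (fun m => ee (b * m / q) * F (X n m)) ≤ ε * (Real.log xb - Real.log xa) := by
  have hanti : Antitone Gf := antitone_nat_of_succ_le hF.anti
  have hnor : Nor Gf d (Gf 0) := ⟨hF.rat 0, le_rfl, hanti (Nat.zero_le _), fun x hx y hy =>
    (Gf 0).mul_mem ((Gf 0).mul_mem hx hy) ((Gf 0).inv_mem hx)⟩
  have hq0 : (0 : ℝ) < q := by exact_mod_cast hq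
  obtain ⟨B, H₀, hB, hmain⟩ := hNSA U Gf d (Gf 0) hF hnor F hFn q q 1 hq hq dvd_rfl one_pos A
    (ε / q) hA (by positivity)
  refine ⟨B, max H₀ 1, hB, fun H hH xa xb h1 h2 X hX hS => ?_⟩
  have hH1 : 1 ≤ H := (le_max_right _ _).trans hH
  obtain ⟨Y, hY⟩ : ∃ Y : ℕ → ℕ → Dat Gf q, Y = fun a n => ⟨X n, hX n, {(a : ZMod q)}⟩ := ⟨_, rfl⟩
  have hYs : ∀ a, SlowA (Y a) ((H : ℝ) ^ A) := by
    classical
    intro a j
    refine le_trans ?_ (hS j)
    have : ((Ico (2 ^ j) (2 ^ (j + 1))).filter fun n => Y a (n + 1) ≠ Y a n) ⊆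
        (Ico (2 ^ j) (2 ^ (j + 1))).filter fun n => X (n + 1) ≠ X n := by
      intro n hn
      rw [mem_filter] at hn ⊢
      refine ⟨hn.1, fun h => hn.2 ?_⟩
      rw [hY]
      simp only [h]
    have h4 := card_le_card this
    have h5 : (#((Ico (2 ^ j) (2 ^ (j + 1))).filter fun n => Y a (n + 1) ≠ Y a n) : ℝ) ≤
        #((Ico (2 ^ j) (2 ^ (j + 1))).filter fun n => X (n + 1) ≠ X n) := by exact_mod_cast h4
    convert h5
  have hev : ∀ a n (m : ℕ), (Y a n).ev F m = if (m : ZMod q) = (a : ZMod q) then F (X n m) else 0 := by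
    intro a n m
    rw [hY]
    unfold Dat.ev
    simp only [Set.mem_singleton_iff]
  have hsum : ∀ n (m : ℕ), ee (b * m / q) * F (X n m) =
      ∑ a ∈ range q, ee (b * a / q) * (Y a n).ev F m := by
    intro n m
    have hmod : (m : ZMod q) = ((m % q : ℕ) : ZMod q) := by
      rw [ZMod.natCast_eq_natCast_iff]
      exact (Nat.mod_modEq m q).symm
    rw [Finset.sum_eq_single (m % q)]
    · rw [hev, if_pos hmod]
      congr 1
      have h3 : (b : ℝ) * m / q = b * ((m % q : ℕ) : ℝ) / q + ((b * (m / q) : ℕ) : ℤ) := by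
        have h4 : (m : ℝ) = ((m % q : ℕ) : ℝ) + q * ((m / q : ℕ) : ℝ) := by
          exact_mod_cast (Nat.mod_add_div m q).symm
        have h5 : (((b * (m / q) : ℕ) : ℤ) : ℝ) = b * ((m / q : ℕ) : ℝ) := by
          rw [Int.cast_natCast, Nat.cast_mul]
        rw [h5, div_eq_iff hq0.ne', add_mul, div_mul_cancel₀ _ hq0.ne', h4]
        ring
      rw [h3, ee_add1, ee_int', mul_one]
    · intro a ha hne
      rw [hev, if_neg, mul_zero]
      intro h
      rw [ZMod.natCast_eq_natCast_iff] at h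
      apply hne
      have h5 : m % q = a % q := h
      rw [h5, Nat.mod_eq_of_lt (mem_range.1 ha)]
    · intro h
      exact absurd (mem_range.2 (Nat.mod_lt m (by omega))) h
  have hWg : ∀ n, Wg H n (fun m => ee (b * m / q) * F (X n m)) ≤
      ∑ a ∈ range q, Wg H n ((Y a n).ev F) := by
    intro n
    unfold Wg
    rw [← sum_div]
    refine div_le_div_of_nonneg_right ?_ (Nat.cast_nonneg _)
    have h3 : ∑ h ∈ Icc 1 H, muC (n + h) * (ee (b * ((n + h : ℕ) : ℝ) / q) * F (X n ((n + h : ℕ) : ℤ)))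
        = ∑ a ∈ range q, ee (b * a / q) * ∑ h ∈ Icc 1 H, muC (n + h) * (Y a n).ev F (n + h) := by
      simp_rw [mul_sum]
      rw [sum_comm]
      refine sum_congr rfl fun h _ => ?_
      rw [hsum n (n + h), mul_sum]
      exact sum_congr rfl fun a _ => by ring
    rw [h3]
    refine (norm_sum_le _ _).trans (sum_le_sum fun a _ => ?_)
    rw [norm_mul, norm_ee1, one_mul]
  calc ∑ n ∈ Ioc ⌊xa⌋₊ ⌊xb⌋₊, (1 / (n : ℝ)) * Wg H n (fun m => ee (b * m / q) * F (X n m))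
      ≤ ∑ n ∈ Ioc ⌊xa⌋₊ ⌊xb⌋₊, (1 / (n : ℝ)) * ∑ a ∈ range q, Wg H n ((Y a n).ev F) :=
        sum_le_sum fun n _ => mul_le_mul_of_nonneg_left (hWg n) (by positivity)
    _ = ∑ a ∈ range q, ∑ n ∈ Ioc ⌊xa⌋₊ ⌊xb⌋₊, (1 / (n : ℝ)) * Wg H n ((Y a n).ev F) := by
        rw [sum_comm]
        exact sum_congr rfl fun n _ => by rw [mul_sum]
    _ ≤ ∑ a ∈ range q, ε / q * (Real.log xb - Real.log xa) := by
        refine sum_le_sum fun a _ => hmain H ((le_max_left _ _).trans hH) xa xb h1 h2 (Y a)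
          (hYs a) fun m _ => ?_
        intro c _
        rw [hY]
        exact plg U Gf d c q q 1 m _ H (X m) hF one_pos (hX m)
    _ = ε * (Real.log xb - Real.log xa) := by
        rw [sum_const, card_range, nsmul_eq_mul]
        field_simp

end

end Pool.Agent.NG
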