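import Mathlib
import Pool.Agent.Lib.NG.ARows
import Pool.Agent.Lib.MP_663568_h6.Fejer

/-!
# NVG2 (MP_663568_nt), row FOU: Fourier coefficients along a central one-parameter group

(helper55)
-/

set_option autoImplicit false
open Finset Topology MeasureTheory

namespace Pool.Agent.NG

noncomputable section

open Amb Pool.Agent.Lib.MP_663568_nt Pool.Agent.Lib.MP_663568_nt.Katai
  Pool.Agent.Lib.MP_663568_nt.Nul Pool.Agent.Lib.MP_663568_nt.H6

namespace Fou

variable {U : Type} [Amb U]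

theorem pw_zero' (x : U) : pw 0 x = 1 := by
  have h := pw_add (0 : ℝ) 0 x
  rw [add_zero] at h
  exact mul_eq_left.mp h.symm

/-- The hypotheses of the row. -/
structure Hyp (G M : Subgroup U) (z : U) (F : U → ℂ) : Prop where
  hG : Rat G
  hMG : M ≤ G
  hN : Nrm G M
  hz : Cen G M z
  hF : Fn G M F

variable {G M : Subgroup U} {z : U} {F : U → ℂ}

theorem Hyp.mem (h : Hyp G M z F) (t : ℝ) : pw t z ∈ G := h.hG.pwc z h.hz.mem t

theorem Hyp.com (h : Hyp G M z F) (t : ℝ) {g : U} (hg : g ∈ G) :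
    pw t z * g * (pw t z)⁻¹ * g⁻¹ ∈ M := by
  have h1 := M.inv_mem (h.hz.cen g hg t)
  have h2 : (g * pw t z * g⁻¹ * (pw t z)⁻¹)⁻¹ = pw t z * g * (pw t z)⁻¹ * g⁻¹ := by group
  rwa [h2] at h1

theorem Hyp.swap (h : Hyp G M z F) (t : ℝ) {g y : U} (hg : g ∈ G) (hy : y ∈ G) :
    F (pw t z * (g * y)) = F (g * (pw t z * y)) := by
  have h1 : pw t z * (g * y)
      = (pw t z * g * (pw t z)⁻¹ * g⁻¹) * (g * (pw t z * y)) := by group
  rw [h1]
  exact h.hF.inv _ (h.com t hg) _ (G.mul_mem hg (G.mul_mem (h.mem t) hy))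

theorem Hyp.zper (h : Hyp G M z F) {y : U} (hy : y ∈ G) : F (z * y) = F y := by
  have h1 := h.swap 1 hy G.one_mem
  rw [pw_one, mul_one, mul_one] at h1
  rw [h1]
  exact h.hF.lat y hy z h.hz.la h.hz.mem

theorem Hyp.per (h : Hyp G M z F) {x : U} (hx : x ∈ G) (t : ℝ) :
    F (pw (t + 1) z * x) = F (pw t z * x) := by
  rw [add_comm, pw_add, pw_one, mul_assoc]
  exact h.zper (G.mul_mem (h.mem t) hx)

theorem Hyp.mod (h : Hyp G M z F) {ε : ℝ} (hε : 0 < ε) : ∃ δ : ℝ, 0 < δ ∧ ∀ s : ℝ, |s| < δ →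
    ∀ y ∈ G, ‖F (pw s z * y) - F y‖ ≤ ε := by
  obtain ⟨ρ, hρ, h1⟩ := h.hF.uc ε hε
  have h2 : Continuous fun s : ℝ => nm (pw s z) :=
    nm_cont.comp (pw_cont.comp (continuous_id.prodMk continuous_const))
  have h3 : nm (pw (0 : ℝ) z) = 0 := by rw [pw_zero', nm_one]
  obtain ⟨δ, hδ, h4⟩ := Metric.continuous_iff.mp h2 0 ρ hρ
  refine ⟨δ, hδ, ?_⟩
  intro s hs y hy
  apply h1 _ (h.mem s) _ y hy
  have h5 := h4 s (by rw [Real.dist_eq, sub_zero]; exact hs)
  rw [h3, Real.dist_eq, sub_zero] at h5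
  exact (le_abs_self _).trans h5.le

theorem Hyp.cont (h : Hyp G M z F) {x : U} (hx : x ∈ G) :
    Continuous fun t : ℝ => F (pw t z * x) := by
  rw [Metric.continuous_iff]
  intro t ε hε
  obtain ⟨δ, hδ, h1⟩ := h.mod (ε := ε / 2) (by positivity)
  refine ⟨δ, hδ, ?_⟩
  intro s hs
  rw [Real.dist_eq] at hs
  have h2 := h1 (s - t) hs (pw t z * x) (G.mul_mem (h.mem t) hx)
  rw [← mul_assoc, ← pw_add, sub_add_cancel] at h2
  rw [dist_eq_norm]
  linarith

theorem Hyp.icont (h : Hyp G M z F) {x : U} (hx : x ∈ G) (k : ℤ) :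
    Continuous fun t : ℝ => F (pw t z * x) * ee (-(k * t)) := by
  have := continuous_ee
  exact (h.cont hx).mul (by fun_prop)

theorem Hyp.bd (h : Hyp G M z F) : ∃ B : ℝ, 0 ≤ B ∧ ∀ x ∈ G, ‖F x‖ ≤ B := by
  obtain ⟨B, hB⟩ := h.hF.bd
  exact ⟨B, (norm_nonneg _).trans (hB 1 G.one_mem), hB⟩

theorem int_le {φ : ℝ → ℂ} {B : ℝ} (hφ : ∀ t : ℝ, ‖φ t‖ ≤ B) (k : ℤ) :
    ‖∫ t in (0 : ℝ)..1, φ t * ee (-(k * t))‖ ≤ B := by
  have h1 := intervalIntegral.norm_integral_le_of_norm_le_const (a := (0 : ℝ)) (b := 1) (C := B)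
    (f := fun t => φ t * ee (-(k * t))) (fun t _ => by rw [norm_mul, norm_ee, mul_one]; exact hφ t)
  rw [sub_zero, abs_one, mul_one] at h1
  exact h1

theorem Hyp.fn (h : Hyp G M z F) (k : ℤ) : Fn G M (fz z k F) where
  bd := by
    obtain ⟨B, _, hB⟩ := h.bd
    exact ⟨B, fun x hx => int_le (fun t => hB _ (G.mul_mem (h.mem t) hx)) k⟩
  uc := by
    intro ε hε
    obtain ⟨ρ, hρ, h1⟩ := h.hF.uc ε hε
    have hK : IsCompact ((fun t : ℝ => pw t z) '' Set.Icc 0 1) :=
      isCompact_Icc.image (pw_cont.comp (continuous_id.prodMk continuous_const))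
    obtain ⟨C, hC, h2⟩ := nm_conj _ hK
    refine ⟨min 1 (ρ / C), lt_min one_pos (by positivity), ?_⟩
    intro k' hk' hnk x hx
    have h3 : fz z k F (k' * x) - fz z k F x
        = ∫ t in (0 : ℝ)..1, (F (pw t z * (k' * x)) - F (pw t z * x)) * ee (-(k * t)) := by
      unfold fz
      rw [← intervalIntegral.integral_sub]
      · apply intervalIntegral.integral_congr
        intro t _
        show F (pw t z * (k' * x)) * ee (-(k * t)) - F (pw t z * x) * ee (-(k * t))
          = (F (pw t z * (k' * x)) - F (pw t z * x)) * ee (-(k * t))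
        rw [sub_mul]
      · exact (h.icont (G.mul_mem hk' hx) k).intervalIntegrable _ _
      · exact (h.icont hx k).intervalIntegrable _ _
    rw [h3]
    have h4 := intervalIntegral.norm_integral_le_of_norm_le_const (a := (0 : ℝ)) (b := 1) (C := ε)
      (f := fun t => (F (pw t z * (k' * x)) - F (pw t z * x)) * ee (-(k * t))) (by
        intro t ht
        rw [norm_mul, norm_ee, mul_one]
        rw [Set.uIoc_of_le zero_le_one] at ht
        have h5 : pw t z * (k' * x) = (pw t z * k' * (pw t z)⁻¹) * (pw t z * x) := by group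
        rw [h5]
        apply h1
        · exact G.mul_mem (G.mul_mem (h.mem t) hk') (G.inv_mem (h.mem t))
        · have h6 := h2 (pw t z) ⟨t, ⟨ht.1.le, ht.2⟩, rfl⟩ k' (hnk.trans (min_le_left _ _))
          refine h6.trans ?_
          have h7 := hnk.trans (min_le_right _ _)
          rw [le_div_iff₀ hC] at h7
          linarith
        · exact G.mul_mem (h.mem t) hx)
    rw [sub_zero, abs_one, mul_one] at h4
    exact h4
  lat := by
    intro x hx γ hγ hγG
    unfold fz
    apply intervalIntegral.integral_congr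
    intro t _
    show F (pw t z * (x * γ)) * ee (-(k * t)) = F (pw t z * x) * ee (-(k * t))
    rw [← mul_assoc, h.hF.lat _ (G.mul_mem (h.mem t) hx) γ hγ hγG]
  inv := by
    intro m hm x hx
    unfold fz
    apply intervalIntegral.integral_congr
    intro t _
    show F (pw t z * (m * x)) * ee (-(k * t)) = F (pw t z * x) * ee (-(k * t))
    have h5 : pw t z * (m * x) = (pw t z * m * (pw t z)⁻¹) * (pw t z * x) := by group
    rw [h5, h.hF.inv _ (h.hN _ (h.mem t) m hm) _ (G.mul_mem (h.mem t) hx)]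

theorem Hyp.vrt (h : Hyp G M z F) (k : ℤ) : Vrt G (fz z k F) z k := by
  intro s x hx
  unfold fz
  have h1 : ∀ t : ℝ, F (pw t z * (pw s z * x)) * ee (-(k * t))
      = ee (k * s) * (F (pw (t + s) z * x) * ee (-(k * (t + s)))) := by
    intro t
    rw [← mul_assoc, ← pw_add]
    have h2 : ee (-(k * t)) = ee (k * s) * ee (-(k * (t + s))) := by
      rw [← ee_add]
      congr 1
      ring
    rw [h2]
    ring
  simp only [h1]
  rw [intervalIntegral.integral_const_mul]
  congr 1
  rw [intervalIntegral.integral_comp_add_right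
    (fun t : ℝ => F (pw t z * x) * ee (-(k * t))) s, zero_add, add_comm 1 s]
  have h3 : Function.Periodic (fun t : ℝ => F (pw t z * x) * ee (-(k * t))) 1 := by
    intro t
    show F (pw (t + 1) z * x) * ee (-(k * (t + 1))) = F (pw t z * x) * ee (-(k * t))
    rw [h.per hx]
    congr 1
    have h4 : -((k : ℝ) * (t + 1)) = -(k * t) + ((-k : ℤ) : ℝ) := by
      push_cast
      ring
    rw [h4, ee_add, ee_int, mul_one]
  have h5 := h3.intervalIntegral_add_eq s 0
  rw [zero_add] at h5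
  exact h5

theorem Hyp.adj (h : Hyp G M z F) : Fn G (adj M z) (fz z 0 F) where
  bd := (h.fn 0).bd
  uc := (h.fn 0).uc
  lat := (h.fn 0).lat
  inv := by
    intro m hm
    have key : m ∈ G ∧ ∀ x ∈ G, fz z 0 F (m * x) = fz z 0 F x := by
      unfold NG.adj at hm
      induction hm using Subgroup.closure_induction with
      | mem m hm =>
        obtain ⟨a, ha, t, rfl⟩ := hm
        refine ⟨G.mul_mem (h.hMG ha) (h.mem t), ?_⟩
        intro x hx
        rw [mul_assoc, (h.fn 0).inv a ha _ (G.mul_mem (h.mem t) hx), h.vrt 0 t x hx]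
        have h0 : ee (((0 : ℤ) : ℝ) * t) = 1 := by
          rw [Int.cast_zero, zero_mul, ee_zero']
        rw [h0, one_mul]
      | one => exact ⟨G.one_mem, fun x _ => by rw [one_mul]⟩
      | mul a b _ _ ha hb =>
        refine ⟨G.mul_mem ha.1 hb.1, ?_⟩
        intro x hx
        rw [mul_assoc, ha.2 _ (G.mul_mem hb.1 hx), hb.2 x hx]
      | inv a _ ha =>
        refine ⟨G.inv_mem ha.1, ?_⟩
        intro x hx
        have h1 := ha.2 (a⁻¹ * x) (G.mul_mem (G.inv_mem ha.1) hx)
        rw [mul_inv_cancel_left] at h1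
        exact h1.symm
    exact key.2

theorem Hyp.other (h : Hyp G M z F) (w : U) (k j : ℤ) (hw : w ∈ G) (hv : Vrt G F w j) :
    Vrt G (fz z k F) w j := by
  intro s x hx
  unfold fz
  rw [← intervalIntegral.integral_const_mul]
  apply intervalIntegral.integral_congr
  intro t _
  show F (pw t z * (pw s w * x)) * ee (-(k * t)) = ee (j * s) * (F (pw t z * x) * ee (-(k * t)))
  rw [h.swap t (h.hG.pwc w hw s) hx, hv s _ (G.mul_mem (h.mem t) hx)]
  ring

/-- The weights. -/
def cf (N : ℕ) (k : ℤ) : ℝ :=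
  (((range N ×ˢ range N).filter fun p => ((p.1 : ℤ) - p.2) = k).card : ℝ) / N

theorem cf_le {N : ℕ} (hN : 1 ≤ N) (k : ℤ) : |cf N k| ≤ 1 := by
  unfold cf
  have hNr : (0 : ℝ) < N := by exact_mod_cast hN
  rw [abs_of_nonneg (by positivity), div_le_one hNr]
  have h1 : ((range N ×ˢ range N).filter fun p => ((p.1 : ℤ) - p.2) = k).card ≤ N := by
    calc ((range N ×ˢ range N).filter fun p => ((p.1 : ℤ) - p.2) = k).card
        ≤ (range N).card := by
          apply Finset.card_le_card_of_injOn (fun p => p.1)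
          · intro p hp
            have := (Finset.mem_filter.mp hp).1
            exact (Finset.mem_product.mp this).1
          · intro p hp q hq hpq
            have h1 := (Finset.mem_filter.mp hp).2
            have h2 := (Finset.mem_filter.mp hq).2
            have h3 : p.1 = q.1 := hpq
            have h4 : p.2 = q.2 := by omega
            exact Prod.ext h3 h4
      _ = N := card_range N
  exact_mod_cast h1

theorem cf_zero {N : ℕ} (hN : 1 ≤ N) : cf N 0 = 1 := by
  unfold cf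
  have hNr : (0 : ℝ) < N := by exact_mod_cast hN
  have h1 : ((range N ×ˢ range N).filter fun p => ((p.1 : ℤ) - p.2) = 0)
      = (range N).image fun j => (j, j) := by
    ext ⟨a, b⟩
    simp only [mem_filter, mem_product, mem_range, mem_image, Prod.mk.injEq]
    constructor
    · rintro ⟨⟨h1, h2⟩, h3⟩
      exact ⟨a, h1, rfl, by omega⟩
    · rintro ⟨c, h1, rfl, rfl⟩
      exact ⟨⟨h1, h1⟩, by omega⟩
  rw [h1, Finset.card_image_of_injective _ (fun a b h => (Prod.mk.inj h).1), card_range,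
    div_self hNr.ne']

theorem cf_sum {N : ℕ} (a : ℤ → ℂ) :
    ∑ k ∈ Icc (-(N : ℤ)) N, (cf N k : ℂ) * a k
      = (∑ i ∈ range N, ∑ j ∈ range N, a ((i : ℤ) - j)) / N := by
  have h1 : ∑ p ∈ range N ×ˢ range N, a ((p.1 : ℤ) - p.2)
      = ∑ k ∈ Icc (-(N : ℤ)) N, ∑ p ∈ (range N ×ˢ range N).filter
        (fun p => ((p.1 : ℤ) - p.2) = k), a ((p.1 : ℤ) - p.2) := by
    symm
    apply Finset.sum_fiberwise_of_maps_to
    intro p hp
    obtain ⟨h1, h2⟩ := Finset.mem_product.mp hp
    rw [mem_range] at h1 h2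
    rw [Finset.mem_Icc]
    omega
  rw [← Finset.sum_product' (f := fun (i j : ℕ) => a ((i : ℤ) - j)), h1, Finset.sum_div]
  apply Finset.sum_congr rfl
  intro k _
  have h2 : ∑ p ∈ (range N ×ˢ range N).filter (fun p => ((p.1 : ℤ) - p.2) = k),
      a ((p.1 : ℤ) - p.2) = ∑ p ∈ (range N ×ˢ range N).filter (fun p => ((p.1 : ℤ) - p.2) = k),
      a k := by
    apply Finset.sum_congr rfl
    intro p hp
    rw [(Finset.mem_filter.mp hp).2]
  rw [h2, Finset.sum_const, nsmul_eq_mul]
  unfold cf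
  push_cast
  ring

theorem Hyp.conv (h : Hyp G M z F) {x : U} (hx : x ∈ G) (N : ℕ) :
    ∑ k ∈ Icc (-(N : ℤ)) N, (cf N k : ℂ) * fz z k F x
      = ∫ t in (0 : ℝ)..1, F (pw t z * x) * (FK N (0 - t) : ℂ) := by
  have hee := continuous_ee
  have hc := h.cont hx
  rw [cf_sum]
  have h1 : ∀ t : ℝ, F (pw t z * x) * (FK N (0 - t) : ℂ)
      = (∑ i ∈ range N, ∑ j ∈ range N, F (pw t z * x) * ee (-((((i : ℤ) - j : ℤ) : ℝ) * t))) / N := by
    intro t
    unfold FK
    rw [Complex.ofReal_div, sq_expand, Complex.ofReal_natCast, mul_div_assoc', Finset.mul_sum]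
    congr 1
    apply Finset.sum_congr rfl
    intro i _
    rw [Finset.mul_sum]
    apply Finset.sum_congr rfl
    intro j _
    congr 2
    push_cast
    ring
  simp only [h1]
  rw [intervalIntegral.integral_div, intervalIntegral.integral_finsetSum]
  · congr 1
    apply Finset.sum_congr rfl
    intro i _
    rw [intervalIntegral.integral_finsetSum]
    · rfl
    · intro j _
      exact (h.icont hx ((i : ℤ) - j)).intervalIntegrable _ _
  · intro i _
    have h2 : Continuous fun t : ℝ => ∑ j ∈ range N,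
        F (pw t z * x) * ee (-((((i : ℤ) - j : ℤ) : ℝ) * t)) :=
      continuous_finsetSum _ fun j _ => h.icont hx ((i : ℤ) - j)
    exact h2.intervalIntegrable _ _

theorem Hyp.perz (h : Hyp G M z F) {x : U} (hx : x ∈ G) (n : ℤ) (t : ℝ) :
    F (pw (t - n) z * x) = F (pw t z * x) := by
  have h3 : Function.Periodic (fun t : ℝ => F (pw t z * x)) 1 := fun t => h.per hx t
  have h4 := h3.sub_zsmul_eq n (x := t)
  rw [zsmul_one] at h4
  exact h4

theorem Hyp.approx (h : Hyp G M z F) {ε : ℝ} (hε : 0 < ε) : ∃ N : ℕ, 1 ≤ N ∧ ∀ x ∈ G,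
    ‖F x - ∑ k ∈ Icc (-(N : ℤ)) N, (cf N k : ℂ) * fz z k F x‖ ≤ ε := by
  obtain ⟨B, hB0, hB⟩ := h.bd
  obtain ⟨δ, hδ, h1⟩ := h.mod (ε := ε / 2) (by positivity)
  set R : ℝ := 2 * B / δ with hR
  have hR0 : 0 ≤ R := by positivity
  set τ : ℝ := ε / (4 * (R + 1)) with hτ
  have hτ0 : 0 < τ := by positivity
  obtain ⟨N, hN⟩ := exists_nat_gt (max 1 ((R + 1) / (ε * τ)))
  have hN1 : (1 : ℝ) < N := (le_max_left _ _).trans_lt hN
  have hN1' : 1 ≤ N := by
    have : 1 < N := by exact_mod_cast hN1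
    omega
  have hN0 : (0 : ℝ) < N := by linarith
  have hN2 : (R + 1) / (ε * τ) < N := (le_max_right _ _).trans_lt hN
  refine ⟨N, hN1', ?_⟩
  intro x hx
  rw [h.conv hx N]
  have hFc := continuous_FK N
  have hc := h.cont hx
  have hndc : ∀ t : ℝ, ‖F (pw t z * x) - F x‖ ≤ ε / 2 + R * nd (0 - t) := by
    intro t
    obtain ⟨n, hn⟩ := nd_exists t
    have hn2 : nd (0 - t) = |t - n| := by rw [zero_sub, nd_neg, hn]
    rw [hn2, ← h.perz hx n t]
    rcases lt_or_ge (|t - n|) δ with hlt | hge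
    · have h2 := h1 (t - n) hlt x hx
      have : 0 ≤ R * |t - n| := by positivity
      linarith
    · have h2 : ‖F (pw (t - n) z * x) - F x‖ ≤ 2 * B := by
        have h3 := norm_sub_le (F (pw (t - n) z * x)) (F x)
        have h4 := hB _ (G.mul_mem (h.mem (t - n)) hx)
        have h5 := hB x hx
        linarith
      have h3 : 2 * B ≤ R * |t - n| := by
        rw [hR, div_mul_eq_mul_div, le_div_iff₀ hδ]
        exact mul_le_mul_of_nonneg_left hge (by positivity)
      have : 0 ≤ ε / 2 := by positivity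
      linarith
  have h2 : F x - ∫ t in (0 : ℝ)..1, F (pw t z * x) * (FK N (0 - t) : ℂ)
      = ∫ t in (0 : ℝ)..1, (F x - F (pw t z * x)) * (FK N (0 - t) : ℂ) := by
    have h3 : F x = ∫ t in (0 : ℝ)..1, F x * (FK N (0 - t) : ℂ) := by
      rw [intervalIntegral.integral_const_mul, intervalIntegral.integral_ofReal,
        integral_FK N hN1' 0, Complex.ofReal_one, mul_one]
    nth_rewrite 1 [h3]
    rw [← intervalIntegral.integral_sub]
    · apply intervalIntegral.integral_congr
      intro t _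
      show F x * (FK N (0 - t) : ℂ) - F (pw t z * x) * (FK N (0 - t) : ℂ)
        = (F x - F (pw t z * x)) * (FK N (0 - t) : ℂ)
      rw [sub_mul]
    · exact (by fun_prop : Continuous fun t : ℝ => F x * (FK N (0 - t) : ℂ)).intervalIntegrable _ _
    · exact (hc.mul (by fun_prop : Continuous fun t : ℝ =>
        (FK N (0 - t) : ℂ))).intervalIntegrable _ _
  rw [h2]
  refine (intervalIntegral.norm_integral_le_integral_norm zero_le_one).trans ?_
  have h4 : ∀ t : ℝ, ‖(F x - F (pw t z * x)) * (FK N (0 - t) : ℂ)‖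
      ≤ (ε / 2 + R * τ) * FK N (0 - t) + R * (1 / (4 * N * τ)) := by
    intro t
    have hK0 := FK_nonneg N (0 - t)
    rw [norm_mul, Complex.norm_real, Real.norm_of_nonneg hK0, norm_sub_rev]
    have h5 := nd_mul_FK N hN1' (0 - t) τ hτ0
    calc ‖F (pw t z * x) - F x‖ * FK N (0 - t)
        ≤ (ε / 2 + R * nd (0 - t)) * FK N (0 - t) := mul_le_mul_of_nonneg_right (hndc t) hK0
      _ = ε / 2 * FK N (0 - t) + R * (nd (0 - t) * FK N (0 - t)) := by ring
      _ ≤ ε / 2 * FK N (0 - t) + R * (τ * FK N (0 - t) + 1 / (4 * N * τ)) := by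
          have := mul_le_mul_of_nonneg_left h5 hR0
          linarith
      _ = (ε / 2 + R * τ) * FK N (0 - t) + R * (1 / (4 * N * τ)) := by ring
  have h5 : ∫ t in (0 : ℝ)..1, ‖(F x - F (pw t z * x)) * (FK N (0 - t) : ℂ)‖
      ≤ ∫ t in (0 : ℝ)..1, ((ε / 2 + R * τ) * FK N (0 - t) + R * (1 / (4 * N * τ))) := by
    apply intervalIntegral.integral_mono_on zero_le_one
    · exact (((continuous_const.sub hc).mul (by fun_prop : Continuous fun t : ℝ =>
        (FK N (0 - t) : ℂ))).norm).intervalIntegrable _ _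
    · exact (by fun_prop : Continuous fun t : ℝ =>
        ((ε / 2 + R * τ) * FK N (0 - t) + R * (1 / (4 * N * τ)))).intervalIntegrable _ _
    · intro t _
      exact h4 t
  refine h5.trans ?_
  rw [intervalIntegral.integral_add
    ((by fun_prop : Continuous fun t : ℝ => (ε / 2 + R * τ) * FK N (0 - t)).intervalIntegrable _ _)
    (continuous_const.intervalIntegrable _ _), intervalIntegral.integral_const_mul,
    integral_FK N hN1' 0, intervalIntegral.integral_const, sub_zero, one_smul, mul_one]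
  have h6 : R * τ ≤ ε / 4 := by
    rw [hτ, mul_div_assoc', div_le_div_iff₀ (by positivity) (by norm_num)]
    nlinarith
  have h7 : R * (1 / (4 * N * τ)) ≤ ε / 4 := by
    rw [mul_one_div, div_le_div_iff₀ (by positivity) (by norm_num)]
    rw [div_lt_iff₀ (by positivity)] at hN2
    nlinarith
  linarith

end Fou

/-- Row FOU. -/
theorem fou : FOU_stmt := by
  intro U _ G M z F hG _ hMG hN hz hF
  have h : Fou.Hyp G M z F := ⟨hG, hMG, hN, hz, hF⟩
  refine ⟨fun k => ⟨h.fn k, h.vrt k⟩, h.adj, fun w k j hw hv => h.other w k j hw hv, ?_⟩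
  intro ε hε
  obtain ⟨N, hN1, h1⟩ := h.approx hε
  exact ⟨N, Fou.cf N, fun k => Fou.cf_le hN1 k, Fou.cf_zero hN1, h1⟩

end

end Pool.Agent.NG
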