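import Pool.Agent.Lib.NG.ARows

/-!
# NVG2: real powers in an ambient group
-/

set_option autoImplicit false
open Finset Topology

namespace Pool.Agent.NG

open Amb

variable {U : Type} [Amb U]

theorem pw_zero (x : U) : pw 0 x = 1 := by
  have h := pw_add 0 0 x
  rw [add_zero] at h
  exact (left_eq_mul.1 h)

theorem pw_neg (t : ℝ) (x : U) : pw (-t) x = (pw t x)⁻¹ := by
  rw [eq_inv_iff_mul_eq_one, ← pw_add, neg_add_cancel, pw_zero]

theorem pw_sub (s t : ℝ) (x : U) : pw (s - t) x = pw s x * (pw t x)⁻¹ := by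
  rw [sub_eq_add_neg, pw_add, pw_neg]

theorem pw_nat (n : ℕ) (x : U) : pw (n : ℝ) x = x ^ n := by
  induction n with
  | zero => rw [Nat.cast_zero, pw_zero, pow_zero]
  | succ n ih => rw [Nat.cast_succ, pw_add, ih, pw_one, pow_succ]

theorem pw_int (n : ℤ) (x : U) : pw (n : ℝ) x = x ^ n := by
  obtain ⟨k, rfl | rfl⟩ := n.eq_nat_or_neg
  · rw [Int.cast_natCast, pw_nat, zpow_natCast]
  · rw [Int.cast_neg, Int.cast_natCast, pw_neg, pw_nat, zpow_neg, zpow_natCast]

theorem pw_id (t : ℝ) : pw t (1 : U) = 1 := by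
  rw [← pw_zero (1 : U), ← pw_mul, mul_zero]

theorem pw_comm (s t : ℝ) (x : U) : pw s x * pw t x = pw t x * pw s x := by
  rw [← pw_add, ← pw_add, add_comm]

theorem pw_continuous (x : U) : Continuous fun t : ℝ => pw t x :=
  pw_cont.comp (continuous_id.prodMk continuous_const)

theorem pw_continuous_right (t : ℝ) : Continuous fun x : U => pw t x :=
  pw_cont.comp (continuous_const.prodMk continuous_id)

theorem pow_pw (t : ℝ) (x : U) (n : ℕ) : pw t x ^ n = pw (n * t) x := by
  rw [← pw_nat, ← pw_mul]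

theorem pw_pow (t : ℝ) (x : U) (n : ℕ) : pw t (x ^ n) = pw (t * n) x := by
  rw [← pw_nat, ← pw_mul]

/-- roots are unique -/
theorem root_unique {n : ℕ} (hn : n ≠ 0) {x y : U} (h : x ^ n = y ^ n) : x = y := by
  have h1 : ∀ z : U, pw (1 / n : ℝ) (z ^ n) = z := by
    intro z
    rw [pw_pow, one_div_mul_cancel (by exact_mod_cast hn), pw_one]
  rw [← h1 x, ← h1 y, h]

theorem root_unique_int {n : ℤ} (hn : n ≠ 0) {x y : U} (h : x ^ n = y ^ n) : x = y := by
  have h1 : ∀ z : U, pw (1 / n : ℝ) (z ^ n) = z := by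
    intro z
    rw [← pw_int, ← pw_mul, one_div_mul_cancel (by exact_mod_cast hn), pw_one]
  rw [← h1 x, ← h1 y, h]

/-- one parameter groups are real powers -/
theorem one_param {θ : ℝ → U} (hc : Continuous θ) (ha : ∀ s t, θ (s + t) = θ s * θ t) (t : ℝ) :
    θ t = pw t (θ 1) := by
  have h0 : θ 0 = 1 := by
    have h := ha 0 0
    rw [add_zero] at h
    exact left_eq_mul.1 h
  have hneg : ∀ s, θ (-s) = (θ s)⁻¹ := by
    intro s
    rw [eq_inv_iff_mul_eq_one, ← ha, neg_add_cancel, h0]
  have hnat : ∀ (n : ℕ) (s : ℝ), θ (n * s) = θ s ^ n := by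
    intro n s
    induction n with
    | zero => rw [Nat.cast_zero, zero_mul, h0, pow_zero]
    | succ n ih => rw [Nat.cast_succ, add_mul, one_mul, ha, ih, pow_succ]
  have hint : ∀ n : ℤ, θ n = θ 1 ^ n := by
    intro n
    obtain ⟨k, rfl | rfl⟩ := n.eq_nat_or_neg
    · have := hnat k 1
      rw [mul_one] at this
      rw [Int.cast_natCast, this, zpow_natCast]
    · have := hnat k 1
      rw [mul_one] at this
      rw [Int.cast_neg, Int.cast_natCast, hneg, this, zpow_neg, zpow_natCast]
  have hq : ∀ q : ℚ, θ q = pw (q : ℝ) (θ 1) := by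
    intro q
    have hd : (q.den : ℝ) ≠ 0 := by exact_mod_cast q.den_ne_zero
    have hqd : (q.den : ℝ) * (q : ℝ) = (q.num : ℝ) := by
      have := Rat.den_mul_eq_num q
      exact_mod_cast this
    refine root_unique q.den_ne_zero ?_
    rw [← hnat, pow_pw, hqd, hint, pw_int]
  have h := Rat.denseRange_cast (𝕜 := ℝ) |>.equalizer hc (pw_continuous (θ 1)) (by
    ext q
    exact hq q)
  exact congrFun h t

theorem pw_conj (g x : U) (t : ℝ) : pw t (g * x * g⁻¹) = g * pw t x * g⁻¹ := by
  have h := one_param (θ := fun s : ℝ => g * pw s x * g⁻¹)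
    ((continuous_const.mul (pw_continuous x)).mul continuous_const) (by
      intro s t
      rw [pw_add]
      group) t
  simp only [pw_one] at h
  exact h.symm

theorem pw_inv (x : U) (t : ℝ) : pw t x⁻¹ = (pw t x)⁻¹ := by
  have h : x⁻¹ = pw (-1) x := by rw [pw_neg, pw_one]
  rw [h, ← pw_mul, ← pw_neg]
  congr 1
  ring

theorem commute_pw_left {x y : U} (h : Commute x y) (s : ℝ) : Commute (pw s x) y := by
  have h1 : y * x * y⁻¹ = x := by rw [← h.eq, mul_inv_cancel_right]
  have h2 := pw_conj y x s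
  rw [h1] at h2
  change pw s x * y = y * pw s x
  conv_lhs => rw [h2]
  rw [inv_mul_cancel_right]

theorem commute_pw {x y : U} (h : Commute x y) (s t : ℝ) : Commute (pw s x) (pw t y) :=
  commute_pw_left (commute_pw_left h.symm t).symm s

theorem pw_mul_of_commute {x y : U} (h : Commute x y) (t : ℝ) :
    pw t (x * y) = pw t x * pw t y := by
  have h1 := one_param (θ := fun s : ℝ => pw s x * pw s y)
    ((pw_continuous x).mul (pw_continuous y)) (by
      intro s t
      rw [pw_add, pw_add, mul_assoc, mul_assoc, ← mul_assoc (pw t x), ← mul_assoc (pw s y),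
        (commute_pw h t s).eq]) t
  simp only [pw_one] at h1
  exact h1.symm

/-- a continuous homomorphism commutes with real powers -/
theorem hom_pw {V : Type} [Amb V] (φ : U →* V) (hφ : Continuous φ) (t : ℝ) (x : U) :
    φ (pw t x) = pw t (φ x) := by
  have h := one_param (θ := fun s : ℝ => φ (pw s x)) (hφ.comp (pw_continuous x)) (by
    intro s t
    rw [pw_add, map_mul]) t
  simp only [pw_one] at h
  exact h

/-- additive continuous functions on a subgroup closed under real powers are linear in the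
exponent -/
theorem add_pw {H : Subgroup U} (hH : PwC H) {χ : U → ℝ}
    (hmul : ∀ x ∈ H, ∀ y ∈ H, χ (x * y) = χ x + χ y) (hc : ContinuousOn χ (H : Set U))
    {x : U} (hx : x ∈ H) (t : ℝ) : χ (pw t x) = t * χ x := by
  have hcont : Continuous fun s : ℝ => χ (pw s x) :=
    hc.comp_continuous (pw_continuous x) fun s => hH x hx s
  let f : ℝ →+ ℝ := AddMonoidHom.mk' (fun s : ℝ => χ (pw s x)) (by
    intro s t
    rw [pw_add]
    exact hmul _ (hH x hx s) _ (hH x hx t))
  have h := (f.toRealLinearMap hcont).map_smul t 1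
  rw [smul_eq_mul, mul_one] at h
  have h1 : χ (pw t x) = t • χ (pw 1 x) := h
  rw [pw_one, smul_eq_mul] at h1
  exact h1

theorem PwC.zpow_mem {H : Subgroup U} (hH : PwC H) {x : U} {n : ℤ} (hn : n ≠ 0)
    (h : x ^ n ∈ H) : x ∈ H := by
  have h1 := hH _ h (1 / n : ℝ)
  rw [← pw_int, ← pw_mul, one_div_mul_cancel (by exact_mod_cast hn), pw_one] at h1
  exact h1

theorem PwC.pow_mem {H : Subgroup U} (hH : PwC H) {x : U} {n : ℕ} (hn : n ≠ 0)
    (h : x ^ n ∈ H) : x ∈ H := by
  have h1 := hH _ h (1 / n : ℝ)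
  rw [pw_pow, one_div_mul_cancel (by exact_mod_cast hn), pw_one] at h1
  exact h1

/-- a real power with nonzero exponent is in a closed-under-powers subgroup only if `x` is -/
theorem PwC.of_pw {H : Subgroup U} (hH : PwC H) {x : U} {t : ℝ} (ht : t ≠ 0)
    (h : pw t x ∈ H) : x ∈ H := by
  have h1 := hH _ h (1 / t)
  rw [← pw_mul, one_div_mul_cancel ht, pw_one] at h1
  exact h1

/-- **row PWB** -/
theorem pwb : PWB_stmt := by
  intro U _
  refine ⟨pw_zero, pw_nat, pw_int, pw_neg, pw_id, ?_, ?_, ?_⟩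
  · intro t x y
    exact pw_conj x y t
  · intro t x y h
    exact pw_mul_of_commute h t
  · intro M hM n x hn h
    exact hM.pow_mem (by omega) h

/-- **row CHS** -/
theorem chs : CHS_stmt := by
  intro U _ H χ hH hmul hc x hx t
  exact add_pw hH hmul hc hx t

end Pool.Agent.NG
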