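import Pool.Agent.Lib.NG.C
import Pool.Agent.Lib.NG.PWB

/-!
# NVG2 (MP_663568_nt), row FUL: expansion in functions with a full character

Iterate row FOU along the coordinates `e i` of `N` modulo `Gf (d + 1)` (row COO).
-/

set_option autoImplicit false
open Finset Topology

namespace Pool.Agent.NG

open Amb Pool.Agent.Lib.MP_663568_nt Pool.Agent.Lib.MP_663568_nt.Katai

noncomputable section

section
variable {U : Type} [Amb U]

theorem fn_smul {G M : Subgroup U} {F : U → ℂ} (h : Fn G M F) {c : ℂ} (hc : ‖c‖ ≤ 1) :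
    Fn G M fun x => c * F x := by
  have key : ∀ z : ℂ, ‖c * z‖ ≤ ‖z‖ := by
    intro z
    rw [norm_mul]
    calc ‖c‖ * ‖z‖ ≤ 1 * ‖z‖ := mul_le_mul_of_nonneg_right hc (norm_nonneg _)
      _ = ‖z‖ := one_mul _
  refine ⟨?_, ?_, ?_, ?_⟩
  · obtain ⟨B, hB⟩ := h.bd
    exact ⟨B, fun x hx => (key _).trans (hB x hx)⟩
  · intro ε hε
    obtain ⟨ρ, hρ, hr⟩ := h.uc ε hε
    refine ⟨ρ, hρ, fun k hk hn x hx => ?_⟩
    rw [← mul_sub]
    exact (key _).trans (hr k hk hn x hx)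
  · intro x hx γ hγ hγG
    show c * F (x * γ) = c * F x
    rw [h.lat x hx γ hγ hγG]
  · intro m hm x hx
    show c * F (m * x) = c * F x
    rw [h.inv m hm x hx]

theorem vrt_smul {G : Subgroup U} {F : U → ℂ} {z : U} {k : ℤ} (h : Vrt G F z k) (c : ℂ) :
    Vrt G (fun x => c * F x) z k := by
  intro t x hx
  show c * F (pw t z * x) = ee (k * t) * (c * F x)
  rw [h t x hx]
  ring

/-- the iteration of row FOU -/
theorem ful_gen (hfou : FOU_stmt) {G M : Subgroup U} (hG : Rat G) (hM : Rat M) (hle : M ≤ G)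
    (hN : Nrm G M) {D : ℕ} (e : Fin D → U) (he : ∀ i, Cen G M (e i)) :
    ∀ n : ℕ, n ≤ D → ∀ F : U → ℂ, Fn G M F → ∀ ε : ℝ, 0 < ε →
    ∃ (ι : Type) (_ : Fintype ι) (Fs : ι → U → ℂ) (ks : ι → Fin D → ℤ),
      (∀ t, Fn G M (Fs t)) ∧ (∀ t (i : Fin D), (i : ℕ) < n → Vrt G (Fs t) (e i) (ks t i)) ∧
      (∀ t (w : U) (j : ℤ), w ∈ G → Vrt G F w j → Vrt G (Fs t) w j) ∧
      ∀ x ∈ G, ‖F x - ∑ t, Fs t x‖ ≤ ε := by
  intro n
  induction n with
  | zero =>
    intro _ F hF ε hε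
    refine ⟨Unit, inferInstance, fun _ => F, fun _ _ => 0, fun _ => hF, ?_, ?_, ?_⟩
    · intro t i hi
      exact absurd hi (Nat.not_lt_zero _)
    · intro t w j _ h
      exact h
    · intro x _
      simp [hε.le]
  | succ n ih =>
    intro hn F hF ε hε
    obtain ⟨ι, _, Fs, ks, h1, h2, h3, h4⟩ := ih (by omega) F hF (ε / 2) (by linarith)
    have hε' : 0 < ε / (2 * (Fintype.card ι + 1)) := by positivity
    -- the expansion of every function
    have hstep : ∀ t, ∃ (K : ℕ) (c : ℤ → ℝ), (∀ k, |c k| ≤ 1) ∧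
        ∀ x ∈ G, ‖Fs t x - ∑ k ∈ Icc (-(K : ℤ)) K, (c k : ℂ) * fz (e ⟨n, hn⟩) k (Fs t) x‖ ≤
          ε / (2 * (Fintype.card ι + 1)) := by
      intro t
      obtain ⟨-, -, -, h⟩ := hfou U G M (e ⟨n, hn⟩) (Fs t) hG hM hle hN (he _) (h1 t)
      obtain ⟨K, c, hc, -, hx⟩ := h _ hε'
      exact ⟨K, c, hc, hx⟩
    choose K c hc hx using hstep
    refine ⟨Σ t : ι, {k : ℤ // k ∈ Icc (-(K t : ℤ)) (K t)}, inferInstance,
      fun p x => ((c p.1 p.2.1 : ℝ) : ℂ) * fz (e ⟨n, hn⟩) p.2.1 (Fs p.1) x,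
      fun p i => if (i : ℕ) = n then p.2.1 else ks p.1 i, ?_, ?_, ?_, ?_⟩
    · rintro ⟨t, k, hk⟩
      obtain ⟨h, -⟩ := hfou U G M (e ⟨n, hn⟩) (Fs t) hG hM hle hN (he _) (h1 t)
      refine fn_smul (h k).1 ?_
      rw [Complex.norm_real, Real.norm_eq_abs]
      exact hc t k
    · rintro ⟨t, k, hk⟩ i hi
      obtain ⟨h, -, h', -⟩ := hfou U G M (e ⟨n, hn⟩) (Fs t) hG hM hle hN (he _) (h1 t)
      refine vrt_smul ?_ _
      show Vrt G (fz (e ⟨n, hn⟩) k (Fs t)) (e i) (if (i : ℕ) = n then k else ks t i)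
      by_cases hin : (i : ℕ) = n
      · rw [if_pos hin]
        have h5 : i = ⟨n, hn⟩ := Fin.ext hin
        rw [h5]
        exact (h k).2
      · rw [if_neg hin]
        exact h' (e i) k (ks t i) (he i).mem (h2 t i (by omega))
    · rintro ⟨t, k, hk⟩ w j hw hv
      obtain ⟨h, -, h', -⟩ := hfou U G M (e ⟨n, hn⟩) (Fs t) hG hM hle hN (he _) (h1 t)
      exact vrt_smul (h' w k j hw (h3 t w j hw hv)) _
    · intro x hxG
      rw [Fintype.sum_sigma]
      have h5 : ∀ t, ∑ p : {k : ℤ // k ∈ Icc (-(K t : ℤ)) (K t)},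
          ((c t p.1 : ℝ) : ℂ) * fz (e ⟨n, hn⟩) p.1 (Fs t) x =
          ∑ k ∈ Icc (-(K t : ℤ)) (K t), (c t k : ℂ) * fz (e ⟨n, hn⟩) k (Fs t) x := by
        intro t
        exact Finset.sum_coe_sort (Icc (-(K t : ℤ)) (K t))
          (fun k => (c t k : ℂ) * fz (e ⟨n, hn⟩) k (Fs t) x)
      have h6 : F x - ∑ t, ∑ p : {k : ℤ // k ∈ Icc (-(K t : ℤ)) (K t)},
          ((c t p.1 : ℝ) : ℂ) * fz (e ⟨n, hn⟩) p.1 (Fs t) x =
          (F x - ∑ t, Fs t x) + ∑ t, (Fs t x -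
            ∑ k ∈ Icc (-(K t : ℤ)) (K t), (c t k : ℂ) * fz (e ⟨n, hn⟩) k (Fs t) x) := by
        rw [Finset.sum_sub_distrib, Finset.sum_congr rfl fun t _ => h5 t]
        ring
      refine le_trans (le_of_eq (congrArg norm h6)) ?_
      refine (norm_add_le _ _).trans ?_
      have h7 : ‖∑ t, (Fs t x -
            ∑ k ∈ Icc (-(K t : ℤ)) (K t), (c t k : ℂ) * fz (e ⟨n, hn⟩) k (Fs t) x)‖ ≤ ε / 2 := by
        refine (norm_sum_le _ _).trans ?_
        refine (Finset.sum_le_sum fun t _ => hx t x hxG).trans ?_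
        rw [Finset.sum_const, nsmul_eq_mul, Finset.card_univ]
        rw [mul_div_assoc', div_le_div_iff₀ (by positivity) (by positivity)]
        nlinarith [hε]
      linarith [h4 x hxG]

/-- the characters along the coordinates give the character along `tau e v` -/
theorem vrt_tau {G : Subgroup U} {F : U → ℂ} (hG : PwC G) : ∀ {D : ℕ} (e : Fin D → U)
    (ks : Fin D → ℤ), (∀ i, e i ∈ G) → (∀ i, Vrt G F (e i) (ks i)) → ∀ (v : Fin D → ℝ), ∀ y ∈ G,
    tau e v * y ∈ G ∧ F (tau e v * y) = ee (∑ i, ks i * v i) * F y := by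
  intro D
  induction D with
  | zero =>
    intro e ks _ _ v y hy
    have h : tau e v = 1 := by
      unfold tau
      simp
    rw [h, one_mul]
    refine ⟨hy, ?_⟩
    rw [Finset.univ_eq_empty, Finset.sum_empty]
    have h1 := ee_int 0
    rw [Int.cast_zero] at h1
    rw [h1, one_mul]
  | succ D ih =>
    intro e ks he hv v y hy
    have h : tau e v = pw (v 0) (e 0) * tau (fun i => e i.succ) (fun i => v i.succ) := by
      unfold tau
      rw [List.ofFn_succ, List.prod_cons]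
    obtain ⟨h1, h2⟩ := ih (fun i => e i.succ) (fun i => ks i.succ) (fun i => he _) (fun i => hv _)
      (fun i => v i.succ) y hy
    rw [h, mul_assoc]
    refine ⟨G.mul_mem (hG _ (he 0) _) h1, ?_⟩
    rw [hv 0 (v 0) _ h1, h2, ← mul_assoc, ← ee_add, Fin.sum_univ_succ]

end

/-- **Row FUL.** -/
theorem ful : FUL_stmt := by
  intro hcoo hfou U _ Gf d N hF hNor hcm F hFn ε hε
  have hNM : Nrm (Gf 0) (Gf (d + 1)) := by
    intro x hx y hy
    have h := hF.com 0 (d + 1) x hx y hy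
    rw [Nat.zero_add] at h
    have h2 := (Gf (d + 1)).mul_mem h hy
    rwa [inv_mul_cancel_right] at h2
  have hNN : Nrm N (Gf (d + 1)) := fun x hx => hNM x (hNor.le hx)
  have hCN : Cm N N (Gf (d + 1)) := fun x hx y hy => hcm x (hNor.le hx) y hy
  obtain ⟨D, e, π, k, he, hadd, hzero, hpe, hcont, hk, hint, htau⟩ :=
    hcoo U N (Gf (d + 1)) hNor.rat (hF.rat _) hNor.ge hNN hCN
  have heC : ∀ i, Cen (Gf 0) (Gf (d + 1)) (e i) := by
    intro i
    refine ⟨(he i).1, hNor.le (he i).2, ?_, ?_⟩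
    · intro g hg t
      exact hcm g hg _ (hNor.rat.pwc _ (he i).2 t)
    · intro hcon
      have h1 := (hzero (e i) (he i).2).2 hcon
      rw [hpe i] at h1
      have h2 := congrFun h1 i
      rw [Pi.single_eq_same] at h2
      exact one_ne_zero h2
  obtain ⟨ι, _, Fs, ks, h1, h2, -, h4⟩ := ful_gen hfou (hF.rat 0) (hF.rat (d + 1))
    (hNor.ge.trans hNor.le) hNM e heC D le_rfl F hFn ε hε
  have hpi1 : π 1 = 0 := (hzero 1 N.one_mem).2 (Gf (d + 1)).one_mem
  have hpinv : ∀ x ∈ N, π x⁻¹ = - π x := by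
    intro x hx
    have h := hadd x hx x⁻¹ (N.inv_mem hx)
    rw [mul_inv_cancel, hpi1] at h
    exact (neg_eq_of_add_eq_zero_right h.symm).symm
  have hch : ∀ t, FCh Gf d N (fun w => ∑ i, (ks t i : ℝ) * π w i) (Fs t) := by
    intro t
    refine ⟨?_, ?_, ?_⟩
    · intro x hx y hy
      show ∑ i, (ks t i : ℝ) * π (x * y) i = ∑ i, (ks t i : ℝ) * π x i + ∑ i, (ks t i : ℝ) * π y i
      rw [hadd x hx y hy, ← Finset.sum_add_distrib]
      refine Finset.sum_congr rfl fun i _ => ?_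
      rw [Pi.add_apply]
      ring
    · intro x hx
      show ∑ i, (ks t i : ℝ) * π x i = 0
      rw [(hzero x (hNor.ge hx)).2 hx]
      simp
    · intro x hx y hy
      show Fs t (x * y) = ee (∑ i, (ks t i : ℝ) * π x i) * Fs t y
      have hm : x * (tau e (π x))⁻¹ ∈ Gf (d + 1) := by
        rw [← hzero _ (N.mul_mem hx (N.inv_mem (htau _).1)), hadd x hx _ (N.inv_mem (htau _).1),
          hpinv _ (htau _).1, (htau _).2, add_neg_cancel]
      obtain ⟨h5, h6⟩ := vrt_tau (F := Fs t) (hF.rat 0).pwc e (ks t) (fun i => (heC i).mem)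
        (fun i => h2 t i i.2) (π x) y hy
      have h7 : x * y = x * (tau e (π x))⁻¹ * (tau e (π x) * y) := by group
      rw [h7, (h1 t).inv _ hm _ h5, h6]
  let eq := Fintype.equivFin ι
  refine ⟨Fintype.card ι, fun t => Fs (eq.symm t), fun t w => ∑ i, (ks (eq.symm t) i : ℝ) * π w i,
    fun t => h1 _, fun t => hch _, ?_⟩
  intro x hx
  have h5 : ∑ t, Fs (eq.symm t) x = ∑ t, Fs t x := Equiv.sum_comp eq.symm fun t => Fs t x
  rw [h5]
  exact h4 x hx

end

end Pool.Agent.NG
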