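import Mathlib
import Pool.Agent.Lib.NG.FMat
import Pool.Agent.Lib.NG.FNvp
import Pool.Agent.Lib.NG.FUL
import Pool.Agent.Lib.NG.FOU
import Pool.Agent.Lib.NV.BV

/-!
# NVG2 (MP_663568_nt), row FINAL: the theorem on matrices

(helper26)
-/

set_option autoImplicit false
open Finset Topology Polynomial

namespace Pool.Agent.NG

open Amb Pool.Agent.Lib.MP_663568_nt Pool.Agent.Lib.MP_663568_nt.Katai
  Pool.Agent.Lib.MP_663568_nt.Nul Pool.Agent.SV Pool.Agent.VQ Pool.Agent.NV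

noncomputable section

/-- Slow families of polynomial maps times central polynomial factors whose linear terms are slow
(95's `nvz`). -/
def NVZ : Prop := ∀ (U : Type) [Amb U] (Gf : ℕ → Subgroup U) (d : ℕ), Filt Gf d →
  ∀ F : U → ℂ, Fn (Gf 0) (Gf (d + 1)) F → ∀ r t D : ℕ, 1 ≤ t → ∀ z : Fin r → U,
  (∀ i, z i ∈ (La : Subgroup U)) → (∀ i, z i ∈ Gf D) →
  (∀ i (s : ℝ), ∀ x ∈ Gf 0, pw s (z i) * x = x * pw s (z i)) → ∀ A ε : ℝ, 0 ≤ A → 0 < ε →
  ∃ (B : ℝ) (H₀ : ℕ), 0 ≤ B ∧ ∀ H : ℕ, H₀ ≤ H → ∀ xa xb : ℝ, (H : ℝ) ^ B ≤ xa → xa * H ≤ xb →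
  ∀ (X : ℕ → ℤ → U) (q : ℕ → Fin r → ℝ[X]), (∀ n, PS Gf 0 (X n)) →
  (∀ n i, (q n i).natDegree ≤ D) → SlowA (fun n => (X n, q n)) ((H : ℝ) ^ A) →
  ∀ P : ℕ → Fin r → ℝ[X], (∀ n i, (P n i).natDegree ≤ t) →
  (∀ n i, (P n i).derivative.eval (n : ℝ) = (q n i).derivative.eval (n : ℝ)) →
  ∑ n ∈ Ioc ⌊xa⌋₊ ⌊xb⌋₊, (1 / (n : ℝ)) * Wg H n (fun m : ℕ =>
    F ((List.ofFn fun i => pw ((P n i).eval (m : ℝ)) (z i)).prod * X n (m : ℤ))) ≤
    ε * (Real.log xb - Real.log xa)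

section

variable {m : ℕ} {G : Subgroup (Matrix.GeneralLinearGroup (Fin m) ℝ)}

/-- The entries of `g k` are real polynomials in `k` of degree at most `D`. -/
def Poly (D : ℕ) (g : ℤ → G) : Prop := ∀ i j : Fin m, ∃ p : Polynomial ℝ, p.natDegree ≤ D ∧
  ∀ k : ℤ, ((g k : Matrix.GeneralLinearGroup (Fin m) ℝ) : Matrix (Fin m) (Fin m) ℝ) i j =
    p.eval (k : ℝ)

/-- The maximum over `0 ≤ k ≤ 4 n` of the sum of the absolute values of the entries of
`g' k (g k)⁻¹ - 1` and of the `q'_c'(k) - q_c'(k)`. -/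
def vr {r : ℕ} (n : ℕ) (g g' : ℤ → G) (q q' : Fin r → Polynomial ℝ) : ℝ :=
  ⨆ k : Fin (4 * n + 1), (∑ i, ∑ j,
    |((g' (k : ℕ) * (g (k : ℕ))⁻¹ : Matrix.GeneralLinearGroup (Fin m) ℝ) :
      Matrix (Fin m) (Fin m) ℝ) i j - (1 : Matrix (Fin m) (Fin m) ℝ) i j| +
    ∑ c, |(q' c).derivative.eval ((k : ℕ) : ℝ) - (q c).derivative.eval ((k : ℕ) : ℝ)|)

/-- `Z` is a continuous homomorphism from `ℝ ^ r` to the centre of `G`, `Z (ℤ ^ r) ⊆ Γ`. -/
structure Central {r : ℕ} (Γ : Subgroup G) (Z : (Fin r → ℝ) → G) : Prop where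
  cont : Continuous Z
  add : ∀ s s', Z (s + s') = Z s * Z s'
  cen : ∀ s g, Z s * g = g * Z s
  int : ∀ k : Fin r → ℤ, Z (fun c => (k c : ℝ)) ∈ Γ

/-- The supremum over the `r`-tuples `P` of real polynomials of degree at most `t` with
`P'(0) = q'(n)` of `|∑_{h ≤ H} f(g(n + h) Z(P(h)) Γ) μ(n + h)|`. -/
def SupZ {Γ : Subgroup G} (f : G ⧸ Γ → ℂ) {r : ℕ} (Z : (Fin r → ℝ) → G) (t : ℕ) (g : ℤ → G)
    (q : Fin r → Polynomial ℝ) (H n : ℕ) : ℝ :=
  ⨆ P : {P : Fin r → Polynomial ℝ // ∀ c, (P c).natDegree ≤ t ∧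
      (P c).coeff 1 = (q c).derivative.eval (n : ℝ)},
    ‖∑ h ∈ Finset.Icc 1 H, f (QuotientGroup.mk (g (n + h) * Z fun c => (P.1 c).eval (h : ℝ))) *
      ((ArithmeticFunction.moebius (n + h) : ℤ) : ℂ)‖

end

namespace FF

open FM

/-- Products of small matrices. -/
theorem prod_small {m : ℕ} (a : ℕ → UT m) (D : ℕ → ℝ) (s : ℕ) : ∀ n : ℕ, s ≤ n →
    (∀ i, s ≤ i → i < n → nmU (a (i + 1) * (a i)⁻¹) ≤ D i) →
    1 + nmU (a n * (a s)⁻¹) ≤ Real.exp (∑ i ∈ Ico s n, D i) := by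
  intro n hn
  induction n, hn using Nat.le_induction with
  | base =>
    intro _
    rw [mul_inv_cancel, nmU_one, Ico_self, sum_empty, Real.exp_zero, add_zero]
  | succ n hn ih =>
    intro h
    have h1 := ih fun i h1 h2 => h i h1 (by omega)
    have h2 := h n hn (by omega)
    have h3 : a (n + 1) * (a s)⁻¹ = (a (n + 1) * (a n)⁻¹) * (a n * (a s)⁻¹) := by group
    rw [h3, sum_Ico_succ_top hn, Real.exp_add]
    have h4 := nmU_mul (a (n + 1) * (a n)⁻¹) (a n * (a s)⁻¹)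
    have h5 : 1 + D n ≤ Real.exp (D n) := by
      have := Real.add_one_le_exp (D n)
      linarith
    have h6 := nmU_nonneg (a n * (a s)⁻¹)
    have h7 := nmU_nonneg (a (n + 1) * (a n)⁻¹)
    have h8 : 1 + nmU (a (n + 1) * (a n)⁻¹) ≤ Real.exp (D n) := by linarith
    calc 1 + nmU ((a (n + 1) * (a n)⁻¹) * (a n * (a s)⁻¹))
        ≤ (1 + nmU (a (n + 1) * (a n)⁻¹)) * (1 + nmU (a n * (a s)⁻¹)) := by nlinarith
      _ ≤ Real.exp (D n) * Real.exp (∑ i ∈ Ico s n, D i) :=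
          mul_le_mul h8 h1 (by positivity) (Real.exp_pos _).le
      _ = _ := mul_comm _ _

theorem exp_small {u : ℝ} (h0 : 0 ≤ u) (h1 : u ≤ 1) : Real.exp u - 1 ≤ 2 * u := by
  have := Real.abs_exp_sub_one_le (x := u) (by rw [abs_of_nonneg h0]; exact h1)
  rw [abs_of_nonneg h0] at this
  exact (le_abs_self _).trans this

/-- A homomorphism of `ℝ ^ r` as an ordered product. -/
theorem hom_prod {r : ℕ} {V : Type*} [Group V] (φ : (Fin r → ℝ) → V)
    (ha : ∀ s s', φ (s + s') = φ s * φ s') (s : Fin r → ℝ) :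
    φ s = (List.ofFn fun i => φ (Pi.single i (s i))).prod := by
  have h0 : φ 0 = 1 := by
    have := ha 0 0
    rw [add_zero] at this
    exact (mul_eq_left (a := φ 0)).1 this.symm
  have h1 : ∀ l : List (Fin r), φ ((l.map fun i => Pi.single i (s i)).sum) =
      (l.map fun i => φ (Pi.single i (s i))).prod := by
    intro l
    induction l with
    | nil => rw [List.map_nil, List.map_nil, List.sum_nil, List.prod_nil, h0]
    | cons a l ih => rw [List.map_cons, List.map_cons, List.sum_cons, List.prod_cons, ha, ih]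
  rw [List.ofFn_eq_map, ← h1, ← Fin.sum_univ_def]
  congr 1
  exact (Finset.univ_sum_single s).symm

section

variable {m : ℕ} {G : Subgroup (Matrix.GeneralLinearGroup (Fin m) ℝ)} {r : ℕ} {Γ : Subgroup G}
  {Z : (Fin r → ℝ) → G}

theorem Z_zero (hZ : Central Γ Z) : Z 0 = 1 := by
  have := hZ.add 0 0
  rw [add_zero] at this
  exact (mul_eq_left (a := Z 0)).1 this.symm

theorem Z_small (hG : Unip G) (hZ : Central Γ Z) (ρ : ℝ) (hρ : 0 < ρ) :
    ∃ δ : ℝ, 0 < δ ∧ ∀ s : Fin r → ℝ, (∀ c, |s c| ≤ δ) → nmU (ofG hG (Z s)) ≤ ρ := by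
  have h1 : Continuous fun s => nmU (ofG hG (Z s)) :=
    (nmU_continuous m).comp ((ofG_cont hG).comp hZ.cont)
  have h2 := Metric.continuousAt_iff.1 (h1.continuousAt (x := 0)) ρ hρ
  obtain ⟨δ, hδ, h3⟩ := h2
  refine ⟨δ / 2, by positivity, fun s hs => ?_⟩
  have h4 : dist s 0 < δ := by
    rw [dist_pi_lt_iff hδ]
    intro c
    rw [Pi.zero_apply, Real.dist_eq, sub_zero]
    linarith [hs c]
  have h5 := h3 h4
  rw [Real.dist_eq, Z_zero hZ, ofG_one, nmU_one, sub_zero] at h5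
  exact ((le_abs_self _).trans_lt h5).le

theorem Z_pw (hG : Unip G) (hZ : Central Γ Z) (c : Fin r) (t : ℝ) :
    ofG hG (Z (Pi.single c t)) = pwU (ofG hG (Z (Pi.single c 1))) t := by
  refine oneparam _ (fun t => ofG hG (Z (Pi.single c t)))
    ((ofG_cont hG).comp (hZ.cont.comp ?_)) (fun s t => ?_) rfl t
  · have h : Continuous fun t : ℝ => (Pi.single c t : Fin r → ℝ) := by
      refine continuous_pi fun i => ?_
      by_cases hi : i = c
      · subst hi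
        simpa using continuous_id'
      · simpa [Pi.single_apply, hi] using continuous_const
    exact h
  · show ofG hG (Z (Pi.single c (s + t))) = _
    rw [Pi.single_add, hZ.add, ofG_mul]

theorem Z_tau (hG : Unip G) (hZ : Central Γ Z) (s : Fin r → ℝ) :
    ofG hG (Z s) = (List.ofFn fun c => pwU (ofG hG (Z (Pi.single c 1))) (s c)).prod := by
  rw [hom_prod (fun s => ofG hG (Z s)) (fun s s' => by rw [hZ.add, ofG_mul]) s]
  congr 2
  funext c
  exact Z_pw hG hZ c (s c)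

theorem comm_Z (hG : Unip G) (hZ : Central Γ Z) (c : Fin r) (s : ℝ) (x : UT m)
    (hx : toGL m x ∈ G) : pwU (ofG hG (Z (Pi.single c 1))) s * x =
      x * pwU (ofG hG (Z (Pi.single c 1))) s := by
  have h1 : x = ofG hG ⟨toGL m x, hx⟩ := ut_ext rfl
  rw [← Z_pw hG hZ, h1, ← ofG_mul, ← ofG_mul, hZ.cen]

theorem size_eq (hG : Unip G) (g : G) : (∑ i, ∑ j,
    |((g : Matrix.GeneralLinearGroup (Fin m) ℝ) : Matrix (Fin m) (Fin m) ℝ) i j -
      (1 : Matrix (Fin m) (Fin m) ℝ) i j|) = nmU (ofG hG g) := rfl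

theorem vr_nonneg (n : ℕ) (g g' : ℤ → G) (q q' : Fin r → ℝ[X]) : 0 ≤ vr n g g' q q' :=
  Real.iSup_nonneg fun k => by positivity

theorem le_vr (hG : Unip G) (n : ℕ) (g g' : ℤ → G) (q q' : Fin r → ℝ[X]) (k : ℕ)
    (hk : k ≤ 4 * n) :
    nmU (ofG hG (g' k) * (ofG hG (g k))⁻¹) ≤ vr n g g' q q' ∧
    ∀ c, |(q' c).derivative.eval (k : ℝ) - (q c).derivative.eval (k : ℝ)| ≤ vr n g g' q q' := by
  have h1 := le_ciSup (f := fun k : Fin (4 * n + 1) => (∑ i, ∑ j,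
    |((g' (k : ℕ) * (g (k : ℕ))⁻¹ : Matrix.GeneralLinearGroup (Fin m) ℝ) :
      Matrix (Fin m) (Fin m) ℝ) i j - (1 : Matrix (Fin m) (Fin m) ℝ) i j| +
    ∑ c, |(q' c).derivative.eval ((k : ℕ) : ℝ) - (q c).derivative.eval ((k : ℕ) : ℝ)|))
    (Set.finite_range _).bddAbove ⟨k, by omega⟩
  have h2 : nmU (ofG hG (g' k) * (ofG hG (g k))⁻¹) +
      ∑ c, |(q' c).derivative.eval (k : ℝ) - (q c).derivative.eval (k : ℝ)| ≤
      vr n g g' q q' := by
    rw [← ofG_inv, ← ofG_mul]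
    exact h1
  have h3 := nmU_nonneg (ofG hG (g' k) * (ofG hG (g k))⁻¹)
  refine ⟨le_trans (le_add_of_nonneg_right (sum_nonneg fun _ _ => abs_nonneg _)) h2, fun c => ?_⟩
  have h4 := single_le_sum (f := fun c => |(q' c).derivative.eval (k : ℝ) -
    (q c).derivative.eval (k : ℝ)|) (fun _ _ => abs_nonneg _) (mem_univ c)
  linarith

/-- Closeness along the stretches. -/
theorem close (hG : Unip G) (g : ℕ → ℤ → G) (q : ℕ → Fin r → ℝ[X]) (s n : ℕ) (u : ℝ) (hu : u < 1)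
    (hsn : s ≤ n)
    (h : ∑ i ∈ Ico s n, min 1 (vr i (g i) (g (i + 1)) (q i) (q (i + 1))) ≤ u) (k : ℕ)
    (hk : k ≤ 4 * s) :
    nmU (ofG hG (g n k) * (ofG hG (g s k))⁻¹) ≤ 2 * u ∧
    ∀ c, |(q n c).derivative.eval (k : ℝ) - (q s c).derivative.eval (k : ℝ)| ≤ u := by
  have hnn : ∀ i, 0 ≤ min 1 (vr i (g i) (g (i + 1)) (q i) (q (i + 1))) := fun i =>
    le_min zero_le_one (vr_nonneg _ _ _ _ _)
  have hu0 : 0 ≤ u := le_trans (sum_nonneg fun i _ => hnn i) h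
  have hD : ∀ i, s ≤ i → i < n → vr i (g i) (g (i + 1)) (q i) (q (i + 1)) ≤
      min 1 (vr i (g i) (g (i + 1)) (q i) (q (i + 1))) := by
    intro i h1 h2
    have h3 := single_le_sum (f := fun i => min 1 (vr i (g i) (g (i + 1)) (q i) (q (i + 1))))
      (fun i _ => hnn i) (mem_Ico.2 ⟨h1, h2⟩)
    have h4 : min 1 (vr i (g i) (g (i + 1)) (q i) (q (i + 1))) < 1 := by linarith
    rcases min_lt_iff.1 h4 with h5 | h5
    · exact absurd h5 (lt_irrefl _)
    · rw [min_eq_right h5.le]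
  constructor
  · have h1 := prod_small (fun i => ofG hG (g i k)) (fun i => min 1 (vr i (g i) (g (i + 1)) (q i)
      (q (i + 1)))) s n hsn fun i h2 h3 =>
        ((le_vr hG i (g i) (g (i + 1)) (q i) (q (i + 1)) k (by omega)).1).trans (hD i h2 h3)
    have h2 : Real.exp (∑ i ∈ Ico s n, min 1 (vr i (g i) (g (i + 1)) (q i) (q (i + 1)))) ≤
        Real.exp u := Real.exp_le_exp.2 h
    have h3 := exp_small hu0 hu.le
    linarith
  · intro c
    have key : ∀ n', s ≤ n' → n' ≤ n → |(q n' c).derivative.eval (k : ℝ) -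
        (q s c).derivative.eval (k : ℝ)| ≤
        ∑ i ∈ Ico s n', min 1 (vr i (g i) (g (i + 1)) (q i) (q (i + 1))) := by
      intro n' hn'
      induction n', hn' using Nat.le_induction with
      | base => intro _; simp
      | succ n' hn' ih =>
        intro h1
        have h2 := ih (by omega)
        have h3 := ((le_vr hG n' (g n') (g (n' + 1)) (q n') (q (n' + 1)) k (by omega)).2 c).trans
          (hD n' hn' (by omega))
        rw [sum_Ico_succ_top hn']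
        have h4 := abs_sub_le ((q (n' + 1) c).derivative.eval (k : ℝ))
          ((q n' c).derivative.eval (k : ℝ)) ((q s c).derivative.eval (k : ℝ))
        linarith
    exact (key n hsn le_rfl).trans h

/-- The value of the function at a product, for two close data. -/
theorem val_close (hG : Unip G) (hZ : Central Γ Z) (f : G ⧸ Γ → ℂ) (ρ₁ ε₁ : ℝ)
    (hρ : 0 ≤ ρ₁) (hρ1 : ρ₁ ≤ 1)
    (huc : ∀ k x : UT m, toGL m k ∈ G → toGL m x ∈ G → nmU k ≤ 3 * ρ₁ →
      ‖Fu Γ f (k * x) - Fu Γ f x‖ ≤ ε₁) (g g' : G) (s s' : Fin r → ℝ)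
    (h1 : nmU (ofG hG g * (ofG hG g')⁻¹) ≤ ρ₁) (h2 : nmU (ofG hG (Z (s - s'))) ≤ ρ₁) :
    ‖f (QuotientGroup.mk (g * Z s)) - Fu Γ f (ofG hG (Z s') * ofG hG g')‖ ≤ ε₁ := by
  have e1 : Z s = Z (s - s') * Z s' := by rw [← hZ.add, sub_add_cancel]
  have e2 : ofG hG (g * Z s) = (ofG hG g * (ofG hG g')⁻¹ * ofG hG (Z (s - s'))) *
      (ofG hG (Z s') * ofG hG g') := by
    rw [← ofG_inv, ← ofG_mul, ← ofG_mul, ← ofG_mul, ← ofG_mul]
    congr 1
    rw [e1, hZ.cen s' g']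
    have h3 := hZ.cen (s - s') g'
    calc g * (Z (s - s') * Z s') = g * g'⁻¹ * (g' * Z (s - s')) * Z s' := by group
      _ = g * g'⁻¹ * (Z (s - s') * g') * Z s' := by rw [h3]
      _ = g * g'⁻¹ * Z (s - s') * (g' * Z s') := by group
  rw [← Fu_ofG hG Γ f (g * Z s), e2]
  refine huc _ _ ?_ ?_ ?_
  · rw [← ofG_inv, ← ofG_mul, ← ofG_mul, toGL_ofG]
    exact SetLike.coe_mem _
  · rw [← ofG_mul, toGL_ofG]
    exact SetLike.coe_mem _
  · have h4 := nmU_mul (ofG hG g * (ofG hG g')⁻¹) (ofG hG (Z (s - s')))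
    have h5 := nmU_nonneg (ofG hG g * (ofG hG g')⁻¹)
    have h6 := nmU_nonneg (ofG hG (Z (s - s')))
    have h7 : nmU (ofG hG g * (ofG hG g')⁻¹) * nmU (ofG hG (Z (s - s'))) ≤ ρ₁ * 1 :=
      mul_le_mul h1 (h2.trans hρ1) h6 hρ
    linarith

theorem wd_poly (hG : Unip G) {D D' : ℕ} (hD : D ≤ D') (hD1 : 1 ≤ D') (g : ℤ → G)
    (hg : Poly D g) : Wd D' 0 fun k => nilp (ofG hG (g k)) := by
  intro a b
  have hval : ∀ k, nilp (ofG hG (g k)) a b =
      ((g k : Matrix.GeneralLinearGroup (Fin m) ℝ) : Matrix (Fin m) (Fin m) ℝ) a b -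
        (1 : Matrix (Fin m) (Fin m) ℝ) a b := fun k => rfl
  refine ⟨fun h k => ?_, fun h => ?_⟩
  · exact nilp_mem (ofG hG (g k)) a b (by omega)
  · by_cases hab : (a : ℕ) = b
    · have hab' : a = b := Fin.ext hab
      subst hab'
      have : (fun k => nilp (ofG hG (g k)) a a) = fun _ => 0 := by
        funext k
        exact nilp_mem (ofG hG (g k)) a a (by omega)
      rw [this]
      exact dg_zero _
    · obtain ⟨p, hp, h1⟩ := hg a b
      have hne : a ≠ b := fun h => hab (by rw [h])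
      refine ⟨p, ?_, fun k => ?_⟩
      · rw [Polynomial.mem_degreeLT]
        refine lt_of_le_of_lt Polynomial.degree_le_natDegree ?_
        have h2 : D' * 1 ≤ D' * (b - a) := Nat.mul_le_mul_left _ (by omega)
        have h3 : p.natDegree < D' * (b - a) + 1 - 0 := by omega
        exact_mod_cast h3
      · show nilp (ofG hG (g k)) a b = _
        rw [hval, Matrix.one_apply_ne hne, sub_zero, h1]

end

/-- Nearly optimal choices for a supremum. -/
theorem near_sup {ι : Type} [Nonempty ι] (v : ι → ℝ) (e : ℝ) (he : 0 < e) :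
    ∃ i, (⨆ j, v j) ≤ v i + e := by
  by_cases hb : BddAbove (Set.range v)
  · obtain ⟨i, hi⟩ := exists_lt_of_lt_ciSup (show (⨆ j, v j) - e < ⨆ j, v j by linarith)
    exact ⟨i, by linarith⟩
  · have : (⨆ j, v j) = 0 := Real.iSup_of_not_bddAbove hb
    rw [this]
    by_contra hcon
    push Not at hcon
    apply hb
    refine ⟨0, ?_⟩
    rintro _ ⟨i, rfl⟩
    have := hcon i
    linarith

end FF

open FM FF

theorem cl'_zero (D : ℕ) (hD : 1 ≤ D) : cl' D 0 = 0 :=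
  Nat.le_zero.1 ((cl'_le hD 0 0).2 (Nat.zero_le _))

theorem cl'_top (D m : ℕ) (hD : 1 ≤ D) : cl' D (D * m + 1) = m + 1 := by
  apply le_antisymm
  · rw [cl'_le hD, Nat.mul_add]
    omega
  · by_contra h
    have h1 : cl' D (D * m + 1) ≤ m := by omega
    rw [cl'_le hD] at h1
    omega

/-- **Theorem NVG2 for groups of unitriangular matrices** (from 95's `nvz`). -/
theorem final (hz : NVZ) {m : ℕ} {G : Subgroup (Matrix.GeneralLinearGroup (Fin m) ℝ)}
    (hG : Unip G) {Γ : Subgroup G}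
    (hΓ : ∀ γ ∈ Γ, ∀ i j, ∃ k : ℤ, ((γ : Matrix.GeneralLinearGroup (Fin m) ℝ) :
      Matrix (Fin m) (Fin m) ℝ) i j = k) [CompactSpace (G ⧸ Γ)] {r : ℕ} {Z : (Fin r → ℝ) → G}
    (hZ : Central Γ Z) (f : G ⧸ Γ → ℂ) (hf : Continuous f) (D t : ℕ) (ht : 1 ≤ t) (A ε : ℝ)
    (hε : 0 < ε) :
    ∃ (B : ℝ) (H₀ : ℕ), ∀ H : ℕ, H₀ ≤ H → ∀ x y : ℝ, (H : ℝ) ^ B ≤ x → x * H ≤ y →
    ∀ (g : ℕ → ℤ → G) (q : ℕ → Fin r → ℝ[X]), (∀ n, Poly D (g n)) →
    (∀ n c, (q n c).natDegree ≤ D) →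
    (∀ j : ℕ, ∑ n ∈ Ico (2 ^ j) (2 ^ (j + 1)), min 1 (vr n (g n) (g (n + 1)) (q n) (q (n + 1))) ≤
      (H : ℝ) ^ A) →
    ∑ n ∈ Ioc ⌊x⌋₊ ⌊y⌋₊, (1 / (n : ℝ)) * SupZ f Z t (g n) (q n) H n ≤
      ε * H * Real.log (y / x) := by
  obtain ⟨D', hD'⟩ : ∃ D' : ℕ, D' = max D 1 := ⟨_, rfl⟩
  have hDD : D ≤ D' := by omega
  have hD1 : 1 ≤ D' := by omega
  have hR := rat_Gr hG Γ hΓ
  obtain ⟨f1, f2, f3⟩ := fut ker_row m (La' Γ) (La'_le hΓ) (Gr (La' Γ) (La'_le hΓ) G) hR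
  have hF : Filt (fun i => Gr (La' Γ) (La'_le hΓ) G ⊓ lvS m (La' Γ) (La'_le hΓ) (cl' D' i))
      (D' * m) := filt_stretch f1 hD1
  have hG0 : Gr (La' Γ) (La'_le hΓ) G ⊓ lvS m (La' Γ) (La'_le hΓ) (cl' D' 0) =
      Gr (La' Γ) (La'_le hΓ) G := by rw [cl'_zero D' hD1]; exact f2
  have hGd : Gr (La' Γ) (La'_le hΓ) G ⊓ lvS m (La' Γ) (La'_le hΓ) (cl' D' (D' * m + 1)) = ⊥ := by
    rw [cl'_top D' m hD1]; exact f3
  have hFn0 := fn_Fu hG Γ hΓ f hf
  have hFn : Fn (Gr (La' Γ) (La'_le hΓ) G ⊓ lvS m (La' Γ) (La'_le hΓ) (cl' D' 0))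
      (Gr (La' Γ) (La'_le hΓ) G ⊓ lvS m (La' Γ) (La'_le hΓ) (cl' D' (D' * m + 1)))
      (fun x : UTG m (La' Γ) (La'_le hΓ) => Fu Γ f x) := by
    rw [hG0, hGd]
    exact hFn0
  obtain ⟨ρ, hρ, huc0⟩ := hFn0.uc (ε / 8) (by positivity)
  obtain ⟨ρ₁, hρ₁⟩ : ∃ ρ₁ : ℝ, ρ₁ = min 1 (ρ / 3) := ⟨_, rfl⟩
  have hρ₁0 : 0 < ρ₁ := by rw [hρ₁]; positivity
  have hρ₁1 : ρ₁ ≤ 1 := by rw [hρ₁]; exact min_le_left _ _
  have hρ₁3 : 3 * ρ₁ ≤ ρ := by
    have : ρ₁ ≤ ρ / 3 := by rw [hρ₁]; exact min_le_right _ _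
    linarith
  have huc : ∀ k x : UT m, toGL m k ∈ G → toGL m x ∈ G → nmU k ≤ 3 * ρ₁ →
      ‖Fu Γ f (k * x) - Fu Γ f x‖ ≤ ε / 8 := fun k x hk hx hn =>
    huc0 k hk (hn.trans hρ₁3) x hx
  obtain ⟨δ, hδ, hZs⟩ := Z_small hG hZ ρ₁ hρ₁0
  obtain ⟨ε', hε'⟩ : ∃ ε' : ℝ, ε' = min 1 (min (ρ₁ / 2) δ) := ⟨_, rfl⟩
  have hε'0 : 0 < ε' := by rw [hε']; positivity
  have hε'1 : ε' ≤ 1 := by rw [hε']; exact min_le_left _ _
  have hε'2 : 2 * ε' ≤ ρ₁ := by
    have : ε' ≤ ρ₁ / 2 := by rw [hε']; exact (min_le_right _ _).trans (min_le_left _ _)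
    linarith
  have hε'3 : ε' ≤ δ := by rw [hε']; exact (min_le_right _ _).trans (min_le_right _ _)
  obtain ⟨H₁, hH₁⟩ := BVx.check (max A 0) ε' (le_max_right _ _) hε'0 hε'1
  obtain ⟨B, H₀, hB, hmain⟩ := hz (UTG m (La' Γ) (La'_le hΓ))
    (fun i => Gr (La' Γ) (La'_le hΓ) G ⊓ lvS m (La' Γ) (La'_le hΓ) (cl' D' i)) (D' * m) hF
    (fun x : UTG m (La' Γ) (La'_le hΓ) => Fu Γ f x) hFn r t D ht
    (fun c => (ofG hG (Z (Pi.single c 1)) : UT m))
    (fun c => by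
      refine ⟨Z (Pi.single c 1), ?_, (toGL_ofG hG _).symm⟩
      have h1 := hZ.int (Pi.single c 1)
      have h2 : (fun c' => (((Pi.single c 1 : Fin r → ℤ) c' : ℤ) : ℝ)) =
          (Pi.single c 1 : Fin r → ℝ) := by
        funext c'
        by_cases h : c' = c
        · subst h; simp
        · simp [h]
      rw [h2] at h1
      exact h1)
    (fun c => by
      refine ⟨?_, ?_⟩
      · show toGL m (ofG hG _) ∈ G
        rw [toGL_ofG]
        exact SetLike.coe_mem _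
      · show nilp (ofG hG _) ∈ Lv m (max (cl' D' D) 1)
        have h1 : cl' D' D ≤ 1 := (cl'_le hD1 _ _).2 (by omega)
        rw [max_eq_right h1]
        exact nilp_mem _)
    (fun c s x hx => by
      exact comm_Z hG hZ c s x hx.1)
    (max A 0 + 2) (ε / 4) (by positivity) (by positivity)
  refine ⟨max B 1, max H₀ H₁, ?_⟩
  intro H hH x y hx hxy g q hg hq hvar
  obtain ⟨hH3N, hchk⟩ := hH₁ H ((le_max_right _ _).trans hH)
  have hH3 : (3 : ℝ) ≤ H := by exact_mod_cast hH3N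
  have hH0 : (0 : ℝ) < H := by linarith
  have hH1 : (1 : ℝ) ≤ H := by linarith
  obtain ⟨σ, hσ1, hσ2⟩ := hchk
    (fun n => min 1 (vr n (g n) (g (n + 1)) (q n) (q (n + 1))))
    (fun n => le_min zero_le_one (vr_nonneg _ _ _ _ _))
    (fun j => (hvar j).trans (Real.rpow_le_rpow_of_exponent_le hH1 (le_max_left _ _)))
  have hxH : (H : ℝ) ≤ x := by
    refine le_trans ?_ hx
    calc (H : ℝ) = (H : ℝ) ^ (1 : ℝ) := (Real.rpow_one _).symm
      _ ≤ _ := Real.rpow_le_rpow_of_exponent_le hH1 (le_max_right _ _)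
  have hx0 : 0 < x := by linarith
  have hxab : x ≤ y := by
    refine le_trans ?_ hxy
    nlinarith
  have hy0 : 0 < y := by linarith
  have hΛ : 1 ≤ Real.log y - Real.log x := by
    have h1 := Real.log_le_log (by positivity) hxy
    rw [Real.log_mul hx0.ne' hH0.ne'] at h1
    have h2 : 1 ≤ Real.log H := by
      rw [Real.le_log_iff_exp_le hH0]
      have := Real.exp_one_lt_d9
      linarith
    linarith
  have hsum := SUPx.sum_inv_le x y (by linarith) hxab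
  -- nearly optimal polynomials
  have hnear : ∀ n : ℕ, ∃ P : {P : Fin r → Polynomial ℝ // ∀ c, (P c).natDegree ≤ t ∧
      (P c).coeff 1 = (q n c).derivative.eval (n : ℝ)}, SupZ f Z t (g n) (q n) H n ≤
      ‖∑ h ∈ Finset.Icc 1 H, f (QuotientGroup.mk (g n (n + h) *
        Z fun c => (P.1 c).eval (h : ℝ))) * ((ArithmeticFunction.moebius (n + h) : ℤ) : ℂ)‖ +
        H * (ε / 8) := by
    intro n
    have hne : Nonempty {P : Fin r → Polynomial ℝ // ∀ c, (P c).natDegree ≤ t ∧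
        (P c).coeff 1 = (q n c).derivative.eval (n : ℝ)} :=
      ⟨⟨fun c => C ((q n c).derivative.eval (n : ℝ)) * X, fun c =>
        ⟨(natDegree_C_mul_le _ _).trans (natDegree_X_le.trans ht), by simp⟩⟩⟩
    exact near_sup _ _ (by positivity)
  choose P hP using hnear
  obtain ⟨lam, hlam⟩ : ∃ lam : ℕ → Fin r → ℝ, lam = fun n c =>
    (q (σ n) c).derivative.eval (n : ℝ) - (q n c).derivative.eval (n : ℝ) := ⟨_, rfl⟩
  obtain ⟨P', hP'⟩ : ∃ P' : ℕ → Fin r → ℝ[X], P' = fun n c =>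
    ((P n).1 c + C (lam n c) * X).comp (X - C (n : ℝ)) := ⟨_, rfl⟩
  have hP'e : ∀ n h : ℕ, ∀ c, (P' n c).eval ((n + h : ℕ) : ℝ) =
      ((P n).1 c).eval (h : ℝ) + lam n c * h := by
    intro n h c
    rw [hP']
    simp only [eval_comp, eval_sub, eval_X, eval_C, eval_add, eval_mul]
    push_cast
    rw [add_sub_cancel_left]
  have h2 := hmain H ((le_max_left _ _).trans hH) x y
    ((Real.rpow_le_rpow_of_exponent_le hH1 (le_max_left _ _)).trans hx) hxy
    (fun n k => (ofG hG (g (σ n) k) : UT m)) (fun n => q (σ n))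
    (fun n => ps_of_wd hD1 (La' Γ) (La'_le hΓ) (Gr (La' Γ) (La'_le hΓ) G)
      (fun k => (ofG hG (g (σ n) k) : UT m)) (wd_poly hG hDD hD1 (g (σ n)) (hg _)) (fun k => by
        show toGL m (ofG hG _) ∈ G
        rw [toGL_ofG]
        exact SetLike.coe_mem _))
    (fun n c => hq _ c)
    (fun j => by
      classical
      refine le_trans ?_ (hσ1 j)
      have h0 : {n : ℕ | 2 ^ j ≤ n ∧ n < 2 ^ (j + 1) ∧ σ (n + 1) ≠ σ n} =
          ((Ico (2 ^ j) (2 ^ (j + 1))).filter fun n => σ (n + 1) ≠ σ n : Finset ℕ) := by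
        ext n
        simp [and_assoc]
      rw [h0, Set.ncard_coe_finset]
      norm_cast
      refine card_le_card fun n hn => ?_
      rw [mem_filter] at hn ⊢
      exact ⟨hn.1, fun h => hn.2 (congrArg (fun i => ((fun k => (ofG hG (g i k) : UT m)), q i)) h)⟩)
    P'
    (fun n c => by
      rw [hP']
      refine (natDegree_comp_le).trans ?_
      rw [natDegree_X_sub_C, mul_one]
      refine (natDegree_add_le _ _).trans (max_le ((P n).2 c).1 ?_)
      exact (natDegree_C_mul_le _ _).trans (natDegree_X_le.trans ht))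
    (fun n c => by
      rw [hP']
      have h3 : (derivative ((P n).1 c + C (lam n c) * X)).eval 0 =
          (q (σ n) c).derivative.eval (n : ℝ) := by
        rw [← coeff_zero_eq_eval_zero, coeff_derivative]
        simp only [zero_add, coeff_add, coeff_C_mul, coeff_X_one, Nat.cast_zero, mul_one]
        rw [((P n).2 c).2, hlam]
        ring
      rw [derivative_comp, eval_mul, eval_comp]
      simp only [derivative_sub, derivative_X, derivative_C, sub_zero, eval_one, eval_sub, eval_X,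
        eval_C, sub_self, one_mul]
      exact h3)
  have hwin : ∀ n ∈ Ioc ⌊x⌋₊ ⌊y⌋₊, SupZ f Z t (g n) (q n) H n ≤
      H * Wg H n (fun k : ℕ => Fu Γ f ((List.ofFn fun c =>
        pwU (ofG hG (Z (Pi.single c 1))) ((P' n c).eval (k : ℝ))).prod *
          ofG hG (g (σ n) (k : ℤ)))) + H * (ε / 4) := by
    intro n hn
    rw [mem_Ioc] at hn
    have hnx : x < n := (Nat.floor_lt hx0.le).1 hn.1
    have hHn : H ≤ n := by
      have : (H : ℝ) ≤ n := by linarith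
      exact_mod_cast this
    have hn3 : 3 ≤ n := hH3N.trans hHn
    obtain ⟨h3, h4, h5⟩ := hσ2 n hn3
    have hu1 : ε' / H < 1 := by
      rw [div_lt_one hH0]
      linarith
    have huε : ε' / H ≤ ε' := div_le_self hε'0.le hH1
    have hlamb : ∀ c, |lam n c| ≤ ε' / H := by
      intro c
      have h6 := (close hG g q (σ n) n (ε' / H) hu1 h4 h5 n (by omega)).2 c
      rw [hlam, abs_sub_comm]
      exact h6
    have hterm : ∀ h ∈ Icc 1 H, ‖f (QuotientGroup.mk (g n (n + h) *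
        Z fun c => ((P n).1 c).eval (h : ℝ))) * ((ArithmeticFunction.moebius (n + h) : ℤ) : ℂ) -
        muC (n + h) * Fu Γ f ((List.ofFn fun c => pwU (ofG hG (Z (Pi.single c 1)))
          ((P' n c).eval ((n + h : ℕ) : ℝ))).prod * ofG hG (g (σ n) ((n + h : ℕ) : ℤ)))‖ ≤
        ε / 8 := by
      intro h hh
      rw [mem_Icc] at hh
      have hk4 : n + h ≤ 4 * σ n := by omega
      have h6 := (close hG g q (σ n) n (ε' / H) hu1 h4 h5 (n + h) hk4).1
      rw [← Z_tau hG hZ]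
      have h7 := val_close hG hZ f ρ₁ (ε / 8) hρ₁0.le hρ₁1 huc (g n ((n + h : ℕ) : ℤ))
        (g (σ n) ((n + h : ℕ) : ℤ)) (fun c => ((P n).1 c).eval (h : ℝ))
        (fun c => (P' n c).eval ((n + h : ℕ) : ℝ)) (h6.trans (by linarith)) (hZs _ fun c => by
          rw [Pi.sub_apply, hP'e]
          have h8 : ((P n).1 c).eval (h : ℝ) - (((P n).1 c).eval (h : ℝ) + lam n c * h) =
              -(lam n c * h) := by ring
          rw [h8, abs_neg, abs_mul, Nat.abs_cast]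
          have h9 : (h : ℝ) ≤ H := by exact_mod_cast hh.2
          calc |lam n c| * (h : ℝ) ≤ ε' / H * H :=
                mul_le_mul (hlamb c) h9 (Nat.cast_nonneg _) (by positivity)
            _ = ε' := div_mul_cancel₀ _ hH0.ne'
            _ ≤ δ := hε'3)
      rw [mul_comm (muC (n + h))]
      have h10 : ((ArithmeticFunction.moebius (n + h) : ℤ) : ℂ) = muC (n + h) := rfl
      rw [h10, ← sub_mul, norm_mul]
      have h11 : g n ((n : ℤ) + (h : ℤ)) = g n ((n + h : ℕ) : ℤ) := by rw [Nat.cast_add]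
      rw [h11]
      calc _ ≤ ε / 8 * 1 := mul_le_mul h7 (norm_muC _) (norm_nonneg _) (by positivity)
        _ = ε / 8 := mul_one _
    refine (hP n).trans ?_
    have h12 : (H : ℝ) * Wg H n (fun k : ℕ => Fu Γ f ((List.ofFn fun c =>
        pwU (ofG hG (Z (Pi.single c 1))) ((P' n c).eval (k : ℝ))).prod *
          ofG hG (g (σ n) (k : ℤ)))) = ‖∑ h ∈ Icc 1 H, muC (n + h) * Fu Γ f ((List.ofFn fun c =>
        pwU (ofG hG (Z (Pi.single c 1))) ((P' n c).eval ((n + h : ℕ) : ℝ))).prod *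
          ofG hG (g (σ n) ((n + h : ℕ) : ℤ)))‖ := by
      unfold Wg
      rw [mul_div_cancel₀ _ hH0.ne']
    rw [h12]
    have h13 := (norm_sub_norm_le (∑ h ∈ Finset.Icc 1 H, f (QuotientGroup.mk (g n (n + h) *
        Z fun c => ((P n).1 c).eval (h : ℝ))) * ((ArithmeticFunction.moebius (n + h) : ℤ) : ℂ))
      (∑ h ∈ Icc 1 H, muC (n + h) * Fu Γ f ((List.ofFn fun c =>
        pwU (ofG hG (Z (Pi.single c 1))) ((P' n c).eval ((n + h : ℕ) : ℝ))).prod *
          ofG hG (g (σ n) ((n + h : ℕ) : ℤ)))))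
    rw [← sum_sub_distrib] at h13
    have h14 := (norm_sum_le _ _).trans (sum_le_sum hterm)
    rw [sum_const, Nat.card_Icc, nsmul_eq_mul] at h14
    have h15 : ((H + 1 - 1 : ℕ) : ℝ) = H := by rw [Nat.add_sub_cancel]
    rw [h15] at h14
    linarith
  rw [Real.log_div hy0.ne' hx0.ne']
  calc ∑ n ∈ Ioc ⌊x⌋₊ ⌊y⌋₊, (1 / (n : ℝ)) * SupZ f Z t (g n) (q n) H n
      ≤ ∑ n ∈ Ioc ⌊x⌋₊ ⌊y⌋₊, (1 / (n : ℝ)) * (H * Wg H n (fun k : ℕ => Fu Γ f ((List.ofFn fun c =>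
        pwU (ofG hG (Z (Pi.single c 1))) ((P' n c).eval (k : ℝ))).prod *
          ofG hG (g (σ n) (k : ℤ)))) + H * (ε / 4)) :=
        sum_le_sum fun n hn => mul_le_mul_of_nonneg_left (hwin n hn) (by positivity)
    _ = H * ∑ n ∈ Ioc ⌊x⌋₊ ⌊y⌋₊, (1 / (n : ℝ)) * Wg H n (fun k : ℕ => Fu Γ f ((List.ofFn fun c =>
        pwU (ofG hG (Z (Pi.single c 1))) ((P' n c).eval (k : ℝ))).prod *
          ofG hG (g (σ n) (k : ℤ)))) +
        (∑ n ∈ Ioc ⌊x⌋₊ ⌊y⌋₊, (1 / (n : ℝ))) * (H * (ε / 4)) := by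
        rw [sum_mul, mul_sum, ← sum_add_distrib]
        exact sum_congr rfl fun _ _ => by ring
    _ ≤ H * (ε / 4 * (Real.log y - Real.log x)) +
        (Real.log y - Real.log x + 1) * (H * (ε / 4)) :=
        add_le_add (mul_le_mul_of_nonneg_left h2 hH0.le)
          (mul_le_mul_of_nonneg_right hsum (by positivity))
    _ ≤ ε * H * (Real.log y - Real.log x) := by
        have h3 : 0 ≤ H * (ε / 4) := by positivity
        nlinarith

end

end Pool.Agent.NG
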