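import Pool.Agent.Lib.NG.FCFin

/-!
# Row FULLC (MP_663568_nt, NVG2): families of functions with the local structure

`f (m + q h) ≈ e(v(m, h)) f m` on one class modulo `q`, for `h` small against `H / q`.  (helper95)
-/

set_option autoImplicit false
open Finset MeasureTheory Polynomial

namespace Pool.Agent.NG

open Pool.Agent.Lib.MP_663568_nt Pool.Agent.Lib.MP_663568_nt.Katai
  Pool.Agent.Lib.MP_663568_nt.Nul Pool.Agent.SV Pool.Agent.VQ Pool.Agent.NV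

noncomputable section

/-- **Row FULLC.** -/
def FULLC_stmt : Prop := ∀ (d q : ℕ) (ηf : ℝ → ℝ) (A A₁ ε : ℝ), 1 ≤ d → 1 ≤ q →
  (∀ ρ, 0 < ρ → 0 < ηf ρ) → 0 ≤ A → 0 ≤ A₁ → 0 < ε → ∃ (B : ℝ) (H₀ : ℕ), 0 ≤ B ∧
  ∀ H : ℕ, H₀ ≤ H → ∀ xa xb : ℝ, (H : ℝ) ^ B ≤ xa → xa * H ≤ xb → ∀ X : ℕ → FD,
  SlowA X ((H : ℝ) ^ A) → (∀ n m, ‖(X n).1 m‖ ≤ 1) →
  (∀ n ∈ Ioc ⌊xa⌋₊ ⌊xb⌋₊, LS q d ηf H ((n : ℝ) / (H : ℝ) ^ A₁) n (X n)) →
  ∑ n ∈ Ioc ⌊xa⌋₊ ⌊xb⌋₊, (1 / (n : ℝ)) * Wg H n (X n).1 ≤ ε * (Real.log xb - Real.log xa)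

namespace FCx

/-- The zero data. -/
def x0 : FD := (fun _ => 0, fun _ _ => 0)

theorem LS_zero (q d : ℕ) (ηf : ℝ → ℝ) (l R n : ℝ) : LS q d ηf l R n x0 := by
  refine ⟨0, fun m _ _ => ⟨fun _ => rfl, fun _ ρ hρ h _ => ?_⟩⟩
  simp only [x0, mul_zero, sub_zero, norm_zero]
  exact hρ.le

/-- The bounded evaluation. -/
def evB (x : FD) (m : ℕ) : ℂ := by
  classical
  exact if ‖x.1 m‖ ≤ 1 then x.1 m else 0

theorem evB_le (x : FD) (m : ℕ) : ‖evB x m‖ ≤ 1 := by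
  unfold evB
  split_ifs with h
  · exact h
  · simp

theorem evB_eq {x : FD} (h : ∀ m, ‖x.1 m‖ ≤ 1) : evB x = x.1 := by
  funext m
  unfold evB
  rw [if_pos (h m)]

/-- The dilation. -/
def dlB (p : ℕ) (x : FD) : FD := (fun m => x.1 (p * m), fun i j => (p : ℝ) ^ (i + j) * x.2 i j)

theorem evB_dl (p : ℕ) (x : FD) (m : ℕ) : evB (dlB p x) m = evB x (p * m) := rfl

theorem vev_dl (d p : ℕ) (v : ℕ → ℕ → ℝ) (m h : ℝ) :
    vev d (fun i j => (p : ℝ) ^ (i + j) * v i j) m h = vev d v (p * m) (p * h) := by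
  unfold vev
  refine sum_congr rfl fun i _ => sum_congr rfl fun j _ => ?_
  simp only
  rw [pow_add, mul_pow, mul_pow]
  ring

/-- The structure of the dilated function. -/
theorem LS_dl {q d p l H m : ℕ} {ηf : ℝ → ℝ} {A₁ A₂ : ℝ} {x : FD} (hp : 1 ≤ p)
    (hpq : Nat.Coprime p q) (hq : 1 ≤ q) (hpl : (p : ℝ) * l ≤ H) (hηf : ∀ ρ, 0 < ρ → 0 < ηf ρ)
    (hHl : 0 < (H : ℝ) ^ A₁) (hA : (H : ℝ) ^ A₁ ≤ (l : ℝ) ^ A₂)
    (h : LS q d ηf H (((p * m : ℕ) : ℝ) / (H : ℝ) ^ A₁) ((p * m : ℕ) : ℝ) x) :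
    LS q d ηf l ((m : ℝ) / (l : ℝ) ^ A₂) m (dlB p x) := by
  obtain ⟨a, ha⟩ := h
  have hp0 : (0 : ℝ) < p := by exact_mod_cast hp
  -- the class
  obtain ⟨a', ha'⟩ : ∃ a' : ℕ, p * a' ≡ a [MOD q] := by
    have : NeZero q := ⟨by omega⟩
    refine ⟨(((ZMod.unitOfCoprime p hpq)⁻¹ : (ZMod q)ˣ) * (a : ZMod q)).val, ?_⟩
    rw [← ZMod.natCast_eq_natCast_iff]
    push_cast
    rw [ZMod.natCast_zmod_val, ← mul_assoc]
    have h1 : (p : ZMod q) = ((ZMod.unitOfCoprime p hpq : (ZMod q)ˣ) : ZMod q) := rfl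
    rw [h1, Units.mul_inv, one_mul]
  refine ⟨a', fun k hk1 hk2 => ?_⟩
  have h1 : ((p * m : ℕ) : ℝ) ≤ ((p * k : ℕ) : ℝ) := by
    push_cast
    gcongr
  have h2 : ((p * k : ℕ) : ℝ) ≤ ((p * m : ℕ) : ℝ) + ((p * m : ℕ) : ℝ) / (H : ℝ) ^ A₁ := by
    push_cast
    calc (p : ℝ) * k ≤ p * (m + m / (l : ℝ) ^ A₂) := by gcongr
      _ = p * m + p * m / (l : ℝ) ^ A₂ := by ring
      _ ≤ p * m + p * m / (H : ℝ) ^ A₁ := by gcongr
  obtain ⟨g1, g2⟩ := ha (p * k) h1 h2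
  have hmod : k % q = a' % q ↔ (p * k) % q = a % q := by
    constructor
    · intro e
      have e1 : k ≡ a' [MOD q] := e
      exact (e1.mul_left p).trans ha'
    · intro e
      have e1 : p * k ≡ p * a' [MOD q] := Nat.ModEq.trans e ha'.symm
      exact Nat.ModEq.cancel_left_of_coprime (by rwa [Nat.Coprime, Nat.gcd_comm] at hpq) e1
  refine ⟨fun e => g1 fun e' => e (hmod.2 e'), fun e ρ hρ h hh => ?_⟩
  have g3 := g2 (hmod.1 e) ρ hρ (p * h) (by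
    push_cast
    have g4 := (hηf ρ hρ).le
    calc (q : ℝ) * (p * h) = p * (q * h) := by ring
      _ ≤ p * (ηf ρ * l) := by gcongr
      _ = ηf ρ * (p * l) := by ring
      _ ≤ ηf ρ * H := by gcongr)
  have g5 : (dlB p x).1 (k + q * h) = x.1 (p * k + q * (p * h)) := by
    change x.1 (p * (k + q * h)) = _
    rw [show p * (k + q * h) = p * k + q * (p * h) by ring]
  have g6 : vev d (dlB p x).2 k h = vev d x.2 ((p * k : ℕ) : ℝ) ((p * h : ℕ) : ℝ) := by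
    unfold dlB
    simp only
    rw [vev_dl]
    push_cast
    rfl
  rw [g5, g6]
  exact g3

/-- The families are cut to the window. -/
theorem slow_cut {α : Type} {X : ℕ → α} {K : ℝ} (hX : SlowA X K) (a b : ℕ) (x₀ : α) :
    SlowA (fun n => if n ∈ Ioc a b then X n else x₀) (K + 2) := by
  classical
  have h1 : SlowA (fun n : ℕ => decide (n ∈ Ioc a b)) 2 := by
    intro j
    have h2 : ((Ico (2 ^ j) (2 ^ (j + 1))).filter fun n =>
        decide (n + 1 ∈ Ioc a b) ≠ decide (n ∈ Ioc a b)) ⊆ {a, b} := by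
      intro n hn
      rw [mem_filter] at hn
      have h3 := hn.2
      rw [mem_insert, mem_singleton]
      by_contra h4
      rw [not_or] at h4
      apply h3
      have : n + 1 ∈ Ioc a b ↔ n ∈ Ioc a b := by
        rw [mem_Ioc, mem_Ioc]
        omega
      simp only [this]
    have h3 := (card_le_card h2).trans Finset.card_le_two
    have h4 : ((#((Ico (2 ^ j) (2 ^ (j + 1))).filter fun n =>
        decide (n + 1 ∈ Ioc a b) ≠ decide (n ∈ Ioc a b)) : ℕ) : ℝ) ≤ 2 := by exact_mod_cast h3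
    convert h4
  have h2 := NSTEPx.slow_map (fun z : α × Bool => if z.2 = true then z.1 else x₀) (slow_pair hX h1)
  simp only [decide_eq_true_eq] at h2
  convert h2

/-- The length of a cell. -/
theorem cell_len {K n L : ℕ} {v : ℝ} (hK : 3 ≤ K) (hn : 1 ≤ n) (hL : 1 ≤ L)
    (hcell : ∀ m : ℕ, n ≤ m → m < n + L → 1 ≤ m ∧ cl K (Real.log m) = cl K v) :
    (L : ℝ) ≤ 2 * n / K + 1 := by
  have hK0 : (0 : ℝ) < K := by exact_mod_cast (by omega : 0 < K)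
  have hK3 : (3 : ℝ) ≤ K := by exact_mod_cast hK
  have hn0 : (0 : ℝ) < n := by exact_mod_cast hn
  obtain ⟨_, e1⟩ := hcell n le_rfl (by omega)
  obtain ⟨_, e2⟩ := hcell (n + L - 1) (by omega) (by omega)
  have e3 := e2.trans e1.symm
  unfold cl at e3
  have hm0 : (0 : ℝ) < ((n + L - 1 : ℕ) : ℝ) := by exact_mod_cast (by omega : 0 < n + L - 1)
  rw [Real.exp_log hm0, Real.exp_log hn0, Nat.floor_natCast, Nat.floor_natCast] at e3
  have hlog := Real.log_natCast_nonneg n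
  have e4 := Nat.lt_floor_add_one ((K : ℝ) * Real.log ((n + L - 1 : ℕ) : ℝ))
  rw [e3] at e4
  have e5 := Nat.floor_le (show 0 ≤ (K : ℝ) * Real.log n by positivity)
  have e6 : Real.log ((n + L - 1 : ℕ) : ℝ) ≤ Real.log n + 1 / K := by
    have : (K : ℝ) * Real.log ((n + L - 1 : ℕ) : ℝ) ≤ K * (Real.log n + 1 / K) := by
      rw [mul_add, mul_one_div_cancel hK0.ne']
      linarith
    exact le_of_mul_le_mul_left this hK0
  have e7 := Real.exp_le_exp.2 e6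
  rw [Real.exp_log hm0, Real.exp_add, Real.exp_log hn0] at e7
  have e8 : Real.exp (1 / (K : ℝ)) ≤ 1 + 2 / K := by
    have h1 : 1 / (K : ℝ) ≤ 1 / 3 := by gcongr
    have h0 : 0 ≤ 1 / (K : ℝ) := by positivity
    have h2 := Real.abs_exp_sub_one_sub_id_le (x := 1 / (K : ℝ)) (by
      rw [abs_of_nonneg h0]
      linarith)
    have h3 : (1 / (K : ℝ)) ^ 2 ≤ 1 / K := by
      rw [sq]
      nlinarith
    have h4 := (abs_le.1 h2).2
    have h5 : 2 / (K : ℝ) = 1 / K + 1 / K := by ring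
    rw [h5]
    linarith
  have e9 : ((n + L - 1 : ℕ) : ℝ) = n + L - 1 := by
    rw [Nat.cast_sub (by omega)]
    push_cast
    ring
  rw [e9] at e7
  have e10 : (n : ℝ) * Real.exp (1 / (K : ℝ)) ≤ n * (1 + 2 / K) := by gcongr
  have e11 : (n : ℝ) * (1 + 2 / K) = n + 2 * n / K := by ring
  linarith

/-- The relation on a cell. -/
theorem cell_rel (d q l H L n K : ℕ) (ηf : ℝ → ℝ) (c Ag A₁ B₁ ya v : ℝ) (Q₂ l₁ : ℕ) (x x' : FD)
    (hd : 1 ≤ d) (hA₁ : 0 ≤ A₁) (hAg : 2 * A₁ + 1 ≤ Ag)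
    (hrel : ∀ (l L n : ℕ) (R : ℝ) (x x' : FD), l₁ ≤ l → l ≤ L → (L : ℝ) + 2 * l ≤ R →
      (∀ m, ‖x.1 m‖ ≤ 1) → (∀ m, ‖x'.1 m‖ ≤ 1) → LS q d ηf l R n x → LS q d ηf l R n x' →
      c / 8 * L ≤ (by
        classical
        exact (#((Ico n (n + L)).filter fun m : ℕ => c ≤ Kg l m x.1 x'.1) : ℝ)) →
      ∀ i ≤ d, nd ((Q₂ : ℝ) * (x.2 i 1 - x'.2 i 1)) ≤
        ((d + 1) * 2 ^ d : ℝ) * ((n : ℝ) / L + 1) ^ d / (L : ℝ) ^ i)
    (hl₁ : l₁ ≤ l) (hl1 : 1 ≤ l) (hlH : l ≤ H) (hH : (d + 1) * 6 ^ d + 20 ≤ (H : ℝ))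
    (hK : (H : ℝ) ^ (Ag + 1) ≤ K) (hB₁ : B₁ = (Ag + 8) * d + (Ag + 6) * d + 1)
    (hya : (H : ℝ) ^ (Ag + 8) ≤ ya) (hv1 : ya / H ≤ Real.exp v) (hv2 : Real.exp v ≤ ya * H ^ 2)
    (hcell : ∀ m : ℕ, n ≤ m → m < n + L → 1 ≤ m ∧ cl K (Real.log m) = cl K v)
    (hn1 : (n : ℝ) ≤ 2 * Real.exp v) (hn2 : Real.exp v ≤ 2 * n)
    (hL : ya / (H : ℝ) ^ (Ag + 6) ≤ L) (hx : ∀ m, ‖x.1 m‖ ≤ 1) (hx' : ∀ m, ‖x'.1 m‖ ≤ 1)
    (hLS : LS q d ηf l ((n : ℝ) / (l : ℝ) ^ (2 * A₁)) n x)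
    (hLS' : LS q d ηf l ((n : ℝ) / (l : ℝ) ^ (2 * A₁)) n x')
    (hcount : c / 8 * L ≤ (by
        classical
        exact (#((Ico n (n + L)).filter fun m : ℕ => c ≤ Kg l m x.1 x'.1) : ℝ))) :
    ∀ i ≤ d, nd ((Q₂ : ℝ) * (x.2 i 1 - x'.2 i 1)) ≤ (H : ℝ) ^ B₁ / ya ^ i := by
  have hd0 : (0 : ℝ) ≤ d := Nat.cast_nonneg _
  have hH20 : (20 : ℝ) ≤ H := by
    have : (0 : ℝ) ≤ (d + 1) * 6 ^ d := by positivity
    linarith
  have hH0 : (0 : ℝ) < H := by linarith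
  have hH1 : (1 : ℝ) ≤ H := by linarith
  have hpos : ∀ y : ℝ, 0 < (H : ℝ) ^ y := fun y => Real.rpow_pos_of_pos hH0 y
  have hone : ∀ y : ℝ, 0 ≤ y → 1 ≤ (H : ℝ) ^ y := fun y h => Real.one_le_rpow hH1 h
  have hya0 : 0 < ya := lt_of_lt_of_le (hpos _) hya
  have hl0 : (0 : ℝ) < l := by exact_mod_cast hl1
  have hlHr : (l : ℝ) ≤ H := by exact_mod_cast hlH
  have hAg0 : 0 ≤ Ag := by linarith
  -- the length
  have hL2 : (H : ℝ) * H ≤ L := by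
    refine le_trans ?_ hL
    rw [le_div_iff₀ (hpos _)]
    refine le_trans (le_of_eq ?_) hya
    rw [show Ag + 8 = (Ag + 6) + 2 by ring, Real.rpow_add hH0 (Ag + 6) 2,
      show (2 : ℝ) = ((2 : ℕ) : ℝ) by norm_num, Real.rpow_natCast]
    ring
  have hL0 : (0 : ℝ) < L := lt_of_lt_of_le (by positivity) hL2
  have hL1 : 1 ≤ L := by
    have : 0 < L := by exact_mod_cast hL0
    omega
  have hlL : l ≤ L := by
    have h1 : (l : ℝ) ≤ L := by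
      refine hlHr.trans (le_trans ?_ hL2)
      nlinarith
    exact_mod_cast h1
  have hn0 : (0 : ℝ) < n := by
    have := Real.exp_pos v
    linarith
  have hn1N : 1 ≤ n := by
    have : 0 < n := by exact_mod_cast hn0
    omega
  have hK3 : 3 ≤ K := by
    have h1 : (3 : ℝ) ≤ K := by
      refine le_trans ?_ hK
      calc (3 : ℝ) ≤ H := by linarith
        _ = (H : ℝ) ^ (1 : ℝ) := (Real.rpow_one _).symm
        _ ≤ (H : ℝ) ^ (Ag + 1) := Real.rpow_le_rpow_of_exponent_le hH1 (by linarith)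
    exact_mod_cast h1
  have hlen := cell_len hK3 hn1N hL1 hcell
  -- the radius
  have hll : (l : ℝ) ^ (2 * A₁) ≤ (H : ℝ) ^ (2 * A₁) :=
    Real.rpow_le_rpow hl0.le hlHr (by positivity)
  have hlp : 0 < (l : ℝ) ^ (2 * A₁) := Real.rpow_pos_of_pos hl0 _
  have hR : (L : ℝ) + 2 * l ≤ (n : ℝ) / (l : ℝ) ^ (2 * A₁) := by
    have h1 : 2 * (n : ℝ) / K ≤ n / (l : ℝ) ^ (2 * A₁) / 2 := by
      have h2 : 4 * (l : ℝ) ^ (2 * A₁) ≤ K := by
        refine le_trans ?_ hK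
        calc 4 * (l : ℝ) ^ (2 * A₁) ≤ H * (H : ℝ) ^ (2 * A₁) := by
              have := hpos (2 * A₁)
              gcongr
              linarith
          _ = (H : ℝ) ^ (2 * A₁ + 1) := by rw [Real.rpow_add hH0, Real.rpow_one]; ring
          _ ≤ (H : ℝ) ^ (Ag + 1) := Real.rpow_le_rpow_of_exponent_le hH1 (by linarith)
      have hK0 : (0 : ℝ) < K := by linarith
      rw [div_div, div_le_div_iff₀ hK0 (by positivity)]
      nlinarith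
    have h3 : 1 + 2 * (l : ℝ) ≤ n / (l : ℝ) ^ (2 * A₁) / 2 := by
      rw [div_div, le_div_iff₀ (by positivity)]
      have h4 : ya / H / 2 ≤ n := by linarith
      have h5 : (1 + 2 * (l : ℝ)) * ((l : ℝ) ^ (2 * A₁) * 2) ≤
          (3 * H) * ((H : ℝ) ^ (2 * A₁) * 2) := by
        have := hpos (2 * A₁)
        gcongr
        linarith
      refine h5.trans (le_trans ?_ h4)
      rw [div_div, le_div_iff₀ (by positivity)]
      calc 3 * (H : ℝ) * ((H : ℝ) ^ (2 * A₁) * 2) * (H * 2) = 12 * ((H : ℝ) ^ (2 * A₁) * H ^ 2) := by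
            ring
        _ ≤ H * ((H : ℝ) ^ (2 * A₁) * H ^ 2) := by
            have := hpos (2 * A₁)
            gcongr
            linarith
        _ = (H : ℝ) ^ (2 * A₁ + 3) := by
            rw [Real.rpow_add hH0, show (3 : ℝ) = ((3 : ℕ) : ℝ) by norm_num, Real.rpow_natCast]
            ring
        _ ≤ (H : ℝ) ^ (Ag + 8) := Real.rpow_le_rpow_of_exponent_le hH1 (by linarith)
        _ ≤ ya := hya
    linarith
  intro i hi
  refine (hrel l L n _ x x' hl₁ hlL hR hx hx' hLS hLS' hcount i hi).trans ?_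
  have h1 : (n : ℝ) / L + 1 ≤ 3 * (H : ℝ) ^ (Ag + 8) := by
    have h2 : (n : ℝ) / L ≤ 2 * (H : ℝ) ^ (Ag + 8) := by
      rw [div_le_iff₀ hL0]
      calc (n : ℝ) ≤ 2 * (ya * H ^ 2) := by linarith
        _ = 2 * (H : ℝ) ^ (Ag + 8) * (ya / (H : ℝ) ^ (Ag + 6)) := by
            rw [show Ag + 8 = (Ag + 6) + 2 by ring, Real.rpow_add hH0 (Ag + 6) 2,
              show (2 : ℝ) = ((2 : ℕ) : ℝ) by norm_num, Real.rpow_natCast]
            have := (hpos (Ag + 6)).ne'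
            field_simp
        _ ≤ 2 * (H : ℝ) ^ (Ag + 8) * L := by
            have := hpos (Ag + 8)
            gcongr
    have := hone (Ag + 8) (by linarith)
    linarith
  have h2 : 1 / (L : ℝ) ^ i ≤ (H : ℝ) ^ ((Ag + 6) * d) / ya ^ i := by
    rw [div_le_div_iff₀ (by positivity) (by positivity), one_mul]
    have h3 : ya ≤ (H : ℝ) ^ (Ag + 6) * L := by
      rw [div_le_iff₀ (hpos _)] at hL
      linarith
    calc ya ^ i ≤ ((H : ℝ) ^ (Ag + 6) * L) ^ i := by gcongr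
      _ = ((H : ℝ) ^ (Ag + 6)) ^ i * (L : ℝ) ^ i := mul_pow _ _ _
      _ ≤ (H : ℝ) ^ ((Ag + 6) * d) * (L : ℝ) ^ i := by
          refine mul_le_mul_of_nonneg_right ?_ (by positivity)
          rw [← Real.rpow_natCast, ← Real.rpow_mul hH0.le]
          refine Real.rpow_le_rpow_of_exponent_le hH1 ?_
          have : (i : ℝ) ≤ d := by exact_mod_cast hi
          have : 0 ≤ Ag + 6 := by linarith
          gcongr
  have h3 : ((n : ℝ) / L + 1) ^ d ≤ 3 ^ d * (H : ℝ) ^ ((Ag + 8) * d) := by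
    calc ((n : ℝ) / L + 1) ^ d ≤ (3 * (H : ℝ) ^ (Ag + 8)) ^ d := by gcongr
      _ = 3 ^ d * (H : ℝ) ^ ((Ag + 8) * d) := by
          rw [mul_pow, ← Real.rpow_natCast ((H : ℝ) ^ (Ag + 8)), ← Real.rpow_mul hH0.le]
  have p1 := hpos ((Ag + 8) * d)
  have p2 := hpos ((Ag + 6) * d)
  calc ((d + 1) * 2 ^ d : ℝ) * ((n : ℝ) / L + 1) ^ d / (L : ℝ) ^ i
      = ((d + 1) * 2 ^ d : ℝ) * ((n : ℝ) / L + 1) ^ d * (1 / (L : ℝ) ^ i) := by ring
    _ ≤ ((d + 1) * 2 ^ d : ℝ) * (3 ^ d * (H : ℝ) ^ ((Ag + 8) * d)) *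
        ((H : ℝ) ^ ((Ag + 6) * d) / ya ^ i) := by gcongr
    _ = ((d + 1) * 6 ^ d) * ((H : ℝ) ^ ((Ag + 8) * d) * (H : ℝ) ^ ((Ag + 6) * d)) / ya ^ i := by
        have : (6 : ℝ) ^ d = 2 ^ d * 3 ^ d := by rw [← mul_pow]; norm_num
        rw [this]
        ring
    _ ≤ H * ((H : ℝ) ^ ((Ag + 8) * d) * (H : ℝ) ^ ((Ag + 6) * d)) / ya ^ i := by
        gcongr
        linarith
    _ = (H : ℝ) ^ B₁ / ya ^ i := by
        rw [hB₁, Real.rpow_add hH0, Real.rpow_add hH0, Real.rpow_one]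
        ring

end FCx

open FCx in
/-- **Row FULLC.** -/
theorem fullc : FULLC_stmt := by
  classical
  intro d q ηf A A₁ ε hd hq hηf hA hA₁ hε
  obtain ⟨ε₁, hε₁⟩ : ∃ ε₁ : ℝ, ε₁ = min ε 1 := ⟨_, rfl⟩
  have hε₁0 : 0 < ε₁ := by rw [hε₁]; exact lt_min hε one_pos
  have hε₁1 : ε₁ ≤ 1 := by rw [hε₁]; exact min_le_right _ _
  have hε₁ε : ε₁ ≤ ε := by rw [hε₁]; exact min_le_left _ _
  have hd0 : (0 : ℝ) ≤ d := Nat.cast_nonneg _
  obtain ⟨Ag, hAg⟩ : ∃ Ag : ℝ, Ag = A + 1 + 2 * A₁ := ⟨_, rfl⟩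
  have hAg0 : 0 ≤ Ag := by rw [hAg]; positivity
  obtain ⟨c, κ₁, hc, hc1, hκ₁, hκ₁8, hG⟩ := gstep Ag ε₁ hAg0 hε₁0 hε₁1
  obtain ⟨Q₂, l₁, hQ₂, hrel⟩ := fcrel d q ηf c hd hq hηf hc hc1
  obtain ⟨B₁, hB₁⟩ : ∃ B₁ : ℝ, B₁ = (Ag + 8) * d + (Ag + 6) * d + 1 := ⟨_, rfl⟩
  have hB₁0 : 0 ≤ B₁ := by rw [hB₁]; positivity
  obtain ⟨δ, B, AR, Q₀, H₁, hδ, hB, hAR, hQ₀, hS⟩ := hG 1 (d + 1) B₁ (by omega) hB₁0
  have hQ₂0 : (0 : ℝ) < Q₂ := by exact_mod_cast hQ₂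
  have hQ₂1 : (1 : ℝ) ≤ Q₂ := by exact_mod_cast hQ₂
  have hQ₀0 : (0 : ℝ) < Q₀ := by exact_mod_cast hQ₀
  obtain ⟨Bf, l₂, hBf, hwin⟩ := fcwin d q (Q₀ * Q₂) ηf hd hq (Nat.mul_pos hQ₀ hQ₂) hηf AR (2 * A₁)
    (2 * (B + B₁)) 6 (δ / 2) hAR (by positivity) (by positivity) (by norm_num) (by positivity)
  -- the size of `H`
  obtain ⟨W, hW⟩ : ∃ W : ℝ, W = (d + 1) * 6 ^ d + 20 + H₁ + l₁ + l₂ + q := ⟨_, rfl⟩
  have hWd : (0 : ℝ) ≤ (d + 1) * 6 ^ d := by positivity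
  have hn : ∀ n : ℕ, (0 : ℝ) ≤ n := fun n => Nat.cast_nonneg n
  have hW0 : 0 < W := by
    rw [hW]
    linarith [hn H₁, hn l₁, hn l₂, hn q]
  refine ⟨B + (Bf + 1) + (Ag + 8) + 1, ⌈W ^ (2 + 1 / κ₁)⌉₊, by positivity, ?_⟩
  intro H hH xa xb hxa hxab X hX hX1 hLS
  have hWH : W ^ (2 + 1 / κ₁) ≤ H := (Nat.le_ceil _).trans (by exact_mod_cast hH)
  have hW1 : 1 ≤ W := by
    rw [hW]
    linarith [hn H₁, hn l₁, hn l₂, hn q]
  have hκi : 0 < 1 / κ₁ := by positivity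
  have hWH2 : W ^ (2 : ℝ) ≤ H := (Real.rpow_le_rpow_of_exponent_le hW1 (by linarith)).trans hWH
  have hWHκ : W ^ (1 / κ₁) ≤ H := (Real.rpow_le_rpow_of_exponent_le hW1 (by linarith)).trans hWH
  have hWH1 : W ≤ H := by
    refine le_trans ?_ hWH2
    calc W = W ^ (1 : ℝ) := (Real.rpow_one _).symm
      _ ≤ W ^ (2 : ℝ) := Real.rpow_le_rpow_of_exponent_le hW1 (by norm_num)
  have hH20 : (20 : ℝ) ≤ H := by
    refine le_trans ?_ hWH1
    rw [hW]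
    linarith [hn H₁, hn l₁, hn l₂, hn q]
  have hHd : (d + 1) * 6 ^ d + 20 ≤ (H : ℝ) := by
    refine le_trans ?_ hWH1
    rw [hW]
    linarith [hn H₁, hn l₁, hn l₂, hn q]
  have hH₁ : H₁ ≤ H := by
    have : (H₁ : ℝ) ≤ H := by
      refine le_trans ?_ hWH1
      rw [hW]
      linarith [hn H₁, hn l₁, hn l₂, hn q]
    exact_mod_cast this
  have hH0 : (0 : ℝ) < H := by linarith
  have hH1 : (1 : ℝ) ≤ H := by linarith
  have hpos : ∀ y : ℝ, 0 < (H : ℝ) ^ y := fun y => Real.rpow_pos_of_pos hH0 y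
  have hone : ∀ y : ℝ, 0 ≤ y → 1 ≤ (H : ℝ) ^ y := fun y h => Real.one_le_rpow hH1 h
  have hmono : ∀ y z : ℝ, y ≤ z → (H : ℝ) ^ y ≤ (H : ℝ) ^ z :=
    fun y z h => Real.rpow_le_rpow_of_exponent_le hH1 h
  have hxaB : ∀ y : ℝ, y ≤ B + (Bf + 1) + (Ag + 8) + 1 → (H : ℝ) ^ y ≤ xa :=
    fun y h => (hmono y _ h).trans hxa
  have hxa1 : 1 ≤ xa := (hone 0 le_rfl).trans (hxaB 0 (by positivity))
  have hxa0 : 0 < xa := by linarith
  have hxb0 : 0 < xb := lt_of_lt_of_le (by positivity) hxab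
  have hΛ : 0 ≤ Real.log xb - Real.log xa := by
    rw [sub_nonneg]
    refine Real.log_le_log hxa0 (le_trans ?_ hxab)
    exact le_mul_of_one_le_right hxa0.le hH1
  refine le_trans ?_ (mul_le_mul_of_nonneg_right hε₁ε hΛ)
  by_contra hcon
  rw [not_le] at hcon
  -- the level
  obtain ⟨l, hl12, hl78, hS⟩ := hS H hH₁
  have hl0 : (0 : ℝ) < l := lt_of_lt_of_le (hpos _) hl12
  have hl1 : 1 ≤ l := by
    have : 0 < l := by exact_mod_cast hl0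
    omega
  have hlH : (l : ℝ) ≤ H := hl78.trans ((hmono (7 / 8) 1 (by norm_num)).trans_eq (Real.rpow_one _))
  have hlHN : l ≤ H := by exact_mod_cast hlH
  have hWl : W ≤ l := by
    refine le_trans ?_ hl12
    calc W = (W ^ (2 : ℝ)) ^ (1 / 2 : ℝ) := by
          rw [← Real.rpow_mul hW0.le]
          norm_num
      _ ≤ (H : ℝ) ^ (1 / 2 : ℝ) := Real.rpow_le_rpow (by positivity) hWH2 (by norm_num)
  have hl₁ : l₁ ≤ l := by
    have : (l₁ : ℝ) ≤ l := by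
      refine le_trans ?_ hWl
      rw [hW]
      linarith [hn H₁, hn l₁, hn l₂, hn q]
    exact_mod_cast this
  have hl₂ : l₂ ≤ l := by
    have : (l₂ : ℝ) ≤ l := by
      refine le_trans ?_ hWl
      rw [hW]
      linarith [hn H₁, hn l₁, hn l₂, hn q]
    exact_mod_cast this
  have hHl : ∀ y : ℝ, 0 ≤ y → (H : ℝ) ^ y ≤ (l : ℝ) ^ (2 * y) := by
    intro y hy
    calc (H : ℝ) ^ y = ((H : ℝ) ^ (1 / 2 : ℝ)) ^ (2 * y) := by
          rw [← Real.rpow_mul hH0.le]; congr 1; ring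
      _ ≤ (l : ℝ) ^ (2 * y) := Real.rpow_le_rpow (hpos _).le hl12 (by positivity)
  -- the family
  obtain ⟨X₁, hX₁⟩ : ∃ X₁ : ℕ → FD, X₁ = fun n => if n ∈ Ioc ⌊xa⌋₊ ⌊xb⌋₊ then X n else x0 :=
    ⟨_, rfl⟩
  have hX₁s : SlowA X₁ ((H : ℝ) ^ Ag) := by
    rw [hX₁]
    refine NV.SlowA.mono (slow_cut hX _ _ x0) ?_
    have h1 := hone A hA
    have h2 : (H : ℝ) ^ (A + 1) ≤ (H : ℝ) ^ Ag := hmono _ _ (by rw [hAg]; linarith)
    refine le_trans ?_ h2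
    rw [Real.rpow_add hH0, Real.rpow_one]
    have h3 : (H : ℝ) ^ A * 3 ≤ (H : ℝ) ^ A * H :=
      mul_le_mul_of_nonneg_left (by linarith) (hpos A).le
    linarith
  have hX₁1 : ∀ n m, ‖(X₁ n).1 m‖ ≤ 1 := by
    intro n m
    rw [hX₁]
    simp only
    split_ifs
    · exact hX1 n m
    · simp [x0]
  have hX₁L : ∀ n : ℕ, LS q d ηf H ((n : ℝ) / (H : ℝ) ^ A₁) n (X₁ n) := by
    intro n
    rw [hX₁]
    simp only
    split_ifs with h
    · exact hLS n h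
    · exact LS_zero _ _ _ _ _ _
  have hcon' : ε₁ * (Real.log xb - Real.log xa) <
      ∑ n ∈ Ioc ⌊xa⌋₊ ⌊xb⌋₊, (1 / (n : ℝ)) * Wg H n (evB (X₁ n)) := by
    refine hcon.trans_le (le_of_eq ?_)
    refine sum_congr rfl fun n hn => ?_
    rw [evB_eq (hX₁1 n), hX₁]
    simp only [if_pos hn]
  obtain ⟨ya, yb, hya, hyb, hyab, hyH2, hS⟩ := hS FD evB dlB evB_le evB_dl xa xb
    (hxaB _ (by linarith)) hxab X₁ hX₁s hcon'
  obtain ⟨K, hK⟩ : ∃ K : ℕ, K = ⌈(H : ℝ) ^ (Ag + 1)⌉₊ := ⟨_, rfl⟩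
  have hKge : (H : ℝ) ^ (Ag + 1) ≤ K := by rw [hK]; exact Nat.le_ceil _
  have hya1 : 1 ≤ ya := hxa1.trans hya
  have hya0 : 0 < ya := by linarith
  have hyb0 : 0 < yb := lt_of_lt_of_le (by positivity) hyab
  have hyaB : ∀ y : ℝ, y ≤ B + (Bf + 1) + (Ag + 8) + 1 → (H : ℝ) ^ y ≤ ya :=
    fun y h => (hxaB y h).trans hya
  have hP8 : ∀ p ∈ PPs H κ₁ (1 / 8), p.Prime ∧ q < p ∧ (p : ℝ) ≤ (H : ℝ) ^ (1 / 8 : ℝ) := by
    intro p hp
    unfold PPs at hp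
    rw [mem_filter, mem_Icc] at hp
    refine ⟨hp.2.1, ?_, (Nat.le_floor_iff (hpos _).le).1 hp.1.2⟩
    have h1 : (H : ℝ) ^ κ₁ ≤ p := by
      first
      | exact hp.2.2
      | exact hp.2.2.le
    have h2 : W ≤ (H : ℝ) ^ κ₁ := by
      calc W = (W ^ (1 / κ₁)) ^ κ₁ := by
            rw [← Real.rpow_mul hW0.le, one_div_mul_cancel hκ₁.ne', Real.rpow_one]
        _ ≤ (H : ℝ) ^ κ₁ := Real.rpow_le_rpow (by positivity) hWHκ hκ₁.le
    have h3 : (q : ℝ) < W := by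
      rw [hW]
      linarith [hn H₁, hn l₁, hn l₂]
    have h4 : (q : ℝ) < p := by linarith
    exact_mod_cast h4
  have hP1 : ∀ p ∈ PPs H κ₁ (1 / 8), 1 ≤ p ∧ Nat.Coprime p q ∧ (p : ℝ) * l ≤ H ∧
      (p : ℝ) ≤ H := by
    intro p hp
    obtain ⟨h1, h2, h3⟩ := hP8 p hp
    refine ⟨h1.one_lt.le, (Nat.Prime.coprime_iff_not_dvd h1).2 fun hdvd =>
      absurd (Nat.le_of_dvd hq hdvd) (not_le.2 h2), ?_, ?_⟩
    · calc (p : ℝ) * l ≤ (H : ℝ) ^ (1 / 8 : ℝ) * (H : ℝ) ^ (7 / 8 : ℝ) := by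
            have := hpos (1 / 8)
            gcongr
        _ = H := by
            rw [← Real.rpow_add hH0]
            norm_num
    · exact h3.trans ((hmono (1 / 8) 1 (by norm_num)).trans_eq (Real.rpow_one _))
  have hPer : ∀ p ∈ PPs H κ₁ (1 / 8), ∀ v : ℝ, InR X₁ K ya yb p v → ∀ m : ℕ, 1 ≤ m →
      cl K (Real.log m) = cl K v → (∀ k, ‖(lx dlB X₁ p v).1 k‖ ≤ 1) ∧
        LS q d ηf l ((m : ℝ) / (l : ℝ) ^ (2 * A₁)) m (lx dlB X₁ p v) := by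
    intro p hp v hv m hm hcl
    obtain ⟨h1, h2, h3, h4⟩ := hP1 p hp
    have hm0 : (0 : ℝ) < m := by exact_mod_cast hm
    have h5 := hv.2.2 (Real.log m) hcl
    have h6 : ⌊(p : ℝ) * Real.exp (Real.log m)⌋₊ = p * m := by
      rw [Real.exp_log hm0, ← Nat.cast_mul, Nat.floor_natCast]
    rw [h6] at h5
    unfold lx
    rw [← h5]
    refine ⟨fun k => ?_, ?_⟩
    · change ‖(X₁ (p * m)).1 (p * k)‖ ≤ 1
      exact hX₁1 _ _
    · exact LS_dl h1 h2 hq h3 hηf (hpos _) (hHl A₁ hA₁) (hX₁L (p * m))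
  obtain ⟨θ, Q', hQ's, hQ'P, _, hQ'r, hQ'm⟩ := hS K hK Unit (fun _ => Fin d) (fun _ => 2)
    (fun _ _ _ => True) (fun m x => (∀ k, ‖x.1 k‖ ≤ 1) ∧
      LS q d ηf l ((m : ℝ) / (l : ℝ) ^ (2 * A₁)) m x)
    (fun _ i => (i : ℕ) + 2) (fun _ i x => (Q₂ : ℝ) * x.2 ((i : ℕ) + 1) 1)
    (fun _ i x => (Q₂ : ℝ) * x.2 ((i : ℕ) + 1) 1)
    (fun _ i => (H : ℝ) ^ B₁ / ya ^ ((i : ℕ) + 1)) x0 (by simp)
    (fun _ i => ⟨by omega, by have := i.2; omega⟩)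
    (fun _ i => ⟨by have := hpos B₁; positivity, by
      have h1 := hpos B₁
      refine div_le_div_of_nonneg_left h1.le hya0 ?_
      calc ya = ya ^ 1 := (pow_one _).symm
        _ ≤ ya ^ ((i : ℕ) + 1) := pow_le_pow_right₀ hya1 (by omega)⟩)
    (fun _ i p x => by
      simp only [dlB]
      ring)
    (fun m => ⟨fun k => by simp [x0], LS_zero _ _ _ _ _ _⟩) (fun _ _ => trivial)
    (fun _ i => by simp [x0]) hPer (by
      intro p hp p' hp' v n L hv hv' hcell _ hn1 hn2 hL hcount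
      refine ⟨(), fun h => absurd h (by decide), fun h => absurd h (by decide), fun _ i => ?_⟩
      obtain ⟨p1, p2, p3, p4⟩ := hP1 p hp
      have hp0 : (0 : ℝ) < p := by exact_mod_cast p1
      have hL0 : 0 < L := by
        have h1 : (0 : ℝ) < L := lt_of_lt_of_le (div_pos hya0 (hpos _)) hL
        exact_mod_cast h1
      have hnc := hcell n le_rfl (by omega)
      obtain ⟨x1, x2⟩ := hPer p hp v hv n hnc.1 hnc.2
      obtain ⟨x3, x4⟩ := hPer p' hp' v hv' n hnc.1 hnc.2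
      have hv1 : ya / H ≤ Real.exp v := by
        have h1 : ya / p ≤ Real.exp v := by
          rw [← Real.exp_log hya0, ← Real.exp_log hp0, ← Real.exp_sub]
          exact Real.exp_le_exp.2 (by simpa using hv.1)
        exact (div_le_div_of_nonneg_left hya0.le hp0 p4).trans h1
      have hv2 : Real.exp v ≤ ya * H ^ 2 := by
        have h1 : Real.exp v ≤ yb / p := by
          rw [← Real.exp_log hyb0, ← Real.exp_log hp0, ← Real.exp_sub]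
          exact Real.exp_le_exp.2 (by simpa using hv.2.1)
        refine h1.trans ((div_le_self hyb0.le (by exact_mod_cast p1)).trans hyH2)
      have h3 := cell_rel d q l H L n K ηf c Ag A₁ B₁ ya v Q₂ l₁ (lx dlB X₁ p v) (lx dlB X₁ p' v)
        hd hA₁ (by rw [hAg]; linarith) (fun l L n R x x' a1 a2 a3 a4 a5 a6 a7 a8 =>
          hrel l L n R x x' a1 a2 a3 a4 a5 a6 a7 (by convert a8)) hl₁ hl1 hlHN hHd hKge hB₁
        (hyaB _ (by linarith)) hv1 hv2 hcell hn1 hn2 hL x1 x3 x2 x4 (by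
          rw [evB_eq x1, evB_eq x3] at hcount
          convert hcount) ((i : ℕ) + 1) (by have := i.2; omega)
      refine ⟨round ((Q₂ : ℝ) * ((lx dlB X₁ p v).2 ((i : ℕ) + 1) 1 -
        (lx dlB X₁ p' v).2 ((i : ℕ) + 1) 1)), ?_⟩
      refine le_trans (le_of_eq ?_) h3
      unfold nd
      rw [mul_sub])
  -- the final estimate
  obtain ⟨za, hza⟩ : ∃ za : ℝ, za = ya / (2 * (H : ℝ) ^ (1 / 8 : ℝ)) := ⟨_, rfl⟩
  rw [← hza] at hQ'm
  have hp8 := hpos (1 / 8)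
  have h2H8 : 2 * (H : ℝ) ^ (1 / 8 : ℝ) ≤ H := by
    have h1 : (2 : ℝ) ≤ (H : ℝ) ^ (7 / 8 : ℝ) := by
      calc (2 : ℝ) ≤ (16 : ℝ) ^ (7 / 8 : ℝ) := by
            rw [show (16 : ℝ) = 2 ^ (4 : ℝ) by norm_num, ← Real.rpow_mul (by norm_num)]
            calc (2 : ℝ) = 2 ^ (1 : ℝ) := (Real.rpow_one _).symm
              _ ≤ 2 ^ (4 * (7 / 8) : ℝ) :=
                Real.rpow_le_rpow_of_exponent_le (by norm_num) (by norm_num)
        _ ≤ (H : ℝ) ^ (7 / 8 : ℝ) := Real.rpow_le_rpow (by norm_num) (by linarith) (by norm_num)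
    calc 2 * (H : ℝ) ^ (1 / 8 : ℝ) ≤ (H : ℝ) ^ (7 / 8 : ℝ) * (H : ℝ) ^ (1 / 8 : ℝ) := by gcongr
      _ = H := by
          rw [← Real.rpow_add hH0]
          norm_num
  have h1H8 : 1 ≤ 2 * (H : ℝ) ^ (1 / 8 : ℝ) := by
    have := hone (1 / 8) (by norm_num)
    linarith
  have hza0 : 0 < za := by rw [hza]; positivity
  have hzaya : za ≤ ya := by
    rw [hza]
    exact div_le_self hya0.le h1H8
  have hyaza : ya ≤ za * H := by
    rw [hza, div_mul_eq_mul_div, le_div_iff₀ (by positivity)]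
    gcongr
  have hlog : Real.log za < Real.log yb := by
    refine Real.log_lt_log hza0 ?_
    calc za ≤ ya := hzaya
      _ = ya * 1 := (mul_one _).symm
      _ < ya * H := by
          refine mul_lt_mul_of_pos_left ?_ hya0
          linarith
      _ ≤ yb := hyab
  have hHl2 : (H : ℝ) ≤ (l : ℝ) ^ (2 : ℝ) := by
    have := hHl 1 zero_le_one
    rwa [Real.rpow_one, mul_one] at this
  obtain ⟨F, hF⟩ : ∃ F : ℕ → FD, F = fun m => if 1 ≤ m then Q' m else Q' 1 := ⟨_, rfl⟩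
  have hF1 : ∀ m, 1 ≤ m → F m = Q' m := by
    intro m hm
    rw [hF]
    simp only [if_pos hm]
  have hF2 : ∀ m, ∃ k, 1 ≤ k ∧ F m = Q' k := by
    intro m
    rw [hF]
    by_cases hm : 1 ≤ m
    · exact ⟨m, hm, by simp only [if_pos hm]⟩
    · exact ⟨1, le_rfl, by simp only [if_neg hm]⟩
  have hFs : SlowA F ((l : ℝ) ^ AR) := by
    intro j
    refine le_trans (le_of_eq ?_) (hQ's j)
    have : ∀ n ∈ Ico (2 ^ j) (2 ^ (j + 1)), (F (n + 1) ≠ F n ↔ Q' (n + 1) ≠ Q' n) := by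
      intro n hn
      rw [mem_Ico] at hn
      have h1 : 1 ≤ n := Nat.one_le_two_pow.trans hn.1
      rw [hF1 n h1, hF1 (n + 1) (by omega)]
    have h2 := Finset.filter_congr this
    norm_cast
    convert congrArg Finset.card h2
  have hFb : ∀ n m, ‖(F n).1 m‖ ≤ 1 := by
    intro n m
    obtain ⟨k, hk, e⟩ := hF2 n
    rw [e]
    exact (hQ'P k hk).1 m
  have hFL : ∀ n : ℕ, 1 ≤ n → LS q d ηf l ((n : ℝ) / (l : ℝ) ^ (2 * A₁)) n (F n) := by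
    intro n hn
    rw [hF1 n hn]
    exact (hQ'P n hn).2
  have hFr : ∀ n : ℕ, 1 ≤ n → ∀ i, 1 ≤ i → i ≤ d → ∃ j : ℤ,
      |(F n).2 i 1 - j / ((Q₀ * Q₂ : ℕ) : ℝ)| ≤ (l : ℝ) ^ (2 * (B + B₁)) / za ^ i := by
    intro n hn i hi1 hi2
    obtain ⟨i', rfl⟩ : ∃ i', i = i' + 1 := ⟨i - 1, by omega⟩
    obtain ⟨j, hj⟩ := hQ'r rfl n ⟨i', by omega⟩ hn
    simp only at hj
    refine ⟨j, ?_⟩
    rw [hF1 n hn]
    have h1 : (Q' n).2 (i' + 1) 1 - j / ((Q₀ * Q₂ : ℕ) : ℝ) =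
        ((Q₂ : ℝ) * (Q' n).2 (i' + 1) 1 - j / Q₀) / Q₂ := by
      push_cast
      field_simp
    rw [h1, abs_div, abs_of_pos hQ₂0]
    have h2 : |(Q₂ : ℝ) * (Q' n).2 (i' + 1) 1 - j / Q₀| / Q₂ ≤
        |(Q₂ : ℝ) * (Q' n).2 (i' + 1) 1 - j / Q₀| := div_le_self (abs_nonneg _) hQ₂1
    refine h2.trans (hj.trans ?_)
    have h3 : (H : ℝ) ^ B * ((H : ℝ) ^ B₁ / ya ^ (i' + 1)) = (H : ℝ) ^ (B + B₁) / ya ^ (i' + 1) := by
      rw [Real.rpow_add hH0]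
      ring
    rw [h3]
    have h4 := hHl (B + B₁) (by positivity)
    have h5 : za ^ (i' + 1) ≤ ya ^ (i' + 1) := by gcongr
    have h6 := hpos (B + B₁)
    calc (H : ℝ) ^ (B + B₁) / ya ^ (i' + 1) ≤ (H : ℝ) ^ (B + B₁) / za ^ (i' + 1) :=
          div_le_div_of_nonneg_left h6.le (by positivity) h5
      _ ≤ (l : ℝ) ^ (2 * (B + B₁)) / za ^ (i' + 1) := div_le_div_of_nonneg_right h4 (by positivity)
  have hfin := hwin l hl₂ za yb (by
      have h1 : (l : ℝ) ^ Bf ≤ (H : ℝ) ^ Bf := Real.rpow_le_rpow hl0.le hlH hBf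
      have h2 : (H : ℝ) ^ (Bf + 1) ≤ ya := hyaB _ (by linarith)
      rw [Real.rpow_add hH0, Real.rpow_one] at h2
      have h3 : (H : ℝ) ^ Bf * H ≤ za * H := h2.trans hyaza
      exact h1.trans (le_of_mul_le_mul_right h3 hH0)) (by
      calc za * l ≤ ya * H := by gcongr
        _ ≤ yb := hyab) (by
      calc yb ≤ ya * (H : ℝ) ^ 2 := hyH2
        _ ≤ za * H * (H : ℝ) ^ 2 := by gcongr
        _ = za * (H : ℝ) ^ (3 : ℕ) := by ring
        _ ≤ za * ((l : ℝ) ^ (2 : ℝ)) ^ (3 : ℕ) := by gcongr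
        _ = za * (l : ℝ) ^ (6 : ℝ) := by
            rw [← Real.rpow_natCast ((l : ℝ) ^ (2 : ℝ)), ← Real.rpow_mul hl0.le]
            norm_num) F hFs hFb hFL hFr
  have hsum : ∑ m ∈ Ioc ⌊za⌋₊ ⌊yb⌋₊, (1 / (m : ℝ)) * Wg l m (evB (Q' m)) =
      ∑ n ∈ Ioc ⌊za⌋₊ ⌊yb⌋₊, (1 / (n : ℝ)) * Wg l n (F n).1 := by
    refine sum_congr rfl fun n hn => ?_
    have hn1 : 1 ≤ n := by
      rw [mem_Ioc] at hn
      omega
    rw [hF1 n hn1, evB_eq (hQ'P n hn1).1]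
  rw [hsum] at hQ'm
  have h1 := hQ'm.trans hfin
  have h2 : 0 < Real.log yb - Real.log za := by linarith
  have h3 : δ / 2 * (Real.log yb - Real.log za) < δ * (Real.log yb - Real.log za) :=
    mul_lt_mul_of_pos_right (by linarith) h2
  linarith only [h1, h3]

end

end Pool.Agent.NG
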