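import Pool.Agent.Lib.NG.FULA
import Pool.Agent.Lib.NG.FullC

/-!
# NVG2 (MP_663568_nt), row FULN: the case `[G, N] ≤ M`
-/

set_option autoImplicit false
open Finset Topology

namespace Pool.Agent.NG

open Amb Pool.Agent.Lib.MP_663568_nt Pool.Agent.Lib.MP_663568_nt.Katai
  Pool.Agent.Lib.MP_663568_nt.Nul Pool.Agent.SV Pool.Agent.VQ Pool.Agent.NV

noncomputable section

theorem Wg_mul (l m : ℕ) (c : ℝ) (hc : 0 ≤ c) (f : ℕ → ℂ) :
    Wg l m (fun i => (c : ℂ) * f i) = c * Wg l m f := by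
  unfold Wg
  have h1 : ∑ h ∈ Icc 1 l, muC (m + h) * ((c : ℂ) * f (m + h))
      = (c : ℂ) * ∑ h ∈ Icc 1 l, muC (m + h) * f (m + h) := by
    rw [Finset.mul_sum]
    refine Finset.sum_congr rfl fun h _ => ?_
    ring
  rw [h1, norm_mul, Complex.norm_real, Real.norm_of_nonneg hc, mul_div_assoc]

theorem slowA_one {α : Type} {X : ℕ → α} {K : ℝ} (h : SlowA X K) :
    SlowA (fun n => X (max n 1)) K := by
  intro j
  have h1 := h j
  classical
  have h2 : ((Ico (2 ^ j) (2 ^ (j + 1))).filter fun n => X (max (n + 1) 1) ≠ X (max n 1))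
      = ((Ico (2 ^ j) (2 ^ (j + 1))).filter fun n => X (n + 1) ≠ X n) := by
    refine Finset.filter_congr fun n hn => ?_
    have h3 : 1 ≤ n := (Nat.one_le_two_pow).trans (Finset.mem_Ico.1 hn).1
    rw [max_eq_left h3, max_eq_left (by omega : 1 ≤ n + 1)]
  refine le_trans (le_of_eq ?_) h1
  congr 2

theorem cast_mod_of_dvd {q Q : ℕ} (h : q ∣ Q) (m : ℕ) : ((m % Q : ℕ) : ZMod q) = (m : ZMod q) := by
  rw [ZMod.natCast_eq_natCast_iff]
  exact (Nat.mod_modEq m Q).of_dvd h

theorem fuln_of (hfull : FULLC_stmt) : FULN_stmt := by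
  intro hFUL hCELL _ hDEG U _ Gf d N hG hN hcm F hF q Q E hq hQ hqQ hE
  classical
  obtain ⟨B₀, hB₀⟩ := hF.bd
  refine hCELL (Dat Gf q) (Dat.ev F) _ (|B₀|) ?_ ?_
  · intro x m
    unfold Dat.ev
    split_ifs
    · exact (hB₀ _ (x.ps [] m)).trans (le_abs_self _)
    · rw [norm_zero]
      exact abs_nonneg _
  intro A ε hA hε
  obtain ⟨T, Fs, ξ, hFs, hξ, happ⟩ := hFUL U Gf d N hG hN hcm F hF ε hε
  choose Bd0 hBd0 using fun t => (hFs t).bd
  obtain ⟨Bt, hBt⟩ : ∃ Bt : Fin T → ℝ, Bt = fun t => max 1 (Bd0 t) := ⟨_, rfl⟩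
  have hBt0 : ∀ t, 0 < Bt t := fun t => by
    rw [hBt]
    exact lt_of_lt_of_le one_pos (le_max_left _ _)
  have hBt1 : ∀ t, ∀ x ∈ Gf 0, ‖Fs t x‖ ≤ Bt t := fun t x hx => by
    rw [hBt]
    exact (hBd0 t x hx).trans (le_max_right _ _)
  choose ηf hηf hloc using fun t => fula hDEG U Gf d N (Fs t) (ξ t) Q E (Bt t) hG hN (hFs t)
    (hξ t) hQ hE (hBt0 t)
  refine ⟨T * Q, FD, fun j y m => (Bt (finProdFinEquiv.symm j).1 : ℂ) * y.1 m,
    fun j H A' m y => (∀ i, ‖y.1 i‖ ≤ 1) ∧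
      LS Q (d + 1) (ηf (finProdFinEquiv.symm j).1) H ((m : ℝ) / (H : ℝ) ^ A') m y,
    A + 2, 4, by linarith, ?_, ?_, ?_⟩
  · -- the types
    intro j A' ε' hA' hε'
    obtain ⟨t, ht⟩ : ∃ t, t = (finProdFinEquiv.symm j).1 := ⟨_, rfl⟩
    obtain ⟨B, H₀, hB, h⟩ := hfull (d + 1) Q (ηf t) A' A' (ε' / Bt t) (by omega) hQ (hηf t) hA' hA'
      (div_pos hε' (hBt0 t))
    refine ⟨B, H₀, hB, fun H hH xa xb hxa hxb X hX hP => ?_⟩
    have h1 := h H hH xa xb hxa hxb (fun n => X (max n 1)) (slowA_one hX)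
      (fun n m => (hP (max n 1) (le_max_right _ _)).1 m)
      (fun n hn => by
        have h3 : 1 ≤ n := by
          have := (Finset.mem_Ioc.1 hn).1
          omega
        have h4 := (hP n h3).2
        rw [← ht] at h4
        simp only [max_eq_left h3]
        exact h4)
    have h2 : ∑ n ∈ Ioc ⌊xa⌋₊ ⌊xb⌋₊, (1 / (n : ℝ)) *
        Wg H n (fun m => (Bt (finProdFinEquiv.symm j).1 : ℂ) * (X n).1 m)
        = Bt t * ∑ n ∈ Ioc ⌊xa⌋₊ ⌊xb⌋₊, (1 / (n : ℝ)) * Wg H n (X (max n 1)).1 := by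
      rw [Finset.mul_sum]
      refine Finset.sum_congr rfl fun n hn => ?_
      have h3 : 1 ≤ n := by
        have := (Finset.mem_Ioc.1 hn).1
        omega
      rw [max_eq_left h3, ← ht, Wg_mul _ _ _ (hBt0 t).le]
      ring
    rw [h2]
    calc Bt t * ∑ n ∈ Ioc ⌊xa⌋₊ ⌊xb⌋₊, (1 / (n : ℝ)) * Wg H n (X (max n 1)).1
        ≤ Bt t * (ε' / Bt t * (Real.log xb - Real.log xa)) :=
          mul_le_mul_of_nonneg_left h1 (hBt0 t).le
      _ = ε' * (Real.log xb - Real.log xa) := by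
          rw [← mul_assoc, mul_div_cancel₀ _ (hBt0 t).ne']
  · -- the zero data
    refine ⟨FCx.x0, fun j H A' m => ⟨fun i => ?_, FCx.LS_zero _ _ _ _ _ _⟩⟩
    simp [FCx.x0]
  · -- one cell
    intro H m₀ x hH hm₀ hPL
    have hH0 : (4 : ℝ) ≤ H := by exact_mod_cast hH
    have hH1 : (1 : ℝ) ≤ H := by linarith
    obtain ⟨L, hL⟩ : ∃ L, L = ⌊(m₀ : ℝ) / (H : ℝ) ^ A⌋₊ := ⟨_, rfl⟩
    have hv : ∀ (t : Fin T) (b : Fin Q), ∃ v : ℕ → ℕ → ℝ, ((b : ℕ) : ZMod q) ∈ x.A →
        ∀ m : ℕ, m₀ ≤ m → m < m₀ + L → (m : ℤ) ≡ ((b : ℕ) : ℤ) [ZMOD q] → ∀ ρ : ℝ, 0 < ρ →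
        ∀ h : ℕ, (Q : ℝ) * h ≤ ηf t ρ * H →
        ‖Fs t (x.g ((m + Q * h : ℕ) : ℤ)) - ee (vev (d + 1) v m h) * Fs t (x.g (m : ℤ))‖
          ≤ ρ * Bt t := by
      intro t b
      by_cases hb : ((b : ℕ) : ZMod q) ∈ x.A
      · have h1 : PL Gf N ((b : ℕ) : ℤ) q Q E m₀ L H x.g := by
          rw [hL]
          exact hPL _ (by rwa [Int.cast_natCast])
        obtain ⟨v, hv⟩ := hloc t q ((b : ℕ) : ℤ) m₀ L H x.g hqQ (by omega) x.ps h1
        exact ⟨v, fun _ => hv⟩
      · exact ⟨fun _ _ => 0, fun h => absurd h hb⟩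
    choose v hv using hv
    refine ⟨fun j => (fun m => if m % Q = ((finProdFinEquiv.symm j).2 : ℕ) ∧
        (((finProdFinEquiv.symm j).2 : ℕ) : ZMod q) ∈ x.A then
        Fs (finProdFinEquiv.symm j).1 (x.g (m : ℤ)) / Bt (finProdFinEquiv.symm j).1 else 0,
      v (finProdFinEquiv.symm j).1 (finProdFinEquiv.symm j).2), fun m hm1 hm2 => ⟨?_, ?_⟩⟩
    · -- the sum
      have e1 : ∑ j : Fin (T * Q), (Bt (finProdFinEquiv.symm j).1 : ℂ) *
          (if m % Q = ((finProdFinEquiv.symm j).2 : ℕ) ∧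
            (((finProdFinEquiv.symm j).2 : ℕ) : ZMod q) ∈ x.A then
            Fs (finProdFinEquiv.symm j).1 (x.g (m : ℤ)) / Bt (finProdFinEquiv.symm j).1 else 0)
          = ∑ t, if (m : ZMod q) ∈ x.A then Fs t (x.g (m : ℤ)) else 0 := by
        rw [finProdFinEquiv.symm.sum_comp (fun p : Fin T × Fin Q => (Bt p.1 : ℂ) *
          (if m % Q = (p.2 : ℕ) ∧ ((p.2 : ℕ) : ZMod q) ∈ x.A then
            Fs p.1 (x.g (m : ℤ)) / Bt p.1 else 0)), Fintype.sum_prod_type]
        refine Finset.sum_congr rfl fun t _ => ?_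
        have hQ0 : 0 < Q := hQ
        rw [Finset.sum_eq_single (⟨m % Q, Nat.mod_lt _ hQ0⟩ : Fin Q)]
        · simp only [true_and, cast_mod_of_dvd hqQ]
          split_ifs
          · rw [mul_div_cancel₀]
            exact_mod_cast (hBt0 t).ne'
          · rw [mul_zero]
        · intro b _ hb
          rw [if_neg, mul_zero]
          rintro ⟨h, -⟩
          exact hb (Fin.ext h.symm)
        · intro h
          exact absurd (Finset.mem_univ _) h
      simp only
      rw [e1]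
      unfold Dat.ev
      split_ifs with hm
      · exact happ _ (x.ps [] m)
      · simp [hε.le]
    · -- the local structure
      intro j
      obtain ⟨t, ht⟩ : ∃ t, t = (finProdFinEquiv.symm j).1 := ⟨_, rfl⟩
      obtain ⟨b, hb⟩ : ∃ b, b = (finProdFinEquiv.symm j).2 := ⟨_, rfl⟩
      simp only [← ht, ← hb]
      constructor
      · intro i
        split_ifs
        · rw [norm_div, Complex.norm_real, Real.norm_of_nonneg (hBt0 t).le,
            div_le_one (hBt0 t)]
          exact hBt1 t _ (x.ps [] i)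
        · simp
      · refine ⟨b, fun m' h1 h2 => ⟨fun h => ?_, fun h => ?_⟩⟩
        · rw [Nat.mod_eq_of_lt b.2] at h
          simp [h]
        · rw [Nat.mod_eq_of_lt b.2] at h
          intro ρ hρ k hk
          have h3 : (m' + Q * k) % Q = b := by
            rw [Nat.add_mul_mod_self_left, h]
          simp only [h, h3, true_and]
          split_ifs with hbA
          · -- the range of `m'`
            have hu : 1 ≤ (H : ℝ) ^ A := Real.one_le_rpow hH1 hA
            have hu0 : 0 < (H : ℝ) ^ A := by linarith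
            have hH00 : (0 : ℝ) < H := by linarith
            have e2 : (H : ℝ) ^ (A + 2) = (H : ℝ) ^ A * (H : ℝ) ^ 2 := by
              rw [show A + 2 = A + ((2 : ℕ) : ℝ) by norm_num, Real.rpow_add hH00,
                Real.rpow_natCast]
            have e4 : (H : ℝ) ^ (A + 2 + 2) = (H : ℝ) ^ A * (H : ℝ) ^ 4 := by
              rw [show A + 2 + 2 = A + ((4 : ℕ) : ℝ) by push_cast; ring, Real.rpow_add hH00,
                Real.rpow_natCast]
            have e5 : (H : ℝ) ^ (A + 2 + 3) = (H : ℝ) ^ A * (H : ℝ) ^ 5 := by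
              rw [show A + 2 + 3 = A + ((5 : ℕ) : ℝ) by push_cast; ring, Real.rpow_add hH00,
                Real.rpow_natCast]
            have f2 : (16 : ℝ) ≤ (H : ℝ) ^ 2 := by nlinarith
            have f4 : (256 : ℝ) ≤ (H : ℝ) ^ 4 := by nlinarith
            have f5 : (16 : ℝ) ≤ (H : ℝ) ^ 5 := by nlinarith
            have hm0 : (0 : ℝ) ≤ m₀ := Nat.cast_nonneg _
            have g1 : (m₀ : ℝ) / (H : ℝ) ^ (A + 2) ≤ (m₀ : ℝ) / (H : ℝ) ^ A / 16 := by
              rw [e2, div_div]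
              exact div_le_div_of_nonneg_left hm0 (by positivity)
                (mul_le_mul_of_nonneg_left f2 hu0.le)
            have g2 : (m₀ : ℝ) / (H : ℝ) ^ A ≤ m₀ := div_le_self hm0 hu
            have g3 : (m : ℝ) ≤ 2 * m₀ := by linarith
            have g4 : (m : ℝ) / (H : ℝ) ^ (A + 2 + 2) ≤ (m₀ : ℝ) / (H : ℝ) ^ A / 16 := by
              rw [e4, div_div]
              rw [div_le_div_iff₀ (by positivity) (by positivity)]
              have : (m : ℝ) * ((H : ℝ) ^ A * 16) ≤ 2 * m₀ * ((H : ℝ) ^ A * 16) :=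
                mul_le_mul_of_nonneg_right g3 (by positivity)
              have h5 : (m₀ : ℝ) * (H : ℝ) ^ A * 256 ≤ m₀ * (H : ℝ) ^ A * (H : ℝ) ^ 4 :=
                mul_le_mul_of_nonneg_left f4 (by positivity)
              nlinarith
            have g5 : 16 ≤ (m₀ : ℝ) / (H : ℝ) ^ A := by
              rw [le_div_iff₀ hu0]
              rw [e5] at hm₀
              have : (H : ℝ) ^ A * 16 ≤ (H : ℝ) ^ A * (H : ℝ) ^ 5 :=
                mul_le_mul_of_nonneg_left f5 hu0.le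
              linarith
            have g6 : (m₀ : ℝ) / (H : ℝ) ^ A < L + 1 := by
              rw [hL]
              exact Nat.lt_floor_add_one _
            have g7 : (m' : ℝ) < m₀ + L := by
              have : (m' : ℝ) ≤ m₀ + (m₀ : ℝ) / (H : ℝ) ^ A / 16 + (m₀ : ℝ) / (H : ℝ) ^ A / 16 := by
                linarith
              linarith
            have g8 : m' < m₀ + L := by exact_mod_cast g7
            have g9 : m₀ ≤ m' := hm1.trans (by exact_mod_cast h1)
            have g10 : (m' : ℤ) ≡ ((b : ℕ) : ℤ) [ZMOD q] := by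
              rw [Int.natCast_modEq_iff]
              have : (b : ℕ) ≡ m' [MOD Q] := by
                rw [← h]
                exact Nat.mod_modEq m' Q
              exact (this.of_dvd hqQ).symm
            have h4 := hv t b hbA m' g9 g8 g10 ρ hρ k hk
            have h5 : Fs t (x.g ((m' + Q * k : ℕ) : ℤ)) / (Bt t : ℂ) -
                ee (vev (d + 1) (v t b) m' k) * (Fs t (x.g (m' : ℤ)) / (Bt t : ℂ))
                = (Fs t (x.g ((m' + Q * k : ℕ) : ℤ)) - ee (vev (d + 1) (v t b) m' k) *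
                  Fs t (x.g (m' : ℤ))) / (Bt t : ℂ) := by
              ring
            rw [h5, norm_div, Complex.norm_real, Real.norm_of_nonneg (hBt0 t).le,
              div_le_iff₀ (hBt0 t)]
            exact h4
          · simp [hρ.le]

/-- **Row FULN.** -/
theorem fuln : FULN_stmt := fuln_of fullc

end

end Pool.Agent.NG
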