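import Pool.Agent.Lib.NG.CLS

/-!
# NVG2, row ADJ
-/

set_option autoImplicit false
open Finset Topology

namespace Pool.Agent.NG

open Amb

variable {U : Type} [Amb U]

/-- closed subgroups which contain the roots of their elements are closed under real powers -/
theorem pwC_of_root {L : Subgroup U} (hcl : IsClosed (L : Set U))
    (h : ∀ x ∈ L, ∀ n : ℕ, 1 ≤ n → pw (1 / n : ℝ) x ∈ L) : PwC L := by
  intro x hx t
  refine (Rat.denseRange_cast (𝕜 := ℝ)).induction_on (p := fun s : ℝ => pw s x ∈ L) t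
    (hcl.preimage (pw_continuous x)) ?_
  intro q
  have hd : (q.den : ℝ) ≠ 0 := by exact_mod_cast q.den_ne_zero
  have hq : (q : ℝ) = (q.num : ℝ) * (1 / q.den : ℝ) := by
    rw [mul_one_div, eq_div_iff hd, mul_comm]
    exact_mod_cast Rat.den_mul_eq_num q
  rw [hq, pw_mul, pw_int]
  exact L.zpow_mem (h x hx q.den (Nat.one_le_iff_ne_zero.2 q.den_ne_zero)) _

/-- **row ADJ** -/
theorem adj_row : ADJ_stmt := by
  intro U _ G H M z hG hH hM hMH hHG hnH hnM hzLa hzG hcen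
  have hzt : ∀ t : ℝ, pw t z ∈ G := fun t => hG.pwc z hzG t
  have hconjH : ∀ g ∈ G, ∀ h ∈ H, g⁻¹ * h * g ∈ H := by
    intro g hg h hh
    have := hnH g⁻¹ (G.inv_mem hg) h hh
    rwa [inv_inv] at this
  let L : Subgroup U :=
    { carrier := {x | ∃ h ∈ H, ∃ t : ℝ, x = h * pw t z}
      mul_mem' := by
        rintro a b ⟨h, hh, s, rfl⟩ ⟨h', hh', t, rfl⟩
        refine ⟨h * (pw s z * h' * (pw s z)⁻¹), H.mul_mem hh (hnH _ (hzt s) _ hh'), s + t, ?_⟩
        rw [pw_add]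
        group
      one_mem' := ⟨1, H.one_mem, 0, by rw [pw_zero, mul_one]⟩
      inv_mem' := by
        rintro a ⟨h, hh, s, rfl⟩
        refine ⟨(pw s z)⁻¹ * h⁻¹ * pw s z, hconjH _ (hzt s) _ (H.inv_mem hh), -s, ?_⟩
        rw [pw_neg]
        group }
  have hL : ∀ x, x ∈ L ↔ ∃ h ∈ H, ∃ t : ℝ, x = h * pw t z := fun _ => Iff.rfl
  have hadj : adj H z = L := Subgroup.closure_eq L
  have hHL : H ≤ L := fun x hx => ⟨x, hx, 0, by rw [pw_zero, mul_one]⟩
  have hzL : ∀ t, pw t z ∈ L := fun t => ⟨1, H.one_mem, t, by rw [one_mul]⟩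
  have hLG : L ≤ G := by
    rintro x ⟨h, hh, t, rfl⟩
    exact G.mul_mem (hHG hh) (hzt t)
  obtain ⟨K, hK, hKH, hKγ⟩ := hH.coc
  -- cocompactness
  let K' : Set U := (fun q : ℝ × U => pw q.1 z * q.2) '' (Set.Icc (0 : ℝ) 1 ×ˢ K)
  have hK' : IsCompact K' := (isCompact_Icc.prod hK).image
    (((pw_continuous z).comp continuous_fst).mul continuous_snd)
  have hK'L : K' ⊆ L := by
    rintro x ⟨⟨v, k⟩, ⟨-, hk⟩, rfl⟩
    exact L.mul_mem (hzL v) (hHL (hKH hk))
  have hcoc : ∀ x ∈ L, ∃ k ∈ K', ∃ γ ∈ (La : Subgroup U), γ ∈ L ∧ x = k * γ := by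
    rintro x ⟨h, hh, t, rfl⟩
    obtain ⟨k, hk, γ, hγ, hγH, he⟩ := hKγ _ (hconjH (pw (Int.fract t) z) (hzt _) h hh)
    refine ⟨pw (Int.fract t) z * k, ⟨(Int.fract t, k), ⟨⟨Int.fract_nonneg t,
      (Int.fract_lt_one t).le⟩, hk⟩, rfl⟩, γ * z ^ ⌊t⌋, (La : Subgroup U).mul_mem hγ
      ((La : Subgroup U).zpow_mem hzLa _), L.mul_mem (hHL hγH) ?_, ?_⟩
    · rw [← pw_int]
      exact hzL _
    · have h1 : pw (Int.fract t) z * k * (γ * z ^ ⌊t⌋) =
          pw (Int.fract t) z * (k * γ) * z ^ ⌊t⌋ := by group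
      rw [h1, ← he, ← pw_int]
      have h2 : pw t z = pw (Int.fract t) z * pw (⌊t⌋ : ℝ) z := by
        rw [← pw_add, Int.fract_add_floor]
      rw [h2]
      group
  have hcl : IsClosed (L : Set U) := by
    have h1 := (cls U).2 K' {γ | γ ∈ (La : Subgroup U) ∧ γ ∈ L} hK' (fun γ h => h.1)
    convert h1 using 1
    ext x
    constructor
    · intro hx
      obtain ⟨k, hk, γ, hγ, hγL, he⟩ := hcoc x hx
      exact ⟨k, hk, γ, ⟨hγ, hγL⟩, he⟩
    · rintro ⟨k, hk, γ, ⟨-, hγL⟩, rfl⟩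
      exact L.mul_mem (hK'L hk) hγL
  have hpwc : PwC L := by
    refine pwC_of_root hcl ?_
    rintro x ⟨h, hh, t, hx⟩ n hn
    have hn0 : (n : ℝ) ≠ 0 := by
      have : n ≠ 0 := by omega
      exact_mod_cast this
    have hxG : x ∈ G := by
      rw [hx]
      exact G.mul_mem (hHG hh) (hzt t)
    set y := pw (1 / n : ℝ) x with hy
    have hyG : y ∈ G := hG.pwc x hxG _
    have hyn : y ^ n = x := by
      rw [hy, pow_pw, mul_one_div_cancel hn0, pw_one]
    obtain ⟨s, hs⟩ : ∃ s : ℝ, s = -(t / n) := ⟨_, rfl⟩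
    -- powers modulo `M`
    have key : ∀ j : ℕ, ∃ m ∈ M, (y * pw s z) ^ j = m * y ^ j * pw (j * s) z := by
      intro j
      induction j with
      | zero => exact ⟨1, M.one_mem, by rw [pow_zero, pow_zero, Nat.cast_zero, zero_mul, pw_zero]; group⟩
      | succ j ih =>
        obtain ⟨m, hm, he⟩ := ih
        have h1 : (y * pw (j * s) z * y⁻¹ * (pw (j * s) z)⁻¹)⁻¹ ∈ M := M.inv_mem (hcen y hyG _)
        have h2 := hnM (y ^ j) (G.pow_mem hyG j) _ h1
        refine ⟨m * (y ^ j * (y * pw (j * s) z * y⁻¹ * (pw (j * s) z)⁻¹)⁻¹ * (y ^ j)⁻¹),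
          M.mul_mem hm h2, ?_⟩
        rw [pow_succ, he]
        have h3 : pw ((j + 1 : ℕ) * s) z = pw (j * s) z * pw s z := by
          rw [← pw_add]
          congr 1
          push_cast
          ring
        rw [h3, pow_succ]
        group
    obtain ⟨m, hm, he⟩ := key n
    have h1 : (n : ℝ) * s = -t := by
      rw [hs]
      field_simp
    rw [hyn, h1, hx, pw_neg] at he
    have h2 : (y * pw s z) ^ n ∈ H := by
      rw [he]
      have h3 : m * (h * pw t z) * (pw t z)⁻¹ = m * h := by group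
      rw [h3]
      exact H.mul_mem (hMH hm) hh
    have h4 : y * pw s z ∈ H := hH.pwc.pow_mem (by omega) h2
    refine ⟨y * pw s z, h4, -s, ?_⟩
    rw [pw_neg]
    group
  rw [hadj]
  refine ⟨hL, ⟨hpwc, hcl, K', hK', hK'L, hcoc⟩, ?_, hLG⟩
  rintro g hg x ⟨h, hh, t, rfl⟩
  refine ⟨g * h * g⁻¹ * (g * pw t z * g⁻¹ * (pw t z)⁻¹), H.mul_mem (hnH g hg h hh)
    (hMH (hcen g hg t)), t, ?_⟩
  group

end Pool.Agent.NG
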