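import Pool.Agent.Lib.NG.C

/-!
# NVG2, row CELL: families which are sums of data of finitely many types on each cell
-/

set_option autoImplicit false
open Finset Topology

namespace Pool.Agent.NG

open Amb Pool.Agent.Lib.MP_663568_nt Pool.Agent.Lib.MP_663568_nt.Katai
  Pool.Agent.Lib.MP_663568_nt.Nul Pool.Agent.SV Pool.Agent.VQ Pool.Agent.NV

noncomputable section

namespace CELLx

theorem sum_inv_le (xa xb : ℝ) (hxa : 2 ≤ xa) (hab : xa ≤ xb) :
    ∑ n ∈ Ioc ⌊xa⌋₊ ⌊xb⌋₊, (1 / (n : ℝ)) ≤ Real.log xb - Real.log xa + 1 := by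
  have h1 : ∀ a b : ℕ, 1 ≤ a → a ≤ b → ∑ n ∈ Ioc a b, (1 / (n : ℝ)) ≤
      Real.log b - Real.log a := by
    intro a b ha hab
    induction b, hab using Nat.le_induction with
    | base => simp
    | succ b hab ih =>
      rw [← Finset.insert_Ioc_right_eq_Ioc_add_one (by omega), sum_insert (by simp)]
      have hb0 : (0 : ℝ) < b := by
        have : 0 < b := by omega
        exact_mod_cast this
      have h2 : 1 / ((b + 1 : ℕ) : ℝ) ≤ Real.log ((b + 1 : ℕ) : ℝ) - Real.log b := by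
        have h3 := Real.log_le_sub_one_of_pos (show 0 < (b : ℝ) / (b + 1) by positivity)
        rw [Real.log_div hb0.ne' (by positivity)] at h3
        have h4 : (b : ℝ) / (b + 1) - 1 = -(1 / (b + 1)) := by field_simp; ring
        rw [h4] at h3
        push_cast
        linarith
      linarith
  have h0 : 2 ≤ ⌊xa⌋₊ := Nat.le_floor (by exact_mod_cast hxa)
  refine (h1 _ _ (by omega) (Nat.floor_mono hab)).trans ?_
  have h2 : Real.log (⌊xb⌋₊ : ℝ) ≤ Real.log xb := by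
    apply Real.log_le_log
    · have : 0 < ⌊xb⌋₊ := lt_of_lt_of_le (by omega) (Nat.floor_mono hab)
      exact_mod_cast this
    · exact Nat.floor_le (by linarith)
  have h3 : Real.log xa - 1 ≤ Real.log (⌊xa⌋₊ : ℝ) := by
    have h4 : xa / Real.exp 1 ≤ (⌊xa⌋₊ : ℝ) := by
      have h5 := Nat.lt_floor_add_one xa
      have h6 : (2 : ℝ) ≤ Real.exp 1 := by
        have := Real.add_one_le_exp (1 : ℝ)
        linarith
      rw [div_le_iff₀ (Real.exp_pos 1)]
      have h7 : (2 : ℝ) ≤ ⌊xa⌋₊ := by exact_mod_cast h0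
      nlinarith
    have h5 := Real.log_le_log (by positivity) h4
    rwa [Real.log_div (by linarith) (Real.exp_ne_zero 1), Real.log_exp] at h5
  linarith

lemma jumps {c : ℕ → ℕ} (hc : Monotone c) (a : ℕ) : ∀ k : ℕ,
    #((Ico a (a + k)).filter fun n => c (n + 1) ≠ c n) + c a ≤ c (a + k) := by
  intro k
  induction k with
  | zero => simp
  | succ k ih =>
    have h1 : Ico a (a + (k + 1)) = insert (a + k) (Ico a (a + k)) := by
      ext n
      simp only [mem_Ico, mem_insert]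
      omega
    rw [h1, Finset.filter_insert]
    have h2 : c (a + k) ≤ c (a + (k + 1)) := hc (by omega)
    split_ifs with h
    · have h3 := Finset.card_insert_le (a + k) ((Ico a (a + k)).filter fun n => c (n + 1) ≠ c n)
      have h4 : c (a + k) ≠ c (a + (k + 1)) := fun h' => h h'.symm
      omega
    · omega

lemma slow_of {α β : Type} {Q : ℕ → α} {Q' : ℕ → β} {c : ℕ → ℕ} {K R : ℝ} (hQ : SlowA Q K)
    (h : ∀ n, Q (n + 1) = Q n → c (n + 1) = c n → Q' (n + 1) = Q' n)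
    (hc : ∀ j : ℕ, (#((Ico (2 ^ j) (2 ^ (j + 1))).filter fun n => c (n + 1) ≠ c n) : ℝ) ≤ R) :
    SlowA Q' (K + R) := by
  intro j
  classical
  have h1 := hQ j
  refine le_trans ?_ (add_le_add h1 (hc j))
  norm_cast
  refine (Finset.card_le_card ?_).trans (Finset.card_union_le _ _)
  intro n hn
  rw [mem_filter] at hn
  rw [mem_union, mem_filter, mem_filter]
  by_cases h2 : Q (n + 1) = Q n
  · refine Or.inr ⟨hn.1, fun h3 => hn.2 (h n h2 h3)⟩
  · exact Or.inl ⟨hn.1, h2⟩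

/-- the cell of `m` -/
def ce (K m : ℕ) : ℕ := ⌊(K : ℝ) * Real.log m⌋₊

lemma ce_mono (K : ℕ) : Monotone (ce K) := by
  intro a b hab
  unfold ce
  rcases Nat.eq_zero_or_pos a with h | h
  · rw [h]
    simp
  · refine Nat.floor_le_floor ?_
    have h1 : (0 : ℝ) < a := by exact_mod_cast h
    have h2 : (a : ℝ) ≤ b := by exact_mod_cast hab
    have h3 := Real.log_le_log h1 h2
    gcongr

lemma ce_jumps (K j : ℕ) :
    (#((Ico (2 ^ j) (2 ^ (j + 1))).filter fun n => ce K (n + 1) ≠ ce K n) : ℝ) ≤ K + 1 := by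
  have h1 := jumps (ce_mono K) (2 ^ j) (2 ^ j)
  have h2 : 2 ^ j + 2 ^ j = 2 ^ (j + 1) := by rw [pow_succ]; ring
  rw [h2] at h1
  have h3 : ((#((Ico (2 ^ j) (2 ^ (j + 1))).filter fun n => ce K (n + 1) ≠ ce K n) : ℕ) : ℝ)
      + (ce K (2 ^ j) : ℕ) ≤ (ce K (2 ^ (j + 1)) : ℕ) := by exact_mod_cast h1
  have hl : 0 ≤ Real.log 2 := Real.log_nonneg (by norm_num)
  have h4 : ((ce K (2 ^ (j + 1)) : ℕ) : ℝ) ≤ K * ((j + 1) * Real.log 2) := by
    have h5 : (K : ℝ) * Real.log ((2 ^ (j + 1) : ℕ) : ℝ) = K * ((j + 1) * Real.log 2) := by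
      push_cast
      rw [Real.log_pow]
      push_cast
      ring
    unfold ce
    rw [h5]
    exact Nat.floor_le (by positivity)
  have h6 : (K : ℝ) * (j * Real.log 2) < (ce K (2 ^ j) : ℕ) + 1 := by
    have h5 : (K : ℝ) * Real.log ((2 ^ j : ℕ) : ℝ) = K * (j * Real.log 2) := by
      push_cast
      rw [Real.log_pow]
    unfold ce
    rw [h5]
    exact Nat.lt_floor_add_one _
  have h7 : (K : ℝ) * Real.log 2 ≤ K * 1 := by
    have := Real.log_two_lt_d9
    gcongr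
    linarith
  linarith only [h3, h4, h6, h7]


open Classical in
/-- the start of the run of `m` -/
def st {α : Type} (X : ℕ → α) (c : ℕ → ℕ) : ℕ → ℕ
  | 0 => 0
  | m + 1 => if X (m + 1) = X m ∧ c (m + 1) = c m then st X c m else m + 1

lemma st_spec {α : Type} (X : ℕ → α) (c : ℕ → ℕ) (m : ℕ) :
    st X c m ≤ m ∧ X (st X c m) = X m ∧ c (st X c m) = c m := by
  induction m with
  | zero => exact ⟨le_rfl, rfl, rfl⟩
  | succ m ih =>
    unfold st
    split_ifs with h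
    · exact ⟨ih.1.trans (Nat.le_succ m), ih.2.1.trans h.1.symm, ih.2.2.trans h.2.symm⟩
    · exact ⟨le_rfl, rfl, rfl⟩

lemma st_succ {α : Type} (X : ℕ → α) (c : ℕ → ℕ) (m : ℕ) (h1 : X (m + 1) = X m)
    (h2 : c (m + 1) = c m) : st X c (m + 1) = st X c m := by
  conv_lhs => unfold st
  rw [if_pos ⟨h1, h2⟩]

lemma st_pos {α : Type} (X : ℕ → α) (K : ℕ) (m : ℕ) (hm : 1 ≤ m) (hK : 1 ≤ K)
    (h : 1 ≤ ce K m) : 1 ≤ st X (ce K) m := by
  by_contra h1
  have h2 : st X (ce K) m = 0 := by omega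
  have h3 := (st_spec X (ce K) m).2.2
  rw [h2] at h3
  have h4 : ce K 0 = 0 := by simp [ce]
  omega

/-- the length of a run -/
lemma le_of_ce {K a b : ℕ} (hK : 1 ≤ K) (ha : 1 ≤ a) (hab : a ≤ b) (h : ce K a = ce K b) :
    (b : ℝ) ≤ a + 2 * a / K := by
  have ha0 : (0 : ℝ) < a := by exact_mod_cast ha
  have hb0 : (0 : ℝ) < b := by
    have : 0 < b := by omega
    exact_mod_cast this
  have hK0 : (0 : ℝ) < K := by exact_mod_cast hK
  have hla : 0 ≤ Real.log a := Real.log_nonneg (by exact_mod_cast ha)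
  have h1 : (K : ℝ) * Real.log b < ce K b + 1 := Nat.lt_floor_add_one _
  have h2 : (ce K a : ℝ) ≤ K * Real.log a := Nat.floor_le (by positivity)
  rw [← h] at h1
  have h3 : Real.log b - Real.log a < 1 / K := by
    rw [lt_div_iff₀ hK0]
    linarith
  have h4 : (b : ℝ) / a ≤ Real.exp (1 / K) := by
    rw [← Real.log_le_iff_le_exp (by positivity), Real.log_div hb0.ne' ha0.ne']
    exact h3.le
  have h5 : Real.exp (1 / K : ℝ) ≤ 1 + 2 / K := by
    have h6 : (1 : ℝ) / K ≤ 1 := by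
      rw [div_le_one hK0]
      exact_mod_cast hK
    have h7 := Real.abs_exp_sub_one_le (x := 1 / K) (by rwa [abs_of_nonneg (by positivity)])
    have h8 := le_abs_self (Real.exp (1 / K : ℝ) - 1)
    rw [abs_of_nonneg (by positivity : (0 : ℝ) ≤ 1 / K)] at h7
    have h9 : (2 : ℝ) / K = 2 * (1 / K) := by ring
    linarith
  have h6 := h4.trans h5
  rw [div_le_iff₀ ha0] at h6
  calc (b : ℝ) ≤ (1 + 2 / K) * a := h6
    _ = a + 2 * a / K := by ring

/-- a window of a sum -/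
lemma wg_le {T : ℕ} {l m : ℕ} (hl : 1 ≤ l) {f : ℕ → ℂ} {f' : Fin T → ℕ → ℂ} {δ : ℝ}
    (h : ∀ h ∈ Icc 1 l, ‖f (m + h) - ∑ j, f' j (m + h)‖ ≤ δ) :
    Wg l m f ≤ ∑ j, Wg l m (f' j) + δ := by
  have hl0 : (0 : ℝ) < l := by exact_mod_cast hl
  have hmu : ∀ n, ‖muC n‖ ≤ 1 := by
    intro n
    unfold muC
    rw [Complex.norm_intCast]
    exact_mod_cast ArithmeticFunction.abs_moebius_le_one (n := n)
  unfold Wg
  rw [← sum_div, ← sub_le_iff_le_add', ← sub_div, div_le_iff₀ hl0, sub_le_iff_le_add']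
  have h1 : ∑ h ∈ Icc 1 l, muC (m + h) * f (m + h) =
      ∑ j, ∑ h ∈ Icc 1 l, muC (m + h) * f' j (m + h) +
        ∑ h ∈ Icc 1 l, muC (m + h) * (f (m + h) - ∑ j, f' j (m + h)) := by
    rw [sum_comm, ← sum_add_distrib]
    refine sum_congr rfl fun h _ => ?_
    rw [← mul_sum]
    ring
  rw [h1]
  refine (norm_add_le _ _).trans (add_le_add (norm_sum_le _ _) ?_)
  refine (norm_sum_le _ _).trans ?_
  calc ∑ h ∈ Icc 1 l, ‖muC (m + h) * (f (m + h) - ∑ j, f' j (m + h))‖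
      ≤ ∑ _h ∈ Icc 1 l, δ := by
        refine sum_le_sum fun x hx => ?_
        rw [norm_mul]
        calc ‖muC (m + x)‖ * ‖f (m + x) - ∑ j, f' j (m + x)‖
            ≤ 1 * ‖f (m + x) - ∑ j, f' j (m + x)‖ :=
              mul_le_mul_of_nonneg_right (hmu _) (norm_nonneg _)
          _ ≤ δ := by rw [one_mul]; exact h x hx
    _ = δ * l := by simp [mul_comm]

end CELLx

open CELLx in
/-- **row CELL** (with `A ≤ A₁`) -/
theorem cell {α : Type} {ev : α → ℕ → ℂ} {P : ℕ → ℝ → ℕ → α → Prop}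
    (hyp : ∀ A ε : ℝ, 0 ≤ A → 0 < ε → ∃ (T : ℕ) (β : Type) (ev' : Fin T → β → ℕ → ℂ)
      (P' : Fin T → ℕ → ℝ → ℕ → β → Prop) (A₁ : ℝ) (H₁ : ℕ), A ≤ A₁ ∧
      (∀ j, Sm (ev' j) (P' j)) ∧ (∀ j, ∃ y, ∀ H A m, P' j H A m y) ∧
      ∀ (H m₀ : ℕ) (x : α), H₁ ≤ H → (H : ℝ) ^ (A₁ + 3) ≤ m₀ → P H A m₀ x →
      ∃ y : Fin T → β, ∀ m : ℕ, m₀ ≤ m → (m : ℝ) ≤ m₀ + m₀ / (H : ℝ) ^ A₁ →
        ‖ev x m - ∑ j, ev' j (y j) m‖ ≤ ε ∧ ∀ j, P' j H (A₁ + 2) m (y j)) :
    Sm ev P := by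
  classical
  intro A ε hA hε
  obtain ⟨T, β, ev', P', A₁, H₁, hAA, hSm, hdef, hmain⟩ := hyp A (ε / 4) hA (by positivity)
  have hA₁ : 0 ≤ A₁ := hA.trans hAA
  have hT0 : (0 : ℝ) ≤ T := Nat.cast_nonneg T
  set ε₁ : ℝ := ε / (2 * (T + 1)) with hε₁
  have hε₁0 : 0 < ε₁ := by positivity
  choose Bj Hj hBj hSj using fun j => hSm j (A₁ + 2) ε₁ (by linarith) hε₁0
  choose yd hyd using hdef
  refine ⟨∑ j, Bj j + A₁ + 5, ∑ j, Hj j + H₁ + 100, ?_, ?_⟩
  · have := sum_nonneg fun j (_ : j ∈ (univ : Finset (Fin T))) => hBj j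
    linarith
  intro H hH xa xb hxa hxb X hX hPX
  have hH100 : (100 : ℝ) ≤ H := by
    have : 100 ≤ H := by omega
    exact_mod_cast this
  have hH1 : (1 : ℝ) ≤ H := by linarith
  have hH0 : (0 : ℝ) < H := by linarith
  have hsumB := sum_nonneg fun j (_ : j ∈ (univ : Finset (Fin T))) => hBj j
  -- the cells
  set K : ℕ := ⌈4 * (H : ℝ) ^ A₁⌉₊ with hK
  have hHA : 1 ≤ (H : ℝ) ^ A₁ := Real.one_le_rpow hH1 hA₁
  have hKge : 4 * (H : ℝ) ^ A₁ ≤ K := Nat.le_ceil _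
  have hKlt : (K : ℝ) < 4 * (H : ℝ) ^ A₁ + 1 := Nat.ceil_lt_add_one (by positivity)
  have hK0 : (0 : ℝ) < K := by linarith
  have hK1 : 1 ≤ K := by
    have : (1 : ℝ) ≤ K := by linarith
    exact_mod_cast this
  -- the choices
  have hch : ∀ m₀ : ℕ, (H : ℝ) ^ (A₁ + 3) ≤ m₀ → ∃ y : Fin T → β, ∀ m : ℕ, m₀ ≤ m →
      (m : ℝ) ≤ m₀ + m₀ / (H : ℝ) ^ A₁ →
      ‖ev (X m₀) m - ∑ j, ev' j (y j) m‖ ≤ ε / 4 ∧ ∀ j, P' j H (A₁ + 2) m (y j) := by
    intro m₀ hm₀
    have h1 : 1 ≤ m₀ := by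
      have h2 : (1 : ℝ) ≤ (H : ℝ) ^ (A₁ + 3) := Real.one_le_rpow hH1 (by linarith)
      exact_mod_cast h2.trans hm₀
    exact hmain H m₀ (X m₀) (by omega) hm₀ (hPX m₀ h1)
  let Yc : ℕ → Fin T → β := fun m₀ =>
    if h : (H : ℝ) ^ (A₁ + 3) ≤ m₀ then (hch m₀ h).choose else yd
  let s : ℕ → ℕ := st X (ce K)
  have hs : ∀ m, s m ≤ m ∧ X (s m) = X m ∧ ce K (s m) = ce K m := st_spec X (ce K)
  let Y : Fin T → ℕ → β := fun j m => Yc (s m) j
  have hYslow : ∀ j, SlowA (Y j) ((H : ℝ) ^ (A₁ + 2)) := by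
    intro j
    have h1 : SlowA (Y j) ((H : ℝ) ^ A + (K + 1)) := by
      refine slow_of (Q := X) (c := ce K) hX ?_ (ce_jumps K)
      intro n h1 h2
      change Yc (s (n + 1)) j = Yc (s n) j
      have h3 : s (n + 1) = s n := st_succ X (ce K) n h1 h2
      rw [h3]
    intro i
    refine (h1 i).trans ?_
    have h2 : (H : ℝ) ^ A ≤ (H : ℝ) ^ A₁ := Real.rpow_le_rpow_of_exponent_le hH1 hAA
    have h3 : (H : ℝ) ^ (A₁ + 2) = (H : ℝ) ^ A₁ * (H * H) := by
      rw [Real.rpow_add hH0]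
      norm_num [pow_two]
    rw [h3]
    have h4 : (7 : ℝ) ≤ H * H := by nlinarith
    calc (H : ℝ) ^ A + (K + 1) ≤ (H : ℝ) ^ A₁ * 7 := by linarith
      _ ≤ (H : ℝ) ^ A₁ * (H * H) := mul_le_mul_of_nonneg_left h4 (by linarith)
  -- the bound for a run
  have hrun : ∀ m, 1 ≤ s m → (m : ℝ) ≤ s m + s m / (2 * (H : ℝ) ^ A₁) := by
    intro m hm
    have h1 := le_of_ce hK1 hm (hs m).1 (hs m).2.2
    have hs0 : (0 : ℝ) ≤ s m := Nat.cast_nonneg _
    have h2 : 2 * (s m : ℝ) / K ≤ s m / (2 * (H : ℝ) ^ A₁) := by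
      rw [div_le_div_iff₀ hK0 (by positivity)]
      nlinarith
    linarith
  have hYP : ∀ j, ∀ m : ℕ, 1 ≤ m → P' j H (A₁ + 2) m (Y j m) := by
    intro j m hm
    change P' j H (A₁ + 2) m (Yc (s m) j)
    by_cases h : (H : ℝ) ^ (A₁ + 3) ≤ s m
    · have h1 : Yc (s m) = (hch (s m) h).choose := dif_pos h
      rw [h1]
      have h2 : 1 ≤ s m := by
        have h2 : (1 : ℝ) ≤ (H : ℝ) ^ (A₁ + 3) := Real.one_le_rpow hH1 (by linarith)
        exact_mod_cast h2.trans h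
      refine ((hch (s m) h).choose_spec m (hs m).1 ?_).2 j
      have h3 := hrun m h2
      have h4 : (s m : ℝ) / (2 * (H : ℝ) ^ A₁) ≤ s m / (H : ℝ) ^ A₁ :=
        div_le_div_of_nonneg_left (Nat.cast_nonneg _) (by positivity) (by linarith)
      linarith
    · have h1 : Yc (s m) = yd := dif_neg h
      rw [h1]
      exact hyd j _ _ _
  -- the windows
  have hbig : (H : ℝ) ^ (A₁ + 4) ≤ xa := by
    refine (Real.rpow_le_rpow_of_exponent_le hH1 ?_).trans hxa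
    linarith
  have hpow4 : (H : ℝ) ^ (A₁ + 4) = (H : ℝ) ^ (A₁ + 3) * H := by
    rw [show A₁ + 4 = (A₁ + 3) + 1 by ring, Real.rpow_add hH0, Real.rpow_one]
  have hpow3 : (H : ℝ) ^ (A₁ + 3) = (H : ℝ) ^ A₁ * H ^ 3 := by
    rw [Real.rpow_add hH0]
    norm_num
  have hwin : ∀ n ∈ Ioc ⌊xa⌋₊ ⌊xb⌋₊, Wg H n (ev (X n)) ≤ ∑ j, Wg H n (ev' j (Y j n)) + ε / 4 := by
    intro n hn
    rw [mem_Ioc] at hn
    have hnxa : xa < n := Nat.lt_of_floor_lt hn.1
    have hxa0 : 1 ≤ xa := (Real.one_le_rpow hH1 (by linarith)).trans hbig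
    have hn1 : 1 ≤ n := by
      have : (1 : ℝ) < n := lt_of_le_of_lt hxa0 hnxa
      exact_mod_cast this.le
    -- the start of the run is large
    have hce : 1 ≤ ce K n := by
      unfold ce
      refine Nat.le_floor ?_
      have h1 : 1 ≤ Real.log n := by
        rw [Real.le_log_iff_exp_le (by linarith)]
        have h2 : Real.exp 1 < 3 := Real.exp_one_lt_d9.trans (by norm_num)
        have h3 : (100 : ℝ) ≤ (H : ℝ) ^ (A₁ + 4) := by
          calc (100 : ℝ) ≤ H := hH100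
            _ = (H : ℝ) ^ (1 : ℝ) := (Real.rpow_one _).symm
            _ ≤ _ := Real.rpow_le_rpow_of_exponent_le hH1 (by linarith)
        linarith
      have h2 : (1 : ℝ) ≤ K := by exact_mod_cast hK1
      push_cast
      nlinarith
    have hs1 : 1 ≤ s n := st_pos X K n hn1 hK1 hce
    have h1 := hrun n hs1
    have hs0 : (0 : ℝ) ≤ s n := Nat.cast_nonneg _
    have h2 : (s n : ℝ) / (2 * (H : ℝ) ^ A₁) ≤ s n := by
      rw [div_le_iff₀ (by positivity)]
      nlinarith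
    have hsbig : (H : ℝ) ^ (A₁ + 3) ≤ s n := by
      have h3 : (H : ℝ) ^ (A₁ + 3) * H < 2 * s n := by
        rw [← hpow4]
        linarith
      have h4 : 0 < (H : ℝ) ^ (A₁ + 3) := by positivity
      nlinarith
    have hYc : ∀ j, Y j n = (hch (s n) hsbig).choose j := by
      intro j
      change Yc (s n) j = _
      have h1 : Yc (s n) = (hch (s n) hsbig).choose := dif_pos hsbig
      rw [h1]
    refine wg_le (by omega) ?_
    intro h hh
    rw [mem_Icc] at hh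
    have h5 := ((hch (s n) hsbig).choose_spec (n + h) ((hs n).1.trans (Nat.le_add_right _ _)) (by
      push_cast
      have h6 : (h : ℝ) ≤ H := by exact_mod_cast hh.2
      have h7 : (H : ℝ) ≤ s n / (2 * (H : ℝ) ^ A₁) := by
        rw [le_div_iff₀ (by positivity)]
        refine le_trans ?_ hsbig
        rw [hpow3]
        have h8 : (2 : ℝ) ≤ H ^ 2 := by nlinarith
        calc (H : ℝ) * (2 * (H : ℝ) ^ A₁) = (H : ℝ) ^ A₁ * (H * 2) := by ring
          _ ≤ (H : ℝ) ^ A₁ * (H * H ^ 2) := by gcongr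
          _ = (H : ℝ) ^ A₁ * H ^ 3 := by ring
      have h8 : (s n : ℝ) / (2 * (H : ℝ) ^ A₁) + s n / (2 * (H : ℝ) ^ A₁) =
          s n / (H : ℝ) ^ A₁ := by
        field_simp
        ring
      linarith)).1
    have h9 : ∑ j, ev' j ((hch (s n) hsbig).choose j) (n + h) =
        ∑ j, ev' j (Y j n) (n + h) := by
      refine sum_congr rfl fun j _ => ?_
      rw [hYc]
    rw [h9, (hs n).2.1] at h5
    exact h5
  -- the logarithm
  have hxa2 : 2 ≤ xa := by
    have h3 : (100 : ℝ) ≤ (H : ℝ) ^ (A₁ + 4) := by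
      calc (100 : ℝ) ≤ H := hH100
        _ = (H : ℝ) ^ (1 : ℝ) := (Real.rpow_one _).symm
        _ ≤ _ := Real.rpow_le_rpow_of_exponent_le hH1 (by linarith)
    linarith
  have hxab : xa ≤ xb := by nlinarith
  have hlog : 1 ≤ Real.log xb - Real.log xa := by
    have h1 : Real.log (xa * H) ≤ Real.log xb := Real.log_le_log (by positivity) hxb
    rw [Real.log_mul (by linarith) (by linarith)] at h1
    have h2 : 1 ≤ Real.log H := by
      rw [Real.le_log_iff_exp_le hH0]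
      have h2 : Real.exp 1 < 3 := Real.exp_one_lt_d9.trans (by norm_num)
      linarith
    linarith
  have hharm := sum_inv_le xa xb hxa2 hxab
  have hj : ∀ j, ∑ n ∈ Ioc ⌊xa⌋₊ ⌊xb⌋₊, (1 / (n : ℝ)) * Wg H n (ev' j (Y j n)) ≤
      ε₁ * (Real.log xb - Real.log xa) := by
    intro j
    refine hSj j H ?_ xa xb ?_ hxb (Y j) (hYslow j) (hYP j)
    · have := single_le_sum (f := Hj) (fun i _ => Nat.zero_le _) (mem_univ j)
      omega
    · refine (Real.rpow_le_rpow_of_exponent_le hH1 ?_).trans hxa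
      have := single_le_sum (f := Bj) (fun i _ => hBj i) (mem_univ j)
      linarith
  calc ∑ n ∈ Ioc ⌊xa⌋₊ ⌊xb⌋₊, (1 / (n : ℝ)) * Wg H n (ev (X n))
      ≤ ∑ n ∈ Ioc ⌊xa⌋₊ ⌊xb⌋₊, (∑ j, (1 / (n : ℝ)) * Wg H n (ev' j (Y j n)) +
          (1 / (n : ℝ)) * (ε / 4)) := by
        refine sum_le_sum fun n hn => ?_
        rw [← mul_sum, ← mul_add]
        exact mul_le_mul_of_nonneg_left (hwin n hn) (by positivity)
    _ = ∑ j, ∑ n ∈ Ioc ⌊xa⌋₊ ⌊xb⌋₊, (1 / (n : ℝ)) * Wg H n (ev' j (Y j n)) +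
          (∑ n ∈ Ioc ⌊xa⌋₊ ⌊xb⌋₊, (1 / (n : ℝ))) * (ε / 4) := by
        rw [sum_add_distrib, sum_comm, sum_mul]
    _ ≤ ∑ _j : Fin T, ε₁ * (Real.log xb - Real.log xa) +
          (Real.log xb - Real.log xa + 1) * (ε / 4) := by
        refine add_le_add (sum_le_sum fun j _ => hj j) ?_
        exact mul_le_mul_of_nonneg_right hharm (by positivity)
    _ ≤ ε * (Real.log xb - Real.log xa) := by
        rw [sum_const, card_univ, Fintype.card_fin, nsmul_eq_mul]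
        have h1 : (T : ℝ) * ε₁ ≤ ε / 2 := by
          rw [hε₁, mul_div_assoc', div_le_div_iff₀ (by positivity) (by norm_num)]
          nlinarith
        have h2 : (T : ℝ) * (ε₁ * (Real.log xb - Real.log xa)) ≤
            ε / 2 * (Real.log xb - Real.log xa) := by
          rw [← mul_assoc]
          exact mul_le_mul_of_nonneg_right h1 (by linarith)
        nlinarith

/-- **row CELL** -/
theorem cell' : CELL' := by
  intro α ev P B₀ _ hyp
  refine cell fun A ε hA hε => ?_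
  obtain ⟨T, β, ev', P', A₁, H₁, h1, h2, ⟨y, hy⟩, h3⟩ := hyp A ε hA hε
  exact ⟨T, β, ev', P', A₁, H₁, h1, h2, fun j => ⟨y, hy j⟩, h3⟩

end

end Pool.Agent.NG
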