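import Mathlib
import Pool.Agent.Lib.NG.ARows

/-!
# NVG2 (MP_663568_nt), part A, row CENZ: a central commutator

(helper87)
-/

set_option autoImplicit false
open Finset Topology

namespace Pool.Agent.NG

noncomputable section

open Amb

namespace CENZx

/-! ### Commutators in a group -/

section
variable {Q : Type} [Group Q]

/-- The commutator. -/
def co (a b : Q) : Q := a * b * a⁻¹ * b⁻¹

lemma co_mul_left (a a' b : Q) (h : a * co a' b = co a' b * a) :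
    co (a * a') b = co a' b * co a b := by
  have : co (a * a') b = a * co a' b * (b * a⁻¹ * b⁻¹) := by simp only [co]; group
  rw [this, h]; simp only [co]; group

lemma co_mul_right (a b b' : Q) (h : b * co a b' = co a b' * b) :
    co a (b * b') = co a b * co a b' := by
  have h' : co a b' * b⁻¹ = b⁻¹ * co a b' := by
    rw [mul_inv_eq_iff_eq_mul, mul_assoc, ← h]; group
  have : co a (b * b') = a * b * a⁻¹ * (co a b' * b⁻¹) := by simp only [co]; group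
  rw [this, h']; simp only [co]; group

lemma co_one_left (b : Q) : co 1 b = 1 := by simp [co]

lemma co_one_right (a : Q) : co a 1 = 1 := by simp [co]

end

section
variable {U : Type} [Amb U]

/-- The quotient of `G` by `M`, as a function on `U`. -/
lemma quo (G M : Subgroup U) (hn : Nrm G M) : ∃ (Q : Type) (_ : Group Q) (φ : U → Q),
    (∀ x ∈ G, ∀ y ∈ G, φ (x * y) = φ x * φ y) ∧ (∀ x ∈ G, φ x⁻¹ = (φ x)⁻¹) ∧
    (∀ x ∈ G, φ x = 1 ↔ x ∈ M) := by
  classical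
  have : (M.subgroupOf G).Normal := ⟨fun m hm g => by
    rw [Subgroup.mem_subgroupOf] at hm ⊢
    exact hn g.1 g.2 m.1 hm⟩
  refine ⟨G ⧸ M.subgroupOf G, inferInstance, fun x => if h : x ∈ G then
    QuotientGroup.mk' (M.subgroupOf G) ⟨x, h⟩ else 1, ?_, ?_, ?_⟩
  · intro x hx y hy
    have hxy := G.mul_mem hx hy
    simp only [hx, hy, hxy, dite_true]
    rw [← map_mul]; rfl
  · intro x hx
    have hxi := G.inv_mem hx
    simp only [hx, hxi, dite_true]
    rw [← map_inv]; rfl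
  · intro x hx
    simp only [hx, dite_true]
    rw [QuotientGroup.mk'_apply, QuotientGroup.eq_one_iff, Subgroup.mem_subgroupOf]

/-- The one level of the filtration. -/
lemma key (hp : PWB_stmt) (hu : UNB_stmt) (G M A B : Subgroup U) (hG : Rat G) (hM : Rat M)
    (hA : Rat A) (hB : Rat B) (hMG : M ≤ G) (hAG : A ≤ G) (hBG : B ≤ G) (hn : Nrm G M)
    (hAB : Cm G A B) (hBM : Cm G B M) (hne : ¬ Cm G A M) :
    ∃ γ ν z : U, γ ∈ (La : Subgroup U) ∧ γ ∈ G ∧ ν ∈ (La : Subgroup U) ∧ ν ∈ A ∧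
      Cen G M z ∧ z ∈ B ∧
      ∀ t : ℝ, γ * pw t ν * γ⁻¹ * (pw t ν)⁻¹ * (pw t z)⁻¹ ∈ M := by
  obtain ⟨h0, hnat, -, hneg, -, -, -, hroot⟩ := hp U
  obtain ⟨Q, _, φ, hmul, hinv, hone⟩ := quo G M hn
  have hφco : ∀ x ∈ G, ∀ y ∈ G, φ (x * y * x⁻¹ * y⁻¹) = co (φ x) (φ y) := by
    intro x hx y hy
    have hxi := G.inv_mem hx
    have hyi := G.inv_mem hy
    rw [hmul _ (G.mul_mem (G.mul_mem hx hy) hxi) _ hyi, hmul _ (G.mul_mem hx hy) _ hxi,
      hmul _ hx _ hy, hinv x hx, hinv y hy]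
    rfl
  -- the image of `B` is central
  have hcen : ∀ g ∈ G, ∀ u ∈ B, φ g * φ u = φ u * φ g := by
    intro g hg u hu
    have h1 : g * u * g⁻¹ * u⁻¹ ∈ M := hBM g hg u hu
    have h2 := hφco g hg u (hBG hu)
    rw [(hone _ (hMG h1)).2 h1] at h2
    have h3 : φ g * φ u * (φ g)⁻¹ * (φ u)⁻¹ = 1 := h2.symm
    rw [mul_inv_eq_one, mul_inv_eq_iff_eq_mul] at h3
    exact h3
  have hcoB : ∀ x ∈ G, ∀ y ∈ A, ∀ g ∈ G, φ g * co (φ x) (φ y) = co (φ x) (φ y) * φ g := by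
    intro x hx y hy g hg
    rw [← hφco x hx y (hAG hy)]
    exact hcen g hg _ (hAB x hx y hy)
  have hcomulL : ∀ x ∈ G, ∀ x' ∈ G, ∀ y ∈ A, co (φ (x * x')) (φ y) =
      co (φ x') (φ y) * co (φ x) (φ y) := by
    intro x hx x' hx' y hy
    rw [hmul x hx x' hx']
    exact co_mul_left _ _ _ (hcoB x' hx' y hy x hx)
  have hcomulR : ∀ x ∈ G, ∀ y ∈ A, ∀ y' ∈ A, co (φ x) (φ (y * y')) =
      co (φ x) (φ y) * co (φ x) (φ y') := by
    intro x hx y hy y' hy'
    rw [hmul y (hAG hy) y' (hAG hy')]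
    exact co_mul_right _ _ _ (hcoB x hx y' hy' y (hAG hy))
  have hφ1 : φ 1 = 1 := (hone 1 G.one_mem).2 M.one_mem
  have hφpow : ∀ x ∈ G, ∀ n : ℕ, φ (x ^ n) = φ x ^ n := by
    intro x hx n
    induction n with
    | zero => simp [hφ1]
    | succ n ih => rw [pow_succ, hmul _ (G.pow_mem hx n) _ hx, ih, pow_succ]
  have hpowL : ∀ x ∈ G, ∀ y ∈ A, ∀ n : ℕ, co (φ (x ^ n)) (φ y) = co (φ x) (φ y) ^ n := by
    intro x hx y hy n
    induction n with
    | zero => simp [hφ1, co_one_left]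
    | succ n ih => rw [pow_succ, hcomulL _ (G.pow_mem hx n) _ hx y hy, ih, pow_succ']
  have hpowR : ∀ x ∈ G, ∀ y ∈ A, ∀ n : ℕ, co (φ x) (φ (y ^ n)) = co (φ x) (φ y) ^ n := by
    intro x hx y hy n
    induction n with
    | zero => simp [hφ1, co_one_right]
    | succ n ih => rw [pow_succ, hcomulR x hx _ (A.pow_mem hy n) _ hy, ih, pow_succ]
  -- equal images
  have heq : ∀ x ∈ G, ∀ y ∈ G, φ x = φ y → ∃ m ∈ M, x = y * m := by
    intro x hx y hy h
    refine ⟨y⁻¹ * x, ?_, by group⟩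
    rw [← hone _ (G.mul_mem (G.inv_mem hy) hx), hmul _ (G.inv_mem hy) _ hx, hinv y hy, h]
    group
  have hcenw : ∀ w ∈ B, ∀ g ∈ G, ∀ t : ℝ, g * pw t w * g⁻¹ * (pw t w)⁻¹ ∈ M :=
    fun w hw g hg t => hBM g hg _ (hB.pwc w hw t)
  -- a lattice commutator outside `M`
  obtain ⟨γ, hγL, hγG, ν, hνL, hνA, hz⟩ : ∃ γ ∈ (La : Subgroup U), γ ∈ G ∧
      ∃ ν ∈ (La : Subgroup U), ν ∈ A ∧ γ * ν * γ⁻¹ * ν⁻¹ ∉ M := by
    by_contra hcon
    push Not at hcon
    have step1 : ∀ γ ∈ (La : Subgroup U), γ ∈ G → ∀ y ∈ A, γ * y * γ⁻¹ * y⁻¹ ∈ M := by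
      intro γ hγL hγG y hy
      obtain ⟨K, hK, hKA, hcoc⟩ := hA.coc
      have hwB : γ * y * γ⁻¹ * y⁻¹ ∈ B := hAB γ hγG y hy
      refine hu U G M _ ((fun k : U => γ * k * γ⁻¹ * k⁻¹) '' K) hG hM hMG hn (hBG hwB)
        (hcenw _ hwB) (hK.image (by fun_prop)) ?_
      intro n
      obtain ⟨k, hkK, ν, hνL, hνA, hk⟩ := hcoc (y ^ n) (A.pow_mem hy n)
      have hkA : k ∈ A := hKA hkK
      refine ⟨_, ⟨k, hkK, rfl⟩, ?_⟩
      refine heq _ (hBG (hB.pwc _ hwB _)) _ (hBG (hAB γ hγG k hkA)) ?_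
      have hcν : co (φ γ) (φ ν) = 1 := by
        rw [← hφco γ hγG ν (hAG hνA)]
        have := hcon γ hγL hγG ν hνL hνA
        exact (hone _ (hMG this)).2 this
      rw [hnat, hφpow _ (hBG hwB), hφco γ hγG y (hAG hy), hφco γ hγG k (hAG hkA),
        ← hpowR γ hγG y hy, hk, hcomulR γ hγG k hkA ν hνA, hcν, mul_one]
    apply hne
    intro x hx y hy
    obtain ⟨K, hK, hKG, hcoc⟩ := hG.coc
    have hwB : x * y * x⁻¹ * y⁻¹ ∈ B := hAB x hx y hy
    refine hu U G M _ ((fun k : U => k * y * k⁻¹ * y⁻¹) '' K) hG hM hMG hn (hBG hwB)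
      (hcenw _ hwB) (hK.image (by fun_prop)) ?_
    intro n
    obtain ⟨k, hkK, γ, hγL, hγG, hk⟩ := hcoc (x ^ n) (G.pow_mem hx n)
    have hkG : k ∈ G := hKG hkK
    refine ⟨_, ⟨k, hkK, rfl⟩, ?_⟩
    refine heq _ (hBG (hB.pwc _ hwB _)) _ (hBG (hAB k hkG y hy)) ?_
    have hcγ : co (φ γ) (φ y) = 1 := by
      rw [← hφco γ hγG y (hAG hy)]
      have := step1 γ hγL hγG y hy
      exact (hone _ (hMG this)).2 this
    rw [hnat, hφpow _ (hBG hwB), hφco x hx y (hAG hy), hφco k hkG y (hAG hy),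
      ← hpowL x hx y hy, hk, hcomulL k hkG γ hγG y hy, hcγ, one_mul]
  set z : U := γ * ν * γ⁻¹ * ν⁻¹ with hzdef
  have hzB : z ∈ B := hAB γ hγG ν hνA
  have hzL : z ∈ (La : Subgroup U) :=
    mul_mem (mul_mem (mul_mem hγL hνL) (inv_mem hγL)) (inv_mem hνL)
  refine ⟨γ, ν, z, hγL, hγG, hνL, hνA, ⟨hzL, hBG hzB, hcenw z hzB, hz⟩, hzB, ?_⟩
  -- the one-parameter identity
  have hpA : ∀ t : ℝ, pw t ν ∈ A := hA.pwc ν hνA
  have hpB : ∀ t : ℝ, pw t z ∈ B := hB.pwc z hzB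
  let f : ℝ → U := fun t => γ * pw t ν * γ⁻¹ * (pw t ν)⁻¹ * (pw t z)⁻¹
  have hcB : ∀ t : ℝ, γ * pw t ν * γ⁻¹ * (pw t ν)⁻¹ ∈ B := fun t => hAB γ hγG _ (hpA t)
  have hfB : ∀ t, f t ∈ B := fun t => mul_mem (hcB t) (inv_mem (hpB t))
  have hφf : ∀ t, φ (f t) = co (φ γ) (φ (pw t ν)) * (φ (pw t z))⁻¹ := by
    intro t
    show φ (γ * pw t ν * γ⁻¹ * (pw t ν)⁻¹ * (pw t z)⁻¹) = _
    rw [hmul _ (hBG (hcB t)) _ (G.inv_mem (hBG (hpB t))), hinv _ (hBG (hpB t)),
      hφco γ hγG _ (hAG (hpA t))]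
  have hφfadd : ∀ s t, φ (f (s + t)) = φ (f s) * φ (f t) := by
    intro s t
    rw [hφf, hφf, hφf, pw_add, pw_add, hcomulR γ hγG _ (hpA s) _ (hpA t),
      hmul _ (hBG (hpB s)) _ (hBG (hpB t))]
    have h1 : φ (pw s z) * co (φ γ) (φ (pw t ν)) = co (φ γ) (φ (pw t ν)) * φ (pw s z) :=
      hcoB γ hγG _ (hpA t) _ (hBG (hpB s))
    have h2 : φ (pw s z) * φ (pw t z) = φ (pw t z) * φ (pw s z) :=
      hcen _ (hBG (hpB s)) _ (hpB t)
    have h3 : (φ (pw s z))⁻¹ * co (φ γ) (φ (pw t ν)) = co (φ γ) (φ (pw t ν)) * (φ (pw s z))⁻¹ := by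
      rw [inv_mul_eq_iff_eq_mul, ← mul_assoc, h1, mul_assoc, mul_inv_cancel, mul_one]
    rw [h2, mul_inv_rev]
    rw [show ∀ a b c e : Q, a * b * (c * e) = a * (b * c) * e from fun a b c e => by group]
    rw [show ∀ a b c e : Q, a * b * (c * e) = a * (b * c) * e from fun a b c e => by group, h3]
  let S : AddSubgroup ℝ :=
    { carrier := {t | f t ∈ M}
      zero_mem' := by
        show f 0 ∈ M
        rw [← hone _ (hBG (hfB 0))]
        have := hφfadd 0 0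
        rw [add_zero] at this
        exact left_eq_mul.1 this
      add_mem' := by
        intro s t hs ht
        show f (s + t) ∈ M
        have hs' : f s ∈ M := hs
        have ht' : f t ∈ M := ht
        rw [← hone _ (hBG (hfB _))] at hs' ht' ⊢
        rw [hφfadd, hs', ht', mul_one]
      neg_mem' := by
        intro s hs
        show f (-s) ∈ M
        have hs' : f s ∈ M := hs
        have h0' : φ (f 0) = 1 := by
          have := hφfadd 0 0
          rw [add_zero] at this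
          exact left_eq_mul.1 this
        rw [← hone _ (hBG (hfB _))] at hs' ⊢
        have := hφfadd s (-s)
        rw [add_neg_cancel, h0', hs', one_mul] at this
        exact this.symm }
  have hSmem : ∀ t, t ∈ S ↔ f t ∈ M := fun t => Iff.rfl
  have hf1 : f 1 = 1 := by
    show γ * pw 1 ν * γ⁻¹ * (pw 1 ν)⁻¹ * (pw 1 z)⁻¹ = 1
    rw [pw_one, pw_one, hzdef]
    group
  have hnsmul : ∀ (n : ℕ) (t : ℝ), φ (f (n * t)) = φ (f t) ^ n := by
    intro n t
    induction n with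
    | zero =>
      have := hφfadd 0 0
      rw [add_zero] at this
      simpa using left_eq_mul.1 this
    | succ n ih => rw [Nat.cast_succ, add_mul, one_mul, hφfadd, ih, pow_succ]
  have hinvn : ∀ n : ℕ, 1 ≤ n → (1 / n : ℝ) ∈ S := by
    intro n hn1
    rw [hSmem]
    refine hroot M hM.pwc n _ hn1 ?_
    rw [← hone _ (G.pow_mem (hBG (hfB _)) n), hφpow _ (hBG (hfB _)), ← hnsmul]
    have : (n : ℝ) * (1 / n) = 1 := by
      have : (n : ℝ) ≠ 0 := by positivity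
      field_simp
    rw [this, hf1, hφ1]
  have hrat : ∀ q : ℚ, (q : ℝ) ∈ S := by
    intro q
    have h1 := S.zsmul_mem (hinvn q.den q.den_pos) q.num
    have h2 : (q : ℝ) = q.num • (1 / q.den : ℝ) := by
      rw [zsmul_eq_mul, mul_one_div]
      exact Rat.cast_def q
    rw [h2]; exact h1
  have hcont : Continuous f := by
    have hν : Continuous fun t : ℝ => pw t ν := pw_cont.comp (Continuous.prodMk_left ν)
    have hzc : Continuous fun t : ℝ => pw t z := pw_cont.comp (Continuous.prodMk_left z)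
    exact (((continuous_const.mul hν).mul continuous_const).mul hν.inv).mul hzc.inv
  have hclosed : IsClosed {t : ℝ | f t ∈ M} := hM.cl.preimage hcont
  intro t
  exact isClosed_property Rat.denseRange_cast hclosed hrat t

end

end CENZx

open CENZx

/-- Row CENZ. -/
theorem cenz (hp : PWB_stmt) (hi : INT_stmt) (hu : UNB_stmt) : CENZ_stmt := by
  intro U _ Gf d N hF hN hNn hMN hNG hne
  have hn : Nrm (Gf 0) (Gf (d + 1)) := by
    intro x hx y hy
    have h1 : x * y * x⁻¹ * y⁻¹ ∈ Gf (0 + (d + 1)) := hF.com 0 (d + 1) x hx y hy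
    rw [zero_add] at h1
    have h2 := (Gf (d + 1)).mul_mem h1 hy
    rwa [inv_mul_cancel_right] at h2
  obtain ⟨i, hi1, hi2⟩ : ∃ i, ¬ Cm (Gf 0) (N ⊓ Gf i) (Gf (d + 1)) ∧
      Cm (Gf 0) (N ⊓ Gf (i + 1)) (Gf (d + 1)) := by
    by_contra hcon
    push Not at hcon
    have hall : ∀ i, ¬ Cm (Gf 0) (N ⊓ Gf i) (Gf (d + 1)) := by
      intro i
      induction i with
      | zero => rw [inf_eq_left.2 hNG]; exact hne
      | succ i ih => exact hcon i ih
    apply hall (d + 1)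
    intro x hx y hy
    exact (Gf (d + 1)).mul_mem (hn x hx y hy.2) ((Gf (d + 1)).inv_mem hy.2)
  have hcm : Cm (Gf 0) (N ⊓ Gf i) (N ⊓ Gf (i + 1)) := by
    intro x hx y hy
    refine ⟨N.mul_mem (hNn x hx y hy.1) (N.inv_mem hy.1), ?_⟩
    have hx1 : x ∈ Gf 1 := by rw [hF.top]; exact hx
    have := hF.com 1 i x hx1 y hy.2
    rwa [add_comm 1 i] at this
  obtain ⟨γ, ν, z, h1, h2, h3, h4, h5, h6, h7⟩ := key hp hu (Gf 0) (Gf (d + 1)) (N ⊓ Gf i)
    (N ⊓ Gf (i + 1)) (hF.rat 0) (hF.rat (d + 1)) (hi U N (Gf i) hN (hF.rat i))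
    (hi U N (Gf (i + 1)) hN (hF.rat (i + 1))) (hMN.trans hNG) (inf_le_left.trans hNG)
    (inf_le_left.trans hNG) hn hcm hi2 hi1
  exact ⟨γ, ν, z, h1, h2, h3, h4.1, h5, h6.1, h7⟩

end

end Pool.Agent.NG
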