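import Mathlib
import Pool.Agent.Lib.VQ.REC
import Pool.Agent.Lib.VQ.LAG
import Pool.Agent.Lib.VQ.PREC
import Pool.Agent.Lib.VQ.STR

/-!
# NVG2 (MP_663568_nt): polynomials near the integers, one variable

If `P x` is within `ρ` of the integers for a positive proportion of the `x < L`, then a bounded
multiple of the coefficient of degree `j` is within `B ρ / L ^ j` of the integers; the inverse Weyl
theorem for `0 ≤ x < L`.  (helper59)
-/

set_option autoImplicit false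
open Finset Polynomial

namespace Pool.Agent.NG

open Pool.Agent.Lib.MP_663568_nt Pool.Agent.Lib.MP_663568_nt.Katai
  Pool.Agent.Lib.MP_663568_nt.Nul Pool.Agent.VQ

open Classical in
theorem rec0 (t : ℕ) (c : ℝ) (hc : 0 < c) (hc1 : c ≤ 1) : ∃ q B : ℕ, 1 ≤ q ∧ 1 ≤ B ∧
    ∀ (L : ℕ) (P : ℝ[X]) (ρ : ℝ), B ≤ L → P.natDegree ≤ t → 0 ≤ ρ → ρ ≤ 1 / B →
    c * L ≤ (#((range L).filter fun m : ℕ => nd (P.eval (m : ℝ)) ≤ ρ) : ℝ) →
    ∀ j ≤ t, nd ((q : ℝ) * P.coeff j) ≤ B * ρ / (L : ℝ) ^ j := by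
  obtain ⟨E, hE1, hE⟩ := vqrec (max t 1) (le_max_right _ _)
  set δ : ℝ := c / 2 with hδ
  have hδ0 : 0 < δ := by positivity
  have hδ2 : δ ≤ 1 / 2 := by rw [hδ]; linarith
  have hd : 0 < 1 / δ := by positivity
  have hd1 : 1 ≤ 1 / δ := by rw [le_div_iff₀ hδ0]; linarith
  set q₀ : ℕ := (⌊(1 / δ) ^ E⌋₊).factorial with hq₀
  have hq1 : 1 ≤ q₀ := Nat.factorial_pos _
  have hqr : (1 : ℝ) ≤ q₀ := by exact_mod_cast hq1
  have hq0 : (0 : ℝ) < q₀ := by linarith
  set C₂ : ℝ := t * (1 / δ) ^ E with hC₂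
  have hC₂0 : 0 ≤ C₂ := by positivity
  set K : ℝ := q₀ * (1 + C₂) with hK
  have hK0 : 0 ≤ K := by positivity
  set c' : ℝ := c / (2 * K + 1) with hc'
  have hc'0 : 0 < c' := by positivity
  have hc'1 : c' ≤ 1 := by
    rw [hc', div_le_one (by positivity)]
    linarith
  obtain ⟨E', L₀, hE'1, hlag⟩ := lag t c' hc'0 hc'1
  set X : ℝ := (1 / δ) ^ E + 100 / δ + L₀ + q₀ * E' + 1 with hX
  have hpE : 0 < (1 / δ) ^ E := by positivity
  have hp1 : 0 < 100 / δ := by positivity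
  have hqE : 0 ≤ q₀ * E' := by positivity
  set B : ℕ := ⌈X⌉₊ with hB
  have hBX : X ≤ B := Nat.le_ceil _
  have hL0n : (0 : ℝ) ≤ (L₀ : ℝ) := Nat.cast_nonneg _
  have hB1 : (1 : ℝ) ≤ B := by linarith
  refine ⟨q₀, B, hq1, by exact_mod_cast hB1, ?_⟩
  intro L P ρ hL hP hρ0 hρ hcount
  have hLr : (B : ℝ) ≤ L := by exact_mod_cast hL
  have hL1 : (1 : ℝ) ≤ L := hB1.trans hLr
  have hL0 : (0 : ℝ) < L := by linarith
  have hBδ : 100 / δ ≤ B := by linarith
  have hρδ : ρ ≤ δ / 100 := by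
    refine hρ.trans ?_
    rw [div_le_div_iff₀ (by linarith) (by norm_num)]
    rw [div_le_iff₀ hδ0] at hBδ
    linarith
  have hρ1 : ρ ≤ 1 := hρδ.trans (by linarith)
  have hsub : (range L).filter (fun m : ℕ => nd (P.eval (m : ℝ)) ≤ ρ) ⊆
      insert 0 ((Icc 1 L).filter fun m : ℕ => nd (P.eval (m : ℝ)) ≤ ρ) := by
    intro m hm
    rw [mem_filter, mem_range] at hm
    rw [mem_insert, mem_filter, mem_Icc]
    rcases Nat.eq_zero_or_pos m with h | h
    · exact Or.inl h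
    · exact Or.inr ⟨⟨h, hm.1.le⟩, hm.2⟩
  have hcard : (#((range L).filter fun m : ℕ => nd (P.eval (m : ℝ)) ≤ ρ) : ℝ) ≤
      #((Icc 1 L).filter fun m : ℕ => nd (P.eval (m : ℝ)) ≤ ρ) + 1 := by
    have h1 := (card_le_card hsub).trans (card_insert_le _ _)
    exact_mod_cast h1
  obtain ⟨q, hq1', hq2, hq3⟩ := hE δ ρ L P hδ0 hδ2 (by linarith) hρδ
    (hP.trans (le_max_left _ _)) (by
      have h1 : 100 ≤ L * δ := by
        have := hBδ.trans hLr
        rwa [div_le_iff₀ hδ0] at this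
      have h2 : c = 2 * δ := by rw [hδ]; ring
      rw [h2] at hcount
      linarith)
  have hqd : q ∣ q₀ := PRECx.dvd_fact q hq1' _ hq2
  -- the coefficients
  have hco : ∀ j, 1 ≤ j → j ≤ t →
      nd ((q₀ : ℝ) * P.coeff j) ≤ q₀ * ((1 / δ) ^ E / (L : ℝ) ^ j) := by
    intro j hj1 hj2
    refine (PRECx.nd_dvd q q₀ hq1' hqd _).trans ?_
    have := hq3 j hj1 (hj2.trans (le_max_left _ _))
    gcongr
  let k : ℕ → ℤ := fun j => round ((q₀ : ℝ) * P.coeff j)
  let s : ℕ → ℝ := fun j => ((q₀ : ℝ) * P.coeff j - k j) / q₀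
  have hs : ∀ j, 1 ≤ j → j ≤ t → |s j| * (L : ℝ) ^ j ≤ (1 / δ) ^ E := by
    intro j hj1 hj2
    have h1 : |(q₀ : ℝ) * P.coeff j - k j| ≤ q₀ * ((1 / δ) ^ E / (L : ℝ) ^ j) := hco j hj1 hj2
    have h2 : s j = ((q₀ : ℝ) * P.coeff j - k j) / q₀ := rfl
    rw [h2, abs_div, abs_of_pos hq0]
    have hLj : (0 : ℝ) < (L : ℝ) ^ j := by positivity
    rw [div_mul_eq_mul_div, div_le_iff₀ hq0]
    calc |(q₀ : ℝ) * P.coeff j - k j| * (L : ℝ) ^ j
        ≤ q₀ * ((1 / δ) ^ E / (L : ℝ) ^ j) * (L : ℝ) ^ j := by gcongr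
      _ = (1 / δ) ^ E * q₀ := by field_simp
  -- the smooth part
  set S : ℝ[X] := ∑ j ∈ range t, Polynomial.C (s (j + 1)) * Polynomial.X ^ (j + 1) with hS
  have hSe : ∀ x : ℝ, S.eval x = ∑ j ∈ range t, s (j + 1) * x ^ (j + 1) := by
    intro x
    rw [hS, eval_finsetSum]
    simp
  have hSc : ∀ i, S.coeff i = if 1 ≤ i ∧ i ≤ t then s i else 0 := by
    intro i
    rw [hS, finsetSum_coeff]
    simp only [coeff_C_mul, coeff_X_pow]
    split_ifs with h
    · rw [sum_eq_single (i - 1)]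
      · have h1 : i - 1 + 1 = i := by omega
        rw [h1]; simp
      · intro b _ hb
        have : i ≠ b + 1 := by omega
        simp [this]
      · intro hb
        exact absurd (mem_range.2 (by omega)) hb
    · refine sum_eq_zero fun b hb => ?_
      rw [mem_range] at hb
      have : i ≠ b + 1 := by omega
      simp [this]
  have hSb : ∀ x : ℕ, x < L → |S.eval (x : ℝ)| ≤ C₂ := by
    intro x hx
    rw [hSe]
    refine (abs_sum_le_sum_abs _ _).trans ?_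
    have h1 : ∀ j ∈ range t, |s (j + 1) * (x : ℝ) ^ (j + 1)| ≤ (1 / δ) ^ E := by
      intro j hj
      rw [mem_range] at hj
      rw [abs_mul, abs_pow, Nat.abs_cast]
      have hxr : (x : ℝ) ≤ L := by exact_mod_cast hx.le
      calc |s (j + 1)| * (x : ℝ) ^ (j + 1) ≤ |s (j + 1)| * (L : ℝ) ^ (j + 1) := by gcongr
        _ ≤ _ := hs (j + 1) (by omega) (by omega)
    refine (sum_le_sum h1).trans ?_
    rw [sum_const, card_range, nsmul_eq_mul]
  have hPe : ∀ x : ℕ, (q₀ : ℝ) * P.eval (x : ℝ) = q₀ * P.coeff 0 + q₀ * S.eval (x : ℝ) +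
      ((∑ j ∈ range t, k (j + 1) * (x : ℤ) ^ (j + 1) : ℤ) : ℝ) := by
    intro x
    rw [eval_eq_sum_range' (n := t + 1) (by omega), sum_range_succ', hSe, mul_add, mul_sum, mul_sum]
    push_cast
    have h1 : ∀ j ∈ range t, (q₀ : ℝ) * (P.coeff (j + 1) * (x : ℝ) ^ (j + 1)) =
        (q₀ : ℝ) * (s (j + 1) * (x : ℝ) ^ (j + 1)) + (k (j + 1) : ℝ) * (x : ℝ) ^ (j + 1) := by
      intro j _
      have h2 : s (j + 1) = ((q₀ : ℝ) * P.coeff (j + 1) - k (j + 1)) / q₀ := rfl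
      rw [h2]
      field_simp
      ring
    rw [sum_congr rfl h1, sum_add_distrib]
    simp only [pow_zero, mul_one]
    ring
  -- the integers
  let w : ℕ → ℤ := fun x => q₀ * round (P.eval (x : ℝ)) -
    ∑ j ∈ range t, k (j + 1) * (x : ℤ) ^ (j + 1)
  set A : Finset ℕ := (range L).filter fun m : ℕ => nd (P.eval (m : ℝ)) ≤ ρ with hA
  have hw : ∀ x ∈ A, |(q₀ : ℝ) * (P.coeff 0 + S.eval (x : ℝ)) - w x| ≤ q₀ * ρ := by
    intro x hx
    have h1 : |P.eval (x : ℝ) - round (P.eval (x : ℝ))| ≤ ρ := (mem_filter.1 hx).2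
    have h2 : (q₀ : ℝ) * (P.coeff 0 + S.eval (x : ℝ)) - w x =
        q₀ * (P.eval (x : ℝ) - round (P.eval (x : ℝ))) := by
      have h3 := hPe x
      have h4 : ((w x : ℤ) : ℝ) = q₀ * (round (P.eval (x : ℝ)) : ℝ) -
        ((∑ j ∈ range t, k (j + 1) * (x : ℤ) ^ (j + 1) : ℤ) : ℝ) := by
        simp only [w]; push_cast; ring
      rw [h4, mul_sub, h3]; ring
    rw [h2, abs_mul, abs_of_pos hq0]
    gcongr
  have hne : A.Nonempty := by
    rw [← card_pos]
    have : (0 : ℝ) < #A := lt_of_lt_of_le (by positivity) hcount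
    exact_mod_cast this
  obtain ⟨v, hv⟩ := STRx.pigeon A w (q₀ * P.coeff 0) K (c' * L) hK0 hne (by
    intro x hx
    have h1 := hw x hx
    have h2 := hSb x (mem_range.1 (mem_filter.1 hx).1)
    have h3 : (q₀ : ℝ) * P.coeff 0 - w x =
      ((q₀ : ℝ) * (P.coeff 0 + S.eval (x : ℝ)) - w x) - q₀ * S.eval (x : ℝ) := by ring
    rw [h3]
    refine (abs_sub _ _).trans ?_
    rw [abs_mul, abs_of_pos hq0, hK]
    have h4 : (q₀ : ℝ) * ρ ≤ q₀ * 1 := by gcongr
    have h5 : (q₀ : ℝ) * |S.eval (x : ℝ)| ≤ q₀ * C₂ := by gcongr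
    linarith) (by
      refine le_trans (le_of_eq ?_) hcount
      rw [hc']; field_simp) (by positivity)
  -- Lagrange
  have hdeg : (S + Polynomial.C (P.coeff 0 - v / q₀)).natDegree ≤ t := by
    refine (natDegree_add_le _ _).trans (max_le ?_ (by rw [natDegree_C]; omega))
    rw [natDegree_le_iff_coeff_eq_zero]
    intro N hN
    rw [hSc, if_neg (by omega)]
  have hfin := hlag L (S + Polynomial.C (P.coeff 0 - v / q₀)) ρ (by
      have : (L₀ : ℝ) ≤ L := by linarith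
      exact_mod_cast this) hdeg hρ0 (by
    refine hv.trans ?_
    have : #(A.filter fun j => w j = v) ≤
        #((range L).filter fun j : ℕ => |(S + Polynomial.C (P.coeff 0 - v / q₀)).eval (j : ℝ)| ≤ ρ) := by
      refine card_le_card fun x hx => ?_
      rw [mem_filter] at hx
      rw [mem_filter]
      refine ⟨(mem_filter.1 hx.1).1, ?_⟩
      have h1 := hw x hx.1
      rw [hx.2] at h1
      have h2 : (q₀ : ℝ) * (P.coeff 0 + S.eval (x : ℝ)) - v =
        q₀ * (S.eval (x : ℝ) + (P.coeff 0 - v / q₀)) := by field_simp; ring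
      rw [h2, abs_mul, abs_of_pos hq0] at h1
      rw [eval_add, eval_C]
      exact le_of_mul_le_mul_left h1 hq0
    exact_mod_cast this)
  intro j hj
  have hLj : (0 : ℝ) < (L : ℝ) ^ j := by positivity
  have h1 := hfin j hj
  rw [coeff_add, hSc, coeff_C] at h1
  have h5 : (q₀ : ℝ) * (E' * ρ) ≤ B * ρ := by
    rw [← mul_assoc]
    have : (q₀ : ℝ) * E' ≤ B := by linarith
    gcongr
  rw [le_div_iff₀ hLj]
  rcases Nat.eq_zero_or_pos j with h0 | h0
  · subst h0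
    simp only [nonpos_iff_eq_zero, one_ne_zero, false_and, if_false, if_true, zero_add, pow_zero,
      mul_one] at h1 ⊢
    have h2 : nd ((q₀ : ℝ) * P.coeff 0) ≤ |(q₀ : ℝ) * P.coeff 0 - v| := round_le _ _
    have h3 : (q₀ : ℝ) * P.coeff 0 - v = q₀ * (P.coeff 0 - v / q₀) := by field_simp
    rw [h3, abs_mul, abs_of_pos hq0] at h2
    have h4 : (q₀ : ℝ) * |P.coeff 0 - v / q₀| ≤ q₀ * (E' * ρ) := by gcongr
    linarith
  · rw [if_pos ⟨h0, hj⟩, if_neg (by omega), add_zero] at h1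
    have h2 : nd ((q₀ : ℝ) * P.coeff j) ≤ |(q₀ : ℝ) * P.coeff j - k j| := round_le _ _
    have h3 : (q₀ : ℝ) * P.coeff j - k j = q₀ * s j := by simp only [s]; field_simp
    rw [h3, abs_mul, abs_of_pos hq0] at h2
    calc nd ((q₀ : ℝ) * P.coeff j) * (L : ℝ) ^ j ≤ q₀ * |s j| * (L : ℝ) ^ j := by gcongr
      _ = q₀ * (|s j| * (L : ℝ) ^ j) := by ring
      _ ≤ q₀ * (E' * ρ) := by gcongr
      _ ≤ _ := h5

end Pool.Agent.NG
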