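import Mathlib
import Pool.Agent.Lib.NG.A
import Pool.Agent.Lib.NG.Box1

/-!
# NVG2 (MP_663568_nt): polynomials near the integers on boxes

`recb`: a polynomial in several variables which is within `ρ` of the integers on a positive
proportion of a box has coefficients near rationals, with the error `B ρ / L ^ a`.
`weylb`: the inverse Weyl theorem on boxes.  (helper59)
-/

set_option autoImplicit false
open Finset Polynomial

namespace Pool.Agent.NG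

open Pool.Agent.Lib.MP_663568_nt Pool.Agent.Lib.MP_663568_nt.Katai
  Pool.Agent.Lib.MP_663568_nt.Nul Pool.Agent.VQ

/-! ### One variable, arrays of coefficients -/

/-- the polynomial with the coefficients `e` -/
noncomputable def arrP {d : ℕ} (e : Fin (d + 1) → ℝ) : ℝ[X] :=
  ∑ j : Fin (d + 1), Polynomial.C (e j) * Polynomial.X ^ (j : ℕ)

theorem arrP_eval {d : ℕ} (e : Fin (d + 1) → ℝ) (x : ℝ) :
    (arrP e).eval x = ∑ j, e j * x ^ (j : ℕ) := by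
  rw [arrP, eval_finsetSum]
  simp

theorem arrP_coeff {d : ℕ} (e : Fin (d + 1) → ℝ) (j : Fin (d + 1)) :
    (arrP e).coeff j = e j := by
  rw [arrP, finsetSum_coeff]
  simp only [coeff_C_mul, coeff_X_pow]
  rw [sum_eq_single j]
  · simp
  · intro b _ hb
    have : (j : ℕ) ≠ b := fun h => hb (Fin.ext h.symm)
    simp [this]
  · intro h; exact absurd (mem_univ _) h

theorem arrP_deg {d : ℕ} (e : Fin (d + 1) → ℝ) : (arrP e).natDegree ≤ d := by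
  rw [arrP]
  refine natDegree_sum_le_of_forall_le _ _ fun j _ => ?_
  refine (natDegree_C_mul_X_pow_le _ _).trans ?_
  have := j.2
  omega

theorem card_Ico_cast (L : ℕ) (p : ℤ → Prop) (p' : ℕ → Prop) [DecidablePred p] [DecidablePred p']
    (h : ∀ m : ℕ, p (m : ℤ) ↔ p' m) :
    #((Ico 0 (L : ℤ)).filter p) = #((range L).filter p') := by
  have h0 : Ico 0 (L : ℤ) = (range L).map Nat.castEmbedding := by
    ext x
    simp only [mem_Ico, mem_map, mem_range, Nat.castEmbedding_apply]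
    constructor
    · rintro ⟨h1, h2⟩
      exact ⟨x.toNat, by omega, by omega⟩
    · rintro ⟨a, ha, rfl⟩
      omega
  rw [h0, filter_map, card_map]
  congr 1
  ext x
  simp only [mem_filter, Function.comp_apply, Nat.castEmbedding_apply, h]

theorem sum_Ico_cast {β : Type} [AddCommMonoid β] (L : ℕ) (f : ℤ → β) :
    ∑ m ∈ Ico 0 (L : ℤ), f m = ∑ m ∈ range L, f (m : ℤ) := by
  have h0 : Ico 0 (L : ℤ) = (range L).map Nat.castEmbedding := by
    ext x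
    simp only [mem_Ico, mem_map, mem_range, Nat.castEmbedding_apply]
    constructor
    · rintro ⟨h1, h2⟩
      exact ⟨x.toNat, by omega, by omega⟩
    · rintro ⟨a, ha, rfl⟩
      omega
  rw [h0, sum_map]
  rfl

open Classical in
theorem rec1 (d : ℕ) (c : ℝ) (hc : 0 < c) (hc1 : c ≤ 1) : ∃ q B : ℕ, 1 ≤ q ∧ 1 ≤ B ∧
    ∀ (L : ℕ) (e : Fin (d + 1) → ℝ) (ρ : ℝ), B ≤ L → 0 ≤ ρ → ρ ≤ 1 / B →
    c * L ≤ (#((Ico 0 (L : ℤ)).filter fun m : ℤ => nd (∑ j, e j * (m : ℝ) ^ (j : ℕ)) ≤ ρ) : ℝ) →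
    ∀ j, nd ((q : ℝ) * e j) ≤ B * ρ / (L : ℝ) ^ (j : ℕ) := by
  obtain ⟨q, B, hq, hB, h⟩ := rec0 d c hc hc1
  refine ⟨q, B, hq, hB, fun L e ρ hL hρ0 hρ hcount j => ?_⟩
  have := h L (arrP e) ρ hL (arrP_deg e) hρ0 hρ (by
    rw [card_Ico_cast L (fun m : ℤ => nd (∑ j, e j * (m : ℝ) ^ (j : ℕ)) ≤ ρ)
      (fun m : ℕ => nd ((arrP e).eval (m : ℝ)) ≤ ρ) (fun m => by
        rw [arrP_eval]; simp)] at hcount
    exact hcount) j (by have := j.2; omega)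
  rwa [arrP_coeff] at this

theorem weyl1 (d : ℕ) (c : ℝ) (hc : 0 < c) (hc1 : c ≤ 1) : ∃ q B : ℕ, 1 ≤ q ∧ 1 ≤ B ∧
    ∀ (L : ℕ) (e : Fin (d + 1) → ℝ), B ≤ L →
    c * L ≤ ‖∑ m ∈ Ico 0 (L : ℤ), ee (∑ j, e j * (m : ℝ) ^ (j : ℕ))‖ →
    ∀ j, j ≠ 0 → nd ((q : ℝ) * e j) ≤ B / (L : ℝ) ^ (j : ℕ) := by
  obtain ⟨E, hE1, hE⟩ := TU.weyl_all (max d 1) (le_max_right _ _)
  set δ : ℝ := c / 4 with hδ
  have hδ0 : 0 < δ := by positivity
  have hδ2 : δ ≤ 1 / 2 := by rw [hδ]; linarith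
  have hd1 : 1 ≤ 1 / δ := by rw [le_div_iff₀ hδ0]; linarith
  have hpE : 0 < (1 / δ) ^ E := by positivity
  set q₀ : ℕ := (⌊(1 / δ) ^ E⌋₊).factorial with hq₀
  have hq1 : 1 ≤ q₀ := Nat.factorial_pos _
  have hqr : (1 : ℝ) ≤ q₀ := by exact_mod_cast hq1
  set B : ℕ := ⌈q₀ * (1 / δ) ^ E + 100 / δ⌉₊ with hB
  have hBX : q₀ * (1 / δ) ^ E + 100 / δ ≤ B := Nat.le_ceil _
  have hp1 : 1 ≤ 100 / δ := by
    rw [le_div_iff₀ hδ0]; linarith
  have hp2 : (1 / δ) ^ E ≤ q₀ * (1 / δ) ^ E := le_mul_of_one_le_left hpE.le hqr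
  have hB1 : (1 : ℝ) ≤ B := by linarith
  refine ⟨q₀, B, hq1, by exact_mod_cast hB1, ?_⟩
  intro L e hL hsum j hj
  have hLr : (B : ℝ) ≤ L := by exact_mod_cast hL
  have hL1 : (1 : ℝ) ≤ L := hB1.trans hLr
  have hL0 : (0 : ℝ) < L := by linarith
  have hjd : (j : ℕ) < d + 1 := j.2
  have hj1 : 1 ≤ (j : ℕ) := Nat.one_le_iff_ne_zero.2 fun h => hj (Fin.ext h)
  have hL100 : 100 ≤ L * δ := by
    have : 100 / δ ≤ L := by linarith
    rwa [div_le_iff₀ hδ0] at this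
  rw [sum_Ico_cast] at hsum
  have h1 : ‖∑ m ∈ range L, ee (∑ j, e j * ((m : ℤ) : ℝ) ^ (j : ℕ))‖ ≤
      ‖∑ m ∈ Icc 1 L, ee ((arrP e).eval (m : ℝ))‖ + 2 := by
    have h2 : ∑ m ∈ range L, ee (∑ j, e j * ((m : ℤ) : ℝ) ^ (j : ℕ)) =
        ∑ m ∈ range L, ee ((arrP e).eval (m : ℝ)) := by
      refine sum_congr rfl fun m _ => ?_
      rw [arrP_eval]; simp
    have h3 : ∑ m ∈ Icc 1 L, ee ((arrP e).eval (m : ℝ)) =
        ∑ m ∈ range L, ee ((arrP e).eval (m : ℝ)) - ee ((arrP e).eval ((0 : ℕ) : ℝ)) +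
          ee ((arrP e).eval (L : ℝ)) := by
      have h4 := sum_range_succ (fun m : ℕ => ee ((arrP e).eval (m : ℝ))) L
      have h5 := sum_range_succ' (fun m : ℕ => ee ((arrP e).eval (m : ℝ))) L
      have h6 : ∑ m ∈ Icc 1 L, ee ((arrP e).eval (m : ℝ)) =
          ∑ m ∈ range L, ee ((arrP e).eval ((m + 1 : ℕ) : ℝ)) := by
        rw [range_eq_Ico, sum_Ico_add' (fun m : ℕ => ee ((arrP e).eval (m : ℝ))) 0 L 1]
        rfl
      rw [h6]
      linear_combination h4 - h5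
    rw [h2, h3]
    set A : ℂ := ∑ m ∈ range L, ee ((arrP e).eval (m : ℝ)) with hA
    have h7 : A = (A - ee ((arrP e).eval ((0 : ℕ) : ℝ)) + ee ((arrP e).eval (L : ℝ))) +
        (ee ((arrP e).eval ((0 : ℕ) : ℝ)) - ee ((arrP e).eval (L : ℝ))) := by ring
    calc ‖A‖ = ‖(A - ee ((arrP e).eval ((0 : ℕ) : ℝ)) + ee ((arrP e).eval (L : ℝ))) +
        (ee ((arrP e).eval ((0 : ℕ) : ℝ)) - ee ((arrP e).eval (L : ℝ)))‖ := by rw [← h7]
      _ ≤ _ := (norm_add_le _ _).trans (by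
        have h8 := norm_sub_le (ee ((arrP e).eval ((0 : ℕ) : ℝ))) (ee ((arrP e).eval (L : ℝ)))
        rw [norm_ee, norm_ee] at h8
        linarith)
  obtain ⟨q, hq1', hq2, hq3⟩ := hE δ L (arrP e) hδ0 hδ2 (by linarith)
    ((arrP_deg e).trans (le_max_left _ _)) (by
      have h2 : c = 4 * δ := by rw [hδ]; ring
      rw [h2] at hsum
      linarith)
  have h2 := hq3 j hj1 (le_trans (by omega) (le_max_left d 1))
  rw [arrP_coeff] at h2
  have hqd : q ∣ q₀ := PRECx.dvd_fact q hq1' _ hq2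
  refine (PRECx.nd_dvd q q₀ hq1' hqd _).trans ?_
  calc (q₀ : ℝ) * nd ((q : ℝ) * e j) ≤ q₀ * ((1 / δ) ^ E / (L : ℝ) ^ (j : ℕ)) := by gcongr
    _ = q₀ * (1 / δ) ^ E / (L : ℝ) ^ (j : ℕ) := by ring
    _ ≤ _ := by gcongr; linarith

end Pool.Agent.NG
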