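import Mathlib
import Pool.Agent.Lib.NG.Box2

/-!
# NVG2 (MP_663568_nt): polynomials near the integers on boxes

`recb`: a polynomial in several variables which is within `ρ` of the integers on a positive
proportion of a box has coefficients near rationals, with the error `B ρ / L ^ a`.
`weylb`: the inverse Weyl theorem on boxes.  (helper59)
-/

set_option autoImplicit false
open Finset

namespace Pool.Agent.NG

open Pool.Agent.Lib.MP_663568_nt Pool.Agent.Lib.MP_663568_nt.Katai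
  Pool.Agent.Lib.MP_663568_nt.Nul

/-! ### Boxes -/

theorem mem_box {r : ℕ} {L : Fin r → ℕ} {x : Fin r → ℤ} :
    x ∈ box L ↔ ∀ i, 0 ≤ x i ∧ x i < L i := by
  simp [box, Fintype.mem_piFinset]

theorem card_box {r : ℕ} (L : Fin r → ℕ) : #(box L) = ∏ i, L i := by
  simp [box, Fintype.card_piFinset]

/-- insertion of the coordinate `i` -/
def ins {r : ℕ} {α : Type} (i : Fin (r + 1)) (m : α) (y : Fin r → α) : Fin (r + 1) → α :=
  Fin.insertNth (α := fun _ => α) i m y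

/-- removal of the coordinate `i` -/
def rem {r : ℕ} {α : Type} (i : Fin (r + 1)) (x : Fin (r + 1) → α) : Fin r → α :=
  fun k => x (i.succAbove k)

theorem ins_same {r : ℕ} {α : Type} (i : Fin (r + 1)) (m : α) (y : Fin r → α) :
    ins i m y i = m := by
  simp [ins]

theorem ins_succAbove {r : ℕ} {α : Type} (i : Fin (r + 1)) (m : α) (y : Fin r → α)
    (k : Fin r) : ins i m y (i.succAbove k) = y k := by
  simp [ins]

theorem rem_ins {r : ℕ} {α : Type} (i : Fin (r + 1)) (m : α) (y : Fin r → α) :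
    rem i (ins i m y) = y := by
  ext k
  exact ins_succAbove i m y k

theorem ins_rem {r : ℕ} {α : Type} (i : Fin (r + 1)) (x : Fin (r + 1) → α) :
    ins i (x i) (rem i x) = x := by
  ext k
  rcases Fin.eq_self_or_eq_succAbove i k with h | ⟨j, h⟩
  · rw [h, ins_same]
  · rw [h, ins_succAbove]; rfl

theorem ins_mem_box {r : ℕ} {L : Fin (r + 1) → ℕ} (i : Fin (r + 1)) (m : ℤ) (y : Fin r → ℤ) :
    ins i m y ∈ box L ↔ m ∈ Ico 0 (L i : ℤ) ∧ y ∈ box (rem i L) := by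
  rw [mem_box, mem_box, mem_Ico]
  constructor
  · intro h
    refine ⟨?_, fun k => ?_⟩
    · have := h i
      rwa [ins_same] at this
    · have := h (i.succAbove k)
      rwa [ins_succAbove] at this
  · rintro ⟨h1, h2⟩ k
    rcases Fin.eq_self_or_eq_succAbove i k with h | ⟨j, h⟩
    · rw [h, ins_same]; exact h1
    · rw [h, ins_succAbove]; exact h2 j

theorem sum_box {r : ℕ} {β : Type} [AddCommMonoid β] (L : Fin (r + 1) → ℕ) (i : Fin (r + 1))
    (f : (Fin (r + 1) → ℤ) → β) :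
    ∑ x ∈ box L, f x = ∑ y ∈ box (rem i L), ∑ m ∈ Ico 0 (L i : ℤ), f (ins i m y) := by
  rw [← sum_product']
  refine sum_nbij' (fun x => (rem i x, x i)) (fun p => ins i p.2 p.1) ?_ ?_ ?_ ?_ ?_
  · intro x hx
    rw [mem_product]
    rw [← ins_rem i x, ins_mem_box] at hx
    exact ⟨hx.2, hx.1⟩
  · intro p hp
    rw [mem_product] at hp
    exact (ins_mem_box i _ _).2 ⟨hp.2, hp.1⟩
  · intro x _
    exact ins_rem i x
  · intro p _
    exact Prod.ext (rem_ins i _ _) (ins_same i _ _)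
  · intro x _
    exact (congrArg f (ins_rem i x)).symm

open Classical in
theorem card_filter_box {r : ℕ} (L : Fin (r + 1) → ℕ) (i : Fin (r + 1))
    (p : (Fin (r + 1) → ℤ) → Prop) :
    (#((box L).filter p) : ℝ) =
      ∑ y ∈ box (rem i L), (#((Ico 0 (L i : ℤ)).filter fun m => p (ins i m y)) : ℝ) := by
  have h : #((box L).filter p) =
      ∑ y ∈ box (rem i L), #((Ico 0 (L i : ℤ)).filter fun m => p (ins i m y)) := by
    rw [card_filter, sum_box L i]
    exact sum_congr rfl fun y _ => (card_filter _ _).symm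
  rw [h]
  push_cast
  rfl

theorem prod_rem {r : ℕ} {M : Type} [CommMonoid M] (i : Fin (r + 1)) (f : Fin (r + 1) → M) :
    ∏ k, f k = f i * ∏ k, f (i.succAbove k) := Fin.prod_univ_succAbove f i

/-- the coefficient of `x_i ^ j` -/
def scf {r d : ℕ} (c : (Fin (r + 1) → Fin (d + 1)) → ℝ) (i : Fin (r + 1)) (j : Fin (d + 1)) :
    (Fin r → Fin (d + 1)) → ℝ := fun a => c (ins i j a)

theorem mev_ins {r d : ℕ} (c : (Fin (r + 1) → Fin (d + 1)) → ℝ) (i : Fin (r + 1)) (m : ℝ)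
    (y : Fin r → ℝ) : mev c (ins i m y) = ∑ j, mev (scf c i j) y * m ^ (j : ℕ) := by
  unfold mev
  simp only [sum_mul]
  rw [← Fintype.sum_prod_type' (f := fun (j : Fin (d + 1)) (a : Fin r → Fin (d + 1)) =>
    scf c i j a * (∏ k, y k ^ (a k : ℕ)) * m ^ (j : ℕ))]
  refine Fintype.sum_equiv
    ⟨fun a => (a i, rem i a), fun p => ins i p.1 p.2, fun a => ins_rem i a,
      fun p => Prod.ext (ins_same i _ _) (rem_ins i _ _)⟩ _ _ ?_
  intro a
  simp only [Equiv.coe_fn_mk, scf]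
  rw [ins_rem, prod_rem i, ins_same]
  have h : ∀ k, ins i m y (i.succAbove k) ^ (a (i.succAbove k) : ℕ) =
      y k ^ ((rem i a k : Fin (d + 1)) : ℕ) := fun k => by rw [ins_succAbove]; rfl
  simp only [h]
  ring

theorem mev_smul {r d : ℕ} (c : (Fin r → Fin (d + 1)) → ℝ) (q : ℝ) (y : Fin r → ℝ) :
    mev (fun a => q * c a) y = q * mev c y := by
  unfold mev
  rw [mul_sum]
  exact sum_congr rfl fun a _ => by ring

theorem ins_cast {r : ℕ} (i : Fin (r + 1)) (m : ℤ) (y : Fin r → ℤ) :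
    (fun k => ((ins i m y k : ℤ) : ℝ)) = ins i (m : ℝ) fun k => (y k : ℝ) := by
  ext k
  rcases Fin.eq_self_or_eq_succAbove i k with h | ⟨j, h⟩
  · rw [h, ins_same, ins_same]
  · rw [h, ins_succAbove, ins_succAbove]

/-! ### Averaging -/

open Classical in
theorem avg {α : Type} (T : Finset α) (N : α → ℝ) (s c : ℝ) (hs : 0 < s)
    (hN : ∀ x ∈ T, N x ≤ s) (hc : 0 ≤ c) (h : c * (#T * s) ≤ ∑ x ∈ T, N x) :
    c / 2 * #T ≤ (#(T.filter fun x => c / 2 * s ≤ N x) : ℝ) := by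
  have h1 := sum_filter_add_sum_filter_not T (fun x => c / 2 * s ≤ N x) N
  have h2 : ∑ x ∈ T.filter (fun x => c / 2 * s ≤ N x), N x ≤
      #(T.filter fun x => c / 2 * s ≤ N x) * s := by
    rw [← nsmul_eq_mul]
    exact sum_le_card_nsmul _ _ _ fun x hx => hN x (mem_filter.1 hx).1
  have h3 : ∑ x ∈ T.filter (fun x => ¬ c / 2 * s ≤ N x), N x ≤ #T * (c / 2 * s) := by
    refine (sum_le_card_nsmul _ _ (c / 2 * s) fun x hx =>
      (not_le.1 (mem_filter.1 hx).2).le).trans ?_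
    rw [nsmul_eq_mul]
    have : (#(T.filter fun x => ¬ c / 2 * s ≤ N x) : ℝ) ≤ #T := by
      exact_mod_cast card_filter_le _ _
    have h4 : 0 ≤ c / 2 * s := by positivity
    gcongr
  have h5 : c / 2 * #T * s ≤ #(T.filter fun x => c / 2 * s ≤ N x) * s := by nlinarith
  exact le_of_mul_le_mul_right h5 hs

/-! ### Row RECB -/

open Classical in
theorem recb (r d : ℕ) : ∀ c₀ : ℝ, 0 < c₀ → c₀ ≤ 1 → ∃ q B : ℕ, 1 ≤ q ∧ 1 ≤ B ∧
    ∀ (L : Fin r → ℕ) (c : (Fin r → Fin (d + 1)) → ℝ) (ρ : ℝ), (∀ i, B ≤ L i) → 0 ≤ ρ →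
    ρ ≤ 1 / B →
    c₀ * ∏ i, (L i : ℝ) ≤ (#((box L).filter fun x => nd (mev c fun i => (x i : ℝ)) ≤ ρ) : ℝ) →
    ∀ a, nd ((q : ℝ) * c a) ≤ B * ρ / ∏ i, (L i : ℝ) ^ (a i : ℕ) := by
  induction r with
  | zero =>
    intro c₀ hc hc1
    refine ⟨1, 1, le_rfl, le_rfl, ?_⟩
    intro L c ρ _ hρ0 hρ hcount a
    have h1 : ((box L).filter fun x => nd (mev c fun i => (x i : ℝ)) ≤ ρ).Nonempty := by
      rw [← card_pos]
      have : (0 : ℝ) < #((box L).filter fun x => nd (mev c fun i => (x i : ℝ)) ≤ ρ) := by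
        refine lt_of_lt_of_le ?_ hcount
        simpa using hc
      exact_mod_cast this
    obtain ⟨x, hx⟩ := h1
    have h2 := (mem_filter.1 hx).2
    have h3 : mev c (fun i => (x i : ℝ)) = c a := by
      unfold mev
      rw [Fintype.sum_eq_single a (fun b hb => absurd (Subsingleton.elim b a) hb)]
      simp
    rw [h3] at h2
    simpa using h2
  | succ r ih =>
    intro c₀ hc hc1
    obtain ⟨q₁, B₁, hq1, hB1, h1⟩ := rec1 d (c₀ / 2) (by linarith) (by linarith)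
    obtain ⟨q₂, B₂, hq2, hB2, h2⟩ := ih (c₀ / 2) (by linarith) (by linarith)
    refine ⟨q₂ * q₁, B₁ * B₂, Nat.mul_pos hq2 hq1, Nat.mul_pos hB1 hB2, ?_⟩
    intro L c ρ hL hρ0 hρ hcount a
    have hB1r : (1 : ℝ) ≤ B₁ := by exact_mod_cast hB1
    have hB2r : (1 : ℝ) ≤ B₂ := by exact_mod_cast hB2
    have hLB1 : ∀ i, B₁ ≤ L i := fun i => (Nat.le_mul_of_pos_right _ hB2).trans (hL i)
    have hLB2 : ∀ i, B₂ ≤ L i := fun i => (Nat.le_mul_of_pos_left _ hB1).trans (hL i)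
    have hLpos : ∀ i, (0 : ℝ) < L i := fun i => by
      exact_mod_cast lt_of_lt_of_le hB1 (hLB1 i)
    have hLone : ∀ i, (1 : ℝ) ≤ L i := fun i => by
      exact_mod_cast hB1.trans (hLB1 i)
    push_cast at hρ
    have hρ1 : ρ ≤ 1 / B₁ := hρ.trans (one_div_le_one_div_of_le (by linarith) (by nlinarith))
    have hρ2 : B₁ * ρ ≤ 1 / B₂ := by
      calc (B₁ : ℝ) * ρ ≤ B₁ * (1 / (B₁ * B₂)) := by gcongr
        _ = 1 / B₂ := by field_simp
    rw [card_filter_box L 0, prod_rem 0] at hcount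
    set T := box (rem 0 L) with hT
    have hTc : (#T : ℝ) = ∏ k : Fin r, (L ((0 : Fin (r + 1)).succAbove k) : ℝ) := by
      rw [hT, card_box]
      push_cast
      rfl
    have hav := avg T (fun y => (#((Ico 0 (L 0 : ℤ)).filter fun m =>
      nd (mev c fun i => ((ins 0 m y i : ℤ) : ℝ)) ≤ ρ) : ℝ)) (L 0) c₀ (hLpos 0) (by
        intro y _
        have := card_filter_le (Ico 0 (L 0 : ℤ)) fun m =>
          nd (mev c fun i => ((ins 0 m y i : ℤ) : ℝ)) ≤ ρ
        rw [Int.card_Ico] at this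
        have h3 : ((L 0 : ℤ) - 0).toNat = L 0 := by simp
        rw [h3] at this
        exact_mod_cast this) hc.le (by
        refine le_trans (le_of_eq ?_) hcount
        rw [hTc]; ring)
    have hgood : ∀ y ∈ T.filter (fun y => c₀ / 2 * (L 0 : ℝ) ≤
        (#((Ico 0 (L 0 : ℤ)).filter fun m =>
          nd (mev c fun i => ((ins 0 m y i : ℤ) : ℝ)) ≤ ρ) : ℝ)), ∀ j : Fin (d + 1),
        nd ((q₁ : ℝ) * mev (scf c 0 j) fun k => (y k : ℝ)) ≤ B₁ * ρ / (L 0 : ℝ) ^ (j : ℕ) := by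
      intro y hy j
      have h3 := (mem_filter.1 hy).2
      simp only [ins_cast, mev_ins] at h3
      exact h1 (L 0) (fun j => mev (scf c 0 j) fun k => (y k : ℝ)) ρ (hLB1 0) hρ0 hρ1 h3 j
    set j : Fin (d + 1) := a 0 with hj
    have hLj : (1 : ℝ) ≤ (L 0 : ℝ) ^ (j : ℕ) := one_le_pow₀ (hLone 0)
    have hfin := h2 (rem 0 L) (fun b => q₁ * scf c 0 j b) (B₁ * ρ / (L 0 : ℝ) ^ (j : ℕ))
      (fun k => hLB2 _) (by positivity) ((div_le_self (by positivity) hLj).trans hρ2) (by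
        have h3 : c₀ / 2 * ∏ k, ((rem 0 L k : ℕ) : ℝ) = c₀ / 2 * #T := by rw [hTc]; rfl
        rw [h3]
        refine hav.trans ?_
        have h4 : T.filter (fun y => c₀ / 2 * (L 0 : ℝ) ≤
            (#((Ico 0 (L 0 : ℤ)).filter fun m =>
              nd (mev c fun i => ((ins 0 m y i : ℤ) : ℝ)) ≤ ρ) : ℝ)) ⊆
            (box (rem 0 L)).filter fun y =>
              nd (mev (fun b => q₁ * scf c 0 j b) fun k => (y k : ℝ)) ≤
                B₁ * ρ / (L 0 : ℝ) ^ (j : ℕ) := by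
          intro y hy
          rw [mem_filter]
          refine ⟨(mem_filter.1 hy).1, ?_⟩
          rw [mev_smul]
          exact hgood y hy j
        exact_mod_cast card_le_card h4) (rem 0 a)
    have h5 : scf c 0 j (rem 0 a) = c a := congrArg c (ins_rem 0 a)
    have h6 : (((q₂ * q₁ : ℕ) : ℝ) * c a) = q₂ * (q₁ * scf c 0 j (rem 0 a)) := by
      rw [h5]; push_cast; ring
    rw [h6]
    refine hfin.trans (le_of_eq ?_)
    rw [prod_rem 0 fun k => (L k : ℝ) ^ (a k : ℕ)]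
    have h7 : ∀ k : Fin r, ((rem 0 L k : ℕ) : ℝ) ^ ((rem 0 a k : Fin (d + 1)) : ℕ) =
      (L ((0 : Fin (r + 1)).succAbove k) : ℝ) ^ (a ((0 : Fin (r + 1)).succAbove k) : ℕ) :=
      fun k => rfl
    have h8 : (0 : ℝ) < ∏ k : Fin r, (L ((0 : Fin (r + 1)).succAbove k) : ℝ) ^
      (a ((0 : Fin (r + 1)).succAbove k) : ℕ) := prod_pos fun k _ => pow_pos (hLpos _) _
    have h9 : (0 : ℝ) < (L 0 : ℝ) ^ (a 0 : ℕ) := pow_pos (hLpos _) _
    simp only [h7]
    push_cast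
    rw [hj]
    field_simp

/-! ### Row WEYLB -/

open Classical in
theorem weylb (r d : ℕ) (c₀ : ℝ) (hc : 0 < c₀) (hc1 : c₀ ≤ 1) : ∃ q B : ℕ, 1 ≤ q ∧ 1 ≤ B ∧
    ∀ (L : Fin r → ℕ) (c : (Fin r → Fin (d + 1)) → ℝ), (∀ i, B ≤ L i) →
    c₀ * ∏ i, (L i : ℝ) ≤ ‖∑ x ∈ box L, ee (mev c fun i => (x i : ℝ))‖ →
    ∀ a, a ≠ 0 → nd ((q : ℝ) * c a) ≤ B / ∏ i, (L i : ℝ) ^ (a i : ℕ) := by
  rcases r with _ | r
  · refine ⟨1, 1, le_rfl, le_rfl, ?_⟩
    intro L c _ _ a ha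
    exact absurd (Subsingleton.elim a 0) ha
  obtain ⟨q₁, B₁, hq1, hB1, h1⟩ := weyl1 d (c₀ / 2) (by linarith) (by linarith)
  obtain ⟨q₂, B₂, hq2, hB2, h2⟩ := recb r d (c₀ / 2) (by linarith) (by linarith)
  refine ⟨q₂ * q₁, B₁ * B₂, Nat.mul_pos hq2 hq1, Nat.mul_pos hB1 hB2, ?_⟩
  intro L c hL hsum a ha
  have hB1r : (1 : ℝ) ≤ B₁ := by exact_mod_cast hB1
  have hB2r : (1 : ℝ) ≤ B₂ := by exact_mod_cast hB2
  have hLB1 : ∀ i, B₁ ≤ L i := fun i => (Nat.le_mul_of_pos_right _ hB2).trans (hL i)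
  have hLB2 : ∀ i, B₂ ≤ L i := fun i => (Nat.le_mul_of_pos_left _ hB1).trans (hL i)
  have hLpos : ∀ i, (0 : ℝ) < L i := fun i => by
    exact_mod_cast lt_of_lt_of_le hB1 (hLB1 i)
  have hLone : ∀ i, (1 : ℝ) ≤ L i := fun i => by
    exact_mod_cast hB1.trans (hLB1 i)
  obtain ⟨i, hi⟩ : ∃ i, a i ≠ 0 := by
    by_contra hcon
    push Not at hcon
    exact ha (funext hcon)
  set T := box (rem i L) with hT
  have hTc : (#T : ℝ) = ∏ k : Fin r, (L (i.succAbove k) : ℝ) := by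
    rw [hT, card_box]
    push_cast
    rfl
  rw [sum_box L i, prod_rem i] at hsum
  have hav := avg T (fun y => ‖∑ m ∈ Ico 0 (L i : ℤ),
    ee (mev c fun k => ((ins i m y k : ℤ) : ℝ))‖) (L i) c₀ (hLpos i) (by
      intro y _
      refine (norm_sum_le _ _).trans ?_
      simp only [norm_ee, sum_const, Int.card_Ico, sub_zero, Int.toNat_natCast, nsmul_eq_mul,
        mul_one]
      exact le_rfl) hc.le (by
      refine le_trans (le_of_eq ?_) (hsum.trans (norm_sum_le _ _))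
      rw [hTc]; ring)
  set j : Fin (d + 1) := a i with hj
  have hj0 : j ≠ 0 := hi
  have hgood : ∀ y ∈ T.filter (fun y => c₀ / 2 * (L i : ℝ) ≤
      ‖∑ m ∈ Ico 0 (L i : ℤ), ee (mev c fun k => ((ins i m y k : ℤ) : ℝ))‖),
      nd ((q₁ : ℝ) * mev (scf c i j) fun k => (y k : ℝ)) ≤ B₁ / (L i : ℝ) ^ (j : ℕ) := by
    intro y hy
    have h3 := (mem_filter.1 hy).2
    simp only [ins_cast, mev_ins] at h3
    exact h1 (L i) (fun j => mev (scf c i j) fun k => (y k : ℝ)) (hLB1 i) h3 j hj0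
  have hLj : (L i : ℝ) ≤ (L i : ℝ) ^ (j : ℕ) := by
    have : (j : ℕ) ≠ 0 := fun h => hj0 (Fin.ext h)
    exact le_self_pow₀ (hLone i) this
  have hLB : (B₁ : ℝ) * B₂ ≤ L i := by exact_mod_cast hL i
  have hfin := h2 (rem i L) (fun b => q₁ * scf c i j b) (B₁ / (L i : ℝ) ^ (j : ℕ))
    (fun k => hLB2 _) (by positivity) (by
      rw [div_le_div_iff₀ (by linarith [hLpos i]) (by linarith)]
      linarith) (by
      have h3 : c₀ / 2 * ∏ k, ((rem i L k : ℕ) : ℝ) = c₀ / 2 * #T := by rw [hTc]; rfl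
      rw [h3]
      refine hav.trans ?_
      have h4 : T.filter (fun y => c₀ / 2 * (L i : ℝ) ≤
          ‖∑ m ∈ Ico 0 (L i : ℤ), ee (mev c fun k => ((ins i m y k : ℤ) : ℝ))‖) ⊆
          (box (rem i L)).filter fun y =>
            nd (mev (fun b => q₁ * scf c i j b) fun k => (y k : ℝ)) ≤
              B₁ / (L i : ℝ) ^ (j : ℕ) := by
        intro y hy
        rw [mem_filter]
        refine ⟨(mem_filter.1 hy).1, ?_⟩
        rw [mev_smul]
        exact hgood y hy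
      exact_mod_cast card_le_card h4) (rem i a)
  have h5 : scf c i j (rem i a) = c a := congrArg c (ins_rem i a)
  have h6 : (((q₂ * q₁ : ℕ) : ℝ) * c a) = q₂ * (q₁ * scf c i j (rem i a)) := by
    rw [h5]; push_cast; ring
  rw [h6]
  refine hfin.trans (le_of_eq ?_)
  rw [prod_rem i fun k => (L k : ℝ) ^ (a k : ℕ)]
  have h7 : ∀ k : Fin r, ((rem i L k : ℕ) : ℝ) ^ ((rem i a k : Fin (d + 1)) : ℕ) =
    (L (i.succAbove k) : ℝ) ^ (a (i.succAbove k) : ℕ) := fun k => rfl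
  have h8 : (0 : ℝ) < ∏ k : Fin r, (L (i.succAbove k) : ℝ) ^
    (a (i.succAbove k) : ℕ) := prod_pos fun k _ => pow_pos (hLpos _) _
  have h9 : (0 : ℝ) < (L i : ℝ) ^ (a i : ℕ) := pow_pos (hLpos _) _
  simp only [h7]
  push_cast
  rw [hj]
  field_simp

end Pool.Agent.NG
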