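import Mathlib
import Pool.Agent.Lib.NG.Box
import Pool.Agent.Lib.NG.ARows

/-!
# NVG2 (MP_663568_nt), row RPO: functions with vanishing differences are polynomials

helper59.
-/

set_option autoImplicit false
open Finset

namespace Pool.Agent.NG

/-! ### One variable: Newton's formula -/

namespace RPOx

/-- the difference operator -/
def dl (f : ℤ → ℝ) : ℤ → ℝ := fun m => f (m + 1) - f m

/-- the binomial polynomial -/
noncomputable def Bp (j : ℕ) : Polynomial ℝ :=
  Polynomial.C (1 / (j.factorial : ℝ)) * ∏ k ∈ range j, (Polynomial.X - Polynomial.C (k : ℝ))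

theorem Bp_eval (j : ℕ) (x : ℝ) :
    (Bp j).eval x = 1 / (j.factorial : ℝ) * ∏ k ∈ range j, (x - k) := by
  simp [Bp, Polynomial.eval_prod]

theorem Bp_deg (j : ℕ) : (Bp j).natDegree ≤ j := by
  rw [Bp]
  refine (Polynomial.natDegree_C_mul_le _ _).trans ((Polynomial.natDegree_prod_le _ _).trans ?_)
  refine (sum_le_sum fun (k : ℕ) _ => Polynomial.natDegree_X_sub_C_le ((k : ℕ) : ℝ)).trans ?_
  simp

theorem Bp_zero (x : ℝ) : (Bp 0).eval x = 1 := by
  rw [Bp_eval]; simp

theorem Bp_succ_zero (j : ℕ) : (Bp (j + 1)).eval 0 = 0 := by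
  rw [Bp_eval, prod_range_succ']
  simp

theorem Bp_succ (j : ℕ) (x : ℝ) :
    (Bp (j + 1)).eval (x + 1) - (Bp (j + 1)).eval x = (Bp j).eval x := by
  rw [Bp_eval, Bp_eval, Bp_eval, prod_range_succ', prod_range_succ]
  have h : ∀ k ∈ range j, x + 1 - ((k + 1 : ℕ) : ℝ) = x - k := by
    intro k _; push_cast; ring
  rw [prod_congr rfl h, Nat.factorial_succ]
  have h1 : ((j.factorial : ℕ) : ℝ) ≠ 0 := by exact_mod_cast Nat.factorial_ne_zero j
  have h2 : ((j : ℝ) + 1) ≠ 0 := by positivity
  push_cast
  field_simp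
  ring

theorem const_of_dl (h : ℤ → ℝ) (hh : ∀ m, h (m + 1) = h m) (m : ℤ) : h m = h 0 := by
  induction m using Int.induction_on with
  | zero => rfl
  | succ i ih => rw [hh, ih]
  | pred i ih =>
    have := hh (-(i : ℤ) - 1)
    rw [sub_add_cancel] at this
    rw [← this, ih]

theorem newton (D : ℕ) : ∀ f : ℤ → ℝ, (∀ m, (dl^[D + 1] f) m = 0) →
    ∀ m : ℤ, f m = ∑ j ∈ range (D + 1), (Bp j).eval (m : ℝ) * (dl^[j] f) 0 := by
  induction D with
  | zero =>
    intro f hf m
    rw [zero_add, sum_range_one, Bp_zero, one_mul]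
    exact const_of_dl f (fun m => by have := hf m; simp [dl] at this; linarith) m
  | succ D ih =>
    intro f hf m
    have h1 := ih (dl f) (fun m => by
      have := hf m
      rwa [Function.iterate_succ_apply] at this)
    set h : ℤ → ℝ := fun m => f m -
      ∑ j ∈ range (D + 1 + 1), (Bp j).eval (m : ℝ) * (dl^[j] f) 0 with hh
    have h2 : ∀ m, h (m + 1) = h m := by
      intro m
      have h3 := h1 m
      have h4 : ∑ j ∈ range (D + 1 + 1), (Bp j).eval ((m + 1 : ℤ) : ℝ) * (dl^[j] f) 0 -
          ∑ j ∈ range (D + 1 + 1), (Bp j).eval (m : ℝ) * (dl^[j] f) 0 =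
          ∑ j ∈ range (D + 1), (Bp j).eval (m : ℝ) * (dl^[j] (dl f)) 0 := by
        rw [sum_range_succ' _ (D + 1), sum_range_succ' _ (D + 1), Bp_zero, Bp_zero,
          add_sub_add_right_eq_sub, ← sum_sub_distrib]
        refine sum_congr rfl fun j _ => ?_
        rw [← sub_mul]
        push_cast
        rw [Bp_succ, Function.iterate_succ_apply]
      have h5 : dl f m = f (m + 1) - f m := rfl
      simp only [hh]
      rw [h5] at h3
      linarith
    have h6 := const_of_dl h h2 m
    have h7 : h 0 = 0 := by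
      simp only [hh]
      rw [sum_range_succ' _ (D + 1)]
      push_cast
      rw [Bp_zero, sum_eq_zero fun j _ => by rw [Bp_succ_zero, zero_mul]]
      simp
    rw [h7] at h6
    simp only [hh] at h6
    linarith

/-! ### Several variables -/

/-- iterated differences -/
def df {A : Type} [AddCommGroup A] (l : List A) (P : A → ℝ) : A → ℝ :=
  l.foldr (fun h (Q : A → ℝ) => fun n => Q (n + h) - Q n) P

theorem df_cons {A : Type} [AddCommGroup A] (h : A) (l : List A) (P : A → ℝ) (n : A) :
    df (h :: l) P n = df l P (n + h) - df l P n := rfl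

theorem df_append {A : Type} [AddCommGroup A] (l l' : List A) (P : A → ℝ) :
    df (l ++ l') P = df l (df l' P) := by
  unfold df
  rw [List.foldr_append]

theorem df_comp {A B : Type} [AddCommGroup A] [AddCommGroup B] (φ : B → A) (a : A)
    (hφ : ∀ x y, φ (x + y) = φ x + φ y) (l : List B) (P : A → ℝ) (n : B) :
    df l (fun x => P (φ x + a)) n = df (l.map φ) P (φ n + a) := by
  induction l generalizing n with
  | nil => rfl
  | cons h l ih =>
    rw [List.map_cons, df_cons, df_cons, ih, ih, hφ]
    congr 2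
    abel

theorem df_replicate {A : Type} [AddCommGroup A] (e a : A) (P : A → ℝ) (j : ℕ) (m : ℤ) :
    (dl^[j] fun m : ℤ => P (m • e + a)) m = df (List.replicate j e) P (m • e + a) := by
  induction j generalizing m with
  | zero => rfl
  | succ j ih =>
    rw [Function.iterate_succ_apply', List.replicate_succ, df_cons]
    show _ - _ = _
    rw [ih, ih]
    congr 2
    rw [add_smul, one_smul]
    abel

end RPOx

open RPOx

theorem mev_sum {r d : ℕ} {ι : Type} (s : Finset ι) (w : ι → ℝ)
    (c : ι → (Fin r → Fin (d + 1)) → ℝ) (y : Fin r → ℝ) :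
    mev (fun a => ∑ j ∈ s, w j * c j a) y = ∑ j ∈ s, w j * mev (c j) y := by
  unfold mev
  simp only [sum_mul, mul_sum]
  rw [sum_comm]
  exact sum_congr rfl fun j _ => sum_congr rfl fun a _ => by ring

theorem rpo_aux (r d : ℕ) : ∀ (D : ℕ) (P : (Fin r → ℤ) → ℝ), D ≤ d →
    (∀ (l : List (Fin r → ℤ)) (n : Fin r → ℤ), l.length = D + 1 →
      l.foldr (fun h (Q : (Fin r → ℤ) → ℝ) => fun n => Q (n + h) - Q n) P n = 0) →
    ∃ c : (Fin r → Fin (d + 1)) → ℝ, (∀ x : Fin r → ℤ, P x = mev c fun i => (x i : ℝ)) ∧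
      ∀ a : Fin r → Fin (d + 1), D < ∑ i, (a i : ℕ) → c a = 0 := by
  induction r with
  | zero =>
    intro D P _ _
    refine ⟨fun _ => P default, fun x => ?_, fun a ha => ?_⟩
    · unfold mev
      rw [Fintype.sum_eq_single default (fun b hb => absurd (Subsingleton.elim b default) hb)]
      simp only [univ_eq_empty, prod_empty, mul_one]
      rw [Subsingleton.elim x default]
    · simp at ha
  | succ r ih =>
    intro D P hD hP
    set e : Fin (r + 1) → ℤ := ins 0 1 0 with he
    set φ : (Fin r → ℤ) → (Fin (r + 1) → ℤ) := fun y => ins 0 0 y with hφ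
    have hφadd : ∀ x y, φ (x + y) = φ x + φ y := by
      intro x y
      ext k
      rcases Fin.eq_self_or_eq_succAbove (0 : Fin (r + 1)) k with h | ⟨j, h⟩
      · rw [h]; simp only [hφ, Pi.add_apply]; rw [ins_same, ins_same, ins_same]; rfl
      · rw [h]; simp only [hφ, Pi.add_apply]; rw [ins_succAbove, ins_succAbove, ins_succAbove]; rfl
    have hins : ∀ (m : ℤ) (y : Fin r → ℤ), ins 0 m y = m • e + φ y := by
      intro m y
      ext k
      rcases Fin.eq_self_or_eq_succAbove (0 : Fin (r + 1)) k with h | ⟨j, h⟩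
      · rw [h]; simp only [hφ, he, Pi.add_apply, Pi.smul_apply]
        rw [ins_same, ins_same, ins_same]; simp
      · rw [h]; simp only [hφ, he, Pi.add_apply, Pi.smul_apply]
        rw [ins_succAbove, ins_succAbove, ins_succAbove]; simp
    -- the slices
    have hsl : ∀ j ≤ D, ∃ c : (Fin r → Fin (d + 1)) → ℝ,
        (∀ y : Fin r → ℤ, df (List.replicate j e) P (φ y) = mev c fun i => (y i : ℝ)) ∧
        ∀ a : Fin r → Fin (d + 1), D - j < ∑ i, (a i : ℕ) → c a = 0 := by
      intro j hj
      refine ih (D - j) (fun y => df (List.replicate j e) P (φ y)) (by omega) ?_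
      intro l n hl
      have h1 := df_comp φ 0 hφadd l (df (List.replicate j e) P) n
      simp only [add_zero] at h1
      refine h1.trans ?_
      rw [← df_append]
      refine hP _ _ ?_
      rw [List.length_append, List.length_map, List.length_replicate, hl]
      omega
    choose! cj hcj1 hcj2 using hsl
    refine ⟨fun a => ∑ j ∈ range (D + 1), (Bp j).coeff (a 0) * cj j (rem 0 a), ?_, ?_⟩
    · intro x
      rw [← ins_rem 0 x]
      set m := x 0
      set y := rem 0 x
      rw [ins_cast, mev_ins]
      have h1 : ∀ k : Fin (d + 1), scf (fun a : Fin (r + 1) → Fin (d + 1) =>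
          ∑ j ∈ range (D + 1), (Bp j).coeff (a 0) * cj j (rem 0 a)) 0 k =
          fun b => ∑ j ∈ range (D + 1), (Bp j).coeff k * cj j b := by
        intro k
        ext b
        simp only [scf]
        rw [ins_same, rem_ins]
      simp only [h1, mev_sum, sum_mul]
      rw [sum_comm]
      have h2 : ∀ j ∈ range (D + 1), ∑ k : Fin (d + 1),
          (Bp j).coeff k * mev (cj j) (fun k => (y k : ℝ)) * (m : ℝ) ^ (k : ℕ) =
          (Bp j).eval (m : ℝ) * (dl^[j] fun m : ℤ => P (m • e + φ y)) 0 := by
        intro j hj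
        rw [mem_range] at hj
        rw [df_replicate, zero_smul, zero_add, hcj1 j (by omega) y,
          Polynomial.eval_eq_sum_range' (n := d + 1)
            (lt_of_le_of_lt (Bp_deg j) (by omega)), ← Fin.sum_univ_eq_sum_range
            (fun k => (Bp j).coeff k * (m : ℝ) ^ k), sum_mul]
        exact sum_congr rfl fun k _ => by ring
      rw [sum_congr rfl h2]
      rw [hins]
      refine newton D (fun m : ℤ => P (m • e + φ y)) ?_ m
      intro m
      rw [df_replicate]
      exact hP _ _ (List.length_replicate ..)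
    · intro a ha
      refine sum_eq_zero fun j hj => ?_
      rw [mem_range] at hj
      rcases lt_or_ge j (a 0 : ℕ) with h | h
      · rw [Polynomial.coeff_eq_zero_of_natDegree_lt (lt_of_le_of_lt (Bp_deg j) h), zero_mul]
      · rw [hcj2 j (by omega), mul_zero]
        rw [Fin.sum_univ_succAbove _ (0 : Fin (r + 1))] at ha
        have h3 : ∑ i : Fin r, ((rem 0 a i : Fin (d + 1)) : ℕ) =
          ∑ i : Fin r, (a ((0 : Fin (r + 1)).succAbove i) : ℕ) := rfl
        rw [h3]
        omega

/-- Row RPO. -/
theorem rpo : RPO_stmt := fun r d D P hD hP => rpo_aux r d D P hD hP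

end Pool.Agent.NG
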