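import Mathlib
import Pool.Agent.Lib.NG.RPO

/-!
# NVG2 (MP_663568_nt), row DEG: additive functions along polynomial maps are polynomials

helper59.
-/

set_option autoImplicit false
open Finset

namespace Pool.Agent.NG

open RPOx

/-- Row DEG. -/
theorem deg : DEG_stmt := by
  intro U _ Gf d D r J χ n hD hadd hvan hn
  have h1 : χ 1 = 0 := by
    have := hadd 1 J.one_mem 1 J.one_mem
    rw [mul_one] at this
    linarith
  have hinv : ∀ x ∈ J, χ x⁻¹ = -χ x := by
    intro x hx
    have := hadd x hx x⁻¹ (J.inv_mem hx)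
    rw [mul_inv_cancel, h1] at this
    linarith
  have hmem : ∀ (l : List (Fin r → ℤ)) (x : Fin r → ℤ), l.foldr dif n x ∈ J ⊓ Gf l.length := by
    intro l x
    have := hn l x
    rwa [zero_add] at this
  have hdf : ∀ (l : List (Fin r → ℤ)) (x : Fin r → ℤ),
      df l (fun x => χ (n x)) x = χ (l.foldr dif n x) := by
    intro l
    induction l with
    | nil => intro x; rfl
    | cons h l ih =>
      intro x
      rw [df_cons, ih, ih]
      show _ = χ (l.foldr dif n (x + h) * (l.foldr dif n x)⁻¹)
      rw [hadd _ (hmem l (x + h)).1 _ (J.inv_mem (hmem l x).1), hinv _ (hmem l x).1]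
      ring
  refine rpo r d D (fun x => χ (n x)) hD ?_
  intro l x hl
  refine (hdf l x).trans (hvan _ ?_)
  rw [← hl]
  exact hmem l x

end Pool.Agent.NG
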