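import Mathlib
import Pool.Agent.Lib.NG.C
import Pool.Agent.Lib.NG.DEG
import Pool.Agent.Lib.NG.LBN

/-!
# NVG2 (MP_663568_nt), part C, row CHP: characters along polynomial sequences (helper68)
-/

set_option autoImplicit false
open Finset Topology Polynomial

namespace Pool.Agent.NG

open Amb Pool.Agent.Lib.MP_663568_nt Pool.Agent.Lib.MP_663568_nt.Katai
  Pool.Agent.Lib.MP_663568_nt.Nul Pool.Agent.SV Pool.Agent.VQ Pool.Agent.NV

noncomputable section

/-- **CHP.** -/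
theorem chp : CHP_stmt := by
  intro U _ Gf d χ h hχ g hg
  rcases hχ with h0 | hχ
  · exact ⟨0, by simp, fun m => by rw [h0, Polynomial.eval_zero]⟩
  have hg0 : ∀ m, g m ∈ Gf 0 := fun m => by simpa using hg [] m
  have h1 := (lbn U ℤ Gf 0 g).1 (Fin 1 → ℤ) (Pi.evalAddMonoidHom (fun _ : Fin 1 => ℤ) 0) 0 hg
  have h2 := ((lbn U (Fin 1 → ℤ) Gf 0 _).2.1 (Gf 0)).mpr ⟨h1, fun _ => hg0 _⟩
  obtain ⟨c, hc, -⟩ := deg U Gf d d 1 (Gf 0) χ _ le_rfl hχ.mul (fun x hx => hχ.van x hx.2) h2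
  refine ⟨∑ a : Fin 1 → Fin (d + 1), C (c a) * X ^ (a 0 : ℕ), ?_, fun m => ?_⟩
  · refine Polynomial.natDegree_sum_le_of_forall_le _ _ fun a _ => ?_
    exact (Polynomial.natDegree_C_mul_X_pow_le _ _).trans (Nat.lt_succ_iff.mp (a 0).2)
  · have h3 := hc fun _ => m
    simp only [Pi.evalAddMonoidHom_apply, add_zero] at h3
    rw [h3, Polynomial.eval_finsetSum]
    unfold mev
    refine Finset.sum_congr rfl fun a _ => ?_
    simp

end

end Pool.Agent.NG
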