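import Pool.Agent.Lib.NG.PWB

/-!
# NVG2, rows CLS and INT
-/

set_option autoImplicit false
open Finset Topology

namespace Pool.Agent.NG

open Amb

variable {U : Type} [Amb U]

/-- a set which meets every compact set in a finite set is closed -/
theorem isClosed_of_fin {S : Set U} (h : ∀ K : Set U, IsCompact K → (S ∩ K).Finite) :
    IsClosed S := by
  rw [← isOpen_compl_iff, isOpen_iff_mem_nhds]
  intro x hx
  obtain ⟨K, hK, hxK⟩ := exists_compact_mem_nhds x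
  have h1 := (h K hK).isClosed
  have h2 : K ∩ (S ∩ K)ᶜ ∈ 𝓝 x := Filter.inter_mem hxK (h1.isOpen_compl.mem_nhds fun h3 => hx h3.1)
  refine Filter.mem_of_superset h2 ?_
  rintro y ⟨hy1, hy2⟩ hyS
  exact hy2 ⟨hyS, hy1⟩

theorem la_fin {S : Set U} (hS : S ⊆ (La : Subgroup U)) (K : Set U) (hK : IsCompact K) :
    (S ∩ K).Finite :=
  (La_fin K hK).subset fun _ hx => ⟨hS hx.1, hx.2⟩

/-- **row CLS** -/
theorem cls : CLS_stmt := by
  intro U _
  refine ⟨fun S hS => isClosed_of_fin (la_fin hS), ?_⟩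
  intro K S hK hS
  rw [← isOpen_compl_iff, isOpen_iff_mem_nhds]
  intro x hx
  obtain ⟨W, hW, hxW⟩ := exists_compact_mem_nhds x
  -- the elements `s` with `k s ∈ W` are finitely many
  have hc : IsCompact ((fun q : U × U => q.1⁻¹ * q.2) '' (K ×ˢ W)) :=
    (hK.prod hW).image ((continuous_fst.inv).mul continuous_snd)
  have hfin := la_fin hS _ hc
  have hcl : IsClosed (⋃ s ∈ S ∩ ((fun q : U × U => q.1⁻¹ * q.2) '' (K ×ˢ W)),
      (fun k : U => k * s) '' K) :=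
    hfin.isClosed_biUnion fun s _ => (hK.image (continuous_id.mul continuous_const)).isClosed
  have h1 : x ∉ ⋃ s ∈ S ∩ ((fun q : U × U => q.1⁻¹ * q.2) '' (K ×ˢ W)),
      (fun k : U => k * s) '' K := by
    intro h
    simp only [Set.mem_iUnion] at h
    obtain ⟨s, hs, k, hk, rfl⟩ := h
    exact hx ⟨k, hk, s, hs.1, rfl⟩
  refine Filter.mem_of_superset (Filter.inter_mem hxW (hcl.isOpen_compl.mem_nhds h1)) ?_
  rintro y ⟨hyW, hy⟩ ⟨k, hk, s, hs, rfl⟩
  apply hy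
  simp only [Set.mem_iUnion]
  exact ⟨s, ⟨hs, (k, k * s), ⟨hk, hyW⟩, by simp⟩, k, hk, rfl⟩

/-- cocompactness of a subgroup from finitely many translates -/
theorem rat_of_fin {H L : Subgroup U} (hp : PwC L) (hcl : IsClosed (L : Set U)) (K : Set U)
    (hK : IsCompact K) (T : Set U) (hT : T.Finite)
    (h : ∀ x ∈ L, ∃ k ∈ K, ∃ t ∈ T, ∃ γ ∈ (La : Subgroup U), γ ∈ L ∧ x = k * t * γ)
    (_hH : L ≤ H) : Rat L := by
  refine ⟨hp, hcl, (⋃ t ∈ T, (fun k : U => k * t) '' K) ∩ (L : Set U), ?_, Set.inter_subset_right, ?_⟩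
  · refine IsCompact.inter_right ?_ hcl
    exact hT.isCompact_biUnion fun t _ => hK.image (continuous_id.mul continuous_const)
  · intro x hx
    obtain ⟨k, hk, t, ht, γ, hγ, hγL, rfl⟩ := h x hx
    refine ⟨k * t, ⟨?_, ?_⟩, γ, hγ, hγL, rfl⟩
    · simp only [Set.mem_iUnion]
      exact ⟨t, ht, k, hk, rfl⟩
    · have h1 : k * t = k * t * γ * γ⁻¹ := by group
      rw [h1]
      exact L.mul_mem hx (L.inv_mem hγL)

/-- **row INT** -/
theorem int_row : INT_stmt := by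
  intro U _ H H' hH hH'
  classical
  obtain ⟨K, hK, -, hKH⟩ := hH.coc
  obtain ⟨K', hK', -, hKH'⟩ := hH'.coc
  -- the finite set of differences
  let D : Set U := ((La : Subgroup U) : Set U) ∩ (fun q : U × U => q.1⁻¹ * q.2) '' (K' ×ˢ K)
  have hD : D.Finite := La_fin _ ((hK'.prod hK).image ((continuous_fst.inv).mul continuous_snd))
  -- representatives
  let Ad : U → U → Prop := fun c d => d ∈ (La : Subgroup U) ∧ d ∈ H ∧ c * d ∈ H'
  let r : U → U := fun c => if h : ∃ d, Ad c d then h.choose else 1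
  have hr : ∀ c d, Ad c d → Ad c (r c) := by
    intro c d hd
    have h : ∃ d, Ad c d := ⟨d, hd⟩
    simp only [r]
    rw [dif_pos h]
    exact h.choose_spec
  refine rat_of_fin (H := H) ?_ ?_ K hK (r '' D) (hD.image r) ?_ inf_le_left
  · intro x hx t
    exact ⟨hH.pwc x hx.1 t, hH'.pwc x hx.2 t⟩
  · exact hH.cl.inter hH'.cl
  · rintro x ⟨hx, hx'⟩
    obtain ⟨k, hk, d, hd, hdH, rfl⟩ := hKH x hx
    obtain ⟨k', hk', d', hd', hdH', he⟩ := hKH' _ hx'
    -- `c = k'⁻¹ k = d' d⁻¹`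
    have hc1 : k'⁻¹ * k = d' * d⁻¹ := by
      rw [eq_mul_inv_iff_mul_eq, mul_assoc, he]
      group
    have hcd : k'⁻¹ * k * d = d' := by
      rw [hc1]
      group
    have hAd : Ad (k'⁻¹ * k) d := ⟨hd, hdH, by rw [hcd]; exact hdH'⟩
    have hc : k'⁻¹ * k ∈ D := by
      refine ⟨?_, (k', k), ⟨hk', hk⟩, rfl⟩
      rw [hc1]
      exact (La : Subgroup U).mul_mem hd' ((La : Subgroup U).inv_mem hd)
    obtain ⟨h1, h2, h3⟩ := hr _ _ hAd
    refine ⟨k, hk, r (k'⁻¹ * k), ⟨_, hc, rfl⟩, (r (k'⁻¹ * k))⁻¹ * d,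
      (La : Subgroup U).mul_mem ((La : Subgroup U).inv_mem h1) hd,
      ⟨H.mul_mem (H.inv_mem h2) hdH, ?_⟩, by group⟩
    have h4 : (r (k'⁻¹ * k))⁻¹ * d = (k'⁻¹ * k * r (k'⁻¹ * k))⁻¹ * (k'⁻¹ * k * d) := by group
    rw [h4]
    refine H'.mul_mem (H'.inv_mem h3) ?_
    rw [hcd]
    exact hdH'

end Pool.Agent.NG
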