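import Mathlib
import Pool.Agent.Lib.NG.A

/-!
# NVG2 (MP_663568_nt), part A, row PWJ: real powers modulo a normal subgroup

In a filtered group modulo `M` the real powers of `x` modulo a closed normal subgroup `J ≥ M` which
is closed under real powers depend only on `x` modulo `J` (unique roots).  (helper66)
-/

set_option autoImplicit false
open Finset Topology

namespace Pool.Agent.NG

noncomputable section

open Amb

/-- Row PWJ: real powers modulo a normal subgroup. -/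
def PWJ_stmt : Prop := ∀ (U : Type) [Amb U] (Gf : ℕ → Subgroup U) (d : ℕ) (J : Subgroup U),
  Filt Gf d → PwC J → IsClosed (J : Set U) → Nrm (Gf 0) J → Gf (d + 1) ≤ J →
  ∀ x ∈ Gf 0, ∀ y ∈ Gf 0, x * y⁻¹ ∈ J → ∀ t : ℝ, pw t x * (pw t y)⁻¹ ∈ J

namespace PWJx

/-- Unique roots in a torsion-free nilpotent group. -/
lemma abs_root {Q : Type} [Group Q] (S : ℕ → Set Q) {d : ℕ}
    (hS : ∀ k, ∀ a ∈ S k, ∀ v, a * v * a⁻¹ * v⁻¹ ∈ S (k + 1)) (h1 : ∀ a ∈ S (d + 1), a = 1)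
    {n : ℕ} (tf : ∀ a : Q, a ^ n = 1 → a = 1) :
    ∀ m k, k + m = d + 1 → ∀ u v : Q, u * v⁻¹ ∈ S k → u ^ n = v ^ n → u = v := by
  intro m
  induction m with
  | zero =>
    intro k hk u v huv _
    rw [add_zero] at hk
    subst hk
    exact mul_inv_eq_one.1 (h1 _ huv)
  | succ m ih =>
    intro k hk u v huv hn
    have h2 : u * v * u⁻¹ = v := by
      apply ih (k + 1) (by omega)
      · have h3 := hS k _ huv v
        have h4 : u * v⁻¹ * v * (u * v⁻¹)⁻¹ * v⁻¹ = u * v * u⁻¹ * v⁻¹ := by group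
        rwa [h4] at h3
      · rw [conj_pow, ← hn]
        group
    have h5 : Commute u v := by
      have : u * v = v * u := by
        calc u * v = u * v * u⁻¹ * u := by group
          _ = v * u := by rw [h2]
      exact this
    have h6 : (u * v⁻¹) ^ n = 1 := by
      rw [(h5.inv_right).mul_pow, inv_pow, hn, mul_inv_cancel]
    exact mul_inv_eq_one.1 (tf _ h6)

variable {U : Type} [Amb U]

lemma pw_zero' (x : U) : pw 0 x = 1 := by
  have h := pw_add 0 0 x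
  rw [add_zero] at h
  exact mul_eq_left.1 h.symm

lemma pw_nat' (n : ℕ) (x : U) : pw n x = x ^ n := by
  induction n with
  | zero => rw [Nat.cast_zero, pw_zero', pow_zero]
  | succ n ih => rw [Nat.cast_succ, pw_add, ih, pw_one, pow_succ]

lemma pw_neg' (t : ℝ) (x : U) : pw (-t) x = (pw t x)⁻¹ := by
  have h := pw_add (-t) t x
  rw [neg_add_cancel, pw_zero'] at h
  exact eq_inv_of_mul_eq_one_left h.symm

lemma pw_int' (n : ℤ) (x : U) : pw n x = x ^ n := by
  rcases Int.le_total 0 n with h | h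
  · obtain ⟨m, rfl⟩ := Int.eq_ofNat_of_zero_le h
    rw [zpow_natCast]
    exact_mod_cast pw_nat' m x
  · obtain ⟨m, hm⟩ := Int.eq_ofNat_of_zero_le (neg_nonneg.2 h)
    have h2 : n = -(m : ℤ) := by omega
    rw [h2, zpow_neg, zpow_natCast, Int.cast_neg, Int.cast_natCast, pw_neg', pw_nat']

/-- The root. -/
lemma root_pow {n : ℕ} (hn : 1 ≤ n) (x : U) : (pw (1 / n) x) ^ n = x := by
  have hn0 : (n : ℝ) ≠ 0 := by exact_mod_cast (by omega : n ≠ 0)
  rw [← pw_nat', ← pw_mul, mul_one_div, div_self hn0, pw_one]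

lemma mem_of_pow {M : Subgroup U} (hM : PwC M) {n : ℕ} (hn : 1 ≤ n) {x : U} (h : x ^ n ∈ M) :
    x ∈ M := by
  have hn0 : (n : ℝ) ≠ 0 := by exact_mod_cast (by omega : n ≠ 0)
  have h2 := hM _ h (1 / n)
  rwa [← pw_nat', ← pw_mul, one_div_mul_cancel hn0, pw_one] at h2

lemma anti_le {Gf : ℕ → Subgroup U} {d : ℕ} (hG : Filt Gf d) (i : ℕ) : Gf i ≤ Gf 0 := by
  induction i with
  | zero => exact le_rfl
  | succ i ih => exact (hG.anti i).trans ih

end PWJx

open PWJx in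
/-- **Row PWJ.** -/
theorem pwj : PWJ_stmt := by
  intro U _ Gf d J hG hJ hcl hN hM x hx y hy hxy
  -- the quotient
  set N : Subgroup (Gf 0) := J.subgroupOf (Gf 0) with hNdef
  have hnorm : N.Normal := by
    refine ⟨fun n hn g => ?_⟩
    rw [hNdef, Subgroup.mem_subgroupOf] at hn ⊢
    exact hN g g.2 n hn
  have hmk : ∀ a b : Gf 0, (QuotientGroup.mk a : Gf 0 ⧸ N) = QuotientGroup.mk b ↔
      (a : U) * (b : U)⁻¹ ∈ J := by
    intro a b
    rw [QuotientGroup.eq_iff_div_mem, hNdef, Subgroup.mem_subgroupOf, div_eq_mul_inv]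
    rfl
  set S : ℕ → Set (Gf 0 ⧸ N) := fun k => {q | ∃ g : Gf 0, (g : U) ∈ Gf k ∧ q = QuotientGroup.mk g}
    with hS
  have hroot : ∀ n : ℕ, 1 ≤ n → ∀ u v : Gf 0,
      (QuotientGroup.mk u : Gf 0 ⧸ N) ^ n = (QuotientGroup.mk v : Gf 0 ⧸ N) ^ n →
      (QuotientGroup.mk u : Gf 0 ⧸ N) = QuotientGroup.mk v := by
    intro n hn u v huv
    refine abs_root S (d := d) (n := n) ?_ ?_ ?_ (d + 1) 0 (by omega) _ _ ?_ huv
    · rintro k a ⟨g, hg, rfl⟩ q
      obtain ⟨v', rfl⟩ := QuotientGroup.mk_surjective q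
      refine ⟨g * v' * g⁻¹ * v'⁻¹, ?_, rfl⟩
      exact hG.com k 1 g hg v' (by rw [hG.top]; exact v'.2)
    · rintro a ⟨g, hg, rfl⟩
      have h2 := (hmk g 1).2 (by
        show (g : U) * ((1 : Gf 0) : U)⁻¹ ∈ J
        rw [Subgroup.coe_one, inv_one, mul_one]
        exact hM hg)
      rw [h2]
      rfl
    · intro a ha
      obtain ⟨g, rfl⟩ := QuotientGroup.mk_surjective a
      have h2 : (QuotientGroup.mk (g ^ n) : Gf 0 ⧸ N) = QuotientGroup.mk 1 := ha
      rw [hmk] at h2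
      have h3 : ((g : U)) ^ n ∈ J := by
        have h4 : ((g ^ n : Gf 0) : U) * ((1 : Gf 0) : U)⁻¹ = (g : U) ^ n := by
          rw [Subgroup.coe_one, inv_one, mul_one]
          rfl
        rwa [h4] at h2
      have h5 := mem_of_pow hJ hn h3
      have h6 := (hmk g 1).2 (by
        show (g : U) * ((1 : Gf 0) : U)⁻¹ ∈ J
        rw [Subgroup.coe_one, inv_one, mul_one]
        exact h5)
      rw [h6]
      rfl
    · exact ⟨u * v⁻¹, (u * v⁻¹).2, rfl⟩
  have hG0 := (hG.rat 0).pwc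
  -- roots
  have hA : ∀ n : ℕ, 1 ≤ n → ∀ a : ℤ, pw (a / n : ℝ) x * (pw (a / n : ℝ) y)⁻¹ ∈ J := by
    intro n hn a
    have h1 : (QuotientGroup.mk (⟨pw (1 / n) x, hG0 x hx _⟩ : Gf 0) : Gf 0 ⧸ N) =
        QuotientGroup.mk (⟨pw (1 / n) y, hG0 y hy _⟩ : Gf 0) := by
      apply hroot n hn
      have h2 : (QuotientGroup.mk (⟨x, hx⟩ : Gf 0) : Gf 0 ⧸ N) = QuotientGroup.mk (⟨y, hy⟩ : Gf 0) :=
        (hmk _ _).2 hxy
      have h3 : (⟨pw (1 / n) x, hG0 x hx _⟩ : Gf 0) ^ n = ⟨x, hx⟩ :=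
        Subtype.ext (root_pow hn x)
      have h4 : (⟨pw (1 / n) y, hG0 y hy _⟩ : Gf 0) ^ n = ⟨y, hy⟩ :=
        Subtype.ext (root_pow hn y)
      rw [← h3, ← h4] at h2
      exact h2
    have h2 : (QuotientGroup.mk ((⟨pw (1 / n) x, hG0 x hx _⟩ : Gf 0) ^ a) : Gf 0 ⧸ N) =
        QuotientGroup.mk ((⟨pw (1 / n) y, hG0 y hy _⟩ : Gf 0) ^ a) := by
      have h3 : (QuotientGroup.mk (⟨pw (1 / n) x, hG0 x hx _⟩ : Gf 0) : Gf 0 ⧸ N) ^ a =
        (QuotientGroup.mk (⟨pw (1 / n) y, hG0 y hy _⟩ : Gf 0) : Gf 0 ⧸ N) ^ a := by rw [h1]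
      exact h3
    rw [hmk] at h2
    have h3 : ∀ z : U, pw (a / n : ℝ) z = (pw (1 / n : ℝ) z) ^ a := by
      intro z
      rw [← pw_int', ← pw_mul]
      congr 1
      ring
    rw [h3 x, h3 y]
    exact h2
  -- real powers
  intro t
  have hcx : Continuous fun t : ℝ => pw t x * (pw t y)⁻¹ := by
    have h1 : Continuous fun t : ℝ => pw t x := pw_cont.comp (continuous_id.prodMk continuous_const)
    have h2 : Continuous fun t : ℝ => pw t y := pw_cont.comp (continuous_id.prodMk continuous_const)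
    exact h1.mul h2.inv
  refine (Rat.denseRange_cast (𝕜 := ℝ)).induction_on (p := fun t => pw t x * (pw t y)⁻¹ ∈ J) t
    (hcl.preimage hcx) ?_
  intro q
  have h1 := hA q.den q.pos q.num
  rw [← Rat.cast_def] at h1
  exact h1

end

end Pool.Agent.NG
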