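import Pool.Agent.Lib.NG.ARows
import Pool.Agent.Lib.NG.PWB

/-!
# NVG2 (MP_663568_nt), row UNB: a central element all of whose powers are near `M` is in `M`
-/

set_option autoImplicit false
open Finset Topology

namespace Pool.Agent.NG

noncomputable section

open Amb

/-- the part of row UNB with powers instead of real powers -/
theorem unb_of_pwb (hP : PWB_stmt) : UNB_stmt := by
  intro U _ G M w K hG hM hMG hGM hw hcen hK hnear
  obtain ⟨-, hnat, -, hneg, -, -, -, hroot⟩ := hP U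
  -- the quotient
  let N : Subgroup G := M.subgroupOf G
  have hN : N.Normal := ⟨fun n hn g => by
    rw [Subgroup.mem_subgroupOf] at hn ⊢
    exact hGM g g.2 n hn⟩
  let w' : G := ⟨w, hw⟩
  have hcomm : ∀ g : G, Commute (QuotientGroup.mk g : G ⧸ N) (QuotientGroup.mk w') := by
    intro g
    have h := hcen g g.2 1
    rw [pw_one] at h
    have h2 : (g * w' * g⁻¹ * w'⁻¹ : G) ∈ N := by
      rw [Subgroup.mem_subgroupOf]
      exact h
    have h3 : (QuotientGroup.mk (g * w' * g⁻¹ * w'⁻¹) : G ⧸ N) = 1 :=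
      (QuotientGroup.eq_one_iff _).2 h2
    rw [QuotientGroup.mk_mul, QuotientGroup.mk_mul, QuotientGroup.mk_mul, QuotientGroup.mk_inv,
      QuotientGroup.mk_inv, mul_inv_eq_one, mul_inv_eq_iff_eq_mul] at h3
    exact h3
  -- the key: for every `n ≥ 1` an element close to `1` in `w M`
  have key : ∀ n : ℕ, 1 ≤ n → ∃ k ∈ K, w⁻¹ * pw (1 / n) k ∈ M := by
    intro n hn
    obtain ⟨k, hk, m, hm, hkm⟩ := hnear n
    refine ⟨k, hk, ?_⟩
    have hkG : k ∈ G := by
      have h : k = pw n w * m⁻¹ := by rw [hkm]; group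
      rw [h]
      exact G.mul_mem (hG.pwc w hw _) (G.inv_mem (hMG hm))
    have hn0 : (n : ℝ) ≠ 0 := by
      have : 0 < n := hn
      positivity
    have hek : (pw (1 / n : ℝ) k) ^ n = k := by
      rw [← hnat, ← pw_mul, mul_one_div_cancel hn0, pw_one]
    let e : G := ⟨pw (1 / n : ℝ) k, hG.pwc k hkG _⟩
    have h1 : (w⁻¹ * pw (1 / n : ℝ) k) ^ n ∈ M := by
      have h2 : ((w'⁻¹ * e) ^ n : G) ∈ N := by
        rw [← QuotientGroup.eq_one_iff]
        have h3 : ((w'⁻¹ * e : G) : G ⧸ N) = (w' : G ⧸ N)⁻¹ * (e : G ⧸ N) := by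
          rw [QuotientGroup.mk_mul, QuotientGroup.mk_inv]
        rw [QuotientGroup.mk_pow, h3, Commute.mul_pow (hcomm e).symm.inv_left, inv_pow,
          ← QuotientGroup.mk_pow, ← QuotientGroup.mk_pow, inv_mul_eq_one, QuotientGroup.eq]
        rw [Subgroup.mem_subgroupOf]
        have h4 : (((w' ^ n)⁻¹ * e ^ n : G) : U) = (w ^ n)⁻¹ * (pw (1 / n : ℝ) k) ^ n := rfl
        rw [h4, hek]
        rw [hnat] at hkm
        have h5 : k = w ^ n * m⁻¹ := by rw [hkm]; group
        rw [h5]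
        have h6 : (w ^ n)⁻¹ * (w ^ n * m⁻¹) = m⁻¹ := by group
        rw [h6]
        exact M.inv_mem hm
      rw [Subgroup.mem_subgroupOf] at h2
      exact h2
    exact hroot M hM.pwc n _ hn h1
  -- closedness
  obtain ⟨C, hC, hCK⟩ := nm_pw (U := U) K hK
  have hcl : w⁻¹ ∈ closure (M : Set U) := by
    rw [mem_closure_iff_nhds]
    intro V hV
    have hV1 : (fun x : U => w⁻¹ * x) ⁻¹' V ∈ 𝓝 (1 : U) := by
      apply (continuous_const_mul w⁻¹).continuousAt.preimage_mem_nhds
      simpa using hV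
    obtain ⟨ρ, hρ, hρV⟩ := nm_nhds _ hV1
    obtain ⟨n, hn⟩ := exists_nat_gt (max 1 (C / ρ))
    have hn1 : (1 : ℝ) < n := lt_of_le_of_lt (le_max_left _ _) hn
    have hn2 : C / ρ < n := lt_of_le_of_lt (le_max_right _ _) hn
    have hn3 : 1 ≤ n := by
      by_contra h
      have : n = 0 := by omega
      rw [this] at hn1
      norm_num at hn1
    obtain ⟨k, hk, hm⟩ := key n hn3
    refine ⟨w⁻¹ * pw (1 / n : ℝ) k, ?_, hm⟩
    apply hρV
    have hn0 : (0 : ℝ) < n := by linarith
    have h1 : |1 / (n : ℝ)| ≤ 1 := by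
      rw [abs_of_pos (by positivity), div_le_one hn0]
      exact hn1.le
    refine (hCK k hk (1 / n) h1).trans ?_
    rw [abs_of_pos (by positivity), mul_one_div, div_le_iff₀ hn0]
    rw [div_lt_iff₀ hρ] at hn2
    linarith [mul_comm (n : ℝ) ρ]
  rw [hM.cl.closure_eq] at hcl
  have := M.inv_mem hcl
  rwa [inv_inv] at this

theorem unb : UNB_stmt := unb_of_pwb pwb

end

end Pool.Agent.NG
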