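import Pool.Agent.Lib.NG.ADJ
import Pool.Agent.Lib.NG.UNB
import Pool.Agent.Lib.NG.PWJ

/-!
# NVG2 (MP_663568_nt), row COO: coordinates of an abelian quotient

Induction on the rank: if `H' ≠ H` there is `e ∈ La ⊓ H`, `e ∉ H'` (row UNB), `adj H' e` is rational
(row ADJ) and of larger rank; the coordinates for `(H, adj H' e)` are extended by one coordinate.
-/

set_option autoImplicit false
open Finset Topology

namespace Pool.Agent.NG

noncomputable section

open Amb

/-- the abelian quotient -/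
theorem exists_quot {U : Type} [Amb U] (H M : Subgroup U) (hN : Nrm H M) (hC : Cm H H M) :
    ∃ (Q : Type) (_ : CommGroup Q) (q : H →* Q), ∀ x : H, q x = 1 ↔ (x : U) ∈ M := by
  let N : Subgroup H := M.subgroupOf H
  have hNn : N.Normal := ⟨fun n hn g => by
    rw [Subgroup.mem_subgroupOf] at hn ⊢
    exact hN g g.2 n hn⟩
  have hcomm : ∀ a b : H ⧸ N, a * b = b * a := by
    intro a b
    obtain ⟨x, rfl⟩ := QuotientGroup.mk_surjective a
    obtain ⟨y, rfl⟩ := QuotientGroup.mk_surjective b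
    have h3 : (QuotientGroup.mk (x * y * x⁻¹ * y⁻¹) : H ⧸ N) = 1 := by
      rw [QuotientGroup.eq_one_iff, Subgroup.mem_subgroupOf]
      exact hC x x.2 y y.2
    rw [QuotientGroup.mk_mul, QuotientGroup.mk_mul, QuotientGroup.mk_mul, QuotientGroup.mk_inv,
      QuotientGroup.mk_inv, mul_inv_eq_one, mul_inv_eq_iff_eq_mul] at h3
    exact h3
  refine ⟨H ⧸ N, { (inferInstance : Group (H ⧸ N)) with mul_comm := hcomm },
    QuotientGroup.mk' N, ?_⟩
  intro x
  rw [QuotientGroup.mk'_apply, QuotientGroup.eq_one_iff, Subgroup.mem_subgroupOf]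

section
variable {U : Type} [Amb U]

theorem tau_mem {H : Subgroup U} (hH : PwC H) {D : ℕ} {e : Fin D → U} (he : ∀ i, e i ∈ H)
    (v : Fin D → ℝ) : tau e v ∈ H := by
  unfold tau
  refine H.list_prod_mem ?_
  intro x hx
  rw [List.mem_ofFn] at hx
  obtain ⟨i, rfl⟩ := hx
  exact hH _ (he i) _

theorem tau_cons {D : ℕ} (e0 : U) (e : Fin D → U) (s : ℝ) (v : Fin D → ℝ) :
    tau (Fin.cons e0 e : Fin (D + 1) → U) (Fin.cons s v) = pw s e0 * tau e v := by
  unfold tau
  rw [List.ofFn_succ, List.prod_cons]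
  rfl

theorem tau_continuous {D : ℕ} (e : Fin D → U) : Continuous (tau e) := by
  induction D with
  | zero =>
    have h : tau e = fun _ => 1 := by
      funext v
      unfold tau
      simp
    rw [h]
    exact continuous_const
  | succ D ih =>
    have h : tau e = fun v : Fin (D + 1) → ℝ => pw (v 0) (e 0) * tau (fun i => e i.succ)
        (fun i => v i.succ) := by
      funext v
      unfold tau
      rw [List.ofFn_succ, List.prod_cons]
    rw [h]
    refine ((pw_continuous (e 0)).comp (continuous_apply 0)).mul ((ih _).comp ?_)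
    exact continuous_pi fun i => continuous_apply _

theorem tau_zero {D : ℕ} (e : Fin D → U) : tau e 0 = 1 := by
  unfold tau
  refine List.prod_eq_one ?_
  intro x hx
  rw [List.mem_ofFn] at hx
  obtain ⟨i, rfl⟩ := hx
  exact pw_zero _

/-- `tau` in the quotient -/
theorem tau_quot {H : Subgroup U} (hH : PwC H) {Q : Type} [CommGroup Q] (q : H →* Q) {D : ℕ}
    {e : Fin D → U} (he : ∀ i, e i ∈ H) (v : Fin D → ℝ) :
    q ⟨tau e v, tau_mem hH he v⟩ = ∏ i, q ⟨pw (v i) (e i), hH _ (he i) _⟩ := by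
  have h : (⟨tau e v, tau_mem hH he v⟩ : H) =
      (List.ofFn fun i => (⟨pw (v i) (e i), hH _ (he i) _⟩ : H)).prod := by
    apply Subtype.ext
    rw [← Subgroup.coe_subtype, map_list_prod, List.map_ofFn]
    rfl
  rw [h, map_list_prod, List.map_ofFn, List.prod_ofFn]
  rfl

theorem pw_quot_add {H : Subgroup U} (hH : PwC H) {Q : Type} [CommGroup Q] (q : H →* Q)
    {x : U} (hx : x ∈ H) (s t : ℝ) :
    q ⟨pw (s + t) x, hH _ hx _⟩ = q ⟨pw s x, hH _ hx _⟩ * q ⟨pw t x, hH _ hx _⟩ := by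
  rw [← map_mul]
  congr 1
  exact Subtype.ext (pw_add s t x)

theorem tau_quot_add {H : Subgroup U} (hH : PwC H) {Q : Type} [CommGroup Q] (q : H →* Q) {D : ℕ}
    {e : Fin D → U} (he : ∀ i, e i ∈ H) (v w : Fin D → ℝ) :
    q ⟨tau e (v + w), tau_mem hH he _⟩ =
      q ⟨tau e v, tau_mem hH he _⟩ * q ⟨tau e w, tau_mem hH he _⟩ := by
  rw [tau_quot hH q he, tau_quot hH q he, tau_quot hH q he, ← Finset.prod_mul_distrib]
  refine Finset.prod_congr rfl fun i _ => ?_
  exact pw_quot_add hH q (he i) _ _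

theorem tau_quot_single {H : Subgroup U} (hH : PwC H) {Q : Type} [CommGroup Q] (q : H →* Q)
    {D : ℕ} {e : Fin D → U} (he : ∀ i, e i ∈ H) (i : Fin D) :
    q ⟨tau e (Pi.single i 1), tau_mem hH he _⟩ = q ⟨e i, he i⟩ := by
  rw [tau_quot hH q he]
  rw [Finset.prod_eq_single i]
  · congr 1
    apply Subtype.ext
    show pw ((Pi.single i 1 : Fin D → ℝ) i) (e i) = e i
    rw [Pi.single_eq_same, pw_one]
  · intro j _ hj
    have h : (⟨pw ((Pi.single i 1 : Fin D → ℝ) j) (e j), hH _ (he j) _⟩ : H) = 1 := by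
      apply Subtype.ext
      show pw ((Pi.single i 1 : Fin D → ℝ) j) (e j) = 1
      rw [Pi.single_eq_of_ne hj, pw_zero]
    rw [h, map_one]
  · intro h
    exact absurd (Finset.mem_univ _) h

/-- an element of the lattice outside a smaller rational subgroup -/
theorem exists_la {H H' : Subgroup U} (hH : Rat H) (hH' : Rat H') (hle : H' ≤ H) (hN : Nrm H H')
    (hC : Cm H H H') (hne : H' ≠ H) : ∃ e ∈ (La : Subgroup U), e ∈ H ∧ e ∉ H' := by
  by_contra hcon
  push Not at hcon
  apply hne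
  refine le_antisymm hle ?_
  intro w hw
  obtain ⟨K, hK, hKH, hKc⟩ := hH.coc
  refine unb U H H' w K hH hH' hle hN hw ?_ hK ?_
  · intro g hg t
    exact hC g hg _ (hH.pwc w hw t)
  · intro n
    obtain ⟨k, hk, γ, hγ, hγH, he⟩ := hKc _ (hH.pwc w hw n)
    exact ⟨k, hk, γ, hcon γ hγ hγH, he⟩

/-- the filtration of an abelian quotient -/
theorem filt_ab {H H' : Subgroup U} (hH : Rat H) (hH' : Rat H') (hle : H' ≤ H) (hN : Nrm H H')
    (hC : Cm H H H') : Filt (fun i => if i ≤ 1 then H else H') 1 := by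
  refine ⟨?_, ?_, ?_, ?_, ?_⟩
  · intro i
    split_ifs
    · exact hH
    · exact hH'
  · intro i
    split_ifs with h1 h2 h2
    · exact le_rfl
    · omega
    · exact hle
    · exact le_rfl
  · simp
  · intro i j x hx y hy
    by_cases hi : i = 0
    · by_cases hj : j ≤ 1
      · rw [if_pos (by omega)] at hx
        rw [if_pos hj] at hy
        rw [if_pos (by omega)]
        exact hle (hC x hx y hy)
      · rw [if_pos (by omega)] at hx
        rw [if_neg hj] at hy
        rw [if_neg (by omega)]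
        exact H'.mul_mem (hN x hx y hy) (H'.inv_mem hy)
    · by_cases hj : j = 0
      · by_cases hi1 : i ≤ 1
        · rw [if_pos hi1] at hx
          rw [if_pos (by omega)] at hy
          rw [if_pos (by omega)]
          exact hle (hC x hx y hy)
        · rw [if_neg hi1] at hx
          rw [if_pos (by omega)] at hy
          rw [if_neg (by omega)]
          have h := hN y hy x⁻¹ (H'.inv_mem hx)
          have h2 : x * y * x⁻¹ * y⁻¹ = x * (y * x⁻¹ * y⁻¹) := by group
          rw [h2]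
          exact H'.mul_mem hx h
      · rw [if_neg (by omega)]
        have hx' : x ∈ H := by
          split_ifs at hx
          · exact hx
          · exact hle hx
        have hy' : y ∈ H := by
          split_ifs at hy
          · exact hy
          · exact hle hy
        exact hC x hx' y hy'
  · intro i hi
    rw [if_neg (by omega), if_neg (by omega)]

/-- real powers modulo `H'` -/
theorem pw_ab {H H' : Subgroup U} (hH : Rat H) (hH' : Rat H') (hle : H' ≤ H) (hN : Nrm H H')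
    (hC : Cm H H H') {x y : U} (hx : x ∈ H) (hy : y ∈ H) (hxy : x * y⁻¹ ∈ H') (t : ℝ) :
    pw t x * (pw t y)⁻¹ ∈ H' := by
  have hF := filt_ab hH hH' hle hN hC
  exact pwj U _ 1 H' hF hH'.pwc hH'.cl (by simpa using hN) (by simp) x (by simpa using hx) y
    (by simpa using hy) hxy t

/-- a subgroup of `ℝ` which contains `1` and has finitely many elements in `[0, 1)` -/
theorem den_of_fin (S : AddSubgroup ℝ) (h1 : (1 : ℝ) ∈ S) (hf : ((S : Set ℝ) ∩ Set.Ico 0 1).Finite) :
    ∃ m : ℕ, 1 ≤ m ∧ ∀ s ∈ S, ∃ j : ℤ, m * s = j := by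
  classical
  refine ⟨(hf.toFinset.card).factorial, Nat.factorial_pos _, ?_⟩
  intro s hs
  have hmem : ∀ n : ℕ, Int.fract (n * s) ∈ hf.toFinset := by
    intro n
    rw [Set.Finite.mem_toFinset]
    refine ⟨?_, Int.fract_nonneg _, Int.fract_lt_one _⟩
    have h : Int.fract (n * s) = n • s - ⌊n * s⌋ • (1 : ℝ) := by
      rw [nsmul_eq_mul, zsmul_eq_mul, mul_one, Int.fract]
    rw [h]
    exact S.sub_mem (S.nsmul_mem hs _) (S.zsmul_mem h1 _)
  obtain ⟨a, ha, b, hb, hab, he⟩ := Finset.exists_ne_map_eq_of_card_lt_of_maps_to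
    (s := Finset.range (hf.toFinset.card + 1)) (t := hf.toFinset)
    (by rw [Finset.card_range]; omega) (f := fun n : ℕ => Int.fract (n * s))
    (fun n _ => hmem n)
  -- the difference divides the factorial
  have key : ∀ a b : ℕ, a < b → b < hf.toFinset.card + 1 →
      Int.fract ((a : ℝ) * s) = Int.fract ((b : ℝ) * s) →
      ∃ j : ℤ, ((hf.toFinset.card).factorial : ℕ) * s = j := by
    intro a b hab hb he
    obtain ⟨z, hz⟩ := Int.fract_eq_fract.1 he
    have hd : (b - a) ∣ (hf.toFinset.card).factorial :=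
      Nat.dvd_factorial (by omega) (by omega)
    obtain ⟨c, hc⟩ := hd
    refine ⟨-(c * z), ?_⟩
    rw [hc]
    push_cast [Nat.cast_sub hab.le]
    rw [← hz]
    ring
  rcases lt_or_gt_of_ne hab with h | h
  · exact key a b h (Finset.mem_range.1 hb) he
  · exact key b a h (Finset.mem_range.1 ha) he.symm

/-- the conclusion of row COO -/
def CooC (H H' : Subgroup U) : Prop := ∃ (D : ℕ) (e : Fin D → U) (π : U → Fin D → ℝ) (k : ℕ),
    (∀ i, e i ∈ (La : Subgroup U) ∧ e i ∈ H) ∧
    (∀ x ∈ H, ∀ y ∈ H, π (x * y) = π x + π y) ∧ (∀ x ∈ H, π x = 0 ↔ x ∈ H') ∧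
    (∀ i, π (e i) = Pi.single i 1) ∧ ContinuousOn π (H : Set U) ∧ 1 ≤ k ∧
    (∀ γ ∈ (La : Subgroup U), γ ∈ H → ∀ i, ∃ j : ℤ, k * π γ i = j) ∧
    ∀ v : Fin D → ℝ, tau e v ∈ H ∧ π (tau e v) = v

/-- the inductive step -/
theorem coo_step {H H' : Subgroup U} (hH : Rat H) (hH' : Rat H') (hle : H' ≤ H) (hN : Nrm H H')
    (hC : Cm H H H') {e0 : U} (h0 : e0 ∈ (La : Subgroup U)) (h0H : e0 ∈ H) (h0' : e0 ∉ H')
    (ih : CooC H (adj H' e0)) : CooC H H' := by
  classical
  obtain ⟨hmem, hR, hNa, hleH⟩ := adj_row U H H' H' e0 hH hH' hH' le_rfl hle hN hN h0 h0H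
    (fun g hg t => hC g hg _ (hH.pwc e0 h0H t))
  obtain ⟨D, e, π, k, he, hadd, hzero, hpe, hcont, hk, hint, htau⟩ := ih
  obtain ⟨Q, _, q, hq⟩ := exists_quot H H' hN hC
  have heH : ∀ i, e i ∈ H := fun i => (he i).2
  have hpwc := hH.pwc
  have hE : ∀ s : ℝ, pw s e0 ∈ H := fun s => hpwc _ h0H s
  have hTm : ∀ v, tau e v ∈ H := tau_mem hpwc heH
  obtain ⟨P, hPdef⟩ : ∃ P : ℝ → Q, ∀ s, P s = q ⟨pw s e0, hE s⟩ := ⟨_, fun _ => rfl⟩
  obtain ⟨T, hTdef⟩ : ∃ T : (Fin D → ℝ) → Q, ∀ v, T v = q ⟨tau e v, hTm v⟩ := ⟨_, fun _ => rfl⟩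
  have hP : ∀ s s', P (s + s') = P s * P s' := by
    intro s s'
    rw [hPdef, hPdef, hPdef]
    exact pw_quot_add hpwc q h0H s s'
  have hT : ∀ v w, T (v + w) = T v * T w := by
    intro v w
    rw [hTdef, hTdef, hTdef]
    exact tau_quot_add hpwc q heH v w
  have hP0 : P 0 = 1 := by
    have h := hP 0 0
    rw [add_zero] at h
    exact left_eq_mul.1 h
  have hT0 : T 0 = 1 := by
    have h := hT 0 0
    rw [add_zero] at h
    exact left_eq_mul.1 h
  have hqeq : ∀ x y (hx : x ∈ H) (hy : y ∈ H), q ⟨x, hx⟩ = q ⟨y, hy⟩ ↔ x * y⁻¹ ∈ H' := by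
    intro x y hx hy
    rw [← mul_inv_eq_one, ← map_inv, ← map_mul, hq]
    rfl
  have huni : ∀ s s' : ℝ, P s = P s' → s = s' := by
    intro s s' h
    rw [hPdef, hPdef, hqeq, ← pw_sub] at h
    by_contra hne
    exact h0' (hH'.pwc.of_pw (sub_ne_zero.2 hne) h)
  have hpi1 : π 1 = 0 := (hzero 1 H.one_mem).2 (adj H' e0).one_mem
  have hpinv : ∀ x ∈ H, π x⁻¹ = - π x := by
    intro x hx
    have h := hadd x hx x⁻¹ (H.inv_mem hx)
    rw [mul_inv_cancel, hpi1] at h
    exact (neg_eq_of_add_eq_zero_right h.symm).symm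
  -- the element of `adj H' e0`
  have hy : ∀ x ∈ H, x * (tau e (π x))⁻¹ ∈ adj H' e0 := by
    intro x hx
    rw [← hzero _ (H.mul_mem hx (H.inv_mem (hTm _))), hadd x hx _ (H.inv_mem (hTm _)),
      hpinv _ (hTm _), (htau _).2, add_neg_cancel]
  have hex : ∀ x (hx : x ∈ H), ∃ s : ℝ, q ⟨x, hx⟩ = P s * T (π x) := by
    intro x hx
    obtain ⟨h, hh, s, hs⟩ := (hmem _).1 (hy x hx)
    refine ⟨s, ?_⟩
    rw [hPdef, hTdef, ← map_mul]
    refine (hqeq x (pw s e0 * tau e (π x)) hx (H.mul_mem (hE s) (hTm _))).2 ?_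
    have h2 : x * (pw s e0 * tau e (π x))⁻¹ = x * (tau e (π x))⁻¹ * (pw s e0)⁻¹ := by group
    rw [h2, hs, mul_inv_cancel_right]
    exact hh
  obtain ⟨t, ht⟩ : ∃ t : U → ℝ, ∀ x (hx : x ∈ H), q ⟨x, hx⟩ = P (t x) * T (π x) := by
    refine ⟨fun x => if hx : x ∈ H then (hex x hx).choose else 0, ?_⟩
    intro x hx
    simp only [dif_pos hx]
    exact (hex x hx).choose_spec
  have htu : ∀ x (hx : x ∈ H) s, q ⟨x, hx⟩ = P s * T (π x) → t x = s := by
    intro x hx s hs
    rw [ht x hx] at hs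
    exact huni _ _ (mul_right_cancel hs)
  -- additivity
  have htadd : ∀ x ∈ H, ∀ y ∈ H, t (x * y) = t x + t y := by
    intro x hx y hy
    refine htu _ (H.mul_mem hx hy) _ ?_
    have h : q ⟨x * y, H.mul_mem hx hy⟩ = q ⟨x, hx⟩ * q ⟨y, hy⟩ := by
      rw [← map_mul]
      rfl
    rw [h, ht x hx, ht y hy, hadd x hx y hy, hP, hT]
    exact mul_mul_mul_comm _ _ _ _
  have ht1 : t 1 = 0 := by
    have h := htadd 1 H.one_mem 1 H.one_mem
    rw [mul_one] at h
    linarith
  have htinv : ∀ x ∈ H, t x⁻¹ = - t x := by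
    intro x hx
    have h := htadd x hx x⁻¹ (H.inv_mem hx)
    rw [mul_inv_cancel, ht1] at h
    linarith
  have htpow : ∀ x ∈ H, ∀ n : ℕ, t (x ^ n) = n * t x := by
    intro x hx n
    induction n with
    | zero => rw [pow_zero, ht1, Nat.cast_zero, zero_mul]
    | succ n ih =>
      rw [pow_succ, htadd _ (H.pow_mem hx n) _ hx, ih]
      push_cast
      ring
  have hpipow : ∀ x ∈ H, ∀ n : ℕ, π (x ^ n) = (n : ℝ) • π x := by
    intro x hx n
    induction n with
    | zero => rw [pow_zero, hpi1, Nat.cast_zero, zero_smul]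
    | succ n ih =>
      rw [pow_succ, hadd _ (H.pow_mem hx n) _ hx, ih]
      push_cast
      rw [add_smul, one_smul]
  -- values
  have htH' : ∀ x ∈ H', t x = 0 := by
    intro x hx
    refine htu x (hle hx) 0 ?_
    have h1 : x ∈ adj H' e0 := (hmem x).2 ⟨x, hx, 0, by rw [pw_zero, mul_one]⟩
    rw [(hzero x (hle hx)).2 h1, hP0, hT0, mul_one, hq]
    exact hx
  have htadj : ∀ h ∈ H', ∀ s : ℝ, t (h * pw s e0) = s := by
    intro h hh s
    have hm : h * pw s e0 ∈ H := H.mul_mem (hle hh) (hE s)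
    refine htu _ hm s ?_
    have h1 : h * pw s e0 ∈ adj H' e0 := (hmem _).2 ⟨h, hh, s, rfl⟩
    rw [(hzero _ hm).2 h1, hT0, mul_one, hPdef, hqeq]
    rw [mul_inv_cancel_right]
    exact hh
  have hpiadj : ∀ x ∈ adj H' e0, π x = 0 := fun x hx => (hzero x (hleH hx)).2 hx
  have htE : ∀ s : ℝ, t (pw s e0) = s := by
    intro s
    have h := htadj 1 H'.one_mem s
    rwa [one_mul] at h
  have hpiE : ∀ s : ℝ, π (pw s e0) = 0 := by
    intro s
    exact hpiadj _ ((hmem _).2 ⟨1, H'.one_mem, s, by rw [one_mul]⟩)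
  have htT : ∀ v, t (tau e v) = 0 := by
    intro v
    refine htu _ (hTm v) 0 ?_
    rw [hP0, one_mul, (htau v).2, hTdef]
  have htx : ∀ x ∈ H, t (x * (tau e (π x))⁻¹) = t x := by
    intro x hx
    rw [htadd x hx _ (H.inv_mem (hTm _)), htinv _ (hTm _), htT, neg_zero, add_zero]
  -- bounded near `1`
  have hbd : ∀ᶠ x in 𝓝[(H : Set U)] (1 : U), |t x| < 1 := by
    have hV1 : IsOpen {x : U | x * e0⁻¹ ∉ H'} :=
      (hH'.cl.preimage (continuous_id.mul continuous_const)).isOpen_compl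
    have hV2 : IsOpen {x : U | x * e0 ∉ H'} :=
      (hH'.cl.preimage (continuous_id.mul continuous_const)).isOpen_compl
    have hV : IsOpen ({x : U | x * e0⁻¹ ∉ H'} ∩ {x : U | x * e0 ∉ H'}) := hV1.inter hV2
    have h1V : (1 : U) ∈ ({x : U | x * e0⁻¹ ∉ H'} ∩ {x : U | x * e0 ∉ H'}) := by
      refine ⟨?_, ?_⟩
      · show (1 : U) * e0⁻¹ ∉ H'
        rw [one_mul]
        exact fun h => h0' (by simpa using H'.inv_mem h)
      · show (1 : U) * e0 ∉ H'
        rw [one_mul]
        exact h0'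
    have hW : ∀ᶠ y in 𝓝 (1 : U), ∀ s ∈ Set.Icc (0 : ℝ) 1,
        pw s y ∈ ({x : U | x * e0⁻¹ ∉ H'} ∩ {x : U | x * e0 ∉ H'}) := by
      refine isCompact_Icc.eventually_forall_of_forall_eventually (fun s _ => ?_)
      have hc : Continuous fun z : U × ℝ => pw z.2 z.1 :=
        pw_cont.comp (continuous_snd.prodMk continuous_fst)
      have h2 : ((1 : U), s) ∈ (fun z : U × ℝ => pw z.2 z.1) ⁻¹'
          ({x : U | x * e0⁻¹ ∉ H'} ∩ {x : U | x * e0 ∉ H'}) := by
        show pw s (1 : U) ∈ ({x : U | x * e0⁻¹ ∉ H'} ∩ {x : U | x * e0 ∉ H'})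
        rw [pw_id]
        exact h1V
      exact (hV.preimage hc).mem_nhds h2
    have hf : ContinuousOn (fun x : U => x * (tau e (π x))⁻¹) (H : Set U) :=
      continuousOn_id.mul (((tau_continuous e).comp_continuousOn hcont).inv)
    have hf1 := hf 1 H.one_mem
    have hf2 : Filter.Tendsto (fun x : U => x * (tau e (π x))⁻¹) (𝓝[(H : Set U)] 1) (𝓝 1) := by
      have h3 : (1 : U) * (tau e (π 1))⁻¹ = 1 := by rw [hpi1, tau_zero, inv_one, mul_one]
      have h4 := hf1.tendsto
      rw [h3] at h4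
      exact h4
    have h5 := hf2.eventually hW
    have h6 : ∀ᶠ x in 𝓝[(H : Set U)] (1 : U), x ∈ H := self_mem_nhdsWithin
    filter_upwards [h5, h6] with x hx hxH
    obtain ⟨h, hh, s, hs⟩ := (hmem _).1 (hy x hxH)
    rw [← htx x hxH, hs, htadj h hh s]
    by_contra hge
    push Not at hge
    have hs0 : 0 < |s| := by linarith
    have h7 := hx (1 / |s|) ⟨by positivity, by
      rw [div_le_one hs0]
      exact hge⟩
    rw [hs] at h7
    have h8 := pw_ab hH hH' hle hN hC (H.mul_mem (hle hh) (hE s)) (hE s)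
      (by rw [mul_inv_cancel_right]; exact hh) (1 / |s|)
    rw [← pw_mul] at h8
    rcases abs_cases s with ⟨h9, -⟩ | ⟨h9, -⟩
    · have h10 : 1 / |s| * s = 1 := by
        rw [h9] at hs0 ⊢
        exact one_div_mul_cancel hs0.ne'
      rw [h10, pw_one] at h8
      exact h7.1 h8
    · have h10 : 1 / |s| * s = -1 := by
        rw [h9] at hs0 ⊢
        have h11 : s ≠ 0 := by
          intro h12
          rw [h12] at hs0
          simp at hs0
        field_simp
      rw [h10, pw_neg, pw_one, inv_inv] at h8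
      exact h7.2 h8
  have htend : Filter.Tendsto t (𝓝[(H : Set U)] (1 : U)) (𝓝 0) := by
    rw [Metric.tendsto_nhds]
    intro ε hε
    obtain ⟨n, hn⟩ := exists_nat_one_div_lt hε
    have hpow : Filter.Tendsto (fun x : U => x ^ (n + 1)) (𝓝[(H : Set U)] (1 : U))
        (𝓝[(H : Set U)] (1 : U)) := by
      have hc : Continuous fun x : U => x ^ (n + 1) := continuous_pow (n + 1)
      have h1 := hc.tendsto (1 : U)
      simp only [one_pow] at h1
      refine tendsto_nhdsWithin_iff.2 ⟨h1.mono_left nhdsWithin_le_nhds, ?_⟩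
      filter_upwards [self_mem_nhdsWithin] with x hx
      exact H.pow_mem hx _
    have h2 := hpow.eventually hbd
    have h6 : ∀ᶠ x in 𝓝[(H : Set U)] (1 : U), x ∈ H := self_mem_nhdsWithin
    filter_upwards [h2, h6] with x hx hxH
    rw [htpow x hxH, abs_mul, Nat.abs_cast] at hx
    rw [Real.dist_eq, sub_zero]
    have hn1 : (0 : ℝ) < ((n + 1 : ℕ) : ℝ) := by positivity
    have h3 : |t x| < 1 / ((n + 1 : ℕ) : ℝ) := by
      rw [lt_div_iff₀ hn1, mul_comm]
      exact hx
    refine h3.trans ?_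
    push_cast
    exact hn
  have htcont : ContinuousOn t (H : Set U) := by
    intro x₀ hx₀
    have h1 : Filter.Tendsto (fun x : U => x * x₀⁻¹) (𝓝[(H : Set U)] x₀) (𝓝[(H : Set U)] (1 : U)) := by
      have hc : Continuous fun x : U => x * x₀⁻¹ := continuous_id.mul continuous_const
      have h1 := hc.tendsto x₀
      simp only [mul_inv_cancel] at h1
      refine tendsto_nhdsWithin_iff.2 ⟨h1.mono_left nhdsWithin_le_nhds, ?_⟩
      filter_upwards [self_mem_nhdsWithin] with x hx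
      exact H.mul_mem hx (H.inv_mem hx₀)
    have h2 := (htend.comp h1).add_const (t x₀)
    rw [zero_add] at h2
    refine h2.congr' ?_
    filter_upwards [self_mem_nhdsWithin] with x hx
    show t (x * x₀⁻¹) + t x₀ = t x
    rw [htadd x hx _ (H.inv_mem hx₀), htinv x₀ hx₀]
    ring
  -- denominators
  obtain ⟨m, hm, hmS⟩ : ∃ m : ℕ, 1 ≤ m ∧ ∀ δ ∈ (La : Subgroup U), δ ∈ adj H' e0 →
      ∃ j : ℤ, m * t δ = j := by
    let S : AddSubgroup ℝ :=
      { carrier := {s | ∃ δ ∈ (La : Subgroup U), δ ∈ adj H' e0 ∧ t δ = s}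
        add_mem' := by
          rintro a b ⟨δ, h1, h2, rfl⟩ ⟨δ', h1', h2', rfl⟩
          exact ⟨δ * δ', (La : Subgroup U).mul_mem h1 h1', (adj H' e0).mul_mem h2 h2',
            htadd _ (hleH h2) _ (hleH h2')⟩
        zero_mem' := ⟨1, (La : Subgroup U).one_mem, (adj H' e0).one_mem, ht1⟩
        neg_mem' := by
          rintro a ⟨δ, h1, h2, rfl⟩
          exact ⟨δ⁻¹, (La : Subgroup U).inv_mem h1, (adj H' e0).inv_mem h2, htinv _ (hleH h2)⟩ }
    have hS1 : (1 : ℝ) ∈ S := by
      refine ⟨e0, h0, (hmem e0).2 ⟨1, H'.one_mem, 1, by rw [pw_one, one_mul]⟩, ?_⟩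
      have h := htE 1
      rwa [pw_one] at h
    obtain ⟨K', hK', hK'H, hK'c⟩ := hH'.coc
    have hCc : IsCompact ((fun p : ℝ × U => pw p.1 e0 * p.2) '' (Set.Icc (0 : ℝ) 1 ×ˢ K')) :=
      (isCompact_Icc.prod hK').image (((pw_continuous e0).comp continuous_fst).mul continuous_snd)
    have hSf : ((S : Set ℝ) ∩ Set.Ico 0 1).Finite := by
      refine ((La_fin _ hCc).image t).subset ?_
      rintro s ⟨⟨δ, h1, h2, h3⟩, hs0, hs1⟩
      obtain ⟨h, hh, s', hs'⟩ := (hmem δ).1 h2
      have h4 : s' = s := by rw [← h3, hs', htadj h hh]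
      subst h4
      have h5 : (pw s' e0)⁻¹ * h * pw s' e0 ∈ H' := by
        have h6 := hN (pw s' e0)⁻¹ (H.inv_mem (hE s')) h hh
        rwa [inv_inv] at h6
      obtain ⟨k₂, hk₂, γ₂, hγ₂, hγ₂H, h6⟩ := hK'c _ h5
      refine ⟨δ * γ₂⁻¹, ⟨(La : Subgroup U).mul_mem h1 ((La : Subgroup U).inv_mem hγ₂),
        (s', k₂), ⟨⟨hs0, hs1.le⟩, hk₂⟩, ?_⟩, ?_⟩
      · show pw s' e0 * k₂ = δ * γ₂⁻¹
        have h7 : k₂ = (pw s' e0)⁻¹ * h * pw s' e0 * γ₂⁻¹ := by
          rw [h6]
          group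
        rw [h7, hs']
        group
      · rw [htadd _ (hleH h2) _ (H.inv_mem (hle hγ₂H)), htinv _ (hle hγ₂H), htH' _ hγ₂H, h3]
        ring
    obtain ⟨m, hm, hmS⟩ := den_of_fin S hS1 hSf
    exact ⟨m, hm, fun δ h1 h2 => hmS _ ⟨δ, h1, h2, rfl⟩⟩
  refine ⟨D + 1, Fin.cons e0 e, fun x => Fin.cons (t x) (π x), k * m, ?_, ?_, ?_, ?_, ?_, ?_, ?_,
    ?_⟩
  · intro i
    refine Fin.cases ?_ (fun i => ?_) i
    · exact ⟨h0, h0H⟩
    · exact he i
  · intro x hx y hy
    funext i
    refine Fin.cases ?_ (fun i => ?_) i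
    · exact htadd x hx y hy
    · show π (x * y) i = π x i + π y i
      rw [hadd x hx y hy]
      rfl
  · intro x hx
    constructor
    · intro h
      have h1 : t x = 0 := congrFun h 0
      have h2 : π x = 0 := by
        funext i
        exact congrFun h i.succ
      have h3 := ht x hx
      rw [h1, h2, hP0, hT0, mul_one, hq] at h3
      exact h3
    · intro h
      have h1 := htH' x h
      have h2 : π x = 0 := hpiadj x ((hmem x).2 ⟨x, h, 0, by rw [pw_zero, mul_one]⟩)
      funext i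
      refine Fin.cases ?_ (fun i => ?_) i
      · exact h1
      · exact congrFun h2 i
  · intro i
    refine Fin.cases ?_ (fun i => ?_) i
    · funext j
      refine Fin.cases ?_ (fun j => ?_) j
      · show t e0 = (Pi.single (0 : Fin (D + 1)) (1 : ℝ) : Fin (D + 1) → ℝ) 0
        rw [Pi.single_eq_same]
        have h := htE 1
        rwa [pw_one] at h
      · show π e0 j = (Pi.single (0 : Fin (D + 1)) (1 : ℝ) : Fin (D + 1) → ℝ) j.succ
        rw [Pi.single_eq_of_ne (Fin.succ_ne_zero j)]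
        have h := hpiE 1
        rw [pw_one] at h
        exact congrFun h j
    · have h3 : t (e i) = 0 := by
        refine htu _ (heH i) 0 ?_
        rw [hP0, one_mul, hpe i, hTdef, tau_quot_single hpwc q heH i]
      funext j
      refine Fin.cases ?_ (fun j => ?_) j
      · show t (e i) = (Pi.single i.succ (1 : ℝ) : Fin (D + 1) → ℝ) 0
        rw [Pi.single_eq_of_ne (Fin.succ_ne_zero i).symm]
        exact h3
      · show π (e i) j = (Pi.single i.succ (1 : ℝ) : Fin (D + 1) → ℝ) j.succ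
        rw [hpe i]
        by_cases hij : j = i
        · subst hij
          rw [Pi.single_eq_same, Pi.single_eq_same]
        · rw [Pi.single_eq_of_ne hij, Pi.single_eq_of_ne (fun h => hij (Fin.succ_inj.1 h))]
  · refine continuousOn_pi.2 fun i => ?_
    refine Fin.cases ?_ (fun i => ?_) i
    · exact htcont
    · exact (continuousOn_pi.1 hcont) i
  · exact Nat.mul_le_mul hk hm
  · intro γ hγ hγH i
    choose j hj using hint γ hγ hγH
    refine Fin.cases ?_ (fun i => ?_) i
    · show ∃ j : ℤ, ((k * m : ℕ) : ℝ) * t γ = j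
      have hvLa : tau e (fun i => (j i : ℝ)) ∈ (La : Subgroup U) := by
        unfold tau
        refine (La : Subgroup U).list_prod_mem ?_
        intro x hx
        rw [List.mem_ofFn] at hx
        obtain ⟨i, rfl⟩ := hx
        rw [pw_int]
        exact (La : Subgroup U).zpow_mem (he i).1 _
      have hδH : γ ^ k * (tau e (fun i => (j i : ℝ)))⁻¹ ∈ H :=
        H.mul_mem (H.pow_mem hγH k) (H.inv_mem (hTm _))
      have hδ0 : π (γ ^ k * (tau e (fun i => (j i : ℝ)))⁻¹) = 0 := by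
        rw [hadd _ (H.pow_mem hγH k) _ (H.inv_mem (hTm _)), hpinv _ (hTm _), (htau _).2,
          hpipow γ hγH k]
        funext i
        show (k : ℝ) * π γ i + -(j i : ℝ) = 0
        rw [hj i]
        ring
      obtain ⟨j', hj'⟩ := hmS (γ ^ k * (tau e (fun i => (j i : ℝ)))⁻¹)
        ((La : Subgroup U).mul_mem ((La : Subgroup U).pow_mem hγ k)
          ((La : Subgroup U).inv_mem hvLa)) ((hzero _ hδH).1 hδ0)
      refine ⟨j', ?_⟩
      rw [htadd _ (H.pow_mem hγH k) _ (H.inv_mem (hTm _)), htinv _ (hTm _), htT, htpow γ hγH,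
        neg_zero, add_zero] at hj'
      rw [← hj']
      push_cast
      ring
    · show ∃ j : ℤ, ((k * m : ℕ) : ℝ) * π γ i = j
      refine ⟨m * j i, ?_⟩
      push_cast
      rw [← hj i]
      ring
  · intro v
    have hv : v = Fin.cons (v 0) (Fin.tail v) := (Fin.cons_self_tail v).symm
    have h1 : tau (Fin.cons e0 e : Fin (D + 1) → U) v = pw (v 0) e0 * tau e (Fin.tail v) := by
      conv_lhs => rw [hv]
      exact tau_cons e0 e (v 0) (Fin.tail v)
    rw [h1]
    refine ⟨H.mul_mem (hE _) (hTm _), ?_⟩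
    funext i
    refine Fin.cases ?_ (fun i => ?_) i
    · show t (pw (v 0) e0 * tau e (Fin.tail v)) = v 0
      rw [htadd _ (hE _) _ (hTm _), htE, htT, add_zero]
    · show π (pw (v 0) e0 * tau e (Fin.tail v)) i = v i.succ
      rw [hadd _ (hE _) _ (hTm _), hpiE, (htau _).2, zero_add]
      rfl

theorem coo_aux (H : Subgroup U) (hH : Rat H) : ∀ (n : ℕ) (H' : Subgroup U), dm H ≤ dm H' + n →
    Rat H' → H' ≤ H → Nrm H H' → Cm H H H' → CooC H H' := by
  intro n
  induction n with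
  | zero =>
    intro H' hn hH' hle hN hC
    have hne : H' = H := by
      by_contra hne
      have h := dm_lt H' H hH'.pwc hH.pwc (lt_of_le_of_ne hle hne)
      omega
    subst hne
    refine ⟨0, Fin.elim0, fun _ => 0, 1, fun i => i.elim0, fun _ _ _ _ => by simp, ?_,
      fun i => i.elim0, continuousOn_const, le_rfl, fun _ _ _ i => i.elim0, ?_⟩
    · intro x hx
      exact ⟨fun _ => hx, fun _ => rfl⟩
    · intro v
      refine ⟨?_, Subsingleton.elim _ _⟩
      exact tau_mem hH.pwc (fun i => i.elim0) v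
  | succ n ih =>
    intro H' hn hH' hle hN hC
    by_cases hne : H' = H
    · subst hne
      refine ⟨0, Fin.elim0, fun _ => 0, 1, fun i => i.elim0, fun _ _ _ _ => by simp, ?_,
        fun i => i.elim0, continuousOn_const, le_rfl, fun _ _ _ i => i.elim0, ?_⟩
      · intro x hx
        exact ⟨fun _ => hx, fun _ => rfl⟩
      · intro v
        refine ⟨?_, Subsingleton.elim _ _⟩
        exact tau_mem hH.pwc (fun i => i.elim0) v
    · obtain ⟨e0, h0, h0H, h0'⟩ := exists_la hH hH' hle hN hC hne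
      obtain ⟨hmem, hR, hNa, hleH⟩ := adj_row U H H' H' e0 hH hH' hH' le_rfl hle hN hN h0 h0H
        (fun g hg t => hC g hg _ (hH.pwc e0 h0H t))
      have hsub : H' ≤ adj H' e0 := fun x hx => (hmem x).2 ⟨x, hx, 0, by rw [pw_zero, mul_one]⟩
      have hlt : H' < adj H' e0 := by
        refine lt_of_le_of_ne hsub ?_
        intro h
        apply h0'
        rw [h]
        exact (hmem e0).2 ⟨1, H'.one_mem, 1, by rw [pw_one, one_mul]⟩
      have h1 := dm_lt H' (adj H' e0) hH'.pwc hR.pwc hlt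
      refine coo_step hH hH' hle hN hC h0 h0H h0' (ih _ (by omega) hR hleH hNa ?_)
      intro x hx y hy
      exact hsub (hC x hx y hy)

end

/-- **row COO** -/
theorem coo : COO_stmt := by
  intro U _ H H' hH hH' hle hN hC
  exact coo_aux H hH (dm H) H' (Nat.le_add_left _ _) hH' hle hN hC

end

end Pool.Agent.NG
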