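import Mathlib
import Pool.Agent.Lib.NG.A
import Pool.Agent.Lib.NG.Prd

/-!
# NVG2 (MP_663568_nt), part A, row FIB: fibre products (the lemmas)

`FP G J` and `FP3 G J` are given by their conditions (`mem_FP`, `mem_FP3`), and they are rational if
the real powers modulo `J` are unique (row PWJ).  (helper66)
-/

set_option autoImplicit false
open Finset Topology

namespace Pool.Agent.NG

noncomputable section

open Amb

section alg

variable {U : Type} [Group U]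

/-- The fibre product as a subgroup. -/
def FPs (G J : Subgroup U) (hN : ∀ x ∈ G, ∀ y ∈ J, x * y * x⁻¹ ∈ J) : Subgroup (U × U) where
  carrier := {q | q.1 ∈ G ∧ q.2 ∈ G ∧ q.1 * q.2⁻¹ ∈ J}
  mul_mem' := by
    rintro ⟨a, b⟩ ⟨a', b'⟩ ⟨h1, h2, h3⟩ ⟨h4, h5, h6⟩
    refine ⟨G.mul_mem h1 h4, G.mul_mem h2 h5, ?_⟩
    have h7 : (a * a') * (b * b')⁻¹ = (a * (a' * b'⁻¹) * a⁻¹) * (a * b⁻¹) := by group
    show (a * a') * (b * b')⁻¹ ∈ J
    rw [h7]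
    exact J.mul_mem (hN a h1 _ h6) h3
  one_mem' := ⟨G.one_mem, G.one_mem, by simp⟩
  inv_mem' := by
    rintro ⟨a, b⟩ ⟨h1, h2, h3⟩
    refine ⟨G.inv_mem h1, G.inv_mem h2, ?_⟩
    have h7 : a⁻¹ * b⁻¹⁻¹ = a⁻¹ * (a * b⁻¹)⁻¹ * a⁻¹⁻¹ := by group
    show a⁻¹ * b⁻¹⁻¹ ∈ J
    rw [h7]
    exact hN _ (G.inv_mem h1) _ (J.inv_mem h3)

/-- The triple fibre product as a subgroup. -/
def FP3s (G J : Subgroup U) (hJ : J ≤ G) (hN : ∀ x ∈ G, ∀ y ∈ J, x * y * x⁻¹ ∈ J) :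
    Subgroup (U × U × U) where
  carrier := {q | q.1 ∈ G ∧ q.2.1 * q.1⁻¹ ∈ J ∧ q.2.2 * q.1⁻¹ ∈ J}
  mul_mem' := by
    rintro ⟨a, b, c⟩ ⟨a', b', c'⟩ ⟨h1, h2, h3⟩ ⟨h4, h5, h6⟩
    refine ⟨G.mul_mem h1 h4, ?_, ?_⟩
    · have h7 : (b * b') * (a * a')⁻¹ = (b * (b' * a'⁻¹) * b⁻¹) * (b * a⁻¹) := by group
      show (b * b') * (a * a')⁻¹ ∈ J
      rw [h7]
      have hb : b ∈ G := by
        have h8 : b = (b * a⁻¹) * a := by group
        rw [h8]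
        exact G.mul_mem (hJ h2) h1
      exact J.mul_mem (hN b hb _ h5) h2
    · have h7 : (c * c') * (a * a')⁻¹ = (c * (c' * a'⁻¹) * c⁻¹) * (c * a⁻¹) := by group
      show (c * c') * (a * a')⁻¹ ∈ J
      rw [h7]
      have hb : c ∈ G := by
        have h8 : c = (c * a⁻¹) * a := by group
        rw [h8]
        exact G.mul_mem (hJ h3) h1
      exact J.mul_mem (hN c hb _ h6) h3
  one_mem' := ⟨G.one_mem, by simp, by simp⟩
  inv_mem' := by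
    rintro ⟨a, b, c⟩ ⟨h1, h2, h3⟩
    refine ⟨G.inv_mem h1, ?_, ?_⟩
    · have h7 : b⁻¹ * a⁻¹⁻¹ = a⁻¹ * (a * (b⁻¹ * a) * a⁻¹) * a⁻¹⁻¹ := by group
      show b⁻¹ * a⁻¹⁻¹ ∈ J
      rw [h7]
      have h8 : a * (b⁻¹ * a) * a⁻¹ = (b * a⁻¹)⁻¹ := by group
      rw [h8]
      exact hN _ (G.inv_mem h1) _ (J.inv_mem h2)
    · have h7 : c⁻¹ * a⁻¹⁻¹ = a⁻¹ * (a * (c⁻¹ * a) * a⁻¹) * a⁻¹⁻¹ := by group
      show c⁻¹ * a⁻¹⁻¹ ∈ J
      rw [h7]
      have h8 : a * (c⁻¹ * a) * a⁻¹ = (c * a⁻¹)⁻¹ := by group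
      rw [h8]
      exact hN _ (G.inv_mem h1) _ (J.inv_mem h3)

theorem FP_eq {G J : Subgroup U} (hN : ∀ x ∈ G, ∀ y ∈ J, x * y * x⁻¹ ∈ J) :
    FP G J = FPs G J hN := Subgroup.closure_eq (FPs G J hN)

theorem FP3_eq {G J : Subgroup U} (hJ : J ≤ G) (hN : ∀ x ∈ G, ∀ y ∈ J, x * y * x⁻¹ ∈ J) :
    FP3 G J = FP3s G J hJ hN := Subgroup.closure_eq (FP3s G J hJ hN)

theorem mem_FP {G J : Subgroup U} (hN : ∀ x ∈ G, ∀ y ∈ J, x * y * x⁻¹ ∈ J) (q : U × U) :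
    q ∈ FP G J ↔ q.1 ∈ G ∧ q.2 ∈ G ∧ q.1 * q.2⁻¹ ∈ J := by
  rw [FP_eq hN]
  exact Iff.rfl

theorem mem_FP3 {G J : Subgroup U} (hJ : J ≤ G) (hN : ∀ x ∈ G, ∀ y ∈ J, x * y * x⁻¹ ∈ J)
    (q : U × U × U) :
    q ∈ FP3 G J ↔ q.1 ∈ G ∧ q.2.1 * q.1⁻¹ ∈ J ∧ q.2.2 * q.1⁻¹ ∈ J := by
  rw [FP3_eq hJ hN]
  exact Iff.rfl

end alg

section top

variable {U : Type} [Amb U]

theorem rat_FP {G J : Subgroup U} (hG : Rat G) (hJ : Rat J) (hJG : J ≤ G) (hN : Nrm G J)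
    (hp : ∀ x ∈ G, ∀ y ∈ G, x * y⁻¹ ∈ J → ∀ t : ℝ, pw t x * (pw t y)⁻¹ ∈ J) : Rat (FP G J) := by
  have hmem := mem_FP (G := G) (J := J) hN
  refine ⟨?_, ?_, ?_⟩
  · rintro ⟨x, y⟩ hq t
    rw [hmem] at hq ⊢
    exact ⟨hG.pwc _ hq.1 t, hG.pwc _ hq.2.1 t, hp _ hq.1 _ hq.2.1 hq.2.2 t⟩
  · have h1 : ((FP G J : Subgroup (U × U)) : Set (U × U)) =
        {q | q.1 ∈ (G : Set U)} ∩ ({q | q.2 ∈ (G : Set U)} ∩ {q | q.1 * q.2⁻¹ ∈ (J : Set U)}) := by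
      ext q
      exact hmem q
    rw [h1]
    refine (hG.cl.preimage continuous_fst).inter ((hG.cl.preimage continuous_snd).inter ?_)
    exact hJ.cl.preimage (continuous_fst.mul continuous_snd.inv)
  · obtain ⟨K, hK, hKG, hKc⟩ := hG.coc
    obtain ⟨K', hK', hKJ, hKc'⟩ := hJ.coc
    refine ⟨(fun q : U × U => (q.1 * q.2, q.1)) '' (K ×ˢ K'), (hK.prod hK').image ?_, ?_, ?_⟩
    · exact (continuous_fst.mul continuous_snd).prodMk continuous_fst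
    · rintro _ ⟨⟨k, k'⟩, ⟨h1, h2⟩, rfl⟩
      have h3 := hKG h1
      have h4 := hKJ h2
      show (k * k', k) ∈ FP G J
      rw [hmem]
      exact ⟨G.mul_mem h3 (hJG h4), h3, hN k h3 k' h4⟩
    · rintro ⟨x, y⟩ hq
      rw [hmem] at hq
      obtain ⟨hx, hy, hxy⟩ := hq
      have hx' : x ∈ G := hx
      have hy' : y ∈ G := hy
      obtain ⟨k, hk, γ, hγ, hγG, e1⟩ := hKc y hy'
      have hkG : k ∈ G := hKG hk
      have h1 : k⁻¹ * (x * y⁻¹) * k ∈ J := by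
        have := hN k⁻¹ (G.inv_mem hkG) _ hxy
        rwa [inv_inv] at this
      obtain ⟨k', hk', δ, hδ, hδJ, e2⟩ := hKc' _ h1
      refine ⟨(k * k', k), ⟨(k, k'), ⟨hk, hk'⟩, rfl⟩, (δ * γ, γ), ?_, ?_, ?_⟩
      · exact ⟨Subgroup.mul_mem _ hδ hγ, hγ⟩
      · rw [hmem]
        refine ⟨G.mul_mem (hJG hδJ) hγG, hγG, ?_⟩
        show δ * γ * γ⁻¹ ∈ J
        rw [mul_inv_cancel_right]
        exact hδJ
      · refine Prod.ext ?_ e1
        show x = k * k' * (δ * γ)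
        have h2 : x = k * (k⁻¹ * (x * y⁻¹) * k) * γ := by
          have h3 : k * (k⁻¹ * (x * y⁻¹) * k) * γ = x * y⁻¹ * (k * γ) := by group
          rw [h3, ← e1]
          group
        rw [e2] at h2
        rw [h2]
        group

theorem rat_FP3 {G J : Subgroup U} (hG : Rat G) (hJ : Rat J) (hJG : J ≤ G) (hN : Nrm G J)
    (hp : ∀ x ∈ G, ∀ y ∈ G, x * y⁻¹ ∈ J → ∀ t : ℝ, pw t x * (pw t y)⁻¹ ∈ J) : Rat (FP3 G J) := by
  have hmem := mem_FP3 (G := G) (J := J) hJG hN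
  have hin : ∀ x ∈ G, ∀ y, y * x⁻¹ ∈ J → y ∈ G := by
    intro x hx y hy
    have h8 : y = (y * x⁻¹) * x := by group
    rw [h8]
    exact G.mul_mem (hJG hy) hx
  refine ⟨?_, ?_, ?_⟩
  · rintro ⟨x, y, w⟩ hq t
    rw [hmem] at hq ⊢
    obtain ⟨hx, hy, hw⟩ := hq
    exact ⟨hG.pwc _ hx t, hp _ (hin _ hx _ hy) _ hx hy t, hp _ (hin _ hx _ hw) _ hx hw t⟩
  · have h1 : ((FP3 G J : Subgroup (U × U × U)) : Set (U × U × U)) =
        {q | q.1 ∈ (G : Set U)} ∩ ({q | q.2.1 * q.1⁻¹ ∈ (J : Set U)} ∩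
          {q | q.2.2 * q.1⁻¹ ∈ (J : Set U)}) := by
      ext q
      exact hmem q
    rw [h1]
    refine (hG.cl.preimage continuous_fst).inter ((hJ.cl.preimage ?_).inter (hJ.cl.preimage ?_))
    · exact (continuous_fst.comp continuous_snd).mul continuous_fst.inv
    · exact (continuous_snd.comp continuous_snd).mul continuous_fst.inv
  · obtain ⟨K, hK, hKG, hKc⟩ := hG.coc
    obtain ⟨K', hK', hKJ, hKc'⟩ := hJ.coc
    refine ⟨(fun q : U × U × U => (q.1, q.1 * q.2.1, q.1 * q.2.2)) '' (K ×ˢ (K' ×ˢ K')),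
      (hK.prod (hK'.prod hK')).image ?_, ?_, ?_⟩
    · exact continuous_fst.prodMk ((continuous_fst.mul (continuous_fst.comp continuous_snd)).prodMk
        (continuous_fst.mul (continuous_snd.comp continuous_snd)))
    · rintro _ ⟨⟨k, k', k''⟩, ⟨h1, h2, h3⟩, rfl⟩
      have h4 := hKG h1
      show (k, k * k', k * k'') ∈ FP3 G J
      rw [hmem]
      exact ⟨h4, hN k h4 k' (hKJ h2), hN k h4 k'' (hKJ h3)⟩
    · rintro ⟨x, y, w⟩ hq
      rw [hmem] at hq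
      obtain ⟨hx, hy, hw⟩ := hq
      have hx' : x ∈ G := hx
      obtain ⟨k, hk, γ, hγ, hγG, e1⟩ := hKc x hx'
      have hkG : k ∈ G := hKG hk
      have h1 : k⁻¹ * (y * x⁻¹) * k ∈ J := by
        have := hN k⁻¹ (G.inv_mem hkG) _ hy
        rwa [inv_inv] at this
      have h2 : k⁻¹ * (w * x⁻¹) * k ∈ J := by
        have := hN k⁻¹ (G.inv_mem hkG) _ hw
        rwa [inv_inv] at this
      obtain ⟨k', hk', δ, hδ, hδJ, e2⟩ := hKc' _ h1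
      obtain ⟨k'', hk'', δ', hδ', hδJ', e3⟩ := hKc' _ h2
      refine ⟨(k, k * k', k * k''), ⟨(k, k', k''), ⟨hk, hk', hk''⟩, rfl⟩, (γ, δ * γ, δ' * γ),
        ?_, ?_, ?_⟩
      · exact ⟨hγ, Subgroup.mul_mem _ hδ hγ, Subgroup.mul_mem _ hδ' hγ⟩
      · rw [hmem]
        refine ⟨hγG, ?_, ?_⟩
        · show δ * γ * γ⁻¹ ∈ J
          rw [mul_inv_cancel_right]
          exact hδJ
        · show δ' * γ * γ⁻¹ ∈ J
          rw [mul_inv_cancel_right]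
          exact hδJ'
      · refine Prod.ext e1 (Prod.ext ?_ ?_)
        · show y = k * k' * (δ * γ)
          have h3 : y = k * (k⁻¹ * (y * x⁻¹) * k) * γ := by
            have h4 : k * (k⁻¹ * (y * x⁻¹) * k) * γ = y * x⁻¹ * (k * γ) := by group
            rw [h4, ← e1]
            group
          rw [e2] at h3
          rw [h3]
          group
        · show w = k * k'' * (δ' * γ)
          have h3 : w = k * (k⁻¹ * (w * x⁻¹) * k) * γ := by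
            have h4 : k * (k⁻¹ * (w * x⁻¹) * k) * γ = w * x⁻¹ * (k * γ) := by group
            rw [h4, ← e1]
            group
          rw [e3] at h3
          rw [h3]
          group

end top

end

end Pool.Agent.NG
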