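import Pool.Agent.Lib.NG.ARows
import Pool.Agent.Lib.NG.FIBA

/-!
# NVG2 (MP_663568_nt), part A, row FIB: fibre products (helper66)
-/

set_option autoImplicit false

namespace Pool.Agent.NG

/-- **Row FIB.** -/
theorem fib : FIB_stmt := fun _ _ _ _ hG hJ hJG hN hp =>
  ⟨⟨mem_FP hN, rat_FP hG hJ hJG hN hp⟩, mem_FP3 hJG hN, rat_FP3 hG hJ hJG hN hp⟩

end Pool.Agent.NG
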