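import Mathlib
import Pool.Agent.Lib.NG.ARows
import Pool.Agent.Lib.NG.PWJ
import Pool.Agent.Lib.NG.FIB
import Pool.Agent.Lib.NG.CLS
import Pool.Agent.Lib.NG.KER
import Pool.Agent.Lib.NG.ADJ

/-!
# NVG2 (MP_663568_nt), row FIL: the filtrations which are used (helper68)
-/

set_option autoImplicit false
open Finset Topology

namespace Pool.Agent.NG

noncomputable section

open Amb Pool.Agent.Lib.MP_663568_nt Pool.Agent.Lib.MP_663568_nt.Katai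

namespace FIL

section
variable {U : Type} [Amb U] {Gf : ℕ → Subgroup U} {d : ℕ}

theorem anti_le (h : Filt Gf d) {i j : ℕ} (hij : i ≤ j) : Gf j ≤ Gf i := by
  induction j, hij using Nat.le_induction with
  | base => exact le_rfl
  | succ j _ ih => exact (h.anti j).trans ih

theorem nrm0 (h : Filt Gf d) (i : ℕ) : Nrm (Gf 0) (Gf i) := by
  intro x hx y hy
  have h1 := h.com 0 i x hx y hy
  rw [zero_add] at h1
  have h2 : x * y * x⁻¹ = (x * y * x⁻¹ * y⁻¹) * y := by group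
  rw [h2]
  exact (Gf i).mul_mem h1 hy

theorem le0 (h : Filt Gf d) (i : ℕ) : Gf i ≤ Gf 0 := anti_le h (Nat.zero_le i)

theorem bot_le (h : Filt Gf d) (i : ℕ) : Gf (d + 1) ≤ Gf i := by
  rcases le_or_gt i d with hi | hi
  · exact anti_le h (by omega)
  · rw [h.stab i hi]

/-- Commutators modulo a normal subgroup. -/
theorem cm_mod {N G : Subgroup U} (hN : Nrm G N) {a b c e : U} (ha : a ∈ G) (hb : b ∈ G)
    (hc : c ∈ N) (he : e ∈ N) :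
    (c * a) * (e * b) * (c * a)⁻¹ * (e * b)⁻¹ * (a * b * a⁻¹ * b⁻¹)⁻¹ ∈ N := by
  have h1 : (c * a) * (e * b) * (c * a)⁻¹ * (e * b)⁻¹ * (a * b * a⁻¹ * b⁻¹)⁻¹ =
      c * (a * e * a⁻¹) * ((a * b * a⁻¹) * c⁻¹ * (a * b * a⁻¹)⁻¹) *
        ((a * b * a⁻¹ * b⁻¹) * e⁻¹ * (a * b * a⁻¹ * b⁻¹)⁻¹) := by group
  have hk : a * b * a⁻¹ ∈ G := G.mul_mem (G.mul_mem ha hb) (G.inv_mem ha)
  rw [h1]
  refine N.mul_mem (N.mul_mem (N.mul_mem hc (hN a ha e he)) (hN _ hk _ (N.inv_mem hc))) ?_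
  exact hN _ (G.mul_mem hk (G.inv_mem hb)) _ (N.inv_mem he)

/-- The differences of commutators in the square. -/
theorem dcm (h : Filt Gf d) {p q : ℕ} {a b c e : U} (ha : a ∈ Gf p) (hb : b ∈ Gf q)
    (hc : c ∈ Gf (p + 1)) (he : e ∈ Gf (q + 1)) :
    (c * a) * (e * b) * (c * a)⁻¹ * (e * b)⁻¹ * (a * b * a⁻¹ * b⁻¹)⁻¹ ∈ Gf (p + q + 1) := by
  set N := Gf (p + q + 1) with hNd
  have hk : a * b * a⁻¹ * b⁻¹ ∈ Gf (p + q) := h.com p q a ha b hb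
  have hk0 : a * b * a⁻¹ * b⁻¹ ∈ Gf 0 := le0 h _ hk
  have n1 : a * e * a⁻¹ * e⁻¹ ∈ N := by
    have := h.com p (q + 1) a ha e he
    rwa [← add_assoc] at this
  have n2 : e * (a * b * a⁻¹ * b⁻¹) * e⁻¹ * (a * b * a⁻¹ * b⁻¹)⁻¹ ∈ N :=
    anti_le h (by omega) (h.com (q + 1) (p + q) e he _ hk)
  have n3 : c * (e * b) * c⁻¹ * (e * b)⁻¹ ∈ N :=
    anti_le h (by omega) (h.com (p + 1) q c hc _ ((Gf q).mul_mem (h.anti q he) hb))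
  have n4 : c * (a * b * a⁻¹ * b⁻¹) * c⁻¹ * (a * b * a⁻¹ * b⁻¹)⁻¹ ∈ N :=
    anti_le h (by omega) (h.com (p + 1) (p + q) c hc _ hk)
  have h1 : (c * a) * (e * b) * (c * a)⁻¹ * (e * b)⁻¹ * (a * b * a⁻¹ * b⁻¹)⁻¹ =
      (c * ((a * e * a⁻¹ * e⁻¹) * (e * (a * b * a⁻¹ * b⁻¹) * e⁻¹ * (a * b * a⁻¹ * b⁻¹)⁻¹)) * c⁻¹) *
      (c * (a * b * a⁻¹ * b⁻¹) * c⁻¹ * (a * b * a⁻¹ * b⁻¹)⁻¹) *
      ((a * b * a⁻¹ * b⁻¹) * (c * (e * b) * c⁻¹ * (e * b)⁻¹) * (a * b * a⁻¹ * b⁻¹)⁻¹) := by group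
  rw [h1]
  refine N.mul_mem (N.mul_mem ?_ n4) (nrm0 h _ _ hk0 _ n3)
  exact nrm0 h _ _ (le0 h _ hc) _ (N.mul_mem n1 n2)

/-! ### The square -/

/-- The level. -/
def lv (d i : ℕ) : ℕ := max 1 (min i d)

theorem Gsq_eq (h : Filt Gf d) (hd : 1 ≤ d) (i : ℕ) :
    Gsq Gf d i = FP (Gf (lv d i)) (Gf (lv d i + 1)) := by
  unfold Gsq lv
  split_ifs with h0 h1
  · subst h0
    rw [show max 1 (min 0 d) = 1 by omega, h.top]
  · rw [show max 1 (min i d) = i by omega]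
  · rw [show max 1 (min i d) = d by omega]

/-- Real powers modulo the next group. -/
theorem pwn (hW : PWJ_stmt) (h : Filt Gf d) (p : ℕ) : ∀ x ∈ Gf p, ∀ y ∈ Gf p,
    x * y⁻¹ ∈ Gf (p + 1) → ∀ t : ℝ, pw t x * (pw t y)⁻¹ ∈ Gf (p + 1) :=
  fun x hx y hy hxy t => hW U Gf d (Gf (p + 1)) h (h.rat _).pwc (h.rat _).cl (nrm0 h _)
    (bot_le h _) x (le0 h _ hx) y (le0 h _ hy) hxy t

theorem mem_Gsq (hW : PWJ_stmt) (hF : FIB_stmt) (h : Filt Gf d) (hd : 1 ≤ d) (i : ℕ)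
    (q : U × U) :
    q ∈ Gsq Gf d i ↔ q.2 ∈ Gf (lv d i) ∧ q.1 * q.2⁻¹ ∈ Gf (lv d i + 1) := by
  rw [Gsq_eq h hd]
  have h1 := (hF U (Gf (lv d i)) (Gf (lv d i + 1)) (h.rat _) (h.rat _) (h.anti _)
    (fun x hx => nrm0 h _ x (le0 h _ hx)) (pwn hW h _)).1.1 q
  rw [h1]
  refine ⟨fun h2 => h2.2, fun h2 => ⟨?_, h2⟩⟩
  have h3 : q.1 = (q.1 * q.2⁻¹) * q.2 := by group
  rw [h3]
  exact (Gf _).mul_mem (h.anti _ h2.2) h2.1

theorem sq (hW : PWJ_stmt) (hF : FIB_stmt) (h : Filt Gf d) (hd : 2 ≤ d) : Filt (Gsq Gf d) (d - 1) := by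
  have hd1 : 1 ≤ d := by omega
  refine ⟨fun i => ?_, fun i q hq => ?_, ?_, fun i j q hq q' hq' => ?_, fun i hi => ?_⟩
  · rw [Gsq_eq h hd1]
    exact (hF U (Gf (lv d i)) (Gf (lv d i + 1)) (h.rat _) (h.rat _) (h.anti _)
      (fun x hx => nrm0 h _ x (le0 h _ hx)) (pwn hW h _)).1.2
  · rw [mem_Gsq hW hF h hd1] at hq ⊢
    have h1 : lv d i ≤ lv d (i + 1) := by unfold lv; omega
    exact ⟨anti_le h h1 hq.1, anti_le h (by omega) hq.2⟩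
  · rw [Gsq_eq h hd1, Gsq_eq h hd1]
    have h1 : lv d 1 = lv d 0 := by unfold lv; omega
    rw [h1]
  · rw [mem_Gsq hW hF h hd1] at hq hq' ⊢
    have h1 : lv d (i + j) ≤ lv d i + lv d j := by unfold lv; omega
    have h2 := dcm h hq.1 hq'.1 hq.2 hq'.2
    have e1 : q.1 * q.2⁻¹ * q.2 = q.1 := by group
    have e2 : q'.1 * q'.2⁻¹ * q'.2 = q'.1 := by group
    rw [e1, e2] at h2
    exact ⟨anti_le h h1 (h.com _ _ _ hq.1 _ hq'.1), anti_le h (by omega) h2⟩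
  · rw [Gsq_eq h hd1, Gsq_eq h hd1]
    have h1 : lv d i = lv d (d - 1 + 1) := by unfold lv; omega
    rw [h1]

/-! ### The triple fibre product -/

theorem mem_G3 (hW : PWJ_stmt) (hF : FIB_stmt) (hI : INT_stmt) (h : Filt Gf d) {J : Subgroup U}
    (hJ : Rat J) (hn : Nrm (Gf 0) J) (hb : Gf (d + 1) ≤ J) (i : ℕ) :
    (∀ q : U × U × U, q ∈ G3 Gf J i ↔ q.1 ∈ Gf i ∧ q.2.1 * q.1⁻¹ ∈ J ⊓ Gf i ∧
      q.2.2 * q.1⁻¹ ∈ J ⊓ Gf i) ∧ Rat (G3 Gf J i) := by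
  have h1 := hF U (Gf i) (J ⊓ Gf i) (h.rat i) (hI U J (Gf i) hJ (h.rat i)) inf_le_right
    (fun x hx y hy => ⟨hn x (le0 h i hx) y hy.1, nrm0 h i x (le0 h i hx) y hy.2⟩)
    (fun x hx y hy hxy t => ⟨hW U Gf d J h hJ.pwc hJ.cl hn hb x (le0 h i hx) y (le0 h i hy) hxy.1 t,
      (Gf i).mul_mem ((h.rat i).pwc x hx t) ((Gf i).inv_mem ((h.rat i).pwc y hy t))⟩)
  exact h1.2

theorem cm3 (h : Filt Gf d) {J : Subgroup U} (hn : Nrm (Gf 0) J) {i j : ℕ} {a b x y : U}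
    (ha : a ∈ Gf i) (hb : b ∈ Gf j) (hx : x * a⁻¹ ∈ J ⊓ Gf i) (hy : y * b⁻¹ ∈ J ⊓ Gf j) :
    x * y * x⁻¹ * y⁻¹ * (a * b * a⁻¹ * b⁻¹)⁻¹ ∈ J ⊓ Gf (i + j) := by
  have e1 : x * a⁻¹ * a = x := by group
  have e2 : y * b⁻¹ * b = y := by group
  refine ⟨?_, ?_⟩
  · have h2 := cm_mod hn (le0 h i ha) (le0 h j hb) hx.1 hy.1
    rw [e1, e2] at h2
    exact h2
  · refine (Gf (i + j)).mul_mem (h.com i j x ?_ y ?_) ((Gf _).inv_mem (h.com i j a ha b hb))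
    · rw [← e1]; exact (Gf i).mul_mem hx.2 ha
    · rw [← e2]; exact (Gf j).mul_mem hy.2 hb

theorem tri (hW : PWJ_stmt) (hF : FIB_stmt) (hI : INT_stmt) (h : Filt Gf d) {J : Subgroup U}
    (hJ : Rat J) (hn : Nrm (Gf 0) J) (hb : Gf (d + 1) ≤ J) : Filt (G3 Gf J) d := by
  refine ⟨fun i => (mem_G3 hW hF hI h hJ hn hb i).2, fun i q hq => ?_, ?_, fun i j q hq q' hq' => ?_,
    fun i hi => ?_⟩
  · rw [(mem_G3 hW hF hI h hJ hn hb _).1] at hq ⊢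
    exact ⟨h.anti i hq.1, ⟨hq.2.1.1, h.anti i hq.2.1.2⟩, ⟨hq.2.2.1, h.anti i hq.2.2.2⟩⟩
  · unfold G3
    rw [h.top]
  · rw [(mem_G3 hW hF hI h hJ hn hb _).1] at hq hq' ⊢
    exact ⟨h.com i j _ hq.1 _ hq'.1, cm3 h hn hq.1 hq'.1 hq.2.1 hq'.2.1,
      cm3 h hn hq.1 hq'.1 hq.2.2 hq'.2.2⟩
  · unfold G3
    rw [h.stab i hi]

/-! ### Truncation -/

theorem trunc (h : Filt Gf d) (hd : 1 ≤ d) : Filt (fun i => Gf (min i d)) (d - 1) := by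
  refine ⟨fun i => h.rat _, fun i => anti_le h (by omega), ?_, fun i j x hx y hy => ?_,
    fun i hi => ?_⟩
  · show Gf (min 1 d) = Gf (min 0 d)
    rw [show min 1 d = 1 by omega, show min 0 d = 0 by omega, h.top]
  · exact anti_le h (by omega) (h.com (min i d) (min j d) x hx y hy)
  · show Gf (min i d) = Gf (min (d - 1 + 1) d)
    rw [show min i d = min (d - 1 + 1) d by omega]

/-! ### Adjunction of a central element -/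

theorem adjF (hA : ADJ_stmt) (h : Filt Gf d) {z : U} (hz : Cen (Gf 0) (Gf (d + 1)) z) :
    Filt (fun i => adj (Gf i) z) d := by
  have key : ∀ i, (∀ x, x ∈ adj (Gf i) z ↔ ∃ k ∈ Gf i, ∃ t : ℝ, x = k * pw t z) ∧
      Rat (adj (Gf i) z) ∧ Nrm (Gf 0) (adj (Gf i) z) ∧ adj (Gf i) z ≤ Gf 0 := fun i =>
    hA U (Gf 0) (Gf i) (Gf (d + 1)) z (h.rat 0) (h.rat i) (h.rat _) (bot_le h i) (le0 h i)
      (nrm0 h i) (nrm0 h _) hz.la hz.mem hz.cen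
  refine ⟨fun i => (key i).2.1, fun i x hx => ?_, ?_, fun i j x hx y hy => ?_, fun i hi => ?_⟩
  · rw [(key _).1] at hx ⊢
    obtain ⟨k, hk, t, rfl⟩ := hx
    exact ⟨k, h.anti i hk, t, rfl⟩
  · show adj (Gf 1) z = adj (Gf 0) z
    rw [h.top]
  · have hx' := hx
    have hy' := hy
    rw [(key _).1] at hx' hy'
    obtain ⟨k, hk, t, hxe⟩ := hx'
    obtain ⟨m, hm, s, hye⟩ := hy'
    have hle : Gf (i + j) ≤ adj (Gf (i + j)) z := by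
      intro u hu
      refine Subgroup.subset_closure ⟨u, hu, 0, ?_⟩
      have h0 : pw 0 z = 1 := by
        have := pw_add 0 0 z
        rw [add_zero] at this
        exact mul_eq_left.mp this.symm
      rw [h0, mul_one]
    refine hle ?_
    have hk0 : k ∈ Gf 0 := le0 h i hk
    have hm0 : m ∈ Gf 0 := le0 h j hm
    have hzp : ∀ t : ℝ, pw t z ∈ Gf 0 := fun t => (h.rat 0).pwc z hz.mem t
    -- commutators with real powers of z are in the bottom group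
    have c1 : ∀ g ∈ Gf 0, ∀ t : ℝ, g * pw t z * g⁻¹ * (pw t z)⁻¹ ∈ Gf (i + j) :=
      fun g hg t => bot_le h _ (hz.cen g hg t)
    have c2 : ∀ g ∈ Gf 0, ∀ t : ℝ, pw t z * g * (pw t z)⁻¹ * g⁻¹ ∈ Gf (i + j) := by
      intro g hg t
      have h1 : pw t z * g * (pw t z)⁻¹ * g⁻¹ = (g * pw t z * g⁻¹ * (pw t z)⁻¹)⁻¹ := by group
      rw [h1]
      exact (Gf _).inv_mem (c1 g hg t)
    -- x y x⁻¹ y⁻¹ with x = k a, y = m b
    have e1 : (k * pw t z) * (m * pw s z) * (k * pw t z)⁻¹ * (m * pw s z)⁻¹ =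
        (k * (pw t z * (m * pw s z) * (pw t z)⁻¹ * (m * pw s z)⁻¹) * k⁻¹) *
        ((k * m * k⁻¹ * m⁻¹) * (m * (k * pw s z * k⁻¹ * (pw s z)⁻¹) * m⁻¹)) := by group
    rw [hxe, hye, e1]
    refine (Gf (i + j)).mul_mem ?_ ((Gf (i + j)).mul_mem (h.com i j k hk m hm) ?_)
    · exact nrm0 h _ k hk0 _ (c2 _ ((Gf 0).mul_mem hm0 (hzp s)) t)
    · exact nrm0 h _ m hm0 _ (c1 k hk0 s)
  · show adj (Gf i) z = adj (Gf (d + 1)) z
    rw [h.stab i hi]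

/-! ### Kernels of characters -/

theorem chi_comm {χ : U → ℝ} (hχ : Chr (Gf 0) (Gf 0) (Gf (d + 1)) χ) {x y : U}
    (hx : x ∈ Gf 0) (hy : y ∈ Gf 0) : χ (x * y * x⁻¹ * y⁻¹) = 0 := by
  have h1 : χ 1 = 0 := hχ.van 1 (Gf _).one_mem
  have hinv : ∀ u ∈ Gf 0, χ u⁻¹ = - χ u := by
    intro u hu
    have h2 := hχ.mul u hu u⁻¹ ((Gf 0).inv_mem hu)
    rw [mul_inv_cancel, h1] at h2
    linarith
  have hxi := (Gf 0).inv_mem hx
  have hyi := (Gf 0).inv_mem hy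
  rw [hχ.mul _ ((Gf 0).mul_mem ((Gf 0).mul_mem hx hy) hxi) _ hyi,
    hχ.mul _ ((Gf 0).mul_mem hx hy) _ hxi, hχ.mul _ hx _ hy, hinv x hx, hinv y hy]
  ring

theorem ker_props (hK : KER_stmt) (h : Filt Gf d) {χ : U → ℝ}
    (hχ : Chr (Gf 0) (Gf 0) (Gf (d + 1)) χ) :
    (∀ x, x ∈ kerS (Gf 0) χ ↔ x ∈ Gf 0 ∧ χ x = 0) ∧ Rat (kerS (Gf 0) χ) :=
  hK U (Gf 0) χ (h.rat 0) hχ.mul hχ.int hχ.cont

theorem kerF (hI : INT_stmt) (hK : KER_stmt) (h : Filt Gf d) {χ : U → ℝ}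
    (hχ : Chr (Gf 0) (Gf 0) (Gf (d + 1)) χ) : Filt (fun i => Gf i ⊓ kerS (Gf 0) χ) d := by
  have hk := ker_props hK h hχ
  refine ⟨fun i => hI U _ _ (h.rat i) hk.2, fun i x hx => ⟨h.anti i hx.1, hx.2⟩, ?_,
    fun i j x hx y hy => ⟨h.com i j x hx.1 y hy.1, ?_⟩, fun i hi => ?_⟩
  · show Gf 1 ⊓ kerS (Gf 0) χ = Gf 0 ⊓ kerS (Gf 0) χ
    rw [h.top]
  · have hx0 := le0 h i hx.1
    have hy0 := le0 h j hy.1
    exact (hk.1 _).mpr ⟨(Gf 0).mul_mem ((Gf 0).mul_mem ((Gf 0).mul_mem hx0 hy0)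
      ((Gf 0).inv_mem hx0)) ((Gf 0).inv_mem hy0), chi_comm hχ hx0 hy0⟩
  · show Gf i ⊓ kerS (Gf 0) χ = Gf (d + 1) ⊓ kerS (Gf 0) χ
    rw [h.stab i hi]

theorem kerF2 (hI : INT_stmt) (hK : KER_stmt) (h : Filt Gf d) {χ : U → ℝ}
    (hχ : Chr (Gf 0) (Gf 0) (Gf (d + 1)) χ) :
    Filt (fun i => if i ≤ 1 then Gf 0 else Gf i ⊓ kerS (Gf 0) χ) d := by
  have hk := ker_props hK h hχ
  -- the degree is positive
  have hd : 1 ≤ d := by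
    by_contra hd
    have hd0 : d = 0 := by omega
    subst hd0
    obtain ⟨x, hx, hne⟩ := hχ.ne
    exact hne (hχ.van x (by rw [zero_add, h.top]; exact hx))
  have hin : ∀ i, (if i ≤ 1 then Gf 0 else Gf i ⊓ kerS (Gf 0) χ) ≤ Gf i := by
    intro i
    split_ifs with hi
    · rcases Nat.le_one_iff_eq_zero_or_eq_one.mp hi with rfl | rfl
      · exact le_rfl
      · rw [h.top]
    · exact inf_le_left
  refine ⟨fun i => ?_, fun i => ?_, ?_, fun i j x hx y hy => ?_, fun i hi => ?_⟩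
  · show Rat (if i ≤ 1 then Gf 0 else Gf i ⊓ kerS (Gf 0) χ)
    split_ifs with hi
    · exact h.rat 0
    · exact hI U _ _ (h.rat i) hk.2
  · show (if i + 1 ≤ 1 then Gf 0 else Gf (i + 1) ⊓ kerS (Gf 0) χ) ≤
      (if i ≤ 1 then Gf 0 else Gf i ⊓ kerS (Gf 0) χ)
    split_ifs with h1 h2 h3
    · exact le_rfl
    · omega
    · exact inf_le_left.trans (le0 h _)
    · exact inf_le_inf_right _ (h.anti i)
  · show (if 1 ≤ 1 then Gf 0 else Gf 1 ⊓ kerS (Gf 0) χ) =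
      (if 0 ≤ 1 then Gf 0 else Gf 0 ⊓ kerS (Gf 0) χ)
    rw [if_pos le_rfl, if_pos (Nat.zero_le 1)]
  · have hx1 := hin i hx
    have hy1 := hin j hy
    have hx0 := le0 h i hx1
    have hy0 := le0 h j hy1
    have hc0 : x * y * x⁻¹ * y⁻¹ ∈ Gf 0 := (Gf 0).mul_mem ((Gf 0).mul_mem ((Gf 0).mul_mem hx0 hy0)
      ((Gf 0).inv_mem hx0)) ((Gf 0).inv_mem hy0)
    show x * y * x⁻¹ * y⁻¹ ∈ (if i + j ≤ 1 then Gf 0 else Gf (i + j) ⊓ kerS (Gf 0) χ)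
    split_ifs with hij
    · exact hc0
    · exact ⟨h.com i j x hx1 y hy1, (hk.1 _).mpr ⟨hc0, chi_comm hχ hx0 hy0⟩⟩
  · show (if i ≤ 1 then Gf 0 else Gf i ⊓ kerS (Gf 0) χ) =
      (if d + 1 ≤ 1 then Gf 0 else Gf (d + 1) ⊓ kerS (Gf 0) χ)
    rw [if_neg (by omega), if_neg (by omega), h.stab i hi]

end

end FIL

/-- FIL from the rows FIB, INT, KER, ADJ. -/
theorem fil_of (hF : FIB_stmt) (hI : INT_stmt) (hK : KER_stmt) (hA : ADJ_stmt) : FIL_stmt :=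
  fun _U _ _Gf _d h => ⟨fun hd => FIL.sq pwj hF h hd,
    fun _J hJ hn hb _ => FIL.tri pwj hF hI h hJ hn hb, fun hd => FIL.trunc h hd,
    fun _z hz => FIL.adjF hA h hz, fun _χ hχ => FIL.kerF hI hK h hχ,
    fun _χ hχ => FIL.kerF2 hI hK h hχ⟩

/-- **FIL.** -/
theorem fil : FIL_stmt := fil_of fib int_row ker_row adj_row

end

end Pool.Agent.NG
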