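import Mathlib
import Pool.Agent.Lib.NG.C

/-!
# NVG2 (MP_663568_nt), row IND: the induction  (helper40)
-/

set_option autoImplicit false
open Finset Topology Polynomial

namespace Pool.Agent.NG

open Amb Pool.Agent.Lib.MP_663568_nt Pool.Agent.Lib.MP_663568_nt.Katai
  Pool.Agent.Lib.MP_663568_nt.Nul Pool.Agent.SV Pool.Agent.VQ Pool.Agent.NV

noncomputable section

namespace INDaux

theorem pw_zero' {U : Type} [Amb U] (x : U) : pw (0 : ℝ) x = 1 := by
  have h := pw_add 0 0 x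
  rw [add_zero] at h
  exact mul_eq_left.mp h.symm

theorem dm_le {U : Type} [Amb U] {H H' : Subgroup U} (h1 : PwC H) (h2 : PwC H') (h : H ≤ H') :
    dm H ≤ dm H' := by
  rcases eq_or_lt_of_le h with h | h
  · rw [h]
  · exact (dm_lt H H' h1 h2 h).le

theorem le_adj {U : Type} [Amb U] (H : Subgroup U) (z : U) : H ≤ adj H z := by
  intro h hh
  apply Subgroup.subset_closure
  refine ⟨h, hh, 0, ?_⟩
  rw [pw_zero', mul_one]

theorem mem_adj {U : Type} [Amb U] (H : Subgroup U) (z : U) : z ∈ adj H z := by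
  apply Subgroup.subset_closure
  refine ⟨1, H.one_mem, 1, ?_⟩
  rw [pw_one, one_mul]

theorem adj_le {U : Type} [Amb U] {H K : Subgroup U} {z : U} (hK : PwC K) (hH : H ≤ K)
    (hz : z ∈ K) : adj H z ≤ K := by
  rw [adj, Subgroup.closure_le]
  rintro x ⟨h, hh, t, rfl⟩
  exact K.mul_mem (hH hh) (hK z hz t)

theorem filt_le {U : Type} [Amb U] {Gf : ℕ → Subgroup U} {d : ℕ} (hG : Filt Gf d) (i : ℕ) :
    Gf i ≤ Gf 0 := by
  induction i with
  | zero => exact le_rfl
  | succ i ih => exact (hG.anti i).trans ih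

end INDaux

open INDaux

theorem ind : IND_stmt := by
  intro hCZ hKER hINT _ hFIL hFULN hONES hSTEP hSPL
  have key : ∀ n : ℕ, ∀ (U : Type) [Amb U] (Gf : ℕ → Subgroup U) (d : ℕ) (N : Subgroup U),
      Filt Gf d → Nor Gf d N → dm (Gf 0) + dm N + (dm (Gf 0) - dm (Gf (d + 1))) = n →
      NS Gf d N := by
    intro n
    induction n using Nat.strong_induction_on with
    | _ n IH =>
      intro U _ Gf d N hG hN hn
      by_cases hC : Cm (Gf 0) N (Gf (d + 1))
      · exact hFULN U Gf d N hG hN hC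
      have hMG : Gf (d + 1) ≤ Gf 0 := filt_le hG (d + 1)
      have hdMG : dm (Gf (d + 1)) ≤ dm (Gf 0) :=
        dm_le (hG.rat (d + 1)).pwc (hG.rat 0).pwc hMG
      obtain ⟨γ, ν, z, hγ, hγG, hν, hνN, hz, hzN, heq⟩ :=
        hCZ U Gf d N hG hN.rat hN.nrm hN.ge hN.le hC
      have hMn : ∀ x ∈ Gf 0, ∀ y ∈ Gf (d + 1), x * y * x⁻¹ ∈ Gf (d + 1) := by
        intro x hx y hy
        have h := hG.com 0 (d + 1) x hx y hy
        rw [zero_add] at h
        have h2 := (Gf (d + 1)).mul_mem h hy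
        have h3 : x * y * x⁻¹ * y⁻¹ * y = x * y * x⁻¹ := by group
        rwa [h3] at h2
      have hCC : CC Gf d N z γ ν := by
        refine ⟨hγG, hνN, ?_⟩
        intro t
        have hzt : (pw t z)⁻¹ ∈ Gf 0 := (Gf 0).inv_mem ((hG.rat 0).pwc z hz.mem t)
        have h := hMn _ hzt _ (heq t)
        have h3 : (pw t z)⁻¹ * (γ * pw t ν * γ⁻¹ * (pw t ν)⁻¹ * (pw t z)⁻¹) * (pw t z)⁻¹⁻¹ =
            (pw t z)⁻¹ * (γ * pw t ν * γ⁻¹ * (pw t ν)⁻¹) := by group
        rwa [h3] at h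
      -- smaller N
      have hN1 : ∀ N₁ : Subgroup U, Nor Gf d N₁ → N₁ < N → NS Gf d N₁ := by
        intro N₁ h1 h2
        refine IH (dm (Gf 0) + dm N₁ + (dm (Gf 0) - dm (Gf (d + 1)))) ?_ U Gf d N₁ hG h1 rfl
        have h3 := dm_lt N₁ N h1.rat.pwc hN.rat.pwc h2
        omega
      -- the kernels
      have hL : ∀ χ : U → ℝ, Chr (Gf 0) (Gf 0) (Gf (d + 1)) χ → NSL Gf d N χ := by
        intro χ hχ
        apply hONES U Gf d N χ hG hN hχ
        obtain ⟨hk1, hk2⟩ := hKER U (Gf 0) χ (hG.rat 0) hχ.mul hχ.int hχ.cont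
        have hF : Filt (kf Gf χ) d := (hFIL U Gf d hG).2.2.2.2.1 χ hχ
        have hNk : Nor (kf Gf χ) d (N ⊓ kerS (Gf 0) χ) := by
          refine ⟨hINT U N (kerS (Gf 0) χ) hN.rat hk2, ?_, ?_, ?_⟩
          · exact inf_le_inf_right _ hN.le
          · exact inf_le_inf_right _ hN.ge
          · intro x hx y hy
            exact ⟨hN.nrm x hx.1 y hy.1, (kerS (Gf 0) χ).mul_mem
              ((kerS (Gf 0) χ).mul_mem hx.2 hy.2) ((kerS (Gf 0) χ).inv_mem hx.2)⟩
        refine IH _ ?_ U (kf Gf χ) d (N ⊓ kerS (Gf 0) χ) hF hNk rfl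
        have h1 : dm (kf Gf χ 0) < dm (Gf 0) := by
          apply dm_lt _ _ (hF.rat 0).pwc (hG.rat 0).pwc
          refine lt_of_le_of_ne inf_le_left ?_
          intro h2
          obtain ⟨x, hx, hne⟩ := hχ.ne
          rw [← h2] at hx
          exact hne ((hk1 x).mp hx.2).2
        have h2 : kf Gf χ (d + 1) = Gf (d + 1) := by
          apply inf_eq_left.mpr
          intro x hx
          exact (hk1 x).mpr ⟨hMG hx, hχ.van x hx⟩
        have h3 : dm (N ⊓ kerS (Gf 0) χ) ≤ dm N := dm_le hNk.rat.pwc hN.rat.pwc inf_le_left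
        rw [h2]
        omega
      -- the larger M
      have hA : NS (af Gf z) d N := by
        have hF : Filt (af Gf z) d := (hFIL U Gf d hG).2.2.2.1 z hz
        have h0 : af Gf z 0 = Gf 0 :=
          le_antisymm (adj_le (hG.rat 0).pwc le_rfl hz.mem) (le_adj _ _)
        have hNa : Nor (af Gf z) d N := by
          refine ⟨hN.rat, ?_, ?_, ?_⟩
          · rw [h0]; exact hN.le
          · exact adj_le hN.rat.pwc hN.ge hzN
          · rw [h0]; exact hN.nrm
        refine IH _ ?_ U (af Gf z) d N hF hNa rfl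
        have h1 : dm (Gf (d + 1)) < dm (af Gf z (d + 1)) := by
          apply dm_lt _ _ (hG.rat (d + 1)).pwc (hF.rat (d + 1)).pwc
          refine lt_of_le_of_ne (le_adj _ _) ?_
          intro h2
          apply hz.ne
          rw [h2]
          exact mem_adj _ _
        have h2 : dm (af Gf z (d + 1)) ≤ dm (Gf 0) := by
          apply dm_le (hF.rat (d + 1)).pwc (hG.rat 0).pwc
          exact adj_le (hG.rat 0).pwc hMG hz.mem
        rw [h0]
        omega
      exact hSPL U Gf d N z hG hN hz (hSTEP U Gf d N z γ ν hG hN hz hCC hN1 hL) hA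
  intro U _ Gf d N hG hN
  exact key _ U Gf d N hG hN rfl

end

end Pool.Agent.NG
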