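import Mathlib
import Pool.Agent.Lib.NG.Box

/-!
# NVG2 (MP_663568_nt): elementary properties of `Near`

Monotonicity, shifts of the base point, dilations, sums, reindexing; `Near` from `recb` and `weylb`.
(helper59)
-/

set_option autoImplicit false
open Finset

namespace Pool.Agent.NG

open Pool.Agent.Lib.MP_663568_nt Pool.Agent.Lib.MP_663568_nt.Katai
  Pool.Agent.Lib.MP_663568_nt.Nul

/-- a multiple near an integer -/
theorem near_of_nd {q : ℕ} (hq : 1 ≤ q) {x E : ℝ} (h : nd ((q : ℝ) * x) ≤ E) :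
    ∃ j : ℤ, |x - j / q| ≤ E := by
  have hq1 : (1 : ℝ) ≤ q := by exact_mod_cast hq
  have hq0 : (0 : ℝ) < q := by linarith
  refine ⟨round ((q : ℝ) * x), ?_⟩
  have h1 : |(q : ℝ) * x - round ((q : ℝ) * x)| ≤ E := h
  have h2 : (q : ℝ) * x - round ((q : ℝ) * x) = q * (x - (round ((q : ℝ) * x) : ℝ) / q) := by
    field_simp
  rw [h2, abs_mul, abs_of_pos hq0] at h1
  have h3 := abs_nonneg (x - (round ((q : ℝ) * x) : ℝ) / q)
  nlinarith

theorem nd_of_near {q : ℕ} {x E : ℝ} (h : ∃ j : ℤ, |x - j / q| ≤ E) (hq : 1 ≤ q) :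
    nd ((q : ℝ) * x) ≤ q * E := by
  obtain ⟨j, hj⟩ := h
  have hq0 : (0 : ℝ) < q := by exact_mod_cast hq
  refine (round_le _ j).trans ?_
  have h2 : (q : ℝ) * x - j = q * (x - (j : ℝ) / q) := by field_simp
  rw [h2, abs_mul, abs_of_pos hq0]
  gcongr

/-- The inverse Weyl theorem on boxes, in terms of `Near`. -/
theorem weylb_near (r d : ℕ) (c₀ : ℝ) (hc : 0 < c₀) (hc1 : c₀ ≤ 1) : ∃ (q B : ℕ) (E : ℝ),
    1 ≤ q ∧ 1 ≤ B ∧ 0 ≤ E ∧ ∀ (L : Fin r → ℕ) (P : (Fin r → ℤ) → ℝ)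
    (c : (Fin r → Fin (d + 1)) → ℝ), (∀ x, P x = mev c fun i => (x i : ℝ)) → (∀ i, B ≤ L i) →
    c₀ * ∏ i, (L i : ℝ) ≤ ‖∑ x ∈ box L, ee (P x)‖ → Near r d E q L P := by
  obtain ⟨q, B, hq, hB, h⟩ := weylb r d c₀ hc hc1
  refine ⟨q, B, B, hq, hB, Nat.cast_nonneg _, ?_⟩
  intro L P c hP hL hsum
  refine ⟨c, hP, fun a ha => near_of_nd hq (h L c hL ?_ a ha)⟩
  simpa only [hP] using hsum

theorem near_mono {r d : ℕ} {E E' : ℝ} {Q Q' : ℕ} {L L' : Fin r → ℕ} {P : (Fin r → ℤ) → ℝ}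
    (h : Near r d E Q L P) (hE0 : 0 ≤ E) (hE : E ≤ E') (hQ : Q ∣ Q') (hQ' : 1 ≤ Q')
    (hL : ∀ i, L' i ≤ L i) (hL' : ∀ i, 1 ≤ L' i) : Near r d E' Q' L' P := by
  obtain ⟨c, h1, h2⟩ := h
  refine ⟨c, h1, fun a ha => ?_⟩
  obtain ⟨j, hj⟩ := h2 a ha
  obtain ⟨k, rfl⟩ := hQ
  have hQ0 : (Q : ℝ) ≠ 0 := by
    rintro h
    have : Q = 0 := by exact_mod_cast h
    subst this
    simp at hQ'
  have hk0 : (k : ℝ) ≠ 0 := by
    rintro h
    have : k = 0 := by exact_mod_cast h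
    subst this
    simp at hQ'
  refine ⟨j * k, ?_⟩
  have h3 : ((j * k : ℤ) : ℝ) / ((Q * k : ℕ) : ℝ) = j / Q := by
    push_cast
    field_simp
  rw [h3]
  refine hj.trans ?_
  have h4 : (0 : ℝ) < ∏ i, (L' i : ℝ) ^ (a i : ℕ) := by
    refine prod_pos fun i _ => pow_pos ?_ _
    exact_mod_cast hL' i
  have h5 : ∏ i, (L' i : ℝ) ^ (a i : ℕ) ≤ ∏ i, (L i : ℝ) ^ (a i : ℕ) := by
    refine prod_le_prod (fun i _ => by positivity) fun i _ => ?_
    have : (L' i : ℝ) ≤ L i := by exact_mod_cast hL i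
    gcongr
  calc E / ∏ i, (L i : ℝ) ^ (a i : ℕ) ≤ E / ∏ i, (L' i : ℝ) ^ (a i : ℕ) := by gcongr
    _ ≤ _ := by gcongr

/-! ### Shifts -/

/-- the coefficients of the shifted polynomial -/
def shc {r d : ℕ} (c : (Fin r → Fin (d + 1)) → ℝ) (u : Fin r → ℝ) (b : Fin r → Fin (d + 1)) : ℝ :=
  ∑ a, c a * ∏ i, (((a i : ℕ).choose (b i : ℕ) : ℕ) : ℝ) * u i ^ ((a i : ℕ) - (b i : ℕ))

theorem pow_expand {d : ℕ} (a : Fin (d + 1)) (x u : ℝ) :
    (x + u) ^ (a : ℕ) = ∑ b : Fin (d + 1),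
      (((a : ℕ).choose (b : ℕ) : ℕ) : ℝ) * u ^ ((a : ℕ) - (b : ℕ)) * x ^ (b : ℕ) := by
  rw [Fin.sum_univ_eq_sum_range (fun b => (((a : ℕ).choose b : ℕ) : ℝ) * u ^ ((a : ℕ) - b) * x ^ b),
    add_pow]
  have ha := a.2
  rw [← sum_subset (range_subset_range.2 (show (a : ℕ) + 1 ≤ d + 1 by omega))]
  · exact sum_congr rfl fun b _ => by ring
  · intro b _ hb
    rw [mem_range] at hb
    rw [Nat.choose_eq_zero_of_lt (by omega)]
    simp

theorem mev_shift {r d : ℕ} (c : (Fin r → Fin (d + 1)) → ℝ) (x u : Fin r → ℝ) :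
    mev c (fun i => x i + u i) = mev (shc c u) x := by
  unfold mev shc
  have h : ∀ a : Fin r → Fin (d + 1), ∏ i, (x i + u i) ^ (a i : ℕ) = ∑ b : Fin r → Fin (d + 1),
      ∏ i, ((((a i : ℕ).choose (b i : ℕ) : ℕ) : ℝ) * u i ^ ((a i : ℕ) - (b i : ℕ)) *
        x i ^ (b i : ℕ)) := by
    intro a
    simp only [pow_expand]
    rw [prod_univ_sum]
    simp
  simp only [h, mul_sum, sum_mul]
  rw [sum_comm]
  refine sum_congr rfl fun b _ => sum_congr rfl fun a _ => ?_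
  rw [prod_mul_distrib]
  ring

/-- Shift of the base point. -/
theorem near_shift {r d : ℕ} {E K : ℝ} {Q : ℕ} {L : Fin r → ℕ} {P : (Fin r → ℤ) → ℝ}
    (h : Near r d E Q L P) (hE : 0 ≤ E) (hQ : 1 ≤ Q) (hK : 1 ≤ K) (hL : ∀ i, 1 ≤ L i)
    (u : Fin r → ℤ) (hu : ∀ i, |(u i : ℝ)| ≤ K * L i) :
    Near r d (((d + 1) * (2 * K) ^ d) ^ r * E) Q L fun x => P (x + u) := by
  obtain ⟨c, h1, h2⟩ := h
  refine ⟨shc c fun i => (u i : ℝ), fun x => ?_, fun b hb => ?_⟩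
  · show P (x + u) = _
    rw [h1, ← mev_shift]
    congr 1
    ext i
    push_cast [Pi.add_apply]
    rfl
  have hQ0 : (0 : ℝ) < Q := by exact_mod_cast hQ
  have hLp : ∀ i, (0 : ℝ) < L i := fun i => by exact_mod_cast hL i
  -- the integral weights
  let w : (Fin r → Fin (d + 1)) → ℤ := fun a =>
    ∏ i, (((a i : ℕ).choose (b i : ℕ) : ℕ) : ℤ) * u i ^ ((a i : ℕ) - (b i : ℕ))
  have hw : ∀ a, ∏ i, (((a i : ℕ).choose (b i : ℕ) : ℕ) : ℝ) * (u i : ℝ) ^ ((a i : ℕ) - (b i : ℕ)) =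
      ((w a : ℤ) : ℝ) := by
    intro a
    simp only [w]
    push_cast
    rfl
  have hw0 : w 0 = 0 := by
    obtain ⟨i, hi⟩ : ∃ i, b i ≠ 0 := by
      by_contra hcon
      push Not at hcon
      exact hb (funext hcon)
    simp only [w]
    refine prod_eq_zero (mem_univ i) ?_
    have : 0 < (b i : ℕ) := Nat.pos_of_ne_zero fun h => hi (Fin.ext h)
    have h3 : (((0 : Fin r → Fin (d + 1)) i : Fin (d + 1)) : ℕ) = 0 := rfl
    rw [h3, Nat.choose_eq_zero_of_lt this]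
    simp
  have hwb : ∀ a, |((w a : ℤ) : ℝ)| / ∏ i, (L i : ℝ) ^ (a i : ℕ) ≤
      ((2 * K) ^ d) ^ r / ∏ i, (L i : ℝ) ^ (b i : ℕ) := by
    intro a
    rw [← hw a, abs_prod, ← prod_div_distrib]
    have h3 : ((2 * K) ^ d) ^ r / ∏ i, (L i : ℝ) ^ (b i : ℕ) =
        ∏ i : Fin r, ((2 * K) ^ d / (L i : ℝ) ^ (b i : ℕ)) := by
      rw [prod_div_distrib, prod_const, card_univ, Fintype.card_fin]
    rw [h3]
    refine prod_le_prod (fun i _ => by positivity) fun i _ => ?_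
    have hai : (a i : ℕ) ≤ d := by have := (a i).2; omega
    rcases lt_or_ge (a i : ℕ) (b i : ℕ) with h4 | h4
    · rw [Nat.choose_eq_zero_of_lt h4]
      simp only [Nat.cast_zero, zero_mul, abs_zero, zero_div]
      have := hLp i
      positivity
    · rw [abs_mul, abs_pow, Nat.abs_cast]
      have h5 : (((a i : ℕ).choose (b i : ℕ) : ℕ) : ℝ) ≤ 2 ^ d := by
        have := (Nat.choose_le_two_pow (a i : ℕ) (b i : ℕ)).trans
          (Nat.pow_le_pow_right (by norm_num) hai)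
        exact_mod_cast this
      have h6 : |(u i : ℝ)| ^ ((a i : ℕ) - (b i : ℕ)) ≤ K ^ d * (L i : ℝ) ^ ((a i : ℕ) - (b i : ℕ)) := by
        calc |(u i : ℝ)| ^ ((a i : ℕ) - (b i : ℕ)) ≤ (K * L i) ^ ((a i : ℕ) - (b i : ℕ)) := by
              have := hu i
              gcongr
          _ = K ^ ((a i : ℕ) - (b i : ℕ)) * (L i : ℝ) ^ ((a i : ℕ) - (b i : ℕ)) := mul_pow _ _ _
          _ ≤ _ := by
              have : K ^ ((a i : ℕ) - (b i : ℕ)) ≤ K ^ d := pow_le_pow_right₀ hK (by omega)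
              have := hLp i
              gcongr
      have h7 : (L i : ℝ) ^ (a i : ℕ) = (L i : ℝ) ^ ((a i : ℕ) - (b i : ℕ)) * (L i : ℝ) ^ (b i : ℕ) := by
        rw [← pow_add]; congr 1; omega
      have h8 := hLp i
      have h9 : (0 : ℝ) < (L i : ℝ) ^ ((a i : ℕ) - (b i : ℕ)) := by positivity
      rw [h7, div_le_div_iff₀ (by positivity) (by positivity)]
      calc (((a i : ℕ).choose (b i : ℕ) : ℕ) : ℝ) * |(u i : ℝ)| ^ ((a i : ℕ) - (b i : ℕ)) *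
            (L i : ℝ) ^ (b i : ℕ)
          ≤ 2 ^ d * (K ^ d * (L i : ℝ) ^ ((a i : ℕ) - (b i : ℕ))) * (L i : ℝ) ^ (b i : ℕ) := by
            gcongr
        _ = _ := by rw [mul_pow]; ring
  choose! j hj using h2
  refine ⟨∑ a ∈ univ.filter (fun a => a ≠ 0), j a * w a, ?_⟩
  have h3 : shc c (fun i => (u i : ℝ)) b = ∑ a ∈ univ.filter (fun a => a ≠ 0), c a * (w a : ℝ) := by
    unfold shc
    simp only [hw]
    rw [sum_filter_of_ne]
    rintro a - ha rfl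
    exact ha (by rw [hw0]; simp)
  have h4 : ((∑ a ∈ univ.filter (fun a => a ≠ 0), j a * w a : ℤ) : ℝ) / Q =
      ∑ a ∈ univ.filter (fun a => a ≠ 0), (j a : ℝ) / Q * (w a : ℝ) := by
    push_cast
    rw [sum_div]
    exact sum_congr rfl fun a _ => by ring
  rw [h3, h4, ← sum_sub_distrib]
  refine (abs_sum_le_sum_abs _ _).trans ?_
  have h5 : ∀ a ∈ univ.filter (fun a : Fin r → Fin (d + 1) => a ≠ 0),
      |c a * (w a : ℝ) - (j a : ℝ) / Q * (w a : ℝ)| ≤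
      E * (((2 * K) ^ d) ^ r / ∏ i, (L i : ℝ) ^ (b i : ℕ)) := by
    intro a ha
    rw [← sub_mul, abs_mul]
    have h6 := hj a (mem_filter.1 ha).2
    have h7 : (0 : ℝ) < ∏ i, (L i : ℝ) ^ (a i : ℕ) := prod_pos fun i _ => pow_pos (hLp i) _
    calc |c a - (j a : ℝ) / Q| * |(w a : ℝ)| ≤ E / (∏ i, (L i : ℝ) ^ (a i : ℕ)) * |(w a : ℝ)| := by
          gcongr
      _ = E * (|(w a : ℝ)| / ∏ i, (L i : ℝ) ^ (a i : ℕ)) := by ring
      _ ≤ _ := by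
          have := hwb a
          gcongr
  refine (sum_le_card_nsmul _ _ _ h5).trans ?_
  rw [nsmul_eq_mul]
  have h6 : (#(univ.filter fun a : Fin r → Fin (d + 1) => a ≠ 0) : ℝ) ≤ (d + 1) ^ r := by
    have h7 := card_filter_le (univ : Finset (Fin r → Fin (d + 1))) (fun a => a ≠ 0)
    rw [card_univ, Fintype.card_fun, Fintype.card_fin, Fintype.card_fin] at h7
    exact_mod_cast h7
  have h8 : (0 : ℝ) < ∏ i, (L i : ℝ) ^ (b i : ℕ) := prod_pos fun i _ => pow_pos (hLp i) _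
  calc (#(univ.filter fun a : Fin r → Fin (d + 1) => a ≠ 0) : ℝ) *
        (E * (((2 * K) ^ d) ^ r / ∏ i, (L i : ℝ) ^ (b i : ℕ)))
      ≤ (d + 1) ^ r * (E * (((2 * K) ^ d) ^ r / ∏ i, (L i : ℝ) ^ (b i : ℕ))) := by gcongr
    _ = _ := by rw [mul_pow ((d : ℝ) + 1) ((2 * K) ^ d) r]; ring

/-! ### Dilations -/

theorem near_dil {r d : ℕ} {E : ℝ} {Q : ℕ} {L L' : Fin r → ℕ} {P : (Fin r → ℤ) → ℝ}
    (h : Near r d E Q L P) (hE : 0 ≤ E) (k : Fin r → ℕ) (hk : ∀ i, 1 ≤ k i)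
    (hL' : ∀ i, 1 ≤ L' i) (hL : ∀ i, k i * L' i ≤ L i) :
    Near r d E Q L' fun x => P fun i => k i * x i := by
  obtain ⟨c, h1, h2⟩ := h
  refine ⟨fun a => c a * ∏ i, (k i : ℝ) ^ (a i : ℕ), fun x => ?_, fun a ha => ?_⟩
  · show P (fun i => k i * x i) = _
    rw [h1]
    unfold mev
    refine sum_congr rfl fun a _ => ?_
    rw [mul_assoc, ← prod_mul_distrib]
    congr 1
    refine prod_congr rfl fun i _ => ?_
    push_cast
    rw [mul_pow]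
  · obtain ⟨j, hj⟩ := h2 a ha
    refine ⟨j * ∏ i, (k i : ℤ) ^ (a i : ℕ), ?_⟩
    have h3 : (0 : ℝ) < ∏ i, (k i : ℝ) ^ (a i : ℕ) := prod_pos fun i _ => pow_pos (by
      exact_mod_cast hk i) _
    have h4 : c a * ∏ i, (k i : ℝ) ^ (a i : ℕ) -
        ((j * ∏ i, (k i : ℤ) ^ (a i : ℕ) : ℤ) : ℝ) / Q =
        (c a - j / Q) * ∏ i, (k i : ℝ) ^ (a i : ℕ) := by
      push_cast
      ring
    rw [h4, abs_mul, abs_of_pos h3]
    have h5 : (0 : ℝ) < ∏ i, (L' i : ℝ) ^ (a i : ℕ) := prod_pos fun i _ => pow_pos (by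
      exact_mod_cast hL' i) _
    have h6 : (∏ i, (L' i : ℝ) ^ (a i : ℕ)) * ∏ i, (k i : ℝ) ^ (a i : ℕ) ≤
        ∏ i, (L i : ℝ) ^ (a i : ℕ) := by
      rw [← prod_mul_distrib]
      refine prod_le_prod (fun i _ => by positivity) fun i _ => ?_
      rw [← mul_pow]
      have : (L' i : ℝ) * k i ≤ L i := by
        have := hL i
        rw [mul_comm] at this
        exact_mod_cast this
      gcongr
    have h7 : (0 : ℝ) < ∏ i, (L i : ℝ) ^ (a i : ℕ) := lt_of_lt_of_le (by positivity) h6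
    rw [le_div_iff₀ h5]
    calc |c a - j / Q| * (∏ i, (k i : ℝ) ^ (a i : ℕ)) * ∏ i, (L' i : ℝ) ^ (a i : ℕ)
        = |c a - j / Q| * ((∏ i, (L' i : ℝ) ^ (a i : ℕ)) * ∏ i, (k i : ℝ) ^ (a i : ℕ)) := by ring
      _ ≤ (E / ∏ i, (L i : ℝ) ^ (a i : ℕ)) * ∏ i, (L i : ℝ) ^ (a i : ℕ) := by gcongr
      _ = E := by field_simp

/-! ### Sums -/

theorem near_add {r d : ℕ} {E E' : ℝ} {Q Q' : ℕ} {L : Fin r → ℕ} {P P' : (Fin r → ℤ) → ℝ}
    (h : Near r d E Q L P) (h' : Near r d E' Q' L P') (hQ : 1 ≤ Q) (hQ' : 1 ≤ Q') :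
    Near r d (E + E') (Q * Q') L fun x => P x + P' x := by
  obtain ⟨c, h1, h2⟩ := h
  obtain ⟨c', h1', h2'⟩ := h'
  have hQ0 : (Q : ℝ) ≠ 0 := by
    have : (0 : ℝ) < Q := by exact_mod_cast hQ
    exact this.ne'
  have hQ0' : (Q' : ℝ) ≠ 0 := by
    have : (0 : ℝ) < Q' := by exact_mod_cast hQ'
    exact this.ne'
  refine ⟨fun a => c a + c' a, fun x => ?_, fun a ha => ?_⟩
  · show P x + P' x = _
    rw [h1, h1']
    unfold mev
    rw [← sum_add_distrib]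
    exact sum_congr rfl fun a _ => by ring
  · obtain ⟨j, hj⟩ := h2 a ha
    obtain ⟨j', hj'⟩ := h2' a ha
    refine ⟨j * Q' + j' * Q, ?_⟩
    have h3 : c a + c' a - ((j * Q' + j' * Q : ℤ) : ℝ) / ((Q * Q' : ℕ) : ℝ) =
        (c a - j / Q) + (c' a - j' / Q') := by
      push_cast
      field_simp
      ring
    rw [h3, add_div]
    exact (abs_add_le _ _).trans (add_le_add hj hj')

theorem near_neg {r d : ℕ} {E : ℝ} {Q : ℕ} {L : Fin r → ℕ} {P : (Fin r → ℤ) → ℝ}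
    (h : Near r d E Q L P) : Near r d E Q L fun x => -P x := by
  obtain ⟨c, h1, h2⟩ := h
  refine ⟨fun a => -c a, fun x => ?_, fun a ha => ?_⟩
  · show -P x = _
    rw [h1]
    unfold mev
    rw [← sum_neg_distrib]
    exact sum_congr rfl fun a _ => by ring
  · obtain ⟨j, hj⟩ := h2 a ha
    refine ⟨-j, ?_⟩
    have h3 : -c a - ((-j : ℤ) : ℝ) / Q = -(c a - j / Q) := by push_cast; ring
    rw [h3, abs_neg]
    exact hj

end Pool.Agent.NG
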