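import Mathlib
import Pool.Agent.Lib.NG.NearB
import Pool.Agent.Lib.NG.RPO

/-!
# NVG2 (MP_663568_nt): from lines to boxes

If along many of the lines in a box the restriction of one of finitely many polynomials is nearly
rational, one of the polynomials is nearly rational on the box.  (helper59)
-/

set_option autoImplicit false
open Finset

namespace Pool.Agent.NG

open Pool.Agent.Lib.MP_663568_nt Pool.Agent.Lib.MP_663568_nt.Katai
  Pool.Agent.Lib.MP_663568_nt.Nul

/-! ### Shifts of a box -/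

open Classical in
theorem card_edge {r : ℕ} (L : Fin (r + 1) → ℕ) (i : Fin (r + 1)) (p : ℤ → Prop) (S : ℕ)
    (hS : 1 ≤ S) (hp : S * #((Ico 0 (L i : ℤ)).filter p) ≤ L i) :
    (#((box L).filter fun x => p (x i)) : ℝ) ≤ (∏ k, (L k : ℝ)) / S := by
  rw [card_filter_box L i]
  have h : ∀ y ∈ box (rem i L), (#((Ico 0 (L i : ℤ)).filter fun m => p (ins i m y i)) : ℝ) ≤
      L i / S := by
    intro y _
    have h1 : (Ico 0 (L i : ℤ)).filter (fun m => p (ins i m y i)) =
        (Ico 0 (L i : ℤ)).filter p := by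
      refine filter_congr fun m _ => ?_
      rw [ins_same]
    rw [h1, le_div_iff₀ (by exact_mod_cast hS), mul_comm]
    exact_mod_cast hp
  refine (sum_le_card_nsmul _ _ _ h).trans ?_
  rw [card_box, nsmul_eq_mul, prod_rem i fun k => (L k : ℝ)]
  have h2 : ((∏ k, rem i L k : ℕ) : ℝ) = ∏ k : Fin r, (L (i.succAbove k) : ℝ) := by
    push_cast
    rfl
  rw [h2]
  exact le_of_eq (by ring)

open Classical in
theorem shift_box {r : ℕ} (L : Fin (r + 1) → ℕ) (f : (Fin (r + 1) → ℤ) → ℂ) (Bd : ℝ)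
    (hf : ∀ x, ‖f x‖ ≤ Bd) (S : ℕ) (hS : 1 ≤ S) (v : Fin (r + 1) → ℤ)
    (hv : ∀ i, 0 ≤ v i ∧ S * v i ≤ L i) :
    ‖∑ x ∈ box L, f (x + v) - ∑ x ∈ box L, f x‖ ≤ 2 * (r + 1) * Bd * (∏ k, (L k : ℝ)) / S := by
  have hBd : 0 ≤ Bd := (norm_nonneg _).trans (hf 0)
  have hSr : (0 : ℝ) < S := by exact_mod_cast hS
  have h1 := sum_filter_add_sum_filter_not (box L) (fun x => x + v ∈ box L) fun x => f (x + v)
  have h2 := sum_filter_add_sum_filter_not (box L) (fun x => x - v ∈ box L) f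
  have h3 : ∑ x ∈ (box L).filter (fun x => x + v ∈ box L), f (x + v) =
      ∑ x ∈ (box L).filter (fun x => x - v ∈ box L), f x := by
    refine sum_nbij' (fun x => x + v) (fun x => x - v) ?_ ?_ ?_ ?_ ?_
    · intro x hx
      rw [mem_filter] at hx ⊢
      exact ⟨hx.2, by rw [add_sub_cancel_right]; exact hx.1⟩
    · intro x hx
      rw [mem_filter] at hx ⊢
      exact ⟨hx.2, by rw [sub_add_cancel]; exact hx.1⟩
    · intro x _; exact add_sub_cancel_right x v
    · intro x _; exact sub_add_cancel x v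
    · intro x _; rfl
  have hcnt : ∀ (p : Fin (r + 1) → ℤ → Prop) (q : (Fin (r + 1) → ℤ) → Prop)
      [∀ x, Decidable (¬ q x)], (∀ x ∈ box L, ¬ q x → ∃ i, p i (x i)) →
      (∀ i, S * #((Ico 0 (L i : ℤ)).filter (p i)) ≤ L i) →
      (#((box L).filter fun x => ¬ q x) : ℝ) ≤ (r + 1) * ((∏ k, (L k : ℝ)) / S) := by
    intro p q _ h4 h5
    have h6 : (box L).filter (fun x => ¬ q x) ⊆
        (univ : Finset (Fin (r + 1))).biUnion fun i => (box L).filter fun x => p i (x i) := by
      intro x hx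
      rw [mem_filter] at hx
      obtain ⟨i, hi⟩ := h4 x hx.1 hx.2
      rw [mem_biUnion]
      exact ⟨i, mem_univ i, mem_filter.2 ⟨hx.1, hi⟩⟩
    have h7 : (#((box L).filter fun x => ¬ q x) : ℝ) ≤
        ∑ i : Fin (r + 1), (#((box L).filter fun x => p i (x i)) : ℝ) := by
      exact_mod_cast (card_le_card h6).trans card_biUnion_le
    refine h7.trans ((sum_le_card_nsmul _ _ _ fun i _ => card_edge L i (p i) S hS (h5 i)).trans ?_)
    rw [card_univ, Fintype.card_fin, nsmul_eq_mul]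
    push_cast
    exact le_rfl
  have hc1 := hcnt (fun i m => (L i : ℤ) - v i ≤ m) (fun x => x + v ∈ box L) (by
    intro x hx hq
    rw [mem_box] at hx
    rw [mem_box] at hq
    push Not at hq
    obtain ⟨i, hi⟩ := hq
    refine ⟨i, ?_⟩
    have h4 := (hv i).1
    have h5 := hx i
    have h6 := hi (by rw [Pi.add_apply]; omega)
    rw [Pi.add_apply] at h6
    linarith) (by
    intro i
    have h4 : (Ico 0 (L i : ℤ)).filter (fun m => (L i : ℤ) - v i ≤ m) ⊆
        Ico ((L i : ℤ) - v i) (L i) := by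
      intro m hm
      rw [mem_filter, mem_Ico] at hm
      rw [mem_Ico]
      exact ⟨hm.2, hm.1.2⟩
    have h5 := card_le_card h4
    rw [Int.card_Ico] at h5
    have h6 := hv i
    have h7 : ((L i : ℤ) - ((L i : ℤ) - v i)).toNat = (v i).toNat := by congr 1; ring
    rw [h7] at h5
    have h8 : (S : ℤ) * ((v i).toNat : ℤ) ≤ L i := by
      rw [Int.toNat_of_nonneg h6.1]; exact h6.2
    have h9 : S * (v i).toNat ≤ L i := by exact_mod_cast h8
    have h10 : S * #((Ico 0 (L i : ℤ)).filter (fun m => (L i : ℤ) - v i ≤ m)) ≤ L i :=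
      (Nat.mul_le_mul_left S h5).trans h9
    convert h10)
  have hc2 := hcnt (fun i m => m < v i) (fun x => x - v ∈ box L) (by
    intro x hx hq
    rw [mem_box] at hx
    rw [mem_box] at hq
    push Not at hq
    obtain ⟨i, hi⟩ := hq
    refine ⟨i, ?_⟩
    by_contra hcon
    have h4 := (hv i).1
    have h5 := hx i
    have h6 := hi (by rw [Pi.sub_apply]; omega)
    rw [Pi.sub_apply] at h6
    omega) (by
    intro i
    have h4 : (Ico 0 (L i : ℤ)).filter (fun m => m < v i) ⊆ Ico 0 (v i) := by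
      intro m hm
      rw [mem_filter, mem_Ico] at hm
      rw [mem_Ico]
      exact ⟨hm.1.1, hm.2⟩
    have h5 := card_le_card h4
    rw [Int.card_Ico, sub_zero] at h5
    have h6 := hv i
    have h8 : (S : ℤ) * ((v i).toNat : ℤ) ≤ L i := by
      rw [Int.toNat_of_nonneg h6.1]; exact h6.2
    have h9 : S * (v i).toNat ≤ L i := by exact_mod_cast h8
    have h10 : S * #((Ico 0 (L i : ℤ)).filter (fun m => m < v i)) ≤ L i :=
      (Nat.mul_le_mul_left S h5).trans h9
    convert h10)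
  have h4 : ∑ x ∈ box L, f (x + v) - ∑ x ∈ box L, f x =
      ∑ x ∈ (box L).filter (fun x => ¬ x + v ∈ box L), f (x + v) -
      ∑ x ∈ (box L).filter (fun x => ¬ x - v ∈ box L), f x := by
    rw [← h1, ← h2, h3]
    ring
  rw [h4]
  refine (norm_sub_le _ _).trans ?_
  have h5 : ‖∑ x ∈ (box L).filter (fun x => ¬ x + v ∈ box L), f (x + v)‖ ≤
      (r + 1) * ((∏ k, (L k : ℝ)) / S) * Bd := by
    refine (norm_sum_le _ _).trans ((sum_le_card_nsmul _ _ Bd fun x _ => hf _).trans ?_)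
    rw [nsmul_eq_mul]
    exact mul_le_mul_of_nonneg_right hc1 hBd
  have h6 : ‖∑ x ∈ (box L).filter (fun x => ¬ x - v ∈ box L), f x‖ ≤
      (r + 1) * ((∏ k, (L k : ℝ)) / S) * Bd := by
    refine (norm_sum_le _ _).trans ((sum_le_card_nsmul _ _ Bd fun x _ => hf _).trans ?_)
    rw [nsmul_eq_mul]
    exact mul_le_mul_of_nonneg_right hc2 hBd
  calc _ ≤ (r + 1) * ((∏ k, (L k : ℝ)) / S) * Bd + (r + 1) * ((∏ k, (L k : ℝ)) / S) * Bd :=
        add_le_add h5 h6
    _ = _ := by ring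

/-! ### Uniqueness of coefficients -/

theorem arr_unique {d : ℕ} (e e' : Fin (d + 1) → ℝ)
    (h : ∀ t : ℤ, ∑ j, e j * (t : ℝ) ^ (j : ℕ) = ∑ j, e' j * (t : ℝ) ^ (j : ℕ)) : e = e' := by
  have h1 : arrP e = arrP e' := by
    refine Polynomial.eq_of_infinite_eval_eq _ _ ?_
    refine Set.Infinite.mono (s := Set.range fun t : ℤ => (t : ℝ)) ?_
      (Set.infinite_range_of_injective Int.cast_injective)
    rintro x ⟨t, rfl⟩
    show (arrP e).eval (t : ℝ) = (arrP e').eval (t : ℝ)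
    rw [arrP_eval, arrP_eval, h t]
  ext j
  rw [← arrP_coeff e j, h1, arrP_coeff]

/-- the homogeneous part of degree `k` of the polynomial shifted by `x` -/
noncomputable def hom {r d : ℕ} (c : (Fin r → Fin (d + 1)) → ℝ) (x : Fin r → ℝ) (k : ℕ)
    (b : Fin r → Fin (d + 1)) : ℝ := if ∑ i, (b i : ℕ) = k then shc c x b else 0

theorem shc_zero {r d : ℕ} {c : (Fin r → Fin (d + 1)) → ℝ} {D : ℕ}
    (hc : ∀ a, D < ∑ i, (a i : ℕ) → c a = 0) (x : Fin r → ℝ) (b : Fin r → Fin (d + 1))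
    (hb : D < ∑ i, (b i : ℕ)) : shc c x b = 0 := by
  unfold shc
  refine sum_eq_zero fun a _ => ?_
  by_cases h : ∀ i, (b i : ℕ) ≤ a i
  · rw [hc a (lt_of_lt_of_le hb (sum_le_sum fun i _ => h i)), zero_mul]
  · push Not at h
    obtain ⟨i, hi⟩ := h
    rw [prod_eq_zero (mem_univ i) (by rw [Nat.choose_eq_zero_of_lt hi]; simp), mul_zero]

theorem line_eval {r d : ℕ} {c : (Fin r → Fin (d + 1)) → ℝ}
    (hc : ∀ a, d < ∑ i, (a i : ℕ) → c a = 0) (x y : Fin r → ℝ) (t : ℝ) :
    mev c (fun i => t * y i + x i) = ∑ k : Fin (d + 1), mev (hom c x k) y * t ^ (k : ℕ) := by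
  rw [mev_shift]
  unfold mev
  simp only [sum_mul]
  rw [sum_comm]
  refine sum_congr rfl fun b _ => ?_
  have h1 : ∏ i, (t * y i) ^ (b i : ℕ) = t ^ (∑ i, (b i : ℕ)) * ∏ i, y i ^ (b i : ℕ) := by
    rw [← prod_pow_eq_pow_sum, ← prod_mul_distrib]
    exact prod_congr rfl fun i _ => mul_pow _ _ _
  rw [h1]
  rcases Nat.lt_or_ge d (∑ i, (b i : ℕ)) with h | h
  · rw [shc_zero hc x b h, zero_mul]
    refine (sum_eq_zero fun k _ => ?_).symm
    have : hom c x k b = 0 := by
      unfold hom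
      split_ifs
      · exact shc_zero hc x b h
      · rfl
    rw [this]; ring
  · rw [sum_eq_single (⟨∑ i, (b i : ℕ), by omega⟩ : Fin (d + 1))]
    · simp only [hom]
      rw [if_pos trivial]
      ring
    · intro k _ hk
      have : hom c x k b = 0 := by
        unfold hom
        rw [if_neg fun h' => hk (Fin.ext h'.symm)]
      rw [this]; ring
    · intro h'; exact absurd (mem_univ _) h'

theorem mev_one {d : ℕ} (c : (Fin 1 → Fin (d + 1)) → ℝ) (t : ℝ) :
    mev c (fun _ => t) = ∑ k : Fin (d + 1), c (fun _ => k) * t ^ (k : ℕ) := by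
  unfold mev
  refine Fintype.sum_equiv (Equiv.funUnique (Fin 1) (Fin (d + 1))) _ _ ?_
  intro a
  have h : (fun _ => a 0) = a := funext fun i => congrArg a (Subsingleton.elim _ _)
  simp only [Equiv.funUnique_apply, Fin.default_eq_zero, univ_unique, prod_singleton]
  rw [h]

end Pool.Agent.NG
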