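import Mathlib
import Pool.Agent.Lib.NG.C
import Pool.Agent.Lib.NG.BoxS
import Pool.Agent.Lib.NG.DEG
import Pool.Agent.Lib.NG.LBN

/-!
# NVG2 (MP_663568_nt), row BOXL: Leibman's theorem on boxes from Leibman's theorem on intervals

helper59.
-/

set_option autoImplicit false
open Finset

namespace Pool.Agent.NG

open Amb Pool.Agent.Lib.MP_663568_nt Pool.Agent.Lib.MP_663568_nt.Katai
  Pool.Agent.Lib.MP_663568_nt.Nul

/-- `s ↦ s 0 • y` -/
def lineHom {r : ℕ} (y : Fin r → ℤ) : (Fin 1 → ℤ) →+ (Fin r → ℤ) where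
  toFun s := s 0 • y
  map_zero' := by simp
  map_add' a b := by simp [add_smul]

/-- Row BOXL. -/
theorem boxl (h1 : LEIB 1) (r : ℕ) (hr : 1 ≤ r) : LEIB r := by
  obtain ⟨r, rfl⟩ : ∃ s, r = s + 1 := ⟨r - 1, by omega⟩
  intro U _ Gf d z k F c hfil hcen hk hF hV hc
  classical
  obtain ⟨Bd₀, hBd₀⟩ := hF.bd
  set Bd : ℝ := max Bd₀ 1 with hBd
  have hBd1 : 1 ≤ Bd := le_max_right _ _
  have hBdp : 0 < Bd := by linarith
  obtain ⟨X, E, Q, L₁, hX, hE, hQ, hL1⟩ :=
    h1 U Gf d z k F (c / 4) hfil hcen hk hF hV (by positivity)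
  set c₁ : ℝ := c / (2 * Bd) with hc₁
  have hc₁p : 0 < c₁ := by positivity
  set c₀ : ℝ := min (c₁ / 2 / (X.length + 1)) 1 with hc₀
  have hc₀p : 0 < c₀ := lt_min (by positivity) one_pos
  obtain ⟨q, B, hq, hB, hrec⟩ := recb (r + 1) d c₀ hc₀p (min_le_right _ _)
  set T : ℕ := L₁ + ⌈(Q : ℝ) * E * B⌉₊ + 1 with hT
  set S : ℕ := ⌈4 * (r + 1) * Bd / c⌉₊ + 1 with hS
  have hT1 : 1 ≤ T := by omega
  have hS1 : 1 ≤ S := by omega
  have hTr : (1 : ℝ) ≤ T := by exact_mod_cast hT1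
  have hSr : (1 : ℝ) ≤ S := by exact_mod_cast hS1
  have hTp : (0 : ℝ) < T := by linarith
  have hSp : (0 : ℝ) < S := by linarith
  have hBr : (1 : ℝ) ≤ B := by exact_mod_cast hB
  have hQr : (1 : ℝ) ≤ Q := by exact_mod_cast hQ
  have hTB : (Q : ℝ) * E * B ≤ T := by
    have := Nat.le_ceil ((Q : ℝ) * E * B)
    rw [hT]
    push_cast
    have : (0 : ℝ) ≤ (L₁ : ℝ) := Nat.cast_nonneg _
    linarith
  have hSc : 4 * (r + 1) * Bd ≤ c * S := by
    have h2 := Nat.le_ceil (4 * (r + 1) * Bd / c)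
    rw [div_le_iff₀ hc] at h2
    rw [hS]
    push_cast
    nlinarith
  set E₂ : ℝ := B * (Q * E) * (2 * S) ^ d with hE₂
  have hE₂0 : 0 ≤ E₂ := by positivity
  refine ⟨X, ((d + 1) * (2 * 1) ^ d) ^ (r + 1) * E₂, q * Q, S * T * B, hX, by positivity,
    Nat.mul_pos hq hQ, ?_⟩
  intro L hL g hg hsum
  have hLB : ∀ i, S * T * B ≤ L i := hL
  have hST : 1 ≤ S * T := Nat.mul_pos hS1 hT1
  set M : Fin (r + 1) → ℕ := fun i => L i / (S * T) with hM
  have hMB : ∀ i, B ≤ M i := fun i => by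
    rw [hM]
    exact (Nat.le_div_iff_mul_le hST).2 (by rw [mul_comm]; exact hLB i)
  have hM1 : ∀ i, 1 ≤ M i := fun i => hB.trans (hMB i)
  have hMp : ∀ i, (0 : ℝ) < M i := fun i => by exact_mod_cast hM1 i
  have hMul : ∀ i, S * T * M i ≤ L i := fun i => Nat.mul_div_le _ _
  have hMlow : ∀ i, (L i : ℝ) / (2 * S * T) ≤ M i := by
    intro i
    have h2 : L i < S * T * (M i + 1) := Nat.lt_mul_div_succ _ hST
    have h3 : (L i : ℝ) ≤ S * T * (M i + 1) := by exact_mod_cast h2.le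
    have h4 : (1 : ℝ) ≤ M i := by exact_mod_cast hM1 i
    rw [div_le_iff₀ (by positivity)]
    have h5 : (S : ℝ) * T * (M i + 1) ≤ S * T * (2 * M i) := by
      have : (0 : ℝ) ≤ S * T := by positivity
      gcongr
      linarith
    linarith
  have hL1' : ∀ i, 1 ≤ L i := fun i =>
    (Nat.succ_le_of_lt (Nat.mul_pos hST hB)).trans (hLB i)
  have hLp : ∀ i, (0 : ℝ) < L i := fun i => by exact_mod_cast hL1' i
  have hg0 : ∀ x, g x ∈ Gf 0 := fun x => hg [] x
  set f : (Fin (r + 1) → ℤ) → ℂ := fun x => F (g x) with hf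
  have hfb : ∀ x, ‖f x‖ ≤ Bd := fun x => (hBd₀ _ (hg0 x)).trans (le_max_left _ _)
  set 𝒯 : Finset (Fin 1 → ℤ) := box fun _ : Fin 1 => T with h𝒯
  have h𝒯c : (#𝒯 : ℝ) = T := by
    rw [h𝒯, card_box]; simp
  set PL : ℝ := ∏ i, (L i : ℝ) with hPL
  have hPLp : 0 < PL := prod_pos fun i _ => hLp i
  have hboxL : (#(box L) : ℝ) = PL := by rw [card_box]; push_cast; rfl
  have hboxM : (#(box M) : ℝ) = ∏ i, (M i : ℝ) := by rw [card_box]; push_cast; rfl
  have hboxMp : (0 : ℝ) < #(box M) := by rw [hboxM]; exact prod_pos fun i _ => hMp i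
  -- the shifts
  have hshift : ∀ y ∈ box M, ∀ s ∈ 𝒯,
      ‖∑ x ∈ box L, f (x + s 0 • y) - ∑ x ∈ box L, f x‖ ≤ c / 2 * PL := by
    intro y hy s hs
    rw [mem_box] at hy hs
    refine (shift_box L f Bd hfb S hS1 (s 0 • y) fun i => ?_).trans ?_
    · rw [Pi.smul_apply, smul_eq_mul]
      have h2 := hy i
      have h3 := hs 0
      have h4 : (S : ℤ) * T * M i ≤ L i := by exact_mod_cast hMul i
      refine ⟨mul_nonneg h3.1 h2.1, ?_⟩
      have h5 : s 0 * y i ≤ T * M i := mul_le_mul h3.2.le h2.2.le h2.1 (by positivity)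
      calc (S : ℤ) * (s 0 * y i) ≤ S * (T * M i) := by gcongr
        _ = S * T * M i := by ring
        _ ≤ _ := h4
    · rw [div_le_iff₀ hSp]
      calc 2 * ((r : ℝ) + 1) * Bd * PL = (4 * (r + 1) * Bd) * (PL / 2) := by ring
        _ ≤ c * S * (PL / 2) := by gcongr
        _ = _ := by ring
  -- the average over the lines
  have hlines : #(box M) * (T : ℝ) * (c / 2) * PL ≤
      ∑ x ∈ box L, ∑ y ∈ box M, ‖∑ s ∈ 𝒯, f (x + s 0 • y)‖ := by
    set W := ∑ x ∈ box L, f x with hW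
    have h2 : ‖∑ y ∈ box M, ∑ s ∈ 𝒯, (∑ x ∈ box L, f (x + s 0 • y) - W)‖ ≤
        #(box M) * (T * (c / 2 * PL)) := by
      refine (norm_sum_le _ _).trans ?_
      rw [← nsmul_eq_mul]
      refine sum_le_card_nsmul _ _ _ fun y hy => ?_
      refine (norm_sum_le _ _).trans ?_
      rw [← h𝒯c, ← nsmul_eq_mul]
      exact sum_le_card_nsmul _ _ _ fun s hs => hshift y hy s hs
    have h3 : ∑ y ∈ box M, ∑ s ∈ 𝒯, (∑ x ∈ box L, f (x + s 0 • y) - W) =
        ∑ x ∈ box L, ∑ y ∈ box M, ∑ s ∈ 𝒯, f (x + s 0 • y) - #(box M) * ((T : ℝ) : ℂ) * W := by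
      simp only [sum_sub_distrib, sum_const, nsmul_eq_mul]
      have h4 : ((#𝒯 : ℕ) : ℂ) = ((T : ℝ) : ℂ) := by
        rw [← h𝒯c]; push_cast; rfl
      rw [h4, mul_assoc]
      congr 1
      rw [sum_comm]
      have h5 : ∀ y ∈ box M, ∑ s ∈ 𝒯, ∑ x ∈ box L, f (x + s 0 • y) =
          ∑ x ∈ box L, ∑ s ∈ 𝒯, f (x + s 0 • y) := fun y _ => sum_comm
      rw [sum_comm]
      rw [sum_congr rfl h5, sum_comm]
    have h4 : ‖((#(box M) : ℕ) : ℂ) * ((T : ℝ) : ℂ) * W‖ = #(box M) * T * ‖W‖ := by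
      rw [norm_mul, norm_mul, Complex.norm_natCast, Complex.norm_real, Real.norm_of_nonneg hTp.le]
    have h5 : ‖((#(box M) : ℕ) : ℂ) * ((T : ℝ) : ℂ) * W‖ ≤
        ‖∑ x ∈ box L, ∑ y ∈ box M, ∑ s ∈ 𝒯, f (x + s 0 • y)‖ +
        #(box M) * (T * (c / 2 * PL)) := by
      have h6 : ((#(box M) : ℕ) : ℂ) * ((T : ℝ) : ℂ) * W =
          ∑ x ∈ box L, ∑ y ∈ box M, ∑ s ∈ 𝒯, f (x + s 0 • y) -
          ∑ y ∈ box M, ∑ s ∈ 𝒯, (∑ x ∈ box L, f (x + s 0 • y) - W) := by
        rw [h3]; ring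
      rw [h6]
      exact (norm_sub_le _ _).trans (add_le_add le_rfl h2)
    rw [h4] at h5
    have h6 : ‖∑ x ∈ box L, ∑ y ∈ box M, ∑ s ∈ 𝒯, f (x + s 0 • y)‖ ≤
        ∑ x ∈ box L, ∑ y ∈ box M, ‖∑ s ∈ 𝒯, f (x + s 0 • y)‖ :=
      (norm_sum_le _ _).trans (sum_le_sum fun x _ => norm_sum_le _ _)
    have h7 : (#(box M) : ℝ) * T * (c * PL) ≤ #(box M) * T * ‖W‖ := by gcongr
    nlinarith
  -- a good base point
  have hboxLne : (box L).Nonempty := by
    rw [← card_pos]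
    have : (0 : ℝ) < #(box L) := by rw [hboxL]; exact hPLp
    exact_mod_cast this
  obtain ⟨x₀, hx₀, hx₀'⟩ := exists_le_of_sum_le hboxLne
    (f := fun _ => #(box M) * (T : ℝ) * (c / 2))
    (g := fun x => ∑ y ∈ box M, ‖∑ s ∈ 𝒯, f (x + s 0 • y)‖) (by
      rw [sum_const, nsmul_eq_mul, hboxL]
      linarith)
  have hav := avg (box M) (fun y => ‖∑ s ∈ 𝒯, f (x₀ + s 0 • y)‖) (Bd * T) c₁ (by positivity)
    (by
      intro y _
      refine (norm_sum_le _ _).trans ((sum_le_card_nsmul _ _ Bd fun s _ => hfb _).trans ?_)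
      rw [nsmul_eq_mul, h𝒯c, mul_comm]) hc₁p.le (by
      refine le_trans (le_of_eq ?_) hx₀'
      rw [hc₁]; field_simp)
  -- the characters
  set Nc : (U → ℝ) → (Fin (r + 1) → ℤ) → Prop := fun χ y =>
    Near 1 d E Q (fun _ => T) fun s => χ (g (x₀ + s 0 • y)) with hNc
  have hgood : ∀ y ∈ (box M).filter (fun y => c₁ / 2 * (Bd * T) ≤ ‖∑ s ∈ 𝒯, f (x₀ + s 0 • y)‖),
      ∃ χ ∈ X, Nc χ y := by
    intro y hy
    have h2 := (mem_filter.1 hy).2
    refine hL1 (fun _ => T) (fun _ => by omega) (fun s => g (x₀ + s 0 • y)) ?_ ?_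
    · have h3 := (lbn U (Fin (r + 1) → ℤ) Gf 0 g).1 (Fin 1 → ℤ) (lineHom y) x₀ hg
      have h4 : (fun n => g (lineHom y n + x₀)) = fun s => g (x₀ + s 0 • y) := by
        funext s
        rw [add_comm]; rfl
      rwa [h4] at h3
    · refine le_trans (le_of_eq ?_) h2
      rw [hc₁]
      simp only [univ_unique, prod_singleton]
      field_simp
      ring
  have hchi : ∃ χ ∈ X, c₀ * ∏ i, (M i : ℝ) ≤ (#((box M).filter fun y => Nc χ y) : ℝ) := by
    by_contra hcon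
    push Not at hcon
    set G := (box M).filter (fun y => c₁ / 2 * (Bd * T) ≤ ‖∑ s ∈ 𝒯, f (x₀ + s 0 • y)‖) with hG
    have h2 : G ⊆ X.toFinset.biUnion fun χ => (box M).filter fun y => Nc χ y := by
      intro y hy
      obtain ⟨χ, h3, h4⟩ := hgood y hy
      rw [mem_biUnion]
      exact ⟨χ, List.mem_toFinset.2 h3, mem_filter.2 ⟨(mem_filter.1 hy).1, h4⟩⟩
    have h3 : (#G : ℝ) ≤ ∑ χ ∈ X.toFinset, (#((box M).filter fun y => Nc χ y) : ℝ) := by
      exact_mod_cast (card_le_card h2).trans card_biUnion_le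
    have h4 : (#G : ℝ) ≤ X.length * (c₀ * #(box M)) := by
      refine h3.trans ((sum_le_card_nsmul _ _ (c₀ * #(box M)) fun χ hχ => ?_).trans ?_)
      · rw [hboxM]
        exact (hcon χ (List.mem_toFinset.1 hχ)).le
      · rw [nsmul_eq_mul]
        have h5 : (#X.toFinset : ℝ) ≤ X.length := by exact_mod_cast X.toFinset_card_le
        gcongr
    have h5 : (X.length : ℝ) * c₀ ≤ X.length * (c₁ / 2 / (X.length + 1)) := by
      gcongr
      exact min_le_left _ _
    have h6 : (X.length : ℝ) * (c₁ / 2 / (X.length + 1)) < c₁ / 2 := by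
      have h7 : (0 : ℝ) < (X.length : ℝ) + 1 := by positivity
      rw [mul_div_assoc', div_lt_iff₀ h7]
      nlinarith
    have h7 : (X.length : ℝ) * (c₀ * #(box M)) < c₁ / 2 * #(box M) := by
      rw [← mul_assoc]
      exact mul_lt_mul_of_pos_right (h5.trans_lt h6) hboxMp
    linarith
  obtain ⟨χ, hχX, hχ⟩ := hchi
  refine ⟨χ, hχX, ?_⟩
  have hch := hX χ hχX
  -- the polynomial
  obtain ⟨cc, hcc1, hcc2⟩ := deg U Gf d d (r + 1) (Gf 0) χ g le_rfl hch.mul
    (fun x hx => hch.van x hx.2) (((lbn U (Fin (r + 1) → ℤ) Gf 0 g).2.1 (Gf 0)).2 ⟨hg, hg0⟩)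
  set xr : Fin (r + 1) → ℝ := fun i => (x₀ i : ℝ) with hxr
  have hkey : ∀ y, Nc χ y → ∀ k : Fin (d + 1), k ≠ 0 →
      nd ((Q : ℝ) * mev (hom cc xr k) fun i => (y i : ℝ)) ≤ Q * (E / (T : ℝ) ^ (k : ℕ)) := by
    rintro y ⟨c', h2, h3⟩ k hk
    have h4 : (fun k : Fin (d + 1) => mev (hom cc xr k) fun i => (y i : ℝ)) =
        fun k => c' fun _ => k := by
      refine arr_unique _ _ fun t => ?_
      rw [← line_eval hcc2, ← mev_one]
      have h5 : χ (g (x₀ + t • y)) = mev c' fun i => (((fun _ => t : Fin 1 → ℤ) i : ℤ) : ℝ) :=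
        h2 fun _ => t
      have h6 : (fun i : Fin 1 => (((fun _ => t : Fin 1 → ℤ) i : ℤ) : ℝ)) = fun _ => (t : ℝ) := rfl
      rw [← h6, ← h5, hcc1]
      congr 1
      funext i
      simp only [Pi.add_apply, Pi.smul_apply, smul_eq_mul, hxr]
      push_cast
      ring
    have h5 : (mev (hom cc xr k) fun i => (y i : ℝ)) = c' fun _ => k := congrFun h4 k
    rw [h5]
    refine nd_of_near ?_ hQ
    have h6 := h3 (fun _ => k) (fun h => hk (by have := congrFun h 0; exact this))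
    simpa using h6
  -- the shifted polynomial is near
  have hnear : Near (r + 1) d E₂ (q * Q) L fun x => χ (g (x + x₀)) := by
    refine ⟨shc cc xr, fun x => ?_, fun b hb => ?_⟩
    · show χ (g (x + x₀)) = _
      rw [hcc1, ← mev_shift]
      congr 1
      funext i
      simp only [Pi.add_apply, hxr]
      push_cast
      ring
    · have hLb : (0 : ℝ) < ∏ i, (L i : ℝ) ^ (b i : ℕ) := prod_pos fun i _ => pow_pos (hLp i) _
      rcases Nat.lt_or_ge d (∑ i, (b i : ℕ)) with h | h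
      · rw [shc_zero hcc2 xr b h]
        exact ⟨0, by simp; positivity⟩
      set kk : ℕ := ∑ i, (b i : ℕ) with hkk
      have hkk1 : 1 ≤ kk := by
        obtain ⟨i, hi⟩ : ∃ i, b i ≠ 0 := by
          by_contra hcon
          push Not at hcon
          exact hb (funext hcon)
        have h2 : 0 < (b i : ℕ) := Nat.pos_of_ne_zero fun h => hi (Fin.ext h)
        have h3 : (b i : ℕ) ≤ kk := single_le_sum (f := fun i => (b i : ℕ))
          (fun _ _ => Nat.zero_le _) (mem_univ i)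
        omega
      set k : Fin (d + 1) := ⟨kk, by omega⟩ with hkd
      have hk0 : k ≠ 0 := fun h => by
        have := congrArg Fin.val h
        simp [hkd] at this
        omega
      have hρ0 : 0 ≤ (Q : ℝ) * (E / (T : ℝ) ^ kk) := by positivity
      have hρ1 : (Q : ℝ) * (E / (T : ℝ) ^ kk) ≤ 1 / B := by
        have h2 : (T : ℝ) ≤ (T : ℝ) ^ kk := le_self_pow₀ hTr (by omega)
        rw [mul_div_assoc', div_le_div_iff₀ (by positivity) (by linarith)]
        linarith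
      have hfin := hrec M (fun b' => Q * hom cc xr kk b') ((Q : ℝ) * (E / (T : ℝ) ^ kk)) hMB hρ0
        hρ1 (by
          refine hχ.trans ?_
          have h2 : (box M).filter (fun y => Nc χ y) ⊆ (box M).filter fun y =>
              nd (mev (fun b' => (Q : ℝ) * hom cc xr kk b') fun i => (y i : ℝ)) ≤
                (Q : ℝ) * (E / (T : ℝ) ^ kk) := by
            intro y hy
            rw [mem_filter] at hy ⊢
            refine ⟨hy.1, ?_⟩
            rw [mev_smul]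
            exact hkey y hy.2 k hk0
          have h3 := card_le_card h2
          have h4 : (#((box M).filter fun y => Nc χ y) : ℝ) ≤
            (#((box M).filter fun y => nd (mev (fun b' => (Q : ℝ) * hom cc xr kk b')
              fun i => (y i : ℝ)) ≤ (Q : ℝ) * (E / (T : ℝ) ^ kk)) : ℝ) := by exact_mod_cast h3
          convert h4) b
      have h2 : hom cc xr kk b = shc cc xr b := by
        unfold hom
        rw [if_pos hkk.symm]
      rw [h2] at hfin
      refine near_of_nd (q := q * Q) (Nat.mul_pos hq hQ) ?_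
      have h3 : (((q * Q : ℕ) : ℝ) * shc cc xr b) = q * (Q * shc cc xr b) := by
        push_cast; ring
      rw [h3]
      refine hfin.trans ?_
      have h4 : (∏ i, (L i : ℝ) ^ (b i : ℕ)) / (2 * S * T) ^ kk ≤ ∏ i, (M i : ℝ) ^ (b i : ℕ) := by
        have h5 : (∏ i, (L i : ℝ) ^ (b i : ℕ)) / (2 * S * T) ^ kk =
            ∏ i, ((L i : ℝ) / (2 * S * T)) ^ (b i : ℕ) := by
          simp only [div_pow]
          rw [prod_div_distrib, prod_pow_eq_pow_sum]
        rw [h5]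
        refine prod_le_prod (fun i _ => by positivity) fun i _ => ?_
        have := hMlow i
        gcongr
      have h5 : (0 : ℝ) < (∏ i, (L i : ℝ) ^ (b i : ℕ)) / (2 * S * T) ^ kk := by positivity
      calc (B : ℝ) * ((Q : ℝ) * (E / (T : ℝ) ^ kk)) / ∏ i, (M i : ℝ) ^ (b i : ℕ)
          ≤ (B : ℝ) * ((Q : ℝ) * (E / (T : ℝ) ^ kk)) /
            ((∏ i, (L i : ℝ) ^ (b i : ℕ)) / (2 * S * T) ^ kk) := by gcongr
        _ = B * (Q * E) * (2 * S) ^ kk / ∏ i, (L i : ℝ) ^ (b i : ℕ) := by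
            rw [mul_pow (2 * (S : ℝ)) (T : ℝ) kk]
            field_simp
        _ ≤ _ := by
            rw [hE₂]
            have h6 : (2 * (S : ℝ)) ^ kk ≤ (2 * S) ^ d :=
              pow_le_pow_right₀ (by linarith) h
            gcongr
  have hfinal := near_shift hnear hE₂0 (Nat.mul_pos hq hQ) (K := 1) le_rfl hL1' (-x₀) (by
    intro i
    rw [mem_box] at hx₀
    have h2 := hx₀ i
    rw [Pi.neg_apply, Int.cast_neg, abs_neg, abs_of_nonneg (by exact_mod_cast h2.1), one_mul]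
    have h3 : x₀ i ≤ (L i : ℤ) := h2.2.le
    exact_mod_cast h3)
  simpa using hfinal

end Pool.Agent.NG
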