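import Mathlib
import Pool.Agent.Lib.NV.Defs
import Pool.Agent.Lib.NG.A
import Pool.Agent.Lib.NG.Prd
import Pool.Agent.Lib.NG.ARows

/-!
# NVG2 (MP_663568_nt), part B: the inverse theorem for one variable, definitions and rows

`F` is a function on `G` modulo `M` and the lattice, with a character `k ≠ 0` along a central element
`z`.  If the mean of `F (g m)` over `0 ≤ m < L` is large, `g` a polynomial sequence, then one of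
finitely many characters `χ` of `G` is such that `χ (g m)` is a polynomial with coefficients near
rationals.  Paper: section 1.1 of nvg2_MP_663568_nt_h30, with (S2), (S3) of helper19.  Induction on the
degree `d` (`LZ d`), then on the sum of the ranks of the `Gf i` (`LBF`).

Each row is a Prop `X_stmt`, to be proved as `theorem x : X_stmt` in `Lib/NG/X.lean`.  A primed name
`X'` is the fact which the row proves, `X_stmt` is `(facts of other rows) → X'`.  (helper11)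
-/

set_option autoImplicit false
open Finset Topology

namespace Pool.Agent.NG

noncomputable section

open Amb Pool.Agent.Lib.MP_663568_nt Pool.Agent.Lib.MP_663568_nt.Katai
  Pool.Agent.Lib.MP_663568_nt.Nul Pool.Agent.SV Pool.Agent.VQ Pool.Agent.NV

/-! ### Definitions -/

/-- The polynomial on `ℤ` with the coefficients `c j`, `j ≤ d`. -/
def pol (d : ℕ) (c : ℕ → ℝ) (m : ℤ) : ℝ := ∑ j ∈ range (d + 1), c j * (m : ℝ) ^ j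

/-- `P` is a polynomial of degree at most `d` on `ℤ` whose coefficients, from the degree `t` on, are
rational (denominator `Q`) up to `E / L ^ j`. -/
def NrZ (t d : ℕ) (E : ℝ) (Q L : ℕ) (P : ℤ → ℝ) : Prop :=
  ∃ c : ℕ → ℝ, (∀ m, P m = pol d c m) ∧ ∀ j, t ≤ j → j ≤ d → nd ((Q : ℝ) * c j) ≤ E / (L : ℝ) ^ j

section
variable {U : Type} [Amb U]

/-- Characters as in `Chr`, possibly zero. -/
structure ChZ (G J M : Subgroup U) (χ : U → ℝ) : Prop where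
  mul : ∀ x ∈ J, ∀ y ∈ J, χ (x * y) = χ x + χ y
  inv : ∀ g ∈ G, ∀ x ∈ J, χ (g * x * g⁻¹) = χ x
  int : ∀ γ ∈ (La : Subgroup U), γ ∈ J → ∃ j : ℤ, χ γ = j
  van : ∀ x ∈ M, χ x = 0
  cont : ContinuousOn χ (J : Set U)

/-- Coordinates of `H` modulo `H'`, with respect to the elements `e i` of the lattice (see `COO`). -/
structure Crd (H H' : Subgroup U) {D : ℕ} (kp : U → Fin D → ℝ) (e : Fin D → U) (κ : ℕ) : Prop where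
  mem : ∀ i, e i ∈ (La : Subgroup U) ∧ e i ∈ H
  mul : ∀ x ∈ H, ∀ y ∈ H, kp (x * y) = kp x + kp y
  ker : ∀ x ∈ H, kp x = 0 ↔ x ∈ H'
  pe : ∀ i, kp (e i) = Pi.single i 1
  cont : ContinuousOn kp (H : Set U)
  one_le : 1 ≤ κ
  int : ∀ γ ∈ (La : Subgroup U), γ ∈ H → ∀ i, ∃ j : ℤ, κ * kp γ i = j
  tau : ∀ v : Fin D → ℝ, tau e v ∈ H ∧ kp (tau e v) = v

/-- The fractional part of `s a` (`fl s a` of NV is the integral part). -/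
def fr {D : ℕ} (s : ℕ) (a : Fin D → ℝ) : Fin D → ℝ := fun i => Int.fract ((s : ℝ) * a i)

/-- **The statement for one filtered group** (of degree `d`, modulo `Gf (d + 1)`). -/
def LBF (Gf : ℕ → Subgroup U) (d : ℕ) : Prop :=
  ∀ (z : U) (k : ℤ), k ≠ 0 → Cen (Gf 0) (Gf (d + 1)) z → ∀ F : U → ℂ, Fn (Gf 0) (Gf (d + 1)) F →
  (∀ x ∈ Gf 0, ‖F x‖ ≤ 1) → Vrt (Gf 0) F z k → ∀ c : ℝ, 0 < c → c ≤ 1 →
  ∃ (N : ℕ) (X : Fin N → U → ℝ) (E : ℝ) (Q L₀ : ℕ), 0 ≤ E ∧ 1 ≤ Q ∧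
    (∀ i, Chr (Gf 0) (Gf 0) (Gf (d + 1)) (X i)) ∧
    ∀ L : ℕ, L₀ ≤ L → ∀ g : ℤ → U, PS Gf 0 g → c * L ≤ ‖∑ m ∈ range L, F (g m)‖ →
      ∃ i, NrZ 1 d E Q L fun m => X i (g m)

end

/-- **The inverse theorem in one variable for the degree `d`.** -/
def LZ (d : ℕ) : Prop := ∀ (U : Type) [Amb U] (Gf : ℕ → Subgroup U), Filt Gf d → LBF Gf d

section
variable {U : Type} [Amb U]

/-- The function on the square. -/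
def Fsq {D : ℕ} (e : Fin D → U) (F : U → ℂ) (v : Fin D → ℝ) : U × U → ℂ := fun q =>
  F (tau e v * q.1) * (starRingEnd ℂ) (F q.2)

/-- The sequence in the square. -/
def hs {D : ℕ} (e : Fin D → U) (g : ℤ → U) (a : Fin D → ℝ) (s : ℕ) : ℤ → U × U := fun m =>
  ((tau e (fr s a))⁻¹ * g (m + s) * (tau e (fl s a))⁻¹, g m)

/-- The quadratic map of an invariant character of `G_2`. -/
def qm {D : ℕ} (kp : U → Fin D → ℝ) (e : Fin D → U) (η : U → ℝ) : U → ℝ := fun x =>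
  η (x * (tau e (kp x))⁻¹)

/-- The bilinear form of the quadratic map. -/
structure Bil (G : Subgroup U) {D : ℕ} (kp : U → Fin D → ℝ) (e : Fin D → U) (η : U → ℝ)
    (b : Fin D → Fin D → ℤ) : Prop where
  mul : ∀ x ∈ G, ∀ y ∈ G, qm kp e η (x * y) = qm kp e η x + qm kp e η y + bf b (kp x) (kp y)
  low : ∀ i j, i ≤ j → b i j = 0

/-- The smaller filtration: `G_i` is replaced by the kernel of `χ` on `G_i` for `i ≥ 2`. -/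
def redF (Gf : ℕ → Subgroup U) (χ : U → ℝ) : ℕ → Subgroup U := fun i =>
  if i ≤ 1 then Gf 0 else Gf i ⊓ kerS (Gf 0) χ

/-- The sum of the ranks. -/
def rkF (Gf : ℕ → Subgroup U) (d : ℕ) : ℕ := ∑ i ∈ range (d + 1), dm (Gf i)

/-- `F` has the character `ξ` of `H`. -/
def Vch (G H : Subgroup U) (F : U → ℂ) (ξ : U → ℝ) : Prop :=
  ∀ w ∈ H, ∀ x ∈ G, F (w * x) = ee (ξ w) * F x

/-- `G_2`-part of the sequence and its slope. -/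
def Slp (G : Subgroup U) {D : ℕ} (kp : U → Fin D → ℝ) (g : ℤ → U) (a : Fin D → ℝ) : Prop :=
  (∀ m, g m ∈ G) ∧ ∀ m : ℤ, kp (g m) = kp (g 0) + (m : ℝ) • a

end

/-! ### Rows without groups -/

/-- Row VDC: van der Corput's inequality. -/
def VDC_stmt : Prop := ∀ c : ℝ, 0 < c → c ≤ 1 → ∃ c' : ℝ, 0 < c' ∧ c' ≤ 1 ∧
  ∀ L : ℕ, 1 ≤ L → ∀ a : ℤ → ℂ, (∀ m, ‖a m‖ ≤ 1) → c * L ≤ ‖∑ m ∈ range L, a m‖ → (by
    classical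
    exact c' * L ≤ (#((range L).filter fun s : ℕ =>
      c' * L ≤ ‖∑ m ∈ range (L - s), a ((m : ℤ) + s) * (starRingEnd ℂ) (a m)‖) : ℝ))

/-- Row UNQ: the coefficients of a polynomial on `ℤ` are unique. -/
def UNQ_stmt : Prop := ∀ (d : ℕ) (c c' : ℕ → ℝ), (∀ m : ℤ, pol d c m = pol d c' m) →
  ∀ j ≤ d, c j = c' j

/-- Row PRG: from a progression in `[0, L]` of length `L' ≥ η L` to all integers. -/
def PRG_stmt : Prop := ∀ (d : ℕ) (η E : ℝ) (q Q : ℕ), 0 < η → η ≤ 1 → 0 ≤ E → 1 ≤ q → 1 ≤ Q →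
  ∃ (E' : ℝ) (Q' : ℕ), 0 ≤ E' ∧ 1 ≤ Q' ∧ ∀ (L L' i₀ : ℕ) (c : ℕ → ℝ), 1 ≤ L → η * L ≤ L' → i₀ ≤ L →
  NrZ 1 d E Q L' (fun m => pol d c (i₀ + q * m)) → NrZ 1 d E' Q' L (pol d c)

/-- Row EXT: the conclusion from the coefficients of `m` and `m ^ 2` for many `s` (from `BRK` of NV and
`rec0` of `Lib/NG/Box1`).  `e₁`: coefficients of `η₁ (g m)`; `p`: coefficients of the quadratic map
along `g`; `a`: the slope. -/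
def EXT_stmt : Prop := BRK_stmt → ∀ (d D : ℕ) (b : Fin D → Fin D → ℤ) (c E : ℝ) (Q : ℕ), 2 ≤ d →
  (∀ i j, i ≤ j → b i j = 0) → 0 < c → c ≤ 1 → 0 ≤ E → 1 ≤ Q →
  ∃ (C q L₀ : ℕ), 1 ≤ C ∧ 1 ≤ q ∧ ∀ L : ℕ, L₀ ≤ L → ∀ (a : Fin D → ℝ) (e₁ p : ℕ → ℝ), (by
    classical
    exact c * L ≤ (#((range L).filter fun s : ℕ =>
      nd ((Q : ℝ) * (e₁ 1 + ∑ i ∈ Icc 2 d, (i : ℝ) * p i * (s : ℝ) ^ (i - 1) - s * bf b a a +
        om b (fl s a) a)) ≤ E / L ∧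
      (3 ≤ d → nd ((Q : ℝ) * (e₁ 2 + ∑ i ∈ Icc 3 d, (i.choose 2 : ℝ) * p i * (s : ℝ) ^ (i - 2)))
        ≤ E / (L : ℝ) ^ 2)) : ℝ)) →
  (∃ n : Fin D → ℤ, n ≠ 0 ∧ (∀ i, |n i| ≤ C) ∧ nd (dp n a) ≤ C / L) ∨
  ((∀ i j, b i j = 0) ∧ ∀ j, 2 ≤ j → j ≤ d → nd ((q : ℝ) * p j) ≤ C / (L : ℝ) ^ j)

/-! ### Bridges from the rows of part A -/

/-- Row DEGZ: additive functions along polynomial sequences on `ℤ` are polynomials. -/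
def DEGZ' : Prop := ∀ (U : Type) [Amb U] (Gf : ℕ → Subgroup U) (D : ℕ) (J : Subgroup U)
  (χ : U → ℝ) (n : ℤ → U), (∀ x ∈ J, ∀ y ∈ J, χ (x * y) = χ x + χ y) →
  (∀ x ∈ J ⊓ Gf (D + 1), χ x = 0) → PS (fun i => J ⊓ Gf i) 0 n →
  ∃ c : ℕ → ℝ, ∀ m, χ (n m) = pol D c m
def DEGZ_stmt : Prop := DEG_stmt → LBN_stmt → DEGZ'

/-- Row SIGZ: real powers with polynomial exponents are polynomial sequences on `ℤ`. -/
def SIGZ' : Prop := ∀ (U : Type) [Amb U] (Gf : ℕ → Subgroup U) (d j : ℕ) (x : U) (c : ℕ → ℝ),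
  Filt Gf d → j ≤ d → x ∈ Gf j → PS Gf 0 fun m : ℤ => pw (pol j c m) x
def SIGZ_stmt : Prop := SIG_stmt → LBN_stmt → SIGZ'

/-- Row SLP: the coordinates of `G` modulo `G_2` along a polynomial sequence are affine. -/
def SLP' : Prop := ∀ (U : Type) [Amb U] (Gf : ℕ → Subgroup U) (d : ℕ), Filt Gf d →
  ∀ (D : ℕ) (kp : U → Fin D → ℝ) (e : Fin D → U) (κ : ℕ), Crd (Gf 0) (Gf 2) kp e κ →
  ∀ g : ℤ → U, PS Gf 0 g → ∃ a : Fin D → ℝ, Slp (Gf 0) kp g a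
def SLP_stmt : Prop := DEGZ' → SLP'

/-- Row FUL1: `F` is a sum of functions with a full character of `G_d`. -/
def FUL1' : Prop := ∀ (U : Type) [Amb U] (Gf : ℕ → Subgroup U) (d : ℕ), 1 ≤ d → Filt Gf d →
  ∀ (z : U) (k : ℤ), Cen (Gf 0) (Gf (d + 1)) z → ∀ F : U → ℂ, Fn (Gf 0) (Gf (d + 1)) F →
  (∀ x ∈ Gf 0, ‖F x‖ ≤ 1) → Vrt (Gf 0) F z k → ∀ ε : ℝ, 0 < ε →
  ∃ (N : ℕ) (ξ : Fin N → U → ℝ) (F' : Fin N → U → ℂ),
    (∀ i, Fn (Gf 0) (Gf (d + 1)) (F' i) ∧ (∀ x ∈ Gf 0, ‖F' i x‖ ≤ 1) ∧ Vrt (Gf 0) (F' i) z k ∧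
      ChZ (Gf 0) (Gf d) (Gf (d + 1)) (ξ i) ∧ Vch (Gf 0) (Gf d) (F' i) (ξ i)) ∧
    ∀ x ∈ Gf 0, ‖F x - ∑ i, F' i x‖ ≤ ε
/-- (Induction over the coordinates `e i` of `Gf d` modulo `Gf (d + 1)`; the character is integral on
the lattice if `F' i` is not zero on `Gf 0`, otherwise take `ξ i = 0`.) -/
def FUL1_stmt : Prop := PWB_stmt → COO_stmt → FOU_stmt → FUL1'

/-- Row LB1: the degrees `0` (nothing to prove) and `1`. -/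
def LB1_stmt : Prop := CHS_stmt → DEGZ' → FUL1' → LZ 0 ∧ LZ 1

/-! ### The square -/

/-- Row SQN: the functions on the square, an element of the lattice with a non-zero character, a
finite net of functions. -/
def SQN' : Prop := ∀ (U : Type) [Amb U] (Gf : ℕ → Subgroup U) (d : ℕ), 2 ≤ d → Filt Gf d →
  ∀ (D : ℕ) (kp : U → Fin D → ℝ) (e : Fin D → U) (κ : ℕ), Crd (Gf 0) (Gf 2) kp e κ →
  ∀ F : U → ℂ, Fn (Gf 0) (Gf (d + 1)) F → (∀ x ∈ Gf 0, ‖F x‖ ≤ 1) →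
  ∀ ξ : U → ℝ, Chr (Gf 0) (Gf d) (Gf (d + 1)) ξ → Vch (Gf 0) (Gf d) F ξ →
  (∃ (w : U) (k : ℤ), k ≠ 0 ∧ Cen (Gsq Gf d 0) (Gsq Gf d (d - 1 + 1)) ((w, 1) : U × U) ∧
    ∀ v : Fin D → ℝ, Fn (Gsq Gf d 0) (Gsq Gf d (d - 1 + 1)) (Fsq e F v) ∧
      (∀ q ∈ Gsq Gf d 0, ‖Fsq e F v q‖ ≤ 1) ∧ Vrt (Gsq Gf d 0) (Fsq e F v) ((w, 1) : U × U) k) ∧
  ∀ ε : ℝ, 0 < ε → ∃ (N : ℕ) (vv : Fin N → Fin D → ℝ), ∀ v : Fin D → ℝ,
    (∀ i, 0 ≤ v i ∧ v i ≤ 1) → ∃ n, ∀ q ∈ Gsq Gf d 0, ‖Fsq e F v q - Fsq e F (vv n) q‖ ≤ ε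
def SQN_stmt : Prop := PWB_stmt → CHS_stmt → FIB_stmt → LEV_stmt → FNC_stmt → SQN'

/-- Row HPS: the sequence in the square is a polynomial sequence. -/
def HPS' : Prop := ∀ (U : Type) [Amb U] (Gf : ℕ → Subgroup U) (d : ℕ), 2 ≤ d → Filt Gf d →
  ∀ (D : ℕ) (kp : U → Fin D → ℝ) (e : Fin D → U) (κ : ℕ), Crd (Gf 0) (Gf 2) kp e κ →
  ∀ (g : ℤ → U) (a : Fin D → ℝ), PS Gf 0 g → Slp (Gf 0) kp g a → ∀ s : ℕ,
    PS (Gsq Gf d) 0 (hs e g a s)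
/-- (`hs = (y, 1) * (g m, g m)`, `y m = (τ₁)⁻¹ g (m+s) (τ₂)⁻¹ (g m)⁻¹`: show `PS (Gf (i + 1))`, with
values in `Gf 2`; the differences of the diagonal and of `(y, 1)` are in `Gsq`; LBM for `Gsq`.) -/
def HPS_stmt : Prop := FIB_stmt → FIL_stmt → LBM_stmt → LBN_stmt → HPS'

/-- Row VST: van der Corput's step: for a function with a non-zero character of `G_d`, for many `s`
one of finitely many characters of the square is near along the sequence `hs`. -/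
def VST' : Prop := ∀ d : ℕ, 2 ≤ d → LZ (d - 1) →
  ∀ (U : Type) [Amb U] (Gf : ℕ → Subgroup U), Filt Gf d →
  ∀ (D : ℕ) (kp : U → Fin D → ℝ) (e : Fin D → U) (κ : ℕ), Crd (Gf 0) (Gf 2) kp e κ →
  ∀ F : U → ℂ, Fn (Gf 0) (Gf (d + 1)) F → (∀ x ∈ Gf 0, ‖F x‖ ≤ 1) →
  ∀ ξ : U → ℝ, Chr (Gf 0) (Gf d) (Gf (d + 1)) ξ → Vch (Gf 0) (Gf d) F ξ →
  ∀ c : ℝ, 0 < c → c ≤ 1 →
  ∃ (N : ℕ) (Θ : Fin N → U × U → ℝ) (c' E : ℝ) (Q L₀ : ℕ), 0 < c' ∧ c' ≤ 1 ∧ 0 ≤ E ∧ 1 ≤ Q ∧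
    (∀ i, Chr (Gsq Gf d 0) (Gsq Gf d 0) (Gsq Gf d (d - 1 + 1)) (Θ i)) ∧
    ∀ L : ℕ, L₀ ≤ L → ∀ (g : ℤ → U) (a : Fin D → ℝ), PS Gf 0 g → Slp (Gf 0) kp g a →
      c * L ≤ ‖∑ m ∈ range L, F (g m)‖ → ∃ i, (by
        classical
        exact c' * L ≤ (#((range L).filter fun s : ℕ =>
          NrZ 1 (d - 1) E Q L fun m => Θ i (hs e g a s m)) : ℝ))
def VST_stmt : Prop := PWB_stmt → VDC_stmt → FIL_stmt → SQN' → HPS' → VST'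

/-! ### Characters of the square -/

/-- Row QMP: the quadratic map of an invariant character `η` of `G_2`. -/
def QMP' : Prop := ∀ (U : Type) [Amb U] (Gf : ℕ → Subgroup U) (d : ℕ), 2 ≤ d → Filt Gf d →
  ∀ (D : ℕ) (kp : U → Fin D → ℝ) (e : Fin D → U) (κ : ℕ), Crd (Gf 0) (Gf 2) kp e κ →
  ∀ η : U → ℝ, ChZ (Gf 0) (Gf 2) (Gf (d + 1)) η →
  (∃ b, Bil (Gf 0) kp e η b) ∧ ContinuousOn (qm kp e η) (Gf 0 : Set U) ∧
    (∃ M : ℕ, 1 ≤ M ∧ ∀ γ ∈ (La : Subgroup U), γ ∈ Gf 0 → ∃ j : ℤ, M * qm kp e η γ = j) ∧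
    (∀ x ∈ Gf 2, qm kp e η x = η x) ∧ ∀ v, qm kp e η (tau e v) = 0
/-- (`b i j = η (e i * e j * (e i)⁻¹ * (e j)⁻¹)` for `i > j`; `M = κ ^ 3`, from
`q (γ ^ κ) = κ q γ + (κ choose 2) b (kp γ, kp γ)`.) -/
def QMP_stmt : Prop := PWB_stmt → CHS_stmt → QMP'

/-- Row QDG: the quadratic map along a polynomial sequence is a polynomial of degree at most `d`. -/
def QDG' : Prop := ∀ (U : Type) [Amb U] (Gf : ℕ → Subgroup U) (d : ℕ), 2 ≤ d → Filt Gf d →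
  ∀ (D : ℕ) (kp : U → Fin D → ℝ) (e : Fin D → U) (κ : ℕ), Crd (Gf 0) (Gf 2) kp e κ →
  ∀ η : U → ℝ, ChZ (Gf 0) (Gf 2) (Gf (d + 1)) η → ∀ (g : ℤ → U) (a : Fin D → ℝ), PS Gf 0 g →
  Slp (Gf 0) kp g a → ∃ p : ℕ → ℝ, ∀ m, qm kp e η (g m) = pol d p m
/-- (`g m * (tau e (kp (g m)))⁻¹` is a polynomial sequence with values in `Gf 2`.) -/
def QDG_stmt : Prop := LBM_stmt → LBN_stmt → SIGZ' → DEGZ' → QDG'

/-- Row HSF: the value of the character on the sequence `hs`. -/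
def HSF' : Prop := ∀ (U : Type) [Amb U] (Gf : ℕ → Subgroup U) (d : ℕ), 2 ≤ d → Filt Gf d →
  ∀ (D : ℕ) (kp : U → Fin D → ℝ) (e : Fin D → U) (κ : ℕ), Crd (Gf 0) (Gf 2) kp e κ →
  ∀ (θ : U × U → ℝ) (η₁ η₂ : U → ℝ),
  (∀ q : U × U, q.1 ∈ Gf 0 → q.2 ∈ Gf 0 → q.1 * q.2⁻¹ ∈ Gf 2 →
    θ q = η₁ q.2 + η₂ (q.1 * q.2⁻¹)) →
  ∀ b : Fin D → Fin D → ℤ, Bil (Gf 0) kp e η₂ b → (∀ x ∈ Gf 2, qm kp e η₂ x = η₂ x) →
  (∀ v, qm kp e η₂ (tau e v) = 0) →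
  ∀ (g : ℤ → U) (a : Fin D → ℝ), Slp (Gf 0) kp g a →
  ∀ (s : ℕ) (m : ℤ), θ (hs e g a s m) = η₁ (g m) + qm kp e η₂ (g (m + s)) -
    qm kp e η₂ (g m) - s * bf b a (kp (g m)) + om b (fl s a) (kp (g m)) -
    bf b (fr s a) (fl s a)
def HSF_stmt : Prop := HSF'

/-- Row CAS: one character of the square which is near for many `s`: a character of `G` is near
along `g`, or `χ` (from the quadratic map) has coefficients near rationals from the degree `2` on. -/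
def CAS' : Prop := ∀ (U : Type) [Amb U] (Gf : ℕ → Subgroup U) (d : ℕ), 2 ≤ d → Filt Gf d →
  ∀ (D : ℕ) (kp : U → Fin D → ℝ) (e : Fin D → U) (κ : ℕ), Crd (Gf 0) (Gf 2) kp e κ →
  ∀ θ : U × U → ℝ, Chr (Gsq Gf d 0) (Gsq Gf d 0) (Gsq Gf d (d - 1 + 1)) θ →
  ∀ (c E : ℝ) (Q : ℕ), 0 < c → c ≤ 1 → 0 ≤ E → 1 ≤ Q →
  ∃ (N : ℕ) (X : Fin N → U → ℝ) (χ : U → ℝ) (E' : ℝ) (Q' L₀ : ℕ), 0 ≤ E' ∧ 1 ≤ Q' ∧
    (∀ i, Chr (Gf 0) (Gf 0) (Gf (d + 1)) (X i)) ∧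
    ∀ L : ℕ, L₀ ≤ L → ∀ (g : ℤ → U) (a : Fin D → ℝ), PS Gf 0 g → Slp (Gf 0) kp g a → (by
      classical
      exact c * L ≤ (#((range L).filter fun s : ℕ =>
        NrZ 1 (d - 1) E Q L fun m => θ (hs e g a s m)) : ℝ)) →
      (∃ i, NrZ 1 d E' Q' L fun m => X i (g m)) ∨
      (Chr (Gf 0) (Gf 0) (Gf (d + 1)) χ ∧ (∃ x ∈ Gf 2, χ x ≠ 0) ∧
        NrZ 2 d E' Q' L fun m => χ (g m))
/-- (`CHF` gives `η₁`, `η₂`.  If `η₂ = 0` on `Gf 2` then `η₁` is near.  Otherwise `EXT`: a relation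
`n` gives the character `κ * dp n (kp x)`; `b = 0` gives `χ = M * qm kp e η₂`.) -/
def CAS_stmt : Prop := BRK_stmt → UNQ_stmt → EXT_stmt → FIB_stmt → CHF_stmt → DEGZ' → QMP' → QDG' →
  HSF' → CAS'

/-! ### The smaller filtration -/

/-- Row RFL: the smaller filtration. -/
def RFL' : Prop := ∀ (U : Type) [Amb U] (Gf : ℕ → Subgroup U) (d : ℕ), 2 ≤ d → Filt Gf d →
  ∀ χ : U → ℝ, Chr (Gf 0) (Gf 0) (Gf (d + 1)) χ → (∃ x ∈ Gf 2, χ x ≠ 0) →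
  Filt (redF Gf χ) d ∧ redF Gf χ 0 = Gf 0 ∧ redF Gf χ (d + 1) = Gf (d + 1) ∧
    rkF (redF Gf χ) d < rkF Gf d ∧
    ∀ g : ℤ → U, (PS (redF Gf χ) 0 g ↔ PS Gf 0 g ∧ ∃ c₀ c₁ : ℝ, ∀ m : ℤ, χ (g m) = c₀ + c₁ * m)
def RFL_stmt : Prop := KER_stmt → FIL_stmt → LBM_stmt → DEGZ' → UNQ_stmt → RFL'

/-- Row FRT: the factorisation: after a small factor on the left and a factor with rational exponents
on the right the sequence is in the smaller filtration. -/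
def FRT' : Prop := ∀ (U : Type) [Amb U] (Gf : ℕ → Subgroup U) (d : ℕ), 2 ≤ d → Filt Gf d →
  ∀ χ : U → ℝ, Chr (Gf 0) (Gf 0) (Gf (d + 1)) χ → (∃ x ∈ Gf 2, χ x ≠ 0) →
  ∃ (M₀ : ℕ) (σ : U), 1 ≤ M₀ ∧ σ ∈ Gf 2 ∧ χ σ = 1 ∧ pw M₀ σ ∈ (La : Subgroup U) ∧
  ∀ (E : ℝ) (Q L : ℕ) (g : ℤ → U), 0 ≤ E → 1 ≤ Q → 1 ≤ L → PS Gf 0 g →
  NrZ 2 d E Q L (fun m => χ (g m)) → ∃ (S R : ℕ → ℝ) (g' : ℤ → U),
    (∀ j, |S j| ≤ E / (L : ℝ) ^ j) ∧ (∀ j, ∃ n : ℤ, (Q : ℝ) * R j = n) ∧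
    PS (redF Gf χ) 0 g' ∧ ∀ m : ℤ, g m = pw (pol d S m) σ * g' m * pw (pol d R m) σ
def FRT_stmt : Prop := PWB_stmt → CHS_stmt → KER_stmt → LEV_stmt → LBM_stmt → SIGZ' → DEGZ' →
  UNQ_stmt → RFL' → FRT'

/-- Row OM0: reduction to the smaller filtration (freeze the small factor on short intervals, classes
for the rational factor, `LBF` for finitely many translates of `F`, and back by `PRG`). -/
def OM0' : Prop := ∀ (U : Type) [Amb U] (Gf : ℕ → Subgroup U) (d : ℕ), 2 ≤ d → Filt Gf d →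
  ∀ χ : U → ℝ, Chr (Gf 0) (Gf 0) (Gf (d + 1)) χ → (∃ x ∈ Gf 2, χ x ≠ 0) → LBF (redF Gf χ) d →
  ∀ (z : U) (k : ℤ), k ≠ 0 → Cen (Gf 0) (Gf (d + 1)) z → ∀ F : U → ℂ, Fn (Gf 0) (Gf (d + 1)) F →
  (∀ x ∈ Gf 0, ‖F x‖ ≤ 1) → Vrt (Gf 0) F z k → ∀ (c E : ℝ) (Q : ℕ), 0 < c → c ≤ 1 → 0 ≤ E →
  1 ≤ Q → ∃ (N : ℕ) (X : Fin N → U → ℝ) (E' : ℝ) (Q' L₀ : ℕ), 0 ≤ E' ∧ 1 ≤ Q' ∧
    (∀ i, Chr (Gf 0) (Gf 0) (Gf (d + 1)) (X i)) ∧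
    ∀ L : ℕ, L₀ ≤ L → ∀ g : ℤ → U, PS Gf 0 g → c * L ≤ ‖∑ m ∈ range L, F (g m)‖ →
      NrZ 2 d E Q L (fun m => χ (g m)) → ∃ i, NrZ 1 d E' Q' L fun m => X i (g m)
def OM0_stmt : Prop := PWB_stmt → CHS_stmt → FNC_stmt → LBM_stmt → LBN_stmt → DEGZ' → UNQ_stmt →
  PRG_stmt → RFL' → FRT' → OM0'

/-! ### Conclusion -/

/-- Row STP: one step of the induction. -/
def STP' : Prop := ∀ (U : Type) [Amb U] (Gf : ℕ → Subgroup U) (d : ℕ), 2 ≤ d → Filt Gf d →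
  LZ (d - 1) → (∀ χ : U → ℝ, Chr (Gf 0) (Gf 0) (Gf (d + 1)) χ → (∃ x ∈ Gf 2, χ x ≠ 0) →
    LBF (redF Gf χ) d) → LBF Gf d
/-- (`FUL1` with `ε = c / 2`; a function with `ξ = 0` on `Gf d`: zero if `z ∈ Gf d`, otherwise `LZ` for
the filtration `Gf (min i d)`; a function with `ξ ≠ 0`: `COO` for `Gf 0`, `Gf 2`, `SLP`, `VST`, `CAS`,
`OM0`.) -/
def STP_stmt : Prop := COO_stmt → FIL_stmt → SLP' → FUL1' → VST' → CAS' → OM0' → STP'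

/-- Row LZA: the induction. -/
def LZA_stmt : Prop := (LZ 0 ∧ LZ 1) → RFL' → STP' → ∀ d, LZ d

/-- Row LZN: the theorem in the form used in the boxes (`LEIB 1` of part C). -/
def LZN_stmt : Prop := (∀ d, LZ d) → ∀ (U : Type) [Amb U] (Gf : ℕ → Subgroup U) (d : ℕ) (z : U)
  (k : ℤ) (F : U → ℂ) (c : ℝ), Filt Gf d → Cen (Gf 0) (Gf (d + 1)) z → k ≠ 0 →
  Fn (Gf 0) (Gf (d + 1)) F → Vrt (Gf 0) F z k → 0 < c →
  ∃ (X : List (U → ℝ)) (E : ℝ) (Q L₀ : ℕ), (∀ χ ∈ X, Chr (Gf 0) (Gf 0) (Gf (d + 1)) χ) ∧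
    0 ≤ E ∧ 1 ≤ Q ∧ ∀ (L : Fin 1 → ℕ), (∀ i, L₀ ≤ L i) → ∀ g : (Fin 1 → ℤ) → U, PS Gf 0 g →
    c * ∏ i, (L i : ℝ) ≤ ‖∑ x ∈ box L, F (g x)‖ → ∃ χ ∈ X, Near 1 d E Q L fun x => χ (g x)

end

end Pool.Agent.NG
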