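import Mathlib
import Pool.Agent.Lib.NG.B

/-!
# NVG2 (MP_663568_nt), row CAS: the cases for a character of the square

helper59.
-/

set_option autoImplicit false
open Finset

namespace Pool.Agent.NG

noncomputable section

open Amb Pool.Agent.Lib.MP_663568_nt Pool.Agent.Lib.MP_663568_nt.Katai
  Pool.Agent.Lib.MP_663568_nt.Nul Pool.Agent.SV Pool.Agent.VQ Pool.Agent.NV

namespace CASx

/-- the coefficients of the shifted polynomial -/
def sh (d : ℕ) (p : ℕ → ℝ) (s : ℝ) (j : ℕ) : ℝ :=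
  ∑ i ∈ range (d + 1), ((i.choose j : ℕ) : ℝ) * p i * s ^ (i - j)

theorem pol_shift (d : ℕ) (p : ℕ → ℝ) (m : ℤ) (s : ℕ) :
    pol d p (m + s) = pol d (sh d p s) m := by
  unfold pol sh
  simp only [sum_mul]
  rw [sum_comm]
  refine sum_congr rfl fun i hi => ?_
  rw [mem_range] at hi
  push_cast
  rw [add_pow, mul_sum, ← sum_subset (range_subset_range.2 (show i + 1 ≤ d + 1 by omega))]
  · exact sum_congr rfl fun j _ => by ring
  · intro j _ hj
    rw [mem_range] at hj
    rw [Nat.choose_eq_zero_of_lt (by omega)]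
    simp

theorem sh_sub (d : ℕ) (p : ℕ → ℝ) (s : ℝ) (j : ℕ) (hj : j ≤ d) :
    sh d p s j = p j + ∑ i ∈ Icc (j + 1) d, ((i.choose j : ℕ) : ℝ) * p i * s ^ (i - j) := by
  unfold sh
  have h : range (d + 1) = range j ∪ (insert j (Icc (j + 1) d)) := by
    ext i
    simp only [mem_range, mem_union, mem_insert, mem_Icc]
    omega
  rw [h, sum_union, sum_insert (by simp)]
  · rw [sum_eq_zero fun i hi => by
      rw [mem_range] at hi
      rw [Nat.choose_eq_zero_of_lt hi]; simp]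
    simp
  · rw [disjoint_left]
    intro i hi
    simp only [mem_range, mem_insert, mem_Icc] at hi ⊢
    omega

theorem pol_ext (d : ℕ) (hd : 1 ≤ d) (c : ℕ → ℝ) (m : ℤ) :
    pol (d - 1) c m = pol d (fun j => if j ≤ d - 1 then c j else 0) m := by
  obtain ⟨k, rfl⟩ : ∃ k, d = k + 1 := ⟨d - 1, by omega⟩
  unfold pol
  rw [sum_range_succ _ (k + 1), Nat.add_sub_cancel]
  have h : (fun j => if j ≤ k then c j else 0) (k + 1) = 0 := if_neg (by omega)
  rw [h, zero_mul, add_zero]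
  refine sum_congr rfl fun j hj => ?_
  rw [mem_range] at hj
  show c j * (m : ℝ) ^ j = (if j ≤ k then c j else 0) * (m : ℝ) ^ j
  rw [if_pos (by omega)]

theorem nrz_ext {d : ℕ} (hd : 1 ≤ d) {E : ℝ} (hE : 0 ≤ E) {Q L : ℕ} {P : ℤ → ℝ}
    (h : NrZ 1 (d - 1) E Q L P) : NrZ 1 d E Q L P := by
  obtain ⟨c, h1, h2⟩ := h
  refine ⟨fun j => if j ≤ d - 1 then c j else 0, fun m => ?_, fun j hj1 hj2 => ?_⟩
  · rw [h1, pol_ext d hd]
  · show nd ((Q : ℝ) * (if j ≤ d - 1 then c j else 0)) ≤ _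
    split_ifs with h3
    · exact h2 j hj1 h3
    · rw [mul_zero]
      have : nd 0 = 0 := by simp [nd]
      rw [this]
      positivity

theorem bf_right {D : ℕ} (b : Fin D → Fin D → ℤ) (u v w : Fin D → ℝ) (t : ℝ) :
    bf b u (v + t • w) = bf b u v + t * bf b u w := by
  unfold bf
  simp only [mul_sum]
  rw [← sum_add_distrib]
  refine sum_congr rfl fun i _ => ?_
  rw [← sum_add_distrib]
  refine sum_congr rfl fun j _ => ?_
  simp only [Pi.add_apply, Pi.smul_apply, smul_eq_mul]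
  ring

theorem bf_left {D : ℕ} (b : Fin D → Fin D → ℤ) (u v w : Fin D → ℝ) (t : ℝ) :
    bf b (v + t • w) u = bf b v u + t * bf b w u := by
  unfold bf
  simp only [mul_sum]
  rw [← sum_add_distrib]
  refine sum_congr rfl fun i _ => ?_
  rw [← sum_add_distrib]
  refine sum_congr rfl fun j _ => ?_
  simp only [Pi.add_apply, Pi.smul_apply, smul_eq_mul]
  ring

theorem om_right {D : ℕ} (b : Fin D → Fin D → ℤ) (u v w : Fin D → ℝ) (t : ℝ) :
    om b u (v + t • w) = om b u v + t * om b u w := by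
  unfold NV.om
  rw [bf_right, bf_left]
  ring

theorem bf_zero {D : ℕ} (b : Fin D → Fin D → ℤ) (hb : ∀ i j, b i j = 0) (u v : Fin D → ℝ) :
    bf b u v = 0 := by
  unfold bf
  refine sum_eq_zero fun i _ => sum_eq_zero fun j _ => ?_
  rw [hb]; simp

theorem dp_add {D : ℕ} (n : Fin D → ℤ) (u v : Fin D → ℝ) : dp n (u + v) = dp n u + dp n v := by
  unfold dp
  rw [← sum_add_distrib]
  exact sum_congr rfl fun i _ => by rw [Pi.add_apply]; ring

theorem dp_smul {D : ℕ} (n : Fin D → ℤ) (t : ℝ) (v : Fin D → ℝ) : dp n (t • v) = t * dp n v := by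
  unfold dp
  rw [mul_sum]
  exact sum_congr rfl fun i _ => by rw [Pi.smul_apply, smul_eq_mul]; ring

theorem sum_two (d : ℕ) (hd : 1 ≤ d) (A B : ℝ) (m : ℤ) :
    ∑ j ∈ range (d + 1), ((if j = 1 then A else 0) + if j = 0 then B else 0) * (m : ℝ) ^ j =
      B + A * m := by
  obtain ⟨k, rfl⟩ : ∃ k, d = k + 1 := ⟨d - 1, by omega⟩
  rw [sum_range_succ', sum_range_succ', sum_eq_zero fun j _ => ?_]
  · simp; ring
  · have h1 : j + 1 + 1 ≠ 1 := by omega
    have h2 : j + 1 + 1 ≠ 0 := by omega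
    rw [if_neg h1, if_neg h2]; simp

section
variable {U : Type} [Amb U]

theorem add_inv {J : Subgroup U} {χ : U → ℝ} (hadd : ∀ x ∈ J, ∀ y ∈ J, χ (x * y) = χ x + χ y) :
    χ 1 = 0 ∧ ∀ x ∈ J, χ x⁻¹ = -χ x := by
  have h1 : χ 1 = 0 := by
    have := hadd 1 J.one_mem 1 J.one_mem
    rw [mul_one] at this
    linarith
  refine ⟨h1, fun x hx => ?_⟩
  have := hadd x hx x⁻¹ (J.inv_mem hx)
  rw [mul_inv_cancel, h1] at this
  linarith

theorem kp_inv {H H' : Subgroup U} {D : ℕ} {kp : U → Fin D → ℝ} {e : Fin D → U} {κ : ℕ}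
    (hc : Crd H H' kp e κ) : kp 1 = 0 ∧ ∀ x ∈ H, kp x⁻¹ = -kp x := by
  have h1 : kp 1 = 0 := by
    have := hc.mul 1 H.one_mem 1 H.one_mem
    rw [mul_one] at this
    simpa using this
  refine ⟨h1, fun x hx => ?_⟩
  have := hc.mul x hx x⁻¹ (H.inv_mem hx)
  rw [mul_inv_cancel, h1] at this
  exact eq_neg_of_add_eq_zero_right this.symm

theorem anti_le {Gf : ℕ → Subgroup U} {d : ℕ} (h : Filt Gf d) {i j : ℕ} (hij : i ≤ j) :
    Gf j ≤ Gf i := by
  induction j, hij using Nat.le_induction with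
  | base => exact le_rfl
  | succ j _ ih => exact (h.anti j).trans ih

/-- the sequence in the square is in the fibre product -/
theorem hs_mem {Gf : ℕ → Subgroup U} {D : ℕ} {kp : U → Fin D → ℝ} {e : Fin D → U} {κ : ℕ}
    (hc : Crd (Gf 0) (Gf 2) kp e κ) {g : ℤ → U} {a : Fin D → ℝ} (hs' : Slp (Gf 0) kp g a)
    (s : ℕ) (m : ℤ) :
    (hs e g a s m).1 ∈ Gf 0 ∧ (hs e g a s m).2 ∈ Gf 0 ∧
      (hs e g a s m).1 * ((hs e g a s m).2)⁻¹ ∈ Gf 2 := by
  have h1 : (tau e (fr s a))⁻¹ ∈ Gf 0 := (Gf 0).inv_mem (hc.tau _).1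
  have h2 : (tau e (fl s a))⁻¹ ∈ Gf 0 := (Gf 0).inv_mem (hc.tau _).1
  have h3 : (hs e g a s m).1 ∈ Gf 0 :=
    (Gf 0).mul_mem ((Gf 0).mul_mem h1 (hs'.1 _)) h2
  have h4 : (hs e g a s m).2 ∈ Gf 0 := hs'.1 m
  refine ⟨h3, h4, ?_⟩
  rw [← hc.ker _ ((Gf 0).mul_mem h3 ((Gf 0).inv_mem h4)), hc.mul _ h3 _ ((Gf 0).inv_mem h4),
    (kp_inv hc).2 _ h4]
  have h5 : (hs e g a s m).1 = (tau e (fr s a))⁻¹ * g (m + s) * (tau e (fl s a))⁻¹ := rfl
  have h6 : (hs e g a s m).2 = g m := rfl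
  rw [h5, h6, hc.mul _ ((Gf 0).mul_mem h1 (hs'.1 _)) _ h2, hc.mul _ h1 _ (hs'.1 _),
    (kp_inv hc).2 _ (hc.tau _).1, (kp_inv hc).2 _ (hc.tau _).1, (hc.tau _).2, (hc.tau _).2,
    hs'.2 (m + s), hs'.2 m]
  ext i
  simp only [Pi.add_apply, Pi.neg_apply, Pi.smul_apply, smul_eq_mul, Pi.zero_apply, fr, fl]
  have h7 := Int.fract_add_floor ((s : ℝ) * a i)
  push_cast
  linarith

end

end CASx

open CASx

/-- Row CAS. -/
theorem cas : CAS_stmt := by
  intro hbrk hunq hext _ hchf hdegz hqmp hqdg hhsf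
  intro U _ Gf d hd hfil D kp e κ hcrd θ hθ c E Q hc hc1 hE hQ
  classical
  have hG2 : Gf 2 ≤ Gf 0 := anti_le hfil (by omega)
  have hGd : Gf (d + 1) ≤ Gf 0 := anti_le hfil (by omega)
  have hGd2 : Gf (d + 1) ≤ Gf 2 := anti_le hfil (by omega)
  have hGdd : Gf (d + 1) ≤ Gf d := hfil.anti d
  have hnrm : Nrm (Gf 0) (Gf 2) := by
    intro x hx y hy
    have h1 := hfil.com 0 2 x hx y hy
    rw [zero_add] at h1
    have h2 := (Gf 2).mul_mem h1 hy
    simpa using h2
  have h0 : Gsq Gf d 0 = FP (Gf 0) (Gf 2) := by simp [Gsq]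
  rw [h0] at hθ
  have hlast : Gsq Gf d (d - 1 + 1) = FP (Gf d) (Gf (d + 1)) := by
    have h1 : d - 1 + 1 = d := by omega
    rw [h1, Gsq, if_neg (by omega), if_neg (by omega)]
  obtain ⟨η₁, η₂, hrep, hη₁, hη₂, hne⟩ := (hchf U (Gf 0) (Gf 2) (hfil.rat 0) (hfil.rat 2) hG2
    hnrm).1 (Gf (d + 1)) _ θ hθ (by
      intro m hm
      rw [hlast]
      refine ⟨Subgroup.subset_closure ⟨hGdd hm, one_mem _, ?_⟩,
        Subgroup.subset_closure ⟨hGdd hm, hGdd hm, ?_⟩⟩
      · simpa using hm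
      · simp) hGd2
  have hrep' : ∀ q : U × U, q.1 ∈ Gf 0 → q.2 ∈ Gf 0 → q.1 * q.2⁻¹ ∈ Gf 2 →
      θ q = η₁ q.2 + η₂ (q.1 * q.2⁻¹) :=
    fun q h1 h2 h3 => hrep q (Subgroup.subset_closure ⟨h1, h2, h3⟩)
  -- additivity of η₁
  have hη₁a : (∀ x ∈ Gf 0, ∀ y ∈ Gf 0, η₁ (x * y) = η₁ x + η₁ y) ∧
      ∀ x ∈ Gf (d + 1), η₁ x = 0 := by
    rcases hη₁ with h | h
    · refine ⟨fun x hx y hy => ?_, fun x hx => h x (hGd hx)⟩
      rw [h _ ((Gf 0).mul_mem hx hy), h _ hx, h _ hy, add_zero]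
    · exact ⟨h.mul, h.van⟩
  by_cases hz : ∀ x ∈ Gf 2, η₂ x = 0
  · -- case A
    have hch : Chr (Gf 0) (Gf 0) (Gf (d + 1)) η₁ := by
      rcases hη₁ with h | h
      · exfalso
        rcases hne with ⟨x, hx, hx'⟩ | ⟨x, hx, hx'⟩
        · exact hx' (h x hx)
        · exact hx' (hz x hx)
      · exact h
    refine ⟨1, fun _ => η₁, fun _ => 0, E, Q, 1, hE, hQ, fun _ => hch, ?_⟩
    intro L hL g a _ hslp hcount
    left
    refine ⟨0, ?_⟩
    have hLp : (0 : ℝ) < L := by exact_mod_cast hL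
    have h1 : ((range L).filter fun s : ℕ =>
        NrZ 1 (d - 1) E Q L fun m => θ (hs e g a s m)).Nonempty := by
      rw [← card_pos]
      have : (0 : ℝ) < #((range L).filter fun s : ℕ =>
        NrZ 1 (d - 1) E Q L fun m => θ (hs e g a s m)) := by
        refine lt_of_lt_of_le (by positivity : 0 < c * L) ?_
        convert hcount
      exact_mod_cast this
    obtain ⟨s, hs'⟩ := h1
    have h2 := nrz_ext (by omega : 1 ≤ d) hE (mem_filter.1 hs').2
    have h3 : (fun m => θ (hs e g a s m)) = fun m => η₁ (g m) := by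
      funext m
      obtain ⟨h4, h5, h6⟩ := hs_mem hcrd hslp s m
      rw [hrep' _ h4 h5 h6, hz _ h6, add_zero]
      rfl
    rw [h3] at h2
    exact h2
  -- case B
  push Not at hz
  have hch₂ : Chr (Gf 0) (Gf 2) (Gf (d + 1)) η₂ := by
    rcases hη₂ with h | h
    · exfalso
      obtain ⟨x, hx, hx'⟩ := hz
      exact hx' (h x hx)
    · exact h
  have hchz : ChZ (Gf 0) (Gf 2) (Gf (d + 1)) η₂ :=
    ⟨hch₂.mul, hch₂.inv, hch₂.int, hch₂.van, hch₂.cont⟩
  obtain ⟨⟨b, hb⟩, hqc, ⟨M, hM1, hM⟩, hq2, hqt⟩ := hqmp U Gf d hd hfil D kp e κ hcrd η₂ hchz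
  obtain ⟨C, q, L₀, hC1, hq1, hEXT⟩ := hext hbrk d D b c E Q hd hb.low hc hc1 hE hQ
  have hκ := hcrd.one_le
  -- the characters from relations
  let T : Finset (Fin D → ℤ) := (Fintype.piFinset fun _ => Icc (-(C : ℤ)) C).filter fun n => n ≠ 0
  let X : T → U → ℝ := fun n x => κ * dp n.1 (kp x)
  have hX : ∀ n : T, Chr (Gf 0) (Gf 0) (Gf (d + 1)) (X n) := by
    intro n
    have hadd : ∀ x ∈ Gf 0, ∀ y ∈ Gf 0, X n (x * y) = X n x + X n y := by
      intro x hx y hy
      show (κ : ℝ) * dp n.1 (kp (x * y)) = κ * dp n.1 (kp x) + κ * dp n.1 (kp y)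
      rw [hcrd.mul x hx y hy, dp_add]; ring
    refine ⟨hadd, fun g hg x hx => ?_, fun γ hγ hγ' => ?_, fun x hx => ?_, ?_, ?_⟩
    · rw [hadd _ ((Gf 0).mul_mem hg hx) _ ((Gf 0).inv_mem hg), hadd _ hg _ hx,
        (add_inv hadd).2 g hg]
      ring
    · have h1 := hcrd.int γ hγ hγ'
      choose j hj using h1
      refine ⟨∑ i, n.1 i * j i, ?_⟩
      show (κ : ℝ) * dp n.1 (kp γ) = _
      unfold dp
      rw [mul_sum]
      push_cast
      refine sum_congr rfl fun i _ => ?_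
      rw [← hj i]; ring
    · show (κ : ℝ) * dp n.1 (kp x) = 0
      rw [(hcrd.ker x (hGd hx)).2 (hGd2 hx)]
      unfold dp
      simp
    · refine ContinuousOn.mul continuousOn_const ?_
      unfold dp
      refine continuousOn_finsetSum _ fun i _ => ContinuousOn.mul continuousOn_const ?_
      exact (continuous_apply i).comp_continuousOn hcrd.cont
    · obtain ⟨i, hi⟩ : ∃ i, n.1 i ≠ 0 := by
        by_contra hcon
        push Not at hcon
        exact (mem_filter.1 n.2).2 (funext hcon)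
      refine ⟨e i, (hcrd.mem i).2, ?_⟩
      show (κ : ℝ) * dp n.1 (kp (e i)) ≠ 0
      rw [hcrd.pe i]
      unfold dp
      rw [sum_eq_single i (fun j _ hj => by rw [Pi.single_eq_of_ne hj, mul_zero])
        (fun h => absurd (mem_univ _) h), Pi.single_eq_same, mul_one]
      have h1 : (κ : ℝ) ≠ 0 := by
        have : (0 : ℝ) < κ := by exact_mod_cast hκ
        exact this.ne'
      exact mul_ne_zero h1 (by exact_mod_cast hi)
  set χ : U → ℝ := fun x => M * qm kp e η₂ x with hχ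
  have hMp : (0 : ℝ) < M := by exact_mod_cast hM1
  refine ⟨#T, fun i => X (T.equivFin.symm i), χ, q * κ * C + M * C, q, max L₀ 1, by positivity,
    hq1, fun i => hX _, ?_⟩
  intro L hL g a hg hslp hcount
  have hL0 : L₀ ≤ L := (le_max_left _ _).trans hL
  have hL1 : 1 ≤ L := (le_max_right _ _).trans hL
  have hLp : (0 : ℝ) < L := by exact_mod_cast hL1
  -- the polynomials
  obtain ⟨e₁, he₁⟩ := hdegz U Gf d (Gf 0) η₁ g hη₁a.1 (fun x hx => hη₁a.2 x hx.2) (by
    intro l n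
    refine ⟨?_, hg l n⟩
    have h1 := hg l n
    exact anti_le hfil (Nat.zero_le _) h1)
  obtain ⟨p, hp⟩ := hqdg U Gf d hd hfil D kp e κ hcrd η₂ hchz g a hg hslp
  have hkp : ∀ m : ℤ, kp (g m) = kp (g 0) + (m : ℝ) • a := hslp.2
  have hform : ∀ (s : ℕ), ∃ K₀ : ℝ, ∀ m : ℤ, θ (hs e g a s m) = pol d (fun j =>
      e₁ j + (sh d p s j - p j) + ((if j = 1 then -(s * bf b a a) + om b (fl s a) a else 0) +
        if j = 0 then K₀ else 0)) m := by
    intro s
    refine ⟨-(s * bf b a (kp (g 0))) + om b (fl s a) (kp (g 0)) - bf b (fr s a) (fl s a),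
      fun m => ?_⟩
    rw [hhsf U Gf d hd hfil D kp e κ hcrd θ η₁ η₂ hrep' b hb hq2 hqt g a hslp s m, he₁, hp, hp,
      pol_shift, hkp m, bf_right, om_right]
    have h1 := sum_two d (by omega : 1 ≤ d) (-(s * bf b a a) + om b (fl s a) a)
      (-(s * bf b a (kp (g 0))) + om b (fl s a) (kp (g 0)) - bf b (fr s a) (fl s a)) m
    unfold pol
    have h2 : ∑ j ∈ range (d + 1), (e₁ j + (sh d p s j - p j) +
        ((if j = 1 then -(s * bf b a a) + om b (fl s a) a else 0) +
        if j = 0 then (-(s * bf b a (kp (g 0))) + om b (fl s a) (kp (g 0)) -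
          bf b (fr s a) (fl s a)) else 0)) * (m : ℝ) ^ j =
        ∑ j ∈ range (d + 1), e₁ j * (m : ℝ) ^ j + (∑ j ∈ range (d + 1), sh d p s j * (m : ℝ) ^ j -
        ∑ j ∈ range (d + 1), p j * (m : ℝ) ^ j) +
        ∑ j ∈ range (d + 1), ((if j = 1 then -(s * bf b a a) + om b (fl s a) a else 0) +
        if j = 0 then (-(s * bf b a (kp (g 0))) + om b (fl s a) (kp (g 0)) -
          bf b (fr s a) (fl s a)) else 0) * (m : ℝ) ^ j := by
      rw [← sum_sub_distrib, ← sum_add_distrib, ← sum_add_distrib]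
      exact sum_congr rfl fun j _ => by ring
    rw [h2, h1]
    ring
  have hres := hEXT L hL0 a e₁ p (by
    refine le_trans hcount ?_
    have hsub : ((range L).filter fun s : ℕ =>
        NrZ 1 (d - 1) E Q L fun m => θ (hs e g a s m)) ⊆
        ((range L).filter fun s : ℕ =>
      nd ((Q : ℝ) * (e₁ 1 + ∑ i ∈ Icc 2 d, (i : ℝ) * p i * (s : ℝ) ^ (i - 1) - s * bf b a a +
        om b (fl s a) a)) ≤ E / L ∧
      (3 ≤ d → nd ((Q : ℝ) * (e₁ 2 + ∑ i ∈ Icc 3 d, (i.choose 2 : ℝ) * p i * (s : ℝ) ^ (i - 2)))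
        ≤ E / (L : ℝ) ^ 2)) := by
      intro s hs'
      rw [mem_filter] at hs' ⊢
      refine ⟨hs'.1, ?_⟩
      obtain ⟨c', h1, h2⟩ := hs'.2
      obtain ⟨K₀, hK⟩ := hform s
      have h3 : ∀ j ≤ d, (if j ≤ d - 1 then c' j else 0) = e₁ j + (sh d p s j - p j) +
          ((if j = 1 then -(s * bf b a a) + om b (fl s a) a else 0) + if j = 0 then K₀ else 0) :=
        hunq d (fun j => if j ≤ d - 1 then c' j else 0) (fun j => e₁ j + (sh d p s j - p j) +
          ((if j = 1 then -(s * bf b a a) + om b (fl s a) a else 0) + if j = 0 then K₀ else 0))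
          fun m => (pol_ext d (by omega) c' m).symm.trans ((h1 m).symm.trans (hK m))
      constructor
      · have h4 := h3 1 (by omega)
        simp only [if_pos (show 1 ≤ d - 1 by omega), if_true, one_ne_zero, if_false] at h4
        rw [sh_sub d p s 1 (by omega)] at h4
        have h5 := h2 1 le_rfl (by omega)
        rw [h4, pow_one] at h5
        convert h5 using 2
        simp only [Nat.choose_one_right]
        ring
      · intro hd3
        have h4 := h3 2 (by omega)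
        simp only [if_pos (show 2 ≤ d - 1 by omega), show (2 : ℕ) ≠ 1 by omega,
          show (2 : ℕ) ≠ 0 by omega, if_false] at h4
        rw [sh_sub d p s 2 (by omega)] at h4
        have h5 := h2 2 (by omega) (by omega)
        rw [h4] at h5
        convert h5 using 2
        ring
    have h6 := card_le_card hsub
    convert (Nat.cast_le (α := ℝ)).2 h6)
  rcases hres with ⟨n, hn0, hnC, hnd⟩ | ⟨hb0, hpj⟩
  · -- a relation
    left
    have hnT : n ∈ T := by
      refine mem_filter.2 ⟨Fintype.mem_piFinset.2 fun i => ?_, hn0⟩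
      have := abs_le.1 (hnC i)
      exact mem_Icc.2 this
    refine ⟨T.equivFin ⟨n, hnT⟩, ?_⟩
    simp only [Equiv.symm_apply_apply]
    refine ⟨fun j => if j = 0 then κ * dp n (kp (g 0)) else if j = 1 then κ * dp n a else 0,
      fun m => ?_, fun j hj1 hj2 => ?_⟩
    · show (κ : ℝ) * dp n (kp (g m)) = _
      rw [hkp m, dp_add, dp_smul]
      have h1 := sum_two d (by omega : 1 ≤ d) (κ * dp n a) (κ * dp n (kp (g 0))) m
      unfold pol
      have h2 : ∀ j ∈ range (d + 1), (if j = 0 then κ * dp n (kp (g 0)) else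
          if j = 1 then κ * dp n a else 0) * (m : ℝ) ^ j =
          ((if j = 1 then κ * dp n a else 0) + if j = 0 then κ * dp n (kp (g 0)) else 0) *
            (m : ℝ) ^ j := by
        intro j _
        rcases Nat.eq_zero_or_pos j with h | h
        · subst h; simp
        · rw [if_neg (by omega : ¬ j = 0), if_neg (by omega : ¬ j = 0), add_zero]
      rw [sum_congr rfl h2, h1]
      ring
    · show nd ((q : ℝ) * (if j = 0 then κ * dp n (kp (g 0)) else
        if j = 1 then κ * dp n a else 0)) ≤ _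
      rw [if_neg (by omega : ¬ j = 0)]
      split_ifs with h
      · subst h
        have h1 : (q : ℝ) * (κ * dp n a) = ((q * κ : ℕ) : ℝ) * dp n a := by push_cast; ring
        rw [h1, pow_one]
        refine (nd_nat_mul_le (q * κ) _).trans ?_
        push_cast
        calc (q : ℝ) * κ * nd (dp n a) ≤ q * κ * (C / L) := by gcongr
          _ = q * κ * C / L := by ring
          _ ≤ _ := by
              gcongr
              have : (0 : ℝ) ≤ M * C := by positivity
              linarith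
      · rw [mul_zero]
        have : nd 0 = 0 := by simp [nd]
        rw [this]
        positivity
  · -- the quadratic map is additive
    right
    have hadd : ∀ x ∈ Gf 0, ∀ y ∈ Gf 0, χ (x * y) = χ x + χ y := by
      intro x hx y hy
      show (M : ℝ) * qm kp e η₂ (x * y) = M * qm kp e η₂ x + M * qm kp e η₂ y
      rw [hb.mul x hx y hy, bf_zero b hb0]; ring
    have hne2 : ∃ x ∈ Gf 2, χ x ≠ 0 := by
      obtain ⟨x, hx, hx'⟩ := hz
      refine ⟨x, hx, ?_⟩
      show (M : ℝ) * qm kp e η₂ x ≠ 0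
      rw [hq2 x hx]
      exact mul_ne_zero hMp.ne' hx'
    refine ⟨⟨hadd, fun g hg x hx => ?_, fun γ hγ hγ' => ?_, fun x hx => ?_, ?_, ?_⟩, hne2, ?_⟩
    · rw [hadd _ ((Gf 0).mul_mem hg hx) _ ((Gf 0).inv_mem hg), hadd _ hg _ hx,
        (add_inv hadd).2 g hg]
      ring
    · exact hM γ hγ hγ'
    · show (M : ℝ) * qm kp e η₂ x = 0
      rw [hq2 x (hGd2 hx), hch₂.van x hx, mul_zero]
    · exact ContinuousOn.mul continuousOn_const hqc
    · obtain ⟨x, hx, hx'⟩ := hne2
      exact ⟨x, hG2 hx, hx'⟩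
    · refine ⟨fun j => M * p j, fun m => ?_, fun j hj1 hj2 => ?_⟩
      · show (M : ℝ) * qm kp e η₂ (g m) = _
        rw [hp]
        unfold pol
        rw [mul_sum]
        exact sum_congr rfl fun j _ => by ring
      · show nd ((q : ℝ) * (M * p j)) ≤ _
        have h1 : (q : ℝ) * (M * p j) = (M : ℝ) * ((q : ℝ) * p j) := by ring
        rw [h1]
        refine (nd_nat_mul_le M _).trans ?_
        have h2 := hpj j hj1 hj2
        have hLj : (0 : ℝ) < (L : ℝ) ^ j := by positivity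
        calc (M : ℝ) * nd ((q : ℝ) * p j) ≤ M * (C / (L : ℝ) ^ j) := by gcongr
          _ = M * C / (L : ℝ) ^ j := by ring
          _ ≤ _ := by
              gcongr
              have : (0 : ℝ) ≤ q * κ * C := by positivity
              linarith

end

end Pool.Agent.NG
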