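import Pool.Agent.Lib.NG.ARows
import Pool.Agent.Lib.NG.FIBA

/-!
# NVG2 (MP_663568_nt), part A, row CHF: characters of fibre products (helper66)
-/

set_option autoImplicit false
open Finset Topology

namespace Pool.Agent.NG

noncomputable section

open Amb

namespace CHFx

variable {U V : Type} [Amb U] [Amb V]

/-- The restriction of a character along a homomorphism-like map. -/
lemma restr {P M' : Subgroup V} {θ : V → ℝ} (hθ : Chr P P M' θ) {G J M : Subgroup U} (φ : U → V)
    (hφc : Continuous φ) (hφ : ∀ x ∈ J, φ x ∈ P) (hmul : ∀ x ∈ J, ∀ y ∈ J, φ (x * y) = φ x * φ y)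
    (hla : ∀ γ ∈ (La : Subgroup U), φ γ ∈ (La : Subgroup V)) (hM : ∀ m ∈ M, φ m ∈ M')
    (hinv : ∀ g ∈ G, ∀ x ∈ J, θ (φ (g * x * g⁻¹)) = θ (φ x)) :
    (∀ x ∈ J, θ (φ x) = 0) ∨ Chr G J M fun x => θ (φ x) := by
  by_cases h : ∀ x ∈ J, θ (φ x) = 0
  · exact Or.inl h
  · right
    push Not at h
    refine ⟨?_, hinv, ?_, ?_, ?_, h⟩
    · intro x hx y hy
      show θ (φ (x * y)) = θ (φ x) + θ (φ y)
      rw [hmul x hx y hy, hθ.mul _ (hφ x hx) _ (hφ y hy)]
    · intro γ hγ hγJ
      exact hθ.int _ (hla γ hγ) (hφ γ hγJ)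
    · intro m hm
      exact hθ.van _ (hM m hm)
    · exact hθ.cont.comp hφc.continuousOn fun x hx => hφ x hx

end CHFx

open CHFx in
/-- **Row CHF.** -/
theorem chf : CHF_stmt := by
  intro U _ G J hG hJ hJG hN
  have m2 := mem_FP (G := G) (J := J) hN
  have m3 := mem_FP3 (G := G) (J := J) hJG hN
  constructor
  · intro M M' θ hθ hM hMJ
    have d1 : ∀ y ∈ G, (y, y) ∈ FP G J := by
      intro y hy
      rw [m2]
      refine ⟨hy, hy, ?_⟩
      show y * y⁻¹ ∈ J
      rw [mul_inv_cancel]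
      exact J.one_mem
    have d2 : ∀ j ∈ J, (j, (1 : U)) ∈ FP G J := by
      intro j hj
      rw [m2]
      refine ⟨hJG hj, G.one_mem, ?_⟩
      show j * (1 : U)⁻¹ ∈ J
      rw [inv_one, mul_one]
      exact hj
    have e1 : ∀ q ∈ FP G J, θ q = θ (q.2, q.2) + θ (q.1 * q.2⁻¹, 1) := by
      intro q hq
      have hq' := (m2 q).1 hq
      have h1 : q = (q.1 * q.2⁻¹, 1) * (q.2, q.2) := by
        refine Prod.ext ?_ ?_
        · show q.1 = q.1 * q.2⁻¹ * q.2
          group
        · show q.2 = 1 * q.2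
          rw [one_mul]
      have h2 := hθ.mul _ (d2 _ hq'.2.2) _ (d1 _ hq'.2.1)
      rw [← h1] at h2
      rw [h2]
      ring
    have r1 := restr (G := G) (J := G) (M := M) hθ (fun y : U => (y, y))
      (continuous_id.prodMk continuous_id) d1 (fun x _ y _ => rfl) (fun γ hγ => ⟨hγ, hγ⟩)
      (fun m hm => (hM m hm).2) (fun g hg x hx => hθ.inv (g, g) (d1 g hg) (x, x) (d1 x hx))
    have r2 := restr (G := G) (J := J) (M := M) hθ (fun y : U => (y, (1 : U)))
      (continuous_id.prodMk continuous_const) d2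
      (fun x _ y _ => Prod.ext rfl (mul_one (1 : U)).symm)
      (fun γ hγ => ⟨hγ, Subgroup.one_mem _⟩)
      (fun m hm => (hM m hm).1) (fun g hg x hx => by
        have h1 := hθ.inv (g, g) (d1 g hg) (x, 1) (d2 x hx)
        have h2 : (g, g) * (x, (1 : U)) * (g, g)⁻¹ = (g * x * g⁻¹, 1) := by
          refine Prod.ext rfl ?_
          show g * 1 * g⁻¹ = 1
          group
        rwa [h2] at h1)
    refine ⟨fun y => θ (y, y), fun j => θ (j, 1), e1, r1, r2, ?_⟩
    by_contra hcon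
    push Not at hcon
    obtain ⟨q, hq, hne⟩ := hθ.ne
    have hq' := (m2 q).1 hq
    apply hne
    rw [e1 q hq, hcon.1 _ hq'.2.1, hcon.2 _ hq'.2.2, add_zero]
  · intro M M' θ hθ hM hMJ
    have d1 : ∀ y ∈ G, (y, y, y) ∈ FP3 G J := by
      intro y hy
      rw [m3]
      refine ⟨hy, ?_, ?_⟩
      · show y * y⁻¹ ∈ J
        rw [mul_inv_cancel]
        exact J.one_mem
      · show y * y⁻¹ ∈ J
        rw [mul_inv_cancel]
        exact J.one_mem
    have d2 : ∀ j ∈ J, ((1 : U), j, (1 : U)) ∈ FP3 G J := by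
      intro j hj
      rw [m3]
      refine ⟨G.one_mem, ?_, ?_⟩
      · show j * (1 : U)⁻¹ ∈ J
        rw [inv_one, mul_one]
        exact hj
      · show (1 : U) * (1 : U)⁻¹ ∈ J
        rw [inv_one, mul_one]
        exact J.one_mem
    have d3 : ∀ j ∈ J, ((1 : U), (1 : U), j) ∈ FP3 G J := by
      intro j hj
      rw [m3]
      refine ⟨G.one_mem, ?_, ?_⟩
      · show (1 : U) * (1 : U)⁻¹ ∈ J
        rw [inv_one, mul_one]
        exact J.one_mem
      · show j * (1 : U)⁻¹ ∈ J
        rw [inv_one, mul_one]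
        exact hj
    have e1 : ∀ q ∈ FP3 G J, θ q = θ (q.1, q.1, q.1) + θ (1, q.2.1 * q.1⁻¹, 1) +
        θ (1, 1, q.2.2 * q.1⁻¹) := by
      intro q hq
      have hq' := (m3 q).1 hq
      have h1 : q = ((1 : U), q.2.1 * q.1⁻¹, (1 : U)) * (((1 : U), (1 : U), q.2.2 * q.1⁻¹) *
          (q.1, q.1, q.1)) := by
        refine Prod.ext ?_ (Prod.ext ?_ ?_)
        · show q.1 = 1 * (1 * q.1)
          group
        · show q.2.1 = q.2.1 * q.1⁻¹ * (1 * q.1)
          group
        · show q.2.2 = 1 * (q.2.2 * q.1⁻¹ * q.1)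
          group
      have h2 := hθ.mul _ (d2 _ hq'.2.1) _
        (Subgroup.mul_mem _ (d3 _ hq'.2.2) (d1 _ hq'.1))
      rw [← h1, hθ.mul _ (d3 _ hq'.2.2) _ (d1 _ hq'.1)] at h2
      rw [h2]
      ring
    have r1 := restr (G := G) (J := G) (M := M) hθ (fun y : U => (y, y, y))
      (continuous_id.prodMk (continuous_id.prodMk continuous_id)) d1 (fun x _ y _ => rfl)
      (fun γ hγ => ⟨hγ, hγ, hγ⟩)
      (fun m hm => (hM m hm).1)
      (fun g hg x hx => hθ.inv (g, g, g) (d1 g hg) (x, x, x) (d1 x hx))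
    have r2 := restr (G := G) (J := J) (M := M) hθ (fun y : U => ((1 : U), y, (1 : U)))
      (continuous_const.prodMk (continuous_id.prodMk continuous_const)) d2
      (fun x _ y _ => Prod.ext (mul_one (1 : U)).symm (Prod.ext rfl (mul_one (1 : U)).symm))
      (fun γ hγ => ⟨Subgroup.one_mem _, hγ, Subgroup.one_mem _⟩)
      (fun m hm => (hM m hm).2.1) (fun g hg x hx => by
        have h1 := hθ.inv (g, g, g) (d1 g hg) (1, x, 1) (d2 x hx)
        have h2 : (g, g, g) * ((1 : U), x, (1 : U)) * (g, g, g)⁻¹ = (1, g * x * g⁻¹, 1) := by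
          refine Prod.ext ?_ (Prod.ext rfl ?_)
          · show g * 1 * g⁻¹ = 1
            group
          · show g * 1 * g⁻¹ = 1
            group
        rwa [h2] at h1)
    have r3 := restr (G := G) (J := J) (M := M) hθ (fun y : U => ((1 : U), (1 : U), y))
      (continuous_const.prodMk (continuous_const.prodMk continuous_id)) d3
      (fun x _ y _ => Prod.ext (mul_one (1 : U)).symm (Prod.ext (mul_one (1 : U)).symm rfl))
      (fun γ hγ => ⟨Subgroup.one_mem _, Subgroup.one_mem _, hγ⟩)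
      (fun m hm => (hM m hm).2.2) (fun g hg x hx => by
        have h1 := hθ.inv (g, g, g) (d1 g hg) (1, 1, x) (d3 x hx)
        have h2 : (g, g, g) * ((1 : U), (1 : U), x) * (g, g, g)⁻¹ = (1, 1, g * x * g⁻¹) := by
          refine Prod.ext ?_ (Prod.ext ?_ rfl)
          · show g * 1 * g⁻¹ = 1
            group
          · show g * 1 * g⁻¹ = 1
            group
        rwa [h2] at h1)
    refine ⟨fun y => θ (y, y, y), fun j => θ (1, j, 1), fun j => θ (1, 1, j), e1, r1, r2, r3, ?_⟩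
    by_contra hcon
    push Not at hcon
    obtain ⟨q, hq, hne⟩ := hθ.ne
    have hq' := (m3 q).1 hq
    apply hne
    rw [e1 q hq, hcon.1 _ hq'.1, hcon.2.1 _ hq'.2.1, hcon.2.2 _ hq'.2.2, add_zero, add_zero]

end

end Pool.Agent.NG
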