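import Pool.Agent.Lib.NG.PWB

/-!
# NVG2 (MP_663568_nt), row CHS: see `Pool.Agent.NG.chs` in `Lib/NG/PWB.lean`.
-/
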