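import Mathlib
import Pool.Agent.Lib.NG.B

/-!
# NVG2 (MP_663568_nt), row DEGZ: additive functions along polynomial sequences on `ℤ`  (helper40)
-/

set_option autoImplicit false
open Finset Topology

namespace Pool.Agent.NG

noncomputable section

open Amb Pool.Agent.Lib.MP_663568_nt Pool.Agent.Lib.MP_663568_nt.Katai
  Pool.Agent.Lib.MP_663568_nt.Nul Pool.Agent.SV Pool.Agent.VQ Pool.Agent.NV

namespace DEGZaux

/-- Arrays of coefficients in one variable. -/
theorem mev_one {d : ℕ} (c : (Fin 1 → Fin (d + 1)) → ℝ) (x : Fin 1 → ℝ) :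
    mev c x = ∑ j : Fin (d + 1), c (fun _ => j) * x 0 ^ (j : ℕ) := by
  rw [mev]
  rw [← (Equiv.funUnique (Fin 1) (Fin (d + 1))).symm.sum_comp]
  apply Finset.sum_congr rfl
  intro j _
  simp
  left
  rfl

end DEGZaux

open DEGZaux

theorem degz : DEGZ_stmt := by
  intro hD hL U _ Gf D J χ n hmul hzero hPS
  have h1 : PS (fun i => J ⊓ Gf i) 0 fun x : Fin 1 → ℤ => n (x 0) := by
    have h := (hL U ℤ (fun i => J ⊓ Gf i) 0 n).1 (Fin 1 → ℤ)
      (Pi.evalAddMonoidHom (fun _ : Fin 1 => ℤ) 0) 0 hPS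
    simpa using h
  obtain ⟨c, hc, -⟩ := hD U Gf D D 1 J χ (fun x : Fin 1 → ℤ => n (x 0)) le_rfl hmul hzero h1
  refine ⟨fun j => if h : j < D + 1 then c (fun _ => ⟨j, h⟩) else 0, ?_⟩
  intro m
  have h2 := hc fun _ => m
  rw [mev_one] at h2
  rw [h2, pol, Finset.sum_range]
  apply Finset.sum_congr rfl
  intro j _
  rw [dif_pos j.2]

end

end Pool.Agent.NG
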