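import Mathlib
import Pool.Agent.Lib.NG.B

/-!
# Row UNQ (MP_663568_nt, NVG2): the coefficients of a polynomial on `ℤ` are unique.  (helper91)
-/

set_option autoImplicit false
open Finset

namespace Pool.Agent.NG

namespace UNQx

/-- The polynomial with the coefficients `c`. -/
noncomputable def pl (d : ℕ) (c : ℕ → ℝ) : Polynomial ℝ :=
  ∑ j ∈ range (d + 1), Polynomial.C (c j) * Polynomial.X ^ j

theorem pl_eval (d : ℕ) (c : ℕ → ℝ) (x : ℝ) :
    (pl d c).eval x = ∑ j ∈ range (d + 1), c j * x ^ j := by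
  unfold pl
  rw [Polynomial.eval_finsetSum]
  simp

theorem pl_int (d : ℕ) (c : ℕ → ℝ) (m : ℤ) : (pl d c).eval (m : ℝ) = pol d c m := pl_eval d c m

theorem pl_coeff (d : ℕ) (c : ℕ → ℝ) (j : ℕ) (hj : j ≤ d) : (pl d c).coeff j = c j := by
  unfold pl
  rw [Polynomial.finsetSum_coeff]
  simp only [Polynomial.coeff_C_mul, Polynomial.coeff_X_pow]
  rw [sum_eq_single j]
  · simp
  · intro b _ hb
    rw [if_neg (Ne.symm hb), mul_zero]
  · intro h
    exact absurd (mem_range.2 (by omega)) h

/-- Two polynomials which agree on the progression `a + q ℤ`. -/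
theorem eq_of_prog (P P' : Polynomial ℝ) (a q : ℝ) (hq : q ≠ 0)
    (h : ∀ m : ℤ, P.eval (a + q * m) = P'.eval (a + q * m)) : P = P' := by
  apply Polynomial.eq_of_infinite_eval_eq
  have hinj : Function.Injective fun m : ℤ => a + q * (m : ℝ) := by
    intro m m' hm
    have h1 : q * (m : ℝ) = q * m' := add_left_cancel hm
    exact_mod_cast mul_left_cancel₀ hq h1
  refine (Set.infinite_range_of_injective hinj).mono ?_
  rintro x ⟨m, rfl⟩
  exact h m

end UNQx

theorem unq : UNQ_stmt := by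
  intro d c c' h j hj
  have h1 : UNQx.pl d c = UNQx.pl d c' := by
    apply UNQx.eq_of_prog _ _ 0 1 one_ne_zero
    intro m
    rw [zero_add, one_mul, UNQx.pl_int, UNQx.pl_int, h m]
  rw [← UNQx.pl_coeff d c j hj, ← UNQx.pl_coeff d c' j hj, h1]

end Pool.Agent.NG
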