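import Mathlib
import Pool.Agent.Lib.NG.UNQ

/-!
# Row PRG (MP_663568_nt, NVG2): from a progression to all integers.  (helper91)
-/

set_option autoImplicit false
open Finset

namespace Pool.Agent.NG

open Pool.Agent.Lib.MP_663568_nt Pool.Agent.Lib.MP_663568_nt.Katai
  Pool.Agent.Lib.MP_663568_nt.Nul

namespace PRGx

/-- The distance of a sum. -/
theorem nd_sum {ι : Type} (s : Finset ι) (f : ι → ℝ) : nd (∑ i ∈ s, f i) ≤ ∑ i ∈ s, nd (f i) := by
  classical
  induction s using Finset.induction_on with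
  | empty => simp [show nd 0 = 0 by simpa using nd_int 0]
  | insert a s ha ih =>
    rw [sum_insert ha, sum_insert ha]
    exact (nd_add_le _ _).trans (by linarith)

/-- The coefficients of `c` from those of the polynomial on the progression. -/
theorem coef (d : ℕ) (q i₀ : ℕ) (hq : 1 ≤ q) (c c' : ℕ → ℝ)
    (h : ∀ m : ℤ, pol d c (i₀ + q * m) = pol d c' m) (i : ℕ) (hi : i ≤ d) :
    (q : ℝ) ^ d * c i = ∑ j ∈ range (d + 1),
      c' j * (q : ℝ) ^ (d - j) * ((-(i₀ : ℝ)) ^ (j - i) * (j.choose i : ℝ)) := by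
  have hq0 : (q : ℝ) ≠ 0 := by
    have : (0 : ℝ) < q := by exact_mod_cast hq
    exact this.ne'
  set R : Polynomial ℝ := ∑ j ∈ range (d + 1),
    Polynomial.C (c' j * (q : ℝ) ^ (d - j)) * (Polynomial.X + Polynomial.C (-(i₀ : ℝ))) ^ j with hR
  have h1 : Polynomial.C ((q : ℝ) ^ d) * UNQx.pl d c = R := by
    apply UNQx.eq_of_prog _ _ (i₀ : ℝ) (q : ℝ) hq0
    intro m
    have h2 := h m
    have h3 : (UNQx.pl d c).eval ((i₀ : ℝ) + q * m) = pol d c' m := by
      have h4 := UNQx.pl_int d c (i₀ + q * m)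
      rw [h2] at h4
      rw [← h4]
      congr 1
      push_cast
      ring
    rw [Polynomial.eval_mul, Polynomial.eval_C, h3, hR, Polynomial.eval_finsetSum]
    unfold pol
    rw [mul_sum]
    refine sum_congr rfl fun j hj => ?_
    rw [mem_range] at hj
    simp only [Polynomial.eval_mul, Polynomial.eval_C, Polynomial.eval_pow, Polynomial.eval_add,
      Polynomial.eval_X]
    have h5 : (i₀ : ℝ) + q * m + -(i₀ : ℝ) = q * m := by ring
    rw [h5, mul_pow]
    have h6 : (q : ℝ) ^ d = (q : ℝ) ^ (d - j) * (q : ℝ) ^ j := by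
      rw [← pow_add]; congr 1; omega
    rw [h6]
    ring
  have h2 := congrArg (fun P => Polynomial.coeff P i) h1
  simp only [Polynomial.coeff_C_mul, UNQx.pl_coeff d c i hi] at h2
  rw [h2, hR, Polynomial.finsetSum_coeff]
  refine sum_congr rfl fun j _ => ?_
  rw [Polynomial.coeff_C_mul, Polynomial.coeff_X_add_C_pow]

end PRGx

theorem prg : PRG_stmt := by
  intro d η E q Q hη hη1 hE hq hQ
  have hqr : (1 : ℝ) ≤ q := by exact_mod_cast hq
  set E' : ℝ := (d + 1) * ((q : ℝ) ^ d * 2 ^ d * (E / η ^ d)) with hE'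
  refine ⟨E', Q * q ^ d, by positivity, Nat.mul_pos hQ (by positivity), ?_⟩
  intro L L' i₀ c hL hL' hi hN
  obtain ⟨c', hc', hnd⟩ := hN
  refine ⟨c, fun m => rfl, fun i hi1 hid => ?_⟩
  have hLr : (1 : ℝ) ≤ L := by exact_mod_cast hL
  have hL0 : (0 : ℝ) < L := by linarith
  have hηL : 0 < η * L := by positivity
  have hco := PRGx.coef d q i₀ hq c c' hc' i hid
  have hkey : ((Q * q ^ d : ℕ) : ℝ) * c i = ∑ j ∈ range (d + 1),
      (((q : ℤ) ^ (d - j) * (-(i₀ : ℤ)) ^ (j - i) * (j.choose i : ℤ) : ℤ) : ℝ) *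
        ((Q : ℝ) * c' j) := by
    push_cast
    rw [mul_assoc, hco, mul_sum]
    refine sum_congr rfl fun j _ => ?_
    ring
  rw [hkey]
  refine (PRGx.nd_sum _ _).trans ?_
  have hterm : ∀ j ∈ range (d + 1), nd
      ((((q : ℤ) ^ (d - j) * (-(i₀ : ℤ)) ^ (j - i) * (j.choose i : ℤ) : ℤ) : ℝ) *
        ((Q : ℝ) * c' j)) ≤ ((q : ℝ) ^ d * 2 ^ d * (E / η ^ d)) / (L : ℝ) ^ i := by
    intro j hj
    rw [mem_range] at hj
    by_cases hji : j < i
    · rw [Nat.choose_eq_zero_of_lt hji]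
      simp only [Nat.cast_zero, mul_zero, Int.cast_zero, zero_mul]
      have h0 : nd 0 = 0 := by simpa using nd_int 0
      rw [h0]
      positivity
    · push Not at hji
      have hj1 : 1 ≤ j := hi1.trans hji
      refine (nd_int_mul_le _ _).trans ?_
      have h1 := hnd j hj1 (by omega)
      have h2 : nd ((Q : ℝ) * c' j) ≤ E / (η * L) ^ j := by
        refine h1.trans ?_
        apply div_le_div_of_nonneg_left hE (by positivity)
        exact pow_le_pow_left₀ hηL.le hL' j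
      have h3 : |(((q : ℤ) ^ (d - j) * (-(i₀ : ℤ)) ^ (j - i) * (j.choose i : ℤ) : ℤ) : ℝ)| ≤
          (q : ℝ) ^ d * (L : ℝ) ^ (j - i) * 2 ^ d := by
        push_cast
        rw [abs_mul, abs_mul, abs_pow, abs_pow, abs_neg, Nat.abs_cast, Nat.abs_cast, Nat.abs_cast]
        have e1 : (q : ℝ) ^ (d - j) ≤ (q : ℝ) ^ d := pow_le_pow_right₀ hqr (Nat.sub_le _ _)
        have e2 : (i₀ : ℝ) ^ (j - i) ≤ (L : ℝ) ^ (j - i) :=
          pow_le_pow_left₀ (Nat.cast_nonneg _) (by exact_mod_cast hi) _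
        have e3 : (j.choose i : ℝ) ≤ 2 ^ d := by
          have : j.choose i ≤ 2 ^ d :=
            (Nat.choose_le_two_pow j i).trans (Nat.pow_le_pow_right (by norm_num) (by omega))
          exact_mod_cast this
        gcongr
      calc |(((q : ℤ) ^ (d - j) * (-(i₀ : ℤ)) ^ (j - i) * (j.choose i : ℤ) : ℤ) : ℝ)| *
            nd ((Q : ℝ) * c' j)
          ≤ ((q : ℝ) ^ d * (L : ℝ) ^ (j - i) * 2 ^ d) * (E / (η * L) ^ j) :=
            mul_le_mul h3 h2 (nd_nonneg _) (by positivity)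
        _ = ((q : ℝ) ^ d * 2 ^ d * (E / η ^ j)) / (L : ℝ) ^ i := by
            have h4 : (L : ℝ) ^ j = (L : ℝ) ^ (j - i) * (L : ℝ) ^ i := by
              rw [← pow_add]; congr 1; omega
            rw [mul_pow, h4]
            field_simp
        _ ≤ ((q : ℝ) ^ d * 2 ^ d * (E / η ^ d)) / (L : ℝ) ^ i := by
            have h5 : η ^ d ≤ η ^ j := pow_le_pow_of_le_one hη.le hη1 (by omega)
            have h6 : E / η ^ j ≤ E / η ^ d := div_le_div_of_nonneg_left hE (by positivity) h5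
            gcongr
  refine (sum_le_sum hterm).trans (le_of_eq ?_)
  rw [sum_const, card_range, nsmul_eq_mul, hE']
  push_cast
  ring

end Pool.Agent.NG
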