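import Mathlib
import Pool.Agent.Lib.NG.PRG
import Pool.Agent.Lib.NG.Box1
import Pool.Agent.Lib.NV.PBRK

/-!
# Row EXT (MP_663568_nt, NVG2): the conclusion from the coefficients of `m` and `m ^ 2`.  (helper91)
-/

set_option autoImplicit false
open Finset

namespace Pool.Agent.NG

open Pool.Agent.Lib.MP_663568_nt Pool.Agent.Lib.MP_663568_nt.Katai
  Pool.Agent.Lib.MP_663568_nt.Nul Pool.Agent.VQ Pool.Agent.NV

namespace EXTx

open Classical in
/-- The coefficients of degree at least three. -/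
theorem step1 (d Q : ℕ) (c E : ℝ) (hc : 0 < c) (hc1 : c ≤ 1) (hE : 0 ≤ E) :
    ∃ (A L₁ : ℕ) (E₁ : ℝ), 1 ≤ A ∧ 1 ≤ L₁ ∧ 0 ≤ E₁ ∧ ∀ L : ℕ, L₁ ≤ L → ∀ e₁ p : ℕ → ℝ,
    c * L ≤ (#((range L).filter fun s : ℕ => (3 ≤ d → nd ((Q : ℝ) * (e₁ 2 +
      ∑ i ∈ Icc 3 d, (i.choose 2 : ℝ) * p i * (s : ℝ) ^ (i - 2))) ≤ E / (L : ℝ) ^ 2)) : ℝ) →
    ∀ i, 3 ≤ i → i ≤ d → nd (((A * Q : ℕ) : ℝ) * p i) ≤ E₁ / (L : ℝ) ^ i := by
  by_cases hd : 3 ≤ d
  · obtain ⟨q, B, hq, hB, hrec⟩ := rec0 (d - 2) c hc hc1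
    refine ⟨q * d.factorial, B + ⌈E * B⌉₊ + 1, d.factorial * (B * E),
      Nat.mul_pos hq (Nat.factorial_pos d), by omega, by positivity, ?_⟩
    intro L hL e₁ p hcount i hi3 hid
    have hL1 : 1 ≤ L := by omega
    have hLr : (1 : ℝ) ≤ L := by exact_mod_cast hL1
    have hL0 : (0 : ℝ) < L := by linarith
    have hBr : (1 : ℝ) ≤ B := by exact_mod_cast hB
    have hB0 : (0 : ℝ) < B := by linarith
    set P : Polynomial ℝ := Polynomial.C ((Q : ℝ) * e₁ 2) +
      ∑ i ∈ Icc 3 d, Polynomial.C ((Q : ℝ) * ((i.choose 2 : ℝ) * p i)) * Polynomial.X ^ (i - 2)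
      with hP
    have hPdeg : P.natDegree ≤ d - 2 := by
      rw [hP]
      refine (Polynomial.natDegree_add_le _ _).trans (max_le ?_ ?_)
      · rw [Polynomial.natDegree_C]; exact Nat.zero_le _
      · refine Polynomial.natDegree_sum_le_of_forall_le _ _ fun j hj => ?_
        rw [mem_Icc] at hj
        exact (Polynomial.natDegree_C_mul_X_pow_le _ _).trans (by omega)
    have hPe : ∀ s : ℕ, P.eval (s : ℝ) = (Q : ℝ) * (e₁ 2 +
        ∑ i ∈ Icc 3 d, (i.choose 2 : ℝ) * p i * (s : ℝ) ^ (i - 2)) := by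
      intro s
      rw [hP, Polynomial.eval_add, Polynomial.eval_C, Polynomial.eval_finsetSum, mul_add, mul_sum]
      congr 1
      refine sum_congr rfl fun j _ => ?_
      rw [Polynomial.eval_mul, Polynomial.eval_C, Polynomial.eval_pow, Polynomial.eval_X]
      ring
    have hPc : P.coeff (i - 2) = (Q : ℝ) * ((i.choose 2 : ℝ) * p i) := by
      rw [hP, Polynomial.coeff_add, Polynomial.coeff_C, if_neg (by omega), zero_add,
        Polynomial.finsetSum_coeff, sum_eq_single i]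
      · rw [Polynomial.coeff_C_mul, Polynomial.coeff_X_pow, if_pos rfl, mul_one]
      · intro j hj hji
        rw [mem_Icc] at hj
        rw [Polynomial.coeff_C_mul, Polynomial.coeff_X_pow, if_neg (by omega), mul_zero]
      · intro h
        exact absurd (mem_Icc.2 ⟨hi3, hid⟩) h
    have hρ : E / (L : ℝ) ^ 2 ≤ 1 / B := by
      rw [div_le_div_iff₀ (by positivity) hB0, one_mul]
      have h1 : E * B ≤ L := by
        refine (Nat.le_ceil _).trans ?_
        have : ⌈E * B⌉₊ ≤ L := by omega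
        exact_mod_cast this
      nlinarith
    have h1 := hrec L P (E / (L : ℝ) ^ 2) (by omega) hPdeg (by positivity) hρ (by
      refine hcount.trans ?_
      have : ((range L).filter fun s : ℕ => (3 ≤ d → nd ((Q : ℝ) * (e₁ 2 +
        ∑ i ∈ Icc 3 d, (i.choose 2 : ℝ) * p i * (s : ℝ) ^ (i - 2))) ≤ E / (L : ℝ) ^ 2)) ⊆
        (range L).filter fun m : ℕ => nd (P.eval (m : ℝ)) ≤ E / (L : ℝ) ^ 2 := by
        intro s hs
        rw [mem_filter] at hs ⊢
        exact ⟨hs.1, by rw [hPe]; exact hs.2 hd⟩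
      exact_mod_cast card_le_card this) (i - 2) (by omega)
    rw [hPc] at h1
    obtain ⟨k, hk⟩ : i.choose 2 ∣ d.factorial := by
      have h2 : i.choose 2 ∣ i.factorial := by
        have := Nat.choose_mul_factorial_mul_factorial (show 2 ≤ i by omega)
        exact ⟨Nat.factorial 2 * (i - 2).factorial, by rw [← this]; ring⟩
      exact h2.trans (Nat.factorial_dvd_factorial hid)
    have hkd : k ≤ d.factorial := by
      rw [hk]
      exact Nat.le_mul_of_pos_left k (Nat.choose_pos (by omega))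
    have h3 : ((q * d.factorial * Q : ℕ) : ℝ) * p i =
        (k : ℝ) * ((q : ℝ) * ((Q : ℝ) * ((i.choose 2 : ℝ) * p i))) := by
      rw [hk]
      push_cast
      ring
    rw [h3]
    refine (nd_nat_mul_le _ _).trans ?_
    have h4 : (k : ℝ) ≤ d.factorial := by exact_mod_cast hkd
    calc (k : ℝ) * nd ((q : ℝ) * ((Q : ℝ) * ((i.choose 2 : ℝ) * p i)))
        ≤ d.factorial * (B * (E / (L : ℝ) ^ 2) / (L : ℝ) ^ (i - 2)) :=
          mul_le_mul h4 h1 (nd_nonneg _) (by positivity)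
      _ = d.factorial * (B * E) / (L : ℝ) ^ i := by
          have h5 : (L : ℝ) ^ i = (L : ℝ) ^ 2 * (L : ℝ) ^ (i - 2) := by
            rw [← pow_add]; congr 1; omega
          rw [h5]
          field_simp
  · exact ⟨1, 1, 0, le_refl _, le_refl _, le_refl _, fun L _ e₁ p _ i hi3 hid => by omega⟩

/-- The commutator form of the integral part. -/
theorem om_fl {D : ℕ} (b : Fin D → Fin D → ℤ) (a : Fin D → ℝ) (s : ℕ) :
    om b (fl s a) a = ∑ i, om b (ev1 i) a * (⌊(s : ℝ) * a i⌋ : ℝ) := by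
  rw [PBRKx.om_swap b (fl s a) a, PBRKx.om_lin b a (fl s a), ← sum_neg_distrib]
  refine sum_congr rfl fun i _ => ?_
  rw [PBRKx.om_swap b (ev1 i) a]
  unfold fl
  ring

end EXTx

open Classical in
theorem ext_row : EXT_stmt := by
  intro hBRK d D b c E Q hd hlow hc hc1 hE hQ
  obtain ⟨A, L₁, E₁, hA, hL₁, hE₁, hst⟩ := EXTx.step1 d Q c E hc hc1 hE
  obtain ⟨C₃, hC₃, hbrk⟩ := hBRK D (c / 2) (by positivity) (by linarith)
  obtain ⟨q₄, B₄, hq₄, hB₄, hrec⟩ := rec0 1 c hc hc1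
  set C₂ : ℝ := A * E + d * (d * E₁) with hC₂
  have hC₂0 : 0 ≤ C₂ := by positivity
  set Mb : ℕ := ∑ i, ∑ j, (b i j - b j i).natAbs with hMb
  have hMbb : ∀ i j, |b i j - b j i| ≤ Mb := by
    intro i j
    have h1 : (b i j - b j i).natAbs ≤ ∑ j, (b i j - b j i).natAbs :=
      single_le_sum (f := fun j => (b i j - b j i).natAbs) (fun _ _ => Nat.zero_le _) (mem_univ j)
    have h2 : ∑ j, (b i j - b j i).natAbs ≤ Mb :=
      single_le_sum (f := fun i => ∑ j, (b i j - b j i).natAbs) (fun _ _ => Nat.zero_le _)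
        (mem_univ i)
    have h3 := h1.trans h2
    rw [Int.abs_eq_natAbs]
    exact_mod_cast h3
  refine ⟨C₃ + C₃ * A * Q * Mb + ⌈C₃ * C₂⌉₊ + ⌈B₄ * C₂⌉₊ + ⌈2 * q₄ * E₁⌉₊, q₄ * 2 * A * Q,
    L₁ + C₃ + ⌈2 / c⌉₊ + B₄ + ⌈C₂ * B₄⌉₊, by omega,
    Nat.mul_pos (Nat.mul_pos (Nat.mul_pos hq₄ (by norm_num)) hA) hQ, ?_⟩
  intro L hL a e₁ p hcount
  have hL1 : 1 ≤ L := by omega
  have hLr : (1 : ℝ) ≤ L := by exact_mod_cast hL1
  have hL0 : (0 : ℝ) < L := by linarith
  set C : ℕ := C₃ + C₃ * A * Q * Mb + ⌈C₃ * C₂⌉₊ + ⌈B₄ * C₂⌉₊ + ⌈2 * q₄ * E₁⌉₊ with hCdef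
  have hCa : (C₃ : ℝ) ≤ C := by
    have : C₃ ≤ C := by omega
    exact_mod_cast this
  have hCb : (C₃ : ℝ) * C₂ ≤ C := by
    refine (Nat.le_ceil _).trans ?_
    have : ⌈C₃ * C₂⌉₊ ≤ C := by omega
    exact_mod_cast this
  have hCc : (B₄ : ℝ) * C₂ ≤ C := by
    refine (Nat.le_ceil _).trans ?_
    have : ⌈B₄ * C₂⌉₊ ≤ C := by omega
    exact_mod_cast this
  have hCd : 2 * (q₄ : ℝ) * E₁ ≤ C := by
    refine (Nat.le_ceil _).trans ?_
    have : ⌈2 * q₄ * E₁⌉₊ ≤ C := by omega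
    exact_mod_cast this
  -- step one
  set S := (range L).filter fun s : ℕ =>
      nd ((Q : ℝ) * (e₁ 1 + ∑ i ∈ Icc 2 d, (i : ℝ) * p i * (s : ℝ) ^ (i - 1) - s * bf b a a +
        om b (fl s a) a)) ≤ E / L ∧
      (3 ≤ d → nd ((Q : ℝ) * (e₁ 2 + ∑ i ∈ Icc 3 d, (i.choose 2 : ℝ) * p i * (s : ℝ) ^ (i - 2)))
        ≤ E / (L : ℝ) ^ 2) with hS
  have hp3 : ∀ i, 3 ≤ i → i ≤ d → nd (((A * Q : ℕ) : ℝ) * p i) ≤ E₁ / (L : ℝ) ^ i := by
    apply hst L (by omega) e₁ p
    refine hcount.trans ?_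
    have : S ⊆ (range L).filter fun s : ℕ => (3 ≤ d → nd ((Q : ℝ) * (e₁ 2 +
      ∑ i ∈ Icc 3 d, (i.choose 2 : ℝ) * p i * (s : ℝ) ^ (i - 2))) ≤ E / (L : ℝ) ^ 2) := by
      intro s hs
      rw [hS, mem_filter] at hs
      rw [mem_filter]
      exact ⟨hs.1, hs.2.2⟩
    exact_mod_cast card_le_card this
  -- step two
  set ξ : ℝ := ((A * Q : ℕ) : ℝ) * (2 * p 2 - bf b a a) with hξ
  set θ : ℝ := ((A * Q : ℕ) : ℝ) * e₁ 1 with hθ
  set β : Fin D → ℝ := fun i => ((A * Q : ℕ) : ℝ) * om b (ev1 i) a with hβ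
  have hgood : ∀ s ∈ S, nd (ξ * s + ∑ i, β i * (⌊(s : ℝ) * a i⌋ : ℝ) + θ) ≤ C₂ / L := by
    intro s hs
    rw [hS, mem_filter, mem_range] at hs
    obtain ⟨hsL, h1, -⟩ := hs
    have hsr : (s : ℝ) ≤ L := by exact_mod_cast hsL.le
    have h2 : ξ * s + ∑ i, β i * (⌊(s : ℝ) * a i⌋ : ℝ) + θ =
        (A : ℝ) * ((Q : ℝ) * (e₁ 1 + ∑ i ∈ Icc 2 d, (i : ℝ) * p i * (s : ℝ) ^ (i - 1) -
          s * bf b a a + om b (fl s a) a)) -
        ∑ i ∈ Icc 3 d, ((i * s ^ (i - 1) : ℕ) : ℝ) * (((A * Q : ℕ) : ℝ) * p i) := by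
      have h3 : ∑ i ∈ Icc 2 d, (i : ℝ) * p i * (s : ℝ) ^ (i - 1) =
          2 * p 2 * s + ∑ i ∈ Icc 3 d, (i : ℝ) * p i * (s : ℝ) ^ (i - 1) := by
        rw [← Finset.add_sum_Ioc_eq_sum_Icc hd]
        have h4 : Ioc 2 d = Icc 3 d := by
          ext x
          rw [mem_Ioc, mem_Icc]
          omega
        rw [h4]
        norm_num
      have h5 : ∑ i, β i * (⌊(s : ℝ) * a i⌋ : ℝ) = ((A * Q : ℕ) : ℝ) * om b (fl s a) a := by
        rw [EXTx.om_fl, mul_sum]
        refine sum_congr rfl fun i _ => ?_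
        simp only [hβ]
        ring
      have h6 : ∑ i ∈ Icc 3 d, ((i * s ^ (i - 1) : ℕ) : ℝ) * (((A * Q : ℕ) : ℝ) * p i) =
          ((A * Q : ℕ) : ℝ) * ∑ i ∈ Icc 3 d, (i : ℝ) * p i * (s : ℝ) ^ (i - 1) := by
        rw [mul_sum]
        refine sum_congr rfl fun i _ => ?_
        push_cast
        ring
      rw [h3, h5, h6, hξ, hθ]
      push_cast
      ring
    rw [h2]
    refine (nd_sub_le _ _).trans ?_
    have h3 : nd ((A : ℝ) * ((Q : ℝ) * (e₁ 1 + ∑ i ∈ Icc 2 d, (i : ℝ) * p i * (s : ℝ) ^ (i - 1) -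
        s * bf b a a + om b (fl s a) a))) ≤ A * (E / L) :=
      (nd_nat_mul_le _ _).trans (mul_le_mul_of_nonneg_left h1 (Nat.cast_nonneg _))
    have h4 : nd (∑ i ∈ Icc 3 d, ((i * s ^ (i - 1) : ℕ) : ℝ) * (((A * Q : ℕ) : ℝ) * p i)) ≤
        d * (d * E₁ / L) := by
      refine (PRGx.nd_sum _ _).trans ?_
      calc ∑ i ∈ Icc 3 d, nd (((i * s ^ (i - 1) : ℕ) : ℝ) * (((A * Q : ℕ) : ℝ) * p i))
          ≤ ∑ i ∈ Icc 3 d, (d * E₁ / L : ℝ) := by
            refine sum_le_sum fun i hi => ?_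
            rw [mem_Icc] at hi
            refine (nd_nat_mul_le _ _).trans ?_
            have h5 := hp3 i hi.1 hi.2
            have h6 : ((i * s ^ (i - 1) : ℕ) : ℝ) ≤ d * (L : ℝ) ^ (i - 1) := by
              push_cast
              have h7 : (i : ℝ) ≤ d := by exact_mod_cast hi.2
              gcongr
            calc ((i * s ^ (i - 1) : ℕ) : ℝ) * nd (((A * Q : ℕ) : ℝ) * p i)
                ≤ (d * (L : ℝ) ^ (i - 1)) * (E₁ / (L : ℝ) ^ i) :=
                  mul_le_mul h6 h5 (nd_nonneg _) (by positivity)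
              _ = d * E₁ / L := by
                  have h8 : (L : ℝ) ^ i = (L : ℝ) ^ (i - 1) * L := by
                    rw [← pow_succ]; congr 1; omega
                  rw [h8]
                  field_simp
        _ = #(Icc 3 d) * (d * E₁ / L : ℝ) := by rw [sum_const, nsmul_eq_mul]
        _ ≤ d * (d * E₁ / L) := by
            have h9 : #(Icc 3 d) ≤ d := by rw [Nat.card_Icc]; omega
            have h10 : (#(Icc 3 d) : ℝ) ≤ d := by exact_mod_cast h9
            have h11 : 0 ≤ (d * E₁ / L : ℝ) := by positivity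
            exact mul_le_mul_of_nonneg_right h10 h11
    calc _ ≤ A * (E / L) + d * (d * E₁ / L) := add_le_add h3 h4
      _ = C₂ / L := by rw [hC₂]; ring
  -- step three
  have hcount2 : c / 2 * L ≤ (#((Icc 1 L).filter fun r : ℕ =>
      nd (ξ * r + ∑ i, β i * (⌊(r : ℝ) * a i⌋ : ℝ) + θ) ≤ C₂ / L) : ℝ) := by
    have hsub : S ⊆ insert 0 ((Icc 1 L).filter fun r : ℕ =>
        nd (ξ * r + ∑ i, β i * (⌊(r : ℝ) * a i⌋ : ℝ) + θ) ≤ C₂ / L) := by
      intro s hs
      have h1 := hgood s hs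
      rw [hS, mem_filter, mem_range] at hs
      rw [mem_insert, mem_filter, mem_Icc]
      rcases Nat.eq_zero_or_pos s with h | h
      · exact Or.inl h
      · exact Or.inr ⟨⟨h, hs.1.le⟩, h1⟩
    have h1 := (card_le_card hsub).trans (card_insert_le _ _)
    have h2 : (#S : ℝ) ≤ #((Icc 1 L).filter fun r : ℕ =>
        nd (ξ * r + ∑ i, β i * (⌊(r : ℝ) * a i⌋ : ℝ) + θ) ≤ C₂ / L) + 1 := by exact_mod_cast h1
    have h3 : 2 / c ≤ L := by
      refine (Nat.le_ceil _).trans ?_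
      have : ⌈2 / c⌉₊ ≤ L := by omega
      exact_mod_cast this
    rw [div_le_iff₀ hc] at h3
    linarith
  obtain ⟨q₃, KK, hq₃, hq₃C, hKK, hw⟩ := hbrk L a β ξ θ (C₂ / L) (by omega) (by positivity) hcount2
  by_cases hrel : ∃ κ ∈ KK, κ ≠ 0
  · obtain ⟨κ, hκ, hκ0⟩ := hrel
    left
    refine ⟨κ, hκ0, fun i => ((hKK κ hκ).1 i).trans ?_, (hKK κ hκ).2.trans ?_⟩
    · have : C₃ ≤ C := by omega
      exact_mod_cast this
    · exact div_le_div_of_nonneg_right hCa hL0.le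
  push Not at hrel
  have hβi : ∀ i, nd ((q₃ : ℝ) * β i) ≤ C / L := by
    intro i
    have h1 := hw (Pi.single i 1) (fun κ hκ => by
      rw [hrel κ hκ]
      simp)
    have h2 : dp (Pi.single i 1) β = β i := by
      unfold dp
      rw [sum_eq_single i]
      · simp
      · intro j _ hj
        rw [Pi.single_eq_of_ne hj]
        simp
      · intro h; exact absurd (mem_univ i) h
    have h3 : ∑ j, |((Pi.single i (1 : ℤ) : Fin D → ℤ) j : ℝ)| = 1 := by
      rw [sum_eq_single i]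
      · simp
      · intro j _ hj
        rw [Pi.single_eq_of_ne hj]
        simp
      · intro h; exact absurd (mem_univ i) h
    rw [h2, h3, mul_one] at h1
    refine h1.trans ?_
    calc (C₃ : ℝ) * (C₂ / L) = (C₃ * C₂) / L := by ring
      _ ≤ C / L := div_le_div_of_nonneg_right hCb hL0.le
  by_cases hsym : ∀ i j, b i j = b j i
  · -- the form is zero
    right
    have hb0 : ∀ i j, b i j = 0 := by
      intro i j
      rcases le_total i j with h | h
      · exact hlow i j h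
      · rw [hsym i j]
        exact hlow j i h
    refine ⟨hb0, ?_⟩
    have hβ0 : ∀ i, β i = 0 := by
      intro i
      simp only [hβ, PBRKx.om_ev, hb0]
      simp
    have hbf0 : bf b a a = 0 := by
      unfold bf
      simp [hb0]
    set P : Polynomial ℝ := Polynomial.C θ + Polynomial.C ξ * Polynomial.X with hP
    have hPdeg : P.natDegree ≤ 1 := by
      rw [hP]
      refine (Polynomial.natDegree_add_le _ _).trans (max_le ?_ ?_)
      · rw [Polynomial.natDegree_C]; exact Nat.zero_le _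
      · exact (Polynomial.natDegree_C_mul_le _ _).trans Polynomial.natDegree_X_le
    have hρ : C₂ / L ≤ 1 / B₄ := by
      have hB0 : (0 : ℝ) < B₄ := by exact_mod_cast hB₄
      rw [div_le_div_iff₀ hL0 hB0, one_mul]
      refine (Nat.le_ceil _).trans ?_
      have : ⌈C₂ * B₄⌉₊ ≤ L := by omega
      exact_mod_cast this
    have h1 := hrec L P (C₂ / L) (by omega) hPdeg (by positivity) hρ (by
      refine hcount.trans ?_
      have : S ⊆ (range L).filter fun m : ℕ => nd (P.eval (m : ℝ)) ≤ C₂ / L := by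
        intro s hs
        have h2 := hgood s hs
        rw [hS, mem_filter] at hs
        rw [mem_filter]
        refine ⟨hs.1, ?_⟩
        have h3 : P.eval (s : ℝ) = ξ * s + ∑ i, β i * (⌊(s : ℝ) * a i⌋ : ℝ) + θ := by
          simp only [hP, hβ0, Polynomial.eval_add, Polynomial.eval_C, Polynomial.eval_mul,
            Polynomial.eval_X, zero_mul, sum_const_zero]
          ring
        rw [h3]
        exact h2
      exact_mod_cast card_le_card this) 1 (le_refl _)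
    have hPc : P.coeff 1 = ((A * Q : ℕ) : ℝ) * (2 * p 2) := by
      rw [hP, Polynomial.coeff_add, Polynomial.coeff_C, if_neg one_ne_zero, zero_add,
        Polynomial.coeff_C_mul, Polynomial.coeff_X_one, mul_one, hξ, hbf0, sub_zero]
    rw [hPc] at h1
    intro j hj2 hjd
    rcases Nat.eq_or_lt_of_le hj2 with h | h
    · rw [← h]
      have h2 : ((q₄ * 2 * A * Q : ℕ) : ℝ) * p 2 = (q₄ : ℝ) * (((A * Q : ℕ) : ℝ) * (2 * p 2)) := by
        push_cast
        ring
      rw [h2]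
      refine h1.trans ?_
      calc (B₄ : ℝ) * (C₂ / L) / (L : ℝ) ^ 1 = (B₄ * C₂) / (L : ℝ) ^ 2 := by
            field_simp
        _ ≤ C / (L : ℝ) ^ 2 := div_le_div_of_nonneg_right hCc (by positivity)
    · have h2 : ((q₄ * 2 * A * Q : ℕ) : ℝ) * p j =
          ((q₄ * 2 : ℕ) : ℝ) * (((A * Q : ℕ) : ℝ) * p j) := by
        push_cast
        ring
      rw [h2]
      refine (nd_nat_mul_le _ _).trans ?_
      calc ((q₄ * 2 : ℕ) : ℝ) * nd (((A * Q : ℕ) : ℝ) * p j)
          ≤ ((q₄ * 2 : ℕ) : ℝ) * (E₁ / (L : ℝ) ^ j) :=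
            mul_le_mul_of_nonneg_left (hp3 j h hjd) (Nat.cast_nonneg _)
        _ = (2 * q₄ * E₁) / (L : ℝ) ^ j := by push_cast; ring
        _ ≤ C / (L : ℝ) ^ j := div_le_div_of_nonneg_right hCd (by positivity)
  · -- a relation
    left
    push Not at hsym
    obtain ⟨i, j, hij⟩ := hsym
    refine ⟨fun l => (q₃ * A * Q : ℕ) * (b i l - b l i), ?_, ?_, ?_⟩
    · intro h0
      have h1 := congrFun h0 j
      simp only [Pi.zero_apply] at h1
      rcases mul_eq_zero.1 h1 with h2 | h2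
      · have h3 : 0 < q₃ * A * Q := by positivity
        have h4 : q₃ * A * Q = 0 := by exact_mod_cast h2
        omega
      · omega
    · intro l
      rw [abs_mul, Nat.abs_cast]
      have h1 := hMbb i l
      have h2 : q₃ * A * Q * Mb ≤ C := by
        have h3 : q₃ * A * Q * Mb ≤ C₃ * A * Q * Mb := by gcongr
        omega
      calc ((q₃ * A * Q : ℕ) : ℤ) * |b i l - b l i| ≤ ((q₃ * A * Q : ℕ) : ℤ) * Mb :=
            mul_le_mul_of_nonneg_left h1 (Int.natCast_nonneg _)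
        _ ≤ C := by exact_mod_cast h2
    · have h1 : dp (fun l => ((q₃ * A * Q : ℕ) : ℤ) * (b i l - b l i)) a = (q₃ : ℝ) * β i := by
        unfold dp
        simp only [hβ, PBRKx.om_ev, mul_sum]
        refine sum_congr rfl fun l _ => ?_
        push_cast
        ring
      rw [h1]
      exact hβi i

end Pool.Agent.NG
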