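import Mathlib
import Pool.Agent.Lib.NG.ARows

/-!
# NVG2 (MP_663568_nt), row FNC: constructions of functions  (helper52)
-/

set_option autoImplicit false
open Finset Topology

namespace Pool.Agent.NG

noncomputable section

open Amb Pool.Agent.Lib.MP_663568_nt Pool.Agent.Lib.MP_663568_nt.Katai

theorem fn_translate {U : Type} [Amb U] {G M : Subgroup U} {F : U → ℂ} (hn : Nrm G M)
    (hF : Fn G M F) {y : U} (hy : y ∈ G) : Fn G M fun x => F (y * x) where
  bd := by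
    obtain ⟨B, hB⟩ := hF.bd
    exact ⟨B, fun x hx => hB _ (G.mul_mem hy hx)⟩
  uc := by
    intro ε hε
    obtain ⟨ρ, hρ, h1⟩ := hF.uc ε hε
    obtain ⟨C, hC, h2⟩ := nm_conj ({y} : Set U) isCompact_singleton
    refine ⟨min 1 (ρ / C), lt_min one_pos (div_pos hρ hC), ?_⟩
    intro k hk hkn x hx
    have h3 := h2 y rfl k (hkn.trans (min_le_left _ _))
    have h4 : C * nm k ≤ ρ := by
      have := hkn.trans (min_le_right _ _)
      rwa [le_div_iff₀ hC, mul_comm] at this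
    have h5 := h1 (y * k * y⁻¹) (G.mul_mem (G.mul_mem hy hk) (G.inv_mem hy)) (h3.trans h4)
      (y * x) (G.mul_mem hy hx)
    have h6 : y * k * y⁻¹ * (y * x) = y * (k * x) := by group
    rw [h6] at h5
    exact h5
  lat := by
    intro x hx γ hγ hγG
    have h := hF.lat (y * x) (G.mul_mem hy hx) γ hγ hγG
    rw [mul_assoc] at h
    exact h
  inv := by
    intro m hm x hx
    have h := hF.inv (y * m * y⁻¹) (hn y hy m hm) (y * x) (G.mul_mem hy hx)
    have h6 : y * m * y⁻¹ * (y * x) = y * (m * x) := by group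
    rw [h6] at h
    exact h

theorem fn_restrict {U : Type} [Amb U] {G M G' M' : Subgroup U} {F : U → ℂ} (hF : Fn G M F)
    (hG : G' ≤ G) (hM : M' ≤ M) : Fn G' M' F where
  bd := by
    obtain ⟨B, hB⟩ := hF.bd
    exact ⟨B, fun x hx => hB _ (hG hx)⟩
  uc := by
    intro ε hε
    obtain ⟨ρ, hρ, h1⟩ := hF.uc ε hε
    exact ⟨ρ, hρ, fun k hk hkn x hx => h1 k (hG hk) hkn x (hG hx)⟩
  lat := fun x hx γ hγ hγG => hF.lat x (hG hx) γ hγ (hG hγG)
  inv := fun m hm x hx => hF.inv m (hM hm) x (hG hx)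

theorem fn_prod {U V : Type} [Amb U] [Amb V] {G M : Subgroup U} {G' M' : Subgroup V} {F : U → ℂ}
    {F' : V → ℂ} (hF : Fn G M F) (hF' : Fn G' M' F') :
    Fn (G.prod G') (M.prod M') fun q => F q.1 * (starRingEnd ℂ) (F' q.2) where
  bd := by
    obtain ⟨B, hB⟩ := hF.bd
    obtain ⟨B', hB'⟩ := hF'.bd
    refine ⟨B * B', ?_⟩
    intro x hx
    rw [Subgroup.mem_prod] at hx
    rw [norm_mul, RCLike.norm_conj]
    exact mul_le_mul (hB _ hx.1) (hB' _ hx.2) (norm_nonneg _) ((norm_nonneg _).trans (hB _ hx.1))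
  uc := by
    intro ε hε
    obtain ⟨B, hB⟩ := hF.bd
    obtain ⟨B', hB'⟩ := hF'.bd
    set D : ℝ := max 1 (max B B') with hD
    have hD0 : 0 < D := lt_of_lt_of_le one_pos (le_max_left _ _)
    have hBD : B ≤ D := (le_max_left _ _).trans (le_max_right _ _)
    have hBD' : B' ≤ D := (le_max_right _ _).trans (le_max_right _ _)
    obtain ⟨ρ, hρ, h1⟩ := hF.uc (ε / (2 * D)) (by positivity)
    obtain ⟨ρ', hρ', h2⟩ := hF'.uc (ε / (2 * D)) (by positivity)
    refine ⟨min ρ ρ', lt_min hρ hρ', ?_⟩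
    rintro ⟨k, k'⟩ hk hkn ⟨x, x'⟩ hx
    rw [Subgroup.mem_prod] at hk hx
    have hkn1 : nm k ≤ ρ := (le_max_left _ _).trans (hkn.trans (min_le_left _ _))
    have hkn2 : nm k' ≤ ρ' := (le_max_right _ _).trans (hkn.trans (min_le_right _ _))
    have e1 := h1 k hk.1 hkn1 x hx.1
    have e2 := h2 k' hk.2 hkn2 x' hx.2
    have e3 : F (k * x) * (starRingEnd ℂ) (F' (k' * x')) - F x * (starRingEnd ℂ) (F' x')
        = (F (k * x) - F x) * (starRingEnd ℂ) (F' (k' * x'))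
          + F x * (starRingEnd ℂ) (F' (k' * x') - F' x') := by
      rw [map_sub]
      ring
    show ‖F (k * x) * (starRingEnd ℂ) (F' (k' * x')) - F x * (starRingEnd ℂ) (F' x')‖ ≤ ε
    rw [e3]
    refine (norm_add_le _ _).trans ?_
    rw [norm_mul, norm_mul, RCLike.norm_conj, RCLike.norm_conj]
    have b1 : ‖F' (k' * x')‖ ≤ D := (hB' _ (G'.mul_mem hk.2 hx.2)).trans hBD'
    have b2 : ‖F x‖ ≤ D := (hB _ hx.1).trans hBD
    have e4 : ‖F (k * x) - F x‖ * ‖F' (k' * x')‖ ≤ ε / (2 * D) * D :=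
      mul_le_mul e1 b1 (norm_nonneg _) (by positivity)
    have e5 : ‖F x‖ * ‖F' (k' * x') - F' x'‖ ≤ D * (ε / (2 * D)) :=
      mul_le_mul b2 e2 (norm_nonneg _) hD0.le
    have e6 : ε / (2 * D) * D = ε / 2 := by field_simp
    have e7 : D * (ε / (2 * D)) = ε / 2 := by field_simp
    linarith
  lat := by
    rintro ⟨x, x'⟩ hx ⟨γ, γ'⟩ hγ hγG
    rw [Subgroup.mem_prod] at hx hγG
    have hγ' := Subgroup.mem_prod.mp hγ
    show F (x * γ) * (starRingEnd ℂ) (F' (x' * γ')) = F x * (starRingEnd ℂ) (F' x')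
    rw [hF.lat x hx.1 γ hγ'.1 hγG.1, hF'.lat x' hx.2 γ' hγ'.2 hγG.2]
  inv := by
    rintro ⟨m, m'⟩ hm ⟨x, x'⟩ hx
    rw [Subgroup.mem_prod] at hx hm
    show F (m * x) * (starRingEnd ℂ) (F' (m' * x')) = F x * (starRingEnd ℂ) (F' x')
    rw [hF.inv m hm.1 x hx.1, hF'.inv m' hm.2 x' hx.2]

/-- Row FNC. -/
theorem fnc : FNC_stmt := by
  intro U _ G M F _ hn hF
  exact ⟨fun y hy => fn_translate hn hF hy, fun G' M' hG hM => fn_restrict hF hG hM,
    fun V _ G' M' F' hF' => fn_prod hF hF'⟩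

end

end Pool.Agent.NG
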