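import Mathlib
import Pool.Agent.Lib.NG.B

/-!
# NVG2 (MP_663568_nt), row RFL: the smaller filtration  (helper32)
-/

set_option autoImplicit false
open Finset Topology

namespace Pool.Agent.NG

noncomputable section

open Amb Pool.Agent.Lib.MP_663568_nt Pool.Agent.Lib.MP_663568_nt.Katai
  Pool.Agent.Lib.MP_663568_nt.Nul Pool.Agent.SV Pool.Agent.VQ Pool.Agent.NV

namespace Rfl

variable {U : Type} [Amb U]

theorem le_zero {Gf : ℕ → Subgroup U} {d : ℕ} (hG : Filt Gf d) (i : ℕ) : Gf i ≤ Gf 0 :=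
  antitone_nat_of_succ_le hG.anti (Nat.zero_le i)

theorem dm_le {H H' : Subgroup U} (h : PwC H) (h' : PwC H') (hle : H ≤ H') : dm H ≤ dm H' := by
  rcases hle.eq_or_lt with e | e
  · rw [e]
  · exact (dm_lt H H' h h' e).le

theorem chr_one {H : Subgroup U} {χ : U → ℝ} (hmul : ∀ x ∈ H, ∀ y ∈ H, χ (x * y) = χ x + χ y) :
    χ 1 = 0 := by
  have h := hmul 1 H.one_mem 1 H.one_mem
  rw [mul_one] at h
  linarith

theorem chr_inv {H : Subgroup U} {χ : U → ℝ} (hmul : ∀ x ∈ H, ∀ y ∈ H, χ (x * y) = χ x + χ y)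
    (x : U) (hx : x ∈ H) : χ x⁻¹ = -χ x := by
  have h := hmul x hx x⁻¹ (H.inv_mem hx)
  rw [mul_inv_cancel, chr_one hmul] at h
  linarith

/-- differences of a sequence along which the character is affine -/
theorem affine_foldr {Gf : ℕ → Subgroup U} {d : ℕ} (hG : Filt Gf d) {χ : U → ℝ}
    (hmul : ∀ x ∈ Gf 0, ∀ y ∈ Gf 0, χ (x * y) = χ x + χ y) {g : ℤ → U} (hg : PS Gf 0 g)
    {c₀ c₁ : ℝ} (hc : ∀ m : ℤ, χ (g m) = c₀ + c₁ * m) (l : List ℤ) :
    ∃ a b : ℝ, (∀ m : ℤ, χ (l.foldr dif g m) = a + b * m) ∧ (1 ≤ l.length → b = 0) ∧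
      (2 ≤ l.length → a = 0) := by
  have hmem : ∀ (l : List ℤ) (m : ℤ), l.foldr dif g m ∈ Gf 0 := fun l m =>
    le_zero hG _ (hg l m)
  induction l with
  | nil => exact ⟨c₀, c₁, hc, by simp, by simp⟩
  | cons h l ih =>
    obtain ⟨a, b, h1, h2, h3⟩ := ih
    refine ⟨b * h, 0, fun m => ?_, fun _ => rfl, fun h4 => ?_⟩
    · have e : (h :: l).foldr dif g m = l.foldr dif g (m + h) * (l.foldr dif g m)⁻¹ := rfl
      rw [e, hmul _ (hmem l _) _ ((Gf 0).inv_mem (hmem l _)), chr_inv hmul _ (hmem l _), h1, h1]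
      push_cast
      ring
    · rw [h2 (by simpa using h4), zero_mul]

end Rfl

open Rfl in
/-- **row RFL** -/
theorem rfl_row : RFL_stmt := by
  intro hK hF _ hD _ U _ Gf d hd hG χ hχ hne
  have hle := le_zero hG
  have hker : ∀ x, x ∈ kerS (Gf 0) χ ↔ x ∈ Gf 0 ∧ χ x = 0 :=
    (hK U (Gf 0) χ (hG.rat 0) hχ.mul hχ.int hχ.cont).1
  have h1 : Filt (redF Gf χ) d := (hF U Gf d hG).2.2.2.2.2 χ hχ
  have h0 : redF Gf χ 0 = Gf 0 := if_pos (by omega)
  have hred : ∀ i, 2 ≤ i → redF Gf χ i = Gf i ⊓ kerS (Gf 0) χ := fun i hi => if_neg (by omega)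
  have hredle : ∀ i, redF Gf χ i ≤ Gf i := by
    intro i
    rcases Nat.lt_or_ge i 2 with h | h
    · have e : redF Gf χ i = Gf 0 := if_pos (by omega)
      rw [e]
      interval_cases i
      · exact le_rfl
      · rw [hG.top]
    · rw [hred i h]
      exact inf_le_left
  have hlast : redF Gf χ (d + 1) = Gf (d + 1) := by
    rw [hred _ (by omega)]
    exact inf_eq_left.2 fun x hx => (hker x).2 ⟨hle _ hx, hχ.van x hx⟩
  refine ⟨h1, h0, hlast, ?_, ?_⟩
  · obtain ⟨x, hx, hx0⟩ := hne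
    unfold rkF
    refine Finset.sum_lt_sum (fun i _ => dm_le (h1.rat i).pwc (hG.rat i).pwc (hredle i))
      ⟨2, mem_range.2 (by omega), ?_⟩
    refine dm_lt _ _ (h1.rat 2).pwc (hG.rat 2).pwc (lt_of_le_of_ne (hredle 2) fun e => hx0 ?_)
    have h2 : x ∈ redF Gf χ 2 := by rw [e]; exact hx
    rw [hred 2 le_rfl] at h2
    exact ((hker x).1 h2.2).2
  · intro g
    constructor
    · intro hg
      refine ⟨fun l n => hredle _ (hg l n), ?_⟩
      obtain ⟨c, hc⟩ := hD U (redF Gf χ) 1 (Gf 0) χ g hχ.mul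
        (fun x hx => by
          have h2 : x ∈ redF Gf χ 2 := hx.2
          rw [hred 2 le_rfl] at h2
          exact ((hker x).1 h2.2).2)
        (fun l n => ⟨hle _ (hredle _ (hg l n)), hg l n⟩)
      exact ⟨c 0, c 1, fun m => by rw [hc]; simp [pol, Finset.sum_range_succ]⟩
    · rintro ⟨hg, c₀, c₁, hc⟩ l n
      rcases Nat.lt_or_ge (0 + l.length) 2 with h | h
      · have e : redF Gf χ (0 + l.length) = Gf 0 := if_pos (by omega)
        rw [e]
        exact hle _ (hg l n)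
      · rw [hred _ h]
        obtain ⟨a, b, h2, h3, h4⟩ := affine_foldr hG hχ.mul hg hc l
        refine ⟨hg l n, (hker _).2 ⟨hle _ (hg l n), ?_⟩⟩
        rw [h2, h3 (by omega), h4 (by omega)]
        simp

end

end Pool.Agent.NG
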