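import Mathlib
import Pool.Agent.Lib.NG.RFL

/-!
# NVG2 (MP_663568_nt), row FRT: the factorisation  (helper32)
-/

set_option autoImplicit false
open Finset Topology

namespace Pool.Agent.NG

noncomputable section

open Amb Pool.Agent.Lib.MP_663568_nt Pool.Agent.Lib.MP_663568_nt.Katai
  Pool.Agent.Lib.MP_663568_nt.Nul Pool.Agent.SV Pool.Agent.VQ Pool.Agent.NV

theorem pol_trunc {j d : ℕ} (hjd : j ≤ d) (f : ℕ → ℝ) (hf : ∀ i, j < i → i ≤ d → f i = 0) (m : ℤ) :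
    pol j f m = pol d f m := by
  unfold pol
  refine Finset.sum_subset (range_mono (by omega)) fun i hi hi' => ?_
  rw [mem_range] at hi hi'
  rw [hf i (by omega) (by omega), zero_mul]

/-- **row FRT** -/
theorem frt : FRT_stmt := by
  intro _ hC hK hL hB hSg hD hU hR U _ Gf d hd hG χ hχ hne
  have hle := Rfl.le_zero hG
  have hpw : ∀ x ∈ Gf 0, ∀ t : ℝ, χ (pw t x) = t * χ x :=
    hC U (Gf 0) χ (hG.rat 0).pwc hχ.mul hχ.cont
  obtain ⟨j, M, s, hj1, hjd, hM, ⟨hs0, hsj⟩, hvan, hs1, hsM⟩ := hL U Gf d (Gf 0) χ hG (hG.rat 0)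
    (fun x hx y hy => (Gf 0).mul_mem ((Gf 0).mul_mem hx hy) ((Gf 0).inv_mem hx)) (hle _) le_rfl hχ
  have hj2 : 2 ≤ j := by
    by_contra hcon
    have hj : j = 1 := by omega
    subst hj
    obtain ⟨x, hx, hx0⟩ := hne
    exact hx0 (hvan x ⟨hle _ hx, hx⟩)
  have hs2 : s ∈ Gf 2 := antitone_nat_of_succ_le hG.anti hj2 hsj
  refine ⟨M, s, hM, hs2, hs1, hsM, ?_⟩
  intro E Q L g hE hQ hL1 hg hN
  obtain ⟨c, hc₁, hcn⟩ := hN
  have hc : ∀ m : ℤ, χ (g m) = pol d c m := hc₁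
  obtain ⟨c', hc'⟩ := hD U Gf j (Gf 0) χ g hχ.mul (fun x hx => hvan x hx)
    (fun l n => ⟨hle _ (hg l n), hg l n⟩)
  -- the high coefficients vanish
  have hhigh : ∀ i, j < i → i ≤ d → c i = 0 := by
    intro i hi hid
    have h1 := hU d c (fun i => if i ≤ j then c' i else 0) (fun m => by
      rw [← hc m, hc' m, ← pol_trunc hjd (fun i => if i ≤ j then c' i else 0)
        (fun i hi _ => if_neg (by omega))]
      unfold pol
      refine Finset.sum_congr rfl fun i hi => ?_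
      rw [mem_range] at hi
      show c' i * (m : ℝ) ^ i = (if i ≤ j then c' i else 0) * (m : ℝ) ^ i
      rw [if_pos (by omega)]) i hid
    rw [h1]
    exact if_neg (by omega)
  have hQ0 : (0 : ℝ) < Q := by exact_mod_cast hQ
  have hL0 : (0 : ℝ) < L := by exact_mod_cast hL1
  obtain ⟨R, hRd⟩ : ∃ R : ℕ → ℝ, R = fun i => if 2 ≤ i ∧ i ≤ d then
    (round ((Q : ℝ) * c i) : ℝ) / Q else 0 := ⟨_, rfl⟩
  obtain ⟨S, hSd⟩ : ∃ S : ℕ → ℝ, S = fun i => if 2 ≤ i ∧ i ≤ d then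
    c i - (round ((Q : ℝ) * c i) : ℝ) / Q else 0 := ⟨_, rfl⟩
  have hR0 : ∀ i, j < i → i ≤ d → R i = 0 := by
    intro i hi hid
    rw [hRd]
    simp [hhigh i hi hid]
  have hS0 : ∀ i, j < i → i ≤ d → S i = 0 := by
    intro i hi hid
    rw [hSd]
    simp [hhigh i hi hid]
  have hPS : PS Gf 0 fun m : ℤ => pw (pol d S m) s := by
    have h1 := hSg U Gf d j s S hG hjd hsj
    have e : (fun m : ℤ => pw (pol j S m) s) = fun m : ℤ => pw (pol d S m) s := by
      funext m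
      rw [pol_trunc hjd S hS0]
    rw [e] at h1
    exact h1
  have hPR : PS Gf 0 fun m : ℤ => pw (pol d R m) s := by
    have h1 := hSg U Gf d j s R hG hjd hsj
    have e : (fun m : ℤ => pw (pol j R m) s) = fun m : ℤ => pw (pol d R m) s := by
      funext m
      rw [pol_trunc hjd R hR0]
    rw [e] at h1
    exact h1
  obtain ⟨hBm, hBi, -⟩ := hB U ℤ Gf d hG
  have hPg : PS Gf 0 fun m : ℤ => (pw (pol d S m) s)⁻¹ * g m * (pw (pol d R m) s)⁻¹ :=
    hBm 0 _ _ (hBm 0 _ _ (hBi 0 _ hPS) hg) (hBi 0 _ hPR)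
  refine ⟨S, R, fun m => (pw (pol d S m) s)⁻¹ * g m * (pw (pol d R m) s)⁻¹, ?_, ?_, ?_, ?_⟩
  · intro i
    rw [hSd]
    show |if 2 ≤ i ∧ i ≤ d then c i - (round ((Q : ℝ) * c i) : ℝ) / Q else 0| ≤ E / (L : ℝ) ^ i
    split_ifs with h
    · have h1 : |(Q : ℝ) * c i - round ((Q : ℝ) * c i)| ≤ E / (L : ℝ) ^ i := hcn i h.1 h.2
      have h2 : c i - (round ((Q : ℝ) * c i) : ℝ) / Q
          = ((Q : ℝ) * c i - round ((Q : ℝ) * c i)) / Q := by
        field_simp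
      rw [h2, abs_div, abs_of_pos hQ0, div_le_iff₀ hQ0]
      refine h1.trans (le_mul_of_one_le_right (by positivity) (by exact_mod_cast hQ))
    · rw [abs_zero]
      positivity
  · intro i
    rw [hRd]
    show ∃ n : ℤ, (Q : ℝ) * (if 2 ≤ i ∧ i ≤ d then (round ((Q : ℝ) * c i) : ℝ) / Q else 0) = n
    split_ifs with h
    · exact ⟨round ((Q : ℝ) * c i), by field_simp⟩
    · exact ⟨0, by simp⟩
  · refine ((hR U Gf d hd hG χ hχ hne).2.2.2.2 _).2 ⟨hPg, c 0, c 1, fun m => ?_⟩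
    have hsp : ∀ t : ℝ, pw t s ∈ Gf 0 := fun t => (hG.rat 0).pwc s hs0 t
    have hgm : g m ∈ Gf 0 := hle _ (hg [] m)
    rw [hχ.mul _ ((Gf 0).mul_mem ((Gf 0).inv_mem (hsp _)) hgm) _ ((Gf 0).inv_mem (hsp _)),
      hχ.mul _ ((Gf 0).inv_mem (hsp _)) _ hgm, Rfl.chr_inv hχ.mul _ (hsp _),
      Rfl.chr_inv hχ.mul _ (hsp _), hpw s hs0, hpw s hs0, hs1, hc m]
    have h1 : c 0 + c 1 * m = pol 1 (fun i => c i - S i - R i) m := by
      have e0 : S 0 = 0 := by rw [hSd]; simp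
      have e1 : S 1 = 0 := by rw [hSd]; simp
      have e2 : R 0 = 0 := by rw [hRd]; simp
      have e3 : R 1 = 0 := by rw [hRd]; simp
      simp [pol, Finset.sum_range_succ, e0, e1, e2, e3]
    have h2 : pol d (fun i => c i - S i - R i) m = pol d c m - pol d S m - pol d R m := by
      unfold pol
      rw [← Finset.sum_sub_distrib, ← Finset.sum_sub_distrib]
      exact Finset.sum_congr rfl fun i _ => by ring
    rw [h1, pol_trunc (show 1 ≤ d by omega) _ (fun i hi hid => ?_), h2]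
    · ring
    · show c i - S i - R i = 0
      rw [hSd, hRd]
      show c i - (if 2 ≤ i ∧ i ≤ d then c i - (round ((Q : ℝ) * c i) : ℝ) / Q else 0)
        - (if 2 ≤ i ∧ i ≤ d then (round ((Q : ℝ) * c i) : ℝ) / Q else 0) = 0
      rw [if_pos ⟨by omega, hid⟩, if_pos ⟨by omega, hid⟩]
      ring
  · intro m
    group

end

end Pool.Agent.NG
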