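import Pool.Agent.Lib.NG.B

/-!
# NVG2 (MP_663568_nt), row FUL1: sums of functions with a full character of `G_d`  (helper13)
-/

set_option autoImplicit false
open Finset Topology

namespace Pool.Agent.NG

noncomputable section

open Amb Pool.Agent.Lib.MP_663568_nt Pool.Agent.Lib.MP_663568_nt.Katai

namespace FUL1

section
variable {U : Type} [Amb U]

/-- Sums of approximations. -/
theorem combine (G : Subgroup U) (P : (U → ℂ) → Prop) (δ : ℝ) :
    ∀ l : List (U → ℂ), (∀ f ∈ l, ∃ l' : List (U → ℂ), (∀ f' ∈ l', P f') ∧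
      ∀ x ∈ G, ‖f x - (l'.map fun f' => f' x).sum‖ ≤ δ) →
    ∃ l' : List (U → ℂ), (∀ f' ∈ l', P f') ∧
      ∀ x ∈ G, ‖(l.map fun f => f x).sum - (l'.map fun f' => f' x).sum‖ ≤ l.length * δ := by
  intro l
  induction l with
  | nil =>
    intro _
    exact ⟨[], by simp, by simp⟩
  | cons f l ih =>
    intro h
    obtain ⟨l₁, h₁, h₁'⟩ := h f (by simp)
    obtain ⟨l₂, h₂, h₂'⟩ := ih fun g hg => h g (by simp [hg])
    refine ⟨l₁ ++ l₂, ?_, ?_⟩
    · intro f' hf'
      rcases List.mem_append.mp hf' with h | h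
      · exact h₁ f' h
      · exact h₂ f' h
    · intro x hx
      have a := h₁' x hx
      have b := h₂' x hx
      have e : (List.map (fun f => f x) (f :: l)).sum -
          (List.map (fun f' => f' x) (l₁ ++ l₂)).sum =
          (f x - (l₁.map fun f' => f' x).sum) +
          ((l.map fun f => f x).sum - (l₂.map fun f' => f' x).sum) := by
        rw [List.map_cons, List.sum_cons, List.map_append, List.sum_append]
        ring
      rw [e]
      refine (norm_add_le _ _).trans ?_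
      rw [List.length_cons]
      push_cast
      linarith

/-- The Fourier coefficient is bounded by one. -/
theorem fz_le (G : Subgroup U) (z : U) (hz : ∀ t : ℝ, pw t z ∈ G) (F : U → ℂ)
    (hF : ∀ x ∈ G, ‖F x‖ ≤ 1) (k : ℤ) : ∀ x ∈ G, ‖fz z k F x‖ ≤ 1 := by
  intro x hx
  have h := intervalIntegral.norm_integral_le_of_norm_le_const (a := (0 : ℝ)) (b := 1) (C := 1)
    (f := fun t => F (pw t z * x) * ee (-(k * t))) (by
      intro t _
      rw [norm_mul, norm_ee, mul_one]
      exact hF _ (G.mul_mem (hz t) hx))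
  simpa [fz] using h

/-- The functions of the induction. -/
structure Gd (G M : Subgroup U) (F : U → ℂ) : Prop where
  fn : Fn G M F
  le : ∀ x ∈ G, ‖F x‖ ≤ 1

theorem step (hFO : FOU_stmt) (G M : Subgroup U) (hG : Rat G) (hM : Rat M) (hMG : M ≤ G)
    (hN : Nrm G M) (z : U) (hz : Cen G M z) (F : U → ℂ) (hF : Gd G M F) (ε : ℝ) (hε : 0 < ε) :
    ∃ l : List (U → ℂ), (∀ f ∈ l, Gd G M f ∧ (∀ w ∈ G, ∀ j : ℤ, Vrt G F w j → Vrt G f w j) ∧
      ∃ k : ℤ, Vrt G f z k) ∧ ∀ x ∈ G, ‖F x - (l.map fun f => f x).sum‖ ≤ ε := by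
  obtain ⟨h1, -, h3, h4⟩ := hFO U G M z F hG hM hMG hN hz hF.fn
  obtain ⟨K, c, hc, -, hap⟩ := h4 ε hε
  have hzG : ∀ t : ℝ, pw t z ∈ G := fun t => hG.pwc z hz.mem t
  refine ⟨((Icc (-(K : ℤ)) K).toList).map fun k => fun x => (c k : ℂ) * fz z k F x, ?_, ?_⟩
  · intro f hf
    obtain ⟨k, -, rfl⟩ := List.mem_map.mp hf
    have hf1 := (h1 k).1
    refine ⟨⟨⟨?_, ?_, ?_, ?_⟩, ?_⟩, ?_, k, ?_⟩
    · obtain ⟨B, hB⟩ := hf1.bd
      refine ⟨|c k| * B, fun x hx => ?_⟩
      rw [norm_mul]
      refine mul_le_mul ?_ (hB x hx) (norm_nonneg _) (abs_nonneg _)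
      rw [Complex.norm_real, Real.norm_eq_abs]
    · intro ε' hε'
      obtain ⟨ρ, hρ, h⟩ := hf1.uc ε' hε'
      refine ⟨ρ, hρ, fun a ha ha' x hx => ?_⟩
      rw [← mul_sub, norm_mul, Complex.norm_real, Real.norm_eq_abs]
      have := h a ha ha' x hx
      calc |c k| * ‖fz z k F (a * x) - fz z k F x‖ ≤ 1 * ‖fz z k F (a * x) - fz z k F x‖ :=
            mul_le_mul_of_nonneg_right (hc k) (norm_nonneg _)
        _ ≤ ε' := by rw [one_mul]; exact this
    · intro x hx γ hγ hγ'
      show (c k : ℂ) * fz z k F (x * γ) = (c k : ℂ) * fz z k F x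
      rw [hf1.lat x hx γ hγ hγ']
    · intro m hm x hx
      show (c k : ℂ) * fz z k F (m * x) = (c k : ℂ) * fz z k F x
      rw [hf1.inv m hm x hx]
    · intro x hx
      rw [norm_mul, Complex.norm_real, Real.norm_eq_abs]
      calc |c k| * ‖fz z k F x‖ ≤ 1 * 1 :=
            mul_le_mul (hc k) (fz_le G z hzG F hF.le k x hx) (norm_nonneg _) zero_le_one
        _ = 1 := one_mul 1
    · intro w hw j hj t x hx
      show (c k : ℂ) * fz z k F (pw t w * x) = ee (j * t) * ((c k : ℂ) * fz z k F x)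
      rw [h3 w k j hw hj t x hx]
      ring
    · intro t x hx
      show (c k : ℂ) * fz z k F (pw t z * x) = ee (k * t) * ((c k : ℂ) * fz z k F x)
      rw [(h1 k).2 t x hx]
      ring
  · intro x hx
    rw [List.map_map]
    have := hap x hx
    have e : (List.map ((fun f : U → ℂ => f x) ∘ fun k : ℤ => fun x => (c k : ℂ) * fz z k F x)
        (Icc (-(K : ℤ)) K).toList).sum = ∑ k ∈ Icc (-(K : ℤ)) K, (c k : ℂ) * fz z k F x := by
      exact Finset.sum_map_toList _ _
    rw [e]
    exact this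

theorem iter (hFO : FOU_stmt) (G M : Subgroup U) (hG : Rat G) (hM : Rat M) (hMG : M ≤ G)
    (hN : Nrm G M) {D : ℕ} (e : Fin D → U) (he : ∀ i, Cen G M (e i)) :
    ∀ (S : Finset (Fin D)) (F : U → ℂ), Gd G M F → ∀ ε : ℝ, 0 < ε →
    ∃ l : List (U → ℂ), (∀ f ∈ l, Gd G M f ∧ (∀ w ∈ G, ∀ j : ℤ, Vrt G F w j → Vrt G f w j) ∧
      ∀ i ∈ S, ∃ k : ℤ, Vrt G f (e i) k) ∧ ∀ x ∈ G, ‖F x - (l.map fun f => f x).sum‖ ≤ ε := by
  intro S
  induction S using Finset.induction_on with
  | empty =>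
    intro F hF ε hε
    exact ⟨[F], by simp [hF], by intro x _; simp [hε.le]⟩
  | insert a S ha ih =>
    intro F hF ε hε
    obtain ⟨l₀, h₀, h₀'⟩ := step hFO G M hG hM hMG hN (e a) (he a) F hF (ε / 2) (by linarith)
    have hδ : 0 < ε / 2 / (l₀.length + 1) := by positivity
    obtain ⟨l, hl, hl'⟩ := combine G (fun f => Gd G M f ∧
        (∀ w ∈ G, ∀ j : ℤ, Vrt G F w j → Vrt G f w j) ∧
        ∀ i ∈ insert a S, ∃ k : ℤ, Vrt G f (e i) k) (ε / 2 / (l₀.length + 1)) l₀ (by
      intro f hf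
      obtain ⟨f1, f2, k, f3⟩ := h₀ f hf
      obtain ⟨l', g1, g2⟩ := ih f f1 _ hδ
      refine ⟨l', fun f' hf' => ?_, g2⟩
      obtain ⟨u1, u2, u3⟩ := g1 f' hf'
      refine ⟨u1, fun w hw j hj => u2 w hw j (f2 w hw j hj), ?_⟩
      intro i hi
      rcases Finset.mem_insert.mp hi with h | h
      · subst h
        exact ⟨k, u2 _ (he i).mem k f3⟩
      · exact u3 i h)
    refine ⟨l, hl, fun x hx => ?_⟩
    have a1 := h₀' x hx
    have a2 := hl' x hx
    have e1 : (l₀.length : ℝ) * (ε / 2 / (l₀.length + 1)) ≤ ε / 2 := by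
      rw [mul_div_assoc', div_le_iff₀ (by positivity)]
      nlinarith [hε]
    calc ‖F x - (l.map fun f => f x).sum‖
        = ‖(F x - (l₀.map fun f => f x).sum) +
          ((l₀.map fun f => f x).sum - (l.map fun f => f x).sum)‖ := by
          congr 1; ring
      _ ≤ ‖F x - (l₀.map fun f => f x).sum‖ +
          ‖(l₀.map fun f => f x).sum - (l.map fun f => f x).sum‖ := norm_add_le _ _
      _ ≤ ε := by linarith

/-- The character of `tau e v`. -/
theorem tau_ch (G : Subgroup U) {D : ℕ} (e : Fin D → U) (he : ∀ i, ∀ t : ℝ, pw t (e i) ∈ G)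
    (F : U → ℂ) (kk : Fin D → ℤ) (hk : ∀ i, Vrt G F (e i) (kk i)) (v : Fin D → ℝ) :
    ∀ x ∈ G, F (tau e v * x) = ee (∑ i, kk i * v i) * F x := by
  have key : ∀ l : List (Fin D), ∀ x ∈ G, (l.map fun i => pw (v i) (e i)).prod * x ∈ G ∧
      F ((l.map fun i => pw (v i) (e i)).prod * x) =
        ee (l.map fun i => (kk i : ℝ) * v i).sum * F x := by
    intro l
    induction l with
    | nil =>
      intro x hx
      refine ⟨by simpa using hx, ?_⟩
      have : ee 0 = 1 := by simpa using ee_int 0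
      simp [this]
    | cons i l ih =>
      intro x hx
      obtain ⟨h1, h2⟩ := ih x hx
      rw [List.map_cons, List.prod_cons, mul_assoc]
      refine ⟨G.mul_mem (he i _) h1, ?_⟩
      rw [hk i (v i) _ h1, h2, List.map_cons, List.sum_cons, ee_add]
      ring
  intro x hx
  have := (key (List.finRange D) x hx).2
  rw [tau, List.ofFn_eq_map, this]
  congr 2

end

end FUL1

open FUL1 in
theorem ful1 : FUL1_stmt := by
  intro hPW hCO hFO U _ Gf d hd hFi z k hz F hF hF1 hV ε hε
  set G := Gf 0 with hGdef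
  set M := Gf (d + 1) with hMdef
  have anti : ∀ i j, i ≤ j → Gf j ≤ Gf i := by
    intro i j hij
    induction hij with
    | refl => exact le_rfl
    | step _ ih => exact (hFi.anti _).trans ih
  have hMG : M ≤ G := anti _ _ (by omega)
  have hdG : Gf d ≤ G := anti _ _ (by omega)
  have hcG : ∀ g ∈ G, ∀ y ∈ Gf d, g * y * g⁻¹ * y⁻¹ ∈ M := by
    intro g hg y hy
    have h := hFi.com 1 d g (by rw [hFi.top]; exact hg) y hy
    rw [add_comm] at h
    exact h
  have hNG : Nrm G M := by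
    intro x hx y hy
    have h := hFi.com 0 (d + 1) x hx y hy
    rw [zero_add] at h
    have := M.mul_mem h hy
    simpa using this
  have hND : Nrm (Gf d) M := fun x hx y hy => hNG x (hdG hx) y hy
  have hCM : Cm (Gf d) (Gf d) M := fun x hx y hy => hcG x (hdG hx) y hy
  obtain ⟨D, e, π, κ, he, hmul, hker, hpe, hcont, hκ, hint, htau⟩ :=
    hCO U (Gf d) M (hFi.rat d) (hFi.rat _) (hFi.anti d) hND hCM
  have hed : ∀ i, ∀ t : ℝ, pw t (e i) ∈ Gf d := fun i t => (hFi.rat d).pwc _ (he i).2 t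
  have hcen : ∀ i, Cen G M (e i) := by
    intro i
    refine ⟨(he i).1, hdG (he i).2, fun g hg t => hcG g hg _ (hed i t), fun h => ?_⟩
    have h0 := (hker (e i) (he i).2).mpr h
    rw [hpe i] at h0
    have := congrFun h0 i
    simp at this
  obtain ⟨l, hl, hl'⟩ := iter hFO G M (hFi.rat 0) (hFi.rat _) hMG hNG e hcen Finset.univ F
    ⟨hF, hF1⟩ ε hε
  have hπ1 : π 1 = 0 := by
    have := hmul 1 (Gf d).one_mem 1 (Gf d).one_mem
    rw [one_mul] at this
    exact (left_eq_add.mp this)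
  have hπinv : ∀ x ∈ Gf d, π x⁻¹ = -π x := by
    intro x hx
    have := hmul x hx x⁻¹ ((Gf d).inv_mem hx)
    rw [mul_inv_cancel, hπ1] at this
    exact (eq_neg_of_add_eq_zero_right this.symm)
  have main : ∀ f ∈ l, ∃ ξ : U → ℝ, Fn G M f ∧ (∀ x ∈ G, ‖f x‖ ≤ 1) ∧ Vrt G f z k ∧
      ChZ G (Gf d) M ξ ∧ Vch G (Gf d) f ξ := by
    intro f hf
    obtain ⟨f1, f2, f3⟩ := hl f hf
    choose! kk hkk using f3
    have hVk := f2 z hz.mem k hV
    by_cases hne : ∃ x ∈ G, f x ≠ 0
    · set ξ : U → ℝ := fun w => ∑ i, (kk i : ℝ) * π w i with hξ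
      have hch : Vch G (Gf d) f ξ := by
        intro w hw x hx
        obtain ⟨t1, t2⟩ := htau (π w)
        have hm : w * (tau e (π w))⁻¹ ∈ M := by
          refine (hker _ ((Gf d).mul_mem hw ((Gf d).inv_mem t1))).mp ?_
          rw [hmul _ hw _ ((Gf d).inv_mem t1), hπinv _ t1, t2, add_neg_cancel]
        have e1 : w * x = (w * (tau e (π w))⁻¹) * (tau e (π w) * x) := by group
        rw [e1, f1.fn.inv _ hm _ (G.mul_mem (hdG t1) hx),
          tau_ch G e (fun i t => hdG (hed i t)) f kk (fun i => hkk i (mem_univ i)) (π w) x hx]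
      refine ⟨ξ, f1.fn, f1.le, hVk, ⟨?_, ?_, ?_, ?_, ?_⟩, hch⟩
      · intro x hx y hy
        simp only [hξ]
        rw [← Finset.sum_add_distrib]
        refine Finset.sum_congr rfl fun i _ => ?_
        rw [hmul x hx y hy, Pi.add_apply]
        ring
      · intro g hg x hx
        simp only [hξ]
        have h1 := hcG g hg x hx
        have h2 : π (g * x * g⁻¹) = π x := by
          have e1 : g * x * g⁻¹ = (g * x * g⁻¹ * x⁻¹) * x := by group
          rw [e1, hmul _ (hFi.anti d h1) x hx, (hker _ (hFi.anti d h1)).mpr h1, zero_add]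
        rw [h2]
      · intro γ hγ hγd
        obtain ⟨x, hx, hfx⟩ := hne
        have h1 := hch γ hγd x hx
        have h2 : f (γ * x) = f x := by
          have e1 : γ * x = (γ * x * γ⁻¹ * x⁻¹) * (x * γ) := by group
          have h3 : γ * x * γ⁻¹ * x⁻¹ ∈ M := by
            have := M.inv_mem (hcG x hx γ hγd)
            have e2 : (x * γ * x⁻¹ * γ⁻¹)⁻¹ = γ * x * γ⁻¹ * x⁻¹ := by group
            rwa [e2] at this
          rw [e1, f1.fn.inv _ h3 _ (G.mul_mem hx (hdG hγd)), f1.fn.lat x hx γ hγ (hdG hγd)]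
        rw [h2] at h1
        have h3 : ee (ξ γ) = 1 := by
          exact (mul_right_cancel₀ hfx (by rw [one_mul]; exact h1)).symm
        obtain ⟨j, hj⟩ := (ee_eq_one_iff _).mp h3
        exact ⟨j, hj⟩
      · intro x hx
        have h0 := (hker x (hFi.anti d hx)).mpr hx
        simp [hξ, h0]
      · have : ContinuousOn (fun w => ∑ i, (kk i : ℝ) * π w i) (Gf d : Set U) := by
          refine continuousOn_finsetSum _ fun i _ => ?_
          exact continuousOn_const.mul ((continuous_apply i).comp_continuousOn hcont)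
        exact this
    · push Not at hne
      refine ⟨fun _ => 0, f1.fn, f1.le, hVk, ⟨?_, ?_, ?_, ?_, ?_⟩, ?_⟩
      · intros; simp
      · intros; rfl
      · intros; exact ⟨0, by simp⟩
      · intros; rfl
      · exact continuousOn_const
      · intro w hw x hx
        rw [hne _ (G.mul_mem (hdG hw) hx), hne x hx, mul_zero]
  choose! ξ hξ using main
  refine ⟨l.length, fun i => ξ (l.get i), fun i => l.get i, fun i => ?_, fun x hx => ?_⟩
  · exact hξ _ (l.get_mem i)
  · have h1 := hl' x hx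
    have e1 : (∑ i : Fin l.length, l.get i x) = (l.map fun f => f x).sum := by
      rw [← List.sum_ofFn]
      congr 1
      conv_rhs => rw [← List.ofFn_get l]
      rw [List.map_ofFn]
      rfl
    rw [e1]
    exact h1

end

end Pool.Agent.NG
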