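import Mathlib
import Pool.Agent.Lib.NG.B
import Pool.Agent.Lib.NG.FIL
import Pool.Agent.Lib.NG.LBM

/-!
# NVG2 (MP_663568_nt), row HPS: the sequence in the square is a polynomial sequence (helper60)
-/

set_option autoImplicit false
open Finset Topology

namespace Pool.Agent.NG

noncomputable section

open Amb Pool.Agent.Lib.MP_663568_nt Pool.Agent.Lib.MP_663568_nt.Katai Pool.Agent.NV

namespace Hps

variable {U : Type} [Amb U] {Gf : ℕ → Subgroup U} {d : ℕ}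

theorem foldr_pr (g g' : ℤ → U) (l : List ℤ) :
    l.foldr dif (fun n => (g n, g' n)) = fun n => (l.foldr dif g n, l.foldr dif g' n) := by
  induction l with
  | nil => rfl
  | cons h l ih =>
    simp only [List.foldr_cons, ih]
    rfl

theorem foldr_one (l : List ℤ) : l.foldr dif (fun _ : ℤ => (1 : U)) = fun _ => 1 := by
  induction l with
  | nil => rfl
  | cons h l ih =>
    simp only [List.foldr_cons, ih]
    funext n
    simp [dif]

/-- The first factor. -/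
theorem ps_left (hF : FIB_stmt) (h : Filt Gf d) (hd : 2 ≤ d) {y : ℤ → U} (hy : PS Gf 1 y)
    (hy2 : ∀ n, y n ∈ Gf 2) : PS (Gsq Gf d) 0 fun n => (y n, (1 : U)) := by
  intro l n
  rw [foldr_pr y (fun _ => 1), foldr_one, FIL.mem_Gsq pwj hF h (by omega)]
  refine ⟨(Gf _).one_mem, ?_⟩
  simp only [inv_one, mul_one]
  have h1 : l.foldr dif y n ∈ Gf (1 + l.length) := hy l n
  rcases Nat.eq_zero_or_pos l.length with h0 | h0
  · have h2 : l.foldr dif y n ∈ Gf 2 := Lbm.foldr_val hy2 l n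
    have e : FIL.lv d (0 + l.length) + 1 = 2 := by unfold FIL.lv; omega
    rw [e]; exact h2
  · refine FIL.anti_le h ?_ h1
    unfold FIL.lv; omega

/-- The diagonal. -/
theorem ps_diag (hF : FIB_stmt) (h : Filt Gf d) (hd : 2 ≤ d) {g : ℤ → U} (hg : PS Gf 0 g) :
    PS (Gsq Gf d) 0 fun n => (g n, g n) := by
  intro l n
  rw [foldr_pr g g, FIL.mem_Gsq pwj hF h (by omega)]
  have h1 : l.foldr dif g n ∈ Gf (0 + l.length) := hg l n
  refine ⟨?_, ?_⟩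
  · show l.foldr dif g n ∈ _
    rcases Nat.eq_zero_or_pos l.length with h0 | h0
    · have e : FIL.lv d (0 + l.length) = 1 := by unfold FIL.lv; omega
      rw [e, h.top]
      exact FIL.le0 h _ h1
    · refine FIL.anti_le h ?_ h1
      unfold FIL.lv; omega
  · show l.foldr dif g n * (l.foldr dif g n)⁻¹ ∈ _
    rw [mul_inv_cancel]
    exact (Gf _).one_mem

end Hps

open Hps in
/-- Row HPS. -/
theorem hps : HPS_stmt := by
  intro hFIB hFIL hLBM hLBN U _ Gf d hd hG D kp e κ hC g a hg hS s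
  obtain ⟨m1, m2, m3, m4, m5, m6, m7⟩ := hLBM U ℤ Gf d hG
  obtain ⟨q1, q2, q3, q4, q5, q6, q7⟩ := hLBM (U × U) ℤ (Gsq Gf d) (d - 1) ((hFIL U Gf d hG).1 hd)
  set t₁ := tau e (fr s a) with ht1
  set t₂ := tau e (fl s a) with ht2
  have k1 : t₁ ∈ Gf 0 ∧ kp t₁ = fr s a := hC.tau _
  have k2 : t₂ ∈ Gf 0 ∧ kp t₂ = fl s a := hC.tau _
  have kone : kp 1 = 0 := (hC.ker 1 (Gf 0).one_mem).2 (Gf 2).one_mem
  have kinv : ∀ x ∈ Gf 0, kp x⁻¹ = - kp x := by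
    intro x hx
    have := hC.mul x hx x⁻¹ ((Gf 0).inv_mem hx)
    rw [mul_inv_cancel, kone] at this
    exact (neg_eq_of_add_eq_zero_right this.symm).symm
  set y : ℤ → U := fun m => t₁⁻¹ * g (m + s) * t₂⁻¹ * (g m)⁻¹ with hy
  have hg' : PS Gf 0 fun m : ℤ => g (m + s) :=
    (hLBN U ℤ Gf 0 g).1 ℤ (AddMonoidHom.id ℤ) (s : ℤ) hg
  have y1 : PS Gf 1 y := by
    have c1 : PS Gf 1 fun _ : ℤ => t₁⁻¹ := m4 1 _ (by rw [hG.top]; exact (Gf 0).inv_mem k1.1)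
    have c2 : PS Gf 1 fun _ : ℤ => t₂⁻¹ := m4 1 _ (by rw [hG.top]; exact (Gf 0).inv_mem k2.1)
    have c3 : PS Gf (0 + 1) fun m : ℤ => g (m + s) * t₂⁻¹ * (g (m + s))⁻¹ * (t₂⁻¹)⁻¹ :=
      m3 0 1 _ _ hg' c2
    rw [zero_add] at c3
    have c4 : PS Gf 1 (dif (s : ℤ) g) := ((m6 0 g).1 hg).2 s
    have c5 := m1 1 _ _ (m1 1 _ _ (m1 1 _ _ c1 c3) c2) c4
    have e1 : (fun n : ℤ => t₁⁻¹ * (g (n + s) * t₂⁻¹ * (g (n + s))⁻¹ * (t₂⁻¹)⁻¹) * t₂⁻¹ *
        dif (s : ℤ) g n) = y := by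
      funext n
      simp only [hy, dif]
      group
    rwa [e1] at c5
  have y2 : ∀ m, y m ∈ Gf 2 := by
    intro m
    have h1 : t₁⁻¹ ∈ Gf 0 := (Gf 0).inv_mem k1.1
    have h2 : t₁⁻¹ * g (m + s) ∈ Gf 0 := (Gf 0).mul_mem h1 (hS.1 _)
    have h3 : t₁⁻¹ * g (m + s) * t₂⁻¹ ∈ Gf 0 := (Gf 0).mul_mem h2 ((Gf 0).inv_mem k2.1)
    have h4 : y m ∈ Gf 0 := (Gf 0).mul_mem h3 ((Gf 0).inv_mem (hS.1 _))
    refine (hC.ker _ h4).1 ?_
    show kp (t₁⁻¹ * g (m + s) * t₂⁻¹ * (g m)⁻¹) = 0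
    rw [hC.mul _ h3 _ ((Gf 0).inv_mem (hS.1 _)), hC.mul _ h2 _ ((Gf 0).inv_mem k2.1),
      hC.mul _ h1 _ (hS.1 _), kinv _ k1.1, kinv _ k2.1, kinv _ (hS.1 _), k1.2, k2.2,
      hS.2 (m + s), hS.2 m]
    funext i
    simp only [Pi.add_apply, Pi.neg_apply, Pi.smul_apply, smul_eq_mul, fr, fl, Pi.zero_apply,
      Int.cast_add, Int.cast_natCast]
    have := Int.floor_add_fract ((s : ℝ) * a i)
    linarith
  have e2 : (fun n : ℤ => (y n, (1 : U)) * (g n, g n)) = hs e g a s := by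
    funext m
    simp only [hy, hs]
    refine Prod.ext ?_ ?_
    · show t₁⁻¹ * g (m + s) * t₂⁻¹ * (g m)⁻¹ * g m = _
      rw [inv_mul_cancel_right]
    · show 1 * g m = g m
      rw [one_mul]
  rw [← e2]
  exact q1 0 _ _ (ps_left hFIB hG hd y1 y2) (ps_diag hFIB hG hd hg)

end

end Pool.Agent.NG
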