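import Mathlib
import Pool.Agent.Lib.NG.B
import Pool.Agent.Lib.MP_663568_h6.Fejer

/-!
# NVG2 (MP_663568_nt), row LB1: the degrees `0` and `1`  (helper70)
-/

set_option autoImplicit false
open Finset Topology

namespace Pool.Agent.NG

noncomputable section

open Amb Pool.Agent.Lib.MP_663568_nt Pool.Agent.Lib.MP_663568_nt.Katai
  Pool.Agent.Lib.MP_663568_nt.Nul Pool.Agent.SV Pool.Agent.VQ Pool.Agent.NV

/-- A geometric sum with a shift. -/
theorem lb1_geom (a b : ℝ) (L : ℕ) (c : ℝ) (hc : 0 < c) (hL : 1 ≤ L)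
    (h : c * L ≤ ‖∑ m ∈ range L, ee (a + b * (m : ℝ))‖) : nd b ≤ 1 / (2 * c) / L := by
  have hL0 : (0 : ℝ) < L := by exact_mod_cast hL
  have e : ∑ m ∈ range L, ee (a + b * (m : ℝ)) = ee a * ∑ m ∈ range L, ee ((m : ℝ) * b) := by
    rw [mul_sum]
    apply sum_congr rfl
    intro m _
    rw [← ee_add]
    congr 1
    ring
  rw [e, norm_mul, norm_ee, one_mul] at h
  have h2 := Pool.Agent.Lib.MP_663568_nt.H6.norm_geom_le L b
  have h3 : c * L * (4 * nd b) ≤ 2 :=
    (mul_le_mul_of_nonneg_right h (by have := nd_nonneg b; linarith)).trans h2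
  rw [div_div, le_div_iff₀ (by positivity)]
  nlinarith

theorem lb1 : LB1_stmt := by
  intro hCHS hDEG hFUL
  constructor
  · intro U _ Gf hF z k hk hz
    exfalso
    apply hz.ne
    have h1 : Gf (0 + 1) = Gf 0 := hF.top
    rw [h1]
    exact hz.mem
  · intro U _ Gf hF z k hk hz F hFn hF1 hV c hc hc1
    obtain ⟨N, ξ, F', h1, h2⟩ := hFUL U Gf 1 le_rfl hF z k hz F hFn hF1 hV (c / 2) (by positivity)
    classical
    let I := {i : Fin N // Chr (Gf 0) (Gf 0) (Gf (1 + 1)) (ξ i)}
    let eqv := Fintype.equivFin I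
    refine ⟨Fintype.card I, fun j => ξ (eqv.symm j).1, 1 / (2 * (c / (2 * N))), 1, 1,
      by positivity, le_rfl, fun j => (eqv.symm j).2, ?_⟩
    intro L hL g hg hbig
    have hL0 : (0 : ℝ) < L := by exact_mod_cast hL
    have hgm : ∀ m, g m ∈ Gf 0 := fun m => hg [] m
    -- the sum over the characters
    have hsum : c / 2 * L ≤ ∑ i, ‖∑ m ∈ range L, F' i (g m)‖ := by
      have a1 : ∑ m ∈ range L, F (g m) = ∑ m ∈ range L, (F (g m) - ∑ i, F' i (g m))
          + ∑ i, ∑ m ∈ range L, F' i (g m) := by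
        rw [sum_comm, ← sum_add_distrib]
        apply sum_congr rfl
        intro m _
        ring
      have a2 : ‖∑ m ∈ range L, (F (g m) - ∑ i, F' i (g m))‖ ≤ c / 2 * L := by
        refine (norm_sum_le _ _).trans ?_
        refine (sum_le_sum fun (m : ℕ) _ => h2 (g m) (hgm m)).trans ?_
        rw [sum_const, card_range, nsmul_eq_mul]
        linarith
      have a3 : ‖∑ i, ∑ m ∈ range L, F' i (g m)‖ ≤ ∑ i, ‖∑ m ∈ range L, F' i (g m)‖ :=
        norm_sum_le _ _
      have a4 := norm_add_le (∑ m ∈ range L, (F (g m) - ∑ i, F' i (g m)))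
        (∑ i, ∑ m ∈ range L, F' i (g m))
      rw [← a1] at a4
      linarith
    have hN : 0 < N := by
      rcases Nat.eq_zero_or_pos N with h0 | h0
      · exfalso
        subst h0
        rw [univ_eq_empty, sum_empty] at hsum
        have : 0 < c / 2 * L := by positivity
        linarith
      · exact h0
    have hN0 : (0 : ℝ) < N := by exact_mod_cast hN
    obtain ⟨i, hi⟩ : ∃ i, c / (2 * N) * L ≤ ‖∑ m ∈ range L, F' i (g m)‖ := by
      by_contra hcon
      push Not at hcon
      have a5 : ∑ i, ‖∑ m ∈ range L, F' i (g m)‖ < ∑ _i : Fin N, c / (2 * N) * L :=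
        sum_lt_sum_of_nonempty ⟨⟨0, hN⟩, mem_univ _⟩ fun i _ => hcon i
      rw [sum_const, card_univ, Fintype.card_fin, nsmul_eq_mul] at a5
      have a6 : (N : ℝ) * (c / (2 * N) * L) = c / 2 * L := by
        field_simp
      rw [a6] at a5
      linarith
    obtain ⟨f1, f2, f3, f4, f5⟩ := h1 i
    have htop : Gf 1 = Gf 0 := hF.top
    rw [htop] at f4 f5
    have hone : (1 : U) ∈ Gf 0 := (Gf 0).one_mem
    have hval : ∀ x ∈ Gf 0, F' i x = ee (ξ i x) * F' i 1 := by
      intro x hx
      have := f5 x hx 1 hone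
      rwa [mul_one] at this
    have hcL : 0 < c / (2 * N) * L := by positivity
    have hne : F' i 1 ≠ 0 := by
      intro h0
      have a7 : ∑ m ∈ range L, F' i (g m) = 0 := by
        apply sum_eq_zero
        intro m _
        rw [hval _ (hgm m), h0, mul_zero]
      rw [a7, norm_zero] at hi
      linarith
    -- the character is not zero
    have hpz : ∀ t : ℝ, pw t z ∈ Gf 0 := (hF.rat 0).pwc z hz.mem
    have hξz : ξ i z ≠ 0 := by
      intro h0
      have b1 : ∀ t : ℝ, ee (k * t) = 1 := by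
        intro t
        have b2 := f3 t 1 hone
        rw [mul_one, hval _ (hpz t), hCHS U (Gf 0) (ξ i) (hF.rat 0).pwc f4.mul f4.cont z hz.mem t,
          h0, mul_zero] at b2
        have b3 : ee (0 : ℝ) = 1 := by
          have := ee_int 0
          simpa using this
        rw [b3, one_mul] at b2
        exact (mul_right_cancel₀ hne (by rw [one_mul]; exact b2)).symm
      have hk0 : (k : ℝ) ≠ 0 := by exact_mod_cast hk
      obtain ⟨n, hn⟩ := (ee_eq_one_iff _).mp (b1 (1 / (2 * k)))
      have b4 : (k : ℝ) * (1 / (2 * k)) = 1 / 2 := by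
        field_simp
      rw [b4] at hn
      have b5 : (1 : ℝ) = ((2 * n : ℤ) : ℝ) := by
        push_cast
        linarith
      have b6 : (1 : ℤ) = 2 * n := by exact_mod_cast b5
      omega
    have hchr : Chr (Gf 0) (Gf 0) (Gf (1 + 1)) (ξ i) :=
      ⟨f4.mul, f4.inv, f4.int, f4.van, f4.cont, z, hz.mem, hξz⟩
    -- along the sequence
    have hGf : (fun j => Gf 0 ⊓ Gf j) = Gf := by
      funext j
      apply inf_eq_right.mpr
      induction j with
      | zero => exact le_rfl
      | succ j ih => exact (hF.anti j).trans ih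
    obtain ⟨p, hp⟩ := hDEG U Gf 1 (Gf 0) (ξ i) g f4.mul (fun x hx => f4.van x hx.2) (by
      rw [hGf]
      exact hg)
    have hp' : ∀ m : ℤ, ξ i (g m) = p 0 + p 1 * (m : ℝ) := by
      intro m
      rw [hp m, pol, sum_range_succ, sum_range_one, pow_zero, mul_one, pow_one]
    refine ⟨eqv ⟨i, hchr⟩, p, ?_, ?_⟩
    · intro m
      simp only [Equiv.symm_apply_apply]
      exact hp m
    · intro j hj1 hj2
      have hj : j = 1 := by omega
      subst hj
      rw [Nat.cast_one, one_mul, pow_one]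
      apply lb1_geom (p 0) (p 1) L (c / (2 * N)) (by positivity) hL
      refine hi.trans ?_
      have c1 : ∑ m ∈ range L, F' i (g m) = (∑ m ∈ range L, ee (p 0 + p 1 * (m : ℝ))) * F' i 1 := by
        rw [sum_mul]
        apply sum_congr rfl
        intro m _
        rw [hval _ (hgm m), hp']
        push_cast
        rfl
      rw [c1, norm_mul]
      calc _ ≤ ‖∑ m ∈ range L, ee (p 0 + p 1 * (m : ℝ))‖ * 1 :=
            mul_le_mul_of_nonneg_left (f2 1 hone) (norm_nonneg _)
        _ = _ := mul_one _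

end

end Pool.Agent.NG
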