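import Mathlib
import Pool.Agent.Lib.NG.ARows
import Pool.Agent.Lib.NG.PWB
import Pool.Agent.Lib.NG.CLS

/-!
# NVG2 (MP_663568_nt), row LEV: a character of `J` is detected by an element of the lattice at its
last level  (helper40)
-/

set_option autoImplicit false
open Finset Topology

namespace Pool.Agent.NG

noncomputable section

open Amb Pool.Agent.Lib.MP_663568_nt Pool.Agent.Lib.MP_663568_nt.Katai

/-- A non-zero continuous additive function on a rational group, which is integral on the lattice,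
is not zero on the lattice. -/
theorem lev_aux {U : Type} [Amb U] (hC : CHS_stmt) (H : Subgroup U) (χ : U → ℝ) (hH : Rat H)
    (hmul : ∀ x ∈ H, ∀ y ∈ H, χ (x * y) = χ x + χ y)
    (hint : ∀ γ ∈ (La : Subgroup U), γ ∈ H → ∃ j : ℤ, χ γ = j)
    (hcont : ContinuousOn χ (H : Set U)) (x : U) (hx : x ∈ H) (hne : χ x ≠ 0) :
    ∃ (M : ℕ) (γ : U), 1 ≤ M ∧ γ ∈ (La : Subgroup U) ∧ γ ∈ H ∧ χ γ = M := by
  have hone : χ 1 = 0 := by
    have h := hmul 1 H.one_mem 1 H.one_mem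
    rw [mul_one] at h
    linarith
  have hinv : ∀ y ∈ H, χ y⁻¹ = - χ y := by
    intro y hy
    have h := hmul y hy y⁻¹ (H.inv_mem hy)
    rw [mul_inv_cancel, hone] at h
    linarith
  by_contra hcon
  have hzero : ∀ γ ∈ (La : Subgroup U), γ ∈ H → χ γ = 0 := by
    intro γ hγ hγH
    obtain ⟨j, hj⟩ := hint γ hγ hγH
    rcases lt_trichotomy j 0 with h | h | h
    · exfalso
      apply hcon
      refine ⟨(-j).toNat, γ⁻¹, by omega, (La : Subgroup U).inv_mem hγ, H.inv_mem hγH, ?_⟩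
      rw [hinv γ hγH, hj]
      have h2 : (((-j).toNat : ℕ) : ℤ) = -j := Int.toNat_of_nonneg (by omega)
      have h3 : (((-j).toNat : ℕ) : ℝ) = ((((-j).toNat : ℕ) : ℤ) : ℝ) := by push_cast; rfl
      rw [h3, h2]
      push_cast
      ring
    · rw [hj, h]
      simp
    · exfalso
      apply hcon
      refine ⟨j.toNat, γ, by omega, hγ, hγH, ?_⟩
      have h2 : ((j.toNat : ℕ) : ℤ) = j := Int.toNat_of_nonneg (by omega)
      have h3 : ((j.toNat : ℕ) : ℝ) = (((j.toNat : ℕ) : ℤ) : ℝ) := by push_cast; rfl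
      rw [hj, h3, h2]
  obtain ⟨K, hK, hKH, hcoc⟩ := hH.coc
  obtain ⟨B, hB⟩ := hK.exists_bound_of_continuousOn (hcont.mono hKH)
  have hbd : ∀ y ∈ H, |χ y| ≤ B := by
    intro y hy
    obtain ⟨k, hk, γ, hγ, hγH, hyk⟩ := hcoc y hy
    rw [hyk, hmul k (hKH hk) γ hγH, hzero γ hγ hγH, add_zero]
    exact hB k hk
  have h1 := hbd _ (hH.pwc x hx ((B + 1) / χ x))
  rw [hC U H χ hH.pwc hmul hcont x hx, div_mul_cancel₀ _ hne] at h1
  have h2 := le_abs_self (B + 1)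
  linarith

theorem lev_of (hC : CHS_stmt) (hI : INT_stmt) : LEV_stmt := by
  intro U _ Gf d J χ hG hJ hN hle hJ0 hχ
  have hz : ∀ x ∈ J ⊓ Gf (d + 1), χ x = 0 := fun x hx => hχ.van x hx.2
  have hnz : ∃ x ∈ J ⊓ Gf 1, χ x ≠ 0 := by
    obtain ⟨x, hx, hne⟩ := hχ.ne
    refine ⟨x, ⟨hx, ?_⟩, hne⟩
    rw [hG.top]
    exact hJ0 hx
  classical
  -- the last level
  obtain ⟨j, hj1, hjd, hjn, hjz⟩ : ∃ j : ℕ, 1 ≤ j ∧ j ≤ d ∧ (∃ x ∈ J ⊓ Gf j, χ x ≠ 0) ∧
      ∀ x ∈ J ⊓ Gf (j + 1), χ x = 0 := by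
    have hex : ∃ j : ℕ, ∀ x ∈ J ⊓ Gf (j + 1), χ x = 0 := ⟨d, hz⟩
    have hm := Nat.find_spec hex
    have hmin := fun k (hk : k < Nat.find hex) => Nat.find_min hex hk
    have hled : Nat.find hex ≤ d := Nat.find_le hz
    rcases Nat.eq_zero_or_pos (Nat.find hex) with h0 | h0
    · exfalso
      obtain ⟨x, hx, hne⟩ := hnz
      rw [h0] at hm
      exact hne (hm x hx)
    · refine ⟨Nat.find hex, h0, hled, ?_, hm⟩
      have h := hmin (Nat.find hex - 1) (by omega)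
      rw [Nat.sub_add_cancel h0] at h
      push Not at h
      exact h
  obtain ⟨x, hx, hne⟩ := hjn
  have hH : Rat (J ⊓ Gf j) := hI U J (Gf j) hJ (hG.rat j)
  have hmul : ∀ x ∈ J ⊓ Gf j, ∀ y ∈ J ⊓ Gf j, χ (x * y) = χ x + χ y :=
    fun x hx y hy => hχ.mul x hx.1 y hy.1
  have hcont : ContinuousOn χ ((J ⊓ Gf j : Subgroup U) : Set U) :=
    hχ.cont.mono fun y hy => hy.1
  obtain ⟨M, γ, hM, hγ, hγH, hγM⟩ := lev_aux hC (J ⊓ Gf j) χ hH hmul
    (fun γ hγ hγH => hχ.int γ hγ hγH.1) hcont x hx hne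
  have hM0 : (M : ℝ) ≠ 0 := by
    have : (1 : ℝ) ≤ M := by exact_mod_cast hM
    linarith
  refine ⟨j, M, pw (1 / (M : ℝ)) γ, hj1, hjd, hM, hH.pwc γ hγH _, hjz, ?_, ?_⟩
  · rw [hC U (J ⊓ Gf j) χ hH.pwc hmul hcont γ hγH, hγM]
    field_simp
  · rw [← pw_mul, mul_one_div_cancel hM0, pw_one]
    exact hγ

theorem lev : LEV_stmt := lev_of chs int_row

end

end Pool.Agent.NG
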