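import Mathlib
import Pool.Agent.Lib.NG.B

/-!
# NVG2 (MP_663568_nt), row LZA: the induction  (helper32)
-/

set_option autoImplicit false
open Finset Topology

namespace Pool.Agent.NG

/-- **row LZA** -/
theorem lza : LZA_stmt := by
  rintro ⟨h0, h1⟩ hR hS d
  induction d using Nat.strong_induction_on with
  | _ d ih =>
    rcases Nat.lt_or_ge d 2 with h | h
    · interval_cases d
      · exact h0
      · exact h1
    intro U _
    have key : ∀ n : ℕ, ∀ Gf : ℕ → Subgroup U, Filt Gf d → rkF Gf d = n → LBF Gf d := by
      intro n
      induction n using Nat.strong_induction_on with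
      | _ n ihn =>
        intro Gf hG hn
        refine hS U Gf d h hG (ih (d - 1) (by omega)) fun χ hχ hne => ?_
        obtain ⟨h2, -, -, h3, -⟩ := hR U Gf d h hG χ hχ hne
        exact ihn _ (hn ▸ h3) _ h2 rfl
    intro Gf hG
    exact key _ Gf hG rfl

end Pool.Agent.NG
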