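import Mathlib
import Pool.Agent.Lib.NG.B
import Pool.Agent.Lib.NG.BoxS
import Pool.Agent.Lib.NG.LBN

/-!
# NVG2 (MP_663568_nt), row LZN: the inverse theorem in the form used in the boxes

helper59.
-/

set_option autoImplicit false
open Finset

namespace Pool.Agent.NG

noncomputable section

open Amb Pool.Agent.Lib.MP_663568_nt Pool.Agent.Lib.MP_663568_nt.Katai
  Pool.Agent.Lib.MP_663568_nt.Nul Pool.Agent.SV Pool.Agent.VQ Pool.Agent.NV

theorem sum_box_one {β : Type} [AddCommMonoid β] (L : Fin 1 → ℕ) (f : (Fin 1 → ℤ) → β) :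
    ∑ x ∈ box L, f x = ∑ m ∈ range (L 0), f fun _ => (m : ℤ) := by
  rw [← sum_Ico_cast (L 0) fun m : ℤ => f fun _ => m]
  refine sum_nbij' (fun x => x 0) (fun m _ => m) ?_ ?_ ?_ ?_ ?_
  · intro x hx
    rw [mem_box] at hx
    exact mem_Ico.2 (hx 0)
  · intro m hm
    rw [mem_box]
    intro i
    rw [Subsingleton.elim i 0]
    exact mem_Ico.1 hm
  · intro x _
    funext i
    rw [Subsingleton.elim i 0]
  · intro m _; rfl
  · intro x _
    congr 1
    funext i
    rw [Subsingleton.elim i 0]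

/-- Row LZN. -/
theorem lzn : LZN_stmt := by
  intro hLZ U _ Gf d z k F c hfil hcen hk hF hV hc
  obtain ⟨B₀, hB₀⟩ := hF.bd
  set B : ℝ := max B₀ 0 + 1 with hB
  have hBp : 0 < B := by
    have := le_max_right B₀ 0
    linarith
  set F₁ : U → ℂ := fun x => ((1 / B : ℝ) : ℂ) * F x with hF₁
  have hn : ∀ x, ‖F₁ x‖ = ‖F x‖ / B := by
    intro x
    rw [hF₁]
    show ‖((1 / B : ℝ) : ℂ) * F x‖ = _
    rw [norm_mul, Complex.norm_real, Real.norm_of_nonneg (by positivity)]
    ring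
  have hFn : Fn (Gf 0) (Gf (d + 1)) F₁ := by
    refine ⟨⟨B₀ / B, fun x hx => ?_⟩, fun ε hε => ?_, fun x hx γ hγ hγ' => ?_, fun m hm x hx => ?_⟩
    · rw [hn]
      have := hB₀ x hx
      gcongr
    · obtain ⟨ρ, h1, h2⟩ := hF.uc (ε * B) (by positivity)
      refine ⟨ρ, h1, fun k' hk' hk'' x hx => ?_⟩
      have h3 : F₁ (k' * x) - F₁ x = ((1 / B : ℝ) : ℂ) * (F (k' * x) - F x) := by
        simp only [hF₁]; ring
      rw [h3, norm_mul, Complex.norm_real, Real.norm_of_nonneg (by positivity)]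
      calc 1 / B * ‖F (k' * x) - F x‖ ≤ 1 / B * (ε * B) := by
            have := h2 k' hk' hk'' x hx
            gcongr
        _ = ε := by field_simp
    · simp only [hF₁]
      rw [hF.lat x hx γ hγ hγ']
    · simp only [hF₁]
      rw [hF.inv m hm x hx]
  have hV₁ : Vrt (Gf 0) F₁ z k := by
    intro t x hx
    simp only [hF₁]
    rw [hV t x hx]
    ring
  have hb₁ : ∀ x ∈ Gf 0, ‖F₁ x‖ ≤ 1 := by
    intro x hx
    rw [hn, div_le_one hBp]
    have h1 := hB₀ x hx
    have h2 := le_max_left B₀ 0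
    linarith
  set c₁ : ℝ := min 1 (c / B) with hc₁
  have hc₁p : 0 < c₁ := lt_min one_pos (by positivity)
  obtain ⟨N, X, E, Q, L₀, hE, hQ, hX, hmain⟩ := hLZ d U Gf hfil z k hk hcen F₁ hFn hb₁ hV₁ c₁
    hc₁p (min_le_left _ _)
  refine ⟨List.ofFn X, E, Q, L₀, fun χ hχ => ?_, hE, hQ, ?_⟩
  · obtain ⟨i, rfl⟩ := (List.mem_ofFn' X χ).1 hχ
    exact hX i
  intro L hL g hg hs
  have hg₁ : PS Gf 0 fun m : ℤ => g fun _ => m := by
    have h1 := (lbn U (Fin 1 → ℤ) Gf 0 g).1 ℤ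
      { toFun := fun m _ => m, map_zero' := rfl, map_add' := fun _ _ => rfl } 0 hg
    simpa using h1
  obtain ⟨i, cc, h1, h2⟩ := hmain (L 0) (hL 0) (fun m : ℤ => g fun _ => m) hg₁ (by
    rw [sum_box_one] at hs
    simp only [univ_unique, Fin.default_eq_zero, prod_singleton] at hs
    have h3 : ∑ m ∈ range (L 0), F₁ (g fun _ => (m : ℤ)) =
        ((1 / B : ℝ) : ℂ) * ∑ m ∈ range (L 0), F (g fun _ => (m : ℤ)) := by
      rw [mul_sum]
    rw [h3, norm_mul, Complex.norm_real, Real.norm_of_nonneg (by positivity)]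
    calc c₁ * (L 0 : ℝ) ≤ c / B * L 0 := by
          gcongr
          exact min_le_right _ _
      _ = 1 / B * (c * L 0) := by ring
      _ ≤ _ := by gcongr)
  refine ⟨X i, (List.mem_ofFn' X _).2 ⟨i, rfl⟩, fun a => cc (a 0), fun x => ?_, fun a ha => ?_⟩
  · have hx : (fun _ => x 0) = x := funext fun i => by rw [Subsingleton.elim i 0]
    have h3 : X i (g x) = pol d cc (x 0) := by
      rw [← h1 (x 0)]
      show _ = X i (g fun _ => x 0)
      rw [hx]
    show X i (g x) = _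
    rw [h3]
    have h4 : (fun i : Fin 1 => (x i : ℝ)) = fun _ => (x 0 : ℝ) :=
      funext fun i => by rw [Subsingleton.elim i 0]
    rw [h4, mev_one, pol, ← Fin.sum_univ_eq_sum_range (fun j => cc j * (x 0 : ℝ) ^ j)]
  · have ha0 : a 0 ≠ 0 := fun h => ha (funext fun i => by rw [Subsingleton.elim i 0]; exact h)
    have ha1 : 1 ≤ ((a 0 : Fin (d + 1)) : ℕ) :=
      Nat.one_le_iff_ne_zero.2 fun h => ha0 (Fin.ext h)
    have ha2 := (a 0).2
    have h3 := near_of_nd hQ (h2 (a 0 : ℕ) ha1 (by omega))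
    simp only [univ_unique, Fin.default_eq_zero, prod_singleton]
    exact h3

end

end Pool.Agent.NG
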