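import Mathlib
import Pool.Agent.Lib.NG.B

/-!
# NVG2 (MP_663568_nt), part B: elementary properties of `NrZ` (helper11)
-/

set_option autoImplicit false
open Finset

namespace Pool.Agent.NG

open Amb Pool.Agent.Lib.MP_663568_nt Pool.Agent.Lib.MP_663568_nt.Katai
  Pool.Agent.Lib.MP_663568_nt.Nul

theorem pol_add (d : ℕ) (c c' : ℕ → ℝ) (m : ℤ) :
    pol d (fun j => c j + c' j) m = pol d c m + pol d c' m := by
  unfold pol
  rw [← sum_add_distrib]
  exact sum_congr rfl fun j _ => by ring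

theorem pol_smul (d : ℕ) (k : ℝ) (c : ℕ → ℝ) (m : ℤ) :
    pol d (fun j => k * c j) m = k * pol d c m := by
  unfold pol
  rw [mul_sum]
  exact sum_congr rfl fun j _ => by ring

theorem pol_sub (d : ℕ) (c c' : ℕ → ℝ) (m : ℤ) :
    pol d (fun j => c j - c' j) m = pol d c m - pol d c' m := by
  unfold pol
  rw [← sum_sub_distrib]
  exact sum_congr rfl fun j _ => by ring

/-- Padding by zero coefficients. -/
theorem pol_pad {d d' : ℕ} (h : d ≤ d') (c : ℕ → ℝ) (m : ℤ) :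
    pol d' (fun j => if j ≤ d then c j else 0) m = pol d c m := by
  unfold pol
  rw [← sum_subset (range_mono (by omega : d + 1 ≤ d' + 1))]
  · exact sum_congr rfl fun j hj => by
      beta_reduce
      rw [if_pos (by have := mem_range.mp hj; omega)]
  · intro j _ hj
    beta_reduce
    rw [if_neg (by intro h; exact hj (mem_range.mpr (by omega))), zero_mul]

namespace NrZ

variable {t d : ℕ} {E E' : ℝ} {Q L : ℕ} {P : ℤ → ℝ}

theorem mono (h : NrZ t d E Q L P) (hE : E ≤ E') : NrZ t d E' Q L P := by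
  obtain ⟨c, h1, h2⟩ := h
  refine ⟨c, h1, fun j hj hj' => (h2 j hj hj').trans ?_⟩
  gcongr

theorem congr {P' : ℤ → ℝ} (h : NrZ t d E Q L P) (hP : ∀ m, P' m = P m) : NrZ t d E Q L P' := by
  obtain ⟨c, h1, h2⟩ := h
  exact ⟨c, fun m => by rw [hP, h1], h2⟩

theorem down {t' : ℕ} (h : NrZ t d E Q L P) (ht : t ≤ t') : NrZ t' d E Q L P := by
  obtain ⟨c, h1, h2⟩ := h
  exact ⟨c, h1, fun j hj hj' => h2 j (ht.trans hj) hj'⟩

/-- A multiple of the denominator. -/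
theorem mulQ (h : NrZ t d E Q L P) (k : ℕ) : NrZ t d (k * E) (k * Q) L P := by
  obtain ⟨c, h1, h2⟩ := h
  refine ⟨c, h1, fun j hj hj' => ?_⟩
  have h3 := nd_nat_mul_le k ((Q : ℝ) * c j)
  have h4 : ((k * Q : ℕ) : ℝ) * c j = k * (Q * c j) := by push_cast; ring
  rw [h4]
  refine h3.trans ?_
  rw [mul_div_assoc]
  exact mul_le_mul_of_nonneg_left (h2 j hj hj') (Nat.cast_nonneg _)

/-- A longer interval. -/
theorem len {K : ℝ} {L' : ℕ} (h : NrZ t d E Q L' P) (hE : 0 ≤ E) (hK : 1 ≤ K) (hL0 : 1 ≤ L)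
    (hL : (L : ℝ) ≤ K * L') : NrZ t d (E * K ^ d) Q L P := by
  obtain ⟨c, h1, h2⟩ := h
  refine ⟨c, h1, fun j hj hj' => (h2 j hj hj').trans ?_⟩
  have hLp : (0 : ℝ) < L := by exact_mod_cast hL0
  have hK0 : 0 < K := by linarith
  have hL'p : (0 : ℝ) < L' := by
    by_contra h0
    push Not at h0
    nlinarith
  have h3 : (L : ℝ) ^ j ≤ K ^ d * (L' : ℝ) ^ j := by
    calc (L : ℝ) ^ j ≤ (K * L') ^ j := pow_le_pow_left₀ hLp.le hL j
      _ = K ^ j * (L' : ℝ) ^ j := mul_pow _ _ _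
      _ ≤ K ^ d * (L' : ℝ) ^ j := by
          have := pow_le_pow_right₀ hK hj'
          gcongr
  rw [div_le_div_iff₀ (pow_pos hL'p j) (pow_pos hLp j)]
  calc E * (L : ℝ) ^ j ≤ E * (K ^ d * (L' : ℝ) ^ j) := mul_le_mul_of_nonneg_left h3 hE
    _ = E * K ^ d * (L' : ℝ) ^ j := by ring

/-- A larger degree. -/
theorem deg {d' : ℕ} (h : NrZ t d E Q L P) (hE : 0 ≤ E) (hd : d ≤ d') : NrZ t d' E Q L P := by
  obtain ⟨c, h1, h2⟩ := h
  refine ⟨fun j => if j ≤ d then c j else 0, fun m => by rw [pol_pad hd, h1], fun j hj _ => ?_⟩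
  simp only
  split_ifs with h3
  · exact h2 j hj h3
  · rw [mul_zero]
    have : nd 0 = 0 := by simpa using nd_int 0
    rw [this]
    positivity

/-- Adding a smooth polynomial. -/
theorem addS (h : NrZ t d E Q L P) (S : ℕ → ℝ) (hS : ∀ j, |S j| ≤ E' / (L : ℝ) ^ j) :
    NrZ t d (E + Q * E') Q L fun m => P m + pol d S m := by
  obtain ⟨c, h1, h2⟩ := h
  refine ⟨fun j => c j + S j, fun m => by beta_reduce; rw [pol_add, h1], fun j hj hj' => ?_⟩
  have h3 : (Q : ℝ) * (c j + S j) = Q * c j + Q * S j := by ring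
  rw [h3]
  refine (nd_add_le _ _).trans ?_
  have h4 : nd ((Q : ℝ) * S j) ≤ Q * E' / (L : ℝ) ^ j := by
    refine (nd_le_abs _).trans ?_
    rw [abs_mul, Nat.abs_cast, mul_div_assoc]
    exact mul_le_mul_of_nonneg_left (hS j) (Nat.cast_nonneg _)
  rw [add_div]
  exact add_le_add (h2 j hj hj') h4

/-- Adding a rational polynomial. -/
theorem addR (h : NrZ t d E Q L P) (R : ℕ → ℝ) (hR : ∀ j, ∃ n : ℤ, (Q : ℝ) * R j = n) :
    NrZ t d E Q L fun m => P m + pol d R m := by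
  obtain ⟨c, h1, h2⟩ := h
  refine ⟨fun j => c j + R j, fun m => by beta_reduce; rw [pol_add, h1], fun j hj hj' => ?_⟩
  obtain ⟨n, hn⟩ := hR j
  have h3 : (Q : ℝ) * (c j + R j) = Q * c j + n := by rw [← hn]; ring
  rw [h3, nd_add_int]
  exact h2 j hj hj'

/-- Integral multiples. -/
theorem zmul (h : NrZ t d E Q L P) (k : ℤ) : NrZ t d (|(k : ℝ)| * E) Q L fun m => k * P m := by
  obtain ⟨c, h1, h2⟩ := h
  refine ⟨fun j => k * c j, fun m => by beta_reduce; rw [pol_smul, h1], fun j hj hj' => ?_⟩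
  have h3 : (Q : ℝ) * (k * c j) = k * (Q * c j) := by ring
  rw [h3, mul_div_assoc]
  exact (nd_int_mul_le k _).trans (mul_le_mul_of_nonneg_left (h2 j hj hj') (abs_nonneg _))

end NrZ

/-- Common constants for finitely many. -/
theorem nrZ_unif {ι : Type} (s : Finset ι) (E : ι → ℝ) (Q : ι → ℕ) (hE : ∀ i, 0 ≤ E i)
    (hQ : ∀ i, 1 ≤ Q i) : ∃ (E' : ℝ) (Q' : ℕ), 0 ≤ E' ∧ 1 ≤ Q' ∧ ∀ i ∈ s, ∀ (t d L : ℕ)
      (P : ℤ → ℝ), NrZ t d (E i) (Q i) L P → NrZ t d E' Q' L P := by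
  classical
  refine ⟨(∏ i ∈ s, (Q i : ℝ)) * ∑ i ∈ s, E i, ∏ i ∈ s, Q i,
    mul_nonneg (prod_nonneg fun i _ => Nat.cast_nonneg _) (sum_nonneg fun i _ => hE i),
    Nat.pos_of_ne_zero (prod_ne_zero_iff.mpr fun i _ => by have := hQ i; omega), ?_⟩
  intro i hi t d L P h
  have h1 := h.mulQ (∏ j ∈ s.erase i, Q j)
  have h2 : (∏ j ∈ s.erase i, Q j) * Q i = ∏ j ∈ s, Q j := prod_erase_mul s Q hi
  rw [h2] at h1
  refine h1.mono ?_
  have h3 : ((∏ j ∈ s.erase i, Q j : ℕ) : ℝ) ≤ ∏ j ∈ s, (Q j : ℝ) := by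
    rw [← Nat.cast_prod]
    have : ∏ j ∈ s.erase i, Q j ≤ ∏ j ∈ s, Q j := by
      rw [← h2]
      exact Nat.le_mul_of_pos_right _ (hQ i)
    exact_mod_cast this
  have h4 : E i ≤ ∑ j ∈ s, E j := single_le_sum (fun j _ => hE j) hi
  exact mul_le_mul h3 h4 (hE i) (prod_nonneg fun i _ => Nat.cast_nonneg _)

/-- From a finite family to a family on `Fin N`. -/
theorem fin_family {α ι : Type} [Fintype ι] (X : ι → α) : ∃ (N : ℕ) (Y : Fin N → α),
    (∀ i, ∃ a, Y i = X a) ∧ ∀ a, ∃ i, Y i = X a := by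
  classical
  refine ⟨Fintype.card ι, fun i => X ((Fintype.equivFin ι).symm i), fun i => ⟨_, rfl⟩, fun a =>
    ⟨Fintype.equivFin ι a, by simp⟩⟩

/-- A large sum is large on a progression. -/
theorem large_prog (f : ℕ → ℂ) (hf : ∀ m, ‖f m‖ ≤ 1) (c : ℝ) (L q l : ℕ) (hL : 1 ≤ L)
    (hl : 1 ≤ l) (hql : 4 * (q * l : ℝ) ≤ c * L) (h : c * L ≤ ‖∑ m ∈ range L, f m‖) :
    ∃ m < L, c / 2 * l ≤ ‖∑ n ∈ range l, f (m + q * n)‖ := by
  by_contra hcon
  push Not at hcon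
  have hlp : (0 : ℝ) < l := by exact_mod_cast hl
  have hLp : (0 : ℝ) < L := by exact_mod_cast hL
  have h1 : ∀ s : ℕ, ‖∑ m ∈ range L, f (m + s) - ∑ m ∈ range L, f m‖ ≤ 2 * s := by
    intro s
    have e1 : ∑ m ∈ range (s + L), f m = ∑ m ∈ range s, f m + ∑ m ∈ range L, f (s + m) :=
      sum_range_add f s L
    have e2 : ∑ m ∈ range (L + s), f m = ∑ m ∈ range L, f m + ∑ m ∈ range s, f (L + m) :=
      sum_range_add f L s
    have e3 : ∑ m ∈ range L, f (m + s) = ∑ m ∈ range L, f (s + m) :=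
      sum_congr rfl fun m _ => by rw [add_comm]
    have e4 : ∑ m ∈ range L, f (m + s) - ∑ m ∈ range L, f m =
        ∑ m ∈ range s, f (L + m) - ∑ m ∈ range s, f m := by
      rw [e3]
      rw [add_comm] at e2
      rw [e1] at e2
      linear_combination e2
    rw [e4]
    have b : ∀ g : ℕ → ℂ, (∀ m, ‖g m‖ ≤ 1) → ‖∑ m ∈ range s, g m‖ ≤ s := by
      intro g hg
      refine (norm_sum_le _ _).trans ?_
      calc ∑ m ∈ range s, ‖g m‖ ≤ ∑ m ∈ range s, (1 : ℝ) := sum_le_sum fun m _ => hg m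
        _ = s := by simp
    calc ‖∑ m ∈ range s, f (L + m) - ∑ m ∈ range s, f m‖
        ≤ ‖∑ m ∈ range s, f (L + m)‖ + ‖∑ m ∈ range s, f m‖ := norm_sub_le _ _
      _ ≤ s + s := add_le_add (b _ fun m => hf _) (b _ hf)
      _ = 2 * s := by ring
  set T : ℂ := ∑ n ∈ range l, ∑ m ∈ range L, f (m + q * n) with hT
  have h2 : ‖T‖ < c / 2 * l * L := by
    rw [hT, sum_comm]
    calc ‖∑ m ∈ range L, ∑ n ∈ range l, f (m + q * n)‖
        ≤ ∑ m ∈ range L, ‖∑ n ∈ range l, f (m + q * n)‖ := norm_sum_le _ _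
      _ < ∑ m ∈ range L, c / 2 * l := by
          refine sum_lt_sum_of_nonempty ⟨0, mem_range.mpr hL⟩ fun m hm => hcon m (mem_range.mp hm)
      _ = c / 2 * l * L := by rw [sum_const, card_range, nsmul_eq_mul]; ring
  have h3 : ‖T - (l : ℂ) * ∑ m ∈ range L, f m‖ ≤ l * (2 * (q * l)) := by
    have : T - (l : ℂ) * ∑ m ∈ range L, f m =
        ∑ n ∈ range l, (∑ m ∈ range L, f (m + q * n) - ∑ m ∈ range L, f m) := by
      rw [sum_sub_distrib, ← hT, sum_const, card_range, nsmul_eq_mul]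
    rw [this]
    refine (norm_sum_le _ _).trans ?_
    calc ∑ n ∈ range l, ‖∑ m ∈ range L, f (m + q * n) - ∑ m ∈ range L, f m‖
        ≤ ∑ n ∈ range l, (2 * (q * l) : ℝ) := by
          refine sum_le_sum fun n hn => (h1 (q * n)).trans ?_
          have : (n : ℝ) ≤ l := by exact_mod_cast (mem_range.mp hn).le
          push_cast
          gcongr
      _ = l * (2 * (q * l)) := by rw [sum_const, card_range, nsmul_eq_mul]
  have h4 : (l : ℝ) * ‖∑ m ∈ range L, f m‖ ≤ ‖T‖ + l * (2 * (q * l)) := by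
    have e : (l : ℂ) * ∑ m ∈ range L, f m = T - (T - (l : ℂ) * ∑ m ∈ range L, f m) := by ring
    have e2 : ‖(l : ℂ) * ∑ m ∈ range L, f m‖ = l * ‖∑ m ∈ range L, f m‖ := by
      rw [norm_mul, Complex.norm_natCast]
    rw [← e2, e]
    exact (norm_sub_le _ _).trans (add_le_add_right h3 _)
  have h5 : (l : ℝ) * (c * L) ≤ l * ‖∑ m ∈ range L, f m‖ := mul_le_mul_of_nonneg_left h hlp.le
  have h6 : (l : ℝ) * (4 * (q * l)) ≤ l * (c * L) := mul_le_mul_of_nonneg_left hql hlp.le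
  nlinarith

end Pool.Agent.NG
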