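import Mathlib
import Pool.Agent.Lib.NG.NrZ
import Pool.Agent.Lib.NG.PWB
import Pool.Agent.Lib.NG.LBM
import Pool.Agent.Lib.NG.LBN
import Pool.Agent.Lib.NG.FNC

/-!
# NVG2 (MP_663568_nt), part B, row OM0: reduction to the smaller filtration (helper11)
-/

set_option autoImplicit false
open Finset Topology

namespace Pool.Agent.NG

open Amb Pool.Agent.Lib.MP_663568_nt Pool.Agent.Lib.MP_663568_nt.Katai
  Pool.Agent.Lib.MP_663568_nt.Nul

/-- The size of a smooth polynomial. -/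
theorem abs_pol_le (d : ℕ) (S : ℕ → ℝ) (E : ℝ) (L : ℕ) (hL : 1 ≤ L)
    (hS : ∀ j, |S j| ≤ E / (L : ℝ) ^ j) (m : ℤ) (hm : |(m : ℝ)| ≤ 2 * L) :
    |pol d S m| ≤ (d + 1) * (E * 2 ^ d) := by
  have hLp : (0 : ℝ) < L := by exact_mod_cast hL
  have hE : 0 ≤ E := by
    have := (abs_nonneg _).trans (hS 0)
    simpa using this
  unfold pol
  refine (abs_sum_le_sum_abs _ _).trans ?_
  calc ∑ j ∈ range (d + 1), |S j * (m : ℝ) ^ j| ≤ ∑ j ∈ range (d + 1), E * 2 ^ d := by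
        refine sum_le_sum fun j hj => ?_
        rw [abs_mul, abs_pow]
        have h1 : |(m : ℝ)| ^ j ≤ (2 * L) ^ j := pow_le_pow_left₀ (abs_nonneg _) hm j
        calc |S j| * |(m : ℝ)| ^ j ≤ E / (L : ℝ) ^ j * (2 * L) ^ j :=
              mul_le_mul (hS j) h1 (by positivity) (by positivity)
          _ = E * 2 ^ j := by rw [mul_pow]; field_simp
          _ ≤ E * 2 ^ d := by
              have := pow_le_pow_right₀ (by norm_num : (1 : ℝ) ≤ 2)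
                (by have := mem_range.mp hj; omega : j ≤ d)
              gcongr
    _ = (d + 1) * (E * 2 ^ d) := by rw [sum_const, card_range, nsmul_eq_mul]; push_cast; ring

/-- The variation of a smooth polynomial. -/
theorem abs_pol_sub_le (d : ℕ) (S : ℕ → ℝ) (E : ℝ) (L : ℕ) (hL : 1 ≤ L)
    (hS : ∀ j, |S j| ≤ E / (L : ℝ) ^ j) (m m' : ℤ) (hm : |(m : ℝ)| ≤ 2 * L)
    (hm' : |(m' : ℝ)| ≤ 2 * L) :
    |pol d S m - pol d S m'| ≤ (d + 1) * (E * (d * 2 ^ d)) * (|(m : ℝ) - m'| / L) := by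
  have hLp : (0 : ℝ) < L := by exact_mod_cast hL
  have hE : 0 ≤ E := by
    have := (abs_nonneg _).trans (hS 0)
    simpa using this
  have hp : ∀ j : ℕ, |(m : ℝ) ^ j - (m' : ℝ) ^ j| ≤ |(m : ℝ) - m'| * (j * (2 * L) ^ (j - 1)) := by
    intro j
    induction j with
    | zero => simp
    | succ j ih =>
      have e : (m : ℝ) ^ (j + 1) - (m' : ℝ) ^ (j + 1) =
          (m - m') * (m : ℝ) ^ j + m' * ((m : ℝ) ^ j - (m' : ℝ) ^ j) := by ring
      rw [e]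
      refine (abs_add_le _ _).trans ?_
      rw [abs_mul, abs_mul, abs_pow]
      have h1 : |(m : ℝ)| ^ j ≤ (2 * L) ^ j := pow_le_pow_left₀ (abs_nonneg _) hm j
      rcases Nat.eq_zero_or_pos j with hj | hj
      · subst hj; simp
      · have h2 : (2 * (L : ℝ)) * (2 * L) ^ (j - 1) = (2 * L) ^ j := by
          rw [← pow_succ']
          congr 1
          omega
        have h3 : |(m' : ℝ)| * |(m : ℝ) ^ j - (m' : ℝ) ^ j| ≤
            (2 * L) * (|(m : ℝ) - m'| * (j * (2 * L) ^ (j - 1))) :=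
          mul_le_mul hm' ih (abs_nonneg _) (by positivity)
        have h4 : |(m : ℝ) - m'| * |(m : ℝ)| ^ j ≤ |(m : ℝ) - m'| * (2 * L) ^ j :=
          mul_le_mul_of_nonneg_left h1 (abs_nonneg _)
        have h5 : (2 * (L : ℝ)) * (|(m : ℝ) - m'| * (j * (2 * L) ^ (j - 1))) =
            |(m : ℝ) - m'| * (j * (2 * L) ^ j) := by rw [← h2]; ring
        rw [h5] at h3
        calc |(m : ℝ) - m'| * |(m : ℝ)| ^ j + |(m' : ℝ)| * |(m : ℝ) ^ j - (m' : ℝ) ^ j|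
            ≤ |(m : ℝ) - m'| * (2 * L) ^ j + |(m : ℝ) - m'| * (j * (2 * L) ^ j) :=
              add_le_add h4 h3
          _ = |(m : ℝ) - m'| * (((j + 1 : ℕ) : ℝ) * (2 * L) ^ (j + 1 - 1)) := by
              rw [Nat.add_sub_cancel]; push_cast; ring
  unfold pol
  rw [← sum_sub_distrib]
  refine (abs_sum_le_sum_abs _ _).trans ?_
  calc ∑ j ∈ range (d + 1), |S j * (m : ℝ) ^ j - S j * (m' : ℝ) ^ j|
      ≤ ∑ j ∈ range (d + 1), E * (d * 2 ^ d) * (|(m : ℝ) - m'| / L) := by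
        refine sum_le_sum fun j hj => ?_
        have hjd : j ≤ d := by have := mem_range.mp hj; omega
        have e : S j * (m : ℝ) ^ j - S j * (m' : ℝ) ^ j = S j * ((m : ℝ) ^ j - (m' : ℝ) ^ j) := by
          ring
        rw [e, abs_mul]
        calc |S j| * |(m : ℝ) ^ j - (m' : ℝ) ^ j|
            ≤ E / (L : ℝ) ^ j * (|(m : ℝ) - m'| * (j * (2 * L) ^ (j - 1))) :=
              mul_le_mul (hS j) (hp j) (abs_nonneg _) (by positivity)
          _ ≤ E * (d * 2 ^ d) * (|(m : ℝ) - m'| / L) := by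
              rcases Nat.eq_zero_or_pos j with hj0 | hj0
              · subst hj0
                simp
                positivity
              · have e2 : (L : ℝ) ^ j = L ^ (j - 1) * L := by
                  rw [← pow_succ]
                  congr 1
                  omega
                have e3 : E / (L : ℝ) ^ j * (|(m : ℝ) - m'| * (j * (2 * L) ^ (j - 1))) =
                    E * (j * 2 ^ (j - 1)) * (|(m : ℝ) - m'| / L) := by
                  rw [e2, mul_pow]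
                  field_simp
                rw [e3]
                have h6 : (2 : ℝ) ^ (j - 1) ≤ 2 ^ d :=
                  pow_le_pow_right₀ (by norm_num) (by omega)
                have h7 : (j : ℝ) ≤ d := by exact_mod_cast hjd
                gcongr
    _ = (d + 1) * (E * (d * 2 ^ d)) * (|(m : ℝ) - m'| / L) := by
        rw [sum_const, card_range, nsmul_eq_mul]; push_cast; ring

/-- Rational polynomials are periodic modulo integers. -/
theorem pol_period (d : ℕ) (R : ℕ → ℝ) (Q M : ℕ) (hQ : 1 ≤ Q)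
    (hR : ∀ j, ∃ n : ℤ, (Q : ℝ) * R j = n) (m n : ℤ) :
    ∃ k : ℤ, pol d R (m + (Q * M : ℕ) * n) = pol d R m + M * k := by
  have hQ0 : (Q : ℝ) ≠ 0 := by positivity
  choose r hr using hR
  have hd : ∀ j : ℕ, ∃ k : ℤ, (m + (Q * M : ℕ) * n) ^ j = m ^ j + (Q * M : ℕ) * k := by
    intro j
    have h := sub_dvd_pow_sub_pow (m + ((Q * M : ℕ) : ℤ) * n) m j
    have h2 : ((Q * M : ℕ) : ℤ) ∣ (m + ((Q * M : ℕ) : ℤ) * n) ^ j - m ^ j := by
      refine Dvd.dvd.trans ?_ h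
      exact ⟨n, by ring⟩
    obtain ⟨k, hk⟩ := h2
    exact ⟨k, by linarith⟩
  choose k hk using hd
  refine ⟨∑ j ∈ range (d + 1), r j * k j, ?_⟩
  unfold pol
  push_cast
  rw [mul_sum, ← sum_add_distrib]
  refine sum_congr rfl fun j _ => ?_
  have h1 : ((m : ℝ) + ((Q : ℝ) * M) * n) ^ j = (m : ℝ) ^ j + (Q * M) * k j := by
    have := hk j
    have h2 : (((m + ((Q * M : ℕ) : ℤ) * n) ^ j : ℤ) : ℝ) =
        ((m ^ j + ((Q * M : ℕ) : ℤ) * k j : ℤ) : ℝ) := by rw [this]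
    push_cast at h2
    exact h2
  rw [h1, mul_add]
  have h3 : R j * ((Q : ℝ) * M * k j) = M * ((Q * R j) * k j) := by ring
  rw [h3, hr j]

theorem om0 : OM0_stmt := by
  intro _ hCHS hFNC hLBM hLBN hDEGZ _ hPRG hRFL hFRT U _ Gf d hd hG χ hχ hχ2 hLBF z k hk hz F hF
    hF1 hV c E Q hc hc1 hE hQ
  obtain ⟨hR1, hR2, hR3, _, hRps⟩ := hRFL U Gf d hd hG χ hχ hχ2
  obtain ⟨M₀, σ, hM₀, hσ2, hσ1, hσL, hfac⟩ := hFRT U Gf d hd hG χ hχ hχ2
  have hσG : σ ∈ Gf 0 := hG.top ▸ hG.anti 1 hσ2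
  have hpG : ∀ t : ℝ, pw t σ ∈ Gf 0 := fun t => (hG.rat 0).pwc σ hσG t
  have hN : Nrm (Gf 0) (Gf (d + 1)) := by
    intro x hx y hy
    have h1 := hG.com 0 (d + 1) x hx y hy
    rw [zero_add] at h1
    have h2 : x * y * x⁻¹ = x * y * x⁻¹ * y⁻¹ * y := by group
    rw [h2]
    exact mul_mem h1 hy
  have hzt : ∀ t : ℝ, pw t z ∈ Gf 0 := fun t => (hG.rat 0).pwc z hz.mem t
  -- translates
  have hT1 : ∀ y ∈ Gf 0, Fn (Gf 0) (Gf (d + 1)) fun x => F (y * x) :=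
    (hFNC U (Gf 0) (Gf (d + 1)) F (hG.rat 0) hN hF).1
  have hT2 : ∀ y ∈ Gf 0, Vrt (Gf 0) (fun x => F (y * x)) z k := by
    intro y hy t x hx
    have h1 : y * (pw t z * x) = (y * pw t z * y⁻¹ * (pw t z)⁻¹) * (pw t z * (y * x)) := by group
    show F (y * (pw t z * x)) = ee (k * t) * F (y * x)
    rw [h1, hF.inv _ (hz.cen y hy t) _ (mul_mem (hzt t) (mul_mem hy hx)), hV t _ (mul_mem hy hx)]
  -- continuity
  obtain ⟨ρ, hρ, hρ'⟩ := hF.uc (c / 4) (by positivity)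
  obtain ⟨C, hC, hC'⟩ := Amb.nm_pw (U := U) {σ} isCompact_singleton
  set τ₀ : ℝ := min 1 (ρ / C) with hτ₀
  have hτp : 0 < τ₀ := lt_min one_pos (div_pos hρ hC)
  have hcl : ∀ t t' : ℝ, |t - t'| ≤ τ₀ → ∀ x ∈ Gf 0,
      ‖F (pw t σ * x) - F (pw t' σ * x)‖ ≤ c / 4 := by
    intro t t' htt x hx
    have h1 : pw t σ * x = pw (t - t') σ * (pw t' σ * x) := by
      rw [← mul_assoc, ← Amb.pw_add, sub_add_cancel]
    rw [h1]
    refine hρ' _ (hpG _) ?_ _ (mul_mem (hpG _) hx)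
    calc nm (pw (t - t') σ) ≤ C * |t - t'| :=
          hC' σ rfl _ (htt.trans (min_le_left _ _))
      _ ≤ C * (ρ / C) := mul_le_mul_of_nonneg_left (htt.trans (min_le_right _ _)) hC.le
      _ = ρ := by field_simp
  unfold LBF at hLBF
  rw [hR2, hR3] at hLBF
  choose N X E₁ Q₁ L₁ hE₁ hQ₁ hX hmain using fun j : ℤ =>
    hLBF z k hk hz (fun x => F (pw ((j : ℝ) * τ₀) σ * x)) (hT1 _ (hpG _))
      (fun x hx => hF1 _ (mul_mem (hpG _) hx)) (hT2 _ (hpG _)) (c / 4) (by positivity)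
      (by linarith)
  set B : ℝ := (d + 1) * (E * 2 ^ d) with hB
  have hB0 : 0 ≤ B := by positivity
  set V : ℝ := (d + 1) * (E * (d * 2 ^ d)) with hVd
  have hV0 : 0 ≤ V := by positivity
  set J : ℕ := ⌈(B + M₀) / τ₀⌉₊ + 1 with hJ
  set s : Finset ℤ := Icc (-(J : ℤ)) J with hs
  obtain ⟨E₂, Q₂, hE₂, hQ₂, hun⟩ := nrZ_unif s E₁ Q₁ hE₁ hQ₁
  set q : ℕ := Q * M₀ with hq
  have hq1 : 1 ≤ q := Nat.mul_pos hQ hM₀
  have hqp : (0 : ℝ) < q := by exact_mod_cast hq1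
  set η₀ : ℝ := min (c / (4 * q)) (τ₀ / (2 * q * (V + 1))) with hη₀
  have hηp : 0 < η₀ := lt_min (by positivity) (by positivity)
  have hη1 : η₀ ≤ 1 := by
    refine (min_le_left _ _).trans ?_
    rw [div_le_one (by positivity)]
    have : (1 : ℝ) ≤ q := by exact_mod_cast hq1
    linarith
  obtain ⟨E₃, Q₃, hE₃, hQ₃, hprg⟩ := hPRG d (η₀ / 2) E₂ q Q₂ (by positivity) (by linarith) hE₂ hq1
    hQ₂
  obtain ⟨N', Y, hY1, hY2⟩ := fin_family (fun a : (Σ j : s, Fin (N j)) => X a.1 a.2)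
  obtain ⟨E', Q', hE', hQ', hfin⟩ := nrZ_unif (univ : Finset (Σ j : s, Fin (N j)))
    (fun a => q * E₃ + (q * Q₃ : ℕ) * (|X a.1 a.2 σ| * E)) (fun _ => q * Q₃)
    (fun a => by positivity) (fun _ => Nat.mul_pos hq1 hQ₃)
  refine ⟨N', Y, E', Q', ⌈2 / η₀ * (((∑ j ∈ s, L₁ j : ℕ) : ℝ) + 1)⌉₊ + 1, hE', hQ', ?_, ?_⟩
  · intro i
    obtain ⟨a, ha⟩ := hY1 i
    rw [ha]
    exact hX _ _
  intro L hL g hg hlarge hnr
  have hL1 : 1 ≤ L := le_trans (by omega) hL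
  have hLp : (0 : ℝ) < L := by exact_mod_cast hL1
  have hLbig : 2 / η₀ * (((∑ j ∈ s, L₁ j : ℕ) : ℝ) + 1) ≤ L := by
    refine (Nat.le_ceil _).trans ?_
    have : ⌈2 / η₀ * (((∑ j ∈ s, L₁ j : ℕ) : ℝ) + 1)⌉₊ ≤ L := by omega
    exact_mod_cast this
  obtain ⟨S, R, g', hS, hR, hg', hgm⟩ := hfac E Q L g hE hQ hL1 hg hnr
  set l : ℕ := ⌊η₀ * L⌋₊ with hl
  have hηL : ((∑ j ∈ s, L₁ j : ℕ) : ℝ) + 1 ≤ η₀ / 2 * L := by
    have : 2 / η₀ * (((∑ j ∈ s, L₁ j : ℕ) : ℝ) + 1) * (η₀ / 2) ≤ L * (η₀ / 2) :=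
      mul_le_mul_of_nonneg_right hLbig (by positivity)
    have e : 2 / η₀ * (((∑ j ∈ s, L₁ j : ℕ) : ℝ) + 1) * (η₀ / 2) =
        ((∑ j ∈ s, L₁ j : ℕ) : ℝ) + 1 := by field_simp
    rw [e] at this
    linarith
  have hlge : η₀ / 2 * L ≤ l := by
    have h1 : η₀ * L < l + 1 := Nat.lt_floor_add_one _
    have h2 : (0 : ℝ) ≤ ((∑ j ∈ s, L₁ j : ℕ) : ℝ) := Nat.cast_nonneg _
    linarith
  have hlle : (l : ℝ) ≤ η₀ * L := Nat.floor_le (by positivity)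
  have hl1 : 1 ≤ l := by
    have h2 : (0 : ℝ) ≤ ((∑ j ∈ s, L₁ j : ℕ) : ℝ) := Nat.cast_nonneg _
    have : (1 : ℝ) ≤ l := by linarith
    exact_mod_cast this
  have hlj : ∀ j ∈ s, L₁ j ≤ l := by
    intro j hj
    have h1 : L₁ j ≤ ∑ j ∈ s, L₁ j := single_le_sum (fun _ _ => Nat.zero_le _) hj
    have h2 : ((∑ j ∈ s, L₁ j : ℕ) : ℝ) ≤ l := by linarith
    have h3 : ∑ j ∈ s, L₁ j ≤ l := by exact_mod_cast h2
    omega
  have hlp : (0 : ℝ) < l := by exact_mod_cast hl1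
  have hql : 4 * (q * l : ℝ) ≤ c * L := by
    have h1 : (l : ℝ) ≤ c / (4 * q) * L :=
      hlle.trans (mul_le_mul_of_nonneg_right (min_le_left _ _) hLp.le)
    calc 4 * (q * l : ℝ) ≤ 4 * (q * (c / (4 * q) * L)) := by gcongr
      _ = c * L := by field_simp
  have hg0 : ∀ m, g m ∈ Gf 0 := fun m => by simpa using hg [] m
  have hg'0 : PS Gf 0 g' := ((hRps g').1 hg').1
  have hg'G : ∀ m, g' m ∈ Gf 0 := fun m => by simpa using hg'0 [] m
  obtain ⟨m₁, hm₁, hlar⟩ := large_prog (fun m : ℕ => F (g m)) (fun m => hF1 _ (hg0 _)) c L q l hL1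
    hl1 hql hlarge
  -- the right factor
  set k₁ : ℤ := ⌊pol d R m₁ / M₀⌋ with hk₁
  set t₁ : ℝ := pol d R m₁ - M₀ * k₁ with ht₁
  have hM0p : (0 : ℝ) < M₀ := by exact_mod_cast hM₀
  have ht0 : 0 ≤ t₁ := by
    have h1 : (k₁ : ℝ) ≤ pol d R m₁ / M₀ := Int.floor_le _
    have h2 := (le_div_iff₀ hM0p).1 h1
    rw [ht₁]; linarith
  have ht2 : t₁ ≤ M₀ := by
    have h1 : pol d R m₁ / M₀ < k₁ + 1 := Int.lt_floor_add_one _
    have h2 := (div_lt_iff₀ hM0p).1 h1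
    rw [ht₁]; nlinarith
  have hQMq : ((Q * M₀ : ℕ) : ℤ) = (q : ℤ) := rfl
  have hLa : ∀ K : ℤ, pw ((M₀ : ℝ) * K) σ ∈ (La : Subgroup U) := by
    intro K
    rw [mul_comm, Amb.pw_mul, pw_int]
    exact Subgroup.zpow_mem _ hσL K
  have hright : ∀ n : ℤ, ∃ γ ∈ (La : Subgroup U), γ ∈ Gf 0 ∧
      pw (pol d R (m₁ + q * n)) σ = pw t₁ σ * γ := by
    intro n
    obtain ⟨K, hK⟩ := pol_period d R Q M₀ hQ hR m₁ n
    refine ⟨pw ((M₀ : ℝ) * (k₁ + K : ℤ)) σ, hLa _, hpG _, ?_⟩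
    rw [← Amb.pw_add]
    congr 1
    rw [hQMq] at hK
    rw [hK, ht₁]
    push_cast
    ring
  -- the left factor
  set w : ℝ := pol d S m₁ + t₁ with hw
  set j : ℤ := round (w / τ₀) with hj
  have hjw : |w - j * τ₀| ≤ τ₀ / 2 := by
    have h1 : |w / τ₀ - j| ≤ 1 / 2 := abs_sub_round _
    have h2 : w - j * τ₀ = (w / τ₀ - j) * τ₀ := by field_simp
    rw [h2, abs_mul, abs_of_pos hτp]
    nlinarith
  have hm1b : |((m₁ : ℤ) : ℝ)| ≤ 2 * L := by
    have : (m₁ : ℝ) ≤ L := by exact_mod_cast hm₁.le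
    rw [Int.cast_natCast, Nat.abs_cast]
    linarith
  have hwb : |w| ≤ B + M₀ := by
    rw [hw]
    refine (abs_add_le _ _).trans (add_le_add (abs_pol_le d S E L hL1 hS m₁ hm1b) ?_)
    rw [abs_of_nonneg ht0]
    exact ht2
  have hjs : j ∈ s := by
    have h1 : |(j : ℝ)| ≤ J := by
      have h2 : |w / τ₀ - j| ≤ 1 / 2 := abs_sub_round _
      have h3 : |w / τ₀| ≤ (B + M₀) / τ₀ := by
        rw [abs_div, abs_of_pos hτp]
        gcongr
      have h4 : (B + M₀) / τ₀ ≤ ⌈(B + M₀) / τ₀⌉₊ := Nat.le_ceil _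
      have h5 : |(j : ℝ)| ≤ |w / τ₀| + 1 / 2 := by
        have : (j : ℝ) = w / τ₀ - (w / τ₀ - j) := by ring
        rw [this]
        exact (abs_sub _ _).trans (by linarith)
      rw [hJ]
      push_cast
      linarith
    rw [hs, mem_Icc]
    have h6 := abs_le.1 h1
    constructor
    · have : ((-(J : ℤ) : ℤ) : ℝ) ≤ (j : ℝ) := by push_cast; linarith
      exact_mod_cast this
    · have : (j : ℝ) ≤ ((J : ℤ) : ℝ) := by push_cast; linarith
      exact_mod_cast this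
  -- the sequence
  set g'' : ℤ → U := fun n => (pw t₁ σ)⁻¹ * g' (m₁ + q * n) * pw t₁ σ with hg''
  have hPS : PS (redF Gf χ) 0 g'' := by
    obtain ⟨hm, _, _, hconst, _⟩ := hLBM U ℤ (redF Gf χ) d hR1
    have h1 : PS (redF Gf χ) 0 fun n : ℤ => g' ((AddMonoidHom.mulLeft (q : ℤ)) n + (m₁ : ℤ)) :=
      (hLBN U ℤ (redF Gf χ) 0 g').1 ℤ (AddMonoidHom.mulLeft (q : ℤ)) m₁ hg'
    have h2 := hm 0 _ _ (hm 0 _ _ (hconst 0 (pw t₁ σ)⁻¹ (by rw [hR2]; exact inv_mem (hpG _))) h1)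
      (hconst 0 (pw t₁ σ) (by rw [hR2]; exact hpG _))
    refine (show g'' = _ from ?_) ▸ h2
    funext n
    simp only [hg'', AddMonoidHom.coe_mulLeft]
    rw [add_comm (m₁ : ℤ)]
  have hg''G : ∀ n, g'' n ∈ Gf 0 := fun n =>
    mul_mem (mul_mem (inv_mem (hpG _)) (hg'G _)) (hpG _)
  have hdiff : ∀ n ∈ range l, ‖F (g (m₁ + q * n : ℕ)) - F (pw ((j : ℝ) * τ₀) σ * g'' n)‖ ≤
      c / 4 := by
    intro n hn
    have hnl : (n : ℝ) ≤ l := by exact_mod_cast (mem_range.mp hn).le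
    have e0 : ((m₁ + q * n : ℕ) : ℤ) = (m₁ : ℤ) + q * (n : ℤ) := by push_cast; ring
    rw [e0]
    obtain ⟨γ, hγ1, hγ2, hγ3⟩ := hright n
    have e1 : F (g (m₁ + q * n)) = F (pw (pol d S (m₁ + q * n) + t₁) σ * g'' n) := by
      rw [hgm, hγ3, ← mul_assoc, hF.lat _ (mul_mem (mul_mem (hpG _) (hg'G _)) (hpG _)) γ hγ1 hγ2,
        Amb.pw_add]
      congr 1
      simp only [hg'']
      group
    rw [e1]
    refine hcl _ _ ?_ _ (hg''G _)
    have h1 : |pol d S (m₁ + q * n) - pol d S m₁| ≤ τ₀ / 2 := by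
      have hb : |(((m₁ : ℤ) + q * (n : ℤ) : ℤ) : ℝ)| ≤ 2 * L := by
        push_cast
        rw [abs_of_nonneg (by positivity)]
        have h2 : (m₁ : ℝ) ≤ L := by exact_mod_cast hm₁.le
        have h3 : (q : ℝ) * n ≤ q * l := by gcongr
        nlinarith
      refine (abs_pol_sub_le d S E L hL1 hS _ _ hb hm1b).trans ?_
      rw [← hVd]
      have h2 : |(((m₁ : ℤ) + q * (n : ℤ) : ℤ) : ℝ) - ((m₁ : ℤ) : ℝ)| / L ≤ q * η₀ := by
        rw [div_le_iff₀ hLp]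
        push_cast
        rw [add_sub_cancel_left, abs_of_nonneg (by positivity)]
        calc (q : ℝ) * n ≤ q * (η₀ * L) := by
              have := hnl.trans hlle
              gcongr
          _ = q * η₀ * L := by ring
      have h3 : (q : ℝ) * η₀ ≤ q * (τ₀ / (2 * q * (V + 1))) := by
        have := min_le_right (c / (4 * q)) (τ₀ / (2 * q * (V + 1)))
        gcongr
      calc V * (|(((m₁ : ℤ) + q * (n : ℤ) : ℤ) : ℝ) - ((m₁ : ℤ) : ℝ)| / L)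
          ≤ (V + 1) * (q * (τ₀ / (2 * q * (V + 1)))) := by
            refine mul_le_mul (by linarith) (h2.trans h3) (by positivity) (by linarith)
        _ = τ₀ / 2 := by field_simp
    have h4 : pol d S (m₁ + q * n) + t₁ - j * τ₀ =
        (pol d S (m₁ + q * n) - pol d S m₁) + (w - j * τ₀) := by rw [hw]; ring
    rw [h4]
    exact (abs_add_le _ _).trans (by linarith)
  have hlar2 : c / 4 * l ≤ ‖∑ n ∈ range l, F (pw ((j : ℝ) * τ₀) σ * g'' n)‖ := by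
    have h1 : ‖∑ n ∈ range l, F (g (m₁ + q * n : ℕ))‖ ≤
        ‖∑ n ∈ range l, F (pw ((j : ℝ) * τ₀) σ * g'' n)‖ + l * (c / 4) := by
      have e : ∑ n ∈ range l, F (g (m₁ + q * n : ℕ)) =
          ∑ n ∈ range l, F (pw ((j : ℝ) * τ₀) σ * g'' n) +
          ∑ n ∈ range l, (F (g (m₁ + q * n : ℕ)) - F (pw ((j : ℝ) * τ₀) σ * g'' n)) := by
        rw [← sum_add_distrib]
        exact sum_congr rfl fun n _ => by ring
      rw [e]
      refine (norm_add_le _ _).trans (add_le_add_right ((norm_sum_le _ _).trans ?_) _)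
      calc ∑ n ∈ range l, ‖F (g (m₁ + q * n : ℕ)) - F (pw ((j : ℝ) * τ₀) σ * g'' n)‖
          ≤ ∑ n ∈ range l, c / 4 := sum_le_sum hdiff
        _ = l * (c / 4) := by rw [sum_const, card_range, nsmul_eq_mul]
    have h2 : c / 2 * l ≤ ‖∑ n ∈ range l, F (g (m₁ + q * n : ℕ))‖ := hlar
    nlinarith
  obtain ⟨i, hi⟩ := hmain j l (hlj j hjs) g'' hPS hlar2
  have hi2 := hun j hjs _ _ _ _ hi
  set ξ : U → ℝ := X j i with hξ
  have hξc : Chr (Gf 0) (Gf 0) (Gf (d + 1)) ξ := hX j i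
  have hξp : ∀ t : ℝ, ξ (pw t σ) = t * ξ σ := fun t =>
    hCHS U (Gf 0) ξ (hG.rat 0).pwc hξc.mul hξc.cont σ hσG t
  obtain ⟨e, he⟩ := hDEGZ U Gf d (Gf 0) ξ g' hξc.mul (fun x hx => hξc.van x hx.2)
    (((hLBN U ℤ Gf 0 g').2.1 (Gf 0)).2 ⟨hg'0, hg'G⟩)
  have hi3 : NrZ 1 d E₂ Q₂ l fun n => pol d e (m₁ + q * n) := by
    refine hi2.congr fun n => ?_
    show pol d e (m₁ + q * n) = ξ (g'' n)
    rw [← he]
    have h1 := hξc.inv (pw t₁ σ)⁻¹ (inv_mem (hpG _)) (g' (m₁ + q * n)) (hg'G _)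
    rw [inv_inv] at h1
    exact h1.symm
  have hi4 := hprg L l m₁ e hL1 hlge hm₁.le hi3
  -- back to g
  have hXM : ∃ n : ℤ, (M₀ : ℝ) * ξ σ = n := by
    obtain ⟨n, hn⟩ := hξc.int _ hσL (hpG _)
    exact ⟨n, by rw [← hξp]; exact hn⟩
  obtain ⟨n₀, hn₀⟩ := hXM
  have hi5 := (hi4.mulQ q).addS (E' := |ξ σ| * E) (fun a => ξ σ * S a) (fun a => by
    rw [abs_mul, mul_div_assoc]
    exact mul_le_mul_of_nonneg_left (hS a) (abs_nonneg _))
  have hi6 := hi5.addR (fun a => ξ σ * R a) (fun a => by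
    obtain ⟨r, hr⟩ := hR a
    refine ⟨n₀ * r * Q₃, ?_⟩
    have e1 : ((q * Q₃ : ℕ) : ℝ) * (ξ σ * R a) = (M₀ * ξ σ) * (Q * R a) * Q₃ := by
      rw [hq]; push_cast; ring
    rw [e1, hn₀, hr]
    push_cast
    ring)
  obtain ⟨i', hi'⟩ := hY2 ⟨⟨j, hjs⟩, i⟩
  refine ⟨i', ?_⟩
  have hi7 := hfin ⟨⟨j, hjs⟩, i⟩ (mem_univ _) _ _ _ _ hi6
  refine hi7.congr fun m => ?_
  rw [hi']
  show ξ (g m) = _
  rw [hgm m, hξc.mul _ (mul_mem (hpG _) (hg'G _)) _ (hpG _), hξc.mul _ (hpG _) _ (hg'G _), hξp,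
    hξp, he]
  rw [pol_smul, pol_smul]
  ring

end Pool.Agent.NG
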