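import Mathlib
import Pool.Agent.Lib.NG.B

/-!
# NVG2 (MP_663568_nt), row QDG: the quadratic map along a polynomial sequence  (helper70)
-/

set_option autoImplicit false
open Finset Topology

namespace Pool.Agent.NG

noncomputable section

open Amb Pool.Agent.Lib.MP_663568_nt Pool.Agent.Lib.MP_663568_nt.Katai
  Pool.Agent.Lib.MP_663568_nt.Nul Pool.Agent.SV Pool.Agent.VQ Pool.Agent.NV

theorem qdg_list {U : Type} [Amb U] (Gf : ℕ → Subgroup U)
    (hm : ∀ (g g' : ℤ → U), PS Gf 0 g → PS Gf 0 g' → PS Gf 0 fun n => g n * g' n)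
    (h1 : PS Gf 0 fun _ : ℤ => (1 : U)) :
    ∀ l : List (ℤ → U), (∀ f ∈ l, PS Gf 0 f) → PS Gf 0 fun m => (l.map fun f => f m).prod := by
  intro l
  induction l with
  | nil =>
    intro _
    simpa using h1
  | cons a l ih =>
    intro h
    have e : (fun m : ℤ => ((a :: l).map fun f => f m).prod)
        = fun m => a m * (l.map fun f => f m).prod := by
      funext m
      rw [List.map_cons, List.prod_cons]
    rw [e]
    exact hm _ _ (h a (List.mem_cons_self)) (ih fun f hf => h f (List.mem_cons_of_mem _ hf))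

theorem qdg : QDG_stmt := by
  intro hLBM hLBN hSIG hDEG U _ Gf d hd hF D kp e κ hC η hη g a hg hS
  obtain ⟨lm, li, -, lc, -, -, -⟩ := hLBM U ℤ Gf d hF
  have hone : PS Gf 0 fun _ : ℤ => (1 : U) := lc 0 1 (Subgroup.one_mem _)
  -- the coordinates
  have htau : PS Gf 0 fun m : ℤ => tau e (kp (g m)) := by
    have hl := qdg_list Gf (fun g g' => lm 0 g g') hone
      (List.ofFn fun i : Fin D => fun m : ℤ => pw (kp (g m) i) (e i)) (by
        intro f hf
        obtain ⟨i, hi⟩ := (List.mem_ofFn' _ _).mp hf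
        subst hi
        have h1 := hSIG U Gf d 1 (e i) (fun j => if j = 0 then kp (g 0) i else a i) hF
          (by omega) (by rw [hF.top]; exact (hC.mem i).2)
        have e1 : (fun m : ℤ => pw (kp (g m) i) (e i)) = fun m : ℤ =>
            pw (pol 1 (fun j => if j = 0 then kp (g 0) i else a i) m) (e i) := by
          funext m
          congr 1
          rw [hS.2 m, pol, sum_range_succ, sum_range_one]
          simp only [if_true, pow_zero, mul_one, one_ne_zero, if_false, pow_one, Pi.add_apply,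
            Pi.smul_apply, smul_eq_mul]
          ring
        show PS Gf 0 fun m : ℤ => pw (kp (g m) i) (e i)
        rw [e1]
        exact h1)
    have e2 : (fun m : ℤ => tau e (kp (g m))) = fun m : ℤ =>
        ((List.ofFn fun i : Fin D => fun m : ℤ => pw (kp (g m) i) (e i)).map
          fun f => f m).prod := by
      funext m
      rw [List.map_ofFn]
      rfl
    rw [e2]
    exact hl
  have hn : PS Gf 0 fun m : ℤ => g m * (tau e (kp (g m)))⁻¹ := lm 0 _ _ hg (li 0 _ htau)
  have hmem : ∀ m : ℤ, g m * (tau e (kp (g m)))⁻¹ ∈ Gf 2 := by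
    intro m
    have t1 := (hC.tau (kp (g m))).1
    have t2 := (hC.tau (kp (g m))).2
    have gm := hS.1 m
    have ti := (Gf 0).inv_mem t1
    rw [← hC.ker _ ((Gf 0).mul_mem gm ti), hC.mul _ gm _ ti]
    have h2 := hC.mul _ t1 _ ti
    rw [mul_inv_cancel, t2] at h2
    rw [← h2]
    exact (hC.ker 1 (Gf 0).one_mem).mpr (Gf 2).one_mem
  have hPS := ((hLBN U ℤ Gf 0 fun m : ℤ => g m * (tau e (kp (g m)))⁻¹).2.1 (Gf 2)).mpr ⟨hn, hmem⟩
  obtain ⟨c, hc⟩ := hDEG U Gf d (Gf 2) η _ hη.mul (fun x hx => hη.van x hx.2) hPS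
  exact ⟨c, fun m => hc m⟩

end

end Pool.Agent.NG
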