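import Mathlib
import Pool.Agent.Lib.NG.B

/-!
# NVG2 (MP_663568_nt), row QMP: the quadratic map of an invariant character of `G_2`  (helper40)
-/

set_option autoImplicit false
open Finset Topology

namespace Pool.Agent.NG

noncomputable section

open Amb Pool.Agent.Lib.MP_663568_nt Pool.Agent.Lib.MP_663568_nt.Katai
  Pool.Agent.Lib.MP_663568_nt.Nul Pool.Agent.SV Pool.Agent.VQ Pool.Agent.NV

namespace QMPaux

/-- The ordered product along a list. -/
def tl {U : Type} [Amb U] {D : ℕ} (e : Fin D → U) (l : List (Fin D)) (v : Fin D → ℝ) : U :=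
  (l.map fun i => pw (v i) (e i)).prod

theorem tau_eq {U : Type} [Amb U] {D : ℕ} (e : Fin D → U) (v : Fin D → ℝ) :
    tau e v = tl e (List.finRange D) v := by
  rw [tau, tl, List.ofFn_eq_map]

theorem tl_cons {U : Type} [Amb U] {D : ℕ} (e : Fin D → U) (a : Fin D) (l : List (Fin D))
    (v : Fin D → ℝ) : tl e (a :: l) v = pw (v a) (e a) * tl e l v := by
  simp [tl]

theorem tl_nil {U : Type} [Amb U] {D : ℕ} (e : Fin D → U) (v : Fin D → ℝ) : tl e [] v = 1 := by
  simp [tl]

/-- The tau section is continuous. -/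
theorem tau_cont {U : Type} [Amb U] {D : ℕ} (e : Fin D → U) : Continuous fun v => tau e v := by
  have h : (fun v => tau e v) = fun v : Fin D → ℝ =>
      ((List.finRange D).map fun i => pw (v i) (e i)).prod := by
    funext v
    rw [tau_eq]
    rfl
  rw [h]
  apply continuous_list_prod
  intro i _
  have h1 : Continuous fun v : Fin D → ℝ => (v i, e i) :=
    (continuous_apply i).prodMk continuous_const
  exact pw_cont.comp h1

/-- The double sum over a list. -/
def ds {D : ℕ} (f : Fin D → Fin D → ℝ) (l : List (Fin D)) : ℝ :=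
  (l.map fun i => (l.map fun j => f i j).sum).sum

theorem ds_cons {D : ℕ} (f : Fin D → Fin D → ℝ) (hf : ∀ i j, i ≤ j → f i j = 0) (a : Fin D)
    (l : List (Fin D)) (ha : ∀ i ∈ l, a < i) :
    ds f (a :: l) = (l.map fun i => f i a).sum + ds f l := by
  have h1 : (l.map fun j => f a j).sum = 0 := by
    apply List.sum_eq_zero
    intro x hx
    obtain ⟨j, hj, rfl⟩ := List.mem_map.mp hx
    exact hf a j (ha j hj).le
  have h2 : (l.map fun i => f i a + (l.map fun j => f i j).sum).sum =
      (l.map fun i => f i a).sum + (l.map fun i => (l.map fun j => f i j).sum).sum :=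
    List.sum_map_add
  simp only [ds, List.map_cons, List.sum_cons]
  rw [h1, hf a a le_rfl, h2]
  ring

theorem ds_univ {D : ℕ} (f : Fin D → Fin D → ℝ) : ds f (List.finRange D) = ∑ i, ∑ j, f i j := by
  simp only [ds, Fin.sum_univ_def]

end QMPaux

open QMPaux

theorem qmp : QMP_stmt := by
  intro hPW hCH U _ Gf d hd hG D kp e κ hK η hη
  obtain ⟨p0, pn, pz, pneg, pone, pconj, pcomm, proot⟩ := hPW U
  set G := Gf 0 with hGdef
  set G2 := Gf 2 with hG2def
  have hcom : ∀ x ∈ G, ∀ y ∈ G, x * y * x⁻¹ * y⁻¹ ∈ G2 := by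
    intro x hx y hy
    have h1 : Gf 1 = Gf 0 := hG.top
    exact hG.com 1 1 x (by rw [h1]; exact hx) y (by rw [h1]; exact hy)
  have hnor : ∀ x ∈ G, ∀ y ∈ G2, x * y * x⁻¹ ∈ G2 := by
    intro x hx y hy
    have h := G2.mul_mem (hG.com 0 2 x hx y hy) hy
    have h2 : x * y * x⁻¹ * y⁻¹ * y = x * y * x⁻¹ := by group
    rwa [h2] at h
  have hle : G2 ≤ G := by
    have h1 := hG.anti 0
    have h2 := hG.anti 1
    exact h2.trans h1
  have hpwc : PwC G := (hG.rat 0).pwc
  have hη1 : η 1 = 0 := by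
    have h := hη.mul 1 G2.one_mem 1 G2.one_mem
    rw [mul_one] at h
    linarith
  have hηinv : ∀ x ∈ G2, η x⁻¹ = - η x := by
    intro x hx
    have h := hη.mul x hx x⁻¹ (G2.inv_mem hx)
    rw [mul_inv_cancel, hη1] at h
    linarith
  have htG : ∀ v, tau e v ∈ G := fun v => (hK.tau v).1
  have hkt : ∀ v, kp (tau e v) = v := fun v => (hK.tau v).2
  have hkp1 : kp 1 = 0 := by
    have h := hK.mul 1 G.one_mem 1 G.one_mem
    rw [mul_one] at h
    exact left_eq_add.mp h
  have hkpinv : ∀ x ∈ G, kp x⁻¹ = - kp x := by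
    intro x hx
    have h := hK.mul x hx x⁻¹ (G.inv_mem hx)
    rw [mul_inv_cancel, hkp1] at h
    exact (neg_eq_of_add_eq_zero_right h.symm).symm
  have hdec : ∀ x ∈ G, x * (tau e (kp x))⁻¹ ∈ G2 := by
    intro x hx
    have hm := G.mul_mem hx (G.inv_mem (htG (kp x)))
    rw [← hK.ker _ hm, hK.mul _ hx _ (G.inv_mem (htG _)), hkpinv _ (htG _), hkt]
    simp
  -- (5)
  have h5 : ∀ v, qm kp e η (tau e v) = 0 := by
    intro v
    rw [qm, hkt, mul_inv_cancel, hη1]
  -- tau at zero
  have htau0 : tau e (0 : Fin D → ℝ) = 1 := by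
    rw [tau_eq, tl]
    apply List.prod_eq_one
    intro x hx
    obtain ⟨i, _, rfl⟩ := List.mem_map.mp hx
    exact p0 (e i)
  -- (4)
  have h4 : ∀ x ∈ G2, qm kp e η x = η x := by
    intro x hx
    rw [qm, (hK.ker x (hle hx)).mpr hx, htau0, inv_one, mul_one]
  -- (2)
  have h2 : ContinuousOn (qm kp e η) (G : Set U) := by
    have hc : ContinuousOn (fun x => x * (tau e (kp x))⁻¹) (G : Set U) := by
      apply ContinuousOn.mul continuousOn_id
      apply ContinuousOn.inv
      exact (tau_cont e).comp_continuousOn hK.cont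
    exact hη.cont.comp hc fun x hx => hdec x hx
  -- left multiplication by an element of G2
  have hleft : ∀ g ∈ G2, ∀ w ∈ G, qm kp e η (g * w) = η g + qm kp e η w := by
    intro g hg w hw
    have hk : kp (g * w) = kp w := by
      rw [hK.mul g (hle hg) w hw, (hK.ker g (hle hg)).mpr hg, zero_add]
    rw [qm, qm, hk, mul_assoc, hη.mul g hg _ (hdec w hw)]
  -- commutators
  set cc : U → U → ℝ := fun x y => η (x * y * x⁻¹ * y⁻¹) with hcc
  have hcl : ∀ x ∈ G, ∀ y ∈ G, ∀ z ∈ G, cc (x * y) z = cc x z + cc y z := by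
    intro x hx y hy z hz
    have h1 : x * y * z * (x * y)⁻¹ * z⁻¹ =
        (x * (y * z * y⁻¹ * z⁻¹) * x⁻¹) * (x * z * x⁻¹ * z⁻¹) := by group
    have h3 := hcom y hy z hz
    show η _ = η _ + η _
    rw [h1, hη.mul _ (hnor x hx _ h3) _ (hcom x hx z hz), hη.inv x hx _ h3]
    ring
  have hcr : ∀ x ∈ G, ∀ y ∈ G, ∀ z ∈ G, cc x (y * z) = cc x y + cc x z := by
    intro x hx y hy z hz
    have h1 : x * (y * z) * x⁻¹ * (y * z)⁻¹ =
        (x * y * x⁻¹ * y⁻¹) * (y * (x * z * x⁻¹ * z⁻¹) * y⁻¹) := by group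
    have h3 := hcom x hx z hz
    show η _ = η _ + η _
    rw [h1, hη.mul _ (hcom x hx y hy) _ (hnor y hy _ h3), hη.inv y hy _ h3]
  have hpl : ∀ x ∈ G, ∀ z ∈ G, ∀ t : ℝ, cc (pw t x) z = t * cc x z := by
    intro x hx z hz t
    have hcont : ContinuousOn (fun x => cc x z) (G : Set U) := by
      refine hη.cont.comp ?_ fun x hx => hcom x hx z hz
      apply Continuous.continuousOn
      fun_prop
    exact hCH U G (fun x => cc x z) hpwc (fun x hx y hy => hcl x hx y hy z hz) hcont x hx t
  have hpr : ∀ x ∈ G, ∀ z ∈ G, ∀ t : ℝ, cc x (pw t z) = t * cc x z := by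
    intro x hx z hz t
    have hcont : ContinuousOn (fun z => cc x z) (G : Set U) := by
      refine hη.cont.comp ?_ fun z hz => hcom x hx z hz
      apply Continuous.continuousOn
      fun_prop
    exact hCH U G (fun z => cc x z) hpwc (fun y hy z hz => hcr x hx y hy z hz) hcont z hz t
  have heG : ∀ i, e i ∈ G := fun i => (hK.mem i).2
  have hpe : ∀ (v : Fin D → ℝ) (i : Fin D), pw (v i) (e i) ∈ G := fun v i => hpwc _ (heG i) _
  have htl : ∀ (l : List (Fin D)) (v : Fin D → ℝ), tl e l v ∈ G := by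
    intro l v
    induction l with
    | nil => rw [tl_nil]; exact G.one_mem
    | cons a l ih => rw [tl_cons]; exact G.mul_mem (hpe v a) ih
  have hc1 : ∀ z ∈ G, cc 1 z = 0 := by
    intro z hz
    have h := hcl 1 G.one_mem 1 G.one_mem z hz
    rw [mul_one] at h
    linarith
  have hctl : ∀ (l : List (Fin D)) (u : Fin D → ℝ) (z : U), z ∈ G →
      cc (tl e l u) z = (l.map fun i => u i * cc (e i) z).sum := by
    intro l u z hz
    induction l with
    | nil => rw [tl_nil, hc1 z hz]; simp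
    | cons a l ih =>
      rw [tl_cons, hcl _ (hpe u a) _ (htl l u) z hz, ih, hpl _ (heG a) z hz, List.map_cons,
        List.sum_cons]
  -- the matrix
  have hbint : ∀ i j, ∃ n : ℤ, cc (e i) (e j) = n := by
    intro i j
    apply hη.int
    · have h1 := (hK.mem i).1
      have h2 := (hK.mem j).1
      exact (La : Subgroup U).mul_mem ((La : Subgroup U).mul_mem ((La : Subgroup U).mul_mem h1 h2)
        ((La : Subgroup U).inv_mem h1)) ((La : Subgroup U).inv_mem h2)
    · exact hcom _ (heG i) _ (heG j)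
  choose bb hbb using hbint
  set b : Fin D → Fin D → ℤ := fun i j => if i ≤ j then 0 else bb i j with hb
  have hblow : ∀ i j, i ≤ j → b i j = 0 := fun i j hij => by simp [hb, hij]
  set ff : (Fin D → ℝ) → (Fin D → ℝ) → Fin D → Fin D → ℝ :=
    fun u v i j => (b i j : ℝ) * (u i * v j) with hff
  have hfflow : ∀ u v i j, i ≤ j → ff u v i j = 0 := by
    intro u v i j hij
    simp [hff, hblow i j hij]
  -- the product of two ordered products
  have hprod : ∀ (u v : Fin D → ℝ) (l : List (Fin D)), l.Pairwise (· < ·) →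
      ∃ g ∈ G2, tl e l u * tl e l v = g * tl e l (u + v) ∧ η g = ds (ff u v) l := by
    intro u v l
    induction l with
    | nil =>
      intro _
      refine ⟨1, G2.one_mem, ?_, ?_⟩
      · simp [tl_nil]
      · rw [hη1]; simp [ds]
    | cons a l ih =>
      intro hl
      rw [List.pairwise_cons] at hl
      obtain ⟨g, hg, hgm, hgη⟩ := ih hl.2
      set A := pw (u a) (e a) with hA
      set B := pw (v a) (e a) with hB
      set X := tl e l u with hX
      have hAG : A ∈ G := hpe u a
      have hBG : B ∈ G := hpe v a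
      have hXG : X ∈ G := htl l u
      have hCm : X * B * X⁻¹ * B⁻¹ ∈ G2 := hcom X hXG B hBG
      have hABG : A * B ∈ G := G.mul_mem hAG hBG
      refine ⟨(A * (X * B * X⁻¹ * B⁻¹) * A⁻¹) * (A * B * g * (A * B)⁻¹),
        G2.mul_mem (hnor A hAG _ hCm) (hnor _ hABG g hg), ?_, ?_⟩
      · rw [tl_cons, tl_cons, tl_cons]
        have hAB : pw ((u + v) a) (e a) = A * B := by
          rw [Pi.add_apply, pw_add]
        rw [hAB, ← hA, ← hB, ← hX]
        have h1 : A * X * (B * tl e l v) =
            A * (X * B * X⁻¹ * B⁻¹) * A⁻¹ * (A * B) * (X * tl e l v) := by group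
        rw [h1, hgm]
        group
      · rw [hη.mul _ (hnor A hAG _ hCm) _ (hnor _ hABG g hg), hη.inv A hAG _ hCm,
          hη.inv _ hABG g hg, hgη, ds_cons _ (hfflow u v) a l hl.1]
        congr 1
        show cc X B = _
        rw [hX, hctl l u B hBG]
        congr 1
        apply List.map_congr_left
        intro i hi
        rw [hB, hpr _ (heG i) _ (heG a), hbb]
        have h2 : ¬ i ≤ a := not_le.mpr (hl.1 i hi)
        simp only [hff, hb, h2, if_false]
        ring
  have htt : ∀ u v : Fin D → ℝ, qm kp e η (tau e u * tau e v) = bf b u v := by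
    intro u v
    obtain ⟨g, hg, hgm, hgη⟩ := hprod u v (List.finRange D) (List.pairwise_lt_finRange D)
    rw [tau_eq, tau_eq, hgm, ← tau_eq, hleft g hg _ (htG _), h5, hgη, ds_univ, add_zero, bf]
  have hmul : ∀ x ∈ G, ∀ y ∈ G, qm kp e η (x * y) =
      qm kp e η x + qm kp e η y + bf b (kp x) (kp y) := by
    intro x hx y hy
    have hx2 := hdec x hx
    have hy2 := hdec y hy
    have h1 : x * y = (x * (tau e (kp x))⁻¹) *
        (tau e (kp x) * (y * (tau e (kp y))⁻¹) * (tau e (kp x))⁻¹) *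
        (tau e (kp x) * tau e (kp y)) := by group
    have h3 : qm kp e η (x * y) = η (x * (tau e (kp x))⁻¹) + η (y * (tau e (kp y))⁻¹) +
        qm kp e η (tau e (kp x) * tau e (kp y)) := by
      conv_lhs => rw [h1]
      rw [hleft _ (G2.mul_mem hx2 (hnor _ (htG _) _ hy2)) _ (G.mul_mem (htG _) (htG _)),
        hη.mul _ hx2 _ (hnor _ (htG _) _ hy2), hη.inv _ (htG _) _ hy2]
    rw [h3, htt]
    rfl
  refine ⟨⟨b, ⟨hmul, hblow⟩⟩, h2, ?_, h4, h5⟩
  -- (3)
  refine ⟨κ ^ 3, Nat.one_le_pow _ _ hK.one_le, ?_⟩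
  intro γ hγ hγG
  have hpow : ∀ n : ℕ, kp (γ ^ n) = (n : ℝ) • kp γ := by
    intro n
    induction n with
    | zero => rw [pow_zero, hkp1]; simp
    | succ n ih =>
      rw [pow_succ, hK.mul _ (G.pow_mem hγG n) _ hγG, ih]
      push_cast
      rw [add_smul, one_smul]
  have hbfs : ∀ (t : ℝ) (u v : Fin D → ℝ), bf b (t • u) v = t * bf b u v := by
    intro t u v
    simp only [bf, Finset.mul_sum, Pi.smul_apply, smul_eq_mul]
    apply Finset.sum_congr rfl
    intro i _
    apply Finset.sum_congr rfl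
    intro j _
    ring
  have hq : ∀ n : ℕ, qm kp e η (γ ^ n) =
      n * qm kp e η γ + (n.choose 2 : ℝ) * bf b (kp γ) (kp γ) := by
    intro n
    induction n with
    | zero =>
      rw [pow_zero, h4 1 G2.one_mem, hη1]
      simp
    | succ n ih =>
      rw [pow_succ, hmul _ (G.pow_mem hγG n) _ hγG, ih, hpow, hbfs]
      have h1 : ((n + 1).choose 2 : ℝ) = n + (n.choose 2 : ℝ) := by
        rw [Nat.choose_succ_succ' n 1, Nat.choose_one_right]
        push_cast
        ring
      rw [h1]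
      push_cast
      ring
  -- the power κ
  obtain ⟨j1, hj1⟩ : ∃ j : ℤ, qm kp e η (γ ^ κ) = j := by
    apply hη.int
    · apply (La : Subgroup U).mul_mem ((La : Subgroup U).pow_mem hγ κ)
      apply (La : Subgroup U).inv_mem
      rw [tau_eq, tl]
      apply Subgroup.list_prod_mem
      intro x hx
      obtain ⟨i, _, rfl⟩ := List.mem_map.mp hx
      obtain ⟨j, hj⟩ := hK.int γ hγ hγG i
      have h1 : kp (γ ^ κ) i = (j : ℝ) := by
        rw [hpow]
        simpa using hj
      rw [h1, pz]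
      exact (La : Subgroup U).zpow_mem (hK.mem i).1 j
    · exact hdec _ (G.pow_mem hγG κ)
  obtain ⟨j2, hj2⟩ : ∃ j : ℤ, (κ : ℝ) ^ 2 * bf b (kp γ) (kp γ) = j := by
    choose jj hjj using hK.int γ hγ hγG
    refine ⟨∑ i, ∑ j, b i j * (jj i * jj j), ?_⟩
    push_cast
    rw [bf, Finset.mul_sum]
    apply Finset.sum_congr rfl
    intro i _
    rw [Finset.mul_sum]
    apply Finset.sum_congr rfl
    intro j _
    rw [← hjj i, ← hjj j]
    ring
  have h7 := hq κ
  refine ⟨(κ : ℤ) ^ 2 * j1 - (κ.choose 2 : ℤ) * j2, ?_⟩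
  push_cast
  rw [← hj1, ← hj2, h7]
  ring

end

end Pool.Agent.NG
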