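import Pool.Agent.Lib.NG.ARows
import Pool.Agent.Lib.NG.PWB

/-!
# NVG2 (MP_663568_nt), row SIG: real powers with polynomial exponents are polynomial maps
-/

set_option autoImplicit false
open Finset Topology

namespace Pool.Agent.NG

noncomputable section

open Amb

/-- the differences of order `k` vanish -/
def ZD {A : Type} [AddCommGroup A] : ℕ → (A → ℝ) → Prop
  | 0, P => ∀ n, P n = 0
  | k + 1, P => ∀ h, ZD k fun n => P (n + h) - P n

namespace ZD

variable {A : Type} [AddCommGroup A]

theorem zero (k : ℕ) : ZD k (fun _ : A => (0 : ℝ)) := by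
  induction k with
  | zero => exact fun _ => rfl
  | succ k ih =>
    intro h
    simpa using ih

theorem congr {k : ℕ} {P Q : A → ℝ} (hP : ZD k P) (h : ∀ n, Q n = P n) : ZD k Q := by
  have : Q = P := funext h
  rwa [this]

theorem add : ∀ (k : ℕ) (P Q : A → ℝ), ZD k P → ZD k Q → ZD k fun n => P n + Q n
  | 0, P, Q, hP, hQ => fun n => by simp [hP n, hQ n]
  | k + 1, P, Q, hP, hQ => fun h =>
    congr (add k _ _ (hP h) (hQ h)) fun n => by ring

theorem smul : ∀ (k : ℕ) (c : ℝ) (P : A → ℝ), ZD k P → ZD k fun n => c * P n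
  | 0, c, P, hP => fun n => by simp [hP n]
  | k + 1, c, P, hP => fun h => congr (smul k c _ (hP h)) fun n => by ring

theorem shift : ∀ (k : ℕ) (P : A → ℝ) (a : A), ZD k P → ZD k fun n => P (n + a)
  | 0, P, a, hP => fun n => hP _
  | k + 1, P, a, hP => fun h => congr (shift k _ a (hP h)) fun n => by
    rw [add_right_comm]

theorem succ : ∀ (k : ℕ) (P : A → ℝ), ZD k P → ZD (k + 1) P
  | 0, P, hP => fun h n => by simp [hP n, hP (n + h)]
  | k + 1, P, hP => fun h => succ k _ (hP h)

theorem mono {k m : ℕ} {P : A → ℝ} (h : k ≤ m) (hP : ZD k P) : ZD m P := by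
  induction m, h using Nat.le_induction with
  | base => exact hP
  | succ m _ ih => exact succ m P ih

theorem mul : ∀ (s k m : ℕ) (P Q : A → ℝ), k + m = s → ZD k P → ZD m Q →
    ZD (k + m - 1) fun n => P n * Q n
  | s, 0, m, P, Q, _, hP, hQ => congr (zero _) fun n => by rw [hP n, zero_mul]
  | s, k + 1, 0, P, Q, _, hP, hQ => congr (zero _) fun n => by rw [hQ n, mul_zero]
  | 0, k + 1, m + 1, P, Q, hs, hP, hQ => by omega
  | s + 1, k + 1, m + 1, P, Q, hs, hP, hQ => by
    have h0 : k + 1 + (m + 1) - 1 = k + m + 1 := by omega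
    rw [h0]
    intro h
    have h1 := mul s k (m + 1) _ _ (by omega) (hP h) (shift _ Q h hQ)
    have h2 := mul s (k + 1) m _ _ (by omega) hP (hQ h)
    have h3 : k + (m + 1) - 1 = k + m := by omega
    have h4 : k + 1 + m - 1 = k + m := by omega
    rw [h3] at h1
    rw [h4] at h2
    exact congr (add _ _ _ h1 h2) fun n => by ring

theorem one : ZD 1 (fun _ : A => (1 : ℝ)) := fun h n => by simp

theorem pow (P : A → ℝ) (hP : ZD 2 P) (a : ℕ) : ZD (a + 1) fun n => P n ^ a := by
  induction a with
  | zero => exact congr one fun n => by simp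
  | succ a ih =>
    exact congr (mul _ (a + 1) 2 _ _ rfl ih hP) fun n => by rw [pow_succ]

theorem prod {ι : Type} (s : Finset ι) (P : ι → A → ℝ) (a : ι → ℕ)
    (h : ∀ i ∈ s, ZD (a i + 1) (P i)) : ZD (∑ i ∈ s, a i + 1) fun n => ∏ i ∈ s, P i n := by
  classical
  induction s using Finset.induction_on with
  | empty => exact congr one fun n => by simp
  | insert i s hi ih =>
    have h1 := ih fun j hj => h j (Finset.mem_insert_of_mem hj)
    have h2 := mul _ _ _ _ _ rfl (h i (Finset.mem_insert_self i s)) h1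
    have h3 : a i + 1 + (∑ j ∈ s, a j + 1) - 1 = ∑ j ∈ insert i s, a j + 1 := by
      rw [Finset.sum_insert hi]
      omega
    rw [h3] at h2
    exact congr h2 fun n => by rw [Finset.prod_insert hi]

theorem sum {ι : Type} (s : Finset ι) (P : ι → A → ℝ) (k : ℕ)
    (h : ∀ i ∈ s, ZD k (P i)) : ZD k fun n => ∑ i ∈ s, P i n := by
  classical
  induction s using Finset.induction_on with
  | empty => exact congr (zero k) fun n => by simp
  | insert i s hi ih =>
    exact congr (add k _ _ (h i (Finset.mem_insert_self i s))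
      (ih fun j hj => h j (Finset.mem_insert_of_mem hj))) fun n => by rw [Finset.sum_insert hi]

/-- the polynomials of total degree at most `j` -/
theorem mev {r d j : ℕ} (c : (Fin r → Fin (d + 1)) → ℝ)
    (hc : ∀ a : Fin r → Fin (d + 1), j < ∑ i, (a i : ℕ) → c a = 0) :
    ZD (j + 1) fun n : Fin r → ℤ => NG.mev c fun i => (n i : ℝ) := by
  unfold NG.mev
  apply sum
  intro a _
  rcases lt_or_ge j (∑ i, (a i : ℕ)) with h | h
  · exact congr (zero _) fun n => by rw [hc a h, zero_mul]
  · have hx : ∀ i : Fin r, ZD 2 fun n : Fin r → ℤ => (n i : ℝ) := fun i h h' n => by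
      simp only [Pi.add_apply, Int.cast_add]
      ring
    refine mono (k := ∑ i, (a i : ℕ) + 1) (by omega) (smul _ _ _ ?_)
    exact prod Finset.univ (fun (i : Fin r) (n : Fin r → ℤ) => (n i : ℝ) ^ (a i : ℕ))
      (fun i => (a i : ℕ)) fun i _ => pow _ (hx i) _

end ZD

theorem sig_foldr {U : Type} [Amb U] {A : Type} [AddCommGroup A] (x : U)
    (hneg : ∀ (t : ℝ) (x : U), pw (-t) x = (pw t x)⁻¹) (l : List A) (P : A → ℝ) (n : A) :
    l.foldr dif (fun n => pw (P n) x) n =
      pw (l.foldr (fun h (Q : A → ℝ) => fun n => Q (n + h) - Q n) P n) x := by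
  induction l generalizing n with
  | nil => rfl
  | cons h l ih =>
    simp only [List.foldr_cons, dif]
    rw [ih, ih, ← hneg, ← pw_add, ← sub_eq_add_neg]

theorem zd_foldr {A : Type} [AddCommGroup A] : ∀ (k : ℕ) (l : List A) (P : A → ℝ), ZD k P →
    k ≤ l.length → ∀ n, l.foldr (fun h (Q : A → ℝ) => fun n => Q (n + h) - Q n) P n = 0
  | 0, l, P, hP, _, n => by
    have h0 : P = fun _ => 0 := funext hP
    have h1 : ∀ (l : List A) (n : A),
        l.foldr (fun h (Q : A → ℝ) => fun n => Q (n + h) - Q n) (fun _ => 0) n = 0 := by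
      intro l
      induction l with
      | nil => exact fun _ => rfl
      | cons h l ih =>
        intro n
        simp only [List.foldr_cons]
        rw [ih, ih, sub_zero]
    rw [h0]
    exact h1 l n
  | k + 1, l, P, hP, hl, n => by
    rcases List.eq_nil_or_concat l with rfl | ⟨l', h, rfl⟩
    · simp at hl
    · rw [List.concat_eq_append, List.foldr_append]
      apply zd_foldr k l' _ (hP h)
      rw [List.length_concat] at hl
      omega

theorem sig_of_pwb (hP : PWB_stmt) : SIG_stmt := by
  intro U _ Gf d j r x c hG hx hc l n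
  obtain ⟨h0, -, -, hneg, -, -, -, -⟩ := hP U
  have hanti : Antitone Gf := antitone_nat_of_succ_le hG.anti
  rw [sig_foldr x hneg l (fun n : Fin r → ℤ => mev c fun i => (n i : ℝ)) n, Nat.zero_add]
  rcases Nat.lt_or_ge j l.length with h | h
  · rw [zd_foldr (j + 1) l _ (ZD.mev c hc) h, h0]
    exact (Gf _).one_mem
  · exact hanti h ((hG.rat j).pwc x hx _)

theorem sig : SIG_stmt := sig_of_pwb pwb

end

end Pool.Agent.NG
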