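import Mathlib
import Pool.Agent.Lib.NG.B
import Pool.Agent.Lib.NG.DEGZ

/-!
# NVG2 (MP_663568_nt), row SIGZ: real powers with polynomial exponents are polynomial sequences on
`ℤ`  (helper40)
-/

set_option autoImplicit false
open Finset Topology

namespace Pool.Agent.NG

noncomputable section

open Amb Pool.Agent.Lib.MP_663568_nt Pool.Agent.Lib.MP_663568_nt.Katai
  Pool.Agent.Lib.MP_663568_nt.Nul Pool.Agent.SV Pool.Agent.VQ Pool.Agent.NV

open DEGZaux

theorem sigz : SIGZ_stmt := by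
  intro hS hL U _ Gf d j x c hG hj hx
  set c' : (Fin 1 → Fin (d + 1)) → ℝ := fun a => if (a 0 : ℕ) ≤ j then c (a 0) else 0 with hc'
  have h1 : ∀ a : Fin 1 → Fin (d + 1), j < ∑ i, (a i : ℕ) → c' a = 0 := by
    intro a ha
    have h2 : ∑ i, (a i : ℕ) = (a 0 : ℕ) := by simp
    rw [h2] at ha
    simp only [hc']
    rw [if_neg (by omega)]
  have h3 := hS U Gf d j 1 x c' hG hx h1
  have h4 := (hL U (Fin 1 → ℤ) Gf 0 _).1 ℤ
    ({ toFun := fun m _ => m, map_zero' := rfl, map_add' := fun _ _ => rfl } : ℤ →+ (Fin 1 → ℤ)) 0 h3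
  have h5 : ∀ m : ℤ, mev c' (fun _ : Fin 1 => (m : ℝ)) = pol j c m := by
    intro m
    rw [mev_one, pol]
    have h6 : ∑ i : Fin (d + 1), c' (fun _ => i) * (m : ℝ) ^ (i : ℕ) =
        ∑ i ∈ range (d + 1), (if i ≤ j then c i else 0) * (m : ℝ) ^ i := by
      rw [Finset.sum_range]
    rw [h6]
    symm
    apply Finset.sum_subset_zero_on_sdiff
    · intro i hi
      rw [mem_range] at hi ⊢
      omega
    · intro i hi
      rw [mem_sdiff, mem_range, mem_range] at hi
      rw [if_neg (by omega), zero_mul]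
    · intro i hi
      rw [mem_range] at hi
      rw [if_pos (by omega)]
  have h7 : (fun m : ℤ => pw (pol j c m) x) = fun m : ℤ => pw (mev c' fun _ : Fin 1 => (m : ℝ)) x := by
    funext m
    rw [h5]
  rw [h7]
  simpa using h4

end

end Pool.Agent.NG
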