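import Mathlib
import Pool.Agent.Lib.NG.B

/-!
# NVG2 (MP_663568_nt), row SLP: the coordinates modulo `G_2` along a polynomial sequence are affine
(helper40)
-/

set_option autoImplicit false
open Finset Topology

namespace Pool.Agent.NG

noncomputable section

open Amb Pool.Agent.Lib.MP_663568_nt Pool.Agent.Lib.MP_663568_nt.Katai
  Pool.Agent.Lib.MP_663568_nt.Nul Pool.Agent.SV Pool.Agent.VQ Pool.Agent.NV

theorem slp : SLP_stmt := by
  intro hD U _ Gf d hG D kp e κ hK g hg
  have hle : ∀ i, Gf i ≤ Gf 0 := by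
    intro i
    induction i with
    | zero => exact le_rfl
    | succ i ih => exact (hG.anti i).trans ih
  have hF : (fun i => Gf 0 ⊓ Gf i) = Gf := by
    funext i
    exact inf_eq_right.mpr (hle i)
  have hval : ∀ m, g m ∈ Gf 0 := fun m => hg [] m
  have h1 : ∀ i : Fin D, ∃ c : ℕ → ℝ, ∀ m, kp (g m) i = pol 1 c m := by
    intro i
    apply hD U Gf 1 (Gf 0) (fun x => kp x i) g
    · intro x hx y hy
      rw [hK.mul x hx y hy]
      rfl
    · intro x hx
      rw [(hK.ker x hx.1).mpr hx.2]
      rfl
    · rw [hF]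
      exact hg
  choose c hc using h1
  refine ⟨fun i => c i 1, hval, ?_⟩
  intro m
  funext i
  rw [hc, Pi.add_apply, hc, Pi.smul_apply, smul_eq_mul, pol, pol]
  simp [Finset.sum_range_succ]
  ring

end

end Pool.Agent.NG
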