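import Mathlib
import Pool.Agent.Lib.NG.B
import Pool.Agent.Lib.NG.CAS

/-!
# NVG2 (MP_663568_nt), row STP: one step of the induction

helper59.
-/

set_option autoImplicit false
open Finset

namespace Pool.Agent.NG

noncomputable section

open Amb Pool.Agent.Lib.MP_663568_nt Pool.Agent.Lib.MP_663568_nt.Katai
  Pool.Agent.Lib.MP_663568_nt.Nul Pool.Agent.SV Pool.Agent.VQ Pool.Agent.NV

namespace STPx

theorem nrz_mul {t d : ℕ} {E : ℝ} {Q L : ℕ} {P : ℤ → ℝ} (h : NrZ t d E Q L P) (k : ℕ) :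
    NrZ t d (k * E) (k * Q) L P := by
  obtain ⟨c, h1, h2⟩ := h
  refine ⟨c, h1, fun j hj1 hj2 => ?_⟩
  have h3 := h2 j hj1 hj2
  have h4 : ((k * Q : ℕ) : ℝ) * c j = (k : ℝ) * ((Q : ℝ) * c j) := by push_cast; ring
  rw [h4]
  refine (nd_nat_mul_le k _).trans ?_
  calc (k : ℝ) * nd ((Q : ℝ) * c j) ≤ k * (E / (L : ℝ) ^ j) := by gcongr
    _ = _ := by ring

theorem nrz_le {t d : ℕ} {E E' : ℝ} {Q L : ℕ} {P : ℤ → ℝ} (h : NrZ t d E Q L P) (hE : E ≤ E') :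
    NrZ t d E' Q L P := by
  obtain ⟨c, h1, h2⟩ := h
  refine ⟨c, h1, fun j hj1 hj2 => (h2 j hj1 hj2).trans ?_⟩
  gcongr

section
variable {U : Type} [Amb U]

/-- For every event of the kind `A` one of finitely many characters is near. -/
def Ev (Gf : ℕ → Subgroup U) (d : ℕ) (A : ℕ → (ℤ → U) → Prop) : Prop :=
  ∃ (X : List (U → ℝ)) (E : ℝ) (Q L₀ : ℕ), 0 ≤ E ∧ 1 ≤ Q ∧
    (∀ χ ∈ X, Chr (Gf 0) (Gf 0) (Gf (d + 1)) χ) ∧
    ∀ L, L₀ ≤ L → ∀ g : ℤ → U, PS Gf 0 g → A L g → ∃ χ ∈ X, NrZ 1 d E Q L fun m => χ (g m)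

variable {Gf : ℕ → Subgroup U} {d : ℕ}

theorem ev_mono {A B : ℕ → (ℤ → U) → Prop} (L₁ : ℕ)
    (h : ∀ L, L₁ ≤ L → ∀ g : ℤ → U, PS Gf 0 g → B L g → A L g) (hA : Ev Gf d A) : Ev Gf d B := by
  obtain ⟨X, E, Q, L₀, h1, h2, h3, h4⟩ := hA
  exact ⟨X, E, Q, max L₀ L₁, h1, h2, h3, fun L hL g hg hB =>
    h4 L ((le_max_left _ _).trans hL) g hg (h L ((le_max_right _ _).trans hL) g hg hB)⟩

theorem ev_false {B : ℕ → (ℤ → U) → Prop} (L₁ : ℕ)
    (h : ∀ L, L₁ ≤ L → ∀ g : ℤ → U, PS Gf 0 g → ¬ B L g) : Ev Gf d B :=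
  ⟨[], 0, 1, L₁, le_rfl, le_rfl, by simp, fun L hL g hg hB => absurd hB (h L hL g hg)⟩

theorem ev_or {A B : ℕ → (ℤ → U) → Prop} (hA : Ev Gf d A) (hB : Ev Gf d B) :
    Ev Gf d fun L g => A L g ∨ B L g := by
  obtain ⟨X, E, Q, L₀, h1, h2, h3, h4⟩ := hA
  obtain ⟨X', E', Q', L₀', h1', h2', h3', h4'⟩ := hB
  refine ⟨X ++ X', Q' * E + Q * E', Q' * Q, max L₀ L₀', by positivity, Nat.mul_pos h2' h2,
    fun χ hχ => ?_, ?_⟩
  · rcases List.mem_append.1 hχ with h | h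
    · exact h3 χ h
    · exact h3' χ h
  · intro L hL g hg hAB
    rcases hAB with h | h
    · obtain ⟨χ, h5, h6⟩ := h4 L ((le_max_left _ _).trans hL) g hg h
      refine ⟨χ, List.mem_append_left _ h5, nrz_le (nrz_mul h6 Q') ?_⟩
      have : (0 : ℝ) ≤ Q * E' := by positivity
      linarith
    · obtain ⟨χ, h5, h6⟩ := h4' L ((le_max_right _ _).trans hL) g hg h
      refine ⟨χ, List.mem_append_right _ h5, ?_⟩
      rw [mul_comm Q' Q]
      refine nrz_le (nrz_mul h6 Q) ?_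
      have : (0 : ℝ) ≤ Q' * E := by positivity
      linarith

theorem ev_fin (n : ℕ) : ∀ A : Fin n → ℕ → (ℤ → U) → Prop, (∀ i, Ev Gf d (A i)) →
    Ev Gf d fun L g => ∃ i, A i L g := by
  induction n with
  | zero => intro A _; exact ev_false 0 fun L _ g _ ⟨i, _⟩ => i.elim0
  | succ n ih =>
    intro A hA
    refine ev_mono 0 ?_ (ev_or (hA 0) (ih (fun i => A i.succ) fun i => hA _))
    rintro L _ g _ ⟨i, hi⟩
    rcases Fin.eq_zero_or_eq_succ i with h | ⟨j, h⟩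
    · left; rw [h] at hi; exact hi
    · right; exact ⟨j, by rw [h] at hi; exact hi⟩

theorem ev_of {N : ℕ} {X : Fin N → U → ℝ} {E : ℝ} {Q L₀ : ℕ} {A : ℕ → (ℤ → U) → Prop}
    (hE : 0 ≤ E) (hQ : 1 ≤ Q) (hX : ∀ i, Chr (Gf 0) (Gf 0) (Gf (d + 1)) (X i))
    (h : ∀ L, L₀ ≤ L → ∀ g : ℤ → U, PS Gf 0 g → A L g → ∃ i, NrZ 1 d E Q L fun m => X i (g m)) :
    Ev Gf d A := by
  refine ⟨List.ofFn X, E, Q, L₀, hE, hQ, fun χ hχ => ?_, fun L hL g hg hA => ?_⟩
  · obtain ⟨i, rfl⟩ := (List.mem_ofFn' X χ).1 hχ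
    exact hX i
  · obtain ⟨i, hi⟩ := h L hL g hg hA
    exact ⟨X i, (List.mem_ofFn' X _).2 ⟨i, rfl⟩, hi⟩

end

end STPx

open STPx CASx

/-- Row STP. -/
theorem stp : STP_stmt := by
  intro hcoo hfilt hslp hful hvst hcas hom0
  intro U _ Gf d hd hfil hLZ hred z k hk hcen F hF hF1 hV c hc hc1
  classical
  have hG2 : Gf 2 ≤ Gf 0 := anti_le hfil (by omega)
  have hGd0 : Gf d ≤ Gf 0 := anti_le hfil (by omega)
  have hGd : Gf (d + 1) ≤ Gf 0 := anti_le hfil (by omega)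
  have hGd2 : Gf (d + 1) ≤ Gf 2 := anti_le hfil (by omega)
  have hGdd : Gf (d + 1) ≤ Gf d := hfil.anti d
  have hmem : ∀ g : ℤ → U, PS Gf 0 g → ∀ m, g m ∈ Gf 0 := fun g hg m => hg [] m
  suffices hmain : Ev Gf d fun L g => c * L ≤ ‖∑ m ∈ range L, F (g (m : ℕ))‖ by
    obtain ⟨X, E, Q, L₀, h1, h2, h3, h4⟩ := hmain
    refine ⟨X.length, fun i => X.get i, E, Q, L₀, h1, h2, fun i => h3 _ (X.get_mem i), ?_⟩
    intro L hL g hg hs
    obtain ⟨χ, h5, h6⟩ := h4 L hL g hg hs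
    obtain ⟨i, hi⟩ := List.mem_iff_get.1 h5
    refine ⟨i, ?_⟩
    have h7 : (fun i => X.get i) i = χ := hi
    rw [h7]
    exact h6
  -- coordinates
  obtain ⟨D, e, kp, κ, hc1', hc2', hc3', hc4', hc5', hc6', hc7', hc8'⟩ :=
    hcoo U (Gf 0) (Gf 2) (hfil.rat 0) (hfil.rat 2) hG2 (by
      intro x hx y hy
      have h1 := hfil.com 0 2 x hx y hy
      rw [zero_add] at h1
      have h2 := (Gf 2).mul_mem h1 hy
      simpa using h2) (by
      intro x hx y hy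
      have h1 := hfil.com 1 1
      rw [hfil.top] at h1
      exact h1 x hx y hy)
  have hcrd : Crd (Gf 0) (Gf 2) kp e κ := ⟨hc1', hc2', hc3', hc4', hc5', hc6', hc7', hc8'⟩
  -- characters of the last group
  obtain ⟨N, ξ, F', hF', happ⟩ := hful U Gf d (by omega) hfil z k hcen F hF hF1 hV (c / 2)
    (by linarith)
  set c₂ : ℝ := c / (2 * (N + 1)) with hc₂
  have hc₂p : 0 < c₂ := by positivity
  have hc₂1 : c₂ ≤ 1 := by
    rw [hc₂, div_le_one (by positivity)]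
    have : (0 : ℝ) ≤ N := Nat.cast_nonneg _
    linarith
  -- one function
  have hone : ∀ i : Fin N, Ev Gf d fun L g => c₂ * L ≤ ‖∑ m ∈ range L, F' i (g (m : ℕ))‖ := by
    intro i
    obtain ⟨hFn, hFb, hVz, hξ, hVc⟩ := hF' i
    by_cases hz : ∀ x ∈ Gf d, ξ i x = 0
    · -- invariant under `Gf d`
      have hinv : ∀ w ∈ Gf d, ∀ x ∈ Gf 0, F' i (w * x) = F' i x := by
        intro w hw x hx
        rw [hVc w hw x hx, hz w hw]
        simp [ee]
      by_cases hzd : z ∈ Gf d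
      · refine ev_false 1 fun L hL g hg hcon => ?_
        have h0 : ∀ x ∈ Gf 0, F' i x = 0 := by
          intro x hx
          have h1 := hVz (1 / (2 * k)) x hx
          rw [hinv _ ((hfil.rat d).pwc z hzd _) x hx] at h1
          have h2 : (k : ℝ) * (1 / (2 * k)) = 1 / 2 := by
            have : (k : ℝ) ≠ 0 := by exact_mod_cast hk
            field_simp
          rw [h2] at h1
          have h3 : ee (1 / 2 : ℝ) = -1 := by
            unfold ee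
            rw [← Complex.exp_pi_mul_I]
            congr 1
            push_cast
            ring
          rw [h3] at h1
          have h4 : (2 : ℂ) * F' i x = 0 := by linear_combination h1
          simpa using h4
        have h1 : ∑ m ∈ range L, F' i (g (m : ℕ)) = 0 :=
          sum_eq_zero fun m _ => h0 _ (hmem g hg _)
        rw [h1, norm_zero] at hcon
        have h2 : (1 : ℝ) ≤ L := by exact_mod_cast hL
        nlinarith
      · have hfil' := (hfilt U Gf d hfil).2.2.1 (by omega)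
        have hd1 : d - 1 + 1 = d := by omega
        obtain ⟨Gf', hGf'⟩ : ∃ Gf' : ℕ → Subgroup U, Gf' = fun i => Gf (min i d) := ⟨_, rfl⟩
        rw [← hGf'] at hfil'
        have e0 : Gf' 0 = Gf 0 := by rw [hGf']; simp
        have e1 : Gf' (d - 1 + 1) = Gf d := by rw [hGf', hd1]; simp
        obtain ⟨N₁, X₁, E₁, Q₁, L₁, h1, h2, h3, h4⟩ := hLZ U Gf' hfil' z k hk
          (by rw [e0, e1]; exact ⟨hcen.la, hcen.mem, fun g hg t => hGdd (hcen.cen g hg t), hzd⟩)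
          (F' i) (by rw [e0, e1]; exact ⟨hFn.bd, hFn.uc, hFn.lat, hinv⟩)
          (by rw [e0]; exact hFb) (by rw [e0]; exact hVz) c₂ hc₂p hc₂1
        refine ev_of (L₀ := L₁) h1 h2 (X := X₁) (fun j => ?_) fun L hL g hg hs => ?_
        · have h5 := h3 j
          rw [e0, e1] at h5
          exact ⟨h5.mul, h5.inv, h5.int, fun x hx => h5.van x (hGdd hx), h5.cont, h5.ne⟩
        · obtain ⟨j, hj⟩ := h4 L hL g (by
            intro l n
            rw [hGf']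
            show _ ∈ Gf (min (0 + l.length) d)
            exact anti_le hfil (min_le_left _ _) (hg l n)) hs
          exact ⟨j, nrz_ext (by omega) h1 hj⟩
    · -- a non-zero character
      have hξc : Chr (Gf 0) (Gf d) (Gf (d + 1)) (ξ i) := by
        push Not at hz
        exact ⟨hξ.mul, hξ.inv, hξ.int, hξ.van, hξ.cont, hz⟩
      obtain ⟨N₁, Θ, c', E₁, Q₁, L₁, hc'p, hc'1, hE₁, hQ₁, hΘ, hvs⟩ :=
        hvst d hd hLZ U Gf hfil D kp e κ hcrd (F' i) hFn hFb (ξ i) hξc hVc c₂ hc₂p hc₂1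
      have hB : ∀ j : Fin N₁, Ev Gf d fun L g => c₂ * L ≤ ‖∑ m ∈ range L, F' i (g (m : ℕ))‖ ∧
          ∃ a, Slp (Gf 0) kp g a ∧ c' * L ≤ (#((range L).filter fun s : ℕ =>
            NrZ 1 (d - 1) E₁ Q₁ L fun m => Θ j (hs e g a s m)) : ℝ) := by
        intro j
        obtain ⟨N₂, X₂, χ, E₂, Q₂, L₂, hE₂, hQ₂, hX₂, hca⟩ :=
          hcas U Gf d hd hfil D kp e κ hcrd (Θ j) (hΘ j) c' E₁ Q₁ hc'p hc'1 hE₁ hQ₁
        have hA1 : Ev Gf d fun L g => ∃ i, NrZ 1 d E₂ Q₂ L fun m => X₂ i (g m) :=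
          ev_of (L₀ := 0) hE₂ hQ₂ hX₂ fun L _ g _ h => h
        have hA2 : Ev Gf d fun L g => c₂ * L ≤ ‖∑ m ∈ range L, F' i (g (m : ℕ))‖ ∧
            Chr (Gf 0) (Gf 0) (Gf (d + 1)) χ ∧ (∃ x ∈ Gf 2, χ x ≠ 0) ∧
              NrZ 2 d E₂ Q₂ L fun m => χ (g m) := by
          by_cases hχ : Chr (Gf 0) (Gf 0) (Gf (d + 1)) χ ∧ ∃ x ∈ Gf 2, χ x ≠ 0
          · obtain ⟨N₃, X₃, E₃, Q₃, L₃, hE₃, hQ₃, hX₃, hom⟩ := hom0 U Gf d hd hfil χ hχ.1 hχ.2
              (hred χ hχ.1 hχ.2) z k hk hcen (F' i) hFn hFb hVz c₂ E₂ Q₂ hc₂p hc₂1 hE₂ hQ₂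
            exact ev_of (L₀ := L₃) hE₃ hQ₃ hX₃ fun L hL g hg h => hom L hL g hg h.1 h.2.2.2
          · exact ev_false 0 fun L _ g _ h => hχ ⟨h.2.1, h.2.2.1⟩
        refine ev_mono L₂ ?_ (ev_or hA1 hA2)
        rintro L hL g hg ⟨h1, a, h2, h3⟩
        rcases hca L hL g a hg h2 (by convert h3) with h4 | ⟨h4, h5, h6⟩
        · exact Or.inl h4
        · exact Or.inr ⟨h1, h4, h5, h6⟩
      refine ev_mono L₁ ?_ (ev_fin N₁ _ hB)
      intro L hL g hg hs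
      obtain ⟨a, ha⟩ := hslp U Gf d hfil D kp e κ hcrd g hg
      obtain ⟨j, hj⟩ := hvs L hL g a hg ha hs
      exact ⟨j, hs, a, ha, by convert hj⟩
  refine ev_mono 1 ?_ (ev_fin N _ hone)
  intro L hL g hg hs
  by_contra hcon
  push Not at hcon
  have hLp : (1 : ℝ) ≤ L := by exact_mod_cast hL
  have h1 : ‖∑ m ∈ range L, F (g (m : ℕ))‖ ≤ c / 2 * L + N * (c₂ * L) := by
    have h2 : ∑ m ∈ range L, F (g (m : ℕ)) =
        ∑ m ∈ range L, (F (g (m : ℕ)) - ∑ i, F' i (g (m : ℕ))) +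
          ∑ i, ∑ m ∈ range L, F' i (g (m : ℕ)) := by
      rw [sum_comm, ← sum_add_distrib]
      exact sum_congr rfl fun m _ => by ring
    rw [h2]
    refine (norm_add_le _ _).trans (add_le_add ?_ ?_)
    · refine (norm_sum_le _ _).trans ((sum_le_card_nsmul _ _ (c / 2) fun m _ =>
        happ _ (hmem g hg _)).trans ?_)
      rw [card_range, nsmul_eq_mul, mul_comm]
    · refine (norm_sum_le _ _).trans ((sum_le_card_nsmul _ _ (c₂ * L) fun i _ =>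
        (hcon i).le).trans ?_)
      rw [card_univ, Fintype.card_fin, nsmul_eq_mul]
  have h2 : (N : ℝ) * c₂ < c / 2 := by
    rw [hc₂, mul_div_assoc', div_lt_div_iff₀ (by positivity) (by norm_num)]
    nlinarith
  have h3 : (N : ℝ) * (c₂ * L) < c / 2 * L := by
    rw [← mul_assoc]
    exact mul_lt_mul_of_pos_right h2 (by linarith)
  linarith

end

end Pool.Agent.NG
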