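import Mathlib
import Pool.Agent.Lib.NG.B

/-!
# Row VDC (MP_663568_nt, NVG2): van der Corput's inequality.  (helper91)
-/

set_option autoImplicit false
open Finset

namespace Pool.Agent.NG

namespace VDCx

/-- The square of a sum. -/
theorem sq_sum (b : ℕ → ℂ) (L : ℕ) :
    (∑ m ∈ range L, b m) * (starRingEnd ℂ) (∑ m ∈ range L, b m) =
      (∑ x ∈ range L, ∑ y ∈ range (x + 1), b x * (starRingEnd ℂ) (b y)) +
      (starRingEnd ℂ) (∑ x ∈ range L, ∑ y ∈ range (x + 1), b x * (starRingEnd ℂ) (b y)) -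
      ∑ x ∈ range L, b x * (starRingEnd ℂ) (b x) := by
  induction L with
  | zero => simp
  | succ L ih =>
    have h1 : ∑ y ∈ range (L + 1), b L * (starRingEnd ℂ) (b y) =
        b L * (starRingEnd ℂ) (∑ m ∈ range L, b m) + b L * (starRingEnd ℂ) (b L) := by
      rw [sum_range_succ, ← mul_sum, map_sum]
    rw [sum_range_succ (fun x => b x), sum_range_succ (fun x => ∑ y ∈ range (x + 1),
      b x * (starRingEnd ℂ) (b y)), sum_range_succ (fun x => b x * (starRingEnd ℂ) (b x)), h1]
    simp only [map_add, map_mul, Complex.conj_conj] at ih ⊢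
    linear_combination ih

/-- The sum over pairs as a sum over the differences. -/
theorem diag (b : ℕ → ℂ) (L : ℕ) :
    ∑ x ∈ range L, ∑ y ∈ range (x + 1), b x * (starRingEnd ℂ) (b y) =
      ∑ s ∈ range L, ∑ m ∈ range (L - s), b (m + s) * (starRingEnd ℂ) (b m) := by
  rw [← sum_range_diag_flip L fun s m => b (m + s) * (starRingEnd ℂ) (b m)]
  refine sum_congr rfl fun x _ => ?_
  rw [← sum_range_reflect]
  refine sum_congr rfl fun y hy => ?_
  rw [mem_range] at hy
  have h1 : x + 1 - 1 - y = x - y := by omega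
  have h2 : x - y + y = x := by omega
  rw [h1, h2]

theorem normSq_le (b : ℕ → ℂ) (L : ℕ) : ‖∑ m ∈ range L, b m‖ ^ 2 ≤
    2 * ∑ s ∈ range L, ‖∑ m ∈ range (L - s), b (m + s) * (starRingEnd ℂ) (b m)‖ := by
  set D := ∑ x ∈ range L, ∑ y ∈ range (x + 1), b x * (starRingEnd ℂ) (b y) with hD
  have h1 := congrArg Complex.re (sq_sum b L)
  rw [← hD, Complex.mul_conj, Complex.ofReal_re, Complex.normSq_eq_norm_sq, Complex.sub_re,
    Complex.add_re, Complex.conj_re] at h1
  have h2 : 0 ≤ (∑ x ∈ range L, b x * (starRingEnd ℂ) (b x)).re := by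
    rw [Complex.re_sum]
    refine sum_nonneg fun x _ => ?_
    rw [Complex.mul_conj, Complex.ofReal_re]
    exact Complex.normSq_nonneg _
  have h3 : D.re ≤ ‖D‖ := Complex.re_le_norm D
  have h4 : ‖D‖ ≤ ∑ s ∈ range L, ‖∑ m ∈ range (L - s), b (m + s) * (starRingEnd ℂ) (b m)‖ := by
    rw [hD, diag]
    exact norm_sum_le _ _
  linarith

end VDCx

theorem vdc : VDC_stmt := by
  classical
  intro c hc hc1
  refine ⟨c ^ 2 / 4, by positivity, by nlinarith, ?_⟩
  intro L hL a ha hsum
  have hLr : (1 : ℝ) ≤ L := by exact_mod_cast hL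
  have hL0 : (0 : ℝ) < L := by linarith
  set b : ℕ → ℂ := fun m => a m with hb
  set T : ℕ → ℝ := fun s => ‖∑ m ∈ range (L - s), a ((m : ℤ) + s) * (starRingEnd ℂ) (a m)‖ with hT
  have hTb : ∀ s, T s = ‖∑ m ∈ range (L - s), b (m + s) * (starRingEnd ℂ) (b m)‖ := by
    intro s
    simp only [hT, hb]
    push_cast
    rfl
  have hTle : ∀ s, T s ≤ L := by
    intro s
    simp only [hT]
    refine (norm_sum_le _ _).trans ?_
    calc ∑ m ∈ range (L - s), ‖a ((m : ℤ) + s) * (starRingEnd ℂ) (a m)‖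
        ≤ ∑ m ∈ range (L - s), (1 : ℝ) := by
          refine sum_le_sum fun m _ => ?_
          rw [norm_mul, RCLike.norm_conj]
          exact mul_le_one₀ (ha _) (norm_nonneg _) (ha _)
      _ = ((L - s : ℕ) : ℝ) := by simp
      _ ≤ L := by exact_mod_cast Nat.sub_le L s
  have hmain := VDCx.normSq_le b L
  have h1 : (c * L) ^ 2 ≤ 2 * ∑ s ∈ range L, T s := by
    calc (c * L) ^ 2 ≤ ‖∑ m ∈ range L, b m‖ ^ 2 := pow_le_pow_left₀ (by positivity) hsum 2
      _ ≤ _ := hmain
      _ = _ := by simp only [hTb]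
  set S := (range L).filter fun s : ℕ => c ^ 2 / 4 * L ≤ T s with hS
  have h2 : ∑ s ∈ range L, T s ≤ #S * L + L * (c ^ 2 / 4 * L) := by
    calc ∑ s ∈ range L, T s ≤ ∑ s ∈ range L, ((if c ^ 2 / 4 * L ≤ T s then (L : ℝ) else 0) +
          c ^ 2 / 4 * L) := by
          refine sum_le_sum fun s _ => ?_
          split_ifs with h
          · have := hTle s
            have h3 : 0 ≤ c ^ 2 / 4 * L := by positivity
            linarith
          · push Not at h
            linarith
      _ = #S * L + L * (c ^ 2 / 4 * L) := by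
          rw [sum_add_distrib, ← sum_filter, sum_const, sum_const, card_range, nsmul_eq_mul,
            nsmul_eq_mul]
  have h3 : c ^ 2 / 4 * L * L ≤ #S * L := by nlinarith
  exact le_of_mul_le_mul_right h3 hL0

end Pool.Agent.NG
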