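import Pool.Agent.Lib.NG.B

/-!
# NVG2 (MP_663568_nt), row VST: van der Corput's step  (helper13)
-/

set_option autoImplicit false
open Finset Topology

namespace Pool.Agent.NG

noncomputable section

open Amb Pool.Agent.Lib.MP_663568_nt Pool.Agent.Lib.MP_663568_nt.Katai
  Pool.Agent.Lib.MP_663568_nt.Nul Pool.Agent.SV Pool.Agent.VQ Pool.Agent.NV

namespace VSTa

/-- Change of the length and of the denominator. -/
theorem nrz_conv {t d : ℕ} {E E' c : ℝ} {Q Q' L L' : ℕ} {P : ℤ → ℝ} (hc : 0 < c) (hc1 : c ≤ 1)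
    (hL : 1 ≤ L) (hLL : c * L ≤ L') (hE : 0 ≤ E) (q : ℕ) (hQ : Q' = q * Q)
    (hE' : q * E / c ^ d ≤ E') (h : NrZ t d E Q L' P) : NrZ t d E' Q' L P := by
  obtain ⟨co, h1, h2⟩ := h
  refine ⟨co, h1, fun j hj hjd => ?_⟩
  have hL0 : (0 : ℝ) < L := by exact_mod_cast hL
  have hL' : (0 : ℝ) < L' := lt_of_lt_of_le (by positivity) hLL
  have a := h2 j hj hjd
  have b : nd ((Q' : ℝ) * co j) ≤ q * nd ((Q : ℝ) * co j) := by
    have e : (Q' : ℝ) * co j = q * ((Q : ℝ) * co j) := by rw [hQ]; push_cast; ring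
    rw [e]
    have h3 := round_le ((q : ℝ) * ((Q : ℝ) * co j)) ((q : ℤ) * round ((Q : ℝ) * co j))
    have h4 : (q : ℝ) * ((Q : ℝ) * co j) - (((q : ℤ) * round ((Q : ℝ) * co j) : ℤ) : ℝ) =
        q * ((Q : ℝ) * co j - round ((Q : ℝ) * co j)) := by push_cast; ring
    rw [h4, abs_mul (q : ℝ) _, abs_of_nonneg (Nat.cast_nonneg q : (0 : ℝ) ≤ (q : ℝ))] at h3
    exact h3
  have c1 : E / (L' : ℝ) ^ j ≤ E / (c ^ d * (L : ℝ) ^ j) := by
    apply div_le_div_of_nonneg_left hE (by positivity)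
    calc c ^ d * (L : ℝ) ^ j ≤ c ^ j * (L : ℝ) ^ j := by
          apply mul_le_mul_of_nonneg_right _ (by positivity)
          exact pow_le_pow_of_le_one hc.le hc1 hjd
      _ = (c * L) ^ j := by rw [mul_pow]
      _ ≤ (L' : ℝ) ^ j := pow_le_pow_left₀ (by positivity) hLL j
  calc nd ((Q' : ℝ) * co j) ≤ q * (E / (c ^ d * (L : ℝ) ^ j)) :=
        b.trans (mul_le_mul_of_nonneg_left (a.trans c1) (Nat.cast_nonneg q))
    _ = q * E / c ^ d / (L : ℝ) ^ j := by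
        field_simp
    _ ≤ E' / (L : ℝ) ^ j := div_le_div_of_nonneg_right hE' (by positivity)

/-- Pigeonhole. -/
theorem pigeon {K : ℕ} (S : Finset ℕ) (T : Fin K → Finset ℕ) (h : ∀ s ∈ S, ∃ i, s ∈ T i)
    (c L : ℝ) (hc : 0 < c) (hL : 0 < L) (hS : c * L ≤ #S) :
    ∃ i, c / (K + 1) * L ≤ #(T i) := by
  classical
  by_contra hcon
  push Not at hcon
  have h1 : #S ≤ ∑ i, #(T i) := by
    calc #S ≤ #(univ.biUnion T) := by
          apply card_le_card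
          intro s hs
          obtain ⟨i, hi⟩ := h s hs
          exact mem_biUnion.mpr ⟨i, mem_univ _, hi⟩
      _ ≤ ∑ i, #(T i) := card_biUnion_le
  have h2 : (∑ i, (#(T i) : ℝ)) ≤ ∑ _i : Fin K, c / (K + 1) * L :=
    sum_le_sum fun i _ => (hcon i).le
  rw [sum_const, card_univ, Fintype.card_fin, nsmul_eq_mul] at h2
  have h3 : (#S : ℝ) ≤ ∑ i, (#(T i) : ℝ) := by exact_mod_cast h1
  have h4 : c * L ≤ K * (c / (K + 1) * L) := hS.trans (h3.trans h2)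
  have h5 : K * (c / (K + 1) * L) < c * L := by
    have : (0 : ℝ) < K + 1 := by positivity
    have e : K * (c / (K + 1) * L) = c * L * (K / (K + 1)) := by field_simp
    rw [e]
    have : (K : ℝ) / (K + 1) < 1 := by rw [div_lt_one this]; linarith
    calc c * L * (K / (K + 1)) < c * L * 1 := by
          apply mul_lt_mul_of_pos_left this (by positivity)
      _ = c * L := mul_one _
  linarith

section
variable {U : Type} [Amb U]

theorem tau_int (hPW : PWB_stmt) {D : ℕ} (e : Fin D → U) (G : Subgroup U)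
    (he : ∀ i, e i ∈ (La : Subgroup U) ∧ e i ∈ G) (n : Fin D → ℤ) :
    tau e (fun i => (n i : ℝ)) ∈ (La : Subgroup U) ∧ tau e (fun i => (n i : ℝ)) ∈ G := by
  obtain ⟨-, -, hz, -⟩ := hPW U
  constructor
  · apply Subgroup.list_prod_mem
    intro x hx
    obtain ⟨i, rfl⟩ := List.mem_ofFn.mp hx
    rw [hz]
    exact Subgroup.zpow_mem _ (he i).1 _
  · apply Subgroup.list_prod_mem
    intro x hx
    obtain ⟨i, rfl⟩ := List.mem_ofFn.mp hx
    rw [hz]
    exact Subgroup.zpow_mem _ (he i).2 _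

/-- The product of two values as a value of the function on the square. -/
theorem sq_val (hPW : PWB_stmt) {D : ℕ} (e : Fin D → U) (G : Subgroup U)
    (he : ∀ i, e i ∈ (La : Subgroup U) ∧ e i ∈ G) (F : U → ℂ)
    (hlat : ∀ x ∈ G, ∀ γ ∈ (La : Subgroup U), γ ∈ G → F (x * γ) = F x) (g : ℤ → U)
    (hg : ∀ m, g m ∈ G) (a : Fin D → ℝ) (s : ℕ) (m : ℤ) :
    F (g (m + s)) * (starRingEnd ℂ) (F (g m)) = Fsq e F (fr s a) (hs e g a s m) := by
  have h1 : fl s a = fun i => ((⌊(s : ℝ) * a i⌋ : ℤ) : ℝ) := rfl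
  obtain ⟨h2, h3⟩ := tau_int hPW e G he fun i => ⌊(s : ℝ) * a i⌋
  rw [← h1] at h2 h3
  simp only [Fsq, hs]
  congr 1
  rw [← mul_assoc, ← mul_assoc, mul_inv_cancel, one_mul]
  exact (hlat _ (hg _) _ (inv_mem h2) (inv_mem h3)).symm

end

end VSTa

open VSTa in
theorem vst : VST_stmt := by
  classical
  intro hPW hVD hFIL hSQ hHP d hd hLZ U _ Gf hFi D kp e κ hcrd F hF hF1 ξ hξ hch c hc hc1
  obtain ⟨c₁, hc₁, hc₁1, hvd⟩ := hVD c hc hc1
  obtain ⟨⟨w, k, hk, hcen, hfs⟩, hnet⟩ := hSQ U Gf d hd hFi D kp e κ hcrd F hF hF1 ξ hξ hch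
  obtain ⟨N₁, vv, hvv⟩ := hnet (c₁ / 2) (by positivity)
  have hFsq : Filt (Gsq Gf d) (d - 1) := (hFIL U Gf d hFi).1 hd
  have hLB := hLZ (U × U) (Gsq Gf d) hFsq
  have h1 : ∀ n : Fin N₁, ∃ (N : ℕ) (X : Fin N → U × U → ℝ) (E : ℝ) (Q L₀ : ℕ), 0 ≤ E ∧ 1 ≤ Q ∧
      (∀ i, Chr (Gsq Gf d 0) (Gsq Gf d 0) (Gsq Gf d (d - 1 + 1)) (X i)) ∧
      ∀ L : ℕ, L₀ ≤ L → ∀ g : ℤ → U × U, PS (Gsq Gf d) 0 g →
        c₁ / 2 * L ≤ ‖∑ m ∈ range L, Fsq e F (vv n) (g m)‖ →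
        ∃ i, NrZ 1 (d - 1) E Q L fun m => X i (g m) := by
    intro n
    obtain ⟨f1, f2, f3⟩ := hfs (vv n)
    exact hLB ((w, 1) : U × U) k hk hcen _ f1 f2 f3 (c₁ / 2) (by positivity) (by linarith)
  choose N X E Q L₀ hE hQ hX hmain using h1
  let I := Σ n : Fin N₁, Fin (N n)
  let K := Fintype.card I
  let eq : I ≃ Fin K := Fintype.equivFin I
  have hQQ : 1 ≤ ∏ n, Q n := Nat.one_le_iff_ne_zero.mpr
    (Finset.prod_ne_zero_iff.mpr fun n _ => Nat.one_le_iff_ne_zero.mp (hQ n))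
  refine ⟨K, fun i => X (eq.symm i).1 (eq.symm i).2, c₁ / (K + 1),
    ∑ n, ((∏ n, Q n : ℕ) : ℝ) * E n / c₁ ^ (d - 1), ∏ n, Q n,
    max 1 (⌈(∑ n, (L₀ n : ℝ)) / c₁⌉₊), by positivity, ?_, ?_, hQQ, fun i => hX _ _, ?_⟩
  · have : (0 : ℝ) < K + 1 := by positivity
    rw [div_le_one this]
    have : (0 : ℝ) ≤ K := by positivity
    linarith
  · exact sum_nonneg fun n _ => div_nonneg (mul_nonneg (Nat.cast_nonneg _) (hE n)) (by positivity)
  intro L hL g a hg hsl hsum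
  have hL1 : 1 ≤ L := (le_max_left _ _).trans hL
  have hL0 : (0 : ℝ) < L := by exact_mod_cast hL1
  have hLL : (∑ n, (L₀ n : ℝ)) ≤ c₁ * L := by
    have := Nat.le_of_ceil_le ((le_max_right _ _).trans hL)
    rw [div_le_iff₀ hc₁] at this
    linarith
  have hG : ∀ m, g m ∈ Gf 0 := fun m => hg [] m
  have hS := hvd L hL1 (fun m => F (g m)) (fun m => hF1 _ (hG m)) hsum
  obtain ⟨i, hi⟩ := pigeon _ (fun i : Fin K => (range L).filter fun s : ℕ =>
      NrZ 1 (d - 1) (∑ n, ((∏ n, Q n : ℕ) : ℝ) * E n / c₁ ^ (d - 1)) (∏ n, Q n) L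
        fun m => X (eq.symm i).1 (eq.symm i).2 (hs e g a s m)) (by
    intro s hs
    obtain ⟨hs1, hs2⟩ := mem_filter.mp hs
    have hsL : s < L := mem_range.mp hs1
    have hGs : PS (Gsq Gf d) 0 (NG.hs e g a s) := hHP U Gf d hd hFi D kp e κ hcrd g a hg hsl s
    have hmem : ∀ m, NG.hs e g a s m ∈ Gsq Gf d 0 := fun m => hGs [] m
    obtain ⟨n, hn⟩ := hvv (fr s a) fun i => ⟨Int.fract_nonneg _, (Int.fract_lt_one _).le⟩
    have hlen : ((L - s : ℕ) : ℝ) ≤ L := by exact_mod_cast Nat.sub_le L s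
    have hval : ∀ m : ℤ, F (g (m + s)) * (starRingEnd ℂ) (F (g m)) =
        Fsq e F (fr s a) (NG.hs e g a s m) :=
      fun m => sq_val hPW e (Gf 0) hcrd.mem F hF.lat g hG a s m
    have hb : c₁ * L ≤ ((L - s : ℕ) : ℝ) := by
      refine hs2.trans ?_
      refine (norm_sum_le _ _).trans ?_
      refine (sum_le_sum fun m _ => (?_ : _ ≤ (1 : ℝ))).trans ?_
      · rw [norm_mul, RCLike.norm_conj]
        exact mul_le_one₀ (hF1 _ (hG _)) (norm_nonneg _) (hF1 _ (hG _))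
      · simp
    have hcor : c₁ / 2 * ((L - s : ℕ) : ℝ) ≤
        ‖∑ m ∈ range (L - s), Fsq e F (vv n) (NG.hs e g a s m)‖ := by
      have e1 : (∑ m ∈ range (L - s), F (g ((m : ℤ) + s)) * (starRingEnd ℂ) (F (g m))) =
          (∑ m ∈ range (L - s), Fsq e F (vv n) (NG.hs e g a s m)) +
          ∑ m ∈ range (L - s), (Fsq e F (fr s a) (NG.hs e g a s m) -
            Fsq e F (vv n) (NG.hs e g a s m)) := by
        rw [← sum_add_distrib]
        refine sum_congr rfl fun m _ => ?_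
        rw [hval]
        ring
      have e2 : ‖∑ m ∈ range (L - s), (Fsq e F (fr s a) (NG.hs e g a s m) -
            Fsq e F (vv n) (NG.hs e g a s m))‖ ≤ ((L - s : ℕ) : ℝ) * (c₁ / 2) := by
        refine (norm_sum_le _ _).trans ?_
        refine (sum_le_sum fun (m : ℕ) _ => hn (NG.hs e g a s (m : ℤ)) (hmem m)).trans ?_
        simp
      have e3 := hs2
      rw [e1] at e3
      have e4 := e3.trans (norm_add_le _ _)
      have e5 : c₁ * ((L - s : ℕ) : ℝ) ≤ c₁ * L := mul_le_mul_of_nonneg_left hlen hc₁.le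
      linarith
    have hL0' : L₀ n ≤ L - s := by
      have h2 : (L₀ n : ℝ) ≤ ∑ n, (L₀ n : ℝ) :=
        single_le_sum (f := fun n => (L₀ n : ℝ)) (fun _ _ => Nat.cast_nonneg _) (mem_univ n)
      have h3 : (L₀ n : ℝ) ≤ ((L - s : ℕ) : ℝ) := h2.trans (hLL.trans hb)
      exact_mod_cast h3
    obtain ⟨i, hi⟩ := hmain n (L - s) hL0' _ hGs hcor
    refine ⟨eq ⟨n, i⟩, mem_filter.mpr ⟨hs1, ?_⟩⟩
    have e1 : eq.symm (eq ⟨n, i⟩) = ⟨n, i⟩ := eq.symm_apply_apply _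
    rw [e1]
    obtain ⟨q, hq⟩ : Q n ∣ ∏ n, Q n := dvd_prod_of_mem _ (mem_univ n)
    refine nrz_conv hc₁ hc₁1 hL1 hb (hE n) q (by rw [hq, mul_comm]) ?_ hi
    have h2 : q ≤ ∏ n, Q n := by
      rw [hq]
      exact Nat.le_mul_of_pos_left q (hQ n)
    calc (q : ℝ) * E n / c₁ ^ (d - 1) ≤ ((∏ n, Q n : ℕ) : ℝ) * E n / c₁ ^ (d - 1) := by
          apply div_le_div_of_nonneg_right _ (by positivity)
          apply mul_le_mul_of_nonneg_right _ (hE n)
          exact_mod_cast h2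
      _ ≤ _ := single_le_sum (f := fun n => ((∏ n, Q n : ℕ) : ℝ) * E n / c₁ ^ (d - 1))
          (fun n _ => div_nonneg (mul_nonneg (Nat.cast_nonneg _) (hE n)) (by positivity))
          (mem_univ n)) c₁ L hc₁ hL0 hS
  exact ⟨i, hi⟩

end

end Pool.Agent.NG
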