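import Mathlib
import Pool.Agent.Lib.NG.BOXL
import Pool.Agent.Lib.NG.LZN
import Pool.Agent.Lib.NG.STP
import Pool.Agent.Lib.NG.CAS
import Pool.Agent.Lib.NG.CHF
import Pool.Agent.Lib.NG.CHS
import Pool.Agent.Lib.NG.COO
import Pool.Agent.Lib.NG.DEGZ
import Pool.Agent.Lib.NG.EXT
import Pool.Agent.Lib.NG.FIB
import Pool.Agent.Lib.NG.FIL
import Pool.Agent.Lib.NG.FNC
import Pool.Agent.Lib.NG.FOU
import Pool.Agent.Lib.NG.FUL1
import Pool.Agent.Lib.NG.HPS
import Pool.Agent.Lib.NG.HSF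
import Pool.Agent.Lib.NG.KER
import Pool.Agent.Lib.NG.LB1
import Pool.Agent.Lib.NG.LBM
import Pool.Agent.Lib.NG.LEV
import Pool.Agent.Lib.NG.OM0
import Pool.Agent.Lib.NG.PRG
import Pool.Agent.Lib.NG.PWB
import Pool.Agent.Lib.NG.QDG
import Pool.Agent.Lib.NG.QMP
import Pool.Agent.Lib.NG.SIG
import Pool.Agent.Lib.NG.SIGZ
import Pool.Agent.Lib.NG.SLP
import Pool.Agent.Lib.NG.UNQ
import Pool.Agent.Lib.NG.VDC
import Pool.Agent.Lib.NG.VST
import Pool.Agent.Lib.NV.BRK
import Pool.Agent.Lib.NG.SQN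
import Pool.Agent.Lib.NG.RFL
import Pool.Agent.Lib.NG.FRT
import Pool.Agent.Lib.NG.LZA

/-!
# NVG2 (MP_663568_nt): the inverse theorem for polynomial maps on boxes, from the rows

helper59.
-/

set_option autoImplicit false

namespace Pool.Agent.NG

theorem leib_of (hsqn : SQN_stmt) (hrfl : RFL_stmt) (hfrt : FRT_stmt) (hlza : LZA_stmt) :
    ∀ r, 1 ≤ r → LEIB r := by
  have hdegz : DEGZ' := degz deg lbn
  have hsigz : SIGZ' := sigz sig lbn
  have hslp : SLP' := slp hdegz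
  have hful : FUL1' := ful1 pwb coo fou
  have hsq : SQN' := hsqn pwb chs fib lev fnc
  have hhps : HPS' := hps fib fil lbm lbn
  have hvst : VST' := vst pwb vdc fil hsq hhps
  have hqmp : QMP' := qmp pwb chs
  have hqdg : QDG' := qdg lbm lbn hsigz hdegz
  have hcas : CAS' := cas NV.brk unq ext_row fib chf hdegz hqmp hqdg hsf
  have hrfl' : RFL' := hrfl ker_row fil lbm hdegz unq
  have hfrt' : FRT' := hfrt pwb chs ker_row lev lbm hsigz hdegz unq hrfl'
  have hom : OM0' := om0 pwb chs fnc lbm lbn hdegz unq prg hrfl' hfrt'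
  have hstp : STP' := stp coo fil hslp hful hvst hcas hom
  exact boxl (lzn (hlza (lb1 chs hdegz hful) hrfl' hstp))

/-- The inverse theorem on boxes in every number of variables. -/
theorem leib : ∀ r, 1 ≤ r → LEIB r := leib_of sqn rfl_row frt lza

end Pool.Agent.NG
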