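import Mathlib
import Pool.Agent.Lib.NG.Box

/-!
# NVG2 (MP_663568_nt), row LJ, analysis: large windows in one residue class  (helper55)
-/

set_option autoImplicit false
open Finset

namespace Pool.Agent.NG

noncomputable section

namespace Lj

theorem sum_shift (f : ℕ → ℂ) (m l j : ℕ) :
    ∑ h ∈ Icc 1 l, f (m + h + j) - ∑ h ∈ Icc 1 l, f (m + h)
      = ∑ h ∈ Icc 1 j, (f (m + l + h) - f (m + h)) := by
  induction j with
  | zero => simp
  | succ j ih =>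
    rw [sum_Icc_succ_top (by omega), ← ih]
    have h1 : ∑ h ∈ Icc 1 l, f (m + h + (j + 1)) - ∑ h ∈ Icc 1 l, f (m + h + j)
        = f (m + l + (j + 1)) - f (m + (j + 1)) := by
      clear ih
      induction l with
      | zero => simp
      | succ l ih =>
        rw [sum_Icc_succ_top (by omega), sum_Icc_succ_top (by omega)]
        have e1 : f (m + (l + 1) + j) = f (m + l + (j + 1)) := by
          congr 1
          ring
        rw [e1]
        linear_combination ih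
    linear_combination h1

theorem norm_shift {f : ℕ → ℂ} {B : ℝ} (hB : ∀ m, ‖f m‖ ≤ B) (m l j : ℕ) :
    ‖∑ h ∈ Icc 1 l, f (m + h) - ∑ h ∈ Icc 1 l, f (m + h + j)‖ ≤ 2 * B * j := by
  rw [norm_sub_rev, sum_shift]
  calc ‖∑ h ∈ Icc 1 j, (f (m + l + h) - f (m + h))‖
      ≤ ∑ h ∈ Icc 1 j, ‖f (m + l + h) - f (m + h)‖ := norm_sum_le _ _
    _ ≤ ∑ h ∈ Icc 1 j, (2 * B) := by
        apply Finset.sum_le_sum
        intro h _
        have h1 := norm_sub_le (f (m + l + h)) (f (m + h))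
        have h2 := hB (m + l + h)
        have h3 := hB (m + h)
        linarith
    _ = 2 * B * j := by
        rw [sum_const, Nat.card_Icc, nsmul_eq_mul]
        simp
        ring

/-- The sub-window. -/
def W (f : ℕ → ℂ) (Q S m : ℕ) : ℝ := ‖∑ j ∈ range S, f (m + Q * j)‖

theorem W_nonneg (f : ℕ → ℂ) (Q S m : ℕ) : 0 ≤ W f Q S m := norm_nonneg _

theorem stepA {f : ℕ → ℂ} {B : ℝ} (hB0 : 0 ≤ B) (hB : ∀ m, ‖f m‖ ≤ B) (Q S l m : ℕ) :
    S * ‖∑ h ∈ Icc 1 l, f (m + h)‖ ≤ ∑ h ∈ Icc 1 l, W f Q S (m + h) + 2 * B * Q * S * S := by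
  have h1 : (S : ℂ) * ∑ h ∈ Icc 1 l, f (m + h)
      = ∑ j ∈ range S, (∑ h ∈ Icc 1 l, f (m + h) - ∑ h ∈ Icc 1 l, f (m + h + Q * j))
        + ∑ h ∈ Icc 1 l, ∑ j ∈ range S, f (m + h + Q * j) := by
    rw [sum_comm (s := Icc 1 l), ← sum_add_distrib]
    have e : ∀ j ∈ range S, (∑ h ∈ Icc 1 l, f (m + h) - ∑ h ∈ Icc 1 l, f (m + h + Q * j))
        + ∑ h ∈ Icc 1 l, f (m + h + Q * j) = ∑ h ∈ Icc 1 l, f (m + h) := by
      intro j _
      ring
    rw [sum_congr rfl e, sum_const, card_range, nsmul_eq_mul]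
  have h2 : (S : ℝ) * ‖∑ h ∈ Icc 1 l, f (m + h)‖ = ‖(S : ℂ) * ∑ h ∈ Icc 1 l, f (m + h)‖ := by
    rw [norm_mul, Complex.norm_natCast]
  rw [h2, h1]
  refine (norm_add_le _ _).trans ?_
  have h3 : ‖∑ j ∈ range S, (∑ h ∈ Icc 1 l, f (m + h) - ∑ h ∈ Icc 1 l, f (m + h + Q * j))‖
      ≤ 2 * B * Q * S * S := by
    refine (norm_sum_le _ _).trans ?_
    calc ∑ j ∈ range S, ‖∑ h ∈ Icc 1 l, f (m + h) - ∑ h ∈ Icc 1 l, f (m + h + Q * j)‖
        ≤ ∑ j ∈ range S, (2 * B * Q * S) := by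
          apply Finset.sum_le_sum
          intro j hj
          refine (norm_shift hB m l (Q * j)).trans ?_
          push_cast
          have h4 : (j : ℝ) ≤ S := by
            exact_mod_cast (mem_range.mp hj).le
          have h5 : 2 * B * Q * (j : ℝ) ≤ 2 * B * Q * S :=
            mul_le_mul_of_nonneg_left h4 (by positivity)
          linarith
      _ = 2 * B * Q * S * S := by
          rw [sum_const, card_range, nsmul_eq_mul]
          ring
  have h4 : ‖∑ h ∈ Icc 1 l, ∑ j ∈ range S, f (m + h + Q * j)‖ ≤ ∑ h ∈ Icc 1 l, W f Q S (m + h) :=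
    norm_sum_le _ _
  linarith

theorem stepC (w : ℕ → ℝ) (hw : ∀ m, 0 ≤ w m) (m₀ L l : ℕ) :
    ∑ m ∈ Ico m₀ (m₀ + L), ∑ h ∈ Icc 1 l, w (m + h) ≤ l * ∑ m ∈ Ico m₀ (m₀ + L + l), w m := by
  rw [sum_comm]
  calc ∑ h ∈ Icc 1 l, ∑ m ∈ Ico m₀ (m₀ + L), w (m + h)
      ≤ ∑ h ∈ Icc 1 l, ∑ m ∈ Ico m₀ (m₀ + L + l), w m := by
        apply Finset.sum_le_sum
        intro h hh
        rw [Finset.mem_Icc] at hh
        rw [← Finset.sum_image (f := w) (g := fun m => m + h) (s := Ico m₀ (m₀ + L))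
          (fun a _ b _ hab => by simpa using hab)]
        apply Finset.sum_le_sum_of_subset_of_nonneg
        · intro x hx
          rw [Finset.mem_image] at hx
          obtain ⟨m, hm, rfl⟩ := hx
          rw [Finset.mem_Ico] at hm ⊢
          omega
        · intro x _ _
          exact hw x
    _ = l * ∑ m ∈ Ico m₀ (m₀ + L + l), w m := by
        rw [sum_const, Nat.card_Icc, nsmul_eq_mul]
        simp

theorem stepD (w : ℕ → ℝ) (hw : ∀ m, 0 ≤ w m) (a : ℤ) (Q m₀ L l a₀ : ℕ) (hQ : 1 ≤ Q)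
    (hl : l + Q ≤ L) (hwz : ∀ m : ℕ, ¬ (m : ℤ) ≡ a [ZMOD Q] → w m = 0) (h0 : m₀ ≤ a₀)
    (h1 : a₀ < m₀ + Q) (ha : (a₀ : ℤ) ≡ a [ZMOD Q]) :
    ∑ m ∈ Ico m₀ (m₀ + L + l), w m ≤ ∑ u ∈ range (2 * L / Q), w (a₀ + Q * u) := by
  rw [← Finset.sum_image (f := w) (g := fun u => a₀ + Q * u) (s := range (2 * L / Q))
    (fun x _ y _ hxy => by
      have h3 : Q * x = Q * y := Nat.add_left_cancel hxy
      exact Nat.eq_of_mul_eq_mul_left hQ h3)]
  classical
  rw [← Finset.sum_filter_add_sum_filter_not (Ico m₀ (m₀ + L + l))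
    (fun m : ℕ => (m : ℤ) ≡ a [ZMOD Q])]
  have h2 : ∑ m ∈ (Ico m₀ (m₀ + L + l)).filter (fun m : ℕ => ¬ (m : ℤ) ≡ a [ZMOD Q]), w m = 0 := by
    apply Finset.sum_eq_zero
    intro m hm
    exact hwz m (Finset.mem_filter.mp hm).2
  rw [h2, add_zero]
  apply Finset.sum_le_sum_of_subset_of_nonneg
  · intro m hm
    obtain ⟨hm1, hm2⟩ := Finset.mem_filter.mp hm
    rw [Finset.mem_Ico] at hm1
    rw [Finset.mem_image]
    have h3 : (Q : ℤ) ∣ (m : ℤ) - a₀ := by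
      have h4 : (a₀ : ℤ) ≡ m [ZMOD Q] := ha.trans hm2.symm
      exact h4.dvd
    obtain ⟨v, hv⟩ := h3
    have hv0 : 0 ≤ v := by
      by_contra hneg
      have h5 : v ≤ -1 := by omega
      have h6 : (Q : ℤ) * v ≤ (Q : ℤ) * (-1) := mul_le_mul_of_nonneg_left h5 (by positivity)
      have h7 : (m₀ : ℤ) ≤ m := by exact_mod_cast hm1.1
      have h8 : (a₀ : ℤ) < m₀ + Q := by exact_mod_cast h1
      omega
    obtain ⟨u, rfl⟩ := Int.eq_ofNat_of_zero_le hv0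
    refine ⟨u, ?_, ?_⟩
    · rw [mem_range, Nat.lt_iff_add_one_le, Nat.le_div_iff_mul_le hQ]
      have h5 : (m : ℤ) < m₀ + L + l := by exact_mod_cast hm1.2
      have h6 : (Q : ℤ) * u < L + l := by
        have : (m₀ : ℤ) ≤ a₀ := by exact_mod_cast h0
        linarith
      have h7 : Q * u < L + l := by exact_mod_cast h6
      have h8 : (u + 1) * Q = Q * u + Q := by ring
      rw [h8]
      omega
    · have h5 : (m : ℤ) = ((a₀ + Q * u : ℕ) : ℤ) := by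
        push_cast
        linarith
      exact_mod_cast h5.symm
  · intro x _ _
    exact hw x

open Classical in
/-- Many large windows of a function supported on a residue class: large sub-windows. -/
theorem big_classes (f : ℕ → ℂ) (B c : ℝ) (a : ℤ) (q Q m₀ L l S a₀ : ℕ) (hB1 : 1 ≤ B)
    (hf : ∀ m, ‖f m‖ ≤ B) (hcl : ∀ m : ℕ, ¬ (m : ℤ) ≡ a [ZMOD q] → f m = 0) (hc : 0 < c)
    (hq : 1 ≤ q) (hqQ : q ∣ Q) (hQ : 1 ≤ Q)
    (hS : 1 ≤ S) (hSl : 4 * B * Q * S ≤ c ^ 2 * l) (hl : l + q ≤ L)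
    (hm : c * L ≤ (#((Ico m₀ (m₀ + L)).filter fun m : ℕ =>
      c * l ≤ ‖∑ h ∈ Icc 1 l, f (m + h)‖) : ℝ)) (h0 : m₀ ≤ a₀) (h1 : a₀ < m₀ + q)
    (ha : (a₀ : ℤ) ≡ a [ZMOD q]) :
    c ^ 2 / 2 * L * S ≤ ∑ u ∈ range (2 * L / q), W f Q S (a₀ + q * u) := by
  have hSr : (1 : ℝ) ≤ S := by exact_mod_cast hS
  have hQr : (1 : ℝ) ≤ Q := by exact_mod_cast hQ
  have hl0 : (0 : ℝ) < l := by
    have h2 : 0 < 4 * B * Q * S := by positivity
    have h3 : 0 < c ^ 2 * l := h2.trans_le hSl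
    exact (pos_iff_pos_of_mul_pos h3).mp (by positivity)
  set G := (Ico m₀ (m₀ + L)).filter fun m : ℕ => c * l ≤ ‖∑ h ∈ Icc 1 l, f (m + h)‖ with hG
  have hwz : ∀ m : ℕ, ¬ (m : ℤ) ≡ a [ZMOD q] → W f Q S m = 0 := by
    intro m hm
    unfold W
    rw [Finset.sum_eq_zero, norm_zero]
    intro j _
    apply hcl
    intro h
    apply hm
    obtain ⟨t, ht⟩ := hqQ
    have h2 : ((m + Q * j : ℕ) : ℤ) ≡ m [ZMOD q] := by
      rw [ht]
      push_cast
      exact (Int.modEq_iff_dvd.mpr ⟨-(t * j), by ring⟩)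
    exact h2.symm.trans h
  have e1 : c * L * (S * (c * l)) ≤ ∑ m ∈ G, (S : ℝ) * ‖∑ h ∈ Icc 1 l, f (m + h)‖ := by
    calc c * L * (S * (c * l)) ≤ (#G : ℝ) * (S * (c * l)) :=
          mul_le_mul_of_nonneg_right hm (by positivity)
      _ = ∑ m ∈ G, (S : ℝ) * (c * l) := by rw [sum_const, nsmul_eq_mul]
      _ ≤ ∑ m ∈ G, (S : ℝ) * ‖∑ h ∈ Icc 1 l, f (m + h)‖ := by
          apply Finset.sum_le_sum
          intro m hm
          exact mul_le_mul_of_nonneg_left (Finset.mem_filter.mp hm).2 (by positivity)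
  have e2 : ∑ m ∈ G, (S : ℝ) * ‖∑ h ∈ Icc 1 l, f (m + h)‖
      ≤ ∑ m ∈ Ico m₀ (m₀ + L), (∑ h ∈ Icc 1 l, W f Q S (m + h) + 2 * B * Q * S * S) := by
    calc ∑ m ∈ G, (S : ℝ) * ‖∑ h ∈ Icc 1 l, f (m + h)‖
        ≤ ∑ m ∈ G, (∑ h ∈ Icc 1 l, W f Q S (m + h) + 2 * B * Q * S * S) :=
          Finset.sum_le_sum fun m _ => stepA (by linarith) hf Q S l m
      _ ≤ _ := by
          apply Finset.sum_le_sum_of_subset_of_nonneg (Finset.filter_subset _ _)
          intro m _ _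
          have : 0 ≤ ∑ h ∈ Icc 1 l, W f Q S (m + h) := Finset.sum_nonneg fun _ _ => W_nonneg _ _ _ _
          have : 0 ≤ 2 * B * Q * S * S := by positivity
          linarith
  rw [sum_add_distrib, sum_const, Nat.card_Ico, nsmul_eq_mul] at e2
  have e3 := stepC (W f Q S) (W_nonneg f Q S) m₀ L l
  have e4 := stepD (W f Q S) (W_nonneg f Q S) a q m₀ L l a₀ hq hl hwz h0 h1 ha
  have e5 : ((m₀ + L - m₀ : ℕ) : ℝ) = L := by
    congr 1
    omega
  rw [e5] at e2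
  have e6 : (L : ℝ) * (2 * B * Q * S * S) ≤ c ^ 2 / 2 * L * S * l := by
    have h2 : 0 ≤ (L : ℝ) * S / 2 := by positivity
    have h3 := mul_le_mul_of_nonneg_left hSl h2
    calc (L : ℝ) * (2 * B * Q * S * S) = L * S / 2 * (4 * B * Q * S) := by ring
      _ ≤ L * S / 2 * (c ^ 2 * l) := h3
      _ = c ^ 2 / 2 * L * S * l := by ring
  have e7 : c ^ 2 / 2 * L * S * l ≤ (∑ u ∈ range (2 * L / q), W f Q S (a₀ + q * u)) * l := by
    have h2 : c * L * (S * (c * l)) = c ^ 2 * L * S * l := by ring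
    have h3 := mul_le_mul_of_nonneg_left e4 hl0.le
    rw [h2] at e1
    have h4 : c ^ 2 * L * S * l = c ^ 2 / 2 * L * S * l + c ^ 2 / 2 * L * S * l := by ring
    linarith
  exact le_of_mul_le_mul_right e7 hl0

/-- The three dimensional sum. -/
theorem sum_box3 (T S : ℕ) (φ : (Fin 3 → ℤ) → ℂ) :
    ∑ x ∈ box ![T, S, S], φ x
      = ∑ u ∈ range T, ∑ h ∈ range S, ∑ h' ∈ range S, φ ![(u : ℤ), (h : ℤ), (h' : ℤ)] := by
  have h1 : ∑ x ∈ box ![T, S, S], φ x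
      = ∑ p ∈ Ico 0 (T : ℤ) ×ˢ (Ico 0 (S : ℤ) ×ˢ Ico 0 (S : ℤ)), φ ![p.1, p.2.1, p.2.2] := by
    refine sum_nbij' (fun x => (x 0, x 1, x 2)) (fun p => ![p.1, p.2.1, p.2.2]) ?_ ?_ ?_ ?_ ?_
    · intro x hx
      rw [mem_box] at hx
      simp only [mem_product, mem_Ico]
      exact ⟨hx 0, hx 1, hx 2⟩
    · intro p hp
      simp only [mem_product, mem_Ico] at hp
      rw [mem_box]
      intro i
      fin_cases i
      · exact hp.1
      · exact hp.2.1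
      · exact hp.2.2
    · intro x _
      ext i
      fin_cases i <;> rfl
    · intro p _
      rfl
    · intro x _
      congr 1
      ext i
      fin_cases i <;> rfl
  rw [h1, sum_product, sum_Ico_cast]
  apply Finset.sum_congr rfl
  intro u _
  rw [sum_product, sum_Ico_cast]
  apply Finset.sum_congr rfl
  intro h _
  rw [sum_Ico_cast]

end Lj

end

end Pool.Agent.NG
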