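import Mathlib
import Pool.Agent.Lib.NG.ARows
import Pool.Agent.Lib.NG.C
import Pool.Agent.Lib.NG.LJA

/-!
# NVG2 (MP_663568_nt), row LJ: the sum over the box  (helper55)
-/

set_option autoImplicit false
open Finset Topology

namespace Pool.Agent.NG

open Amb Pool.Agent.Lib.MP_663568_nt Pool.Agent.Lib.MP_663568_nt.Katai

noncomputable section

namespace Lj

variable {U : Type} [Amb U]

/-- The function on the triple product. -/
def F3 (F : U → ℂ) (q : U × U × U) : ℂ := F q.2.1 * (starRingEnd ℂ) (F q.2.2)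

/-- The polynomial map into the triple product. -/
def X3 (g : ℤ → U) (n : (Fin 2 → ℤ) → U) (a₀ Q : ℤ) (x : Fin 3 → ℤ) : U × U × U :=
  (g (a₀ + Q * x 0), n ![a₀ + Q * x 0, x 1] * g (a₀ + Q * x 0),
    n ![a₀ + Q * x 0, x 2] * g (a₀ + Q * x 0))

/-- The inner sum. -/
def V (F : U → ℂ) (g : ℤ → U) (n : (Fin 2 → ℤ) → U) (a₀ Q : ℤ) (S u : ℕ) : ℝ :=
  ‖∑ j ∈ range S, F (n ![a₀ + Q * (u : ℤ), (j : ℤ)] * g (a₀ + Q * (u : ℤ)))‖

theorem box_eq (F : U → ℂ) (g : ℤ → U) (n : (Fin 2 → ℤ) → U) (a₀ Q : ℤ) (T S : ℕ) :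
    ∑ u ∈ range T, V F g n a₀ Q S u ^ 2
      = ‖∑ x ∈ box ![T, S, S], F3 F (X3 g n a₀ Q x)‖ := by
  rw [sum_box3]
  have h1 : ∀ u ∈ range T, ∑ h ∈ range S, ∑ h' ∈ range S,
      F3 F (X3 g n a₀ Q ![(u : ℤ), (h : ℤ), (h' : ℤ)]) = ((V F g n a₀ Q S u ^ 2 : ℝ) : ℂ) := by
    intro u _
    unfold V
    push_cast
    rw [← Complex.mul_conj', map_sum, sum_mul_sum]
    rfl
  rw [sum_congr rfl h1, ← Complex.ofReal_sum, Complex.norm_real, Real.norm_of_nonneg]
  exact Finset.sum_nonneg fun _ _ => sq_nonneg _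

theorem box_lower {Gf : ℕ → Subgroup U} {J : Subgroup U} {F : U → ℂ} {B c ρ E : ℝ} {a : ℤ}
    {q Q m₀ L l S a₀ : ℕ} {g : ℤ → U} {n : (Fin 2 → ℤ) → U} (hJ : J ≤ Gf 0) (hB1 : 1 ≤ B)
    (hB : ∀ x ∈ Gf 0, ‖F x‖ ≤ B) (hc : 0 < c) (hρ : 0 < ρ) (hρ1 : ρ ≤ 1)
    (huc : ∀ k ∈ Gf 0, nm k ≤ ρ → ∀ x ∈ Gf 0, ‖F (k * x) - F x‖ ≤ c ^ 2 / 8)
    (hlat : ∀ x ∈ Gf 0, ∀ γ ∈ (La : Subgroup U), γ ∈ Gf 0 → F (x * γ) = F x)
    (hg : ∀ m, g m ∈ Gf 0) (hE : 0 < E) (hq : 1 ≤ q) (hQ : 1 ≤ Q)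
    (hqQ : q ∣ Q) (hn : ∀ m, n m ∈ J)
    (hP : PLn Gf J a q Q E m₀ (2 * L) l g n) (hS : 1 ≤ S) (hSl : 4 * B * Q * S ≤ c ^ 2 * l)
    (hSE : E * (S * Q) ≤ ρ * l) (hl : l + q ≤ L) (hm : Mny c a q m₀ L l fun m => F (g m))
    (h0 : m₀ ≤ a₀) (h1 : a₀ < m₀ + q) (ha : (a₀ : ℤ) ≡ a [ZMOD q]) :
    (c ^ 2 / 8) ^ 2 * ((2 * L / q : ℕ) * S * S)
      ≤ ‖∑ x ∈ box ![2 * L / q, S, S], F3 F (X3 g n a₀ q x)‖ := by
  classical
  have hSr : (1 : ℝ) ≤ S := by exact_mod_cast hS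
  have hQr : (1 : ℝ) ≤ Q := by exact_mod_cast hQ
  have hl0 : (0 : ℝ) < l := by
    have h2 : 0 < E * (S * Q) := by positivity
    have h3 : 0 < ρ * l := h2.trans_le hSE
    exact (pos_iff_pos_of_mul_pos h3).mp hρ
  set T : ℕ := 2 * L / q with hT
  set f : ℕ → ℂ := fun m => if (m : ℤ) ≡ a [ZMOD q] then F (g m) else 0 with hf
  have hfB : ∀ m, ‖f m‖ ≤ B := by
    intro m
    show ‖if (m : ℤ) ≡ a [ZMOD q] then F (g m) else 0‖ ≤ B
    split_ifs
    · exact hB _ (hg _)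
    · rw [norm_zero]
      linarith
  have hcl : ∀ m : ℕ, ¬ (m : ℤ) ≡ a [ZMOD q] → f m = 0 := fun m hm => if_neg hm
  have hm2 : c * L ≤ (#((Ico m₀ (m₀ + L)).filter fun m : ℕ =>
      c * l ≤ ‖∑ h ∈ Icc 1 l, f (m + h)‖) : ℝ) := by
    have h2 : ∀ m : ℕ, ∑ h ∈ Icc 1 l, f (m + h) = ∑ h ∈ Icc 1 l,
        if ((m : ℤ) + h) ≡ a [ZMOD q] then F (g ((m : ℤ) + h)) else 0 := by
      intro m
      apply Finset.sum_congr rfl
      intro h _
      show (if ((m + h : ℕ) : ℤ) ≡ a [ZMOD q] then F (g ((m + h : ℕ) : ℤ)) else 0) = _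
      push_cast
      rfl
    simp only [h2]
    unfold Mny at hm
    convert hm using 2
  have e1 := big_classes f B c a q Q m₀ L l S a₀ hB1 hfB hcl hc hq hqQ hQ hS hSl hl hm2 h0 h1 ha
  rw [← hT] at e1
  have hTL : (T : ℝ) ≤ 2 * L := by
    have h2 : T ≤ 2 * L := Nat.div_le_self _ _
    exact_mod_cast h2
  have hTQ : q * T ≤ 2 * L := Nat.mul_div_le _ _
  have e2 : ∀ u ∈ range T, W f Q S (a₀ + q * u) ≤ V F g n a₀ q S u + c ^ 2 / 8 * S := by
    intro u hu
    rw [mem_range] at hu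
    have h2 : ∑ j ∈ range S, f (a₀ + q * u + Q * j)
        = ∑ j ∈ range S, F (n ![(a₀ : ℤ) + q * (u : ℤ), (j : ℤ)] * g (a₀ + q * (u : ℤ)))
          + ∑ j ∈ range S, (f (a₀ + q * u + Q * j)
            - F (n ![(a₀ : ℤ) + q * (u : ℤ), (j : ℤ)] * g (a₀ + q * (u : ℤ)))) := by
      rw [← sum_add_distrib]
      apply Finset.sum_congr rfl
      intro j _
      ring
    unfold W V
    rw [h2]
    refine (norm_add_le _ _).trans ?_
    have h3 : ‖∑ j ∈ range S, (f (a₀ + q * u + Q * j)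
        - F (n ![(a₀ : ℤ) + q * (u : ℤ), (j : ℤ)] * g (a₀ + q * (u : ℤ))))‖ ≤ c ^ 2 / 8 * S := by
      refine (norm_sum_le _ _).trans ?_
      calc ∑ j ∈ range S, ‖f (a₀ + q * u + Q * j)
            - F (n ![(a₀ : ℤ) + q * (u : ℤ), (j : ℤ)] * g (a₀ + q * (u : ℤ)))‖
          ≤ ∑ j ∈ range S, c ^ 2 / 8 := by
            apply Finset.sum_le_sum
            intro j hj
            rw [mem_range] at hj
            have hjS : (j : ℝ) ≤ S := by exact_mod_cast hj.le
            have h4 : ((a₀ : ℤ) + q * u) ≡ a [ZMOD q] := by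
              have : ((a₀ : ℤ) + q * u) ≡ a₀ [ZMOD q] := Int.modEq_iff_dvd.mpr ⟨-u, by ring⟩
              exact this.trans ha
            have h5 : ((a₀ : ℤ) + q * u + Q * j) ≡ a [ZMOD q] := by
              obtain ⟨t, ht⟩ := hqQ
              have : ((a₀ : ℤ) + q * u + Q * j) ≡ ((a₀ : ℤ) + q * u) [ZMOD q] := by
                rw [ht]
                push_cast
                exact Int.modEq_iff_dvd.mpr ⟨-(t * j), by ring⟩
              exact this.trans h4
            have h6 : E * ((j : ℝ) * Q) ≤ ρ * l := by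
              refine le_trans ?_ hSE
              exact mul_le_mul_of_nonneg_left
                (mul_le_mul_of_nonneg_right hjS (by positivity)) hE.le
            have h7 : ρ * (l : ℝ) ≤ l := by nlinarith
            have hu2 : q * u + q ≤ 2 * L := by
              have : q * (u + 1) ≤ q * T := Nat.mul_le_mul_left q hu
              rw [mul_add, mul_one] at this
              omega
            obtain ⟨k, hk, hkn, γ, hγ, hγG, h8⟩ := hP.2.2 ((a₀ : ℤ) + q * u) (j : ℤ)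
              (by
                have : (m₀ : ℤ) ≤ a₀ := by exact_mod_cast h0
                have h9 : (0 : ℤ) ≤ q * u := by positivity
                linarith)
              (by
                have h9 : (a₀ : ℤ) < m₀ + q := by exact_mod_cast h1
                have h10 : ((q * u + q : ℕ) : ℤ) ≤ ((2 * L : ℕ) : ℤ) := by exact_mod_cast hu2
                push_cast at h10 ⊢
                linarith)
              h4 (Int.natCast_nonneg j)
              (by
                rw [Int.cast_natCast]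
                exact h6.trans h7)
            have h9 : f (a₀ + q * u + Q * j) = F (g ((a₀ : ℤ) + q * u + Q * j)) := by
              show (if ((a₀ + q * u + Q * j : ℕ) : ℤ) ≡ a [ZMOD q] then
                F (g ((a₀ + q * u + Q * j : ℕ) : ℤ)) else 0) = _
              push_cast
              rw [if_pos h5]
            have hng : n ![(a₀ : ℤ) + q * u, (j : ℤ)] * g ((a₀ : ℤ) + q * u) ∈ Gf 0 :=
              (Gf 0).mul_mem (hJ (hn _)) (hg _)
            rw [h9, h8, hlat _ (by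
              rw [mul_assoc]
              exact (Gf 0).mul_mem hk hng) γ hγ hγG, mul_assoc]
            apply huc k hk _ _ hng
            refine hkn.trans ?_
            rw [Int.cast_natCast, div_le_iff₀ hl0]
            exact h6
        _ = c ^ 2 / 8 * S := by
            rw [sum_const, card_range, nsmul_eq_mul]
            ring
    linarith
  have e3 : c ^ 2 / 8 * T * S ≤ ∑ u ∈ range T, V F g n a₀ q S u := by
    have h2 := Finset.sum_le_sum e2
    rw [sum_add_distrib, sum_const, card_range, nsmul_eq_mul] at h2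
    have h3 : c ^ 2 / 8 * T * S ≤ c ^ 2 / 4 * L * S := by
      have : c ^ 2 / 8 * S * T ≤ c ^ 2 / 8 * S * (2 * L) :=
        mul_le_mul_of_nonneg_left hTL (by positivity)
      calc c ^ 2 / 8 * T * S = c ^ 2 / 8 * S * T := by ring
        _ ≤ c ^ 2 / 8 * S * (2 * L) := this
        _ = c ^ 2 / 4 * L * S := by ring
    have h4 : (T : ℝ) * (c ^ 2 / 8 * S) = c ^ 2 / 8 * T * S := by ring
    have h5 : c ^ 2 / 2 * L * S = c ^ 2 / 4 * L * S + c ^ 2 / 4 * L * S := by ring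
    linarith
  rw [← box_eq]
  have e4 : (∑ u ∈ range T, V F g n a₀ q S u) ^ 2 ≤ T * ∑ u ∈ range T, V F g n a₀ q S u ^ 2 := by
    have := sq_sum_le_card_mul_sum_sq (s := range T) (f := fun u => V F g n a₀ q S u)
    rwa [card_range] at this
  rcases Nat.eq_zero_or_pos T with hT0 | hT0
  · rw [hT0]
    simp
  · have hT0r : (0 : ℝ) < T := by exact_mod_cast hT0
    have e5 : (c ^ 2 / 8 * T * S) ^ 2 ≤ T * ∑ u ∈ range T, V F g n a₀ q S u ^ 2 :=
      (pow_le_pow_left₀ (by positivity) e3 2).trans e4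
    have e6 : (c ^ 2 / 8 * T * S) ^ 2 = T * ((c ^ 2 / 8) ^ 2 * (T * S * S)) := by ring
    rw [e6] at e5
    exact le_of_mul_le_mul_left e5 hT0r

end Lj

end

end Pool.Agent.NG
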