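import Mathlib
import Pool.Agent.Lib.NG.NearB

/-!
# NVG2 (MP_663568_nt), row LJ: almost rational polynomials: sections, change of the progression

(helper55)
-/

set_option autoImplicit false
open Finset

namespace Pool.Agent.NG

noncomputable section

namespace Lj

/-- Setting a coordinate to zero. -/
theorem near_zero {r d : ℕ} {E : ℝ} {Q : ℕ} {L : Fin (r + 1) → ℕ} {P : (Fin (r + 1) → ℤ) → ℝ}
    (h : Near (r + 1) d E Q L P) (i : Fin (r + 1)) :
    Near r d E Q (rem i L) fun y => P (ins i 0 y) := by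
  obtain ⟨c, h1, h2⟩ := h
  refine ⟨scf c i 0, ?_, ?_⟩
  · intro y
    show P (ins i 0 y) = _
    rw [h1, ins_cast, mev_ins, Finset.sum_eq_single 0]
    · simp
    · intro j _ hj
      have hj2 : (j : ℕ) ≠ 0 := by
        intro h
        exact hj (Fin.ext h)
      rw [Int.cast_zero, zero_pow hj2, mul_zero]
    · intro h
      exact absurd (Finset.mem_univ _) h
  · intro a ha
    have hne : ins i (0 : Fin (d + 1)) a ≠ 0 := by
      intro h
      apply ha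
      ext k
      have := congrFun h (i.succAbove k)
      rw [ins_succAbove] at this
      rw [this]
      rfl
    obtain ⟨j, hj⟩ := h2 _ hne
    refine ⟨j, hj.trans (le_of_eq ?_)⟩
    congr 1
    rw [prod_rem i, ins_same]
    simp only [Fin.val_zero, pow_zero, one_mul]
    apply Finset.prod_congr rfl
    intro k _
    rw [ins_succAbove]
    rfl

/-- The part which depends on the coordinate `i`. -/
theorem near_part {r d : ℕ} {E : ℝ} {Q : ℕ} {L : Fin (r + 1) → ℕ} {P : (Fin (r + 1) → ℤ) → ℝ}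
    (hE : 0 ≤ E) (h : Near (r + 1) d E Q L P) (i : Fin (r + 1)) :
    Near (r + 1) d E Q L fun y => P y - P (ins i 0 (rem i y)) := by
  obtain ⟨c, h1, h2⟩ := h
  refine ⟨fun a => if a i = 0 then 0 else c a, ?_, ?_⟩
  · intro y
    show P y - P (ins i 0 (rem i y)) = _
    rw [h1, h1]
    unfold mev
    rw [← Finset.sum_sub_distrib]
    apply Finset.sum_congr rfl
    intro a _
    show c a * ∏ k, ((y k : ℤ) : ℝ) ^ (a k : ℕ)
      - c a * ∏ k, (((ins i 0 (rem i y)) k : ℤ) : ℝ) ^ (a k : ℕ)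
      = (if a i = 0 then 0 else c a) * ∏ k, ((y k : ℤ) : ℝ) ^ (a k : ℕ)
    by_cases ha : a i = 0
    · rw [if_pos ha, zero_mul]
      have e1 : ∏ k, ((y k : ℤ) : ℝ) ^ (a k : ℕ)
          = ∏ k, (((ins i 0 (rem i y)) k : ℤ) : ℝ) ^ (a k : ℕ) := by
        rw [prod_rem i, prod_rem i, ha]
        simp only [Fin.val_zero, pow_zero, one_mul]
        apply Finset.prod_congr rfl
        intro k _
        rw [ins_succAbove]
        rfl
      rw [e1, sub_self]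
    · rw [if_neg ha]
      have e1 : ∏ k, (((ins i 0 (rem i y)) k : ℤ) : ℝ) ^ (a k : ℕ) = 0 := by
        apply Finset.prod_eq_zero (Finset.mem_univ i)
        rw [ins_same, Int.cast_zero]
        apply zero_pow
        intro h
        exact ha (Fin.ext h)
      rw [e1, mul_zero, sub_zero]
  · intro a ha
    by_cases hai : a i = 0
    · refine ⟨0, ?_⟩
      show |(if a i = 0 then 0 else c a) - _| ≤ _
      rw [if_pos hai]
      simp only [Int.cast_zero, zero_div, sub_zero, abs_zero]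
      positivity
    · obtain ⟨j, hj⟩ := h2 a ha
      refine ⟨j, ?_⟩
      show |(if a i = 0 then 0 else c a) - _| ≤ _
      rw [if_neg hai]
      exact hj

/-- A larger box. -/
theorem near_expand {r d : ℕ} {E K : ℝ} {Q : ℕ} {L L' : Fin r → ℕ} {P : (Fin r → ℤ) → ℝ}
    (h : Near r d E Q L P) (hE : 0 ≤ E) (hK : 1 ≤ K) (hL : ∀ i, (L' i : ℝ) ≤ K * L i)
    (hL' : ∀ i, 1 ≤ L' i) : Near r d ((K ^ d) ^ r * E) Q L' P := by
  obtain ⟨c, h1, h2⟩ := h
  refine ⟨c, h1, fun a ha => ?_⟩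
  obtain ⟨j, hj⟩ := h2 a ha
  refine ⟨j, hj.trans ?_⟩
  have hL0 : ∀ i, (0 : ℝ) < L i := by
    intro i
    have h3 : (1 : ℝ) ≤ L' i := by exact_mod_cast hL' i
    have h4 := hL i
    by_contra hneg
    have h5 : (L i : ℝ) = 0 := le_antisymm (not_lt.mp hneg) (Nat.cast_nonneg _)
    rw [h5, mul_zero] at h4
    linarith
  have hP0 : (0 : ℝ) < ∏ i, (L i : ℝ) ^ (a i : ℕ) := prod_pos fun i _ => pow_pos (hL0 i) _
  have hP1 : (0 : ℝ) < ∏ i, (L' i : ℝ) ^ (a i : ℕ) := prod_pos fun i _ => pow_pos (by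
    exact_mod_cast hL' i) _
  rw [div_le_div_iff₀ hP0 hP1]
  have h5 : ∏ i, (L' i : ℝ) ^ (a i : ℕ) ≤ (K ^ d) ^ r * ∏ i, (L i : ℝ) ^ (a i : ℕ) := by
    calc ∏ i, (L' i : ℝ) ^ (a i : ℕ) ≤ ∏ i : Fin r, K ^ d * (L i : ℝ) ^ (a i : ℕ) := by
          apply Finset.prod_le_prod
          · intro i _
            positivity
          · intro i _
            calc (L' i : ℝ) ^ (a i : ℕ) ≤ (K * L i) ^ (a i : ℕ) :=
                  pow_le_pow_left₀ (by positivity) (hL i) _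
              _ = K ^ (a i : ℕ) * (L i : ℝ) ^ (a i : ℕ) := mul_pow _ _ _
              _ ≤ K ^ d * (L i : ℝ) ^ (a i : ℕ) := by
                  apply mul_le_mul_of_nonneg_right _ (by positivity)
                  exact pow_le_pow_right₀ hK (by have := (a i).2; omega)
      _ = (K ^ d) ^ r * ∏ i, (L i : ℝ) ^ (a i : ℕ) := by
          rw [Finset.prod_mul_distrib, Finset.prod_const, Finset.card_univ, Fintype.card_fin]
  calc E * ∏ i, (L' i : ℝ) ^ (a i : ℕ) ≤ E * ((K ^ d) ^ r * ∏ i, (L i : ℝ) ^ (a i : ℕ)) :=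
        mul_le_mul_of_nonneg_left h5 hE
    _ = (K ^ d) ^ r * E * ∏ i, (L i : ℝ) ^ (a i : ℕ) := by ring

theorem mev_one {d : ℕ} (c : (Fin 1 → Fin (d + 1)) → ℝ) (x : ℝ) :
    mev c (fun _ => x) = (arrP fun j => c fun _ => j).eval x := by
  rw [arrP_eval]
  unfold mev
  refine Fintype.sum_equiv (Equiv.funUnique (Fin 1) (Fin (d + 1))) _ _ ?_
  intro a
  have h1 : a = fun _ => a 0 := by
    ext i
    rw [Subsingleton.elim i 0]
  simp only [Fin.prod_univ_one, Fin.isValue]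
  congr 1
  exact congrArg c h1

/-- Two polynomials in one variable which agree on a progression. -/
theorem mev_eq {d : ℕ} (c c' : (Fin 1 → Fin (d + 1)) → ℝ) (s : ℝ) (Q : ℕ) (hQ : 1 ≤ Q)
    (h : ∀ u : ℕ, mev c (fun _ => s + Q * u) = mev c' (fun _ => s + Q * u)) (x : ℝ) :
    mev c (fun _ => x) = mev c' (fun _ => x) := by
  rw [mev_one, mev_one]
  congr 1
  apply Polynomial.eq_of_infinite_eval_eq
  apply Set.Infinite.mono (s := Set.range fun u : ℕ => s + (Q : ℝ) * u)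
  · rintro _ ⟨u, rfl⟩
    have := h u
    rw [mev_one, mev_one] at this
    exact this
  · apply Set.infinite_range_of_injective
    intro u v huv
    have hQr : (0 : ℝ) < Q := by exact_mod_cast hQ
    have h2 : (Q : ℝ) * u = Q * v := add_left_cancel huv
    exact_mod_cast mul_left_cancel₀ hQr.ne' h2

/-- From a progression to the interval. -/
theorem near_unprog {d : ℕ} {E : ℝ} {Q Q₃ m₀ a₀ L T : ℕ} {P : ℤ → ℝ} (hE : 0 ≤ E) (hQ : 1 ≤ Q)
    (hQ₃ : 1 ≤ Q₃) (h0 : m₀ ≤ a₀) (h1 : a₀ < m₀ + Q) (hT : 1 ≤ T) (hL : 1 ≤ L)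
    (hLT : L ≤ 2 * (Q * T))
    (hP : ∃ c : (Fin 1 → Fin (d + 1)) → ℝ, ∀ x : Fin 1 → ℤ, P (m₀ + x 0) = mev c fun i => (x i : ℝ))
    (h : Near 1 d E Q₃ ![T] fun u => P (a₀ + Q * u 0)) :
    Near 1 d (2 ^ d * (((d : ℝ) + 1) * 2 ^ d) * E) (Q₃ * Q ^ d) ![L] fun u => P (m₀ + u 0) := by
  obtain ⟨cp, hcp⟩ := hP
  obtain ⟨c, hc1, hc2⟩ := h
  have hQr : (0 : ℝ) < Q := by exact_mod_cast hQ
  have hQ₃r : (0 : ℝ) < Q₃ := by exact_mod_cast hQ₃
  have hTr : (0 : ℝ) < T := by exact_mod_cast hT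
  -- the scaled array
  set cs : (Fin 1 → Fin (d + 1)) → ℝ := fun a => c a / (Q : ℝ) ^ (a 0 : ℕ) with hcs
  have hs : ∀ x : ℝ, mev cs (fun _ => (Q : ℝ) * x) = mev c (fun _ => x) := by
    intro x
    unfold mev
    apply Finset.sum_congr rfl
    intro a _
    rw [hcs]
    simp only [Fin.prod_univ_one, Fin.isValue]
    rw [mul_pow]
    field_simp
  have hN1 : Near 1 d E (Q₃ * Q ^ d) ![Q * T] fun v => mev cs fun i => (v i : ℝ) := by
    refine ⟨cs, fun x => rfl, ?_⟩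
    intro a ha
    obtain ⟨j, hj⟩ := hc2 a ha
    refine ⟨j * (Q : ℤ) ^ (d - (a 0 : ℕ)), ?_⟩
    have had : (a 0 : ℕ) ≤ d := by have := (a 0).2; omega
    have e1 : ((j * (Q : ℤ) ^ (d - (a 0 : ℕ)) : ℤ) : ℝ) / ((Q₃ * Q ^ d : ℕ) : ℝ)
        = (j / Q₃) / (Q : ℝ) ^ (a 0 : ℕ) := by
      have e2 : (Q : ℝ) ^ d = (Q : ℝ) ^ (d - (a 0 : ℕ)) * (Q : ℝ) ^ (a 0 : ℕ) := by
        rw [← pow_add, Nat.sub_add_cancel had]
      push_cast
      rw [e2]
      field_simp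
    rw [e1, hcs]
    simp only [Fin.prod_univ_one, Fin.isValue] at hj ⊢
    have e3 : c a / (Q : ℝ) ^ (a 0 : ℕ) - j / Q₃ / (Q : ℝ) ^ (a 0 : ℕ)
        = (c a - j / Q₃) / (Q : ℝ) ^ (a 0 : ℕ) := by ring
    rw [e3, abs_div, abs_of_pos (pow_pos hQr _)]
    have e4 : E / ((![Q * T] (0 : Fin 1) : ℕ) : ℝ) ^ (a 0 : ℕ)
        = E / (T : ℝ) ^ (a 0 : ℕ) / (Q : ℝ) ^ (a 0 : ℕ) := by
      simp only [Matrix.cons_val_zero]
      push_cast
      rw [mul_pow]
      field_simp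
    rw [e4]
    exact div_le_div_of_nonneg_right hj (pow_pos hQr _).le
  have hQT : 1 ≤ Q * T := Nat.mul_pos hQ hT
  have hN2 := near_shift hN1 hE (Nat.mul_pos hQ₃ (pow_pos hQ d)) (le_refl (1 : ℝ))
    (by intro i; fin_cases i; exact hQT) (fun _ => (m₀ : ℤ) - a₀) (by
      intro i
      fin_cases i
      show |(((m₀ : ℤ) - a₀ : ℤ) : ℝ)| ≤ 1 * ((Q * T : ℕ) : ℝ)
      rw [one_mul]
      push_cast
      have h2 : (m₀ : ℝ) ≤ a₀ := by exact_mod_cast h0
      have h3 : (a₀ : ℝ) < m₀ + Q := by exact_mod_cast h1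
      have h4 : (1 : ℝ) ≤ T := by exact_mod_cast hT
      have h5 : (Q : ℝ) ≤ Q * T := by nlinarith
      rw [abs_le]
      constructor <;> linarith)
  have hN3 := near_expand (K := 2) (L' := ![L]) hN2 (by positivity) (by norm_num) (by
    intro i
    fin_cases i
    show (L : ℝ) ≤ 2 * ((Q * T : ℕ) : ℝ)
    exact_mod_cast hLT) (by intro i; fin_cases i; exact hL)
  have e5 : ((2 : ℝ) ^ d) ^ 1 * ((((d : ℝ) + 1) * (2 * 1) ^ d) ^ 1 * E)
      = 2 ^ d * (((d : ℝ) + 1) * 2 ^ d) * E := by ring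
  rw [e5] at hN3
  -- identification
  have key : ∀ x : ℝ, mev cp (fun _ => x)
      = mev (shc cs fun _ => (((m₀ : ℤ) - a₀ : ℤ) : ℝ)) (fun _ => x) := by
    apply mev_eq cp _ ((a₀ : ℝ) - m₀) Q hQ
    intro u
    have e1 := hcp (fun _ => (a₀ : ℤ) - m₀ + Q * u)
    have e2 : P ((a₀ : ℤ) + Q * u) = mev c fun _ => ((u : ℤ) : ℝ) := hc1 (fun _ => (u : ℤ))
    have e3 : (m₀ : ℤ) + ((a₀ : ℤ) - m₀ + Q * u) = a₀ + Q * u := by ring
    simp only [e3] at e1
    rw [e1] at e2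
    have e4 := mev_shift cs (fun _ => (a₀ : ℝ) - m₀ + Q * u) (fun _ => (((m₀ : ℤ) - a₀ : ℤ) : ℝ))
    rw [← e4]
    have e6 : (fun _ : Fin 1 => (a₀ : ℝ) - m₀ + Q * u + (((m₀ : ℤ) - a₀ : ℤ) : ℝ))
        = fun _ => (Q : ℝ) * u := by
      funext i
      push_cast
      ring
    rw [e6, hs]
    have e7 : (fun _ : Fin 1 => (((a₀ : ℤ) - m₀ + Q * u : ℤ) : ℝ))
        = fun _ => (a₀ : ℝ) - m₀ + Q * u := by
      funext i
      push_cast
      ring
    rw [e7] at e2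
    rw [e2]
    congr 1
  obtain ⟨cn, hn1, hn2⟩ := hN3
  refine ⟨cn, ?_, hn2⟩
  intro x
  rw [← hn1 x]
  have e8 : (fun i => (x i : ℝ)) = fun _ : Fin 1 => (x 0 : ℝ) := by
    funext i
    rw [Subsingleton.elim i 0]
  show P (m₀ + x 0) = mev cs fun i => ((x i + ((m₀ : ℤ) - a₀) : ℤ) : ℝ)
  rw [hcp x, e8, key]
  rw [← mev_shift cs (fun _ => (x 0 : ℝ)) (fun _ => (((m₀ : ℤ) - a₀ : ℤ) : ℝ))]
  congr 1
  funext i
  rw [Subsingleton.elim i 0]
  show (x 0 : ℝ) + (((m₀ : ℤ) - a₀ : ℤ) : ℝ) = ((x 0 + ((m₀ : ℤ) - a₀) : ℤ) : ℝ)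
  push_cast
  ring

end Lj

end

end Pool.Agent.NG
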