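import Mathlib
import Pool.Agent.Lib.NG.ARows
import Pool.Agent.Lib.NG.C
import Pool.Agent.Lib.NG.LJB
import Pool.Agent.Lib.NG.LJC
import Pool.Agent.Lib.NG.FIL
import Pool.Agent.Lib.NG.LBN
import Pool.Agent.Lib.NG.CHF

/-!
# NVG2 (MP_663568_nt), row LJ: the triple product  (helper55)
-/

set_option autoImplicit false
open Finset Topology

namespace Pool.Agent.NG

open Amb Pool.Agent.Lib.MP_663568_nt Pool.Agent.Lib.MP_663568_nt.Katai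

noncomputable section

namespace Lj

variable {U : Type} [Amb U] {Gf : ℕ → Subgroup U} {d : ℕ} {J : Subgroup U}

theorem memG3 (h : Filt Gf d) (hJ : Nor Gf d J) (i : ℕ) (q : U × U × U) :
    q ∈ G3 Gf J i ↔ q.1 ∈ Gf i ∧ q.2.1 * q.1⁻¹ ∈ J ⊓ Gf i ∧ q.2.2 * q.1⁻¹ ∈ J ⊓ Gf i :=
  (FIL.mem_G3 pwj fib int_row h hJ.rat hJ.nrm hJ.ge i).1 q

theorem filtG3 (h : Filt Gf d) (hJ : Nor Gf d J) : Filt (G3 Gf J) d :=
  (fil U Gf d h).2.1 J hJ.rat hJ.nrm hJ.ge hJ.le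

theorem G3_zero (hJ : Nor Gf d J) : G3 Gf J 0 = FP3 (Gf 0) J := by
  unfold G3
  rw [inf_eq_left.mpr hJ.le]

/-- The element `(1, z, 1)`. -/
def z3 (z : U) : U × U × U := (1, z, 1)

theorem pw_z3 (z : U) (t : ℝ) : pw t (z3 z) = ((1 : U), pw t z, (1 : U)) := by
  have h1 : pw t (1 : U) = 1 := pw_id t
  show (pw t (1 : U), pw t z, pw t (1 : U)) = _
  rw [h1]

theorem comps (h : Filt Gf d) (hJ : Nor Gf d J) {i : ℕ} {q : U × U × U} (hq : q ∈ G3 Gf J i) :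
    q.1 ∈ Gf i ∧ q.2.1 ∈ Gf i ∧ q.2.2 ∈ Gf i := by
  have h1 := (memG3 h hJ i q).mp hq
  refine ⟨h1.1, ?_, ?_⟩
  · have h2 := (Gf i).mul_mem h1.2.1.2 h1.1
    rwa [inv_mul_cancel_right] at h2
  · have h2 := (Gf i).mul_mem h1.2.2.2 h1.1
    rwa [inv_mul_cancel_right] at h2

theorem one_z_one (h : Filt Gf d) (hJ : Nor Gf d J) {i : ℕ} {m : U} (hm : m ∈ J ⊓ Gf i) :
    ((1 : U), m, (1 : U)) ∈ G3 Gf J i := by
  rw [memG3 h hJ]
  refine ⟨(Gf i).one_mem, ?_, ?_⟩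
  · show m * (1 : U)⁻¹ ∈ J ⊓ Gf i
    rw [inv_one, mul_one]
    exact hm
  · show (1 : U) * (1 : U)⁻¹ ∈ J ⊓ Gf i
    rw [mul_inv_cancel]
    exact Subgroup.one_mem _

theorem one_one_z (h : Filt Gf d) (hJ : Nor Gf d J) {i : ℕ} {m : U} (hm : m ∈ J ⊓ Gf i) :
    ((1 : U), (1 : U), m) ∈ G3 Gf J i := by
  rw [memG3 h hJ]
  refine ⟨(Gf i).one_mem, ?_, ?_⟩
  · show (1 : U) * (1 : U)⁻¹ ∈ J ⊓ Gf i
    rw [mul_inv_cancel]
    exact Subgroup.one_mem _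
  · show m * (1 : U)⁻¹ ∈ J ⊓ Gf i
    rw [inv_one, mul_one]
    exact hm

theorem diag (h : Filt Gf d) (hJ : Nor Gf d J) {i : ℕ} {m : U} (hm : m ∈ Gf i) :
    (m, m, m) ∈ G3 Gf J i := by
  rw [memG3 h hJ]
  refine ⟨hm, ?_, ?_⟩
  · show m * m⁻¹ ∈ J ⊓ Gf i
    rw [mul_inv_cancel]
    exact Subgroup.one_mem _
  · show m * m⁻¹ ∈ J ⊓ Gf i
    rw [mul_inv_cancel]
    exact Subgroup.one_mem _

theorem cen3 (h : Filt Gf d) (hJ : Nor Gf d J) {z : U} (hz : Cen (Gf 0) (Gf (d + 1)) z)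
    (hzJ : z ∈ J) : Cen (G3 Gf J 0) (G3 Gf J (d + 1)) (z3 z) where
  la := ⟨(La : Subgroup U).one_mem, hz.la, (La : Subgroup U).one_mem⟩
  mem := one_z_one h hJ ⟨hzJ, hz.mem⟩
  cen := by
    intro g hg t
    have h1 := comps h hJ hg
    rw [pw_z3]
    have h2 : g * ((1 : U), pw t z, (1 : U)) * g⁻¹ * ((1 : U), pw t z, (1 : U))⁻¹
        = ((1 : U), g.2.1 * pw t z * g.2.1⁻¹ * (pw t z)⁻¹, (1 : U)) := by
      refine Prod.ext ?_ (Prod.ext ?_ ?_)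
      · show g.1 * 1 * g.1⁻¹ * (1 : U)⁻¹ = 1
        group
      · rfl
      · show g.2.2 * 1 * g.2.2⁻¹ * (1 : U)⁻¹ = 1
        group
    rw [h2]
    have h3 := hz.cen g.2.1 h1.2.1 t
    exact one_z_one h hJ ⟨hJ.ge h3, h3⟩
  ne := by
    intro hcon
    exact hz.ne (comps h hJ hcon).2.1

theorem fn3 (h : Filt Gf d) (hJ : Nor Gf d J) {F : U → ℂ} (hF : Fn (Gf 0) (Gf (d + 1)) F) :
    Fn (G3 Gf J 0) (G3 Gf J (d + 1)) (F3 F) := by
  obtain ⟨B, hB⟩ := hF.bd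
  have hB0 : 0 ≤ B := (norm_nonneg _).trans (hB 1 (Gf 0).one_mem)
  refine ⟨⟨B * B, ?_⟩, ?_, ?_, ?_⟩
  · intro q hq
    have h1 := comps h hJ hq
    unfold F3
    rw [norm_mul, Complex.norm_conj]
    exact mul_le_mul (hB _ h1.2.1) (hB _ h1.2.2) (norm_nonneg _) hB0
  · intro ε hε
    obtain ⟨ρ, hρ, h1⟩ := hF.uc (ε / (2 * B + 1)) (by positivity)
    refine ⟨ρ, hρ, ?_⟩
    intro k hk hkn x hx
    have hk2 := comps h hJ hk
    have hx2 := comps h hJ hx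
    have e1 : nm k.2.1 ≤ ρ := ((le_max_left _ _).trans (le_max_right _ _)).trans hkn
    have e2 : nm k.2.2 ≤ ρ := ((le_max_right _ _).trans (le_max_right _ _)).trans hkn
    have e3 := h1 _ hk2.2.1 e1 _ hx2.2.1
    have e4 := h1 _ hk2.2.2 e2 _ hx2.2.2
    have e5 : F3 F (k * x) - F3 F x
        = (F (k.2.1 * x.2.1) - F x.2.1) * (starRingEnd ℂ) (F (k.2.2 * x.2.2))
          + F x.2.1 * (starRingEnd ℂ) (F (k.2.2 * x.2.2) - F x.2.2) := by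
      unfold F3
      rw [map_sub]
      show F (k.2.1 * x.2.1) * (starRingEnd ℂ) (F (k.2.2 * x.2.2))
        - F x.2.1 * (starRingEnd ℂ) (F x.2.2) = _
      ring
    rw [e5]
    refine (norm_add_le _ _).trans ?_
    rw [norm_mul, norm_mul, Complex.norm_conj, Complex.norm_conj]
    have e6 : ‖F (k.2.1 * x.2.1) - F x.2.1‖ * ‖F (k.2.2 * x.2.2)‖ ≤ ε / (2 * B + 1) * B :=
      mul_le_mul e3 (hB _ ((Gf 0).mul_mem hk2.2.2 hx2.2.2)) (norm_nonneg _) (by positivity)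
    have e7 : ‖F x.2.1‖ * ‖F (k.2.2 * x.2.2) - F x.2.2‖ ≤ B * (ε / (2 * B + 1)) :=
      mul_le_mul (hB _ hx2.2.1) e4 (norm_nonneg _) hB0
    have e8 : ε / (2 * B + 1) * B + B * (ε / (2 * B + 1)) ≤ ε := by
      have : ε / (2 * B + 1) * B + B * (ε / (2 * B + 1)) = ε * (2 * B) / (2 * B + 1) := by ring
      rw [this, div_le_iff₀ (by positivity)]
      nlinarith
    linarith
  · intro x hx γ hγ hγG
    have hx2 := comps h hJ hx
    have hγ2 := comps h hJ hγG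
    show F (x.2.1 * γ.2.1) * (starRingEnd ℂ) (F (x.2.2 * γ.2.2)) = F x.2.1 * (starRingEnd ℂ) (F x.2.2)
    rw [hF.lat _ hx2.2.1 _ hγ.2.1 hγ2.2.1, hF.lat _ hx2.2.2 _ hγ.2.2 hγ2.2.2]
  · intro m hm x hx
    have hx2 := comps h hJ hx
    have hm2 := comps h hJ hm
    show F (m.2.1 * x.2.1) * (starRingEnd ℂ) (F (m.2.2 * x.2.2)) = F x.2.1 * (starRingEnd ℂ) (F x.2.2)
    rw [hF.inv _ hm2.2.1 _ hx2.2.1, hF.inv _ hm2.2.2 _ hx2.2.2]

theorem vrt3 (h : Filt Gf d) (hJ : Nor Gf d J) {F : U → ℂ} {z : U} {k : ℤ}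
    (hv : Vrt (Gf 0) F z k) : Vrt (G3 Gf J 0) (F3 F) (z3 z) k := by
  intro t x hx
  have hx2 := comps h hJ hx
  rw [pw_z3]
  show F (pw t z * x.2.1) * (starRingEnd ℂ) (F ((1 : U) * x.2.2))
    = ee (k * t) * (F x.2.1 * (starRingEnd ℂ) (F x.2.2))
  rw [hv t _ hx2.2.1, one_mul]
  ring

theorem ps_mem {g : ℤ → U} (hg : PS Gf 0 g) (m : ℤ) : g m ∈ Gf 0 := hg [] m

theorem psc_mem {n : (Fin 2 → ℤ) → U} (hn : PS (cut J Gf) 0 n) (m : Fin 2 → ℤ) : n m ∈ J :=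
  (hn [] m).1

/-- The additive map `x ↦ q x_i`. -/
def mulc {r : ℕ} (q : ℤ) (i : Fin r) : (Fin r → ℤ) →+ ℤ where
  toFun x := q * x i
  map_zero' := by simp
  map_add' x y := by
    show q * (x i + y i) = _
    ring

/-- The additive map `x ↦ (q x_0, x_i)`. -/
def mulc2 {r : ℕ} (q s : ℤ) (i j : Fin r) : (Fin r → ℤ) →+ (Fin 2 → ℤ) where
  toFun x := ![q * x i, s * x j]
  map_zero' := by
    ext k
    fin_cases k <;> simp
  map_add' x y := by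
    ext k
    fin_cases k
    · show q * (x i + y i) = q * x i + q * y i
      ring
    · show s * (x j + y j) = s * x j + s * y j
      ring

theorem ps_sub {r : ℕ} {g : ℤ → U} (hg : PS Gf 0 g) (a₀ q : ℤ) (i : Fin r) :
    PS Gf 0 fun x : Fin r → ℤ => g (a₀ + q * x i) := by
  have h1 := (lbn U ℤ Gf 0 g).1 (Fin r → ℤ) (mulc q i) a₀ hg
  have h2 : (fun x : Fin r → ℤ => g (mulc q i x + a₀)) = fun x => g (a₀ + q * x i) := by
    funext x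
    rw [add_comm]
    rfl
  rwa [h2] at h1

theorem ps_sub2 {r : ℕ} {n : (Fin 2 → ℤ) → U} {Gf' : ℕ → Subgroup U} (hn : PS Gf' 0 n)
    (a₀ q s : ℤ) (i j : Fin r) :
    PS Gf' 0 fun x : Fin r → ℤ => n ![a₀ + q * x i, s * x j] := by
  have h1 := (lbn U (Fin 2 → ℤ) Gf' 0 n).1 (Fin r → ℤ) (mulc2 q s i j) ![a₀, 0] hn
  have h2 : (fun x : Fin r → ℤ => n (mulc2 q s i j x + ![a₀, 0]))
      = fun x => n ![a₀ + q * x i, s * x j] := by
    funext x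
    congr 1
    ext k
    fin_cases k
    · show q * x i + a₀ = a₀ + q * x i
      ring
    · show s * x j + 0 = s * x j
      ring
  rwa [h2] at h1

theorem ps3 (h : Filt Gf d) (hJ : Nor Gf d J) {g : ℤ → U} {n : (Fin 2 → ℤ) → U}
    (hg : PS Gf 0 g) (hn : PS (cut J Gf) 0 n) (a₀ q : ℤ) : PS (G3 Gf J) 0 (X3 g n a₀ q) := by
  have h1 := trp_of fil U (Fin 3 → ℤ) Gf d J h hJ.rat hJ.nrm hJ.ge hJ.le
    (fun x => g (a₀ + q * x 0)) (fun x => n ![a₀ + q * x 0, 1 * x 1])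
    (fun x => n ![a₀ + q * x 0, 1 * x 2]) (ps_sub hg a₀ q 0) (ps_sub2 hn a₀ q 1 0 1)
    (ps_sub2 hn a₀ q 1 0 2)
  simp only [one_mul] at h1
  exact h1

/-- Larger step and constant. -/
theorem pl_mono {a : ℤ} {q Q Q' m₀ L l : ℕ} {E E' : ℝ} {g : ℤ → U} (hQ : Q ∣ Q')
    (hE0 : 0 < E) (hE : E ≤ E') (h : PL Gf J a q Q E m₀ L l g) : PL Gf J a q Q' E' m₀ L l g := by
  obtain ⟨n, h1, h2, h3⟩ := h
  obtain ⟨t, ht⟩ := hQ
  refine ⟨fun x => n ![x 0, t * x 1], ?_, ?_, ?_⟩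
  · have h4 := ps_sub2 (r := 2) h1 0 1 t 0 1
    simp only [zero_add, one_mul] at h4
    exact h4
  · intro m
    show n ![m, (t : ℤ) * 0] = 1
    rw [mul_zero]
    exact h2 m
  · intro m h hm0 hm1 hma hh hEh
    have e1 : ((((t : ℤ) * h : ℤ)) : ℝ) * Q = (h : ℝ) * Q' := by
      rw [ht]
      push_cast
      ring
    have hh0 : (0 : ℝ) ≤ (h : ℝ) * Q' := by
      have : (0 : ℝ) ≤ h := by exact_mod_cast hh
      positivity
    have e2 : E * ((h : ℝ) * Q') ≤ E' * ((h : ℝ) * Q') := mul_le_mul_of_nonneg_right hE hh0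
    obtain ⟨k, hk, hkn, γ, hγ, hγG, h5⟩ := h3 m ((t : ℤ) * h) hm0 hm1 hma
      (mul_nonneg (Int.natCast_nonneg t) hh) (by
        rw [e1]
        exact e2.trans hEh)
    refine ⟨k, hk, ?_, γ, hγ, hγG, ?_⟩
    · refine hkn.trans ?_
      rw [e1]
      exact div_le_div_of_nonneg_right e2 (Nat.cast_nonneg _)
    · have e3 : m + (Q' : ℤ) * h = m + Q * ((t : ℤ) * h) := by
        rw [ht]
        push_cast
        ring
      rw [e3, h5]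
      rfl

end Lj

end

end Pool.Agent.NG
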