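import Mathlib
import Pool.Agent.Lib.NG.LJG
import Pool.Agent.Lib.NG.DEG

/-!
# NVG2 (MP_663568_nt), row LJ: lemma LJ  (helper55)
-/

set_option autoImplicit false
open Finset Topology

namespace Pool.Agent.NG

open Amb Pool.Agent.Lib.MP_663568_nt Pool.Agent.Lib.MP_663568_nt.Katai

noncomputable section

namespace Lj

variable {U : Type} [Amb U] {Gf : ℕ → Subgroup U} {d : ℕ} {J : Subgroup U}

/-- The decomposition of a character of the triple product. -/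
def Spec (Gf : ℕ → Subgroup U) (d : ℕ) (J : Subgroup U) (θ : U × U × U → ℝ)
    (η : (U → ℝ) × (U → ℝ) × (U → ℝ)) : Prop :=
  (∀ q ∈ FP3 (Gf 0) J, θ q = η.1 q.1 + η.2.1 (q.2.1 * q.1⁻¹) + η.2.2 (q.2.2 * q.1⁻¹)) ∧
  ((∀ x ∈ Gf 0, η.1 x = 0) ∨ Chr (Gf 0) (Gf 0) (Gf (d + 1)) η.1) ∧
  ((∀ x ∈ J, η.2.1 x = 0) ∨ Chr (Gf 0) J (Gf (d + 1)) η.2.1) ∧
  ((∀ x ∈ J, η.2.2 x = 0) ∨ Chr (Gf 0) J (Gf (d + 1)) η.2.2) ∧
  ((∃ x ∈ Gf 0, η.1 x ≠ 0) ∨ (∃ x ∈ J, η.2.1 x ≠ 0) ∨ ∃ x ∈ J, η.2.2 x ≠ 0)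

theorem spec_ex (h : Filt Gf d) (hJ : Nor Gf d J) {θ : U × U × U → ℝ}
    (hθ : Chr (G3 Gf J 0) (G3 Gf J 0) (G3 Gf J (d + 1)) θ) : ∃ η, Spec Gf d J θ η := by
  rw [G3_zero hJ] at hθ
  obtain ⟨η₁, η₂, η₃, h1⟩ := (chf U (Gf 0) J (h.rat 0) hJ.rat hJ.le hJ.nrm).2 (Gf (d + 1))
    (G3 Gf J (d + 1)) θ hθ (fun m hm => ⟨diag h hJ hm, one_z_one h hJ ⟨hJ.ge hm, hm⟩,
      one_one_z h hJ ⟨hJ.ge hm, hm⟩⟩) hJ.ge
  exact ⟨(η₁, η₂, η₃), h1⟩

theorem one_zero {H : Subgroup U} {M : Subgroup U} {η : U → ℝ}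
    (h : (∀ x ∈ H, η x = 0) ∨ Chr (Gf 0) H M η) : η 1 = 0 := by
  rcases h with h | h
  · exact h 1 H.one_mem
  · have := h.mul 1 H.one_mem 1 H.one_mem
    rw [mul_one] at this
    linarith

theorem ins2 (y : Fin 2 → ℤ) : ins 2 0 y = ![y 0, y 1, 0] := by
  ext k
  fin_cases k
  · exact ins_succAbove 2 0 y 0
  · exact ins_succAbove 2 0 y 1
  · exact ins_same 2 0 y

theorem ins1 (y : Fin 2 → ℤ) : ins 1 0 y = ![y 0, 0, y 1] := by
  ext k
  fin_cases k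
  · exact ins_succAbove 1 0 y 0
  · exact ins_same 1 0 y
  · exact ins_succAbove 1 0 y 1

theorem ins21 (u : Fin 1 → ℤ) : ins 2 0 (ins 1 0 u) = ![u 0, 0, 0] := by
  rw [ins2]
  have h1 : (ins 1 0 u : Fin 2 → ℤ) 0 = u 0 := ins_succAbove 1 0 u 0
  have h2 : (ins 1 0 u : Fin 2 → ℤ) 1 = 0 := ins_same 1 0 u
  rw [h1, h2]

theorem rem2 (T S : ℕ) : rem 2 ![T, S, S] = ![T, S] := by
  ext k
  fin_cases k <;> rfl

theorem rem1 (T S : ℕ) : rem 1 ![T, S, S] = ![T, S] := by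
  ext k
  fin_cases k <;> rfl

theorem rem11 (T S : ℕ) : rem 1 ![T, S] = ![T] := by
  ext k
  fin_cases k
  rfl

theorem theta_val {θ : U × U × U → ℝ} {η : (U → ℝ) × (U → ℝ) × (U → ℝ)}
    (hs : Spec Gf d J θ η) {g : ℤ → U} {n : (Fin 2 → ℤ) → U} (hg : PS Gf 0 g)
    (hn : PS (cut J Gf) 0 n) (a₀ q : ℤ) (x : Fin 3 → ℤ) :
    θ (X3 g n a₀ q x) = η.1 (g (a₀ + q * x 0)) + η.2.1 (n ![a₀ + q * x 0, x 1])
      + η.2.2 (n ![a₀ + q * x 0, x 2]) := by
  have h1 : X3 g n a₀ q x ∈ FP3 (Gf 0) J := by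
    apply Subgroup.subset_closure
    refine ⟨ps_mem hg _, ?_, ?_⟩
    · show n ![a₀ + q * x 0, x 1] * g (a₀ + q * x 0) * (g (a₀ + q * x 0))⁻¹ ∈ J
      rw [mul_inv_cancel_right]
      exact psc_mem hn _
    · show n ![a₀ + q * x 0, x 2] * g (a₀ + q * x 0) * (g (a₀ + q * x 0))⁻¹ ∈ J
      rw [mul_inv_cancel_right]
      exact psc_mem hn _
  rw [hs.1 _ h1]
  show η.1 (g (a₀ + q * x 0))
    + η.2.1 (n ![a₀ + q * x 0, x 1] * g (a₀ + q * x 0) * (g (a₀ + q * x 0))⁻¹)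
    + η.2.2 (n ![a₀ + q * x 0, x 2] * g (a₀ + q * x 0) * (g (a₀ + q * x 0))⁻¹) = _
  rw [mul_inv_cancel_right, mul_inv_cancel_right]

/-- The character of the group along the interval is a polynomial. -/
theorem poly_int {χ : U → ℝ} (hχ : Chr (Gf 0) (Gf 0) (Gf (d + 1)) χ) {g : ℤ → U}
    (hg : PS Gf 0 g) (m₀ : ℤ) : ∃ c : (Fin 1 → Fin (d + 1)) → ℝ, ∀ x : Fin 1 → ℤ,
      χ (g (m₀ + x 0)) = mev c fun i => (x i : ℝ) := by
  have h1 := ps_sub (r := 1) hg m₀ 1 0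
  simp only [one_mul] at h1
  have h2 : PS (fun i => Gf 0 ⊓ Gf i) 0 fun x : Fin 1 → ℤ => g (m₀ + x 0) := by
    apply ((lbn U (Fin 1 → ℤ) Gf 0 _).2.1 (Gf 0)).mpr
    exact ⟨h1, fun x => ps_mem hg _⟩
  obtain ⟨c, hc, _⟩ := deg U Gf d d 1 (Gf 0) χ _ le_rfl hχ.mul (fun x hx => hχ.van x hx.2) h2
  exact ⟨c, hc⟩

end Lj

open Lj in
/-- Lemma LJ. -/
theorem lj : LJ_stmt := by
  intro hleib hlow U _ Gf d J z k F q Q E c h hJ hz hzJ hk hF hv hq hQ hqQ hE hc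
  classical
  -- the inverse theorem on the triple product
  obtain ⟨X₃, E₃, Q₃, L₀, hX₃, hE₃, hQ₃, hL₀⟩ := hleib (U × U × U) (G3 Gf J) d (z3 z) k (F3 F)
    ((c ^ 2 / 8) ^ 2) (filtG3 h hJ) (cen3 h hJ hz hzJ) hk (fn3 h hJ hF) (vrt3 h hJ hv)
    (by positivity)
  have hpk : ∀ θ : U × U × U → ℝ, ∃ η, θ ∈ X₃ → Spec Gf d J θ η := by
    intro θ
    by_cases hθ : θ ∈ X₃
    · obtain ⟨η, hη⟩ := spec_ex h hJ (hX₃ θ hθ)
      exact ⟨η, fun _ => hη⟩
    · exact ⟨(0, 0, 0), fun h => absurd h hθ⟩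
  choose pk hpk using hpk
  set X : List (U → ℝ) := (X₃.map fun θ => (pk θ).1).filter
    fun χ => decide (Chr (Gf 0) (Gf 0) (Gf (d + 1)) χ) with hX
  set Y : List (U → ℝ) := ((X₃.map fun θ => (pk θ).2.1) ++ (X₃.map fun θ => (pk θ).2.2)).filter
    fun χ => decide (Chr (Gf 0) J (Gf (d + 1)) χ) with hY
  have hXm : ∀ χ ∈ X, Chr (Gf 0) (Gf 0) (Gf (d + 1)) χ := by
    intro χ hχ
    have := (List.mem_filter.mp hχ).2
    exact of_decide_eq_true this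
  have hYm : ∀ χ ∈ Y, Chr (Gf 0) J (Gf (d + 1)) χ := by
    intro χ hχ
    have := (List.mem_filter.mp hχ).2
    exact of_decide_eq_true this
  -- constants
  obtain ⟨B', hB'⟩ := hF.bd
  set B : ℝ := max B' 1 with hBdef
  have hB1 : 1 ≤ B := le_max_right _ _
  have hB : ∀ x ∈ Gf 0, ‖F x‖ ≤ B := fun x hx => (hB' x hx).trans (le_max_left _ _)
  obtain ⟨ρ', hρ', huc'⟩ := hF.uc (c ^ 2 / 8) (by positivity)
  set ρ : ℝ := min ρ' 1 with hρdef
  have hρ : 0 < ρ := lt_min hρ' one_pos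
  have hρ1 : ρ ≤ 1 := min_le_right _ _
  have huc : ∀ k ∈ Gf 0, nm k ≤ ρ → ∀ x ∈ Gf 0, ‖F (k * x) - F x‖ ≤ c ^ 2 / 8 :=
    fun k hk hkn => huc' k hk (hkn.trans (min_le_left _ _))
  have hQr : (1 : ℝ) ≤ Q := by exact_mod_cast hQ
  have hqr : (1 : ℝ) ≤ q := by exact_mod_cast hq
  set κ : ℝ := min (c ^ 2 / (4 * B * Q)) (ρ / (E * Q)) with hκ
  have hκ0 : 0 < κ := lt_min (by positivity) (by positivity)
  set E₁ : ℝ := max (E₃ + 1) (max (2 * q) (2 / κ)) with hE₁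
  have hE₁0 : 0 < E₁ := lt_max_of_lt_left (by linarith)
  have hlowc : ∀ η : U → ℝ, ∃ (Q' : ℕ) (E' : ℝ), 1 ≤ Q' ∧ 0 < E' ∧ Q ∣ Q' ∧ (η ∈ Y →
      ∀ (a b : ℤ) (m₀ L l L' l' : ℕ) (g : ℤ → U)
      (n : (Fin 2 → ℤ) → U), PS Gf 0 g → PLn Gf J a q Q E m₀ L l g n → b ≡ a [ZMOD q] →
      (m₀ : ℤ) ≤ b → b < m₀ + q → 1 ≤ L' → 1 ≤ l' → L ≤ E₁ * L' → l ≤ E₁ * l' →
      Near 2 d E₁ Q₃ ![L', l'] (fun u => η (n ![b + q * u 0, u 1])) →
      PL Gf (kerS J η) a q Q' E' m₀ L l g) := by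
    intro η
    by_cases hη : η ∈ Y
    · obtain ⟨Q', E', h1, h2, h3, h4⟩ := hlow U Gf d J η q Q Q₃ E E₁ h hJ (hYm η hη) hq hQ hqQ
        hQ₃ hE hE₁0
      exact ⟨Q', E', h1, h2, h3, fun _ => h4⟩
    · exact ⟨Q, 1, hQ, one_pos, dvd_refl _, fun h => absurd h hη⟩
  choose Qf Ef hQf1 hEf0 hQQf hlowc using hlowc
  set Q' : ℕ := Q * (Q₃ * q ^ d) * (Y.map Qf).prod with hQ'
  set Ea : ℝ := 2 ^ d * (((d : ℝ) + 1) * 2 ^ d) * E₃ with hEa
  have hEa0 : 0 ≤ Ea := by positivity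
  set E' : ℝ := Ea + 1 + (Y.map Ef).sum with hE'
  have hprod1 : 1 ≤ (Y.map Qf).prod := by
    apply Nat.pos_of_ne_zero
    intro h0
    rw [List.prod_eq_zero_iff, List.mem_map] at h0
    obtain ⟨η, _, h1⟩ := h0
    have := hQf1 η
    omega
  have hsum0 : 0 ≤ (Y.map Ef).sum := by
    apply List.sum_nonneg
    intro x hx
    obtain ⟨η, _, rfl⟩ := List.mem_map.mp hx
    exact (hEf0 η).le
  have hQ3q : 1 ≤ Q₃ * q ^ d := Nat.mul_pos hQ₃ (pow_pos hq d)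
  have hQ'1 : 1 ≤ Q' := Nat.mul_pos (Nat.mul_pos hQ hQ3q) hprod1
  have hE'0 : 0 < E' := by linarith
  have hQfd : ∀ η ∈ Y, Qf η ∣ Q' := fun η hη =>
    (List.dvd_prod (List.mem_map.mpr ⟨η, hη, rfl⟩)).trans (Dvd.intro_left _ rfl)
  have hEfl : ∀ η ∈ Y, Ef η ≤ E' := by
    intro η hη
    have : Ef η ≤ (Y.map Ef).sum := by
      apply List.single_le_sum
      · intro x hx
        obtain ⟨η, _, rfl⟩ := List.mem_map.mp hx
        exact (hEf0 η).le
      · exact List.mem_map.mpr ⟨η, hη, rfl⟩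
    linarith
  obtain ⟨l₁, hl₁⟩ := exists_nat_gt ((L₀ + 2) / κ)
  set l₀ : ℕ := l₁ + (L₀ + 1) * q + 2 * q + 2 with hl₀
  refine ⟨X, Y, Q', E', l₀, hXm, hYm, hQ'1, hE'0, ⟨(Q₃ * q ^ d) * (Y.map Qf).prod, by
    rw [hQ']; ring⟩, ?_⟩
  intro a m₀ L l g hg hll hlL hPL hM
  obtain ⟨n, hP⟩ := hPL
  -- sizes
  have hl0 : 0 < l := by omega
  have hl0r : (0 : ℝ) < l := by exact_mod_cast hl0
  have hlq : l + q ≤ L := by
    have h1 : l + q ≤ 2 * l := by
      have : q ≤ l := by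
        have : 2 * q ≤ l := by omega
        omega
      omega
    have h2 : 2 * l ≤ l * l := Nat.mul_le_mul_right l (by omega)
    omega
  set S : ℕ := ⌊κ * l⌋₊ with hS
  have hκl : (L₀ : ℝ) + 2 ≤ κ * l := by
    have h1 : (L₀ + 2) / κ < (l : ℝ) := by
      refine hl₁.trans_le ?_
      have : l₁ ≤ l := by omega
      exact_mod_cast this
    rw [div_lt_iff₀ hκ0] at h1
    linarith
  have hSle : (S : ℝ) ≤ κ * l := Nat.floor_le (by positivity)
  have hSlt : κ * l < S + 1 := Nat.lt_floor_add_one _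
  have hSL : L₀ + 1 ≤ S := by
    apply Nat.le_floor
    push_cast
    linarith
  have hS1 : 1 ≤ S := by omega
  have hSr : (1 : ℝ) ≤ S := by exact_mod_cast hS1
  have hSl : 4 * B * Q * S ≤ c ^ 2 * l := by
    have h1 : (S : ℝ) ≤ c ^ 2 / (4 * B * Q) * l :=
      hSle.trans (mul_le_mul_of_nonneg_right (min_le_left _ _) hl0r.le)
    calc 4 * B * Q * S ≤ 4 * B * Q * (c ^ 2 / (4 * B * Q) * l) :=
          mul_le_mul_of_nonneg_left h1 (by positivity)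
      _ = c ^ 2 * l := by field_simp
  have hSE : E * (S * Q) ≤ ρ * l := by
    have h1 : (S : ℝ) ≤ ρ / (E * Q) * l :=
      hSle.trans (mul_le_mul_of_nonneg_right (min_le_right _ _) hl0r.le)
    calc E * (S * Q) = E * Q * S := by ring
      _ ≤ E * Q * (ρ / (E * Q) * l) := mul_le_mul_of_nonneg_left h1 (by positivity)
      _ = ρ * l := by field_simp
  set T : ℕ := 2 * L / q with hT
  have hTL : L < q * T := by
    have h1 := Nat.lt_mul_div_succ (2 * L) hq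
    rw [← hT] at h1
    have h2 : q * (T + 1) = q * T + q := by ring
    omega
  have hTL0 : L₀ + 1 ≤ T := by
    have h1 : (L₀ + 1) * q ≤ L := by
      have : (L₀ + 1) * q ≤ l := by omega
      omega
    rw [hT, Nat.le_div_iff_mul_le hq]
    omega
  have hT1 : 1 ≤ T := by omega
  -- the base point
  obtain ⟨a₀, ha₀m, ha₀q, ha₀⟩ : ∃ a₀ : ℕ, m₀ ≤ a₀ ∧ a₀ < m₀ + q ∧ (a₀ : ℤ) ≡ a [ZMOD q] := by
    have hqz : (0 : ℤ) < q := by exact_mod_cast hq
    have h1 := Int.emod_nonneg (a - m₀) hqz.ne'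
    have h2 := Int.emod_lt_of_pos (a - m₀) hqz
    obtain ⟨r, hr⟩ := Int.eq_ofNat_of_zero_le h1
    rw [hr] at h2
    refine ⟨m₀ + r, by omega, by
      have : r < q := by exact_mod_cast h2
      omega, ?_⟩
    have h3 : (r : ℤ) ≡ a - m₀ [ZMOD q] := by
      have h4 : (r : ℤ) = (a - m₀) % q := hr.symm
      rw [h4]
      exact Int.mod_modEq _ _
    have h5 := h3.add_left (m₀ : ℤ)
    have h6 : (m₀ : ℤ) + (a - m₀) = a := by ring
    rw [h6] at h5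
    push_cast
    exact h5
  have hbox := box_lower (J := J) hJ.le hB1 hB hc hρ hρ1 huc hF.lat (ps_mem hg) hE hq hQ hqQ
    (psc_mem hP.1) hP hS1 hSl hSE hlq hM ha₀m ha₀q ha₀
  rw [← hT] at hbox
  have hLi : ∀ i, L₀ ≤ ![T, S, S] i := by
    intro i
    fin_cases i
    · show L₀ ≤ T
      omega
    · show L₀ ≤ S
      omega
    · show L₀ ≤ S
      omega
  obtain ⟨θ, hθ, hnear⟩ := hL₀ ![T, S, S] hLi (X3 g n a₀ q) (ps3 h hJ hg hP.1 a₀ q) (by
    rw [Fin.prod_univ_three]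
    exact hbox)
  have hsp := hpk θ hθ
  have hval : ∀ x : Fin 3 → ℤ, θ (X3 g n a₀ q x) = (pk θ).1 (g (a₀ + q * x 0))
      + (pk θ).2.1 (n ![a₀ + q * x 0, x 1]) + (pk θ).2.2 (n ![a₀ + q * x 0, x 2]) :=
    theta_val hsp hg hP.1 a₀ q
  have h21 : (pk θ).2.1 1 = 0 := one_zero hsp.2.2.1
  have h22 : (pk θ).2.2 1 = 0 := one_zero hsp.2.2.2.1
  by_cases hc1 : ∃ x ∈ Gf 0, (pk θ).1 x ≠ 0
  · -- the long case
    left
    have hch : Chr (Gf 0) (Gf 0) (Gf (d + 1)) (pk θ).1 := by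
      rcases hsp.2.1 with h1 | h1
      · obtain ⟨x, hx, hx2⟩ := hc1
        exact absurd (h1 x hx) hx2
      · exact h1
    have hmem : (pk θ).1 ∈ X := by
      rw [hX, List.mem_filter]
      exact ⟨List.mem_map.mpr ⟨θ, hθ, rfl⟩, decide_eq_true hch⟩
    refine ⟨(pk θ).1, hmem, ?_⟩
    have hn1 := near_zero (near_zero hnear 2) 1
    rw [rem2, rem11] at hn1
    have hn2 : Near 1 d E₃ Q₃ ![T] fun u => (pk θ).1 (g ((a₀ : ℤ) + q * u 0)) := by
      have e1 : (fun y : Fin 1 → ℤ => (fun y : Fin 2 → ℤ =>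
          (fun x => θ (X3 g n a₀ q x)) (ins 2 0 y)) (ins 1 0 y))
          = fun u => (pk θ).1 (g ((a₀ : ℤ) + q * u 0)) := by
        funext u
        show θ (X3 g n a₀ q (ins 2 0 (ins 1 0 u))) = _
        rw [ins21, hval]
        show (pk θ).1 (g ((a₀ : ℤ) + q * u 0)) + (pk θ).2.1 (n ![(a₀ : ℤ) + q * u 0, 0])
          + (pk θ).2.2 (n ![(a₀ : ℤ) + q * u 0, 0]) = _
        rw [hP.2.1, h21, h22, add_zero, add_zero]
      rw [← e1]
      exact hn1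
    have hn3 := near_unprog (L := 2 * L) (P := fun m => (pk θ).1 (g m)) hE₃ hq hQ₃ ha₀m ha₀q hT1
      (by omega) (by omega) (poly_int hch hg m₀) hn2
    unfold Nr1
    apply near_mono hn3 hEa0 (by linarith) _ hQ'1 (fun i => le_rfl) _
    · exact ⟨Q * (Y.map Qf).prod, by rw [hQ']; ring⟩
    · intro i
      fin_cases i
      show 1 ≤ 2 * L
      omega
  · push Not at hc1
    right
    by_cases hc2 : ∃ x ∈ J, (pk θ).2.1 x ≠ 0
    · have hch : Chr (Gf 0) J (Gf (d + 1)) (pk θ).2.1 := by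
        rcases hsp.2.2.1 with h1 | h1
        · obtain ⟨x, hx, hx2⟩ := hc2
          exact absurd (h1 x hx) hx2
        · exact h1
      have hmem : (pk θ).2.1 ∈ Y := by
        rw [hY, List.mem_filter]
        exact ⟨List.mem_append_left _ (List.mem_map.mpr ⟨θ, hθ, rfl⟩), decide_eq_true hch⟩
      refine ⟨(pk θ).2.1, hmem, ?_⟩
      have hn1 := near_zero hnear 2
      rw [rem2] at hn1
      have hn2 : Near 2 d E₃ Q₃ ![T, S] fun u => (pk θ).2.1 (n ![(a₀ : ℤ) + q * u 0, u 1]) := by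
        have e1 : (fun y : Fin 2 → ℤ => (fun x => θ (X3 g n a₀ q x)) (ins 2 0 y))
            = fun u => (pk θ).2.1 (n ![(a₀ : ℤ) + q * u 0, u 1]) := by
          funext y
          show θ (X3 g n a₀ q (ins 2 0 y)) = _
          rw [ins2, hval]
          show (pk θ).1 (g ((a₀ : ℤ) + q * y 0)) + (pk θ).2.1 (n ![(a₀ : ℤ) + q * y 0, y 1])
            + (pk θ).2.2 (n ![(a₀ : ℤ) + q * y 0, 0]) = _
          rw [hP.2.1, h22, hc1 _ (ps_mem hg _), add_zero, zero_add]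
        rw [← e1]
        exact hn1
      have hpl := hlowc _ hmem a a₀ m₀ (2 * L) l T S g n hg hP ha₀
        (by exact_mod_cast ha₀m) (by exact_mod_cast ha₀q) hT1 hS1 (by
          have h1 : (L : ℝ) ≤ q * T := by exact_mod_cast hTL.le
          have h2 : 2 * (q : ℝ) ≤ E₁ := (le_max_left _ _).trans (le_max_right _ _)
          have h3 : 2 * (q : ℝ) * T ≤ E₁ * T := mul_le_mul_of_nonneg_right h2 (Nat.cast_nonneg _)
          push_cast
          linarith) (by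
          have h1 : 2 / κ ≤ E₁ := (le_max_right _ _).trans (le_max_right _ _)
          have h2 : (l : ℝ) ≤ 2 / κ * S := by
            rw [div_mul_eq_mul_div, le_div_iff₀ hκ0]
            have h3 : (l : ℝ) * κ < S + 1 := by
              rw [mul_comm]
              exact hSlt
            linarith
          exact h2.trans (mul_le_mul_of_nonneg_right h1 (Nat.cast_nonneg _)))
        (near_mono hn2 hE₃ (by
          have : E₃ + 1 ≤ E₁ := le_max_left _ _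
          linarith) (dvd_refl _) hQ₃ (fun i => le_rfl) (by
          intro i
          fin_cases i
          · exact hT1
          · exact hS1))
      exact pl_mono (hQfd _ hmem) (hEf0 _) (hEfl _ hmem) hpl
    · push Not at hc2
      have hc3 : ∃ x ∈ J, (pk θ).2.2 x ≠ 0 := by
        rcases hsp.2.2.2.2 with h1 | h1 | h1
        · obtain ⟨x, hx, hx2⟩ := h1
          exact absurd (hc1 x hx) hx2
        · obtain ⟨x, hx, hx2⟩ := h1
          exact absurd (hc2 x hx) hx2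
        · exact h1
      have hch : Chr (Gf 0) J (Gf (d + 1)) (pk θ).2.2 := by
        rcases hsp.2.2.2.1 with h1 | h1
        · obtain ⟨x, hx, hx2⟩ := hc3
          exact absurd (h1 x hx) hx2
        · exact h1
      have hmem : (pk θ).2.2 ∈ Y := by
        rw [hY, List.mem_filter]
        exact ⟨List.mem_append_right _ (List.mem_map.mpr ⟨θ, hθ, rfl⟩), decide_eq_true hch⟩
      refine ⟨(pk θ).2.2, hmem, ?_⟩
      have hn1 := near_zero hnear 1
      rw [rem1] at hn1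
      have hn2 : Near 2 d E₃ Q₃ ![T, S] fun u => (pk θ).2.2 (n ![(a₀ : ℤ) + q * u 0, u 1]) := by
        have e1 : (fun y : Fin 2 → ℤ => (fun x => θ (X3 g n a₀ q x)) (ins 1 0 y))
            = fun u => (pk θ).2.2 (n ![(a₀ : ℤ) + q * u 0, u 1]) := by
          funext y
          show θ (X3 g n a₀ q (ins 1 0 y)) = _
          rw [ins1, hval]
          show (pk θ).1 (g ((a₀ : ℤ) + q * y 0)) + (pk θ).2.1 (n ![(a₀ : ℤ) + q * y 0, 0])
            + (pk θ).2.2 (n ![(a₀ : ℤ) + q * y 0, y 1]) = _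
          rw [hP.2.1, h21, hc1 _ (ps_mem hg _), add_zero, zero_add]
        rw [← e1]
        exact hn1
      have hpl := hlowc _ hmem a a₀ m₀ (2 * L) l T S g n hg hP ha₀
        (by exact_mod_cast ha₀m) (by exact_mod_cast ha₀q) hT1 hS1 (by
          have h1 : (L : ℝ) ≤ q * T := by exact_mod_cast hTL.le
          have h2 : 2 * (q : ℝ) ≤ E₁ := (le_max_left _ _).trans (le_max_right _ _)
          have h3 : 2 * (q : ℝ) * T ≤ E₁ * T := mul_le_mul_of_nonneg_right h2 (Nat.cast_nonneg _)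
          push_cast
          linarith) (by
          have h1 : 2 / κ ≤ E₁ := (le_max_right _ _).trans (le_max_right _ _)
          have h2 : (l : ℝ) ≤ 2 / κ * S := by
            rw [div_mul_eq_mul_div, le_div_iff₀ hκ0]
            have h3 : (l : ℝ) * κ < S + 1 := by
              rw [mul_comm]
              exact hSlt
            linarith
          exact h2.trans (mul_le_mul_of_nonneg_right h1 (Nat.cast_nonneg _)))
        (near_mono hn2 hE₃ (by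
          have : E₃ + 1 ≤ E₁ := le_max_left _ _
          linarith) (dvd_refl _) hQ₃ (fun i => le_rfl) (by
          intro i
          fin_cases i
          · exact hT1
          · exact hS1))
      exact pl_mono (hQfd _ hmem) (hEf0 _) (hEfl _ hmem) hpl

end

end Pool.Agent.NG
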