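import Mathlib
import Pool.Agent.Lib.NG.NearB

/-!
# NVG2 (MP_663568_nt): arrays of coefficients: uniqueness, affine substitutions

(helper87)
-/

set_option autoImplicit false
open Finset

namespace Pool.Agent.NG

namespace MevU

/-- The exponents as a finitely supported function. -/
noncomputable def ex {r d : ℕ} (a : Fin r → Fin (d + 1)) : Fin r →₀ ℕ :=
  Finsupp.equivFunOnFinite.symm fun i => (a i : ℕ)

theorem ex_inj {r d : ℕ} : Function.Injective (ex : (Fin r → Fin (d + 1)) → _) := by
  intro a b h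
  have h1 := Finsupp.equivFunOnFinite.symm.injective h
  funext i
  exact Fin.ext (congrFun h1 i)

/-- The polynomial of an array. -/
noncomputable def pl {r d : ℕ} (c : (Fin r → Fin (d + 1)) → ℝ) : MvPolynomial (Fin r) ℝ :=
  ∑ a, MvPolynomial.monomial (ex a) (c a)

theorem eval_pl {r d : ℕ} (c : (Fin r → Fin (d + 1)) → ℝ) (x : Fin r → ℝ) :
    MvPolynomial.eval x (pl c) = mev c x := by
  unfold pl mev
  rw [map_sum]
  refine sum_congr rfl fun a _ => ?_
  rw [MvPolynomial.eval_monomial, Finsupp.prod_fintype _ _ fun i => pow_zero _]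
  rfl

theorem coeff_pl {r d : ℕ} (c : (Fin r → Fin (d + 1)) → ℝ) (a : Fin r → Fin (d + 1)) :
    (pl c).coeff (ex a) = c a := by
  classical
  unfold pl
  rw [MvPolynomial.coeff_sum, sum_eq_single a]
  · rw [MvPolynomial.coeff_monomial, if_pos rfl]
  · intro b _ hb
    rw [MvPolynomial.coeff_monomial, if_neg fun h => hb (ex_inj h)]
  · intro h
    exact absurd (mem_univ a) h

end MevU

open MevU

/-- The coefficients are determined by the values at the integer points. -/
theorem mev_uniq {r d : ℕ} {c c' : (Fin r → Fin (d + 1)) → ℝ}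
    (h : ∀ x : Fin r → ℤ, mev c (fun i => (x i : ℝ)) = mev c' fun i => (x i : ℝ)) : c = c' := by
  have h1 : pl c = pl c' := by
    refine MvPolynomial.funext_set (fun _ : Fin r => Set.range ((↑) : ℤ → ℝ)) (fun _ =>
      Set.infinite_range_of_injective Int.cast_injective) ?_
    intro x hx
    have hx' : ∀ i, ∃ m : ℤ, (m : ℝ) = x i := fun i => hx i (Set.mem_univ i)
    choose m hm using hx'
    have h2 : x = fun i => (m i : ℝ) := funext fun i => (hm i).symm
    rw [eval_pl, eval_pl, h2]
    exact h m
  funext a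
  rw [← coeff_pl c a, h1, coeff_pl]

/-- Affine substitutions in each variable do not increase the degree. -/
theorem mev_aff {r d : ℕ} (c : (Fin r → Fin (d + 1)) → ℝ) (α β : Fin r → ℝ) (D : ℕ)
    (hc : ∀ a : Fin r → Fin (d + 1), D < ∑ i, (a i : ℕ) → c a = 0) :
    ∃ c' : (Fin r → Fin (d + 1)) → ℝ,
      (∀ x : Fin r → ℝ, mev c' x = mev c fun i => α i * x i + β i) ∧
      ∀ a : Fin r → Fin (d + 1), D < ∑ i, (a i : ℕ) → c' a = 0 := by
  refine ⟨fun a => shc c β a * ∏ i, α i ^ (a i : ℕ), ?_, ?_⟩
  · intro x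
    rw [mev_shift c (fun i => α i * x i) β]
    unfold mev
    refine sum_congr rfl fun a _ => ?_
    rw [mul_assoc, ← prod_mul_distrib]
    congr 1
    exact prod_congr rfl fun i _ => (mul_pow _ _ _).symm
  · intro b hb
    have : shc c β b = 0 := by
      unfold shc
      refine sum_eq_zero fun a _ => ?_
      by_cases hab : ∀ i, (b i : ℕ) ≤ a i
      · rw [hc a (hb.trans_le (sum_le_sum fun i _ => hab i)), zero_mul]
      · push Not at hab
        obtain ⟨i, hi⟩ := hab
        rw [prod_eq_zero (mem_univ i), mul_zero]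
        rw [Nat.choose_eq_zero_of_lt hi]
        simp
    show shc c β b * _ = 0
    rw [this, zero_mul]

theorem mev_add {r d : ℕ} (c c' : (Fin r → Fin (d + 1)) → ℝ) (x : Fin r → ℝ) :
    mev (fun a => c a + c' a) x = mev c x + mev c' x := by
  unfold mev
  rw [← sum_add_distrib]
  exact sum_congr rfl fun a _ => by ring

theorem mev_sub {r d : ℕ} (c c' : (Fin r → Fin (d + 1)) → ℝ) (x : Fin r → ℝ) :
    mev (fun a => c a - c' a) x = mev c x - mev c' x := by
  unfold mev
  rw [← sum_sub_distrib]
  exact sum_congr rfl fun a _ => by ring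

end Pool.Agent.NG
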