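import Mathlib
import Pool.Agent.Lib.NG.C
import Pool.Agent.Lib.NG.MevU
import Pool.Agent.Lib.NG.LBN
import Pool.Agent.Lib.NG.SIG
import Pool.Agent.Lib.NG.DEG
import Pool.Agent.Lib.NG.LEV
import Pool.Agent.Lib.NG.KER

/-!
# NVG2 (MP_663568_nt), part C, row LOW: one invariant character

If the additive function `η` along the polynomial map `n` of property PL is almost rational, then PL
holds for the kernel of `η`.  (helper87)
-/

set_option autoImplicit false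
open Finset Topology

namespace Pool.Agent.NG

noncomputable section

open Amb Pool.Agent.Lib.MP_663568_nt Pool.Agent.Lib.MP_663568_nt.Katai

namespace LOWx

/-- The sum of the small terms. -/
lemma small {d : ℕ} (cs : (Fin 2 → Fin (d + 1)) → ℝ) (W E₁ x y L' l' z : ℝ)
    (hW : 1 ≤ W) (hE₁ : 0 ≤ E₁) (hx : 0 ≤ x) (hy : 0 ≤ y) (hL' : 0 < L') (hl' : 0 < l')
    (hxL : x / L' ≤ W) (hyl : y / l' ≤ z) (hzW : z ≤ W)
    (hcs : ∀ a, (a 1 : ℕ) ≠ 0 → |cs a| ≤ E₁ / (L' ^ (a 0 : ℕ) * l' ^ (a 1 : ℕ)))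
    (hcs0 : ∀ a, (a 1 : ℕ) = 0 → cs a = 0) :
    |mev cs ![x, y]| ≤ ((d + 1) ^ 2 * (E₁ * W ^ (2 * d))) * z := by
  have hz0 : 0 ≤ z := (div_nonneg hy hl'.le).trans hyl
  have h1 : ∀ a : Fin 2 → Fin (d + 1), |cs a * ∏ i, (![x, y] : Fin 2 → ℝ) i ^ (a i : ℕ)| ≤
      E₁ * W ^ (2 * d) * z := by
    intro a
    have hW0 : 0 ≤ E₁ * W ^ (2 * d) * z := by positivity
    rw [Fin.prod_univ_two]
    show |cs a * (x ^ (a 0 : ℕ) * y ^ (a 1 : ℕ))| ≤ _
    by_cases ha : (a 1 : ℕ) = 0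
    · rw [hcs0 a ha, zero_mul, abs_zero]; exact hW0
    · obtain ⟨t, ht⟩ := Nat.exists_eq_succ_of_ne_zero ha
      have h2 : |cs a * (x ^ (a 0 : ℕ) * y ^ (a 1 : ℕ))| ≤
          E₁ * ((x / L') ^ (a 0 : ℕ) * (y / l') ^ (a 1 : ℕ)) := by
        rw [abs_mul, abs_of_nonneg (by positivity : 0 ≤ x ^ (a 0 : ℕ) * y ^ (a 1 : ℕ))]
        calc |cs a| * (x ^ (a 0 : ℕ) * y ^ (a 1 : ℕ)) ≤
            E₁ / (L' ^ (a 0 : ℕ) * l' ^ (a 1 : ℕ)) * (x ^ (a 0 : ℕ) * y ^ (a 1 : ℕ)) := by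
              gcongr; exact hcs a ha
          _ = E₁ * ((x / L') ^ (a 0 : ℕ) * (y / l') ^ (a 1 : ℕ)) := by
              rw [div_pow, div_pow]; field_simp
      have h3 : (x / L') ^ (a 0 : ℕ) ≤ W ^ d := by
        have ha0 : (a 0 : ℕ) ≤ d := Nat.lt_succ_iff.1 (a 0).2
        exact (pow_le_pow_left₀ (div_nonneg hx hL'.le) hxL _).trans (pow_le_pow_right₀ hW ha0)
      have h4 : (y / l') ^ (a 1 : ℕ) ≤ W ^ d * z := by
        have ha1 : (a 1 : ℕ) ≤ d := Nat.lt_succ_iff.1 (a 1).2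
        rw [ht, Nat.succ_eq_add_one, pow_succ]
        have h5 : (y / l') ^ t ≤ W ^ d :=
          (pow_le_pow_left₀ (div_nonneg hy hl'.le) (hyl.trans hzW) _).trans
            (pow_le_pow_right₀ hW (by omega))
        exact mul_le_mul h5 hyl (div_nonneg hy hl'.le) (by positivity)
      calc _ ≤ E₁ * ((x / L') ^ (a 0 : ℕ) * (y / l') ^ (a 1 : ℕ)) := h2
        _ ≤ E₁ * (W ^ d * (W ^ d * z)) := by
            gcongr
        _ = E₁ * W ^ (2 * d) * z := by rw [two_mul, pow_add]; ring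
  unfold mev
  calc |∑ a, cs a * ∏ i, (![x, y] : Fin 2 → ℝ) i ^ (a i : ℕ)| ≤
      ∑ a, |cs a * ∏ i, (![x, y] : Fin 2 → ℝ) i ^ (a i : ℕ)| := abs_sum_le_sum_abs _ _
    _ ≤ ∑ _a : Fin 2 → Fin (d + 1), E₁ * W ^ (2 * d) * z := sum_le_sum fun a _ => h1 a
    _ = _ := by
        rw [sum_const, card_univ, Fintype.card_fun, Fintype.card_fin, Fintype.card_fin,
          nsmul_eq_mul]
        push_cast
        ring

/-- The algebra of one step. -/
lemma step {U : Type} [Group U] (k₁ γ₁ σs σr n G : U) :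
    k₁ * n * G * γ₁ =
      (k₁ * σs) * (σs⁻¹ * n * σr⁻¹ * (σr * G * σr⁻¹ * G⁻¹)) * G * (σr * γ₁) := by
  group

end LOWx

open LOWx

/-- Row LOW. -/
theorem low : LOW' := by
  classical
  intro U _ Gf d J η q Q Q₁ E E₁ hF hJ hη hq hQ hqQ hQ₁ hE hE₁
  obtain ⟨j, M, s, hj1, hjd, hM1, hs, hsv, hηs, hsLa⟩ :=
    lev U Gf d J η hF hJ.rat hJ.nrm hJ.ge hJ.le hη
  obtain ⟨C1, hC1, hnm1⟩ := nm_mul (U := U)
  obtain ⟨C2, hC2, hnm2⟩ := nm_pw {s} isCompact_singleton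
  obtain ⟨W, hW1, hWE, hWE'⟩ : ∃ W : ℝ, 1 ≤ W ∧ E₁ ≤ W ∧ E₁ / E ≤ W :=
    ⟨1 + E₁ + E₁ / E, by have := div_pos hE₁ hE; linarith, by have := div_pos hE₁ hE; linarith,
      by linarith⟩
  set C3 : ℝ := ((d + 1) ^ 2 * (E₁ * W ^ (2 * d))) * E₁ with hC3
  have hC3p : 0 < C3 := by positivity
  set Q₂ : ℕ := Q₁ * M with hQ₂
  have hQ₂1 : 1 ≤ Q₂ := Nat.mul_pos hQ₁ hM1
  set E' : ℝ := E + C3 + C2 * C3 + C1 * (E + C2 * C3) with hE'
  have hE'p : 0 < E' := by positivity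
  refine ⟨Q * Q₂, E', Nat.mul_pos hQ hQ₂1, hE'p, dvd_mul_right _ _, ?_⟩
  intro a b m₀ L l L' l' g n hg hn hba hb0 hb1 hL' hl' hLL hll hN
  obtain ⟨hnPS, hn0, hnk⟩ := hn
  have hsJ : s ∈ J := hs.1
  have hsG : s ∈ Gf j := hs.2
  have hσJ : ∀ t : ℝ, pw t s ∈ J := hJ.rat.pwc s hsJ
  have hησ : ∀ t : ℝ, η (pw t s) = t := by
    intro t
    rw [chs U J η hJ.rat.pwc hη.mul hη.cont s hsJ t, hηs, mul_one]
  -- `n` as a map with values in `J`
  obtain ⟨-, hlbn2, -⟩ := lbn U (Fin 2 → ℤ) Gf 0 n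
  have hnGJ : PS Gf 0 n ∧ ∀ x, n x ∈ J := (hlbn2 J).1 hnPS
  -- the polynomial of `η ∘ n`
  obtain ⟨c0, hc0, hc0d⟩ := deg U Gf d j 2 J η n hjd hη.mul hsv hnPS
  obtain ⟨c, hc'', hcn⟩ := hN
  have hc : ∀ x : Fin 2 → ℤ, η (n ![b + q * x 0, x 1]) = mev c fun i => (x i : ℝ) := hc''
  obtain ⟨cu, hcu, hcud⟩ := mev_aff c0 ![(q : ℝ), 1] ![(b : ℝ), 0] j hc0d
  have hccu : c = cu := by
    refine mev_uniq fun x => ?_
    rw [← hc x, hc0, hcu]
    congr 1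
    funext i
    fin_cases i
    · simp; ring
    · simp
  rw [← hccu] at hcud
  clear hccu hcu cu
  choose! jj hjj using hcn
  let cs : (Fin 2 → Fin (d + 1)) → ℝ := fun a =>
    if (a 1 : ℕ) = 0 ∨ j < ∑ i, (a i : ℕ) then 0 else c a - jj a / Q₁
  have hcs0 : ∀ a, (a 1 : ℕ) = 0 → cs a = 0 := fun a ha => if_pos (Or.inl ha)
  have hcsd : ∀ a : Fin 2 → Fin (d + 1), j < ∑ i, (a i : ℕ) → cs a = 0 :=
    fun a ha => if_pos (Or.inr ha)
  have hcsb : ∀ a, (a 1 : ℕ) ≠ 0 → |cs a| ≤ E₁ / ((L' : ℝ) ^ (a 0 : ℕ) * (l' : ℝ) ^ (a 1 : ℕ)) := by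
    intro a ha
    by_cases had : j < ∑ i, (a i : ℕ)
    · rw [hcsd a had, abs_zero]; positivity
    · have h1 : cs a = c a - jj a / Q₁ := if_neg (by tauto)
      have h2 : a ≠ 0 := by
        rintro rfl; exact ha rfl
      have h3 := hjj a h2
      rw [Fin.prod_univ_two] at h3
      rw [h1]; exact h3
  obtain ⟨cs', hcs', hcs'd⟩ := mev_aff cs ![(1 / q : ℝ), 1] ![(-b / q : ℝ), 0] j hcsd
  let cr : (Fin 2 → Fin (d + 1)) → ℝ := fun a => c0 a - cs' a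
  have hcrd : ∀ a : Fin 2 → Fin (d + 1), j < ∑ i, (a i : ℕ) → cr a = 0 := by
    intro a ha
    show c0 a - cs' a = 0
    rw [hc0d a ha, hcs'd a ha, sub_zero]
  have hq0 : (q : ℝ) ≠ 0 := by positivity
  -- values at the points of the class
  have hvs : ∀ u h : ℤ, mev cs' (fun i => ((![b + q * u, h] : Fin 2 → ℤ) i : ℝ)) =
      mev cs ![(u : ℝ), (h : ℝ)] := by
    intro u h
    rw [hcs']
    congr 1
    funext i
    fin_cases i
    · simp; field_simp; ring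
    · simp
  have hvs0 : ∀ m : ℤ, mev cs' (fun i => ((![m, 0] : Fin 2 → ℤ) i : ℝ)) = 0 := by
    intro m
    rw [hcs']
    unfold mev
    refine sum_eq_zero fun a _ => ?_
    by_cases ha : (a 1 : ℕ) = 0
    · rw [hcs0 a ha, zero_mul]
    · rw [Fin.prod_univ_two]
      simp [ha]
  have hη1 : η 1 = 0 := add_one hη.mul
  have hvr0 : ∀ m : ℤ, mev cr (fun i => ((![m, 0] : Fin 2 → ℤ) i : ℝ)) = 0 := by
    intro m
    rw [mev_sub, hvs0, sub_zero, ← hc0, hn0, hη1]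
  have hvr : ∀ u h : ℤ, ∃ z : ℤ,
      mev cr (fun i => ((![b + q * u, Q₂ * h] : Fin 2 → ℤ) i : ℝ)) = z * M := by
    intro u h
    have h1 : mev cr (fun i => ((![b + q * u, Q₂ * h] : Fin 2 → ℤ) i : ℝ)) =
        mev c ![(u : ℝ), ((Q₂ * h : ℤ) : ℝ)] - mev c ![(u : ℝ), 0] -
          mev cs ![(u : ℝ), ((Q₂ * h : ℤ) : ℝ)] := by
      rw [mev_sub, hvs, ← hc0]
      have h2 := hc ![u, Q₂ * h]
      have h3 := hc ![u, 0]
      have h4 : (fun i => ((![u, Q₂ * h] : Fin 2 → ℤ) i : ℝ)) = ![(u : ℝ), ((Q₂ * h : ℤ) : ℝ)] := by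
        funext i; fin_cases i <;> simp
      have h5 : (fun i => ((![u, 0] : Fin 2 → ℤ) i : ℝ)) = ![(u : ℝ), 0] := by
        funext i; fin_cases i <;> simp
      rw [h4] at h2
      rw [h5] at h3
      rw [← h2, ← h3]
      have h6 : η (n ![b + q * (![u, 0] : Fin 2 → ℤ) 0, (![u, 0] : Fin 2 → ℤ) 1]) = 0 := by
        have : n ![b + q * (![u, 0] : Fin 2 → ℤ) 0, (![u, 0] : Fin 2 → ℤ) 1] = 1 := hn0 _
        rw [this, hη1]
      rw [h6, sub_zero]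
      rfl
    have h2 : ∀ a : Fin 2 → Fin (d + 1), ∃ z : ℤ,
        c a * ∏ i, (![(u : ℝ), ((Q₂ * h : ℤ) : ℝ)] : Fin 2 → ℝ) i ^ (a i : ℕ) -
        c a * ∏ i, (![(u : ℝ), 0] : Fin 2 → ℝ) i ^ (a i : ℕ) -
        cs a * ∏ i, (![(u : ℝ), ((Q₂ * h : ℤ) : ℝ)] : Fin 2 → ℝ) i ^ (a i : ℕ) = z * M := by
      intro a
      simp only [Fin.prod_univ_two, Matrix.cons_val_zero, Matrix.cons_val_one]
      by_cases ha : (a 1 : ℕ) = 0
      · refine ⟨0, ?_⟩
        rw [hcs0 a ha, ha]; simp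
      · by_cases had : j < ∑ i, (a i : ℕ)
        · refine ⟨0, ?_⟩
          rw [hcsd a had, hcud a had]; simp
        · obtain ⟨t, ht⟩ := Nat.exists_eq_succ_of_ne_zero ha
          refine ⟨jj a * u ^ (a 0 : ℕ) * h * (Q₂ * h) ^ t, ?_⟩
          have h3 : cs a = c a - jj a / Q₁ := if_neg (by tauto)
          have hQ₁0 : (Q₁ : ℝ) ≠ 0 := by positivity
          rw [h3, ht, zero_pow (Nat.succ_ne_zero t), Nat.succ_eq_add_one, pow_succ]
          push_cast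
          rw [hQ₂]
          push_cast
          field_simp
          ring
    choose z hz using h2
    refine ⟨∑ a, z a, ?_⟩
    rw [h1]
    unfold mev
    rw [← sum_sub_distrib, ← sum_sub_distrib, sum_congr rfl fun a _ => hz a, ← sum_mul]
    push_cast
    rfl
  -- the polynomial maps
  have hsig := sig U Gf d j 2 s
  have hS : PS Gf 0 fun x : Fin 2 → ℤ => pw (mev cs' fun i => (x i : ℝ)) s :=
    sig U Gf d j 2 s cs' hF hsG hcs'd
  have hR : PS Gf 0 fun x : Fin 2 → ℤ => pw (mev cr fun i => (x i : ℝ)) s :=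
    sig U Gf d j 2 s cr hF hsG hcrd
  obtain ⟨hmul, hinv, hcomm, -, -, -, -⟩ := lbm U (Fin 2 → ℤ) Gf d hF
  have hg2 : PS Gf 0 fun x : Fin 2 → ℤ => g (x 0) := by
    have := (lbn U ℤ Gf 0 g).1 (Fin 2 → ℤ) (Pi.evalAddMonoidHom (fun _ : Fin 2 => ℤ) 0) 0 hg
    simpa using this
  let σs : (Fin 2 → ℤ) → U := fun x => pw (mev cs' fun i => (x i : ℝ)) s
  let σr : (Fin 2 → ℤ) → U := fun x => pw (mev cr fun i => (x i : ℝ)) s
  let N : (Fin 2 → ℤ) → U := fun x =>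
    (σs x)⁻¹ * n x * (σr x)⁻¹ * (σr x * g (x 0) * (σr x)⁻¹ * (g (x 0))⁻¹)
  have hNPS : PS Gf 0 N :=
    hmul 0 _ _ (hmul 0 _ _ (hmul 0 _ _ (hinv 0 _ hS) hnGJ.1) (hinv 0 _ hR)) (hcomm 0 0 _ _ hR hg2)
  have hgG : ∀ m : ℤ, g m ∈ Gf 0 := fun m => hg [] m
  have hσsJ : ∀ x, σs x ∈ J := fun x => hσJ _
  have hσrJ : ∀ x, σr x ∈ J := fun x => hσJ _
  have hconj : ∀ x, g (x 0) * (σr x)⁻¹ * (g (x 0))⁻¹ ∈ J := fun x =>
    hJ.nrm _ (hgG _) _ (J.inv_mem (hσrJ x))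
  have hNJ : ∀ x, N x ∈ kerS J η := by
    intro x
    rw [mem_kerS hη.mul]
    have e1 : N x = (σs x)⁻¹ * n x * (σr x)⁻¹ * (σr x * (g (x 0) * (σr x)⁻¹ * (g (x 0))⁻¹)) := by
      show (σs x)⁻¹ * n x * (σr x)⁻¹ * (σr x * g (x 0) * (σr x)⁻¹ * (g (x 0))⁻¹) = _
      group
    have m1 := J.inv_mem (hσsJ x)
    have m2 := J.mul_mem m1 (hnGJ.2 x)
    have m3 := J.mul_mem m2 (J.inv_mem (hσrJ x))
    have m4 := J.mul_mem (hσrJ x) (hconj x)
    refine ⟨by rw [e1]; exact J.mul_mem m3 m4, ?_⟩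
    rw [e1, hη.mul _ m3 _ m4, hη.mul _ m2 _ (J.inv_mem (hσrJ x)), hη.mul _ m1 _ (hnGJ.2 x),
      hη.mul _ (hσrJ x) _ (hconj x), hη.inv _ (hgG _) _ (J.inv_mem (hσrJ x)),
      add_inv hη.mul (hσsJ x), add_inv hη.mul (hσrJ x)]
    have e2 : η (σs x) = mev cs' fun i => (x i : ℝ) := hησ _
    have e3 : η (σr x) = mev cr fun i => (x i : ℝ) := hησ _
    have e4 : mev cr (fun i => (x i : ℝ)) = mev c0 (fun i => (x i : ℝ)) -
      mev cs' fun i => (x i : ℝ) := mev_sub _ _ _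
    rw [e2, e3, hc0, e4]
    ring
  let f : (Fin 2 → ℤ) →+ (Fin 2 → ℤ) :=
    { toFun := fun x => ![x 0, Q₂ * x 1]
      map_zero' := by funext i; fin_cases i <;> simp
      map_add' := by
        intro x y
        funext i
        fin_cases i
        · simp
        · simp [mul_add] }
  have hN'PS : PS Gf 0 fun x => N (f x) := by
    have := (lbn U (Fin 2 → ℤ) Gf 0 N).1 (Fin 2 → ℤ) f 0 hNPS
    simpa using this
  have hN0 : ∀ m : ℤ, N ![m, 0] = 1 := by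
    intro m
    have e1 : σs ![m, 0] = 1 := by
      show pw (mev cs' _) s = 1
      rw [hvs0, pw_zero]
    have e2 : σr ![m, 0] = 1 := by
      show pw (mev cr _) s = 1
      rw [hvr0, pw_zero]
    show (σs ![m, 0])⁻¹ * n ![m, 0] * (σr ![m, 0])⁻¹ * (σr ![m, 0] * g m * (σr ![m, 0])⁻¹ *
      (g m)⁻¹) = 1
    rw [e1, e2, hn0]
    group
  refine ⟨fun x => N (f x), ?_, ?_, ?_⟩
  · exact ((lbn U (Fin 2 → ℤ) Gf 0 fun x => N (f x)).2.1 (kerS J η)).2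
      ⟨hN'PS, fun x => hNJ _⟩
  · intro m
    have : f ![m, 0] = ![m, 0] := by
      show ![m, (Q₂ : ℤ) * 0] = ![m, 0]
      rw [mul_zero]
    show N (f ![m, 0]) = 1
    rw [this]; exact hN0 m
  · intro m h hm0 hmL hma hh hEl
    have hfm : f ![m, h] = ![m, Q₂ * h] := rfl
    rcases hh.eq_or_lt with hh0 | hh0
    · subst hh0
      refine ⟨1, one_mem _, ?_, 1, one_mem _, one_mem _, ?_⟩
      · rw [nm_one]; simp
      · show _ = 1 * N (f ![m, 0]) * g m * 1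
        have e0 : f ![m, 0] = ![m, 0] := by
          show ![m, (Q₂ : ℤ) * 0] = ![m, 0]
          rw [mul_zero]
        rw [e0, hN0]; simp
    -- the main case
    have hhr : (0 : ℝ) < h := by exact_mod_cast hh0
    have hQr : (1 : ℝ) ≤ Q := by exact_mod_cast hQ
    have hQ₂r : (1 : ℝ) ≤ Q₂ := by exact_mod_cast hQ₂1
    have hl0 : (0 : ℝ) < l := by
      refine lt_of_lt_of_le ?_ hEl
      have : (0 : ℝ) < ((Q * Q₂ : ℕ) : ℝ) := by exact_mod_cast Nat.mul_pos hQ hQ₂1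
      positivity
    set y : ℝ := (h : ℝ) * ((Q * Q₂ : ℕ) : ℝ) / l with hy
    have hy0 : 0 ≤ y := by positivity
    have hyE : E' * y ≤ 1 := by
      rw [hy, ← mul_div_assoc, div_le_one hl0]; exact hEl
    have hhQ : (((Q₂ : ℤ) * h : ℤ) : ℝ) * Q = (h : ℝ) * ((Q * Q₂ : ℕ) : ℝ) := by
      push_cast; ring
    have hEy : E * y ≤ 1 := by
      refine le_trans ?_ hyE
      refine mul_le_mul_of_nonneg_right ?_ hy0
      have : 0 < C3 + C2 * C3 + C1 * (E + C2 * C3) := by positivity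
      rw [hE']; linarith
    obtain ⟨k₁, hk₁, hnk₁, γ₁, hγ₁, hγ₁G, heq⟩ := hnk m (Q₂ * h) hm0 hmL hma (by positivity) (by
      rw [hhQ]
      have := (mul_le_mul_of_nonneg_right hEy hl0.le)
      rw [hy, one_mul] at this
      have e : E * (↑h * ((Q * Q₂ : ℕ) : ℝ) / ↑l) * ↑l = E * (↑h * ((Q * Q₂ : ℕ) : ℝ)) := by
        field_simp
      rwa [e] at this)
    -- the place in the class
    obtain ⟨u, hu⟩ : ∃ u : ℤ, m = b + q * u := by
      have h1 : (q : ℤ) ∣ m - b := (Int.ModEq.dvd (hba.trans hma.symm))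
      obtain ⟨u, hu⟩ := h1
      exact ⟨u, by rw [← hu]; ring⟩
    have hqz : (1 : ℤ) ≤ q := by exact_mod_cast hq
    have hu0 : 0 ≤ u := by
      by_contra hneg
      push Not at hneg
      have h1 : (q : ℤ) * u ≤ q * (-1) := mul_le_mul_of_nonneg_left (by omega) (by omega)
      linarith
    have huL : u ≤ L := by
      have h1 : u ≤ (q : ℤ) * u := le_mul_of_one_le_left hu0 hqz
      linarith
    set x : Fin 2 → ℤ := ![m, Q₂ * h] with hx
    have hσrLa : σr x ∈ (La : Subgroup U) := by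
      obtain ⟨z, hz⟩ := hvr u h
      have e1 : mev cr (fun i => (x i : ℝ)) = z * M := by
        rw [hx, hu]; exact hz
      show pw (mev cr fun i => (x i : ℝ)) s ∈ (La : Subgroup U)
      rw [e1, pw_mul, pw_int]
      exact zpow_mem hsLa z
    -- the size of `σs`
    set v : ℝ := mev cs' (fun i => (x i : ℝ)) with hv
    have hvb : |v| ≤ C3 * y := by
      have e1 : v = mev cs ![(u : ℝ), (((Q₂ : ℤ) * h : ℤ) : ℝ)] := by
        rw [hv, hx, hu]; exact hvs u (Q₂ * h)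
      have hL'r : (0 : ℝ) < L' := by exact_mod_cast hL'
      have hl'r : (0 : ℝ) < l' := by exact_mod_cast hl'
      have hur : (0 : ℝ) ≤ u := by exact_mod_cast hu0
      have huLr : (u : ℝ) ≤ L := by exact_mod_cast huL
      have hyy : (((Q₂ : ℤ) * h : ℤ) : ℝ) / l ≤ y := by
        rw [hy, ← hhQ]
        gcongr
        have h0 : (0 : ℝ) ≤ (((Q₂ : ℤ) * h : ℤ) : ℝ) := by push_cast; positivity
        exact le_mul_of_one_le_right h0 hQr
      have h2 := small cs W E₁ u (((Q₂ : ℤ) * h : ℤ) : ℝ) L' l' (E₁ * y) hW1 hE₁.le hur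
        (by push_cast; positivity) hL'r hl'r
        (by
          refine le_trans ?_ hWE
          rw [div_le_iff₀ hL'r]
          exact huLr.trans hLL)
        (by
          have h3 : (1 : ℝ) / l' ≤ E₁ / l := by
            rw [div_le_div_iff₀ hl'r hl0]; linarith
          have h0 : (0 : ℝ) ≤ (((Q₂ : ℤ) * h : ℤ) : ℝ) := by push_cast; positivity
          calc (((Q₂ : ℤ) * h : ℤ) : ℝ) / l' = (((Q₂ : ℤ) * h : ℤ) : ℝ) * (1 / l') := by ring
            _ ≤ (((Q₂ : ℤ) * h : ℤ) : ℝ) * (E₁ / l) := by gcongr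
            _ = E₁ * ((((Q₂ : ℤ) * h : ℤ) : ℝ) / l) := by ring
            _ ≤ E₁ * y := by gcongr)
        (by
          refine le_trans ?_ hWE'
          rw [le_div_iff₀ hE]
          calc E₁ * y * E = E₁ * (E * y) := by ring
            _ ≤ E₁ * 1 := by gcongr
            _ = E₁ := mul_one _)
        hcsb hcs0
      rw [e1, hC3]
      refine h2.trans (le_of_eq (by ring))
    have hE'ge : ∀ t : ℝ, 0 ≤ t → t ≤ E' → t * y ≤ 1 := fun t _ ht =>
      (mul_le_mul_of_nonneg_right ht hy0).trans hyE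
    have hP1 : 0 < C2 * C3 := by positivity
    have hP2 : 0 < C1 * (E + C2 * C3) := by positivity
    have hv1 : |v| ≤ 1 := hvb.trans (hE'ge C3 hC3p.le (by rw [hE']; linarith))
    have hnσ : nm (σs x) ≤ C2 * C3 * y := by
      refine (hnm2 s (Set.mem_singleton s) v hv1).trans ?_
      rw [mul_assoc]
      exact mul_le_mul_of_nonneg_left hvb hC2.le
    have hnσ1 : nm (σs x) ≤ 1 := hnσ.trans (hE'ge _ hP1.le (by rw [hE']; linarith))
    have hnk₁' : nm k₁ ≤ E * y := by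
      refine hnk₁.trans (le_of_eq ?_)
      rw [hhQ, hy]; ring
    refine ⟨k₁ * σs x, (Gf 0).mul_mem hk₁ (hJ.le (hσsJ x)), ?_, σr x * γ₁,
      mul_mem hσrLa hγ₁, (Gf 0).mul_mem (hJ.le (hσrJ x)) hγ₁G, ?_⟩
    · calc nm (k₁ * σs x) ≤ C1 * (nm k₁ + nm (σs x)) :=
            hnm1 _ _ (hnk₁'.trans hEy) hnσ1
        _ ≤ C1 * (E * y + C2 * C3 * y) := by gcongr
        _ = C1 * (E + C2 * C3) * y := by ring
        _ ≤ E' * y := by
            refine mul_le_mul_of_nonneg_right ?_ hy0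
            rw [hE']; linarith
        _ = E' * ((h : ℝ) * ((Q * Q₂ : ℕ) : ℝ)) / l := by rw [hy]; ring
    · have e1 : m + ((Q * Q₂ : ℕ) : ℤ) * h = m + Q * (Q₂ * h) := by push_cast; ring
      rw [e1, heq]
      exact step k₁ γ₁ (σs x) (σr x) (n x) (g m)

end

end Pool.Agent.NG
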