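import Mathlib
import Pool.Agent.Lib.NG.C

/-!
# NVG2 (MP_663568_nt), row NRG: from one cell to the coefficients  (helper93)
-/

set_option autoImplicit false
open Finset Topology Polynomial

namespace Pool.Agent.NG

open Amb Pool.Agent.Lib.MP_663568_nt Pool.Agent.Lib.MP_663568_nt.Katai
  Pool.Agent.Lib.MP_663568_nt.Nul Pool.Agent.SV Pool.Agent.VQ Pool.Agent.NV

noncomputable section

namespace NRGx

/-- the coefficients of a polynomial in one variable -/
def cc {d : ℕ} (c : (Fin 1 → Fin (d + 1)) → ℝ) (a : ℕ) : ℝ :=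
  if h : a < d + 1 then c fun _ => ⟨a, h⟩ else 0

lemma mev_cc {d : ℕ} (c : (Fin 1 → Fin (d + 1)) → ℝ) (x : Fin 1 → ℝ) :
    mev c x = ∑ a ∈ range (d + 1), cc c a * x 0 ^ a := by
  have h1 : mev c x = ∑ a : Fin (d + 1), c (fun _ => a) * x 0 ^ (a : ℕ) := by
    unfold mev
    refine Fintype.sum_equiv (Equiv.funUnique (Fin 1) (Fin (d + 1))) _ _ fun a => ?_
    have h2 : (fun _ : Fin 1 => (Equiv.funUnique (Fin 1) (Fin (d + 1))) a) = a := by
      funext i
      rw [Subsingleton.elim i 0]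
      rfl
    rw [h2]
    congr 1
    rw [Fin.prod_univ_one]
    rfl
  rw [h1, ← Fin.sum_univ_eq_sum_range (fun a => cc c a * x 0 ^ a) (d + 1)]
  refine Finset.sum_congr rfl fun a _ => ?_
  congr 1
  unfold cc
  rw [dif_pos a.2]

/-- the polynomial with the coefficients `c` -/
def pl {d : ℕ} (c : (Fin 1 → Fin (d + 1)) → ℝ) : ℝ[X] :=
  ∑ a ∈ range (d + 1), C (cc c a) * X ^ a

lemma eval_pl {d : ℕ} (c : (Fin 1 → Fin (d + 1)) → ℝ) (t : ℝ) :
    (pl c).eval t = ∑ a ∈ range (d + 1), cc c a * t ^ a := by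
  unfold pl
  rw [eval_finsetSum]
  refine Finset.sum_congr rfl fun a _ => ?_
  rw [eval_mul, eval_C, eval_pow, eval_X]

lemma eq_of_int {p q : ℝ[X]} (h : ∀ m : ℤ, p.eval (m : ℝ) = q.eval (m : ℝ)) : p = q := by
  apply Polynomial.eq_of_infinite_eval_eq
  refine Set.Infinite.mono ?_ (Set.infinite_range_of_injective (Int.cast_injective (α := ℝ)))
  rintro _ ⟨m, rfl⟩
  exact h m

end NRGx

open NRGx

/-- Row NRG. -/
theorem nrg : NRG_stmt := by
  intro d
  refine ⟨2 ^ d * (d + 1), ?_, ?_⟩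
  · have h1 : (1 : ℝ) ≤ 2 ^ d := one_le_pow₀ (by norm_num)
    have h2 : (0 : ℝ) ≤ d := Nat.cast_nonneg _
    nlinarith
  intro Q m₀ L E R P p hQ hE hL hR hmR hp hN k hk hkd hm₀
  obtain ⟨c, hc, hcn⟩ := hN
  have hL0 : (0 : ℝ) < L := by exact_mod_cast hL
  have hm0 : (0 : ℝ) < m₀ := by exact_mod_cast hm₀
  have hpq : p = (pl c).comp (X - C (m₀ : ℝ)) := by
    apply eq_of_int
    intro m
    rw [eval_comp, eval_pl, eval_sub, eval_X, eval_C, ← hp m]
    have h1 : P (m₀ + (m - m₀)) = mev c fun _ => ((m - m₀ : ℤ) : ℝ) := hc fun _ => m - m₀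
    rw [mev_cc, show (m₀ : ℤ) + (m - m₀) = m by ring] at h1
    rw [h1]
    push_cast
    rfl
  have hco : p.coeff k = ∑ a ∈ range (d + 1), cc c a * ((-(m₀ : ℝ)) ^ (a - k) * (a.choose k : ℝ)) := by
    rw [hpq]
    have h1 : (pl c).comp (X - C (m₀ : ℝ)) = ∑ a ∈ range (d + 1), C (cc c a) * (X - C (m₀ : ℝ)) ^ a := by
      apply eq_of_int
      intro m
      rw [eval_comp, eval_pl, eval_finsetSum]
      refine Finset.sum_congr rfl fun a _ => ?_
      rw [eval_mul, eval_C, eval_pow]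
    rw [h1, finsetSum_coeff]
    refine Finset.sum_congr rfl fun a _ => ?_
    rw [coeff_C_mul, sub_eq_add_neg, ← C_neg, coeff_X_add_C_pow]
  have hcn' : ∀ a : ℕ, ∃ j : ℤ, 1 ≤ a → a < d + 1 → |cc c a - j / Q| ≤ E / (L : ℝ) ^ a := by
    intro a
    by_cases h : 1 ≤ a ∧ a < d + 1
    · have h1 : (fun _ : Fin 1 => (⟨a, h.2⟩ : Fin (d + 1))) ≠ 0 := by
        intro h2
        have h3 := congrFun h2 0
        have h4 : a = 0 := congrArg Fin.val h3
        omega
      obtain ⟨j, hj⟩ := hcn _ h1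
      refine ⟨j, fun _ _ => ?_⟩
      have h2 : cc c a = c fun _ => ⟨a, h.2⟩ := by
        unfold cc
        rw [dif_pos h.2]
      rw [h2]
      simpa using hj
    · exact ⟨0, fun h1 h2 => absurd ⟨h1, h2⟩ h⟩
  choose j hj using hcn'
  refine ⟨∑ a ∈ range (d + 1), j a * ((-(m₀ : ℤ)) ^ (a - k) * (a.choose k : ℤ)), ?_⟩
  have hJ : ((∑ a ∈ range (d + 1), j a * ((-(m₀ : ℤ)) ^ (a - k) * (a.choose k : ℤ)) : ℤ) : ℝ) / Q =
      ∑ a ∈ range (d + 1), (j a : ℝ) / Q * ((-(m₀ : ℝ)) ^ (a - k) * (a.choose k : ℝ)) := by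
    push_cast
    rw [Finset.sum_div]
    refine Finset.sum_congr rfl fun a _ => ?_
    ring
  rw [hJ, hco, ← Finset.sum_sub_distrib]
  have hterm : ∀ a ∈ range (d + 1), |cc c a * ((-(m₀ : ℝ)) ^ (a - k) * (a.choose k : ℝ)) -
      (j a : ℝ) / Q * ((-(m₀ : ℝ)) ^ (a - k) * (a.choose k : ℝ))| ≤
      2 ^ d * E * R ^ d / (m₀ : ℝ) ^ k := by
    intro a ha
    rw [mem_range] at ha
    rcases Nat.lt_or_ge a k with hak | hak
    · rw [Nat.choose_eq_zero_of_lt hak]
      simp only [Nat.cast_zero, mul_zero, sub_zero, abs_zero]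
      positivity
    · rw [← sub_mul, abs_mul, abs_mul, abs_pow, abs_neg, abs_of_pos hm0, Nat.abs_cast]
      have h1 := hj a (hk.trans hak) ha
      have h2 : (a.choose k : ℝ) ≤ 2 ^ d := by
        have h3 : a.choose k ≤ 2 ^ a := Nat.choose_le_two_pow a k
        have h4 : (2 : ℕ) ^ a ≤ 2 ^ d := Nat.pow_le_pow_right (by norm_num) (by omega)
        exact_mod_cast h3.trans h4
      have h3 : (m₀ : ℝ) ^ (a - k) = (m₀ : ℝ) ^ a / (m₀ : ℝ) ^ k := by
        rw [eq_div_iff (by positivity), ← pow_add, Nat.sub_add_cancel hak]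
      have h4 : (m₀ : ℝ) ^ a ≤ R ^ d * (L : ℝ) ^ a := by
        calc (m₀ : ℝ) ^ a ≤ (R * L) ^ a := pow_le_pow_left₀ hm0.le hmR a
          _ = R ^ a * (L : ℝ) ^ a := mul_pow _ _ _
          _ ≤ R ^ d * (L : ℝ) ^ a := by
              apply mul_le_mul_of_nonneg_right _ (by positivity)
              exact pow_le_pow_right₀ hR (by omega)
      calc |cc c a - (j a : ℝ) / Q| * ((m₀ : ℝ) ^ (a - k) * (a.choose k : ℝ))
          ≤ E / (L : ℝ) ^ a * ((m₀ : ℝ) ^ a / (m₀ : ℝ) ^ k * 2 ^ d) := by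
            rw [h3]
            apply mul_le_mul h1 _ (by positivity) (by positivity)
            exact mul_le_mul_of_nonneg_left h2 (by positivity)
        _ ≤ E / (L : ℝ) ^ a * (R ^ d * (L : ℝ) ^ a / (m₀ : ℝ) ^ k * 2 ^ d) := by
            apply mul_le_mul_of_nonneg_left _ (by positivity)
            apply mul_le_mul_of_nonneg_right _ (by positivity)
            exact div_le_div_of_nonneg_right h4 (by positivity)
        _ = 2 ^ d * E * R ^ d / (m₀ : ℝ) ^ k := by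
            field_simp
  calc |∑ a ∈ range (d + 1), (cc c a * ((-(m₀ : ℝ)) ^ (a - k) * (a.choose k : ℝ)) -
        (j a : ℝ) / Q * ((-(m₀ : ℝ)) ^ (a - k) * (a.choose k : ℝ)))|
      ≤ ∑ a ∈ range (d + 1), 2 ^ d * E * R ^ d / (m₀ : ℝ) ^ k :=
        (Finset.abs_sum_le_sum_abs _ _).trans (Finset.sum_le_sum hterm)
    _ = 2 ^ d * (d + 1) * E * R ^ d / (m₀ : ℝ) ^ k := by
        rw [Finset.sum_const, card_range, nsmul_eq_mul]
        push_cast
        ring

end

end Pool.Agent.NG
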