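import Pool.Agent.Lib.NG.C
import Pool.Agent.Lib.NG.NearB

/-!
# NVG2 (MP_663568_nt), part C, rows NRM and NRL: almost rational polynomials on cells (helper66)
-/

set_option autoImplicit false
open Finset Polynomial

namespace Pool.Agent.NG

open Pool.Agent.Lib.MP_663568_nt Pool.Agent.Lib.MP_663568_nt.Katai
  Pool.Agent.Lib.MP_663568_nt.Nul

namespace NRMx

lemma prod_one {f : Fin 1 → ℝ} : ∏ i, f i = f 0 := by simp

lemma ne_zero {d : ℕ} {a : Fin 1 → Fin (d + 1)} (ha : a ≠ 0) : 1 ≤ (a 0 : ℕ) := by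
  by_contra h
  apply ha
  funext i
  have hi : i = 0 := Subsingleton.elim _ _
  subst hi
  apply Fin.ext
  show (a 0 : ℕ) = 0
  omega

/-- Change of the length. -/
lemma near_len {d : ℕ} {E E' : ℝ} {Q L L' : ℕ} {P : (Fin 1 → ℤ) → ℝ} (h : Near 1 d E Q ![L] P)
    (hL : ∀ b : ℕ, 1 ≤ b → b ≤ d → E / (L : ℝ) ^ b ≤ E' / (L' : ℝ) ^ b) :
    Near 1 d E' Q ![L'] P := by
  obtain ⟨c, h1, h2⟩ := h
  refine ⟨c, h1, fun a ha => ?_⟩
  obtain ⟨j, hj⟩ := h2 a ha
  refine ⟨j, hj.trans ?_⟩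
  rw [prod_one, prod_one]
  exact hL _ (ne_zero ha) (by have := (a 0).2; omega)

/-- A polynomial as an array. -/
lemma mev_poly {d : ℕ} (p : ℝ[X]) (hp : p.natDegree ≤ d) (x : Fin 1 → ℝ) :
    p.eval (x 0) = mev (fun a : Fin 1 → Fin (d + 1) => p.coeff (a 0 : ℕ)) x := by
  unfold mev
  rw [eval_eq_sum_range' (Nat.lt_succ_of_le hp), ← Fin.sum_univ_eq_sum_range
    (fun i => p.coeff i * x 0 ^ i)]
  refine Fintype.sum_equiv (Equiv.funUnique (Fin 1) (Fin (d + 1))).symm _ _ fun k => ?_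
  rw [prod_one]
  rfl

end NRMx

open NRMx

/-- **Row NRM.** -/
theorem nrm : NRM_stmt := by
  intro d
  refine ⟨?_, ?_, ?_⟩
  · intro Q Q' m₀ L L' E E' P hQ hQ' hL hL1 hE hEE h
    refine near_mono h hE hEE hQ hQ' (fun i => ?_) (fun i => ?_)
    · have hi : i = 0 := Subsingleton.elim _ _
      subst hi
      exact hL
    · have hi : i = 0 := Subsingleton.elim _ _
      subst hi
      exact hL1
  · intro Q m₀ L E P hE h
    refine near_len h fun b _ hb => ?_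
    rcases Nat.eq_zero_or_pos L with rfl | hL
    · have hb0 : b ≠ 0 := by omega
      simp [hb0]
    · have hL0 : (0 : ℝ) < L := by exact_mod_cast hL
      have h2 : (2 : ℝ) ^ b ≤ 2 ^ d := pow_le_pow_right₀ (by norm_num) hb
      push_cast
      rw [mul_pow, div_le_div_iff₀ (by positivity) (by positivity)]
      calc E * (2 ^ b * (L : ℝ) ^ b) ≤ E * (2 ^ d * (L : ℝ) ^ b) := by gcongr
        _ = 2 ^ d * E * (L : ℝ) ^ b := by ring
  · have h2d : (1 : ℝ) ≤ 2 ^ d := one_le_pow₀ (by norm_num)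
    have hd0 : (0 : ℝ) ≤ d := Nat.cast_nonneg _
    refine ⟨(d + 1) * 2 ^ d, by nlinarith, ?_⟩
    intro Q m₀ m₁ L L' E R P hQ hE hR hm hmR hL hL1 h
    have hL1' : 1 ≤ L := hL1.trans hL
    have hmm : (m₀ : ℝ) ≤ m₁ := by exact_mod_cast hm
    have h1 := near_shift h hE hQ hR (fun i => by
      have hi : i = 0 := Subsingleton.elim _ _
      subst hi
      exact hL1') ![((m₁ : ℤ) - m₀)] (fun i => by
      have hi : i = 0 := Subsingleton.elim _ _
      subst hi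
      show |(((m₁ : ℤ) - m₀ : ℤ) : ℝ)| ≤ R * (L : ℝ)
      push_cast
      rw [abs_of_nonneg (by linarith)]
      linarith)
    have h2 : (fun x : Fin 1 → ℤ => P (m₀ + (x + ![((m₁ : ℤ) - m₀)]) 0)) =
        fun x => P (m₁ + x 0) := by
      funext x
      congr 1
      show (m₀ : ℤ) + (x 0 + ((m₁ : ℤ) - m₀)) = m₁ + x 0
      ring
    have h1' : Near 1 d (((d + 1) * (2 * R) ^ d) ^ 1 * E) Q ![L]
        (fun x : Fin 1 → ℤ => P (m₀ + (x + ![((m₁ : ℤ) - m₀)]) 0)) := h1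
    rw [h2] at h1'
    have h3 : ((d + 1) * (2 * R) ^ d) ^ 1 * E = (d + 1) * 2 ^ d * R ^ d * E := by
      rw [pow_one, mul_pow]
      ring
    rw [h3] at h1'
    refine near_mono h1' (by positivity) le_rfl dvd_rfl hQ (fun i => ?_) (fun i => ?_)
    · have hi : i = 0 := Subsingleton.elim _ _
      subst hi
      exact hL
    · have hi : i = 0 := Subsingleton.elim _ _
      subst hi
      exact hL1

/-- **Row NRL.** -/
theorem nrl : NRL_stmt := by
  intro d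
  have h2d : (1 : ℝ) ≤ 2 ^ d := one_le_pow₀ (by norm_num)
  have hd0 : (0 : ℝ) ≤ d := Nat.cast_nonneg _
  have hC1 : (1 : ℝ) ≤ (d + 1) * 2 ^ d := by nlinarith
  refine ⟨(d + 1) * 2 ^ d, hC1, ?_⟩
  intro Q m₀ L τ P p hQ hτ hm₀ hL hCm hp hP hk
  set C : ℝ := (d + 1) * 2 ^ d with hC
  have hm0 : (0 : ℝ) < m₀ := by exact_mod_cast hm₀
  have hL0 : (0 : ℝ) < L := by exact_mod_cast hL
  have h1 : Near 1 d τ Q ![m₀] fun x : Fin 1 → ℤ => P (x 0) := by
    refine ⟨fun a => p.coeff (a 0 : ℕ), fun x => ?_, fun a ha => ?_⟩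
    · show P (x 0) = _
      rw [hP, ← mev_poly p hp]
    · rw [prod_one]
      exact hk _ (ne_zero ha) (by have := (a 0).2; omega)
  have h2 := near_shift h1 (by linarith) hQ (le_refl (1 : ℝ)) (fun i => by
      have hi : i = 0 := Subsingleton.elim _ _
      subst hi
      exact hm₀) ![(m₀ : ℤ)] (fun i => by
      have hi : i = 0 := Subsingleton.elim _ _
      subst hi
      show |((m₀ : ℤ) : ℝ)| ≤ 1 * (m₀ : ℝ)
      push_cast
      rw [abs_of_nonneg hm0.le]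
      linarith)
  have h3 : Near 1 d (C * τ) Q ![m₀] fun x : Fin 1 → ℤ => P (m₀ + x 0) := by
    have h4 : (fun x : Fin 1 → ℤ => P ((x + ![(m₀ : ℤ)]) 0)) = fun x => P (m₀ + x 0) := by
      funext x
      congr 1
      show x 0 + (m₀ : ℤ) = m₀ + x 0
      ring
    have h5 : Near 1 d (((d + 1) * (2 * 1) ^ d) ^ 1 * τ) Q ![m₀]
      (fun x : Fin 1 → ℤ => P ((x + ![(m₀ : ℤ)]) 0)) := h2
    rw [h4] at h5
    have h6 : (((d : ℝ) + 1) * (2 * 1) ^ d) ^ 1 * τ = C * τ := by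
      rw [pow_one, mul_one, hC]
    rwa [h6] at h5
  have hCτ : 1 ≤ C * τ := by nlinarith
  refine near_len h3 fun b hb _ => ?_
  rw [div_le_div_iff₀ (by positivity) (by positivity), one_mul]
  calc C * τ * (L : ℝ) ^ b ≤ (C * τ) ^ b * (L : ℝ) ^ b := by
        have : C * τ ≤ (C * τ) ^ b := le_self_pow₀ hCτ (by omega)
        gcongr
    _ = (C * τ * L) ^ b := (mul_pow (C * τ) (L : ℝ) b).symm
    _ ≤ (m₀ : ℝ) ^ b := by gcongr

end Pool.Agent.NG
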