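import Mathlib
import Pool.Agent.Lib.NG.C

/-!
# NVG2 (MP_663568_nt), row NVGA: from the statement NS for all the groups to the theorem for
ambient groups (`n ↦ g^n x` is a polynomial sequence, property PL holds for `N = G`).  (helper24)
-/

set_option autoImplicit false
open Finset Topology

namespace Pool.Agent.NG

open Amb Pool.Agent.Lib.MP_663568_nt Pool.Agent.Lib.MP_663568_nt.Katai Pool.Agent.NV

noncomputable section

theorem nvga_anti {U : Type} [Amb U] {Gf : ℕ → Subgroup U} {d : ℕ} (hF : Filt Gf d) (i : ℕ) :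
    Gf i ≤ Gf 0 := by
  induction i with
  | zero => exact le_refl _
  | succ i ih => exact (hF.anti i).trans ih

theorem nvga_nor {U : Type} [Amb U] {Gf : ℕ → Subgroup U} {d : ℕ} (hF : Filt Gf d) :
    Nor Gf d (Gf 0) :=
  ⟨hF.rat 0, le_refl _, nvga_anti hF _, fun _ hx _ hy =>
    mul_mem (mul_mem hx hy) (inv_mem hx)⟩

theorem nvga_ps (hL : LBM_stmt) {U : Type} [Amb U] {Gf : ℕ → Subgroup U} {d : ℕ}
    (hF : Filt Gf d) (g x : U) (hg : g ∈ Gf 0) (hx : x ∈ Gf 0) :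
    PS Gf 0 fun m : ℤ => g ^ m * x := by
  obtain ⟨h1, -, -, h4, -, h6, -⟩ := hL U ℤ Gf d hF
  refine h1 0 (fun m : ℤ => g ^ m) (fun _ => x) ?_ (h4 0 x hx)
  rw [h6]
  refine ⟨fun n => zpow_mem hg n, fun h => ?_⟩
  have e : dif h (fun m : ℤ => g ^ m) = fun _ => g ^ h := by
    funext n
    change g ^ (n + h) * (g ^ n)⁻¹ = g ^ h
    rw [add_comm, zpow_add, mul_inv_cancel_right]
  rw [e]
  refine h4 (0 + 1) _ ?_
  rw [Nat.zero_add, hF.top]
  exact zpow_mem hg h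

/-- The data of a linear nilsequence. -/
def nvgaDat (hL : LBM_stmt) {U : Type} [Amb U] {Gf : ℕ → Subgroup U} {d : ℕ} (hF : Filt Gf d)
    (r : {r : U × U // r.1 ∈ Gf 0 ∧ r.2 ∈ Gf 0}) : Dat Gf 1 :=
  ⟨fun m => r.1.1 ^ m * r.1.2, nvga_ps hL hF r.1.1 r.1.2 r.2.1 r.2.2, Set.univ⟩

theorem nvga_ev (hL : LBM_stmt) {U : Type} [Amb U] {Gf : ℕ → Subgroup U} {d : ℕ}
    (hF : Filt Gf d) (r : {r : U × U // r.1 ∈ Gf 0 ∧ r.2 ∈ Gf 0}) (F : U → ℂ) (m : ℕ) :
    (nvgaDat hL hF r).ev F m = F (r.1.1 ^ m * r.1.2) := by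
  unfold Dat.ev
  rw [if_pos (show ((m : ℕ) : ZMod 1) ∈ (nvgaDat hL hF r).A from Set.mem_univ _)]
  change F (r.1.1 ^ (m : ℤ) * r.1.2) = _
  rw [zpow_natCast]

theorem nvga : NVGA_stmt := by
  intro hL hP hN U _ Gf d hF F hFn A ε hA hε
  obtain ⟨B, H₀, hB, h⟩ := hN U Gf d (Gf 0) hF (nvga_nor hF) F hFn 1 1 1 le_rfl le_rfl
    (dvd_refl 1) one_pos A ε hA hε
  refine ⟨B, H₀, hB, fun H hH xa xb hxa hxb g x hg hx hs => ?_⟩
  have h1 := h H hH xa xb hxa hxb (fun n => nvgaDat hL hF ⟨(g n, x n), hg n, hx n⟩) ?_ ?_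
  · refine le_trans (le_of_eq ?_) h1
    refine Finset.sum_congr rfl fun n _ => ?_
    congr 1
    change _ = ‖∑ h ∈ Icc 1 H, muC (n + h) * _‖ / H
    congr 2
    refine Finset.sum_congr rfl fun k _ => ?_
    congr 1
    exact (nvga_ev hL hF ⟨(g n, x n), hg n, hx n⟩ F (n + k)).symm
  · intro j
    refine le_trans ?_ (hs j)
    classical
    refine Nat.cast_le.mpr (Finset.card_le_card ?_)
    intro n hn
    simp only [Finset.mem_filter] at hn ⊢
    refine ⟨hn.1, fun e => hn.2 ?_⟩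
    have e1 : g (n + 1) = g n := congrArg Prod.fst e
    have e2 : x (n + 1) = x n := congrArg Prod.snd e
    have e3 : (⟨(g (n + 1), x (n + 1)), hg (n + 1), hx (n + 1)⟩ :
        {r : U × U // r.1 ∈ Gf 0 ∧ r.2 ∈ Gf 0}) = ⟨(g n, x n), hg n, hx n⟩ :=
      Subtype.ext e
    exact congrArg (nvgaDat hL hF) e3
  · intro m _ a _
    exact hP U Gf d a 1 1 1 m _ H _ hF one_pos (nvgaDat hL hF ⟨(g m, x m), hg m, hx m⟩).ps

end

end Pool.Agent.NG
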