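import Mathlib
import Pool.Agent.Lib.NG.C

/-!
# NVG2 (MP_663568_nt), row ONES: the one sided long case

(helper26)
-/

set_option autoImplicit false
open Finset Topology

namespace Pool.Agent.NG

open Amb Pool.Agent.Lib.MP_663568_nt Pool.Agent.Lib.MP_663568_nt.Katai
  Pool.Agent.Lib.MP_663568_nt.Nul Pool.Agent.SV Pool.Agent.VQ Pool.Agent.NV

noncomputable section

namespace Ones

/-- Numbers: the cells. -/
theorem cells (A : ℝ) (hA : 0 ≤ A) (H m₀ m : ℕ) (hH : 4 ≤ H)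
    (h0 : (H : ℝ) ^ (A + 1 + 3) ≤ m₀) (h1 : m₀ ≤ m) (h2 : (m : ℝ) ≤ m₀ + m₀ / (H : ℝ) ^ (A + 1)) :
    H * H ≤ ⌊(m₀ : ℝ) / (H : ℝ) ^ A⌋₊ ∧ H * m ≤ H * m₀ + ⌊(m₀ : ℝ) / (H : ℝ) ^ A⌋₊ ∧
    m + ⌊(m : ℝ) / (H : ℝ) ^ (A + 1 + 2)⌋₊ ≤ m₀ + ⌊(m₀ : ℝ) / (H : ℝ) ^ A⌋₊ := by
  have hHr : (4 : ℝ) ≤ H := by exact_mod_cast hH
  have hH0 : (0 : ℝ) < H := by linarith
  have hP : (0 : ℝ) < (H : ℝ) ^ A := Real.rpow_pos_of_pos hH0 _
  have e1 : (H : ℝ) ^ (A + 1) = (H : ℝ) ^ A * H := by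
    rw [Real.rpow_add hH0, Real.rpow_one]
  have e3 : (H : ℝ) ^ (A + 1 + 2) = (H : ℝ) ^ A * H * H ^ 2 := by
    rw [Real.rpow_add hH0, e1]
    norm_num
  have e4 : (H : ℝ) ^ (A + 1 + 3) = (H : ℝ) ^ A * H * H ^ 3 := by
    rw [Real.rpow_add hH0, e1]
    norm_num
  rw [e4] at h0
  rw [e1] at h2
  rw [e3]
  set P : ℝ := (H : ℝ) ^ A with hPd
  -- y = m₀ / P
  set y : ℝ := (m₀ : ℝ) / P with hy
  have hy4 : (H : ℝ) ^ 4 ≤ y := by
    rw [hy, le_div_iff₀ hP]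
    refine le_trans (le_of_eq ?_) h0
    ring
  have hy0 : 0 ≤ y := le_trans (by positivity) hy4
  have hd : (m₀ : ℝ) / (P * H) = y / H := by
    rw [hy]
    field_simp
  rw [hd] at h2
  have hmy : (m : ℝ) / (P * H * H ^ 2) ≤ 2 * y / H ^ 3 := by
    have : (m : ℝ) ≤ 2 * m₀ := by
      have h5 : y / H ≤ m₀ := by
        rw [← hd]
        refine div_le_self (by positivity) ?_
        have : (1 : ℝ) ≤ P := Real.one_le_rpow (by linarith) hA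
        nlinarith
      linarith
    have h6 : (m : ℝ) / (P * H * H ^ 2) ≤ (2 * m₀) / (P * H * H ^ 2) := by
      gcongr
    refine h6.trans (le_of_eq ?_)
    rw [hy]
    field_simp
  refine ⟨?_, ?_, ?_⟩
  · refine Nat.le_floor ?_
    push_cast
    refine le_trans ?_ hy4
    have h13 : (1 : ℝ) ≤ (H : ℝ) ^ 2 := by nlinarith
    calc (H : ℝ) * H = H ^ 2 * 1 := by ring
      _ ≤ H ^ 2 * H ^ 2 := by gcongr
      _ = H ^ 4 := by ring
  · have h7 : ((H * m - H * m₀ : ℕ) : ℝ) ≤ y := by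
      have : H * m₀ ≤ H * m := Nat.mul_le_mul_left _ h1
      rw [Nat.cast_sub this]
      push_cast
      have h8 : (H : ℝ) * m ≤ H * m₀ + H * (y / H) := by
        rw [← mul_add]
        exact mul_le_mul_of_nonneg_left h2 hH0.le
      rw [mul_div_cancel₀ _ hH0.ne'] at h8
      linarith
    have h9 : H * m - H * m₀ ≤ ⌊y⌋₊ := Nat.le_floor h7
    omega
  · have h7 : ((m + ⌊(m : ℝ) / (P * H * H ^ 2)⌋₊ : ℕ) : ℝ) ≤ m₀ + (⌊y⌋₊ : ℝ) := by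
      push_cast
      have h8 : (⌊(m : ℝ) / (P * H * H ^ 2)⌋₊ : ℝ) ≤ 2 * y / H ^ 3 :=
        (Nat.floor_le (by positivity)).trans hmy
      have h9 : y - 1 < ⌊y⌋₊ := Nat.sub_one_lt_floor y
      have h10 : y / H ≤ y / 4 := by
        gcongr
      have h11 : 2 * y / H ^ 3 ≤ y / 4 := by
        have : (64 : ℝ) ≤ (H : ℝ) ^ 3 := by
          calc (64 : ℝ) = 4 ^ 3 := by norm_num
            _ ≤ (H : ℝ) ^ 3 := by gcongr
        calc 2 * y / H ^ 3 ≤ 2 * y / 64 := by gcongr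
          _ ≤ y / 4 := by linarith
      have h12 : (2 : ℝ) ≤ y := by
        refine le_trans ?_ hy4
        have := pow_le_pow_left₀ (by norm_num : (0 : ℝ) ≤ 4) hHr 4
        norm_num at this
        linarith
      linarith
    exact_mod_cast h7

end Ones

theorem ones : ONES_stmt := by
  intro hRED hCELL hPLM U _ Gf d N χ hF hN hχ hNS F hFn q Q Q₁ E hq hQ hqQ hQ₁ hE
  obtain ⟨B, hB⟩ := hFn.bd
  refine hCELL _ _ _ (max B 0) (fun x m => ?_) fun A ε hA hε => ?_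
  · unfold Dat.ev
    split_ifs
    · have h := x.ps [] m
      have h1 : x.g m ∈ Gf 0 := by simpa using h
      exact (hB _ h1).trans (le_max_left _ _)
    · simp
  obtain ⟨T, Fs, q', E', l₀, hq', hE', hFs, hR⟩ :=
    hRED U Gf d N χ F q Q Q₁ E ε hF hN hχ hFn hq hQ hqQ hQ₁ hE hε
  refine ⟨T, Dat (kf Gf χ) q', fun t => Dat.ev (Fs t),
    fun _ H A m y => y.PLs q' (N ⊓ kerS (Gf 0) χ) E' m ⌊(m : ℝ) / (H : ℝ) ^ A⌋₊ H, A + 1,
    max l₀ 4, by linarith, fun j => hNS (Fs j) (hFs j) q' q' E' hq' hq' dvd_rfl hE',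
    ⟨Dat.nul, fun j H A m a ha => absurd ha (by simp [Dat.nul])⟩, ?_⟩
  intro H m₀ x hH hm₀ hP
  have hH4 : 4 ≤ H := (le_max_right _ _).trans hH
  have hc := (Ones.cells A hA H m₀ m₀ hH4 hm₀ le_rfl
    (le_add_of_nonneg_right (by positivity))).1
  obtain ⟨y, hy, hy2⟩ := hR m₀ _ H x ((le_max_left _ _).trans hH) hc hP.1 hP.2
  refine ⟨y, fun m hm hm' => ?_⟩
  obtain ⟨-, c2, c3⟩ := Ones.cells A hA H m₀ m hH4 hm₀ hm hm'
  refine ⟨hy2 m hm c2, fun j a ha => ?_⟩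
  exact hPLM U _ _ _ _ a a q' q' q' q' E' E' m₀ _ H m _ H _ (fun i => le_rfl) le_rfl dvd_rfl
    hq' dvd_rfl rfl hE' le_rfl hm c3 (by omega) le_rfl (hy j a ha)

end

end Pool.Agent.NG
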