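import Mathlib
import Pool.Agent.Lib.NG.C

/-!
# NVG2 (MP_663568_nt), row SCL: multiples  (helper93)
-/

set_option autoImplicit false
open Finset Topology Polynomial

namespace Pool.Agent.NG

open Amb Pool.Agent.Lib.MP_663568_nt Pool.Agent.Lib.MP_663568_nt.Katai
  Pool.Agent.Lib.MP_663568_nt.Nul Pool.Agent.SV Pool.Agent.VQ Pool.Agent.NV

/-- Row SCL. -/
theorem scl : SCL_stmt := by
  intro α ev P P' c hS hP A ε hA hε
  have hc : 0 < ‖c‖ + 1 := by positivity
  obtain ⟨B, H₀, hB, h⟩ := hS A (ε / (‖c‖ + 1)) hA (by positivity)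
  refine ⟨B, max H₀ 1, hB, ?_⟩
  intro H hH xa xb hxa hxb X hX hPX
  have hH1 : 1 ≤ H := (le_max_right _ _).trans hH
  have hH1' : (1 : ℝ) ≤ H := by exact_mod_cast hH1
  have h1 := h H ((le_max_left _ _).trans hH) xa xb hxa hxb X hX
    fun m hm => hP H A m (X m) hH1 (hPX m hm)
  have hxa0 : 0 < xa := lt_of_lt_of_le (by positivity) hxa
  have hab : xa ≤ xb := by nlinarith
  have hΛ : 0 ≤ Real.log xb - Real.log xa := by
    have := Real.log_le_log hxa0 hab
    linarith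
  have h2 : ∀ n, Wg H n (fun m => c * ev (X n) m) = ‖c‖ * Wg H n (ev (X n)) := by
    intro n
    unfold Wg
    rw [← mul_div_assoc, ← norm_mul, Finset.mul_sum]
    congr 2
    exact Finset.sum_congr rfl fun k _ => by ring
  calc ∑ n ∈ Ioc ⌊xa⌋₊ ⌊xb⌋₊, (1 / (n : ℝ)) * Wg H n (fun m => c * ev (X n) m)
      = ‖c‖ * ∑ n ∈ Ioc ⌊xa⌋₊ ⌊xb⌋₊, (1 / (n : ℝ)) * Wg H n (ev (X n)) := by
        rw [Finset.mul_sum]
        refine Finset.sum_congr rfl fun n _ => ?_
        rw [h2]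
        ring
    _ ≤ ‖c‖ * (ε / (‖c‖ + 1) * (Real.log xb - Real.log xa)) :=
        mul_le_mul_of_nonneg_left h1 (norm_nonneg c)
    _ ≤ (‖c‖ + 1) * (ε / (‖c‖ + 1) * (Real.log xb - Real.log xa)) := by
        apply mul_le_mul_of_nonneg_right _ (by positivity)
        linarith
    _ = ε * (Real.log xb - Real.log xa) := by
        field_simp

end Pool.Agent.NG
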