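import Pool.Agent.Lib.NG.C
import Pool.Agent.Lib.NG.CELL

/-!
# NVG2, row SPLIT: Fourier expansion along `z`, single classes
-/

set_option autoImplicit false
open Finset Topology

namespace Pool.Agent.NG

open Amb Pool.Agent.Lib.MP_663568_nt Pool.Agent.Lib.MP_663568_nt.Katai
  Pool.Agent.Lib.MP_663568_nt.Nul Pool.Agent.SV Pool.Agent.VQ Pool.Agent.NV

noncomputable section

namespace SPLITx

lemma wg_nonneg (l m : ℕ) (f : ℕ → ℂ) : 0 ≤ Wg l m f := by
  unfold Wg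
  positivity

lemma wg_mul (l m : ℕ) (c : ℂ) (f : ℕ → ℂ) : Wg l m (fun n => c * f n) = ‖c‖ * Wg l m f := by
  unfold Wg
  have h : ∑ h ∈ Icc 1 l, muC (m + h) * (c * f (m + h)) =
      c * ∑ h ∈ Icc 1 l, muC (m + h) * f (m + h) := by
    rw [mul_sum]
    exact sum_congr rfl fun x _ => by ring
  rw [h, norm_mul, mul_div_assoc]

lemma slow_map {α β : Type} {X : ℕ → α} {K : ℝ} (φ : α → β) (h : SlowA X K) :
    SlowA (fun n => φ (X n)) K := by
  intro j
  classical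
  refine le_trans ?_ (h j)
  norm_cast
  refine card_le_card ?_
  intro n hn
  rw [mem_filter] at hn ⊢
  exact ⟨hn.1, fun h1 => hn.2 (by change φ (X (n + 1)) = φ (X n); rw [h1])⟩

/-- transfer along a map, with a factor -/
theorem sm_of {α β : Type} {ev : β → ℕ → ℂ} {P : ℕ → ℝ → ℕ → β → Prop} (h : Sm ev P) (φ : α → β)
    (c : ℂ) {P' : ℕ → ℝ → ℕ → α → Prop} (hP : ∀ H A m x, 1 ≤ H → P' H A m x → P H A m (φ x)) :
    Sm (fun x m => c * ev (φ x) m) P' := by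
  intro A ε hA hε
  have hc : 0 < ‖c‖ + 1 := by positivity
  obtain ⟨B, H₀, hB, hm⟩ := h A (ε / (‖c‖ + 1)) hA (by positivity)
  refine ⟨B, H₀ + 1, hB, fun H hH xa xb hxa hxb X hX hPX => ?_⟩
  have h1 := hm H (by omega) xa xb hxa hxb (fun n => φ (X n)) (slow_map φ hX)
    (fun m hm1 => hP H A m _ (by omega) (hPX m hm1))
  have h0 : 0 ≤ ∑ n ∈ Ioc ⌊xa⌋₊ ⌊xb⌋₊, (1 / (n : ℝ)) * Wg H n (ev (φ (X n))) :=
    sum_nonneg fun n _ => mul_nonneg (by positivity) (wg_nonneg _ _ _)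
  have h2 : ∑ n ∈ Ioc ⌊xa⌋₊ ⌊xb⌋₊, (1 / (n : ℝ)) * Wg H n (fun m => c * ev (φ (X n)) m) =
      ‖c‖ * ∑ n ∈ Ioc ⌊xa⌋₊ ⌊xb⌋₊, (1 / (n : ℝ)) * Wg H n (ev (φ (X n))) := by
    rw [mul_sum]
    refine sum_congr rfl fun n _ => ?_
    rw [wg_mul]
    ring
  rw [h2]
  calc ‖c‖ * ∑ n ∈ Ioc ⌊xa⌋₊ ⌊xb⌋₊, (1 / (n : ℝ)) * Wg H n (ev (φ (X n)))
      ≤ (‖c‖ + 1) * ∑ n ∈ Ioc ⌊xa⌋₊ ⌊xb⌋₊, (1 / (n : ℝ)) * Wg H n (ev (φ (X n))) :=
        mul_le_mul_of_nonneg_right (by linarith) h0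
    _ ≤ (‖c‖ + 1) * (ε / (‖c‖ + 1) * (Real.log xb - Real.log xa)) :=
        mul_le_mul_of_nonneg_left h1 hc.le
    _ = ε * (Real.log xb - Real.log xa) := by
        rw [← mul_assoc, mul_div_cancel₀ _ hc.ne']

/-- CELL for a finite type of types -/
theorem cellF {α : Type} {ev : α → ℕ → ℂ} {P : ℕ → ℝ → ℕ → α → Prop}
    (hyp : ∀ A ε : ℝ, 0 ≤ A → 0 < ε → ∃ (ι : Type) (_ : Fintype ι) (β : Type)
      (ev' : ι → β → ℕ → ℂ) (P' : ι → ℕ → ℝ → ℕ → β → Prop) (A₁ : ℝ) (H₁ : ℕ), A ≤ A₁ ∧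
      (∀ j, Sm (ev' j) (P' j)) ∧ (∃ y : β, ∀ j H A m, P' j H A m y) ∧
      ∀ (H m₀ : ℕ) (x : α), H₁ ≤ H → (H : ℝ) ^ (A₁ + 3) ≤ m₀ → P H A m₀ x →
      ∃ y : ι → β, ∀ m : ℕ, m₀ ≤ m → (m : ℝ) ≤ m₀ + m₀ / (H : ℝ) ^ A₁ →
        ‖ev x m - ∑ j, ev' j (y j) m‖ ≤ ε ∧ ∀ j, P' j H (A₁ + 2) m (y j)) :
    Sm ev P := by
  refine cell fun A ε hA hε => ?_
  obtain ⟨ι, hι, β, ev', P', A₁, H₁, h1, h2, ⟨y₀, hy₀⟩, h3⟩ := hyp A ε hA hε
  let e := Fintype.equivFin ι
  refine ⟨Fintype.card ι, β, fun j => ev' (e.symm j), fun j => P' (e.symm j), A₁, H₁, h1,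
    fun j => h2 _, fun j => ⟨y₀, fun H A m => hy₀ _ H A m⟩, ?_⟩
  intro H m₀ x hH hm₀ hP
  obtain ⟨y, hy⟩ := h3 H m₀ x hH hm₀ hP
  refine ⟨fun j => y (e.symm j), fun m hm hm' => ?_⟩
  obtain ⟨h4, h5⟩ := hy m hm hm'
  refine ⟨?_, fun j => h5 _⟩
  have h6 : ∑ j, ev' (e.symm j) (y (e.symm j)) m = ∑ j, ev' j (y j) m :=
    Equiv.sum_comp e.symm (fun j => ev' j (y j) m)
  rw [h6]
  exact h4

variable {U : Type} [Amb U]

theorem fn_smul {G M : Subgroup U} {F : U → ℂ} (h : Fn G M F) (c : ℂ) :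
    Fn G M (fun x => c * F x) := by
  obtain ⟨⟨B, hB⟩, huc, hlat, hinv⟩ := h
  refine ⟨⟨‖c‖ * B, fun x hx => ?_⟩, fun ε hε => ?_, fun x hx γ hγ hγG => ?_, fun m hm x hx => ?_⟩
  · rw [norm_mul]
    exact mul_le_mul_of_nonneg_left (hB x hx) (norm_nonneg _)
  · obtain ⟨ρ, hρ, h1⟩ := huc (ε / (‖c‖ + 1)) (by positivity)
    refine ⟨ρ, hρ, fun k hk hkn x hx => ?_⟩
    have h2 := h1 k hk hkn x hx
    rw [← mul_sub, norm_mul]
    rw [le_div_iff₀ (by positivity)] at h2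
    nlinarith [norm_nonneg (F (k * x) - F x), norm_nonneg c]
  · change c * F (x * γ) = c * F x
    rw [hlat x hx γ hγ hγG]
  · change c * F (m * x) = c * F x
    rw [hinv m hm x hx]

theorem vrt_smul {G : Subgroup U} {F : U → ℂ} {z : U} {k : ℤ} (h : Vrt G F z k) (c : ℂ) :
    Vrt G (fun x => c * F x) z k := by
  intro t x hx
  change c * F (pw t z * x) = ee (k * t) * (c * F x)
  rw [h t x hx]
  ring

theorem adj_top {G : Subgroup U} {z : U} (h : ∀ t : ℝ, pw t z ∈ G) : adj G z = G := by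
  apply le_antisymm
  · rw [adj, Subgroup.closure_le]
    rintro x ⟨g, hg, t, rfl⟩
    exact G.mul_mem hg (h t)
  · intro x hx
    refine Subgroup.subset_closure ⟨x, hx, 0, ?_⟩
    have h1 : pw (0 : ℝ) z = 1 := by
      have h2 := pw_add 0 0 z
      rw [add_zero] at h2
      exact left_eq_mul.1 h2
    rw [h1, mul_one]

theorem le_adj (G : Subgroup U) (z : U) : G ≤ adj G z := by
  intro x hx
  refine Subgroup.subset_closure ⟨x, hx, 0, ?_⟩
  have h1 : pw (0 : ℝ) z = 1 := by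
    have h2 := pw_add 0 0 z
    rw [add_zero] at h2
    exact left_eq_mul.1 h2
  rw [h1, mul_one]

end SPLITx

open SPLITx in
/-- **row SPLIT** -/
theorem split : SPLIT_stmt := by
  intro _ _ hPLM hFOU U _ Gf d N z hF hN hz hV hNS F hFn q Q E hq hQ hqQ hE
  classical
  have hq0 : NeZero q := ⟨by omega⟩
  have hMG : Gf (d + 1) ≤ Gf 0 := antitone_nat_of_succ_le hF.anti (Nat.zero_le _)
  have hnrm : Nrm (Gf 0) (Gf (d + 1)) := by
    intro x hx y hy
    have h1 := hF.com 0 (d + 1) x hx y hy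
    rw [zero_add] at h1
    have h2 := (Gf (d + 1)).mul_mem h1 hy
    rwa [inv_mul_cancel_right] at h2
  obtain ⟨hf1, hf2, -, hf4⟩ := hFOU U (Gf 0) (Gf (d + 1)) z F (hF.rat 0) (hF.rat (d + 1)) hMG hnrm
    hz hFn
  have hzt : ∀ t : ℝ, pw t z ∈ Gf 0 := fun t => (hF.rat 0).pwc z hz.mem t
  refine cellF fun A ε hA hε => ?_
  obtain ⟨K, c, hc, -, hap⟩ := hf4 ε hε
  -- the property at the lower level
  let P' : ℕ → ℝ → ℕ → Dat Gf q → Prop := fun H A m x =>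
    x.A.Subsingleton ∧ x.PLs Q N E m ⌊(m : ℝ) / (H : ℝ) ^ A⌋₊ H
  refine ⟨(Icc (-(K : ℤ)) K : Finset ℤ) × ZMod q, inferInstance, Dat Gf q,
    fun j x m => (c (j.1 : ℤ) : ℂ) * Dat.ev (fz z (j.1 : ℤ) F) x m, fun _ => P', A + 1, 3,
    by linarith, ?_, ⟨Dat.nul, fun _ H A m => ⟨Set.subsingleton_empty, fun a ha => ha.elim⟩⟩, ?_⟩
  · rintro ⟨⟨k, hk⟩, a⟩
    change Sm (fun x m => (c k : ℂ) * Dat.ev (fz z k F) x m) P'
    by_cases hk0 : k = 0
    · subst hk0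
      -- the group modulo `z`
      have h1 : Fn (af Gf z 0) (af Gf z (d + 1)) (fz z 0 F) := by
        have e1 : af Gf z 0 = Gf 0 := adj_top hzt
        rw [e1]
        exact hf2
      have h2 := hNS (fz z 0 F) h1 q Q E hq hQ hqQ hE
      have hle : ∀ i, Gf i ≤ af Gf z i := fun i => le_adj _ _
      let φ : Dat Gf q → Dat (af Gf z) q := fun x => ⟨x.g, fun l n => hle _ (x.ps l n), x.A⟩
      refine sm_of (ev := Dat.ev (fz z 0 F)) h2 φ (c 0 : ℂ) ?_
      intro H A m x hH hx b hb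
      exact hPLM U Gf (af Gf z) N N b b q q Q Q E E m _ H m _ H x.g hle le_rfl dvd_rfl hQ dvd_rfl
        (Int.ModEq.refl _) hE le_rfl le_rfl le_rfl hH le_rfl (hx.2 b hb)
    · obtain ⟨B, hB⟩ := (hf1 k).1.bd
      set B' : ℝ := max B 1 with hB'
      have hB'0 : 0 < B' := lt_of_lt_of_le one_pos (le_max_right _ _)
      have h1 := hV (fun x => ((1 / B' : ℝ) : ℂ) * fz z k F x) k (fn_smul (hf1 k).1 _) (by
        intro x hx
        rw [norm_mul, Complex.norm_real, Real.norm_eq_abs, abs_of_pos (by positivity),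
          one_div, inv_mul_le_iff₀ hB'0, mul_one]
        exact (hB x hx).trans (le_max_left _ _)) hk0 (vrt_smul (hf1 k).2 _) q Q E hq hQ hqQ hE
      have h2 := sm_of (ev := Dat.ev (fun x => ((1 / B' : ℝ) : ℂ) * fz z k F x)) h1
        (fun x : Dat Gf q => x) ((c k : ℂ) * (B' : ℂ)) (P' := P') (fun H A m x _ hx => hx)
      convert h2 using 3 with x m
      unfold Dat.ev
      split_ifs
      · have h3 : (B' : ℂ) ≠ 0 := by exact_mod_cast hB'0.ne'
        push_cast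
        field_simp
      · rw [mul_zero, mul_zero]
  · intro H m₀ x hH hm₀ hx
    have hH3 : (3 : ℝ) ≤ H := by exact_mod_cast hH
    have hH1 : (1 : ℝ) ≤ H := by linarith
    have hH0 : (0 : ℝ) < H := by linarith
    refine ⟨fun j => ⟨x.g, x.ps, {j.2} ∩ x.A⟩, ?_⟩
    intro m hm hm'
    constructor
    · -- the sum
      have h1 : ∑ j : (Icc (-(K : ℤ)) K : Finset ℤ) × ZMod q, (c (j.1 : ℤ) : ℂ) *
          Dat.ev (fz z (j.1 : ℤ) F) (⟨x.g, x.ps, {j.2} ∩ x.A⟩ : Dat Gf q) m =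
          if (m : ZMod q) ∈ x.A then
            ∑ k ∈ Icc (-(K : ℤ)) K, (c k : ℂ) * fz z k F (x.g m) else 0 := by
        rw [Fintype.sum_prod_type]
        have h2 : ∀ k : (Icc (-(K : ℤ)) K : Finset ℤ), ∑ a : ZMod q, (c (k : ℤ) : ℂ) *
            Dat.ev (fz z (k : ℤ) F) (⟨x.g, x.ps, {a} ∩ x.A⟩ : Dat Gf q) m =
            if (m : ZMod q) ∈ x.A then (c (k : ℤ) : ℂ) * fz z (k : ℤ) F (x.g m) else 0 := by
          intro k
          rw [Finset.sum_eq_single (m : ZMod q)]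
          · unfold Dat.ev
            by_cases h3 : (m : ZMod q) ∈ x.A
            · rw [if_pos h3, if_pos ⟨rfl, h3⟩]
            · rw [if_neg h3, if_neg fun h4 => h3 h4.2, mul_zero]
          · intro b _ hb
            unfold Dat.ev
            rw [if_neg fun h4 => hb h4.1.symm, mul_zero]
          · intro h3
            exact absurd (mem_univ _) h3
        rw [Finset.sum_congr rfl fun k _ => h2 k]
        by_cases h3 : (m : ZMod q) ∈ x.A
        · simp only [if_pos h3]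
          exact Finset.sum_coe_sort (Icc (-(K : ℤ)) K) (fun k => (c k : ℂ) * fz z k F (x.g m))
        · simp only [if_neg h3, sum_const_zero]
      rw [h1]
      unfold Dat.ev
      split_ifs with h3
      · exact hap _ (x.ps [] (m : ℤ))
      · simpa using hε.le
    · intro j
      refine ⟨Set.subsingleton_singleton.anti Set.inter_subset_left, fun a ha => ?_⟩
      have h1 := hx a ha.2
      refine hPLM U Gf Gf N N a a q q Q Q E E m₀ _ H m _ H x.g (fun _ => le_rfl) le_rfl dvd_rfl hQ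
        dvd_rfl (Int.ModEq.refl _) hE le_rfl hm ?_ (by omega) le_rfl h1
      -- the cells
      have hm0 : (0 : ℝ) ≤ m₀ := Nat.cast_nonneg _
      have hpA : 1 ≤ (H : ℝ) ^ A := Real.one_le_rpow hH1 hA
      have e1 : (H : ℝ) ^ (A + 1) = (H : ℝ) ^ A * H := by
        rw [Real.rpow_add hH0, Real.rpow_one]
      have e3 : (H : ℝ) ^ (A + 1 + 2) = (H : ℝ) ^ A * (H * H ^ 2) := by
        rw [show A + 1 + 2 = A + (3 : ℕ) by push_cast; ring, Real.rpow_add hH0, Real.rpow_natCast]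
        ring
      have e4 : (H : ℝ) ^ (A + 1 + 3) = (H : ℝ) ^ A * (H * H ^ 3) := by
        rw [show A + 1 + 3 = A + (4 : ℕ) by push_cast; ring, Real.rpow_add hH0, Real.rpow_natCast]
        ring
      set D : ℝ := m₀ / (H : ℝ) ^ A with hD
      have hD0 : 0 ≤ D := by positivity
      have hm1 : (m : ℝ) ≤ m₀ + D / H := by
        rw [e1] at hm'
        have : (m₀ : ℝ) / ((H : ℝ) ^ A * H) = D / H := by
          rw [hD, div_div]
        rw [← this]
        exact hm'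
      have hDbig : H * H ^ 3 ≤ D := by
        rw [hD, le_div_iff₀ (by positivity)]
        rw [e4] at hm₀
        linarith
      have hDm : D ≤ m₀ := by
        rw [hD, div_le_iff₀ (by positivity)]
        nlinarith
      have h3 : (m : ℝ) ≤ 2 * m₀ := by
        have : D / H ≤ D := div_le_self hD0 hH1
        linarith
      have h4 : (⌊(m : ℝ) / (H : ℝ) ^ (A + 1 + 2)⌋₊ : ℝ) ≤ 2 * D / (H * H ^ 2) := by
        refine (Nat.floor_le (by positivity)).trans ?_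
        rw [e3, ← div_div]
        gcongr
        rw [hD, div_le_iff₀ (by positivity)]
        rw [show 2 * ((m₀ : ℝ) / (H : ℝ) ^ A) * (H : ℝ) ^ A = 2 * m₀ by field_simp]
        exact h3
      have h5 : D - 1 ≤ (⌊D⌋₊ : ℝ) := (Nat.sub_one_lt_floor D).le
      have h6 : D / H + 2 * D / (H * H ^ 2) ≤ D - 1 := by
        have h7 : D / H ≤ D / 3 := div_le_div_of_nonneg_left hD0 (by norm_num) hH3
        have h8 : 2 * D / (H * H ^ 2) ≤ 2 * D / 27 := by
          refine div_le_div_of_nonneg_left (by positivity) (by norm_num) ?_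
          nlinarith
        have h9 : (81 : ℝ) ≤ D := by
          refine le_trans ?_ hDbig
          have : (27 : ℝ) ≤ H ^ 3 := by
            calc (27 : ℝ) = 3 ^ 3 := by norm_num
              _ ≤ H ^ 3 := pow_le_pow_left₀ (by norm_num) hH3 3
          nlinarith
        linarith
      have h7 : (m : ℝ) + (⌊(m : ℝ) / (H : ℝ) ^ (A + 1 + 2)⌋₊ : ℝ) ≤ m₀ + (⌊D⌋₊ : ℝ) := by
        linarith
      exact_mod_cast h7

end

end Pool.Agent.NG
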