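import Mathlib
import Pool.Agent.Lib.NG.ARows
import Pool.Agent.Lib.NG.CLS

/-!
# NVG2 (MP_663568_nt), row PRR: products and projections of rational subgroups  (helper52)
-/

set_option autoImplicit false
open Finset Topology

namespace Pool.Agent.NG

noncomputable section

open Amb Pool.Agent.Lib.MP_663568_nt Pool.Agent.Lib.MP_663568_nt.Katai

theorem rat_prod {U V : Type} [Amb U] [Amb V] {H : Subgroup U} {H' : Subgroup V} (h : Rat H)
    (h' : Rat H') : Rat (H.prod H') where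
  pwc := by
    intro x hx t
    rw [Subgroup.mem_prod] at hx ⊢
    exact ⟨h.pwc _ hx.1 t, h'.pwc _ hx.2 t⟩
  cl := by
    have e : ((H.prod H' : Subgroup (U × V)) : Set (U × V)) = (H : Set U) ×ˢ (H' : Set V) := by
      ext x
      simp [Subgroup.mem_prod]
    rw [e]
    exact h.cl.prod h'.cl
  coc := by
    obtain ⟨K, hK, hKH, hc⟩ := h.coc
    obtain ⟨K', hK', hKH', hc'⟩ := h'.coc
    refine ⟨K ×ˢ K', hK.prod hK', ?_, ?_⟩
    · rintro ⟨x, y⟩ ⟨hx, hy⟩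
      exact Subgroup.mem_prod.mpr ⟨hKH hx, hKH' hy⟩
    · rintro ⟨x, y⟩ hx
      rw [Subgroup.mem_prod] at hx
      obtain ⟨k, hk, γ, hγ, hγH, e⟩ := hc x hx.1
      obtain ⟨k', hk', γ', hγ', hγH', e'⟩ := hc' y hx.2
      exact ⟨(k, k'), ⟨hk, hk'⟩, (γ, γ'), Subgroup.mem_prod.mpr ⟨hγ, hγ'⟩,
        Subgroup.mem_prod.mpr ⟨hγH, hγH'⟩, Prod.ext e e'⟩

/-- Projections, both at once: `p` is a continuous homomorphism which commutes with real powers and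
maps the lattice into the lattice. -/
theorem rat_map {W U : Type} [Amb W] [Amb U] (hcls : CLS_stmt) (p : W →* U) (hpc : Continuous p)
    (hpw : ∀ (t : ℝ) (x : W), p (pw t x) = pw t (p x))
    (hpl : ∀ x ∈ (La : Subgroup W), p x ∈ (La : Subgroup U)) {J : Subgroup W} (h : Rat J) :
    Rat (J.map p) := by
  obtain ⟨K, hK, hKJ, hc⟩ := h.coc
  have e : ((J.map p : Subgroup U) : Set U)
      = {x | ∃ k ∈ p '' K, ∃ s ∈ p '' {γ | γ ∈ (La : Subgroup W) ∧ γ ∈ J}, x = k * s} := by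
    ext x
    constructor
    · rintro ⟨y, hy, rfl⟩
      obtain ⟨k, hk, γ, hγ, hγJ, e⟩ := hc y hy
      exact ⟨p k, ⟨k, hk, rfl⟩, p γ, ⟨γ, ⟨hγ, hγJ⟩, rfl⟩, by rw [e, map_mul]⟩
    · rintro ⟨_, ⟨k, hk, rfl⟩, _, ⟨γ, ⟨_, hγJ⟩, rfl⟩, rfl⟩
      exact ⟨k * γ, J.mul_mem (hKJ hk) hγJ, map_mul p k γ⟩
  refine ⟨?_, ?_, ?_⟩
  · rintro _ ⟨y, hy, rfl⟩ t
    exact ⟨pw t y, h.pwc y hy t, hpw t y⟩
  · rw [e]
    apply (hcls U).2 _ _ (hK.image hpc)
    rintro _ ⟨γ, ⟨hγ, _⟩, rfl⟩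
    exact hpl γ hγ
  · refine ⟨p '' K, hK.image hpc, ?_, ?_⟩
    · rintro _ ⟨k, hk, rfl⟩
      exact ⟨k, hKJ hk, rfl⟩
    · rintro _ ⟨y, hy, rfl⟩
      obtain ⟨k, hk, γ, hγ, hγJ, e⟩ := hc y hy
      exact ⟨p k, ⟨k, hk, rfl⟩, p γ, hpl γ hγ, ⟨γ, hγJ, rfl⟩, by rw [e, map_mul]⟩

theorem prr_of (hcls : CLS_stmt) : PRR_stmt := by
  intro U V _ _
  refine ⟨fun H H' h h' => rat_prod h h', fun J hJ => ⟨?_, ?_⟩⟩
  · exact rat_map hcls (MonoidHom.fst U V) continuous_fst (fun t x => rfl)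
      (fun x hx => (Subgroup.mem_prod.mp hx).1) hJ
  · exact rat_map hcls (MonoidHom.snd U V) continuous_snd (fun t x => rfl)
      (fun x hx => (Subgroup.mem_prod.mp hx).2) hJ

/-- Row PRR. -/
theorem prr : PRR_stmt := prr_of cls

end

end Pool.Agent.NG
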