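import Mathlib
import Pool.Agent.Lib.NG.C
import Pool.Agent.Lib.NG.PRR
import Pool.Agent.Lib.NG.FNC
import Pool.Agent.Lib.NG.LBN
import Pool.Agent.Lib.NG.KER

/-!
# NVG2 (MP_663568_nt), row TWO: two systems (section 5)

Induction on the rank of the normal rational subgroup `J` of `G × G`: if the first projection of `J`
is `N`, then `(z, 1) ∈ J` and Lemma LJ gives a character of `G × G` or a smaller `J`.
(helper19)
-/

set_option autoImplicit false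
open Finset Topology

namespace Pool.Agent.NG

noncomputable section

open Amb Pool.Agent.Lib.MP_663568_nt Pool.Agent.Lib.MP_663568_nt.Katai

namespace Two

variable {U : Type} [Amb U]

/-- The filtration of `G × G`. -/
def Gh (Gf : ℕ → Subgroup U) (i : ℕ) : Subgroup (U × U) := (Gf i).prod (Gf i)

theorem filt {Gf : ℕ → Subgroup U} {d : ℕ} (hF : Filt Gf d) : Filt (Gh Gf) d :=
  fip_of prr U U Gf Gf d hF hF

theorem cen {G M : Subgroup U} {z : U} (hz : Cen G M z) :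
    Cen (G.prod G) (M.prod M) ((z, 1) : U × U) where
  la := Subgroup.mem_prod.2 ⟨hz.la, Subgroup.one_mem _⟩
  mem := Subgroup.mem_prod.2 ⟨hz.mem, Subgroup.one_mem _⟩
  cen := by
    intro g hg t
    have hg := Subgroup.mem_prod.1 hg
    refine Subgroup.mem_prod.2 ⟨hz.cen g.1 hg.1 t, ?_⟩
    show g.2 * pw t (1 : U) * g.2⁻¹ * (pw t (1 : U))⁻¹ ∈ M
    rw [pw_id]
    simp
  ne := fun h => hz.ne (Subgroup.mem_prod.1 h).1

theorem nor_prod {Gf : ℕ → Subgroup U} {d : ℕ} {N : Subgroup U} (hN : Nor Gf d N) :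
    Nor (Gh Gf) d (N.prod N) where
  rat := rat_prod hN.rat hN.rat
  le := fun x hx => Subgroup.mem_prod.2
    ⟨hN.le (Subgroup.mem_prod.1 hx).1, hN.le (Subgroup.mem_prod.1 hx).2⟩
  ge := fun x hx => Subgroup.mem_prod.2
    ⟨hN.ge (Subgroup.mem_prod.1 hx).1, hN.ge (Subgroup.mem_prod.1 hx).2⟩
  nrm := fun x hx y hy => Subgroup.mem_prod.2
    ⟨hN.nrm _ (Subgroup.mem_prod.1 hx).1 _ (Subgroup.mem_prod.1 hy).1,
      hN.nrm _ (Subgroup.mem_prod.1 hx).2 _ (Subgroup.mem_prod.1 hy).2⟩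

theorem nor_fst {Gf : ℕ → Subgroup U} {d : ℕ} {J : Subgroup (U × U)} (hJ : Nor (Gh Gf) d J) :
    Nor Gf d (J.map (MonoidHom.fst U U)) where
  rat := ((prr U U).2 J hJ.rat).1
  le := by
    rintro _ ⟨x, hx, rfl⟩
    exact (Subgroup.mem_prod.1 (hJ.le hx)).1
  ge := by
    intro m hm
    exact ⟨(m, 1), hJ.ge (Subgroup.mem_prod.2 ⟨hm, Subgroup.one_mem _⟩), rfl⟩
  nrm := by
    rintro x hx _ ⟨y, hy, rfl⟩
    exact ⟨(x, 1) * y * (x, 1)⁻¹,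
      hJ.nrm _ (Subgroup.mem_prod.2 ⟨hx, Subgroup.one_mem _⟩) _ hy, rfl⟩

theorem nor_ker {V : Type} [Amb V] {Gf : ℕ → Subgroup V} {d : ℕ} {J : Subgroup V} {η : V → ℝ}
    (hJ : Nor Gf d J) (hη : Chr (Gf 0) J (Gf (d + 1)) η) : Nor Gf d (kerS J η) where
  rat := (ker_row V J η hJ.rat hη.mul hη.int hη.cont).2
  le := fun x hx => hJ.le ((mem_kerS hη.mul x).1 hx).1
  ge := fun x hx => (mem_kerS hη.mul x).2 ⟨hJ.ge hx, hη.van x hx⟩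
  nrm := fun x hx y hy => (mem_kerS hη.mul _).2
    ⟨hJ.nrm x hx y ((mem_kerS hη.mul y).1 hy).1, by
      rw [hη.inv x hx y ((mem_kerS hη.mul y).1 hy).1]
      exact ((mem_kerS hη.mul y).1 hy).2⟩

theorem ker_lt {V : Type} [Amb V] {Gf : ℕ → Subgroup V} {d : ℕ} {J : Subgroup V} {η : V → ℝ}
    (hη : Chr (Gf 0) J (Gf (d + 1)) η) : kerS J η < J := by
  refine lt_of_le_of_ne (fun x hx => ((mem_kerS hη.mul x).1 hx).1) ?_
  intro h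
  obtain ⟨x, hx, hne⟩ := hη.ne
  have h1 : x ∈ kerS J η := by rw [h]; exact hx
  exact hne ((mem_kerS hη.mul x).1 h1).2

theorem pl_fst {Gf : ℕ → Subgroup U} {J : Subgroup (U × U)} {a : ℤ} {q Q : ℕ} {E : ℝ}
    {m₀ L l : ℕ} {g g' : ℤ → U} (h : PL (Gh Gf) J a q Q E m₀ L l fun m => (g m, g' m)) :
    PL Gf (J.map (MonoidHom.fst U U)) a q Q E m₀ L l g := by
  obtain ⟨n, hn, h0, h1⟩ := h
  refine ⟨fun x => (n x).1, ?_, ?_, ?_⟩
  · have h2 := ((lbn (U × U) (Fin 2 → ℤ) (Gh Gf) 0 n).2.1 J).1 hn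
    have h3 := ((lbn U (Fin 2 → ℤ) Gf 0 (fun x => (n x).1)).2.2 U Gf (fun x => (n x).2)).1 h2.1
    exact ((lbn U (Fin 2 → ℤ) Gf 0 (fun x => (n x).1)).2.1 _).2 ⟨h3.1, fun x => ⟨n x, h2.2 x, rfl⟩⟩
  · intro m
    show (n ![m, 0]).1 = 1
    rw [h0]
    rfl
  · intro m h c1 c2 c3 c4 c5
    obtain ⟨k, hk, hkn, γ, hγ, hγG, e⟩ := h1 m h c1 c2 c3 c4 c5
    exact ⟨k.1, (Subgroup.mem_prod.1 hk).1, (le_max_left _ _).trans hkn, γ.1,
      (Subgroup.mem_prod.1 hγ).1, (Subgroup.mem_prod.1 hγG).1, congrArg Prod.fst e⟩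

theorem pl_prod {Gf : ℕ → Subgroup U} {N : Subgroup U} {a : ℤ} {q Q : ℕ} {E : ℝ}
    {m₀ L l : ℕ} {g g' : ℤ → U} (h : PL Gf N a q Q E m₀ L l g) (h' : PL Gf N a q Q E m₀ L l g') :
    PL (Gh Gf) (N.prod N) a q Q E m₀ L l fun m => (g m, g' m) := by
  obtain ⟨n, hn, h0, h1⟩ := h
  obtain ⟨n', hn', h0', h1'⟩ := h'
  refine ⟨fun x => (n x, n' x), ?_, ?_, ?_⟩
  · have h2 := ((lbn U (Fin 2 → ℤ) Gf 0 n).2.1 N).1 hn
    have h2' := ((lbn U (Fin 2 → ℤ) Gf 0 n').2.1 N).1 hn'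
    have h3 := ((lbn U (Fin 2 → ℤ) Gf 0 n).2.2 U Gf n').2 ⟨h2.1, h2'.1⟩
    exact ((lbn (U × U) (Fin 2 → ℤ) (Gh Gf) 0 (fun x => (n x, n' x))).2.1 _).2
      ⟨h3, fun x => Subgroup.mem_prod.2 ⟨h2.2 x, h2'.2 x⟩⟩
  · intro m
    show (n ![m, 0], n' ![m, 0]) = (1, 1)
    rw [h0, h0']
  · intro m h c1 c2 c3 c4 c5
    obtain ⟨k, hk, hkn, γ, hγ, hγG, e⟩ := h1 m h c1 c2 c3 c4 c5
    obtain ⟨k', hk', hkn', γ', hγ', hγG', e'⟩ := h1' m h c1 c2 c3 c4 c5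
    exact ⟨(k, k'), Subgroup.mem_prod.2 ⟨hk, hk'⟩, max_le hkn hkn', (γ, γ'),
      Subgroup.mem_prod.2 ⟨hγ, hγ'⟩, Subgroup.mem_prod.2 ⟨hγG, hγG'⟩, Prod.ext e e'⟩

theorem z_mem {Gf : ℕ → Subgroup U} {d : ℕ} {J : Subgroup (U × U)} {N : Subgroup U}
    {z g₀ v₀ : U} (hJ : Nor (Gh Gf) d J) (hc : CC Gf d N z g₀ v₀)
    (h : J.map (MonoidHom.fst U U) = N) : ((z, 1) : U × U) ∈ J := by
  have hv : v₀ ∈ J.map (MonoidHom.fst U U) := by rw [h]; exact hc.v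
  obtain ⟨p, hp, hpv⟩ := hv
  have hpv : p.1 = v₀ := hpv
  have h1 := hJ.nrm (g₀, 1) (Subgroup.mem_prod.2 ⟨hc.g, Subgroup.one_mem _⟩) p hp
  have h2 := J.mul_mem h1 (J.inv_mem hp)
  have h3 := hc.eq 1
  rw [Amb.pw_one, Amb.pw_one] at h3
  have h4 : ((z⁻¹ * (g₀ * v₀ * g₀⁻¹ * v₀⁻¹), 1) : U × U) ∈ J :=
    hJ.ge (Subgroup.mem_prod.2 ⟨h3, Subgroup.one_mem _⟩)
  have h5 := J.mul_mem h2 (J.inv_mem h4)
  have e : ((z, 1) : U × U) = (g₀, 1) * p * (g₀, 1)⁻¹ * p⁻¹ *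
      ((z⁻¹ * (g₀ * v₀ * g₀⁻¹ * v₀⁻¹), 1) : U × U)⁻¹ := by
    apply Prod.ext
    · show z = g₀ * p.1 * g₀⁻¹ * p.1⁻¹ * (z⁻¹ * (g₀ * v₀ * g₀⁻¹ * v₀⁻¹))⁻¹
      rw [hpv]
      group
    · show (1 : U) = 1 * p.2 * (1 : U)⁻¹ * p.2⁻¹ * (1 : U)⁻¹
      group
  rw [e]
  exact h5

/-! ### Characters of `G × G` -/

open Classical in
/-- The function `f`, replaced by zero if it vanishes on `G`. -/
def cz (G : Subgroup U) (f : U → ℝ) : U → ℝ := fun x => if ∀ y ∈ G, f y = 0 then 0 else f x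

theorem cz_eq {G : Subgroup U} {f : U → ℝ} {x : U} (hx : x ∈ G) : cz G f x = f x := by
  unfold cz
  split_ifs with h
  · exact (h x hx).symm
  · rfl

theorem chr0_cz {Gf : ℕ → Subgroup U} {d : ℕ} {f : U → ℝ}
    (h : (¬ ∀ y ∈ Gf 0, f y = 0) → Chr (Gf 0) (Gf 0) (Gf (d + 1)) f) : Chr0 Gf d (cz (Gf 0) f) := by
  by_cases h0 : ∀ y ∈ Gf 0, f y = 0
  · left
    intro x
    unfold cz
    rw [if_pos h0]
  · right
    have e : cz (Gf 0) f = f := by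
      funext x
      unfold cz
      rw [if_neg h0]
    rw [e]
    exact h h0

theorem chr_fst {Gf : ℕ → Subgroup U} {d : ℕ} {χ : U × U → ℝ}
    (h : Chr (Gh Gf 0) (Gh Gf 0) (Gh Gf (d + 1)) χ) : Chr0 Gf d (cz (Gf 0) fun x => χ (x, 1)) := by
  apply chr0_cz
  intro h0
  push Not at h0
  have hm : ∀ x ∈ Gf 0, ((x, 1) : U × U) ∈ Gh Gf 0 := fun x hx =>
    Subgroup.mem_prod.2 ⟨hx, Subgroup.one_mem _⟩
  refine ⟨?_, ?_, ?_, ?_, ?_, h0⟩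
  · intro x hx y hy
    rw [← h.mul _ (hm x hx) _ (hm y hy)]
    congr 1
    exact Prod.ext rfl (mul_one (1 : U)).symm
  · intro g hg x hx
    rw [← h.inv _ (hm g hg) _ (hm x hx)]
    congr 1
    apply Prod.ext
    · rfl
    · show (1 : U) = 1 * 1 * (1 : U)⁻¹
      group
  · intro γ hγ hγG
    exact h.int (γ, 1) (Subgroup.mem_prod.2 ⟨hγ, Subgroup.one_mem _⟩) (hm γ hγG)
  · intro x hx
    exact h.van (x, 1) (Subgroup.mem_prod.2 ⟨hx, Subgroup.one_mem _⟩)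
  · exact h.cont.comp (by fun_prop) fun x hx => hm x hx

theorem chr_snd {Gf : ℕ → Subgroup U} {d : ℕ} {χ : U × U → ℝ}
    (h : Chr (Gh Gf 0) (Gh Gf 0) (Gh Gf (d + 1)) χ) :
    Chr0 Gf d (cz (Gf 0) fun x => -χ (1, x)) := by
  apply chr0_cz
  intro h0
  push Not at h0
  have hm : ∀ x ∈ Gf 0, ((1, x) : U × U) ∈ Gh Gf 0 := fun x hx =>
    Subgroup.mem_prod.2 ⟨Subgroup.one_mem _, hx⟩
  refine ⟨?_, ?_, ?_, ?_, ?_, h0⟩
  · intro x hx y hy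
    have e : ((1, x * y) : U × U) = (1, x) * (1, y) := Prod.ext (mul_one (1 : U)).symm rfl
    show -χ (1, x * y) = -χ (1, x) + -χ (1, y)
    rw [e, h.mul _ (hm x hx) _ (hm y hy)]
    ring
  · intro g hg x hx
    have e : ((1, g * x * g⁻¹) : U × U) = (1, g) * (1, x) * (1, g)⁻¹ := by
      apply Prod.ext
      · show (1 : U) = 1 * 1 * (1 : U)⁻¹
        group
      · rfl
    show -χ (1, g * x * g⁻¹) = -χ (1, x)
    rw [e, h.inv _ (hm g hg) _ (hm x hx)]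
  · intro γ hγ hγG
    obtain ⟨j, hj⟩ := h.int (1, γ) (Subgroup.mem_prod.2 ⟨Subgroup.one_mem _, hγ⟩) (hm γ hγG)
    exact ⟨-j, by rw [hj]; push_cast; rfl⟩
  · intro x hx
    show -χ (1, x) = 0
    rw [h.van (1, x) (Subgroup.mem_prod.2 ⟨Subgroup.one_mem _, hx⟩), neg_zero]
  · exact (h.cont.comp (by fun_prop) fun x hx => hm x hx).neg

/-- The two components of a function on `G × G`. -/
def cp (G : Subgroup U) (χ : U × U → ℝ) : (U → ℝ) × (U → ℝ) :=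
  (cz G fun x => χ (x, 1), cz G fun x => -χ (1, x))

theorem cp_eq {Gf : ℕ → Subgroup U} {d : ℕ} {χ : U × U → ℝ}
    (h : Chr (Gh Gf 0) (Gh Gf 0) (Gh Gf (d + 1)) χ) {x y : U} (hx : x ∈ Gf 0) (hy : y ∈ Gf 0) :
    (cp (Gf 0) χ).1 x - (cp (Gf 0) χ).2 y = χ (x, y) := by
  show cz (Gf 0) (fun x => χ (x, 1)) x - cz (Gf 0) (fun x => -χ (1, x)) y = χ (x, y)
  rw [cz_eq hx, cz_eq hy, sub_neg_eq_add, ← h.mul _ (Subgroup.mem_prod.2 ⟨hx, Subgroup.one_mem _⟩) _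
    (Subgroup.mem_prod.2 ⟨Subgroup.one_mem _, hy⟩)]
  congr 1
  exact Prod.ext (mul_one x) (one_mul y)

theorem cp_ok {Gf : ℕ → Subgroup U} {d : ℕ} {χ : U × U → ℝ}
    (h : Chr (Gh Gf 0) (Gh Gf 0) (Gh Gf (d + 1)) χ) :
    Chr0 Gf d (cp (Gf 0) χ).1 ∧ Chr0 Gf d (cp (Gf 0) χ).2 ∧
      ((∃ x, (cp (Gf 0) χ).1 x ≠ 0) ∨ ∃ x, (cp (Gf 0) χ).2 x ≠ 0) := by
  refine ⟨chr_fst h, chr_snd h, ?_⟩
  obtain ⟨p, hp, hne⟩ := h.ne
  have hp := Subgroup.mem_prod.1 hp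
  by_contra hcon
  push Not at hcon
  apply hne
  have e := cp_eq h hp.1 hp.2
  rw [hcon.1, hcon.2, sub_zero] at e
  exact e.symm

/-! ### Monotonicity -/

theorem nr1_mono {d Q Q' m₀ L : ℕ} {E E' : ℝ} {P : ℤ → ℝ} (hQ : Q ∣ Q') (hQ' : 1 ≤ Q')
    (hE : E ≤ E') (h : Nr1 d E Q m₀ L P) : Nr1 d E' Q' m₀ L P := by
  obtain ⟨c, h1, h2⟩ := h
  refine ⟨c, h1, fun a ha => ?_⟩
  obtain ⟨j, hj⟩ := h2 a ha
  obtain ⟨s, rfl⟩ := hQ
  have hs : (s : ℝ) ≠ 0 := by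
    intro h0
    have h0 : s = 0 := by exact_mod_cast h0
    subst h0
    simp at hQ'
  refine ⟨j * s, ?_⟩
  have e : (((j * s : ℤ) : ℝ) / ((Q * s : ℕ) : ℝ)) = j / Q := by
    push_cast
    rw [mul_div_mul_right _ _ hs]
  rw [e]
  refine hj.trans (div_le_div_of_nonneg_right hE ?_)
  exact Finset.prod_nonneg fun i _ => pow_nonneg (Nat.cast_nonneg _) _

/-- The conclusion. -/
def TC (Gf : ℕ → Subgroup U) (d : ℕ) (X : List ((U → ℝ) × (U → ℝ))) (Y : List (Subgroup U))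
    (a : ℤ) (q Q' : ℕ) (E' : ℝ) (m₀ L l : ℕ) (g g' : ℤ → U) : Prop :=
  (∃ w ∈ X, Nr1 d E' Q' m₀ (2 * L) fun m => w.1 (g m) - w.2 (g' m)) ∨
    ∃ N₁ ∈ Y, PL Gf N₁ a q Q' E' m₀ (2 * L) l g ∨ PL Gf N₁ a q Q' E' m₀ (2 * L) l g'

/-- The properties of the constants. -/
structure Gd (Gf : ℕ → Subgroup U) (d : ℕ) (N : Subgroup U) (B : ℕ)
    (X : List ((U → ℝ) × (U → ℝ))) (Y : List (Subgroup U)) (Q' : ℕ) (E' : ℝ) : Prop where
  x : ∀ w ∈ X, Chr0 Gf d w.1 ∧ Chr0 Gf d w.2 ∧ ((∃ x, w.1 x ≠ 0) ∨ ∃ x, w.2 x ≠ 0)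
  y : ∀ N₁ ∈ Y, Nor Gf d N₁ ∧ N₁ < N
  q : 1 ≤ Q'
  e : 0 < E'
  dv : B ∣ Q'

theorem TC.mono (hM : PLM_stmt) {Gf : ℕ → Subgroup U} {d : ℕ} {X X' : List ((U → ℝ) × (U → ℝ))}
    {Y Y' : List (Subgroup U)} {a : ℤ} {q Q Q' : ℕ} {E E' : ℝ} {m₀ L l : ℕ} {g g' : ℤ → U}
    (hq : 1 ≤ q) (hX : ∀ w ∈ X, w ∈ X') (hY : ∀ w ∈ Y, w ∈ Y') (hQ : Q ∣ Q') (hQ' : 1 ≤ Q')
    (hE : 0 < E) (hE' : E ≤ E') (hl : 1 ≤ l) (h : TC Gf d X Y a q Q E m₀ L l g g') :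
    TC Gf d X' Y' a q Q' E' m₀ L l g g' := by
  have key : ∀ (N₁ : Subgroup U) (f : ℤ → U), PL Gf N₁ a q Q E m₀ (2 * L) l f →
      PL Gf N₁ a q Q' E' m₀ (2 * L) l f := fun N₁ f hf =>
    hM U Gf Gf N₁ N₁ a a q q Q Q' E E' m₀ (2 * L) l m₀ (2 * L) l f (fun i => le_rfl) le_rfl
      dvd_rfl hQ' hQ (Int.ModEq.refl a) hE hE' le_rfl le_rfl hl le_rfl hf
  rcases h with ⟨w, hw, h⟩ | ⟨N₁, hN₁, h⟩
  · exact Or.inl ⟨w, hX w hw, nr1_mono hQ hQ' hE' h⟩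
  · exact Or.inr ⟨N₁, hY N₁ hN₁, h.imp (key N₁ g) (key N₁ g')⟩

/-- Finitely many cases. -/
theorem uni (hM : PLM_stmt) {Gf : ℕ → Subgroup U} {d : ℕ} {N : Subgroup U} {q B : ℕ} (hq : 1 ≤ q)
    (hB : 1 ≤ B) {ι : Type} (R : ι → ℤ → ℕ → ℕ → ℕ → (ℤ → U) → (ℤ → U) → Prop) (T : List ι)
    (h : ∀ i ∈ T, ∃ (X : List ((U → ℝ) × (U → ℝ))) (Y : List (Subgroup U)) (Q' : ℕ) (E' : ℝ)
      (l₀ : ℕ), Gd Gf d N B X Y Q' E' ∧ ∀ (a : ℤ) (m₀ L l : ℕ) (g g' : ℤ → U), l₀ ≤ l →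
      R i a m₀ L l g g' → TC Gf d X Y a q Q' E' m₀ L l g g') :
    ∃ (X : List ((U → ℝ) × (U → ℝ))) (Y : List (Subgroup U)) (Q' : ℕ) (E' : ℝ)
      (l₀ : ℕ), Gd Gf d N B X Y Q' E' ∧ 1 ≤ l₀ ∧ ∀ i ∈ T, ∀ (a : ℤ) (m₀ L l : ℕ) (g g' : ℤ → U),
      l₀ ≤ l → R i a m₀ L l g g' → TC Gf d X Y a q Q' E' m₀ L l g g' := by
  induction T with
  | nil =>
    refine ⟨[], [], B, 1, 1, ⟨?_, ?_, hB, one_pos, dvd_rfl⟩, le_rfl, ?_⟩
    · intro w hw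
      exact absurd hw List.not_mem_nil
    · intro w hw
      exact absurd hw List.not_mem_nil
    · intro i hi
      exact absurd hi List.not_mem_nil
  | cons i T ih =>
    obtain ⟨X, Y, Q₁, E₁, l₁, hg1, hl1, h1⟩ := ih fun j hj => h j (List.mem_cons_of_mem i hj)
    obtain ⟨X', Y', Q₂, E₂, l₂, hg2, h2⟩ := h i List.mem_cons_self
    refine ⟨X ++ X', Y ++ Y', Q₁ * Q₂, E₁ + E₂, l₁ + l₂, ⟨?_, ?_, ?_, ?_, ?_⟩, ?_, ?_⟩
    · intro w hw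
      rcases List.mem_append.1 hw with hw | hw
      · exact hg1.x w hw
      · exact hg2.x w hw
    · intro w hw
      rcases List.mem_append.1 hw with hw | hw
      · exact hg1.y w hw
      · exact hg2.y w hw
    · exact Nat.mul_pos hg1.q hg2.q
    · exact add_pos hg1.e hg2.e
    · exact hg1.dv.mul_right _
    · omega
    · intro j hj a m₀ L l g g' hl hR
      rcases List.mem_cons.1 hj with rfl | hj
      · exact TC.mono hM hq (fun w hw => List.mem_append_right _ hw)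
          (fun w hw => List.mem_append_right _ hw) (Dvd.intro_left _ rfl)
          (Nat.mul_pos hg1.q hg2.q) hg2.e (by linarith [hg1.e]) (by omega)
          (h2 a m₀ L l g g' (by omega) hR)
      · exact TC.mono hM hq (fun w hw => List.mem_append_left _ hw)
          (fun w hw => List.mem_append_left _ hw) (Dvd.intro _ rfl)
          (Nat.mul_pos hg1.q hg2.q) hg1.e (by linarith [hg2.e]) (by omega)
          (h1 j hj a m₀ L l g g' (by omega) hR)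

/-! ### The induction -/

theorem main (hLJ : LJ') (hM : PLM_stmt) {Gf : ℕ → Subgroup U} {d : ℕ} {N : Subgroup U}
    {z g₀ v₀ : U} {k : ℤ} {F : U → ℂ} {q : ℕ} {c : ℝ} (hF : Filt Gf d) (hN : Nor Gf d N)
    (hz : Cen (Gf 0) (Gf (d + 1)) z) (hc : CC Gf d N z g₀ v₀) (hk : k ≠ 0)
    (hFn : Fn (Gf 0) (Gf (d + 1)) F) (hV : Vrt (Gf 0) F z k) (hq : 1 ≤ q) (hc0 : 0 < c) :
    ∀ (n : ℕ) (J : Subgroup (U × U)), dm J < n → Nor (Gh Gf) d J → J ≤ N.prod N →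
    ∀ (Q : ℕ) (E : ℝ), 1 ≤ Q → q ∣ Q → 0 < E →
    ∃ (X : List ((U → ℝ) × (U → ℝ))) (Y : List (Subgroup U)) (Q' : ℕ) (E' : ℝ) (l₀ : ℕ),
      Gd Gf d N Q X Y Q' E' ∧ ∀ (a : ℤ) (m₀ L l : ℕ) (g g' : ℤ → U), l₀ ≤ l →
      (PS Gf 0 g ∧ PS Gf 0 g' ∧ l * l ≤ L ∧
        PL (Gh Gf) J a q Q E m₀ (2 * L) l (fun m => (g m, g' m)) ∧
        Mny c a q m₀ L l fun m => F (g m) * (starRingEnd ℂ) (F (g' m))) →
      TC Gf d X Y a q Q' E' m₀ L l g g' := by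
  intro n
  induction n with
  | zero =>
    intro J hJ
    exact absurd hJ (Nat.not_lt_zero _)
  | succ n ih =>
    intro J hJn hJ hJN Q E hQ hqQ hE
    by_cases hp : J.map (MonoidHom.fst U U) = N
    · -- the first projection is onto `N`
      have hzJ : ((z, 1) : U × U) ∈ J := z_mem hJ hc hp
      have hFh : Fn (Gh Gf 0) (Gh Gf (d + 1)) fun p : U × U =>
        F p.1 * (starRingEnd ℂ) (F p.2) := fn_prod hFn hFn
      have hVh : Vrt (Gh Gf 0) (fun p : U × U => F p.1 * (starRingEnd ℂ) (F p.2)) (z, 1) k := by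
        intro t x hx
        have hx := Subgroup.mem_prod.1 hx
        show F (pw t z * x.1) * (starRingEnd ℂ) (F (pw t (1 : U) * x.2)) = _
        rw [hV t x.1 hx.1, pw_id, one_mul, mul_assoc]
      obtain ⟨X₀, Y₀, Q₀, E₀, l₀, hX₀, hY₀, hQ₀, hE₀, hQQ, h0⟩ := hLJ (U × U) (Gh Gf) d J (z, 1) k _
        q Q E c (filt hF) hJ (cen hz) hzJ hk hFh hVh hq hQ hqQ hE hc0
      have hB := uni (Gf := Gf) (d := d) (N := N) hM (q := q) (B := Q₀) hq hQ₀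
        (fun (η : U × U → ℝ) (a : ℤ) (m₀ L l : ℕ) (g g' : ℤ → U) => PS Gf 0 g ∧ PS Gf 0 g' ∧
          l * l ≤ L ∧ PL (Gh Gf) (kerS J η) a q Q₀ E₀ m₀ (2 * L) l (fun m => (g m, g' m)) ∧
          Mny c a q m₀ L l fun m => F (g m) * (starRingEnd ℂ) (F (g' m))) Y₀ (by
          intro η hη
          have hη := hY₀ η hη
          have hlt := ker_lt hη
          have hk' := nor_ker hJ hη
          have hdm := dm_lt _ _ hk'.rat.pwc hJ.rat.pwc hlt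
          exact ih (kerS J η) (by omega) hk' (hlt.le.trans hJN) Q₀ E₀ hQ₀ (hqQ.trans hQQ) hE₀)
      obtain ⟨X₁, Y₁, Q₁, E₁, l₁, hg1, hl1, h1⟩ := hB
      refine ⟨X₀.map (cp (Gf 0)) ++ X₁, Y₁, Q₀ * Q₁, E₀ + E₁, l₀ + l₁, ⟨?_, hg1.y, ?_, ?_, ?_⟩, ?_⟩
      · intro w hw
        rcases List.mem_append.1 hw with hw | hw
        · obtain ⟨χ, hχ, rfl⟩ := List.mem_map.1 hw
          exact cp_ok (hX₀ χ hχ)
        · exact hg1.x w hw
      · exact Nat.mul_pos hQ₀ hg1.q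
      · exact add_pos hE₀ hg1.e
      · exact hQQ.mul_right _
      · intro a m₀ L l g g' hl hR
        obtain ⟨hg, hg', hlL, hPL, hMny⟩ := hR
        have hgh : PS (Gh Gf) 0 fun m : ℤ => (g m, g' m) :=
          ((lbn U ℤ Gf 0 g).2.2 U Gf g').2 ⟨hg, hg'⟩
        rcases h0 a m₀ L l (fun m => (g m, g' m)) hgh (by omega) hlL hPL hMny with
          ⟨χ, hχ, hn⟩ | ⟨η, hη, hn⟩
        · left
          refine ⟨cp (Gf 0) χ, List.mem_append_left _ (List.mem_map_of_mem hχ), ?_⟩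
          have hn2 := nr1_mono (Dvd.intro _ rfl : Q₀ ∣ Q₀ * Q₁) (Nat.mul_pos hQ₀ hg1.q)
            (by linarith [hg1.e] : E₀ ≤ E₀ + E₁) hn
          have e : (fun m => χ (g m, g' m)) =
              fun m => (cp (Gf 0) χ).1 (g m) - (cp (Gf 0) χ).2 (g' m) := by
            funext m
            exact (cp_eq (hX₀ χ hχ) (hg [] m) (hg' [] m)).symm
          rw [← e]
          exact hn2
        · refine TC.mono hM hq (fun w hw => List.mem_append_right _ hw) (fun w hw => hw)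
            (Dvd.intro_left _ rfl) (Nat.mul_pos hQ₀ hg1.q) hg1.e (by linarith) (by omega)
            (h1 η hη a m₀ L l g g' (by omega) ⟨hg, hg', hlL, hn, hMny⟩)
    · -- the first projection is smaller
      refine ⟨[], [J.map (MonoidHom.fst U U)], Q, E, 1, ⟨?_, ?_, hQ, hE, dvd_rfl⟩, ?_⟩
      · intro w hw
        exact absurd hw List.not_mem_nil
      · intro N₁ hN₁
        rw [List.mem_singleton.1 hN₁]
        refine ⟨nor_fst hJ, lt_of_le_of_ne ?_ hp⟩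
        rintro _ ⟨x, hx, rfl⟩
        exact (Subgroup.mem_prod.1 (hJN hx)).1
      · intro a m₀ L l g g' hl hR
        exact Or.inr ⟨_, List.mem_singleton.2 rfl, Or.inl (pl_fst hR.2.2.2.1)⟩

end Two

open Two

/-- **Row TWO.** -/
theorem two (hM : PLM_stmt) : TWO_stmt := by
  intro hLJ U _ Gf d N z g₀ v₀ k F q Q E c hF hN hz hc hk hFn hV hq hQ hqQ hE hc0
  obtain ⟨X, Y, Q', E', l₀, hg, h⟩ := main hLJ hM hF hN hz hc hk hFn hV hq hc0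
    (dm (N.prod N) + 1) (N.prod N) (Nat.lt_succ_self _) (nor_prod hN) le_rfl Q E hQ hqQ hE
  refine ⟨X, Y, Q', E', l₀, hg.x, hg.y, hg.q, hg.e, hg.dv, ?_⟩
  intro a m₀ L l g g' hgP hgP' hl hlL hPL hPL' hMny
  exact h a m₀ L l g g' hl ⟨hgP, hgP', hlL, pl_prod hPL hPL', hMny⟩

end

end Pool.Agent.NG
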