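import Mathlib
import Pool.Agent.Lib.NG.LEIB
import Pool.Agent.Lib.NG.LJ
import Pool.Agent.Lib.NG.LOW
import Pool.Agent.Lib.NG.TWO
import Pool.Agent.Lib.NG.PLM
import Pool.Agent.Lib.NG.CELL
import Pool.Agent.Lib.NG.SCL
import Pool.Agent.Lib.NG.NRG
import Pool.Agent.Lib.NG.NRM
import Pool.Agent.Lib.NG.CHP
import Pool.Agent.Lib.NG.ONES
import Pool.Agent.Lib.NG.SPLIT
import Pool.Agent.Lib.NG.COO
import Pool.Agent.Lib.NG.FOU
import Pool.Agent.Lib.NG.FUL
import Pool.Agent.Lib.NG.CENZ
import Pool.Agent.Lib.NG.UNB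
import Pool.Agent.Lib.NG.CLS
import Pool.Agent.Lib.NG.ADJ
import Pool.Agent.Lib.NG.KER
import Pool.Agent.Lib.NG.FIL
import Pool.Agent.Lib.NG.IND
import Pool.Agent.Lib.NG.NVGA

/-!
# NVG2 (MP_663568_nt): assembly

The rows which are not yet proved are hypotheses.  (helper19)
-/

set_option autoImplicit false

namespace Pool.Agent.NG

noncomputable section

theorem lj' : LJ' := lj (leib 3 (by norm_num)) low

theorem two' : TWO' := two plm lj'

theorem split' : SPLIT' := split cell' scl plm fou

theorem ful' : FUL' := ful coo fou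

theorem cenz' : CENZ_stmt := cenz pwb int_row unb

/-- The statement NS for all the groups. -/
theorem nsa_of (hred : RED_stmt) (hfuln : FULN_stmt) (hstep : STEPV_stmt) : NSA :=
  ind cenz' ker_row int_row adj_row fil (hfuln ful' cell' plm deg) (ones (hred low) cell' plm)
    (hstep two' plm pld nrg nrl nrm chp) split'

/-- **Theorem NVG** for ambient groups. -/
theorem nvg_of (hred : RED_stmt) (hfuln : FULN_stmt) (hstep : STEPV_stmt) : NVG :=
  nvga lbm plg (nsa_of hred hfuln hstep)

end

end Pool.Agent.NG
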