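import Pool.Agent.Lib.NG.FREE
import Pool.Agent.Lib.NG.FNvp
import Pool.Agent.Lib.NG.FOU
import Pool.Agent.Lib.NG.FUL
import Pool.Agent.Lib.NG.SPLIT
import Pool.Agent.Lib.NG.SIGZ
import Pool.Agent.Lib.NG.SIG
import Pool.Agent.Lib.NG.LBM
import Pool.Agent.Lib.NG.LBN
import Pool.Agent.Lib.NV.Sup
import Pool.Agent.Lib.NG.FFin

/-!
# NVG2 (MP_663568_nt): free translations along central one-parameter groups

From the statement NS for all groups (`NSA`) to slow families of polynomial maps `X n`, translated by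
`∏ z_i ^ (P_(n,i) (m))`, where `z_i` are lattice elements which are central modulo `Gf (d + 1)` and
`P_(n,i)` are ANY real polynomials of degree at most `t` with `P_(n,i)'(n) = q_(n,i)'(n)`, `q_n` slow.
(helper95)
-/

set_option autoImplicit false
open Finset Polynomial

namespace Pool.Agent.NG

open Amb Pool.Agent.Lib.MP_663568_nt Pool.Agent.Lib.MP_663568_nt.Katai
  Pool.Agent.Lib.MP_663568_nt.Nul Pool.Agent.SV Pool.Agent.VQ Pool.Agent.NV

noncomputable section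

namespace NVZx

section
variable {U : Type} [Amb U]

/-- the iteration of row FOU, for elements which may lie in `M` -/
theorem expz {G M : Subgroup U} (hG : Rat G) (hM : Rat M) (hle : M ≤ G)
    (hN : Nrm G M) {D : ℕ} (e : Fin D → U) (he : ∀ i, e i ∈ (La : Subgroup U) ∧ e i ∈ G ∧
      ∀ g ∈ G, ∀ t : ℝ, g * pw t (e i) * g⁻¹ * (pw t (e i))⁻¹ ∈ M) :
    ∀ n : ℕ, n ≤ D → ∀ F : U → ℂ, Fn G M F → ∀ ε : ℝ, 0 < ε →
    ∃ (ι : Type) (_ : Fintype ι) (Fs : ι → U → ℂ) (ks : ι → Fin D → ℤ),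
      (∀ t, Fn G M (Fs t)) ∧ (∀ t (i : Fin D), (i : ℕ) < n → Vrt G (Fs t) (e i) (ks t i)) ∧
      ∀ x ∈ G, ‖F x - ∑ t, Fs t x‖ ≤ ε := by
  intro n
  induction n with
  | zero =>
    intro _ F hF ε hε
    refine ⟨Unit, inferInstance, fun _ => F, fun _ _ => 0, fun _ => hF, ?_, ?_⟩
    · intro t i hi
      exact absurd hi (Nat.not_lt_zero _)
    · intro x _
      simp [hε.le]
  | succ n ih =>
    intro hn F hF ε hε
    by_cases hzM : e ⟨n, hn⟩ ∈ M
    · obtain ⟨ι, _, Fs, ks, h1, h2, h4⟩ := ih (by omega) F hF ε hε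
      refine ⟨ι, inferInstance, Fs, fun t i => if (i : ℕ) = n then 0 else ks t i, h1, ?_, h4⟩
      intro t i hi
      by_cases hin : (i : ℕ) = n
      · have h5 : i = ⟨n, hn⟩ := Fin.ext hin
        show Vrt G (Fs t) (e i) (if (i : ℕ) = n then 0 else ks t i)
        rw [if_pos hin, h5]
        intro s x hx
        rw [(h1 t).inv _ (hM.pwc _ hzM s) x hx]
        have h6 := ee_int 0
        rw [Int.cast_zero] at h6
        rw [Int.cast_zero, zero_mul, h6, one_mul]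
      · show Vrt G (Fs t) (e i) (if (i : ℕ) = n then 0 else ks t i)
        rw [if_neg hin]
        exact h2 t i (by omega)
    · have hC : Cen G M (e ⟨n, hn⟩) := ⟨(he _).1, (he _).2.1, (he _).2.2, hzM⟩
      obtain ⟨ι, _, Fs, ks, h1, h2, h4⟩ := ih (by omega) F hF (ε / 2) (by linarith)
      have hε' : 0 < ε / (2 * (Fintype.card ι + 1)) := by positivity
      have hstep : ∀ t, ∃ (K : ℕ) (c : ℤ → ℝ), (∀ k, |c k| ≤ 1) ∧
          ∀ x ∈ G, ‖Fs t x - ∑ k ∈ Icc (-(K : ℤ)) K, (c k : ℂ) * fz (e ⟨n, hn⟩) k (Fs t) x‖ ≤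
            ε / (2 * (Fintype.card ι + 1)) := by
        intro t
        obtain ⟨-, -, -, h⟩ := fou U G M (e ⟨n, hn⟩) (Fs t) hG hM hle hN hC (h1 t)
        obtain ⟨K, c, hc, -, hx⟩ := h _ hε'
        exact ⟨K, c, hc, hx⟩
      choose K c hc hx using hstep
      refine ⟨Σ t : ι, {k : ℤ // k ∈ Icc (-(K t : ℤ)) (K t)}, inferInstance,
        fun p x => ((c p.1 p.2.1 : ℝ) : ℂ) * fz (e ⟨n, hn⟩) p.2.1 (Fs p.1) x,
        fun p i => if (i : ℕ) = n then p.2.1 else ks p.1 i, ?_, ?_, ?_⟩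
      · rintro ⟨t, k, hk⟩
        obtain ⟨h, -⟩ := fou U G M (e ⟨n, hn⟩) (Fs t) hG hM hle hN hC (h1 t)
        refine fn_smul (h k).1 ?_
        rw [Complex.norm_real, Real.norm_eq_abs]
        exact hc t k
      · rintro ⟨t, k, hk⟩ i hi
        obtain ⟨h, -, h', -⟩ := fou U G M (e ⟨n, hn⟩) (Fs t) hG hM hle hN hC (h1 t)
        refine vrt_smul ?_ _
        show Vrt G (fz (e ⟨n, hn⟩) k (Fs t)) (e i) (if (i : ℕ) = n then k else ks t i)
        by_cases hin : (i : ℕ) = n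
        · rw [if_pos hin]
          have h5 : i = ⟨n, hn⟩ := Fin.ext hin
          rw [h5]
          exact (h k).2
        · rw [if_neg hin]
          exact h' (e i) k (ks t i) (he i).2.1 (h2 t i (by omega))
      · intro x hxG
        rw [Fintype.sum_sigma]
        have h5 : ∀ t, ∑ p : {k : ℤ // k ∈ Icc (-(K t : ℤ)) (K t)},
            ((c t p.1 : ℝ) : ℂ) * fz (e ⟨n, hn⟩) p.1 (Fs t) x =
            ∑ k ∈ Icc (-(K t : ℤ)) (K t), (c t k : ℂ) * fz (e ⟨n, hn⟩) k (Fs t) x := by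
          intro t
          exact Finset.sum_coe_sort (Icc (-(K t : ℤ)) (K t))
            (fun k => (c t k : ℂ) * fz (e ⟨n, hn⟩) k (Fs t) x)
        have h6 : F x - ∑ t, ∑ p : {k : ℤ // k ∈ Icc (-(K t : ℤ)) (K t)},
            ((c t p.1 : ℝ) : ℂ) * fz (e ⟨n, hn⟩) p.1 (Fs t) x =
            (F x - ∑ t, Fs t x) + ∑ t, (Fs t x -
              ∑ k ∈ Icc (-(K t : ℤ)) (K t), (c t k : ℂ) * fz (e ⟨n, hn⟩) k (Fs t) x) := by
          rw [Finset.sum_sub_distrib, Finset.sum_congr rfl fun t _ => h5 t]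
          ring
        refine le_trans (le_of_eq (congrArg norm h6)) ?_
        refine (norm_add_le _ _).trans ?_
        have h7 : ‖∑ t, (Fs t x -
              ∑ k ∈ Icc (-(K t : ℤ)) (K t), (c t k : ℂ) * fz (e ⟨n, hn⟩) k (Fs t) x)‖ ≤ ε / 2 := by
          refine (norm_sum_le _ _).trans ?_
          refine (Finset.sum_le_sum fun t _ => hx t x hxG).trans ?_
          rw [Finset.sum_const, nsmul_eq_mul, Finset.card_univ]
          rw [mul_div_assoc', div_le_div_iff₀ (by positivity) (by positivity)]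
          nlinarith [hε]
        linarith [h4 x hxG]

theorem tau_mem {G : Subgroup U} (hG : PwC G) {D : ℕ} (e : Fin D → U) (he : ∀ i, e i ∈ G)
    (v : Fin D → ℝ) : tau e v ∈ G := by
  unfold tau
  refine Subgroup.list_prod_mem G fun x hx => ?_
  obtain ⟨i, rfl⟩ := (List.mem_ofFn' _ _).1 hx
  exact hG _ (he i) _

/-- powers with polynomial exponents are polynomial maps -/
theorem ps_pw {Gf : ℕ → Subgroup U} {d D : ℕ} (hF : Filt Gf d) (hD : D ≤ d) {x : U}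
    (hx : x ∈ Gf D) (q : ℝ[X]) (hq : q.natDegree ≤ D) :
    PS Gf 0 fun m : ℤ => pw (q.eval (m : ℝ)) x := by
  have h1 := (sigz sig lbn) U Gf d D x q.coeff hF hD hx
  have h2 : (fun m : ℤ => pw (q.eval (m : ℝ)) x) = fun m : ℤ => pw (pol D q.coeff m) x := by
    funext m
    rw [Polynomial.eval_eq_sum_range' (show q.natDegree < D + 1 by omega)]
    rfl
  rw [h2]
  exact h1

theorem ps_tau {Gf : ℕ → Subgroup U} {d D : ℕ} (hF : Filt Gf d) (hD : D ≤ d) : ∀ {r : ℕ}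
    (z : Fin r → U), (∀ i, z i ∈ Gf D) → ∀ q : Fin r → ℝ[X], (∀ i, (q i).natDegree ≤ D) →
    PS Gf 0 fun m : ℤ => tau z fun i => (q i).eval (m : ℝ) := by
  intro r
  induction r with
  | zero =>
    intro z _ q _
    have h : (fun m : ℤ => tau z fun i => (q i).eval (m : ℝ)) = fun _ => 1 := by
      funext m
      unfold tau
      simp
    rw [h]
    exact (lbm U ℤ Gf d hF).2.2.2.1 0 1 (Gf 0).one_mem
  | succ r ih =>
    intro z hz q hq
    have h : (fun m : ℤ => tau z fun i => (q i).eval (m : ℝ)) = fun m : ℤ =>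
        pw ((q 0).eval (m : ℝ)) (z 0) * tau (fun i : Fin r => z i.succ)
          (fun i => (q i.succ).eval (m : ℝ)) := by
      funext m
      unfold tau
      rw [List.ofFn_succ, List.prod_cons]
    rw [h]
    exact (lbm U ℤ Gf d hF).1 0 _ _ (ps_pw hF hD (hz 0) (q 0) (hq 0))
      (ih (fun i => z i.succ) (fun i => hz _) (fun i => q i.succ) (fun i => hq _))

theorem ps_tau' {Gf : ℕ → Subgroup U} {d D : ℕ} (hF : Filt Gf d) {r : ℕ}
    (z : Fin r → U) (hz : ∀ i, z i ∈ Gf D) (q : Fin r → ℝ[X]) (hq : ∀ i, (q i).natDegree ≤ D) :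
    PS Gf 0 fun m : ℤ => tau z fun i => (q i).eval (m : ℝ) := by
  by_cases hD : D ≤ d
  · exact ps_tau hF hD z hz q hq
  · have h1 : Gf D = Gf (d + 1) := hF.stab _ (by omega)
    refine (lbm U ℤ Gf d hF).2.2.2.2.2.2 0 _ fun m => ?_
    exact tau_mem (hF.rat (d + 1)).pwc z (fun i => h1 ▸ hz i) _

theorem ps_val {Gf : ℕ → Subgroup U} {d : ℕ} (hF : Filt Gf d) {g : ℤ → U} (hg : PS Gf 0 g)
    (m : ℤ) : g m ∈ Gf 0 :=
  (((lbm U ℤ Gf d hF).2.2.2.2.2.1 0 g).1 hg).1 m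

end

theorem slow_sub {α : Type} {p : α → Prop} {Y : ℕ → {x : α // p x}} {K : ℝ}
    (h : SlowA (fun n => (Y n).1) K) : SlowA Y K := by
  intro j
  classical
  refine le_trans ?_ (h j)
  norm_cast
  refine card_le_card ?_
  intro n hn
  rw [mem_filter] at hn ⊢
  exact ⟨hn.1, fun h1 => hn.2 (Subtype.ext h1)⟩

end NVZx

open NVZx

/-- one function with characters along the `z i` -/
theorem nvz1 (hNSA : NSA) (U : Type) [Amb U] (Gf : ℕ → Subgroup U) (d : ℕ) (hF : Filt Gf d)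
    (F : U → ℂ) (hFn : Fn (Gf 0) (Gf (d + 1)) F) {r : ℕ} (t D : ℕ) (z : Fin r → U)
    (hz : ∀ i, z i ∈ Gf D) (hz0 : ∀ i, z i ∈ Gf 0) (k : Fin r → ℤ)
    (hk : ∀ i, Vrt (Gf 0) F (z i) (k i)) (A ε : ℝ) (hA : 0 ≤ A) (hε : 0 < ε) :
    ∃ (B : ℝ) (H₀ : ℕ), 0 ≤ B ∧ ∀ H : ℕ, H₀ ≤ H →
    ∀ xa xb : ℝ, (H : ℝ) ^ B ≤ xa → xa * H ≤ xb → ∀ (X : ℕ → ℤ → U) (q : ℕ → Fin r → ℝ[X]),
    (∀ n, PS Gf 0 (X n)) → (∀ n i, (q n i).natDegree ≤ D) →
    SlowA (fun n => (X n, q n)) ((H : ℝ) ^ A) →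
    ∀ P : ℕ → Fin r → ℝ[X], (∀ n i, (P n i).natDegree ≤ t) →
    (∀ (n : ℕ) i, (P n i).derivative.eval (n : ℝ) = (q n i).derivative.eval (n : ℝ)) →
    ∑ n ∈ Ioc ⌊xa⌋₊ ⌊xb⌋₊, (1 / (n : ℝ)) *
      Wg H n (fun m : ℕ => F (tau z (fun i => (P n i).eval (m : ℝ)) * X n (m : ℤ))) ≤
      ε * (Real.log xb - Real.log xa) := by
  obtain ⟨C₀, hC₀⟩ := hFn.bd
  obtain ⟨C, hCd⟩ : ∃ C : ℝ, C = max C₀ 1 := ⟨_, rfl⟩
  have hC1 : 1 ≤ C := by rw [hCd]; exact le_max_right _ _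
  have hC0 : 0 < C := by linarith
  have hFC : ∀ x ∈ Gf 0, ‖F x‖ ≤ C := fun x hx => (hC₀ x hx).trans (by
    rw [hCd]; exact le_max_left _ _)
  let α := {g : ℤ → U // PS Gf 0 g}
  let ev : α → ℕ → ℂ := fun g m => ((1 / C : ℝ) : ℂ) * F (g.1 (m : ℤ))
  have hCn : ‖((1 / C : ℝ) : ℂ)‖ = 1 / C := by
    rw [Complex.norm_real, Real.norm_eq_abs, abs_of_pos (by positivity)]
  have hev : ∀ (g : α) m, ‖ev g m‖ ≤ 1 := by
    intro g m
    show ‖((1 / C : ℝ) : ℂ) * F (g.1 (m : ℤ))‖ ≤ 1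
    rw [norm_mul, hCn, one_div, inv_mul_le_iff₀ hC0, mul_one]
    exact hFC _ (ps_val hF g.2 _)
  have hN : ∀ q b : ℕ, 1 ≤ q → Smn fun (x : α) (m : ℕ) => ee ((b : ℝ) / q * m) * ev x m := by
    intro q b hq A' ε' hA' hε'
    obtain ⟨B, H₀, hB, h⟩ := nvpq hNSA U Gf d hF F hFn q b hq A' ε' hA' hε'
    refine ⟨B, H₀, hB, fun H hH xa xb h1 h2 X hX => le_trans (sum_le_sum fun n _ => ?_)
      (h H hH xa xb h1 h2 (fun n => (X n).1) (fun n => (X n).2) (SPLITx.slow_map Subtype.val hX))⟩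
    refine mul_le_mul_of_nonneg_left ?_ (by positivity)
    have e1 : (fun m : ℕ => ee ((b : ℝ) / q * m) * ev (X n) m) = fun m : ℕ =>
        ((1 / C : ℝ) : ℂ) * (ee ((b : ℝ) * m / q) * F ((X n).1 (m : ℤ))) := by
      funext m
      show ee ((b : ℝ) / q * m) * (((1 / C : ℝ) : ℂ) * F ((X n).1 (m : ℤ))) = _
      rw [show (b : ℝ) / q * m = (b : ℝ) * m / q by ring]
      ring
    show Wg H n (fun m : ℕ => ee ((b : ℝ) / q * m) * ev (X n) m) ≤ _
    rw [e1, SPLITx.wg_mul, hCn]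
    have h3 : 0 ≤ Wg H n (fun m : ℕ => ee ((b : ℝ) * m / q) * F ((X n).1 (m : ℤ))) :=
      SPLITx.wg_nonneg _ _ _
    rw [one_div, inv_mul_le_iff₀ hC0]
    nlinarith
  obtain ⟨B, H₀, hB, hm⟩ := free ev hev (max (max t D) 1) (le_max_right _ _) hN A (ε / C) hA
    (by positivity)
  refine ⟨B, H₀, hB, fun H hH xa xb h1 h2 X q hX hq hS P hP hPq => ?_⟩
  obtain ⟨φ, hφ⟩ : ∃ φ : (ℤ → U) × (Fin r → ℝ[X]) → ℤ → U, φ = fun p m =>
      tau z (fun i => (p.2 i).eval (m : ℝ)) * p.1 m := ⟨_, rfl⟩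
  obtain ⟨Y, hY⟩ : ∃ Y : ℕ → α, ∀ n, (Y n).1 = φ (X n, q n) :=
    ⟨fun n => ⟨φ (X n, q n), by
      rw [hφ]
      exact (lbm U ℤ Gf d hF).1 0 _ _ (ps_tau' hF z hz (q n) (hq n)) (hX n)⟩, fun n => rfl⟩
  have hYs : SlowA Y ((H : ℝ) ^ A) := by
    apply slow_sub
    have e1 : (fun n => (Y n).1) = fun n => φ (X n, q n) := funext hY
    rw [e1]
    exact SPLITx.slow_map φ hS
  obtain ⟨R, hRd⟩ : ∃ R : ℕ → ℝ[X], R = fun n => ∑ i, Polynomial.C (k i : ℝ) * (P n i - q n i) :=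
    ⟨_, rfl⟩
  have hR : ∀ n, (R n).natDegree ≤ max (max t D) 1 := by
    intro n
    rw [hRd]
    refine natDegree_sum_le_of_forall_le _ _ fun i _ => ?_
    refine (natDegree_C_mul_le _ _).trans ((natDegree_sub_le _ _).trans ?_)
    exact (max_le_max (hP n i) (hq n i)).trans (le_max_left _ _)
  have hR' : ∀ n : ℕ, (R n).derivative.eval (n : ℝ) = 0 := by
    intro n
    rw [hRd]
    simp only [derivative_sum, eval_finsetSum]
    refine sum_eq_zero fun i _ => ?_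
    rw [derivative_C_mul, eval_mul, derivative_sub, eval_sub, hPq n i, sub_self, mul_zero]
  have h3 := hm H hH xa xb h1 h2 Y hYs R hR hR'
  have key : ∀ n : ℕ, Wg H n (fun m : ℕ => F (tau z (fun i => (P n i).eval (m : ℝ)) * X n (m : ℤ))) =
      C * Wg H n (tw (R n) (ev (Y n))) := by
    intro n
    have e1 : (fun m : ℕ => F (tau z (fun i => (P n i).eval (m : ℝ)) * X n (m : ℤ))) =
        fun m : ℕ => (C : ℂ) * tw (R n) (ev (Y n)) m := by
      funext m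
      have hx : X n (m : ℤ) ∈ Gf 0 := ps_val hF (hX n) _
      have h5 := (vrt_tau (hF.rat 0).pwc z k hz0 hk (fun i => (P n i).eval (m : ℝ)) _ hx).2
      have h6 := (vrt_tau (hF.rat 0).pwc z k hz0 hk (fun i => (q n i).eval (m : ℝ)) _ hx).2
      have h9 : ev (Y n) m = ((1 / C : ℝ) : ℂ) *
          F (tau z (fun i => (q n i).eval (m : ℝ)) * X n (m : ℤ)) := by
        show ((1 / C : ℝ) : ℂ) * F ((Y n).1 (m : ℤ)) = _
        rw [hY, hφ]
        simp only [Int.cast_natCast]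
      show _ = (C : ℂ) * (ee ((R n).eval (m : ℝ)) * ev (Y n) m)
      rw [h5, h9, h6]
      have h7 : ∑ i, (k i : ℝ) * (P n i).eval (m : ℝ) =
          (R n).eval (m : ℝ) + ∑ i, (k i : ℝ) * (q n i).eval (m : ℝ) := by
        rw [hRd]
        simp only [eval_finsetSum, eval_mul, eval_C, eval_sub]
        rw [← sum_add_distrib]
        exact sum_congr rfl fun i _ => by ring
      rw [h7, ee_add]
      have h8 : (C : ℂ) ≠ 0 := by exact_mod_cast hC0.ne'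
      push_cast
      field_simp
    rw [e1, SPLITx.wg_mul, Complex.norm_real, Real.norm_eq_abs, abs_of_pos hC0]
  calc ∑ n ∈ Ioc ⌊xa⌋₊ ⌊xb⌋₊, (1 / (n : ℝ)) *
      Wg H n (fun m : ℕ => F (tau z (fun i => (P n i).eval (m : ℝ)) * X n (m : ℤ)))
      = C * ∑ n ∈ Ioc ⌊xa⌋₊ ⌊xb⌋₊, (1 / (n : ℝ)) * Wg H n (tw (R n) (ev (Y n))) := by
        rw [mul_sum]
        refine sum_congr rfl fun n _ => ?_
        rw [key n]
        ring
    _ ≤ C * (ε / C * (Real.log xb - Real.log xa)) := mul_le_mul_of_nonneg_left h3 hC0.le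
    _ = ε * (Real.log xb - Real.log xa) := by
        field_simp

/-- **Free translations along central one-parameter groups.** -/
theorem nvz (hNSA : NSA) (U : Type) [Amb U] (Gf : ℕ → Subgroup U) (d : ℕ) (hF : Filt Gf d)
    (F : U → ℂ) (hFn : Fn (Gf 0) (Gf (d + 1)) F) {r : ℕ} (t D : ℕ) (z : Fin r → U)
    (hz : ∀ i, z i ∈ (La : Subgroup U) ∧ z i ∈ Gf D ∧
      ∀ g ∈ Gf 0, ∀ s : ℝ, g * pw s (z i) * g⁻¹ * (pw s (z i))⁻¹ ∈ Gf (d + 1))
    (A ε : ℝ) (hA : 0 ≤ A) (hε : 0 < ε) :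
    ∃ (B : ℝ) (H₀ : ℕ), 0 ≤ B ∧ ∀ H : ℕ, H₀ ≤ H →
    ∀ xa xb : ℝ, (H : ℝ) ^ B ≤ xa → xa * H ≤ xb → ∀ (X : ℕ → ℤ → U) (q : ℕ → Fin r → ℝ[X]),
    (∀ n, PS Gf 0 (X n)) → (∀ n i, (q n i).natDegree ≤ D) →
    SlowA (fun n => (X n, q n)) ((H : ℝ) ^ A) →
    ∀ P : ℕ → Fin r → ℝ[X], (∀ n i, (P n i).natDegree ≤ t) →
    (∀ (n : ℕ) i, (P n i).derivative.eval (n : ℝ) = (q n i).derivative.eval (n : ℝ)) →
    ∑ n ∈ Ioc ⌊xa⌋₊ ⌊xb⌋₊, (1 / (n : ℝ)) *
      Wg H n (fun m : ℕ => F (tau z (fun i => (P n i).eval (m : ℝ)) * X n (m : ℤ))) ≤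
      ε * (Real.log xb - Real.log xa) := by
  have hanti : Antitone Gf := antitone_nat_of_succ_le hF.anti
  have hz0 : ∀ i, z i ∈ Gf 0 := fun i => hanti (Nat.zero_le _) (hz i).2.1
  have hle : Gf (d + 1) ≤ Gf 0 := hanti (Nat.zero_le _)
  have hNM : Nrm (Gf 0) (Gf (d + 1)) := by
    intro x hx y hy
    have h := hF.com 0 (d + 1) x hx y hy
    rw [Nat.zero_add] at h
    have h2 := (Gf (d + 1)).mul_mem h hy
    rwa [inv_mul_cancel_right] at h2
  obtain ⟨ι, _, Fs, ks, h1, h2, h4⟩ := expz (hF.rat 0) (hF.rat (d + 1)) hle hNM z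
    (fun i => ⟨(hz i).1, hz0 i, (hz i).2.2⟩) r le_rfl F hFn (ε / 8) (by positivity)
  obtain ⟨B, H₁, hB, hH₁, hall⟩ := NSTEPx.unif (univ : Finset ι)
    (fun (s : ι) (B : ℝ) (H₀ : ℕ) => ∀ H : ℕ, H₀ ≤ H →
      ∀ xa xb : ℝ, (H : ℝ) ^ B ≤ xa → xa * H ≤ xb → ∀ (X : ℕ → ℤ → U) (q : ℕ → Fin r → ℝ[X]),
      (∀ n, PS Gf 0 (X n)) → (∀ n i, (q n i).natDegree ≤ D) →
      SlowA (fun n => (X n, q n)) ((H : ℝ) ^ A) →
      ∀ P : ℕ → Fin r → ℝ[X], (∀ n i, (P n i).natDegree ≤ t) →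
      (∀ (n : ℕ) i, (P n i).derivative.eval (n : ℝ) = (q n i).derivative.eval (n : ℝ)) →
      ∑ n ∈ Ioc ⌊xa⌋₊ ⌊xb⌋₊, (1 / (n : ℝ)) *
        Wg H n (fun m : ℕ => Fs s (tau z (fun i => (P n i).eval (m : ℝ)) * X n (m : ℤ))) ≤
        ε / (2 * (Fintype.card ι + 1)) * (Real.log xb - Real.log xa))
    (fun b B B' H H' hB hBB hH hHH h K hK xa xb hxa => h K (hHH.trans hK) xa xb
      ((Real.rpow_le_rpow_of_exponent_le (by
        have : 1 ≤ K := hH.trans (hHH.trans hK)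
        exact_mod_cast this) hBB).trans hxa))
    (fun s _ => by
      obtain ⟨B, H₀, hB, h⟩ := nvz1 hNSA U Gf d hF (Fs s) (h1 s) t D z (fun i => (hz i).2.1) hz0
        (ks s) (fun i => h2 s i i.2) A (ε / (2 * (Fintype.card ι + 1))) hA (by positivity)
      exact ⟨B, max 1 H₀, hB, le_max_left _ _, fun H hH => h H ((le_max_right _ _).trans hH)⟩)
  refine ⟨max B 1, max H₁ 3, by positivity, fun H hH xa xb hxa hxb X q hX hq hS P hP hPq => ?_⟩
  have hHa : H₁ ≤ H := (le_max_left _ _).trans hH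
  have hH3 : 3 ≤ H := (le_max_right _ _).trans hH
  have hH3' : (3 : ℝ) ≤ H := by exact_mod_cast hH3
  have hH0 : (0 : ℝ) < H := by linarith
  have hxa1 : (H : ℝ) ^ B ≤ xa :=
    (Real.rpow_le_rpow_of_exponent_le (by linarith) (le_max_left _ _)).trans hxa
  have hxaH : (H : ℝ) ≤ xa := by
    calc (H : ℝ) = (H : ℝ) ^ (1 : ℝ) := (Real.rpow_one _).symm
      _ ≤ (H : ℝ) ^ (max B 1) := Real.rpow_le_rpow_of_exponent_le (by linarith) (le_max_right _ _)
      _ ≤ xa := hxa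
  have hxa0 : 0 < xa := by linarith
  have hxab : xa ≤ xb := by nlinarith
  have hlog : 1 ≤ Real.log xb - Real.log xa := by
    have e1 : Real.log H ≤ Real.log xb - Real.log xa := by
      rw [← Real.log_div (by linarith) hxa0.ne']
      refine Real.log_le_log hH0 ?_
      rw [le_div_iff₀ hxa0]
      linarith
    refine le_trans ?_ e1
    rw [Real.le_log_iff_exp_le hH0]
    have := Real.exp_one_lt_d9
    linarith
  have hsum := SUPx.sum_inv_le xa xb (by linarith) hxab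
  have hW : ∀ n : ℕ, Wg H n (fun m : ℕ => F (tau z (fun i => (P n i).eval (m : ℝ)) * X n (m : ℤ))) ≤
      (∑ s, Wg H n (fun m : ℕ => Fs s (tau z (fun i => (P n i).eval (m : ℝ)) * X n (m : ℤ)))) +
      ε / 8 := by
    intro n
    unfold Wg
    rw [← sum_div, ← sub_le_iff_le_add', ← sub_div, div_le_iff₀ hH0]
    have hval : ∀ m : ℕ, tau z (fun i => (P n i).eval (m : ℝ)) * X n (m : ℤ) ∈ Gf 0 := fun m =>
      (Gf 0).mul_mem (tau_mem (hF.rat 0).pwc z hz0 _) (ps_val hF (hX n) _)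
    have e2 : ∑ h ∈ Icc 1 H, muC (n + h) *
        F (tau z (fun i => (P n i).eval ((n + h : ℕ) : ℝ)) * X n ((n + h : ℕ) : ℤ)) =
        (∑ s, ∑ h ∈ Icc 1 H, muC (n + h) *
          Fs s (tau z (fun i => (P n i).eval ((n + h : ℕ) : ℝ)) * X n ((n + h : ℕ) : ℤ))) +
        ∑ h ∈ Icc 1 H, muC (n + h) *
          (F (tau z (fun i => (P n i).eval ((n + h : ℕ) : ℝ)) * X n ((n + h : ℕ) : ℤ)) -
          ∑ s, Fs s (tau z (fun i => (P n i).eval ((n + h : ℕ) : ℝ)) * X n ((n + h : ℕ) : ℤ))) := by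
      rw [sum_comm, ← sum_add_distrib]
      refine sum_congr rfl fun h _ => ?_
      rw [← mul_sum]
      ring
    rw [e2, sub_le_iff_le_add']
    refine (norm_add_le _ _).trans (add_le_add (norm_sum_le _ _) ?_)
    refine (norm_sum_le _ _).trans ?_
    calc ∑ h ∈ Icc 1 H, ‖muC (n + h) *
          (F (tau z (fun i => (P n i).eval ((n + h : ℕ) : ℝ)) * X n ((n + h : ℕ) : ℤ)) -
          ∑ s, Fs s (tau z (fun i => (P n i).eval ((n + h : ℕ) : ℝ)) * X n ((n + h : ℕ) : ℤ)))‖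
        ≤ ∑ _h ∈ Icc 1 H, ε / 8 := by
          refine sum_le_sum fun h _ => ?_
          rw [norm_mul]
          calc _ ≤ 1 * (ε / 8) := mul_le_mul (norm_muC _) (h4 _ (hval _)) (norm_nonneg _) zero_le_one
            _ = ε / 8 := one_mul _
      _ = ε / 8 * H := by
          rw [sum_const, Nat.card_Icc, nsmul_eq_mul]
          simp
          ring
  have hcard : (0 : ℝ) < Fintype.card ι + 1 := by positivity
  calc ∑ n ∈ Ioc ⌊xa⌋₊ ⌊xb⌋₊, (1 / (n : ℝ)) *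
      Wg H n (fun m : ℕ => F (tau z (fun i => (P n i).eval (m : ℝ)) * X n (m : ℤ)))
      ≤ ∑ n ∈ Ioc ⌊xa⌋₊ ⌊xb⌋₊, (1 / (n : ℝ)) * ((∑ s, Wg H n (fun m : ℕ =>
          Fs s (tau z (fun i => (P n i).eval (m : ℝ)) * X n (m : ℤ)))) + ε / 8) :=
        sum_le_sum fun n _ => mul_le_mul_of_nonneg_left (hW n) (by positivity)
    _ = (∑ s, ∑ n ∈ Ioc ⌊xa⌋₊ ⌊xb⌋₊, (1 / (n : ℝ)) * Wg H n (fun m : ℕ =>
          Fs s (tau z (fun i => (P n i).eval (m : ℝ)) * X n (m : ℤ)))) +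
        ε / 8 * ∑ n ∈ Ioc ⌊xa⌋₊ ⌊xb⌋₊, (1 / (n : ℝ)) := by
        rw [sum_comm, mul_sum, ← sum_add_distrib]
        refine sum_congr rfl fun n _ => ?_
        rw [← mul_sum]
        ring
    _ ≤ (∑ _s : ι, ε / (2 * (Fintype.card ι + 1)) * (Real.log xb - Real.log xa)) +
        ε / 8 * (Real.log xb - Real.log xa + 1) := by
        refine add_le_add (sum_le_sum fun s _ => ?_) (mul_le_mul_of_nonneg_left hsum (by positivity))
        exact hall s (mem_univ _) H hHa xa xb hxa1 hxb X q hX hq hS P hP hPq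
    _ ≤ ε * (Real.log xb - Real.log xa) := by
        rw [sum_const, nsmul_eq_mul, card_univ]
        have e3 : (Fintype.card ι : ℝ) * (ε / (2 * (Fintype.card ι + 1)) *
            (Real.log xb - Real.log xa)) ≤ ε / 2 * (Real.log xb - Real.log xa) := by
          rw [← mul_assoc]
          refine mul_le_mul_of_nonneg_right ?_ (by linarith)
          rw [mul_div_assoc', div_le_div_iff₀ (by positivity) (by positivity)]
          nlinarith
        nlinarith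

/-- The same, in the form of `Lib/NG/FFin.lean`. -/
theorem nvz' (hNSA : NSA) : NVZ := by
  intro U _ Gf d hF F hFn r t D _ z hz1 hz2 hz3 A ε hA hε
  exact nvz hNSA U Gf d hF F hFn t D z (fun i => ⟨hz1 i, hz2 i, fun g hg s => by
    rw [← hz3 i s g hg, mul_inv_cancel_right, mul_inv_cancel]
    exact (Gf (d + 1)).one_mem⟩) A ε hA hε

end

end Pool.Agent.NG
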