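import Mathlib
import Pool.Agent.Lib.NG.NearB
import Pool.Agent.Lib.NG.B
import Pool.Agent.Lib.NG.C

/-!
# NVG2 (MP_663568_nt), row RED, the group-free part (helper33)
-/

set_option autoImplicit false
open Finset Topology

namespace Pool.Agent.NG

open Pool.Agent.Lib.MP_663568_nt Pool.Agent.Lib.MP_663568_nt.Katai
  Pool.Agent.Lib.MP_663568_nt.Nul

noncomputable section

namespace Redx

theorem pol_zero_split (j : ℕ) (S : ℕ → ℝ) (x : ℤ) :
    pol j S x - S 0 = ∑ k ∈ range j, S (k + 1) * (x : ℝ) ^ (k + 1) := by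
  unfold pol
  rw [Finset.sum_range_succ']
  simp

/-- The smooth part is nearly constant on short intervals. -/
theorem smooth_short {j d : ℕ} (hjd : j ≤ d) {S : ℕ → ℝ} {E : ℝ} {L l : ℕ} (hE : 0 ≤ E)
    (hL : 1 ≤ L) (hl : 1 ≤ l) (hS : ∀ k, 1 ≤ k → k ≤ j → |S k| ≤ E / (L : ℝ) ^ k) {x : ℤ}
    (hx0 : 0 ≤ x) (hx : (x : ℝ) * l ≤ L) : |pol j S x - S 0| ≤ d * E / l := by
  have hL0 : (0 : ℝ) < L := by exact_mod_cast hL
  have hl1 : (1 : ℝ) ≤ l := by exact_mod_cast hl
  have hl0 : (0 : ℝ) < l := by linarith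
  have hxr : (0 : ℝ) ≤ x := by exact_mod_cast hx0
  have hxL : (x : ℝ) / L ≤ 1 / l := by
    rw [div_le_div_iff₀ hL0 hl0]; linarith
  have hxL0 : 0 ≤ (x : ℝ) / L := by positivity
  rw [pol_zero_split]
  refine (Finset.abs_sum_le_sum_abs _ _).trans ?_
  have h1 : ∀ k ∈ range j, |S (k + 1) * (x : ℝ) ^ (k + 1)| ≤ E / l := by
    intro k hk
    have hk := Finset.mem_range.1 hk
    rw [abs_mul, abs_pow, abs_of_nonneg hxr]
    have h2 := hS (k + 1) (by omega) (by omega)
    have h3 : ((x : ℝ) / L) ^ (k + 1) ≤ 1 / l := by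
      have h4 : (x : ℝ) / L ≤ 1 := hxL.trans (by rw [div_le_one hl0]; exact hl1)
      calc ((x : ℝ) / L) ^ (k + 1) = ((x : ℝ) / L) ^ k * ((x : ℝ) / L) := pow_succ _ _
        _ ≤ 1 * (1 / l) := mul_le_mul (pow_le_one₀ hxL0 h4) hxL hxL0 zero_le_one
        _ = 1 / l := one_mul _
    calc |S (k + 1)| * (x : ℝ) ^ (k + 1) ≤ E / (L : ℝ) ^ (k + 1) * (x : ℝ) ^ (k + 1) := by gcongr
      _ = E * ((x : ℝ) / L) ^ (k + 1) := by rw [div_pow]; ring
      _ ≤ E * (1 / l) := by gcongr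
      _ = E / l := by ring
  refine (Finset.sum_le_sum h1).trans ?_
  rw [Finset.sum_const, Finset.card_range, nsmul_eq_mul]
  have hj : (j : ℝ) ≤ d := by exact_mod_cast hjd
  have h5 : 0 ≤ E / l := by positivity
  calc (j : ℝ) * (E / l) ≤ d * (E / l) := by gcongr
    _ = d * E / l := by ring

/-- Differences of powers. -/
theorem pow_diff (k : ℕ) {x y L : ℝ} (hx : 0 ≤ x) (hy : 0 ≤ y) (hxL : x ≤ L) (hyL : y ≤ L)
    (hL : 0 < L) : |(x + y) ^ k - x ^ k| ≤ k * (2 * L) ^ (k - 1) * y := by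
  rw [abs_of_nonneg (sub_nonneg.2 (pow_le_pow_left₀ hx (by linarith) k))]
  induction k with
  | zero => simp
  | succ k ih =>
    have h1 : (x + y) ^ (k + 1) - x ^ (k + 1) = (x + y) * ((x + y) ^ k - x ^ k) + y * x ^ k := by
      ring
    rw [h1]
    rcases Nat.eq_zero_or_pos k with hk | hk
    · subst hk; simp
    · have h2 : (x + y) * ((x + y) ^ k - x ^ k) ≤ 2 * L * (k * (2 * L) ^ (k - 1) * y) := by
        apply mul_le_mul (by linarith) ih _ (by positivity)
        exact sub_nonneg.2 (pow_le_pow_left₀ hx (by linarith) k)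
      have h3 : y * x ^ k ≤ y * (2 * L) ^ k := by
        gcongr
        linarith
      have h4 : 2 * L * (k * (2 * L) ^ (k - 1) * y) = k * (2 * L) ^ k * y := by
        obtain ⟨i, rfl⟩ : ∃ i, k = i + 1 := ⟨k - 1, by omega⟩
        simp only [Nat.add_sub_cancel]
        ring
      rw [h4] at h2
      have h5 : (k + 1 - 1 : ℕ) = k := by omega
      rw [h5]
      push_cast
      linarith

/-- The smooth part varies slowly. -/
theorem smooth_slow {j d : ℕ} (hjd : j ≤ d) {S : ℕ → ℝ} {E : ℝ} {L : ℕ} (hE : 0 ≤ E)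
    (hL : 1 ≤ L) (hS : ∀ k, 1 ≤ k → k ≤ j → |S k| ≤ E / (L : ℝ) ^ k) {x y : ℤ}
    (hx0 : 0 ≤ x) (hx : x ≤ L) (hy0 : 0 ≤ y) (hy : y ≤ L) :
    |pol j S (x + y) - pol j S x| ≤ d * (d * 2 ^ d) * E * (y / L) := by
  have hL0 : (0 : ℝ) < L := by exact_mod_cast hL
  have hxr : (0 : ℝ) ≤ x := by exact_mod_cast hx0
  have hyr : (0 : ℝ) ≤ y := by exact_mod_cast hy0
  have hxL : (x : ℝ) ≤ L := by exact_mod_cast hx
  have hyL : (y : ℝ) ≤ L := by exact_mod_cast hy
  have e : pol j S (x + y) - pol j S x =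
      ∑ k ∈ range j, S (k + 1) * (((x : ℝ) + y) ^ (k + 1) - (x : ℝ) ^ (k + 1)) := by
    have h1 := pol_zero_split j S (x + y)
    have h2 := pol_zero_split j S x
    have h3 : pol j S (x + y) - pol j S x = (pol j S (x + y) - S 0) - (pol j S x - S 0) := by ring
    rw [h3, h1, h2, ← Finset.sum_sub_distrib]
    refine Finset.sum_congr rfl fun k _ => ?_
    push_cast
    ring
  rw [e]
  refine (Finset.abs_sum_le_sum_abs _ _).trans ?_
  have h1 : ∀ k ∈ range j, |S (k + 1) * (((x : ℝ) + y) ^ (k + 1) - (x : ℝ) ^ (k + 1))| ≤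
      (d * 2 ^ d) * E * (y / L) := by
    intro k hk
    have hk := Finset.mem_range.1 hk
    rw [abs_mul]
    have h2 := hS (k + 1) (by omega) (by omega)
    have h3 := pow_diff (k + 1) hxr hyr hxL hyL hL0
    simp only [Nat.add_sub_cancel] at h3
    have h4 : ((k + 1 : ℕ) : ℝ) ≤ d := by
      have : k + 1 ≤ d := by omega
      exact_mod_cast this
    have h5 : (2 : ℝ) ^ k ≤ 2 ^ d := pow_le_pow_right₀ (by norm_num) (by omega)
    calc |S (k + 1)| * |((x : ℝ) + y) ^ (k + 1) - (x : ℝ) ^ (k + 1)|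
        ≤ E / (L : ℝ) ^ (k + 1) * (((k + 1 : ℕ) : ℝ) * (2 * L) ^ k * y) := by gcongr
      _ = ((k + 1 : ℕ) : ℝ) * 2 ^ k * E * (y / L) := by
          rw [mul_pow, pow_succ]
          field_simp
      _ ≤ (d * 2 ^ d) * E * (y / L) := by
          have : 0 ≤ (y : ℝ) / L := by positivity
          gcongr
  refine (Finset.sum_le_sum h1).trans ?_
  rw [Finset.sum_const, Finset.card_range, nsmul_eq_mul]
  have hj : (j : ℝ) ≤ d := by exact_mod_cast hjd
  have h5 : 0 ≤ (d * 2 ^ d : ℝ) * E * (y / L) := by positivity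
  calc (j : ℝ) * ((d * 2 ^ d) * E * (y / L)) ≤ d * ((d * 2 ^ d) * E * (y / L)) := by gcongr
    _ = _ := by ring

/-- The rational part is rational. -/
theorem rat_val {j : ℕ} {R : ℕ → ℝ} {Q₁ : ℕ} (hR : ∀ k, ∃ n : ℤ, (Q₁ : ℝ) * R k = n) (x : ℤ) :
    ∃ n : ℤ, (Q₁ : ℝ) * pol j R x = n := by
  choose n hn using hR
  refine ⟨∑ k ∈ range (j + 1), n k * x ^ k, ?_⟩
  unfold pol
  push_cast
  rw [Finset.mul_sum]
  refine Finset.sum_congr rfl fun k _ => ?_
  rw [← mul_assoc, hn]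

/-- The rational part is periodic. -/
theorem rat_per {j : ℕ} {R : ℕ → ℝ} {Q₁ : ℕ} (hR : ∀ k, ∃ n : ℤ, (Q₁ : ℝ) * R k = n)
    (K : ℕ) (x y : ℤ) (h : ((Q₁ * K : ℕ) : ℤ) ∣ x - y) :
    ∃ z : ℤ, pol j R x - pol j R y = K * z := by
  choose n hn using hR
  obtain ⟨w, hw⟩ := h
  have h1 : ∀ k : ℕ, ∃ v : ℤ, x ^ k - y ^ k = (Q₁ * K : ℕ) * w * v := by
    intro k
    obtain ⟨v, hv⟩ := sub_dvd_pow_sub_pow x y k
    exact ⟨v, by rw [hv, hw]⟩
  choose v hv using h1
  refine ⟨∑ k ∈ range (j + 1), n k * (w * v k), ?_⟩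
  unfold pol
  rw [← Finset.sum_sub_distrib]
  push_cast
  rw [Finset.mul_sum]
  refine Finset.sum_congr rfl fun k _ => ?_
  have h2 : ((x : ℝ) ^ k - (y : ℝ) ^ k) = (Q₁ * K) * w * v k := by
    have := congrArg (fun z : ℤ => (z : ℝ)) (hv k)
    push_cast at this
    exact this
  calc R k * (x : ℝ) ^ k - R k * (y : ℝ) ^ k = R k * ((x : ℝ) ^ k - (y : ℝ) ^ k) := by ring
    _ = R k * ((Q₁ * K) * w * v k) := by rw [h2]
    _ = (Q₁ * R k) * (K * (w * v k)) := by ring
    _ = n k * (K * (w * v k)) := by rw [hn]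
    _ = K * (n k * (w * v k)) := by ring

/-- The decomposition of a polynomial in a smooth and a rational part. -/
theorem decomp {d j : ℕ} (hjd : j ≤ d) (hU : UNQ_stmt) {E : ℝ} {Q₁ L : ℕ} (hQ : 1 ≤ Q₁)
    {P : ℤ → ℝ} (hP : Near 1 d E Q₁ ![L] fun u => P (u 0)) (c' : ℕ → ℝ)
    (hc' : ∀ m, P m = pol j c' m) : ∃ S R : ℕ → ℝ, (∀ m, P m = pol j S m + pol j R m) ∧
      (∀ k, 1 ≤ k → k ≤ j → |S k| ≤ E / (L : ℝ) ^ k) ∧ ∀ k, ∃ n : ℤ, (Q₁ : ℝ) * R k = n := by
  obtain ⟨c, h1, h2⟩ := hP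
  have hQ0 : (Q₁ : ℝ) ≠ 0 := by
    have : (0 : ℝ) < Q₁ := by exact_mod_cast hQ
    exact this.ne'
  -- the coefficients agree
  have h3 : ∀ k (hk : k < d + 1), k ≤ j → c ![⟨k, hk⟩] = c' k := by
    intro k hk hkj
    have h4 : ∀ m : ℤ, pol d (fun k => if hk : k < d + 1 then c ![⟨k, hk⟩] else 0) m =
        pol d (fun k => if k ≤ j then c' k else 0) m := by
      intro m
      have e1 : pol d (fun k => if hk : k < d + 1 then c ![⟨k, hk⟩] else 0) m = P m := by
        have := h1 ![m]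
        simp only [Matrix.cons_val_zero] at this
        rw [this]
        unfold mev pol
        rw [← Fin.sum_univ_eq_sum_range (fun j => (if hj : j < d + 1 then c ![⟨j, hj⟩] else 0) *
          (m : ℝ) ^ j)]
        symm
        refine Finset.sum_nbij' (fun a => a 0) (fun j => ![j]) ?_ ?_ ?_ ?_ ?_
        · intros; exact Finset.mem_univ _
        · intros; exact Finset.mem_univ _
        · intro a _; funext i; fin_cases i; rfl
        · intro j _; rfl
        · intro a _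
          have e : (![a 0] : Fin 1 → Fin (d + 1)) = a := by funext i; fin_cases i; rfl
          have h3 : ((a 0 : Fin (d + 1)) : ℕ) < d + 1 := (a 0).2
          rw [dif_pos h3]
          simp [e]
      have e2 : pol d (fun k => if k ≤ j then c' k else 0) m = P m := by
        rw [hc']
        unfold pol
        have : ∀ k ∈ range (d + 1), (if k ≤ j then c' k else 0) * (m : ℝ) ^ k =
            if k ∈ range (j + 1) then c' k * (m : ℝ) ^ k else 0 := by
          intro k _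
          by_cases hk : k ≤ j
          · have : k ∈ range (j + 1) := Finset.mem_range.2 (by omega)
            rw [if_pos hk, if_pos this]
          · have : k ∉ range (j + 1) := fun h => hk (by have := Finset.mem_range.1 h; omega)
            rw [if_neg hk, if_neg this, zero_mul]
        rw [Finset.sum_congr rfl this, ← Finset.sum_filter]
        refine Finset.sum_congr ?_ fun _ _ => rfl
        ext k
        simp only [Finset.mem_filter, Finset.mem_range]
        omega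
      rw [e1, e2]
    have h5 := hU d _ _ h4 k (by omega)
    simpa [hk, hkj] using h5
  refine ⟨fun k => if k = 0 then c' 0 else c' k - round ((Q₁ : ℝ) * c' k) / Q₁,
    fun k => if k = 0 then 0 else (round ((Q₁ : ℝ) * c' k) : ℝ) / Q₁, fun m => ?_,
    fun k hk hkj => ?_, fun k => ?_⟩
  · rw [hc']
    unfold pol
    rw [← Finset.sum_add_distrib]
    refine Finset.sum_congr rfl fun k _ => ?_
    by_cases hk : k = 0
    · simp [hk]
    · simp only [hk, if_false]; ring
  · have hk0 : k ≠ 0 := by omega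
    simp only [hk0, if_false]
    have hlt : k < d + 1 := by omega
    have hne : (![⟨k, hlt⟩] : Fin 1 → Fin (d + 1)) ≠ 0 := by
      intro h0
      have := congrFun h0 0
      have := congrArg Fin.val this
      simp at this
      omega
    obtain ⟨i, hi⟩ := h2 _ hne
    rw [h3 k hlt hkj, Fin.prod_univ_one] at hi
    simp only [Matrix.cons_val_zero] at hi
    have hQp : (0 : ℝ) < Q₁ := by exact_mod_cast hQ
    have h6 : |(Q₁ : ℝ) * c' k - round ((Q₁ : ℝ) * c' k)| ≤ |(Q₁ : ℝ) * c' k - i| := round_le _ i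
    have h7 : c' k - (round ((Q₁ : ℝ) * c' k) : ℝ) / Q₁ =
        ((Q₁ : ℝ) * c' k - round ((Q₁ : ℝ) * c' k)) / Q₁ := by field_simp
    have h8 : (Q₁ : ℝ) * c' k - i = Q₁ * (c' k - i / Q₁) := by field_simp
    rw [h7, abs_div, abs_of_pos hQp, div_le_iff₀ hQp]
    refine h6.trans ?_
    rw [h8, abs_mul, abs_of_pos hQp, mul_comm]
    gcongr
  · by_cases hk : k = 0
    · exact ⟨0, by simp [hk]⟩
    · refine ⟨round ((Q₁ : ℝ) * c' k), ?_⟩
      simp only [hk, if_false]
      field_simp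

end Redx

end

end Pool.Agent.NG
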