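import Mathlib
import Pool.Agent.Lib.NG.RED0
import Pool.Agent.Lib.NG.LBN

/-!
# NVG2 (MP_663568_nt), row RED: the shift maps have values in the kernel of `χ` (helper33)
-/

set_option autoImplicit false
open Finset Topology

namespace Pool.Agent.NG

open Amb Pool.Agent.Lib.MP_663568_nt Pool.Agent.Lib.MP_663568_nt.Katai
  Pool.Agent.Lib.MP_663568_nt.Nul

noncomputable section

namespace Redx

/-- The decomposition of `χ (g (m₀ + m))`. -/
def Dec (j d : ℕ) (E : ℝ) (Q₁ m₀ L : ℕ) (P : ℤ → ℝ) (S R : ℕ → ℝ) : Prop :=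
  j ≤ d ∧ (∀ m : ℤ, P (m₀ + m) = pol j S m + pol j R m) ∧
    (∀ k, 1 ≤ k → k ≤ j → |S k| ≤ E / (L : ℝ) ^ k) ∧ ∀ k, ∃ n : ℤ, (Q₁ : ℝ) * R k = n

theorem chr_small {U : Type} [Amb U] {G : Subgroup U} {χ : U → ℝ}
    (h1 : ∀ x ∈ G, ∀ y ∈ G, χ (x * y) = χ x + χ y) (hc : ContinuousOn χ (G : Set U)) {ε : ℝ}
    (hε : 0 < ε) : ∃ ρ : ℝ, 0 < ρ ∧ ∀ k ∈ G, nm k ≤ ρ → |χ k| ≤ ε := by
  have h0 : χ 1 = 0 := by
    have := h1 1 G.one_mem 1 G.one_mem
    rw [mul_one] at this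
    linarith
  have h2 := hc 1 G.one_mem
  have h3 : {x : U | |χ x| ≤ ε} ∈ 𝓝[(G : Set U)] (1 : U) := by
    have h4 : Metric.closedBall (χ 1) ε ∈ 𝓝 (χ 1) := Metric.closedBall_mem_nhds _ hε
    have h5 := h2 h4
    refine Filter.mem_of_superset h5 ?_
    intro x hx
    have hx' : dist (χ x) (χ 1) ≤ ε := hx
    rw [h0, Real.dist_eq, sub_zero] at hx'
    exact hx'
  rw [mem_nhdsWithin_iff_exists_mem_nhds_inter] at h3
  obtain ⟨W, hW, hW2⟩ := h3
  obtain ⟨ρ, hρ, hρ2⟩ := nm_nhds W hW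
  exact ⟨ρ, hρ, fun k hk hk2 => hW2 ⟨hρ2 k hk2, hk⟩⟩

open Classical in
/-- The shift maps have almost rational coefficients along `χ`. -/
theorem near_shift_map (hDEG : DEG_stmt) {U : Type} [Amb U] {Gf : ℕ → Subgroup U} {d : ℕ}
    {N : Subgroup U} {χ : U → ℝ} {q Q Q₁ : ℕ} {E : ℝ}
    (hN : Nor Gf d N) (hχ : Chr (Gf 0) (Gf 0) (Gf (d + 1)) χ) (hq : 1 ≤ q) (hQ : 1 ≤ Q)
    (hQ₁ : 1 ≤ Q₁) (hE : 0 < E) :
    ∃ (K q₂ l₁ : ℕ), 1 ≤ K ∧ 1 ≤ q₂ ∧ K ≤ l₁ ∧ q ≤ l₁ ∧ ∀ (a b : ℤ) (m₀ L l j : ℕ) (g : ℤ → U)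
      (n : (Fin 2 → ℤ) → U) (S R : ℕ → ℝ), PS Gf 0 g → l₁ ≤ l → l ≤ L →
      PLn Gf N a q Q E m₀ L l g n → Dec j d E Q₁ m₀ L (fun m => χ (g m)) S R →
      b ≡ a [ZMOD q] → (m₀ : ℤ) ≤ b → b < m₀ + q →
      Near 2 d 1 (q₂ * Q₁) ![L / q, l / K] (fun u => χ (n ![b + q * u 0, u 1])) := by
  obtain ⟨q₂, B, hq₂, hB, hrec⟩ := recb 2 d 1 one_pos le_rfl
  have hBr : (1 : ℝ) ≤ B := by exact_mod_cast hB
  have hQ₁r : (1 : ℝ) ≤ Q₁ := by exact_mod_cast hQ₁
  have hQr : (1 : ℝ) ≤ Q := by exact_mod_cast hQ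
  set ε₂ : ℝ := 1 / (2 * Q₁ * B) with hε₂
  have hε₂0 : 0 < ε₂ := by positivity
  obtain ⟨ρ₂, hρ₂, hsm⟩ := chr_small hχ.mul hχ.cont hε₂0
  set C₁ : ℝ := d * (d * 2 ^ d) with hC₁
  have hC₁0 : 0 ≤ C₁ := by positivity
  obtain ⟨K, hK⟩ := exists_nat_ge (E * Q + E * Q / ρ₂ + C₁ * E * Q / ε₂ + Q + 1)
  have hK1 : E * Q ≤ K := by
    have : 0 ≤ E * Q / ρ₂ + C₁ * E * Q / ε₂ + Q + 1 := by positivity
    linarith
  have hK2 : E * Q / ρ₂ ≤ K := by
    have : 0 ≤ E * Q + C₁ * E * Q / ε₂ + Q + 1 := by positivity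
    linarith
  have hK3 : C₁ * E * Q / ε₂ ≤ K := by
    have : 0 ≤ E * Q + E * Q / ρ₂ + Q + 1 := by positivity
    linarith
  have hK4 : (Q : ℝ) + 1 ≤ K := by
    have : 0 ≤ E * Q + E * Q / ρ₂ + C₁ * E * Q / ε₂ := by positivity
    linarith
  have hK0 : (0 : ℝ) < K := by linarith
  have hKpos : 0 < K := by exact_mod_cast hK0
  refine ⟨K, q₂, K * (B + 1) + q * (B + 1), hKpos, hq₂, ?_, ?_, ?_⟩
  · nlinarith
  · nlinarith
  intro a b m₀ L l j g n S R hg hl hlL hPL hDec hba hb1 hb2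
  obtain ⟨hjd, hP, hS, hR⟩ := hDec
  have hl0 : 1 ≤ l := by
    have : 1 ≤ K * (B + 1) + q * (B + 1) := by nlinarith
    omega
  have hlr : (1 : ℝ) ≤ l := by exact_mod_cast hl0
  have hL0 : 1 ≤ L := by omega
  have hLr : (l : ℝ) ≤ L := by exact_mod_cast hlL
  -- the polynomial
  have hps : PS (fun i => N ⊓ Gf i) 0 (fun u : Fin 2 → ℤ => n ![b + q * u 0, u 1]) := by
    have h1 := (lbn U (Fin 2 → ℤ) (fun i => N ⊓ Gf i) 0 n).1 (Fin 2 → ℤ)
      { toFun := fun u => ![q * u 0, u 1]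
        map_zero' := by funext i; fin_cases i <;> simp
        map_add' := by intro x y; funext i; fin_cases i <;> simp [mul_add] } ![b, 0] hPL.1
    have e : (fun u : Fin 2 → ℤ => n (({ toFun := fun u => ![q * u 0, u 1]
                                         map_zero' := by funext i; fin_cases i <;> simp
                                         map_add' := by
                                          intro x y; funext i; fin_cases i <;> simp [mul_add] } :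
        (Fin 2 → ℤ) →+ (Fin 2 → ℤ)) u + ![b, 0])) = fun u => n ![b + q * u 0, u 1] := by
      funext u
      congr 1
      funext i
      fin_cases i
      · simp [add_comm]
      · simp
    rw [← e]
    exact h1
  have hvan : ∀ x ∈ N ⊓ Gf (d + 1), χ x = 0 := fun x hx => hχ.van x hx.2
  have hmulN : ∀ x ∈ N, ∀ y ∈ N, χ (x * y) = χ x + χ y := fun x hx y hy =>
    hχ.mul x (hN.le hx) y (hN.le hy)
  obtain ⟨c, hc, -⟩ := hDEG U Gf d d 2 N χ _ le_rfl hmulN hvan hps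
  -- integrality
  have hint : ∀ u ∈ box ![L / q, l / K],
      nd ((Q₁ : ℝ) * χ (n ![b + q * u 0, u 1])) ≤ 1 / B := by
    intro u hu
    rw [mem_box] at hu
    have hu0 := hu 0
    have hu1 := hu 1
    simp only [Matrix.cons_val_zero, Matrix.cons_val_one] at hu0 hu1
    have hqL : q * (L / q) ≤ L := Nat.mul_div_le L q
    have hKl : K * (l / K) ≤ l := Nat.mul_div_le l K
    have hq0 : (0 : ℤ) < q := by exact_mod_cast hq
    -- the base point
    set m : ℤ := b + q * u 0 with hm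
    have hm1 : (m₀ : ℤ) ≤ m := by
      have : 0 ≤ (q : ℤ) * u 0 := mul_nonneg hq0.le hu0.1
      omega
    have hm2 : m < m₀ + L := by
      have h1 : u 0 + 1 ≤ ((L / q : ℕ) : ℤ) := by omega
      have h2 : (q : ℤ) * (u 0 + 1) ≤ q * ((L / q : ℕ) : ℤ) := mul_le_mul_of_nonneg_left h1 hq0.le
      have h3 : (q : ℤ) * ((L / q : ℕ) : ℤ) ≤ L := by exact_mod_cast hqL
      have h4 : (q : ℤ) * (u 0 + 1) = q * u 0 + q := by ring
      omega
    have hm3 : m ≡ a [ZMOD q] := by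
      have : (q : ℤ) * u 0 ≡ 0 [ZMOD q] := by
        rw [Int.modEq_zero_iff_dvd]; exact dvd_mul_right _ _
      have h1 := this.add_left b
      rw [add_zero] at h1
      exact h1.trans hba
    have hu1r : (0 : ℝ) ≤ u 1 := by exact_mod_cast hu1.1
    have hu1K : (u 1 : ℝ) * K ≤ l := by
      have h1 : u 1 ≤ ((l / K : ℕ) : ℤ) := by omega
      have h2 : (K : ℤ) * u 1 ≤ K * ((l / K : ℕ) : ℤ) :=
        mul_le_mul_of_nonneg_left h1 (by positivity)
      have h3 : (K : ℤ) * ((l / K : ℕ) : ℤ) ≤ l := by exact_mod_cast hKl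
      have h4 : (K : ℤ) * u 1 ≤ l := h2.trans h3
      have h5 : (K : ℝ) * u 1 ≤ l := by exact_mod_cast h4
      linarith
    have hEQ : E * ((u 1 : ℝ) * Q) ≤ l := by
      calc E * ((u 1 : ℝ) * Q) = (E * Q) * u 1 := by ring
        _ ≤ K * u 1 := by gcongr
        _ ≤ l := by linarith
    obtain ⟨k, hk, hknm, γ, hγ, hγ0, hgk⟩ := hPL.2.2 m (u 1) hm1 hm2 hm3 hu1.1 hEQ
    have hl0' : (0 : ℝ) < l := by linarith
    have hkr : nm k ≤ ρ₂ := by
      refine hknm.trans ?_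
      rw [div_le_iff₀ hl0']
      have h1 : E * Q ≤ K * ρ₂ := by
        rwa [div_le_iff₀ hρ₂] at hK2
      calc E * ((u 1 : ℝ) * Q) = (E * Q) * u 1 := by ring
        _ ≤ (K * ρ₂) * u 1 := by gcongr
        _ = ρ₂ * (u 1 * K) := by ring
        _ ≤ ρ₂ * l := by gcongr
    have hχk := hsm k hk hkr
    -- the value
    have hgm : ∀ y, g y ∈ Gf 0 := fun y => by simpa using hg [] y
    have hnv : n ![m, u 1] ∈ N := by
      have := hPL.1 [] ![m, u 1]
      exact this.1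
    have e1 : χ (g (m + Q * u 1)) = χ k + χ (n ![m, u 1]) + χ (g m) + χ γ := by
      rw [hgk, hχ.mul _ ((Gf 0).mul_mem ((Gf 0).mul_mem hk (hN.le hnv)) (hgm m)) _ hγ0,
        hχ.mul _ ((Gf 0).mul_mem hk (hN.le hnv)) _ (hgm m), hχ.mul _ hk _ (hN.le hnv)]
    set y : ℤ := m - m₀ with hy
    have hy1 : 0 ≤ y := by omega
    have hy2 : y ≤ L := by omega
    have hQu : 0 ≤ (Q : ℤ) * u 1 := mul_nonneg (by positivity) hu1.1
    have hQu2r : (Q : ℝ) * u 1 ≤ l := by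
      calc (Q : ℝ) * u 1 ≤ K * u 1 := mul_le_mul_of_nonneg_right (by linarith) hu1r
        _ ≤ l := by linarith
    have hQu2 : (Q : ℤ) * u 1 ≤ L := by
      have : ((Q * u 1 : ℤ) : ℝ) ≤ ((L : ℤ) : ℝ) := by push_cast; linarith
      exact_mod_cast this
    have e2 : χ (g m) = pol j S y + pol j R y := by
      rw [← hP y]; congr 2; omega
    have e3 : χ (g (m + Q * u 1)) = pol j S (y + Q * u 1) + pol j R (y + Q * u 1) := by
      rw [← hP (y + Q * u 1)]; congr 2; omega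
    have hslow := smooth_slow hjd hE.le hL0 hS hy1 hy2 hQu hQu2
    obtain ⟨z₁, hz₁⟩ := rat_val hR y
    obtain ⟨z₂, hz₂⟩ := rat_val hR (y + Q * u 1)
    obtain ⟨z₃, hz₃⟩ := hχ.int γ hγ hγ0
    have e4 : (Q₁ : ℝ) * χ (n ![m, u 1]) - ((z₂ - z₁ - Q₁ * z₃ : ℤ) : ℝ) =
        Q₁ * ((pol j S (y + Q * u 1) - pol j S y) - χ k) := by
      push_cast
      rw [← hz₁, ← hz₂, ← hz₃]
      have : χ (n ![m, u 1]) = χ (g (m + Q * u 1)) - χ k - χ (g m) - χ γ := by linarith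
      rw [this, e2, e3]
      ring
    have h6 : |pol j S (y + Q * u 1) - pol j S y| ≤ ε₂ := by
      refine hslow.trans ?_
      have hL0' : (0 : ℝ) < L := by linarith
      have h7 : ((Q * u 1 : ℤ) : ℝ) / L ≤ Q / K := by
        push_cast
        rw [div_le_div_iff₀ hL0' hK0]
        calc (Q : ℝ) * u 1 * K = Q * (u 1 * K) := by ring
          _ ≤ Q * L := by gcongr; linarith
      calc d * (d * 2 ^ d) * E * (((Q * u 1 : ℤ) : ℝ) / L) ≤ d * (d * 2 ^ d) * E * (Q / K) := by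
            gcongr
        _ = (C₁ * E * Q) / K := by rw [hC₁]; ring
        _ ≤ ε₂ := by
            rw [div_le_iff₀ hK0]
            rw [div_le_iff₀ hε₂0] at hK3
            linarith
    refine (round_le _ (z₂ - z₁ - Q₁ * z₃)).trans ?_
    rw [e4, abs_mul, abs_of_nonneg (by linarith : (0 : ℝ) ≤ Q₁)]
    have h8 : |(pol j S (y + Q * u 1) - pol j S y) - χ k| ≤ ε₂ + ε₂ :=
      (abs_sub _ _).trans (add_le_add h6 hχk)
    calc (Q₁ : ℝ) * |(pol j S (y + Q * u 1) - pol j S y) - χ k| ≤ Q₁ * (ε₂ + ε₂) := by gcongr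
      _ = 1 / B := by rw [hε₂]; field_simp; norm_num
  -- the recurrence
  have hlK : B ≤ l / K := by
    rw [Nat.le_div_iff_mul_le hKpos]
    nlinarith
  have hLq : B ≤ L / q := by
    rw [Nat.le_div_iff_mul_le (by omega)]
    nlinarith
  have hcoef := hrec ![L / q, l / K] (fun a => Q₁ * c a) (1 / B) (by
      intro i; fin_cases i
      · exact hLq
      · exact hlK) (by positivity) le_rfl (by
      have h1 : (box ![L / q, l / K]).filter (fun x => nd (mev (fun a => Q₁ * c a)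
          fun i => (x i : ℝ)) ≤ 1 / B) = box ![L / q, l / K] := by
        refine Finset.filter_true_of_mem fun u hu => ?_
        have h2 : mev (fun a => (Q₁ : ℝ) * c a) (fun i => (u i : ℝ)) =
            Q₁ * χ (n ![b + q * u 0, u 1]) := by
          rw [hc u]
          unfold mev
          rw [Finset.mul_sum]
          exact Finset.sum_congr rfl fun _ _ => by ring
        rw [h2]
        exact hint u hu
      rw [h1, card_box, one_mul]
      push_cast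
      exact le_rfl)
  refine ⟨c, hc, fun a' _ => ?_⟩
  have h1 := hcoef a'
  have h2 : (q₂ : ℝ) * (Q₁ * c a') = ((q₂ * Q₁ : ℕ) : ℝ) * c a' := by push_cast; ring
  rw [h2, mul_one_div_cancel (by positivity)] at h1
  exact near_of_nd (by nlinarith) h1

end Redx

end

end Pool.Agent.NG
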