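import Mathlib
import Pool.Agent.Lib.NG.RED1

/-!
# NVG2 (MP_663568_nt), row RED: PL for the kernel of `χ` in `N`, and for the data in the kernel
(helper33)
-/

set_option autoImplicit false
open Finset Topology

namespace Pool.Agent.NG

open Amb Pool.Agent.Lib.MP_663568_nt Pool.Agent.Lib.MP_663568_nt.Katai
  Pool.Agent.Lib.MP_663568_nt.Nul

noncomputable section

namespace Redx

/-- The elements of the kernel. -/
theorem mem_ker {U : Type} [Amb U] {H : Subgroup U} {χ : U → ℝ}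
    (h1 : ∀ x ∈ H, ∀ y ∈ H, χ (x * y) = χ x + χ y) (x : U) :
    x ∈ kerS H χ ↔ x ∈ H ∧ χ x = 0 := by
  have h0 : χ 1 = 0 := by
    have := h1 1 H.one_mem 1 H.one_mem
    rw [mul_one] at this
    linarith
  have hinv : ∀ x ∈ H, χ x⁻¹ = -χ x := by
    intro x hx
    have := h1 x hx x⁻¹ (H.inv_mem hx)
    rw [mul_inv_cancel, h0] at this
    linarith
  let K : Subgroup U :=
    { carrier := {x | x ∈ H ∧ χ x = 0}
      mul_mem' := by
        rintro a b ⟨ha, ha0⟩ ⟨hb, hb0⟩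
        exact ⟨H.mul_mem ha hb, by rw [h1 a ha b hb, ha0, hb0, add_zero]⟩
      one_mem' := ⟨H.one_mem, h0⟩
      inv_mem' := by
        rintro a ⟨ha, ha0⟩
        exact ⟨H.inv_mem ha, by rw [hinv a ha, ha0, neg_zero]⟩ }
  have e : kerS H χ = K := Subgroup.closure_eq K
  rw [e]
  exact Iff.rfl

/-- PL for `N ∩ ker χ`. -/
theorem redlow (hDEG : DEG_stmt) (hLOW : LOW') {U : Type} [Amb U] {Gf : ℕ → Subgroup U} {d : ℕ}
    {N : Subgroup U} {χ : U → ℝ} {q Q Q₁ : ℕ} {E : ℝ} (hG : Filt Gf d)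
    (hN : Nor Gf d N) (hχ : Chr (Gf 0) (Gf 0) (Gf (d + 1)) χ) (hq : 1 ≤ q) (hQ : 1 ≤ Q)
    (hqQ : q ∣ Q) (hQ₁ : 1 ≤ Q₁) (hE : 0 < E) :
    ∃ (Q₂ : ℕ) (E₂ : ℝ) (l₁ : ℕ), 1 ≤ Q₂ ∧ 0 < E₂ ∧ Q ∣ Q₂ ∧ ∀ (a : ℤ) (m₀ L l j : ℕ) (g : ℤ → U)
      (S R : ℕ → ℝ), PS Gf 0 g → l₁ ≤ l → l ≤ L →
      PL Gf N a q Q E m₀ L l g → Dec j d E Q₁ m₀ L (fun m => χ (g m)) S R →
      PL Gf (N ⊓ kerS (Gf 0) χ) a q Q₂ E₂ m₀ L l g := by
  by_cases hz : ∀ x ∈ N, χ x = 0
  · refine ⟨Q, E, 0, hQ, hE, dvd_rfl, ?_⟩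
    intro a m₀ L l j g S R _ _ _ hPL _
    have e : N ⊓ kerS (Gf 0) χ = N := by
      apply inf_eq_left.2
      intro x hx
      exact (mem_ker hχ.mul x).2 ⟨hN.le hx, hz x hx⟩
    rw [e]
    exact hPL
  · push Not at hz
    have hχN : Chr (Gf 0) N (Gf (d + 1)) χ :=
      { mul := fun x hx y hy => hχ.mul x (hN.le hx) y (hN.le hy)
        inv := fun g hg x hx => hχ.inv g hg x (hN.le hx)
        int := fun γ hγ hγN => hχ.int γ hγ (hN.le hγN)
        van := hχ.van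
        cont := hχ.cont.mono hN.le
        ne := hz }
    obtain ⟨K, q₂, l₁, hK, hq₂, hKl, hql, hnear⟩ := near_shift_map hDEG hN hχ hq hQ hQ₁ hE
    have hKr : (1 : ℝ) ≤ K := by exact_mod_cast hK
    have hqr : (1 : ℝ) ≤ q := by exact_mod_cast hq
    set E₁ : ℝ := 2 * K + 2 * q with hE₁
    have hE₁1 : 1 ≤ E₁ := by rw [hE₁]; linarith
    obtain ⟨Q', E', hQ', hE', hQQ', hL⟩ := hLOW U Gf d N χ q Q (q₂ * Q₁) E E₁ hG hN hχN hq hQ hqQ
      (by nlinarith) hE (by linarith)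
    refine ⟨Q', E', l₁, hQ', hE', hQQ', ?_⟩
    intro a m₀ L l j g S R hg hl hlL hPL hDec
    obtain ⟨n, hn⟩ := hPL
    -- the base point
    obtain ⟨b, hb, hb1, hb2⟩ : ∃ b : ℤ, b ≡ a [ZMOD q] ∧ (m₀ : ℤ) ≤ b ∧ b < m₀ + q := by
      have hq0 : (0 : ℤ) < q := by exact_mod_cast hq
      refine ⟨m₀ + (a - m₀) % q, ?_, ?_, ?_⟩
      · have h1 : (a - m₀) % q ≡ a - m₀ [ZMOD q] := Int.mod_modEq _ _
        have h2 := h1.add_left (m₀ : ℤ)
        have e : (m₀ : ℤ) + (a - m₀) = a := by ring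
        rwa [e] at h2
      · have := Int.emod_nonneg (a - m₀) hq0.ne'
        omega
      · have := Int.emod_lt_of_pos (a - m₀) hq0
        omega
    have hnr := hnear a b m₀ L l j g n S R hg hl hlL hn hDec hb hb1 hb2
    have hLq : 1 ≤ L / q := by
      rw [Nat.le_div_iff_mul_le (by omega)]
      omega
    have hlK : 1 ≤ l / K := by
      rw [Nat.le_div_iff_mul_le (by omega)]
      omega
    have key : ∀ (A k : ℕ), 1 ≤ k → 1 ≤ A / k → (A : ℝ) ≤ 2 * k * (A / k : ℕ) := by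
      intro A k hk hA
      have h1 : A < k * (A / k + 1) := by
        have := Nat.lt_mul_div_succ A (show 0 < k by omega)
        exact this
      have h2 : A ≤ 2 * k * (A / k) := by
        have h3 : k * (A / k + 1) ≤ k * (A / k + A / k) := Nat.mul_le_mul_left _ (by omega)
        have h4 : k * (A / k + A / k) = 2 * k * (A / k) := by ring
        omega
      exact_mod_cast h2
    have hPLk : PL Gf (kerS N χ) a q Q' E' m₀ L l g := by
      refine hL a b m₀ L l (L / q) (l / K) g n hg hn hb hb1 hb2 hLq hlK ?_ ?_ ?_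
      · refine (key L q hq hLq).trans ?_
        have : (2 * q : ℝ) ≤ E₁ := by rw [hE₁]; linarith
        gcongr
      · refine (key l K hK hlK).trans ?_
        have : (2 * K : ℝ) ≤ E₁ := by rw [hE₁]; linarith
        gcongr
      · obtain ⟨c, h1, h2⟩ := hnr
        refine ⟨c, h1, fun a' ha' => ?_⟩
        obtain ⟨j', hj'⟩ := h2 a' ha'
        refine ⟨j', hj'.trans ?_⟩
        gcongr
    have e : kerS N χ = N ⊓ kerS (Gf 0) χ := by
      ext x
      rw [mem_ker hχN.mul, Subgroup.mem_inf, mem_ker hχ.mul]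
      exact ⟨fun h => ⟨h.1, hN.le h.1, h.2⟩, fun h => ⟨h.1, h.2.2⟩⟩
    rwa [e] at hPLk

end Redx

end

end Pool.Agent.NG
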