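import Mathlib
import Pool.Agent.Lib.NG.RED2

/-!
# NVG2 (MP_663568_nt), row RED: the sequences in the kernel of `χ` (helper33)
-/

set_option autoImplicit false
open Finset Topology

namespace Pool.Agent.NG

open Amb Pool.Agent.Lib.MP_663568_nt Pool.Agent.Lib.MP_663568_nt.Katai
  Pool.Agent.Lib.MP_663568_nt.Nul

noncomputable section

namespace Redx

/-- The sequence in the kernel. -/
def gb {U : Type} [Amb U] (σ : U) (c : ℝ) (s r : ℤ → ℝ) (g : ℤ → U) : ℤ → U :=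
  fun m => pw (c - s m) σ * g m * pw (-(r m + c)) σ

section
variable {U : Type} [Amb U]

theorem pw0 (hP : PWB_stmt) (x : U) : pw 0 x = 1 := (hP U).1 x

theorem pwneg (hP : PWB_stmt) (t : ℝ) (x : U) : pw (-t) x = (pw t x)⁻¹ := (hP U).2.2.2.1 t x

theorem pwsub (hP : PWB_stmt) (s t : ℝ) (x : U) : pw (s - t) x = pw s x * (pw t x)⁻¹ := by
  rw [sub_eq_add_neg, pw_add, pwneg hP]

/-- Integral multiples of the exponent `M` are in the lattice. -/
theorem pw_la (hP : PWB_stmt) {σ : U} {M : ℕ} (h : pw M σ ∈ (La : Subgroup U)) {t : ℝ}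
    (ht : ∃ z : ℤ, t = M * z) : pw t σ ∈ (La : Subgroup U) := by
  obtain ⟨z, rfl⟩ := ht
  have h1 : pw ((M : ℝ) * z) σ = (pw (M : ℝ) σ) ^ z := by
    rw [mul_comm, pw_mul]
    exact (hP U).2.2.1 z _
  rw [h1]
  exact Subgroup.zpow_mem _ h z

/-- Real powers of an element of a subgroup closed under real powers. -/
theorem pw_mem {H : Subgroup U} (h : PwC H) {x : U} (hx : x ∈ H) (t : ℝ) : pw t x ∈ H := h x hx t

theorem sig_aff (hSIG : SIGZ') {Gf : ℕ → Subgroup U} {d j : ℕ} (hG : Filt Gf d) (hjd : j ≤ d)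
    {σ : U} (hσ : σ ∈ Gf j) (S : ℕ → ℝ) (c : ℝ) (m₀ : ℤ) :
    PS Gf 0 (fun m : ℤ => pw (c + pol j S (m - m₀)) σ) := by
  have h1 := hSIG U Gf d j σ (fun k => S k + if k = 0 then c else 0) hG hjd hσ
  have h2 : ∀ m : ℤ, pol j (fun k => S k + if k = 0 then c else 0) m = c + pol j S m := by
    intro m
    unfold pol
    simp only [add_mul, Finset.sum_add_distrib, ite_mul, zero_mul, Finset.sum_ite_eq',
      Finset.mem_range]
    simp [add_comm]
  have h3 := (lbn U ℤ Gf 0 _).1 ℤ (AddMonoidHom.id ℤ) (-m₀) h1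
  have e : (fun n : ℤ => pw (pol j (fun k => S k + if k = 0 then c else 0)
      ((AddMonoidHom.id ℤ) n + -m₀)) σ) = fun m : ℤ => pw (c + pol j S (m - m₀)) σ := by
    funext m
    rw [h2]
    rfl
  rw [← e]
  exact h3

/-- The first clause: the sequence is polynomial, with values in the kernel. -/
theorem gb_ps (hSIG : SIGZ') (hCHS : CHS_stmt) {Gf : ℕ → Subgroup U}
    {d j : ℕ} (hG : Filt Gf d) (hjd : j ≤ d) {χ : U → ℝ}
    (hχ : Chr (Gf 0) (Gf 0) (Gf (d + 1)) χ) {σ : U} (hσ : σ ∈ Gf j) (hσ0 : σ ∈ Gf 0)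
    (hσ1 : χ σ = 1) {g : ℤ → U} (hg : PS Gf 0 g) (S R : ℕ → ℝ) (m₀ : ℤ)
    (hdec : ∀ m : ℤ, χ (g (m₀ + m)) = pol j S m + pol j R m) (c : ℝ) :
    PS (kf Gf χ) 0 (gb σ c (fun m => pol j S (m - m₀)) (fun m => pol j R (m - m₀)) g) := by
  have hL := lbm U ℤ Gf d hG
  have h1 : PS Gf 0 (fun m : ℤ => pw (c - pol j S (m - m₀)) σ) := by
    have h := sig_aff hSIG hG hjd hσ (fun k => -S k) c m₀
    have e : (fun m : ℤ => pw (c + pol j (fun k => -S k) (m - m₀)) σ) =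
        fun m : ℤ => pw (c - pol j S (m - m₀)) σ := by
      funext m
      congr 1
      unfold pol
      simp only [neg_mul, Finset.sum_neg_distrib]
      ring
    rwa [e] at h
  have h2 : PS Gf 0 (fun m : ℤ => pw (-(pol j R (m - m₀) + c)) σ) := by
    have h := sig_aff hSIG hG hjd hσ (fun k => -R k) (-c) m₀
    have e : (fun m : ℤ => pw (-c + pol j (fun k => -R k) (m - m₀)) σ) =
        fun m : ℤ => pw (-(pol j R (m - m₀) + c)) σ := by
      funext m
      congr 1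
      unfold pol
      simp only [neg_mul, Finset.sum_neg_distrib]
      ring
    rwa [e] at h
  have h3 : PS Gf 0 (gb σ c (fun m => pol j S (m - m₀)) (fun m => pol j R (m - m₀)) g) :=
    hL.1 0 _ _ (hL.1 0 _ _ h1 hg) h2
  have hgm : ∀ y, g y ∈ Gf 0 := fun y => by simpa using hg [] y
  have hσt : ∀ t : ℝ, pw t σ ∈ Gf 0 := fun t => (hG.rat 0).pwc σ hσ0 t
  have hχt : ∀ t : ℝ, χ (pw t σ) = t := fun t => by
    rw [hCHS U (Gf 0) χ (hG.rat 0).pwc hχ.mul hχ.cont σ hσ0 t, hσ1, mul_one]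
  have h4 : ∀ m, gb σ c (fun m => pol j S (m - m₀)) (fun m => pol j R (m - m₀)) g m ∈
      kerS (Gf 0) χ := by
    intro m
    rw [mem_ker hχ.mul]
    refine ⟨(Gf 0).mul_mem ((Gf 0).mul_mem (hσt _) (hgm m)) (hσt _), ?_⟩
    show χ (pw (c - pol j S (m - m₀)) σ * g m * pw (-(pol j R (m - m₀) + c)) σ) = 0
    rw [hχ.mul _ ((Gf 0).mul_mem (hσt _) (hgm m)) _ (hσt _), hχ.mul _ (hσt _) _ (hgm m), hχt, hχt]
    have h5 := hdec (m - m₀)
    have e : m₀ + (m - m₀) = m := by ring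
    rw [e] at h5
    rw [h5]
    ring
  intro l n
  exact ⟨h3 l n, Lbm.foldr_val h4 l n⟩

/-- The second clause: the value of `g`. -/
theorem gb_val (hP : PWB_stmt) (σ : U) (c : ℝ) (s r : ℤ → ℝ) (g : ℤ → U) (m : ℤ) :
    g m = pw (s m - c) σ * gb σ c s r g m * pw (r m + c) σ := by
  have e1 : pw (c - s m) σ = (pw (s m - c) σ)⁻¹ := by
    rw [← pwneg hP]; congr 1; ring
  have e2 : pw (-(r m + c)) σ = (pw (r m + c) σ)⁻¹ := pwneg hP _ _
  unfold gb
  rw [e1, e2]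
  group

/-- The third clause: the shift. -/
theorem gb_shift (hP : PWB_stmt) (σ : U) (c : ℝ) (s r : ℤ → ℝ) (g : ℤ → U) (m H : ℤ) (k n γ : U)
    (h : g (m + H) = k * n * g m * γ) :
    gb σ c s r g (m + H) =
      (pw (-(s (m + H) - s m)) σ * (pw (c - s m) σ * k * (pw (c - s m) σ)⁻¹)) *
      (pw (c - s m) σ * n * (pw (c - s m) σ)⁻¹) * gb σ c s r g m *
      (pw (r m + c) σ * γ * pw (-(r (m + H) + c)) σ) := by
  have e0 : pw (c - s (m + H)) σ = pw (-(s (m + H) - s m)) σ * pw (c - s m) σ := by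
    rw [← pw_add]; congr 1; ring
  have e1 : pw (s m - c) σ = (pw (c - s m) σ)⁻¹ := by
    rw [← pwneg hP]; congr 1; ring
  have e3 := gb_val hP σ c s r g m
  show pw (c - s (m + H)) σ * g (m + H) * pw (-(r (m + H) + c)) σ = _
  rw [h, e0]
  conv_lhs => rw [e3, e1]
  group

end

end Redx

end

end Pool.Agent.NG
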