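import Mathlib
import Pool.Agent.Lib.NG.RED3

/-!
# NVG2 (MP_663568_nt), row RED: PL for the sequences in the kernel of `χ` (helper33)
-/

set_option autoImplicit false
open Finset Topology

namespace Pool.Agent.NG

open Amb Pool.Agent.Lib.MP_663568_nt Pool.Agent.Lib.MP_663568_nt.Katai
  Pool.Agent.Lib.MP_663568_nt.Nul

noncomputable section

namespace Redx

/-- The kernel of `χ` in `N` is normal. -/
theorem nrm_ker {U : Type} [Amb U] {G N M : Subgroup U} {χ : U → ℝ} (hN : Nrm G N)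
    (hχ : Chr G G M χ) : Nrm G (N ⊓ kerS G χ) := by
  intro x hx y hy
  have h1 := (mem_ker hχ.mul y).1 hy.2
  refine ⟨hN x hx y hy.1, (mem_ker hχ.mul _).2 ⟨?_, ?_⟩⟩
  · exact G.mul_mem (G.mul_mem hx h1.1) (G.inv_mem hx)
  · rw [hχ.inv x hx y h1.1, h1.2]

/-- The size of small factors. -/
theorem nm_bd {U : Type} [Amb U] (σ : U) (T : ℝ) : ∃ Cp Cc Cm : ℝ, 0 < Cp ∧ 0 < Cc ∧ 0 < Cm ∧
    (∀ t : ℝ, |t| ≤ 1 → nm (pw t σ) ≤ Cp * |t|) ∧
    (∀ t : ℝ, |t| ≤ T → ∀ k : U, nm k ≤ 1 → nm (pw t σ * k * (pw t σ)⁻¹) ≤ Cc * nm k) ∧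
    ∀ x y : U, nm x ≤ 1 → nm y ≤ 1 → nm (x * y) ≤ Cm * (nm x + nm y) := by
  obtain ⟨Cp, hCp, h1⟩ := nm_pw ({σ} : Set U) isCompact_singleton
  have hK : IsCompact ((fun t : ℝ => pw t σ) '' Set.Icc (-T) T) := by
    refine isCompact_Icc.image ?_
    exact pw_cont.comp (continuous_id.prodMk continuous_const)
  obtain ⟨Cc, hCc, h2⟩ := nm_conj _ hK
  obtain ⟨Cm, hCm, h3⟩ := nm_mul (U := U)
  refine ⟨Cp, Cc, Cm, hCp, hCc, hCm, fun t ht => h1 σ rfl t ht, fun t ht k hk => ?_, h3⟩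
  exact h2 (pw t σ) ⟨t, abs_le.1 ht, rfl⟩ k hk

theorem gb_pl (hP : PWB_stmt) (hCHS : CHS_stmt) (hSIG : SIGZ') {U : Type} [Amb U]
    {Gf : ℕ → Subgroup U} {d : ℕ} {N : Subgroup U} {χ : U → ℝ} {σ : U} {j M q Q₁ Q₂ : ℕ} {E E₂ : ℝ}
    (hG : Filt Gf d) (hN : Nor Gf d N) (hχ : Chr (Gf 0) (Gf 0) (Gf (d + 1)) χ) (hjd : j ≤ d)
    (hσ : σ ∈ Gf j) (hσ0 : σ ∈ Gf 0) (hσ1 : χ σ = 1) (hM : 1 ≤ M) (hQ₁ : 1 ≤ Q₁) (hQ₂ : 1 ≤ Q₂)
    (hE : 0 < E) (hE₂ : 0 < E₂) (hq : q ∣ Q₂) (hMσ : pw M σ ∈ (La : Subgroup U)) :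
    ∃ E' : ℝ, 0 < E' ∧ ∀ (a b : ℤ) (m₀ L l : ℕ) (g : ℤ → U) (S R : ℕ → ℝ) (c : ℝ), 1 ≤ l →
      l ≤ L → PS Gf 0 g → PL Gf (N ⊓ kerS (Gf 0) χ) b q Q₂ E₂ m₀ L l g →
      Dec j d E Q₁ m₀ L (fun m => χ (g m)) S R →
      (∀ m : ℤ, m ≡ b [ZMOD (Q₂ * (Q₁ * M) : ℕ)] → ∃ z : ℤ, pol j R (m - m₀) + c = M * z) →
      |c - S 0| ≤ 2 * M → a ≡ b [ZMOD (Q₂ * (Q₁ * M) : ℕ)] →
      PL (kf Gf χ) (N ⊓ kerS (Gf 0) χ) a (Q₂ * (Q₁ * M)) (Q₂ * (Q₁ * M)) E' m₀ L l
        (gb σ c (fun m => pol j S (m - m₀)) (fun m => pol j R (m - m₀)) g) := by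
  set J := N ⊓ kerS (Gf 0) χ with hJ
  obtain ⟨ρ₀, hρ₀, hsm⟩ := chr_small hχ.mul hχ.cont (show (0 : ℝ) < 1 / 4 by norm_num)
  obtain ⟨Cp, Cc, Cm, hCp, hCc, hCm, hp, hc, hm⟩ := nm_bd σ (2 * M + d * E)
  set C₁ : ℝ := d * (d * 2 ^ d) with hC₁
  have hC₁0 : 0 ≤ C₁ := by rw [hC₁]; positivity
  set E' : ℝ := 1 + E₂ + 4 * (C₁ * E) + Cp * (C₁ * E) + E₂ / ρ₀ + Cc * E₂ +
    Cm * (Cp * (C₁ * E) + Cc * E₂) with hE'
  have p1 : 0 ≤ C₁ * E := by positivity
  have p2 : 0 ≤ Cp * (C₁ * E) := by positivity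
  have p3 : 0 ≤ E₂ / ρ₀ := by positivity
  have p4 : 0 ≤ Cc * E₂ := by positivity
  have p5 : 0 ≤ Cm * (Cp * (C₁ * E) + Cc * E₂) := by positivity
  have q1 : 1 ≤ E' := by rw [hE']; linarith
  have q2 : E₂ ≤ E' := by rw [hE']; linarith
  have q3 : 4 * (C₁ * E) ≤ E' := by rw [hE']; linarith
  have q4 : Cp * (C₁ * E) ≤ E' := by rw [hE']; linarith
  have q5 : E₂ / ρ₀ ≤ E' := by rw [hE']; linarith
  have q6 : Cc * E₂ ≤ E' := by rw [hE']; linarith
  have q7 : Cm * (Cp * (C₁ * E) + Cc * E₂) ≤ E' := by rw [hE']; linarith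
  refine ⟨E', by linarith, ?_⟩
  rintro a b m₀ L l g S R c hl hlL hg ⟨n, hn⟩ hDec hper hc0 hab
  obtain ⟨hjd', hdec, hS, hR⟩ := hDec
  set s : ℤ → ℝ := fun m => pol j S (m - m₀) with hs
  set r : ℤ → ℝ := fun m => pol j R (m - m₀) with hr
  set Q' : ℕ := Q₂ * (Q₁ * M) with hQ'
  have hgm : ∀ y, g y ∈ Gf 0 := fun y => by simpa using hg [] y
  have hσt : ∀ t : ℝ, pw t σ ∈ Gf 0 := fun t => (hG.rat 0).pwc σ hσ0 t
  have hχt : ∀ t : ℝ, χ (pw t σ) = t := fun t => by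
    rw [hCHS U (Gf 0) χ (hG.rat 0).pwc hχ.mul hχ.cont σ hσ0 t, hσ1, mul_one]
  have hps := gb_ps hSIG hCHS hG hjd hχ hσ hσ0 hσ1 hg S R m₀ hdec c
  have hgb : ∀ m, gb σ c s r g m ∈ kerS (Gf 0) χ := fun m => by
    have := hps [] m
    exact this.2
  have hJn : Nrm (Gf 0) J := nrm_ker hN.nrm hχ
  have hJk : J ≤ kerS (Gf 0) χ := inf_le_right
  have hn0 := hn.1
  have hnv : ∀ y, n y ∈ J := fun y => (hn0 [] y).1
  -- the new shift map
  set v : ℤ → U := fun m => pw (c - s m) σ with hv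
  set n' : (Fin 2 → ℤ) → U := fun u => v (u 0) * n ![u 0, (Q₁ * M : ℕ) * u 1] * (v (u 0))⁻¹ with hn'
  refine ⟨n', ?_, ?_, ?_⟩
  · -- polynomial
    have hL2 := lbm U (Fin 2 → ℤ) Gf d hG
    have h1 : PS Gf 0 v := by
      have h := sig_aff hSIG hG hjd hσ (fun k => -S k) c m₀
      have e : (fun m : ℤ => pw (c + pol j (fun k => -S k) (m - m₀)) σ) = v := by
        funext m
        rw [hv, hs]
        simp only
        congr 1
        unfold pol
        simp only [neg_mul, Finset.sum_neg_distrib]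
        ring
      rwa [e] at h
    have h2 : PS Gf 0 (fun u : Fin 2 → ℤ => v (u 0)) := by
      have h3 := (lbn U ℤ Gf 0 v).1 (Fin 2 → ℤ) (Pi.evalAddMonoidHom (fun _ => ℤ) 0) 0 h1
      have e : (fun u : Fin 2 → ℤ => v ((Pi.evalAddMonoidHom (fun _ => ℤ) 0) u + 0)) =
          fun u : Fin 2 → ℤ => v (u 0) := by
        funext u
        rw [add_zero]
        rfl
      rwa [e] at h3
    have h4 : PS Gf 0 n := by
      intro l y
      exact (hn0 l y).2
    have h5 : PS Gf 0 (fun u : Fin 2 → ℤ => n ![u 0, (Q₁ * M : ℕ) * u 1]) := by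
      let f : (Fin 2 → ℤ) →+ (Fin 2 → ℤ) :=
        { toFun := fun u => ![u 0, (Q₁ * M : ℕ) * u 1]
          map_zero' := by
            funext i; fin_cases i <;> simp
          map_add' := by
            intro u w
            funext i; fin_cases i
            · simp
            · simp [mul_add] }
      have h3 := (lbn U (Fin 2 → ℤ) Gf 0 n).1 (Fin 2 → ℤ) f 0 h4
      have e : (fun u : Fin 2 → ℤ => n (f u + 0)) =
          fun u : Fin 2 → ℤ => n ![u 0, (Q₁ * M : ℕ) * u 1] := by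
        funext u
        rw [add_zero]
        rfl
      rwa [e] at h3
    have h6 : PS Gf 0 n' := hL2.1 0 _ _ (hL2.1 0 _ _ h2 h5) (hL2.2.1 0 _ h2)
    have h7 : ∀ y, n' y ∈ J := fun y => hJn _ (hσt _) _ (hnv _)
    intro l y
    have h8 := Lbm.foldr_val h7 l y
    exact ⟨h8, h6 l y, hJk h8⟩
  · intro m
    rw [hn']
    simp only [Matrix.cons_val_zero, Matrix.cons_val_one, mul_zero]
    rw [hn.2.1 m]
    group
  · intro m h hm1 hm2 hma hh hEh
    have hl0 : (0 : ℝ) < l := by exact_mod_cast hl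
    have hL1 : 1 ≤ L := hl.trans hlL
    have hL0 : (0 : ℝ) < L := by exact_mod_cast hL1
    have hlLr : (l : ℝ) ≤ L := by exact_mod_cast hlL
    have hhr : (0 : ℝ) ≤ h := by exact_mod_cast hh
    have hqQ' : q ∣ Q' := hq.trans (dvd_mul_right _ _)
    have hmb : m ≡ b [ZMOD Q'] := hma.trans hab
    have hmq : m ≡ b [ZMOD q] := hmb.of_dvd (by exact_mod_cast hqQ')
    set H : ℤ := Q' * h with hH
    have hH0 : 0 ≤ H := mul_nonneg (by positivity) hh
    have hHr : (H : ℝ) = h * Q' := by rw [hH]; push_cast; ring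
    have hHr0 : (0 : ℝ) ≤ H := by exact_mod_cast hH0
    have hH2 : H = Q₂ * (((Q₁ * M : ℕ) : ℤ) * h) := by
      rw [hH, hQ']; push_cast; ring
    have hEH : E' * H ≤ l := by rw [hHr]; exact hEh
    have hHl : (H : ℝ) ≤ l := (le_mul_of_one_le_left hHr0 q1).trans hEH
    have hHL : H ≤ L := by
      have : (H : ℝ) ≤ (L : ℤ) := by push_cast; linarith
      exact_mod_cast this
    -- the ratio
    set w : ℝ := H / l with hw
    have hw0 : 0 ≤ w := by positivity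
    have hEw : E' * w ≤ 1 := by
      rw [hw, ← mul_div_assoc, div_le_one hl0]; exact hEH
    have hHLw : (H : ℝ) / L ≤ w := by
      rw [hw]; gcongr
    obtain ⟨k, hk, hkn, γ, hγ, hγ0, hgk⟩ := hn.2.2 m (((Q₁ * M : ℕ) : ℤ) * h) hm1 hm2 hmq
      (mul_nonneg (by positivity) hh) (by
        have e : (((((Q₁ * M : ℕ) : ℤ) * h : ℤ) : ℝ)) * Q₂ = H := by
          rw [hH2]; push_cast; ring
        rw [e]
        exact (mul_le_mul_of_nonneg_right q2 hHr0).trans hEH)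
    have hkn' : nm k ≤ E₂ * w := by
      refine hkn.trans (le_of_eq ?_)
      rw [hw, hH2]; push_cast; ring
    rw [← hH2] at hgk
    -- the difference of the smooth parts
    set y : ℤ := m - m₀ with hy
    have hy1 : 0 ≤ y := by omega
    have hy2 : y ≤ L := by omega
    have e1 : s (m + H) - s m = pol j S (y + H) - pol j S y := by
      have : m + H - m₀ = y + H := by omega
      rw [hs]; simp only
      rw [this]
    have hΔ : |s (m + H) - s m| ≤ C₁ * E * w := by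
      rw [e1]
      refine (smooth_slow hjd hE.le hL1 hS hy1 hy2 hH0 hHL).trans ?_
      rw [← hC₁]
      gcongr
    have hcm : |c - s m| ≤ 2 * M + d * E := by
      have h1 : |s m - S 0| ≤ d * E := by
        have := smooth_short hjd hE.le hL1 le_rfl hS hy1 (by
          have : (y : ℝ) ≤ (L : ℤ) := by exact_mod_cast hy2
          push_cast at this
          simpa using this)
        simpa using this
      have h2 : c - s m = (c - S 0) - (s m - S 0) := by ring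
      rw [h2]
      exact (abs_sub _ _).trans (add_le_add hc0 h1)
    have hk1 : nm k ≤ 1 := hkn'.trans ((mul_le_mul_of_nonneg_right q2 hw0).trans hEw)
    have hck : nm (v m * k * (v m)⁻¹) ≤ Cc * nm k := hc _ hcm k hk1
    have hck1 : nm (v m * k * (v m)⁻¹) ≤ Cc * (E₂ * w) := hck.trans (by gcongr)
    have hΔ1 : |-(s (m + H) - s m)| ≤ 1 / 4 := by
      rw [abs_neg]
      refine hΔ.trans ?_
      have h3 := (mul_le_mul_of_nonneg_right q3 hw0).trans hEw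
      linarith only [h3]
    have hpΔ : nm (pw (-(s (m + H) - s m)) σ) ≤ Cp * (C₁ * E * w) := by
      refine (hp _ (hΔ1.trans (by norm_num))).trans ?_
      rw [abs_neg]
      gcongr
    set k' : U := pw (-(s (m + H) - s m)) σ * (v m * k * (v m)⁻¹) with hk'
    have hk'n : nm k' ≤ E' * ((h : ℝ) * Q') / l := by
      have h1 : nm k' ≤ Cm * (Cp * (C₁ * E * w) + Cc * (E₂ * w)) := by
        refine (hm _ _ (hpΔ.trans ?_) (hck1.trans ?_)).trans ?_
        · have h3 := (mul_le_mul_of_nonneg_right q4 hw0).trans hEw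
          linarith only [h3]
        · have h3 := (mul_le_mul_of_nonneg_right q6 hw0).trans hEw
          linarith only [h3]
        · exact mul_le_mul_of_nonneg_left (add_le_add hpΔ hck1) hCm.le
      refine h1.trans ?_
      rw [← hHr, mul_div_assoc, ← hw]
      have h3 := mul_le_mul_of_nonneg_right q7 hw0
      linarith only [h3]
    have hk'0 : k' ∈ Gf 0 :=
      (Gf 0).mul_mem (hσt _) ((Gf 0).mul_mem ((Gf 0).mul_mem (hσt _) hk) ((Gf 0).inv_mem (hσt _)))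
    set γ' : U := pw (r m + c) σ * γ * pw (-(r (m + H) + c)) σ with hγ'
    have hz1 := hper m hmb
    have hz2 := hper (m + H) (by
      have : H ≡ 0 [ZMOD Q'] := by
        rw [Int.modEq_zero_iff_dvd]; exact dvd_mul_right _ _
      have h1 := hmb.add this
      rwa [add_zero] at h1)
    have hγ'La : γ' ∈ (La : Subgroup U) := by
      refine La.mul_mem (La.mul_mem (pw_la hP hMσ hz1) hγ) ?_
      rw [pwneg hP]
      exact La.inv_mem (pw_la hP hMσ hz2)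
    have hγ'0 : γ' ∈ Gf 0 := (Gf 0).mul_mem ((Gf 0).mul_mem (hσt _) hγ0) (hσt _)
    have hshift := gb_shift hP σ c s r g m H k (n ![m, ((Q₁ * M : ℕ) : ℤ) * h]) γ hgk
    have hn'v : n' ![m, h] = v m * n ![m, ((Q₁ * M : ℕ) : ℤ) * h] * (v m)⁻¹ := by
      rw [hn']
      simp only [Matrix.cons_val_zero, Matrix.cons_val_one]
    have hn'J : n' ![m, h] ∈ J := by
      rw [hn'v]; exact hJn _ (hσt _) _ (hnv _)
    have hmain : gb σ c s r g (m + H) = k' * n' ![m, h] * gb σ c s r g m * γ' := by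
      rw [hshift, hn'v]
    -- the values of the character
    have c1 := (mem_ker hχ.mul _).1 (hgb (m + H))
    have c2 := (mem_ker hχ.mul _).1 (hgb m)
    have c3 := (mem_ker hχ.mul _).1 (hJk hn'J)
    have c4 : χ k' + χ γ' = 0 := by
      have h1 := c1.2
      rw [hmain, hχ.mul _ ((Gf 0).mul_mem ((Gf 0).mul_mem hk'0 c3.1) c2.1) _ hγ'0,
        hχ.mul _ ((Gf 0).mul_mem hk'0 c3.1) _ c2.1, hχ.mul _ hk'0 _ c3.1, c2.2, c3.2] at h1
      linarith
    have c5 : |χ k'| < 1 := by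
      have h1 : χ k' = -(s (m + H) - s m) + χ k := by
        rw [hk', hχ.mul _ (hσt _) _ ((Gf 0).mul_mem ((Gf 0).mul_mem (hσt _) hk)
          ((Gf 0).inv_mem (hσt _))), hχt, hχ.inv _ (hσt _) _ hk]
      have h2 : |χ k| ≤ 1 / 4 := by
        refine hsm k hk (hkn'.trans ?_)
        have h3 : E₂ ≤ E' * ρ₀ := by rwa [div_le_iff₀ hρ₀] at q5
        calc E₂ * w ≤ (E' * ρ₀) * w := by gcongr
          _ = ρ₀ * (E' * w) := by ring
          _ ≤ ρ₀ * 1 := by gcongr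
          _ = ρ₀ := mul_one _
      rw [h1]
      refine (abs_add_le _ _).trans_lt ?_
      linarith
    obtain ⟨z, hz⟩ := hχ.int γ' hγ'La hγ'0
    have c6 : χ k' = 0 ∧ χ γ' = 0 := by
      have h1 : χ k' = ((-z : ℤ) : ℝ) := by push_cast; linarith
      rw [h1, ← Int.cast_abs] at c5
      have h2 : |-z| < 1 := by exact_mod_cast c5
      have h3 : -z = 0 := Int.abs_lt_one_iff.1 h2
      have h4 : z = 0 := by omega
      rw [h1, hz, h4]
      simp
    refine ⟨k', ⟨hk'0, (mem_ker hχ.mul _).2 ⟨hk'0, c6.1⟩⟩, hk'n, γ', hγ'La,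
      ⟨hγ'0, (mem_ker hχ.mul _).2 ⟨hγ'0, c6.2⟩⟩, ?_⟩
    exact hmain

end Redx

end

end Pool.Agent.NG
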