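import Mathlib
import Pool.Agent.Lib.NG.RED4
import Pool.Agent.Lib.NG.PWB
import Pool.Agent.Lib.NG.LEV
import Pool.Agent.Lib.NG.DEG
import Pool.Agent.Lib.NG.SIG
import Pool.Agent.Lib.NG.SIGZ
import Pool.Agent.Lib.NG.DEGZ
import Pool.Agent.Lib.NG.FNC
import Pool.Agent.Lib.NG.UNQ

/-!
# NVG2 (MP_663568_nt), row RED: the reduction to the kernel of `χ` on one cell (helper33)
-/

set_option autoImplicit false
open Finset Topology

namespace Pool.Agent.NG

open Amb Pool.Agent.Lib.MP_663568_nt Pool.Agent.Lib.MP_663568_nt.Katai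
  Pool.Agent.Lib.MP_663568_nt.Nul

noncomputable section

namespace Redx

/-- The choice of the constant and of the point of the grid. -/
theorem grid {M T : ℕ} {δ : ℝ} (hM : 1 ≤ M) (hδ : 0 < δ) (hT : 2 * (M : ℝ) ≤ δ / 2 * T)
    (s rb : ℝ) : ∃ (c : ℝ) (i : Fin T), (∃ z : ℤ, rb + c = M * z) ∧ |c - s| ≤ 2 * M ∧
      |(s - c) - δ / 2 * i| ≤ δ / 2 := by
  have hM0 : (0 : ℝ) < M := by exact_mod_cast hM
  have key : ∀ x : ℝ, 0 ≤ x - M * ⌊x / M⌋ ∧ x - M * ⌊x / M⌋ < M := by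
    intro x
    have h1 := Int.floor_le (x / M)
    have h2 := Int.lt_floor_add_one (x / M)
    rw [le_div_iff₀ hM0] at h1
    rw [div_lt_iff₀ hM0] at h2
    constructor <;> nlinarith
  obtain ⟨a1, a2⟩ := key s
  obtain ⟨b1, b2⟩ := key rb
  set t := s - M * ⌊s / M⌋ with ht
  set ρ := rb - M * ⌊rb / M⌋ with hρ
  have hu0 : 0 ≤ t + ρ := by linarith
  have hu1 : t + ρ < 2 * M := by linarith
  have hδ2 : 0 < δ / 2 := by linarith
  have hx0 : 0 ≤ (t + ρ) / (δ / 2) := by positivity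
  have h1 := Nat.floor_le hx0
  have h2 := Nat.lt_floor_add_one ((t + ρ) / (δ / 2))
  rw [le_div_iff₀ hδ2] at h1
  rw [div_lt_iff₀ hδ2] at h2
  have hlt : ⌊(t + ρ) / (δ / 2)⌋₊ < T := by
    rw [Nat.floor_lt hx0, div_lt_iff₀ hδ2]
    linarith
  refine ⟨M * ⌊s / M⌋ - ρ, ⟨_, hlt⟩, ⟨⌊s / M⌋ + ⌊rb / M⌋, ?_⟩, ?_, ?_⟩
  · push_cast
    rw [hρ]; ring
  · have : (M : ℝ) * ⌊s / M⌋ - ρ - s = -(t + ρ) := by rw [ht]; ring
    rw [this, abs_neg, abs_of_nonneg hu0]
    exact hu1.le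
  · have : s - ((M : ℝ) * ⌊s / M⌋ - ρ) = t + ρ := by rw [ht]; ring
    rw [this, abs_le]
    simp only
    constructor <;> nlinarith

theorem red_of (hPWB : PWB_stmt) (hCHS : CHS_stmt) (hLEV : LEV_stmt) (hDEG : DEG_stmt)
    (hSIG : SIGZ') (hDEGZ : DEGZ') (hUNQ : UNQ_stmt) (hFNC : FNC_stmt) : RED_stmt := by
  classical
  intro hLOW U _ Gf d N χ F q Q Q₁ E ε hG hN hχ hF hq hQ hqQ hQ₁ hE hε
  have hNG : Nrm (Gf 0) (Gf 0) := fun x hx y hy =>
    (Gf 0).mul_mem ((Gf 0).mul_mem hx hy) ((Gf 0).inv_mem hx)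
  have hle : Gf (d + 1) ≤ Gf 0 := hN.ge.trans hN.le
  obtain ⟨j, M, σ, hj1, hjd, hM, hσ, hvan, hσ1, hMσ⟩ :=
    hLEV U Gf d (Gf 0) χ hG (hG.rat 0) hNG hle le_rfl hχ
  obtain ⟨Q₂, E₂, l₁, hQ₂, hE₂, hQQ₂, hlow⟩ := redlow hDEG hLOW hG hN hχ hq hQ hqQ hQ₁ hE
  obtain ⟨E', hE', hpl⟩ := gb_pl hPWB hCHS hSIG hG hN hχ hjd hσ.2 hσ.1 hσ1 hM hQ₁ hQ₂ hE hE₂
    (hqQ.trans hQQ₂) hMσ
  obtain ⟨ρ, hρ, huc⟩ := hF.uc ε hε
  obtain ⟨Cp, hCp, hpw⟩ := nm_pw ({σ} : Set U) isCompact_singleton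
  set δ : ℝ := min 1 (ρ / Cp) with hδd
  have hδ : 0 < δ := lt_min one_pos (by positivity)
  have hδ1 : δ ≤ 1 := min_le_left _ _
  have hδρ : Cp * δ ≤ ρ := by
    have : δ ≤ ρ / Cp := min_le_right _ _
    rw [le_div_iff₀ hCp] at this
    linarith
  obtain ⟨T₁, hT₁⟩ := exists_nat_ge (2 * (M : ℝ) / (δ / 2))
  have hT : 2 * (M : ℝ) ≤ δ / 2 * T₁ := by
    rw [div_le_iff₀ (by linarith)] at hT₁
    linarith
  set Q' : ℕ := Q₂ * (Q₁ * M) with hQ'
  have hQ'1 : 1 ≤ Q' := Nat.mul_pos hQ₂ (Nat.mul_pos hQ₁ hM)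
  have hqQ' : q ∣ Q' := (hqQ.trans hQQ₂).trans (dvd_mul_right _ _)
  haveI : NeZero Q' := ⟨by omega⟩
  have hσt : ∀ t : ℝ, pw t σ ∈ Gf 0 := fun t => (hG.rat 0).pwc σ hσ.1 t
  have hnrm : Nrm (Gf 0) (Gf (d + 1)) := by
    intro x hx y hy
    have h1 := hG.com 0 (d + 1) x hx y hy
    rw [Nat.zero_add] at h1
    have h2 := (Gf (d + 1)).mul_mem h1 hy
    have e : x * y * x⁻¹ * y⁻¹ * y = x * y * x⁻¹ := by group
    rwa [e] at h2
  obtain ⟨l₂, hl₂⟩ := exists_nat_ge (2 * (d * E) / δ)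
  refine ⟨Q' * T₁, fun t y => F (pw (δ / 2 * ((finProdFinEquiv.symm t).2 : ℕ)) σ * y), Q', E',
    l₁ + l₂ + 1, hQ'1, hE', ?_, ?_⟩
  · intro t
    have h1 := (hFNC U (Gf 0) (Gf (d + 1)) F (hG.rat 0) hnrm hF).1
      (pw (δ / 2 * ((finProdFinEquiv.symm t).2 : ℕ)) σ) (hσt _)
    exact (hFNC U (Gf 0) (Gf (d + 1)) _ (hG.rat 0) hnrm h1).2.1 _ _ inf_le_left inf_le_left
  · intro m₀ L l x hl hlL hPL hNr
    have hl1 : 1 ≤ l := by omega
    have hll : l ≤ L := by nlinarith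
    have hL1 : 1 ≤ L := hl1.trans hll
    have hl0 : (0 : ℝ) < l := by exact_mod_cast hl1
    -- the polynomial
    obtain ⟨c', hc'⟩ := hDEGZ U Gf j (Gf 0) χ (fun m : ℤ => x.g (m₀ + m)) hχ.mul hvan (by
      have h1 := (lbn U ℤ Gf 0 x.g).1 ℤ (AddMonoidHom.id ℤ) m₀ x.ps
      have e : (fun n : ℤ => x.g ((AddMonoidHom.id ℤ) n + m₀)) = fun m : ℤ => x.g (m₀ + m) := by
        funext m
        rw [AddMonoidHom.id_apply, add_comm]
      rw [e] at h1
      refine ((lbn U ℤ Gf 0 (fun m : ℤ => x.g (m₀ + m))).2.1 (Gf 0)).2 ⟨h1, fun n => ?_⟩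
      simpa using h1 [] n)
    obtain ⟨S, R, hdec, hS, hR⟩ := decomp (P := fun m : ℤ => χ (x.g (m₀ + m))) hjd hUNQ hQ₁ hNr
      c' hc'
    have hDec : Dec j d E Q₁ m₀ L (fun m => χ (x.g m)) S R := ⟨hjd, hdec, hS, hR⟩
    -- the grid
    have hgrid := fun b : Fin Q' => grid hM hδ hT (S 0) (pol j R (((b : ℕ) : ℤ) - m₀))
    choose c ib hcz hcs hci using hgrid
    have hper : ∀ (b : Fin Q') (m : ℤ), m ≡ ((b : ℕ) : ℤ) [ZMOD Q'] →
        ∃ z : ℤ, pol j R (m - m₀) + c b = M * z := by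
      intro b m hm
      obtain ⟨z, hz⟩ := rat_per hR M (m - m₀) (((b : ℕ) : ℤ) - m₀) (by
        have e : m - m₀ - (((b : ℕ) : ℤ) - m₀) = m - ((b : ℕ) : ℤ) := by ring
        rw [e]
        have h1 : (Q' : ℤ) ∣ m - ((b : ℕ) : ℤ) := (Int.ModEq.dvd hm.symm)
        refine dvd_trans ?_ h1
        rw [hQ']
        push_cast
        exact dvd_mul_left _ _)
      obtain ⟨z', hz'⟩ := hcz b
      refine ⟨z + z', ?_⟩
      push_cast
      linarith
    -- the data
    refine ⟨fun t => ⟨gb σ (c (finProdFinEquiv.symm t).1) (fun m => pol j S (m - m₀))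
      (fun m => pol j R (m - m₀)) x.g,
      gb_ps hSIG hCHS hG hjd hχ hσ.2 hσ.1 hσ1 x.ps S R m₀ hdec _,
      {u | u = (((finProdFinEquiv.symm t).1 : ℕ) : ZMod Q') ∧
        (((finProdFinEquiv.symm t).1 : ℕ) : ZMod q) ∈ x.A ∧
        (finProdFinEquiv.symm t).2 = ib (finProdFinEquiv.symm t).1}⟩, ?_, ?_⟩
    · intro t a ha
      obtain ⟨h1, h2, h3⟩ := ha
      set b := (finProdFinEquiv.symm t).1 with hb
      have h4 : a ≡ ((b : ℕ) : ℤ) [ZMOD Q'] := by
        rw [← ZMod.intCast_eq_intCast_iff]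
        rw [h1]
        push_cast
        rfl
      have h5 : PL Gf N ((b : ℕ) : ℤ) q Q E m₀ L l x.g := by
        refine hPL _ ?_
        push_cast
        exact h2
      have h6 := hlow _ m₀ L l j x.g S R x.ps (by omega) hll h5 hDec
      exact hpl a ((b : ℕ) : ℤ) m₀ L l x.g S R (c b) hl1 hll x.ps h6 hDec (hper b) (hcs b) h4
    · intro m hm hm2
      -- the class of `m`
      have hbl : m % Q' < Q' := Nat.mod_lt _ (by omega)
      set b : Fin Q' := ⟨m % Q', hbl⟩ with hb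
      have hbQ : ((m : ℕ) : ZMod Q') = ((b : ℕ) : ZMod Q') := by
        rw [ZMod.natCast_eq_natCast_iff']
        simp [hb]
      have hbq : ((m : ℕ) : ZMod q) = ((b : ℕ) : ZMod q) := by
        rw [ZMod.natCast_eq_natCast_iff]
        have h1 : m ≡ m % Q' [MOD Q'] := (Nat.mod_modEq _ _).symm
        exact h1.of_dvd hqQ'
      have huniq : ∀ b' : Fin Q', ((m : ℕ) : ZMod Q') = ((b' : ℕ) : ZMod Q') → b' = b := by
        intro b' hb'
        rw [ZMod.natCast_eq_natCast_iff', Nat.mod_eq_of_lt b'.2] at hb'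
        exact Fin.ext hb'.symm
      -- the sum
      have hsum : ∑ t : Fin (Q' * T₁), Dat.ev (Gf := kf Gf χ) (q := Q')
          (fun y => F (pw (δ / 2 * ((finProdFinEquiv.symm t).2 : ℕ)) σ * y))
          ⟨gb σ (c (finProdFinEquiv.symm t).1) (fun m => pol j S (m - m₀))
            (fun m => pol j R (m - m₀)) x.g,
            gb_ps hSIG hCHS hG hjd hχ hσ.2 hσ.1 hσ1 x.ps S R m₀ hdec _,
            {u | u = (((finProdFinEquiv.symm t).1 : ℕ) : ZMod Q') ∧
              (((finProdFinEquiv.symm t).1 : ℕ) : ZMod q) ∈ x.A ∧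
              (finProdFinEquiv.symm t).2 = ib (finProdFinEquiv.symm t).1}⟩ m =
          if ((m : ℕ) : ZMod q) ∈ x.A then F (pw (δ / 2 * ((ib b : ℕ))) σ *
            gb σ (c b) (fun m => pol j S (m - m₀)) (fun m => pol j R (m - m₀)) x.g m) else 0 := by
        rw [Finset.sum_eq_single (finProdFinEquiv (b, ib b))]
        · unfold Dat.ev
          simp only [Equiv.symm_apply_apply, Set.mem_ofPred_eq, hbQ, true_and, and_true, ← hbq]
        · intro t _ ht
          unfold Dat.ev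
          simp only [Set.mem_ofPred_eq]
          rw [if_neg]
          rintro ⟨h1, h2, h3⟩
          apply ht
          have h4 := huniq _ h1
          have h5 : finProdFinEquiv.symm t = (b, ib b) := by
            refine Prod.ext h4 ?_
            rw [h3, h4]
          rw [← h5, Equiv.apply_symm_apply]
        · intro h
          exact absurd (Finset.mem_univ _) h
      rw [hsum]
      unfold Dat.ev
      by_cases hmA : ((m : ℕ) : ZMod q) ∈ x.A
      · rw [if_pos hmA, if_pos hmA]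
        -- the value of `g`
        set s : ℤ → ℝ := fun m => pol j S (m - m₀) with hs
        set r : ℤ → ℝ := fun m => pol j R (m - m₀) with hr
        have hmb : (m : ℤ) ≡ ((b : ℕ) : ℤ) [ZMOD Q'] := by
          rw [← ZMod.intCast_eq_intCast_iff]
          push_cast
          exact hbQ
        have h1 := gb_val hPWB σ (c b) s r x.g m
        have hgb0 : gb σ (c b) s r x.g m ∈ Gf 0 := by
          have h2 := gb_ps hSIG hCHS hG hjd hχ hσ.2 hσ.1 hσ1 x.ps S R m₀ hdec (c b)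
          exact (h2 [] m).1
        have h3 : F (x.g m) = F (pw (s m - c b) σ * gb σ (c b) s r x.g m) := by
          rw [h1]
          exact hF.lat _ ((Gf 0).mul_mem (hσt _) hgb0) _ (pw_la hPWB hMσ (hper b m hmb)) (hσt _)
        have h4 : pw (s m - c b) σ * gb σ (c b) s r x.g m =
            pw (s m - c b - δ / 2 * ((ib b : ℕ) : ℝ)) σ *
              (pw (δ / 2 * ((ib b : ℕ) : ℝ)) σ * gb σ (c b) s r x.g m) := by
          rw [← mul_assoc, ← pw_add]
          congr 2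
          ring
        rw [h3, h4]
        refine huc _ (hσt _) ?_ _ ((Gf 0).mul_mem (hσt _) hgb0)
        -- the smallness
        have hy0 : 0 ≤ (m : ℤ) - m₀ := by omega
        have h5 : |s m - S 0| ≤ d * E / l := by
          refine smooth_short hjd hE.le hL1 hl1 hS hy0 ?_
          have h6 : ((l * m : ℕ) : ℝ) ≤ ((l * m₀ + L : ℕ) : ℝ) := by exact_mod_cast hm2
          push_cast at h6 ⊢
          nlinarith
        have h7 : (d : ℝ) * E / l ≤ δ / 2 := by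
          rw [div_le_iff₀ hl0]
          rw [div_le_iff₀ hδ] at hl₂
          have h8 : (l₂ : ℝ) ≤ l := by
            have : l₂ ≤ l := by omega
            exact_mod_cast this
          nlinarith
        have h9 : |s m - c b - δ / 2 * ((ib b : ℕ) : ℝ)| ≤ δ := by
          have e : s m - c b - δ / 2 * ((ib b : ℕ) : ℝ) =
              (s m - S 0) + ((S 0 - c b) - δ / 2 * ((ib b : ℕ) : ℝ)) := by ring
          rw [e]
          refine (abs_add_le _ _).trans ?_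
          have := hci b
          linarith
        refine (hpw σ rfl _ (h9.trans hδ1)).trans ?_
        calc Cp * |s m - c b - δ / 2 * ((ib b : ℕ) : ℝ)| ≤ Cp * δ := by gcongr
          _ ≤ ρ := hδρ
      · rw [if_neg hmA, if_neg hmA, sub_zero, norm_zero]
        exact hε.le

end Redx

/-- Row RED. -/
theorem red : RED_stmt :=
  Redx.red_of pwb chs lev deg (sigz sig lbn) (degz deg lbn) unq fnc

end

end Pool.Agent.NG
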