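import Pool.Agent.Lib.NV.RICHALL
import Pool.Agent.Lib.NV.MainA

/-!
# Row RIA (MP_663568_nt, NVG): the system of a family of arbitrary data, several coefficients

(after helper93, `VQ.okq`; helper95)
-/

set_option autoImplicit false
open Finset MeasureTheory Polynomial

namespace Pool.Agent.NG

open Pool.Agent.Lib.MP_663568_nt Pool.Agent.Lib.MP_663568_nt.Katai
  Pool.Agent.Lib.MP_663568_nt.Nul Pool.Agent.SV Pool.Agent.VQ Pool.Agent.NV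

noncomputable section

/-- The number of the changes before `e ^ u`. -/
def stA {α : Type} (Q : ℕ → α) (u : ℝ) : ℤ := by
  classical
  exact ((#((range ⌊Real.exp u⌋₊).filter fun i => Q (i + 1) ≠ Q i) : ℕ) : ℤ)

/-- Row RIA: the coefficients of a family are near rational numbers at the lower level. -/
def RIA_stmt : Prop := ∀ (T : ℕ) (A κ₁ κ₂ δ : ℝ), 1 ≤ T → 0 ≤ A → 0 < κ₁ → κ₁ ≤ κ₂ →
  κ₂ ≤ 1 / 4 → 0 < δ → δ ≤ 1 →
  ∃ (c B : ℝ) (Q₀ H₀ : ℕ), 0 < c ∧ 0 ≤ B ∧ 1 ≤ Q₀ ∧ ∀ H : ℕ, H₀ ≤ H → 1 ≤ Ls (PPs H κ₁ κ₂) →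
  ∀ (α ι : Type) (Q : ℕ → α) (t : ι → ℕ) (cf : ι → α → ℝ) (b : ι → ℝ → ℝ) (tau : ι → ℝ)
  (G : ℕ → Set ℝ) (xa xb : ℝ), 1 ≤ xa → xa * H ≤ xb → SlowA Q ((H : ℝ) ^ A) →
  (∀ i, 1 ≤ t i ∧ t i ≤ T) → (∀ i, 0 ≤ tau i ∧ tau i ≤ (H : ℝ) ^ (-B)) →
  (∀ p, MeasurableSet (G p)) →
  (∀ p, ∀ u ∈ G p, p ∈ PPs H κ₁ κ₂ ∧ Real.log xa - Real.log p ≤ u ∧
    u ≤ Real.log xb - Real.log p ∧
    ∀ i, ∃ k : ℤ, |(p : ℝ) ^ (t i) * cf i (Q ⌊(p : ℝ) * Real.exp u⌋₊) - b i u - k| ≤ tau i) →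
  δ * (Real.log xb - Real.log xa) ≤
    ∑ p ∈ PPs H κ₁ κ₂, wt (PPs H κ₁ κ₂) p * (volume (G p)).toReal →
  ∃ q ∈ PPs H κ₁ κ₂, ∃ S : Set ℝ, MeasurableSet S ∧ S ⊆ G q ∧
    c * (Real.log xb - Real.log xa) ≤ (volume S).toReal ∧
    ∀ u ∈ S, ∀ i, ∃ j : ℤ, |(q : ℝ) ^ (t i) * cf i (Q ⌊(q : ℝ) * Real.exp u⌋₊) - j / Q₀| ≤
      ((H : ℝ) ^ B + 1) * tau i

namespace RIAx

variable {α : Type}

open Classical in
theorem stA_add (Q : ℕ → α) {u v : ℝ} (h : u ≤ v) :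
    stA Q v = stA Q u + (#((Ico ⌊Real.exp u⌋₊ ⌊Real.exp v⌋₊).filter
      fun i => Q (i + 1) ≠ Q i) : ℕ) := by
  have hle : ⌊Real.exp u⌋₊ ≤ ⌊Real.exp v⌋₊ := by
    apply Nat.floor_mono
    gcongr
  unfold stA
  rw [← Nat.cast_add]
  congr 1
  rw [card_filter, card_filter, card_filter, sum_range_add_sum_Ico _ hle]

open Classical in
theorem stA_const (Q : ℕ → α) {u v : ℝ} (h : u ≤ v) (he : stA Q u = stA Q v) :
    Q ⌊Real.exp u⌋₊ = Q ⌊Real.exp v⌋₊ := by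
  have hle : ⌊Real.exp u⌋₊ ≤ ⌊Real.exp v⌋₊ := by
    apply Nat.floor_mono
    gcongr
  rw [stA_add Q h] at he
  have h0 : (Ico ⌊Real.exp u⌋₊ ⌊Real.exp v⌋₊).filter (fun i => Q (i + 1) ≠ Q i) = ∅ := by
    rw [← card_eq_zero]; omega
  rw [filter_eq_empty_iff] at h0
  have key : ∀ n, ⌊Real.exp u⌋₊ ≤ n → n ≤ ⌊Real.exp v⌋₊ → Q ⌊Real.exp u⌋₊ = Q n := by
    intro n hn
    induction n, hn using Nat.le_induction with
    | base => intro _; rfl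
    | succ n hn ih =>
      intro h1
      rw [ih (by omega)]
      have := h0 (x := n) (by rw [mem_Ico]; omega)
      exact (not_not.1 this).symm
  exact key _ hle le_rfl

open Classical in
theorem grow (Q : ℕ → α) {K : ℝ} (hQ : SlowA Q K) {n N : ℕ} (h : N ≤ 4 * (n + 1)) (hK : 0 ≤ K) :
    (#((Ico n N).filter fun i => Q (i + 1) ≠ Q i) : ℝ) ≤ 1 + 4 * K := by
  have hQ' : ∀ j : ℕ, (#((Ico (2 ^ j) (2 ^ (j + 1))).filter fun n => Q (n + 1) ≠ Q n) : ℝ) ≤ K := by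
    intro j
    exact hQ j
  obtain ⟨j, hj⟩ : ∃ j, j = Nat.log 2 (n + 1) := ⟨_, rfl⟩
  have h1 : 2 ^ j ≤ n + 1 := by rw [hj]; exact Nat.pow_log_le_self 2 (by omega)
  have h2 : n + 1 < 2 ^ (j + 1) := by rw [hj]; exact Nat.lt_pow_succ_log_self (by norm_num) _
  have hsub : (Ico n N).filter (fun i => Q (i + 1) ≠ Q i) ⊆ insert n
      ((range 4).biUnion fun i => (Ico (2 ^ (j + i)) (2 ^ (j + i + 1))).filter
        fun n => Q (n + 1) ≠ Q n) := by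
    intro x hx
    rw [mem_filter, mem_Ico] at hx
    rw [mem_insert, mem_biUnion]
    by_cases hxn : x = n
    · exact Or.inl hxn
    · right
      have h3 : 2 ^ j ≤ x := by omega
      have h4 : x < 2 ^ (j + 3) := by
        have : 2 ^ (j + 3) = 4 * 2 ^ (j + 1) := by ring
        omega
      obtain ⟨i, hi⟩ : ∃ i, i = Nat.log 2 x := ⟨_, rfl⟩
      have hx0 : x ≠ 0 := by
        have := Nat.pow_pos (n := j) (show 0 < 2 by norm_num)
        omega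
      have h5 : 2 ^ i ≤ x := by rw [hi]; exact Nat.pow_log_le_self 2 hx0
      have h6 : x < 2 ^ (i + 1) := by rw [hi]; exact Nat.lt_pow_succ_log_self (by norm_num) _
      have h7 : j ≤ i := by
        rw [hi]
        exact Nat.le_log_of_pow_le (by norm_num) h3
      have h8 : i < j + 3 := by
        by_contra hc
        have : 2 ^ (j + 3) ≤ 2 ^ i := Nat.pow_le_pow_right (by norm_num) (by omega)
        omega
      refine ⟨i - j, by rw [mem_range]; omega, ?_⟩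
      rw [mem_filter, mem_Ico, show j + (i - j) = i by omega]
      exact ⟨⟨h5, h6⟩, hx.2⟩
  have h9 := (card_le_card hsub).trans (card_insert_le _ _)
  have h10 : (#((range 4).biUnion fun i => (Ico (2 ^ (j + i)) (2 ^ (j + i + 1))).filter
        fun n => Q (n + 1) ≠ Q n) : ℝ) ≤ 4 * K := by
    calc (#((range 4).biUnion fun i => (Ico (2 ^ (j + i)) (2 ^ (j + i + 1))).filter
        fun n => Q (n + 1) ≠ Q n) : ℝ) ≤ ∑ i ∈ range 4, (#((Ico (2 ^ (j + i))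
          (2 ^ (j + i + 1))).filter fun n => Q (n + 1) ≠ Q n) : ℝ) := by
          exact_mod_cast card_biUnion_le
      _ ≤ ∑ i ∈ range 4, K := sum_le_sum fun i _ => hQ' (j + i)
      _ = 4 * K := by rw [sum_const, card_range]; simp
  have h11 : (#((Ico n N).filter fun i => Q (i + 1) ≠ Q i) : ℝ) ≤
      (#((range 4).biUnion fun i => (Ico (2 ^ (j + i)) (2 ^ (j + i + 1))).filter
        fun n => Q (n + 1) ≠ Q n) : ℝ) + 1 := by exact_mod_cast h9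
  linarith

/-- The system without frequencies. -/
def sys0 (H : ℕ) (κ₁ κ₂ : ℝ) (Q : ℕ → α) (G : ℕ → Set ℝ) (xa xb : ℝ) : Sys :=
  ⟨PPs H κ₁ κ₂, fun _ => 0, fun _ => 0, stA Q, G, 0,
    Real.log xa - Real.log ((H : ℝ) ^ κ₂), Real.log xb⟩

/-- The system of one coefficient. -/
def sys1 (H : ℕ) (κ₁ κ₂ : ℝ) (Q : ℕ → α) (cf : α → ℝ) (b : ℝ → ℝ) (G : ℕ → Set ℝ)
    (tau xa xb : ℝ) : Sys :=
  ⟨PPs H κ₁ κ₂, fun u => cf (Q ⌊Real.exp u⌋₊), b, stA Q, G, tau,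
    Real.log xa - Real.log ((H : ℝ) ^ κ₂), Real.log xb⟩

theorem dum_sys1 (H : ℕ) (κ₁ κ₂ : ℝ) (Q : ℕ → α) (cf : α → ℝ) (b : ℝ → ℝ) (G : ℕ → Set ℝ)
    (tau xa xb : ℝ) : dum (sys1 H κ₁ κ₂ Q cf b G tau xa xb) = sys0 H κ₁ κ₂ Q G xa xb := rfl

theorem ok0 (A κ₁ κ₂ : ℝ) (hA : 0 ≤ A) (hκ₁ : 0 < κ₁) (hκ₂ : κ₂ ≤ 1 / 4) :
    ∃ H₀ : ℕ, ∀ H : ℕ, H₀ ≤ H → 1 ≤ Ls (PPs H κ₁ κ₂) → ∀ (α : Type) (Q : ℕ → α)
    (G : ℕ → Set ℝ) (xa xb : ℝ), 1 ≤ xa → xa ≤ xb → SlowA Q ((H : ℝ) ^ A) →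
    (∀ p, MeasurableSet (G p)) →
    (∀ p, ∀ u ∈ G p, p ∈ PPs H κ₁ κ₂ ∧ Real.log xa - Real.log p ≤ u ∧
      u ≤ Real.log xb - Real.log p) →
    (sys0 H κ₁ κ₂ Q G xa xb).OK ((H : ℝ) ^ κ₁) ((H : ℝ) ^ κ₂) ((H : ℝ) ^ (A + 1)) := by
  have t := tendsto_natCast_atTop_atTop (R := ℝ)
  have h1 := (tendsto_rpow_atTop hκ₁).comp t
  obtain ⟨H₀, hH₀⟩ := Filter.eventually_atTop.1
    ((h1.eventually_ge_atTop 2).and (t.eventually_ge_atTop 5))
  refine ⟨H₀, ?_⟩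
  intro H hH hL α Q G xa xb hxa hxab hQ hG hgood
  obtain ⟨h2, h5⟩ := hH₀ H hH
  replace h2 : 2 ≤ (H : ℝ) ^ κ₁ := h2
  have hH0 : (0 : ℝ) < H := by linarith
  have hPP : ∀ p ∈ PPs H κ₁ κ₂, p.Prime ∧ (H : ℝ) ^ κ₁ ≤ p ∧ (p : ℝ) ≤ (H : ℝ) ^ κ₂ := by
    intro p hp
    unfold PPs at hp
    rw [mem_filter, mem_Icc] at hp
    exact ⟨hp.2.1, hp.2.2, (Nat.le_floor_iff (Real.rpow_nonneg hH0.le _)).1 hp.1.2⟩
  have hHA : (1 : ℝ) ≤ (H : ℝ) ^ A := Real.one_le_rpow (by linarith) hA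
  have hHA1 : (H : ℝ) ^ (A + 1) = (H : ℝ) ^ A * H := by
    rw [Real.rpow_add hH0, Real.rpow_one]
  refine ⟨h2, fun p hp => (hPP p hp).1, fun p hp => (hPP p hp).2.1, fun p hp => (hPP p hp).2.2,
    hL, ?_, ?_, ?_, ?_, hG, ?_, ?_, ?_, ?_⟩
  · rw [hHA1]
    nlinarith
  · intro u v huv
    show stA Q u ≤ stA Q v
    rw [stA_add Q huv]
    omega
  · intro u
    show (stA Q (u + 1) : ℝ) ≤ stA Q u + (H : ℝ) ^ (A + 1)
    rw [stA_add Q (by linarith : u ≤ u + 1)]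
    have h6 : ⌊Real.exp (u + 1)⌋₊ ≤ 4 * (⌊Real.exp u⌋₊ + 1) := by
      apply Nat.floor_le_of_le
      push_cast
      have e1 := Nat.lt_floor_add_one (Real.exp u)
      have e2 : Real.exp (u + 1) = Real.exp u * Real.exp 1 := Real.exp_add _ _
      have e3 := Real.exp_one_lt_d9
      have e4 := Real.exp_pos u
      rw [e2]
      nlinarith
    have h7 := grow Q hQ h6 (by linarith)
    push_cast
    rw [hHA1]
    nlinarith
  · intro u v huv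
    rfl
  · intro p u hu
    obtain ⟨hp, h3, h4⟩ := hgood p u hu
    have hp1 : (1 : ℝ) ≤ p := by exact_mod_cast (hPP p hp).1.one_lt.le
    have e1 : Real.log p ≤ Real.log ((H : ℝ) ^ κ₂) :=
      Real.log_le_log (by linarith) (hPP p hp).2.2
    have e2 : 0 ≤ Real.log p := Real.log_nonneg hp1
    refine ⟨hp, ?_, ?_⟩
    · show Real.log xa - Real.log ((H : ℝ) ^ κ₂) ≤ u
      linarith
    · show u ≤ Real.log xb
      linarith
  · intro p u hu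
    refine ⟨0, ?_⟩
    show |(p : ℝ) * 0 - 0 - ((0 : ℤ) : ℝ)| ≤ 0
    simp
  · show Real.log ((H : ℝ) ^ κ₂) ≤ Real.log xb - (Real.log xa - Real.log ((H : ℝ) ^ κ₂))
    have := Real.log_le_log (by linarith) hxab
    linarith
  · show (0 : ℝ) ≤ 0
    exact le_rfl

end RIAx

open RIAx in
theorem ria : RIA_stmt := by
  classical
  have hNTT : NTT' := ntt vqrec nta sv1 svq nrt phq ntb
  have hE1 : E1T' := e1t (p3t p1t) p2t k2
  have hRI : RICHALL' := richall j1 j2 k1 k3 p0t hE1 hNTT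
  intro T A κ₁ κ₂ δ hT hA hκ₁ hκ₁₂ hκ₂ hδ hδ1
  obtain ⟨c, B, Q₀, H₁, hc, hB, hQ₀, hRI⟩ := hRI T (A + 1) κ₁ κ₂ (δ / 2) hT (by linarith) hκ₁ hκ₁₂
    hκ₂ (by positivity) (by linarith)
  obtain ⟨H₂, hok⟩ := ok0 A κ₁ κ₂ hA hκ₁ hκ₂
  refine ⟨c, B, Q₀, max 3 (max ⌈H₁⌉₊ H₂), hc, hB, hQ₀, ?_⟩
  intro H hH hL α ι Q t cf b tau G xa xb hxa hxab hQ ht htau hG hgood hmass
  have hH3 : 3 ≤ H := (le_max_left _ _).trans hH
  have hH1 : ⌈H₁⌉₊ ≤ H := (le_max_left _ _).trans ((le_max_right _ _).trans hH)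
  have hH2 : H₂ ≤ H := (le_max_right _ _).trans ((le_max_right _ _).trans hH)
  have hH1' : H₁ ≤ H := (Nat.le_ceil _).trans (by exact_mod_cast hH1)
  have hH3' : (3 : ℝ) ≤ H := by exact_mod_cast hH3
  have hH0 : (0 : ℝ) < H := by linarith
  have hxa0 : 0 < xa := by linarith
  have hxab' : xa ≤ xb := by
    refine le_trans ?_ hxab
    nlinarith
  have hxb0 : 0 < xb := by linarith
  have hok := hok H hH2 hL α Q G xa xb hxa hxab' hQ hG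
    fun p u hu => ⟨(hgood p u hu).1, (hgood p u hu).2.1, (hgood p u hu).2.2.1⟩
  have hPP : ∀ p ∈ PPs H κ₁ κ₂, p.Prime := by
    intro p hp
    unfold PPs at hp
    rw [mem_filter, mem_Icc] at hp
    exact hp.2.1
  have hconst : ∀ u v : ℝ, stA Q u = stA Q v → Q ⌊Real.exp u⌋₊ = Q ⌊Real.exp v⌋₊ := by
    intro u v huv
    rcases le_total u v with h | h
    · exact stA_const Q h huv
    · exact (stA_const Q h huv.symm).symm
  have hokT : ∀ i, OKT (sys1 H κ₁ κ₂ Q (cf i) (b i) G (tau i) xa xb) (t i) ((H : ℝ) ^ κ₁)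
      ((H : ℝ) ^ κ₂) ((H : ℝ) ^ (A + 1)) := by
    intro i
    refine ⟨hok, ?_, ?_, (htau i).1⟩
    · intro u v huv
      show cf i (Q ⌊Real.exp u⌋₊) = cf i (Q ⌊Real.exp v⌋₊)
      rw [hconst u v huv]
    · intro p u hu
      obtain ⟨hp, _, _, hk⟩ := hgood p u hu
      obtain ⟨k, hk⟩ := hk i
      have hp1 : (1 : ℝ) ≤ p := by exact_mod_cast (hPP p hp).one_lt.le
      refine ⟨k, ?_⟩
      show |(p : ℝ) ^ t i * cf i (Q ⌊Real.exp (u + Real.log p)⌋₊) - b i u - k| ≤ tau i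
      rw [Real.exp_add, Real.exp_log (by linarith), mul_comm (Real.exp u)]
      exact hk
  have hlen : Real.log xb - (Real.log xa - Real.log ((H : ℝ) ^ κ₂)) ≤
      2 * (Real.log xb - Real.log xa) := by
    have h1 : Real.log H ≤ Real.log xb - Real.log xa := by
      have := Real.log_le_log (by positivity) hxab
      rw [Real.log_mul hxa0.ne' hH0.ne'] at this
      linarith
    have h2 : Real.log ((H : ℝ) ^ κ₂) ≤ Real.log H := by
      rw [Real.log_rpow hH0]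
      have h3 : 0 ≤ Real.log H := Real.log_nonneg (by linarith)
      nlinarith
    linarith
  have hlen0 : 0 ≤ Real.log xb - Real.log xa := by
    have := Real.log_le_log hxa0 hxab'
    linarith
  have h2 := hRI H hH1' ι t (fun i => sys1 H κ₁ κ₂ Q (cf i) (b i) G (tau i) xa xb)
    (sys0 H κ₁ κ₂ Q G xa xb) ((H : ℝ) ^ (A + 1)) ht hok (fun i => rfl) hokT le_rfl
    (fun i => (htau i).2) (by
      show δ / 2 * (Real.log xb - (Real.log xa - Real.log ((H : ℝ) ^ κ₂))) ≤ _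
      refine le_trans ?_ hmass
      calc δ / 2 * (Real.log xb - (Real.log xa - Real.log ((H : ℝ) ^ κ₂))) ≤
            δ / 2 * (2 * (Real.log xb - Real.log xa)) := by gcongr
        _ = δ * (Real.log xb - Real.log xa) := by ring)
  obtain ⟨q, hq, S, hSm, hSG, hSv, hS⟩ := h2
  refine ⟨q, hq, S, hSm, hSG, ?_, ?_⟩
  · refine le_trans ?_ hSv
    show c * (Real.log xb - Real.log xa) ≤
      c * (Real.log xb - (Real.log xa - Real.log ((H : ℝ) ^ κ₂)))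
    have h3 : 0 ≤ Real.log ((H : ℝ) ^ κ₂) :=
      Real.log_nonneg (Real.one_le_rpow (by linarith) (by linarith))
    gcongr
    linarith
  · intro u hu i
    obtain ⟨j, hj⟩ := hS u hu i
    have hj' : |b i u - j / Q₀| ≤ (H : ℝ) ^ B * tau i := hj
    obtain ⟨k, hk⟩ := (hgood q u (hSG hu)).2.2.2 i
    refine ⟨j + k * Q₀, ?_⟩
    have hQ₀R : (0 : ℝ) < Q₀ := by exact_mod_cast hQ₀
    have e1 : (q : ℝ) ^ t i * cf i (Q ⌊(q : ℝ) * Real.exp u⌋₊) - ((j + k * Q₀ : ℤ) : ℝ) / Q₀ =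
        ((q : ℝ) ^ t i * cf i (Q ⌊(q : ℝ) * Real.exp u⌋₊) - b i u - k) + (b i u - j / Q₀) := by
      push_cast
      field_simp
      ring
    rw [e1]
    refine (abs_add_le _ _).trans ((add_le_add hk hj').trans (le_of_eq ?_))
    ring

end

end Pool.Agent.NG
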