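import Pool.Agent.Lib.NG.SYCM
import Pool.Agent.Lib.NG.RIA

/-!
# Row GSTEP (MP_663568_nt, NVG): one step from the level `H` to the level `l`

The passage to the lower level, the pairs of primes, the choice of a type of relation and, for the
relations between coefficients, the rich points; for families of arbitrary data.
(after helper28, `NV.nstep`; helper95)
-/

set_option autoImplicit false
open Finset MeasureTheory Polynomial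

namespace Pool.Agent.NG

open Pool.Agent.Lib.MP_663568_nt Pool.Agent.Lib.MP_663568_nt.Katai
  Pool.Agent.Lib.MP_663568_nt.Nul Pool.Agent.SV Pool.Agent.VQ Pool.Agent.NV

noncomputable section

/-- The data at the lower level: `x = dl p (Q_{⌊p e^v⌋})`. -/
def lx {α : Type} (dl : ℕ → α → α) (Q : ℕ → α) (p : ℕ) (v : ℝ) : α :=
  dl p (Q ⌊(p : ℝ) * Real.exp v⌋₊)

/-- `v` is in the range of `p` and the family is constant on the cell. -/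
def InR {α : Type} (Q : ℕ → α) (K : ℕ) (ya yb : ℝ) (p : ℕ) (v : ℝ) : Prop :=
  Real.log ya - Real.log p ≤ v ∧ v ≤ Real.log yb - Real.log p ∧ CstA Q K p v

/-- What a relation of the type `θ` gives for `x`, `x'` on the cell `j`. -/
def Out {α Θ : Type} {ι : Θ → Type} (kd : Θ → Fin 3) (P : Θ → ℕ → α → Prop)
    (cf cf' : (θ : Θ) → ι θ → α → ℝ) (tau : (θ : Θ) → ι θ → ℝ) (K j : ℕ) (x x' : α) (θ : Θ) :
    Prop :=
  (kd θ = 0 → ∀ m : ℕ, 1 ≤ m → cl K (Real.log m) = j → P θ m x) ∧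
  (kd θ = 1 → ∀ m : ℕ, 1 ≤ m → cl K (Real.log m) = j → P θ m x') ∧
  (kd θ = 2 → ∀ i, ∃ k : ℤ, |cf θ i x - cf' θ i x' - k| ≤ tau θ i)

open Classical in
/-- **Row GSTEP.** -/
def GSTEP_stmt : Prop := ∀ A ε : ℝ, 0 ≤ A → 0 < ε → ε ≤ 1 → ∃ c κ₁ : ℝ, 0 < c ∧ c ≤ 1 ∧ 0 < κ₁ ∧
  κ₁ ≤ 1 / 8 ∧ ∀ (N T : ℕ) (B₁ : ℝ), 1 ≤ T → 0 ≤ B₁ →
  ∃ (δ B AR : ℝ) (Q₀ H₀ : ℕ), 0 < δ ∧ 0 ≤ B ∧ 0 ≤ AR ∧ 1 ≤ Q₀ ∧ ∀ H : ℕ, H₀ ≤ H →
  ∃ l : ℕ, (H : ℝ) ^ (1 / 2 : ℝ) ≤ l ∧ (l : ℝ) ≤ (H : ℝ) ^ (7 / 8 : ℝ) ∧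
  ∀ (α : Type) (ev : α → ℕ → ℂ) (dl : ℕ → α → α), (∀ x m, ‖ev x m‖ ≤ 1) →
  (∀ p x m, ev (dl p x) m = ev x (p * m)) → ∀ xa xb : ℝ, (H : ℝ) ^ B ≤ xa → xa * H ≤ xb →
  ∀ Q : ℕ → α, SlowA Q ((H : ℝ) ^ A) →
  ε * (Real.log xb - Real.log xa) < ∑ n ∈ Ioc ⌊xa⌋₊ ⌊xb⌋₊, (1 / (n : ℝ)) * Wg H n (ev (Q n)) →
  ∃ ya yb : ℝ, xa ≤ ya ∧ yb ≤ xb ∧ ya * H ≤ yb ∧ yb ≤ ya * (H : ℝ) ^ 2 ∧
  ∀ (K : ℕ), K = ⌈(H : ℝ) ^ (A + 1)⌉₊ →
  ∀ (Θ : Type) [Fintype Θ] [Nonempty Θ] (ι : Θ → Type) (kd : Θ → Fin 3)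
    (P : Θ → ℕ → α → Prop) (P0 : ℕ → α → Prop) (t : (θ : Θ) → ι θ → ℕ)
    (cf cf' : (θ : Θ) → ι θ → α → ℝ) (tau : (θ : Θ) → ι θ → ℝ) (x₀ : α), Fintype.card Θ ≤ N →
  (∀ θ i, 1 ≤ t θ i ∧ t θ i ≤ T) → (∀ θ i, 0 ≤ tau θ i ∧ tau θ i ≤ (H : ℝ) ^ B₁ / ya) →
  (∀ θ i p x, cf θ i (dl p x) = (p : ℝ) ^ (t θ i) * cf θ i x) →
  (∀ m, P0 m x₀) → (∀ θ m, P θ m x₀) → (∀ θ i, cf θ i x₀ = 0) →
  (∀ p ∈ PPs H κ₁ (1 / 8), ∀ v : ℝ, InR Q K ya yb p v →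
    ∀ m : ℕ, 1 ≤ m → cl K (Real.log m) = cl K v → P0 m (lx dl Q p v)) →
  (∀ p ∈ PPs H κ₁ (1 / 8), ∀ p' ∈ PPs H κ₁ (1 / 8), ∀ (v : ℝ) (n L : ℕ), InR Q K ya yb p v →
    InR Q K ya yb p' v →
    (∀ m : ℕ, n ≤ m → m < n + L → 1 ≤ m ∧ cl K (Real.log m) = cl K v) →
    (∀ m : ℕ, 1 ≤ m → cl K (Real.log m) = cl K v → n ≤ m ∧ m < n + L) →
    (n : ℝ) ≤ 2 * Real.exp v → Real.exp v ≤ 2 * n → ya / (H : ℝ) ^ (A + 6) ≤ L →
    c / 8 * L ≤ (#((Ico n (n + L)).filter fun m : ℕ =>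
      c ≤ Kg l m (ev (lx dl Q p v)) (ev (lx dl Q p' v))) : ℝ) →
    ∃ θ : Θ, Out kd P cf cf' tau K (cl K v) (lx dl Q p v) (lx dl Q p' v) θ) →
  ∃ (θ : Θ) (Q' : ℕ → α), SlowA Q' ((l : ℝ) ^ AR) ∧ (∀ m, 1 ≤ m → P0 m (Q' m)) ∧
    (kd θ ≠ 2 → ∀ m, 1 ≤ m → P θ m (Q' m)) ∧
    (kd θ = 2 → ∀ m i, 1 ≤ m → ∃ j : ℤ, |cf θ i (Q' m) - j / Q₀| ≤ (H : ℝ) ^ B * tau θ i) ∧
    δ * (Real.log yb - Real.log (ya / (2 * (H : ℝ) ^ (1 / 8 : ℝ)))) ≤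
      ∑ m ∈ Ioc ⌊ya / (2 * (H : ℝ) ^ (1 / 8 : ℝ))⌋₊ ⌊yb⌋₊, (1 / (m : ℝ)) * Wg l m (ev (Q' m))

open NSTEPx in
theorem gstep : GSTEP_stmt := by
  classical
  intro A ε hA hε0 hε1
  obtain ⟨κ₁, η, B₁', hκ₁, hκ₁₂, hη, hη1, hB₁', H₁, hD⟩ := dila tkg A ε (1 / 8) hA hε0 hε1
    (by norm_num) (by norm_num)
  obtain ⟨c, B₂, H₂, hc, hc1, hB₂, hSA⟩ := syaa paira A (ε / 2) κ₁ (1 / 8) hA (by positivity)
    (by linarith) hκ₁ hκ₁₂ (by norm_num)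
  refine ⟨c, κ₁, hc, hc1, hκ₁, hκ₁₂, ?_⟩
  intro N T B₁ hT hB₁
  obtain ⟨e, he⟩ : ∃ e : ℝ, e = ε / 2 / 4 := ⟨_, rfl⟩
  have he0 : 0 < e := by rw [he]; positivity
  obtain ⟨δ, hδ⟩ : ∃ δ : ℝ, δ = c / 2 / (N + 1) := ⟨_, rfl⟩
  have hN0 : (0 : ℝ) ≤ N := Nat.cast_nonneg _
  have hδ0 : 0 < δ := by rw [hδ]; positivity
  have hδ1 : δ ≤ 1 := by
    rw [hδ, div_le_one (by positivity)]
    linarith
  obtain ⟨c₅, B₅, Q₀, H₅, hc₅, hB₅, hQ₀, hRI⟩ := ria T A κ₁ (1 / 8) δ hT hA hκ₁ hκ₁₂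
    (by norm_num) hδ0 hδ1
  obtain ⟨AR, hAR⟩ : ∃ AR : ℝ, AR = 2 * (A + 2) := ⟨_, rfl⟩
  obtain ⟨δ₆, hδ₆⟩ : ∃ δ₆ : ℝ, δ₆ = min δ c₅ := ⟨_, rfl⟩
  have hδ₆0 : 0 < δ₆ := by rw [hδ₆]; exact lt_min hδ0 hc₅
  obtain ⟨W, hW⟩ : ∃ W : ℝ, W = (H₁ + H₂ + 3000 + H₅ : ℝ) := ⟨_, rfl⟩
  obtain ⟨H₀, hH₀⟩ := step_large η W hη
  obtain ⟨B, hB⟩ : ∃ B : ℝ, B = B₁' + B₂ + (A + 6) + (B₅ + 1) + B₁ + 2 := ⟨_, rfl⟩
  have hB0 : 0 ≤ B := by rw [hB]; positivity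
  refine ⟨e * δ₆ / 3, B, AR, Q₀, H₀, by positivity, hB0, by rw [hAR]; positivity, hQ₀, ?_⟩
  intro H hH
  obtain ⟨w1, w2, w3, w4, w5, w6⟩ := hH₀ H hH
  have hn : ∀ n : ℕ, (0 : ℝ) ≤ n := fun n => Nat.cast_nonneg n
  have hWn : ∀ n : ℕ, (n : ℝ) ≤ W → n ≤ H := fun n h => by exact_mod_cast h.trans w1
  have hH1' : H₁ ≤ H := hWn _ (by rw [hW]; linarith [hn H₂, hn H₅])
  have hH2' : H₂ ≤ H := hWn _ (by rw [hW]; linarith [hn H₁, hn H₅])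
  have hH3' : 3000 ≤ H := hWn _ (by rw [hW]; push_cast; linarith [hn H₁, hn H₂, hn H₅])
  have hH5' : H₅ ≤ H := hWn _ (by rw [hW]; linarith [hn H₁, hn H₂])
  have hH0 : (0 : ℝ) < H := by linarith
  have hH1 : (1 : ℝ) ≤ H := by linarith
  have hpos : ∀ y : ℝ, 0 < (H : ℝ) ^ y := fun y => Real.rpow_pos_of_pos hH0 y
  obtain ⟨l, hl⟩ : ∃ l : ℕ, l = ⌊η * (H : ℝ) ^ (1 - 1 / 8 : ℝ)⌋₊ := ⟨_, rfl⟩
  have hlb : (H : ℝ) ^ (1 / 2 : ℝ) ≤ l := by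
    have := Nat.lt_floor_add_one (η * (H : ℝ) ^ (1 - 1 / 8 : ℝ))
    rw [← hl] at this
    linarith
  have hl78 : (l : ℝ) ≤ (H : ℝ) ^ (7 / 8 : ℝ) := by
    rw [hl]
    refine (Nat.floor_le (by have := hpos (1 - 1 / 8); positivity)).trans ?_
    calc η * (H : ℝ) ^ (1 - 1 / 8 : ℝ) ≤ 1 * (H : ℝ) ^ (1 - 1 / 8 : ℝ) := by
          have := hpos (1 - 1 / 8)
          gcongr
      _ = (H : ℝ) ^ (7 / 8 : ℝ) := by rw [one_mul]; norm_num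
  have hlHR : (l : ℝ) ≤ H := by
    refine hl78.trans ?_
    calc (H : ℝ) ^ (7 / 8 : ℝ) ≤ (H : ℝ) ^ (1 : ℝ) :=
          Real.rpow_le_rpow_of_exponent_le hH1 (by norm_num)
      _ = H := Real.rpow_one _
  have hlH : l ≤ H := by exact_mod_cast hlHR
  have hl1R : (1 : ℝ) ≤ l := (Real.one_le_rpow hH1 (by norm_num)).trans hlb
  have hl1N : 1 ≤ l := by exact_mod_cast hl1R
  refine ⟨l, hlb, hl78, ?_⟩
  intro α ev dl hev hdl xa xb hxa hxb Q hS hcon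
  have hxa1 : 1 ≤ xa := (Real.one_le_rpow hH1 hB0).trans hxa
  have hxa0 : 0 < xa := by linarith
  have hxab : xa ≤ xb := by
    refine le_trans ?_ hxb
    calc xa = xa * 1 := (mul_one _).symm
      _ ≤ xa * H := by gcongr
  obtain ⟨ya, yb, hya, hyb, hl1, hl2, hyab, hsum⟩ := win ε xa xb (Real.log H)
    (fun n => Wg H n (ev (Q n))) hxa1 (by linarith) (by rw [Real.exp_log hH0]; exact hxb) hcon
  have hya1 : 1 ≤ ya := hxa1.trans hya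
  have hya0 : 0 < ya := by linarith
  have hyb0 : 0 < yb := by linarith
  obtain ⟨Λ, hΛ⟩ : ∃ Λ : ℝ, Λ = Real.log yb - Real.log ya := ⟨_, rfl⟩
  have hΛ1 : 1 ≤ Λ := by rw [hΛ]; linarith
  have hyH : ya * H ≤ yb := by
    rw [← Real.log_le_log_iff (by positivity) hyb0, Real.log_mul hya0.ne' hH0.ne']
    linarith
  have hyH2 : yb ≤ ya * (H : ℝ) ^ 2 := by
    rw [← Real.log_le_log_iff hyb0 (by positivity), Real.log_mul hya0.ne' (by positivity),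
      Real.log_pow]
    push_cast
    linarith
  refine ⟨ya, yb, hya, hyb, hyH, hyH2, ?_⟩
  intro K hK Θ _ _ ι kd P P0 t cf cf' tau x₀ hcard ht htau hcf hP0x hPx hcfx hP0 hrel
  have hyB : ∀ y : ℝ, y ≤ B → (H : ℝ) ^ y ≤ ya :=
    fun y hy => (Real.rpow_le_rpow_of_exponent_le hH1 hy).trans (hxa.trans hya)
  -- the lower level
  obtain ⟨hLs, hD⟩ := hD H hH1'
  have hD := hD α ev hev ya yb (hyB _ (by rw [hB]; linarith)) hyH Q hS hsum.le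
  rw [← hl] at hD
  -- powers of `H` and powers of `l`
  have hHl : ∀ y : ℝ, 0 ≤ y → (H : ℝ) ^ y ≤ (l : ℝ) ^ (2 * y) := by
    intro y hy
    calc (H : ℝ) ^ y = ((H : ℝ) ^ (1 / 2 : ℝ)) ^ (2 * y) := by
          rw [← Real.rpow_mul hH0.le]; congr 1; ring
      _ ≤ (l : ℝ) ^ (2 * y) := Real.rpow_le_rpow (hpos _).le hlb (by positivity)
  -- the pairs
  obtain ⟨hNm, hNs⟩ := hSA H hH2' hLs α ev hev ya yb
    (hyB _ (by rw [hB]; linarith)) hyH hyH2 Q hS l hl1N hlH hD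
  rw [← hK] at hNm hNs
  have hlo : ∀ (p : ℕ) (v : ℝ), lo ev Q p v = ev (lx dl Q p v) := by
    intro p v
    funext m
    unfold lo lx
    rw [hdl]
  obtain ⟨δs, Bs, Hs, hδs, hBs, hHs, hSB⟩ := sycm Θ A κ₁ (1 / 8) (ε / 2 / 4) c hA
    hκ₁ hκ₁₂ (by norm_num) (by positivity) hc hc1
  have hcard1 : (1 : ℝ) ≤ Fintype.card Θ := by exact_mod_cast Fintype.card_pos
  have hcardN : (Fintype.card Θ : ℝ) ≤ N := by exact_mod_cast hcard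
  have hδs' : δ ≤ δs := by
    rw [hδ, hδs]
    gcongr
    linarith
  subst hBs hHs
  obtain ⟨Rel, hRel⟩ : ∃ Rel : Θ → ℕ → ℕ → ℕ → Prop, Rel = fun θ p p' j =>
    ∃ v : ℝ, cl K v = j ∧ CstA Q K p v ∧ CstA Q K p' v ∧
      Out kd P cf cf' tau K j (lx dl Q p v) (lx dl Q p' v) θ := ⟨_, rfl⟩
  obtain ⟨θ, pr, G, hGm, hG, hmass⟩ := hSB H hH3' hLs α ev hev ya yb
    (hyB _ (by rw [hB]; linarith)) hyH hyH2 Q l K hl1N hlH hK Rel (by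
      intro p hp p' hp' v n L hg hg' haj hLj hcell hn1 hn2 hL hmany
      rw [hlo, hlo] at hmany
      have hK1 : 1 ≤ K := by
        rw [hK]
        exact Nat.ceil_pos.2 (hpos _)
      obtain ⟨θ, hθ⟩ := hrel p hp p' hp' v n L ⟨hg.1, hg.2.1, hg.2.2.1⟩ ⟨hg'.1, hg'.2.1, hg'.2.2.1⟩
        hcell (by
          intro m hm1 hm2
          have hm0 : (0 : ℝ) < m := by exact_mod_cast hm1
          rw [VQ.SYBx.cl_iff hK1 (Real.log_natCast_nonneg m), VQ.SYBx.mem_Ej_iff,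
            Real.exp_log hm0, Nat.floor_natCast] at hm2
          omega) hn1 hn2 hL (by convert hmany)
      refine ⟨θ, ?_⟩
      rw [hRel]
      exact ⟨v, rfl, hg.2.2.1, hg'.2.2.1, hθ⟩) hNm hNs
  -- the new window
  have hlog8 : Real.log ((H : ℝ) ^ (1 / 8 : ℝ)) = 1 / 8 * Real.log H := Real.log_rpow hH0 _
  obtain ⟨za, hza⟩ : ∃ za : ℝ, za = ya / (2 * (H : ℝ) ^ (1 / 8 : ℝ)) := ⟨_, rfl⟩
  have hP8 := hpos (1 / 8)
  have hza1 : 1 ≤ za := by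
    rw [hza, le_div_iff₀ (by positivity), one_mul]
    calc 2 * (H : ℝ) ^ (1 / 8 : ℝ) ≤ H := w6
      _ = (H : ℝ) ^ (1 : ℝ) := (Real.rpow_one _).symm
      _ ≤ ya := hyB _ (by rw [hB]; linarith)
  have hza0 : 0 < za := by linarith
  have hPq : ∀ q ∈ PPs H κ₁ (1 / 8), 1 ≤ q ∧ (q : ℝ) ≤ (H : ℝ) ^ (1 / 8 : ℝ) := by
    intro q hq
    unfold PPs at hq
    rw [mem_filter, mem_Icc] at hq
    exact ⟨hq.2.1.one_lt.le, (Nat.le_floor_iff (hpos _).le).1 hq.1.2⟩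
  have hKb : (K : ℝ) + 2 ≤ (l : ℝ) ^ AR := by
    have h1 : (K : ℝ) ≤ (H : ℝ) ^ (A + 1) + 1 := by
      rw [hK]
      exact (Nat.ceil_lt_add_one (hpos _).le).le
    have h2 : 1 ≤ (H : ℝ) ^ (A + 1) := Real.one_le_rpow hH1 (by linarith)
    have h3 : (H : ℝ) ^ (A + 2) = H * (H : ℝ) ^ (A + 1) := by
      rw [show A + 2 = 1 + (A + 1) by ring, Real.rpow_add hH0, Real.rpow_one]
    have h4 : 4 * (H : ℝ) ^ (A + 1) ≤ H * (H : ℝ) ^ (A + 1) := by gcongr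
    rw [hAR]
    refine le_trans ?_ (hHl (A + 2) (by linarith))
    rw [h3]
    linarith
  have hK1 : 1 ≤ K := by
    rw [hK]
    exact Nat.ceil_pos.2 (hpos _)
  have hlogz : Real.log za = Real.log ya - (Real.log 2 + 1 / 8 * Real.log H) := by
    rw [hza, Real.log_div hya0.ne' (by positivity), Real.log_mul two_ne_zero hP8.ne', hlog8]
  have hlog2 : Real.log 2 ≤ 1 := by
    have := Real.log_two_lt_d9
    linarith
  have hw : Real.log yb - Real.log za ≤ 3 * Λ := by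
    rw [hlogz, hΛ]
    rw [hΛ] at hΛ1
    linarith
  -- the relation at a point of `G p`
  have hGu : ∀ p, ∀ u ∈ G p, Out kd P cf cf' tau K (cl K u) (lx dl Q p u)
      (lx dl Q (pr (cl K u)) u) θ := by
    intro p u hu
    obtain ⟨_, _, _, _, g5⟩ := hG p u hu
    rw [hRel] at g5
    obtain ⟨v, hv, c1, c2, hR⟩ := g5
    have e1 : lx dl Q p u = lx dl Q p v := by unfold lx; rw [c1 u hv.symm]
    have e2 : lx dl Q (pr (cl K u)) u = lx dl Q (pr (cl K u)) v := by unfold lx; rw [c2 u hv.symm]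
    rw [e1, e2]
    exact hR
  -- the property of the final family
  obtain ⟨PF, hPF⟩ : ∃ PF : ℕ → α → Prop, PF = fun m x => P0 m x ∧ (kd θ ≠ 2 → P θ m x) ∧
      (kd θ = 2 → ∀ i, ∃ j : ℤ, |cf θ i x - j / Q₀| ≤ ((H : ℝ) ^ B₅ + 1) * tau θ i) := ⟨_, rfl⟩
  have hPF0 : ∀ m, PF m x₀ := by
    intro m
    rw [hPF]
    refine ⟨hP0x m, fun _ => hPx θ m, fun _ i => ⟨0, ?_⟩⟩
    rw [hcfx]
    have h1 := (htau θ i).1
    have h2 := hpos B₅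
    simp only [Int.cast_zero, zero_div, sub_zero, abs_zero]
    positivity
  -- the last step
  have key : ∀ (pr' : ℕ → ℕ) (S : Set ℝ), MeasurableSet S → δ₆ * Λ ≤ (volume S).toReal →
      (∀ u ∈ S, pr' (cl K u) ∈ PPs H κ₁ (1 / 8) ∧ GoodA ev Q K l ya yb e (pr' (cl K u)) u ∧
        (kd θ ≠ 2 → ∀ m : ℕ, 1 ≤ m → cl K (Real.log m) = cl K u →
          P θ m (lx dl Q (pr' (cl K u)) u)) ∧
        (kd θ = 2 → ∀ i, ∃ j : ℤ, |cf θ i (lx dl Q (pr' (cl K u)) u) - j / Q₀| ≤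
          ((H : ℝ) ^ B₅ + 1) * tau θ i)) →
      ∃ (θ : Θ) (Q' : ℕ → α), SlowA Q' ((l : ℝ) ^ AR) ∧ (∀ m, 1 ≤ m → P0 m (Q' m)) ∧
        (kd θ ≠ 2 → ∀ m, 1 ≤ m → P θ m (Q' m)) ∧
        (kd θ = 2 → ∀ m i, 1 ≤ m → ∃ j : ℤ, |cf θ i (Q' m) - j / Q₀| ≤ (H : ℝ) ^ B * tau θ i) ∧
        e * δ₆ / 3 * (Real.log yb - Real.log za) ≤
          ∑ m ∈ Ioc ⌊za⌋₊ ⌊yb⌋₊, (1 / (m : ℝ)) * Wg l m (ev (Q' m)) := by
    intro pr' S hSm hSv hSu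
    obtain ⟨Q', hQ's, hQ'P, hQ'm⟩ := desam α ev dl (fun p x m => hdl p x m) PF x₀ hPF0 l K za yb e
      Q pr' S hl1N hK1 hza1 he0.le hSm (fun u hu => by
        obtain ⟨hq, ⟨g2, g3, g4, g5⟩, hPu, hPu2⟩ := hSu u hu
        obtain ⟨q, hqd⟩ : ∃ q : ℕ, q = pr' (cl K u) := ⟨_, rfl⟩
        rw [← hqd] at hq g2 g3 g4 g5 hPu hPu2 ⊢
        obtain ⟨hq1, hq2⟩ := hPq q hq
        have hq1R : (1 : ℝ) ≤ q := by exact_mod_cast hq1
        have hq0R : (0 : ℝ) < q := by linarith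
        have h1 : ya / q ≤ Real.exp u := by
          rw [← Real.exp_log hya0, ← Real.exp_log hq0R, ← Real.exp_sub]
          exact Real.exp_le_exp.2 (by simpa using g2)
        have h2 : Real.exp u ≤ yb / q := by
          rw [← Real.exp_log hyb0, ← Real.exp_log hq0R, ← Real.exp_sub]
          exact Real.exp_le_exp.2 (by simpa using g3)
        refine ⟨?_, ?_, g4, g5, ?_⟩
        · have h3 : 2 * za ≤ Real.exp u := by
            refine le_trans ?_ h1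
            rw [hza]
            rw [mul_div_assoc', div_le_div_iff₀ (by positivity) hq0R]
            calc 2 * ya * q ≤ 2 * ya * (H : ℝ) ^ (1 / 8 : ℝ) := by gcongr
              _ = ya * (2 * (H : ℝ) ^ (1 / 8 : ℝ)) := by ring
          have h4 := Nat.lt_floor_add_one (Real.exp u)
          linarith
        · exact (Nat.floor_le (Real.exp_pos u).le).trans (h2.trans (div_le_self hyb0.le hq1R))
        · intro m hm1 hm2
          rw [hPF]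
          exact ⟨hP0 q hq u ⟨g2, g3, g4⟩ m hm1 hm2, fun hk => hPu hk m hm1 hm2, hPu2⟩)
    refine ⟨θ, Q', hQ's.mono hKb, fun m hm => ?_, fun hk m hm => ?_, fun hk m i hm => ?_, ?_⟩
    · have := hQ'P m hm
      rw [hPF] at this
      exact this.1
    · have := hQ'P m hm
      rw [hPF] at this
      exact this.2.1 hk
    · have := hQ'P m hm
      rw [hPF] at this
      obtain ⟨j, hj⟩ := this.2.2 hk i
      refine ⟨j, hj.trans (mul_le_mul_of_nonneg_right ?_ (htau θ i).1)⟩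
      have h2 : 1 ≤ (H : ℝ) ^ B₅ := Real.one_le_rpow hH1 hB₅
      calc (H : ℝ) ^ B₅ + 1 ≤ (H : ℝ) ^ B₅ * H := by nlinarith
        _ = (H : ℝ) ^ (B₅ + 1) := by rw [Real.rpow_add hH0, Real.rpow_one]
        _ ≤ (H : ℝ) ^ B := Real.rpow_le_rpow_of_exponent_le hH1 (by rw [hB]; linarith)
    · refine le_trans ?_ hQ'm
      calc e * δ₆ / 3 * (Real.log yb - Real.log za) ≤ e * δ₆ / 3 * (3 * Λ) := by gcongr
        _ = e * (δ₆ * Λ) := by ring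
        _ ≤ e * (volume S).toReal := by gcongr
  rw [← hza]
  obtain ⟨hwt0, hwt1⟩ := wt_sum _ hLs
  have hGI : ∀ p ∈ PPs H κ₁ (1 / 8), G p ⊆
      Set.Icc (Real.log ya - 1 / 8 * Real.log H) (Real.log yb) := by
    intro p hp u hu
    obtain ⟨_, _, ⟨g1, g2, _, _⟩, _, _⟩ := hG p u hu
    obtain ⟨hq1, hq2⟩ := hPq p hp
    have hq1R : (1 : ℝ) ≤ p := by exact_mod_cast hq1
    have h1 : 0 ≤ Real.log p := Real.log_nonneg hq1R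
    have h2 : Real.log p ≤ 1 / 8 * Real.log H := by
      rw [← hlog8]
      exact Real.log_le_log (by linarith) hq2
    exact ⟨by linarith, by linarith⟩
  have hδΛ : 0 < δ * Λ := by positivity
  have hδ₆δ : δ₆ * Λ ≤ δ * Λ := by
    have : δ₆ ≤ δ := by rw [hδ₆]; exact min_le_left _ _
    gcongr
  rw [← he] at hG
  rw [← hΛ] at hmass
  have hmass' : δ * Λ ≤ ∑ p ∈ PPs H κ₁ (1 / 8), wt (PPs H κ₁ (1 / 8)) p *
      (volume (G p)).toReal := le_trans (by gcongr) hmass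
  have hUm : MeasurableSet (⋃ p ∈ PPs H κ₁ (1 / 8), G p) :=
    Finset.measurableSet_biUnion _ fun p _ => hGm p
  have hUl : δ * Λ ≤ (volume (⋃ p ∈ PPs H κ₁ (1 / 8), G p)).toReal :=
    union_large _ G _ _ _ _ hwt0 hwt1 hδΛ.le hGI hmass'
  obtain hk | hk | hk : kd θ = 0 ∨ kd θ = 1 ∨ kd θ = 2 := by
    generalize kd θ = a
    fin_cases a <;> simp
  · -- the first prime
    obtain ⟨p, hp, hpl⟩ := one_large _ G _ _ hwt0 hwt1 hδΛ hmass'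
    refine key (fun _ => p) (G p) (hGm p) (hδ₆δ.trans hpl) (fun u hu => ?_)
    obtain ⟨_, _, g3, _, _⟩ := hG p u hu
    refine ⟨hp, g3, fun _ => (hGu p u hu).1 hk, fun h => ?_⟩
    rw [hk] at h
    exact absurd h (by decide)
  · -- the reference prime
    refine key pr (⋃ p ∈ PPs H κ₁ (1 / 8), G p) hUm (hδ₆δ.trans hUl) (fun u hu => ?_)
    rw [Set.mem_iUnion₂] at hu
    obtain ⟨p, _, hu⟩ := hu
    obtain ⟨_, g2, _, g4, _⟩ := hG p u hu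
    refine ⟨g2, g4, fun _ => (hGu p u hu).2.1 hk, fun h => ?_⟩
    rw [hk] at h
    exact absurd h (by decide)
  · -- the coefficients
    obtain ⟨q, hq, S, hSm, hSG, hSv, hSb⟩ := hRI H hH5' hLs α (ι θ) Q (t θ)
      (fun i => cf θ i) (fun i u => cf' θ i (lx dl Q (pr (cl K u)) u)) (tau θ) G ya yb hya1 hyH hS
      (ht θ) (fun i => ⟨(htau θ i).1, (htau θ i).2.trans (by
        rw [div_le_iff₀ hya0]
        have h1 : (H : ℝ) ^ (B₁ + B₅) ≤ ya := hyB _ (by rw [hB]; linarith)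
        calc (H : ℝ) ^ B₁ = (H : ℝ) ^ (-B₅) * (H : ℝ) ^ (B₁ + B₅) := by
              rw [← Real.rpow_add hH0]; congr 1; ring
          _ ≤ (H : ℝ) ^ (-B₅) * ya := by
              have := hpos (-B₅)
              gcongr)⟩) hGm (fun p u hu => by
        obtain ⟨g1, _, ⟨g2, g3, _, _⟩, _, _⟩ := hG p u hu
        refine ⟨g1, g2, g3, fun i => ?_⟩
        obtain ⟨k, hk'⟩ := (hGu p u hu).2.2 hk i
        refine ⟨k, ?_⟩
        have h2 : cf θ i (lx dl Q p u) = (p : ℝ) ^ (t θ i) * cf θ i (Q ⌊(p : ℝ) * Real.exp u⌋₊) := by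
          unfold lx
          rw [hcf]
        rw [h2] at hk'
        exact hk') (by rw [← hΛ]; exact hmass')
    refine key (fun _ => q) S hSm ?_ (fun u hu => ?_)
    · refine le_trans ?_ hSv
      rw [← hΛ]
      have : δ₆ ≤ c₅ := by rw [hδ₆]; exact min_le_right _ _
      gcongr
    · obtain ⟨_, _, g3, _, _⟩ := hG q u (hSG hu)
      refine ⟨hq, g3, fun h => absurd hk h, fun _ i => ?_⟩
      obtain ⟨j, hj⟩ := hSb u hu i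
      refine ⟨j, ?_⟩
      have h2 : cf θ i (lx dl Q q u) = (q : ℝ) ^ (t θ i) * cf θ i (Q ⌊(q : ℝ) * Real.exp u⌋₊) := by
        unfold lx
        rw [hcf]
      rw [h2]
      exact hj

end

end Pool.Agent.NG
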