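import Mathlib
import Pool.Agent.Lib.NG.C
import Pool.Agent.Lib.NG.NearB

/-!
# NVG2 (MP_663568_nt), row STEPV: lemmas on data and cells

(helper30)
-/

set_option autoImplicit false
open Finset Topology Polynomial

namespace Pool.Agent.NG

open Amb Pool.Agent.Lib.MP_663568_nt Pool.Agent.Lib.MP_663568_nt.Katai
  Pool.Agent.Lib.MP_663568_nt.Nul Pool.Agent.SV Pool.Agent.VQ Pool.Agent.NV

noncomputable section

namespace Dat

variable {U : Type} [Amb U] {Gf : ℕ → Subgroup U} {q : ℕ}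

theorem mem_G (x : Dat Gf q) (m : ℤ) : x.g m ∈ Gf 0 := x.ps [] m

theorem norm_ev {F : U → ℂ} {B : ℝ} (hB : 0 ≤ B) (hF : ∀ x ∈ Gf 0, ‖F x‖ ≤ B) (x : Dat Gf q)
    (m : ℕ) : ‖ev F x m‖ ≤ B := by
  unfold ev
  split_ifs
  · exact hF _ (x.mem_G m)
  · rw [norm_zero]
    exact hB

theorem ev_dl (F : U → ℂ) (p : ℕ) (x : Dat Gf q) (m : ℕ) : ev F (dl p x) m = ev F x (p * m) := by
  have h1 : ((p * m : ℕ) : ZMod q) = (p : ZMod q) * m := by push_cast; rfl
  have h2 : ((p * m : ℕ) : ℤ) = (p : ℤ) * m := by push_cast; rfl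
  unfold ev
  by_cases h : (p : ZMod q) * m ∈ x.A
  · rw [if_pos (show (m : ZMod q) ∈ (dl p x).A from h), if_pos (by rw [h1]; exact h), h2]
    rfl
  · rw [if_neg (show ¬ (m : ZMod q) ∈ (dl p x).A from h), if_neg (by rw [h1]; exact h)]

theorem cof_eq {χ : U → ℝ} {k : ℕ} {x : Dat Gf q} {P : ℝ[X]}
    (h : ∀ m : ℤ, χ (x.g m) = P.eval (m : ℝ)) : cof χ k x = P.coeff k := by
  have h1 : ∃ P : ℝ[X], ∀ m : ℤ, χ (x.g m) = P.eval (m : ℝ) := ⟨P, h⟩
  unfold cof
  rw [dif_pos h1]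
  congr 1
  refine Polynomial.eq_of_infinite_eval_eq _ _ ?_
  refine Set.Infinite.mono (s := Set.range fun m : ℤ => (m : ℝ)) ?_ ?_
  · rintro _ ⟨m, rfl⟩
    show _ = _
    rw [← h1.choose_spec m, h m]
  · exact Set.infinite_range_of_injective Int.cast_injective

theorem cof_dl {χ : U → ℝ} (k : ℕ) (x : Dat Gf q) (p : ℕ)
    (h : ∃ P : ℝ[X], ∀ m : ℤ, χ (x.g m) = P.eval (m : ℝ)) :
    cof χ k (dl p x) = (p : ℝ) ^ k * cof χ k x := by
  obtain ⟨P, hP⟩ := h
  have h1 : ∀ m : ℤ, χ ((dl p x).g m) = (P.comp (C (p : ℝ) * X)).eval (m : ℝ) := by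
    intro m
    show χ (x.g (p * m)) = _
    rw [hP]
    simp only [eval_comp, eval_mul, eval_C, eval_X]
    push_cast
    rfl
  rw [cof_eq h1, cof_eq hP, comp_C_mul_X_coeff, mul_comm]

theorem cof_nul {χ : U → ℝ} (k : ℕ) (h : χ 1 = 0) : cof χ k (nul : Dat Gf q) = 0 := by
  rw [cof_eq (P := 0) (fun m => by
    show χ 1 = _
    rw [h, eval_zero]), coeff_zero]

theorem cof_zero {χ : U → ℝ} (k : ℕ) (h : ∀ x, χ x = 0) (x : Dat Gf q) : cof χ k x = 0 := by
  rw [cof_eq (P := 0) (fun m => by rw [h, eval_zero]), coeff_zero]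

end Dat

theorem Chr0.one {U : Type} [Amb U] {Gf : ℕ → Subgroup U} {d : ℕ} {χ : U → ℝ}
    (h : Chr0 Gf d χ) : χ 1 = 0 := by
  rcases h with h | h
  · exact h 1
  · exact h.van 1 (one_mem _)

/-- A family which is modified outside of an interval. -/
theorem slow_mod {α : Type} {X : ℕ → α} {K : ℝ} (h : SlowA X K) (a b : ℕ) (y : α) :
    SlowA (fun m => if a < m ∧ m ≤ b then X m else y) (K + 2) := by
  classical
  intro j
  have h1 : ((Ico (2 ^ j) (2 ^ (j + 1))).filter fun n =>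
      (if a < n + 1 ∧ n + 1 ≤ b then X (n + 1) else y) ≠ (if a < n ∧ n ≤ b then X n else y)) ⊆
      ((Ico (2 ^ j) (2 ^ (j + 1))).filter fun n => X (n + 1) ≠ X n) ∪ {a, b} := by
    intro n hn
    rw [mem_filter] at hn
    rw [mem_union, mem_filter]
    by_cases h1 : n = a
    · right
      simp [h1]
    by_cases h2 : n = b
    · right
      simp [h2]
    left
    refine ⟨hn.1, fun h3 => hn.2 ?_⟩
    have e1 : (a < n + 1 ∧ n + 1 ≤ b) ↔ (a < n ∧ n ≤ b) := by omega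
    by_cases h4 : a < n ∧ n ≤ b
    · rw [if_pos (e1.2 h4), if_pos h4, h3]
    · rw [if_neg (fun h => h4 (e1.1 h)), if_neg h4]
  have h2 := (card_le_card h1).trans (card_union_le _ _)
  have h3 : (({a, b} : Finset ℕ)).card ≤ 2 := card_le_two
  have h4 := h j
  simp only at h4 ⊢
  have h5 : ((((Ico (2 ^ j) (2 ^ (j + 1))).filter fun n =>
      (if a < n + 1 ∧ n + 1 ≤ b then X (n + 1) else y) ≠ (if a < n ∧ n ≤ b then X n else y)).card :
      ℕ) : ℝ) ≤ (((Ico (2 ^ j) (2 ^ (j + 1))).filter fun n => X (n + 1) ≠ X n).card : ℕ) + 2 := by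
    exact_mod_cast h2.trans (Nat.add_le_add_left h3 _)
  refine le_trans ?_ (add_le_add_left h4 2)
  convert h5 using 2

theorem cl_log {K m : ℕ} (hm : 1 ≤ m) :
    cl K (Real.log m) = ⌊(K : ℝ) * Real.log (m : ℝ)⌋₊ := by
  unfold cl
  rw [Real.exp_log (by exact_mod_cast hm), Nat.floor_natCast]

/-- The length of a cell. -/
theorem cell_len {K n L : ℕ} (hK : 1 ≤ K) (hL : 1 ≤ L) (hn : 1 ≤ n) {j : ℕ}
    (h : ∀ m : ℕ, n ≤ m → m < n + L → cl K (Real.log m) = j) :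
    (L : ℝ) ≤ 1 + 2 * (n : ℝ) / K := by
  have hK0 : (0 : ℝ) < K := by exact_mod_cast hK
  have hK1 : (1 : ℝ) ≤ K := by exact_mod_cast hK
  have hn0 : (0 : ℝ) < n := by exact_mod_cast hn
  have h1 := h n le_rfl (by omega)
  have h2 := h (n + L - 1) (by omega) (by omega)
  rw [cl_log hn] at h1
  rw [cl_log (by omega)] at h2
  have hc : ((n + L - 1 : ℕ) : ℝ) = n + L - 1 := by
    rw [Nat.cast_sub (by omega)]
    push_cast
    ring
  rw [hc] at h2
  have hm0 : (0 : ℝ) < n + L - 1 := by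
    have : (1 : ℝ) ≤ L := by exact_mod_cast hL
    linarith
  have h3 := Nat.lt_floor_add_one ((K : ℝ) * Real.log (n + L - 1 : ℝ))
  rw [h2] at h3
  have h4 : (j : ℝ) ≤ (K : ℝ) * Real.log (n : ℝ) := by
    rw [← h1]
    exact Nat.floor_le (mul_nonneg hK0.le (Real.log_natCast_nonneg n))
  have h5 : Real.log (n + L - 1 : ℝ) - Real.log n ≤ 1 / K := by
    rw [le_div_iff₀ hK0]
    linarith
  have h6 : (n + L - 1 : ℝ) / n ≤ Real.exp (1 / K) := by
    rw [← Real.exp_log (div_pos hm0 hn0), Real.log_div hm0.ne' hn0.ne']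
    exact Real.exp_le_exp.2 h5
  have h7 : Real.exp (1 / (K : ℝ)) ≤ 1 + 2 / K := by
    have h8 : |(1 / (K : ℝ))| ≤ 1 := by
      rw [abs_of_pos (by positivity), div_le_one hK0]
      exact hK1
    have h9 := Real.abs_exp_sub_one_le h8
    rw [abs_of_pos (a := 1 / (K : ℝ)) (by positivity)] at h9
    have h10 := (abs_le.1 h9).2
    have h11 : 2 / (K : ℝ) = 2 * (1 / K) := by ring
    rw [h11]
    linarith
  have h8 := h6.trans h7
  rw [div_le_iff₀ hn0] at h8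
  have h9 : (1 + 2 / (K : ℝ)) * n = n + 2 * n / K := by ring
  rw [h9] at h8
  linarith

end

end Pool.Agent.NG
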