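import Mathlib
import Pool.Agent.Lib.NG.SVA
import Pool.Agent.Lib.NG.GSTEP

/-!
# NVG2 (MP_663568_nt), row STEPV: the functions with a nonzero character along a commutator

(helper30)
-/

set_option autoImplicit false
open Finset Topology Polynomial MeasureTheory

namespace Pool.Agent.NG

open Amb Pool.Agent.Lib.MP_663568_nt Pool.Agent.Lib.MP_663568_nt.Katai
  Pool.Agent.Lib.MP_663568_nt.Nul Pool.Agent.SV Pool.Agent.VQ Pool.Agent.NV

noncomputable section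

namespace SVx

variable {U : Type} [Amb U] {Gf : ℕ → Subgroup U} {q : ℕ}

/-- The types of the relations. -/
abbrev Th (X : List ((U → ℝ) × (U → ℝ))) (Y : List (Subgroup U)) : Type :=
  Option (Fin X.length ⊕ (Fin Y.length × Bool))

open Classical in
/-- The kind of a pair of characters. -/
def kr (r : (U → ℝ) × (U → ℝ)) : Fin 3 :=
  if ∀ x, r.2 x = 0 then 0 else if ∀ x, r.1 x = 0 then 1 else 2

/-- The kind of a type. -/
def kd (X : List ((U → ℝ) × (U → ℝ))) (Y : List (Subgroup U)) : Th X Y → Fin 3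
  | none => 0
  | some (Sum.inl i) => kr (X.get i)
  | some (Sum.inr (_, b)) => if b then 0 else 1

open Classical in
/-- The character of a pair which is used. -/
def chr (r : (U → ℝ) × (U → ℝ)) : U → ℝ := if ∀ x, r.1 x = 0 then r.2 else r.1

/-- The local property of a type. -/
def PP (N : Subgroup U) (q Q Q' Q₂ d : ℕ) (E' E₂ : ℝ) (X : List ((U → ℝ) × (U → ℝ)))
    (Y : List (Subgroup U)) : Th X Y → ℕ → ℝ → ℕ → Dat Gf q → Prop
  | none => fun _ _ _ x => x.A = ∅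
  | some (Sum.inl i) => fun H A m x => x.PLs Q N E₂ m ⌊(m : ℝ) / (H : ℝ) ^ A⌋₊ H ∧
      Nr1 d E₂ Q₂ m ⌊(m : ℝ) / (H : ℝ) ^ A⌋₊ fun i' => chr (X.get i) (x.g i')
  | some (Sum.inr (j, _)) => fun H A m x => x.PLs Q' (Y.get j) E' m ⌊(m : ℝ) / (H : ℝ) ^ A⌋₊ H

/-- The coefficients of the first system. -/
def cf1 (X : List ((U → ℝ) × (U → ℝ))) (Y : List (Subgroup U)) (d Q' : ℕ) (θ : Th X Y)
    (i : Fin d) (x : Dat Gf q) : ℝ :=
  match θ with
  | some (Sum.inl j) => (Q' : ℝ) * x.cof (X.get j).1 (i + 1)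
  | _ => 0

/-- The coefficients of the second system. -/
def cf2 (X : List ((U → ℝ) × (U → ℝ))) (Y : List (Subgroup U)) (d Q' : ℕ) (θ : Th X Y)
    (i : Fin d) (x : Dat Gf q) : ℝ :=
  match θ with
  | some (Sum.inl j) => (Q' : ℝ) * x.cof (X.get j).2 (i + 1)
  | _ => 0

theorem chr_Chr {d : ℕ} {r : (U → ℝ) × (U → ℝ)}
    (h : Chr0 Gf d r.1 ∧ Chr0 Gf d r.2 ∧ ((∃ x, r.1 x ≠ 0) ∨ ∃ x, r.2 x ≠ 0)) :
    Chr (Gf 0) (Gf 0) (Gf (d + 1)) (chr r) := by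
  obtain ⟨h1, h2, h3⟩ := h
  unfold chr
  split_ifs with h0
  · rcases h2 with h2 | h2
    · rcases h3 with ⟨x, hx⟩ | ⟨x, hx⟩
      · exact absurd (h0 x) hx
      · exact absurd (h2 x) hx
    · exact h2
  · rcases h1 with h1 | h1
    · exact absurd h1 h0
    · exact h1

/-- The empty data have all the properties. -/
theorem PP_nul (N : Subgroup U) (Q Q' Q₂ d : ℕ) (E' E₂ : ℝ) (hE₂ : 0 ≤ E₂)
    (X : List ((U → ℝ) × (U → ℝ))) (Y : List (Subgroup U))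
    (hX : ∀ r ∈ X, Chr0 Gf d r.1 ∧ Chr0 Gf d r.2 ∧ ((∃ x, r.1 x ≠ 0) ∨ ∃ x, r.2 x ≠ 0))
    (θ : Th X Y) (H : ℕ) (A : ℝ) (m : ℕ) :
    PP N q Q Q' Q₂ d E' E₂ X Y θ H A m (Dat.nul : Dat Gf q) := by
  have h0 : ∀ (Q : ℕ) (N : Subgroup U) (E : ℝ) (m L l : ℕ),
      (Dat.nul : Dat Gf q).PLs Q N E m L l := fun Q N E m L l a ha => absurd ha (by
    intro h
    exact h)
  rcases θ with _ | i | ⟨j, b⟩
  · rfl
  · refine ⟨h0 _ _ _ _ _ _, fun _ => 0, fun x => ?_, fun a _ => ⟨0, ?_⟩⟩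
    · show chr (X.get i) 1 = _
      have h1 := chr_Chr (hX _ (List.get_mem X i))
      rw [h1.van 1 (one_mem _)]
      unfold mev
      simp
    · simp only [Int.cast_zero, zero_div, sub_zero, abs_zero]
      positivity
  · exact h0 _ _ _ _ _ _

/-- The means are small for each type. -/
theorem PP_Sm {F : U → ℂ} {N : Subgroup U} {Q Q' Q₂ d : ℕ} {E' E₂ : ℝ}
    {X : List ((U → ℝ) × (U → ℝ))} {Y : List (Subgroup U)}
    (hFn : Fn (Gf 0) (Gf (d + 1)) F) (hq : 1 ≤ q) (hQ : 1 ≤ Q) (hqQ : q ∣ Q)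
    (hQ' : 1 ≤ Q') (hQQ' : Q ∣ Q') (hE' : 0 < E') (hQ₂ : 1 ≤ Q₂) (hE₂ : 0 < E₂)
    (hX : ∀ r ∈ X, Chr0 Gf d r.1 ∧ Chr0 Gf d r.2 ∧ ((∃ x, r.1 x ≠ 0) ∨ ∃ x, r.2 x ≠ 0))
    (hY : ∀ N₁ ∈ Y, Nor Gf d N₁ ∧ N₁ < N)
    (ihN : ∀ N₁ : Subgroup U, Nor Gf d N₁ → N₁ < N → NS Gf d N₁)
    (ihL : ∀ χ : U → ℝ, Chr (Gf 0) (Gf 0) (Gf (d + 1)) χ → NSL Gf d N χ) (θ : Th X Y) :
    Sm (Dat.ev F) (PP (Gf := Gf) N q Q Q' Q₂ d E' E₂ X Y θ) := by
  rcases θ with _ | i | ⟨j, b⟩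
  · intro A ε hA hε
    refine ⟨0, 1, le_rfl, fun H hH xa xb hxa hxb Z hZ hP => ?_⟩
    have hH1 : (1 : ℝ) ≤ H := by exact_mod_cast hH
    rw [Real.rpow_zero] at hxa
    have h1 : ∑ n ∈ Ioc ⌊xa⌋₊ ⌊xb⌋₊, (1 / (n : ℝ)) * Wg H n (Dat.ev F (Z n)) = 0 := by
      refine sum_eq_zero fun n hn => ?_
      rw [mem_Ioc] at hn
      have h2 : (Z n).A = ∅ := hP n (by omega)
      have h3 : ∀ m, Dat.ev F (Z n) m = 0 := by
        intro m
        unfold Dat.ev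
        rw [h2, if_neg (Set.notMem_empty _)]
      unfold Wg
      simp [h3]
    rw [h1]
    have h4 : xa ≤ xb := by
      refine le_trans ?_ hxb
      nlinarith
    have h5 := Real.log_le_log (by linarith) h4
    have : 0 ≤ Real.log xb - Real.log xa := by linarith
    positivity
  · exact ihL _ (chr_Chr (hX _ (List.get_mem X i))) F hFn q Q Q₂ E₂ hq hQ hqQ hQ₂ hE₂
  · have h1 := hY _ (List.get_mem Y j)
    exact ihN _ h1.1 h1.2 F hFn q Q' E' hq hQ' (hqQ.trans hQQ') hE'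

open Classical in
theorem ev_mul (F : U → ℂ) {x x' : Dat Gf q} {a : ℤ} (hx : x.A = {(a : ZMod q)})
    (hx' : x'.A = {(a : ZMod q)}) (m h : ℕ) :
    x.ev F (m + h) * (starRingEnd ℂ) (x'.ev F (m + h)) =
      if ((m : ℤ) + h) ≡ a [ZMOD q] then F (x.g (m + h)) * (starRingEnd ℂ) (F (x'.g (m + h)))
      else 0 := by
  have h1 : (((m + h : ℕ) : ZMod q) = (a : ZMod q)) ↔ ((m : ℤ) + h) ≡ a [ZMOD q] := by
    rw [← ZMod.intCast_eq_intCast_iff]
    push_cast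
    rfl
  have h2 : ((m + h : ℕ) : ℤ) = (m : ℤ) + h := by push_cast; rfl
  unfold Dat.ev
  rw [hx, hx', Set.mem_singleton_iff, h1, h2]
  split_ifs
  · rfl
  · rw [zero_mul]

/-- **The relation on a cell.** -/
theorem rel {d : ℕ} {F : U → ℂ} {N : Subgroup U} {Q Q' Q₂ : ℕ} {E E' E₂ c C₁ C₂ R A₂ : ℝ}
    {l₀ : ℕ} {X : List ((U → ℝ) × (U → ℝ))} {Y : List (Subgroup U)} (hPLM : PLM_stmt)
    (hNRM : NRM_stmt) (hCHP : CHP_stmt) (hF : Filt Gf d) (hQ : 1 ≤ Q)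
    (hE : 0 < E) (hQ' : 1 ≤ Q') (hE' : 0 < E') (hQ₂ : 1 ≤ Q₂) (hQ'Q₂ : Q' ∣ Q₂) (hEE₂ : E ≤ E₂)
    (hCE₂ : C₂ * 1 ^ d * E' ≤ E₂) (hc : 0 < c) (hR : 1 ≤ R)
    (hX : ∀ r ∈ X, Chr0 Gf d r.1 ∧ Chr0 Gf d r.2 ∧ ((∃ x, r.1 x ≠ 0) ∨ ∃ x, r.2 x ≠ 0))
    (hC₁ : ∀ (Q m₀ L : ℕ) (E R : ℝ) (P : ℤ → ℝ) (p : ℝ[X]), 1 ≤ Q → 0 ≤ E → 1 ≤ L → 1 ≤ R →
      (m₀ : ℝ) ≤ R * L → (∀ m : ℤ, P m = p.eval (m : ℝ)) → Nr1 d E Q m₀ L P →
      ∀ k : ℕ, 1 ≤ k → k ≤ d → 1 ≤ m₀ →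
        ∃ j : ℤ, |p.coeff k - j / Q| ≤ C₁ * E * R ^ d / (m₀ : ℝ) ^ k)
    (hC₂ : ∀ (Q m₀ m₁ L L' : ℕ) (E R : ℝ) (P : ℤ → ℝ), 1 ≤ Q → 0 ≤ E → 1 ≤ R →
      m₀ ≤ m₁ → (m₁ : ℝ) ≤ m₀ + R * L → L' ≤ L → 1 ≤ L' → Nr1 d E Q m₀ L P →
      Nr1 d (C₂ * R ^ d * E) Q m₁ L' P) (hC₂1 : 1 ≤ C₂)
    (hT : ∀ (a : ℤ) (m₀ L l : ℕ) (g g' : ℤ → U), PS Gf 0 g → PS Gf 0 g' → l₀ ≤ l → l * l ≤ L →
      PL Gf N a q Q E m₀ (2 * L) l g → PL Gf N a q Q E m₀ (2 * L) l g' →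
      Mny (c / 8) a q m₀ L l (fun m => F (g m) * (starRingEnd ℂ) (F (g' m))) →
      (∃ r ∈ X, Nr1 d E' Q' m₀ (2 * L) fun m => r.1 (g m) - r.2 (g' m)) ∨
      ∃ N₁ ∈ Y, PL Gf N₁ a q Q' E' m₀ (2 * L) l g ∨ PL Gf N₁ a q Q' E' m₀ (2 * L) l g')
    {x x' : Dat Gf q} {n L l K j : ℕ} (hl₀ : l₀ ≤ l) (hl1 : 1 ≤ l) (hlL : l * l ≤ L)
    (hn : 1 ≤ n) (hnR : (n : ℝ) ≤ R * (2 * L : ℕ))
    (hxA : x.A.Subsingleton) (hxA' : x'.A.Subsingleton)
    (hP : x.PLs Q N E n (2 * L) l) (hP' : x'.PLs Q N E n (2 * L) l)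
    (hPc : ∀ m : ℕ, 1 ≤ m → cl K (Real.log m) = j → x.PLs Q N E m ⌊(m : ℝ) / (l : ℝ) ^ A₂⌋₊ l)
    (hPc' : ∀ m : ℕ, 1 ≤ m → cl K (Real.log m) = j →
      x'.PLs Q N E m ⌊(m : ℝ) / (l : ℝ) ^ A₂⌋₊ l)
    (hcell : ∀ m : ℕ, 1 ≤ m → cl K (Real.log m) = j → n ≤ m ∧ m < n + L ∧
      1 ≤ ⌊(m : ℝ) / (l : ℝ) ^ A₂⌋₊ ∧ ⌊(m : ℝ) / (l : ℝ) ^ A₂⌋₊ ≤ L)
    {tau : Th X Y → Fin d → ℝ}
    (htau : ∀ (θ : Th X Y) (i : Fin d), (Q' : ℝ) * (C₁ * E' * R ^ d / (n : ℝ) ^ ((i : ℕ) + 1)) ≤ tau θ i)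
    (hmany : c / 8 * L ≤ (#((Ico n (n + L)).filter fun m : ℕ =>
      c ≤ Kg l m (x.ev F) (x'.ev F)) : ℝ)) :
    ∃ θ : Th X Y, Out (ι := fun _ => Fin d) (kd X Y)
      (fun θ m y => PP N q Q Q' Q₂ d E' E₂ X Y θ l A₂ m y)
      (cf1 X Y d Q') (cf2 X Y d Q') tau K j x x' θ := by
  classical
  have hl0 : (0 : ℝ) < l := by exact_mod_cast hl1
  have hL1 : 1 ≤ L := le_trans (Nat.mul_le_mul hl1 hl1) hlL
  have hLr : (0 : ℝ) < L := by exact_mod_cast hL1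
  have hE₂0 : 0 < E₂ := lt_of_lt_of_le hE hEE₂
  -- the class
  obtain ⟨a, hxa, hxa'⟩ : ∃ a : ℤ, x.A = {(a : ZMod q)} ∧ x'.A = {(a : ZMod q)} := by
    have h1 : 0 < #((Ico n (n + L)).filter fun m : ℕ => c ≤ Kg l m (x.ev F) (x'.ev F)) := by
      have : (0 : ℝ) < c / 8 * L := by positivity
      exact_mod_cast this.trans_le hmany
    obtain ⟨m, hm⟩ := card_pos.1 h1
    have h2 := (mem_filter.1 hm).2
    have h3 : ∑ h ∈ Icc 1 l, x.ev F (m + h) * (starRingEnd ℂ) (x'.ev F (m + h)) ≠ 0 := by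
      intro h
      unfold Kg at h2
      rw [h, norm_zero, zero_div] at h2
      linarith
    obtain ⟨h, _, hh⟩ := exists_ne_zero_of_sum_ne_zero h3
    have h4 : ((m + h : ℕ) : ZMod q) ∈ x.A := by
      by_contra h5
      exact hh (by
        unfold Dat.ev
        rw [if_neg h5, zero_mul])
    have h5 : ((m + h : ℕ) : ZMod q) ∈ x'.A := by
      by_contra h5
      exact hh (by
        unfold Dat.ev
        rw [if_neg h5, map_zero, mul_zero])
    refine ⟨((m + h : ℕ) : ℤ), ?_, ?_⟩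
    · rw [Int.cast_natCast]
      exact hxA.eq_singleton_of_mem h4
    · rw [Int.cast_natCast]
      exact hxA'.eq_singleton_of_mem h5
  have hmem : (a : ZMod q) ∈ x.A := by rw [hxa]; rfl
  have hmem' : (a : ZMod q) ∈ x'.A := by rw [hxa']; rfl
  have hcls : ∀ b : ℤ, (b : ZMod q) ∈ x.A → b ≡ a [ZMOD q] := by
    intro b hb
    rw [hxa, Set.mem_singleton_iff] at hb
    exact (ZMod.intCast_eq_intCast_iff _ _ _).1 hb
  have hcls' : ∀ b : ℤ, (b : ZMod q) ∈ x'.A → b ≡ a [ZMOD q] := by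
    intro b hb
    rw [hxa', Set.mem_singleton_iff] at hb
    exact (ZMod.intCast_eq_intCast_iff _ _ _).1 hb
  -- many windows
  have hM : Mny (c / 8) a q n L l (fun m => F (x.g m) * (starRingEnd ℂ) (F (x'.g m))) := by
    unfold Mny
    refine hmany.trans ?_
    have h1 : ((Ico n (n + L)).filter fun m : ℕ => c ≤ Kg l m (x.ev F) (x'.ev F)) ⊆
        ((Ico n (n + L)).filter fun m : ℕ => c / 8 * l ≤
          ‖∑ h ∈ Icc 1 l, if ((m : ℤ) + h) ≡ a [ZMOD q] then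
            F (x.g (m + h)) * (starRingEnd ℂ) (F (x'.g (m + h))) else 0‖) := by
      intro m hm
      rw [mem_filter] at hm ⊢
      refine ⟨hm.1, ?_⟩
      have h2 := hm.2
      unfold Kg at h2
      rw [le_div_iff₀ hl0] at h2
      rw [sum_congr rfl fun h _ => ev_mul F hxa hxa' m h] at h2
      refine le_trans ?_ h2
      have : 0 < c * l := by positivity
      linarith
    exact_mod_cast card_le_card h1
  have hE₂E : ∀ (y : Dat Gf q) (m M : ℕ), y.PLs Q N E m M l → y.PLs Q N E₂ m M l :=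
    fun y m M h b hb => hPLM U Gf Gf N N b b q q Q Q E E₂ m M l m M l y.g (fun _ => le_rfl) le_rfl
      dvd_rfl hQ dvd_rfl (Int.ModEq.refl _) hE hEE₂ le_rfl le_rfl hl1 le_rfl (h b hb)
  obtain ⟨hm1, _, _⟩ := hNRM d
  have hnear : ∀ (P : ℤ → ℝ) (m : ℕ), Nr1 d E' Q' n (2 * L) P → 1 ≤ m →
      cl K (Real.log m) = j → Nr1 d E₂ Q₂ m ⌊(m : ℝ) / (l : ℝ) ^ A₂⌋₊ P := by
    intro P m hP hm hmj
    obtain ⟨h1, h2, h3, h4⟩ := hcell m hm hmj
    have h5 : Nr1 d (C₂ * 1 ^ d * E') Q' m ⌊(m : ℝ) / (l : ℝ) ^ A₂⌋₊ P := by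
      refine hC₂ Q' n m (2 * L) _ E' 1 P hQ' hE'.le le_rfl h1 ?_ (by omega) h3 hP
      have : (m : ℝ) ≤ n + L := by exact_mod_cast h2.le
      push_cast
      linarith
    exact hm1 Q' Q₂ m _ _ _ _ P hQ'Q₂ hQ₂ le_rfl h3 (by positivity) hCE₂ h5
  rcases hT a n L l x.g x'.g x.ps x'.ps hl₀ hlL (hP a hmem) (hP' a hmem') hM with
    ⟨r, hr, hN⟩ | ⟨N₁, hN₁, hN⟩
  · obtain ⟨i, hi⟩ := List.get_of_mem hr
    refine ⟨some (Sum.inl i), ?_, ?_, ?_⟩
    · intro hk m hm hmj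
      have hk' : kr r = 0 := by rw [← hi]; exact hk
      have h2 : ∀ y, r.2 y = 0 := by
        by_contra h
        unfold kr at hk'
        rw [if_neg h] at hk'
        split_ifs at hk'
        · exact absurd hk' (by decide)
        · exact absurd hk' (by decide)
      have h3 : chr r = r.1 := by
        unfold chr
        rw [if_neg]
        intro h
        rcases (hX r hr).2.2 with ⟨y, hy⟩ | ⟨y, hy⟩
        · exact hy (h y)
        · exact hy (h2 y)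
      refine ⟨hE₂E _ _ _ (hPc m hm hmj), ?_⟩
      rw [hi, h3]
      refine hnear _ m ?_ hm hmj
      convert hN using 2
      rename_i y
      rw [h2, sub_zero]
    · intro hk m hm hmj
      have hk' : kr r = 1 := by rw [← hi]; exact hk
      have h2 : ∀ y, r.1 y = 0 := by
        by_contra h
        unfold kr at hk'
        split_ifs at hk'
        · exact absurd hk' (by decide)
        · exact absurd hk' (by decide)
      have h3 : chr r = r.2 := by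
        unfold chr
        rw [if_pos h2]
      refine ⟨hE₂E _ _ _ (hPc' m hm hmj), ?_⟩
      rw [hi, h3]
      refine hnear _ m ?_ hm hmj
      have h4 := near_neg hN
      unfold Nr1
      convert h4 using 2
      rename_i u
      show r.2 (x'.g (n + u 0)) = -(r.1 (x.g (n + u 0)) - r.2 (x'.g (n + u 0)))
      rw [h2]
      ring
    · intro hk i'
      have hk' : kr r = 2 := by rw [← hi]; exact hk
      obtain ⟨P₁, _, hP₁⟩ := hCHP U Gf d r.1 hF (hX r hr).1 x.g x.ps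
      obtain ⟨P₂, _, hP₂⟩ := hCHP U Gf d r.2 hF (hX r hr).2.1 x'.g x'.ps
      obtain ⟨z, hz⟩ := hC₁ Q' n (2 * L) E' R (fun m => r.1 (x.g m) - r.2 (x'.g m)) (P₁ - P₂)
        hQ' hE'.le (by omega) hR hnR (fun m => by rw [eval_sub, hP₁, hP₂]) hN ((i' : ℕ) + 1)
        (by omega) (by have := i'.2; omega) hn
      refine ⟨z, ?_⟩
      have hQ'0 : (0 : ℝ) < Q' := by exact_mod_cast hQ'
      have e1 : cf1 X Y d Q' (some (Sum.inl i)) i' x = (Q' : ℝ) * P₁.coeff ((i' : ℕ) + 1) := by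
        show (Q' : ℝ) * x.cof (X.get i).1 ((i' : ℕ) + 1) = _
        rw [hi, Dat.cof_eq hP₁]
      have e2 : cf2 X Y d Q' (some (Sum.inl i)) i' x' = (Q' : ℝ) * P₂.coeff ((i' : ℕ) + 1) := by
        show (Q' : ℝ) * x'.cof (X.get i).2 ((i' : ℕ) + 1) = _
        rw [hi, Dat.cof_eq hP₂]
      rw [e1, e2]
      rw [coeff_sub] at hz
      have e3 : (Q' : ℝ) * P₁.coeff ((i' : ℕ) + 1) - (Q' : ℝ) * P₂.coeff ((i' : ℕ) + 1) - z =
          (Q' : ℝ) * (P₁.coeff ((i' : ℕ) + 1) - P₂.coeff ((i' : ℕ) + 1) - z / Q') := by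
        field_simp
      rw [e3, abs_mul, abs_of_pos hQ'0]
      exact (mul_le_mul_of_nonneg_left hz hQ'0.le).trans (htau _ _)
  · obtain ⟨i, hi⟩ := List.get_of_mem hN₁
    have key : ∀ y : Dat Gf q, (∀ b : ℤ, (b : ZMod q) ∈ y.A → b ≡ a [ZMOD q]) →
        PL Gf N₁ a q Q' E' n (2 * L) l y.g → ∀ m : ℕ, 1 ≤ m → cl K (Real.log m) = j →
        y.PLs Q' N₁ E' m ⌊(m : ℝ) / (l : ℝ) ^ A₂⌋₊ l := by
      intro y hy hPL m hm hmj b hb
      obtain ⟨h1, h2, h3, h4⟩ := hcell m hm hmj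
      exact hPLM U Gf Gf N₁ N₁ a b q q Q' Q' E' E' n (2 * L) l m _ l y.g (fun _ => le_rfl) le_rfl
        dvd_rfl hQ' dvd_rfl (hy b hb) hE' le_rfl h1 (by omega) hl1 le_rfl hPL
    rcases hN with hN | hN
    · refine ⟨some (Sum.inr (i, true)), ?_, ?_, ?_⟩
      · intro _ m hm hmj
        have := key x hcls hN m hm hmj
        rw [← hi] at this
        exact this
      · intro hk
        exact absurd hk (by
          show (if true = true then (0 : Fin 3) else 1) ≠ 1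
          decide)
      · intro hk
        exact absurd hk (by
          show (if true = true then (0 : Fin 3) else 1) ≠ 2
          decide)
    · refine ⟨some (Sum.inr (i, false)), ?_, ?_, ?_⟩
      · intro hk
        exact absurd hk (by
          show (if false = true then (0 : Fin 3) else 1) ≠ 0
          decide)
      · intro _ m hm hmj
        have := key x' hcls' hN m hm hmj
        rw [← hi] at this
        exact this
      · intro hk
        exact absurd hk (by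
          show (if false = true then (0 : Fin 3) else 1) ≠ 2
          decide)

/-- PL at the lower level. -/
theorem pls_dl (hPLD : PLD_stmt) {N : Subgroup U} {Q : ℕ} {E : ℝ} {x : Dat Gf q}
    {p m L l M l' : ℕ} (hp : 1 ≤ p) (hE : 0 < E) (hM : p * M ≤ L) (hl1 : 1 ≤ l') (hl : p * l' ≤ l)
    (h : x.PLs Q N E (p * m) L l) : (Dat.dl p x).PLs Q N E m M l' := by
  intro a ha
  have h1 : ((p * a : ℤ) : ZMod q) ∈ x.A := by
    have : (p : ZMod q) * (a : ZMod q) ∈ x.A := ha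
    push_cast
    exact this
  exact hPLD U Gf N p q Q (p * a) a E m L l M l' x.g hp hE (Int.ModEq.refl _) hM hl1 hl (h _ h1)

theorem sub_dl {x : Dat Gf q} {p : ℕ} (hp : p.Coprime q) (h : x.A.Subsingleton) :
    (Dat.dl p x).A.Subsingleton := by
  intro a ha b hb
  have h1 : (p : ZMod q) * a = (p : ZMod q) * b := h ha hb
  have hu : IsUnit (p : ZMod q) := ⟨ZMod.unitOfCoprime p hp, ZMod.coe_unitOfCoprime p hp⟩
  exact hu.mul_left_cancel h1

/-- Large `H`. -/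
theorem large (κ W : ℝ) (q : ℕ) (hκ : 0 < κ) : ∃ H₀ : ℕ, ∀ H : ℕ, H₀ ≤ H →
    W ≤ H ∧ W ≤ (H : ℝ) ^ (1 / 2 : ℝ) ∧ (q : ℝ) < (H : ℝ) ^ κ ∧ 2 * (H : ℝ) ^ (1 / 8 : ℝ) ≤ H := by
  have t := tendsto_natCast_atTop_atTop (R := ℝ)
  have h1 := (tendsto_rpow_atTop (show (0 : ℝ) < 1 / 2 by norm_num)).comp t
  have h2 := (tendsto_rpow_atTop hκ).comp t
  have h3 := (tendsto_rpow_atTop (show (0 : ℝ) < 7 / 8 by norm_num)).comp t
  obtain ⟨X₁, hX₁⟩ := Filter.eventually_atTop.1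
    (((((t.eventually_ge_atTop W).and (t.eventually_ge_atTop 1)).and
      (h1.eventually_ge_atTop W)).and (h2.eventually_gt_atTop (q : ℝ))).and
      (h3.eventually_ge_atTop 2))
  refine ⟨X₁, fun H hH => ?_⟩
  obtain ⟨⟨⟨⟨e1, e2⟩, e3⟩, e4⟩, e5⟩ := hX₁ H hH
  refine ⟨e1, e3, e4, ?_⟩
  have hH0 : (0 : ℝ) < H := by linarith
  have e6 : (H : ℝ) = (H : ℝ) ^ (7 / 8 : ℝ) * (H : ℝ) ^ (1 / 8 : ℝ) := by
    rw [← Real.rpow_add hH0]
    norm_num
  have e7 : 0 < (H : ℝ) ^ (1 / 8 : ℝ) := Real.rpow_pos_of_pos hH0 _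
  have e8 : (2 : ℝ) ≤ (H : ℝ) ^ (7 / 8 : ℝ) := e5
  nlinarith

/-- **Row STEPV.** -/
theorem stepv : STEPV_stmt := by
  classical
  intro hTWO hPLM hPLD hNRG hNRL hNRM hCHP U _ Gf d N z g₀ v₀ hF hN hz hcc ihN ihL F k hFn hF1 hk
    hV q Q E hq hQ hqQ hE A ε₀ hA hε₀
  obtain ⟨ε, hε⟩ : ∃ ε : ℝ, ε = min ε₀ 1 := ⟨_, rfl⟩
  have hε0 : 0 < ε := by rw [hε]; exact lt_min hε₀ one_pos
  have hε1 : ε ≤ 1 := by rw [hε]; exact min_le_right _ _
  have hεε : ε ≤ ε₀ := by rw [hε]; exact min_le_left _ _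
  obtain ⟨c, κ₁, hc, hc1, hκ₁, hκ₁8, hG⟩ := gstep A ε hA hε0 hε1
  obtain ⟨X, Y, Q', E', l₀, hX, hY, hQ', hE', hQQ', hT⟩ := hTWO U Gf d N z g₀ v₀ k F q Q E (c / 8)
    hF hN hz hcc hk hFn hV hq hQ hqQ hE (by positivity)
  obtain ⟨C₁, hC₁1, hC₁⟩ := hNRG d
  obtain ⟨_, _, C₂, hC₂1, hC₂⟩ := hNRM d
  obtain ⟨C₃, hC₃1, hC₃⟩ := hNRL d
  obtain ⟨B₁, hB₁⟩ : ∃ B₁ : ℝ, B₁ = (A + 9) * d + 1 := ⟨_, rfl⟩
  have hB₁0 : 0 ≤ B₁ := by rw [hB₁]; positivity
  obtain ⟨δ, B, AR, Q₀, H₁, hδ, hB0, hAR, hQ₀, hG⟩ := hG (Fintype.card (Th X Y)) (d + 1) B₁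
    (by omega) hB₁0
  obtain ⟨E₂, hE₂⟩ : ∃ E₂ : ℝ, E₂ = E + C₂ * 1 ^ d * E' + 1 := ⟨_, rfl⟩
  have hCE : 0 ≤ C₂ * 1 ^ d * E' := by positivity
  have hE₂1 : 1 ≤ E₂ := by rw [hE₂]; linarith
  obtain ⟨Q₂, hQ₂⟩ : ∃ Q₂ : ℕ, Q₂ = Q' * Q₀ := ⟨_, rfl⟩
  have hQ₂1 : 1 ≤ Q₂ := by rw [hQ₂]; exact Nat.mul_pos hQ' hQ₀
  obtain ⟨A₂, hA₂⟩ : ∃ A₂ : ℝ, A₂ = AR + 2 * (A + 9) := ⟨_, rfl⟩
  obtain ⟨A₃, hA₃⟩ : ∃ A₃ : ℝ, A₃ = A₂ + 2 * (B + B₁ + 2 * d + 1) + 1 := ⟨_, rfl⟩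
  have hA₂0 : 0 ≤ A₂ := by rw [hA₂]; positivity
  have hA₃0 : 0 ≤ A₃ := by rw [hA₃]; positivity
  have hSm := fun θ : Th X Y => PP_Sm (Q := Q) (Q' := Q') (Q₂ := Q₂) (E' := E') (E₂ := E₂) hFn hq hQ
    hqQ hQ' hQQ' hE' hQ₂1 (by linarith) hX hY ihN ihL θ
  choose b1 n1 hb1 hSm1 using fun θ : Th X Y => hSm θ A₂ (δ / 2) hA₂0 (by positivity)
  choose b2 n2 hb2 hSm2 using fun θ : Th X Y => hSm θ A₃ (δ / 2) hA₃0 (by positivity)
  obtain ⟨BB, hBB⟩ : ∃ BB : ℝ, BB = B + A₂ + A₃ + (A + 8) + (∑ θ, b1 θ) + (∑ θ, b2 θ) + 3 :=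
    ⟨_, rfl⟩
  have hs1 : 0 ≤ ∑ θ, b1 θ := sum_nonneg fun θ _ => hb1 θ
  have hs2 : 0 ≤ ∑ θ, b2 θ := sum_nonneg fun θ _ => hb2 θ
  have hBB0 : 0 ≤ BB := by rw [hBB]; positivity
  obtain ⟨W, hW⟩ : ∃ W : ℝ, W = (H₁ : ℝ) + l₀ + (∑ θ, (n1 θ : ℝ)) + (∑ θ, (n2 θ : ℝ)) +
    Q' * C₁ * E' + C₃ + 16 := ⟨_, rfl⟩
  obtain ⟨H₀, hH₀⟩ := large κ₁ W q hκ₁
  refine ⟨BB, H₀, hBB0, ?_⟩
  intro H hH xa xb hxa hxb Z hZ hPZ
  by_contra hcon
  push Not at hcon
  obtain ⟨w1, w2, w3, w4⟩ := hH₀ H hH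
  -- sizes
  have hn : ∀ n : ℕ, (0 : ℝ) ≤ n := fun n => Nat.cast_nonneg n
  have hsn1 : 0 ≤ ∑ θ, (n1 θ : ℝ) := sum_nonneg fun θ _ => hn _
  have hsn2 : 0 ≤ ∑ θ, (n2 θ : ℝ) := sum_nonneg fun θ _ => hn _
  have hCE1 : 0 ≤ Q' * C₁ * E' := by positivity
  have hH16 : (16 : ℝ) ≤ H := by
    refine le_trans ?_ w1
    rw [hW]
    linarith [hn H₁, hn l₀]
  have hH1 : (1 : ℝ) ≤ H := by linarith
  have hH0 : (0 : ℝ) < H := by linarith
  have hpos : ∀ y : ℝ, 0 < (H : ℝ) ^ y := fun y => Real.rpow_pos_of_pos hH0 y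
  have hmono : ∀ y y' : ℝ, y ≤ y' → (H : ℝ) ^ y ≤ (H : ℝ) ^ y' :=
    fun y y' h => Real.rpow_le_rpow_of_exponent_le hH1 h
  have hH1' : H₁ ≤ H := by
    have : (H₁ : ℝ) ≤ H := by
      refine le_trans ?_ w1
      rw [hW]
      linarith [hn H₁, hn l₀]
    exact_mod_cast this
  obtain ⟨l, hl1, hl2, hG⟩ := hG H hH1'
  have hlW : W ≤ l := w2.trans hl1
  have hl16 : (16 : ℝ) ≤ l := by
    refine le_trans ?_ hlW
    rw [hW]
    linarith [hn H₁, hn l₀]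
  have hl1R : (1 : ℝ) ≤ l := by linarith
  have hl0 : (0 : ℝ) < l := by linarith
  have hlH : (l : ℝ) ≤ H := hl2.trans (by
    calc (H : ℝ) ^ (7 / 8 : ℝ) ≤ (H : ℝ) ^ (1 : ℝ) := hmono _ _ (by norm_num)
      _ = H := Real.rpow_one _)
  have hHl : ∀ y : ℝ, 0 ≤ y → (H : ℝ) ^ y ≤ (l : ℝ) ^ (2 * y) := by
    intro y hy
    calc (H : ℝ) ^ y = ((H : ℝ) ^ (1 / 2 : ℝ)) ^ (2 * y) := by
          rw [← Real.rpow_mul hH0.le]
          congr 1
          ring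
      _ ≤ (l : ℝ) ^ (2 * y) := Real.rpow_le_rpow (hpos _).le hl1 (by linarith)
  have hlp : ∀ y : ℝ, 0 ≤ y → (l : ℝ) ^ y ≤ (H : ℝ) ^ y :=
    fun y hy => Real.rpow_le_rpow hl0.le hlH hy
  have hlpos : ∀ y : ℝ, 0 < (l : ℝ) ^ y := fun y => Real.rpow_pos_of_pos hl0 y
  have hxa1 : 1 ≤ xa := (Real.one_le_rpow hH1 hBB0).trans hxa
  have hxab : xa ≤ xb := (le_mul_of_one_le_right (by linarith) hH1).trans hxb
  have hlog : 0 ≤ Real.log xb - Real.log xa := by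
    have := Real.log_le_log (by linarith) hxab
    linarith
  obtain ⟨ya, yb, hya, hyb, hyH, hyH2, hG⟩ := hG (Dat Gf q) (Dat.ev F) Dat.dl
    (fun x m => x.norm_ev zero_le_one hF1 m) (fun p x m => Dat.ev_dl F p x m) xa xb
    ((hmono _ _ (by rw [hBB]; linarith)).trans hxa) hxb Z hZ
    (lt_of_le_of_lt (mul_le_mul_of_nonneg_right hεε hlog) hcon)
  have hyaB : ∀ y : ℝ, y ≤ BB → (H : ℝ) ^ y ≤ ya := fun y hy => (hmono y BB hy).trans (hxa.trans hya)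
  have hya1 : 1 ≤ ya := hxa1.trans hya
  have hya0 : 0 < ya := by linarith
  have hyaH : ∀ y : ℝ, y + 1 ≤ BB → (H : ℝ) ^ y ≤ ya / H := by
    intro y hy
    rw [le_div_iff₀ hH0]
    calc (H : ℝ) ^ y * H = (H : ℝ) ^ (y + 1) := by rw [Real.rpow_add hH0, Real.rpow_one]
      _ ≤ ya := hyaB _ hy
  obtain ⟨K, hK⟩ : ∃ K : ℕ, K = ⌈(H : ℝ) ^ (A + 1)⌉₊ := ⟨_, rfl⟩
  have hKge : (H : ℝ) ^ (A + 1) ≤ K := by rw [hK]; exact Nat.le_ceil _
  have hK0 : (0 : ℝ) < K := lt_of_lt_of_le (hpos _) hKge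
  have hK1 : 1 ≤ K := by
    have : 0 < K := by exact_mod_cast hK0
    omega
  have hl1N : 1 ≤ l := by exact_mod_cast hl1R
  have hl₀l : l₀ ≤ l := by
    have : (l₀ : ℝ) ≤ l := by
      refine le_trans ?_ hlW
      rw [hW]
      linarith [hn H₁, hn l₀]
    exact_mod_cast this
  -- the primes
  have hPq : ∀ p ∈ PPs H κ₁ (1 / 8), p.Prime ∧ 1 ≤ p ∧ (p : ℝ) ≤ (H : ℝ) ^ (1 / 8 : ℝ) ∧
      p.Coprime q ∧ p * l ≤ H := by
    intro p hp
    rw [PPs, mem_filter, mem_Icc] at hp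
    obtain ⟨⟨h1, h2⟩, h3, h4⟩ := hp
    have h5 : (p : ℝ) ≤ (H : ℝ) ^ (1 / 8 : ℝ) :=
      (Nat.cast_le.2 h2).trans (Nat.floor_le (hpos _).le)
    refine ⟨h3, h1, h5, ?_, ?_⟩
    · rw [Nat.Prime.coprime_iff_not_dvd h3]
      intro h6
      have h7 : (p : ℝ) ≤ q := by exact_mod_cast Nat.le_of_dvd (by omega) h6
      linarith
    · have h6 : (p : ℝ) * l ≤ H := by
        calc (p : ℝ) * l ≤ (H : ℝ) ^ (1 / 8 : ℝ) * (H : ℝ) ^ (7 / 8 : ℝ) :=
              mul_le_mul h5 hl2 hl0.le (hpos _).le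
          _ = H := by
              rw [← Real.rpow_add hH0]
              norm_num
      exact_mod_cast h6
  have hy8 : (H : ℝ) ^ (1 / 8 : ℝ) ≤ H := by
    have := hpos (1 / 8)
    linarith
  -- a point of the range and its cell
  have hrange : ∀ p ∈ PPs H κ₁ (1 / 8), ∀ v : ℝ, InR Z K ya yb p v →
      ya / H ≤ Real.exp v / 2 ∧ Real.exp v ≤ ya * (H : ℝ) ^ 2 := by
    intro p hp v hv
    obtain ⟨h1, h2, h3, h4, h5⟩ := hPq p hp
    have hp0 : (0 : ℝ) < p := by exact_mod_cast h2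
    have hyb0 : 0 < yb := lt_of_lt_of_le (by positivity) hyH
    constructor
    · have e1 : ya / p ≤ Real.exp v := by
        rw [← Real.exp_log hya0, ← Real.exp_log hp0, ← Real.exp_sub]
        exact Real.exp_le_exp.2 (by simpa using hv.1)
      have e2 : ya / (H : ℝ) ^ (1 / 8 : ℝ) ≤ ya / p := by gcongr
      have e3 : 2 * (ya / H) ≤ ya / (H : ℝ) ^ (1 / 8 : ℝ) := by
        rw [mul_div_assoc', div_le_div_iff₀ hH0 (hpos _)]
        calc 2 * ya * (H : ℝ) ^ (1 / 8 : ℝ) = ya * (2 * (H : ℝ) ^ (1 / 8 : ℝ)) := by ring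
          _ ≤ ya * H := by gcongr
      linarith
    · have e1 : Real.exp v ≤ yb / p := by
        rw [← Real.exp_log hyb0, ← Real.exp_log hp0, ← Real.exp_sub]
        exact Real.exp_le_exp.2 (by simpa using hv.2.1)
      have hp1 : (1 : ℝ) ≤ p := by exact_mod_cast h2
      exact (e1.trans (div_le_self hyb0.le hp1)).trans hyH2
  have hval : ∀ (p m : ℕ) (v : ℝ), CstA Z K p v → 1 ≤ m → cl K (Real.log m) = cl K v →
      Z ⌊(p : ℝ) * Real.exp v⌋₊ = Z (p * m) := by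
    intro p m v hv hm hmv
    have h1 := hv (Real.log m) hmv
    rw [Real.exp_log (by exact_mod_cast hm)] at h1
    rw [← h1]
    congr 1
    rw [← Nat.cast_mul, Nat.floor_natCast]
  have hlow : ∀ p ∈ PPs H κ₁ (1 / 8), ∀ (v : ℝ) (m M : ℕ), InR Z K ya yb p v → 1 ≤ m →
      cl K (Real.log m) = cl K v → (M : ℝ) ≤ m / (H : ℝ) ^ A →
      (lx Dat.dl Z p v).A.Subsingleton ∧ (lx Dat.dl Z p v).PLs Q N E m M l := by
    intro p hp v m M hv hm hmv hM
    obtain ⟨h1, h2, h3, h4, h5⟩ := hPq p hp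
    have h6 := hPZ (p * m) (Nat.mul_pos h2 hm)
    unfold lx
    rw [hval p m v hv.2.2 hm hmv]
    refine ⟨sub_dl h4 h6.1, pls_dl hPLD h2 hE ?_ hl1N h5 h6.2⟩
    rw [Nat.le_floor_iff (by have := hpos A; positivity)]
    push_cast
    calc (p : ℝ) * M ≤ p * (m / (H : ℝ) ^ A) := by gcongr
      _ = p * m / (H : ℝ) ^ A := by ring
  have hAA₂ : (H : ℝ) ^ A ≤ (l : ℝ) ^ A₂ := by
    refine (hHl A hA).trans (Real.rpow_le_rpow_of_exponent_le hl1R ?_)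
    rw [hA₂]
    linarith
  have hfl : ∀ m : ℕ, ((⌊(m : ℝ) / (l : ℝ) ^ A₂⌋₊ : ℕ) : ℝ) ≤ m / (H : ℝ) ^ A := by
    intro m
    refine (Nat.floor_le (by have := hlpos A₂; positivity)).trans ?_
    have := hpos A
    gcongr
  have hr2 : ∀ y : ℝ, (H : ℝ) ^ (y + 2) = (H : ℝ) ^ y * (H : ℝ) ^ 2 := by
    intro y
    rw [Real.rpow_add hH0, show (2 : ℝ) = ((2 : ℕ) : ℝ) by norm_num, Real.rpow_natCast]
  have htau0 : ∀ i : Fin d, 0 ≤ (H : ℝ) ^ B₁ / ya ^ ((i : ℕ) + 1) := fun i => by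
    have := hpos B₁
    positivity
  have hrel : ∀ p ∈ PPs H κ₁ (1 / 8), ∀ p' ∈ PPs H κ₁ (1 / 8), ∀ (v : ℝ) (n L : ℕ),
      InR Z K ya yb p v → InR Z K ya yb p' v →
      (∀ m : ℕ, n ≤ m → m < n + L → 1 ≤ m ∧ cl K (Real.log m) = cl K v) →
      (∀ m : ℕ, 1 ≤ m → cl K (Real.log m) = cl K v → n ≤ m ∧ m < n + L) →
      (n : ℝ) ≤ 2 * Real.exp v → Real.exp v ≤ 2 * n → ya / (H : ℝ) ^ (A + 6) ≤ L →
      c / 8 * L ≤ (#((Ico n (n + L)).filter fun m : ℕ =>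
        c ≤ Kg l m (Dat.ev F (lx Dat.dl Z p v)) (Dat.ev F (lx Dat.dl Z p' v))) : ℝ) →
      ∃ θ : Th X Y, Out (ι := fun _ => Fin d) (kd X Y)
        (fun θ m y => PP N q Q Q' Q₂ d E' E₂ X Y θ l A₂ m y)
        (cf1 X Y d Q') (cf2 X Y d Q') (fun _ i => (H : ℝ) ^ B₁ / ya ^ ((i : ℕ) + 1)) K (cl K v)
        (lx Dat.dl Z p v) (lx Dat.dl Z p' v) θ := by
    intro p hp p' hp' v n L hv hv' hc1' hc2' hnv hvn hL hmany
    obtain ⟨r1, r2⟩ := hrange p hp v hv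
    have hn0 : ya / H ≤ n := by linarith
    have hn1R : (1 : ℝ) ≤ n := by
      have h1 := hyaH 0 (by rw [hBB]; linarith)
      rw [Real.rpow_zero] at h1
      linarith
    have hn1 : 1 ≤ n := by exact_mod_cast hn1R
    have hL8 : (H : ℝ) ^ 2 ≤ L := by
      refine le_trans ?_ hL
      rw [le_div_iff₀ (hpos _), mul_comm, ← hr2]
      exact hyaB _ (by rw [hBB]; linarith)
    have hlL : l * l ≤ L := by
      have : (l : ℝ) * l ≤ L := le_trans (by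
        rw [sq]
        exact mul_le_mul hlH hlH hl0.le hH0.le) hL8
      exact_mod_cast this
    have hL1 : 1 ≤ L := le_trans (Nat.mul_le_mul hl1N hl1N) hlL
    have hlen := cell_len hK1 hL1 hn1 (j := cl K v) fun m h1 h2 => (hc1' m h1 h2).2
    have hnA : 4 * (H : ℝ) ^ A ≤ n := by
      refine le_trans ?_ hn0
      refine le_trans ?_ (hyaH (A + 1) (by rw [hBB]; linarith))
      rw [Real.rpow_add hH0, Real.rpow_one, mul_comm]
      have := hpos A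
      gcongr
      linarith
    have h2L : ((2 * L : ℕ) : ℝ) ≤ n / (H : ℝ) ^ A := by
      have e1 : 2 * (n : ℝ) / K ≤ n / (H : ℝ) ^ A / 8 := by
        rw [div_div, div_le_div_iff₀ hK0 (by have := hpos A; positivity)]
        have e2 : (H : ℝ) ^ A * 16 ≤ K := by
          refine le_trans ?_ hKge
          rw [Real.rpow_add hH0, Real.rpow_one]
          have := hpos A
          gcongr
        calc 2 * (n : ℝ) * ((H : ℝ) ^ A * 8) = n * ((H : ℝ) ^ A * 16) := by ring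
          _ ≤ n * K := by gcongr
      have e3 : 4 ≤ (n : ℝ) / (H : ℝ) ^ A := by
        rw [le_div_iff₀ (hpos _)]
        exact hnA
      push_cast
      linarith
    obtain ⟨s1, s2⟩ := hlow p hp v n (2 * L) hv hn1 (hc1' n le_rfl (by omega)).2 h2L
    obtain ⟨s1', s2'⟩ := hlow p' hp' v n (2 * L) hv' hn1 (hc1' n le_rfl (by omega)).2 h2L
    have hA₂c : 4 * ((H : ℝ) ^ (A + 6) * (H : ℝ) ^ 2) ≤ (l : ℝ) ^ A₂ := by
      rw [← hr2]
      calc 4 * (H : ℝ) ^ (A + 6 + 2) ≤ (H : ℝ) ^ (A + 6 + 2) * H := by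
            rw [mul_comm]
            exact mul_le_mul_of_nonneg_left (by linarith) (hpos _).le
        _ = (H : ℝ) ^ (A + 9) := by
            rw [show A + 9 = A + 6 + 2 + 1 by ring, Real.rpow_add hH0 (A + 6 + 2), Real.rpow_one]
        _ ≤ (l : ℝ) ^ (2 * (A + 9)) := hHl _ (by linarith)
        _ ≤ (l : ℝ) ^ A₂ := Real.rpow_le_rpow_of_exponent_le hl1R (by rw [hA₂]; linarith)
    refine rel (R := (H : ℝ) ^ (A + 8)) hPLM hNRM hCHP hF hQ hE hQ' hE' hQ₂1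
      (by rw [hQ₂]; exact Dvd.intro _ rfl) (by rw [hE₂]; linarith) (by rw [hE₂]; linarith) hc
      (Real.one_le_rpow hH1 (by linarith)) hX hC₁ hC₂ hC₂1 hT hl₀l hl1N hlL hn1 ?_ s1 s1' s2 s2'
      (fun m hm hmv => (hlow p hp v m _ hv hm hmv (hfl m)).2)
      (fun m hm hmv => (hlow p' hp' v m _ hv' hm hmv (hfl m)).2) ?_ ?_ hmany
    · -- `n ≤ R * (2 L)`
      have e1 : (n : ℝ) ≤ 2 * (ya * (H : ℝ) ^ 2) := by linarith
      have e2 : ya ≤ L * (H : ℝ) ^ (A + 6) := by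
        rwa [div_le_iff₀ (hpos _)] at hL
      have e3 : (H : ℝ) ^ (A + 8) = (H : ℝ) ^ (A + 6) * (H : ℝ) ^ 2 := by
        rw [← hr2]
        congr 1
        ring
      push_cast
      rw [e3]
      calc (n : ℝ) ≤ 2 * (ya * (H : ℝ) ^ 2) := e1
        _ ≤ 2 * (L * (H : ℝ) ^ (A + 6) * (H : ℝ) ^ 2) := by gcongr
        _ = (H : ℝ) ^ (A + 6) * (H : ℝ) ^ 2 * (2 * L) := by ring
    · intro m hm hmv
      obtain ⟨h1, h2⟩ := hc2' m hm hmv
      refine ⟨h1, h2, ?_, ?_⟩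
      · rw [Nat.one_le_floor_iff, le_div_iff₀ (hlpos _), one_mul]
        refine (hlp _ hA₂0).trans ?_
        refine (hyaH A₂ (by rw [hBB]; linarith)).trans (hn0.trans ?_)
        exact_mod_cast h1
      · have e1 : ((⌊(m : ℝ) / (l : ℝ) ^ A₂⌋₊ : ℕ) : ℝ) ≤ L := by
          refine (Nat.floor_le (by have := hlpos A₂; positivity)).trans ?_
          rw [div_le_iff₀ (hlpos _)]
          have e2 : (m : ℝ) ≤ 2 * n := by
            have e3 : (m : ℝ) ≤ n + L := by exact_mod_cast h2.le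
            have e4 : (L : ℝ) ≤ n := by
              have e5 : (1 : ℝ) ≤ (H : ℝ) ^ A := Real.one_le_rpow hH1 hA
              have e6 : (n : ℝ) / (H : ℝ) ^ A ≤ n := div_le_self (hn n) e5
              push_cast at h2L
              linarith [hn L]
            linarith
          have e7 : ya ≤ L * (H : ℝ) ^ (A + 6) := by
            rwa [div_le_iff₀ (hpos _)] at hL
          calc (m : ℝ) ≤ 4 * (ya * (H : ℝ) ^ 2) := by linarith
            _ ≤ 4 * (L * (H : ℝ) ^ (A + 6) * (H : ℝ) ^ 2) := by gcongr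
            _ = L * (4 * ((H : ℝ) ^ (A + 6) * (H : ℝ) ^ 2)) := by ring
            _ ≤ L * (l : ℝ) ^ A₂ := by gcongr
        exact_mod_cast e1
    · intro _ i
      have hi := i.2
      have e1 : (ya / H) ^ ((i : ℕ) + 1) ≤ (n : ℝ) ^ ((i : ℕ) + 1) := by
        have : 0 ≤ ya / H := by positivity
        gcongr
      have e2 : 0 < (ya / H) ^ ((i : ℕ) + 1) := by positivity
      have e3 : C₁ * E' * ((H : ℝ) ^ (A + 8)) ^ d / (n : ℝ) ^ ((i : ℕ) + 1) ≤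
          C₁ * E' * ((H : ℝ) ^ (A + 8)) ^ d / (ya / H) ^ ((i : ℕ) + 1) := by
        have := hpos (A + 8)
        gcongr
      have e4 : (H : ℝ) ^ ((i : ℕ) + 1) ≤ (H : ℝ) ^ d := pow_le_pow_right₀ hH1 (by omega)
      have e5 : Q' * C₁ * E' ≤ H := by
        refine le_trans ?_ w1
        rw [hW]
        linarith [hn H₁, hn l₀]
      have e6 : H * (((H : ℝ) ^ (A + 8)) ^ d * (H : ℝ) ^ d) = (H : ℝ) ^ B₁ := by
        rw [← mul_pow, ← Real.rpow_add_one hH0.ne', ← Real.rpow_natCast, ← Real.rpow_mul hH0.le,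
          hB₁, Real.rpow_add hH0, Real.rpow_one, mul_comm]
        congr 2
        ring
      calc (Q' : ℝ) * (C₁ * E' * ((H : ℝ) ^ (A + 8)) ^ d / (n : ℝ) ^ ((i : ℕ) + 1))
          ≤ Q' * (C₁ * E' * ((H : ℝ) ^ (A + 8)) ^ d / (ya / H) ^ ((i : ℕ) + 1)) := by gcongr
        _ = Q' * C₁ * E' * (((H : ℝ) ^ (A + 8)) ^ d * (H : ℝ) ^ ((i : ℕ) + 1)) /
            ya ^ ((i : ℕ) + 1) := by
            rw [div_pow]
            field_simp
        _ ≤ H * (((H : ℝ) ^ (A + 8)) ^ d * (H : ℝ) ^ d) / ya ^ ((i : ℕ) + 1) := by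
            have := hpos (A + 8)
            gcongr
        _ = (H : ℝ) ^ B₁ / ya ^ ((i : ℕ) + 1) := by rw [e6]
  obtain ⟨θ, Q1, hQ1s, hQ1P0, hQ1P, hQ1c, hQ1sum⟩ := hG K hK (Th X Y) (fun _ => Fin d) (kd X Y)
    (fun θ m y => PP N q Q Q' Q₂ d E' E₂ X Y θ l A₂ m y)
    (fun m y => y.A.Subsingleton ∧ y.PLs Q N E m ⌊(m : ℝ) / (l : ℝ) ^ A₂⌋₊ l)
    (fun _ i => (i : ℕ) + 1) (cf1 X Y d Q') (cf2 X Y d Q')
    (fun _ i => (H : ℝ) ^ B₁ / ya ^ ((i : ℕ) + 1)) Dat.nul le_rfl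
    (fun _ i => ⟨by omega, by have := i.2; omega⟩)
    (fun _ i => ⟨htau0 i, by
      refine div_le_div_of_nonneg_left (hpos _).le hya0 ?_
      exact le_self_pow₀ hya1 (by omega)⟩)
    (by
      intro θ i p x
      rcases θ with _ | j | j
      · show (0 : ℝ) = _ * 0
        ring
      · show (Q' : ℝ) * (Dat.dl p x).cof (X.get j).1 ((i : ℕ) + 1) =
          (p : ℝ) ^ ((i : ℕ) + 1) * ((Q' : ℝ) * x.cof (X.get j).1 ((i : ℕ) + 1))
        obtain ⟨P₁, _, hP₁⟩ := hCHP U Gf d (X.get j).1 hF (hX _ (List.get_mem X j)).1 x.g x.ps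
        rw [Dat.cof_dl _ _ _ ⟨P₁, hP₁⟩]
        ring
      · show (0 : ℝ) = _ * 0
        ring)
    (fun m => ⟨Set.subsingleton_empty, fun a ha => absurd ha (Set.notMem_empty _)⟩)
    (fun θ m => PP_nul N Q Q' Q₂ d E' E₂ (by linarith) X Y hX θ l A₂ m)
    (by
      intro θ i
      rcases θ with _ | j | j
      · rfl
      · show (Q' : ℝ) * (Dat.nul : Dat Gf q).cof (X.get j).1 ((i : ℕ) + 1) = 0
        rw [Dat.cof_nul _ (hX _ (List.get_mem X j)).1.one, mul_zero]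
      · rfl)
    (fun p hp v hv m hm hmv => hlow p hp v m _ hv hm hmv (hfl m)) hrel
  -- the end
  obtain ⟨za, hza⟩ : ∃ za : ℝ, za = ya / (2 * (H : ℝ) ^ (1 / 8 : ℝ)) := ⟨_, rfl⟩
  rw [← hza] at hQ1sum
  have hzaH : ya / H ≤ za := by
    rw [hza]
    have := hpos (1 / 8)
    gcongr
  have hzay : za ≤ ya := by
    rw [hza]
    refine div_le_self hya0.le ?_
    have : (1 : ℝ) ≤ (H : ℝ) ^ (1 / 8 : ℝ) := Real.one_le_rpow hH1 (by norm_num)
    linarith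
  have hza0 : 0 < za := lt_of_lt_of_le (by positivity) hzaH
  have hzl : za * l ≤ yb := le_trans (by gcongr) hyH
  have hzb : 0 < Real.log yb - Real.log za := by
    have h1 : za < yb := by
      refine lt_of_lt_of_le ?_ hzl
      exact (lt_mul_iff_one_lt_right hza0).2 (by linarith)
    have := Real.log_lt_log hza0 h1
    linarith
  have hbz : ∀ b : ℝ, 0 ≤ b → b + 1 ≤ BB → (l : ℝ) ^ b ≤ za :=
    fun b hb hbB => (hlp b hb).trans ((hyaH b hbB).trans hzaH)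
  by_cases hkd : kd X Y θ = 2
  · -- both characters
    have hcf := hQ1c hkd
    obtain ⟨j, rfl⟩ : ∃ j, θ = some (Sum.inl j) := by
      rcases θ with _ | j | ⟨j, b⟩
      · exact absurd hkd (by show (0 : Fin 3) ≠ 2; decide)
      · exact ⟨j, rfl⟩
      · exact absurd hkd (by
          show (if b = true then (0 : Fin 3) else 1) ≠ 2
          cases b <;> decide)
    have hchr : chr (X.get j) = (X.get j).1 := by
      have hk' : kr (X.get j) = 2 := hkd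
      unfold kr at hk'
      unfold chr
      rw [if_neg]
      intro h
      split_ifs at hk'
      · exact absurd hk' (by decide)
      · exact absurd hk' (by decide)
    have h1 := hSm2 (some (Sum.inl j)) l (by
      have h2 : (n2 (some (Sum.inl j)) : ℝ) ≤ ∑ θ, (n2 θ : ℝ) :=
        single_le_sum (f := fun θ => (n2 θ : ℝ)) (fun θ _ => hn _) (mem_univ _)
      have : (n2 (some (Sum.inl j)) : ℝ) ≤ l := by
        refine le_trans ?_ hlW
        rw [hW]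
        linarith [hn H₁, hn l₀]
      exact_mod_cast this) za yb (hbz _ (hb2 _) (by
      have h2 : b2 (some (Sum.inl j)) ≤ ∑ θ, b2 θ :=
        single_le_sum (f := b2) (fun θ _ => hb2 θ) (mem_univ _)
      rw [hBB]
      linarith)) hzl
      (fun m => if ⌊za⌋₊ < m ∧ m ≤ ⌊yb⌋₊ then Q1 m else Dat.nul)
      (by
        refine (slow_mod hQ1s _ _ _).mono ?_
        calc (l : ℝ) ^ AR + 2 ≤ (l : ℝ) ^ AR * l := by
              have h3 : (1 : ℝ) ≤ (l : ℝ) ^ AR := Real.one_le_rpow hl1R hAR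
              have h4 : (l : ℝ) ^ AR * 16 ≤ (l : ℝ) ^ AR * l :=
                mul_le_mul_of_nonneg_left hl16 (by linarith)
              linarith
          _ = (l : ℝ) ^ (AR + 1) := by rw [Real.rpow_add hl0, Real.rpow_one]
          _ ≤ (l : ℝ) ^ A₃ := Real.rpow_le_rpow_of_exponent_le hl1R (by
              rw [hA₃, hA₂]
              have : (0 : ℝ) ≤ d := Nat.cast_nonneg d
              linarith))
      (by
        intro m hm
        split_ifs with hmr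
        swap
        · exact PP_nul N Q Q' Q₂ d E' E₂ (by linarith) X Y hX _ l A₃ m
        have hmR : (1 : ℝ) ≤ m := by exact_mod_cast hm
        have hmza : za ≤ m := (Nat.lt_of_floor_lt hmr.1).le
        have hmyb : (m : ℝ) ≤ yb := (Nat.cast_le.2 hmr.2).trans (Nat.floor_le (by
          have : 0 < za * l := by positivity
          linarith))
        have hM1 : 1 ≤ ⌊(m : ℝ) / (l : ℝ) ^ A₃⌋₊ := by
          rw [Nat.one_le_floor_iff, le_div_iff₀ (hlpos _), one_mul]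
          exact (hbz A₃ hA₃0 (by rw [hBB]; linarith)).trans hmza
        have hM2 : ⌊(m : ℝ) / (l : ℝ) ^ A₃⌋₊ ≤ ⌊(m : ℝ) / (l : ℝ) ^ A₂⌋₊ := by
          apply Nat.floor_mono
          have e1 : (l : ℝ) ^ A₂ ≤ (l : ℝ) ^ A₃ := Real.rpow_le_rpow_of_exponent_le hl1R (by
            rw [hA₃]
            have : (0 : ℝ) ≤ d := Nat.cast_nonneg d
            linarith)
          have := hlpos A₂
          gcongr
        refine ⟨fun a ha => ?_, ?_⟩
        · exact hPLM U Gf Gf N N a a q q Q Q E E₂ m _ l m _ l (Q1 m).g (fun _ => le_rfl) le_rfl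
            dvd_rfl hQ dvd_rfl (Int.ModEq.refl _) hE (by rw [hE₂]; linarith) le_rfl
            (Nat.add_le_add_left hM2 m) hl1N le_rfl ((hQ1P0 m hm).2 a ha)
        · rw [hchr]
          obtain ⟨P₁, hP₁d, hP₁⟩ := hCHP U Gf d (X.get j).1 hF (hX _ (List.get_mem X j)).1
            (Q1 m).g (Q1 m).ps
          obtain ⟨hm1, _, _⟩ := hNRM d
          refine hm1 Q₂ Q₂ m _ _ 1 E₂ _ dvd_rfl hQ₂1 le_rfl hM1 zero_le_one hE₂1 ?_
          obtain ⟨τ, hτ⟩ : ∃ τ : ℝ, τ = (H : ℝ) ^ (B + B₁ + 2 * d) := ⟨_, rfl⟩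
          have hd0 : (0 : ℝ) ≤ d := Nat.cast_nonneg d
          have hQ'0 : (0 : ℝ) < Q' := by exact_mod_cast hQ'
          have hQ₀0 : (0 : ℝ) < Q₀ := by exact_mod_cast hQ₀
          have hQ'1 : (1 : ℝ) ≤ Q' := by exact_mod_cast hQ'
          refine hC₃ Q₂ m _ τ _ P₁ hQ₂1 (by
            rw [hτ]
            exact Real.one_le_rpow hH1 (by linarith)) hm hM1 ?_ hP₁d hP₁ ?_
          · have e1 : C₃ * τ ≤ (l : ℝ) ^ A₃ := by
              have e2 : C₃ ≤ H := by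
                refine le_trans ?_ w1
                rw [hW]
                linarith [hn H₁, hn l₀]
              calc C₃ * τ ≤ H * (H : ℝ) ^ (B + B₁ + 2 * d) := by
                    rw [hτ]
                    have := hpos (B + B₁ + 2 * d)
                    gcongr
                _ = (H : ℝ) ^ (B + B₁ + 2 * d + 1) := by
                    rw [Real.rpow_add hH0 (B + B₁ + 2 * d), Real.rpow_one, mul_comm]
                _ ≤ (l : ℝ) ^ (2 * (B + B₁ + 2 * d + 1)) := hHl _ (by linarith)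
                _ ≤ (l : ℝ) ^ A₃ := Real.rpow_le_rpow_of_exponent_le hl1R (by
                    rw [hA₃]
                    linarith)
            have e3 : ((⌊(m : ℝ) / (l : ℝ) ^ A₃⌋₊ : ℕ) : ℝ) ≤ m / (l : ℝ) ^ A₃ :=
              Nat.floor_le (by have := hlpos A₃; positivity)
            have e4 : 0 ≤ C₃ * τ := by
              rw [hτ]
              have := hpos (B + B₁ + 2 * d)
              positivity
            calc C₃ * τ * ((⌊(m : ℝ) / (l : ℝ) ^ A₃⌋₊ : ℕ) : ℝ)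
                ≤ (l : ℝ) ^ A₃ * (m / (l : ℝ) ^ A₃) := by
                  have := hlpos A₃
                  gcongr
              _ = m := by
                  have := (hlpos A₃).ne'
                  field_simp
          · intro k' hk1 hkd'
            obtain ⟨z', hz'⟩ := hcf m ⟨k' - 1, by omega⟩ hm
            refine ⟨z', ?_⟩
            have e1 : cf1 X Y d Q' (some (Sum.inl j)) ⟨k' - 1, by omega⟩ (Q1 m) =
                (Q' : ℝ) * P₁.coeff k' := by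
              show (Q' : ℝ) * (Q1 m).cof (X.get j).1 ((k' - 1) + 1) = _
              rw [show k' - 1 + 1 = k' by omega, Dat.cof_eq hP₁]
            rw [e1] at hz'
            simp only [show k' - 1 + 1 = k' by omega] at hz'
            have e2 : (Q' : ℝ) * P₁.coeff k' - z' / Q₀ = Q' * (P₁.coeff k' - z' / (Q₂ : ℕ)) := by
              rw [hQ₂]
              push_cast
              field_simp
            rw [e2, abs_mul, abs_of_pos hQ'0] at hz'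
            have e3 : |P₁.coeff k' - z' / (Q₂ : ℕ)| ≤ (H : ℝ) ^ B * ((H : ℝ) ^ B₁ / ya ^ k') := by
              refine le_trans ?_ hz'
              exact le_mul_of_one_le_left (abs_nonneg _) hQ'1
            refine e3.trans ?_
            have hmpos : (0 : ℝ) < m := by linarith
            rw [mul_div_assoc', div_le_div_iff₀ (by positivity) (by positivity)]
            have e4 : (m : ℝ) ^ k' ≤ (H : ℝ) ^ (2 * d : ℝ) * ya ^ k' := by
              calc (m : ℝ) ^ k' ≤ (ya * (H : ℝ) ^ 2) ^ k' := by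
                    have := hmyb.trans hyH2
                    gcongr
                _ = ((H : ℝ) ^ 2) ^ k' * ya ^ k' := by rw [mul_pow, mul_comm]
                _ ≤ ((H : ℝ) ^ 2) ^ d * ya ^ k' := by
                    have : ((H : ℝ) ^ 2) ^ k' ≤ ((H : ℝ) ^ 2) ^ d :=
                      pow_le_pow_right₀ (one_le_pow₀ hH1) hkd'
                    gcongr
                _ = (H : ℝ) ^ (2 * d : ℝ) * ya ^ k' := by
                    rw [← pow_mul, ← Real.rpow_natCast]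
                    push_cast
                    rfl
            calc (H : ℝ) ^ B * (H : ℝ) ^ B₁ * (m : ℝ) ^ k'
                ≤ (H : ℝ) ^ B * (H : ℝ) ^ B₁ * ((H : ℝ) ^ (2 * d : ℝ) * ya ^ k') := by
                  have := hpos B
                  have := hpos B₁
                  gcongr
              _ = τ * ya ^ k' := by
                  rw [hτ, Real.rpow_add hH0, Real.rpow_add hH0]
                  ring)
    have h2 : ∑ m ∈ Ioc ⌊za⌋₊ ⌊yb⌋₊, (1 / (m : ℝ)) * Wg l m (Dat.ev F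
        (if ⌊za⌋₊ < m ∧ m ≤ ⌊yb⌋₊ then Q1 m else Dat.nul)) =
        ∑ m ∈ Ioc ⌊za⌋₊ ⌊yb⌋₊, (1 / (m : ℝ)) * Wg l m (Dat.ev F (Q1 m)) := by
      refine sum_congr rfl fun m hm => ?_
      rw [if_pos (mem_Ioc.1 hm)]
    rw [h2] at h1
    have h3 := hQ1sum.trans h1
    have h4 : 0 < δ * (Real.log yb - Real.log za) := mul_pos hδ hzb
    have h5 : δ / 2 * (Real.log yb - Real.log za) = δ * (Real.log yb - Real.log za) / 2 := by ring
    rw [h5] at h3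
    linarith
  · have h1 := hSm1 θ l (by
      have h2 : (n1 θ : ℝ) ≤ ∑ θ, (n1 θ : ℝ) :=
        single_le_sum (f := fun θ => (n1 θ : ℝ)) (fun θ _ => hn _) (mem_univ _)
      have : (n1 θ : ℝ) ≤ l := by
        refine le_trans ?_ hlW
        rw [hW]
        linarith [hn H₁, hn l₀]
      exact_mod_cast this) za yb (hbz _ (hb1 _) (by
      have h2 : b1 θ ≤ ∑ θ, b1 θ := single_le_sum (f := b1) (fun θ _ => hb1 θ) (mem_univ _)
      rw [hBB]
      linarith)) hzl Q1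
      (hQ1s.mono (Real.rpow_le_rpow_of_exponent_le hl1R (by rw [hA₂]; linarith)))
      (fun m hm => hQ1P hkd m hm)
    have h3 := hQ1sum.trans h1
    have h4 : 0 < δ * (Real.log yb - Real.log za) := mul_pos hδ hzb
    have h5 : δ / 2 * (Real.log yb - Real.log za) = δ * (Real.log yb - Real.log za) / 2 := by ring
    rw [h5] at h3
    linarith

end SVx

end

end Pool.Agent.NG
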