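import Mathlib
import Pool.Agent.Lib.NG.Main
import Pool.Agent.Lib.NG.RED
import Pool.Agent.Lib.NG.STEPV
import Pool.Agent.Lib.NG.FULN
import Pool.Agent.Lib.NG.NVZ
import Pool.Agent.Lib.NG.FFin

/-!
# NVG2 (MP_663568_nt): the statement NS for all the groups, without hypotheses

(helper30)
-/

set_option autoImplicit false

namespace Pool.Agent.NG

/-- The statement NS for all the groups. -/
theorem nsa : NSA := nsa_of red fuln SVx.stepv

/-- The input of the final theorem. -/
theorem nvz_all : NVZ := nvz' nsa

end Pool.Agent.NG
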