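import Mathlib
import Pool.Agent.Lib.NG.B
import Pool.Agent.Lib.NG.C

/-!
# JET (MP_663568_nt): all polynomial maps with two given points

`P (y) = g (y) R (y - n)`, `R` a polynomial map with `R 0 = R 1 = 1` and values in `J`.  The local
statement `LOC`: if a bounded function `a` correlates with `F (g y R_n (y - n))` for many `n`, then it
correlates with `F (κ g y ζ)` on a part of a class.  Induction on the ranks of `G / M` and `J`.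

Each row is a Prop `X_stmt`, to be proved as `theorem x : X_stmt` in `Lib/NG/X.lean`; `X'` is the fact,
`X_stmt` is `(facts of other rows) → X'`.  (helper19)
-/

set_option autoImplicit false
open Finset Topology

namespace Pool.Agent.NG

noncomputable section

open Amb Pool.Agent.Lib.MP_663568_nt Pool.Agent.Lib.MP_663568_nt.Katai
  Pool.Agent.Lib.MP_663568_nt.Nul Pool.Agent.SV Pool.Agent.VQ Pool.Agent.NV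

/-- Ambient groups with a group of rational elements. -/
class AmbQ (U : Type) extends Amb U where
  Qr : Subgroup U
  la_le : (Amb.La : Subgroup U) ≤ Qr
  root : ∀ (x : U) (m : ℕ), 1 ≤ m → x ^ m ∈ Qr → x ∈ Qr
  pow_la : ∀ G : Subgroup U, Rat G → ∀ x ∈ G, x ∈ Qr → ∃ m : ℕ, 1 ≤ m ∧
    x ^ m ∈ (Amb.La : Subgroup U)

open AmbQ

/-- Row CJQ: rational elements commensurate the lattice. -/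
def CJQ_stmt : Prop := ∀ (U : Type) [AmbQ U] (G : Subgroup U) (ζ s : U) (M₀ : ℕ), Rat G → ζ ∈ G →
  ζ ∈ (Qr : Subgroup U) → s ∈ G → pw M₀ s ∈ (La : Subgroup U) →
  ∃ M : ℕ, 1 ≤ M ∧ ∀ t : ℤ, ζ⁻¹ * pw ((M₀ : ℝ) * M * t) s * ζ ∈ (La : Subgroup U)

section
variable {U : Type} [Amb U]

/-- Polynomial maps with values in `J` and trivial first two terms. -/
def Jt (Gf : ℕ → Subgroup U) (J : Subgroup U) (R : ℤ → U) : Prop :=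
  PS (cut J Gf) 0 R ∧ R 0 = 1 ∧ R 1 = 1

/-- The data of the local statement. -/
structure Dta (Gf : ℕ → Subgroup U) (J : Subgroup U) (F : U → ℂ) (δ : ℝ) (H : ℕ) (a : ℕ → ℂ)
    (g : ℤ → U) (R : ℕ → ℤ → U) (S : Finset ℕ) : Prop where
  ba : ∀ y, ‖a y‖ ≤ 1
  pg : PS Gf 0 g
  sub : S ⊆ range H
  card : δ * H ≤ #S
  jt : ∀ n ∈ S, Jt Gf J (R n)
  cor : ∀ n ∈ S, δ * H ≤ ‖∑ y ∈ range (2 * H), a y * F (g y * R n ((y : ℤ) - n))‖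

end

/-- A part of a class. -/
def pce (s t m b : ℕ) : Finset ℕ := (Ico s t).filter fun y => y ≡ b [MOD m]

/-- The constants of the conclusion. -/
structure Cst (U : Type) where
  c : ℝ
  q : ℕ
  H₀ : ℕ
  K : Set U
  Z : Set U

section
variable {U : Type} [AmbQ U]

/-- Admissible constants. -/
structure Cst.Ok (C : Cst U) (G : Subgroup U) : Prop where
  c0 : 0 < C.c
  K : IsCompact C.K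
  KG : C.K ⊆ G
  Zf : C.Z.Finite
  ZG : ∀ ζ ∈ C.Z, ζ ∈ G ∧ ζ ∈ (Qr : Subgroup U)

/-- `a` correlates with `F (κ g y ζ)` on a part of a class in `[0, 2 H)`. -/
def Cst.Cor (C : Cst U) (F : U → ℂ) (H : ℕ) (a : ℕ → ℂ) (g : ℤ → U) : Prop :=
  ∃ κ ∈ C.K, ∃ ζ ∈ C.Z, ∃ s t m b : ℕ, 1 ≤ m ∧ m ≤ C.q ∧ t ≤ 2 * H ∧
    C.c * H ≤ ‖∑ y ∈ pce s t m b, a y * F (κ * g y * ζ)‖

/-- The local statement for one function. -/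
def LOCF (Gf : ℕ → Subgroup U) (J : Subgroup U) (F : U → ℂ) : Prop := ∀ δ : ℝ, 0 < δ →
  ∃ C : Cst U, C.Ok (Gf 0) ∧ ∀ (H : ℕ) (a : ℕ → ℂ) (g : ℤ → U) (R : ℕ → ℤ → U) (S : Finset ℕ),
    C.H₀ ≤ H → Dta Gf J F δ H a g R S → C.Cor F H a g

/-- **The local statement.** -/
def LOC (Gf : ℕ → Subgroup U) (d : ℕ) (J : Subgroup U) : Prop := ∀ F : U → ℂ,
  Fn (Gf 0) (Gf (d + 1)) F → LOCF Gf J F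

end

/-- Row CSTF: finitely many constants. -/
def CSTF_stmt : Prop := ∀ (U : Type) [AmbQ U] (G : Subgroup U) (n : ℕ) (C : Fin n → Cst U),
  (∀ i, (C i).Ok G) → ∃ C' : Cst U, C'.Ok G ∧ (∀ i, (C i).H₀ ≤ C'.H₀) ∧
  ∀ (i : Fin n) (F : U → ℂ) (H : ℕ) (a : ℕ → ℂ) (g : ℤ → U), (C i).Cor F H a g → C'.Cor F H a g

/-! ### The fibre product -/

/-- The filtration of the fibre product `{(x, y) : x y⁻¹ ∈ J}`. -/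
def G2 {U : Type} [Amb U] (Gf : ℕ → Subgroup U) (J : Subgroup U) (i : ℕ) : Subgroup (U × U) :=
  FP (Gf i) (J ⊓ Gf i)

/-- Row G2R: the fibre product (use `fib`, `pwj`, `lbm`, `lbn`, `fnc`, which are on main). -/
def G2R_stmt : Prop := ∀ (U : Type) [Amb U] (Gf : ℕ → Subgroup U) (d : ℕ) (J : Subgroup U),
  Filt Gf d → Nor Gf d J →
  Filt (G2 Gf J) d ∧
  (∀ (i : ℕ) (q : U × U), q ∈ G2 Gf J i ↔ q.1 ∈ Gf i ∧ q.2 ∈ Gf i ∧ q.1 * q.2⁻¹ ∈ J) ∧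
  (∀ z, Cen (Gf 0) (Gf (d + 1)) z → z ∈ J →
    Cen (G2 Gf J 0) (G2 Gf J (d + 1)) ((z, 1) : U × U)) ∧
  (∀ F, Fn (Gf 0) (Gf (d + 1)) F →
    Fn (G2 Gf J 0) (G2 Gf J (d + 1)) fun q => F q.1 * (starRingEnd ℂ) (F q.2)) ∧
  (∀ (F : U → ℂ) (z : U) (k : ℤ), Vrt (Gf 0) F z k →
    Vrt (G2 Gf J 0) (fun q => F q.1 * (starRingEnd ℂ) (F q.2)) ((z, 1) : U × U) k) ∧
  ∀ g R R' : ℤ → U, PS Gf 0 g → PS (cut J Gf) 0 R → PS (cut J Gf) 0 R' →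
    PS (G2 Gf J) 0 fun m => (g m * R m, g m * R' m)

/-- A pair of characters, of `G` and of `J`, not both zero. -/
structure CP {U : Type} [Amb U] (Gf : ℕ → Subgroup U) (d : ℕ) (J : Subgroup U)
    (w : (U → ℝ) × (U → ℝ)) : Prop where
  fst : (∀ x ∈ Gf 0, w.1 x = 0) ∨ Chr (Gf 0) (Gf 0) (Gf (d + 1)) w.1
  snd : (∀ x ∈ J, w.2 x = 0) ∨ Chr (Gf 0) J (Gf (d + 1)) w.2
  ne : (∃ x ∈ Gf 0, w.1 x ≠ 0) ∨ ∃ x ∈ J, w.2 x ≠ 0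

/-- Row PAIR: the relation of one pair (`LZ d` for `U × U`, `CHF`). -/
def PAIR' : Prop := ∀ (U : Type) [Amb U] (Gf : ℕ → Subgroup U) (d : ℕ) (J : Subgroup U) (z : U)
  (k : ℤ) (F : U → ℂ) (c : ℝ), Filt Gf d → Nor Gf d J → Cen (Gf 0) (Gf (d + 1)) z → z ∈ J → k ≠ 0 →
  Fn (Gf 0) (Gf (d + 1)) F → Vrt (Gf 0) F z k → 0 < c →
  ∃ (X : List ((U → ℝ) × (U → ℝ))) (E : ℝ) (Q H₀ : ℕ), (∀ w ∈ X, CP Gf d J w) ∧ 0 ≤ E ∧ 1 ≤ Q ∧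
  ∀ (H : ℕ) (g R R' : ℤ → U) (n n' : ℤ), H₀ ≤ H → PS Gf 0 g → PS (cut J Gf) 0 R →
    PS (cut J Gf) 0 R' →
    c * H ≤ ‖∑ y ∈ range (2 * H), F (g y * R ((y : ℤ) - n)) *
      (starRingEnd ℂ) (F (g y * R' ((y : ℤ) - n')))‖ →
    ∃ w ∈ X, NrZ 1 d E Q (2 * H) fun y =>
      w.1 (g y) + w.2 (R (y - n)) + (w.1 (R' (y - n')) - w.2 (R' (y - n')))
def PAIR_stmt : Prop := (∀ d, LZ d) → G2R_stmt → CHF_stmt → PAIR'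

/-! ### Rows without groups -/

/-- Row DUAL: Cauchy's inequality. -/
def DUAL_stmt : Prop := ∀ δ B : ℝ, 0 < δ → 0 < B → ∃ c : ℝ, 0 < c ∧
  ∀ (H : ℕ) (a : ℕ → ℂ) (ψ : ℕ → ℕ → ℂ) (S : Finset ℕ), (∀ y, ‖a y‖ ≤ 1) →
  (∀ n ∈ S, ∀ y, ‖ψ n y‖ ≤ B) → S ⊆ range H → δ * H ≤ #S →
  (∀ n ∈ S, δ * H ≤ ‖∑ y ∈ range (2 * H), a y * ψ n y‖) →
  ∃ T : Finset (ℕ × ℕ), T ⊆ S ×ˢ S ∧ c * ((H : ℝ) * H) ≤ #T ∧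
    ∀ t ∈ T, c * H ≤ ‖∑ y ∈ range (2 * H), ψ t.1 y * (starRingEnd ℂ) (ψ t.2 y)‖

/-- Row JN1: a polynomial whose differences are near rationals at many points (`recb`). -/
def JN1_stmt : Prop := ∀ (d : ℕ) (E c : ℝ) (Q : ℕ), 0 ≤ E → 0 < c → 1 ≤ Q →
  ∃ (E' : ℝ) (Q' H₀ : ℕ), 0 ≤ E' ∧ 1 ≤ Q' ∧ Q ∣ Q' ∧
  ∀ (H : ℕ) (p : ℕ → ℝ) (S : Finset ℕ), H₀ ≤ H → S ⊆ range H → c * H ≤ #S →
  (∀ n ∈ S, nd ((Q : ℝ) * (pol d p ((n : ℤ) + 1) - pol d p n)) ≤ E / H) →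
  NrZ 1 d E' Q' (2 * H) (pol d p)

/-- Row JN2: the differences of a polynomial near rationals. -/
def JN2_stmt : Prop := ∀ (d : ℕ) (E : ℝ) (Q : ℕ), 0 ≤ E → ∃ E' : ℝ, 0 ≤ E' ∧
  ∀ (H : ℕ) (P : ℤ → ℝ), 1 ≤ H → NrZ 1 d E Q (2 * H) P → ∀ n : ℕ, n < H →
  nd ((Q : ℝ) * (P ((n : ℤ) + 1) - P n)) ≤ E' / H

/-- Row JN3: sums and differences. -/
def JN3_stmt : Prop := ∀ (d : ℕ) (E E' : ℝ) (Q L : ℕ) (P P' : ℤ → ℝ), NrZ 1 d E Q L P →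
  NrZ 1 d E' Q L P' → NrZ 1 d (E + E') Q L (fun m => P m + P' m) ∧
  NrZ 1 d (E + E') Q L fun m => P m - P' m

/-- Row REL: the relations (duality, pairs, the difference at `y = n`). -/
def REL' : Prop := ∀ (U : Type) [Amb U] (Gf : ℕ → Subgroup U) (d : ℕ) (J : Subgroup U) (z : U)
  (k : ℤ) (F : U → ℂ) (δ : ℝ), Filt Gf d → Nor Gf d J → Cen (Gf 0) (Gf (d + 1)) z → z ∈ J → k ≠ 0 →
  Fn (Gf 0) (Gf (d + 1)) F → Vrt (Gf 0) F z k → 0 < δ →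
  ∃ (Y X : List (U → ℝ)) (E δ' : ℝ) (Q H₀ : ℕ), (∀ η ∈ Y, Chr (Gf 0) J (Gf (d + 1)) η) ∧
  (∀ χ ∈ X, Chr (Gf 0) (Gf 0) (Gf (d + 1)) χ ∧ ∀ x ∈ J, χ x = 0) ∧ 0 ≤ E ∧ 0 < δ' ∧ 1 ≤ Q ∧
  ∀ (H : ℕ) (a : ℕ → ℂ) (g : ℤ → U) (R : ℕ → ℤ → U) (S : Finset ℕ), H₀ ≤ H →
    Dta Gf J F δ H a g R S →
    (∃ η ∈ Y, ∃ S' : Finset ℕ, S' ⊆ S ∧ δ' * H ≤ #S' ∧
      ∀ n ∈ S', NrZ 1 d E Q (2 * H) fun y => η (R n (y - n))) ∨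
    ∃ χ ∈ X, NrZ 1 d E Q (2 * H) fun y => χ (g y)
def REL_stmt : Prop := PAIR' → DUAL_stmt → JN1_stmt → JN2_stmt → JN3_stmt → DEGZ' → REL'

/-! ### Factorisations -/

/-- `S` is bounded and Lipschitz on `[0, 2 H)`, `T` is rational and periodic. -/
structure ST (E : ℝ) (Q H : ℕ) (S T : ℤ → ℝ) : Prop where
  bd : ∀ y : ℤ, 0 ≤ y → y < 2 * H → |S y| ≤ E
  lip : ∀ y y' : ℤ, 0 ≤ y → y < 2 * H → 0 ≤ y' → y' < 2 * H →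
    |S y - S y'| ≤ E * |(y : ℝ) - y'| / H
  rat : ∀ y : ℤ, ∃ i : ℤ, T y = i / Q
  per : ∀ (M : ℕ) (y y' : ℤ), y ≡ y' [ZMOD ((Q * M : ℕ) : ℤ)] → ∃ i : ℤ, T y - T y' = M * i

/-- Row SPLJ: a polynomial near rationals which vanishes at `0` and `1` is the sum of a small one and a
rational one, both vanishing at `0` and `1` (`H` large). -/
def SPLJ_stmt : Prop := ∀ (d : ℕ) (E : ℝ) (Q : ℕ), 0 ≤ E → 1 ≤ Q → ∃ (E' : ℝ) (H₀ : ℕ), 0 ≤ E' ∧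
  ∀ (H n : ℕ) (j : ℕ) (c : ℕ → ℝ), H₀ ≤ H → n < H → j ≤ d → pol j c 0 = 0 → pol j c 1 = 0 →
  NrZ 1 d E Q (2 * H) (fun y => pol j c (y - n)) →
  ∃ S T : ℕ → ℝ, (∀ i, S i + T i = c i) ∧ pol j S 0 = 0 ∧ pol j S 1 = 0 ∧ pol j T 0 = 0 ∧
    pol j T 1 = 0 ∧ ST E' Q H (fun y => pol j S (y - n)) fun y => pol j T (y - n)

/-- Row SPLG: the same without conditions at `0` and `1`; the integral part of the constant coefficient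
goes to the rational part. -/
def SPLG_stmt : Prop := ∀ (d : ℕ) (E : ℝ) (Q : ℕ), 0 ≤ E → 1 ≤ Q → ∃ E' : ℝ, 0 ≤ E' ∧
  ∀ (H : ℕ) (j : ℕ) (c : ℕ → ℝ), 1 ≤ H → j ≤ d → NrZ 1 d E Q (2 * H) (pol j c) →
  ∃ S T : ℕ → ℝ, (∀ i, S i + T i = c i) ∧ ST E' Q H (pol j S) (pol j T)

/-- Row FJ1: the factorisation of `R_n`. -/
def FJ1' : Prop := ∀ (U : Type) [Amb U] (Gf : ℕ → Subgroup U) (d : ℕ) (J : Subgroup U) (η : U → ℝ)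
  (E : ℝ) (Q : ℕ), Filt Gf d → Nor Gf d J → Chr (Gf 0) J (Gf (d + 1)) η → 0 ≤ E → 1 ≤ Q →
  ∃ (M₀ H₀ : ℕ) (s : U) (E' : ℝ), 1 ≤ M₀ ∧ s ∈ J ∧ pw M₀ s ∈ (La : Subgroup U) ∧ 0 ≤ E' ∧
  ∀ (H n : ℕ) (g R : ℤ → U), H₀ ≤ H → n < H → PS Gf 0 g → Jt Gf J R →
    NrZ 1 d E Q (2 * H) (fun y => η (R (y - n))) →
    ∃ (S T : ℤ → ℝ) (R' : ℤ → U), ST E' Q H S T ∧ Jt Gf (kerS J η) R' ∧
      ∀ y : ℤ, g y * R (y - n) = pw (S y) s * g y * R' (y - n) * pw (T y) s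
def FJ1_stmt : Prop := PWB_stmt → CHS_stmt → KER_stmt → LEV_stmt → LBM_stmt → LBN_stmt → SIGZ' →
  DEGZ' → UNQ_stmt → SPLJ_stmt → FJ1'

/-- Row FG1: the factorisation of `g`. -/
def FG1' : Prop := ∀ (U : Type) [Amb U] (Gf : ℕ → Subgroup U) (d : ℕ) (J : Subgroup U) (χ : U → ℝ)
  (E : ℝ) (Q : ℕ), Filt Gf d → Nor Gf d J → Chr (Gf 0) (Gf 0) (Gf (d + 1)) χ →
  (∀ x ∈ J, χ x = 0) → 0 ≤ E → 1 ≤ Q →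
  Nor (kf Gf χ) d J ∧ ∃ (M₀ : ℕ) (s : U) (E' : ℝ), 1 ≤ M₀ ∧ s ∈ Gf 0 ∧
  pw M₀ s ∈ (La : Subgroup U) ∧ 0 ≤ E' ∧
  ∀ (H : ℕ) (g : ℤ → U), 1 ≤ H → PS Gf 0 g → NrZ 1 d E Q (2 * H) (fun y => χ (g y)) →
    ∃ (S T : ℤ → ℝ) (g₁ : ℤ → U), ST E' Q H S T ∧ PS (kf Gf χ) 0 g₁ ∧
      (∀ y : ℤ, g y = pw (S y) s * g₁ y * pw (T y) s) ∧
      ∀ (n : ℤ) (R : ℤ → U), Jt Gf J R →
        Jt (kf Gf χ) J fun h => pw (T (h + n)) s * R h * (pw (T (h + n)) s)⁻¹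
def FG1_stmt : Prop := PWB_stmt → CHS_stmt → KER_stmt → LEV_stmt → LBM_stmt → LBN_stmt → SIGZ' →
  DEGZ' → UNQ_stmt → SPLG_stmt → FG1'

/-- Row FJ2: on a short part of a class `F (g y R (y - n))` is `F (κ g^ζ y R' (y - n))`. -/
def FJ2' : Prop := ∀ (U : Type) [AmbQ U] (Gf : ℕ → Subgroup U) (d : ℕ) (J : Subgroup U)
  (η : U → ℝ) (F : U → ℂ) (E ε : ℝ) (Q : ℕ), Filt Gf d → Nor Gf d J →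
  Chr (Gf 0) J (Gf (d + 1)) η → Fn (Gf 0) (Gf (d + 1)) F → 0 ≤ E → 0 < ε → 1 ≤ Q →
  ∃ (lam : ℝ) (q H₀ : ℕ) (L : List (U × U)), 0 < lam ∧ 1 ≤ q ∧
  (∀ w ∈ L, w.1 ∈ Gf 0 ∧ w.2 ∈ Gf 0 ∧ w.2 ∈ (Qr : Subgroup U)) ∧
  ∀ (H n : ℕ) (g R : ℤ → U), H₀ ≤ H → n < H → PS Gf 0 g → Jt Gf J R →
    NrZ 1 d E Q (2 * H) (fun y => η (R (y - n))) →
    ∀ s t b : ℕ, t ≤ 2 * H → (t : ℝ) ≤ s + lam * H →
    ∃ w ∈ L, ∃ R' : ℤ → U, Jt Gf (kerS J η) R' ∧ ∀ y ∈ pce s t q b,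
      ‖F (g y * R ((y : ℤ) - n)) - F (w.1 * (w.2⁻¹ * g y * w.2) * R' ((y : ℤ) - n))‖ ≤ ε
def FJ2_stmt : Prop := FJ1' → PWB_stmt → LBM_stmt → LBN_stmt → FJ2'

/-- Row FG2: on a short part of a class `F (g y R (y - n))` is `F (κ g' y R' (y - n))`, with `g'` in the
kernel of `χ`, and the formula for `g'`. -/
def FG2' : Prop := ∀ (U : Type) [AmbQ U] (Gf : ℕ → Subgroup U) (d : ℕ) (J : Subgroup U)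
  (χ : U → ℝ) (F : U → ℂ) (E ε : ℝ) (Q : ℕ), Filt Gf d → Nor Gf d J →
  Chr (Gf 0) (Gf 0) (Gf (d + 1)) χ → (∀ x ∈ J, χ x = 0) → Fn (Gf 0) (Gf (d + 1)) F → 0 ≤ E →
  0 < ε → 1 ≤ Q →
  ∃ (M₀ : ℕ) (s : U) (E' lam : ℝ) (q H₀ : ℕ) (L : List U), 1 ≤ M₀ ∧ s ∈ Gf 0 ∧
  pw M₀ s ∈ (La : Subgroup U) ∧ 0 ≤ E' ∧ 0 < lam ∧ 1 ≤ q ∧ (∀ κ ∈ L, κ ∈ Gf 0) ∧
  ∀ (H : ℕ) (g : ℤ → U), H₀ ≤ H → PS Gf 0 g → NrZ 1 d E Q (2 * H) (fun y => χ (g y)) →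
    ∃ S T : ℤ → ℝ, ST E' Q H S T ∧ ∀ s' t b : ℕ, t ≤ 2 * H → (t : ℝ) ≤ s' + lam * H →
    ∃ (ρ : ℝ) (g' : ℤ → U), |ρ| ≤ M₀ ∧ (∃ i : ℤ, ρ = i / Q) ∧
      (∀ y ∈ pce s' t q b, ∃ i : ℤ, T (y : ℤ) - ρ = M₀ * i) ∧ PS (kf Gf χ) 0 g' ∧
      (∀ y : ℤ, g' y = pw (-ρ - S y) s * g y * pw (ρ - T y) s) ∧
      ∃ κ ∈ L, ∀ (n : ℕ) (R : ℤ → U), Jt Gf J R → ∃ R' : ℤ → U, Jt (kf Gf χ) J R' ∧
        ∀ y ∈ pce s' t q b,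
          ‖F (g y * R ((y : ℤ) - n)) - F (κ * g' y * R' ((y : ℤ) - n))‖ ≤ ε
def FG2_stmt : Prop := FG1' → PWB_stmt → LBM_stmt → LBN_stmt → FG2'

/-- Row FGB: the way back from `g'` to `g`. -/
def FGB' : Prop := ∀ (U : Type) [AmbQ U] (G M : Subgroup U) (F : U → ℂ) (s : U) (M₀ : ℕ)
  (E ε : ℝ) (Q : ℕ) (K Z : Set U), Rat G → Fn G M F → s ∈ G → 1 ≤ M₀ →
  pw M₀ s ∈ (La : Subgroup U) → 0 ≤ E → 0 < ε → 1 ≤ Q → IsCompact K → K ⊆ G → Z.Finite →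
  (∀ ζ ∈ Z, ζ ∈ G ∧ ζ ∈ (Qr : Subgroup U)) →
  ∃ (lam : ℝ) (q : ℕ) (K' Z' : Set U), 0 < lam ∧ 1 ≤ q ∧ IsCompact K' ∧ K' ⊆ G ∧ Z'.Finite ∧
  (∀ ζ ∈ Z', ζ ∈ G ∧ ζ ∈ (Qr : Subgroup U)) ∧
  ∀ (H : ℕ) (S T : ℤ → ℝ) (ρ : ℝ), 1 ≤ H → ST E Q H S T → |ρ| ≤ M₀ → ∀ κ ∈ K, ∀ ζ ∈ Z,
  ∀ s' t b : ℕ, t ≤ 2 * H → (t : ℝ) ≤ s' + lam * H → ∀ W : Finset ℕ, W ⊆ pce s' t q b →
  (∀ y ∈ W, ∃ i : ℤ, T (y : ℤ) - ρ = M₀ * i) →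
  ∃ κ' ∈ K', ∃ ζ' ∈ Z', ∀ y ∈ W, ∀ x ∈ G,
    ‖F (κ * (pw (-ρ - S y) s * x * pw (ρ - T y) s) * ζ) - F (κ' * x * ζ')‖ ≤ ε
def FGB_stmt : Prop := PWB_stmt → CJQ_stmt → FGB'

/-! ### The induction -/

/-- Row STEPA: from `ker η` to `J`. -/
def STEPA' : Prop := ∀ (U : Type) [AmbQ U] (Gf : ℕ → Subgroup U) (d : ℕ) (J : Subgroup U)
  (η : U → ℝ), Filt Gf d → Nor Gf d J → Chr (Gf 0) J (Gf (d + 1)) η → LOC Gf d (kerS J η) →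
  ∀ F : U → ℂ, Fn (Gf 0) (Gf (d + 1)) F → ∀ (E δ : ℝ) (Q : ℕ), 0 ≤ E → 0 < δ → 1 ≤ Q →
  ∃ C : Cst U, C.Ok (Gf 0) ∧ ∀ (H : ℕ) (a : ℕ → ℂ) (g : ℤ → U) (R : ℕ → ℤ → U) (S : Finset ℕ),
    C.H₀ ≤ H → Dta Gf J F δ H a g R S →
    (∀ n ∈ S, NrZ 1 d E Q (2 * H) fun y => η (R n (y - n))) → C.Cor F H a g
def STEPA_stmt : Prop := FJ2' → CSTF_stmt → FNC_stmt → LBM_stmt → LBN_stmt → STEPA'

/-- Row STEPC: from `ker χ` to `G`. -/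
def STEPC' : Prop := ∀ (U : Type) [AmbQ U] (Gf : ℕ → Subgroup U) (d : ℕ) (J : Subgroup U)
  (χ : U → ℝ), Filt Gf d → Nor Gf d J → Chr (Gf 0) (Gf 0) (Gf (d + 1)) χ → (∀ x ∈ J, χ x = 0) →
  LOC (kf Gf χ) d J → ∀ F : U → ℂ, Fn (Gf 0) (Gf (d + 1)) F → ∀ (E δ : ℝ) (Q : ℕ), 0 ≤ E →
  0 < δ → 1 ≤ Q → ∃ C : Cst U, C.Ok (Gf 0) ∧
  ∀ (H : ℕ) (a : ℕ → ℂ) (g : ℤ → U) (R : ℕ → ℤ → U) (S : Finset ℕ), C.H₀ ≤ H →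
    Dta Gf J F δ H a g R S → NrZ 1 d E Q (2 * H) (fun y => χ (g y)) → C.Cor F H a g
def STEPC_stmt : Prop := FG2' → FGB' → CSTF_stmt → FNC_stmt → KER_stmt → STEPC'

/-- Row VRTJ: functions with a nonzero character along an element of `J`. -/
def VRTJ' : Prop := ∀ (U : Type) [AmbQ U] (Gf : ℕ → Subgroup U) (d : ℕ) (J : Subgroup U) (z : U),
  Filt Gf d → Nor Gf d J → Cen (Gf 0) (Gf (d + 1)) z → z ∈ J →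
  (∀ η : U → ℝ, Chr (Gf 0) J (Gf (d + 1)) η → LOC Gf d (kerS J η)) →
  (∀ χ : U → ℝ, Chr (Gf 0) (Gf 0) (Gf (d + 1)) χ → (∀ x ∈ J, χ x = 0) → LOC (kf Gf χ) d J) →
  ∀ (F : U → ℂ) (k : ℤ), k ≠ 0 → Fn (Gf 0) (Gf (d + 1)) F → Vrt (Gf 0) F z k → LOCF Gf J F
def VRTJ_stmt : Prop := REL' → STEPA' → STEPC' → CSTF_stmt → VRTJ'

/-- Row FOUJ: Fourier expansion along `z`. -/
def FOUJ' : Prop := ∀ (U : Type) [AmbQ U] (Gf : ℕ → Subgroup U) (d : ℕ) (J : Subgroup U) (z : U),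
  Filt Gf d → Nor Gf d J → Cen (Gf 0) (Gf (d + 1)) z → z ∈ J →
  (∀ (F : U → ℂ) (k : ℤ), k ≠ 0 → Fn (Gf 0) (Gf (d + 1)) F → Vrt (Gf 0) F z k → LOCF Gf J F) →
  LOC (af Gf z) d J → LOC Gf d J
def FOUJ_stmt : Prop := FOU_stmt → CSTF_stmt → LBN_stmt → FOUJ'

/-- Row T0J: the trivial case. -/
def T0J_stmt : Prop := ∀ (U : Type) [AmbQ U] (Gf : ℕ → Subgroup U) (d : ℕ) (J : Subgroup U),
  Filt Gf d → Nor Gf d J → J ≤ Gf (d + 1) → LOC Gf d J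

/-- **The local statement for all groups.** -/
def INDJ' : Prop := ∀ (U : Type) [AmbQ U] (Gf : ℕ → Subgroup U) (d : ℕ) (J : Subgroup U),
  Filt Gf d → Nor Gf d J → LOC Gf d J

/-- Row INDJ: the induction (on `dm G + dm J + (dm G - dm M)`). -/
def INDJ_stmt : Prop := T0J_stmt → FOUJ' → VRTJ' → CENZ_stmt → UNB_stmt → KER_stmt → FIL_stmt → INDJ'

/-! ### From the local statement to the theorem -/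

/-- Row NVJ1: one block. -/
def NVJ1' : Prop := ∀ (U : Type) [AmbQ U] (Gf : ℕ → Subgroup U) (d : ℕ), Filt Gf d →
  ∀ F : U → ℂ, Fn (Gf 0) (Gf (d + 1)) F → ∀ ε : ℝ, 0 < ε →
  ∃ (θ c : ℝ) (q H₀ : ℕ) (L : List (U × U)), 0 < θ ∧ θ ≤ 1 ∧ 0 < c ∧ c ≤ 1 ∧
  (∀ w ∈ L, w.1 ∈ Gf 0 ∧ w.2 ∈ Gf 0) ∧
  ∀ (H N : ℕ) (g : ℤ → U) (R : ℕ → ℤ → U), H₀ ≤ H → PS Gf 0 g → (∀ n, Jt Gf (Gf 0) (R n)) →
    ε * ⌊θ * H⌋₊ ≤ ∑ n ∈ Ico N (N + ⌊θ * H⌋₊), Wg H n (fun m => F (g m * R n ((m : ℤ) - n))) →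
    ∃ w ∈ L, ∃ m b : ℕ, 1 ≤ m ∧ m ≤ q ∧ b < m ∧
      c * ⌊θ * H⌋₊ ≤ ∑ n ∈ Ico N (N + 2 * H), Wg ⌊c * H⌋₊ n
        (fun y => if y ≡ b [MOD m] then F (w.1 * g y * w.2) else 0)
def NVJ1_stmt : Prop := INDJ' → LBN_stmt → NVJ1'

/-- **The theorem for ambient groups.** -/
def NVJ' : Prop := ∀ (U : Type) [AmbQ U] (Gf : ℕ → Subgroup U) (d : ℕ), Filt Gf d →
  ∀ F : U → ℂ, Fn (Gf 0) (Gf (d + 1)) F → ∀ A ε : ℝ, 0 ≤ A → 0 < ε →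
  ∃ (B : ℝ) (H₀ : ℕ), 0 ≤ B ∧ ∀ H : ℕ, H₀ ≤ H → ∀ xa xb : ℝ, (H : ℝ) ^ B ≤ xa → xa * H ≤ xb →
  ∀ X : ℕ → ℤ → U, (∀ n, PS Gf 0 (X n)) → SlowA X ((H : ℝ) ^ A) →
  ∀ R : ℕ → ℤ → U, (∀ n, Jt Gf (Gf 0) (R n)) →
  ∑ n ∈ Ioc ⌊xa⌋₊ ⌊xb⌋₊, (1 / (n : ℝ)) * Wg H n (fun m => F (X n m * R n ((m : ℤ) - n))) ≤
    ε * (Real.log xb - Real.log xa)

/-- The means along progressions (`nvpq` of `Lib/NG/FNvp`). -/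
def NVPQ' : Prop := ∀ (U : Type) [Amb U] (Gf : ℕ → Subgroup U) (d : ℕ), Filt Gf d →
  ∀ F : U → ℂ, Fn (Gf 0) (Gf (d + 1)) F → ∀ (q b : ℕ), 1 ≤ q → ∀ A ε : ℝ, 0 ≤ A → 0 < ε →
  ∃ (B : ℝ) (H₀ : ℕ), 0 ≤ B ∧ ∀ H : ℕ, H₀ ≤ H → ∀ xa xb : ℝ, (H : ℝ) ^ B ≤ xa → xa * H ≤ xb →
  ∀ X : ℕ → ℤ → U, (∀ n, PS Gf 0 (X n)) → SlowA X ((H : ℝ) ^ A) →
  ∑ n ∈ Ioc ⌊xa⌋₊ ⌊xb⌋₊, (1 / (n : ℝ)) *
    Wg H n (fun m => ee (b * m / q) * F (X n m)) ≤ ε * (Real.log xb - Real.log xa)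

/-- Row NVJ2: all blocks. -/
def NVJ2_stmt : Prop := NVJ1' → NVPQ' → FNC_stmt → LBM_stmt → NVJ'

/-- **The theorem for ambient groups**, in terms of the maps `P`. -/
def JETU' : Prop := ∀ (U : Type) [AmbQ U] (Gf : ℕ → Subgroup U) (d : ℕ), Filt Gf d →
  ∀ F : U → ℂ, Fn (Gf 0) (Gf (d + 1)) F → ∀ A ε : ℝ, 0 ≤ A → 0 < ε →
  ∃ (B : ℝ) (H₀ : ℕ), 0 ≤ B ∧ ∀ H : ℕ, H₀ ≤ H → ∀ xa xb : ℝ, (H : ℝ) ^ B ≤ xa → xa * H ≤ xb →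
  ∀ X : ℕ → ℤ → U, (∀ n, PS Gf 0 (X n)) → SlowA X ((H : ℝ) ^ A) →
  ∀ P : ℕ → ℤ → U, (∀ n, PS Gf 0 (P n)) → (∀ n : ℕ, P n n = X n n ∧ P n (n + 1) = X n (n + 1)) →
  ∑ n ∈ Ioc ⌊xa⌋₊ ⌊xb⌋₊, (1 / (n : ℝ)) * Wg H n (fun m : ℕ => F (P n m)) ≤
    ε * (Real.log xb - Real.log xa)

/-- Row NVJU. -/
def NVJU_stmt : Prop := NVJ' → LBM_stmt → LBN_stmt → JETU'

end

end Pool.Agent.NG
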