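import Mathlib
import Pool.Agent.Lib.NG.J
import Pool.Agent.Lib.NG.Inst

/-!
# JET (MP_663568_nt), row AMQ: unitriangular matrices with the rational matrices

The rational unitriangular matrices are the rational elements of the ambient group `UTG n S hS`.
(helper87)
-/

set_option autoImplicit false
open Finset Topology

namespace Pool.Agent.NG

noncomputable section

theorem ratl_sum {ι : Type*} (s : Finset ι) (f : ι → ℝ) (h : ∀ i ∈ s, ∃ q : ℚ, f i = q) :
    ∃ q : ℚ, ∑ i ∈ s, f i = q := by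
  classical
  induction s using Finset.induction_on with
  | empty => exact ⟨0, by simp⟩
  | insert a s ha ih =>
    obtain ⟨q, hq⟩ := h a (Finset.mem_insert_self a s)
    obtain ⟨q', hq'⟩ := ih fun i hi => h i (Finset.mem_insert_of_mem hi)
    exact ⟨q + q', by rw [Finset.sum_insert ha, hq, hq', Rat.cast_add]⟩

theorem ratl_mul {n : ℕ} {A B : Matrix (Fin n) (Fin n) ℝ} (hA : ∀ i j, ∃ q : ℚ, A i j = q)
    (hB : ∀ i j, ∃ q : ℚ, B i j = q) : ∀ i j, ∃ q : ℚ, (A * B) i j = q := by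
  intro i j
  rw [Matrix.mul_apply]
  apply ratl_sum
  intro k _
  obtain ⟨a, ha⟩ := hA i k
  obtain ⟨b, hb⟩ := hB k j
  exact ⟨a * b, by rw [ha, hb, Rat.cast_mul]⟩

theorem ratl_pow {n : ℕ} {A : Matrix (Fin n) (Fin n) ℝ} (hA : ∀ i j, ∃ q : ℚ, A i j = q)
    (k : ℕ) : ∀ i j, ∃ q : ℚ, (A ^ k) i j = q := by
  induction k with
  | zero =>
    intro i j
    by_cases h : i = j
    · exact ⟨1, by rw [pow_zero, h, Matrix.one_apply_eq, Rat.cast_one]⟩
    · exact ⟨0, by rw [pow_zero, Matrix.one_apply_ne h, Rat.cast_zero]⟩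
  | succ k ih =>
    rw [pow_succ]
    exact ratl_mul ih hA

theorem bin_ratl (t : ℚ) (k : ℕ) : ∃ q : ℚ, bin (t : ℝ) k = q := by
  induction k with
  | zero => exact ⟨1, by rw [bin_zero_right, Rat.cast_one]⟩
  | succ k ih =>
    obtain ⟨q, hq⟩ := ih
    refine ⟨q * (t - k) / (k + 1), ?_⟩
    rw [bin_succ, hq]
    push_cast
    ring

theorem pwU_ratl {n : ℕ} {x : UT n} (hx : ∀ i j, ∃ q : ℚ, nilp x i j = q) (t : ℚ) :
    ∀ i j, ∃ q : ℚ, nilp (pwU x (t : ℝ)) i j = q := by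
  intro i j
  rw [nilp_pwU, Matrix.sum_apply]
  apply ratl_sum
  intro k _
  obtain ⟨a, ha⟩ := bin_ratl t (k + 1)
  obtain ⟨b, hb⟩ := ratl_pow hx (k + 1) i j
  exact ⟨a * b, by rw [Matrix.smul_apply, smul_eq_mul, ha, hb, Rat.cast_mul]⟩

/-- The rational unitriangular matrices. -/
def QrU (n : ℕ) : Subgroup (UT n) where
  carrier := {x | ∀ i j, ∃ q : ℚ, nilp x i j = q}
  one_mem' := by
    intro i j
    exact ⟨0, by rw [nilp_one]; simp⟩
  mul_mem' := by
    intro x y hx hy i j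
    obtain ⟨a, ha⟩ := ratl_mul hx hy i j
    obtain ⟨b, hb⟩ := hx i j
    obtain ⟨c, hc⟩ := hy i j
    refine ⟨a + b + c, ?_⟩
    rw [nilp_mul, Matrix.add_apply, Matrix.add_apply, ha, hb, hc]
    push_cast
    ring
  inv_mem' := by
    intro x hx
    have h := pwU_ratl hx (-1)
    rw [Rat.cast_neg, Rat.cast_one] at h
    exact h

theorem laU_le_qrU (n : ℕ) : LaU n ≤ QrU n := by
  intro x hx i j
  obtain ⟨m, hm⟩ := hx i j
  exact ⟨m, by rw [hm, Rat.cast_intCast]⟩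

theorem qrU_root {n : ℕ} (x : UT n) (m : ℕ) (hm : 1 ≤ m) (h : x ^ m ∈ QrU n) : x ∈ QrU n := by
  have h1 := pwU_ratl h (1 / m)
  have h2 : pwU (x ^ m) (((1 / m : ℚ)) : ℝ) = x := by
    rw [← pwU_nat, pwU_mul]
    have h3 : (m : ℝ) ≠ 0 := by
      have : 0 < m := hm
      positivity
    have h4 : (m : ℝ) * (((1 / m : ℚ)) : ℝ) = 1 := by
      push_cast
      field_simp
    rw [h4, pwU_one]
  rw [h2] at h1
  exact h1

/-- A common denominator. -/
theorem den_fin {ι : Type*} (s : Finset ι) (f : ι → ℝ) (h : ∀ i ∈ s, ∃ q : ℚ, f i = q) :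
    ∃ D : ℕ, 1 ≤ D ∧ ∀ i ∈ s, ∃ m : ℤ, (D : ℝ) * f i = m := by
  classical
  induction s using Finset.induction_on with
  | empty => exact ⟨1, le_rfl, by simp⟩
  | insert a s ha ih =>
    obtain ⟨q, hq⟩ := h a (Finset.mem_insert_self a s)
    obtain ⟨D, hD, hD2⟩ := ih fun i hi => h i (Finset.mem_insert_of_mem hi)
    refine ⟨D * q.den, Nat.one_le_iff_ne_zero.mpr (Nat.mul_ne_zero (by omega) q.den_nz), ?_⟩
    intro i hi
    rcases Finset.mem_insert.mp hi with rfl | hi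
    · refine ⟨D * q.num, ?_⟩
      rw [hq]
      push_cast
      have h1 : (q.den : ℝ) * (q : ℝ) = q.num := by
        have h2 := Rat.den_mul_eq_num q
        have h3 : ((q.den * q : ℚ) : ℝ) = ((q.num : ℚ) : ℝ) := by rw [h2]
        push_cast at h3
        exact h3
      rw [mul_assoc, h1]
    · obtain ⟨m, hm⟩ := hD2 i hi
      refine ⟨m * q.den, ?_⟩
      push_cast
      rw [← hm]
      ring

theorem bin_dvd (D k N : ℕ) (hk : 1 ≤ k) (hN : D * k.factorial ∣ N) :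
    ∃ m : ℤ, bin (N : ℝ) k = (D : ℝ) * m := by
  obtain ⟨c, hc⟩ := hN
  rw [bin_nat]
  obtain ⟨k', rfl⟩ := Nat.exists_eq_succ_of_ne_zero (n := k) (by omega)
  rcases Nat.eq_zero_or_pos N with h0 | h0
  · refine ⟨0, ?_⟩
    rw [h0, Nat.choose_zero_succ]
    simp
  · obtain ⟨N', hN'⟩ := Nat.exists_eq_succ_of_ne_zero (n := N) (by omega)
    have h1 := Nat.add_one_mul_choose_eq N' k'
    have hN2 : N = N' + 1 := hN'
    rw [← hN2, hc, Nat.succ_eq_add_one, Nat.factorial_succ] at h1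
    have h2 : (D * (k'.factorial * c * N'.choose k')) * k'.succ
        = ((D * ((k' + 1) * k'.factorial) * c).choose (k' + 1)) * (k' + 1) := by
      rw [← h1]
      rw [Nat.succ_eq_add_one]
      ring
    have h3 := Nat.eq_of_mul_eq_mul_right (Nat.succ_pos k') h2
    have h4 : D * ((k' + 1) * k'.factorial) * c = N := by
      rw [hc, Nat.succ_eq_add_one, Nat.factorial_succ]
    rw [h4] at h3
    refine ⟨((k'.factorial * c * N'.choose k' : ℕ) : ℤ), ?_⟩
    rw [Nat.succ_eq_add_one, ← h3]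
    push_cast
    ring

/-- Some power of a rational matrix is integral. -/
theorem qrU_pow {n : ℕ} (x : UT n) (hx : x ∈ QrU n) : ∃ m : ℕ, 1 ≤ m ∧ x ^ m ∈ LaU n := by
  obtain ⟨D, hD, hD2⟩ := den_fin (ι := (ℕ × Fin n) × Fin n)
    ((range (n + 1) ×ˢ (univ : Finset (Fin n))) ×ˢ (univ : Finset (Fin n)))
    (fun a => (nilp x ^ a.1.1) a.1.2 a.2) (fun a _ => ratl_pow hx a.1.1 a.1.2 a.2)
  refine ⟨D * n.factorial, Nat.one_le_iff_ne_zero.mpr
    (Nat.mul_ne_zero (by omega) (Nat.factorial_ne_zero n)), ?_⟩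
  intro i j
  rw [← pwU_nat, nilp_pwU, Matrix.sum_apply]
  have h1 : ∀ k ∈ range n, ∃ m : ℤ,
      (bin ((D * n.factorial : ℕ) : ℝ) (k + 1) • nilp x ^ (k + 1)) i j = m := by
    intro k hk
    have hk2 := Finset.mem_range.mp hk
    obtain ⟨m, hm⟩ := bin_dvd D (k + 1) (D * n.factorial) (by omega)
      (Nat.mul_dvd_mul_left D (Nat.factorial_dvd_factorial (by omega)))
    obtain ⟨m', hm'⟩ := hD2 ((k + 1, i), j) (by
      simp only [Finset.mem_product, Finset.mem_range, Finset.mem_univ, and_true]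
      omega)
    refine ⟨m * m', ?_⟩
    rw [Matrix.smul_apply, smul_eq_mul, hm]
    push_cast
    rw [← hm']
    ring
  choose! f hf using h1
  refine ⟨∑ k ∈ range n, f k, ?_⟩
  rw [Finset.sum_congr rfl hf]
  push_cast
  rfl

/-- Powers of an integral element of a rational subgroup come back to the lattice. -/
theorem la_ret {n : ℕ} (S : Subgroup (UT n)) (hS : S ≤ LaU n) (G : Subgroup (UTG n S hS))
    (hG : Rat G) (y : UTG n S hS) (hy : y ∈ G) (hy2 : (y : UT n) ∈ LaU n) :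
    ∃ m : ℕ, 1 ≤ m ∧ (y ^ m : UTG n S hS) ∈ (Amb.La : Subgroup (UTG n S hS)) := by
  obtain ⟨K, hK, hKG, hc⟩ := hG.coc
  have hpow : ∀ i : ℕ, ∃ k ∈ K, ∃ γ ∈ (Amb.La : Subgroup (UTG n S hS)), y ^ i = k * γ := by
    intro i
    obtain ⟨k, hk, γ, hγ, _, h⟩ := hc (y ^ i) (G.pow_mem hy i)
    exact ⟨k, hk, γ, hγ, h⟩
  choose k hk γ hγ hkg using hpow
  have hfin : ((LaU n : Set (UT n)) ∩ K).Finite := laU_fin K hK
  have hmem : ∀ i, k i ∈ ((LaU n : Set (UT n)) ∩ K) := by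
    intro i
    refine ⟨?_, hk i⟩
    have h1 : k i = y ^ i * (γ i)⁻¹ := by rw [hkg i]; group
    have h2 : ((y ^ i * (γ i)⁻¹ : UTG n S hS) : UT n) ∈ LaU n :=
      (LaU n).mul_mem ((LaU n).pow_mem hy2 i) ((LaU n).inv_mem (hS (hγ i)))
    rw [← h1] at h2
    exact h2
  obtain ⟨i, _, j, _, hij, he⟩ := Set.infinite_univ.exists_ne_map_eq_of_mapsTo
    (f := k) (t := ((LaU n : Set (UT n)) ∩ K)) (fun i _ => hmem i) hfin
  have key : ∀ i j : ℕ, i < j → k i = k j → ∃ m : ℕ, 1 ≤ m ∧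
      (y ^ m : UTG n S hS) ∈ (Amb.La : Subgroup (UTG n S hS)) := by
    intro i j hij he
    refine ⟨j - i, by omega, ?_⟩
    have h1 : y ^ (j - i) = (γ i)⁻¹ * γ j := by
      have h2 : y ^ i * y ^ (j - i) = y ^ j := by rw [← pow_add]; congr 1; omega
      rw [hkg i, hkg j, he, mul_assoc] at h2
      have h3 := mul_left_cancel h2
      rw [← h3]
      group
    rw [h1]
    exact Subgroup.mul_mem _ (Subgroup.inv_mem _ (hγ i)) (hγ j)
  rcases lt_or_gt_of_ne hij with h | h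
  · exact key i j h he
  · exact key j i h he.symm

/-- Row AMQ: unitriangular matrices with the rational matrices. -/
instance instAmbQUT (n : ℕ) (S : Subgroup (UT n)) (hS : S ≤ LaU n) : AmbQ (UTG n S hS) where
  toAmb := instAmbUT n S hS
  Qr := QrU n
  la_le := hS.trans (laU_le_qrU n)
  root := qrU_root
  pow_la := by
    intro G hG x hx hxq
    obtain ⟨a, ha, h1⟩ := qrU_pow (n := n) x hxq
    obtain ⟨b, hb, h2⟩ := la_ret S hS G hG (x ^ a) (G.pow_mem hx a) h1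
    exact ⟨a * b, Nat.mul_pos ha hb, by rw [pow_mul]; exact h2⟩

end

end Pool.Agent.NG
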