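import Mathlib
import Pool.Agent.Lib.NG.Inst
import Pool.Agent.Lib.NG.PWB

/-!
# JET (MP_663568_nt), row CCC: the centre of a rational group of unitriangular matrices

Every element of the centre is the product of an element of a compact set and of an element of the
lattice, both in the centre.  (helper87)
-/

set_option autoImplicit false
open Finset Topology

namespace Pool.Agent.NG

noncomputable section

open Amb

theorem poly_bdd_const (P : Polynomial ℝ) (B : ℝ) (h : ∀ m : ℕ, |P.eval (m : ℝ)| ≤ B) :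
    P.eval 1 = P.eval 0 := by
  by_cases hd : 0 < P.degree
  · exfalso
    have h1 := (P.abs_tendsto_atTop hd).comp (tendsto_natCast_atTop_atTop (R := ℝ))
    obtain ⟨m, hm⟩ := (h1.eventually (Filter.eventually_gt_atTop B)).exists
    exact absurd (h m) (not_le.mpr hm)
  · have h1 : P = Polynomial.C (P.coeff 0) :=
      Polynomial.eq_C_of_degree_le_zero (not_lt.mp hd)
    rw [h1, Polynomial.eval_C, Polynomial.eval_C]

theorem conj_poly {n : ℕ} (x z : UT n) (i j : Fin n) :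
    ∃ P : Polynomial ℝ, ∀ m : ℕ, P.eval (m : ℝ) = (x ^ m * z * (x ^ m)⁻¹).1 i j := by
  refine ⟨∑ b, (∑ a, entP (nilp x) i a * Polynomial.C (z.1 a b))
    * (entP (nilp x) b j).comp (-Polynomial.X), ?_⟩
  intro m
  rw [← pwU_nat, pwU_inv, mul_val, mul_val, Matrix.mul_apply, Polynomial.eval_finsetSum]
  apply Finset.sum_congr rfl
  intro b _
  rw [Polynomial.eval_mul, Polynomial.eval_finsetSum, Matrix.mul_apply, Polynomial.eval_comp,
    Polynomial.eval_neg, Polynomial.eval_X, entP_eval]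
  congr 1
  apply Finset.sum_congr rfl
  intro a _
  rw [Polynomial.eval_mul, Polynomial.eval_C, entP_eval]
  rfl

/-- If the conjugates of `z` by the powers of `x` stay in a compact set, then `x` and `z` commute. -/
theorem comm_of_bdd {n : ℕ} (x z : UT n) (C : Set (UT n)) (hC : IsCompact C)
    (h : ∀ m : ℕ, x ^ m * z * (x ^ m)⁻¹ ∈ C) : x * z = z * x := by
  have h1 : x * z * x⁻¹ = z := by
    apply ut_ext
    ext i j
    obtain ⟨P, hP⟩ := conj_poly x z i j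
    have hc : Continuous fun y : UT n => |y.1 i j| :=
      (((val_continuous n).matrix_elem i j)).abs
    obtain ⟨B, hB⟩ := hC.bddAbove_image (f := fun y : UT n => |y.1 i j|) hc.continuousOn
    have h2 := poly_bdd_const P B fun m => by
      rw [hP m]
      exact hB ⟨_, h m, rfl⟩
    have h3 := hP 1
    have h4 := hP 0
    rw [Nat.cast_one, pow_one] at h3
    rw [Nat.cast_zero, pow_zero, one_mul, inv_one, mul_one] at h4
    rw [← h3, h2, h4]
  calc x * z = x * z * x⁻¹ * x := by group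
    _ = z * x := by rw [h1]

/-- The matrices which commute with all elements of `s`. -/
def cz {n : ℕ} (s : Set (UT n)) : Submodule ℝ (Matrix (Fin n) (Fin n) ℝ) :=
  Subalgebra.toSubmodule (Subalgebra.centralizer ℝ ((fun x : UT n => x.1) '' s))

theorem mem_cz {n : ℕ} (s : Set (UT n)) (z : UT n) : z.1 ∈ cz s ↔ ∀ x ∈ s, x * z = z * x := by
  unfold cz
  rw [Subalgebra.mem_toSubmodule, Subalgebra.mem_centralizer_iff]
  constructor
  · intro h x hx
    exact ut_ext (h x.1 ⟨x, hx, rfl⟩)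
  · rintro h _ ⟨x, hx, rfl⟩
    exact congrArg Subtype.val (h x hx)

theorem cz_anti {n : ℕ} {s t : Set (UT n)} (h : s ⊆ t) : cz t ≤ cz s := by
  intro A hA
  unfold cz at hA ⊢
  rw [Subalgebra.mem_toSubmodule, Subalgebra.mem_centralizer_iff] at hA ⊢
  rintro _ ⟨x, hx, rfl⟩
  exact hA _ ⟨x, h hx, rfl⟩

/-- Finitely many elements of `s` have the same centraliser as `s`. -/
theorem cz_fin {n : ℕ} (s : Set (UT n)) : ∃ S₀ : Finset (UT n), (S₀ : Set (UT n)) ⊆ s ∧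
    ∀ z : UT n, (∀ x ∈ S₀, x * z = z * x) → ∀ x ∈ s, x * z = z * x := by
  classical
  have hex : ∃ k : ℕ, ∃ S₀ : Finset (UT n), (S₀ : Set (UT n)) ⊆ s ∧
      Module.finrank ℝ (cz (S₀ : Set (UT n))) = k := ⟨_, ∅, by simp, rfl⟩
  obtain ⟨S₀, hS, hk⟩ := Nat.find_spec hex
  refine ⟨S₀, hS, ?_⟩
  intro z hz x hx
  have h1 : ((insert x S₀ : Finset (UT n)) : Set (UT n)) ⊆ s := by
    rw [Finset.coe_insert]
    exact Set.insert_subset hx hS
  have h2 := Nat.find_min' hex ⟨insert x S₀, h1, rfl⟩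
  rw [← hk] at h2
  have h3 : cz ((insert x S₀ : Finset (UT n)) : Set (UT n)) = cz (S₀ : Set (UT n)) :=
    Submodule.eq_of_le_of_finrank_le (cz_anti (by
      rw [Finset.coe_insert]
      exact Set.subset_insert _ _)) h2
  have h4 : z.1 ∈ cz (S₀ : Set (UT n)) := (mem_cz _ z).mpr hz
  rw [← h3] at h4
  exact (mem_cz _ z).mp h4 x (by simp)

theorem cz_finG {n : ℕ} {S : Subgroup (UT n)} {hS : S ≤ LaU n} (s : Set (UTG n S hS)) :
    ∃ S₀ : Finset (UTG n S hS), (S₀ : Set (UTG n S hS)) ⊆ s ∧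
    ∀ z : UTG n S hS, (∀ x ∈ S₀, x * z = z * x) → ∀ x ∈ s, x * z = z * x :=
  cz_fin (n := n) s

/-- An element which commutes with the lattice of a rational group commutes with the group. -/
theorem comm_of_lat {n : ℕ} {S : Subgroup (UT n)} {hS : S ≤ LaU n} {G : Subgroup (UTG n S hS)}
    (hG : Rat G) (z : UTG n S hS)
    (h : ∀ γ ∈ (La : Subgroup (UTG n S hS)), γ ∈ G → γ * z = z * γ) (x : UTG n S hS) (hx : x ∈ G) :
    x * z = z * x := by
  obtain ⟨K, hK, _, hc⟩ := hG.coc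
  have hC : IsCompact ((fun k : UTG n S hS => k * z * k⁻¹) '' K) :=
    hK.image ((continuous_id.mul continuous_const).mul continuous_inv)
  apply comm_of_bdd (n := n) x z _ hC
  intro m
  obtain ⟨k, hk, γ, hγ, hγG, he⟩ := hc (x ^ m) (G.pow_mem hx m)
  refine ⟨k, hk, ?_⟩
  show k * z * k⁻¹ = x ^ m * z * (x ^ m)⁻¹
  rw [he]
  calc k * z * k⁻¹ = k * (z * γ) * γ⁻¹ * k⁻¹ := by group
    _ = k * (γ * z) * γ⁻¹ * k⁻¹ := by rw [h γ hγ hγG]
    _ = k * γ * z * (k * γ)⁻¹ := by group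

/-- **Row CCC**: the centre of a rational group `G` is the product of a compact set and of the
lattice of the centre. -/
theorem ccc (n : ℕ) (S : Subgroup (UT n)) (hS : S ≤ LaU n) (G : Subgroup (UTG n S hS))
    (hG : Rat G) : ∃ K : Set (UTG n S hS), IsCompact K ∧ K ⊆ (G : Set (UTG n S hS)) ∧
    ∀ c ∈ G, (∀ x ∈ G, c * x = x * c) → ∃ k ∈ K, ∃ γ ∈ (La : Subgroup (UTG n S hS)), γ ∈ G ∧
      (∀ x ∈ G, k * x = x * k) ∧ (∀ x ∈ G, γ * x = x * γ) ∧ c = k * γ := by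
  classical
  obtain ⟨K₀, hK₀, hKG, hc⟩ := hG.coc
  obtain ⟨S₀, hS₀, hcz⟩ := cz_finG {γ : UTG n S hS | γ ∈ (La : Subgroup (UTG n S hS)) ∧ γ ∈ G}
  -- the values of the commutators
  let cm : UTG n S hS → UTG n S hS → UTG n S hS := fun γ δ => γ * δ * γ⁻¹ * δ⁻¹
  let D : S₀ → Set (UTG n S hS) := fun δ => ((La : Subgroup (UTG n S hS)) : Set (UTG n S hS)) ∩
    ((fun k : UTG n S hS => k⁻¹ * δ.1 * k * δ.1⁻¹) '' K₀)
  have hD : ∀ δ, (D δ).Finite := by
    intro δ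
    apply La_fin
    exact hK₀.image (((continuous_inv.mul continuous_const).mul continuous_id).mul
      continuous_const)
  let T : Set (S₀ → UTG n S hS) := Set.pi Set.univ D
  have hT : T.Finite := Set.Finite.pi fun δ => hD δ
  have hch : ∀ v : S₀ → UTG n S hS, ∃ g ∈ G, ((∃ γ ∈ (La : Subgroup (UTG n S hS)), γ ∈ G ∧
      ∀ δ : S₀, cm γ δ.1 = v δ) → g ∈ (La : Subgroup (UTG n S hS)) ∧ ∀ δ : S₀, cm g δ.1 = v δ) := by
    intro v
    by_cases h : ∃ γ ∈ (La : Subgroup (UTG n S hS)), γ ∈ G ∧ ∀ δ : S₀, cm γ δ.1 = v δ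
    · obtain ⟨γ, h1, h2, h3⟩ := h
      exact ⟨γ, h2, fun _ => ⟨h1, h3⟩⟩
    · exact ⟨1, G.one_mem, fun h' => absurd h' h⟩
  choose g hgG hg using hch
  refine ⟨⋃ v ∈ T, (fun k : UTG n S hS => k * g v) '' K₀, ?_, ?_, ?_⟩
  · apply hT.isCompact_biUnion
    intro v _
    exact hK₀.image (continuous_id.mul continuous_const)
  · intro y hy
    simp only [Set.mem_iUnion] at hy
    obtain ⟨v, _, k, hk, rfl⟩ := hy
    exact G.mul_mem (hKG hk) (hgG v)
  · intro c hcG hcc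
    obtain ⟨k, hk, γ, hγ, hγG, he⟩ := hc c hcG
    let v : S₀ → UTG n S hS := fun δ => cm γ δ.1
    have hv : v ∈ T := by
      intro δ _
      have hδ := hS₀ δ.2
      have hδ1 : δ.1 ∈ (La : Subgroup (UTG n S hS)) := hδ.1
      have hδ2 : δ.1 ∈ G := hδ.2
      refine ⟨?_, k, hk, ?_⟩
      · exact Subgroup.mul_mem _ (Subgroup.mul_mem _ (Subgroup.mul_mem _ hγ hδ1)
          (Subgroup.inv_mem _ hγ)) (Subgroup.inv_mem _ hδ1)
      · show k⁻¹ * δ.1 * k * δ.1⁻¹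
          = γ * δ.1 * γ⁻¹ * δ.1⁻¹
        have h1 : k = c * γ⁻¹ := by rw [he]; group
        have h2 := hcc _ hδ2
        congr 1
        rw [h1]
        calc (c * γ⁻¹)⁻¹ * δ.1 * (c * γ⁻¹)
            = γ * c⁻¹ * (δ.1 * c) * γ⁻¹ := by group
          _ = γ * c⁻¹ * (c * δ.1) * γ⁻¹ := by rw [h2]
          _ = γ * δ.1 * γ⁻¹ := by group
    obtain ⟨hg1, hg2⟩ := hg v ⟨γ, hγ, hγG, fun δ => rfl⟩
    -- ζ = g⁻¹ γ commutes with the finite set, the lattice, the group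
    have hζ0 : ∀ δ ∈ S₀, δ * ((g v)⁻¹ * γ) = ((g v)⁻¹ * γ) * δ := by
      intro δ hδ
      have h1 : g v * δ * (g v)⁻¹ * δ⁻¹
          = γ * δ * γ⁻¹ * δ⁻¹ := hg2 ⟨δ, hδ⟩
      have h2 : g v * δ * (g v)⁻¹ = γ * δ * γ⁻¹ :=
        mul_right_cancel h1
      calc δ * ((g v)⁻¹ * γ)
          = (g v)⁻¹ * (g v * δ * (g v)⁻¹) * γ := by group
        _ = (g v)⁻¹ * (γ * δ * γ⁻¹) * γ := by rw [h2]
        _ = ((g v)⁻¹ * γ) * δ := by group
    have hζ1 : ∀ δ ∈ (La : Subgroup (UTG n S hS)), δ ∈ G →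
        δ * ((g v)⁻¹ * γ) = ((g v)⁻¹ * γ) * δ := fun δ h1 h2 => hcz _ hζ0 δ ⟨h1, h2⟩
    have hζ2 := comm_of_lat hG ((g v)⁻¹ * γ) hζ1
    have hk2 : k * g v = c * ((g v)⁻¹ * γ)⁻¹ := by rw [he]; group
    refine ⟨k * g v, ?_, (g v)⁻¹ * γ, Subgroup.mul_mem _ (Subgroup.inv_mem _ hg1) hγ,
      G.mul_mem (G.inv_mem (hgG v)) hγG, ?_, ?_, ?_⟩
    · simp only [Set.mem_iUnion]
      exact ⟨v, hv, k, hk, rfl⟩
    · intro x hx
      have h1 := hζ2 x hx
      have h2 := hcc x hx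
      have h3 : ((g v)⁻¹ * γ)⁻¹ * x = x * ((g v)⁻¹ * γ)⁻¹ := by
        rw [inv_mul_eq_iff_eq_mul, ← mul_assoc, ← h1, mul_assoc, mul_inv_cancel, mul_one]
      rw [hk2, mul_assoc, h3, ← mul_assoc, h2, mul_assoc]
    · intro x hx
      exact (hζ2 x hx).symm
    · rw [he]
      group

end

end Pool.Agent.NG
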