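import Mathlib
import Pool.Agent.Lib.NG.J
import Pool.Agent.Lib.NG.PWB

/-!
# JET (MP_663568_nt), row CJQ: rational elements commensurate the lattice  (helper32)
-/

set_option autoImplicit false
open Finset Topology

namespace Pool.Agent.NG

noncomputable section

open Amb AmbQ

/-- **row CJQ** -/
theorem cjq : CJQ_stmt := by
  intro U _ G ζ s M₀ hG hζ hζQ hs hla
  obtain ⟨-, -, hpz, -⟩ := pwb U
  set y : U := pw (M₀ : ℝ) s with hy
  have hyG : y ∈ G := hG.pwc s hs _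
  have hyQ : y ∈ (Qr : Subgroup U) := la_le hla
  have hx : ζ⁻¹ * y * ζ ∈ G := G.mul_mem (G.mul_mem (G.inv_mem hζ) hyG) hζ
  have hxQ : ζ⁻¹ * y * ζ ∈ (Qr : Subgroup U) :=
    (Qr : Subgroup U).mul_mem ((Qr : Subgroup U).mul_mem ((Qr : Subgroup U).inv_mem hζQ) hyQ) hζQ
  obtain ⟨m, hm, hmla⟩ := pow_la G hG _ hx hxQ
  refine ⟨m, hm, fun t => ?_⟩
  have e1 : pw ((M₀ : ℝ) * m * t) s = y ^ ((m : ℤ) * t) := by
    have h1 : (M₀ : ℝ) * m * t = (((m : ℤ) * t : ℤ) : ℝ) * M₀ := by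
      push_cast
      ring
    rw [h1, pw_mul, hpz]
  have e2 : ζ⁻¹ * pw ((M₀ : ℝ) * m * t) s * ζ = ((ζ⁻¹ * y * ζ) ^ m) ^ t := by
    rw [e1]
    have h2 : ζ⁻¹ * y * ζ = ζ⁻¹ * y * (ζ⁻¹)⁻¹ := by rw [inv_inv]
    rw [h2, conj_pow, conj_zpow, inv_inv, zpow_mul, zpow_natCast]
  rw [e2]
  exact (La : Subgroup U).zpow_mem hmla t

end

end Pool.Agent.NG
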