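import Mathlib
import Pool.Agent.Lib.NV.WDefs
import Pool.Agent.Lib.NV.CLUF
import Pool.Agent.Lib.VQ.CLU
import Pool.Agent.Lib.VQ.PAIR
import Pool.Agent.Lib.VQ.PREC

/-!
# NVG2 (MP_663568_nt): clusters of phases with a bounded weight

(after helper93 and helper19, VQ.PAIR and VQ.CLU; helper95)
-/

set_option autoImplicit false
open Finset MeasureTheory Polynomial Filter

namespace Pool.Agent.NG

open Pool.Agent.Lib.MP_663568_nt Pool.Agent.Lib.MP_663568_nt.Katai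
  Pool.Agent.Lib.MP_663568_nt.Nul Pool.Agent.SV Pool.Agent.VQ Pool.Agent.NV

noncomputable section

/-- Cauchy's inequality with a bounded weight. -/
theorem pairG (Φ : ℕ → ℂ) (hΦ : ∀ m, ‖Φ m‖ ≤ 1) (l m : ℕ) (GG : Finset ℕ) (w : ℕ → ℝ)
    (P : ℕ → ℝ[X]) (ε : ℝ) (hl : 1 ≤ l) (hw : ∀ p ∈ GG, 0 ≤ w p) (hε : 0 ≤ ε)
    (hP : ∀ p ∈ GG, ε ≤ Wg l m (tw (P p) Φ)) :
    ε ^ 2 * (∑ p ∈ GG, w p) ^ 2 ≤ ∑ p ∈ GG, ∑ p' ∈ GG, w p * w p' * Kp l m (P p - P p') := by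
  have hl0 : (0 : ℝ) < l := by exact_mod_cast hl
  choose u hu1 hu2 using exists_unit
  set F : ℕ → ℕ → ℂ := fun p h => ee ((P p).eval ((m : ℝ) + h)) with hF
  set v : ℕ → ℂ := fun p => ∑ h ∈ Icc 1 l, (muC (m + h) * Φ (m + h)) * F p h with hv
  set U : ℕ → ℂ := fun p => (w p : ℂ) * u (v p) with hU
  have h1 : ((∑ p ∈ GG, w p * ‖v p‖ : ℝ) : ℂ) =
      ∑ h ∈ Icc 1 l, (muC (m + h) * Φ (m + h)) * ∑ p ∈ GG, U p * F p h := by
    push_cast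
    have : ∀ p ∈ GG, (w p : ℂ) * (‖v p‖ : ℂ) = (w p : ℂ) * (u (v p) * v p) :=
      fun p _ => by rw [hu2]
    rw [sum_congr rfl this]
    simp only [hv, mul_sum]
    rw [sum_comm]
    apply sum_congr rfl; intro h _
    apply sum_congr rfl; intro p _
    simp only [hU, hv]; ring
  have h2 : ∑ p ∈ GG, w p * ‖v p‖ ≤ ∑ h ∈ Icc 1 l, ‖∑ p ∈ GG, U p * F p h‖ := by
    have h0 : 0 ≤ ∑ p ∈ GG, w p * ‖v p‖ :=
      sum_nonneg (fun p hp => mul_nonneg (hw p hp) (norm_nonneg _))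
    calc ∑ p ∈ GG, w p * ‖v p‖ = ‖((∑ p ∈ GG, w p * ‖v p‖ : ℝ) : ℂ)‖ := by
          rw [Complex.norm_real, Real.norm_of_nonneg h0]
      _ = ‖∑ h ∈ Icc 1 l, (muC (m + h) * Φ (m + h)) * ∑ p ∈ GG, U p * F p h‖ := by rw [h1]
      _ ≤ ∑ h ∈ Icc 1 l, ‖(muC (m + h) * Φ (m + h)) * ∑ p ∈ GG, U p * F p h‖ := norm_sum_le _ _
      _ ≤ ∑ h ∈ Icc 1 l, ‖∑ p ∈ GG, U p * F p h‖ := by
          apply sum_le_sum; intro h _
          rw [norm_mul, norm_mul]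
          exact mul_le_of_le_one_left (norm_nonneg _)
            (mul_le_one₀ (PAIRx.norm_muC_le _) (norm_nonneg _) (hΦ _))
  have h3 : ∑ h ∈ Icc 1 l, ‖∑ p ∈ GG, U p * F p h‖ ^ 2
      ≤ l * ∑ p ∈ GG, ∑ p' ∈ GG, w p * w p' * Kp l m (P p - P p') := by
    have e1 : ((∑ h ∈ Icc 1 l, ‖∑ p ∈ GG, U p * F p h‖ ^ 2 : ℝ) : ℂ)
        = ∑ p ∈ GG, ∑ q ∈ GG, (U p * (starRingEnd ℂ) (U q)) *
          ∑ h ∈ Icc 1 l, ee ((P p - P q).eval ((m : ℝ) + h)) := by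
      push_cast
      have : ∀ h : ℕ, ((‖∑ p ∈ GG, U p * F p h‖ : ℂ)) ^ 2
          = ∑ p ∈ GG, ∑ q ∈ GG, (U p * (starRingEnd ℂ) (U q)) *
            ee ((P p - P q).eval ((m : ℝ) + h)) := by
        intro h
        rw [← Complex.mul_conj', map_sum, sum_mul_sum]
        apply sum_congr rfl; intro p _
        apply sum_congr rfl; intro q _
        rw [map_mul, eval_sub, ee_sub]
        simp only [hF]; ring
      rw [sum_congr rfl (fun l _ => this l), sum_comm]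
      apply sum_congr rfl; intro p _
      rw [sum_comm]
      apply sum_congr rfl; intro q _
      rw [mul_sum]
    have h0 : 0 ≤ ∑ h ∈ Icc 1 l, ‖∑ p ∈ GG, U p * F p h‖ ^ 2 :=
      sum_nonneg (fun _ _ => by positivity)
    have hUn : ∀ p ∈ GG, ‖U p‖ ≤ w p := by
      intro p hp
      simp only [hU]
      rw [norm_mul, Complex.norm_real, Real.norm_of_nonneg (hw p hp)]
      exact mul_le_of_le_one_right (hw p hp) (hu1 _)
    calc ∑ h ∈ Icc 1 l, ‖∑ p ∈ GG, U p * F p h‖ ^ 2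
        = ‖((∑ h ∈ Icc 1 l, ‖∑ p ∈ GG, U p * F p h‖ ^ 2 : ℝ) : ℂ)‖ := by
          rw [Complex.norm_real, Real.norm_of_nonneg h0]
      _ ≤ ∑ p ∈ GG, ∑ q ∈ GG, ‖(U p * (starRingEnd ℂ) (U q)) *
          ∑ h ∈ Icc 1 l, ee ((P p - P q).eval ((m : ℝ) + h))‖ := by
          rw [e1]
          exact (norm_sum_le _ _).trans (sum_le_sum (fun p _ => norm_sum_le _ _))
      _ ≤ ∑ p ∈ GG, ∑ q ∈ GG, l * (w p * w q * Kp l m (P p - P q)) := by
          apply sum_le_sum; intro p hp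
          apply sum_le_sum; intro q hq
          have hUU : ‖U p * (starRingEnd ℂ) (U q)‖ ≤ w p * w q := by
            rw [norm_mul, RCLike.norm_conj]
            exact mul_le_mul (hUn p hp) (hUn q hq) (norm_nonneg _) (hw p hp)
          rw [norm_mul]
          have hK : ‖∑ h ∈ Icc 1 l, ee ((P p - P q).eval ((m : ℝ) + h))‖ =
              l * Kp l m (P p - P q) := by
            unfold Kp
            field_simp
          rw [hK]
          have hK0 : 0 ≤ Kp l m (P p - P q) := by unfold Kp; positivity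
          calc _ ≤ (w p * w q) * (l * Kp l m (P p - P q)) :=
                mul_le_mul_of_nonneg_right hUU (by positivity)
            _ = _ := by ring
      _ = l * ∑ p ∈ GG, ∑ p' ∈ GG, w p * w p' * Kp l m (P p - P p') := by
          rw [mul_sum]
          apply sum_congr rfl; intro p _
          rw [mul_sum]
  have h4 : (∑ h ∈ Icc 1 l, ‖∑ p ∈ GG, U p * F p h‖) ^ 2
      ≤ (l : ℝ) * ∑ h ∈ Icc 1 l, ‖∑ p ∈ GG, U p * F p h‖ ^ 2 := by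
    have := sq_sum_le_card_mul_sum_sq (s := Icc 1 l) (f := fun h => ‖∑ p ∈ GG, U p * F p h‖)
    simpa using this
  have h5 : l * ε * ∑ p ∈ GG, w p ≤ ∑ p ∈ GG, w p * ‖v p‖ := by
    rw [mul_sum]
    apply sum_le_sum
    intro p hp
    have h6 := hP p hp
    unfold Wg at h6
    rw [le_div_iff₀ hl0] at h6
    have h7 : ε * l ≤ ‖v p‖ := by
      refine h6.trans (le_of_eq ?_)
      rw [hv]
      congr 1
      refine sum_congr rfl fun h _ => ?_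
      simp only [hF, tw]
      push_cast
      ring
    calc (l : ℝ) * ε * w p = w p * (ε * l) := by ring
      _ ≤ w p * ‖v p‖ := mul_le_mul_of_nonneg_left h7 (hw p hp)
  have h0 : 0 ≤ l * ε * ∑ p ∈ GG, w p :=
    mul_nonneg (mul_nonneg hl0.le hε) (sum_nonneg hw)
  have h8 : (l * ε * ∑ p ∈ GG, w p) ^ 2 ≤
      (l : ℝ) * (l * ∑ p ∈ GG, ∑ p' ∈ GG, w p * w p' * Kp l m (P p - P p')) := by
    calc (l * ε * ∑ p ∈ GG, w p) ^ 2 ≤ (∑ h ∈ Icc 1 l, ‖∑ p ∈ GG, U p * F p h‖) ^ 2 :=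
          pow_le_pow_left₀ h0 (h5.trans h2) 2
      _ ≤ (l : ℝ) * ∑ h ∈ Icc 1 l, ‖∑ p ∈ GG, U p * F p h‖ ^ 2 := h4
      _ ≤ _ := mul_le_mul_of_nonneg_left h3 hl0.le
  have h9 : (l : ℝ) ^ 2 * (ε ^ 2 * (∑ p ∈ GG, w p) ^ 2) ≤
      (l : ℝ) ^ 2 * ∑ p ∈ GG, ∑ p' ∈ GG, w p * w p' * Kp l m (P p - P p') := by
    calc _ = (l * ε * ∑ p ∈ GG, w p) ^ 2 := by ring
      _ ≤ _ := h8
      _ = _ := by ring
  exact le_of_mul_le_mul_left h9 (by positivity)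

open CLUx CLUFx in
open Classical in
/-- In a region one polynomial is related to a positive proportion of the others, with any bounded
weight. -/
theorem clug (t : ℕ) (ε : ℝ) (ht : 1 ≤ t) (hε : 0 < ε) (hε1 : ε ≤ 1) :
    ∃ (c₁ E : ℝ) (qs H₀ : ℕ), 0 < c₁ ∧ c₁ ≤ 1 ∧ 0 < E ∧ 1 ≤ qs ∧ ∀ (Φ : ℕ → ℂ),
    (∀ m, ‖Φ m‖ ≤ 1) → ∀ H L m₀ : ℕ, H₀ ≤ H →
    L = ⌊ε / 16 * (H : ℝ)⌋₊ → ∀ (J : Finset ℕ) (Q : ℕ → ℝ[X]), (∀ j ∈ J, j < L) →
    ε / 8 * (L : ℝ) ≤ (#J : ℝ) → (∀ j ∈ J, (Q j).natDegree ≤ t) →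
    (∀ j ∈ J, ε / 2 ≤ Wg H (m₀ + j) (tw (Q j) Φ)) →
    ∃ P : ℝ[X], P.natDegree ≤ t ∧ ε / 4 ≤ Wg (H - L) (m₀ + L) (tw P Φ) ∧
      c₁ * (L : ℝ) ≤ (#(J.filter fun j : ℕ => nd ((qs : ℝ) *
        (P.derivative.eval ((m₀ : ℝ) + j) - (Q j).derivative.eval ((m₀ : ℝ) + j))) ≤ E / H) : ℝ) := by
  obtain ⟨C₀, hC1, hC⟩ := TU.weyl_all t ht
  obtain ⟨c, hc⟩ : ∃ c : ℝ, c = ε ^ 2 / 32 := ⟨_, rfl⟩
  have hε2 : ε ^ 2 ≤ 1 := pow_le_one₀ hε.le hε1
  have hc0 : 0 < c := by rw [hc]; positivity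
  have hc2 : c ≤ 1 / 2 := by rw [hc]; linarith
  obtain ⟨K₀, hK₀⟩ : ∃ K₀ : ℝ, K₀ = (1 / c) ^ C₀ := ⟨_, rfl⟩
  have hK₀0 : 0 < K₀ := by rw [hK₀]; positivity
  obtain ⟨qs, hqs⟩ : ∃ qs : ℕ, qs = (⌊K₀⌋₊).factorial := ⟨_, rfl⟩
  have hqs1 : 1 ≤ qs := by rw [hqs]; exact Nat.factorial_pos _
  have hqs0 : (0 : ℝ) < qs := by exact_mod_cast hqs1
  refine ⟨ε / 8 * c, t * (t * 2 ^ t * (qs * K₀)), qs, ⌈2 * K₀⌉₊ + ⌈32 / ε⌉₊ + 2, by positivity,
    ?_, by positivity, hqs1, ?_⟩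
  · have : ε / 8 * c ≤ 1 * (1 / 2) := mul_le_mul (by linarith) hc2 hc0.le (by norm_num)
    linarith
  intro Φ hΦ H L m₀ hH hL J Q hJ hJc hQd hQ
  have hH1 : 1 ≤ H := by omega
  have hH0 : (0 : ℝ) < H := by exact_mod_cast hH1
  have hHK : 2 * K₀ ≤ H := (Nat.le_ceil _).trans (by exact_mod_cast (by omega : ⌈2 * K₀⌉₊ ≤ H))
  have hHε : 32 / ε ≤ H := (Nat.le_ceil _).trans (by exact_mod_cast (by omega : ⌈32 / ε⌉₊ ≤ H))
  have hLu : (L : ℝ) ≤ ε / 16 * H := by rw [hL]; exact Nat.floor_le (by positivity)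
  have hLl : ε / 16 * H - 1 < L := by rw [hL]; exact Nat.sub_one_lt_floor _
  have hL1 : 1 ≤ L := by
    rw [div_le_iff₀ hε] at hHε
    have : (0 : ℝ) < L := by linarith
    exact_mod_cast this
  have hL0 : (0 : ℝ) < L := by exact_mod_cast hL1
  have hLH2 : 2 * L ≤ H := by
    have : (2 : ℝ) * L ≤ H := by
      have : ε / 16 * H ≤ 1 / 16 * H := by gcongr
      linarith
    exact_mod_cast this
  have hw1 : 1 ≤ H - L := by omega
  have hwc : ((H - L : ℕ) : ℝ) = (H : ℝ) - L := by rw [Nat.cast_sub (by omega)]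
  have hw0 : (0 : ℝ) < ((H - L : ℕ) : ℝ) := by exact_mod_cast hw1
  have hcom : ∀ j ∈ J, ε / 4 ≤ Wg (H - L) (m₀ + L) (tw (Q j) Φ) := by
    intro j hj
    have h1 := CLUFx.common (norm_tw (P := Q j) hΦ) (H := H) (m := m₀) (hJ j hj) (by omega)
    have h2 := mul_le_mul_of_nonneg_left (hQ j hj) hH0.le
    have h3 : ((H - L : ℕ) : ℝ) * (ε / 4) ≤
        ((H - L : ℕ) : ℝ) * Wg (H - L) (m₀ + L) (tw (Q j) Φ) := by
      rw [hwc] at h1 ⊢
      have h4 : 0 ≤ ε * L := by positivity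
      linarith
    exact le_of_mul_le_mul_left h3 hw0
  -- the pairs
  have h1 := pairG Φ hΦ (H - L) (m₀ + L) J (fun _ => 1) Q (ε / 4) hw1 (fun _ _ => zero_le_one)
    (by linarith) hcom
  simp only [one_mul] at h1
  rw [sum_const, nsmul_eq_mul, mul_one] at h1
  have hJ0 : (0 : ℝ) < #J := lt_of_lt_of_le (by positivity) hJc
  obtain ⟨j₀, hj₀, hj₀s⟩ : ∃ j₀ ∈ J, ε ^ 2 / 16 * (#J : ℝ) ≤
      ∑ j ∈ J, Kp (H - L) (m₀ + L) (Q j₀ - Q j) := by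
    by_contra hcon
    push Not at hcon
    have hne : J.Nonempty := by
      rw [← card_pos]
      exact_mod_cast hJ0
    have h2 := sum_lt_sum_of_nonempty hne hcon
    rw [sum_const, nsmul_eq_mul] at h2
    have h3 : (ε / 4) ^ 2 * (#J : ℝ) ^ 2 = (#J : ℝ) * (ε ^ 2 / 16 * (#J : ℝ)) := by ring
    linarith
  have hKp0 : ∀ D : ℝ[X], Kp (H - L) (m₀ + L) D ≤ 1 := by
    intro D
    unfold Kp
    rw [div_le_one hw0]
    refine (norm_sum_le _ _).trans ?_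
    simp only [norm_ee]
    rw [sum_const, Nat.card_Icc, nsmul_eq_mul, mul_one]
    simp
  have hmany : c * (#J : ℝ) ≤
      (#(J.filter fun j => c ≤ Kp (H - L) (m₀ + L) (Q j₀ - Q j)) : ℝ) := by
    have h2 : ∑ j ∈ J, Kp (H - L) (m₀ + L) (Q j₀ - Q j) ≤
        ∑ j ∈ J, ((if c ≤ Kp (H - L) (m₀ + L) (Q j₀ - Q j) then (1 : ℝ) else 0) + c) := by
      refine sum_le_sum fun j _ => ?_
      split_ifs with h3
      · linarith [hKp0 (Q j₀ - Q j)]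
      · linarith [lt_of_not_ge h3]
    rw [sum_add_distrib, sum_const, nsmul_eq_mul, ← sum_filter, sum_const, nsmul_eq_mul,
      mul_one] at h2
    have h3 : ε ^ 2 / 16 * (#J : ℝ) = 2 * c * (#J : ℝ) := by rw [hc]; ring
    linarith
  refine ⟨Q j₀, hQd j₀ hj₀, hcom j₀ hj₀, ?_⟩
  have hsub : (J.filter fun j => c ≤ Kp (H - L) (m₀ + L) (Q j₀ - Q j)) ⊆
      (J.filter fun j : ℕ => nd ((qs : ℝ) * ((Q j₀).derivative.eval ((m₀ : ℝ) + j) -
        (Q j).derivative.eval ((m₀ : ℝ) + j))) ≤ t * (t * 2 ^ t * (qs * K₀)) / H) := by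
    intro j hj
    rw [mem_filter] at hj ⊢
    refine ⟨hj.1, ?_⟩
    obtain ⟨D, hD⟩ : ∃ D, D = Q j₀ - Q j := ⟨_, rfl⟩
    have hDd : D.natDegree ≤ t := by
      rw [hD]
      exact (natDegree_sub_le _ _).trans (max_le (hQd j₀ hj₀) (hQd j hj.1))
    have h2 : c * ((H - L : ℕ) : ℝ) ≤
        ‖∑ h ∈ Icc 1 (H - L), ee ((taylor ((m₀ + L : ℕ) : ℝ) D).eval (h : ℝ))‖ := by
      have h3 := hj.2
      rw [← hD, Kp, le_div_iff₀ hw0] at h3
      refine h3.trans (le_of_eq ?_)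
      congr 1
      refine sum_congr rfl fun h _ => ?_
      rw [taylor_eval, add_comm]
    have hwK : (1 / c) ^ C₀ ≤ ((H - L : ℕ) : ℝ) := by
      rw [← hK₀, hwc]
      have : (2 : ℝ) * L ≤ H := by exact_mod_cast hLH2
      linarith
    obtain ⟨q, hq1, hq2, hq3⟩ := hC c (H - L) (taylor ((m₀ + L : ℕ) : ℝ) D) hc0 hc2 hwK
      (by rw [natDegree_taylor]; exact hDd) h2
    rw [← hK₀] at hq2 hq3
    have hdvd : q ∣ qs := by rw [hqs]; exact PRECx.dvd_fact q hq1 _ hq2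
    have h4 : ∀ i, 1 ≤ i → i ≤ t → nd ((qs : ℝ) * (taylor ((m₀ + L : ℕ) : ℝ) D).coeff i) ≤
        (qs * K₀) / ((H - L : ℕ) : ℝ) ^ i := by
      intro i hi1 hi2
      refine (PRECx.nd_dvd q qs hq1 hdvd _).trans ?_
      rw [mul_div_assoc]
      exact mul_le_mul_of_nonneg_left (hq3 i hi1 hi2) hqs0.le
    have hjL := hJ j hj.1
    have h5 := CLUx.base (q := qs) (H := H) ht hDd ((m₀ + L : ℕ) : ℝ) ((j : ℤ) - L) (K := qs * K₀)
      (by positivity) hH1 hw1 (by omega) (by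
        push_cast
        rw [abs_le]
        have h6 : (j : ℝ) ≤ L := by exact_mod_cast hjL.le
        have h7 : (2 : ℝ) * L ≤ H := by exact_mod_cast hLH2
        have h8 : (0 : ℝ) ≤ j := Nat.cast_nonneg _
        constructor <;> linarith) h4
    have h6 : D.derivative.eval (((m₀ + L : ℕ) : ℝ) + (((j : ℤ) - L : ℤ) : ℝ)) =
        (Q j₀).derivative.eval ((m₀ : ℝ) + j) - (Q j).derivative.eval ((m₀ : ℝ) + j) := by
      rw [hD, derivative_sub, eval_sub]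
      push_cast
      congr 2 <;> ring
    rw [h6] at h5
    exact h5
  have h2 : (#(J.filter fun j => c ≤ Kp (H - L) (m₀ + L) (Q j₀ - Q j)) : ℝ) ≤
      (#(J.filter fun j : ℕ => nd ((qs : ℝ) * ((Q j₀).derivative.eval ((m₀ : ℝ) + j) -
        (Q j).derivative.eval ((m₀ : ℝ) + j))) ≤ t * (t * 2 ^ t * (qs * K₀)) / H) : ℝ) := by
    exact_mod_cast card_le_card hsub
  have h3 := mul_le_mul_of_nonneg_left hJc hc0.le
  have h4 : ε / 8 * c * (L : ℝ) ≤ c * (#J : ℝ) := by linarith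
  refine (h4.trans hmany).trans (h2.trans (le_of_eq ?_))
  congr!

end

end Pool.Agent.NG
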