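import Pool.Agent.Lib.NG.CLUG
import Pool.Agent.Lib.NV.SUBQF
import Pool.Agent.Lib.NV.WNFIN
import Pool.Agent.Lib.NV.NSTEP
import Pool.Agent.Lib.VQ.STR
import Pool.Agent.Lib.VQ.REC
import Pool.Agent.Lib.VQ.LAG
import Pool.Agent.Lib.VQ.REG

/-!
# Row FREE (MP_663568_nt, NVG2): from slow families to free phases without linear term

`ev` is any bounded evaluation of data.  If for all `q`, `b` the windows of `m ↦ e(b m / q) ev x m`
along slow families are small, then so are those of `m ↦ e(P_n(m)) ev (X n) m`, `P_n` any real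
polynomials of degree at most `t` with `P_n'(n) = 0`.  (after NV.wnfin of helper9; helper95)
-/

set_option autoImplicit false
open Finset MeasureTheory Polynomial Filter

namespace Pool.Agent.NG

open Pool.Agent.Lib.MP_663568_nt Pool.Agent.Lib.MP_663568_nt.Katai
  Pool.Agent.Lib.MP_663568_nt.Nul Pool.Agent.SV Pool.Agent.VQ Pool.Agent.NV

noncomputable section

/-- The means of the windows along slow families are small. -/
def Smn {α : Type} (ev : α → ℕ → ℂ) : Prop :=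
  ∀ A ε : ℝ, 0 ≤ A → 0 < ε → ∃ (B : ℝ) (H₀ : ℕ), 0 ≤ B ∧ ∀ H : ℕ, H₀ ≤ H →
  ∀ xa xb : ℝ, (H : ℝ) ^ B ≤ xa → xa * H ≤ xb → ∀ X : ℕ → α, SlowA X ((H : ℝ) ^ A) →
  ∑ n ∈ Ioc ⌊xa⌋₊ ⌊xb⌋₊, (1 / (n : ℝ)) * Wg H n (ev (X n)) ≤ ε * (Real.log xb - Real.log xa)

/-- The same with free phases without linear term. -/
def Smf (t : ℕ) {α : Type} (ev : α → ℕ → ℂ) : Prop :=
  ∀ A ε : ℝ, 0 ≤ A → 0 < ε → ∃ (B : ℝ) (H₀ : ℕ), 0 ≤ B ∧ ∀ H : ℕ, H₀ ≤ H →
  ∀ xa xb : ℝ, (H : ℝ) ^ B ≤ xa → xa * H ≤ xb → ∀ X : ℕ → α, SlowA X ((H : ℝ) ^ A) →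
  ∀ P : ℕ → ℝ[X], (∀ n, (P n).natDegree ≤ t) → (∀ n : ℕ, (P n).derivative.eval (n : ℝ) = 0) →
  ∑ n ∈ Ioc ⌊xa⌋₊ ⌊xb⌋₊, (1 / (n : ℝ)) * Wg H n (tw (P n) (ev (X n))) ≤
    ε * (Real.log xb - Real.log xa)

open WNFINx in
/-- **Row FREE.** -/
theorem free {α : Type} (ev : α → ℕ → ℂ) (hev : ∀ x m, ‖ev x m‖ ≤ 1) (t : ℕ) (ht : 1 ≤ t)
    (hN : ∀ q b : ℕ, 1 ≤ q → Smn fun (x : α) (m : ℕ) => ee ((b : ℝ) / q * m) * ev x m) :
    Smf t ev := by
  classical
  intro A ε₀ hA hε₀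
  obtain ⟨ε, hεd⟩ : ∃ ε : ℝ, ε = min ε₀ 1 := ⟨_, rfl⟩
  have hε : 0 < ε := by rw [hεd]; exact lt_min hε₀ one_pos
  have hε1 : ε ≤ 1 := by rw [hεd]; exact min_le_right _ _
  have hεε : ε ≤ ε₀ := by rw [hεd]; exact min_le_left _ _
  obtain ⟨c₁, E, qs, H₁, hc₁, hc₁1, hE, hqs, hclu⟩ := clug t ε ht hε hε1
  obtain ⟨E', Q₃, L₀, hE', hQ₃, hstr⟩ := str vqrec lag t qs c₁ E ht hqs hc₁ hc₁1 hE
  obtain ⟨η, H₂, hη, hη1, hsub⟩ := subqf t Q₃ ε E' ht hQ₃ hε hε1 hE'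
  obtain ⟨B₁, H₃, hB₁, hreg⟩ := reg A ε (ε / 16) hA hε hε1 (by positivity)
  have hQ₃0 : (0 : ℝ) < Q₃ := by exact_mod_cast hQ₃
  obtain ⟨B₂, H₄, hB₂, hH₄, hvw⟩ := NSTEPx.unif (range Q₃) (fun (b : ℕ) (B : ℝ) (H₀ : ℕ) =>
    ∀ H : ℕ, H₀ ≤ H → ∀ xa xb : ℝ, (H : ℝ) ^ B ≤ xa → xa * H ≤ xb → ∀ X : ℕ → α,
      SlowA X ((H : ℝ) ^ (A + 1)) → ∑ n ∈ Ioc ⌊xa⌋₊ ⌊xb⌋₊, (1 / (n : ℝ)) *
        Wg H n (fun m : ℕ => ee ((b : ℝ) / Q₃ * m) * ev (X n) m) ≤
        ε / 16 * ε / (100 * Q₃) * (Real.log xb - Real.log xa))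
    (fun b B B' H H' hB hBB hH hHH h K hK xa xb hxa => h K (hHH.trans hK) xa xb
      ((Real.rpow_le_rpow_of_exponent_le (by
        have : 1 ≤ K := hH.trans (hHH.trans hK)
        exact_mod_cast this) hBB).trans hxa))
    (fun b _ => by
      obtain ⟨B, H₀, hB, h⟩ := hN Q₃ b hQ₃ (A + 1) (ε / 16 * ε / (100 * Q₃)) (by linarith)
        (by positivity)
      exact ⟨B, max 1 H₀, hB, le_max_left _ _, fun H hH xa xb hxa hxb X hX =>
        h H ((le_max_right _ _).trans hH) xa xb hxa hxb X hX⟩)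
  obtain ⟨H₅, hH₅2, hH₅⟩ := WFINx.large A η B₂ 1 H₄ hA hη
  obtain ⟨H₆, hH₆2, hH₆⟩ := WFINx.large A (ε / 16) B₂ 1 L₀ hA (by positivity)
  refine ⟨max B₁ (B₂ + 1), max (max H₁ H₂) (max H₃ (max H₅ H₆)), by positivity, ?_⟩
  intro H hH xa xb hxa hxb Q hQs P hP hPQ
  have hHa : H₁ ≤ H := by omega
  have hHb : H₂ ≤ H := by omega
  have hHc : H₃ ≤ H := by omega
  have hHd : H₅ ≤ H := by omega
  have hHe : H₆ ≤ H := by omega
  obtain ⟨f1, f2, f3, f4⟩ := hH₅ H hHd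
  obtain ⟨g1, -, -, -⟩ := hH₆ H hHe
  have hH2 : (2 : ℝ) ≤ H := by exact_mod_cast hH₅2.trans hHd
  have hH1 : (1 : ℝ) ≤ H := by linarith
  have hH0 : (0 : ℝ) < H := by linarith
  have hxa1 : (H : ℝ) ^ B₁ ≤ xa :=
    (Real.rpow_le_rpow_of_exponent_le hH1 (le_max_left _ _)).trans hxa
  have hxa2 : (H : ℝ) ^ (B₂ + 1) ≤ xa :=
    (Real.rpow_le_rpow_of_exponent_le hH1 (le_max_right _ _)).trans hxa
  have hxa0 : 0 < xa := lt_of_lt_of_le (Real.rpow_pos_of_pos hH0 _) hxa1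
  have hxab : xa ≤ xb := by nlinarith
  have hxb0 : 0 < xb := hxa0.trans_le hxab
  have hΛ0 : 0 ≤ Real.log xb - Real.log xa := by
    have := Real.log_le_log hxa0 hxab
    linarith
  refine le_trans ?_ (mul_le_mul_of_nonneg_right hεε hΛ0)
  by_contra hcon
  rw [not_le] at hcon
  set l : ℕ := ⌊η * (H : ℝ)⌋₊ with hl
  set L : ℕ := ⌊ε / 16 * (H : ℝ)⌋₊ with hL
  have hlH : (l : ℝ) ≤ H := by
    refine (Nat.floor_le (by positivity)).trans ?_
    nlinarith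
  have hLH : L ≤ H := by
    have h1 : (L : ℝ) ≤ H := by
      refine (Nat.floor_le (by positivity)).trans ?_
      nlinarith
    exact_mod_cast h1
  have hfl : ∀ n m, ‖ev (Q n) m‖ ≤ 1 := fun n m => hev _ m
  -- the region statement
  have hG := hreg H hHc xa xb hxa1 hxb {n | Q (n + 1) ≠ Q n} (fun j => by
      have := hQs j
      convert this using 3
      ext n
      simp only [mem_filter, Set.mem_ofPred_eq])
    (fun n => Wg H n (tw (P n) (ev (Q n))))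
    (fun x => ∑ b ∈ range Q₃, Wg l x (fun m : ℕ => ee ((b : ℝ) / Q₃ * m) * ev (Q x) m))
    (fun n => Wg_nonneg _ _ _) (fun n => Wg_le_one _ _ _ (tw_le (hfl n)))
    (fun n => sum_nonneg fun b _ => Wg_nonneg _ _ _) ?_ hcon
  · -- the sum of the right side
    have hsum : ∑ x ∈ Ioc ⌊xa / 2⌋₊ ⌊2 * xb⌋₊, (1 / (x : ℝ)) *
        ∑ b ∈ range Q₃, Wg l x (fun m : ℕ => ee ((b : ℝ) / Q₃ * m) * ev (Q x) m) =
        ∑ b ∈ range Q₃, ∑ x ∈ Ioc ⌊xa / 2⌋₊ ⌊2 * xb⌋₊, (1 / (x : ℝ)) *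
          Wg l x (fun m : ℕ => ee ((b : ℝ) / Q₃ * m) * ev (Q x) m) := by
      simp only [mul_sum]
      rw [sum_comm]
    rw [hsum] at hG
    have hb : ∑ b ∈ range Q₃, ∑ x ∈ Ioc ⌊xa / 2⌋₊ ⌊2 * xb⌋₊, (1 / (x : ℝ)) *
        Wg l x (fun m : ℕ => ee ((b : ℝ) / Q₃ * m) * ev (Q x) m) ≤
        ∑ _b ∈ range Q₃, ε / 16 * ε / (100 * Q₃) *
          (Real.log (2 * xb) - Real.log (xa / 2)) := by
      refine sum_le_sum fun b hb => ?_
      refine hvw b hb l f1 (xa / 2) (2 * xb) ?_ ?_ Q (fun j => ?_)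
      · calc (l : ℝ) ^ B₂ ≤ (H : ℝ) ^ B₂ := Real.rpow_le_rpow (Nat.cast_nonneg _) hlH hB₂
          _ ≤ xa / 2 := by linarith
      · have : xa * l ≤ xa * H := by gcongr
        nlinarith [mul_nonneg hxa0.le (Nat.cast_nonneg (α := ℝ) l)]
      · exact (hQs j).trans f2
    have hG' := hG.trans hb
    rw [sum_const, card_range, nsmul_eq_mul] at hG'
    have e2 : Real.log H ≤ Real.log xb - Real.log xa := by
      rw [← Real.log_div hxb0.ne' hxa0.ne']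
      refine Real.log_le_log hH0 ?_
      rw [le_div_iff₀ hxa0]
      linarith
    have e3 : Real.log 2 ≤ 1 := by
      have := Real.log_two_lt_d9
      linarith
    have e30 : 0 ≤ Real.log 2 := Real.log_nonneg (by norm_num)
    have e31 : Real.log 2 ≤ Real.log xb - Real.log xa := (Real.log_le_log (by norm_num) hH2).trans e2
    have e32 : 0 < Real.log 2 := Real.log_pos (by norm_num)
    have e4 : 0 < ε / 16 * ε := by positivity
    have e5 : Real.log (2 * xb) - Real.log (xa / 2) =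
        Real.log xb - Real.log xa + 2 * Real.log 2 := by
      rw [Real.log_mul (by norm_num) hxb0.ne', Real.log_div hxa0.ne' (by norm_num)]
      ring
    rw [e5] at hG'
    have e1 : (Q₃ : ℝ) * (ε / 16 * ε / (100 * Q₃) *
        (Real.log xb - Real.log xa + 2 * Real.log 2)) =
        ε / 16 * ε / 100 * (Real.log xb - Real.log xa + 2 * Real.log 2) := by
      field_simp
    rw [e1] at hG'
    have e6 : 0 < ε / 16 * ε * (Real.log xb - Real.log xa) := by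
      have : 0 < Real.log xb - Real.log xa := by linarith
      positivity
    have e7 : ε / 16 * ε * Real.log 2 ≤ ε / 16 * ε * (Real.log xb - Real.log xa) := by gcongr
    have e8 : ε / 16 * ε / 8 * (Real.log xb - Real.log xa) ≤
        ε / 16 * ε / 100 * (Real.log xb - Real.log xa + 2 * Real.log 2) := hG'
    nlinarith
  · -- one region
    intro m₀ hm₀ hbad hJ
    have hch : ∀ n, m₀ ≤ n → n ≤ m₀ + 2 * H → Q (n + 1) = Q n := by
      intro n h1 h2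
      have := hbad n h1 h2
      simpa using this
    have hcst := const_of_no_change hch
    set J : Finset ℕ := (range L).filter fun j =>
      ε / 2 ≤ Wg H (m₀ + j) (tw (P (m₀ + j)) (ev (Q (m₀ + j)))) with hJd
    have hJL : ∀ j ∈ J, j < L := fun j hj => mem_range.1 (mem_filter.1 hj).1
    obtain ⟨R, hR1, hR2, hR3⟩ := hclu (ev (Q m₀)) (hfl m₀) H L m₀ hHa hL J (fun j => P (m₀ + j))
      hJL hJ (fun j _ => hP _) (fun j hj => by
        have h1 := (mem_filter.1 hj).2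
        rwa [hcst j (by have := hJL j hj; omega)] at h1)
    have hD : (R - 0).natDegree ≤ t := by rw [sub_zero]; exact hR1
    have h4 := hstr H L m₀ g1 hLH (R - 0) hD ?_
    · have h5 := hsub H L m₀ l hHb hL hl (ev (Q m₀)) (hfl m₀) R 0 hD h4 hR2
      refine h5.trans (sum_le_sum fun x hx => ?_)
      rw [mem_Ioc] at hx
      have h6 := hcst (x - m₀) (by omega)
      rw [show m₀ + (x - m₀) = x by omega] at h6
      rw [h6]
      refine le_of_eq (sum_congr rfl fun b _ => ?_)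
      congr 1
      funext m
      unfold tw
      simp
    · refine hR3.trans (Nat.cast_le.2 (card_le_card ?_))
      intro j hj
      rw [mem_filter] at hj ⊢
      refine ⟨mem_range.2 (hJL j hj.1), ?_⟩
      have h7 := hj.2
      have h8 : (P (m₀ + j)).derivative.eval ((m₀ : ℝ) + j) = 0 := by
        have := hPQ (m₀ + j)
        push_cast at this
        exact this
      rw [h8, sub_zero] at h7
      rw [sub_zero]
      exact h7

end

end Pool.Agent.NG
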