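import Mathlib
import Pool.Agent.Lib.NG.J
import Pool.Agent.Lib.NG.FREE

/-!
# JET in natural density (MP_663568_nt): definitions and rows

`Smn ev` (logarithmic means along slow families are small, for one length of the dyadic blocks)
implies `Smd ev` (natural means on one block `(x, 2 x]`).  (helper19, after helper95's row CES)
-/

set_option autoImplicit false
open Finset Topology

namespace Pool.Agent.NG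

noncomputable section

open Amb Pool.Agent.Lib.MP_663568_nt Pool.Agent.Lib.MP_663568_nt.Katai
  Pool.Agent.Lib.MP_663568_nt.Nul Pool.Agent.SV Pool.Agent.VQ Pool.Agent.NV

/-- The family changes at most `K` times on `(x, 2 x]`. -/
def ChN {α : Type} (X : ℕ → α) (x : ℕ) (K : ℝ) : Prop := (by
  classical
  exact (#((Ioc x (2 * x)).filter fun n => X (n + 1) ≠ X n) : ℝ)) ≤ K

/-- The natural means along families with few changes are small. -/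
def Smd {α : Type} (ev : α → ℕ → ℂ) : Prop :=
  ∀ A ε : ℝ, 0 ≤ A → 0 < ε → ∃ (B : ℝ) (H₀ : ℕ), 0 ≤ B ∧ ∀ H : ℕ, H₀ ≤ H → ∀ x : ℕ,
  (H : ℝ) ^ B ≤ x → ∀ X : ℕ → α, ChN X x ((H : ℝ) ^ A) →
  ∑ n ∈ Ioc x (2 * x), Wg H n (ev (X n)) ≤ ε * x

/-- The mean of the windows at the lower level, for the prime `p`. -/
def Tp {α : Type} (ev : α → ℕ → ℂ) (X : ℕ → α) (x l p : ℕ) : ℝ :=
  (p : ℝ) / x * ∑ k ∈ Ioc (x / p) (2 * x / p), Wg l k fun m => ev (X (p * k)) (p * m)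

/-- Row TKN: Turán–Kubilius on windows (use `VQ.tkg`). -/
def TKN_stmt : Prop := ∀ A ε : ℝ, 0 ≤ A → 0 < ε → ε ≤ 1 →
  ∃ (κ B : ℝ) (H₀ : ℕ), 0 < κ ∧ κ ≤ 1 / 8 ∧ 0 ≤ B ∧ ∀ H : ℕ, H₀ ≤ H →
  1 ≤ Ls (PPs H κ (1 / 4)) ∧ ∀ (α : Type) (ev : α → ℕ → ℂ), (∀ x m, ‖ev x m‖ ≤ 1) →
  ∀ x : ℕ, (H : ℝ) ^ B ≤ x → ∀ X : ℕ → α, ChN X x ((H : ℝ) ^ A) →
  ε * x ≤ ∑ n ∈ Ioc x (2 * x), Wg H n (ev (X n)) → ∀ l : ℕ, 1 ≤ l → (l : ℝ) ≤ (H : ℝ) ^ (1 / 4 : ℝ) →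
  ε / 4 ≤ ∑ p ∈ PPs H κ (1 / 4), wt (PPs H κ (1 / 4)) p * Tp ev X x l p

/-- Row SEL: one prime of each dyadic interval, the slow family made of the dilates. -/
def SEL_stmt : Prop := ∀ (α : Type) (ev : α → ℕ → ℂ) (dil : ℕ → α → α),
  (∀ x m, ‖ev x m‖ ≤ 1) → (∀ p x k, ev (dil p x) k = ev x (p * k)) → Smn ev →
  ∀ A κ ε : ℝ, 0 ≤ A → 0 < κ → κ ≤ 1 / 8 → 0 < ε → ∃ (B : ℝ) (H₀ : ℕ), 0 ≤ B ∧
  ∀ H : ℕ, H₀ ≤ H → 1 ≤ ⌊(H : ℝ) ^ κ⌋₊ ∧ ∀ x : ℕ, (H : ℝ) ^ B ≤ x → ∀ X : ℕ → α,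
  ChN X x ((H : ℝ) ^ A) →
  ∑ p ∈ PPs H κ (1 / 4), 1 / (p : ℝ) * Tp ev X x ⌊(H : ℝ) ^ κ⌋₊ p ≤ ε

/-- Row CESN: natural means. -/
def CESN' : Prop := ∀ (α : Type) (ev : α → ℕ → ℂ) (dil : ℕ → α → α),
  (∀ x m, ‖ev x m‖ ≤ 1) → (∀ p x k, ev (dil p x) k = ev x (p * k)) → Smn ev → Smd ev
def CESN_stmt : Prop := TKN_stmt → SEL_stmt → CESN'

/-- The natural means along progressions. -/
def NVPQN' : Prop := ∀ (U : Type) [Amb U] (Gf : ℕ → Subgroup U) (d : ℕ), Filt Gf d →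
  ∀ F : U → ℂ, Fn (Gf 0) (Gf (d + 1)) F → ∀ (q b : ℕ), 1 ≤ q → ∀ A ε : ℝ, 0 ≤ A → 0 < ε →
  ∃ (B : ℝ) (H₀ : ℕ), 0 ≤ B ∧ ∀ H : ℕ, H₀ ≤ H → ∀ x : ℕ, (H : ℝ) ^ B ≤ x →
  ∀ X : ℕ → ℤ → U, (∀ n, PS Gf 0 (X n)) → ChN X x ((H : ℝ) ^ A) →
  ∑ n ∈ Ioc x (2 * x), Wg H n (fun m => ee (b * m / q) * F (X n m)) ≤ ε * x

/-- Row NVPQN (`α = {(b, X)}`, `dil p (b, X) = (b p, X (p ·))`, `ev (b, X) m = ee (b m / q) F (X m) / C`;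
`Smn ev` from `NVPQ'` by a sum over `b < q`). -/
def NVPQN_stmt : Prop := CESN' → NVPQ' → NVPQN'

/-- **The theorem for ambient groups** in natural density. -/
def NVJN' : Prop := ∀ (U : Type) [AmbQ U] (Gf : ℕ → Subgroup U) (d : ℕ), Filt Gf d →
  ∀ F : U → ℂ, Fn (Gf 0) (Gf (d + 1)) F → ∀ A ε : ℝ, 0 ≤ A → 0 < ε →
  ∃ (B : ℝ) (H₀ : ℕ), 0 ≤ B ∧ ∀ H : ℕ, H₀ ≤ H → ∀ x : ℕ, (H : ℝ) ^ B ≤ x →
  ∀ X : ℕ → ℤ → U, (∀ n, PS Gf 0 (X n)) → ChN X x ((H : ℝ) ^ A) →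
  ∀ R : ℕ → ℤ → U, (∀ n, Jt Gf (Gf 0) (R n)) →
  ∑ n ∈ Ioc x (2 * x), Wg H n (fun m => F (X n m * R n ((m : ℤ) - n))) ≤ ε * x

/-- Row NVJN: all blocks (template `NVJ2`). -/
def NVJN_stmt : Prop := NVJ1' → NVPQN' → FNC_stmt → LBM_stmt → NVJN'

/-- **The theorem for ambient groups** in natural density, in terms of the maps `P`, with left factors
in a compact set and right factors in the lattice. -/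
def JETN' : Prop := ∀ (U : Type) [AmbQ U] (Gf : ℕ → Subgroup U) (d : ℕ), Filt Gf d →
  ∀ F : U → ℂ, Fn (Gf 0) (Gf (d + 1)) F → ∀ K : Set U, IsCompact K → K ⊆ Gf 0 →
  ∀ A ε : ℝ, 0 ≤ A → 0 < ε →
  ∃ (B : ℝ) (H₀ : ℕ), 0 ≤ B ∧ ∀ H : ℕ, H₀ ≤ H → ∀ x : ℕ, (H : ℝ) ^ B ≤ x →
  ∀ X : ℕ → ℤ → U, (∀ n, PS Gf 0 (X n)) → ChN X x ((H : ℝ) ^ A) →
  ∀ κ γ : ℕ → U, (∀ n, κ n ∈ K) → (∀ n, γ n ∈ (La : Subgroup U) ∧ γ n ∈ Gf 0) →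
  ∀ P : ℕ → ℤ → U, (∀ n, PS Gf 0 (P n)) →
  (∀ n : ℕ, P n n = κ n * X n n * γ n ∧ P n (n + 1) = κ n * X n (n + 1) * γ n) →
  ∑ n ∈ Ioc x (2 * x), Wg H n (fun m : ℕ => F (P n m)) ≤ ε * x

/-- Row JETN (templates `NVJU` and `JCEN`). -/
def JETN_stmt : Prop := NVJN' → LBM_stmt → LBN_stmt → FNC_stmt → JETN'

end

end Pool.Agent.NG
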