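import Mathlib
import Pool.Agent.Lib.NG.J

/-!
# JET (MP_663568_nt), row CSTF: finitely many constants  (helper68)
-/

set_option autoImplicit false
open Finset Topology

namespace Pool.Agent.NG

open Amb Pool.Agent.Lib.MP_663568_nt Pool.Agent.Lib.MP_663568_nt.Katai
  Pool.Agent.Lib.MP_663568_nt.Nul Pool.Agent.SV Pool.Agent.VQ Pool.Agent.NV

noncomputable section

theorem cstf : CSTF_stmt := by
  intro U _ G n C hC
  have hinv : ∀ i, (0 : ℝ) ≤ (C i).c⁻¹ := fun i => (inv_pos.mpr (hC i).c0).le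
  have hs0 : (0 : ℝ) ≤ ∑ i, (C i).c⁻¹ := Finset.sum_nonneg fun i _ => hinv i
  have hcp : (0 : ℝ) < (1 + ∑ i, (C i).c⁻¹)⁻¹ := by positivity
  have hcle : ∀ i, (1 + ∑ j, (C j).c⁻¹)⁻¹ ≤ (C i).c := by
    intro i
    rw [inv_le_comm₀ (by positivity) (hC i).c0]
    have h1 : (C i).c⁻¹ ≤ ∑ j, (C j).c⁻¹ :=
      Finset.single_le_sum (f := fun j => (C j).c⁻¹) (fun j _ => hinv j) (mem_univ i)
    linarith
  refine ⟨⟨(1 + ∑ i, (C i).c⁻¹)⁻¹, ∑ i, (C i).q, ∑ i, (C i).H₀, ⋃ i, (C i).K, ⋃ i, (C i).Z⟩,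
    ⟨hcp, isCompact_iUnion fun i => (hC i).K, ?_, Set.finite_iUnion fun i => (hC i).Zf, ?_⟩,
    ?_, ?_⟩
  · exact Set.iUnion_subset fun i => (hC i).KG
  · intro ζ hζ
    obtain ⟨i, hi⟩ := Set.mem_iUnion.mp hζ
    exact (hC i).ZG ζ hi
  · intro i
    exact Finset.single_le_sum (f := fun j => (C j).H₀) (fun j _ => Nat.zero_le _) (mem_univ i)
  · rintro i F H a g ⟨κ, hκ, ζ, hζ, s, t, m, b, hm, hmq, ht, hcor⟩
    refine ⟨κ, Set.mem_iUnion.mpr ⟨i, hκ⟩, ζ, Set.mem_iUnion.mpr ⟨i, hζ⟩, s, t, m, b, hm, ?_, ht,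
      ?_⟩
    · exact hmq.trans
        (Finset.single_le_sum (f := fun j => (C j).q) (fun j _ => Nat.zero_le _) (mem_univ i))
    · exact (mul_le_mul_of_nonneg_right (hcle i) (Nat.cast_nonneg H)).trans hcor

end

end Pool.Agent.NG
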