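import Mathlib
import Pool.Agent.Lib.NG.J

/-!
# JET (MP_663568_nt), row DUAL: Cauchy's inequality  (helper68)
-/

set_option autoImplicit false
open Finset Topology

namespace Pool.Agent.NG

open Amb Pool.Agent.Lib.MP_663568_nt Pool.Agent.Lib.MP_663568_nt.Katai
  Pool.Agent.Lib.MP_663568_nt.Nul Pool.Agent.SV Pool.Agent.VQ Pool.Agent.NV

noncomputable section

namespace DUALaux

theorem phase (z : ℂ) : ∃ θ : ℂ, ‖θ‖ ≤ 1 ∧ θ * z = (‖z‖ : ℂ) := by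
  by_cases hz : z = 0
  · exact ⟨0, by simp, by simp [hz]⟩
  · have hn : ‖z‖ ≠ 0 := norm_ne_zero_iff.mpr hz
    have hn' : (‖z‖ : ℂ) ≠ 0 := by exact_mod_cast hn
    refine ⟨(starRingEnd ℂ) z / ‖z‖, ?_, ?_⟩
    · rw [norm_div, RCLike.norm_conj, Complex.norm_real, norm_norm, div_self hn]
    · rw [div_mul_eq_mul_div, mul_comm, Complex.mul_conj, Complex.normSq_eq_norm_sq]
      field_simp
      push_cast
      ring

/-- The sum over the pairs. -/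
theorem pairs {S : Finset ℕ} (L : ℕ) (θ : ℕ → ℂ) (ψ : ℕ → ℕ → ℂ) (hθ : ∀ n, ‖θ n‖ ≤ 1) :
    ∑ y ∈ range L, ‖∑ n ∈ S, θ n * ψ n y‖ ^ 2 ≤
      ∑ t ∈ S ×ˢ S, ‖∑ y ∈ range L, ψ t.1 y * (starRingEnd ℂ) (ψ t.2 y)‖ := by
  have h1 : ((∑ y ∈ range L, ‖∑ n ∈ S, θ n * ψ n y‖ ^ 2 : ℝ) : ℂ) =
      ∑ t ∈ S ×ˢ S, (θ t.1 * (starRingEnd ℂ) (θ t.2)) *
        ∑ y ∈ range L, ψ t.1 y * (starRingEnd ℂ) (ψ t.2 y) := by
    push_cast
    have h2 : ∀ y, ((‖∑ n ∈ S, θ n * ψ n y‖ : ℂ)) ^ 2 =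
        ∑ t ∈ S ×ˢ S, (θ t.1 * (starRingEnd ℂ) (θ t.2)) *
          (ψ t.1 y * (starRingEnd ℂ) (ψ t.2 y)) := by
      intro y
      rw [← Complex.ofReal_pow, ← Complex.normSq_eq_norm_sq, ← Complex.mul_conj, map_sum,
        Finset.sum_mul_sum, Finset.sum_product]
      refine Finset.sum_congr rfl fun n _ => Finset.sum_congr rfl fun n' _ => ?_
      rw [map_mul]
      ring
    rw [Finset.sum_congr rfl fun y _ => h2 y, Finset.sum_comm]
    refine Finset.sum_congr rfl fun t _ => ?_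
    rw [Finset.mul_sum]
  have h0 : 0 ≤ ∑ y ∈ range L, ‖∑ n ∈ S, θ n * ψ n y‖ ^ 2 :=
    Finset.sum_nonneg fun _ _ => by positivity
  have h3 : ∑ y ∈ range L, ‖∑ n ∈ S, θ n * ψ n y‖ ^ 2 =
      ‖((∑ y ∈ range L, ‖∑ n ∈ S, θ n * ψ n y‖ ^ 2 : ℝ) : ℂ)‖ := by
    rw [Complex.norm_real, Real.norm_of_nonneg h0]
  rw [h3, h1]
  refine (norm_sum_le _ _).trans (Finset.sum_le_sum fun t _ => ?_)
  rw [norm_mul]
  have h4 : ‖θ t.1 * (starRingEnd ℂ) (θ t.2)‖ ≤ 1 := by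
    rw [norm_mul, RCLike.norm_conj]
    exact mul_le_one₀ (hθ _) (norm_nonneg _) (hθ _)
  calc ‖θ t.1 * (starRingEnd ℂ) (θ t.2)‖ * _ ≤ 1 * _ :=
        mul_le_mul_of_nonneg_right h4 (norm_nonneg _)
    _ = _ := one_mul _

end DUALaux

open DUALaux

theorem dual : DUAL_stmt := by
  intro δ B hδ hB
  refine ⟨min (δ ^ 4 / 4) (δ ^ 4 / (8 * B ^ 2)), by positivity, ?_⟩
  intro H a ψ S ha hψ hSH hcard hcor
  set c : ℝ := min (δ ^ 4 / 4) (δ ^ 4 / (8 * B ^ 2)) with hc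
  have hc0 : 0 < c := by positivity
  set v : ℕ × ℕ → ℝ := fun t => ‖∑ y ∈ range (2 * H), ψ t.1 y * (starRingEnd ℂ) (ψ t.2 y)‖
    with hv
  refine ⟨(S ×ˢ S).filter fun t => c * H ≤ v t, filter_subset _ _, ?_, ?_⟩
  swap
  · intro t ht
    exact (mem_filter.mp ht).2
  rcases Nat.eq_zero_or_pos H with h0 | hH
  · subst h0
    simp
  have hHr : (0 : ℝ) < H := by exact_mod_cast hH
  choose θ hθ1 hθ2 using fun n : ℕ => phase (∑ y ∈ range (2 * H), a y * ψ n y)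
  -- the lower bound
  have h1 : δ * H * (δ * H) ≤ ∑ y ∈ range (2 * H), ‖∑ n ∈ S, θ n * ψ n y‖ := by
    have h2 : ((∑ n ∈ S, ‖∑ y ∈ range (2 * H), a y * ψ n y‖ : ℝ) : ℂ) =
        ∑ y ∈ range (2 * H), a y * ∑ n ∈ S, θ n * ψ n y := by
      push_cast
      rw [Finset.sum_congr rfl fun n _ => (hθ2 n).symm]
      simp_rw [Finset.mul_sum]
      rw [Finset.sum_comm]
      refine Finset.sum_congr rfl fun y _ => Finset.sum_congr rfl fun n _ => ?_
      ring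
    have h3 : δ * H * (δ * H) ≤ ∑ n ∈ S, ‖∑ y ∈ range (2 * H), a y * ψ n y‖ := by
      calc δ * H * (δ * H) ≤ #S * (δ * H) := by
            apply mul_le_mul_of_nonneg_right hcard (by positivity)
        _ = ∑ n ∈ S, δ * H := by rw [Finset.sum_const, nsmul_eq_mul]
        _ ≤ _ := Finset.sum_le_sum hcor
    have h4 : ∑ n ∈ S, ‖∑ y ∈ range (2 * H), a y * ψ n y‖ =
        ‖((∑ n ∈ S, ‖∑ y ∈ range (2 * H), a y * ψ n y‖ : ℝ) : ℂ)‖ := by
      rw [Complex.norm_real, Real.norm_of_nonneg (Finset.sum_nonneg fun _ _ => norm_nonneg _)]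
    rw [h4, h2] at h3
    refine h3.trans ((norm_sum_le _ _).trans (Finset.sum_le_sum fun y _ => ?_))
    rw [norm_mul]
    calc ‖a y‖ * ‖∑ n ∈ S, θ n * ψ n y‖ ≤ 1 * ‖∑ n ∈ S, θ n * ψ n y‖ :=
          mul_le_mul_of_nonneg_right (ha y) (norm_nonneg _)
      _ = _ := one_mul _
  -- Cauchy
  have h5 : (δ * H * (δ * H)) ^ 2 ≤ 2 * H * ∑ t ∈ S ×ˢ S, v t := by
    calc (δ * H * (δ * H)) ^ 2 ≤ (∑ y ∈ range (2 * H), ‖∑ n ∈ S, θ n * ψ n y‖) ^ 2 := by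
          apply pow_le_pow_left₀ (by positivity) h1
      _ ≤ #(range (2 * H)) * ∑ y ∈ range (2 * H), ‖∑ n ∈ S, θ n * ψ n y‖ ^ 2 :=
          sq_sum_le_card_mul_sum_sq
      _ ≤ 2 * H * ∑ t ∈ S ×ˢ S, v t := by
          rw [card_range]
          push_cast
          apply mul_le_mul_of_nonneg_left (pairs (2 * H) θ ψ hθ1) (by positivity)
  -- the upper bound
  have hvB : ∀ t ∈ S ×ˢ S, v t ≤ 2 * H * B ^ 2 := by
    intro t ht
    obtain ⟨ht1, ht2⟩ := mem_product.mp ht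
    calc v t ≤ ∑ y ∈ range (2 * H), ‖ψ t.1 y * (starRingEnd ℂ) (ψ t.2 y)‖ := norm_sum_le _ _
      _ ≤ ∑ y ∈ range (2 * H), B ^ 2 := by
          apply Finset.sum_le_sum
          intro y _
          rw [norm_mul, RCLike.norm_conj, sq]
          exact mul_le_mul (hψ _ ht1 y) (hψ _ ht2 y) (norm_nonneg _) hB.le
      _ = 2 * H * B ^ 2 := by
          rw [Finset.sum_const, card_range, nsmul_eq_mul]
          push_cast
          ring
  have hSc : (#S : ℝ) ≤ H := by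
    have := Finset.card_le_card hSH
    rw [card_range] at this
    exact_mod_cast this
  have h6 : ∑ t ∈ S ×ˢ S, v t ≤
      #((S ×ˢ S).filter fun t => c * H ≤ v t) * (2 * H * B ^ 2) + H * H * (c * H) := by
    rw [← Finset.sum_filter_add_sum_filter_not (S ×ˢ S) (fun t => c * H ≤ v t) v]
    apply add_le_add
    · rw [← nsmul_eq_mul]
      apply Finset.sum_le_card_nsmul
      intro t ht
      exact hvB t (mem_filter.mp ht).1
    · calc ∑ t ∈ (S ×ˢ S).filter (fun t => ¬ c * H ≤ v t), v t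
          ≤ #((S ×ˢ S).filter (fun t => ¬ c * H ≤ v t)) * (c * H) := by
            rw [← nsmul_eq_mul]
            apply Finset.sum_le_card_nsmul
            intro t ht
            exact (not_le.mp (mem_filter.mp ht).2).le
        _ ≤ H * H * (c * H) := by
            apply mul_le_mul_of_nonneg_right _ (by positivity)
            calc (#((S ×ˢ S).filter (fun t => ¬ c * H ≤ v t)) : ℝ) ≤ #(S ×ˢ S) := by
                  exact_mod_cast Finset.card_le_card (filter_subset _ _)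
              _ = #S * #S := by rw [card_product]; push_cast; rfl
              _ ≤ H * H := mul_le_mul hSc hSc (by positivity) (by positivity)
  set N : ℝ := (#((S ×ˢ S).filter fun t => c * H ≤ v t) : ℝ) with hN
  have hc1 : c ≤ δ ^ 4 / 4 := min_le_left _ _
  have hc2 : c ≤ δ ^ 4 / (8 * B ^ 2) := min_le_right _ _
  -- `δ⁴ H⁴ ≤ 2 H (2 H B² N + c H³)`
  have h7 : δ ^ 4 * H ^ 4 ≤ 4 * H ^ 2 * B ^ 2 * N + 2 * c * H ^ 4 := by
    calc δ ^ 4 * H ^ 4 = (δ * H * (δ * H)) ^ 2 := by ring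
      _ ≤ 2 * H * ∑ t ∈ S ×ˢ S, v t := h5
      _ ≤ 2 * H * (N * (2 * H * B ^ 2) + H * H * (c * H)) :=
          mul_le_mul_of_nonneg_left h6 (by positivity)
      _ = _ := by ring
  have h8 : 2 * c * (H : ℝ) ^ 4 ≤ δ ^ 4 / 2 * H ^ 4 := by
    apply mul_le_mul_of_nonneg_right _ (by positivity)
    linarith
  have h9 : δ ^ 4 / 2 * (H : ℝ) ^ 4 ≤ 4 * H ^ 2 * B ^ 2 * N := by linarith
  have h10 : δ ^ 4 / 2 * (H : ℝ) ^ 2 ≤ 4 * B ^ 2 * N := by
    have h11 : (H : ℝ) ^ 2 * (δ ^ 4 / 2 * (H : ℝ) ^ 2) ≤ (H : ℝ) ^ 2 * (4 * B ^ 2 * N) := by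
      calc (H : ℝ) ^ 2 * (δ ^ 4 / 2 * (H : ℝ) ^ 2) = δ ^ 4 / 2 * (H : ℝ) ^ 4 := by ring
        _ ≤ 4 * H ^ 2 * B ^ 2 * N := h9
        _ = _ := by ring
    exact le_of_mul_le_mul_left h11 (by positivity)
  calc c * ((H : ℝ) * H) ≤ δ ^ 4 / (8 * B ^ 2) * ((H : ℝ) * H) :=
        mul_le_mul_of_nonneg_right hc2 (by positivity)
    _ = (δ ^ 4 / 2 * (H : ℝ) ^ 2) / (4 * B ^ 2) := by
        field_simp
        ring
    _ ≤ (4 * B ^ 2 * N) / (4 * B ^ 2) := by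
        apply div_le_div_of_nonneg_right h10 (by positivity)
    _ = N := by
        field_simp

end

end Pool.Agent.NG
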