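import Pool.Agent.Lib.NG.FCWin

/-!
# Row FULLC (MP_663568_nt, NVG2), third part: the final estimate

The coefficients of `m ^ i h`, `i ≥ 1`, of the local phases are near rationals.  (helper95)
-/

set_option autoImplicit false
open Finset MeasureTheory Polynomial

namespace Pool.Agent.NG

open Pool.Agent.Lib.MP_663568_nt Pool.Agent.Lib.MP_663568_nt.Katai
  Pool.Agent.Lib.MP_663568_nt.Nul Pool.Agent.SV Pool.Agent.VQ Pool.Agent.NV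

noncomputable section

namespace FCx

/-- The linear coefficient does not depend on the point of the cell. -/
theorem lam_cell (d Q₁ K m b : ℕ) (v : ℕ → ℕ → ℝ) (l B₂ B₃ xa : ℝ) (hl : 1 ≤ l) (hxa : 0 < xa)
    (hQ₁ : 1 ≤ Q₁) (hm : 1 ≤ m) (hB₃ : 0 ≤ B₃) (hK : l ^ (B₂ + B₃ * d + 4) ≤ K)
    (hb : (Q₁ : ℤ) ∣ (m : ℤ) - b) (hmx : (m : ℝ) ≤ 2 * (xa * l ^ B₃))
    (hnr : ∀ i, 1 ≤ i → i ≤ d → ∃ j : ℤ, |v i 1 - j / Q₁| ≤ l ^ B₂ / xa ^ i) :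
    ∃ z : ℤ, |cc d v 1 m - lamD d Q₁ b v (Real.exp ((cI K m : ℝ) / K)) - z| ≤
      2 ^ d * (d : ℝ) ^ 2 / l ^ (4 : ℕ) := by
  have hl0 : 0 < l := by linarith
  have hlpos : ∀ y : ℝ, 0 < l ^ y := fun y => Real.rpow_pos_of_pos hl0 y
  have hQ0 : (0 : ℝ) < Q₁ := by exact_mod_cast hQ₁
  have hK0 : (0 : ℝ) < K := lt_of_lt_of_le (hlpos _) hK
  have hK1 : 1 ≤ K := by
    have : 0 < K := by exact_mod_cast hK0
    omega
  obtain ⟨z, hz⟩ := lam_near d Q₁ m b v (Real.exp ((cI K m : ℝ) / K)) hQ₁ hb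
  refine ⟨z, hz.trans ?_⟩
  have g1 : ∀ i ∈ Icc 1 d, |v i 1 - (round ((Q₁ : ℝ) * v i 1) : ℝ) / Q₁| *
      |(m : ℝ) ^ i - (Real.exp ((cI K m : ℝ) / K)) ^ i| ≤ 2 ^ d * (d / l ^ (4 : ℕ)) := by
    intro i hi
    rw [mem_Icc] at hi
    obtain ⟨j, hj⟩ := hnr i hi.1 hi.2
    have g2 : |v i 1 - (round ((Q₁ : ℝ) * v i 1) : ℝ) / Q₁| ≤ l ^ B₂ / xa ^ i := by
      refine le_trans ?_ hj
      have g3 := round_le ((Q₁ : ℝ) * v i 1) j
      have g4 : ∀ k : ℤ, |v i 1 - (k : ℝ) / Q₁| = |(Q₁ : ℝ) * v i 1 - k| / Q₁ := by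
        intro k
        rw [show v i 1 - (k : ℝ) / Q₁ = ((Q₁ : ℝ) * v i 1 - k) / Q₁ by field_simp, abs_div,
          abs_of_pos hQ0]
      rw [g4, g4]
      exact div_le_div_of_nonneg_right g3 hQ0.le
    have g5 := cI_pow K m i d hK1 hm hi.2
    have g6 : (m : ℝ) ^ i ≤ 2 ^ d * (xa ^ i * (l ^ B₃) ^ i) := by
      calc (m : ℝ) ^ i ≤ (2 * (xa * l ^ B₃)) ^ i :=
            pow_le_pow_left₀ (Nat.cast_nonneg _) hmx i
        _ = 2 ^ i * (xa ^ i * (l ^ B₃) ^ i) := by rw [mul_pow, mul_pow]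
        _ ≤ 2 ^ d * (xa ^ i * (l ^ B₃) ^ i) := by
            have h1 : (2 : ℝ) ^ i ≤ 2 ^ d := pow_le_pow_right₀ (by norm_num) hi.2
            have h2 : 0 ≤ xa ^ i * (l ^ B₃) ^ i := by
              have := (hlpos B₃).le
              positivity
            exact mul_le_mul_of_nonneg_right h1 h2
    have g8 : (l ^ B₃) ^ i ≤ l ^ (B₃ * d) := by
      rw [← Real.rpow_natCast, ← Real.rpow_mul hl0.le]
      refine Real.rpow_le_rpow_of_exponent_le hl ?_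
      have : (i : ℝ) ≤ d := by exact_mod_cast hi.2
      exact mul_le_mul_of_nonneg_left this hB₃
    have g9 : l ^ (B₂ + B₃ * d + 4) = l ^ B₂ * l ^ (B₃ * d) * l ^ (4 : ℕ) := by
      rw [Real.rpow_add hl0, Real.rpow_add hl0, show (4 : ℝ) = ((4 : ℕ) : ℝ) by norm_num,
        Real.rpow_natCast]
    have p2 := hlpos B₂
    have p3 := hlpos (B₃ * d)
    have pd : (0 : ℝ) ≤ d := Nat.cast_nonneg _
    have g10 : (d : ℝ) / K ≤ d / (l ^ B₂ * l ^ (B₃ * d) * l ^ (4 : ℕ)) := by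
      rw [← g9]
      exact div_le_div_of_nonneg_left pd (hlpos _) hK
    have g11 : 0 ≤ (d : ℝ) / K := by positivity
    calc |v i 1 - (round ((Q₁ : ℝ) * v i 1) : ℝ) / Q₁| *
        |(m : ℝ) ^ i - (Real.exp ((cI K m : ℝ) / K)) ^ i|
        ≤ l ^ B₂ / xa ^ i * ((m : ℝ) ^ i * (d / K)) :=
          mul_le_mul g2 g5 (abs_nonneg _) (by positivity)
      _ ≤ l ^ B₂ / xa ^ i * ((2 ^ d * (xa ^ i * l ^ (B₃ * d))) * (d / K)) := by
          refine mul_le_mul_of_nonneg_left ?_ (by positivity)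
          refine mul_le_mul_of_nonneg_right ?_ g11
          refine g6.trans ?_
          refine mul_le_mul_of_nonneg_left ?_ (by positivity)
          exact mul_le_mul_of_nonneg_left g8 (by positivity)
      _ = 2 ^ d * (l ^ B₂ * l ^ (B₃ * d)) * (d / K) := by
          have : xa ^ i ≠ 0 := by positivity
          field_simp
      _ ≤ 2 ^ d * (l ^ B₂ * l ^ (B₃ * d)) * (d / (l ^ B₂ * l ^ (B₃ * d) * l ^ (4 : ℕ))) :=
          mul_le_mul_of_nonneg_left g10 (by positivity)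
      _ = 2 ^ d * (d / l ^ (4 : ℕ)) := by
          field_simp
  refine (sum_le_sum g1).trans (le_of_eq ?_)
  rw [sum_const, Nat.card_Icc, nsmul_eq_mul, Nat.add_sub_cancel]
  ring

/-- The windows of one point. -/
theorem point (d q Q₁ l l' K n : ℕ) (ηf : ℝ → ℝ) (x : FD) (η ρ ε₁ B₂ B₃ A₁ s xa xb : ℝ)
    (hd : 1 ≤ d) (hq : 1 ≤ q) (hQ₁ : 1 ≤ Q₁) (hε₁ : 0 < ε₁) (hρ : ρ = ε₁ / 24) (hB₃ : 0 ≤ B₃)
    (hs1 : 48 * q / ε₁ ≤ s) (hs2 : 168 * (2 ^ d * (d : ℝ) ^ 2) / ε₁ ≤ s) (hs3 : q + 10 ≤ s)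
    (hsl : s ≤ l) (hsl' : s ≤ l') (hl' : (l' : ℝ) ≤ l) (hl'η : (l' : ℝ) ≤ η * l)
    (hη : η ≤ ηf ρ) (hxa : (l : ℝ) ^ A₁ * (l * l * l) ≤ xa) (hxa3 : (l : ℝ) * l * l ≤ xa)
    (hxb : xb ≤ xa * (l : ℝ) ^ B₃) (hK : (l : ℝ) ^ (B₂ + B₃ * d + 4) ≤ K)
    (hn1 : xa < n) (hn2 : (n : ℝ) ≤ xb) (hx : ∀ m, ‖x.1 m‖ ≤ 1)
    (hLS : LS q d ηf l ((n : ℝ) / (l : ℝ) ^ A₁) n x)
    (hnr : ∀ i, 1 ≤ i → i ≤ d → ∃ j : ℤ, |x.2 i 1 - j / Q₁| ≤ (l : ℝ) ^ B₂ / xa ^ i) :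
    ∃ r < q, ∃ b < Q₁, Wg l' n x.1 ≤ ∑ k ∈ range q, Wp l' (n + r)
      (PolD d q x.2 (n + r) (lamD d Q₁ b x.2 (Real.exp ((cI K (n + r) : ℝ) / K))) k) + ε₁ / 8 := by
  have hq0 : (0 : ℝ) < q := by exact_mod_cast hq
  have hs10 : 10 ≤ s := by linarith
  have hs0 : 0 < s := by linarith
  have hl0 : (0 : ℝ) < l := by linarith
  have hl1 : (1 : ℝ) ≤ l := by linarith
  have hl'0 : (0 : ℝ) < l' := by linarith
  have hl'1 : 1 ≤ l' := by exact_mod_cast (by linarith : (1 : ℝ) ≤ l')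
  have hlpos : ∀ y : ℝ, 0 < (l : ℝ) ^ y := fun y => Real.rpow_pos_of_pos hl0 y
  have hρ0 : 0 < ρ := by rw [hρ]; positivity
  have hxa0 : 0 < xa := lt_of_lt_of_le (by positivity) hxa3
  have hll : (l : ℝ) * l * l ≥ 10 * l := by
    have h1 : (10 : ℝ) ≤ l * l := by nlinarith
    nlinarith
  have hn0 : (0 : ℝ) < n := by linarith
  obtain ⟨a, ha⟩ := hLS
  -- the radius
  have hR : 2 * (l : ℝ) ≤ (n : ℝ) / (l : ℝ) ^ A₁ := by
    rw [le_div_iff₀ (hlpos _)]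
    have g2 := hlpos A₁
    calc 2 * (l : ℝ) * (l : ℝ) ^ A₁ ≤ (l * l * l) * (l : ℝ) ^ A₁ := by
          refine mul_le_mul_of_nonneg_right ?_ g2.le
          linarith
      _ = (l : ℝ) ^ A₁ * (l * l * l) := mul_comm _ _
      _ ≤ xa := hxa
      _ ≤ n := hn1.le
  -- the residue
  obtain ⟨r, hr, hrm⟩ : ∃ r < q, (n + r) % q = a % q := by
    have haq : a % q < q := Nat.mod_lt _ hq
    have hnq : n % q < q := Nat.mod_lt _ hq
    refine ⟨(a % q + q - n % q) % q, Nat.mod_lt _ hq, ?_⟩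
    have g1 : n + (a % q + q - n % q) ≡ a [MOD q] := by
      have g2 := Nat.div_add_mod n q
      have g3 : n + (a % q + q - n % q) = a % q + q * (n / q + 1) := by
        rw [mul_add]
        omega
      rw [g3]
      have g4 : a % q + q * (n / q + 1) ≡ a % q + 0 [MOD q] :=
        Nat.ModEq.add_left _ ((Nat.modEq_zero_iff_dvd).2 (dvd_mul_right _ _))
      exact g4.trans (Nat.mod_modEq a q)
    have g5 : n + (a % q + q - n % q) % q ≡ n + (a % q + q - n % q) [MOD q] :=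
      Nat.ModEq.add_left _ (Nat.mod_modEq _ _)
    exact g5.trans g1
  obtain ⟨m₁, hm₁⟩ : ∃ m₁ : ℕ, m₁ = n + r := ⟨_, rfl⟩
  rw [← hm₁] at hrm
  have hrq : (r : ℝ) ≤ q := by exact_mod_cast hr.le
  have hrl : (r : ℝ) ≤ l := by linarith
  have hr0 : (0 : ℝ) ≤ r := Nat.cast_nonneg _
  have hm₁r : (m₁ : ℝ) = n + r := by rw [hm₁]; push_cast; ring
  have hdist : ∀ y ≤ l', (n : ℝ) ≤ ((m₁ + y : ℕ) : ℝ) ∧
      ((m₁ + y : ℕ) : ℝ) ≤ n + (n : ℝ) / (l : ℝ) ^ A₁ := by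
    intro y hy
    have g1 : (y : ℝ) ≤ l := by
      have : (y : ℝ) ≤ l' := by exact_mod_cast hy
      linarith
    have g2 : (0 : ℝ) ≤ y := Nat.cast_nonneg _
    push_cast
    rw [hm₁r]
    constructor <;> linarith
  have hm₁1 : 1 ≤ m₁ := by
    have : 0 < n := by exact_mod_cast hn0
    omega
  obtain ⟨δ, hδ⟩ : ∃ δ : ℝ, δ = 2 ^ d * (d : ℝ) ^ 2 / (l : ℝ) ^ (4 : ℕ) := ⟨_, rfl⟩
  have hδ0 : 0 ≤ δ := by rw [hδ]; positivity
  obtain ⟨b, hb⟩ : ∃ b : ℕ, b = m₁ % Q₁ := ⟨_, rfl⟩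
  have hbQ : b < Q₁ := by rw [hb]; exact Nat.mod_lt _ hQ₁
  have hbd : (Q₁ : ℤ) ∣ (m₁ : ℤ) - b := by
    rw [hb]
    push_cast
    exact Int.dvd_self_sub_emod
  have h4 := lam_cell d Q₁ K m₁ b x.2 l B₂ B₃ xa hl1 hxa0 hQ₁ hm₁1 hB₃ hK hbd (by
    rw [hm₁r]
    have : (r : ℝ) ≤ n := by linarith
    linarith) hnr
  rw [← hδ] at h4
  refine ⟨r, hr, b, hbQ, ?_⟩
  rw [← hm₁]
  have hmain := windowW (l' := l') (m₁ := m₁) (r := r) (n := n) (a := a) (x := x) (ρ := ρ)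
    (δ := δ) (lam := lamD d Q₁ b x.2 (Real.exp ((cI K m₁ : ℝ) / K))) hd hq hl'1 hm₁ hr hx hρ0.le
    hδ0 (by
      intro y hy hne
      exact (ha (m₁ + y) (hdist y hy).1 (hdist y hy).2).1 hne) hrm (by
      intro h hh
      have g0 := hdist 0 (Nat.zero_le _)
      rw [add_zero] at g0
      refine (ha m₁ g0.1 g0.2).2 hrm ρ hρ0 h ?_
      have g1 : (q : ℝ) * h ≤ l' := by exact_mod_cast hh
      calc (q : ℝ) * h ≤ l' := g1
        _ ≤ η * l := hl'η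
        _ ≤ ηf ρ * l := mul_le_mul_of_nonneg_right hη hl0.le) h4
  refine hmain.trans (add_le_add le_rfl ?_)
  have g1 : 2 * Real.pi * (δ * l') ≤ ε₁ / 24 := by
    have g2 : δ * l' ≤ 2 ^ d * (d : ℝ) ^ 2 / s := by
      rw [hδ]
      calc 2 ^ d * (d : ℝ) ^ 2 / (l : ℝ) ^ (4 : ℕ) * l' ≤
          2 ^ d * (d : ℝ) ^ 2 / (l : ℝ) ^ (4 : ℕ) * l := by
            refine mul_le_mul_of_nonneg_left hl' (by positivity)
        _ = 2 ^ d * (d : ℝ) ^ 2 / (l : ℝ) ^ (3 : ℕ) := by field_simp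
        _ ≤ 2 ^ d * (d : ℝ) ^ 2 / s := by
            have : s ≤ (l : ℝ) ^ (3 : ℕ) := by
              calc s ≤ l := hsl
                _ = (l : ℝ) ^ (1 : ℕ) := (pow_one _).symm
                _ ≤ (l : ℝ) ^ (3 : ℕ) := pow_le_pow_right₀ hl1 (by norm_num)
            exact div_le_div_of_nonneg_left (by positivity) hs0 this
    have g3 : 2 ^ d * (d : ℝ) ^ 2 / s ≤ ε₁ / 168 := by
      rw [div_le_iff₀ hε₁] at hs2
      rw [div_le_div_iff₀ hs0 (by norm_num)]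
      linarith only [hs2]
    have g7 : δ * l' ≤ ε₁ / 168 := g2.trans g3
    have g8 : 0 ≤ δ * l' := by positivity
    calc 2 * Real.pi * (δ * l') ≤ 2 * 3.15 * (ε₁ / 168) := by
          have g4 := Real.pi_lt_d2.le
          have g5 := Real.pi_pos.le
          gcongr
      _ = 3 / 80 * ε₁ := by ring
      _ ≤ 1 / 24 * ε₁ := mul_le_mul_of_nonneg_right (by norm_num) hε₁.le
      _ = ε₁ / 24 := by ring
  have g2 : 2 * (q : ℝ) / l' ≤ ε₁ / 24 := by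
    rw [div_le_div_iff₀ hl'0 (by norm_num)]
    rw [div_le_iff₀ hε₁] at hs1
    have g4 : s * ε₁ ≤ ε₁ * l' := by
      rw [mul_comm]
      exact mul_le_mul_of_nonneg_left hsl' hε₁.le
    linarith only [hs1, g4]
  rw [hρ]
  linarith only [g1, g2]

/-- One family. -/
theorem family (d q Q₁ l l' K r b k Hw : ℕ) (X : ℕ → FD) (A B₂ B₃ Bw A2 ε₂ s xa xb Λ : ℝ)
    (hd : 1 ≤ d) (hq : 1 ≤ q) (hA : 0 ≤ A) (hB₂ : 0 ≤ B₂) (hB₃ : 0 ≤ B₃) (hBw : 0 ≤ Bw)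
    (hε₂ : 0 < ε₂) (hA2 : A2 = 2 * (A + B₂ + B₃ * d + 6))
    (hww : ∀ H : ℕ, Hw ≤ H → ∀ xa xb : ℝ, (H : ℝ) ^ Bw ≤ xa → xa * H ≤ xb → ∀ Q : ℕ → ℝ[X],
      (∀ n, (Q n).natDegree ≤ 1) → SlowP Q ((H : ℝ) ^ A2) → ∀ P : ℕ → ℝ[X],
      (∀ n, (P n).natDegree ≤ d) →
      (∀ n : ℕ, (P n).derivative.eval (n : ℝ) = (Q n).derivative.eval (n : ℝ)) →
      ∑ n ∈ Ioc ⌊xa⌋₊ ⌊xb⌋₊, (1 / (n : ℝ)) * Wp H n (P n) ≤ ε₂ * (Real.log xb - Real.log xa))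
    (hs0 : 0 < s) (hss : s * s = l) (hsl' : s ≤ l') (hl' : (l' : ℝ) ≤ l) (hHw : Hw ≤ l')
    (hql : 2 * (q : ℝ) + 5 ≤ l) (hK : (K : ℝ) ≤ (l : ℝ) ^ (B₂ + B₃ * d + 4) + 1)
    (hxa : (l : ℝ) ^ Bw ≤ xa) (hxab : xa * l ≤ xb) (hΛ : Λ = Real.log xb - Real.log xa)
    (hΛ1 : 1 ≤ Λ) (hX : SlowA X ((l : ℝ) ^ A)) (hr : r < q) :
    ∑ m ∈ Ioc ⌊xa⌋₊ ⌊2 * xb⌋₊, (1 / (m : ℝ)) * Wp l' m
      (PolD d q (X (m - r)).2 m (lamD d Q₁ b (X (m - r)).2 (Real.exp ((cI K m : ℝ) / K))) k) ≤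
      ε₂ * (2 * Λ) := by
  have hq1 : (1 : ℝ) ≤ q := by exact_mod_cast hq
  have hl5 : (5 : ℝ) ≤ l := by linarith
  have hl0 : (0 : ℝ) < l := by linarith
  have hl1 : (1 : ℝ) ≤ l := by linarith
  have hl'0 : (0 : ℝ) < l' := by linarith
  have hlpos : ∀ y : ℝ, 0 < (l : ℝ) ^ y := fun y => Real.rpow_pos_of_pos hl0 y
  have hlmono : ∀ y z : ℝ, y ≤ z → (l : ℝ) ^ y ≤ (l : ℝ) ^ z :=
    fun y z h => Real.rpow_le_rpow_of_exponent_le hl1 h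
  have hxa0 : 0 < xa := lt_of_lt_of_le (hlpos _) hxa
  have hxb0 : 0 < xb := lt_of_lt_of_le (by positivity) hxab
  have hBd : 0 ≤ B₃ * d := by positivity
  have hA20 : 0 ≤ A2 := by rw [hA2]; positivity
  have h1 := hww l' hHw xa (2 * xb) ((Real.rpow_le_rpow hl'0.le hl' hBw).trans hxa) (by
      calc xa * l' ≤ xa * l := mul_le_mul_of_nonneg_left hl' hxa0.le
        _ ≤ xb := hxab
        _ ≤ 2 * xb := by linarith) (fun m => C ((lamD d Q₁ b (X (m - r)).2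
          (Real.exp ((cI K m : ℝ) / K)) + k) / q) * Polynomial.X) (fun m => by
      have := natDegree_C_mul_X_pow_le ((lamD d Q₁ b (X (m - r)).2
          (Real.exp ((cI K m : ℝ) / K)) + k) / q) 1
      rwa [pow_one] at this) (by
      refine NSTEPx.slowP_of ?_
      have g1 := slow_pair (slow_shift hX r) (slow_cI K)
      have g2 := NSTEPx.slow_map (fun z : FD × ℕ =>
        (C ((lamD d Q₁ b z.1.2 (Real.exp ((z.2 : ℝ) / K)) + k) / q) * Polynomial.X : ℝ[X])) g1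
      refine NV.SlowA.mono g2 ?_
      have g3 : (r : ℝ) ≤ q := by exact_mod_cast hr.le
      obtain ⟨G, hG⟩ : ∃ G : ℝ, G = (l : ℝ) ^ (A + B₂ + B₃ * d + 4) := ⟨_, rfl⟩
      have g4 : (l : ℝ) ^ A ≤ G := by rw [hG]; exact hlmono _ _ (by linarith)
      have g5 : (l : ℝ) ^ (B₂ + B₃ * d + 4) ≤ G := by rw [hG]; exact hlmono _ _ (by linarith)
      have g6 : 1 ≤ G := by rw [hG]; exact Real.one_le_rpow hl1 (by linarith)
      have g7 : (l : ℝ) ^ (A + B₂ + B₃ * d + 6) = G * (l * l) := by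
        rw [hG, show A + B₂ + B₃ * d + 6 = (A + B₂ + B₃ * d + 4) + 2 by ring, Real.rpow_add hl0,
          show (2 : ℝ) = ((2 : ℕ) : ℝ) by norm_num, Real.rpow_natCast]
        ring
      have g8 : (l : ℝ) ^ (A + B₂ + B₃ * d + 6) ≤ (l' : ℝ) ^ A2 := by
        calc (l : ℝ) ^ (A + B₂ + B₃ * d + 6) = s ^ A2 := by
              rw [hA2, Real.rpow_mul hs0.le, show (2 : ℝ) = ((2 : ℕ) : ℝ) by norm_num,
                Real.rpow_natCast, sq, hss]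
          _ ≤ (l' : ℝ) ^ A2 := Real.rpow_le_rpow hs0.le hsl' hA20
      refine le_trans ?_ g8
      rw [g7]
      have g10 : 2 * (l : ℝ) ^ A + 2 * r + (K + 1) ≤ G * (2 * q + 5) := by
        have g11 : 2 * (q : ℝ) ≤ G * (2 * q) := le_mul_of_one_le_left (by positivity) g6
        have g12 : G * (2 * q + 5) = G * (2 * q) + 5 * G := by ring
        rw [g12]
        linarith only [g11, g4, g5, g6, g3, hK]
      have g11 : G * (2 * q + 5) ≤ G * (l * l) := by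
        have g12 : (2 : ℝ) * q + 5 ≤ l * l := by nlinarith only [hql, hl1]
        exact mul_le_mul_of_nonneg_left g12 (by linarith only [g6])
      exact g10.trans g11) (fun m => PolD d q (X (m - r)).2 m (lamD d Q₁ b (X (m - r)).2
        (Real.exp ((cI K m : ℝ) / K))) k) (fun m => pol_deg d q _ m _ k hd) (fun m => by
      rw [pol_der, derivative_C_mul, derivative_X]
      simp)
  refine h1.trans (mul_le_mul_of_nonneg_left ?_ hε₂.le)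
  rw [Real.log_mul two_ne_zero hxb0.ne']
  have := Real.log_two_lt_d9
  linarith only [this, hΛ, hΛ1]

end FCx

open FCx in
theorem fcwin (d q Q₁ : ℕ) (ηf : ℝ → ℝ) (hd : 1 ≤ d) (hq : 1 ≤ q) (hQ₁ : 1 ≤ Q₁)
    (hηf : ∀ ρ, 0 < ρ → 0 < ηf ρ) (A A₁ B₂ B₃ ε : ℝ) (hA : 0 ≤ A) (hA₁ : 0 ≤ A₁) (hB₂ : 0 ≤ B₂)
    (hB₃ : 0 ≤ B₃) (hε : 0 < ε) :
    ∃ (B : ℝ) (l₀ : ℕ), 0 ≤ B ∧ ∀ l : ℕ, l₀ ≤ l → ∀ xa xb : ℝ, (l : ℝ) ^ B ≤ xa →
    xa * l ≤ xb → xb ≤ xa * (l : ℝ) ^ B₃ → ∀ X : ℕ → FD, SlowA X ((l : ℝ) ^ A) →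
    (∀ n m, ‖(X n).1 m‖ ≤ 1) →
    (∀ n : ℕ, 1 ≤ n → LS q d ηf l ((n : ℝ) / (l : ℝ) ^ A₁) n (X n)) →
    (∀ n : ℕ, 1 ≤ n → ∀ i, 1 ≤ i → i ≤ d → ∃ j : ℤ,
      |(X n).2 i 1 - j / Q₁| ≤ (l : ℝ) ^ B₂ / xa ^ i) →
    ∑ n ∈ Ioc ⌊xa⌋₊ ⌊xb⌋₊, (1 / (n : ℝ)) * Wg l n (X n).1 ≤ ε * (Real.log xb - Real.log xa) := by
  classical
  obtain ⟨ε₁, hε₁⟩ : ∃ ε₁ : ℝ, ε₁ = min ε 1 := ⟨_, rfl⟩
  have hε₁0 : 0 < ε₁ := by rw [hε₁]; exact lt_min hε one_pos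
  have hε₁1 : ε₁ ≤ 1 := by rw [hε₁]; exact min_le_right _ _
  have hε₁ε : ε₁ ≤ ε := by rw [hε₁]; exact min_le_left _ _
  have hq0 : (0 : ℝ) < q := by exact_mod_cast hq
  have hQ0 : (0 : ℝ) < Q₁ := by exact_mod_cast hQ₁
  obtain ⟨ρ, hρ⟩ : ∃ ρ : ℝ, ρ = ε₁ / 24 := ⟨_, rfl⟩
  have hρ0 : 0 < ρ := by rw [hρ]; positivity
  obtain ⟨η, hη⟩ : ∃ η : ℝ, η = min (ε₁ / 32) (ηf ρ) := ⟨_, rfl⟩
  have hη0 : 0 < η := by rw [hη]; exact lt_min (by positivity) (hηf ρ hρ0)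
  have hη1 : η ≤ ε₁ / 32 := by rw [hη]; exact min_le_left _ _
  have hη2 : η ≤ ηf ρ := by rw [hη]; exact min_le_right _ _
  obtain ⟨Bs, Hs, hBs, hsub⟩ := suba A (ε₁ / 4) η hA (by positivity) hη0 (by linarith) (by linarith)
  obtain ⟨A2, hA2⟩ : ∃ A2 : ℝ, A2 = 2 * (A + B₂ + B₃ * d + 6) := ⟨_, rfl⟩
  have hA20 : 0 ≤ A2 := by rw [hA2]; positivity
  obtain ⟨ε₂, hε₂⟩ : ∃ ε₂ : ℝ, ε₂ = ε₁ / (16 * (q * Q₁ * q)) := ⟨_, rfl⟩
  have hε₂0 : 0 < ε₂ := by rw [hε₂]; positivity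
  obtain ⟨Bw, Hw, hBw, hww⟩ := ww 1 d hd A2 ε₂ hA20 hε₂0
  obtain ⟨W, hW⟩ : ∃ W : ℝ, W = 48 * q / ε₁ + 168 * (2 ^ d * (d : ℝ) ^ 2) / ε₁ + 10 + 2 * q +
    Hw + Hs + 2 / η := ⟨_, rfl⟩
  have hW1 : 0 ≤ 48 * q / ε₁ := by positivity
  have hW2 : 0 ≤ 168 * (2 ^ d * (d : ℝ) ^ 2) / ε₁ := by positivity
  have hW3 : 0 ≤ 2 / η := by positivity
  have hW4 : (0 : ℝ) ≤ Hw := Nat.cast_nonneg _
  have hW5 : (0 : ℝ) ≤ Hs := Nat.cast_nonneg _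
  refine ⟨Bs + Bw + A₁ + 3, ⌈W ^ 2⌉₊, by positivity, ?_⟩
  intro l hl xa xb hxa hxab hxb X hX hX1 hLS hnr
  -- the size of `l`
  obtain ⟨s, hs⟩ : ∃ s : ℝ, s = Real.sqrt l := ⟨_, rfl⟩
  have hl0' : (0 : ℝ) ≤ l := Nat.cast_nonneg _
  have hss : s * s = l := by rw [hs]; exact Real.mul_self_sqrt hl0'
  have hsW : W ≤ s := by
    rw [hs]
    refine Real.le_sqrt_of_sq_le ?_
    exact (Nat.le_ceil _).trans (by exact_mod_cast hl)
  have hs1 : 48 * q / ε₁ ≤ s := by linarith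
  have hs2 : 168 * (2 ^ d * (d : ℝ) ^ 2) / ε₁ ≤ s := by linarith
  have hs3 : 2 * (q : ℝ) + 10 ≤ s := by linarith
  have hsHw : (Hw : ℝ) ≤ s := by linarith
  have hsHs : (Hs : ℝ) ≤ s := by linarith
  have hsη : 2 / η ≤ s := by linarith
  have hs10 : 10 ≤ s := by linarith
  have hs0 : 0 < s := by linarith
  have hl0 : (0 : ℝ) < l := by rw [← hss]; positivity
  have hsl : s ≤ l := by rw [← hss]; exact le_mul_of_one_le_left hs0.le (by linarith)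
  have hl1 : (1 : ℝ) ≤ l := by linarith
  clear hsW hW
  have hlpos : ∀ y : ℝ, 0 < (l : ℝ) ^ y := fun y => Real.rpow_pos_of_pos hl0 y
  have hlmono : ∀ y z : ℝ, y ≤ z → (l : ℝ) ^ y ≤ (l : ℝ) ^ z :=
    fun y z h => Real.rpow_le_rpow_of_exponent_le hl1 h
  -- the short windows
  obtain ⟨l', hl'⟩ : ∃ l' : ℕ, l' = ⌊η * (l : ℝ)⌋₊ := ⟨_, rfl⟩
  have hl'le : (l' : ℝ) ≤ η * l := by rw [hl']; exact Nat.floor_le (by positivity)
  have hl's : s ≤ l' := by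
    have h1 := Nat.lt_floor_add_one (η * (l : ℝ))
    rw [← hl'] at h1
    have h2 : 2 ≤ η * s := by
      rw [div_le_iff₀ hη0] at hsη
      linarith
    have h3 : 2 * s ≤ η * l := by
      calc 2 * s ≤ (η * s) * s := mul_le_mul_of_nonneg_right h2 hs0.le
        _ = η * l := by rw [mul_assoc, hss]
    linarith
  have hη1' : η ≤ 1 := by linarith
  have hl'l : (l' : ℝ) ≤ l := hl'le.trans (mul_le_of_le_one_left hl0.le hη1')
  have hHw : Hw ≤ l' := by exact_mod_cast hsHw.trans hl's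
  have hHs : Hs ≤ l := by exact_mod_cast hsHs.trans hsl
  -- `xa`, `xb`
  have hxaB : ∀ y : ℝ, y ≤ Bs + Bw + A₁ + 3 → (l : ℝ) ^ y ≤ xa := fun y h => (hlmono y _ h).trans hxa
  have hl3 : (l : ℝ) ^ (3 : ℝ) = l * l * l := by
    rw [show (3 : ℝ) = ((3 : ℕ) : ℝ) by norm_num, Real.rpow_natCast]; ring
  have hxa3 : (l : ℝ) * l * l ≤ xa := by rw [← hl3]; exact hxaB _ (by linarith)
  have hxaA : (l : ℝ) ^ A₁ * (l * l * l) ≤ xa := by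
    rw [← hl3, ← Real.rpow_add hl0]
    exact hxaB _ (by linarith)
  have hxa0 : 0 < xa := lt_of_lt_of_le (by positivity) hxa3
  have hxal : (l : ℝ) ≤ xa := by
    refine le_trans ?_ hxa3
    have h1 : (1 : ℝ) ≤ l * l := by nlinarith only [hl1]
    calc (l : ℝ) = 1 * l := (one_mul _).symm
      _ ≤ l * l * l := mul_le_mul_of_nonneg_right h1 hl0.le
  have hxb0 : 0 < xb := lt_of_lt_of_le (by positivity) hxab
  have hxaxb : xa ≤ xb := le_trans (le_mul_of_one_le_right hxa0.le hl1) hxab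
  obtain ⟨Λ, hΛ⟩ : ∃ Λ : ℝ, Λ = Real.log xb - Real.log xa := ⟨_, rfl⟩
  have hΛ1 : 1 ≤ Λ := by
    have h1 := Real.log_le_log (by positivity) hxab
    rw [Real.log_mul hxa0.ne' hl0.ne'] at h1
    have h2 : 1 ≤ Real.log l := by
      rw [Real.le_log_iff_exp_le hl0]
      have := Real.exp_one_lt_d9
      linarith
    linarith
  rw [← hΛ]
  -- shorter windows
  have hstep1 := hsub l hHs FD (fun x m => if ‖x.1 m‖ ≤ 1 then x.1 m else 0) (by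
    intro x m
    split_ifs with h
    · exact h
    · simp) xa xb (hxaB _ (by linarith)) hxab X hX
  have hev : ∀ n : ℕ, (fun m => if ‖(X n).1 m‖ ≤ 1 then (X n).1 m else 0) = (X n).1 := by
    intro n
    funext m
    rw [if_pos (hX1 n m)]
  simp only [hev] at hstep1
  rw [← hl', ← hΛ] at hstep1
  -- the families
  obtain ⟨K, hK⟩ : ∃ K : ℕ, K = ⌈(l : ℝ) ^ (B₂ + B₃ * d + 4)⌉₊ := ⟨_, rfl⟩
  have hKge : (l : ℝ) ^ (B₂ + B₃ * d + 4) ≤ K := by rw [hK]; exact Nat.le_ceil _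
  have hKle : (K : ℝ) ≤ (l : ℝ) ^ (B₂ + B₃ * d + 4) + 1 := by
    rw [hK]; exact (Nat.ceil_lt_add_one (hlpos _).le).le
  obtain ⟨Fam, hFam⟩ : ∃ Fam : ℕ → ℕ → ℕ → ℕ → ℝ[X], Fam = fun r b k m =>
      PolD d q (X (m - r)).2 m (lamD d Q₁ b (X (m - r)).2 (Real.exp ((cI K m : ℝ) / K))) k :=
    ⟨_, rfl⟩
  have hWp : ∀ (m : ℕ) (P : ℝ[X]), 0 ≤ Wp l' m P := fun m P => by unfold Wp; positivity
  have hfam : ∀ r < q, ∀ b k : ℕ, ∑ m ∈ Ioc ⌊xa⌋₊ ⌊2 * xb⌋₊, (1 / (m : ℝ)) *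
      Wp l' m (Fam r b k m) ≤ ε₂ * (2 * Λ) := by
    intro r hr b k
    rw [hFam]
    exact family d q Q₁ l l' K r b k Hw X A B₂ B₃ Bw A2 ε₂ s xa xb Λ hd hq hA hB₂ hB₃ hBw hε₂0
      hA2 hww hs0 hss hl's hl'l hHw (by linarith) hKle (hxaB _ (by linarith)) hxab hΛ hΛ1 hX hr
  -- the pointwise bound
  have hpoint : ∀ n ∈ Ioc ⌊xa⌋₊ ⌊xb⌋₊, Wg l' n (X n).1 ≤
      ∑ r ∈ range q, ∑ b ∈ range Q₁, ∑ k ∈ range q, Wp l' (n + r) (Fam r b k (n + r)) +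
        ε₁ / 8 := by
    intro n hn
    rw [mem_Ioc] at hn
    have hn1 : xa < n := (Nat.floor_lt hxa0.le).1 hn.1
    have hn2 : (n : ℝ) ≤ xb := (Nat.le_floor_iff hxb0.le).1 hn.2
    have hn1N : 1 ≤ n := by omega
    obtain ⟨r, hr, b, hb, hrb⟩ := point d q Q₁ l l' K n ηf (X n) η ρ ε₁ B₂ B₃ A₁ s xa xb hd hq hQ₁
      hε₁0 hρ hB₃ hs1 hs2 (by linarith) hsl hl's hl'l hl'le hη2 hxaA hxa3 hxb hKge hn1 hn2 (hX1 n)
      (hLS n hn1N) (hnr n hn1N)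
    refine hrb.trans (add_le_add ?_ le_rfl)
    have g1 : ∑ k ∈ range q, Wp l' (n + r) (PolD d q (X n).2 (n + r) (lamD d Q₁ b (X n).2
        (Real.exp ((cI K (n + r) : ℝ) / K))) k) =
        ∑ k ∈ range q, Wp l' (n + r) (Fam r b k (n + r)) := by
      rw [hFam]
      simp only [Nat.add_sub_cancel]
    rw [g1]
    refine le_trans ?_ (single_le_sum (f := fun r => ∑ b ∈ range Q₁, ∑ k ∈ range q,
      Wp l' (n + r) (Fam r b k (n + r))) (fun r _ => sum_nonneg fun b _ =>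
        sum_nonneg fun k _ => hWp _ _) (mem_range.2 hr))
    exact single_le_sum (f := fun b => ∑ k ∈ range q, Wp l' (n + r) (Fam r b k (n + r)))
      (fun b _ => sum_nonneg fun k _ => hWp _ _) (mem_range.2 hb)
  -- the sum
  have hstep2 : ∑ n ∈ Ioc ⌊xa⌋₊ ⌊xb⌋₊, (1 / (n : ℝ)) * Wg l' n (X n).1 ≤
      ∑ r ∈ range q, ∑ b ∈ range Q₁, ∑ k ∈ range q, 2 * (ε₂ * (2 * Λ)) + ε₁ / 8 * (Λ + 1) := by
    calc ∑ n ∈ Ioc ⌊xa⌋₊ ⌊xb⌋₊, (1 / (n : ℝ)) * Wg l' n (X n).1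
        ≤ ∑ n ∈ Ioc ⌊xa⌋₊ ⌊xb⌋₊, (1 / (n : ℝ)) * (∑ r ∈ range q, ∑ b ∈ range Q₁,
          ∑ k ∈ range q, Wp l' (n + r) (Fam r b k (n + r)) + ε₁ / 8) := by
          refine sum_le_sum fun n hn => ?_
          exact mul_le_mul_of_nonneg_left (hpoint n hn) (by positivity)
      _ = ∑ r ∈ range q, ∑ b ∈ range Q₁, ∑ k ∈ range q, ∑ n ∈ Ioc ⌊xa⌋₊ ⌊xb⌋₊,
          (1 / (n : ℝ)) * Wp l' (n + r) (Fam r b k (n + r)) +
          ε₁ / 8 * ∑ n ∈ Ioc ⌊xa⌋₊ ⌊xb⌋₊, (1 / (n : ℝ)) := by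
          simp only [mul_add, mul_sum, sum_add_distrib]
          congr 1
          · rw [sum_comm]
            refine sum_congr rfl fun r _ => ?_
            rw [sum_comm]
            refine sum_congr rfl fun b _ => ?_
            rw [sum_comm]
          · exact sum_congr rfl fun n _ => by ring
      _ ≤ _ := by
          refine add_le_add ?_ ?_
          · refine sum_le_sum fun r hr => sum_le_sum fun b _ => sum_le_sum fun k _ => ?_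
            have hr' := mem_range.1 hr
            have g2 : (r : ℝ) ≤ q := by exact_mod_cast hr'.le
            refine le_trans (shift_sum (fun m => Wp l' m (Fam r b k m)) (fun m => hWp _ _)
              ⌊xa⌋₊ ⌊xb⌋₊ ⌊2 * xb⌋₊ r ?_ ?_)
              (mul_le_mul_of_nonneg_left (hfam r hr' b k) zero_le_two)
            · refine Nat.le_floor ?_
              linarith
            · refine Nat.le_floor ?_
              push_cast
              have g1 := Nat.floor_le hxb0.le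
              linarith
          · have g1 := SUPx.sum_inv_le xa xb (by linarith) hxaxb
            rw [← hΛ] at g1
            exact mul_le_mul_of_nonneg_left g1 (by positivity)
  have hN : ∑ r ∈ range q, ∑ b ∈ range Q₁, ∑ k ∈ range q, 2 * (ε₂ * (2 * Λ)) = ε₁ / 4 * Λ := by
    simp only [sum_const, card_range, nsmul_eq_mul]
    rw [hε₂]
    field_simp
    ring
  rw [hN] at hstep2
  have hfin : ε₁ * Λ ≤ ε * Λ := mul_le_mul_of_nonneg_right hε₁ε (by linarith)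
  have h8 : ε₁ / 8 * (Λ + 1) ≤ ε₁ / 4 * Λ := by
    have : ε₁ / 8 * 1 ≤ ε₁ / 8 * Λ := mul_le_mul_of_nonneg_left hΛ1 (by positivity)
    linarith
  have h9 : 0 ≤ ε₁ * Λ := by positivity
  linarith only [hstep1, hstep2, hfin, h8, h9]

end

end Pool.Agent.NG
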