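import Pool.Agent.Lib.NG.GSTEP
import Pool.Agent.Lib.NG.Box
import Pool.Agent.Lib.TU.F

/-!
# Row FULLC (MP_663568_nt, NVG2), first part: the relation between the coefficients

A family of functions with the local structure `f (m + q h) ≈ e(v(m, h)) f m` (on one class modulo
`q`).  If two such functions correlate on many windows, the coefficients of `m ^ i h` of the
difference of the two phases are near rationals.  (helper95)
-/

set_option autoImplicit false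
open Finset MeasureTheory Polynomial

namespace Pool.Agent.NG

open Pool.Agent.Lib.MP_663568_nt Pool.Agent.Lib.MP_663568_nt.Katai
  Pool.Agent.Lib.MP_663568_nt.Nul Pool.Agent.SV Pool.Agent.VQ Pool.Agent.NV

noncomputable section

/-- The data: a function and the coefficients of the local phase. -/
abbrev FD : Type := (ℕ → ℂ) × (ℕ → ℕ → ℝ)

/-- `∑_{i ≤ d, 1 ≤ j ≤ d} v_ij m^i h^j`. -/
def vev (d : ℕ) (v : ℕ → ℕ → ℝ) (m h : ℝ) : ℝ :=
  ∑ i ∈ range (d + 1), ∑ j ∈ Icc 1 d, v i j * m ^ i * h ^ j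

/-- The local structure on `[n, n + R]`, for windows of length `l`. -/
def LS (q d : ℕ) (ηf : ℝ → ℝ) (l R n : ℝ) (x : FD) : Prop :=
  ∃ a : ℕ, ∀ m : ℕ, n ≤ m → (m : ℝ) ≤ n + R → (m % q ≠ a % q → x.1 m = 0) ∧
    (m % q = a % q → ∀ ρ : ℝ, 0 < ρ → ∀ h : ℕ, (q : ℝ) * h ≤ ηf ρ * l →
      ‖x.1 (m + q * h) - ee (vev d x.2 m h) * x.1 m‖ ≤ ρ)

namespace FCx

/-- The mean of the difference of the local phases. -/
def Kb (d b : ℕ) (v v' : ℕ → ℕ → ℝ) (u : ℕ) : ℝ :=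
  ‖∑ s ∈ range b, ee (vev d v u s - vev d v' u s)‖ / b

lemma Kb_nonneg (d b : ℕ) (v v' : ℕ → ℕ → ℝ) (u : ℕ) : 0 ≤ Kb d b v v' u := by
  unfold Kb; positivity

lemma Kb_le_one (d b : ℕ) (v v' : ℕ → ℕ → ℝ) (u : ℕ) : Kb d b v v' u ≤ 1 := by
  unfold Kb
  refine div_le_one_of_le₀ ?_ (by positivity)
  refine (norm_sum_le _ _).trans ?_
  simp [norm_ee]

/-- One window. -/
theorem onewin {d q l b m : ℕ} {ηf : ℝ → ℝ} {R n ρ : ℝ} {x x' : FD} (hb : 1 ≤ b) (hl : 1 ≤ l)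
    (hρ : 0 < ρ) (hx : ∀ m, ‖x.1 m‖ ≤ 1) (hx' : ∀ m, ‖x'.1 m‖ ≤ 1) {a : ℕ}
    (ha : ∀ m : ℕ, n ≤ m → (m : ℝ) ≤ n + R → (m % q ≠ a % q → x.1 m = 0) ∧
      (m % q = a % q → ∀ ρ : ℝ, 0 < ρ → ∀ h : ℕ, (q : ℝ) * h ≤ ηf ρ * l →
        ‖x.1 (m + q * h) - ee (vev d x.2 m h) * x.1 m‖ ≤ ρ))
    (ls' : LS q d ηf l R n x')
    (hm : ∀ y ∈ Icc 1 l, ∀ s < b, n ≤ ((m + y + q * s : ℕ) : ℝ) ∧
      ((m + y + q * s : ℕ) : ℝ) ≤ n + R)
    (hqb : (q : ℝ) * b ≤ ηf ρ * l) :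
    l * Kg l m x.1 x'.1 ≤ ∑ y ∈ Icc 1 l,
      (if (m + y) % q = a % q then Kb d b x.2 x'.2 (m + y) else 0) + 2 * ρ * l + 2 * q * b := by
  obtain ⟨a', ha'⟩ := ls'
  obtain ⟨F, hF⟩ : ∃ F : ℕ → ℂ, F = fun u => x.1 u * (starRingEnd ℂ) (x'.1 u) := ⟨_, rfl⟩
  have hF1 : ∀ u, ‖F u‖ ≤ 1 := by
    intro u
    rw [hF]
    simp only [norm_mul, RCLike.norm_conj]
    exact mul_le_one₀ (hx u) (norm_nonneg _) (hx' u)
  have hl0 : (0 : ℝ) < l := by exact_mod_cast hl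
  have hb0 : (0 : ℝ) < b := by exact_mod_cast hb
  have hq0 : (0 : ℝ) ≤ q := Nat.cast_nonneg _
  have e1 : l * Kg l m x.1 x'.1 = ‖∑ y ∈ Icc 1 l, F (m + y)‖ := by
    unfold Kg
    rw [hF, mul_div_cancel₀ _ hl0.ne']
  -- the shifts
  have e2 : ‖(b : ℂ) * ∑ y ∈ Icc 1 l, F (m + y) -
      ∑ s ∈ range b, ∑ y ∈ Icc 1 l, F (m + y + q * s)‖ ≤ b * (2 * (q * b)) := by
    have : (b : ℂ) * ∑ y ∈ Icc 1 l, F (m + y) -
        ∑ s ∈ range b, ∑ y ∈ Icc 1 l, F (m + y + q * s) =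
        ∑ s ∈ range b, (∑ y ∈ Icc 1 l, F (m + y) - ∑ y ∈ Icc 1 l, F (m + y + q * s)) := by
      rw [sum_sub_distrib, sum_const, card_range, nsmul_eq_mul]
    rw [this]
    refine (norm_sum_le _ _).trans ?_
    calc ∑ s ∈ range b, ‖∑ y ∈ Icc 1 l, F (m + y) - ∑ y ∈ Icc 1 l, F (m + y + q * s)‖
        ≤ ∑ s ∈ range b, 2 * ((q : ℝ) * b) := by
          refine sum_le_sum fun s hs => ?_
          rw [norm_sub_rev]
          have h1 := TU.RF.shift1 (fun k => F (m + k)) (fun k => hF1 _) l (q * s)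
          simp only [← add_assoc] at h1
          refine h1.trans ?_
          push_cast
          have : (s : ℝ) ≤ b := by exact_mod_cast (mem_range.1 hs).le
          gcongr
      _ = b * (2 * (q * b)) := by rw [sum_const, card_range, nsmul_eq_mul]
  -- the blocks
  have e3 : ∀ y ∈ Icc 1 l, ‖∑ s ∈ range b, F (m + y + q * s)‖ ≤
      b * (if (m + y) % q = a % q then Kb d b x.2 x'.2 (m + y) else 0) + 2 * ρ * b := by
    intro y hy
    have hmod : ∀ s, (m + y + q * s) % q = (m + y) % q := fun s => Nat.add_mul_mod_self_left _ _ _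
    have hy0 := hm y hy 0 hb
    simp only [mul_zero, add_zero] at hy0
    by_cases h1 : (m + y) % q = a % q
    · rw [if_pos h1]
      by_cases h2 : (m + y) % q = a' % q
      · have h3 : ∀ s ∈ range b, ‖F (m + y + q * s) -
            ee (vev d x.2 ((m + y : ℕ) : ℝ) s - vev d x'.2 ((m + y : ℕ) : ℝ) s) * F (m + y)‖ ≤
            2 * ρ := by
          intro s hs
          have hs' : (s : ℝ) ≤ b := by exact_mod_cast (mem_range.1 hs).le
          have hqs : (q : ℝ) * s ≤ ηf ρ * l := le_trans (by gcongr) hqb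
          have g1 := (ha (m + y) hy0.1 hy0.2).2 h1 ρ hρ s hqs
          have g2 := (ha' (m + y) hy0.1 hy0.2).2 h2 ρ hρ s hqs
          rw [hF]
          simp only
          obtain ⟨A, hA⟩ : ∃ A : ℂ, A = x.1 (m + y + q * s) := ⟨_, rfl⟩
          obtain ⟨B, hB⟩ : ∃ B : ℂ, B = x'.1 (m + y + q * s) := ⟨_, rfl⟩
          obtain ⟨A0, hA0⟩ : ∃ A0 : ℂ, A0 = ee (vev d x.2 ((m + y : ℕ) : ℝ) s) * x.1 (m + y) :=
            ⟨_, rfl⟩
          obtain ⟨B0, hB0⟩ : ∃ B0 : ℂ, B0 = ee (vev d x'.2 ((m + y : ℕ) : ℝ) s) * x'.1 (m + y) :=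
            ⟨_, rfl⟩
          rw [← hA, ← hA0] at g1
          rw [← hB, ← hB0] at g2
          have hA1 : ‖A0‖ ≤ 1 := by
            rw [hA0, norm_mul, norm_ee, one_mul]; exact hx _
          have hB1 : ‖B‖ ≤ 1 := by rw [hB]; exact hx' _
          have g3 : A * (starRingEnd ℂ) B - A0 * (starRingEnd ℂ) B0 =
              (A - A0) * (starRingEnd ℂ) B + A0 * (starRingEnd ℂ) (B - B0) := by
            rw [map_sub]; ring
          have g4 : A0 * (starRingEnd ℂ) B0 =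
              ee (vev d x.2 ((m + y : ℕ) : ℝ) s - vev d x'.2 ((m + y : ℕ) : ℝ) s) *
                (x.1 (m + y) * (starRingEnd ℂ) (x'.1 (m + y))) := by
            rw [hA0, hB0, map_mul, ee_sub]
            ring
          rw [← hA, ← hB, ← g4, g3]
          refine (norm_add_le _ _).trans ?_
          rw [norm_mul, norm_mul, RCLike.norm_conj, RCLike.norm_conj]
          have := norm_nonneg (A - A0)
          have := norm_nonneg (B - B0)
          nlinarith [norm_nonneg A0, norm_nonneg B]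
        have h4 : ∑ s ∈ range b, F (m + y + q * s) =
            (∑ s ∈ range b, ee (vev d x.2 ((m + y : ℕ) : ℝ) s - vev d x'.2 ((m + y : ℕ) : ℝ) s)) *
              F (m + y) + ∑ s ∈ range b, (F (m + y + q * s) -
            ee (vev d x.2 ((m + y : ℕ) : ℝ) s - vev d x'.2 ((m + y : ℕ) : ℝ) s) * F (m + y)) := by
          rw [sum_sub_distrib, sum_mul]
          ring
        rw [h4]
        refine (norm_add_le _ _).trans (add_le_add ?_ ?_)
        · rw [norm_mul]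
          unfold Kb
          rw [mul_div_cancel₀ _ hb0.ne']
          exact mul_le_of_le_one_right (norm_nonneg _) (hF1 _)
        · refine (norm_sum_le _ _).trans ((sum_le_sum h3).trans ?_)
          rw [sum_const, card_range, nsmul_eq_mul]
          linarith
      · have h3 : ∀ s ∈ range b, F (m + y + q * s) = 0 := by
          intro s hs
          have hh := hm y hy s (mem_range.1 hs)
          have := (ha' (m + y + q * s) hh.1 hh.2).1 (by rw [hmod]; exact h2)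
          rw [hF]
          simp only [this, map_zero, mul_zero]
        rw [sum_eq_zero h3, norm_zero]
        have := Kb_nonneg d b x.2 x'.2 (m + y)
        positivity
    · have h3 : ∀ s ∈ range b, F (m + y + q * s) = 0 := by
        intro s hs
        have hh := hm y hy s (mem_range.1 hs)
        have := (ha (m + y + q * s) hh.1 hh.2).1 (by rw [hmod]; exact h1)
        rw [hF]
        simp only [this, zero_mul]
      rw [sum_eq_zero h3, norm_zero, if_neg h1]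
      positivity
  have e4 : b * ‖∑ y ∈ Icc 1 l, F (m + y)‖ ≤ ∑ y ∈ Icc 1 l,
      (b * (if (m + y) % q = a % q then Kb d b x.2 x'.2 (m + y) else 0) + 2 * ρ * b) +
      b * (2 * (q * b)) := by
    have h1 : (b : ℝ) * ‖∑ y ∈ Icc 1 l, F (m + y)‖ = ‖(b : ℂ) * ∑ y ∈ Icc 1 l, F (m + y)‖ := by
      rw [norm_mul]; simp
    rw [h1]
    have h2 := norm_sub_norm_le ((b : ℂ) * ∑ y ∈ Icc 1 l, F (m + y))
      (∑ s ∈ range b, ∑ y ∈ Icc 1 l, F (m + y + q * s))
    have h3 : ‖∑ s ∈ range b, ∑ y ∈ Icc 1 l, F (m + y + q * s)‖ ≤ ∑ y ∈ Icc 1 l,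
        (b * (if (m + y) % q = a % q then Kb d b x.2 x'.2 (m + y) else 0) + 2 * ρ * b) := by
      rw [sum_comm]
      exact (norm_sum_le _ _).trans (sum_le_sum e3)
    linarith
  rw [e1]
  have e5 : ∑ y ∈ Icc 1 l,
      (b * (if (m + y) % q = a % q then Kb d b x.2 x'.2 (m + y) else 0) + 2 * ρ * b) =
      b * (∑ y ∈ Icc 1 l, (if (m + y) % q = a % q then Kb d b x.2 x'.2 (m + y) else 0) +
        2 * ρ * l) := by
    rw [sum_add_distrib, ← mul_sum, sum_const, Nat.card_Icc, nsmul_eq_mul, Nat.add_sub_cancel]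
    ring
  rw [e5, ← mul_add] at e4
  have := le_of_mul_le_mul_left e4 hb0
  linarith

/-- The coefficient of `h ^ j` of the difference of the phases at `u`. -/
def cj (d : ℕ) (v v' : ℕ → ℕ → ℝ) (j : ℕ) (u : ℝ) : ℝ :=
  ∑ i ∈ range (d + 1), (v i j - v' i j) * u ^ i

theorem vev_sub (d : ℕ) (v v' : ℕ → ℕ → ℝ) (u s : ℝ) :
    vev d v u s - vev d v' u s =
      ∑ j : Fin (d + 1), (if (j : ℕ) = 0 then 0 else cj d v v' j u) * s ^ (j : ℕ) := by
  rw [Fin.sum_univ_eq_sum_range (fun j => (if j = 0 then 0 else cj d v v' j u) * s ^ j) (d + 1)]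
  have h1 : range (d + 1) = insert 0 (Icc 1 d) := by
    ext j
    simp only [mem_range, mem_insert, mem_Icc]
    omega
  have h2 : ∑ j ∈ range (d + 1), (if j = 0 then 0 else cj d v v' j u) * s ^ j =
      ∑ j ∈ Icc 1 d, cj d v v' j u * s ^ j := by
    rw [h1, sum_insert (by simp)]
    simp only [if_true, zero_mul, zero_add]
    refine sum_congr rfl fun j hj => ?_
    rw [if_neg (by have := (mem_Icc.1 hj).1; omega)]
  rw [h2]
  unfold vev cj
  rw [← sum_sub_distrib]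
  simp only [← sum_sub_distrib, sum_mul]
  rw [sum_comm]
  refine sum_congr rfl fun j _ => sum_congr rfl fun i _ => by ring

open Classical in
/-- Many windows give many starting points. -/
theorem count (l L n : ℕ) (c : ℝ) (hc : 0 < c) (hl : 1 ≤ l) (hlL : l ≤ L) (N : ℕ → ℝ)
    (hN0 : ∀ u, 0 ≤ N u) (hN1 : ∀ u, N u ≤ 1) (Good : Finset ℕ) (hG : Good ⊆ Ico n (n + L))
    (hGm : ∀ m ∈ Good, c / 2 * l ≤ ∑ y ∈ Icc 1 l, N (m + y)) (hGc : c / 8 * L ≤ (#Good : ℝ)) :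
    c ^ 2 / 64 * ((2 * L : ℕ) : ℝ) ≤
      (#((range (2 * L)).filter fun k => c ^ 2 / 64 ≤ N (n + 1 + k)) : ℝ) := by
  have hl0 : (0 : ℝ) < l := by exact_mod_cast hl
  have h1 : c / 8 * L * (c / 2 * l) ≤ ∑ m ∈ Good, ∑ y ∈ Icc 1 l, N (m + y) := by
    calc c / 8 * L * (c / 2 * l) ≤ #Good * (c / 2 * l) := by gcongr
      _ = ∑ m ∈ Good, c / 2 * l := by rw [sum_const, nsmul_eq_mul]
      _ ≤ _ := sum_le_sum hGm
  have h2 : ∑ m ∈ Good, ∑ y ∈ Icc 1 l, N (m + y) ≤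
      l * ∑ k ∈ range (2 * L), N (n + 1 + k) := by
    calc ∑ m ∈ Good, ∑ y ∈ Icc 1 l, N (m + y)
        ≤ ∑ m ∈ Ico n (n + L), ∑ y ∈ Icc 1 l, N (m + y) :=
          sum_le_sum_of_subset_of_nonneg hG fun m _ _ => sum_nonneg fun y _ => hN0 _
      _ = ∑ y ∈ Icc 1 l, ∑ m ∈ Ico n (n + L), N (m + y) := sum_comm
      _ ≤ ∑ y ∈ Icc 1 l, ∑ k ∈ range (2 * L), N (n + 1 + k) := by
          refine sum_le_sum fun y hy => ?_
          rw [mem_Icc] at hy
          rw [sum_Ico_add' (fun x => N x) n (n + L) y]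
          have h3 : ∑ k ∈ range (2 * L), N (n + 1 + k) = ∑ u ∈ Ico (n + 1) (n + 1 + 2 * L), N u := by
            rw [sum_Ico_eq_sum_range]
            congr 2
            omega
          rw [h3]
          exact sum_le_sum_of_subset_of_nonneg (Ico_subset_Ico (by omega) (by omega))
            fun u _ _ => hN0 u
      _ = l * ∑ k ∈ range (2 * L), N (n + 1 + k) := by
          rw [sum_const, Nat.card_Icc, nsmul_eq_mul, Nat.add_sub_cancel]
  have h3 : c ^ 2 / 32 * (#(range (2 * L)) * 1) ≤ ∑ k ∈ range (2 * L), N (n + 1 + k) := by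
    rw [card_range]
    have h4 : l * (c ^ 2 / 32 * (((2 * L : ℕ) : ℝ) * 1)) ≤
        l * ∑ k ∈ range (2 * L), N (n + 1 + k) := by
      refine le_trans (le_of_eq ?_) (h1.trans h2)
      push_cast
      ring
    exact le_of_mul_le_mul_left h4 hl0
  have h4 := avg (range (2 * L)) (fun k => N (n + 1 + k)) 1 (c ^ 2 / 32) one_pos
    (fun k _ => hN1 _) (by positivity) h3
  rw [card_range, mul_one] at h4
  have e : c ^ 2 / 32 / 2 = c ^ 2 / 64 := by ring
  rw [e] at h4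
  exact h4

open Classical in
/-- From the points to the coefficients of `m ^ i h`. -/
theorem coeffs (d : ℕ) (c₁ : ℝ) (hd : 1 ≤ d) (hc : 0 < c₁) (hc1 : c₁ ≤ 1) :
    ∃ (Q₂ B₀ : ℕ), 1 ≤ Q₂ ∧ 1 ≤ B₀ ∧ ∀ (b L n : ℕ) (v v' : ℕ → ℕ → ℝ), B₀ ≤ b → B₀ ≤ L →
    c₁ * ((2 * L : ℕ) : ℝ) ≤
      (#((range (2 * L)).filter fun k => c₁ ≤ Kb d b v v' (n + 1 + k)) : ℝ) →
    ∀ i ≤ d, nd ((Q₂ : ℝ) * (v i 1 - v' i 1)) ≤
      ((d + 1) * 2 ^ d : ℝ) * ((n : ℝ) / L + 1) ^ d / (L : ℝ) ^ i := by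
  obtain ⟨q₁, B₁, hq₁, hB₁, hW⟩ := weyl1 d c₁ hc hc1
  obtain ⟨q₂, B₂, hq₂, hB₂, hR⟩ := rec0 d c₁ hc hc1
  refine ⟨q₂ * q₁, B₁ * B₂, Nat.mul_pos hq₂ hq₁, Nat.mul_pos hB₁ hB₂, ?_⟩
  intro b L n v v' hb hL hcount i hi
  have hB₁r : (1 : ℝ) ≤ B₁ := by exact_mod_cast hB₁
  have hB₂r : (1 : ℝ) ≤ B₂ := by exact_mod_cast hB₂
  have hbB : B₁ ≤ b := (Nat.le_mul_of_pos_right _ hB₂).trans hb
  have hLB : B₂ ≤ L := (Nat.le_mul_of_pos_left _ hB₁).trans hL
  have hbr : (B₁ : ℝ) * B₂ ≤ b := by exact_mod_cast hb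
  have hb0 : (0 : ℝ) < b := lt_of_lt_of_le (by positivity) hbr
  have hL1 : (1 : ℝ) ≤ L := by exact_mod_cast hB₂.trans hLB
  have hL0 : (0 : ℝ) < L := by linarith
  obtain ⟨Pw, hPw⟩ : ∃ Pw : ℝ[X], Pw = ∑ i ∈ range (d + 1),
      C ((q₁ : ℝ) * (v i 1 - v' i 1)) * X ^ i := ⟨_, rfl⟩
  have hPwc : ∀ j ≤ d, Pw.coeff j = (q₁ : ℝ) * (v j 1 - v' j 1) := by
    intro j hj
    rw [hPw, finsetSum_coeff]
    simp only [coeff_C_mul, coeff_X_pow]
    rw [sum_eq_single j]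
    · simp
    · intro k _ hk
      simp [hk.symm]
    · intro h
      exact absurd (mem_range.2 (by omega)) h
  have hPwd : Pw.natDegree ≤ d := by
    rw [hPw]
    refine natDegree_sum_le_of_forall_le _ _ fun j hj => ?_
    refine (natDegree_C_mul_X_pow_le _ _).trans ?_
    have := mem_range.1 hj
    omega
  have hPwe : ∀ u : ℝ, Pw.eval u = (q₁ : ℝ) * cj d v v' 1 u := by
    intro u
    rw [hPw, eval_finsetSum]
    unfold cj
    rw [mul_sum]
    refine sum_congr rfl fun j _ => ?_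
    simp only [eval_mul, eval_C, eval_pow, eval_X]
    ring
  obtain ⟨P, hP⟩ : ∃ P : ℝ[X], P = taylor ((n : ℝ) + 1) Pw := ⟨_, rfl⟩
  have hPd : P.natDegree ≤ d := by rw [hP, natDegree_taylor]; exact hPwd
  have hPe : ∀ k : ℕ, P.eval (k : ℝ) = (q₁ : ℝ) * cj d v v' 1 ((n + 1 + k : ℕ) : ℝ) := by
    intro k
    rw [hP, taylor_eval, hPwe]
    congr 2
    push_cast
    ring
  have hρ0 : (0 : ℝ) ≤ B₁ / b := by positivity
  have hρ1 : (B₁ : ℝ) / b ≤ 1 / B₂ := by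
    rw [div_le_div_iff₀ hb0 (by linarith)]
    linarith
  have hc' : c₁ * ((2 * L : ℕ) : ℝ) ≤
      (#((range (2 * L)).filter fun m : ℕ => nd (P.eval (m : ℝ)) ≤ B₁ / b) : ℝ) := by
    refine hcount.trans ?_
    have : (range (2 * L)).filter (fun k => c₁ ≤ Kb d b v v' (n + 1 + k)) ⊆
        (range (2 * L)).filter fun m : ℕ => nd (P.eval (m : ℝ)) ≤ B₁ / b := by
      intro k hk
      rw [mem_filter] at hk ⊢
      refine ⟨hk.1, ?_⟩
      have h1 := hk.2
      unfold Kb at h1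
      rw [le_div_iff₀ hb0] at h1
      have h2 : ∑ s ∈ range b, ee (vev d v ((n + 1 + k : ℕ) : ℝ) s -
          vev d v' ((n + 1 + k : ℕ) : ℝ) s) = ∑ m ∈ Ico 0 (b : ℤ),
          ee (∑ j : Fin (d + 1), (if (j : ℕ) = 0 then 0 else cj d v v' j ((n + 1 + k : ℕ) : ℝ)) *
            (m : ℝ) ^ (j : ℕ)) := by
        rw [sum_Ico_cast]
        refine sum_congr rfl fun s _ => ?_
        rw [vev_sub]
        simp
      rw [h2] at h1
      have h3 := hW b (fun j => if (j : ℕ) = 0 then 0 else cj d v v' j ((n + 1 + k : ℕ) : ℝ)) hbB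
        h1 ⟨1, by omega⟩ (by
          intro h
          have := congrArg Fin.val h
          simp at this)
      simp only [one_ne_zero, if_false, pow_one] at h3
      rw [hPe]
      exact h3
    exact_mod_cast card_le_card this
  have h1 := hR (2 * L) P (B₁ / b) (by omega) hPd hρ0 hρ1 hc'
  have h2 : ∀ j ≤ d, nd ((q₂ : ℝ) * P.coeff j) ≤ 1 / (L : ℝ) ^ j := by
    intro j hj
    refine (h1 j hj).trans ?_
    have h3 : (B₂ : ℝ) * (B₁ / b) ≤ 1 := by
      rw [mul_div_assoc', div_le_one hb0]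
      linarith
    have h4 : (L : ℝ) ^ j ≤ ((2 * L : ℕ) : ℝ) ^ j := by
      push_cast
      gcongr
      linarith
    gcongr
  have h3 : Pw.coeff i = ∑ k ∈ range (d + 1),
      P.coeff k * ((-((n : ℝ) + 1)) ^ (k - i) * (k.choose i : ℝ)) := by
    have h4 : Pw = P.comp (X + C (-((n : ℝ) + 1))) := by
      have : taylor (-((n : ℝ) + 1)) P = Pw := by
        rw [hP, taylor_taylor]
        simp
      rw [← this, taylor_apply]
    conv_lhs => rw [h4]
    exact coeff_shift_aux P d hPd _ i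
  have h4 : ((q₂ * q₁ : ℕ) : ℝ) * (v i 1 - v' i 1) = ∑ k ∈ range (d + 1),
      (((-((n : ℤ) + 1)) ^ (k - i) * (k.choose i : ℤ) : ℤ) : ℝ) * ((q₂ : ℝ) * P.coeff k) := by
    have h5 : ((q₂ * q₁ : ℕ) : ℝ) * (v i 1 - v' i 1) = (q₂ : ℝ) * Pw.coeff i := by
      rw [hPwc i hi]
      push_cast
      ring
    rw [h5, h3, mul_sum]
    refine sum_congr rfl fun k _ => ?_
    push_cast
    ring
  rw [h4]
  refine (TU.RF.nd_sum_le _ _).trans ?_
  have h5 : ((d + 1) * 2 ^ d : ℝ) * ((n : ℝ) / L + 1) ^ d / (L : ℝ) ^ i =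
      ∑ k ∈ range (d + 1), 2 ^ d * ((n : ℝ) / L + 1) ^ d / (L : ℝ) ^ i := by
    rw [sum_const, card_range, nsmul_eq_mul]
    push_cast
    ring
  rw [h5]
  refine sum_le_sum fun k hk => ?_
  have hk' : k ≤ d := by have := mem_range.1 hk; omega
  have hnL : 0 ≤ (n : ℝ) / L := by positivity
  rcases lt_or_ge k i with hki | hki
  · rw [Nat.choose_eq_zero_of_lt hki]
    simp only [Nat.cast_zero, mul_zero, Int.cast_zero, zero_mul]
    have : nd (0 : ℝ) = 0 := by simpa using nd_int 0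
    rw [this]
    positivity
  · refine (nd_int_mul_le _ _).trans ?_
    have h6 : |(((-((n : ℤ) + 1)) ^ (k - i) * (k.choose i : ℤ) : ℤ) : ℝ)| ≤
        ((n : ℝ) + 1) ^ (k - i) * 2 ^ d := by
      push_cast
      rw [abs_mul, abs_pow, abs_neg, abs_of_nonneg (by positivity : (0 : ℝ) ≤ (n : ℝ) + 1),
        abs_of_nonneg (by positivity : (0 : ℝ) ≤ (k.choose i : ℝ))]
      have h7 : (k.choose i : ℝ) ≤ 2 ^ d := by
        have h8 : k.choose i ≤ 2 ^ k := Nat.choose_le_two_pow k i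
        have h9 : 2 ^ k ≤ 2 ^ d := Nat.pow_le_pow_right (by norm_num) hk'
        exact_mod_cast h8.trans h9
      gcongr
    calc |(((-((n : ℤ) + 1)) ^ (k - i) * (k.choose i : ℤ) : ℤ) : ℝ)| * nd ((q₂ : ℝ) * P.coeff k)
        ≤ ((n : ℝ) + 1) ^ (k - i) * 2 ^ d * (1 / (L : ℝ) ^ k) :=
          mul_le_mul h6 (h2 k hk') (nd_nonneg _) (by positivity)
      _ = 2 ^ d * (((n : ℝ) + 1) / L) ^ (k - i) / (L : ℝ) ^ i := by
          have : k = (k - i) + i := by omega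
          conv_lhs => rw [this]
          rw [Nat.add_sub_cancel, pow_add, div_pow]
          field_simp
      _ ≤ 2 ^ d * ((n : ℝ) / L + 1) ^ d / (L : ℝ) ^ i := by
          have h8 : ((n : ℝ) + 1) / L ≤ (n : ℝ) / L + 1 := by
            rw [add_div]
            have : 1 / (L : ℝ) ≤ 1 := by rw [div_le_one hL0]; exact hL1
            linarith
          have h9 : (((n : ℝ) + 1) / L) ^ (k - i) ≤ ((n : ℝ) / L + 1) ^ d := by
            calc (((n : ℝ) + 1) / L) ^ (k - i) ≤ ((n : ℝ) / L + 1) ^ (k - i) := by gcongr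
              _ ≤ ((n : ℝ) / L + 1) ^ d :=
                pow_le_pow_right₀ (by linarith) (by omega)
          gcongr

end FCx

open FCx

open Classical in
/-- **The relation between the coefficients of `m ^ i h`.** -/
theorem fcrel (d q : ℕ) (ηf : ℝ → ℝ) (c : ℝ) (hd : 1 ≤ d) (hq : 1 ≤ q)
    (hηf : ∀ ρ, 0 < ρ → 0 < ηf ρ) (hc : 0 < c) (hc1 : c ≤ 1) :
    ∃ (Q₂ l₀ : ℕ), 1 ≤ Q₂ ∧ ∀ (l L n : ℕ) (R : ℝ) (x x' : FD), l₀ ≤ l → l ≤ L →
    (L : ℝ) + 2 * l ≤ R → (∀ m, ‖x.1 m‖ ≤ 1) → (∀ m, ‖x'.1 m‖ ≤ 1) → LS q d ηf l R n x →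
    LS q d ηf l R n x' →
    c / 8 * L ≤ (#((Ico n (n + L)).filter fun m : ℕ => c ≤ Kg l m x.1 x'.1) : ℝ) →
    ∀ i ≤ d, nd ((Q₂ : ℝ) * (x.2 i 1 - x'.2 i 1)) ≤
      ((d + 1) * 2 ^ d : ℝ) * ((n : ℝ) / L + 1) ^ d / (L : ℝ) ^ i := by
  obtain ⟨c₁, hc₁⟩ : ∃ c₁ : ℝ, c₁ = c ^ 2 / 64 := ⟨_, rfl⟩
  have hc₁0 : 0 < c₁ := by rw [hc₁]; positivity
  have hc₁1 : c₁ ≤ 1 := by
    rw [hc₁, div_le_one (by norm_num)]
    nlinarith
  obtain ⟨Q₂, B₀, hQ₂, hB₀, hC⟩ := coeffs d c₁ hd hc₁0 hc₁1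
  obtain ⟨ρ, hρ⟩ : ∃ ρ : ℝ, ρ = c / 8 := ⟨_, rfl⟩
  have hρ0 : 0 < ρ := by rw [hρ]; positivity
  obtain ⟨η, hη⟩ : ∃ η : ℝ, η = min (ηf ρ) (c / 8) := ⟨_, rfl⟩
  have hη0 : 0 < η := by rw [hη]; exact lt_min (hηf ρ hρ0) (by positivity)
  have hη1 : η ≤ ηf ρ := by rw [hη]; exact min_le_left _ _
  have hη2 : η ≤ c / 8 := by rw [hη]; exact min_le_right _ _
  have hq0 : (0 : ℝ) < q := by exact_mod_cast hq
  refine ⟨Q₂, ⌈(q : ℝ) * (B₀ + 1) / η⌉₊ + B₀ + 1, hQ₂, ?_⟩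
  intro l L n R x x' hl hlL hR hx hx' ls ls' hcount
  obtain ⟨b, hb⟩ : ∃ b : ℕ, b = ⌊η * l / q⌋₊ := ⟨_, rfl⟩
  have hl1 : 1 ≤ l := by omega
  have hl0 : (0 : ℝ) < l := by exact_mod_cast hl1
  have hlb : (q : ℝ) * (B₀ + 1) / η ≤ l := by
    refine (Nat.le_ceil _).trans ?_
    exact_mod_cast (by omega : ⌈(q : ℝ) * (B₀ + 1) / η⌉₊ ≤ l)
  have hbB : B₀ ≤ b := by
    rw [hb]
    refine Nat.le_floor ?_
    rw [le_div_iff₀ hq0]
    rw [div_le_iff₀ hη0] at hlb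
    linarith
  have hb1 : 1 ≤ b := hB₀.trans hbB
  have hqb : (q : ℝ) * b ≤ η * l := by
    have := Nat.floor_le (show 0 ≤ η * l / q by positivity)
    rw [← hb, le_div_iff₀ hq0] at this
    linarith
  have hqbl : q * b ≤ l := by
    have h1 : (q : ℝ) * b ≤ 1 * l := hqb.trans (by
      have : η ≤ 1 := by linarith
      gcongr)
    rw [one_mul] at h1
    exact_mod_cast h1
  obtain ⟨a, ha⟩ := ls
  obtain ⟨N, hN⟩ : ∃ N : ℕ → ℝ, N = fun u =>
      if u % q = a % q then Kb d b x.2 x'.2 u else 0 := ⟨_, rfl⟩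
  have hN0 : ∀ u, 0 ≤ N u := by
    intro u
    rw [hN]
    simp only
    split_ifs
    · exact Kb_nonneg _ _ _ _ _
    · exact le_rfl
  have hN1 : ∀ u, N u ≤ 1 := by
    intro u
    rw [hN]
    simp only
    split_ifs
    · exact Kb_le_one _ _ _ _ _
    · exact zero_le_one
  have hcnt := count l L n c hc hl1 hlL N hN0 hN1
    ((Ico n (n + L)).filter fun m : ℕ => c ≤ Kg l m x.1 x'.1) (filter_subset _ _) (by
      intro m hm
      rw [mem_filter, mem_Ico] at hm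
      have h1 := onewin (n := (n : ℝ)) hb1 hl1 hρ0 hx hx' ha ls' (by
        intro y hy s hs
        rw [mem_Icc] at hy
        have h2 : n ≤ m + y + q * s := by omega
        have h3 : m + y + q * s ≤ n + (L + 2 * l) := by
          have : q * s ≤ q * b := Nat.mul_le_mul_left _ hs.le
          omega
        have h2' : (n : ℝ) ≤ ((m + y + q * s : ℕ) : ℝ) := by exact_mod_cast h2
        have h3' : ((m + y + q * s : ℕ) : ℝ) ≤ n + (L + 2 * l) := by exact_mod_cast h3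
        exact ⟨h2', by linarith⟩) (hqb.trans (by gcongr)) (m := m)
      have h4 : c * l ≤ l * Kg l m x.1 x'.1 := by
        rw [mul_comm]
        exact mul_le_mul_of_nonneg_left hm.2 hl0.le
      have h5 : (q : ℝ) * b ≤ c / 8 * l := hqb.trans (by gcongr)
      rw [hN]
      rw [hρ] at h1
      linarith) hcount
  rw [← hc₁] at hcnt
  refine hC b L n x.2 x'.2 hbB (by omega) (hcnt.trans ?_)
  have : (range (2 * L)).filter (fun k => c₁ ≤ N (n + 1 + k)) ⊆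
      (range (2 * L)).filter fun k => c₁ ≤ Kb d b x.2 x'.2 (n + 1 + k) := by
    intro k hk
    rw [mem_filter] at hk ⊢
    refine ⟨hk.1, ?_⟩
    have h1 := hk.2
    rw [hN] at h1
    simp only at h1
    split_ifs at h1
    · exact h1
    · linarith
  exact_mod_cast card_le_card this

end

end Pool.Agent.NG
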