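import Pool.Agent.Lib.NG.FCRel
import Pool.Agent.Lib.VQ.WTop
import Pool.Agent.Lib.NV.Sup
import Pool.Agent.Lib.NV.SUBA
import Pool.Agent.Lib.NV.NSTEP

/-!
# Row FULLC (MP_663568_nt, NVG2), second part: the windows of functions with the local structure

If the coefficients of `m ^ i h`, `i ≥ 1`, of the local phases are near rationals, the linear
coefficient of the local phase changes slowly, and Theorem W applies.  (helper95)
-/

set_option autoImplicit false
open Finset MeasureTheory Polynomial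

namespace Pool.Agent.NG

open Pool.Agent.Lib.MP_663568_nt Pool.Agent.Lib.MP_663568_nt.Katai
  Pool.Agent.Lib.MP_663568_nt.Nul Pool.Agent.SV Pool.Agent.VQ Pool.Agent.NV

noncomputable section

namespace FCx

/-- The coefficient of `h ^ j` of the local phase at `m`. -/
def cc (d : ℕ) (v : ℕ → ℕ → ℝ) (j : ℕ) (m : ℝ) : ℝ := ∑ i ∈ range (d + 1), v i j * m ^ i

/-- The phase with the linear coefficient `lam`, on the scale of `y = q h`. -/
def base (d q : ℕ) (v : ℕ → ℕ → ℝ) (m lam y : ℝ) : ℝ :=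
  ∑ j ∈ Icc 2 d, cc d v j m / (q : ℝ) ^ j * y ^ j + lam / q * y

/-- The polynomial of the window of `m`. -/
def PolD (d q : ℕ) (v : ℕ → ℕ → ℝ) (m : ℕ) (lam : ℝ) (k : ℕ) : ℝ[X] :=
  ∑ j ∈ Icc 2 d, C (cc d v j m / (q : ℝ) ^ j) * (X - C (m : ℝ)) ^ j +
    C ((lam + k) / q) * (X - C (m : ℝ))

theorem pol_eval (d q : ℕ) (v : ℕ → ℕ → ℝ) (m : ℕ) (lam : ℝ) (k : ℕ) (y : ℝ) :
    (PolD d q v m lam k).eval ((m : ℝ) + y) = base d q v m lam y + (k : ℝ) * (y / q) := by
  unfold PolD base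
  rw [eval_add, eval_finsetSum]
  simp only [eval_mul, eval_C, eval_pow, eval_sub, eval_X, add_sub_cancel_left]
  ring

theorem pol_deg (d q : ℕ) (v : ℕ → ℕ → ℝ) (m : ℕ) (lam : ℝ) (k : ℕ) (hd : 1 ≤ d) :
    (PolD d q v m lam k).natDegree ≤ d := by
  unfold PolD
  refine (natDegree_add_le _ _).trans (max_le ?_ ?_)
  · refine natDegree_sum_le_of_forall_le _ _ fun j hj => ?_
    refine (natDegree_C_mul_le _ _).trans ?_
    refine natDegree_pow_le.trans ?_
    rw [natDegree_X_sub_C, mul_one]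
    exact (mem_Icc.1 hj).2
  · refine (natDegree_C_mul_le _ _).trans ?_
    rw [natDegree_X_sub_C]
    exact hd

theorem pol_der (d q : ℕ) (v : ℕ → ℕ → ℝ) (m : ℕ) (lam : ℝ) (k : ℕ) :
    (PolD d q v m lam k).derivative.eval (m : ℝ) = (lam + k) / q := by
  unfold PolD
  rw [derivative_add, derivative_sum, eval_add, eval_finsetSum]
  have h1 : ∑ j ∈ Icc 2 d, (derivative (C (cc d v j m / (q : ℝ) ^ j) *
      (X - C (m : ℝ)) ^ j)).eval (m : ℝ) = 0 := by
    refine sum_eq_zero fun j hj => ?_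
    have hj2 := (mem_Icc.1 hj).1
    rw [derivative_C_mul, derivative_X_sub_C_pow]
    simp only [eval_mul, eval_C, eval_pow, eval_sub, eval_X, sub_self]
    rw [zero_pow (by omega)]
    ring
  rw [h1, derivative_C_mul, derivative_X_sub_C]
  simp

theorem vev_eq (d : ℕ) (hd : 1 ≤ d) (v : ℕ → ℕ → ℝ) (m h : ℝ) :
    vev d v m h = cc d v 1 m * h + ∑ j ∈ Icc 2 d, cc d v j m * h ^ j := by
  have h1 : vev d v m h = ∑ j ∈ Icc 1 d, cc d v j m * h ^ j := by
    unfold vev cc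
    rw [sum_comm]
    exact sum_congr rfl fun j _ => by rw [sum_mul]
  have h2 : Icc 1 d = insert 1 (Icc 2 d) := by
    ext j
    simp only [mem_insert, mem_Icc]
    omega
  rw [h1, h2, sum_insert (by simp), pow_one]

/-- One window. -/
theorem windowW {d q l' m₁ r n a : ℕ} {x : FD} {ρ δ lam : ℝ} (hd : 1 ≤ d) (hq : 1 ≤ q)
    (hl : 1 ≤ l') (hn : m₁ = n + r) (hr : r < q) (hx : ∀ m, ‖x.1 m‖ ≤ 1) (hρ : 0 ≤ ρ)
    (hδ : 0 ≤ δ) (h1 : ∀ y ≤ l', (m₁ + y) % q ≠ a % q → x.1 (m₁ + y) = 0)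
    (h2 : m₁ % q = a % q)
    (h3 : ∀ h : ℕ, q * h ≤ l' → ‖x.1 (m₁ + q * h) - ee (vev d x.2 m₁ h) * x.1 m₁‖ ≤ ρ)
    (h4 : ∃ z : ℤ, |cc d x.2 1 m₁ - lam - z| ≤ δ) :
    Wg l' n x.1 ≤ ∑ k ∈ range q, Wp l' m₁ (PolD d q x.2 m₁ lam k) +
      (ρ + 2 * Real.pi * (δ * l') + 2 * q / l') := by
  obtain ⟨z, hz⟩ := h4
  have hl0 : (0 : ℝ) < l' := by exact_mod_cast hl
  have hq0 : (0 : ℝ) < q := by exact_mod_cast hq
  have hqC : (q : ℂ) ≠ 0 := by
    have : q ≠ 0 := by omega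
    exact_mod_cast this
  have hmu : ∀ k : ℕ, ‖muC k‖ ≤ 1 := norm_muC
  obtain ⟨T, hT⟩ : ∃ T : ℕ → ℂ, T = fun y => muC (m₁ + y) * x.1 (m₁ + y) := ⟨_, rfl⟩
  have hT1 : ∀ y, ‖T y‖ ≤ 1 := by
    intro y
    rw [hT]
    simp only [norm_mul]
    exact mul_le_one₀ (hmu _) (norm_nonneg _) (hx _)
  -- the shift
  have e1 : Wg l' n x.1 ≤ ‖∑ y ∈ Icc 1 l', T y‖ / l' + 2 * q / l' := by
    have g1 : ∑ y ∈ Icc 1 l', T y = ∑ y ∈ Icc 1 l', muC (n + (y + r)) * x.1 (n + (y + r)) := by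
      rw [hT]
      refine sum_congr rfl fun y _ => ?_
      have : m₁ + y = n + (y + r) := by omega
      simp only
      rw [this]
    have g2 := TU.RF.shift1 (fun y => muC (n + y) * x.1 (n + y)) (fun y => by
      simp only [norm_mul]
      exact mul_le_one₀ (hmu _) (norm_nonneg _) (hx _)) l' r
    have g3 := norm_sub_norm_le (∑ y ∈ Icc 1 l', muC (n + y) * x.1 (n + y))
      (∑ y ∈ Icc 1 l', muC (n + (y + r)) * x.1 (n + (y + r)))
    rw [norm_sub_rev] at g3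
    have g4 : (r : ℝ) ≤ q := by exact_mod_cast hr.le
    unfold Wg
    rw [g1, ← add_div]
    gcongr
    linarith
  -- the replacement
  obtain ⟨S, hS⟩ : ∃ S : ℕ → ℂ, S = fun y => x.1 m₁ * ((1 / (q : ℂ)) * ∑ k ∈ range q,
      muC (m₁ + y) * ee ((PolD d q x.2 m₁ lam k).eval ((m₁ : ℝ) + y))) := ⟨_, rfl⟩
  have hSy : ∀ y : ℕ, S y = x.1 m₁ * (muC (m₁ + y) * ee (base d q x.2 m₁ lam y) *
      (if q ∣ y then 1 else 0)) := by
    intro y
    rw [hS]
    simp only
    have g1 : ∑ k ∈ range q, muC (m₁ + y) * ee ((PolD d q x.2 m₁ lam k).eval ((m₁ : ℝ) + y)) =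
        muC (m₁ + y) * ee (base d q x.2 m₁ lam y) *
          ∑ k ∈ range q, ee ((k : ℝ) * (((y : ℤ) : ℝ) / q)) := by
      rw [mul_sum]
      refine sum_congr rfl fun k _ => ?_
      rw [pol_eval, ee_add, Int.cast_natCast]
      ring
    rw [g1, TU.RF.orth q hq]
    have g2 : ((q : ℤ) ∣ (y : ℤ)) ↔ q ∣ y := Int.natCast_dvd_natCast
    simp only [g2]
    split_ifs
    · field_simp
    · ring
  have e2 : ∀ y ∈ Icc 1 l', ‖T y - S y‖ ≤ ρ + 2 * Real.pi * (δ * l') := by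
    intro y hy
    rw [mem_Icc] at hy
    have hpi := Real.pi_pos
    rw [hSy]
    by_cases hqy : q ∣ y
    · rw [if_pos hqy, hT]
      obtain ⟨h, rfl⟩ := hqy
      have g1 : vev d x.2 m₁ h - base d q x.2 m₁ lam ((q * h : ℕ) : ℝ) =
          (cc d x.2 1 m₁ - lam) * h := by
        rw [vev_eq d hd]
        unfold base
        have : ∑ j ∈ Icc 2 d, cc d x.2 j m₁ / (q : ℝ) ^ j * ((q * h : ℕ) : ℝ) ^ j =
            ∑ j ∈ Icc 2 d, cc d x.2 j m₁ * (h : ℝ) ^ j := by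
          refine sum_congr rfl fun j _ => ?_
          push_cast
          rw [mul_pow]
          field_simp
        rw [this]
        push_cast
        field_simp
        ring
      have g2 : ee (vev d x.2 m₁ h) = ee (base d q x.2 m₁ lam ((q * h : ℕ) : ℝ) +
          (cc d x.2 1 m₁ - lam - z) * h) := by
        have : vev d x.2 m₁ h = (base d q x.2 m₁ lam ((q * h : ℕ) : ℝ) +
          (cc d x.2 1 m₁ - lam - z) * h) + ((z * h : ℤ) : ℝ) := by
          have g1' := g1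
          push_cast at g1' ⊢
          linarith
        rw [this, ee_add _ ((z * h : ℤ) : ℝ), ee_int, mul_one]
      have g3 := h3 h hy.2
      have hhl : (h : ℝ) ≤ l' := by
        have : h ≤ q * h := Nat.le_mul_of_pos_left _ hq
        exact_mod_cast this.trans hy.2
      have g4 : ‖ee (vev d x.2 m₁ h) - ee (base d q x.2 m₁ lam ((q * h : ℕ) : ℝ))‖ ≤
          2 * Real.pi * (δ * l') := by
        rw [g2]
        refine (norm_ee_sub_ee_le _ _).trans ?_
        rw [add_sub_cancel_left, abs_mul, abs_of_nonneg (Nat.cast_nonneg h : (0 : ℝ) ≤ h)]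
        have : |cc d x.2 1 m₁ - lam - z| * (h : ℝ) ≤ δ * l' := by gcongr
        gcongr
      have g5 : muC (m₁ + q * h) * x.1 (m₁ + q * h) - x.1 m₁ * (muC (m₁ + q * h) *
          ee (base d q x.2 m₁ lam ((q * h : ℕ) : ℝ)) * 1) = muC (m₁ + q * h) *
          ((x.1 (m₁ + q * h) - ee (vev d x.2 m₁ h) * x.1 m₁) +
            (ee (vev d x.2 m₁ h) - ee (base d q x.2 m₁ lam ((q * h : ℕ) : ℝ))) * x.1 m₁) := by
        ring
      simp only
      rw [g5, norm_mul]
      refine (mul_le_of_le_one_left (norm_nonneg _) (hmu _)).trans ?_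
      refine (norm_add_le _ _).trans (add_le_add g3 ?_)
      rw [norm_mul]
      exact (mul_le_of_le_one_right (norm_nonneg _) (hx _)).trans g4
    · rw [if_neg hqy, hT]
      have g1 : (m₁ + y) % q ≠ a % q := by
        rw [← h2]
        intro g
        apply hqy
        have g2 : (m₁ + y) ≡ m₁ [MOD q] := g
        have g3 : m₁ + y ≡ m₁ + 0 [MOD q] := by simpa using g2
        have g4 := Nat.ModEq.add_left_cancel' m₁ g3
        exact (Nat.modEq_zero_iff_dvd).1 g4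
      simp only [h1 y hy.2 g1]
      simp only [mul_zero, sub_zero, norm_zero]
      positivity
  have e3 : ‖∑ y ∈ Icc 1 l', S y‖ ≤ l' * ∑ k ∈ range q, Wp l' m₁ (PolD d q x.2 m₁ lam k) := by
    have g1 : ∑ y ∈ Icc 1 l', S y = x.1 m₁ * ((1 / (q : ℂ)) * ∑ k ∈ range q,
        ∑ y ∈ Icc 1 l', muC (m₁ + y) * ee ((PolD d q x.2 m₁ lam k).eval ((m₁ : ℝ) + y))) := by
      rw [hS, ← mul_sum, ← mul_sum, sum_comm]
    rw [g1, norm_mul, norm_mul]
    have g2 : ‖(1 / (q : ℂ))‖ ≤ 1 := by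
      rw [norm_div, norm_one, Complex.norm_natCast, div_le_one hq0]
      exact_mod_cast hq
    have g3 : ‖∑ k ∈ range q, ∑ y ∈ Icc 1 l', muC (m₁ + y) *
        ee ((PolD d q x.2 m₁ lam k).eval ((m₁ : ℝ) + y))‖ ≤
        l' * ∑ k ∈ range q, Wp l' m₁ (PolD d q x.2 m₁ lam k) := by
      refine (norm_sum_le _ _).trans (le_of_eq ?_)
      rw [mul_sum]
      refine sum_congr rfl fun k _ => ?_
      unfold Wp
      rw [mul_div_cancel₀ _ hl0.ne']
    refine (mul_le_of_le_one_left (by positivity) (hx _)).trans ?_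
    exact (mul_le_of_le_one_left (norm_nonneg _) g2).trans g3
  have e4 : ‖∑ y ∈ Icc 1 l', T y‖ ≤ l' * ∑ k ∈ range q, Wp l' m₁ (PolD d q x.2 m₁ lam k) +
      l' * (ρ + 2 * Real.pi * (δ * l')) := by
    have g1 : ∑ y ∈ Icc 1 l', T y = ∑ y ∈ Icc 1 l', S y + ∑ y ∈ Icc 1 l', (T y - S y) := by
      rw [sum_sub_distrib]; ring
    rw [g1]
    refine (norm_add_le _ _).trans (add_le_add e3 ?_)
    refine (norm_sum_le _ _).trans ((sum_le_sum e2).trans (le_of_eq ?_))
    rw [sum_const, Nat.card_Icc, nsmul_eq_mul, Nat.add_sub_cancel]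
  have e5 : ‖∑ y ∈ Icc 1 l', T y‖ / l' ≤ ∑ k ∈ range q, Wp l' m₁ (PolD d q x.2 m₁ lam k) +
      (ρ + 2 * Real.pi * (δ * l')) := by
    rw [div_le_iff₀ hl0]
    linarith
  linarith

/-- The prescribed linear coefficient. -/
def lamD (d Q₁ b : ℕ) (v : ℕ → ℕ → ℝ) (u : ℝ) : ℝ := v 0 1 + ∑ i ∈ Icc 1 d,
  ((round ((Q₁ : ℝ) * v i 1) : ℝ) / Q₁ * (b : ℝ) ^ i +
    (v i 1 - (round ((Q₁ : ℝ) * v i 1) : ℝ) / Q₁) * u ^ i)

theorem lam_near (d Q₁ m b : ℕ) (v : ℕ → ℕ → ℝ) (u : ℝ) (hQ : 1 ≤ Q₁)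
    (hb : (Q₁ : ℤ) ∣ (m : ℤ) - b) :
    ∃ z : ℤ, |cc d v 1 m - lamD d Q₁ b v u - z| ≤
      ∑ i ∈ Icc 1 d, |v i 1 - (round ((Q₁ : ℝ) * v i 1) : ℝ) / Q₁| * |(m : ℝ) ^ i - u ^ i| := by
  have hQ0 : (Q₁ : ℝ) ≠ 0 := by positivity
  refine ⟨∑ i ∈ Icc 1 d, round ((Q₁ : ℝ) * v i 1) * (((m : ℤ) ^ i - (b : ℤ) ^ i) / Q₁), ?_⟩
  have h1 : cc d v 1 m = v 0 1 + ∑ i ∈ Icc 1 d, v i 1 * (m : ℝ) ^ i := by
    unfold cc
    have : range (d + 1) = insert 0 (Icc 1 d) := by
      ext j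
      simp only [mem_range, mem_insert, mem_Icc]
      omega
    rw [this, sum_insert (by simp), pow_zero, mul_one]
  have h2 : cc d v 1 m - lamD d Q₁ b v u - ((∑ i ∈ Icc 1 d, round ((Q₁ : ℝ) * v i 1) *
      (((m : ℤ) ^ i - (b : ℤ) ^ i) / Q₁) : ℤ) : ℝ) =
      ∑ i ∈ Icc 1 d, (v i 1 - (round ((Q₁ : ℝ) * v i 1) : ℝ) / Q₁) * ((m : ℝ) ^ i - u ^ i) := by
    rw [h1]
    unfold lamD
    rw [Int.cast_sum, add_sub_add_left_eq_sub, ← sum_sub_distrib, ← sum_sub_distrib]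
    refine sum_congr rfl fun i _ => ?_
    have hdvd : (Q₁ : ℤ) ∣ (m : ℤ) ^ i - (b : ℤ) ^ i := hb.trans (sub_dvd_pow_sub_pow _ _ i)
    rw [Int.cast_mul, Int.cast_div hdvd (by exact_mod_cast hQ0)]
    push_cast
    field_simp
    ring
  rw [h2]
  refine (abs_sum_le_sum_abs _ _).trans (le_of_eq ?_)
  exact sum_congr rfl fun i _ => abs_mul _ _

/-! ### Slow families -/

theorem slow_pair {α β : Type} {X : ℕ → α} {Y : ℕ → β} {K₁ K₂ : ℝ} (hX : SlowA X K₁)
    (hY : SlowA Y K₂) : SlowA (fun n => (X n, Y n)) (K₁ + K₂) := by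
  classical
  intro j
  have h1 : ((Ico (2 ^ j) (2 ^ (j + 1))).filter fun n => (X (n + 1), Y (n + 1)) ≠ (X n, Y n)) ⊆
      ((Ico (2 ^ j) (2 ^ (j + 1))).filter fun n => X (n + 1) ≠ X n) ∪
      ((Ico (2 ^ j) (2 ^ (j + 1))).filter fun n => Y (n + 1) ≠ Y n) := by
    intro n hn
    rw [mem_union, mem_filter, mem_filter]
    rw [mem_filter] at hn
    by_contra h
    rw [not_or, not_and, not_and, not_not, not_not] at h
    exact hn.2 (Prod.ext (h.1 hn.1) (h.2 hn.1))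
  have h2 := (card_le_card h1).trans (card_union_le _ _)
  have h3 := hX j
  have h4 := hY j
  have h5 : ((#((Ico (2 ^ j) (2 ^ (j + 1))).filter fun n =>
      (X (n + 1), Y (n + 1)) ≠ (X n, Y n)) : ℕ) : ℝ) ≤
      #((Ico (2 ^ j) (2 ^ (j + 1))).filter fun n => X (n + 1) ≠ X n) +
      #((Ico (2 ^ j) (2 ^ (j + 1))).filter fun n => Y (n + 1) ≠ Y n) := by exact_mod_cast h2
  simp only at h3 h4 ⊢
  convert h5.trans (add_le_add (by convert h3) (by convert h4))

theorem slow_shift {α : Type} {X : ℕ → α} {K : ℝ} (hX : SlowA X K) (r : ℕ) :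
    SlowA (fun n => X (n - r)) (2 * K + 2 * r) := by
  classical
  intro j
  have hK : 0 ≤ K := SUBAx.slow_nonneg hX
  have hr0 : (0 : ℝ) ≤ r := Nat.cast_nonneg r
  simp only
  by_cases hr : 2 ^ j < 2 * r
  · have h1 : #((Ico (2 ^ j) (2 ^ (j + 1))).filter fun n => X (n + 1 - r) ≠ X (n - r)) ≤
        2 * r := by
      refine (card_filter_le _ _).trans ?_
      rw [Nat.card_Ico, pow_succ]
      omega
    have h2 : ((#((Ico (2 ^ j) (2 ^ (j + 1))).filter fun n => X (n + 1 - r) ≠ X (n - r)) : ℕ) : ℝ)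
        ≤ 2 * r := by exact_mod_cast h1
    have h3 : ((#((Ico (2 ^ j) (2 ^ (j + 1))).filter fun n => X (n + 1 - r) ≠ X (n - r)) : ℕ) : ℝ)
        ≤ 2 * K + 2 * r := by linarith
    convert h3
  · obtain _ | j := j
    · -- the block `{1}`
      have hr' : r = 0 := by
        rw [pow_zero] at hr
        omega
      subst hr'
      have h3 := hX 0
      simp only [Nat.sub_zero]
      refine le_trans (le_of_eq ?_) (h3.trans (by linarith))
      congr
    · have h1 : #((Ico (2 ^ (j + 1)) (2 ^ (j + 1 + 1))).filter fun n =>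
          X (n + 1 - r) ≠ X (n - r)) ≤
          #(((Ico (2 ^ j) (2 ^ (j + 1))).filter fun n => X (n + 1) ≠ X n) ∪
            ((Ico (2 ^ (j + 1)) (2 ^ (j + 1 + 1))).filter fun n => X (n + 1) ≠ X n)) := by
        refine card_le_card_of_injOn (fun n => n - r) ?_ (fun a ha b hb h => by
          simp only [coe_filter, mem_Ico, Set.mem_ofPred_eq] at ha hb
          simp only at h
          omega)
        intro n hn
        simp only [coe_filter, mem_Ico, Set.mem_ofPred_eq] at hn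
        simp only [coe_union, Set.mem_union, coe_filter, mem_Ico, Set.mem_ofPred_eq]
        have h3 := pow_succ 2 j
        have h4 := pow_succ 2 (j + 1)
        have h2 : n - r + 1 = n + 1 - r := by omega
        rw [h2]
        by_cases h5 : n - r < 2 ^ (j + 1)
        · left
          exact ⟨⟨by omega, h5⟩, hn.2⟩
        · right
          exact ⟨⟨by omega, by omega⟩, hn.2⟩
      have h2 := h1.trans (card_union_le _ _)
      have h3 := hX j
      have h4 := hX (j + 1)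
      have h5 : ((#((Ico (2 ^ (j + 1)) (2 ^ (j + 1 + 1))).filter fun n =>
          X (n + 1 - r) ≠ X (n - r)) : ℕ) : ℝ)
          ≤ #((Ico (2 ^ j) (2 ^ (j + 1))).filter fun n => X (n + 1) ≠ X n) +
            #((Ico (2 ^ (j + 1)) (2 ^ (j + 1 + 1))).filter fun n => X (n + 1) ≠ X n) := by
        exact_mod_cast h2
      have h6 : ((#((Ico (2 ^ (j + 1)) (2 ^ (j + 1 + 1))).filter fun n =>
          X (n + 1 - r) ≠ X (n - r)) : ℕ) : ℝ) ≤ K + K :=
        h5.trans (add_le_add (by convert h3) (by convert h4))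
      have h7 : ((#((Ico (2 ^ (j + 1)) (2 ^ (j + 1 + 1))).filter fun n =>
          X (n + 1 - r) ≠ X (n - r)) : ℕ) : ℝ) ≤ 2 * K + 2 * r := by linarith
      convert h7

theorem slow_mono {f : ℕ → ℕ} {K : ℝ} (hf : Monotone f)
    (h : ∀ j : ℕ, (f (2 ^ (j + 1)) : ℝ) ≤ f (2 ^ j) + K) : SlowA f K := by
  classical
  intro j
  have h1 : ∀ b a : ℕ, a ≤ b → #((Ico a b).filter fun n => f (n + 1) ≠ f n) ≤ f b - f a := by
    intro b a hab
    induction b, hab using Nat.le_induction with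
    | base => simp
    | succ b hab ih =>
      have e : Ico a (b + 1) = insert b (Ico a b) := by
        ext x
        simp only [mem_insert, mem_Ico]
        omega
      rw [e, filter_insert]
      have g1 := hf hab
      have g2 := hf (Nat.le_succ b)
      simp only [Nat.succ_eq_add_one] at g2
      split_ifs with g3
      · rw [card_insert_of_notMem (by simp)]
        omega
      · omega
  have h2 := h1 (2 ^ (j + 1)) (2 ^ j) (Nat.pow_le_pow_right (by norm_num) (Nat.le_succ j))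
  have h3 := hf (Nat.pow_le_pow_right (show 0 < 2 by norm_num) (Nat.le_succ j))
  simp only [Nat.succ_eq_add_one] at h3
  have h4 := h j
  have h5 : ((#((Ico (2 ^ j) (2 ^ (j + 1))).filter fun n => f (n + 1) ≠ f n) : ℕ) : ℝ) ≤
      ((f (2 ^ (j + 1)) - f (2 ^ j) : ℕ) : ℝ) := by exact_mod_cast h2
  rw [Nat.cast_sub h3] at h5
  have h6 : ((#((Ico (2 ^ j) (2 ^ (j + 1))).filter fun n => f (n + 1) ≠ f n) : ℕ) : ℝ) ≤ K := by
    linarith
  convert h6

/-- The number of the cell. -/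
def cI (K m : ℕ) : ℕ := ⌊(K : ℝ) * Real.log m⌋₊

theorem slow_cI (K : ℕ) : SlowA (cI K) ((K : ℝ) + 1) := by
  have hK0 : (0 : ℝ) ≤ K := Nat.cast_nonneg K
  refine slow_mono ?_ ?_
  · intro a b hab
    unfold cI
    refine Nat.floor_mono ?_
    rcases Nat.eq_zero_or_pos a with h | h
    · rw [h]
      simp only [Nat.cast_zero, Real.log_zero, mul_zero]
      have := Real.log_natCast_nonneg b
      positivity
    · have h1 : (0 : ℝ) < a := by exact_mod_cast h
      have h2 : (a : ℝ) ≤ b := by exact_mod_cast hab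
      have h3 := Real.log_le_log h1 h2
      gcongr
  · intro j
    unfold cI
    push_cast
    rw [Real.log_pow, Real.log_pow]
    have h2 : Real.log 2 ≤ 1 := by
      have := Real.log_two_lt_d9
      linarith
    have h3 : 0 ≤ Real.log 2 := Real.log_nonneg (by norm_num)
    have h4 := Nat.floor_le (show 0 ≤ (K : ℝ) * (((j + 1 : ℕ) : ℝ) * Real.log 2) by positivity)
    have h5 := Nat.lt_floor_add_one ((K : ℝ) * ((j : ℝ) * Real.log 2))
    have h6 : (K : ℝ) * (((j + 1 : ℕ) : ℝ) * Real.log 2) =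
        (K : ℝ) * ((j : ℝ) * Real.log 2) + K * Real.log 2 := by
      push_cast
      ring
    have h7 : (K : ℝ) * Real.log 2 ≤ K := mul_le_of_le_one_right hK0 h2
    linarith

/-- The powers of the centre. -/
theorem cI_pow (K m i d : ℕ) (hK : 1 ≤ K) (hm : 1 ≤ m) (hi : i ≤ d) :
    |(m : ℝ) ^ i - (Real.exp ((cI K m : ℝ) / K)) ^ i| ≤ (m : ℝ) ^ i * (d / K) := by
  have hK0 : (0 : ℝ) < K := by exact_mod_cast hK
  have hm0 : (0 : ℝ) < m := by exact_mod_cast hm
  have hlog := Real.log_natCast_nonneg m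
  have h1 := Nat.floor_le (show 0 ≤ (K : ℝ) * Real.log m by positivity)
  have h2 := Nat.lt_floor_add_one ((K : ℝ) * Real.log m)
  obtain ⟨t, ht⟩ : ∃ t : ℝ, t = Real.log m - (cI K m : ℝ) / K := ⟨_, rfl⟩
  have ht0 : 0 ≤ t := by
    rw [ht, sub_nonneg, div_le_iff₀ hK0]
    unfold cI
    linarith
  have ht1 : t ≤ 1 / K := by
    rw [ht, sub_le_iff_le_add, ← add_div, le_div_iff₀ hK0]
    unfold cI
    linarith
  have h3 : Real.exp ((cI K m : ℝ) / K) = m * Real.exp (-t) := by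
    have : (cI K m : ℝ) / K = Real.log m + -t := by rw [ht]; ring
    rw [this, Real.exp_add, Real.exp_log hm0]
  have h4 : (Real.exp ((cI K m : ℝ) / K)) ^ i = (m : ℝ) ^ i * Real.exp (-(i * t)) := by
    rw [h3, mul_pow, ← Real.exp_nat_mul]
    congr 2
    ring
  have h5 : (m : ℝ) ^ i - (Real.exp ((cI K m : ℝ) / K)) ^ i =
      (m : ℝ) ^ i * (1 - Real.exp (-(i * t))) := by rw [h4]; ring
  have hi0 : (0 : ℝ) ≤ i := Nat.cast_nonneg i
  have hid : (i : ℝ) ≤ d := by exact_mod_cast hi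
  have h6 : 0 ≤ 1 - Real.exp (-(i * t)) := by
    have : Real.exp (-(i * t)) ≤ 1 := Real.exp_le_one_iff.2 (by
      have : 0 ≤ (i : ℝ) * t := by positivity
      linarith)
    linarith
  rw [h5, abs_mul, abs_of_nonneg h6, abs_of_nonneg (by positivity : (0 : ℝ) ≤ (m : ℝ) ^ i)]
  have h7 := Real.add_one_le_exp (-(i * t))
  have h8 : (i : ℝ) * t ≤ d / K := by
    calc (i : ℝ) * t ≤ d * (1 / K) := by gcongr
      _ = d / K := by ring
  have h9 : 1 - Real.exp (-(i * t)) ≤ d / K := by linarith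
  gcongr

/-- The sum over the shifted base points. -/
theorem shift_sum (g : ℕ → ℝ) (hg : ∀ n, 0 ≤ g n) (a b b' r : ℕ) (h : r ≤ a) (hb : b + r ≤ b') :
    ∑ n ∈ Ioc a b, (1 / (n : ℝ)) * g (n + r) ≤ 2 * ∑ m ∈ Ioc a b', (1 / (m : ℝ)) * g m := by
  have h1 : ∀ n ∈ Ioc a b, (1 / (n : ℝ)) * g (n + r) ≤
      (fun m : ℕ => 2 * ((1 / (m : ℝ)) * g m)) (n + r) := by
    intro n hn
    rw [mem_Ioc] at hn
    simp only
    have h2 : (0 : ℝ) < n := by exact_mod_cast (by omega : 0 < n)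
    have h3 : ((n + r : ℕ) : ℝ) ≤ 2 * n := by
      have : n + r ≤ 2 * n := by omega
      exact_mod_cast this
    have h4 : (0 : ℝ) < ((n + r : ℕ) : ℝ) := by exact_mod_cast (by omega : 0 < n + r)
    have h5 := hg (n + r)
    have h6 : 1 / (n : ℝ) ≤ 2 * (1 / ((n + r : ℕ) : ℝ)) := by
      rw [mul_one_div, div_le_div_iff₀ h2 h4]
      linarith
    calc (1 / (n : ℝ)) * g (n + r) ≤ (2 * (1 / ((n + r : ℕ) : ℝ))) * g (n + r) := by gcongr
      _ = 2 * ((1 / ((n + r : ℕ) : ℝ)) * g (n + r)) := by ring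
  refine (sum_le_sum h1).trans ?_
  rw [SUBAx.Ioc_shift (fun m : ℕ => 2 * ((1 / (m : ℝ)) * g m)) a b r, mul_sum]
  refine sum_le_sum_of_subset_of_nonneg ?_ fun m _ _ =>
    mul_nonneg zero_le_two (mul_nonneg (by positivity) (hg m))
  intro n hn
  rw [mem_Ioc] at hn ⊢
  omega

end FCx

end

end Pool.Agent.NG
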