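import Mathlib
import Pool.Agent.Lib.NG.J

/-!
# JET (MP_663568_nt), row FG1: the factorisation of `g`  (helper32)
-/

set_option autoImplicit false
open Finset Topology

namespace Pool.Agent.NG

noncomputable section

open Amb Pool.Agent.Lib.MP_663568_nt Pool.Agent.Lib.MP_663568_nt.Katai
  Pool.Agent.Lib.MP_663568_nt.Nul Pool.Agent.SV Pool.Agent.VQ Pool.Agent.NV

namespace Fg

variable {U : Type} [Amb U]

theorem chr_one {H : Subgroup U} {χ : U → ℝ} (hmul : ∀ x ∈ H, ∀ y ∈ H, χ (x * y) = χ x + χ y) :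
    χ 1 = 0 := by
  have h := hmul 1 H.one_mem 1 H.one_mem
  rw [mul_one] at h
  linarith

theorem chr_inv {H : Subgroup U} {χ : U → ℝ} (hmul : ∀ x ∈ H, ∀ y ∈ H, χ (x * y) = χ x + χ y)
    (x : U) (hx : x ∈ H) : χ x⁻¹ = -χ x := by
  have h := hmul x hx x⁻¹ (H.inv_mem hx)
  rw [mul_inv_cancel, chr_one hmul] at h
  linarith

theorem pol_add (j : ℕ) (S T c : ℕ → ℝ) (h : ∀ i, S i + T i = c i) (m : ℤ) :
    pol j S m + pol j T m = pol j c m := by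
  unfold pol
  rw [← Finset.sum_add_distrib]
  exact Finset.sum_congr rfl fun i _ => by rw [← h i]; ring

end Fg

open Fg in
/-- **row FG1** -/
theorem fg1 : FG1_stmt := by
  intro hP hC hK hL hB hN hSg hD _ hSp U _ Gf d J χ E Q hG hJ hχ hχJ hE hQ
  have hle : ∀ i, Gf i ≤ Gf 0 := fun i => antitone_nat_of_succ_le hG.anti (Nat.zero_le i)
  have hker : ∀ x, x ∈ kerS (Gf 0) χ ↔ x ∈ Gf 0 ∧ χ x = 0 :=
    (hK U (Gf 0) χ (hG.rat 0) hχ.mul hχ.int hχ.cont).1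
  have hJk : J ≤ kerS (Gf 0) χ := fun x hx => (hker x).2 ⟨hJ.le hx, hχJ x hx⟩
  refine ⟨⟨hJ.rat, fun x hx => ⟨hJ.le hx, hJk hx⟩, fun x hx => hJ.ge hx.1,
    fun x hx y hy => hJ.nrm x hx.1 y hy⟩, ?_⟩
  have hpw : ∀ x ∈ Gf 0, ∀ t : ℝ, χ (pw t x) = t * χ x :=
    hC U (Gf 0) χ (hG.rat 0).pwc hχ.mul hχ.cont
  obtain ⟨j, M, s, hj1, hjd, hM, ⟨hs0, hsj⟩, hvan, hs1, hsM⟩ := hL U Gf d (Gf 0) χ hG (hG.rat 0)
    (fun x hx y hy => (Gf 0).mul_mem ((Gf 0).mul_mem hx hy) ((Gf 0).inv_mem hx)) (hle _) le_rfl hχ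
  obtain ⟨E', hE', hsp⟩ := hSp d E Q hE hQ
  refine ⟨M, s, E', hM, hs0, hsM, hE', ?_⟩
  intro H g hH hg hNr
  obtain ⟨c, hc⟩ := hD U Gf j (Gf 0) χ g hχ.mul hvan (fun l n => ⟨hle _ (hg l n), hg l n⟩)
  have hNr' : NrZ 1 d E Q (2 * H) (pol j c) := by
    have e : (fun y : ℤ => χ (g y)) = pol j c := by
      funext y
      exact hc _
    rwa [e] at hNr
  obtain ⟨S, T, hST, hst⟩ := hsp H j c hH hjd hNr'
  obtain ⟨hBm, hBi, -⟩ := hB U ℤ Gf d hG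
  have hPS : PS Gf 0 fun m : ℤ => pw (pol j S m) s := hSg U Gf d j s S hG hjd hsj
  have hPT : PS Gf 0 fun m : ℤ => pw (pol j T m) s := hSg U Gf d j s T hG hjd hsj
  have hsp' : ∀ t : ℝ, pw t s ∈ Gf 0 := fun t => (hG.rat 0).pwc s hs0 t
  have hg0 : ∀ y, g y ∈ Gf 0 := fun y => hg [] y
  have hPg : PS Gf 0 fun y : ℤ => (pw (pol j S y) s)⁻¹ * g y * (pw (pol j T y) s)⁻¹ :=
    hBm 0 _ _ (hBm 0 _ _ (hBi 0 _ hPS) hg) (hBi 0 _ hPT)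
  have hval : ∀ y : ℤ, (pw (pol j S y) s)⁻¹ * g y * (pw (pol j T y) s)⁻¹ ∈ kerS (Gf 0) χ := by
    intro y
    have h1 := (Gf 0).mul_mem ((Gf 0).inv_mem (hsp' (pol j S y))) (hg0 y)
    refine (hker _).2 ⟨(Gf 0).mul_mem h1 ((Gf 0).inv_mem (hsp' _)), ?_⟩
    rw [hχ.mul _ h1 _ ((Gf 0).inv_mem (hsp' _)), hχ.mul _ ((Gf 0).inv_mem (hsp' _)) _ (hg0 y),
      chr_inv hχ.mul _ (hsp' _), chr_inv hχ.mul _ (hsp' _), hpw s hs0, hpw s hs0, hs1, hc y,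
      ← pol_add j S T c hST y]
    ring
  refine ⟨pol j S, pol j T, fun y => (pw (pol j S y) s)⁻¹ * g y * (pw (pol j T y) s)⁻¹, hst,
    ?_, fun y => by group, ?_⟩
  · intro l n
    obtain ⟨h1, h2⟩ := (((hN U ℤ Gf 0 _).2.1 (kerS (Gf 0) χ)).2 ⟨hPg, hval⟩) l n
    exact ⟨h2, h1⟩
  · intro n R hR
    obtain ⟨hRc, hR0, hR1⟩ := hR
    have hNR := (hN U ℤ Gf 0 R).2.1 J
    have hRG : PS Gf 0 R := (hNR.1 hRc).1
    have hRJ : ∀ h, R h ∈ J := (hNR.1 hRc).2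
    have hTn : PS Gf 0 fun h : ℤ => pw (pol j T (h + n)) s :=
      (hN U ℤ Gf 0 fun m : ℤ => pw (pol j T m) s).1 ℤ (AddMonoidHom.id ℤ) n hPT
    have hP1 : PS Gf 0 fun h : ℤ => pw (pol j T (h + n)) s * R h * (pw (pol j T (h + n)) s)⁻¹ :=
      hBm 0 _ _ (hBm 0 _ _ hTn hRG) (hBi 0 _ hTn)
    have hv : ∀ h : ℤ, pw (pol j T (h + n)) s * R h * (pw (pol j T (h + n)) s)⁻¹ ∈ J := fun h =>
      hJ.nrm _ (hsp' _) _ (hRJ h)
    refine ⟨?_, ?_, ?_⟩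
    · intro l m
      obtain ⟨h1, h2⟩ := (((hN U ℤ Gf 0 _).2.1 J).2 ⟨hP1, hv⟩) l m
      exact ⟨h1, h2, hJk h1⟩
    · show pw (pol j T (0 + n)) s * R 0 * (pw (pol j T (0 + n)) s)⁻¹ = 1
      rw [hR0]
      group
    · show pw (pol j T (1 + n)) s * R 1 * (pw (pol j T (1 + n)) s)⁻¹ = 1
      rw [hR1]
      group

end

end Pool.Agent.NG
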