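import Mathlib
import Pool.Agent.Lib.NG.J

/-!
# JET (MP_663568_nt), row FG2: on a short part of a class `F (g y R (y - n))` is
`F (κ g' y R' (y - n))` with `g'` in the kernel of `χ`  (helper13)
-/

set_option autoImplicit false
open Finset Topology

namespace Pool.Agent.NG

noncomputable section

open Amb Pool.Agent.Lib.MP_663568_nt Pool.Agent.Lib.MP_663568_nt.Katai
  Pool.Agent.Lib.MP_663568_nt.Nul Pool.Agent.SV Pool.Agent.VQ Pool.Agent.NV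

namespace Fg2

/-- A finite net of an interval. -/
theorem net (V τ : ℝ) (hτ : 0 < τ) :
    ∃ L : List ℝ, ∀ v : ℝ, |v| ≤ V → ∃ v' ∈ L, |v - v'| ≤ τ := by
  refine ⟨(List.range (2 * ⌈V / τ⌉₊ + 1)).map fun k : ℕ => τ * ((k : ℝ) - ⌈V / τ⌉₊), ?_⟩
  intro v hv
  obtain ⟨hv1, hv2⟩ := abs_le.1 hv
  have hN : V / τ ≤ (⌈V / τ⌉₊ : ℝ) := Nat.le_ceil _
  have h1 : v / τ ≤ V / τ := div_le_div_of_nonneg_right hv2 hτ.le
  have h2 : -(V / τ) ≤ v / τ := by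
    rw [← neg_div]
    exact div_le_div_of_nonneg_right hv1 hτ.le
  have h0 : 0 ≤ v / τ + ⌈V / τ⌉₊ := by linarith
  have hfl := Nat.floor_le h0
  have hfl' := Nat.lt_floor_add_one (v / τ + ⌈V / τ⌉₊)
  refine ⟨τ * ((⌊v / τ + ⌈V / τ⌉₊⌋₊ : ℝ) - ⌈V / τ⌉₊), ?_, ?_⟩
  · refine List.mem_map.2 ⟨⌊v / τ + ⌈V / τ⌉₊⌋₊, List.mem_range.2 ?_, rfl⟩
    have : ((⌊v / τ + ⌈V / τ⌉₊⌋₊ : ℕ) : ℝ) < ((2 * ⌈V / τ⌉₊ + 1 : ℕ) : ℝ) := by
      push_cast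
      linarith
    exact_mod_cast this
  · have h3 : v - τ * ((⌊v / τ + ⌈V / τ⌉₊⌋₊ : ℝ) - ⌈V / τ⌉₊) =
        τ * (v / τ + ⌈V / τ⌉₊ - ⌊v / τ + ⌈V / τ⌉₊⌋₊) := by
      field_simp
      ring
    rw [h3, abs_mul, abs_of_pos hτ]
    have h4 : |v / τ + ⌈V / τ⌉₊ - ⌊v / τ + ⌈V / τ⌉₊⌋₊| ≤ 1 := by
      rw [abs_le]
      constructor <;> linarith
    calc τ * |v / τ + ⌈V / τ⌉₊ - ⌊v / τ + ⌈V / τ⌉₊⌋₊| ≤ τ * 1 :=
          mul_le_mul_of_nonneg_left h4 hτ.le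
      _ = τ := mul_one _

variable {U : Type} [Amb U]

theorem chr_one {H : Subgroup U} {χ : U → ℝ}
    (hmul : ∀ x ∈ H, ∀ y ∈ H, χ (x * y) = χ x + χ y) : χ 1 = 0 := by
  have h := hmul 1 H.one_mem 1 H.one_mem
  rw [mul_one] at h
  linarith

/-- The elements of the kernel. -/
theorem mem_ker {H : Subgroup U} {χ : U → ℝ}
    (hmul : ∀ x ∈ H, ∀ y ∈ H, χ (x * y) = χ x + χ y) (x : U) :
    x ∈ kerS H χ ↔ x ∈ H ∧ χ x = 0 := by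
  constructor
  · intro hx
    induction hx using Subgroup.closure_induction with
    | mem x hx => exact hx
    | one => exact ⟨H.one_mem, chr_one hmul⟩
    | mul x y _ _ hx hy =>
      exact ⟨H.mul_mem hx.1 hy.1, by rw [hmul _ hx.1 _ hy.1, hx.2, hy.2, add_zero]⟩
    | inv x _ hx =>
      refine ⟨H.inv_mem hx.1, ?_⟩
      have h := hmul x hx.1 x⁻¹ (H.inv_mem hx.1)
      rw [mul_inv_cancel, chr_one hmul, hx.2] at h
      linarith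
  · intro hx
    exact Subgroup.subset_closure hx

end Fg2

open Fg2 in
/-- **row FG2** -/
theorem fg2 : FG2_stmt := by
  intro hF hP hB hN U _ Gf d J χ F E ε Q hG hJ hχ hχJ hFn hE hε hQ
  obtain ⟨hJk, M₀, s, E', hM, hs0, hsM, hE', hfac⟩ := hF U Gf d J χ E Q hG hJ hχ hχJ hE hQ
  obtain ⟨hP0, -, hPz, hPn, -, -, -, -⟩ := hP U
  have hle : ∀ i, Gf i ≤ Gf 0 := fun i => antitone_nat_of_succ_le hG.anti (Nat.zero_le i)
  have hker : ∀ x, x ∈ kerS (Gf 0) χ ↔ x ∈ Gf 0 ∧ χ x = 0 := mem_ker hχ.mul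
  have hpws : ∀ t : ℝ, pw t s ∈ Gf 0 := fun t => (hG.rat 0).pwc s hs0 t
  obtain ⟨ρ₁, hρ₁, huc⟩ := hFn.uc ε hε
  obtain ⟨C, hC, hnp⟩ := nm_pw ({s} : Set U) isCompact_singleton
  have hM' : (0 : ℝ) < M₀ := by exact_mod_cast hM
  have hQ' : (0 : ℝ) < Q := by exact_mod_cast hQ
  obtain ⟨τ, hτ, hsmall⟩ : ∃ τ : ℝ, 0 < τ ∧ ∀ t : ℝ, |t| ≤ τ → nm (pw t s) ≤ ρ₁ := by
    refine ⟨min 1 (ρ₁ / C), lt_min one_pos (div_pos hρ₁ hC), fun t ht => ?_⟩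
    have h1 := hnp s rfl t (ht.trans (min_le_left _ _))
    have h2 := ht.trans (min_le_right _ _)
    rw [le_div_iff₀ hC] at h2
    linarith
  obtain ⟨L, hL⟩ := net (E' + M₀) (τ / 2) (by positivity)
  refine ⟨M₀, s, E', τ / (2 * (E' + 1)), Q * M₀, 1, L.map fun v => pw v s, hM, hs0, hsM, hE',
    by positivity, Nat.mul_pos hQ hM, ?_, ?_⟩
  · intro κ hκ
    obtain ⟨v, -, rfl⟩ := List.mem_map.1 hκ
    exact hpws v
  intro H g hH hg hNr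
  obtain ⟨S, T, g₁, hST, hg₁, hgf, hRf⟩ := hfac H g hH hg hNr
  refine ⟨S, T, hST, ?_⟩
  intro s' t b ht hlen
  have hH' : (0 : ℝ) < H := by exact_mod_cast hH
  have hpce : ∀ y ∈ pce s' t (Q * M₀) b, s' ≤ y ∧ y < t ∧ y ≡ b [MOD (Q * M₀)] := by
    intro y hy
    obtain ⟨h1, h2⟩ := Finset.mem_filter.1 hy
    exact ⟨(Finset.mem_Ico.1 h1).1, (Finset.mem_Ico.1 h1).2, h2⟩
  -- the choice of `ρ` and of a base value
  obtain ⟨ρ, v₀, hρ, hρi, hρT, hv₀, hvS⟩ : ∃ ρ v₀ : ℝ, |ρ| ≤ M₀ ∧ (∃ i : ℤ, ρ = i / Q) ∧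
      (∀ y ∈ pce s' t (Q * M₀) b, ∃ i : ℤ, T (y : ℤ) - ρ = M₀ * i) ∧ |v₀| ≤ E' + M₀ ∧
      ∀ y ∈ pce s' t (Q * M₀) b, |S (y : ℤ) + ρ - v₀| ≤ τ / 2 := by
    rcases (pce s' t (Q * M₀) b).eq_empty_or_nonempty with he | ⟨y₀, hy₀⟩
    · refine ⟨0, 0, by simp, ⟨0, by simp⟩, ?_, by rw [abs_zero]; positivity, ?_⟩
      · intro y hy
        rw [he] at hy
        exact absurd hy (Finset.notMem_empty _)
      · intro y hy
        rw [he] at hy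
        exact absurd hy (Finset.notMem_empty _)
    · obtain ⟨ha0, hb0, hc0⟩ := hpce y₀ hy₀
      have hy0l : (0 : ℤ) ≤ (y₀ : ℤ) := Int.natCast_nonneg _
      have hy0u : (y₀ : ℤ) < 2 * H := by
        have : y₀ < 2 * H := lt_of_lt_of_le hb0 ht
        exact_mod_cast this
      obtain ⟨i₀, hi₀⟩ := hST.rat y₀
      have hρ0 : 0 ≤ T (y₀ : ℤ) - M₀ * ⌊T (y₀ : ℤ) / M₀⌋ := by
        have h := Int.floor_le (T (y₀ : ℤ) / M₀)
        rw [le_div_iff₀ hM'] at h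
        linarith
      have hρ1 : T (y₀ : ℤ) - M₀ * ⌊T (y₀ : ℤ) / M₀⌋ ≤ M₀ := by
        have h := (Int.lt_floor_add_one (T (y₀ : ℤ) / M₀)).le
        rw [div_le_iff₀ hM'] at h
        linarith
      have hρa : |T (y₀ : ℤ) - M₀ * ⌊T (y₀ : ℤ) / M₀⌋| ≤ M₀ := by
        rw [abs_of_nonneg hρ0]
        exact hρ1
      refine ⟨T (y₀ : ℤ) - M₀ * ⌊T (y₀ : ℤ) / M₀⌋,
        S (y₀ : ℤ) + (T (y₀ : ℤ) - M₀ * ⌊T (y₀ : ℤ) / M₀⌋), hρa, ?_, ?_, ?_, ?_⟩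
      · refine ⟨i₀ - Q * M₀ * ⌊T (y₀ : ℤ) / M₀⌋, ?_⟩
        push_cast
        rw [sub_div, ← hi₀]
        congr 1
        field_simp
      · intro y hy
        obtain ⟨ha, hb, hc⟩ := hpce y hy
        have hcong : (y : ℤ) ≡ (y₀ : ℤ) [ZMOD ((Q * M₀ : ℕ) : ℤ)] :=
          (Int.natCast_modEq_iff.2 (hc.trans hc0.symm))
        obtain ⟨i, hi⟩ := hST.per M₀ y y₀ hcong
        refine ⟨i + ⌊T (y₀ : ℤ) / M₀⌋, ?_⟩
        push_cast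
        rw [mul_add, ← hi]
        ring
      · calc |S (y₀ : ℤ) + (T (y₀ : ℤ) - M₀ * ⌊T (y₀ : ℤ) / M₀⌋)| ≤
              |S (y₀ : ℤ)| + |T (y₀ : ℤ) - M₀ * ⌊T (y₀ : ℤ) / M₀⌋| := abs_add_le _ _
          _ ≤ E' + M₀ := add_le_add (hST.bd _ hy0l hy0u) hρa
      · intro y hy
        obtain ⟨ha, hb, hc⟩ := hpce y hy
        have hyl : (0 : ℤ) ≤ (y : ℤ) := Int.natCast_nonneg _
        have hyu : (y : ℤ) < 2 * H := by
          have : y < 2 * H := lt_of_lt_of_le hb ht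
          exact_mod_cast this
        have e : S (y : ℤ) + (T (y₀ : ℤ) - M₀ * ⌊T (y₀ : ℤ) / M₀⌋) -
            (S (y₀ : ℤ) + (T (y₀ : ℤ) - M₀ * ⌊T (y₀ : ℤ) / M₀⌋)) = S (y : ℤ) - S (y₀ : ℤ) := by
          ring
        rw [e]
        have h1 := hST.lip y y₀ hyl hyu hy0l hy0u
        have h2 : |((y : ℤ) : ℝ) - ((y₀ : ℤ) : ℝ)| ≤ τ / (2 * (E' + 1)) * H := by
          push_cast
          have r1 : (s' : ℝ) ≤ y := by exact_mod_cast ha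
          have r2 : (s' : ℝ) ≤ y₀ := by exact_mod_cast ha0
          have r3 : (y : ℝ) < t := by exact_mod_cast hb
          have r4 : (y₀ : ℝ) < t := by exact_mod_cast hb0
          rw [abs_le]
          constructor <;> linarith
        have h3 : E' * |((y : ℤ) : ℝ) - ((y₀ : ℤ) : ℝ)| / H ≤
            E' * (τ / (2 * (E' + 1)) * H) / H :=
          div_le_div_of_nonneg_right (mul_le_mul_of_nonneg_left h2 hE') hH'.le
        have h4 : E' * (τ / (2 * (E' + 1)) * H) / H ≤ τ / 2 := by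
          have e2 : E' * (τ / (2 * (E' + 1)) * H) / H = (E' / (E' + 1)) * (τ / 2) := by
            field_simp
          rw [e2]
          have h5 : E' / (E' + 1) ≤ 1 := by
            rw [div_le_one (by positivity)]
            linarith
          calc (E' / (E' + 1)) * (τ / 2) ≤ 1 * (τ / 2) :=
                mul_le_mul_of_nonneg_right h5 (by positivity)
            _ = τ / 2 := one_mul _
        exact (h1.trans h3).trans h4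
  -- the polynomial map in the kernel
  obtain ⟨hBm, hBi, -, hBc, -⟩ := hB U ℤ Gf d hG
  have hg₁G : PS Gf 0 g₁ := fun l n => (hg₁ l n).1
  have hg₁0 : ∀ y, g₁ y ∈ Gf 0 := fun y => hg₁G [] y
  have hg₁k : ∀ y, g₁ y ∈ kerS (Gf 0) χ := fun y => (hg₁ [] y).2
  have hconj : ∀ x ∈ kerS (Gf 0) χ, pw (-ρ) s * x * pw ρ s ∈ kerS (Gf 0) χ := by
    intro x hx
    obtain ⟨hx0, hx1⟩ := (hker x).1 hx
    have e : pw (-ρ) s * x * pw ρ s = pw (-ρ) s * x * (pw (-ρ) s)⁻¹ := by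
      rw [hPn ρ s, inv_inv]
    rw [e, hker]
    exact ⟨(Gf 0).mul_mem ((Gf 0).mul_mem (hpws _) hx0) ((Gf 0).inv_mem (hpws _)),
      by rw [hχ.inv _ (hpws _) _ hx0, hx1]⟩
  have hPS : ∀ f : ℤ → U, PS Gf 0 f → PS Gf 0 fun y => pw (-ρ) s * f y * pw ρ s := fun f hf =>
    hBm 0 _ _ (hBm 0 _ _ (hBc 0 _ (hpws _)) hf) (hBc 0 _ (hpws _))
  have hPk : ∀ f : ℤ → U, PS Gf 0 f → (∀ y, f y ∈ kerS (Gf 0) χ) → PS (kf Gf χ) 0 f := by
    intro f hf hv l n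
    obtain ⟨h1, h2⟩ := (((hN U ℤ Gf 0 f).2.1 (kerS (Gf 0) χ)).2 ⟨hf, hv⟩) l n
    exact ⟨h2, h1⟩
  obtain ⟨v, hvL, hv⟩ := hL v₀ hv₀
  refine ⟨ρ, fun y => pw (-ρ) s * g₁ y * pw ρ s, hρ, hρi, hρT,
    hPk _ (hPS _ hg₁G) (fun y => hconj _ (hg₁k y)), ?_, pw v s,
    List.mem_map.2 ⟨v, hvL, rfl⟩, ?_⟩
  · intro y
    have e1 : pw (-ρ - S y) s = pw (-ρ) s * (pw (S y) s)⁻¹ := by
      rw [sub_eq_add_neg, pw_add, hPn (S y) s]
    have e2 : pw (ρ - T y) s = (pw (T y) s)⁻¹ * pw ρ s := by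
      rw [sub_eq_add_neg, add_comm, pw_add, hPn (T y) s]
    show pw (-ρ) s * g₁ y * pw ρ s = pw (-ρ - S y) s * g y * pw (ρ - T y) s
    rw [e1, e2, hgf y]
    group
  intro n R hR
  obtain ⟨hRc, hR0, hR1⟩ := hRf n R hR
  have hRG : PS Gf 0 fun h : ℤ => pw (T (h + n)) s * R h * (pw (T (h + n)) s)⁻¹ :=
    fun l m => (hRc l m).2.1
  have hRJ : ∀ h : ℤ, pw (T (h + n)) s * R h * (pw (T (h + n)) s)⁻¹ ∈ J :=
    fun h => (hRc [] h).1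
  have hRk : ∀ h : ℤ, pw (T (h + n)) s * R h * (pw (T (h + n)) s)⁻¹ ∈ kerS (Gf 0) χ :=
    fun h => (hRc [] h).2.2
  refine ⟨fun h => pw (-ρ) s * (pw (T (h + n)) s * R h * (pw (T (h + n)) s)⁻¹) * pw ρ s,
    ⟨?_, ?_, ?_⟩, ?_⟩
  · have hJv : ∀ h : ℤ, pw (-ρ) s * (pw (T (h + n)) s * R h * (pw (T (h + n)) s)⁻¹) * pw ρ s ∈
        J := by
      intro h
      have h1 := hJ.nrm _ (hpws (-ρ)) _ (hRJ h)
      rw [hPn ρ s, inv_inv] at h1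
      rw [hPn ρ s]
      exact h1
    intro l m
    obtain ⟨h1, h2⟩ := (((hN U ℤ Gf 0 _).2.1 J).2 ⟨hPS _ hRG, hJv⟩) l m
    obtain ⟨h3, h4⟩ := hPk _ (hPS _ hRG) (fun y => hconj _ (hRk y)) l m
    exact ⟨h1, h2, h4⟩
  · change pw (T (0 + n)) s * R 0 * (pw (T (0 + n)) s)⁻¹ = 1 at hR0
    show pw (-ρ) s * (pw (T (0 + n)) s * R 0 * (pw (T (0 + n)) s)⁻¹) * pw ρ s = 1
    rw [hR0, hPn ρ s, mul_one, inv_mul_cancel]
  · change pw (T (1 + n)) s * R 1 * (pw (T (1 + n)) s)⁻¹ = 1 at hR1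
    show pw (-ρ) s * (pw (T (1 + n)) s * R 1 * (pw (T (1 + n)) s)⁻¹) * pw ρ s = 1
    rw [hR1, hPn ρ s, mul_one, inv_mul_cancel]
  intro y hy
  obtain ⟨i, hi⟩ := hρT y hy
  have hyn : (y : ℤ) - n + n = y := by ring
  have hγ : pw ((M₀ : ℝ) * i) s ∈ (La : Subgroup U) := by
    have h1 : pw ((M₀ : ℝ) * i) s = (pw (M₀ : ℝ) s) ^ i := by
      rw [mul_comm, pw_mul]
      exact hPz i _
    rw [h1]
    exact Subgroup.zpow_mem _ hsM i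
  have hR0' : R ((y : ℤ) - n) ∈ Gf 0 := hJ.le (hR.1 [] _).1
  set x : U := pw v s * (pw (-ρ) s * g₁ y * pw ρ s) *
    (pw (-ρ) s * (pw (T y) s * R ((y : ℤ) - n) * (pw (T y) s)⁻¹) * pw ρ s) with hx
  have hx0 : x ∈ Gf 0 := by
    refine (Gf 0).mul_mem ((Gf 0).mul_mem (hpws v) ?_) ?_
    · exact (Gf 0).mul_mem ((Gf 0).mul_mem (hpws _) (hg₁0 _)) (hpws _)
    · exact (Gf 0).mul_mem ((Gf 0).mul_mem (hpws _) ((Gf 0).mul_mem ((Gf 0).mul_mem (hpws _) hR0')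
        ((Gf 0).inv_mem (hpws _)))) (hpws _)
  have e1 : g y * R ((y : ℤ) - n) = pw (S y + ρ - v) s * x * pw ((M₀ : ℝ) * i) s := by
    have a1 : pw (S y + ρ - v) s = pw (S y) s * pw ρ s * (pw v s)⁻¹ := by
      rw [sub_eq_add_neg, pw_add, pw_add, hPn v s]
    have a2 : pw ((M₀ : ℝ) * i) s = (pw ρ s)⁻¹ * pw (T y) s := by
      rw [← hi, sub_eq_add_neg, add_comm, pw_add, hPn ρ s]
    rw [a1, a2, hx, hPn ρ s, hgf y]
    group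
  have e2 : F (g y * R ((y : ℤ) - n)) = F (pw (S y + ρ - v) s * x) := by
    rw [e1]
    exact hFn.lat _ ((Gf 0).mul_mem (hpws _) hx0) _ hγ (hpws _)
  have e3 : |S (y : ℤ) + ρ - v| ≤ τ := by
    have h1 := hvS y hy
    have e : S (y : ℤ) + ρ - v = (S (y : ℤ) + ρ - v₀) + (v₀ - v) := by ring
    rw [e]
    calc |(S (y : ℤ) + ρ - v₀) + (v₀ - v)| ≤ |S (y : ℤ) + ρ - v₀| + |v₀ - v| := abs_add_le _ _
      _ ≤ τ / 2 + τ / 2 := add_le_add h1 hv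
      _ = τ := by ring
  show ‖F (g y * R ((y : ℤ) - n)) - F (pw v s * (pw (-ρ) s * g₁ y * pw ρ s) *
    (pw (-ρ) s * (pw (T ((y : ℤ) - n + n)) s * R ((y : ℤ) - n) *
      (pw (T ((y : ℤ) - n + n)) s)⁻¹) * pw ρ s))‖ ≤ ε
  rw [hyn, e2]
  exact huc _ (hpws _) (hsmall _ e3) x hx0

end

end Pool.Agent.NG
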