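import Mathlib
import Pool.Agent.Lib.NG.PWB
import Pool.Agent.Lib.NG.J

/-!
# JET (MP_663568_nt), row FGB: the way back from `g'` to `g`  (helper19)
-/

set_option autoImplicit false
open Finset Topology

namespace Pool.Agent.NG

noncomputable section

open Amb AmbQ Pool.Agent.Lib.MP_663568_nt Pool.Agent.Lib.MP_663568_nt.Katai
  Pool.Agent.Lib.MP_663568_nt.Nul Pool.Agent.SV Pool.Agent.VQ Pool.Agent.NV

section
variable {U : Type} [AmbQ U]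

/-- Conjugates of small powers are small. -/
theorem conj_small (K : Set U) (hK : IsCompact K) (s : U) (ρ : ℝ) (hρ : 0 < ρ) :
    ∃ τ : ℝ, 0 < τ ∧ ∀ κ ∈ K, ∀ t : ℝ, |t| ≤ τ → nm (κ * pw t s * κ⁻¹) ≤ ρ := by
  obtain ⟨C₁, hC₁, h₁⟩ := nm_conj K hK
  obtain ⟨C₂, hC₂, h₂⟩ := nm_pw ({s} : Set U) isCompact_singleton
  refine ⟨min 1 (min (1 / C₂) (ρ / (C₁ * C₂))), by positivity, fun κ hκ t ht => ?_⟩
  have t1 : |t| ≤ 1 := ht.trans (min_le_left _ _)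
  have t2 : |t| ≤ 1 / C₂ := ht.trans ((min_le_right _ _).trans (min_le_left _ _))
  have t3 : |t| ≤ ρ / (C₁ * C₂) := ht.trans ((min_le_right _ _).trans (min_le_right _ _))
  have a := h₂ s rfl t t1
  have b : nm (pw t s) ≤ 1 := a.trans (by
    calc C₂ * |t| ≤ C₂ * (1 / C₂) := by gcongr
      _ = 1 := by field_simp)
  refine (h₁ κ hκ _ b).trans ?_
  calc C₁ * nm (pw t s) ≤ C₁ * (C₂ * |t|) := by gcongr
    _ ≤ C₁ * (C₂ * (ρ / (C₁ * C₂))) := by gcongr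
    _ = ρ := by field_simp

/-- One multiple for all the elements of a finite set. -/
theorem cjq_fin (hq : CJQ_stmt) (G : Subgroup U) (hG : Rat G) (s : U) (hs : s ∈ G) (M₀ : ℕ)
    (hM : pw M₀ s ∈ (La : Subgroup U)) (Z : Set U) (hZ : Z.Finite)
    (hZG : ∀ ζ ∈ Z, ζ ∈ G ∧ ζ ∈ (Qr : Subgroup U)) :
    ∃ M : ℕ, 1 ≤ M ∧ ∀ ζ ∈ Z, ∀ t : ℤ, ζ⁻¹ * pw ((M₀ : ℝ) * M * t) s * ζ ∈ (La : Subgroup U) := by
  induction Z, hZ using Set.Finite.induction_on with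
  | empty => exact ⟨1, le_rfl, fun ζ h => absurd h (Set.notMem_empty _)⟩
  | @insert a Z _ _ ih =>
    obtain ⟨M, hM1, h⟩ := ih fun ζ hζ => hZG ζ (Set.mem_insert_of_mem _ hζ)
    obtain ⟨aG, aQ⟩ := hZG a (Set.mem_insert _ _)
    obtain ⟨N, hN1, h'⟩ := hq U G a s M₀ hG aG aQ hs hM
    refine ⟨M * N, Nat.mul_pos hM1 hN1, fun ζ hζ t => ?_⟩
    rcases Set.mem_insert_iff.1 hζ with rfl | hζ
    · have := h' (M * t)
      have e : (M₀ : ℝ) * ((M * N : ℕ) : ℝ) * (t : ℝ) = (M₀ : ℝ) * N * ((M * t : ℤ) : ℝ) := by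
        push_cast; ring
      rw [e]; exact this
    · have := h ζ hζ (N * t)
      have e : (M₀ : ℝ) * ((M * N : ℕ) : ℝ) * (t : ℝ) = (M₀ : ℝ) * M * ((N * t : ℤ) : ℝ) := by
        push_cast; ring
      rw [e]; exact this

end

theorem fgb : FGB_stmt := by
  intro _ hq U _ G M F s M₀ E ε Q K Z hG hF hs hM₀ hsL hE hε hQ hK hKG hZ hZG
  obtain ⟨M', hM'1, hM'⟩ := cjq_fin hq G hG s hs M₀ hsL Z hZ hZG
  obtain ⟨ρ₀, hρ₀, huc⟩ := hF.uc ε hε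
  -- the compact set
  set I : Set ℝ := Set.Icc (-(M₀ + E)) (M₀ + E) with hI
  set K' : Set U := (fun q : U × ℝ => q.1 * pw q.2 s) '' (K ×ˢ I) with hK'
  have cK' : IsCompact K' := (hK.prod isCompact_Icc).image
    (continuous_fst.mul ((pw_continuous s).comp continuous_snd))
  have K'G : K' ⊆ G := by
    rintro _ ⟨⟨k, t⟩, ⟨hk, -⟩, rfl⟩
    exact G.mul_mem (hKG hk) (hG.pwc s hs t)
  obtain ⟨τ, hτ, hsm⟩ := conj_small K' cK' s ρ₀ hρ₀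
  set Z' : Set U := (fun q : ℕ × U => pw (-((M₀ : ℝ) * q.1)) s * q.2) ''
    ((range M' : Finset ℕ) ×ˢ Z) with hZ'
  have fZ' : Z'.Finite := (((range M').finite_toSet).prod hZ).image _
  have Z'G : ∀ ζ ∈ Z', ζ ∈ G ∧ ζ ∈ (Qr : Subgroup U) := by
    rintro _ ⟨⟨r, ζ⟩, ⟨-, hζ⟩, rfl⟩
    have hh := hZG ζ hζ
    refine ⟨G.mul_mem (hG.pwc s hs _) hh.1, Subgroup.mul_mem _ (la_le ?_) hh.2⟩
    have e : pw (-((M₀ : ℝ) * (r : ℝ))) s = (pw (M₀ : ℝ) s ^ r)⁻¹ := by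
      rw [pw_neg, pow_pw, mul_comm]
    show pw (-((M₀ : ℝ) * (r : ℝ))) s ∈ (La : Subgroup U)
    rw [e]
    exact Subgroup.inv_mem _ (Subgroup.pow_mem _ hsL _)
  refine ⟨τ / (E + 1), Q * (M₀ * M'), K', Z', by positivity,
    Nat.mul_pos hQ (Nat.mul_pos hM₀ hM'1), cK', K'G, fZ', Z'G, ?_⟩
  intro H S T ρ hH hST hρ κ hκ ζ hζ s' t b ht hlen W hW hWT
  have M'0 : M' ≠ 0 := by omega
  rcases W.eq_empty_or_nonempty with rfl | ⟨y₀, hy₀⟩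
  · refine ⟨κ * pw (-ρ) s, ⟨(κ, -ρ), ⟨hκ, ?_⟩, rfl⟩, pw (-((M₀ : ℝ) * ((0 : ℕ) : ℝ))) s * ζ,
      ⟨(0, ζ), ⟨?_, hζ⟩, rfl⟩, fun y hy => absurd hy (Finset.notMem_empty _)⟩
    · have := abs_le.1 hρ
      simp only [hI, Set.mem_Icc]
      constructor <;> linarith
    · simp [Nat.pos_of_ne_zero M'0]
  -- the point `y₀`
  have mem : ∀ y ∈ W, s' ≤ y ∧ y < t ∧ y ≡ b [MOD Q * (M₀ * M')] := by
    intro y hy
    have := hW hy
    simp only [pce, Finset.mem_filter, Finset.mem_Ico] at this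
    exact ⟨this.1.1, this.1.2, this.2⟩
  obtain ⟨y01, y02, y03⟩ := mem y₀ hy₀
  obtain ⟨i₀, hi₀⟩ := hWT y₀ hy₀
  set r : ℕ := (i₀ % (M' : ℤ)).toNat with hr
  have hr0 : (r : ℤ) = i₀ % (M' : ℤ) := Int.toNat_of_nonneg (Int.emod_nonneg _ (by exact_mod_cast M'0))
  have hrM : r < M' := by
    have := Int.emod_lt_of_pos i₀ (show (0 : ℤ) < M' by exact_mod_cast Nat.pos_of_ne_zero M'0)
    omega
  have by0 : |S y₀| ≤ E := hST.bd y₀ (by positivity) (by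
    have : y₀ < 2 * H := lt_of_lt_of_le y02 ht
    exact_mod_cast this)
  refine ⟨κ * pw (-ρ - S y₀) s, ⟨(κ, -ρ - S y₀), ⟨hκ, ?_⟩, rfl⟩,
    pw (-((M₀ : ℝ) * (r : ℝ))) s * ζ, ⟨(r, ζ), ⟨by simpa using hrM, hζ⟩, rfl⟩, ?_⟩
  · have a := abs_le.1 hρ
    have b := abs_le.1 by0
    simp only [hI, Set.mem_Icc]
    constructor <;> linarith
  intro y hy x hx
  obtain ⟨y1, y2, y3⟩ := mem y hy
  obtain ⟨i, hi⟩ := hWT y hy
  obtain ⟨hζG, hζQ⟩ := hZG ζ hζ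
  have hκG := hKG hκ
  -- the periodic part
  obtain ⟨j, hj⟩ := hST.per (M₀ * M') y y₀ (by
    have := y3.trans y03.symm
    exact (Int.natCast_modEq_iff).2 this)
  have M0pos : (0 : ℝ) < M₀ := by exact_mod_cast hM₀
  have ij : (i : ℝ) = i₀ + M' * j := by
    have e1 : (M₀ : ℝ) * i - M₀ * i₀ = (M₀ * M') * j := by
      rw [← hi, ← hi₀]
      push_cast at hj ⊢
      linarith
    have : (M₀ : ℝ) * i = M₀ * (i₀ + M' * j) := by linarith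
    exact mul_left_cancel₀ M0pos.ne' this
  have i0r : (i₀ : ℝ) = r + M' * ((i₀ / (M' : ℤ) : ℤ) : ℝ) := by
    have := Int.emod_add_mul_ediv i₀ (M' : ℤ)
    rw [← hr0] at this
    have h2 : ((r : ℤ) + (M' : ℤ) * (i₀ / (M' : ℤ)) : ℤ) = i₀ := this
    have h3 : (((r : ℤ) + (M' : ℤ) * (i₀ / (M' : ℤ)) : ℤ) : ℝ) = (i₀ : ℝ) := by rw [h2]
    push_cast at h3
    linarith
  set u : ℤ := -(i₀ / (M' : ℤ) + j) with hu
  have eT : ρ - T (y : ℤ) = -((M₀ : ℝ) * r) + (M₀ : ℝ) * M' * u := by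
    have : T (y : ℤ) - ρ = M₀ * i := hi
    rw [ij, i0r] at this
    rw [hu]
    push_cast
    linarith
  have lam : ζ⁻¹ * pw ((M₀ : ℝ) * M' * u) s * ζ ∈ (La : Subgroup U) := hM' ζ hζ u
  have lamG : ζ⁻¹ * pw ((M₀ : ℝ) * M' * u) s * ζ ∈ G :=
    G.mul_mem (G.mul_mem (G.inv_mem hζG) (hG.pwc s hs _)) hζG
  have pwG : ∀ c : ℝ, pw c s ∈ G := fun c => hG.pwc s hs c
  have e1 : κ * (pw (-ρ - S (y : ℤ)) s * x * pw (ρ - T (y : ℤ)) s) * ζ =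
      (κ * pw (-ρ - S (y : ℤ)) s * x * (pw (-((M₀ : ℝ) * r)) s * ζ)) *
        (ζ⁻¹ * pw ((M₀ : ℝ) * M' * u) s * ζ) := by
    rw [eT, pw_add]
    group
  have xG : x * (pw (-((M₀ : ℝ) * r)) s * ζ) ∈ G := G.mul_mem hx (G.mul_mem (pwG _) hζG)
  rw [e1, hF.lat _ (G.mul_mem (G.mul_mem (G.mul_mem hκG (pwG _)) hx)
    (G.mul_mem (pwG _) hζG)) _ lam lamG]
  -- the smooth part
  set κ' : U := κ * pw (-ρ - S (y₀ : ℤ)) s with hκ'
  have κ'K : κ' ∈ K' := ⟨(κ, -ρ - S y₀), ⟨hκ, by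
    have a := abs_le.1 hρ
    have b := abs_le.1 by0
    simp only [hI, Set.mem_Icc]
    constructor <;> linarith⟩, rfl⟩
  have e2 : κ * pw (-ρ - S (y : ℤ)) s * x * (pw (-((M₀ : ℝ) * r)) s * ζ) =
      (κ' * pw (S (y₀ : ℤ) - S (y : ℤ)) s * κ'⁻¹) *
        (κ' * x * (pw (-((M₀ : ℝ) * r)) s * ζ)) := by
    have : pw (-ρ - S (y : ℤ)) s = pw (-ρ - S (y₀ : ℤ)) s * pw (S (y₀ : ℤ) - S (y : ℤ)) s := by
      rw [← pw_add]; congr 1; ring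
    rw [hκ', this]
    group
  have κ'G : κ' ∈ G := K'G κ'K
  rw [e2]
  refine huc _ (G.mul_mem (G.mul_mem κ'G (pwG _)) (G.inv_mem κ'G)) (hsm κ' κ'K _ ?_) _
    (G.mul_mem (G.mul_mem κ'G hx) (G.mul_mem (pwG _) hζG))
  -- the Lipschitz bound
  have hH0 : (0 : ℝ) < H := by exact_mod_cast hH
  have l := hST.lip y₀ y (by positivity) (by
      have : y₀ < 2 * H := lt_of_lt_of_le y02 ht
      exact_mod_cast this) (by positivity) (by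
      have : y < 2 * H := lt_of_lt_of_le y2 ht
      exact_mod_cast this)
  have dy : |((y₀ : ℤ) : ℝ) - ((y : ℤ) : ℝ)| ≤ τ / (E + 1) * H := by
    have a1 : (s' : ℝ) ≤ y := by exact_mod_cast y1
    have a2 : (s' : ℝ) ≤ y₀ := by exact_mod_cast y01
    have a3 : (y : ℝ) ≤ t := by exact_mod_cast y2.le
    have a4 : (y₀ : ℝ) ≤ t := by exact_mod_cast y02.le
    push_cast
    rw [abs_le]
    constructor <;> linarith
  refine l.trans ?_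
  calc E * |((y₀ : ℤ) : ℝ) - ((y : ℤ) : ℝ)| / H ≤ E * (τ / (E + 1) * H) / H := by gcongr
    _ = E / (E + 1) * τ := by field_simp
    _ ≤ 1 * τ := by
        gcongr
        rw [div_le_one (by linarith)]
        linarith
    _ = τ := one_mul _

end

end Pool.Agent.NG
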