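import Mathlib
import Pool.Agent.Lib.NG.J

/-!
# JET (MP_663568_nt), row FJ1: the factorisation of `R_n`  (helper32)
-/

set_option autoImplicit false
open Finset Topology

namespace Pool.Agent.NG

noncomputable section

open Amb Pool.Agent.Lib.MP_663568_nt Pool.Agent.Lib.MP_663568_nt.Katai
  Pool.Agent.Lib.MP_663568_nt.Nul Pool.Agent.SV Pool.Agent.VQ Pool.Agent.NV

namespace Fj

variable {U : Type} [Amb U]

theorem chr_one {H : Subgroup U} {χ : U → ℝ} (hmul : ∀ x ∈ H, ∀ y ∈ H, χ (x * y) = χ x + χ y) :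
    χ 1 = 0 := by
  have h := hmul 1 H.one_mem 1 H.one_mem
  rw [mul_one] at h
  linarith

theorem chr_inv {H : Subgroup U} {χ : U → ℝ} (hmul : ∀ x ∈ H, ∀ y ∈ H, χ (x * y) = χ x + χ y)
    (x : U) (hx : x ∈ H) : χ x⁻¹ = -χ x := by
  have h := hmul x hx x⁻¹ (H.inv_mem hx)
  rw [mul_inv_cancel, chr_one hmul] at h
  linarith

theorem pol_add (j : ℕ) (S T c : ℕ → ℝ) (h : ∀ i, S i + T i = c i) (m : ℤ) :
    pol j S m + pol j T m = pol j c m := by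
  unfold pol
  rw [← Finset.sum_add_distrib]
  exact Finset.sum_congr rfl fun i _ => by rw [← h i]; ring

end Fj

open Fj in
/-- **row FJ1** -/
theorem fj1 : FJ1_stmt := by
  intro hP hC hK hL hB hN hSg hD _ hSp U _ Gf d J η E Q hG hJ hη hE hQ
  obtain ⟨hp0, -, -, hpn, -⟩ := hP U
  have hpw : ∀ x ∈ J, ∀ t : ℝ, η (pw t x) = t * η x :=
    hC U J η hJ.rat.pwc hη.mul hη.cont
  obtain ⟨j, M, s, hj1, hjd, hM, ⟨hsJ, hsj⟩, hvan, hs1, hsM⟩ := hL U Gf d J η hG hJ.rat hJ.nrm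
    hJ.ge hJ.le hη
  obtain ⟨E', H₀, hE', hsp⟩ := hSp d E Q hE hQ
  refine ⟨M, H₀, s, E', hM, hsJ, hsM, hE', ?_⟩
  intro H n g R hH hn hg hR hNr
  obtain ⟨hRc, hR0, hR1⟩ := hR
  obtain ⟨c, hc⟩ := hD U Gf j J η R hη.mul hvan hRc
  have hc0 : pol j c 0 = 0 := by rw [← hc 0, hR0, chr_one hη.mul]
  have hc1 : pol j c 1 = 0 := by rw [← hc 1, hR1, chr_one hη.mul]
  have hNr' : NrZ 1 d E Q (2 * H) (fun y => pol j c (y - n)) := by
    have e : (fun y : ℤ => η (R (y - n))) = fun y : ℤ => pol j c (y - n) := by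
      funext y
      exact hc _
    rwa [e] at hNr
  obtain ⟨S, T, hST, hS0, hS1, hT0, hT1, hst⟩ := hsp H n j c hH hn hjd hc0 hc1 hNr'
  obtain ⟨hBm, hBi, -⟩ := hB U ℤ Gf d hG
  have hNR := (hN U ℤ Gf 0 R).2.1 J
  have hRG : PS Gf 0 R := (hNR.1 hRc).1
  have hRJ : ∀ h, R h ∈ J := (hNR.1 hRc).2
  have hPS : PS Gf 0 fun m : ℤ => pw (pol j S m) s := hSg U Gf d j s S hG hjd hsj
  have hPT : PS Gf 0 fun m : ℤ => pw (pol j T m) s := hSg U Gf d j s T hG hjd hsj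
  have hgn : PS Gf 0 fun h : ℤ => g (h + n) := (hN U ℤ Gf 0 g).1 ℤ (AddMonoidHom.id ℤ) n hg
  set R' : ℤ → U := fun h => (g (h + n))⁻¹ * (pw (pol j S h) s)⁻¹ * g (h + n) * R h *
    (pw (pol j T h) s)⁻¹ with hR'
  have hPR' : PS Gf 0 R' :=
    hBm 0 _ _ (hBm 0 _ _ (hBm 0 _ _ (hBm 0 _ _ (hBi 0 _ hgn) (hBi 0 _ hPS)) hgn) hRG)
      (hBi 0 _ hPT)
  have hsp' : ∀ t : ℝ, pw t s ∈ J := fun t => hJ.rat.pwc s hsJ t
  have hg0 : ∀ y, g y ∈ Gf 0 := fun y => hg [] y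
  have hconj : ∀ (y : ℤ) (x : U), x ∈ J → (g y)⁻¹ * x * g y ∈ J ∧ η ((g y)⁻¹ * x * g y) = η x := by
    intro y x hx
    have h1 := hJ.nrm (g y)⁻¹ ((Gf 0).inv_mem (hg0 y)) x hx
    have h2 := hη.inv (g y)⁻¹ ((Gf 0).inv_mem (hg0 y)) x hx
    rw [inv_inv] at h1 h2
    exact ⟨h1, h2⟩
  have hker : ∀ x, x ∈ kerS J η ↔ x ∈ J ∧ η x = 0 :=
    (hK U J η hJ.rat hη.mul hη.int hη.cont).1
  have hval : ∀ h, R' h ∈ kerS J η := by
    intro h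
    obtain ⟨h1, h2⟩ := hconj (h + n) (pw (pol j S h) s)⁻¹ (J.inv_mem (hsp' _))
    have h3 := J.mul_mem h1 (hRJ h)
    refine (hker _).2 ⟨J.mul_mem h3 (J.inv_mem (hsp' _)), ?_⟩
    show η ((g (h + n))⁻¹ * (pw (pol j S h) s)⁻¹ * g (h + n) * R h * (pw (pol j T h) s)⁻¹) = 0
    rw [hη.mul _ h3 _ (J.inv_mem (hsp' _)), hη.mul _ h1 _ (hRJ h), h2,
      chr_inv hη.mul _ (hsp' _), chr_inv hη.mul _ (hsp' _), hpw s hsJ, hpw s hsJ, hs1, hc h,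
      ← pol_add j S T c hST h]
    ring
  refine ⟨fun y => pol j S (y - n), fun y => pol j T (y - n), R', hst, ⟨?_, ?_, ?_⟩, ?_⟩
  · exact ((hN U ℤ Gf 0 R').2.1 (kerS J η)).2 ⟨hPR', hval⟩
  · show (g (0 + n))⁻¹ * (pw (pol j S 0) s)⁻¹ * g (0 + n) * R 0 * (pw (pol j T 0) s)⁻¹ = 1
    rw [hS0, hT0, hR0, hp0]
    group
  · show (g (1 + n))⁻¹ * (pw (pol j S 1) s)⁻¹ * g (1 + n) * R 1 * (pw (pol j T 1) s)⁻¹ = 1
    rw [hS1, hT1, hR1, hp0]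
    group
  · intro y
    show g y * R (y - n) = pw (pol j S (y - n)) s * g y *
      ((g (y - n + n))⁻¹ * (pw (pol j S (y - n)) s)⁻¹ * g (y - n + n) * R (y - n) *
        (pw (pol j T (y - n)) s)⁻¹) * pw (pol j T (y - n)) s
    rw [sub_add_cancel]
    group

end

end Pool.Agent.NG
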