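import Mathlib
import Pool.Agent.Lib.NG.J

/-!
# JET (MP_663568_nt), row FJ2: `F (g y R (y - n))` on a short part of a class  (helper32)
-/

set_option autoImplicit false
open Finset Topology

namespace Pool.Agent.NG

noncomputable section

open Amb AmbQ Pool.Agent.Lib.MP_663568_nt Pool.Agent.Lib.MP_663568_nt.Katai
  Pool.Agent.Lib.MP_663568_nt.Nul Pool.Agent.SV Pool.Agent.VQ Pool.Agent.NV

namespace Fj2

variable {U : Type} [Amb U]

/-- Small real powers are small. -/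
theorem small (hp0 : ∀ x : U, pw 0 x = 1) (σ : U) (ρ : ℝ) (hρ : 0 < ρ) :
    ∃ δ : ℝ, 0 < δ ∧ ∀ u : ℝ, |u| ≤ δ → nm (pw u σ) ≤ ρ := by
  have hc : Continuous fun u : ℝ => nm (pw u σ) :=
    nm_cont.comp (pw_cont.comp (by fun_prop : Continuous fun u : ℝ => (u, σ)))
  obtain ⟨δ, hδ, h⟩ := Metric.continuous_iff.1 hc 0 ρ hρ
  refine ⟨δ / 2, by positivity, fun u hu => ?_⟩
  have h1 := h u (by rw [Real.dist_eq, sub_zero]; linarith [abs_nonneg u])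
  rw [Real.dist_eq, hp0, nm_one, sub_zero] at h1
  exact (le_abs_self _).trans h1.le

/-- The kernel is normal. -/
theorem ker_conj {G J M : Subgroup U} {η : U → ℝ} (hn : Nrm G J) (hη : Chr G J M η) (ζ : U)
    (hζ : ζ ∈ G) (x : U) (hx : x ∈ kerS J η) : ζ⁻¹ * x * ζ ∈ kerS J η := by
  unfold kerS at hx ⊢
  refine Subgroup.closure_induction (p := fun x _ => ζ⁻¹ * x * ζ ∈ _) ?_ ?_ ?_ ?_ hx
  · rintro y ⟨hy, h0⟩
    refine Subgroup.subset_closure ⟨?_, ?_⟩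
    · have h1 := hn ζ⁻¹ (G.inv_mem hζ) y hy
      rwa [inv_inv] at h1
    · have h2 := hη.inv ζ⁻¹ (G.inv_mem hζ) y hy
      rw [inv_inv] at h2
      rw [h2, h0]
  · rw [mul_one, inv_mul_cancel]
    exact Subgroup.one_mem _
  · intro y z _ _ h1 h2
    have e : ζ⁻¹ * (y * z) * ζ = ζ⁻¹ * y * ζ * (ζ⁻¹ * z * ζ) := by group
    rw [e]
    exact Subgroup.mul_mem _ h1 h2
  · intro y _ h1
    have e : ζ⁻¹ * y⁻¹ * ζ = (ζ⁻¹ * y * ζ)⁻¹ := by group
    rw [e]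
    exact Subgroup.inv_mem _ h1

end Fj2

open Fj2 in
/-- **row FJ2** -/
theorem fj2 : FJ2_stmt := by
  intro hF hP hB hN U _ Gf d J η F E ε Q hG hJ hη hFn hE hε hQ
  obtain ⟨hp0, -, hpz, hpneg, -⟩ := hP U
  obtain ⟨M₀, H₀, σ, E', hM, hσJ, hσM, hE', hfac⟩ := hF U Gf d J η E Q hG hJ hη hE hQ
  obtain ⟨ρ, hρ, huc⟩ := hFn.uc ε hε
  have hσ0 : σ ∈ Gf 0 := hJ.le hσJ
  have hpG : ∀ t : ℝ, pw t σ ∈ Gf 0 := fun t => (hG.rat 0).pwc σ hσ0 t
  obtain ⟨δ, hδ, hδn⟩ := small hp0 σ ρ hρ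
  have hQ0 : (0 : ℝ) < Q := by exact_mod_cast hQ
  have hM0 : (0 : ℝ) < M₀ := by exact_mod_cast hM
  set K : ℕ := ⌈2 * E' / δ⌉₊ + 1 with hK
  have hKE : 2 * E' / δ ≤ K := by
    rw [hK]
    push_cast
    linarith [Nat.le_ceil (2 * E' / δ)]
  refine ⟨δ / (2 * (E' + 1)), Q * M₀, max H₀ 1,
    ((List.range (2 * K + 1)).product (List.range (Q * M₀))).map fun p =>
      (pw (δ / 2 * ((p.1 : ℝ) - K)) σ * pw ((p.2 : ℝ) / Q) σ, pw ((p.2 : ℝ) / Q) σ),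
    by positivity, Nat.mul_pos hQ hM, ?_, ?_⟩
  · intro w hw
    obtain ⟨p, -, rfl⟩ := List.mem_map.1 hw
    refine ⟨(Gf 0).mul_mem (hpG _) (hpG _), hpG _, ?_⟩
    refine root _ Q hQ ?_
    refine root _ M₀ hM ?_
    have h1 : ((pw ((p.2 : ℝ) / Q) σ) ^ Q) ^ M₀ = (pw (M₀ : ℝ) σ) ^ (p.2 : ℤ) := by
      rw [← pow_mul, ← zpow_natCast, ← hpz, ← hpz, ← pw_mul, ← pw_mul]
      congr 1
      push_cast
      field_simp
    rw [h1]
    exact la_le ((La : Subgroup U).zpow_mem hσM _)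
  · intro H n g R hH hn hg hR hNr s t b ht hst
    have hH1 : (1 : ℕ) ≤ H := (le_max_right _ _).trans hH
    have hH0 : (0 : ℝ) < H := by exact_mod_cast hH1
    obtain ⟨S, T, R₁, hST, hR₁, hid⟩ := hfac H n g R ((le_max_left _ _).trans hH) hn hg hR hNr
    obtain ⟨y₀, hy0, hy1, hy₀⟩ : ∃ y₀ : ℤ, 0 ≤ y₀ ∧ y₀ < 2 * H ∧ ∀ y ∈ pce s t (Q * M₀) b,
        |((y : ℤ) : ℝ) - y₀| ≤ δ / (2 * (E' + 1)) * H ∧ (y : ℤ) ≡ y₀ [ZMOD ((Q * M₀ : ℕ) : ℤ)] := by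
      rcases (pce s t (Q * M₀) b).eq_empty_or_nonempty with he | ⟨x, hx⟩
      · refine ⟨0, le_rfl, by positivity, ?_⟩
        rw [he]
        simp
      · unfold pce at hx ⊢
        rw [mem_filter, mem_Ico] at hx
        refine ⟨x, by positivity, by have := hx.1.2; omega, fun y hy => ?_⟩
        rw [mem_filter, mem_Ico] at hy
        constructor
        · have a1 : (x : ℝ) < t := by exact_mod_cast hx.1.2
          have a2 : (s : ℝ) ≤ x := by exact_mod_cast hx.1.1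
          have a3 : (y : ℝ) < t := by exact_mod_cast hy.1.2
          have a4 : (s : ℝ) ≤ y := by exact_mod_cast hy.1.1
          push_cast
          rw [abs_le]
          constructor <;> linarith
        · have h1 : y ≡ x [MOD (Q * M₀)] := hy.2.trans hx.2.symm
          exact (Int.natCast_modEq_iff.2 h1)
    obtain ⟨i₀, hi₀⟩ := hST.rat y₀
    -- the grid point
    have hSb := abs_le.1 (hST.bd y₀ hy0 hy1)
    obtain ⟨k, hk, hkS⟩ : ∃ k : ℕ, k < 2 * K + 1 ∧ |S y₀ - δ / 2 * ((k : ℝ) - K)| ≤ δ / 2 := by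
      have hb : 0 ≤ 2 * S y₀ / δ + K := by
        have h1 : -(2 * E' / δ) ≤ 2 * S y₀ / δ := by
          rw [← neg_div]
          gcongr
          linarith [hSb.1]
        linarith
      refine ⟨⌊2 * S y₀ / δ + K⌋₊, ?_, ?_⟩
      · rw [Nat.floor_lt hb]
        have h1 : 2 * S y₀ / δ ≤ 2 * E' / δ := by
          gcongr
          exact hSb.2
        push_cast
        linarith
      · have h1 := Nat.floor_le hb
        have h2 := Nat.lt_floor_add_one (2 * S y₀ / δ + K)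
        have h3 : S y₀ = δ / 2 * (2 * S y₀ / δ) := by field_simp
        set A := 2 * S y₀ / δ with hA
        have h4 : S y₀ - δ / 2 * ((⌊A + K⌋₊ : ℝ) - K) = δ / 2 * (A + K - ⌊A + K⌋₊) := by
          linear_combination h3
        rw [h4, abs_mul, abs_of_pos (by positivity : (0 : ℝ) < δ / 2)]
        have h5 : |A + K - ⌊A + K⌋₊| ≤ 1 := by
          rw [abs_le]
          constructor <;> linarith
        calc δ / 2 * |A + K - ⌊A + K⌋₊| ≤ δ / 2 * 1 := by gcongr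
          _ = δ / 2 := mul_one _
    -- the residue
    have hqp : (0 : ℤ) < ((Q * M₀ : ℕ) : ℤ) := by exact_mod_cast Nat.mul_pos hQ hM
    obtain ⟨j, hj⟩ : ∃ j : ℕ, (j : ℤ) = i₀ % ((Q * M₀ : ℕ) : ℤ) :=
      ⟨(i₀ % ((Q * M₀ : ℕ) : ℤ)).toNat, Int.toNat_of_nonneg (Int.emod_nonneg _ hqp.ne')⟩
    have hjl : j < Q * M₀ := by
      have := Int.emod_lt_of_pos i₀ hqp
      rw [← hj] at this
      exact_mod_cast this
    have hTj : ∃ i : ℤ, T y₀ = (j : ℝ) / Q + M₀ * i := by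
      refine ⟨i₀ / ((Q * M₀ : ℕ) : ℤ), ?_⟩
      have h1 : (i₀ : ℝ) = (j : ℝ) + (Q * M₀ : ℝ) * ((i₀ / ((Q * M₀ : ℕ) : ℤ) : ℤ) : ℝ) := by
        have h2 : (i₀ : ℤ) = (j : ℤ) + ((Q * M₀ : ℕ) : ℤ) * (i₀ / ((Q * M₀ : ℕ) : ℤ)) := by
          rw [hj]
          exact (Int.emod_add_mul_ediv _ _).symm
        exact_mod_cast h2
      rw [hi₀, h1]
      field_simp
    obtain ⟨i₁, hi₁⟩ := hTj
    set ζ : U := pw ((j : ℝ) / Q) σ with hζ
    set r : ℝ := δ / 2 * ((k : ℝ) - K) with hr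
    have hζG : ζ ∈ Gf 0 := hpG _
    refine ⟨(pw r σ * ζ, ζ), List.mem_map.2 ⟨(k, j), List.pair_mem_product.2
      ⟨List.mem_range.2 hk, List.mem_range.2 hjl⟩, rfl⟩, fun h => ζ⁻¹ * R₁ h * ζ, ⟨?_, ?_, ?_⟩, ?_⟩
    · obtain ⟨hBm, hBi, -, hBc, -⟩ := hB U ℤ Gf d hG
      have h1 := ((hN U ℤ Gf 0 R₁).2.1 (kerS J η)).1 hR₁.1
      refine ((hN U ℤ Gf 0 _).2.1 (kerS J η)).2 ⟨?_, fun m => ker_conj hJ.nrm hη ζ hζG _ (h1.2 m)⟩
      exact hBm 0 _ _ (hBm 0 _ _ (hBc 0 _ ((Gf 0).inv_mem hζG)) h1.1) (hBc 0 _ hζG)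
    · show ζ⁻¹ * R₁ 0 * ζ = 1
      rw [hR₁.2.1]
      group
    · show ζ⁻¹ * R₁ 1 * ζ = 1
      rw [hR₁.2.2]
      group
    · intro y hy
      obtain ⟨hd1, hd2⟩ := hy₀ y hy
      have hy2 : (0 : ℤ) ≤ y ∧ (y : ℤ) < 2 * H := by
        unfold pce at hy
        rw [mem_filter, mem_Ico] at hy
        have := hy.1.2
        constructor <;> omega
      obtain ⟨i₂, hi₂⟩ := hST.per M₀ y y₀ hd2
      have hTy : T (y : ℤ) = (j : ℝ) / Q + ((i₁ + i₂ : ℤ) : ℝ) * M₀ := by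
        push_cast
        linarith
      have hS2 : |S (y : ℤ) - r| ≤ δ := by
        have h1 := hST.lip y y₀ hy2.1 hy2.2 hy0 hy1
        have h2 : E' * |((y : ℤ) : ℝ) - y₀| / H ≤ δ / 2 := by
          have h3 : E' * |((y : ℤ) : ℝ) - y₀| / H ≤ E' * (δ / (2 * (E' + 1)) * H) / H := by
            gcongr
          have h4 : E' * (δ / (2 * (E' + 1)) * H) / H = E' / (E' + 1) * (δ / 2) := by
            field_simp
          have h5 : E' / (E' + 1) ≤ 1 := by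
            rw [div_le_one (by positivity)]
            linarith
          have h6 : E' / (E' + 1) * (δ / 2) ≤ 1 * (δ / 2) := by gcongr
          linarith
        have h3 : S (y : ℤ) - r = (S (y : ℤ) - S y₀) + (S y₀ - r) := by ring
        rw [h3]
        calc |(S (y : ℤ) - S y₀) + (S y₀ - r)| ≤ |S (y : ℤ) - S y₀| + |S y₀ - r| := abs_add_le _ _
          _ ≤ δ / 2 + δ / 2 := by linarith
          _ = δ := by ring
      have hγ : pw (((i₁ + i₂ : ℤ) : ℝ) * M₀) σ ∈ (La : Subgroup U) := by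
        rw [pw_mul, hpz]
        exact (La : Subgroup U).zpow_mem hσM _
      have hgy : g (y : ℤ) ∈ Gf 0 := hg [] y
      have hR₁y : R₁ ((y : ℤ) - n) ∈ Gf 0 :=
        ((((hN U ℤ Gf 0 R₁).2.1 (kerS J η)).1 hR₁.1).1 [] ((y : ℤ) - n))
      have hX : pw r σ * g y * R₁ ((y : ℤ) - n) * ζ ∈ Gf 0 :=
        (Gf 0).mul_mem ((Gf 0).mul_mem ((Gf 0).mul_mem (hpG _) hgy) hR₁y) hζG
      have e1 : F (g (y : ℤ) * R ((y : ℤ) - n)) =
          F (pw (S (y : ℤ) - r) σ * (pw r σ * g y * R₁ ((y : ℤ) - n) * ζ)) := by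
        have e2 : g (y : ℤ) * R ((y : ℤ) - n) =
            pw (S (y : ℤ) - r) σ * (pw r σ * g y * R₁ ((y : ℤ) - n) * ζ) *
              pw (((i₁ + i₂ : ℤ) : ℝ) * M₀) σ := by
          have e3 : pw (S (y : ℤ)) σ = pw (S (y : ℤ) - r) σ * pw r σ := by
            rw [← pw_add, sub_add_cancel]
          rw [hid y, hTy, pw_add, e3, ← hζ]
          group
        rw [e2]
        exact hFn.lat _ ((Gf 0).mul_mem (hpG _) hX) _ hγ (hpG _)
      have e4 : (pw r σ * ζ) * (ζ⁻¹ * g y * ζ) * (ζ⁻¹ * R₁ ((y : ℤ) - n) * ζ) =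
          pw r σ * g y * R₁ ((y : ℤ) - n) * ζ := by group
      show ‖F (g (y : ℤ) * R ((y : ℤ) - n)) -
        F ((pw r σ * ζ) * (ζ⁻¹ * g y * ζ) * (ζ⁻¹ * R₁ ((y : ℤ) - n) * ζ))‖ ≤ ε
      rw [e1, e4]
      exact huc _ (hpG _) (hδn _ hS2) _ hX

end

end Pool.Agent.NG
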