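import Mathlib
import Pool.Agent.Lib.NG.J

/-!
# JET (MP_663568_nt), row FOUJ: Fourier expansion along `z`  (helper68)
-/

set_option autoImplicit false
open Finset Topology

namespace Pool.Agent.NG

open Amb Pool.Agent.Lib.MP_663568_nt Pool.Agent.Lib.MP_663568_nt.Katai
  Pool.Agent.Lib.MP_663568_nt.Nul Pool.Agent.SV Pool.Agent.VQ Pool.Agent.NV

noncomputable section

namespace FOUJaux

theorem pw_zero' {U : Type} [Amb U] (x : U) : pw (0 : ℝ) x = 1 := by
  have h := pw_add 0 0 x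
  rw [add_zero] at h
  exact mul_eq_left.mp h.symm

theorem le_adj {U : Type} [Amb U] (H : Subgroup U) (z : U) : H ≤ adj H z := by
  intro h hh
  apply Subgroup.subset_closure
  refine ⟨h, hh, 0, ?_⟩
  rw [pw_zero', mul_one]

theorem adj_le {U : Type} [Amb U] {H K : Subgroup U} {z : U} (hK : PwC K) (hH : H ≤ K)
    (hz : z ∈ K) : adj H z ≤ K := by
  rw [adj, Subgroup.closure_le]
  rintro x ⟨h, hh, t, rfl⟩
  exact K.mul_mem (hH hh) (hK z hz t)

theorem filt_le {U : Type} [Amb U] {Gf : ℕ → Subgroup U} {d : ℕ} (hG : Filt Gf d) (i : ℕ) :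
    Gf i ≤ Gf 0 := by
  induction i with
  | zero => exact le_rfl
  | succ i ih => exact (hG.anti i).trans ih

theorem nrmM {U : Type} [Amb U] {Gf : ℕ → Subgroup U} {d : ℕ} (hG : Filt Gf d) (i : ℕ) :
    Nrm (Gf 0) (Gf i) := by
  intro x hx y hy
  have h := hG.com 0 i x hx y hy
  rw [zero_add] at h
  have h2 := (Gf i).mul_mem h hy
  have h3 : x * y * x⁻¹ * y⁻¹ * y = x * y * x⁻¹ := by group
  rwa [h3] at h2

/-- `F (z ^ t x)` is continuous in `t`. -/
theorem cont {U : Type} [Amb U] {G M : Subgroup U} {z : U} {F : U → ℂ} (hG : PwC G)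
    (hz : z ∈ G) (hF : Fn G M F) {x : U} (hx : x ∈ G) :
    Continuous fun t : ℝ => F (pw t z * x) := by
  rw [Metric.continuous_iff]
  intro t ε hε
  obtain ⟨ρ, hρ, h1⟩ := hF.uc (ε / 2) (by positivity)
  have h2 : Continuous fun s : ℝ => nm (pw s z) :=
    nm_cont.comp (pw_cont.comp (continuous_id.prodMk continuous_const))
  have h3 : nm (pw (0 : ℝ) z) = 0 := by rw [pw_zero', nm_one]
  obtain ⟨δ, hδ, h4⟩ := Metric.continuous_iff.mp h2 0 ρ hρ
  refine ⟨δ, hδ, ?_⟩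
  intro s hs
  rw [Real.dist_eq] at hs
  have h5 := h4 (s - t) (by rw [Real.dist_eq, sub_zero]; exact hs)
  rw [h3, Real.dist_eq, sub_zero] at h5
  have h6 := h1 _ (hG z hz (s - t)) ((le_abs_self _).trans h5.le) (pw t z * x)
    (G.mul_mem (hG z hz t) hx)
  rw [← mul_assoc, ← pw_add, sub_add_cancel] at h6
  rw [dist_eq_norm]
  linarith

theorem icont {U : Type} [Amb U] {G M : Subgroup U} {z : U} {F : U → ℂ} (hG : PwC G)
    (hz : z ∈ G) (hF : Fn G M F) {x : U} (hx : x ∈ G) (k : ℤ) :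
    Continuous fun t : ℝ => F (pw t z * x) * ee (-(k * t)) := by
  have := continuous_ee
  exact (cont hG hz hF hx).mul (by fun_prop)

/-- From a Fourier coefficient of `F` back to `F`. -/
theorem back {U : Type} [AmbQ U] {G M : Subgroup U} {z : U} {F : U → ℂ} (hG : PwC G)
    (hz : z ∈ G) (hF : Fn G M F) (k : ℤ) (C : Cst U) (hC : C.Ok G) :
    ∃ C' : Cst U, C'.Ok G ∧ C.H₀ ≤ C'.H₀ ∧ 1 ≤ C'.H₀ ∧ ∀ (H : ℕ) (a : ℕ → ℂ) (g : ℤ → U),
      C'.H₀ ≤ H → (∀ y, g y ∈ G) → C.Cor (fz z k F) H a g → C'.Cor F H a g := by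
  refine ⟨⟨C.c / 2, C.q, max 1 C.H₀,
    (fun p : ℝ × U => pw p.1 z * p.2) '' (Set.Icc (0 : ℝ) 1 ×ˢ C.K), C.Z⟩,
    ⟨half_pos hC.c0, ?_, ?_, hC.Zf, hC.ZG⟩, le_max_right _ _, le_max_left _ _, ?_⟩
  · refine (isCompact_Icc.prod hC.K).image ?_
    exact (pw_cont.comp (continuous_fst.prodMk continuous_const)).mul continuous_snd
  · rintro x ⟨⟨t, κ⟩, ⟨-, hκ⟩, rfl⟩
    exact G.mul_mem (hG z hz t) (hC.KG hκ)
  · rintro H a g hH hg ⟨κ, hκ, ζ, hζ, s, t, m, b, hm, hmq, ht, hcor⟩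
    have hH1 : (1 : ℝ) ≤ H := by exact_mod_cast (le_max_left _ _).trans hH
    by_contra hcon
    have hlt : ∀ u ∈ Set.Icc (0 : ℝ) 1,
        ‖∑ y ∈ pce s t m b, a y * F (pw u z * (κ * g y * ζ))‖ ≤ C.c / 2 * H := by
      intro u hu
      by_contra hn
      apply hcon
      refine ⟨pw u z * κ, ⟨(u, κ), ⟨hu, hκ⟩, rfl⟩, ζ, hζ, s, t, m, b, hm, hmq, ht, ?_⟩
      refine (not_le.mp hn).le.trans (le_of_eq ?_)
      congr 1
      refine Finset.sum_congr rfl fun y _ => ?_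
      rw [mul_assoc (pw u z) κ, mul_assoc (pw u z) (κ * g y)]
    have hmem : ∀ y : ℕ, κ * g y * ζ ∈ G := fun y =>
      G.mul_mem (G.mul_mem (hC.KG hκ) (hg y)) (hC.ZG ζ hζ).1
    have heq : ∑ y ∈ pce s t m b, a y * fz z k F (κ * g y * ζ) =
        ∫ u in (0 : ℝ)..1, ∑ y ∈ pce s t m b,
          a y * (F (pw u z * (κ * g y * ζ)) * ee (-(k * u))) := by
      rw [intervalIntegral.integral_finsetSum]
      · refine Finset.sum_congr rfl fun y _ => ?_
        rw [intervalIntegral.integral_const_mul]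
        rfl
      · intro y _
        exact (continuous_const.mul (icont hG hz hF (hmem y) k)).intervalIntegrable _ _
    rw [heq] at hcor
    have h1 := intervalIntegral.norm_integral_le_of_norm_le_const (a := (0 : ℝ)) (b := 1)
      (C := C.c / 2 * H)
      (f := fun u => ∑ y ∈ pce s t m b, a y * (F (pw u z * (κ * g y * ζ)) * ee (-(k * u))))
      (by
        intro u hu
        rw [Set.uIoc_of_le zero_le_one] at hu
        have h2 := hlt u ⟨hu.1.le, hu.2⟩
        have h3 : ∑ y ∈ pce s t m b, a y * (F (pw u z * (κ * g y * ζ)) * ee (-(k * u))) =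
            (∑ y ∈ pce s t m b, a y * F (pw u z * (κ * g y * ζ))) * ee (-(k * u)) := by
          rw [Finset.sum_mul]
          refine Finset.sum_congr rfl fun y _ => ?_
          ring
        rw [h3, norm_mul, norm_ee, mul_one]
        exact h2)
    rw [sub_zero, abs_one, mul_one] at h1
    have h4 := hcor.trans h1
    have h5 : 0 < C.c * H := mul_pos hC.c0 (by linarith)
    linarith

end FOUJaux

open FOUJaux

theorem fouj : FOUJ_stmt := by
  intro hFOU hCSTF _ U _ Gf d J z hG hJ hz hzJ hV hA F hF δ hδ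
  have hMG : Gf (d + 1) ≤ Gf 0 := filt_le hG (d + 1)
  obtain ⟨h1, h2, -, h4⟩ := hFOU U (Gf 0) (Gf (d + 1)) z F (hG.rat 0) (hG.rat (d + 1)) hMG
    (nrmM hG (d + 1)) hz hF
  obtain ⟨K, c, hc, hc0, happ⟩ := h4 (δ / 4) (by positivity)
  set N : ℝ := 2 * K + 1 with hN
  have hN0 : 0 < N := by positivity
  set δ' : ℝ := δ / (2 * N) with hδ'
  have hδ'0 : 0 < δ' := by positivity
  have h0 : af Gf z 0 = Gf 0 :=
    le_antisymm (adj_le (hG.rat 0).pwc le_rfl hz.mem) (le_adj _ _)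
  -- the constants for each frequency
  have hk : ∀ k : ℤ, ∃ C : Cst U, C.Ok (Gf 0) ∧ 1 ≤ C.H₀ ∧ ∀ (H : ℕ) (a : ℕ → ℂ) (g : ℤ → U)
      (R : ℕ → ℤ → U) (S : Finset ℕ), C.H₀ ≤ H → Dta Gf J (fz z k F) δ' H a g R S →
      C.Cor F H a g := by
    intro k
    have hk1 : ∃ C : Cst U, C.Ok (Gf 0) ∧ ∀ (H : ℕ) (a : ℕ → ℂ) (g : ℤ → U)
        (R : ℕ → ℤ → U) (S : Finset ℕ), C.H₀ ≤ H → Dta Gf J (fz z k F) δ' H a g R S →
        C.Cor (fz z k F) H a g := by
      rcases eq_or_ne k 0 with hk0 | hk0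
      · subst hk0
        have hF0 : Fn (af Gf z 0) (af Gf z (d + 1)) (fz z 0 F) := by
          rw [h0]
          exact h2
        obtain ⟨C, hC, hCor⟩ := hA (fz z 0 F) hF0 δ' hδ'0
        rw [h0] at hC
        refine ⟨C, hC, ?_⟩
        intro H a g R S hH hD
        apply hCor H a g R S hH
        refine ⟨hD.ba, fun l n => le_adj _ _ (hD.pg l n), hD.sub, hD.card, ?_, hD.cor⟩
        intro n hn
        obtain ⟨hR1, hR2, hR3⟩ := hD.jt n hn
        exact ⟨fun l n => ⟨(hR1 l n).1, le_adj _ _ (hR1 l n).2⟩, hR2, hR3⟩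
      · exact hV (fz z k F) k hk0 (h1 k).1 (h1 k).2 δ' hδ'0
    obtain ⟨C, hC, hCor⟩ := hk1
    obtain ⟨C', hC', hH₀, hH1, hb⟩ := back (hG.rat 0).pwc hz.mem hF k C hC
    refine ⟨C', hC', hH1, ?_⟩
    intro H a g R S hH hD
    exact hb H a g hH (fun y => hD.pg [] y) (hCor H a g R S (hH₀.trans hH) hD)
  choose C hOk hC1 hC using hk
  obtain ⟨C', hC'Ok, hC'H, hC'Cor⟩ := hCSTF U (Gf 0) (2 * K + 1)
    (fun i : Fin (2 * K + 1) => C ((i : ℤ) - K)) (fun i => hOk _)
  refine ⟨C', hC'Ok, ?_⟩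
  intro H a g R S hH hD
  have hH1 : 1 ≤ H := by
    have := hC'H ⟨0, by omega⟩
    exact (hC1 _).trans (this.trans hH)
  have hHr : (1 : ℝ) ≤ H := by exact_mod_cast hH1
  -- the correlation with a Fourier coefficient
  have hx : ∀ n ∈ S, ∀ y : ℕ, g y * R n ((y : ℤ) - n) ∈ Gf 0 := by
    intro n hn y
    have hR : R n ((y : ℤ) - n) ∈ J ⊓ Gf 0 := (hD.jt n hn).1 [] _
    exact (Gf 0).mul_mem (hD.pg [] y) hR.2
  have hcard : ((Icc (-(K : ℤ)) K).card : ℝ) = N := by
    rw [Int.card_Icc]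
    have h5 : ((K : ℤ) + 1 - -(K : ℤ)).toNat = 2 * K + 1 := by omega
    rw [h5]
    push_cast
    rfl
  have hne : (Icc (-(K : ℤ)) K).Nonempty := ⟨0, by simp⟩
  have hn : ∀ n ∈ S, ∃ k ∈ Icc (-(K : ℤ)) K,
      δ' * H ≤ ‖∑ y ∈ range (2 * H), a y * fz z k F (g y * R n ((y : ℤ) - n))‖ := by
    intro n hnS
    apply Finset.exists_le_of_sum_le hne
    rw [Finset.sum_const, nsmul_eq_mul, hcard]
    have h5 := hD.cor n hnS
    have h6 : ∑ y ∈ range (2 * H), a y * F (g y * R n ((y : ℤ) - n)) =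
        ∑ y ∈ range (2 * H), a y * (F (g y * R n ((y : ℤ) - n)) -
          ∑ k ∈ Icc (-(K : ℤ)) K, (c k : ℂ) * fz z k F (g y * R n ((y : ℤ) - n))) +
        ∑ k ∈ Icc (-(K : ℤ)) K, (c k : ℂ) *
          ∑ y ∈ range (2 * H), a y * fz z k F (g y * R n ((y : ℤ) - n)) := by
      have h7 : ∑ k ∈ Icc (-(K : ℤ)) K, (c k : ℂ) *
          ∑ y ∈ range (2 * H), a y * fz z k F (g y * R n ((y : ℤ) - n)) =
          ∑ y ∈ range (2 * H), a y *
            ∑ k ∈ Icc (-(K : ℤ)) K, (c k : ℂ) * fz z k F (g y * R n ((y : ℤ) - n)) := by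
        simp_rw [Finset.mul_sum]
        rw [Finset.sum_comm]
        refine Finset.sum_congr rfl fun y _ => Finset.sum_congr rfl fun k _ => ?_
        ring
      rw [h7, ← Finset.sum_add_distrib]
      refine Finset.sum_congr rfl fun y _ => ?_
      ring
    rw [h6] at h5
    have h8 : ‖∑ y ∈ range (2 * H), a y * (F (g y * R n ((y : ℤ) - n)) -
          ∑ k ∈ Icc (-(K : ℤ)) K, (c k : ℂ) * fz z k F (g y * R n ((y : ℤ) - n)))‖ ≤
        2 * H * (δ / 4) := by
      calc _ ≤ ∑ y ∈ range (2 * H), ‖a y * (F (g y * R n ((y : ℤ) - n)) -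
          ∑ k ∈ Icc (-(K : ℤ)) K, (c k : ℂ) * fz z k F (g y * R n ((y : ℤ) - n)))‖ :=
            norm_sum_le _ _
        _ ≤ ∑ y ∈ range (2 * H), δ / 4 := by
            refine Finset.sum_le_sum fun y _ => ?_
            rw [norm_mul]
            calc _ ≤ 1 * (δ / 4) :=
                  mul_le_mul (hD.ba y) (happ _ (hx n hnS y)) (norm_nonneg _) zero_le_one
              _ = δ / 4 := one_mul _
        _ = 2 * H * (δ / 4) := by
            rw [Finset.sum_const, card_range, nsmul_eq_mul]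
            push_cast
            ring
    have h9 : ‖∑ k ∈ Icc (-(K : ℤ)) K, (c k : ℂ) *
          ∑ y ∈ range (2 * H), a y * fz z k F (g y * R n ((y : ℤ) - n))‖ ≤
        ∑ k ∈ Icc (-(K : ℤ)) K,
          ‖∑ y ∈ range (2 * H), a y * fz z k F (g y * R n ((y : ℤ) - n))‖ := by
      refine (norm_sum_le _ _).trans (Finset.sum_le_sum fun k _ => ?_)
      rw [norm_mul, Complex.norm_real, Real.norm_eq_abs]
      calc _ ≤ 1 * ‖∑ y ∈ range (2 * H), a y * fz z k F (g y * R n ((y : ℤ) - n))‖ :=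
            mul_le_mul_of_nonneg_right (hc k) (norm_nonneg _)
        _ = _ := one_mul _
    have h10 := h5.trans (norm_add_le _ _)
    have h11 : N * (δ' * H) = δ / 2 * H := by
      rw [hδ']
      field_simp
    rw [h11]
    linarith
  choose! kf' hkf1 hkf2 using hn
  obtain ⟨k, hkI, hkc⟩ := Finset.exists_le_card_fiber_of_nsmul_le_card_of_maps_to
    (s := S) (t := Icc (-(K : ℤ)) K) (f := kf') (b := δ / N * H) hkf1 hne (by
      rw [nsmul_eq_mul, hcard]
      refine le_trans (le_of_eq ?_) hD.card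
      field_simp)
  have hkI' := mem_Icc.mp hkI
  have hcor : (C k).Cor F H a g := by
    apply hC k H a g R (S.filter fun n => kf' n = k)
    · have h5 := hC'H ⟨(k + K).toNat, by omega⟩
      have h6 : (((⟨(k + K).toNat, by omega⟩ : Fin (2 * K + 1)) : ℕ) : ℤ) - K = k := by
        show (((k + K).toNat : ℕ) : ℤ) - K = k
        omega
      rw [h6] at h5
      exact h5.trans hH
    · refine ⟨hD.ba, hD.pg, (filter_subset _ _).trans hD.sub, ?_, ?_, ?_⟩
      · refine le_trans ?_ hkc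
        apply mul_le_mul_of_nonneg_right _ (by positivity)
        rw [hδ']
        apply div_le_div_of_nonneg_left hδ.le hN0
        linarith
      · intro n hn
        exact hD.jt n (mem_filter.mp hn).1
      · intro n hn
        obtain ⟨hn1, hn2⟩ := mem_filter.mp hn
        rw [← hn2]
        exact hkf2 n hn1
  have h5 := hC'Cor ⟨(k + K).toNat, by omega⟩ F H a g
  have h6 : (((⟨(k + K).toNat, by omega⟩ : Fin (2 * K + 1)) : ℕ) : ℤ) - K = k := by
    show (((k + K).toNat : ℕ) : ℤ) - K = k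
    omega
  rw [h6] at h5
  exact h5 hcor

end

end Pool.Agent.NG
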