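import Pool.Agent.Lib.NG.C
import Pool.Agent.Lib.NG.FCRel

/-!
# NVG2 (MP_663568_nt), row FULN, first piece: the local structure of a function with a full character

If `F` has the character `ξ` along `N` and `g` has the property PL for `N`, then
`F (g (m + Q h)) ≈ e(v(m, h)) F (g m)` with `v = ξ ∘ n`, a polynomial of degree at most `d`.
-/

set_option autoImplicit false
open Finset Topology

namespace Pool.Agent.NG

open Amb Pool.Agent.Lib.MP_663568_nt Pool.Agent.Lib.MP_663568_nt.Katai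
  Pool.Agent.Lib.MP_663568_nt.Nul Pool.Agent.SV Pool.Agent.VQ Pool.Agent.NV

noncomputable section

/-- the array of the coefficients of a polynomial in two variables as a double sequence -/
def arr {e : ℕ} (c : (Fin 2 → Fin (e + 1)) → ℝ) (i j : ℕ) : ℝ :=
  if h : i < e + 1 ∧ j < e + 1 then c ![⟨i, h.1⟩, ⟨j, h.2⟩] else 0

theorem mev_arr {e : ℕ} (c : (Fin 2 → Fin (e + 1)) → ℝ) (x : Fin 2 → ℝ) :
    mev c x = ∑ i ∈ range (e + 1), ∑ j ∈ range (e + 1), arr c i j * x 0 ^ i * x 1 ^ j := by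
  unfold mev
  rw [← (finTwoArrowEquiv (Fin (e + 1))).symm.sum_comp, Fintype.sum_prod_type, Finset.sum_range]
  refine Finset.sum_congr rfl fun i _ => ?_
  rw [Finset.sum_range]
  refine Finset.sum_congr rfl fun j _ => ?_
  have h : (i : ℕ) < e + 1 ∧ (j : ℕ) < e + 1 := ⟨i.2, j.2⟩
  unfold arr
  rw [dif_pos h, Fin.prod_univ_two]
  simp [finTwoArrowEquiv, mul_assoc]

theorem vev_arr {e : ℕ} (c : (Fin 2 → Fin (e + 1)) → ℝ) (m h : ℝ)
    (h0 : mev c ![m, 0] = 0) : vev e (arr c) m h = mev c ![m, h] := by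
  have hs : ∀ f : ℕ → ℝ, ∑ j ∈ range (e + 1), f j = f 0 + ∑ j ∈ Icc 1 e, f j := by
    intro f
    rw [Finset.sum_range_succ', add_comm]
    congr 1
    rw [Finset.range_eq_Ico, Finset.sum_Ico_add' f 0 e 1]
    rfl
  have h1 : ∀ y : ℝ, mev c ![m, y] = ∑ i ∈ range (e + 1), arr c i 0 * m ^ i
      + ∑ i ∈ range (e + 1), ∑ j ∈ Icc 1 e, arr c i j * m ^ i * y ^ j := by
    intro y
    rw [mev_arr, ← Finset.sum_add_distrib]
    refine Finset.sum_congr rfl fun i _ => ?_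
    rw [hs]
    simp
  have h2 : ∑ i ∈ range (e + 1), ∑ j ∈ Icc 1 e, arr c i j * m ^ i * (0 : ℝ) ^ j = 0 := by
    refine Finset.sum_eq_zero fun i _ => Finset.sum_eq_zero fun j hj => ?_
    have : j ≠ 0 := by
      have := (Finset.mem_Icc.1 hj).1
      omega
    rw [zero_pow this, mul_zero]
  rw [h1, h2, add_zero] at h0
  rw [h1, h0, zero_add]
  rfl

theorem fula (hD : DEG_stmt) (U : Type) [Amb U] (Gf : ℕ → Subgroup U) (d : ℕ) (N : Subgroup U)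
    (F : U → ℂ) (ξ : U → ℝ) (Q : ℕ) (E Bd : ℝ) (hG : Filt Gf d) (hN : Nor Gf d N)
    (hF : Fn (Gf 0) (Gf (d + 1)) F) (hξ : FCh Gf d N ξ F) (hQ : 1 ≤ Q) (hE : 0 < E)
    (hB : 0 < Bd) :
    ∃ ηf : ℝ → ℝ, (∀ ρ : ℝ, 0 < ρ → 0 < ηf ρ) ∧ ∀ (q : ℕ) (a : ℤ) (m₀ L l : ℕ) (g : ℤ → U),
      q ∣ Q → 1 ≤ l → PS Gf 0 g → PL Gf N a q Q E m₀ L l g → ∃ v : ℕ → ℕ → ℝ, ∀ m : ℕ, m₀ ≤ m →
      m < m₀ + L → (m : ℤ) ≡ a [ZMOD q] → ∀ ρ : ℝ, 0 < ρ → ∀ h : ℕ, (Q : ℝ) * h ≤ ηf ρ * l →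
      ‖F (g ((m + Q * h : ℕ) : ℤ)) - ee (vev (d + 1) v m h) * F (g (m : ℤ))‖ ≤ ρ * Bd := by
  classical
  have huc : ∀ ρ : ℝ, ∃ δ : ℝ, 0 < δ ∧ (0 < ρ → ∀ k ∈ Gf 0, nm k ≤ δ → ∀ x ∈ Gf 0,
      ‖F (k * x) - F x‖ ≤ ρ * Bd) := by
    intro ρ
    by_cases hρ : 0 < ρ
    · obtain ⟨δ, h1, h2⟩ := hF.uc (ρ * Bd) (by positivity)
      exact ⟨δ, h1, fun _ => h2⟩
    · exact ⟨1, one_pos, fun h => absurd h hρ⟩
  choose δ hδ hδ2 using huc
  refine ⟨fun ρ => min 1 (δ ρ) / E, fun ρ _ => div_pos (lt_min one_pos (hδ ρ)) hE, ?_⟩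
  intro q a m₀ L l g _ hl hg ⟨n, hn, hn0, hrel⟩
  obtain ⟨c, hc, -⟩ := hD U Gf (d + 1) d 2 N ξ n (Nat.le_succ d) hξ.add
    (fun x hx => hξ.van x hx.2) hn
  have hξ1 : ξ 1 = 0 := hξ.van 1 (Subgroup.one_mem _)
  have hgG : ∀ m : ℤ, g m ∈ Gf 0 := fun m => hg [] m
  have hnN : ∀ x, n x ∈ N := fun x => (hn [] x).1
  have hv : ∀ m h : ℤ, vev (d + 1) (arr c) m h = ξ (n ![m, h]) := by
    intro m h
    have e1 : ∀ y : ℤ, mev c ![(m : ℝ), (y : ℝ)] = ξ (n ![m, y]) := by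
      intro y
      rw [hc]
      congr 1
      ext i
      fin_cases i <;> rfl
    rw [vev_arr c m h, e1]
    have := e1 0
    rw [hn0, hξ1] at this
    simpa using this
  refine ⟨arr c, fun m hm1 hm2 hma ρ hρ h hh => ?_⟩
  have hl0 : (0 : ℝ) < l := by exact_mod_cast hl
  have hh1 : E * ((h : ℝ) * Q) ≤ min 1 (δ ρ) * l := by
    have h1 : (Q : ℝ) * h * E ≤ min 1 (δ ρ) / E * l * E := mul_le_mul_of_nonneg_right hh hE.le
    have h2 : min 1 (δ ρ) / E * l * E = min 1 (δ ρ) * l := by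
      field_simp
    rw [h2] at h1
    linarith
  have hh2 : E * ((h : ℝ) * Q) ≤ l := by
    have : min 1 (δ ρ) * l ≤ 1 * l := mul_le_mul_of_nonneg_right (min_le_left _ _) hl0.le
    linarith
  obtain ⟨k, hk, hk2, γ, hγ, hγ2, hgk⟩ := hrel (m : ℤ) (h : ℤ) (by exact_mod_cast hm1)
    (by exact_mod_cast hm2) hma (Int.natCast_nonneg h) (by simpa using hh2)
  have hk3 : nm k ≤ δ ρ := by
    refine hk2.trans ?_
    rw [div_le_iff₀ hl0]
    refine le_trans (by simpa using hh1) ?_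
    exact mul_le_mul_of_nonneg_right (min_le_right _ _) hl0.le
  have hnG : n ![(m : ℤ), (h : ℤ)] ∈ Gf 0 := hN.le (hnN _)
  have e1 : g ((m + Q * h : ℕ) : ℤ) = k * n ![(m : ℤ), (h : ℤ)] * g m * γ := by
    rw [← hgk]
    congr 1
  have hxG : n ![(m : ℤ), (h : ℤ)] * g m ∈ Gf 0 := (Gf 0).mul_mem hnG (hgG _)
  have e2 : F (g ((m + Q * h : ℕ) : ℤ)) = F (k * (n ![(m : ℤ), (h : ℤ)] * g m)) := by
    rw [e1, mul_assoc k, hF.lat _ ((Gf 0).mul_mem hk hxG) γ hγ hγ2]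
  have e3 : ee (vev (d + 1) (arr c) m h) * F (g (m : ℤ)) = F (n ![(m : ℤ), (h : ℤ)] * g m) := by
    rw [hξ.eq _ (hnN _) _ (hgG _), ← hv]
    norm_cast
  rw [e2, e3]
  exact hδ2 ρ hρ k hk hk3 _ hxG

end

end Pool.Agent.NG
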