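import Pool.Agent.Lib.NV.Defs

/-!
# Theorem NVG2 (MP_663568_nt), row FEJ: the value of a periodic function from its Fourier coefficients

The weights are `C(2 n, n + k) / C(2 n, n)`; the kernel is `(2 cos(π t)) ^ (2 n) / C(2 n, n)`.
(helper66, plan of helper4)
-/

set_option autoImplicit false
open Finset MeasureTheory

namespace Pool.Agent.NG

open Pool.Agent.Lib.MP_663568_nt.Katai

namespace Fej

/-- The weights. -/
noncomputable def w (n : ℕ) (k : ℤ) : ℝ :=
  if |k| ≤ n then ((2 * n).choose (k + n).toNat : ℝ) / (n.centralBinom : ℝ) else 0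

/-- The kernel. -/
noncomputable def Fr (n : ℕ) (t : ℝ) : ℝ :=
  (2 * Real.cos (Real.pi * t)) ^ (2 * n) / (n.centralBinom : ℝ)

lemma cpos (n : ℕ) : (0 : ℝ) < n.centralBinom := by exact_mod_cast n.centralBinom_pos

lemma abs_w (n : ℕ) (k : ℤ) : |w n k| ≤ 1 := by
  unfold w
  have hC := cpos n
  split_ifs
  · rw [abs_of_nonneg (by positivity), div_le_one hC]
    exact_mod_cast Nat.choose_le_centralBinom _ n
  · simp

lemma w_zero (n : ℕ) : w n 0 = 1 := by
  unfold w
  have hC := cpos n
  rw [if_pos (by simp)]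
  have h1 : ((0 : ℤ) + n).toNat = n := by simp
  rw [h1]
  exact div_self hC.ne'

lemma ee_powq (x : ℝ) (m : ℕ) : ee x ^ m = ee (m * x) := by
  induction m with
  | zero =>
    have := ee_int 0
    simp only [Int.cast_zero] at this
    simp [this]
  | succ m ih =>
    rw [pow_succ, ih, ← ee_add]
    congr 1
    push_cast
    ring

lemma two_cos_eq (t : ℝ) :
    ((2 * Real.cos (Real.pi * t) : ℝ) : ℂ) = ee (-(t / 2)) + ee (t / 2) := by
  push_cast
  rw [Complex.two_cos, add_comm, ee, ee]
  congr 2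
  · push_cast
    ring
  · push_cast
    ring

lemma sum_w (n : ℕ) (t : ℝ) :
    ∑ k ∈ Icc (-(n : ℤ)) n, (w n k : ℂ) * ee (-(k * t)) = (Fr n t : ℂ) := by
  have h1 : ∑ k ∈ Icc (-(n : ℤ)) n, (w n k : ℂ) * ee (-(k * t)) =
      ∑ m ∈ range (2 * n + 1),
        ((2 * n).choose m : ℂ) / (n.centralBinom : ℂ) * ee (-(((m : ℝ) - n) * t)) := by
    refine sum_nbij' (fun k => (k + n).toNat) (fun m => (m : ℤ) - n) ?_ ?_ ?_ ?_ ?_
    · intro k hk
      rw [mem_Icc] at hk
      rw [mem_range]
      omega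
    · intro m hm
      rw [mem_range] at hm
      rw [mem_Icc]
      omega
    · intro k hk
      rw [mem_Icc] at hk
      omega
    · intro m hm
      rw [mem_range] at hm
      omega
    · intro k hk
      rw [mem_Icc] at hk
      have h2 : |k| ≤ n := abs_le.2 hk
      have h3 : (((k + n).toNat : ℕ) : ℝ) - n = k := by
        have h4 : (((k + n).toNat : ℕ) : ℤ) = k + n := Int.toNat_of_nonneg (by omega)
        have h5 : (((k + n).toNat : ℕ) : ℝ) = ((k + n : ℤ) : ℝ) := by
          rw [← h4]; push_cast; rfl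
        rw [h5]; push_cast; ring
      unfold w
      rw [if_pos h2, h3]
      push_cast
      rfl
  have h2 : (Fr n t : ℂ) = (ee (-(t / 2)) + ee (t / 2)) ^ (2 * n) / (n.centralBinom : ℂ) := by
    unfold Fr
    rw [← two_cos_eq]
    push_cast
    rfl
  rw [h1, h2, add_pow, sum_div]
  refine sum_congr rfl fun m hm => ?_
  rw [mem_range] at hm
  rw [ee_powq, ee_powq, ← ee_add]
  have h3 : ((2 * n - m : ℕ) : ℝ) = 2 * n - m := by
    rw [Nat.cast_sub (by omega)]; push_cast; ring
  rw [h3]
  have h4 : (m : ℝ) * -(t / 2) + (2 * n - m) * (t / 2) = -(((m : ℝ) - n) * t) := by ring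
  rw [h4]
  ring

lemma int_ee {k : ℤ} (hk : k ≠ 0) : ∫ t in (0 : ℝ)..1, ee (-(k * t)) = 0 := by
  have hc : (-(2 * Real.pi * Complex.I * k) : ℂ) ≠ 0 := by
    have h1 : (k : ℂ) ≠ 0 := by exact_mod_cast hk
    have h2 : (Real.pi : ℂ) ≠ 0 := by exact_mod_cast Real.pi_ne_zero
    exact neg_ne_zero.2 (mul_ne_zero (mul_ne_zero (mul_ne_zero two_ne_zero h2) Complex.I_ne_zero) h1)
  have h1 : ∀ t : ℝ, ee (-(k * t)) = Complex.exp (-(2 * Real.pi * Complex.I * k) * t) := by
    intro t
    rw [ee]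
    congr 1
    push_cast
    ring
  simp_rw [h1]
  rw [integral_exp_mul_complex hc, ← h1, ← h1]
  have h2 : ee (-(k * (1 : ℝ))) = 1 := by
    have := ee_int (-k)
    push_cast at this
    rw [mul_one]
    exact this
  have h3 : ee (-(k * (0 : ℝ))) = 1 := by
    have := ee_int 0
    push_cast at this
    rw [mul_zero, neg_zero]
    exact this
  rw [h2, h3]
  simp

lemma cont_Fr (n : ℕ) : Continuous (Fr n) := by
  unfold Fr
  fun_prop

lemma Fr_nonneg (n : ℕ) (t : ℝ) : 0 ≤ Fr n t := by
  unfold Fr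
  have hC := cpos n
  rw [pow_mul]
  positivity

lemma int_Fr (n : ℕ) : ∫ t in (0 : ℝ)..1, Fr n t = 1 := by
  have h1 : ∫ t in (0 : ℝ)..1, (Fr n t : ℂ) = 1 := by
    simp_rw [← sum_w]
    rw [intervalIntegral.integral_finsetSum]
    · rw [sum_eq_single 0]
      · have h2 : ∀ t : ℝ, ee (-(((0 : ℤ) : ℝ) * t)) = 1 := by
          intro t
          have := ee_int 0
          push_cast at this
          push_cast
          rw [zero_mul, neg_zero]
          exact this
        simp_rw [h2, w_zero]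
        simp
      · intro k _ hk
        rw [intervalIntegral.integral_const_mul, int_ee hk, mul_zero]
      · intro h
        exact absurd (mem_Icc.2 ⟨by omega, by omega⟩) h
    · intro k _
      apply Continuous.intervalIntegrable
      have := continuous_ee
      fun_prop
  rw [intervalIntegral.integral_ofReal] at h1
  exact_mod_cast h1

lemma Fr_le {n : ℕ} (hn : 1 ≤ n) {t ρ : ℝ} (hρ : 0 ≤ ρ) (h2 : ρ ≤ t) (h3 : t ≤ 1 - ρ) :
    Fr n t ≤ 2 * n * ((Real.cos (Real.pi * ρ)) ^ 2) ^ n := by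
  have hpi := Real.pi_pos
  have hC := cpos n
  have h5 : Real.cos (Real.pi * t) ≤ Real.cos (Real.pi * ρ) := by
    apply Real.cos_le_cos_of_nonneg_of_le_pi
    · positivity
    · nlinarith
    · gcongr
  have h6 : -Real.cos (Real.pi * t) ≤ Real.cos (Real.pi * ρ) := by
    rw [← Real.cos_pi_sub]
    apply Real.cos_le_cos_of_nonneg_of_le_pi
    · positivity
    · nlinarith
    · nlinarith
  have h7 : Real.cos (Real.pi * t) ^ 2 ≤ Real.cos (Real.pi * ρ) ^ 2 := by
    rw [sq_le_sq]
    have h8 : |Real.cos (Real.pi * t)| ≤ Real.cos (Real.pi * ρ) := abs_le'.2 ⟨h5, h6⟩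
    exact h8.trans (le_abs_self _)
  unfold Fr
  rw [div_le_iff₀ hC, pow_mul]
  have h9 : (4 : ℝ) ^ n ≤ 2 * n * n.centralBinom := by
    exact_mod_cast Nat.four_pow_le_two_mul_self_mul_centralBinom n hn
  calc ((2 * Real.cos (Real.pi * t)) ^ 2) ^ n = 4 ^ n * (Real.cos (Real.pi * t) ^ 2) ^ n := by
        rw [← mul_pow]; congr 1; ring
    _ ≤ (2 * n * n.centralBinom) * (Real.cos (Real.pi * ρ) ^ 2) ^ n := by gcongr
    _ = 2 * n * (Real.cos (Real.pi * ρ) ^ 2) ^ n * n.centralBinom := by ring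

end Fej

open Fej in
/-- **Row FEJ.** -/
theorem fej : ∀ ρ M ε : ℝ, 0 < ρ → 0 < M → 0 < ε → ∃ (K : ℕ) (w : ℤ → ℝ), (∀ k, |w k| ≤ 1) ∧
    ∀ f : ℝ → ℂ, Continuous f → (∀ t, f (t + 1) = f t) → (∀ t, ‖f t‖ ≤ M) →
    (∀ s t, |s - t| ≤ ρ → ‖f s - f t‖ ≤ ε / 2) →
    ‖f 0 - ∑ k ∈ Finset.Icc (-(K : ℤ)) K, (w k : ℂ) * ∫ t in (0 : ℝ)..1, f t * ee (-(k * t))‖ ≤
      ε := by
  intro ρ M ε hρ hM hε
  set ρ' := min ρ (1 / 4) with hρ'
  have hρ0 : 0 < ρ' := lt_min hρ (by norm_num)
  have hρ4 : ρ' ≤ 1 / 4 := min_le_right _ _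
  have hρρ : ρ' ≤ ρ := min_le_left _ _
  set q := Real.cos (Real.pi * ρ') ^ 2 with hq
  have hq0 : 0 ≤ q := sq_nonneg _
  have hq1 : q < 1 := by
    have hpi := Real.pi_pos
    have h1 : 0 < Real.sin (Real.pi * ρ') := by
      apply Real.sin_pos_of_pos_of_lt_pi
      · positivity
      · nlinarith
    have h2 := Real.sin_sq_add_cos_sq (Real.pi * ρ')
    have h3 : 0 < Real.sin (Real.pi * ρ') ^ 2 := by positivity
    linarith
  obtain ⟨n, hn1, hn2⟩ : ∃ n : ℕ, 1 ≤ n ∧ (n : ℝ) * q ^ n ≤ ε / (8 * M) := by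
    have h1 := tendsto_self_mul_const_pow_of_lt_one hq0 hq1
    have h2 := h1.eventually (ge_mem_nhds (show (0 : ℝ) < ε / (8 * M) by positivity))
    obtain ⟨n, h3, h4⟩ := (h2.and (Filter.eventually_ge_atTop 1)).exists
    exact ⟨n, h4, h3⟩
  refine ⟨n, w n, abs_w n, ?_⟩
  intro f hf hper hfM hunif
  have hFc := cont_Fr n
  have hec := continuous_ee
  have e1 : ∑ k ∈ Finset.Icc (-(n : ℤ)) n, (w n k : ℂ) * ∫ t in (0 : ℝ)..1, f t * ee (-(k * t)) =
      ∫ t in (0 : ℝ)..1, f t * (Fr n t : ℂ) := by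
    simp_rw [← sum_w, mul_sum]
    rw [intervalIntegral.integral_finsetSum]
    · refine sum_congr rfl fun k _ => ?_
      rw [← intervalIntegral.integral_const_mul]
      congr 1
      funext t
      ring
    · intro k _
      apply Continuous.intervalIntegrable
      fun_prop
  have e2 : f 0 = ∫ t in (0 : ℝ)..1, f 0 * (Fr n t : ℂ) := by
    rw [intervalIntegral.integral_const_mul, intervalIntegral.integral_ofReal, int_Fr]
    simp
  have e3 : f 0 - ∑ k ∈ Finset.Icc (-(n : ℤ)) n, (w n k : ℂ) *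
      ∫ t in (0 : ℝ)..1, f t * ee (-(k * t)) = ∫ t in (0 : ℝ)..1, (f 0 - f t) * (Fr n t : ℂ) := by
    rw [e1]
    conv_lhs => rw [e2]
    rw [← intervalIntegral.integral_sub]
    · congr 1
      funext t
      ring
    · apply Continuous.intervalIntegrable
      fun_prop
    · apply Continuous.intervalIntegrable
      fun_prop
  rw [e3]
  have e4 : ‖∫ t in (0 : ℝ)..1, (f 0 - f t) * (Fr n t : ℂ)‖ ≤
      ∫ t in (0 : ℝ)..1, (ε / 2 * Fr n t + 2 * M * (2 * n * q ^ n)) := by
    refine (intervalIntegral.norm_integral_le_integral_norm zero_le_one).trans ?_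
    refine intervalIntegral.integral_mono_on zero_le_one ?_ ?_ ?_
    · apply Continuous.intervalIntegrable
      fun_prop
    · apply Continuous.intervalIntegrable
      fun_prop
    · intro t ht
      rw [norm_mul, Complex.norm_real, Real.norm_of_nonneg (Fr_nonneg n t)]
      have hF := Fr_nonneg n t
      have hr : 0 ≤ 2 * M * (2 * n * q ^ n) := by positivity
      rcases le_total t ρ' with h1 | h1
      · have h2 : ‖f 0 - f t‖ ≤ ε / 2 := by
          apply hunif
          rw [zero_sub, abs_neg, abs_of_nonneg ht.1]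
          linarith
        have := mul_le_mul_of_nonneg_right h2 hF
        linarith
      · rcases le_total (1 - ρ') t with h3 | h3
        · have h2 : ‖f 0 - f t‖ ≤ ε / 2 := by
            have h4 : f t = f (t - 1) := by
              rw [← hper (t - 1)]
              congr 1
              ring
            rw [h4]
            apply hunif
            rw [abs_of_nonneg (by linarith [ht.2])]
            linarith
          have := mul_le_mul_of_nonneg_right h2 hF
          linarith
        · have h2 : ‖f 0 - f t‖ ≤ 2 * M := by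
            refine (norm_sub_le _ _).trans ?_
            have := hfM 0
            have := hfM t
            linarith
          have h4 : Fr n t ≤ 2 * n * q ^ n := Fr_le hn1 hρ0.le h1 h3
          have h5 : ‖f 0 - f t‖ * Fr n t ≤ 2 * M * (2 * n * q ^ n) := by gcongr
          have h6 : 0 ≤ ε / 2 * Fr n t := by positivity
          linarith
  refine e4.trans ?_
  rw [intervalIntegral.integral_add, intervalIntegral.integral_const_mul, int_Fr,
    intervalIntegral.integral_const]
  · have h1 : 2 * M * (2 * n * q ^ n) ≤ ε / 2 := by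
      have h2 : 4 * M * (n * q ^ n) ≤ 4 * M * (ε / (8 * M)) := by gcongr
      have h3 : 4 * M * (ε / (8 * M)) = ε / 2 := by field_simp; ring
      linarith
    simp only [sub_zero, smul_eq_mul, one_mul, mul_one]
    linarith
  · apply Continuous.intervalIntegrable
    fun_prop
  · apply Continuous.intervalIntegrable
    fun_prop

end Pool.Agent.NG
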