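import Mathlib
import Pool.Agent.Lib.NG.J
import Pool.Agent.Lib.NG.FIL
import Pool.Agent.Lib.NG.LBM
import Pool.Agent.Lib.NG.LBN
import Pool.Agent.Lib.NG.FNC

/-!
# JET (MP_663568_nt), row G2R: the fibre product `{(x, y) : x y⁻¹ ∈ J}` (helper11)
-/

set_option autoImplicit false
open Finset Topology

namespace Pool.Agent.NG

noncomputable section

open Amb Pool.Agent.Lib.MP_663568_nt Pool.Agent.Lib.MP_663568_nt.Katai Pool.Agent.NV

namespace G2r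

section
variable {U : Type} [Amb U] {Gf : ℕ → Subgroup U} {d : ℕ}

theorem foldr_pr (g g' : ℤ → U) (l : List ℤ) :
    l.foldr dif (fun n => (g n, g' n)) = fun n => (l.foldr dif g n, l.foldr dif g' n) := by
  induction l with
  | nil => rfl
  | cons h l ih =>
    simp only [List.foldr_cons, ih]
    rfl

theorem mem (h : Filt Gf d) {J : Subgroup U} (hJ : Nor Gf d J) (i : ℕ) :
    (∀ q : U × U, q ∈ G2 Gf J i ↔ q.1 ∈ Gf i ∧ q.2 ∈ Gf i ∧ q.1 * q.2⁻¹ ∈ J) ∧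
      Rat (G2 Gf J i) := by
  have h1 := fib U (Gf i) (J ⊓ Gf i) (h.rat i) (int_row U J (Gf i) hJ.rat (h.rat i)) inf_le_right
    (fun x hx y hy => ⟨hJ.nrm x (FIL.le0 h i hx) y hy.1, FIL.nrm0 h i x (FIL.le0 h i hx) y hy.2⟩)
    (fun x hx y hy hxy t => ⟨pwj U Gf d J h hJ.rat.pwc hJ.rat.cl hJ.nrm hJ.ge x (FIL.le0 h i hx) y
      (FIL.le0 h i hy) hxy.1 t,
      (Gf i).mul_mem ((h.rat i).pwc x hx t) ((Gf i).inv_mem ((h.rat i).pwc y hy t))⟩)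
  refine ⟨fun q => ?_, h1.1.2⟩
  refine (h1.1.1 q).trans ⟨fun h2 => ⟨h2.1, h2.2.1, h2.2.2.1⟩, fun h2 => ⟨h2.1, h2.2.1, h2.2.2, ?_⟩⟩
  exact (Gf i).mul_mem h2.1 ((Gf i).inv_mem h2.2.1)

theorem filt (h : Filt Gf d) {J : Subgroup U} (hJ : Nor Gf d J) : Filt (G2 Gf J) d := by
  refine ⟨fun i => (mem h hJ i).2, fun i q hq => ?_, ?_, fun i j q hq q' hq' => ?_, fun i hi => ?_⟩
  · rw [(mem h hJ _).1] at hq ⊢
    exact ⟨h.anti i hq.1, h.anti i hq.2.1, hq.2.2⟩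
  · unfold G2
    rw [h.top]
  · rw [(mem h hJ _).1] at hq hq' ⊢
    refine ⟨h.com i j _ hq.1 _ hq'.1, h.com i j _ hq.2.1 _ hq'.2.1, ?_⟩
    have h2 := FIL.cm_mod hJ.nrm (FIL.le0 h i hq.2.1) (FIL.le0 h j hq'.2.1) hq.2.2 hq'.2.2
    have e1 : q.1 * q.2⁻¹ * q.2 = q.1 := by group
    have e2 : q'.1 * q'.2⁻¹ * q'.2 = q'.1 := by group
    rw [e1, e2] at h2
    exact h2
  · unfold G2
    rw [h.stab i hi]

theorem pw_one' (t : ℝ) : pw t (1 : U) = 1 := by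
  have h0 : pw 0 (1 : U) = 1 := by
    have := pw_add 0 0 (1 : U)
    rw [add_zero] at this
    exact mul_eq_left.mp this.symm
  have h1 := pw_mul t 0 (1 : U)
  rw [mul_zero, h0] at h1
  exact h1.symm

/-- Congruent maps have congruent differences. -/
theorem foldr_cong (h : Filt Gf d) {J : Subgroup U} (hJ : Nor Gf d J) {a b : ℤ → U}
    (ha : PS Gf 0 a) (hb : PS Gf 0 b) (hab : ∀ n, a n * (b n)⁻¹ ∈ J) (l : List ℤ) :
    ∀ n, l.foldr dif a n * (l.foldr dif b n)⁻¹ ∈ J := by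
  induction l with
  | nil => exact hab
  | cons s l ih =>
    intro n
    simp only [List.foldr_cons]
    set A := l.foldr dif a with hA
    set B := l.foldr dif b with hB
    have hA0 : ∀ m, A m ∈ Gf 0 := fun m => FIL.le0 h _ (ha l m)
    have hB0 : ∀ m, B m ∈ Gf 0 := fun m => FIL.le0 h _ (hb l m)
    have e : dif s A n * (dif s B n)⁻¹ =
        A (n + s) * ((A n)⁻¹ * (A n * (B n)⁻¹)⁻¹ * ((A n)⁻¹)⁻¹) * (A (n + s))⁻¹ *
          (A (n + s) * (B (n + s))⁻¹) := by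
      unfold dif
      group
    rw [e]
    refine J.mul_mem (hJ.nrm _ (hA0 _) _ (hJ.nrm _ ((Gf 0).inv_mem (hA0 _)) _ ?_)) (ih _)
    exact J.inv_mem (ih n)

end

end G2r

open G2r in
/-- **Row G2R.** -/
theorem g2r : G2R_stmt := by
  intro U _ Gf d J h hJ
  have hm : ∀ (i : ℕ) (q : U × U), q ∈ G2 Gf J i ↔ q.1 ∈ Gf i ∧ q.2 ∈ Gf i ∧ q.1 * q.2⁻¹ ∈ J :=
    fun i => (G2r.mem h hJ i).1
  refine ⟨filt h hJ, hm, fun z hz hzJ => ?_, fun F hF => ?_, fun F z k hV t q hq => ?_,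
    fun g R R' hg hR hR' l n => ?_⟩
  · refine ⟨⟨hz.la, Subgroup.one_mem _⟩, ?_, fun q hq t => ?_, fun hc => ?_⟩
    · rw [hm]
      refine ⟨hz.mem, (Gf 0).one_mem, ?_⟩
      show z * (1 : U)⁻¹ ∈ J
      rw [inv_one, mul_one]
      exact hzJ
    · rw [hm] at hq ⊢
      have h1 := hz.cen q.1 hq.1 t
      have e2 : q.2 * pw t (1 : U) * q.2⁻¹ * (pw t (1 : U))⁻¹ = 1 := by
        rw [pw_one']
        group
      refine ⟨h1, ?_, ?_⟩
      · show q.2 * pw t (1 : U) * q.2⁻¹ * (pw t (1 : U))⁻¹ ∈ Gf (d + 1)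
        rw [e2]
        exact (Gf _).one_mem
      · show q.1 * pw t z * q.1⁻¹ * (pw t z)⁻¹ *
          (q.2 * pw t (1 : U) * q.2⁻¹ * (pw t (1 : U))⁻¹)⁻¹ ∈ J
        rw [e2, inv_one, mul_one]
        exact hJ.ge h1
    · rw [hm] at hc
      exact hz.ne hc.1
  · have h1 := (fnc U (Gf 0) (Gf (d + 1)) F (h.rat 0) (FIL.nrm0 h _) hF).2.2 U (Gf 0)
      (Gf (d + 1)) F hF
    have hle : ∀ i, G2 Gf J i ≤ (Gf i).prod (Gf i) := fun i q hq =>
      ⟨((hm i q).1 hq).1, ((hm i q).1 hq).2.1⟩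
    refine ⟨?_, fun ε hε => ?_, fun x hx γ hγ hγG => ?_, fun m hmm x hx => ?_⟩
    · obtain ⟨B, hB⟩ := h1.bd
      exact ⟨B, fun x hx => hB x (hle 0 hx)⟩
    · obtain ⟨ρ, hρ, h2⟩ := h1.uc ε hε
      exact ⟨ρ, hρ, fun k hk hkn x hx => h2 k (hle 0 hk) hkn x (hle 0 hx)⟩
    · exact h1.lat x (hle 0 hx) γ hγ (hle 0 hγG)
    · exact h1.inv m (hle _ hmm) x (hle 0 hx)
  · rw [hm] at hq
    show F (pw t z * q.1) * (starRingEnd ℂ) (F (pw t (1 : U) * q.2)) =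
      ee (k * t) * (F q.1 * (starRingEnd ℂ) (F q.2))
    rw [pw_one', one_mul, hV t q.1 hq.1]
    ring
  · obtain ⟨m1, m2, m3, m4, m5, m6, m7⟩ := lbm U ℤ Gf d h
    have r1 := ((lbn U ℤ Gf 0 R).2.1 J).1 hR
    have r2 := ((lbn U ℤ Gf 0 R').2.1 J).1 hR'
    have a1 : PS Gf 0 fun m => g m * R m := m1 0 _ _ hg r1.1
    have a2 : PS Gf 0 fun m => g m * R' m := m1 0 _ _ hg r2.1
    have hab : ∀ n, (fun m => g m * R m) n * ((fun m => g m * R' m) n)⁻¹ ∈ J := by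
      intro n
      have hg0 : g n ∈ Gf 0 := hg [] n
      have e : (fun m => g m * R m) n * ((fun m => g m * R' m) n)⁻¹ =
          g n * (R n * (R' n)⁻¹) * (g n)⁻¹ := by
        show g n * R n * (g n * R' n)⁻¹ = _
        group
      rw [e]
      exact hJ.nrm _ hg0 _ (J.mul_mem (r1.2 n) (J.inv_mem (r2.2 n)))
    rw [foldr_pr, hm]
    exact ⟨a1 l n, a2 l n, foldr_cong h hJ a1 a2 hab l n⟩

end

end Pool.Agent.NG
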