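import Mathlib
import Pool.Agent.Lib.NG.B

/-!
# NVG2 (MP_663568_nt), row HSF: the value of the character on the sequence `hs`  (helper40)
-/

set_option autoImplicit false
open Finset Topology

namespace Pool.Agent.NG

noncomputable section

open Amb Pool.Agent.Lib.MP_663568_nt Pool.Agent.Lib.MP_663568_nt.Katai
  Pool.Agent.Lib.MP_663568_nt.Nul Pool.Agent.SV Pool.Agent.VQ Pool.Agent.NV

namespace HSFaux

theorem bf_add_left {D : ℕ} (b : Fin D → Fin D → ℤ) (u v w : Fin D → ℝ) :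
    bf b (u + v) w = bf b u w + bf b v w := by
  simp only [bf, Pi.add_apply]
  rw [← Finset.sum_add_distrib]
  apply Finset.sum_congr rfl
  intro i _
  rw [← Finset.sum_add_distrib]
  apply Finset.sum_congr rfl
  intro j _
  ring

theorem bf_add_right {D : ℕ} (b : Fin D → Fin D → ℤ) (u v w : Fin D → ℝ) :
    bf b u (v + w) = bf b u v + bf b u w := by
  simp only [bf, Pi.add_apply]
  rw [← Finset.sum_add_distrib]
  apply Finset.sum_congr rfl
  intro i _
  rw [← Finset.sum_add_distrib]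
  apply Finset.sum_congr rfl
  intro j _
  ring

theorem bf_smul_left {D : ℕ} (b : Fin D → Fin D → ℤ) (t : ℝ) (u v : Fin D → ℝ) :
    bf b (t • u) v = t * bf b u v := by
  simp only [bf, Finset.mul_sum, Pi.smul_apply, smul_eq_mul]
  apply Finset.sum_congr rfl
  intro i _
  apply Finset.sum_congr rfl
  intro j _
  ring

theorem bf_zero_left {D : ℕ} (b : Fin D → Fin D → ℤ) (v : Fin D → ℝ) : bf b 0 v = 0 := by
  simp [bf]

end HSFaux

open HSFaux

theorem hsf : HSF_stmt := by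
  intro U _ Gf d hd hG D kp e κ hK θ η₁ η₂ hθ b hb h4 h5 g a hS s m
  set G := Gf 0 with hGdef
  have htG : ∀ v, tau e v ∈ G := fun v => (hK.tau v).1
  have hkt : ∀ v, kp (tau e v) = v := fun v => (hK.tau v).2
  have hkp1 : kp 1 = 0 := by
    have h := hK.mul 1 G.one_mem 1 G.one_mem
    rw [mul_one] at h
    exact left_eq_add.mp h
  have hkpinv : ∀ x ∈ G, kp x⁻¹ = - kp x := by
    intro x hx
    have h := hK.mul x hx x⁻¹ (G.inv_mem hx)
    rw [mul_inv_cancel, hkp1] at h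
    exact (neg_eq_of_add_eq_zero_right h.symm).symm
  have huv : fr s a + fl s a = (s : ℝ) • a := by
    funext i
    simp only [fr, fl, Pi.add_apply, Pi.smul_apply, smul_eq_mul]
    exact Int.fract_add_floor _
  generalize hu : fr s a = u at *
  generalize hv : fl s a = v at *
  set h1 := (tau e u)⁻¹ * g (m + s) * (tau e v)⁻¹ with hh1
  have hg1 : g (m + s) ∈ G := hS.1 _
  have hg0 : g m ∈ G := hS.1 _
  have hh1G : h1 ∈ G := G.mul_mem (G.mul_mem (G.inv_mem (htG u)) hg1) (G.inv_mem (htG v))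
  have hkh1 : kp h1 = kp (g m) := by
    rw [hh1, hK.mul _ (G.mul_mem (G.inv_mem (htG u)) hg1) _ (G.inv_mem (htG v)),
      hK.mul _ (G.inv_mem (htG u)) _ hg1, hkpinv _ (htG u), hkpinv _ (htG v), hkt, hkt,
      hS.2 (m + s), hS.2 m]
    have h2 : ((m + (s : ℤ) : ℤ) : ℝ) • a = (m : ℝ) • a + (u + v) := by
      rw [huv, ← add_smul]
      push_cast
      rfl
    rw [h2]
    abel
  have hx : h1 * (g m)⁻¹ ∈ Gf 2 := by
    rw [← hK.ker _ (G.mul_mem hh1G (G.inv_mem hg0)), hK.mul _ hh1G _ (G.inv_mem hg0),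
      hkpinv _ hg0, hkh1, add_neg_cancel]
  have hθ1 : θ (h1, g m) = η₁ (g m) + η₂ (h1 * (g m)⁻¹) := hθ (h1, g m) hh1G hg0 hx
  have hxG : h1 * (g m)⁻¹ ∈ G := G.mul_mem hh1G (G.inv_mem hg0)
  have hq1 : qm kp e η₂ h1 = η₂ (h1 * (g m)⁻¹) + qm kp e η₂ (g m) := by
    have h2 := hb.mul _ hxG _ hg0
    rw [inv_mul_cancel_right, (hK.ker _ hxG).mpr hx, bf_zero_left, h4 _ hx, add_zero] at h2
    exact h2
  have hq2 : qm kp e η₂ (g (m + s)) = qm kp e η₂ h1 + bf b u (kp (g m)) +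
      (bf b u v + bf b (kp (g m)) v) := by
    have h2 : g (m + s) = tau e u * h1 * tau e v := by rw [hh1]; group
    have h3 := hb.mul _ (G.mul_mem (htG u) hh1G) _ (htG v)
    rw [← h2, hb.mul _ (htG u) _ hh1G, hK.mul _ (htG u) _ hh1G, hkt, hkt, h5, h5, hkh1,
      bf_add_left] at h3
    rw [h3]
    ring
  have h6 : (s : ℝ) * bf b a (kp (g m)) = bf b u (kp (g m)) + bf b v (kp (g m)) := by
    rw [← bf_smul_left, ← huv, bf_add_left]
  have h7 : hs e g a s m = (h1, g m) := by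
    rw [hs, hu, hv]
  rw [h7, hθ1, h6, NV.om]
  linarith

end

end Pool.Agent.NG
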