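import Mathlib
import Pool.Agent.Lib.NG.J

/-!
# JET (MP_663568_nt), row INDJ: the induction  (helper68)
-/

set_option autoImplicit false
open Finset Topology

namespace Pool.Agent.NG

open Amb Pool.Agent.Lib.MP_663568_nt Pool.Agent.Lib.MP_663568_nt.Katai
  Pool.Agent.Lib.MP_663568_nt.Nul Pool.Agent.SV Pool.Agent.VQ Pool.Agent.NV

noncomputable section

namespace INDJaux

theorem pw_zero' {U : Type} [Amb U] (x : U) : pw (0 : ℝ) x = 1 := by
  have h := pw_add 0 0 x
  rw [add_zero] at h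
  exact mul_eq_left.mp h.symm

theorem dm_le {U : Type} [Amb U] {H H' : Subgroup U} (h1 : PwC H) (h2 : PwC H') (h : H ≤ H') :
    dm H ≤ dm H' := by
  rcases eq_or_lt_of_le h with h | h
  · rw [h]
  · exact (dm_lt H H' h1 h2 h).le

theorem le_adj {U : Type} [Amb U] (H : Subgroup U) (z : U) : H ≤ adj H z := by
  intro h hh
  apply Subgroup.subset_closure
  refine ⟨h, hh, 0, ?_⟩
  rw [pw_zero', mul_one]

theorem mem_adj {U : Type} [Amb U] (H : Subgroup U) (z : U) : z ∈ adj H z := by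
  apply Subgroup.subset_closure
  refine ⟨1, H.one_mem, 1, ?_⟩
  rw [pw_one, one_mul]

theorem adj_le {U : Type} [Amb U] {H K : Subgroup U} {z : U} (hK : PwC K) (hH : H ≤ K)
    (hz : z ∈ K) : adj H z ≤ K := by
  rw [adj, Subgroup.closure_le]
  rintro x ⟨h, hh, t, rfl⟩
  exact K.mul_mem (hH hh) (hK z hz t)

theorem filt_le {U : Type} [Amb U] {Gf : ℕ → Subgroup U} {d : ℕ} (hG : Filt Gf d) (i : ℕ) :
    Gf i ≤ Gf 0 := by
  induction i with
  | zero => exact le_rfl
  | succ i ih => exact (hG.anti i).trans ih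

/-- `M` is normal in `G`. -/
theorem nrmM {U : Type} [Amb U] {Gf : ℕ → Subgroup U} {d : ℕ} (hG : Filt Gf d) (i : ℕ) :
    Nrm (Gf 0) (Gf i) := by
  intro x hx y hy
  have h := hG.com 0 i x hx y hy
  rw [zero_add] at h
  have h2 := (Gf i).mul_mem h hy
  have h3 : x * y * x⁻¹ * y⁻¹ * y = x * y * x⁻¹ := by group
  rwa [h3] at h2

/-- An element of the lattice of `J`, central modulo `M` and not in `M`. -/
theorem exz {U : Type} [Amb U] {Gf : ℕ → Subgroup U} {d : ℕ} {J : Subgroup U}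
    (hCZ : CENZ_stmt) (hU : UNB_stmt) (hG : Filt Gf d) (hJ : Nor Gf d J) (hn : ¬ J ≤ Gf (d + 1)) :
    ∃ z : U, Cen (Gf 0) (Gf (d + 1)) z ∧ z ∈ J := by
  by_cases hC : Cm (Gf 0) J (Gf (d + 1))
  · by_contra hcon
    have hall : ∀ γ ∈ (La : Subgroup U), γ ∈ J → γ ∈ Gf (d + 1) := by
      intro γ hγ hγJ
      by_contra hne
      refine hcon ⟨γ, ⟨hγ, hJ.le hγJ, ?_, hne⟩, hγJ⟩
      intro g hg t
      exact hC g hg _ (hJ.rat.pwc γ hγJ t)
    apply hn
    intro x hx
    obtain ⟨K, hK, hKJ, hcov⟩ := hJ.rat.coc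
    refine hU U (Gf 0) (Gf (d + 1)) x K (hG.rat 0) (hG.rat (d + 1)) (filt_le hG (d + 1))
      (nrmM hG (d + 1)) (hJ.le hx) ?_ hK ?_
    · intro g hg t
      exact hC g hg _ (hJ.rat.pwc x hx t)
    · intro n
      obtain ⟨k, hk, γ, hγ, hγJ, he⟩ := hcov _ (hJ.rat.pwc x hx (n : ℝ))
      exact ⟨k, hk, γ, hall γ hγ hγJ, he⟩
  · obtain ⟨γ, ν, z, -, -, -, -, hz, hzJ, -⟩ :=
      hCZ U Gf d J hG hJ.rat hJ.nrm hJ.ge hJ.le hC
    exact ⟨z, hz, hzJ⟩

end INDJaux

open INDJaux

theorem indj : INDJ_stmt := by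
  intro hT0 hFOU hVRT hCZ hUNB hKER hFIL
  have key : ∀ n : ℕ, ∀ (U : Type) [AmbQ U] (Gf : ℕ → Subgroup U) (d : ℕ) (J : Subgroup U),
      Filt Gf d → Nor Gf d J → dm (Gf 0) + dm J + (dm (Gf 0) - dm (Gf (d + 1))) = n →
      LOC Gf d J := by
    intro n
    induction n using Nat.strong_induction_on with
    | _ n IH =>
      intro U _ Gf d J hG hJ hn
      by_cases hle : J ≤ Gf (d + 1)
      · exact hT0 U Gf d J hG hJ hle
      obtain ⟨z, hz, hzJ⟩ := exz hCZ hUNB hG hJ hle
      have hMG : Gf (d + 1) ≤ Gf 0 := filt_le hG (d + 1)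
      have hdMG : dm (Gf (d + 1)) ≤ dm (Gf 0) :=
        dm_le (hG.rat (d + 1)).pwc (hG.rat 0).pwc hMG
      -- the kernels in `J`
      have hA : ∀ η : U → ℝ, Chr (Gf 0) J (Gf (d + 1)) η → LOC Gf d (kerS J η) := by
        intro η hη
        obtain ⟨hk1, hk2⟩ := hKER U J η hJ.rat hη.mul hη.int hη.cont
        have hN : Nor Gf d (kerS J η) := by
          refine ⟨hk2, ?_, ?_, ?_⟩
          · intro x hx
            exact hJ.le ((hk1 x).mp hx).1
          · intro x hx
            exact (hk1 x).mpr ⟨hJ.ge hx, hη.van x hx⟩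
          · intro x hx y hy
            obtain ⟨h1, h2⟩ := (hk1 y).mp hy
            exact (hk1 _).mpr ⟨hJ.nrm x hx y h1, by rw [hη.inv x hx y h1]; exact h2⟩
        refine IH _ ?_ U Gf d (kerS J η) hG hN rfl
        have h1 : dm (kerS J η) < dm J := by
          apply dm_lt _ _ hk2.pwc hJ.rat.pwc
          refine lt_of_le_of_ne ?_ ?_
          · intro x hx
            exact ((hk1 x).mp hx).1
          · intro h2
            obtain ⟨x, hx, hne⟩ := hη.ne
            rw [← h2] at hx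
            exact hne ((hk1 x).mp hx).2
        omega
      -- the kernels in `G`
      have hB : ∀ χ : U → ℝ, Chr (Gf 0) (Gf 0) (Gf (d + 1)) χ → (∀ x ∈ J, χ x = 0) →
          LOC (kf Gf χ) d J := by
        intro χ hχ hχJ
        obtain ⟨hk1, hk2⟩ := hKER U (Gf 0) χ (hG.rat 0) hχ.mul hχ.int hχ.cont
        have hF : Filt (kf Gf χ) d := (hFIL U Gf d hG).2.2.2.2.1 χ hχ
        have hNk : Nor (kf Gf χ) d J := by
          refine ⟨hJ.rat, ?_, ?_, ?_⟩
          · intro x hx
            exact ⟨hJ.le hx, (hk1 x).mpr ⟨hJ.le hx, hχJ x hx⟩⟩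
          · exact inf_le_left.trans hJ.ge
          · intro x hx y hy
            exact hJ.nrm x hx.1 y hy
        refine IH _ ?_ U (kf Gf χ) d J hF hNk rfl
        have h1 : dm (kf Gf χ 0) < dm (Gf 0) := by
          apply dm_lt _ _ (hF.rat 0).pwc (hG.rat 0).pwc
          refine lt_of_le_of_ne inf_le_left ?_
          intro h2
          obtain ⟨x, hx, hne⟩ := hχ.ne
          rw [← h2] at hx
          exact hne ((hk1 x).mp hx.2).2
        have h2 : kf Gf χ (d + 1) = Gf (d + 1) := by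
          apply inf_eq_left.mpr
          intro x hx
          exact (hk1 x).mpr ⟨hMG hx, hχ.van x hx⟩
        rw [h2]
        omega
      -- the larger M
      have hC : LOC (af Gf z) d J := by
        have hF : Filt (af Gf z) d := (hFIL U Gf d hG).2.2.2.1 z hz
        have h0 : af Gf z 0 = Gf 0 :=
          le_antisymm (adj_le (hG.rat 0).pwc le_rfl hz.mem) (le_adj _ _)
        have hNa : Nor (af Gf z) d J := by
          refine ⟨hJ.rat, ?_, ?_, ?_⟩
          · rw [h0]; exact hJ.le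
          · exact adj_le hJ.rat.pwc hJ.ge hzJ
          · rw [h0]; exact hJ.nrm
        refine IH _ ?_ U (af Gf z) d J hF hNa rfl
        have h1 : dm (Gf (d + 1)) < dm (af Gf z (d + 1)) := by
          apply dm_lt _ _ (hG.rat (d + 1)).pwc (hF.rat (d + 1)).pwc
          refine lt_of_le_of_ne (le_adj _ _) ?_
          intro h2
          apply hz.ne
          rw [h2]
          exact mem_adj _ _
        have h2 : dm (af Gf z (d + 1)) ≤ dm (Gf 0) := by
          apply dm_le (hF.rat (d + 1)).pwc (hG.rat 0).pwc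
          exact adj_le (hG.rat 0).pwc hMG hz.mem
        rw [h0]
        omega
      exact hFOU U Gf d J z hG hJ hz hzJ (hVRT U Gf d J z hG hJ hz hzJ hA hB) hC
  intro U _ Gf d J hG hJ
  exact key _ U Gf d J hG hJ rfl

end

end Pool.Agent.NG
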