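import Mathlib
import Pool.Agent.Lib.NG.J

/-!
# JET (MP_663568_nt), row NVJ1: one block

The windows of the block are compared with one window, the local statement gives a correlation on a
part of a class, which is split into short windows; a net for the compact set.  (helper55)
-/

set_option autoImplicit false
open Finset Topology

namespace Pool.Agent.NG

noncomputable section

open Amb AmbQ Pool.Agent.Lib.MP_663568_nt Pool.Agent.Lib.MP_663568_nt.Katai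
  Pool.Agent.Lib.MP_663568_nt.Nul Pool.Agent.SV Pool.Agent.VQ Pool.Agent.NV

namespace Nj

theorem shift1 (f : ℕ → ℂ) (B : ℝ) (hB : 0 ≤ B) (hf : ∀ y, ‖f y‖ ≤ B) (a b : ℕ) :
    ‖∑ y ∈ Ico a b, f (y + 1) - ∑ y ∈ Ico a b, f y‖ ≤ 2 * B := by
  rcases le_or_gt b a with h | h
  · rw [Finset.Ico_eq_empty (by omega), Finset.sum_empty, Finset.sum_empty, sub_zero, norm_zero]
    linarith
  · have e : ∑ y ∈ Ico a b, f (y + 1) - ∑ y ∈ Ico a b, f y = f b - f a := by
      obtain ⟨k, rfl⟩ := Nat.exists_eq_add_of_lt h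
      rw [Finset.sum_Ico_eq_sum_range, Finset.sum_Ico_eq_sum_range, ← Finset.sum_sub_distrib]
      have := Finset.sum_range_sub (fun i => f (a + i)) (a + k + 1 - a)
      rw [add_zero] at this
      have e2 : a + (a + k + 1 - a) = a + k + 1 := by omega
      rw [e2] at this
      rw [← this]
      rfl
    rw [e]
    calc ‖f b - f a‖ ≤ ‖f b‖ + ‖f a‖ := norm_sub_le _ _
      _ ≤ B + B := add_le_add (hf b) (hf a)
      _ = 2 * B := by ring

theorem shift (f : ℕ → ℂ) (B : ℝ) (hB : 0 ≤ B) (hf : ∀ y, ‖f y‖ ≤ B) (a b h : ℕ) :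
    ‖∑ y ∈ Ico a b, f (y + h) - ∑ y ∈ Ico a b, f y‖ ≤ 2 * h * B := by
  induction h with
  | zero => simp
  | succ h ih =>
    have h1 := shift1 (fun y => f (y + h)) B hB (fun y => hf _) a b
    have e : ∑ y ∈ Ico a b, f (y + 1 + h) = ∑ y ∈ Ico a b, f (y + (h + 1)) :=
      Finset.sum_congr rfl fun y _ => by rw [add_assoc, add_comm 1 h]
    rw [e] at h1
    calc ‖∑ y ∈ Ico a b, f (y + (h + 1)) - ∑ y ∈ Ico a b, f y‖
        = ‖(∑ y ∈ Ico a b, f (y + (h + 1)) - ∑ y ∈ Ico a b, f (y + h)) +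
          (∑ y ∈ Ico a b, f (y + h) - ∑ y ∈ Ico a b, f y)‖ := by congr 1; ring
      _ ≤ _ := norm_add_le _ _
      _ ≤ 2 * B + 2 * h * B := add_le_add h1 ih
      _ = 2 * ((h + 1 : ℕ) : ℝ) * B := by push_cast; ring

theorem win (f : ℕ → ℂ) (B : ℝ) (hB : 0 ≤ B) (hf : ∀ y, ‖f y‖ ≤ B) (a b N M l : ℕ) (hl : 1 ≤ l)
    (h1 : N ≤ a) (h2 : b ≤ M) :
    ‖∑ y ∈ Ico a b, f y‖ ≤ ∑ n ∈ Ico N M, ‖∑ h ∈ Icc 1 l, f (n + h)‖ / l + 2 * l * B := by
  have hl0 : (0 : ℝ) < l := by exact_mod_cast hl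
  have k1 : (l : ℂ) * ∑ y ∈ Ico a b, f y = ∑ y ∈ Ico a b, ∑ h ∈ Icc 1 l, f (y + h) -
      ∑ h ∈ Icc 1 l, (∑ y ∈ Ico a b, f (y + h) - ∑ y ∈ Ico a b, f y) := by
    rw [Finset.sum_sub_distrib, Finset.sum_comm, Finset.sum_const, Nat.card_Icc]
    simp
  have k2 : ‖∑ h ∈ Icc 1 l, (∑ y ∈ Ico a b, f (y + h) - ∑ y ∈ Ico a b, f y)‖ ≤
      l * (2 * l * B) := by
    calc _ ≤ ∑ h ∈ Icc 1 l, ‖∑ y ∈ Ico a b, f (y + h) - ∑ y ∈ Ico a b, f y‖ := norm_sum_le _ _
      _ ≤ ∑ h ∈ Icc 1 l, (2 * l * B : ℝ) := by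
        refine Finset.sum_le_sum fun h hh => (shift f B hB hf a b h).trans ?_
        have : (h : ℝ) ≤ l := by exact_mod_cast (Finset.mem_Icc.1 hh).2
        have := mul_le_mul_of_nonneg_right this hB
        linarith
      _ = l * (2 * l * B) := by
        rw [Finset.sum_const, Nat.card_Icc]
        simp
  have k3 : ‖∑ y ∈ Ico a b, ∑ h ∈ Icc 1 l, f (y + h)‖ ≤
      ∑ n ∈ Ico N M, ‖∑ h ∈ Icc 1 l, f (n + h)‖ := by
    refine (norm_sum_le _ _).trans ?_
    exact Finset.sum_le_sum_of_subset_of_nonneg (Finset.Ico_subset_Ico h1 h2)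
      fun _ _ _ => norm_nonneg _
  have k4 : l * ‖∑ y ∈ Ico a b, f y‖ ≤ ∑ n ∈ Ico N M, ‖∑ h ∈ Icc 1 l, f (n + h)‖ +
      l * (2 * l * B) := by
    calc l * ‖∑ y ∈ Ico a b, f y‖ = ‖(l : ℂ) * ∑ y ∈ Ico a b, f y‖ := by
          rw [norm_mul, Complex.norm_natCast]
      _ ≤ _ := by rw [k1]; exact norm_sub_le _ _
      _ ≤ _ := add_le_add k3 k2
  rw [← Finset.sum_div]
  have k5 : ‖∑ y ∈ Ico a b, f y‖ ≤ (∑ n ∈ Ico N M, ‖∑ h ∈ Icc 1 l, f (n + h)‖ +
      l * (2 * l * B)) / l := by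
    rw [le_div_iff₀ hl0]; linarith
  calc _ ≤ _ := k5
    _ = _ := by rw [add_div]; congr 1; field_simp

/-- A finite net. -/
theorem net {U : Type} [Amb U] (G M : Subgroup U) (F : U → ℂ) (hF : Fn G M F) (K : Set U)
    (hK : IsCompact K) (hKG : K ⊆ G) (η : ℝ) (hη : 0 < η) :
    ∃ L : List U, (∀ κ ∈ L, κ ∈ G) ∧ ∀ κ ∈ K, ∃ κ' ∈ L, ∀ x ∈ G,
      ‖F (κ * x) - F (κ' * x)‖ ≤ η := by
  obtain ⟨ρ, hρ, hu⟩ := hF.uc η hη
  have hU : ∀ v' ∈ K, {v : U | nm (v * v'⁻¹) < ρ} ∈ 𝓝 v' := by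
    intro v' _
    apply IsOpen.mem_nhds
    · exact isOpen_lt (nm_cont.comp (continuous_id.mul continuous_const)) continuous_const
    · show nm (v' * v'⁻¹) < ρ
      rw [mul_inv_cancel, nm_one]
      exact hρ
  obtain ⟨T, hT1, hT2⟩ := hK.elim_nhds_subcover _ hU
  refine ⟨T.toList, fun κ hκ => hKG (hT1 κ (Finset.mem_toList.1 hκ)), ?_⟩
  intro κ hκ
  obtain ⟨κ', hκ', hv⟩ := Set.mem_iUnion₂.mp (hT2 hκ)
  refine ⟨κ', Finset.mem_toList.2 hκ', ?_⟩
  intro x hx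
  have hv' : nm (κ * κ'⁻¹) < ρ := hv
  have h1 := hu _ (G.mul_mem (hKG hκ) (G.inv_mem (hKG (hT1 κ' hκ')))) hv'.le (κ' * x)
    (G.mul_mem (hKG (hT1 κ' hκ')) hx)
  have h2 : κ * κ'⁻¹ * (κ' * x) = κ * x := by group
  rw [h2] at h1
  exact h1

theorem ps_mem {U : Type} [Amb U] {Gf : ℕ → Subgroup U} {g : ℤ → U} (h : PS Gf 0 g) (n : ℤ) :
    g n ∈ Gf 0 := h [] n

theorem jt_mem {U : Type} [Amb U] {Gf : ℕ → Subgroup U} {J : Subgroup U} {R : ℤ → U}
    (h : Jt Gf J R) (n : ℤ) : R n ∈ Gf 0 := (h.1 [] n).2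

/-- Many windows are large. -/
theorem many (W : ℕ → ℝ) (L : ℕ) (ε B : ℝ) (hB : 0 < B) (hε : 0 ≤ ε)
    (hW : ∀ n, W n ≤ B) (h : ε * L ≤ ∑ n ∈ range L, W n) :
    ε / (2 * B) * L ≤ #((range L).filter fun n => ε / 2 ≤ W n) := by
  have k : ∑ n ∈ range L, W n ≤ ∑ n ∈ range L, ((if ε / 2 ≤ W n then B else 0) + ε / 2) := by
    refine Finset.sum_le_sum fun n _ => ?_
    by_cases hn : ε / 2 ≤ W n
    · rw [if_pos hn]; linarith [hW n]
    · rw [if_neg hn]; rw [not_le] at hn; linarith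
  rw [Finset.sum_add_distrib, ← Finset.sum_filter, Finset.sum_const, Finset.sum_const, nsmul_eq_mul,
    nsmul_eq_mul, Finset.card_range] at k
  have e : ε / (2 * B) * L = (ε * L - L * (ε / 2)) / B := by field_simp; ring
  rw [e, div_le_iff₀ hB]
  linarith

end Nj

open Nj in
/-- **row NVJ1** -/
theorem nvj1 : NVJ1_stmt := by
  intro hI hN U _ Gf d hG F hF ε hε
  have hanti : ∀ i, Gf i ≤ Gf 0 := by
    intro i
    induction i with
    | zero => exact le_rfl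
    | succ i ih => exact (hG.anti i).trans ih
  have hJ : Nor Gf d (Gf 0) := ⟨hG.rat 0, le_rfl, hanti _, fun x hx y hy =>
    (Gf 0).mul_mem ((Gf 0).mul_mem hx hy) ((Gf 0).inv_mem hx)⟩
  obtain ⟨B, hB1, hB⟩ : ∃ B : ℝ, 1 ≤ B ∧ ∀ x ∈ Gf 0, ‖F x‖ ≤ B := by
    obtain ⟨B, hB⟩ := hF.bd
    exact ⟨max B 1, le_max_right _ _, fun x hx => (hB x hx).trans (le_max_left _ _)⟩
  have hB0 : 0 < B := by linarith
  set θ : ℝ := min 1 (ε / (8 * B)) with hθ
  have hθ0 : 0 < θ := lt_min one_pos (by positivity)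
  have hθ1 : θ ≤ 1 := min_le_left _ _
  have hθ2 : θ * (8 * B) ≤ ε := by
    have : θ ≤ ε / (8 * B) := min_le_right _ _
    rwa [le_div_iff₀ (by positivity)] at this
  set δ : ℝ := ε * θ / (4 * B) with hδd
  have hδ : 0 < δ := by positivity
  have hδ4 : δ ≤ ε / 4 := by
    rw [hδd, div_le_div_iff₀ (by positivity) (by norm_num)]
    have : ε * θ ≤ ε * B := mul_le_mul_of_nonneg_left (hθ1.trans hB1) hε.le
    linarith
  obtain ⟨C, hC, hloc⟩ := hI U Gf d (Gf 0) hG hJ F hF δ hδ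
  have hC0 := hC.c0
  obtain ⟨L₁, hL₁, hnet⟩ := net (Gf 0) (Gf (d + 1)) F hF C.K hC.K hC.KG (C.c / 4) (by positivity)
  set c : ℝ := min 1 (C.c / (8 * B)) with hcd
  have hc0 : 0 < c := lt_min one_pos (by positivity)
  have hc1 : c ≤ 1 := min_le_left _ _
  have hc2 : c * (8 * B) ≤ C.c := by
    have : c ≤ C.c / (8 * B) := min_le_right _ _
    rwa [le_div_iff₀ (by positivity)] at this
  obtain ⟨H₁, hH₁⟩ := exists_nat_ge (max (2 / θ) (1 / c))
  refine ⟨θ, c, C.q, max C.H₀ (max H₁ 1), L₁ ×ˢ hC.Zf.toFinset.toList, hθ0, hθ1, hc0, hc1, ?_, ?_⟩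
  · intro w hw
    obtain ⟨h1, h2⟩ := List.mem_product.1 hw
    refine ⟨hL₁ _ h1, (hC.ZG _ ?_).1⟩
    exact (Set.Finite.mem_toFinset hC.Zf).1 (Finset.mem_toList.1 h2)
  intro H N g R hH hg hR hlarge
  have hHC : C.H₀ ≤ H := (le_max_left _ _).trans hH
  have hHH : H₁ ≤ H := ((le_max_left _ _).trans (le_max_right _ _)).trans hH
  have hH1 : 1 ≤ H := ((le_max_right _ _).trans (le_max_right _ _)).trans hH
  have hH0 : (0 : ℝ) < H := by exact_mod_cast hH1
  have hHr : max (2 / θ) (1 / c) ≤ H := hH₁.trans (by exact_mod_cast hHH)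
  have hHθ : 2 ≤ θ * H := by
    have : 2 / θ ≤ H := (le_max_left _ _).trans hHr
    rw [div_le_iff₀ hθ0] at this
    linarith
  have hHc : 1 ≤ c * H := by
    have : 1 / c ≤ H := (le_max_right _ _).trans hHr
    rw [div_le_iff₀ hc0] at this
    linarith
  set L : ℕ := ⌊θ * H⌋₊ with hL
  have hLle : (L : ℝ) ≤ θ * H := Nat.floor_le (by positivity)
  have hLge : θ * H / 2 ≤ L := by
    have := Nat.lt_floor_add_one (θ * (H : ℝ))
    rw [← hL] at this
    linarith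
  have hLH : L ≤ H := by
    have : (L : ℝ) ≤ H := hLle.trans (by nlinarith)
    exact_mod_cast this
  -- the functions
  have hmu : ∀ y : ℕ, ‖muC y‖ ≤ 1 := norm_muC
  have hfb : ∀ (n y : ℕ), ‖muC y * F (g y * R n ((y : ℤ) - n))‖ ≤ B := by
    intro n y
    rw [norm_mul]
    calc _ ≤ 1 * B := mul_le_mul (hmu y) (hB _ ((Gf 0).mul_mem (ps_mem hg _) (jt_mem (hR n) _)))
          (norm_nonneg _) zero_le_one
      _ = B := one_mul _
  have hWB : ∀ n : ℕ, Wg H n (fun m => F (g m * R n ((m : ℤ) - n))) ≤ B := by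
    intro n
    unfold Wg
    rw [div_le_iff₀ hH0]
    calc _ ≤ ∑ h ∈ Icc 1 H, ‖muC (n + h) * F (g ((n + h : ℕ) : ℤ) *
          R n (((n + h : ℕ) : ℤ) - n))‖ := norm_sum_le _ _
      _ ≤ ∑ h ∈ Icc 1 H, B := Finset.sum_le_sum fun h _ => hfb n (n + h)
      _ = B * H := by rw [Finset.sum_const, Nat.card_Icc]; simp [mul_comm]
  set W : ℕ → ℝ := fun n => Wg H (N + n) (fun m => F (g m * R (N + n) ((m : ℤ) - ((N + n : ℕ) : ℤ))))
    with hWd
  have hsum : ε * L ≤ ∑ n ∈ range L, W n := by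
    refine hlarge.trans (le_of_eq ?_)
    rw [Finset.sum_Ico_eq_sum_range, Nat.add_sub_cancel_left]
  have hmany := many W L ε B hB0 hε.le (fun n => hWB (N + n)) hsum
  set S : Finset ℕ := (range L).filter fun n => ε / 2 ≤ W n with hS
  set a : ℕ → ℂ := fun y => if 1 ≤ y ∧ y ≤ H then muC (N + y) else 0 with ha
  have ha1 : ∀ y, ‖a y‖ ≤ 1 := by
    intro y
    rw [ha]
    dsimp only
    split_ifs
    · exact hmu _
    · simp
  have hD : Dta Gf (Gf 0) F δ H a (fun y => g (y + N)) (fun n => R (N + n)) S := by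
    refine ⟨ha1, ?_, ?_, ?_, fun n _ => hR _, ?_⟩
    · exact (hN U ℤ Gf 0 g).1 ℤ (AddMonoidHom.id ℤ) N hg
    · intro n hn
      have := Finset.mem_range.1 (Finset.mem_filter.1 hn).1
      exact Finset.mem_range.2 (by omega)
    · refine le_trans ?_ hmany
      rw [hδd]
      have : ε / (2 * B) * (θ * H / 2) ≤ ε / (2 * B) * L :=
        mul_le_mul_of_nonneg_left hLge (by positivity)
      refine le_trans (le_of_eq ?_) this
      field_simp
      ring
    · intro n hn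
      obtain ⟨hnL, hnW⟩ := Finset.mem_filter.1 hn
      have hnL' : n < L := Finset.mem_range.1 hnL
      set f : ℕ → ℂ := fun y => muC (N + y) * F (g ((N + y : ℕ) : ℤ) *
        R (N + n) (((N + y : ℕ) : ℤ) - ((N + n : ℕ) : ℤ))) with hf
      have hfB : ∀ y, ‖f y‖ ≤ B := fun y => hfb (N + n) (N + y)
      have e1 : ∑ y ∈ range (2 * H), a y * F (g ((y : ℤ) + N) * R (N + n) ((y : ℤ) - n)) =
          ∑ y ∈ Ico 1 (H + 1), f y := by
        have e2 : ∀ y : ℕ, a y * F (g ((y : ℤ) + N) * R (N + n) ((y : ℤ) - n)) =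
            if 1 ≤ y ∧ y ≤ H then f y else 0 := by
          intro y
          rw [ha, hf]
          dsimp only
          split_ifs
          · have e3 : ((N + y : ℕ) : ℤ) = (y : ℤ) + N := by push_cast; ring
            have e4 : ((N + y : ℕ) : ℤ) - ((N + n : ℕ) : ℤ) = (y : ℤ) - n := by push_cast; ring
            rw [e4, e3]
          · rw [zero_mul]
        rw [Finset.sum_congr rfl fun y _ => e2 y, ← Finset.sum_filter]
        refine Finset.sum_congr ?_ fun _ _ => rfl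
        ext y
        simp only [Finset.mem_filter, Finset.mem_range, Finset.mem_Ico]
        omega
      show δ * H ≤ ‖∑ y ∈ range (2 * H), a y * F (g ((y : ℤ) + N) * R (N + n) ((y : ℤ) - n))‖
      rw [e1]
      have e5 : ε / 2 * H ≤ ‖∑ y ∈ Ico 1 (H + 1), f (y + n)‖ := by
        have h1 : W n = ‖∑ y ∈ Ico 1 (H + 1), f (y + n)‖ / H := by
          rw [hWd]
          dsimp only
          unfold Wg
          congr 2
          have e6 : Icc 1 H = Ico 1 (H + 1) := by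
            ext y
            simp only [Finset.mem_Icc, Finset.mem_Ico]
            omega
          rw [e6]
          refine Finset.sum_congr rfl fun y _ => ?_
          rw [hf]
          dsimp only
          have e7 : N + (y + n) = N + n + y := by ring
          rw [e7]
        rw [h1, le_div_iff₀ hH0] at hnW
        exact hnW
      have e8 := shift f B hB0.le hfB 1 (H + 1) n
      have e9 : 2 * (n : ℝ) * B ≤ ε / 4 * H := by
        have h1 : (n : ℝ) ≤ θ * H := le_trans (by exact_mod_cast hnL'.le) hLle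
        have h2 : (n : ℝ) * (8 * B) ≤ θ * H * (8 * B) :=
          mul_le_mul_of_nonneg_right h1 (by positivity)
        have h3 : θ * (8 * B) * H ≤ ε * H := mul_le_mul_of_nonneg_right hθ2 hH0.le
        nlinarith
      have e10 : ‖∑ y ∈ Ico 1 (H + 1), f (y + n)‖ ≤
          ‖∑ y ∈ Ico 1 (H + 1), f (y + n) - ∑ y ∈ Ico 1 (H + 1), f y‖ +
            ‖∑ y ∈ Ico 1 (H + 1), f y‖ := by
        have := norm_add_le (∑ y ∈ Ico 1 (H + 1), f (y + n) - ∑ y ∈ Ico 1 (H + 1), f y)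
          (∑ y ∈ Ico 1 (H + 1), f y)
        rwa [sub_add_cancel] at this
      have e11 : δ * H ≤ ε / 4 * H := mul_le_mul_of_nonneg_right hδ4 hH0.le
      linarith
  obtain ⟨κ, hκ, ζ, hζ, s, t, m, b, hm1, hmq, ht, hcor⟩ := hloc H a _ _ S hHC hD
  obtain ⟨κ', hκ', hnear⟩ := hnet κ hκ
  refine ⟨(κ', ζ), List.mem_product.2 ⟨hκ', Finset.mem_toList.2
    ((Set.Finite.mem_toFinset hC.Zf).2 hζ)⟩, m, (N + b) % m, hm1, hmq, Nat.mod_lt _ hm1, ?_⟩
  have hζG : ζ ∈ Gf 0 := (hC.ZG ζ hζ).1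
  set G : ℕ → ℂ := fun z => muC z * (if z ≡ (N + b) % m [MOD m] then F (κ' * g z * ζ) else 0) with hGd
  have hGB : ∀ z, ‖G z‖ ≤ B := by
    intro z
    rw [hGd]
    dsimp only
    split_ifs
    · rw [norm_mul]
      calc _ ≤ 1 * B := mul_le_mul (hmu z) (hB _ ((Gf 0).mul_mem ((Gf 0).mul_mem (hL₁ _ hκ')
            (ps_mem hg _)) hζG)) (norm_nonneg _) zero_le_one
        _ = B := one_mul _
    · rw [mul_zero, norm_zero]; exact hB0.le
  -- the net
  have k1 : ‖∑ y ∈ pce s t m b, a y * F (κ * g ((y : ℤ) + N) * ζ) -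
      ∑ y ∈ pce s t m b, a y * F (κ' * g ((y : ℤ) + N) * ζ)‖ ≤ C.c / 4 * H := by
    rw [← Finset.sum_sub_distrib]
    calc _ ≤ ∑ y ∈ pce s t m b, ‖a y * F (κ * g ((y : ℤ) + N) * ζ) -
          a y * F (κ' * g ((y : ℤ) + N) * ζ)‖ := norm_sum_le _ _
      _ ≤ ∑ y ∈ pce s t m b, (if 1 ≤ y ∧ y ≤ H then C.c / 4 else 0) := by
        refine Finset.sum_le_sum fun y _ => ?_
        rw [← mul_sub, norm_mul]
        have h1 : ‖F (κ * g ((y : ℤ) + N) * ζ) - F (κ' * g ((y : ℤ) + N) * ζ)‖ ≤ C.c / 4 := by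
          have := hnear (g ((y : ℤ) + N) * ζ) ((Gf 0).mul_mem (ps_mem hg _) hζG)
          rwa [← mul_assoc, ← mul_assoc] at this
        split_ifs with h
        · calc _ ≤ 1 * (C.c / 4) := mul_le_mul (ha1 y) h1 (norm_nonneg _) zero_le_one
            _ = _ := one_mul _
        · rw [ha]
          dsimp only
          rw [if_neg h, norm_zero, zero_mul]
      _ ≤ ∑ y ∈ Icc 1 H, C.c / 4 := by
        rw [← Finset.sum_filter]
        refine Finset.sum_le_sum_of_subset_of_nonneg ?_ fun _ _ _ => by positivity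
        intro y hy
        exact Finset.mem_Icc.2 (Finset.mem_filter.1 hy).2
      _ = C.c / 4 * H := by rw [Finset.sum_const, Nat.card_Icc]; simp [mul_comm]
  -- the class
  have k2 : ∑ y ∈ pce s t m b, a y * F (κ' * g ((y : ℤ) + N) * ζ) =
      ∑ z ∈ Ico (N + max s 1) (N + min t (H + 1)), G z := by
    have e1 : ∑ z ∈ Ico (N + max s 1) (N + min t (H + 1)), G z =
        ∑ y ∈ Ico (max s 1) (min t (H + 1)), G (N + y) := by
      rw [Finset.sum_Ico_add G (max s 1) (min t (H + 1)) N, add_comm N, add_comm N]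
    rw [e1]
    have e2 : ∀ y : ℕ, G (N + y) = if y ≡ b [MOD m] then muC (N + y) *
        F (κ' * g ((y : ℤ) + N) * ζ) else 0 := by
      intro y
      rw [hGd]
      dsimp only
      have h1 : (N + y ≡ (N + b) % m [MOD m]) ↔ y ≡ b [MOD m] := by
        constructor
        · intro h
          have h2 : N + y ≡ N + b [MOD m] := h.trans (Nat.mod_modEq _ _)
          exact Nat.ModEq.add_left_cancel' N h2
        · intro h
          exact (Nat.ModEq.add_left N h).trans (Nat.mod_modEq _ _).symm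
      have e3 : ((N + y : ℕ) : ℤ) = (y : ℤ) + N := by push_cast; ring
      by_cases h : y ≡ b [MOD m]
      · rw [if_pos h, if_pos (h1.2 h), e3]
      · rw [if_neg h, if_neg (fun h2 => h (h1.1 h2)), mul_zero]
    rw [Finset.sum_congr rfl fun y _ => e2 y, ← Finset.sum_filter]
    have e4 : ∀ y : ℕ, a y * F (κ' * g ((y : ℤ) + N) * ζ) = if 1 ≤ y ∧ y ≤ H then muC (N + y) *
        F (κ' * g ((y : ℤ) + N) * ζ) else 0 := by
      intro y
      rw [ha]
      dsimp only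
      split_ifs
      · rfl
      · rw [zero_mul]
    rw [Finset.sum_congr rfl fun y _ => e4 y, ← Finset.sum_filter]
    refine Finset.sum_congr ?_ fun _ _ => rfl
    ext y
    unfold pce
    simp only [Finset.mem_filter, Finset.mem_Ico]
    constructor
    · rintro ⟨⟨⟨h1, h2⟩, h3⟩, h4, h5⟩
      exact ⟨⟨by omega, by omega⟩, h3⟩
    · rintro ⟨⟨h1, h2⟩, h3⟩
      exact ⟨⟨⟨by omega, by omega⟩, h3⟩, by omega, by omega⟩
  -- the windows
  set l : ℕ := ⌊c * H⌋₊ with hl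
  have hl1 : 1 ≤ l := Nat.le_floor (by exact_mod_cast hHc)
  have hlle : (l : ℝ) ≤ c * H := Nat.floor_le (by positivity)
  have k3 := win G B hB0.le hGB (N + max s 1) (N + min t (H + 1)) N (N + 2 * H) l hl1 (by omega)
    (by omega)
  have k4 : 2 * (l : ℝ) * B ≤ C.c / 4 * H := by
    have h1 : (l : ℝ) * (8 * B) ≤ c * H * (8 * B) := mul_le_mul_of_nonneg_right hlle (by positivity)
    have h2 : c * (8 * B) * H ≤ C.c * H := mul_le_mul_of_nonneg_right hc2 hH0.le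
    nlinarith
  have k5 : C.c * H ≤ ‖∑ y ∈ pce s t m b, a y * F (κ * g ((y : ℤ) + N) * ζ)‖ := hcor
  have k6 : ‖∑ y ∈ pce s t m b, a y * F (κ * g ((y : ℤ) + N) * ζ)‖ ≤
      ‖∑ y ∈ pce s t m b, a y * F (κ * g ((y : ℤ) + N) * ζ) -
        ∑ y ∈ pce s t m b, a y * F (κ' * g ((y : ℤ) + N) * ζ)‖ +
      ‖∑ y ∈ pce s t m b, a y * F (κ' * g ((y : ℤ) + N) * ζ)‖ := by
    have := norm_add_le (∑ y ∈ pce s t m b, a y * F (κ * g ((y : ℤ) + N) * ζ) -
        ∑ y ∈ pce s t m b, a y * F (κ' * g ((y : ℤ) + N) * ζ))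
      (∑ y ∈ pce s t m b, a y * F (κ' * g ((y : ℤ) + N) * ζ))
    rwa [sub_add_cancel] at this
  rw [k2] at k6 k1
  have k7 : c * L ≤ C.c / 2 * H := by
    have h1 : c * (L : ℝ) ≤ c * H := mul_le_mul_of_nonneg_left (by exact_mod_cast hLH) hc0.le
    have h2 : c * 8 ≤ c * (8 * B) := mul_le_mul_of_nonneg_left (by linarith) hc0.le
    have h3 : c * H ≤ C.c / 8 * H := mul_le_mul_of_nonneg_right (by linarith) hH0.le
    nlinarith
  have k8 : ∑ n ∈ Ico N (N + 2 * H), ‖∑ h ∈ Icc 1 l, G (n + h)‖ / l =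
      ∑ n ∈ Ico N (N + 2 * H), Wg l n
        (fun y => if y ≡ (N + b) % m [MOD m] then F (κ' * g y * ζ) else 0) := rfl
  rw [k8] at k3
  show c * L ≤ ∑ n ∈ Ico N (N + 2 * H), Wg l n
        (fun y => if y ≡ (N + b) % m [MOD m] then F (κ' * g y * ζ) else 0)
  linarith

end

end Pool.Agent.NG
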