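import Mathlib
import Pool.Agent.Lib.NG.J
import Pool.Agent.Lib.NG.NVJ1
import Pool.Agent.Lib.NG.FIL
import Pool.Agent.Lib.NG.LBM
import Pool.Agent.Lib.NG.FNC
import Pool.Agent.Lib.NG.CELL

/-!
# JET (MP_663568_nt): left factors in a compact set and right factors in the lattice

From `JETU'` the same for maps `P` with `P n = κ X(n) γ`, `P (n + 1) = κ X(n + 1) γ`, where `κ` is in a
compact set and `γ` in the lattice (both depend on `n`).  In particular `κ γ` may be any element of a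
central subgroup in which the lattice is cocompact.  (helper11)
-/

set_option autoImplicit false
open Finset Topology

namespace Pool.Agent.NG

noncomputable section

open Amb AmbQ Pool.Agent.Lib.MP_663568_nt Pool.Agent.Lib.MP_663568_nt.Katai
  Pool.Agent.Lib.MP_663568_nt.Nul Pool.Agent.SV Pool.Agent.VQ Pool.Agent.NV

/-- Theorem JET for ambient groups, with left factors in a compact set and right factors in the
lattice. -/
def JETK : Prop := ∀ (U : Type) [AmbQ U] (Gf : ℕ → Subgroup U) (d : ℕ), Filt Gf d →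
  ∀ F : U → ℂ, Fn (Gf 0) (Gf (d + 1)) F → ∀ K : Set U, IsCompact K → K ⊆ Gf 0 →
  ∀ A ε : ℝ, 0 ≤ A → 0 < ε →
  ∃ (B : ℝ) (H₀ : ℕ), 0 ≤ B ∧ ∀ H : ℕ, H₀ ≤ H → ∀ xa xb : ℝ, (H : ℝ) ^ B ≤ xa → xa * H ≤ xb →
  ∀ X : ℕ → ℤ → U, (∀ n, PS Gf 0 (X n)) → SlowA X ((H : ℝ) ^ A) →
  ∀ κ γ : ℕ → U, (∀ n, κ n ∈ K) → (∀ n, γ n ∈ (La : Subgroup U) ∧ γ n ∈ Gf 0) →
  ∀ P : ℕ → ℤ → U, (∀ n, PS Gf 0 (P n)) →
  (∀ n : ℕ, P n n = κ n * X n n * γ n ∧ P n (n + 1) = κ n * X n (n + 1) * γ n) →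
  ∑ n ∈ Ioc ⌊xa⌋₊ ⌊xb⌋₊, (1 / (n : ℝ)) * Wg H n (fun m : ℕ => F (P n m)) ≤
    ε * (Real.log xb - Real.log xa)

namespace Jcen

/-- Constants for the elements of a list. -/
theorem unif {α : Type} (L : List α) (T : α → ℕ → ℝ → ℝ → Prop)
    (h : ∀ a ∈ L, ∃ (B : ℝ) (H₀ : ℕ), 0 ≤ B ∧ ∀ H : ℕ, H₀ ≤ H → ∀ xa xb : ℝ,
      (H : ℝ) ^ B ≤ xa → xa * H ≤ xb → T a H xa xb) :
    ∃ (B : ℝ) (H₀ : ℕ), 0 ≤ B ∧ ∀ a ∈ L, ∀ H : ℕ, H₀ ≤ H → ∀ xa xb : ℝ,
      (H : ℝ) ^ B ≤ xa → xa * H ≤ xb → T a H xa xb := by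
  induction L with
  | nil => exact ⟨0, 0, le_rfl, fun a ha => by simp at ha⟩
  | cons b L ih =>
    obtain ⟨B₁, H₁, hB₁, h1⟩ := h b (by simp)
    obtain ⟨B₂, H₂, hB₂, h2⟩ := ih fun a ha => h a (by simp [ha])
    refine ⟨max B₁ B₂, max (max H₁ H₂) 1, hB₁.trans (le_max_left _ _), ?_⟩
    intro a ha H hH xa xb hxa hxb
    have hH1 : (1 : ℝ) ≤ H := by exact_mod_cast (le_max_right _ _).trans hH
    have e1 : (H : ℝ) ^ B₁ ≤ xa :=
      (Real.rpow_le_rpow_of_exponent_le hH1 (le_max_left _ _)).trans hxa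
    have e2 : (H : ℝ) ^ B₂ ≤ xa :=
      (Real.rpow_le_rpow_of_exponent_le hH1 (le_max_right _ _)).trans hxa
    rw [List.mem_cons] at ha
    rcases ha with rfl | ha
    · exact h1 H (((le_max_left _ _).trans (le_max_left _ _)).trans hH) xa xb e1 hxb
    · exact h2 a ha H (((le_max_right _ _).trans (le_max_left _ _)).trans hH) xa xb e2 hxb

theorem wg_nonneg (H n : ℕ) (f : ℕ → ℂ) : 0 ≤ Wg H n f := by
  unfold Wg
  positivity

theorem wg_near (H n : ℕ) (f f' : ℕ → ℂ) (η : ℝ) (hη : 0 ≤ η) (hff : ∀ m, ‖f m - f' m‖ ≤ η) :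
    Wg H n f ≤ Wg H n f' + η := by
  unfold Wg
  rcases Nat.eq_zero_or_pos H with h0 | h0
  · subst h0
    simp only [Nat.cast_zero, div_zero, zero_add]
    exact hη
  have hH : (0 : ℝ) < H := by exact_mod_cast h0
  rw [div_le_iff₀ hH, add_mul, div_mul_cancel₀ _ hH.ne']
  have e : ∑ h ∈ Icc 1 H, muC (n + h) * f (n + h) = ∑ h ∈ Icc 1 H, muC (n + h) * f' (n + h) +
      ∑ h ∈ Icc 1 H, muC (n + h) * (f (n + h) - f' (n + h)) := by
    rw [← Finset.sum_add_distrib]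
    exact Finset.sum_congr rfl fun h _ => by ring
  rw [e]
  refine (norm_add_le _ _).trans (add_le_add le_rfl ?_)
  calc ‖∑ h ∈ Icc 1 H, muC (n + h) * (f (n + h) - f' (n + h))‖
      ≤ ∑ h ∈ Icc 1 H, ‖muC (n + h) * (f (n + h) - f' (n + h))‖ := norm_sum_le _ _
    _ ≤ ∑ _h ∈ Icc 1 H, η := by
        refine Finset.sum_le_sum fun h _ => ?_
        rw [norm_mul]
        calc ‖muC (n + h)‖ * ‖f (n + h) - f' (n + h)‖ ≤ 1 * η :=
              mul_le_mul (norm_muC _) (hff _) (norm_nonneg _) zero_le_one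
          _ = η := one_mul η
    _ = η * H := by
        rw [Finset.sum_const, Nat.card_Icc, Nat.add_sub_cancel, nsmul_eq_mul, mul_comm]

end Jcen

open Jcen in
/-- **JETK from JETU'.** -/
theorem jetk (hJ : JETU') : JETK := by
  intro U _ Gf d hG F hF K hK hKG A ε hA hε
  obtain ⟨L, hL, hnet⟩ := Nj.net (Gf 0) (Gf (d + 1)) F hF K hK hKG (ε / 4) (by positivity)
  obtain ⟨N, hN⟩ : ∃ N : ℝ, N = L.length + 1 := ⟨_, rfl⟩
  have hN1 : 1 ≤ N := by
    rw [hN]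
    have : (0 : ℝ) ≤ L.length := Nat.cast_nonneg _
    linarith
  have hN0 : 0 < N := by linarith
  obtain ⟨m1, m2, m3, m4, m5, m6, m7⟩ := lbm U ℤ Gf d hG
  obtain ⟨B, H₀, hB, hmain⟩ := unif L (fun κ' H xa xb => ∀ X : ℕ → ℤ → U, (∀ n, PS Gf 0 (X n)) →
      SlowA X ((H : ℝ) ^ A) → ∀ P : ℕ → ℤ → U, (∀ n, PS Gf 0 (P n)) →
      (∀ n : ℕ, P n n = X n n ∧ P n (n + 1) = X n (n + 1)) →
      ∑ n ∈ Ioc ⌊xa⌋₊ ⌊xb⌋₊, (1 / (n : ℝ)) * Wg H n (fun m : ℕ => F (κ' * P n m)) ≤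
        ε / (4 * N) * (Real.log xb - Real.log xa))
    (fun κ' hκ' => by
      obtain ⟨B, H₀, hB, h⟩ := hJ U Gf d hG (fun x => F (κ' * x))
        ((fnc U (Gf 0) (Gf (d + 1)) F (hG.rat 0) (FIL.nrm0 hG _) hF).1 κ' (hL κ' hκ')) A
        (ε / (4 * N)) hA (by positivity)
      exact ⟨B, H₀, hB, fun H hH xa xb hxa hxb X hX hS P hP hPX =>
        h H hH xa xb hxa hxb X hX hS P hP hPX⟩)
  refine ⟨max B 1, max H₀ 3, hB.trans (le_max_left _ _), ?_⟩
  intro H hH xa xb hxa hxb X hX hS κ γ hκ hγ P hP hPX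
  have hH3N : 3 ≤ H := (le_max_right _ _).trans hH
  have hH3 : (3 : ℝ) ≤ H := by exact_mod_cast hH3N
  have hH1 : (1 : ℝ) ≤ H := by linarith
  have hH0 : (0 : ℝ) < H := by linarith
  have hxaH : (H : ℝ) ≤ xa := by
    refine le_trans ?_ hxa
    calc (H : ℝ) = (H : ℝ) ^ (1 : ℝ) := (Real.rpow_one _).symm
      _ ≤ _ := Real.rpow_le_rpow_of_exponent_le hH1 (le_max_right _ _)
  have hxa0 : 0 < xa := by linarith
  have hxab : xa ≤ xb := by
    refine le_trans ?_ hxb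
    nlinarith
  have hΛ : 1 ≤ Real.log xb - Real.log xa := by
    have h1 := Real.log_le_log (by positivity) hxb
    rw [Real.log_mul hxa0.ne' hH0.ne'] at h1
    have h2 : 1 ≤ Real.log H := by
      rw [Real.le_log_iff_exp_le hH0]
      have := Real.exp_one_lt_d9
      linarith
    linarith
  have hsum := CELLx.sum_inv_le xa xb (by linarith) hxab
  -- the normalised maps
  set P' : ℕ → ℤ → U := fun n m => (κ n)⁻¹ * P n m * (γ n)⁻¹ with hP'
  have hκ0 : ∀ n, κ n ∈ Gf 0 := fun n => hKG (hκ n)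
  have hPS : ∀ n, PS Gf 0 (P' n) := fun n =>
    m1 0 _ _ (m1 0 _ _ (m4 0 _ ((Gf 0).inv_mem (hκ0 n))) (hP n)) (m4 0 _ ((Gf 0).inv_mem (hγ n).2))
  have hPX' : ∀ n : ℕ, P' n n = X n n ∧ P' n (n + 1) = X n (n + 1) := by
    intro n
    refine ⟨?_, ?_⟩
    · show (κ n)⁻¹ * P n n * (γ n)⁻¹ = X n n
      rw [(hPX n).1]
      group
    · show (κ n)⁻¹ * P n (n + 1) * (γ n)⁻¹ = X n (n + 1)
      rw [(hPX n).2]
      group
  have hval : ∀ (n : ℕ) (m : ℤ), F (P n m) = F (κ n * P' n m) := by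
    intro n m
    have e : P n m = κ n * P' n m * γ n := by
      show P n m = κ n * ((κ n)⁻¹ * P n m * (γ n)⁻¹) * γ n
      group
    rw [e]
    exact hF.lat _ ((Gf 0).mul_mem (hκ0 n) (hPS n [] m)) _ (hγ n).1 (hγ n).2
  have hWg : ∀ n, Wg H n (fun m : ℕ => F (P n m)) ≤
      ∑ i : Fin L.length, Wg H n (fun m : ℕ => F (L.get i * P' n m)) + ε / 4 := by
    intro n
    obtain ⟨κ', hκ', hnear⟩ := hnet (κ n) (hκ n)
    obtain ⟨i, hi⟩ := List.mem_iff_get.1 hκ'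
    have h1 : Wg H n (fun m : ℕ => F (P n m)) ≤ Wg H n (fun m : ℕ => F (κ' * P' n m)) + ε / 4 := by
      refine wg_near H n _ _ (ε / 4) (by positivity) fun m => ?_
      rw [hval]
      exact hnear _ (hPS n [] _)
    have h2 : Wg H n (fun m : ℕ => F (κ' * P' n m)) ≤
        ∑ i : Fin L.length, Wg H n (fun m : ℕ => F (L.get i * P' n m)) := by
      rw [← hi]
      exact Finset.single_le_sum
        (f := fun i : Fin L.length => Wg H n (fun m : ℕ => F (L.get i * P' n m)))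
        (fun i _ => wg_nonneg _ _ _) (Finset.mem_univ i)
    linarith
  have hpos : ∀ n : ℕ, (0 : ℝ) ≤ 1 / (n : ℝ) := fun n => by positivity
  calc ∑ n ∈ Ioc ⌊xa⌋₊ ⌊xb⌋₊, (1 / (n : ℝ)) * Wg H n (fun m : ℕ => F (P n m))
      ≤ ∑ n ∈ Ioc ⌊xa⌋₊ ⌊xb⌋₊, (1 / (n : ℝ)) *
        (∑ i : Fin L.length, Wg H n (fun m : ℕ => F (L.get i * P' n m)) + ε / 4) :=
        Finset.sum_le_sum fun n _ => mul_le_mul_of_nonneg_left (hWg n) (hpos n)
    _ = ∑ i : Fin L.length, ∑ n ∈ Ioc ⌊xa⌋₊ ⌊xb⌋₊, (1 / (n : ℝ)) *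
          Wg H n (fun m : ℕ => F (L.get i * P' n m)) +
        ε / 4 * ∑ n ∈ Ioc ⌊xa⌋₊ ⌊xb⌋₊, (1 / (n : ℝ)) := by
        rw [Finset.sum_comm, Finset.mul_sum, ← Finset.sum_add_distrib]
        exact Finset.sum_congr rfl fun n _ => by rw [mul_add, Finset.mul_sum]; ring
    _ ≤ ∑ _i : Fin L.length, ε / (4 * N) * (Real.log xb - Real.log xa) +
        ε / 4 * (Real.log xb - Real.log xa + 1) := by
        refine add_le_add (Finset.sum_le_sum fun i _ => ?_)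
          (mul_le_mul_of_nonneg_left hsum (by positivity))
        exact hmain (L.get i) (List.get_mem _ _) H ((le_max_left _ _).trans hH) xa xb
          ((Real.rpow_le_rpow_of_exponent_le hH1 (le_max_left _ _)).trans hxa) hxb X hX hS P' hPS
          hPX'
    _ ≤ ε * (Real.log xb - Real.log xa) := by
        rw [Finset.sum_const, Finset.card_univ, Fintype.card_fin, nsmul_eq_mul]
        have h1 : (L.length : ℝ) * (ε / (4 * N) * (Real.log xb - Real.log xa)) ≤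
            ε / 4 * (Real.log xb - Real.log xa) := by
          have h2 : (L.length : ℝ) * (ε / (4 * N)) ≤ ε / 4 := by
            rw [mul_div_assoc', div_le_div_iff₀ (by positivity) (by norm_num)]
            have : (L.length : ℝ) ≤ N := by rw [hN]; linarith
            nlinarith
          rw [← mul_assoc]
          exact mul_le_mul_of_nonneg_right h2 (by linarith)
        have h3 : ε / 4 * (Real.log xb - Real.log xa + 1) ≤ ε / 2 * (Real.log xb - Real.log xa) := by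
          nlinarith
        nlinarith

end

end Pool.Agent.NG
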