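import Mathlib
import Pool.Agent.Lib.NG.JCEN

/-!
# JETC (MP_663568_nt): all `N` and `H`, natural density; left factors and lattice factors

From `JETCU` (the theorem for the maps `P` with `P n = g n`, `P (n + 1) = g (n + 1)`, one `g` for all `n`)
the same for `P n = κ g(n) γ`, `P (n + 1) = κ g(n + 1) γ`, `κ` in a compact set, `γ` in the lattice.
(helper11)
-/

set_option autoImplicit false
open Finset Topology

namespace Pool.Agent.NG

noncomputable section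

open Amb AmbQ Pool.Agent.Lib.MP_663568_nt Pool.Agent.Lib.MP_663568_nt.Katai
  Pool.Agent.Lib.MP_663568_nt.Nul Pool.Agent.SV Pool.Agent.VQ Pool.Agent.NV

/-- Theorem JETC for ambient groups (row JCE). -/
def JETCU : Prop := ∀ (U : Type) [AmbQ U] (Gf : ℕ → Subgroup U) (d : ℕ), Filt Gf d →
  ∀ F : U → ℂ, Fn (Gf 0) (Gf (d + 1)) F → ∀ ε : ℝ, 0 < ε → ∃ H₀ : ℕ, ∀ H : ℕ, H₀ ≤ H →
  ∀ N : ℕ, 1 ≤ N → ∀ g : ℤ → U, PS Gf 0 g → ∀ P : ℕ → ℤ → U, (∀ n, PS Gf 0 (P n)) →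
  (∀ n : ℕ, P n n = g n ∧ P n (n + 1) = g (n + 1)) →
  ∑ n ∈ Ico N (2 * N), Wg H n (fun m : ℕ => F (P n m)) ≤ ε * N

/-- The same with left factors in a compact set and right factors in the lattice. -/
def JETCK : Prop := ∀ (U : Type) [AmbQ U] (Gf : ℕ → Subgroup U) (d : ℕ), Filt Gf d →
  ∀ F : U → ℂ, Fn (Gf 0) (Gf (d + 1)) F → ∀ K : Set U, IsCompact K → K ⊆ Gf 0 →
  ∀ ε : ℝ, 0 < ε → ∃ H₀ : ℕ, ∀ H : ℕ, H₀ ≤ H →
  ∀ N : ℕ, 1 ≤ N → ∀ g : ℤ → U, PS Gf 0 g →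
  ∀ κ γ : ℕ → U, (∀ n, κ n ∈ K) → (∀ n, γ n ∈ (La : Subgroup U) ∧ γ n ∈ Gf 0) →
  ∀ P : ℕ → ℤ → U, (∀ n, PS Gf 0 (P n)) →
  (∀ n : ℕ, P n n = κ n * g n * γ n ∧ P n (n + 1) = κ n * g (n + 1) * γ n) →
  ∑ n ∈ Ico N (2 * N), Wg H n (fun m : ℕ => F (P n m)) ≤ ε * N

namespace Jcf

/-- Constants for the elements of a list. -/
theorem unif {α : Type} (L : List α) (T : α → ℕ → Prop)
    (h : ∀ a ∈ L, ∃ H₀ : ℕ, ∀ H : ℕ, H₀ ≤ H → T a H) :
    ∃ H₀ : ℕ, ∀ a ∈ L, ∀ H : ℕ, H₀ ≤ H → T a H := by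
  induction L with
  | nil => exact ⟨0, fun a ha => by simp at ha⟩
  | cons b L ih =>
    obtain ⟨H₁, h1⟩ := h b (by simp)
    obtain ⟨H₂, h2⟩ := ih fun a ha => h a (by simp [ha])
    refine ⟨max H₁ H₂, ?_⟩
    intro a ha H hH
    rw [List.mem_cons] at ha
    rcases ha with rfl | ha
    · exact h1 H ((le_max_left _ _).trans hH)
    · exact h2 a ha H ((le_max_right _ _).trans hH)

end Jcf

open Jcf Jcen in
/-- **JETCK from JETCU.** -/
theorem jetck (hJ : JETCU) : JETCK := by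
  intro U _ Gf d hG F hF K hK hKG ε hε
  obtain ⟨L, hL, hnet⟩ := Nj.net (Gf 0) (Gf (d + 1)) F hF K hK hKG (ε / 4) (by positivity)
  obtain ⟨M, hM⟩ : ∃ M : ℝ, M = L.length + 1 := ⟨_, rfl⟩
  have hM1 : 1 ≤ M := by
    rw [hM]
    have : (0 : ℝ) ≤ L.length := Nat.cast_nonneg _
    linarith
  have hM0 : 0 < M := by linarith
  obtain ⟨m1, m2, m3, m4, m5, m6, m7⟩ := lbm U ℤ Gf d hG
  obtain ⟨H₀, hmain⟩ := Jcf.unif L (fun κ' H => ∀ N : ℕ, 1 ≤ N → ∀ g : ℤ → U, PS Gf 0 g →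
      ∀ P : ℕ → ℤ → U, (∀ n, PS Gf 0 (P n)) →
      (∀ n : ℕ, P n n = g n ∧ P n (n + 1) = g (n + 1)) →
      ∑ n ∈ Ico N (2 * N), Wg H n (fun m : ℕ => F (κ' * P n m)) ≤ ε / (4 * M) * N)
    (fun κ' hκ' => by
      obtain ⟨H₀, h⟩ := hJ U Gf d hG (fun x => F (κ' * x))
        ((fnc U (Gf 0) (Gf (d + 1)) F (hG.rat 0) (FIL.nrm0 hG _) hF).1 κ' (hL κ' hκ'))
        (ε / (4 * M)) (by positivity)
      exact ⟨H₀, fun H hH N hN g hg P hP hPg => h H hH N hN g hg P hP hPg⟩)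
  refine ⟨H₀, ?_⟩
  intro H hH N hN g hg κ γ hκ hγ P hP hPg
  -- the normalised maps
  set P' : ℕ → ℤ → U := fun n m => (κ n)⁻¹ * P n m * (γ n)⁻¹ with hP'
  have hκ0 : ∀ n, κ n ∈ Gf 0 := fun n => hKG (hκ n)
  have hPS : ∀ n, PS Gf 0 (P' n) := fun n =>
    m1 0 _ _ (m1 0 _ _ (m4 0 _ ((Gf 0).inv_mem (hκ0 n))) (hP n)) (m4 0 _ ((Gf 0).inv_mem (hγ n).2))
  have hPg' : ∀ n : ℕ, P' n n = g n ∧ P' n (n + 1) = g (n + 1) := by
    intro n
    refine ⟨?_, ?_⟩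
    · show (κ n)⁻¹ * P n n * (γ n)⁻¹ = g n
      rw [(hPg n).1]
      group
    · show (κ n)⁻¹ * P n (n + 1) * (γ n)⁻¹ = g (n + 1)
      rw [(hPg n).2]
      group
  have hval : ∀ (n : ℕ) (m : ℤ), F (P n m) = F (κ n * P' n m) := by
    intro n m
    have e : P n m = κ n * P' n m * γ n := by
      show P n m = κ n * ((κ n)⁻¹ * P n m * (γ n)⁻¹) * γ n
      group
    rw [e]
    exact hF.lat _ ((Gf 0).mul_mem (hκ0 n) (hPS n [] m)) _ (hγ n).1 (hγ n).2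
  have hWg : ∀ n, Wg H n (fun m : ℕ => F (P n m)) ≤
      ∑ i : Fin L.length, Wg H n (fun m : ℕ => F (L.get i * P' n m)) + ε / 4 := by
    intro n
    obtain ⟨κ', hκ', hnear⟩ := hnet (κ n) (hκ n)
    obtain ⟨i, hi⟩ := List.mem_iff_get.1 hκ'
    have h1 : Wg H n (fun m : ℕ => F (P n m)) ≤ Wg H n (fun m : ℕ => F (κ' * P' n m)) + ε / 4 := by
      refine wg_near H n _ _ (ε / 4) (by positivity) fun m => ?_
      rw [hval]
      exact hnear _ (hPS n [] _)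
    have h2 : Wg H n (fun m : ℕ => F (κ' * P' n m)) ≤
        ∑ i : Fin L.length, Wg H n (fun m : ℕ => F (L.get i * P' n m)) := by
      rw [← hi]
      exact Finset.single_le_sum
        (f := fun i : Fin L.length => Wg H n (fun m : ℕ => F (L.get i * P' n m)))
        (fun i _ => wg_nonneg _ _ _) (Finset.mem_univ i)
    linarith
  have hN0 : (0 : ℝ) ≤ N := Nat.cast_nonneg _
  calc ∑ n ∈ Ico N (2 * N), Wg H n (fun m : ℕ => F (P n m))
      ≤ ∑ n ∈ Ico N (2 * N), (∑ i : Fin L.length,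
          Wg H n (fun m : ℕ => F (L.get i * P' n m)) + ε / 4) :=
        Finset.sum_le_sum fun n _ => hWg n
    _ = ∑ i : Fin L.length, ∑ n ∈ Ico N (2 * N), Wg H n (fun m : ℕ => F (L.get i * P' n m)) +
        ε / 4 * N := by
        rw [Finset.sum_add_distrib, Finset.sum_comm, Finset.sum_const, Nat.card_Ico, nsmul_eq_mul]
        congr 1
        have : 2 * N - N = N := by omega
        rw [this, mul_comm]
    _ ≤ ∑ _i : Fin L.length, ε / (4 * M) * N + ε / 4 * N := by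
        refine add_le_add (Finset.sum_le_sum fun i _ => ?_) le_rfl
        exact hmain (L.get i) (List.get_mem _ _) H hH N hN g hg P' hPS hPg'
    _ ≤ ε * N := by
        rw [Finset.sum_const, Finset.card_univ, Fintype.card_fin, nsmul_eq_mul]
        have h2 : (L.length : ℝ) * (ε / (4 * M)) ≤ ε / 4 := by
          rw [mul_div_assoc', div_le_div_iff₀ (by positivity) (by norm_num)]
          have : (L.length : ℝ) ≤ M := by rw [hM]; linarith
          nlinarith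
        have h1 : (L.length : ℝ) * (ε / (4 * M) * N) ≤ ε / 4 * N := by
          rw [← mul_assoc]
          exact mul_le_mul_of_nonneg_right h2 hN0
        have h3 : 0 ≤ ε * N := by positivity
        linarith

end

end Pool.Agent.NG
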