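import Mathlib
import Pool.Agent.Lib.NG.CN
import Pool.Agent.Lib.NG.JCFA
import Pool.Agent.Lib.VQ.RED

/-!
# JETC (MP_663568_nt), row JCE: one polynomial map, all `N ≥ 1` and all `H ≥ H₀`

For one map `g` the bound for the windows of one fixed length gives the bound for all larger lengths
and all `N`; the blocks of `NVJ1'` for `N ≥ θ H`; a pointwise bound for `N < θ H`.  (helper11)
-/

set_option autoImplicit false
open Finset Topology

namespace Pool.Agent.NG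

noncomputable section

open Amb AmbQ Pool.Agent.Lib.MP_663568_nt Pool.Agent.Lib.MP_663568_nt.Katai
  Pool.Agent.Lib.MP_663568_nt.Nul Pool.Agent.SV Pool.Agent.VQ Pool.Agent.NV

namespace Jce

theorem wg_nonneg (l n : ℕ) (f : ℕ → ℂ) : 0 ≤ Wg l n f := by
  unfold Wg
  positivity

theorem wg_le (l m : ℕ) (f : ℕ → ℂ) {C : ℝ} (hC : 0 ≤ C) (hf : ∀ n, ‖f n‖ ≤ C) : Wg l m f ≤ C := by
  unfold Wg
  refine div_le_of_le_mul₀ (Nat.cast_nonneg _) hC ?_
  refine (norm_sum_le _ _).trans ?_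
  calc ∑ h ∈ Icc 1 l, ‖muC (m + h) * f (m + h)‖ ≤ ∑ _h ∈ Icc 1 l, C := by
        refine sum_le_sum fun h _ => ?_
        rw [norm_mul]
        calc _ ≤ 1 * C := mul_le_mul (norm_muC _) (hf _) (norm_nonneg _) zero_le_one
          _ = C := one_mul _
    _ = C * l := by
        rw [sum_const, Nat.card_Icc, nsmul_eq_mul]
        simp
        ring

/-- Constants for finitely many statements. -/
theorem unif2 {α : Type} (I : Finset α) (T : α → ℕ → ℕ → Prop)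
    (h : ∀ a ∈ I, ∃ l₀ : ℕ, ∀ l : ℕ, l₀ ≤ l → ∃ x₀ : ℕ, ∀ x : ℕ, x₀ ≤ x → T a l x) :
    ∃ l₀ : ℕ, ∀ l : ℕ, l₀ ≤ l → ∃ x₀ : ℕ, ∀ a ∈ I, ∀ x : ℕ, x₀ ≤ x → T a l x := by
  classical
  induction I using Finset.induction_on with
  | empty => exact ⟨0, fun l _ => ⟨0, fun a ha => by simp at ha⟩⟩
  | insert b I _ ih =>
    obtain ⟨l₁, h1⟩ := h b (Finset.mem_insert_self _ _)
    obtain ⟨l₂, h2⟩ := ih fun a ha => h a (Finset.mem_insert_of_mem ha)
    refine ⟨max l₁ l₂, fun l hl => ?_⟩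
    obtain ⟨x₁, h3⟩ := h1 l ((le_max_left _ _).trans hl)
    obtain ⟨x₂, h4⟩ := h2 l ((le_max_right _ _).trans hl)
    refine ⟨max x₁ x₂, fun a ha x hx => ?_⟩
    rw [Finset.mem_insert] at ha
    rcases ha with rfl | ha
    · exact h3 x ((le_max_left _ _).trans hx)
    · exact h4 a ha x ((le_max_right _ _).trans hx)

/-- Means along one map in a class. -/
theorem clsn (hN : NVPQN') (hFNC : FNC_stmt) (hL : LBM_stmt) (U : Type) [Amb U]
    (Gf : ℕ → Subgroup U) (d : ℕ) (hF : Filt Gf d) (F : U → ℂ) (hFn : Fn (Gf 0) (Gf (d + 1)) F)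
    (m b : ℕ) (hm : 1 ≤ m) (hb : b < m) (w₁ w₂ : U) (hw₁ : w₁ ∈ Gf 0) (hw₂ : w₂ ∈ Gf 0)
    (ε : ℝ) (hε : 0 < ε) :
    ∃ l₀ : ℕ, ∀ l : ℕ, l₀ ≤ l → ∃ x₀ : ℕ, ∀ x : ℕ, x₀ ≤ x → ∀ g : ℤ → U, PS Gf 0 g →
    ∑ n ∈ Ioc x (2 * x), Wg l n (fun y => if y ≡ b [MOD m] then F (w₁ * g (y : ℤ) * w₂) else 0) ≤
      ε * x := by
  classical
  have hF' : Fn (Gf 0) (Gf (d + 1)) fun x => F (w₁ * x) :=
    (hFNC U (Gf 0) (Gf (d + 1)) F (hF.rat 0) (FIL.nrm0 hF _) hFn).1 w₁ hw₁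
  obtain ⟨l₀, h⟩ := unif2 (range m) (fun r l x => ∀ g : ℤ → U, PS Gf 0 g →
      ∑ n ∈ Ioc x (2 * x), Wg l n (fun y : ℕ => ee (r * y / m) * F (w₁ * g (y : ℤ))) ≤ ε * x)
    (fun r _ => by
      obtain ⟨B, H₀, hB, h⟩ := hN U Gf d hF (fun x => F (w₁ * x)) hF' m r hm 0 ε le_rfl hε
      refine ⟨H₀, fun l hl => ⟨⌈(l : ℝ) ^ B⌉₊, fun x hx g hg => ?_⟩⟩
      refine h l hl x ((Nat.le_ceil _).trans (by exact_mod_cast hx)) (fun _ => g) (fun _ => hg) ?_
      unfold ChN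
      rw [Real.rpow_zero]
      simp)
  refine ⟨l₀, fun l hl => ?_⟩
  obtain ⟨x₀, h⟩ := h l hl
  refine ⟨x₀, fun x hx g hg => ?_⟩
  have hmr : (0 : ℝ) < m := by exact_mod_cast hm
  have hmc : (m : ℂ) ≠ 0 := by exact_mod_cast hmr.ne'
  obtain ⟨Y, hY⟩ : ∃ Y : ℤ → U, Y = fun y => g y * w₂ := ⟨_, rfl⟩
  have hYP : PS Gf 0 Y := by
    rw [hY]
    exact (hL U ℤ Gf d hF).1 0 _ _ hg ((hL U ℤ Gf d hF).2.2.2.1 0 w₂ hw₂)
  have key : ∀ n, Wg l n (fun y : ℕ => if y ≡ b [MOD m] then F (w₁ * g (y : ℤ) * w₂) else 0) ≤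
      ∑ r ∈ range m, (1 / m : ℝ) * Wg l n (fun y : ℕ => ee (r * y / m) * F (w₁ * Y (y : ℤ))) := by
    intro n
    have e1 : (fun y : ℕ => if y ≡ b [MOD m] then F (w₁ * g (y : ℤ) * w₂) else 0) =
        fun y : ℕ => ∑ r ∈ range m, (((1 / m : ℝ) : ℂ) * ee (-(r * b / m))) *
          (ee (r * y / m) * F (w₁ * Y (y : ℤ))) := by
      funext y
      have e2 : ∀ r ∈ range m, (((1 / m : ℝ) : ℂ) * ee (-(r * b / m))) *
          (ee (r * y / m) * F (w₁ * Y (y : ℤ))) =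
          ((1 / m : ℝ) : ℂ) * F (w₁ * Y (y : ℤ)) *
            ee ((r : ℝ) * (((y : ℝ) - b) / m)) := by
        intro r _
        have e3 : (r : ℝ) * (((y : ℝ) - b) / m) = -(r * b / m) + r * y / m := by ring
        rw [e3, ee_add]
        ring
      rw [sum_congr rfl e2, ← mul_sum, REDx.orth m hm y b hb]
      have e4 : (y ≡ b [MOD m]) ↔ y % m = b := by
        unfold Nat.ModEq
        rw [Nat.mod_eq_of_lt hb]
      by_cases h1 : y % m = b
      · rw [if_pos (e4.2 h1), if_pos h1, hY]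
        push_cast
        rw [mul_assoc w₁]
        field_simp
      · rw [if_neg (fun h2 => h1 (e4.1 h2)), if_neg h1, mul_zero]
    rw [e1]
    unfold Wg
    have e5 : ∑ h ∈ Icc 1 l, muC (n + h) * ∑ r ∈ range m, (((1 / m : ℝ) : ℂ) *
        ee (-(r * b / m))) * (ee (r * ((n + h : ℕ) : ℝ) / m) * F (w₁ * Y ((n + h : ℕ) : ℤ))) =
        ∑ r ∈ range m, (((1 / m : ℝ) : ℂ) * ee (-(r * b / m))) *
          ∑ h ∈ Icc 1 l, muC (n + h) * (ee (r * ((n + h : ℕ) : ℝ) / m) *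
            F (w₁ * Y ((n + h : ℕ) : ℤ))) := by
      simp_rw [mul_sum]
      rw [sum_comm]
      refine sum_congr rfl fun r _ => sum_congr rfl fun h _ => ?_
      ring
    rw [e5]
    have e6 : ∀ r ∈ range m, (1 / m : ℝ) * (‖∑ h ∈ Icc 1 l, muC (n + h) *
        (ee (r * ((n + h : ℕ) : ℝ) / m) * F (w₁ * Y ((n + h : ℕ) : ℤ)))‖ / l) =
        ((1 / m : ℝ) * ‖∑ h ∈ Icc 1 l, muC (n + h) *
        (ee (r * ((n + h : ℕ) : ℝ) / m) * F (w₁ * Y ((n + h : ℕ) : ℤ)))‖) / l :=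
      fun r _ => by ring
    rw [sum_congr rfl e6, ← sum_div]
    refine div_le_div_of_nonneg_right ?_ (Nat.cast_nonneg _)
    refine (norm_sum_le _ _).trans (sum_le_sum fun r _ => ?_)
    rw [norm_mul, norm_mul, norm_ee, mul_one, Complex.norm_real, Real.norm_eq_abs,
      abs_of_pos (by positivity)]
  calc ∑ n ∈ Ioc x (2 * x),
      Wg l n (fun y => if y ≡ b [MOD m] then F (w₁ * g (y : ℤ) * w₂) else 0)
      ≤ ∑ n ∈ Ioc x (2 * x), ∑ r ∈ range m, (1 / m : ℝ) *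
          Wg l n (fun y : ℕ => ee (r * y / m) * F (w₁ * Y (y : ℤ))) :=
        sum_le_sum fun n _ => key n
    _ = ∑ r ∈ range m, (1 / m : ℝ) * ∑ n ∈ Ioc x (2 * x),
          Wg l n (fun y : ℕ => ee (r * y / m) * F (w₁ * Y (y : ℤ))) := by
        simp_rw [mul_sum]
        rw [sum_comm]
    _ ≤ ∑ r ∈ range m, (1 / m : ℝ) * (ε * x) :=
        sum_le_sum fun r hr => mul_le_mul_of_nonneg_left (h r hr x hx Y hYP)
          (by positivity)
    _ = ε * x := by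
        rw [sum_const, card_range, nsmul_eq_mul]
        field_simp

/-- The cumulative bound. -/
theorem cum (w : ℕ → ℝ) (C ε : ℝ) (x₀ : ℕ) (hC : 0 ≤ C) (hε : 0 ≤ ε) (h0 : ∀ n, 0 ≤ w n)
    (hw : ∀ n, w n ≤ C) (h : ∀ x : ℕ, x₀ ≤ x → ∑ n ∈ Ioc x (2 * x), w n ≤ ε * x) (y : ℕ) :
    ∑ n ∈ range y, w n ≤ 2 * ε * y + C * (2 * x₀ + 4) := by
  induction y using Nat.strong_induction_on with
  | _ y ih =>
    rcases le_or_gt y (2 * x₀ + 4) with hy | hy
    · have h1 : ∑ n ∈ range y, w n ≤ ∑ _n ∈ range y, C := sum_le_sum fun n _ => hw n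
      rw [sum_const, card_range, nsmul_eq_mul] at h1
      have h2 : (y : ℝ) ≤ 2 * x₀ + 4 := by exact_mod_cast hy
      have h3 : (y : ℝ) * C ≤ (2 * x₀ + 4) * C := mul_le_mul_of_nonneg_right h2 hC
      have h4 : 0 ≤ 2 * ε * y := by positivity
      linarith
    · obtain ⟨x, hx⟩ : ∃ x, x = y / 2 := ⟨_, rfl⟩
      have h1 : ∑ n ∈ range y, w n ≤ ∑ n ∈ range (x + 1), w n + ∑ n ∈ Ioc x (2 * x), w n := by
        rw [← sum_union]
        · refine sum_le_sum_of_subset_of_nonneg ?_ fun n _ _ => h0 n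
          intro n hn
          rw [mem_range] at hn
          rw [mem_union, mem_range, mem_Ioc]
          omega
        · rw [disjoint_left]
          intro n hn hn'
          rw [mem_range] at hn
          rw [mem_Ioc] at hn'
          omega
      have h2 := ih (x + 1) (by omega)
      have h3 := h x (by omega)
      have h4 : 3 * (x : ℝ) + 2 ≤ 2 * y := by
        have : 3 * x + 2 ≤ 2 * y := by omega
        exact_mod_cast this
      push_cast at h2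
      nlinarith

/-- A sum over an interval and the windows of length `l₀`. -/
theorem point (f : ℕ → ℂ) (C : ℝ) (hC : 0 ≤ C) (hf : ∀ n, ‖f n‖ ≤ C) (l₀ : ℕ) (hl₀ : 1 ≤ l₀)
    (a b N M : ℕ) (h1 : N ≤ a) (h2 : b ≤ M) :
    ‖∑ y ∈ Ico a b, muC y * f y‖ ≤ ∑ n ∈ Ico N M, Wg l₀ n f + 2 * l₀ * C := by
  have hfb : ∀ y, ‖muC y * f y‖ ≤ C := fun y => by
    rw [norm_mul]
    calc _ ≤ 1 * C := mul_le_mul (norm_muC _) (hf _) (norm_nonneg _) zero_le_one
      _ = C := one_mul _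
  exact Nj.win (fun y => muC y * f y) C hC hfb a b N M l₀ hl₀ h1 h2

theorem wg_eq (l n : ℕ) (f : ℕ → ℂ) :
    Wg l n f = ‖∑ y ∈ Ico (n + 1) (n + l + 1), muC y * f y‖ / l := by
  unfold Wg
  congr 2
  have e1 : Icc 1 l = Ico 1 (l + 1) := by
    ext y
    simp only [Finset.mem_Icc, Finset.mem_Ico]
    omega
  rw [e1, Finset.sum_Ico_add (fun y => muC y * f y) 1 (l + 1) n, show 1 + n = n + 1 by omega,
    show l + 1 + n = n + l + 1 by omega]

/-- Longer windows. -/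
theorem longer (f : ℕ → ℂ) (C : ℝ) (hC : 0 ≤ C) (hf : ∀ n, ‖f n‖ ≤ C) (l₀ l : ℕ) (hl₀ : 1 ≤ l₀)
    (hl : 1 ≤ l) (M : ℕ) :
    ∑ n ∈ range M, Wg l n f ≤ ∑ n ∈ range (M + l), Wg l₀ n f + 2 * l₀ * C / l * M := by
  have hl0 : (0 : ℝ) < l := by exact_mod_cast hl
  have h1 : ∀ n, Wg l n f ≤ (∑ j ∈ range l, Wg l₀ (n + 1 + j) f) / l + 2 * l₀ * C / l := by
    intro n
    rw [wg_eq, ← add_div]
    refine div_le_div_of_nonneg_right ?_ hl0.le
    refine (point f C hC hf l₀ hl₀ (n + 1) (n + l + 1) (n + 1) (n + l + 1) le_rfl le_rfl).trans ?_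
    rw [Finset.sum_Ico_eq_sum_range]
    have e : n + l + 1 - (n + 1) = l := by omega
    rw [e]
  have h2 : ∑ n ∈ range M, ∑ j ∈ range l, Wg l₀ (n + 1 + j) f ≤
      l * ∑ n ∈ range (M + l), Wg l₀ n f := by
    rw [sum_comm]
    calc ∑ j ∈ range l, ∑ n ∈ range M, Wg l₀ (n + 1 + j) f
        ≤ ∑ _j ∈ range l, ∑ n ∈ range (M + l), Wg l₀ n f := by
          refine sum_le_sum fun j hj => ?_
          rw [mem_range] at hj
          have e : ∑ n ∈ range M, Wg l₀ (n + 1 + j) f =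
              ∑ n ∈ (range M).image (fun n => n + 1 + j), Wg l₀ n f := by
            rw [sum_image]
            intro a _ b _ hab
            simp only at hab
            omega
          rw [e]
          refine sum_le_sum_of_subset_of_nonneg ?_ fun n _ _ => wg_nonneg _ _ _
          intro k hk
          rw [mem_image] at hk
          obtain ⟨n, hn, rfl⟩ := hk
          rw [mem_range] at hn ⊢
          omega
      _ = _ := by rw [sum_const, card_range, nsmul_eq_mul]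
  calc ∑ n ∈ range M, Wg l n f
      ≤ ∑ n ∈ range M, ((∑ j ∈ range l, Wg l₀ (n + 1 + j) f) / l + 2 * l₀ * C / l) :=
        sum_le_sum fun n _ => h1 n
    _ = (∑ n ∈ range M, ∑ j ∈ range l, Wg l₀ (n + 1 + j) f) / l + 2 * l₀ * C / l * M := by
        rw [sum_add_distrib, ← sum_div, sum_const, card_range, nsmul_eq_mul]
        ring
    _ ≤ (l * ∑ n ∈ range (M + l), Wg l₀ n f) / l + 2 * l₀ * C / l * M :=
        add_le_add (div_le_div_of_nonneg_right h2 hl0.le) le_rfl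
    _ = _ := by rw [mul_div_cancel_left₀ _ hl0.ne']

/-- Consecutive blocks. -/
theorem blocks (G : ℕ → ℝ) (A L k : ℕ) :
    ∑ i ∈ range k, ∑ n ∈ Ico (A + i * L) (A + i * L + L), G n = ∑ n ∈ Ico A (A + k * L), G n := by
  induction k with
  | zero => simp
  | succ k ih =>
    rw [sum_range_succ, ih, Nat.succ_mul, ← add_assoc]
    exact Finset.sum_Ico_consecutive G (by omega) (by omega)

/-- Long intervals at the beginnings of the blocks. -/
theorem overlap (G : ℕ → ℝ) (h0 : ∀ n, 0 ≤ G n) (A L k m D : ℕ) (hm : m ≤ D * L) :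
    ∑ i ∈ range k, ∑ n ∈ Ico (A + i * L) (A + i * L + m), G n ≤
      D * ∑ n ∈ range (A + (D + k) * L), G n := by
  have h1 : ∀ i, ∑ n ∈ Ico (A + i * L) (A + i * L + m), G n ≤
      ∑ a ∈ range D, ∑ n ∈ Ico (A + a * L + i * L) (A + a * L + i * L + L), G n := by
    intro i
    have h2 := blocks G (A + i * L) L D
    have h3 : ∑ a ∈ range D, ∑ n ∈ Ico (A + a * L + i * L) (A + a * L + i * L + L), G n =
        ∑ a ∈ range D, ∑ n ∈ Ico (A + i * L + a * L) (A + i * L + a * L + L), G n := by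
      refine sum_congr rfl fun a _ => ?_
      rw [show A + a * L + i * L = A + i * L + a * L by ring]
    rw [h3, h2]
    exact sum_le_sum_of_subset_of_nonneg (Ico_subset_Ico_right (by omega)) fun n _ _ => h0 n
  calc ∑ i ∈ range k, ∑ n ∈ Ico (A + i * L) (A + i * L + m), G n
      ≤ ∑ i ∈ range k, ∑ a ∈ range D,
          ∑ n ∈ Ico (A + a * L + i * L) (A + a * L + i * L + L), G n := sum_le_sum fun i _ => h1 i
    _ = ∑ a ∈ range D, ∑ n ∈ Ico (A + a * L) (A + a * L + k * L), G n := by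
        rw [sum_comm]
        exact sum_congr rfl fun a _ => blocks G (A + a * L) L k
    _ ≤ ∑ _a ∈ range D, ∑ n ∈ range (A + (D + k) * L), G n := by
        refine sum_le_sum fun a ha => ?_
        rw [mem_range] at ha
        refine sum_le_sum_of_subset_of_nonneg ?_ fun n _ _ => h0 n
        intro n hn
        rw [mem_Ico] at hn
        rw [mem_range]
        have h4 : a * L ≤ D * L := Nat.mul_le_mul_right _ ha.le
        have h5 : (D + k) * L = D * L + k * L := by ring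
        omega
    _ = _ := by rw [sum_const, card_range, nsmul_eq_mul]

end Jce

open Jce in
/-- **Row JCE.** -/
theorem jce (hJ : NVJ1') (hN : NVPQN') (hFNC : FNC_stmt) (hM : LBM_stmt) (hLn : LBN_stmt) :
    JETCU := by
  classical
  intro U _ Gf d hG F hF ε hε
  have h1G : (1 : U) ∈ Gf 0 := (Gf 0).one_mem
  obtain ⟨C, hC1, hFC⟩ : ∃ C : ℝ, 1 ≤ C ∧ ∀ x ∈ Gf 0, ‖F x‖ ≤ C := by
    obtain ⟨B, hB⟩ := hF.bd
    exact ⟨max B 1, le_max_right _ _, fun x hx => (hB x hx).trans (le_max_left _ _)⟩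
  have hC0 : 0 < C := by linarith
  obtain ⟨m1, m2, m3, m4, m5, m6, m7⟩ := hM U ℤ Gf d hG
  -- the constants for the pointwise bound
  obtain ⟨lp, hp⟩ := clsn hN hFNC hM U Gf d hG F hF 1 0 le_rfl zero_lt_one 1 1 h1G h1G (ε / 16)
    (by positivity)
  obtain ⟨l₁, hl₁⟩ : ∃ l₁ : ℕ, l₁ = max lp 1 := ⟨_, rfl⟩
  have hl₁1 : 1 ≤ l₁ := by rw [hl₁]; exact le_max_right _ _
  obtain ⟨x₁, hp⟩ := hp l₁ (by rw [hl₁]; exact le_max_left _ _)
  -- the blocks
  obtain ⟨θ, c, q, H₁, L, hθ, hθ1, hc, hc1, hLw, hblk⟩ := hJ U Gf d hG F hF (ε / 4)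
    (by positivity)
  obtain ⟨T, hT⟩ : ∃ T : ℝ, T = L.length * q * q + 1 := ⟨_, rfl⟩
  have hT0 : 0 < T := by rw [hT]; positivity
  obtain ⟨ε₂, hε₂⟩ : ∃ ε₂ : ℝ, ε₂ = ε * c * θ ^ 2 / (240 * C * T) := ⟨_, rfl⟩
  have hε₂0 : 0 < ε₂ := by rw [hε₂]; positivity
  obtain ⟨I, hI⟩ : ∃ I : Finset (Fin L.length × ℕ × ℕ),
      I = ((univ : Finset (Fin L.length)) ×ˢ ((Icc 1 q) ×ˢ (range q))).filter
        fun i => i.2.2 < i.2.1 := ⟨_, rfl⟩
  obtain ⟨lb, hb⟩ := unif2 I (fun i l x => ∀ g : ℤ → U, PS Gf 0 g →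
      ∑ n ∈ Ioc x (2 * x), Wg l n (fun y => if y ≡ i.2.2 [MOD i.2.1] then
        F ((L.get i.1).1 * g (y : ℤ) * (L.get i.1).2) else 0) ≤ ε₂ * x)
    (fun i hi => by
      rw [hI, mem_filter, mem_product, mem_product, mem_Icc] at hi
      exact clsn hN hFNC hM U Gf d hG F hF i.2.1 i.2.2 hi.1.2.1.1 hi.2 (L.get i.1).1
        (L.get i.1).2 (hLw _ (List.get_mem _ _)).1 (hLw _ (List.get_mem _ _)).2 ε₂ hε₂0)
  obtain ⟨l₀, hl₀⟩ : ∃ l₀ : ℕ, l₀ = max lb 1 := ⟨_, rfl⟩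
  have hl₀1 : 1 ≤ l₀ := by rw [hl₀]; exact le_max_right _ _
  obtain ⟨x₀, hb⟩ := hb l₀ (by rw [hl₀]; exact le_max_left _ _)
  -- the threshold
  obtain ⟨K₀, hK₀⟩ : ∃ K₀ : ℝ, K₀ = C * (2 * x₀ + 4) := ⟨_, rfl⟩
  have hK₀0 : 0 ≤ K₀ := by rw [hK₀]; positivity
  obtain ⟨K₁, hK₁⟩ : ∃ K₁ : ℝ, K₁ = C * (2 * x₁ + 4) + 2 * l₁ * C := ⟨_, rfl⟩
  have hK₁0 : 0 ≤ K₁ := by rw [hK₁]; positivity
  obtain ⟨H₂, hH₂⟩ := exists_nat_ge (max (max (2 / θ) (2 / c)) (max (2 * K₁ / ε)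
    (max (2 * K₀ / (θ * ε₂)) (36 * l₀ * C / (c * θ * ε₂)))))
  refine ⟨max (max H₁ H₂) 1, ?_⟩
  intro H hH N hN1 g hg P hP hPg
  have hHa : H₁ ≤ H := by omega
  have hHb : H₂ ≤ H := by omega
  have hH1N : 1 ≤ H := by omega
  have hH1 : (1 : ℝ) ≤ H := by exact_mod_cast hH1N
  have hH0 : (0 : ℝ) < H := by linarith
  have hHr := hH₂.trans (show (H₂ : ℝ) ≤ H by exact_mod_cast hHb)
  have t1 : 2 ≤ θ * H := by
    have : 2 / θ ≤ H := ((le_max_left _ _).trans (le_max_left _ _)).trans hHr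
    rw [div_le_iff₀ hθ] at this
    linarith
  have t2 : 2 ≤ c * H := by
    have : 2 / c ≤ H := ((le_max_right _ _).trans (le_max_left _ _)).trans hHr
    rw [div_le_iff₀ hc] at this
    linarith
  have t3 : 2 * K₁ ≤ ε * H := by
    have : 2 * K₁ / ε ≤ H := ((le_max_left _ _).trans (le_max_right _ _)).trans hHr
    rw [div_le_iff₀ hε] at this
    linarith
  have t4 : 2 * K₀ ≤ θ * ε₂ * H := by
    have : 2 * K₀ / (θ * ε₂) ≤ H :=
      ((le_max_left _ _).trans ((le_max_right _ _).trans (le_max_right _ _))).trans hHr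
    rw [div_le_iff₀ (by positivity)] at this
    linarith
  have t5 : 36 * l₀ * C ≤ c * θ * ε₂ * H := by
    have : 36 * l₀ * C / (c * θ * ε₂) ≤ H :=
      ((le_max_right _ _).trans ((le_max_right _ _).trans (le_max_right _ _))).trans hHr
    rw [div_le_iff₀ (by positivity)] at this
    linarith
  have hNr : (1 : ℝ) ≤ N := by exact_mod_cast hN1
  have hN0 : (0 : ℝ) < N := by linarith
  have hgv : ∀ m, g m ∈ Gf 0 := fun m => hg [] m
  have hPv : ∀ (n : ℕ) (m : ℤ), P n m ∈ Gf 0 := fun n m => hP n [] m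
  obtain ⟨Lb, hLb⟩ : ∃ Lb, Lb = ⌊θ * (H : ℝ)⌋₊ := ⟨_, rfl⟩
  have hLb1 : 1 ≤ Lb := by
    rw [hLb]
    exact Nat.le_floor (by push_cast; linarith)
  have hLb2 : θ / 2 * H ≤ Lb := by
    have g1 := Nat.lt_floor_add_one (θ * (H : ℝ))
    rw [← hLb] at g1
    nlinarith
  have hLbH : Lb ≤ H := by
    have : (Lb : ℝ) ≤ H := by
      rw [hLb]
      refine (Nat.floor_le (by positivity)).trans ?_
      nlinarith
    exact_mod_cast this
  rcases lt_or_ge N Lb with hNL | hNL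
  · -- the pointwise bound
    have hpt : ∀ n ∈ Ico N (2 * N), Wg H n (fun m : ℕ => F (P n m)) ≤ ε := by
      intro n hn
      rw [mem_Ico] at hn
      have hfn : ∀ y : ℕ, ‖F (P n (y : ℤ))‖ ≤ C := fun y => hFC _ (hPv _ _)
      have h1 := point (fun y : ℕ => F (P n (y : ℤ))) C hC0.le hfn l₁ hl₁1 (n + 1) (n + H + 1) 0
        (n + H + 1) (Nat.zero_le _) le_rfl
      have h2 := cum (fun k => Wg l₁ k (fun y : ℕ => F (P n (y : ℤ)))) C (ε / 16) x₁ hC0.le
        (by positivity) (fun k => wg_nonneg _ _ _) (fun k => wg_le _ _ _ hC0.le hfn)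
        (fun x hx => by
          have h3 := hp x hx (P n) (hP n)
          have e : (fun y : ℕ => if y ≡ 0 [MOD 1] then F (1 * P n (y : ℤ) * 1) else 0) =
              fun y : ℕ => F (P n (y : ℤ)) := by
            funext y
            rw [if_pos (Nat.modEq_one), one_mul, mul_one]
          rw [e] at h3
          exact h3) (n + H + 1)
      rw [wg_eq, div_le_iff₀ hH0]
      rw [← Finset.range_eq_Ico] at h1
      have h4 : ((n + H + 1 : ℕ) : ℝ) ≤ 4 * H := by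
        have : n + H + 1 ≤ 4 * H := by omega
        exact_mod_cast this
      have h5 : 2 * (ε / 16) * ((n + H + 1 : ℕ) : ℝ) ≤ 2 * (ε / 16) * (4 * H) :=
        mul_le_mul_of_nonneg_left h4 (by positivity)
      rw [hK₁] at t3
      linarith
    calc ∑ n ∈ Ico N (2 * N), Wg H n (fun m : ℕ => F (P n m)) ≤ ∑ _n ∈ Ico N (2 * N), ε :=
          sum_le_sum hpt
      _ = ε * N := by
          rw [sum_const, Nat.card_Ico, nsmul_eq_mul]
          have : 2 * N - N = N := by omega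
          rw [this, mul_comm]
  -- the blocks
  have hLbN : (Lb : ℝ) ≤ N := by exact_mod_cast hNL
  have hHN : (H : ℝ) ≤ 2 / θ * N := by
    rw [div_mul_eq_mul_div, le_div_iff₀ hθ]
    nlinarith
  obtain ⟨R, hRd⟩ : ∃ R : ℕ → ℤ → U, R = fun (n : ℕ) (h : ℤ) => (g (h + n))⁻¹ * P n (h + n) := ⟨_, rfl⟩
  have hR : ∀ n : ℕ, Jt Gf (Gf 0) (R n) := by
    intro n
    rw [hRd]
    have h3 : PS Gf 0 fun m : ℤ => (g m)⁻¹ * P n m := m1 0 _ _ (m2 0 _ hg) (hP n)
    have h4 : PS Gf 0 fun h : ℤ => (g (h + n))⁻¹ * P n (h + n) :=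
      (hLn U ℤ Gf 0 fun m : ℤ => (g m)⁻¹ * P n m).1 ℤ (AddMonoidHom.id ℤ) n h3
    refine ⟨?_, ?_, ?_⟩
    · exact ((hLn U ℤ Gf 0 _).2.1 (Gf 0)).mpr ⟨h4, fun m => h4 [] m⟩
    · show (g (0 + n))⁻¹ * P n (0 + n) = 1
      rw [zero_add, (hPg n).1, inv_mul_cancel]
    · show (g (1 + n))⁻¹ * P n (1 + n) = 1
      rw [add_comm, (hPg n).2, inv_mul_cancel]
  obtain ⟨W, hWd⟩ : ∃ W : ℕ → ℝ, W = fun n => Wg H n (fun m : ℕ => F (P n m)) := ⟨_, rfl⟩
  have hWR : ∀ n, W n = Wg H n (fun m : ℕ => F (g (m : ℤ) * R n ((m : ℤ) - n))) := by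
    intro n
    rw [hWd, hRd]
    simp only [sub_add_cancel, mul_inv_cancel_left]
  have hW0 : ∀ n, 0 ≤ W n := fun n => by rw [hWd]; exact wg_nonneg _ _ _
  have hWC : ∀ n, W n ≤ C := fun n => by
    rw [hWd]
    exact wg_le _ _ _ hC0.le fun m => hFC _ (hPv _ _)
  obtain ⟨l, hl⟩ : ∃ l, l = ⌊c * (H : ℝ)⌋₊ := ⟨_, rfl⟩
  have hl1 : 1 ≤ l := by
    rw [hl]
    exact Nat.le_floor (by push_cast; linarith)
  have hl2 : c / 2 * H ≤ l := by
    have g1 := Nat.lt_floor_add_one (c * (H : ℝ))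
    rw [← hl] at g1
    nlinarith
  have hlH : l ≤ H := by
    have : (l : ℝ) ≤ H := by
      rw [hl]
      refine (Nat.floor_le (by positivity)).trans ?_
      nlinarith
    exact_mod_cast this
  obtain ⟨V, hVd⟩ : ∃ V : Fin L.length × ℕ × ℕ → ℕ → ℂ, V = fun i y =>
      if y ≡ i.2.2 [MOD i.2.1] then F ((L.get i.1).1 * g (y : ℤ) * (L.get i.1).2) else 0 :=
    ⟨_, rfl⟩
  have hVC : ∀ i y, ‖V i y‖ ≤ C := by
    intro i y
    rw [hVd]
    have hw := hLw _ (List.get_mem L i.1)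
    show ‖if y ≡ i.2.2 [MOD i.2.1] then F ((L.get i.1).1 * g (y : ℤ) * (L.get i.1).2) else 0‖ ≤ C
    split_ifs with h
    · exact hFC _ ((Gf 0).mul_mem ((Gf 0).mul_mem hw.1 (hgv _)) hw.2)
    · rw [norm_zero]
      exact hC0.le
  obtain ⟨G, hGd⟩ : ∃ G : ℕ → ℝ, G = fun n => ∑ i ∈ I, Wg l n (V i) := ⟨_, rfl⟩
  have hG0 : ∀ n, 0 ≤ G n := fun n => by
    rw [hGd]
    exact sum_nonneg fun i _ => wg_nonneg _ _ _
  -- one block
  have hone : ∀ A : ℕ, ∑ n ∈ Ico A (A + Lb), W n ≤ ε / 4 * Lb +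
      C / c * ∑ n ∈ Ico A (A + 2 * H), G n := by
    intro A
    have hGs : 0 ≤ ∑ n ∈ Ico A (A + 2 * H), G n := sum_nonneg fun n _ => hG0 n
    have hCc : 0 ≤ C / c := by positivity
    rcases le_or_gt (∑ n ∈ Ico A (A + Lb), W n) (ε / 4 * Lb) with h | h
    · have := mul_nonneg hCc hGs
      linarith
    · obtain ⟨w, hw, m, b, hm1, hmq, hbm, hw2⟩ := hblk H A g R hHa hg hR (by
        rw [← hLb]
        refine h.le.trans (le_of_eq (sum_congr rfl fun n _ => hWR n))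
        )
      obtain ⟨i, hi, hiw⟩ := List.getElem_of_mem hw
      have hmem : ((⟨i, hi⟩, m, b) : Fin L.length × ℕ × ℕ) ∈ I := by
        rw [hI, mem_filter, mem_product, mem_product, mem_Icc, mem_range]
        exact ⟨⟨mem_univ _, ⟨hm1, hmq⟩, lt_of_lt_of_le hbm hmq⟩, hbm⟩
      have h5 : c * Lb ≤ ∑ n ∈ Ico A (A + 2 * H), G n := by
        rw [hLb]
        refine hw2.trans (sum_le_sum fun n _ => ?_)
        rw [hGd]
        have h6 := single_le_sum (f := fun i : Fin L.length × ℕ × ℕ => Wg l n (V i))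
          (fun i _ => wg_nonneg _ _ _) hmem
        refine le_trans (le_of_eq ?_) h6
        rw [hVd, ← hl]
        have h3 : L.get ⟨i, hi⟩ = w := hiw
        simp only
        rw [h3]
      have h7 : ∑ n ∈ Ico A (A + Lb), W n ≤ C * Lb := by
        calc ∑ n ∈ Ico A (A + Lb), W n ≤ ∑ _n ∈ Ico A (A + Lb), C :=
              sum_le_sum fun n _ => hWC n
          _ = C * Lb := by
              rw [sum_const, Nat.card_Ico, nsmul_eq_mul, Nat.add_sub_cancel_left, mul_comm]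
      have h8 : C * Lb = C / c * (c * Lb) := by field_simp
      have h9 : C / c * (c * Lb) ≤ C / c * ∑ n ∈ Ico A (A + 2 * H), G n :=
        mul_le_mul_of_nonneg_left h5 hCc
      have h10 : 0 ≤ ε / 4 * (Lb : ℝ) := by positivity
      linarith
  -- all blocks
  obtain ⟨k, hk⟩ : ∃ k, k = (N + Lb - 1) / Lb := ⟨_, rfl⟩
  have hk1 : N ≤ k * Lb := by
    have e1 := Nat.div_add_mod (N + Lb - 1) Lb
    have e2 := Nat.mod_lt (N + Lb - 1) (show 0 < Lb by omega)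
    rw [← hk] at e1
    have e3 : Lb * k = k * Lb := mul_comm _ _
    omega
  have hk2 : k * Lb ≤ N + Lb - 1 := by
    rw [hk]
    exact Nat.div_mul_le_self _ _
  obtain ⟨D, hD⟩ : ∃ D, D = (2 * H + Lb - 1) / Lb := ⟨_, rfl⟩
  have hD1 : 2 * H ≤ D * Lb := by
    have e1 := Nat.div_add_mod (2 * H + Lb - 1) Lb
    have e2 := Nat.mod_lt (2 * H + Lb - 1) (show 0 < Lb by omega)
    rw [← hD] at e1
    have e3 : Lb * D = D * Lb := mul_comm _ _
    omega
  have hD2 : D * Lb ≤ 2 * H + Lb - 1 := by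
    rw [hD]
    exact Nat.div_mul_le_self _ _
  obtain ⟨M, hMd⟩ : ∃ M, M = N + (D + k) * Lb := ⟨_, rfl⟩
  have hM1 : (M : ℝ) ≤ 9 / θ * N := by
    have e1 : M ≤ 3 * N + 3 * H := by
      have e2 : (D + k) * Lb = D * Lb + k * Lb := by ring
      omega
    have e3 : (M : ℝ) ≤ 3 * N + 3 * H := by exact_mod_cast e1
    have e4 : (1 : ℝ) ≤ 1 / θ := by rw [le_div_iff₀ hθ]; linarith
    have e5 : 3 * (N : ℝ) ≤ 3 / θ * N := by
      rw [show 3 / θ * (N : ℝ) = 3 * N * (1 / θ) by ring]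
      nlinarith
    have e6 : 9 / θ * (N : ℝ) = 3 / θ * N + 3 * (2 / θ * N) := by ring
    linarith
  have hDr : (D : ℝ) ≤ 5 / θ := by
    have e1 : (D : ℝ) * Lb ≤ 2 * H + Lb := by
      have : D * Lb ≤ 2 * H + Lb := by omega
      exact_mod_cast this
    have hLb0 : (0 : ℝ) < Lb := by exact_mod_cast hLb1
    have e2 : (D : ℝ) * Lb ≤ 5 / θ * Lb := by
      have e3 : 2 * (H : ℝ) ≤ 4 / θ * Lb := by
        rw [div_mul_eq_mul_div, le_div_iff₀ hθ]
        nlinarith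
      have e4 : (Lb : ℝ) ≤ 1 / θ * Lb := by
        have : (1 : ℝ) ≤ 1 / θ := by rw [le_div_iff₀ hθ]; linarith
        nlinarith
      have e5 : 5 / θ * (Lb : ℝ) = 4 / θ * Lb + 1 / θ * Lb := by ring
      linarith
    exact le_of_mul_le_mul_right e2 hLb0
  have hsum1 : ∑ n ∈ Ico N (2 * N), W n ≤ ε / 4 * (k * Lb) +
      C / c * (D * ∑ n ∈ range M, G n) := by
    calc ∑ n ∈ Ico N (2 * N), W n ≤ ∑ n ∈ Ico N (N + k * Lb), W n :=
          sum_le_sum_of_subset_of_nonneg (Ico_subset_Ico_right (by omega)) fun n _ _ => hW0 n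
      _ = ∑ i ∈ range k, ∑ n ∈ Ico (N + i * Lb) (N + i * Lb + Lb), W n := (blocks W N Lb k).symm
      _ ≤ ∑ i ∈ range k, (ε / 4 * Lb + C / c * ∑ n ∈ Ico (N + i * Lb) (N + i * Lb + 2 * H), G n) :=
          sum_le_sum fun i _ => hone _
      _ = ε / 4 * (k * Lb) +
          C / c * ∑ i ∈ range k, ∑ n ∈ Ico (N + i * Lb) (N + i * Lb + 2 * H), G n := by
          rw [sum_add_distrib, sum_const, card_range, nsmul_eq_mul, ← mul_sum]
          ring
      _ ≤ _ := by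
          refine add_le_add le_rfl (mul_le_mul_of_nonneg_left ?_ (by positivity))
          rw [hMd]
          exact overlap G hG0 N Lb k (2 * H) D hD1
  -- the sum of `G`
  have hV1 : ∀ i ∈ I, ∑ n ∈ range M, Wg l n (V i) ≤ 24 / θ * ε₂ * N := by
    intro i hi
    have h1 := longer (V i) C hC0.le (hVC i) l₀ l hl₀1 hl1 M
    have h2 := cum (fun n => Wg l₀ n (V i)) C ε₂ x₀ hC0.le hε₂0.le (fun n => wg_nonneg _ _ _)
      (fun n => wg_le _ _ _ hC0.le (hVC i)) (fun x hx => by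
        have h3 := hb i hi x hx g hg
        rw [hVd]
        exact h3) (M + l)
    rw [← hK₀] at h2
    have hlr : (l : ℝ) ≤ H := by exact_mod_cast hlH
    have h3 : ((M + l : ℕ) : ℝ) ≤ 11 / θ * N := by
      push_cast
      have : 11 / θ * (N : ℝ) = 9 / θ * N + 2 / θ * N := by ring
      linarith
    have h4 : 2 * ε₂ * ((M + l : ℕ) : ℝ) ≤ 2 * ε₂ * (11 / θ * N) :=
      mul_le_mul_of_nonneg_left h3 (by positivity)
    have hl0r : (0 : ℝ) < l := by exact_mod_cast hl1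
    have hθi : (1 : ℝ) ≤ 1 / θ := by rw [le_div_iff₀ hθ]; linarith
    have h5 : K₀ ≤ 1 / θ * ε₂ * N := by
      have e1 : θ * ε₂ * H ≤ 2 * ε₂ * N := by
        have e2 : θ * H ≤ 2 * N := by nlinarith
        nlinarith
      have e3 : ε₂ * N ≤ 1 / θ * ε₂ * N := by
        have : 0 ≤ ε₂ * (N : ℝ) := by positivity
        nlinarith
      linarith
    have h6 : 2 * l₀ * C / l * M ≤ 1 / θ * ε₂ * N := by
      have e1 : 2 * l₀ * C / l ≤ θ * ε₂ / (9 : ℝ) := by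
        rw [div_le_iff₀ hl0r]
        have e2 : θ * ε₂ / 9 * (c / 2 * H) ≤ θ * ε₂ / 9 * l :=
          mul_le_mul_of_nonneg_left hl2 (by positivity)
        have e3 : θ * ε₂ / 9 * (c / 2 * H) = c * θ * ε₂ * H / 18 := by ring
        linarith
      have e4 : 2 * l₀ * C / l * M ≤ θ * ε₂ / 9 * (9 / θ * N) :=
        mul_le_mul e1 hM1 (Nat.cast_nonneg _) (by positivity)
      have e5 : θ * ε₂ / 9 * (9 / θ * N) = ε₂ * N := by field_simp
      have e3 : ε₂ * N ≤ 1 / θ * ε₂ * N := by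
        have : 0 ≤ ε₂ * (N : ℝ) := by positivity
        nlinarith
      linarith
    have h7 : 24 / θ * ε₂ * N = 2 * ε₂ * (11 / θ * N) + 1 / θ * ε₂ * N + 1 / θ * ε₂ * N := by ring
    linarith
  have hcard : (#I : ℝ) ≤ T := by
    have g1 : #I ≤ L.length * (q * q) := by
      rw [hI]
      refine (card_filter_le _ _).trans (le_of_eq ?_)
      rw [card_product, card_product, card_univ, Fintype.card_fin, Nat.card_Icc, card_range]
      simp
    have g2 : (#I : ℝ) ≤ L.length * (q * q) := by exact_mod_cast g1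
    rw [hT]
    linarith
  have hGs : ∑ n ∈ range M, G n ≤ T * (24 / θ * ε₂ * N) := by
    rw [hGd]
    rw [sum_comm]
    calc ∑ i ∈ I, ∑ n ∈ range M, Wg l n (V i) ≤ ∑ _i ∈ I, 24 / θ * ε₂ * N := sum_le_sum hV1
      _ = #I * (24 / θ * ε₂ * N) := by rw [sum_const, nsmul_eq_mul]
      _ ≤ _ := mul_le_mul_of_nonneg_right hcard (by positivity)
  have hkr : (k : ℝ) * Lb ≤ 2 * N := by
    have : k * Lb ≤ 2 * N := by omega
    exact_mod_cast this
  have hfin : C / c * (D * ∑ n ∈ range M, G n) ≤ ε / 2 * N := by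
    have e1 : (D : ℝ) * ∑ n ∈ range M, G n ≤ 5 / θ * (T * (24 / θ * ε₂ * N)) :=
      mul_le_mul hDr hGs (sum_nonneg fun n _ => hG0 n) (by positivity)
    have e2 : C / c * (5 / θ * (T * (24 / θ * ε₂ * N))) = ε / 2 * N := by
      rw [hε₂]
      field_simp
      ring
    calc _ ≤ C / c * (5 / θ * (T * (24 / θ * ε₂ * N))) :=
          mul_le_mul_of_nonneg_left e1 (by positivity)
      _ = _ := e2
  have hfin2 : ε / 4 * ((k : ℝ) * Lb) ≤ ε / 4 * (2 * N) :=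
    mul_le_mul_of_nonneg_left hkr (by positivity)
  have hres : ∑ n ∈ Ico N (2 * N), W n ≤ ε * N := by linarith
  rw [hWd] at hres
  exact hres

end

end Pool.Agent.NG
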