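import Mathlib
import Pool.Agent.Lib.NG.FFin
import Pool.Agent.Lib.NG.AMQ
import Pool.Agent.Lib.NG.JCEN
import Pool.Agent.Lib.NG.CCC

/-!
# NVG2 (MP_663568_nt), JET: the theorem on matrices

(helper26)
-/

set_option autoImplicit false
open Finset Topology Polynomial

namespace Pool.Agent.NG

open Amb Pool.Agent.Lib.MP_663568_nt Pool.Agent.Lib.MP_663568_nt.Katai
  Pool.Agent.Lib.MP_663568_nt.Nul Pool.Agent.SV Pool.Agent.VQ Pool.Agent.NV

noncomputable section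

section

variable {m : ℕ} {G : Subgroup (Matrix.GeneralLinearGroup (Fin m) ℝ)}

/-- The maximum over `0 ≤ k ≤ 4 n` of the sum of the absolute values of the entries of
`g' k (g k)⁻¹ - 1`. -/
def vj (n : ℕ) (g g' : ℤ → G) : ℝ := ⨆ k : Fin (4 * n + 1), ∑ i, ∑ j,
  |((g' (k : ℕ) * (g (k : ℕ))⁻¹ : Matrix.GeneralLinearGroup (Fin m) ℝ) :
    Matrix (Fin m) (Fin m) ℝ) i j - (1 : Matrix (Fin m) (Fin m) ℝ) i j|

/-- The supremum of `|∑_{h ≤ H} f(P(n + h) Γ) μ(n + h)|` over all polynomial maps `P` of degree at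
most `D` for which some `c` in the centre of `G` has `P(n) = g(n) c` and `P(n + 1) = g(n + 1) c`. -/
def SupJ {Γ : Subgroup G} (f : G ⧸ Γ → ℂ) (D : ℕ) (g : ℤ → G) (H n : ℕ) : ℝ :=
  ⨆ P : {P : ℤ → G // Poly D P ∧ ∃ c ∈ Subgroup.center G, P n = g n * c ∧
      P (n + 1) = g (n + 1) * c},
    ‖∑ h ∈ Finset.Icc 1 H, f (QuotientGroup.mk (P.1 (n + h))) *
      ((ArithmeticFunction.moebius (n + h) : ℤ) : ℂ)‖

end

namespace JJ

open FM FF

variable {m : ℕ}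

theorem wd_deg {n D D' s : ℕ} (h : D ≤ D') {M : ℤ → Matrix (Fin n) (Fin n) ℝ} (hM : Wd D s M) :
    Wd D' s M := by
  intro a b
  refine ⟨(hM a b).1, fun hab => dg_mono ?_ ((hM a b).2 hab)⟩
  have : D * ((b : ℕ) - a) ≤ D' * (b - a) := Nat.mul_le_mul_right _ h
  omega

theorem wd_full {n D : ℕ} (g : ℤ → UT n) (hg : Wd D 0 fun k => nilp (g k)) :
    Wd D 0 fun k => (g k).1 := by
  have h : (fun k => (g k).1) = fun k => 1 + nilp (g k) := by
    funext k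
    exact val_eq (g k)
  rw [h]
  exact wd_add wd_one hg

theorem wd_nilp {n D : ℕ} (g : ℤ → UT n) (hg : Wd D 0 fun k => (g k).1) :
    Wd D 0 fun k => nilp (g k) := by
  have h : (fun k => nilp (g k)) = fun k => (g k).1 + (-1 : ℝ) • 1 := by
    funext k
    show (g k).1 - 1 = _
    rw [neg_one_smul, sub_eq_add_neg]
  rw [h]
  exact wd_add hg (wd_smul wd_one _)

theorem wd_bin (n₀ : ℤ) (l : ℕ) : Dg (l + 1) fun k : ℤ => bin ((k : ℝ) - n₀) l := by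
  refine ⟨(binP l).comp (X - C (n₀ : ℝ)), ?_, fun k => ?_⟩
  · rw [Polynomial.mem_degreeLT]
    refine lt_of_le_of_lt Polynomial.degree_le_natDegree ?_
    have h1 : ((binP l).comp (X - C (n₀ : ℝ))).natDegree ≤ l := by
      refine natDegree_comp_le.trans ?_
      rw [natDegree_X_sub_C, mul_one]
      unfold binP
      refine (natDegree_C_mul_le _ _).trans ?_
      exact (descPochhammer_natDegree ℝ l).le
    exact_mod_cast Nat.lt_succ_of_le h1
  · rw [eval_comp, eval_sub, eval_X, eval_C, binP_eval]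

theorem wd_pw (c : UT m) (n₀ : ℤ) : Wd 1 0 fun k : ℤ => (pwU c ((k : ℝ) - n₀)).1 := by
  intro a b
  have hval : ∀ k : ℤ, (pwU c ((k : ℝ) - n₀)).1 a b =
      ∑ l ∈ range (m + 1), bin ((k : ℝ) - n₀) l * (nilp c ^ l) a b := fun k => by
    rw [pwU_val, pwM_apply]
  refine ⟨fun h k => ?_, fun h => ?_⟩
  · have h1 := nilp_mem (pwU c ((k : ℝ) - n₀)) a b (by omega)
    have h2 : (pwU c ((k : ℝ) - n₀)).1 a b = (1 : Matrix (Fin m) (Fin m) ℝ) a b +
        nilp (pwU c ((k : ℝ) - n₀)) a b := by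
      rw [val_eq (pwU c ((k : ℝ) - n₀))]
      rfl
    show (pwU c ((k : ℝ) - n₀)).1 a b = 0
    rw [h2, h1, add_zero, Matrix.one_apply_ne]
    intro h3
    rw [h3] at h
    omega
  · have h1 : (fun k : ℤ => (pwU c ((k : ℝ) - n₀)).1 a b) =
        fun k : ℤ => ∑ l ∈ range (m + 1), bin ((k : ℝ) - n₀) l * (nilp c ^ l) a b := funext hval
    rw [h1]
    refine dg_sum _ (fun l (k : ℤ) => bin ((k : ℝ) - n₀) l * (nilp c ^ l) a b) fun l _ => ?_
    by_cases hl : l ≤ (b : ℕ) - a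
    · have h2 := dg_mul (wd_bin n₀ l) (dg_const (le_refl 1) ((nilp c ^ l) a b))
      exact dg_mono (by omega) h2
    · have h2 : (nilp c ^ l) a b = 0 := lv_pow (nilp_mem c) l a b (by omega)
      have h3 : (fun k : ℤ => bin ((k : ℝ) - n₀) l * (nilp c ^ l) a b) = fun _ => 0 := by
        funext k
        rw [h2, mul_zero]
      rw [h3]
      exact dg_zero _

/-- Size of the inverse. -/
theorem nm_inv (x : UT m) (hx : nmU x ≤ 1) : nmU x⁻¹ ≤ m * nmU x := by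
  rw [inv_eq]
  have h1 := nmU_pw x (t := -1) (by norm_num)
  refine h1.trans ?_
  rw [abs_neg, abs_one, one_mul]
  calc ∑ k ∈ range m, nmU x ^ (k + 1) ≤ ∑ _k ∈ range m, nmU x := by
        refine sum_le_sum fun k _ => ?_
        exact pow_le_of_le_one (nmU_nonneg x) hx (Nat.succ_ne_zero k)
    _ = m * nmU x := by rw [sum_const, card_range, nsmul_eq_mul]

theorem nm_pow (c : UT m) (h : ℕ) : 1 + nmU (c ^ h) ≤ (1 + nmU c) ^ h := by
  induction h with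
  | zero => rw [pow_zero, pow_zero, nmU_one, add_zero]
  | succ h ih =>
    rw [pow_succ, pow_succ]
    have h1 := nmU_mul (c ^ h) c
    have h2 := nmU_nonneg (c ^ h)
    have h3 := nmU_nonneg c
    calc 1 + nmU (c ^ h * c) ≤ (1 + nmU (c ^ h)) * (1 + nmU c) := by nlinarith
      _ ≤ (1 + nmU c) ^ h * (1 + nmU c) := mul_le_mul_of_nonneg_right ih (by positivity)

/-- The interpolation of two small elements is small on the window. -/
theorem interp (a b : UT m) (u : ℝ) (H h : ℕ) (hh : h ≤ H) (hH : 1 ≤ H)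
    (ha : nmU a ≤ u / H) (hb : nmU b ≤ u / H) (hu : 0 ≤ u) (hu1 : (2 * m + 1) * u ≤ 1) :
    nmU (a * pwU (a⁻¹ * b) h) ≤ (4 * m + 5) * u := by
  have hH0 : (1 : ℝ) ≤ H := by exact_mod_cast hH
  have hu2 : u ≤ 1 := by
    have : 0 ≤ (2 * m : ℝ) * u := by positivity
    nlinarith
  have huH : u / H ≤ u := div_le_self hu hH0
  have hh' : (h : ℝ) ≤ H := by exact_mod_cast hh
  have h1 : nmU a⁻¹ ≤ m * nmU a := nm_inv a (ha.trans (huH.trans hu2))
  have h2 := nmU_mul a⁻¹ b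
  have h3 := nmU_nonneg a⁻¹
  have h4 := nmU_nonneg b
  have h5 : nmU (a⁻¹ * b) ≤ (2 * m + 1) * (u / H) := by
    have h6 : nmU a⁻¹ * nmU b ≤ nmU a⁻¹ * 1 :=
      mul_le_mul_of_nonneg_left (hb.trans (huH.trans hu2)) h3
    have h7 : nmU a⁻¹ ≤ m * (u / H) :=
      h1.trans (mul_le_mul_of_nonneg_left ha (Nat.cast_nonneg _))
    linarith
  have h8 : 1 + nmU ((a⁻¹ * b) ^ h) ≤ Real.exp ((2 * m + 1) * u) := by
    refine (nm_pow _ _).trans ?_
    have h9 : 1 + nmU (a⁻¹ * b) ≤ Real.exp (nmU (a⁻¹ * b)) := by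
      have := Real.add_one_le_exp (nmU (a⁻¹ * b))
      linarith
    calc (1 + nmU (a⁻¹ * b)) ^ h ≤ Real.exp (nmU (a⁻¹ * b)) ^ h :=
          pow_le_pow_left₀ (by have := nmU_nonneg (a⁻¹ * b); linarith) h9 _
      _ = Real.exp (h * nmU (a⁻¹ * b)) := (Real.exp_nat_mul _ _).symm
      _ ≤ Real.exp ((2 * m + 1) * u) := by
          apply Real.exp_le_exp.2
          calc (h : ℝ) * nmU (a⁻¹ * b) ≤ H * ((2 * m + 1) * (u / H)) :=
                mul_le_mul hh' h5 (nmU_nonneg _) (by positivity)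
            _ = (2 * m + 1) * u := by
                have : (H : ℝ) ≠ 0 := by linarith
                field_simp
  have h10 := exp_small (u := (2 * m + 1) * u) (by positivity) hu1
  rw [pwU_nat]
  have h11 := nmU_mul a ((a⁻¹ * b) ^ h)
  have h12 := nmU_nonneg a
  have h13 := nmU_nonneg ((a⁻¹ * b) ^ h)
  have h14 : nmU ((a⁻¹ * b) ^ h) ≤ 2 * ((2 * m + 1) * u) := by linarith
  have h15 : nmU a * nmU ((a⁻¹ * b) ^ h) ≤ u * 2 := by
    refine mul_le_mul (ha.trans huH) (h14.trans ?_) h13 hu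
    linarith
  have h16 : nmU a ≤ u := ha.trans huH
  linarith

section

variable {G : Subgroup (Matrix.GeneralLinearGroup (Fin m) ℝ)}

theorem vj_nonneg (n : ℕ) (g g' : ℤ → G) : 0 ≤ vj n g g' :=
  Real.iSup_nonneg fun k => by positivity

theorem le_vj (hG : Unip G) (n : ℕ) (g g' : ℤ → G) (k : ℕ) (hk : k ≤ 4 * n) :
    nmU (ofG hG (g' k) * (ofG hG (g k))⁻¹) ≤ vj n g g' := by
  have h1 := le_ciSup (f := fun k : Fin (4 * n + 1) => ∑ i, ∑ j,
    |((g' (k : ℕ) * (g (k : ℕ))⁻¹ : Matrix.GeneralLinearGroup (Fin m) ℝ) :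
      Matrix (Fin m) (Fin m) ℝ) i j - (1 : Matrix (Fin m) (Fin m) ℝ) i j|)
    (Set.finite_range _).bddAbove ⟨k, by omega⟩
  rw [← ofG_inv, ← ofG_mul]
  exact h1

/-- Closeness along the stretches. -/
theorem closej (hG : Unip G) (g : ℕ → ℤ → G) (s n : ℕ) (u : ℝ) (hu : u < 1) (hsn : s ≤ n)
    (h : ∑ i ∈ Ico s n, min 1 (vj i (g i) (g (i + 1))) ≤ u) (k : ℕ) (hk : k ≤ 4 * s) :
    nmU (ofG hG (g n k) * (ofG hG (g s k))⁻¹) ≤ 2 * u := by
  have hnn : ∀ i, 0 ≤ min 1 (vj i (g i) (g (i + 1))) := fun i =>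
    le_min zero_le_one (vj_nonneg _ _ _)
  have hu0 : 0 ≤ u := le_trans (sum_nonneg fun i _ => hnn i) h
  have hD : ∀ i, s ≤ i → i < n → vj i (g i) (g (i + 1)) ≤ min 1 (vj i (g i) (g (i + 1))) := by
    intro i h1 h2
    have h3 := single_le_sum (f := fun i => min 1 (vj i (g i) (g (i + 1))))
      (fun i _ => hnn i) (mem_Ico.2 ⟨h1, h2⟩)
    have h4 : min 1 (vj i (g i) (g (i + 1))) < 1 := by linarith
    rcases min_lt_iff.1 h4 with h5 | h5
    · exact absurd h5 (lt_irrefl _)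
    · rw [min_eq_right h5.le]
  have h1 := prod_small (fun i => ofG hG (g i k)) (fun i => min 1 (vj i (g i) (g (i + 1))))
    s n hsn fun i h2 h3 => (le_vj hG i (g i) (g (i + 1)) k (by omega)).trans (hD i h2 h3)
  have h2 : Real.exp (∑ i ∈ Ico s n, min 1 (vj i (g i) (g (i + 1)))) ≤ Real.exp u :=
    Real.exp_le_exp.2 h
  have h3 := exp_small hu0 hu.le
  linarith

end

end JJ

open FM FF JJ

/-- **Theorem JET for groups of unitriangular matrices.** -/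
theorem jfinal (hJ : JETK) {m : ℕ} {G : Subgroup (Matrix.GeneralLinearGroup (Fin m) ℝ)}
    (hG : Unip G) {Γ : Subgroup G}
    (hΓ : ∀ γ ∈ Γ, ∀ i j, ∃ k : ℤ, ((γ : Matrix.GeneralLinearGroup (Fin m) ℝ) :
      Matrix (Fin m) (Fin m) ℝ) i j = k) [CompactSpace (G ⧸ Γ)] (f : G ⧸ Γ → ℂ)
    (hf : Continuous f) (D : ℕ) (A ε : ℝ) (hε : 0 < ε) :
    ∃ (B : ℝ) (H₀ : ℕ), ∀ H : ℕ, H₀ ≤ H → ∀ x y : ℝ, (H : ℝ) ^ B ≤ x → x * H ≤ y →
    ∀ g : ℕ → ℤ → G, (∀ n, Poly D (g n)) →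
    (∀ j : ℕ, ∑ n ∈ Ico (2 ^ j) (2 ^ (j + 1)), min 1 (vj n (g n) (g (n + 1))) ≤ (H : ℝ) ^ A) →
    ∑ n ∈ Ioc ⌊x⌋₊ ⌊y⌋₊, (1 / (n : ℝ)) * SupJ f D (g n) H n ≤ ε * H * Real.log (y / x) := by
  obtain ⟨D', hD'⟩ : ∃ D' : ℕ, D' = max D 1 := ⟨_, rfl⟩
  have hDD : D ≤ D' := by omega
  have hD1 : 1 ≤ D' := by omega
  have hR := rat_Gr hG Γ hΓ
  obtain ⟨f1, f2, f3⟩ := fut ker_row m (La' Γ) (La'_le hΓ) (Gr (La' Γ) (La'_le hΓ) G) hR
  have hF : Filt (fun i => Gr (La' Γ) (La'_le hΓ) G ⊓ lvS m (La' Γ) (La'_le hΓ) (cl' D' i))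
      (D' * m) := filt_stretch f1 hD1
  have hG0 : Gr (La' Γ) (La'_le hΓ) G ⊓ lvS m (La' Γ) (La'_le hΓ) (cl' D' 0) =
      Gr (La' Γ) (La'_le hΓ) G := by rw [cl'_zero D' hD1]; exact f2
  have hGd : Gr (La' Γ) (La'_le hΓ) G ⊓ lvS m (La' Γ) (La'_le hΓ) (cl' D' (D' * m + 1)) = ⊥ := by
    rw [cl'_top D' m hD1]; exact f3
  have hFn0 := fn_Fu hG Γ hΓ f hf
  have hFn : Fn (Gr (La' Γ) (La'_le hΓ) G ⊓ lvS m (La' Γ) (La'_le hΓ) (cl' D' 0))
      (Gr (La' Γ) (La'_le hΓ) G ⊓ lvS m (La' Γ) (La'_le hΓ) (cl' D' (D' * m + 1)))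
      (fun x : UTG m (La' Γ) (La'_le hΓ) => Fu Γ f x) := by
    rw [hG0, hGd]
    exact hFn0
  obtain ⟨ρ, hρ, huc0⟩ := hFn0.uc (ε / 8) (by positivity)
  have huc : ∀ k x : UT m, toGL m k ∈ G → toGL m x ∈ G → nmU k ≤ ρ →
      ‖Fu Γ f (k * x) - Fu Γ f x‖ ≤ ε / 8 := fun k x hk hx hn => huc0 k hk hn x hx
  obtain ⟨ε', hε'⟩ : ∃ ε' : ℝ, ε' = min 1 (min (1 / (2 * (2 * (m : ℝ) + 1)))
    (ρ / (2 * (4 * (m : ℝ) + 5)))) := ⟨_, rfl⟩
  have hε'0 : 0 < ε' := by rw [hε']; positivity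
  have hε'1 : ε' ≤ 1 := by rw [hε']; exact min_le_left _ _
  have hε'2 : (2 * m + 1) * (2 * ε') ≤ 1 := by
    have : ε' ≤ 1 / (2 * (2 * (m : ℝ) + 1)) := by
      rw [hε']; exact (min_le_right _ _).trans (min_le_left _ _)
    rw [le_div_iff₀ (by positivity)] at this
    linarith
  have hε'3 : (4 * m + 5) * (2 * ε') ≤ ρ := by
    have : ε' ≤ ρ / (2 * (4 * (m : ℝ) + 5)) := by
      rw [hε']; exact (min_le_right _ _).trans (min_le_right _ _)
    rw [le_div_iff₀ (by positivity)] at this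
    linarith
  obtain ⟨H₁, hH₁⟩ := BVx.check (max A 0) ε' (le_max_right _ _) hε'0 hε'1
  obtain ⟨K, hK, hKG, hcen⟩ := ccc m (La' Γ) (La'_le hΓ) (Gr (La' Γ) (La'_le hΓ) G) hR
  obtain ⟨B, H₀, hB, hmain⟩ := hJ (UTG m (La' Γ) (La'_le hΓ))
    (fun i => Gr (La' Γ) (La'_le hΓ) G ⊓ lvS m (La' Γ) (La'_le hΓ) (cl' D' i)) (D' * m) hF
    (fun x : UTG m (La' Γ) (La'_le hΓ) => Fu Γ f x) hFn K hK
    (by
      show K ⊆ ((Gr (La' Γ) (La'_le hΓ) G ⊓ lvS m (La' Γ) (La'_le hΓ) (cl' D' 0) :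
        Subgroup (UTG m (La' Γ) (La'_le hΓ))) : Set (UTG m (La' Γ) (La'_le hΓ)))
      rw [hG0]
      exact hKG)
    (max A 0 + 2) (ε / 4) (by positivity) (by positivity)
  refine ⟨max B 1, max H₀ H₁, ?_⟩
  intro H hH x y hx hxy g hg hvar
  obtain ⟨hH3N, hchk⟩ := hH₁ H ((le_max_right _ _).trans hH)
  have hH3 : (3 : ℝ) ≤ H := by exact_mod_cast hH3N
  have hH0 : (0 : ℝ) < H := by linarith
  have hH1 : (1 : ℝ) ≤ H := by linarith
  obtain ⟨σ, hσ1, hσ2⟩ := hchk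
    (fun n => min 1 (vj n (g n) (g (n + 1))))
    (fun n => le_min zero_le_one (vj_nonneg _ _ _))
    (fun j => (hvar j).trans (Real.rpow_le_rpow_of_exponent_le hH1 (le_max_left _ _)))
  have hxH : (H : ℝ) ≤ x := by
    refine le_trans ?_ hx
    calc (H : ℝ) = (H : ℝ) ^ (1 : ℝ) := (Real.rpow_one _).symm
      _ ≤ _ := Real.rpow_le_rpow_of_exponent_le hH1 (le_max_right _ _)
  have hx0 : 0 < x := by linarith
  have hxab : x ≤ y := by
    refine le_trans ?_ hxy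
    nlinarith
  have hy0 : 0 < y := by linarith
  have hΛ : 1 ≤ Real.log y - Real.log x := by
    have h1 := Real.log_le_log (by positivity) hxy
    rw [Real.log_mul hx0.ne' hH0.ne'] at h1
    have h2 : 1 ≤ Real.log H := by
      rw [Real.le_log_iff_exp_le hH0]
      have := Real.exp_one_lt_d9
      linarith
    linarith
  have hsum := SUPx.sum_inv_le x y (by linarith) hxab
  -- nearly optimal polynomials
  have hnear : ∀ n : ℕ, ∃ P : {P : ℤ → G // Poly D P ∧ ∃ c ∈ Subgroup.center G,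
      P n = g n n * c ∧ P (n + 1) = g n (n + 1) * c},
      SupJ f D (g n) H n ≤
      ‖∑ h ∈ Finset.Icc 1 H, f (QuotientGroup.mk (P.1 (n + h))) *
        ((ArithmeticFunction.moebius (n + h) : ℤ) : ℂ)‖ + H * (ε / 8) := by
    intro n
    have hne : Nonempty {P : ℤ → G // Poly D P ∧ ∃ c ∈ Subgroup.center G,
        P n = g n n * c ∧ P (n + 1) = g n (n + 1) * c} :=
      ⟨⟨g n, hg n, 1, Subgroup.one_mem _, (mul_one _).symm, (mul_one _).symm⟩⟩
    exact near_sup _ _ (by positivity)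
  choose P hP using hnear
  -- the central constants
  have hcc : ∀ n : ℕ, ∃ c : G, (∀ x : G, x * c = c * x) ∧ (P n).1 n = g n n * c ∧
      (P n).1 (n + 1) = g n (n + 1) * c := by
    intro n
    obtain ⟨c, h1, h2, h3⟩ := (P n).2.2
    exact ⟨c, fun x => Subgroup.mem_center_iff.1 h1 x, h2, h3⟩
  choose cc hcc1 hcc2 hcc3 using hcc
  have hkg : ∀ n : ℕ, ∃ k : UT m, k ∈ K ∧ ∃ γ : UT m,
      (γ : UTG m (La' Γ) (La'_le hΓ)) ∈ (La : Subgroup (UTG m (La' Γ) (La'_le hΓ))) ∧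
      toGL m γ ∈ G ∧ ofG hG (cc n) = k * γ ∧ ∀ x : UT m, toGL m x ∈ G → x * k = k * x := by
    intro n
    obtain ⟨k, h1, γ, h2, h3, h5, _, h4⟩ := hcen (ofG hG (cc n) : UT m) (by
      show toGL m (ofG hG (cc n)) ∈ G
      rw [toGL_ofG]
      exact SetLike.coe_mem _) (by
      rintro (x : UT m) (hx : toGL m x ∈ G)
      show ofG hG (cc n) * x = x * ofG hG (cc n)
      have h6 := hcc1 n ⟨toGL m x, hx⟩
      apply toGL_inj
      rw [map_mul, map_mul, toGL_ofG]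
      exact (congrArg Subtype.val h6).symm)
    exact ⟨k, h1, γ, h2, h3, h4, fun x hx => (h5 x hx).symm⟩
  choose kk hkk γγ hγγ hγG hkγ hkc using hkg
  -- the interpolating factors
  obtain ⟨a, ha⟩ : ∃ a : ℕ → UT m, a = fun n =>
    ofG hG (g n n) * (ofG hG (g (σ n) n))⁻¹ := ⟨_, rfl⟩
  obtain ⟨b, hb⟩ : ∃ b : ℕ → UT m, b = fun n =>
    ofG hG (g n (n + 1)) * (ofG hG (g (σ n) (n + 1)))⁻¹ := ⟨_, rfl⟩
  obtain ⟨κ, hκ⟩ : ∃ κ : ℕ → ℤ → UT m, κ = fun n (k : ℤ) =>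
    a n * pwU ((a n)⁻¹ * b n) ((k : ℝ) - ((n : ℤ) : ℝ)) := ⟨_, rfl⟩
  have haG : ∀ n, toGL m (a n) ∈ G := by
    intro n
    rw [ha]
    simp only [map_mul, map_inv, toGL_ofG]
    exact G.mul_mem (SetLike.coe_mem _) (G.inv_mem (SetLike.coe_mem _))
  have hbG : ∀ n, toGL m (b n) ∈ G := by
    intro n
    rw [hb]
    simp only [map_mul, map_inv, toGL_ofG]
    exact G.mul_mem (SetLike.coe_mem _) (G.inv_mem (SetLike.coe_mem _))
  have hκG : ∀ n k, toGL m (κ n k) ∈ G := by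
    intro n k
    rw [hκ]
    simp only [map_mul]
    refine G.mul_mem (haG n) ?_
    refine hR.pwc ((a n)⁻¹ * b n : UT m) ?_ _
    show toGL m ((a n)⁻¹ * b n) ∈ G
    rw [map_mul, map_inv]
    exact G.mul_mem (G.inv_mem (haG n)) (hbG n)
  have hκn : ∀ n : ℕ, κ n n = a n := by
    intro n
    rw [hκ]
    simp only [sub_self, pwU_zero, mul_one]
  have hκn1 : ∀ n : ℕ, κ n (n + 1) = b n := by
    intro n
    rw [hκ]
    have h1 : (((n : ℤ) + 1 : ℤ) : ℝ) - ((n : ℤ) : ℝ) = 1 := by push_cast; ring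
    simp only [h1, pwU_one, mul_inv_cancel_left]
  have hκw : ∀ n, Wd D' 0 fun k => nilp (κ n k) := by
    intro n
    apply wd_nilp
    have h1 : (fun k => (κ n k).1) = fun k : ℤ => (a n).1 *
        (pwU ((a n)⁻¹ * b n) ((k : ℝ) - ((n : ℤ) : ℝ))).1 := by
      rw [hκ]
      rfl
    rw [h1]
    refine wd_mul ?_ (wd_deg hD1 (wd_pw _ _))
    have h2 : Wd D' 0 fun _ : ℤ => (a n).1 := by
      intro i j
      refine ⟨fun h k => ?_, fun h => dg_const (by omega) _⟩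
      show (a n).1 i j = 0
      have h3 : (a n).1 i j = (1 : Matrix (Fin m) (Fin m) ℝ) i j + nilp (a n) i j := by
        rw [val_eq (a n)]
        rfl
      rw [h3, nilp_mem (a n) i j (by omega), add_zero, Matrix.one_apply_ne]
      intro h4
      rw [h4] at h
      omega
    exact h2
  have hPw : ∀ n, Wd D' 0 fun k => nilp ((κ n k)⁻¹ * ofG hG ((P n).1 k)) := by
    intro n
    apply wd_nilp
    have h1 : (fun k => ((κ n k)⁻¹ * ofG hG ((P n).1 k)).1) = fun k =>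
        ((κ n k)⁻¹).1 * (ofG hG ((P n).1 k)).1 := rfl
    rw [h1]
    exact wd_mul (wd_inv _ (hκw n)) (wd_full _ (wd_poly hG hDD hD1 _ (P n).2.1))
  have hPG : ∀ n k, toGL m ((κ n k)⁻¹ * ofG hG ((P n).1 k)) ∈ G := by
    intro n k
    rw [map_mul, map_inv, toGL_ofG]
    exact G.mul_mem (G.inv_mem (hκG n k)) (SetLike.coe_mem _)
  have h2 := hmain H ((le_max_left _ _).trans hH) x y
    ((Real.rpow_le_rpow_of_exponent_le hH1 (le_max_left _ _)).trans hx) hxy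
    (fun n k => (ofG hG (g (σ n) k) : UT m))
    (fun n => ps_of_wd hD1 (La' Γ) (La'_le hΓ) (Gr (La' Γ) (La'_le hΓ) G)
      (fun k => (ofG hG (g (σ n) k) : UT m)) (wd_poly hG hDD hD1 (g (σ n)) (hg _)) (fun k => by
        show toGL m (ofG hG _) ∈ G
        rw [toGL_ofG]
        exact SetLike.coe_mem _))
    (fun j => by
      classical
      refine le_trans ?_ (hσ1 j)
      have h0 : {n : ℕ | 2 ^ j ≤ n ∧ n < 2 ^ (j + 1) ∧ σ (n + 1) ≠ σ n} =
          ((Ico (2 ^ j) (2 ^ (j + 1))).filter fun n => σ (n + 1) ≠ σ n : Finset ℕ) := by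
        ext n
        simp [and_assoc]
      rw [h0, Set.ncard_coe_finset]
      norm_cast
      refine card_le_card fun n hn => ?_
      rw [mem_filter] at hn ⊢
      exact ⟨hn.1, fun h => hn.2 (congrArg (fun i => (fun k => (ofG hG (g i k) : UT m))) h)⟩)
    kk γγ (fun n => hkk n)
    (fun n => ⟨hγγ n, by
      show γγ n ∈ (Gr (La' Γ) (La'_le hΓ) G ⊓ lvS m (La' Γ) (La'_le hΓ) (cl' D' 0) :
        Subgroup (UTG m (La' Γ) (La'_le hΓ)))
      rw [hG0]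
      exact hγG n⟩)
    (fun n k => ((κ n k)⁻¹ * ofG hG ((P n).1 k) : UT m))
    (fun n => ps_of_wd hD1 (La' Γ) (La'_le hΓ) (Gr (La' Γ) (La'_le hΓ) G)
      (fun k => ((κ n k)⁻¹ * ofG hG ((P n).1 k) : UT m)) (hPw n) (fun k => hPG n k))
    (fun n => by
      constructor
      · show (κ n n)⁻¹ * ofG hG ((P n).1 n) = kk n * ofG hG (g (σ n) n) * γγ n
        rw [hκn, hcc2, ha, ofG_mul, hkγ, ← hkc n (ofG hG (g (σ n) n)) (by
          rw [toGL_ofG]
          exact SetLike.coe_mem _)]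
        group
      · show (κ n (n + 1))⁻¹ * ofG hG ((P n).1 (n + 1)) =
          kk n * ofG hG (g (σ n) (n + 1)) * γγ n
        rw [hκn1, hcc3, hb, ofG_mul, hkγ, ← hkc n (ofG hG (g (σ n) (n + 1))) (by
          rw [toGL_ofG]
          exact SetLike.coe_mem _)]
        group)
  have hwin : ∀ n ∈ Ioc ⌊x⌋₊ ⌊y⌋₊, SupJ f D (g n) H n ≤
      H * Wg H n (fun k : ℕ => Fu Γ f ((κ n k)⁻¹ * ofG hG ((P n).1 k))) + H * (ε / 4) := by
    intro n hn
    rw [mem_Ioc] at hn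
    have hnx : x < n := (Nat.floor_lt hx0.le).1 hn.1
    have hHn : H ≤ n := by
      have : (H : ℝ) ≤ n := by linarith
      exact_mod_cast this
    have hn3 : 3 ≤ n := hH3N.trans hHn
    obtain ⟨h3, h4, h5⟩ := hσ2 n hn3
    have hu1 : ε' / H < 1 := by
      rw [div_lt_one hH0]
      linarith
    have haS : nmU (a n) ≤ 2 * ε' / H := by
      rw [ha, mul_div_assoc]
      exact closej hG g (σ n) n (ε' / H) hu1 h4 h5 n (by omega)
    have hbS : nmU (b n) ≤ 2 * ε' / H := by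
      rw [hb, mul_div_assoc]
      have := closej hG g (σ n) n (ε' / H) hu1 h4 h5 (n + 1) (by omega)
      rw [Nat.cast_add, Nat.cast_one] at this
      exact this
    have hterm : ∀ h ∈ Icc 1 H, ‖f (QuotientGroup.mk ((P n).1 (n + h))) *
        ((ArithmeticFunction.moebius (n + h) : ℤ) : ℂ) -
        muC (n + h) * Fu Γ f ((κ n ((n + h : ℕ) : ℤ))⁻¹ * ofG hG ((P n).1 ((n + h : ℕ) : ℤ)))‖ ≤
        ε / 8 := by
      intro h hh
      rw [mem_Icc] at hh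
      have h6 := interp (a n) (b n) (2 * ε') H h hh.2 (by omega) haS hbS (by positivity) hε'2
      have h7 : κ n ((n + h : ℕ) : ℤ) = a n * pwU ((a n)⁻¹ * b n) h := by
        rw [hκ]
        have h1 : ((((n + h : ℕ) : ℤ)) : ℝ) - ((n : ℤ) : ℝ) = h := by push_cast; ring
        simp only [h1]
      have h8 : ofG hG ((P n).1 ((n + h : ℕ) : ℤ)) = κ n ((n + h : ℕ) : ℤ) *
          ((κ n ((n + h : ℕ) : ℤ))⁻¹ * ofG hG ((P n).1 ((n + h : ℕ) : ℤ))) := by group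
      have h9 := huc (κ n ((n + h : ℕ) : ℤ))
        ((κ n ((n + h : ℕ) : ℤ))⁻¹ * ofG hG ((P n).1 ((n + h : ℕ) : ℤ))) (hκG _ _) (hPG _ _)
        (by rw [h7]; exact h6.trans hε'3)
      rw [← h8, Fu_ofG] at h9
      rw [mul_comm (muC (n + h))]
      have h10 : ((ArithmeticFunction.moebius (n + h) : ℤ) : ℂ) = muC (n + h) := rfl
      rw [h10, ← sub_mul, norm_mul]
      have h11 : (P n).1 ((n : ℤ) + (h : ℤ)) = (P n).1 ((n + h : ℕ) : ℤ) := by rw [Nat.cast_add]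
      rw [h11]
      calc _ ≤ ε / 8 * 1 := mul_le_mul h9 (norm_muC _) (norm_nonneg _) (by positivity)
        _ = ε / 8 := mul_one _
    refine (hP n).trans ?_
    have h12 : (H : ℝ) * Wg H n (fun k : ℕ => Fu Γ f ((κ n k)⁻¹ * ofG hG ((P n).1 k))) =
        ‖∑ h ∈ Icc 1 H, muC (n + h) * Fu Γ f ((κ n ((n + h : ℕ) : ℤ))⁻¹ *
          ofG hG ((P n).1 ((n + h : ℕ) : ℤ)))‖ := by
      unfold Wg
      rw [mul_div_cancel₀ _ hH0.ne']
    rw [h12]
    have h13 := (norm_sub_norm_le (∑ h ∈ Finset.Icc 1 H, f (QuotientGroup.mk ((P n).1 (n + h))) *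
        ((ArithmeticFunction.moebius (n + h) : ℤ) : ℂ))
      (∑ h ∈ Icc 1 H, muC (n + h) * Fu Γ f ((κ n ((n + h : ℕ) : ℤ))⁻¹ *
          ofG hG ((P n).1 ((n + h : ℕ) : ℤ)))))
    rw [← sum_sub_distrib] at h13
    have h14 := (norm_sum_le _ _).trans (sum_le_sum hterm)
    rw [sum_const, Nat.card_Icc, nsmul_eq_mul] at h14
    have h15 : ((H + 1 - 1 : ℕ) : ℝ) = H := by rw [Nat.add_sub_cancel]
    rw [h15] at h14
    linarith
  rw [Real.log_div hy0.ne' hx0.ne']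
  calc ∑ n ∈ Ioc ⌊x⌋₊ ⌊y⌋₊, (1 / (n : ℝ)) * SupJ f D (g n) H n
      ≤ ∑ n ∈ Ioc ⌊x⌋₊ ⌊y⌋₊, (1 / (n : ℝ)) * (H * Wg H n (fun k : ℕ =>
        Fu Γ f ((κ n k)⁻¹ * ofG hG ((P n).1 k))) + H * (ε / 4)) :=
        sum_le_sum fun n hn => mul_le_mul_of_nonneg_left (hwin n hn) (by positivity)
    _ = H * ∑ n ∈ Ioc ⌊x⌋₊ ⌊y⌋₊, (1 / (n : ℝ)) * Wg H n (fun k : ℕ =>
        Fu Γ f ((κ n k)⁻¹ * ofG hG ((P n).1 k))) +
        (∑ n ∈ Ioc ⌊x⌋₊ ⌊y⌋₊, (1 / (n : ℝ))) * (H * (ε / 4)) := by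
        rw [sum_mul, mul_sum, ← sum_add_distrib]
        exact sum_congr rfl fun _ _ => by ring
    _ ≤ H * (ε / 4 * (Real.log y - Real.log x)) +
        (Real.log y - Real.log x + 1) * (H * (ε / 4)) :=
        add_le_add (mul_le_mul_of_nonneg_left h2 hH0.le)
          (mul_le_mul_of_nonneg_right hsum (by positivity))
    _ ≤ ε * H * (Real.log y - Real.log x) := by
        have h3 : 0 ≤ H * (ε / 4) := by positivity
        nlinarith

end

end Pool.Agent.NG
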