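import Mathlib
import Pool.Agent.Lib.NG.JFin
import Pool.Agent.Lib.NG.JCFA

/-!
# JETC (MP_663568_nt): all `N` and `H`, natural density, for groups of unitriangular matrices

(helper11; the packaging is helper26's)
-/

set_option autoImplicit false
open Finset Topology Polynomial

namespace Pool.Agent.NG

open Amb Pool.Agent.Lib.MP_663568_nt Pool.Agent.Lib.MP_663568_nt.Katai
  Pool.Agent.Lib.MP_663568_nt.Nul Pool.Agent.SV Pool.Agent.VQ Pool.Agent.NV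

noncomputable section

open FM FF JJ

/-- **Theorem JETC for groups of unitriangular matrices.** -/
theorem jcfinal (hJ : JETCU) {m : ℕ} {G : Subgroup (Matrix.GeneralLinearGroup (Fin m) ℝ)}
    (hG : Unip G) {Γ : Subgroup G}
    (hΓ : ∀ γ ∈ Γ, ∀ i j, ∃ k : ℤ, ((γ : Matrix.GeneralLinearGroup (Fin m) ℝ) :
      Matrix (Fin m) (Fin m) ℝ) i j = k) [CompactSpace (G ⧸ Γ)] (f : G ⧸ Γ → ℂ)
    (hf : Continuous f) (D : ℕ) (ε : ℝ) (hε : 0 < ε) :
    ∃ H₀ : ℕ, ∀ H : ℕ, H₀ ≤ H → ∀ N : ℕ, 1 ≤ N → ∀ g : ℤ → G, Poly D g →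
    ∑ n ∈ Ico N (2 * N), SupJ f D g H n ≤ ε * H * N := by
  obtain ⟨D', hD'⟩ : ∃ D' : ℕ, D' = max D 1 := ⟨_, rfl⟩
  have hDD : D ≤ D' := by omega
  have hD1 : 1 ≤ D' := by omega
  have hR := rat_Gr hG Γ hΓ
  obtain ⟨f1, f2, f3⟩ := fut ker_row m (La' Γ) (La'_le hΓ) (Gr (La' Γ) (La'_le hΓ) G) hR
  have hF : Filt (fun i => Gr (La' Γ) (La'_le hΓ) G ⊓ lvS m (La' Γ) (La'_le hΓ) (cl' D' i))
      (D' * m) := filt_stretch f1 hD1
  have hG0 : Gr (La' Γ) (La'_le hΓ) G ⊓ lvS m (La' Γ) (La'_le hΓ) (cl' D' 0) =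
      Gr (La' Γ) (La'_le hΓ) G := by rw [cl'_zero D' hD1]; exact f2
  have hGd : Gr (La' Γ) (La'_le hΓ) G ⊓ lvS m (La' Γ) (La'_le hΓ) (cl' D' (D' * m + 1)) = ⊥ := by
    rw [cl'_top D' m hD1]; exact f3
  have hFn0 := fn_Fu hG Γ hΓ f hf
  have hFn : Fn (Gr (La' Γ) (La'_le hΓ) G ⊓ lvS m (La' Γ) (La'_le hΓ) (cl' D' 0))
      (Gr (La' Γ) (La'_le hΓ) G ⊓ lvS m (La' Γ) (La'_le hΓ) (cl' D' (D' * m + 1)))
      (fun x : UTG m (La' Γ) (La'_le hΓ) => Fu Γ f x) := by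
    rw [hG0, hGd]
    exact hFn0
  obtain ⟨K, hK, hKG, hcen⟩ := ccc m (La' Γ) (La'_le hΓ) (Gr (La' Γ) (La'_le hΓ) G) hR
  obtain ⟨H₀, hmain⟩ := jetck hJ (UTG m (La' Γ) (La'_le hΓ))
    (fun i => Gr (La' Γ) (La'_le hΓ) G ⊓ lvS m (La' Γ) (La'_le hΓ) (cl' D' i)) (D' * m) hF
    (fun x : UTG m (La' Γ) (La'_le hΓ) => Fu Γ f x) hFn K hK
    (by
      show K ⊆ ((Gr (La' Γ) (La'_le hΓ) G ⊓ lvS m (La' Γ) (La'_le hΓ) (cl' D' 0) :
        Subgroup (UTG m (La' Γ) (La'_le hΓ))) : Set (UTG m (La' Γ) (La'_le hΓ)))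
      rw [hG0]
      exact hKG)
    (ε / 2) (by positivity)
  refine ⟨max H₀ 1, ?_⟩
  intro H hH N hN g hg
  have hH1N : 1 ≤ H := (le_max_right _ _).trans hH
  have hH1 : (1 : ℝ) ≤ H := by exact_mod_cast hH1N
  have hH0 : (0 : ℝ) < H := by linarith
  -- nearly optimal polynomials
  have hnear : ∀ n : ℕ, ∃ P : {P : ℤ → G // Poly D P ∧ ∃ c ∈ Subgroup.center G,
      P n = g n * c ∧ P (n + 1) = g (n + 1) * c},
      SupJ f D g H n ≤
      ‖∑ h ∈ Finset.Icc 1 H, f (QuotientGroup.mk (P.1 (n + h))) *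
        ((ArithmeticFunction.moebius (n + h) : ℤ) : ℂ)‖ + H * (ε / 2) := by
    intro n
    have hne : Nonempty {P : ℤ → G // Poly D P ∧ ∃ c ∈ Subgroup.center G,
        P n = g n * c ∧ P (n + 1) = g (n + 1) * c} :=
      ⟨⟨g, hg, 1, Subgroup.one_mem _, (mul_one _).symm, (mul_one _).symm⟩⟩
    exact near_sup _ _ (by positivity)
  choose P hP using hnear
  -- the central constants
  have hcc : ∀ n : ℕ, ∃ c : G, (∀ x : G, x * c = c * x) ∧ (P n).1 n = g n * c ∧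
      (P n).1 (n + 1) = g (n + 1) * c := by
    intro n
    obtain ⟨c, h1, h2, h3⟩ := (P n).2.2
    exact ⟨c, fun x => Subgroup.mem_center_iff.1 h1 x, h2, h3⟩
  choose cc hcc1 hcc2 hcc3 using hcc
  have hkg : ∀ n : ℕ, ∃ k : UT m, k ∈ K ∧ ∃ γ : UT m,
      (γ : UTG m (La' Γ) (La'_le hΓ)) ∈ (La : Subgroup (UTG m (La' Γ) (La'_le hΓ))) ∧
      toGL m γ ∈ G ∧ ofG hG (cc n) = k * γ ∧ ∀ x : UT m, toGL m x ∈ G → x * k = k * x := by
    intro n
    obtain ⟨k, h1, γ, h2, h3, h5, _, h4⟩ := hcen (ofG hG (cc n) : UT m) (by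
      show toGL m (ofG hG (cc n)) ∈ G
      rw [toGL_ofG]
      exact SetLike.coe_mem _) (by
      rintro (x : UT m) (hx : toGL m x ∈ G)
      show ofG hG (cc n) * x = x * ofG hG (cc n)
      have h6 := hcc1 n ⟨toGL m x, hx⟩
      apply toGL_inj
      rw [map_mul, map_mul, toGL_ofG]
      exact (congrArg Subtype.val h6).symm)
    exact ⟨k, h1, γ, h2, h3, h4, fun x hx => (h5 x hx).symm⟩
  choose kk hkk γγ hγγ hγG hkγ hkc using hkg
  have h2 := hmain H ((le_max_left _ _).trans hH) N hN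
    (fun k => (ofG hG (g k) : UT m))
    (ps_of_wd hD1 (La' Γ) (La'_le hΓ) (Gr (La' Γ) (La'_le hΓ) G)
      (fun k => (ofG hG (g k) : UT m)) (wd_poly hG hDD hD1 g hg) (fun k => by
        show toGL m (ofG hG _) ∈ G
        rw [toGL_ofG]
        exact SetLike.coe_mem _))
    kk γγ (fun n => hkk n)
    (fun n => ⟨hγγ n, by
      show γγ n ∈ (Gr (La' Γ) (La'_le hΓ) G ⊓ lvS m (La' Γ) (La'_le hΓ) (cl' D' 0) :
        Subgroup (UTG m (La' Γ) (La'_le hΓ)))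
      rw [hG0]
      exact hγG n⟩)
    (fun n k => (ofG hG ((P n).1 k) : UT m))
    (fun n => ps_of_wd hD1 (La' Γ) (La'_le hΓ) (Gr (La' Γ) (La'_le hΓ) G)
      (fun k => (ofG hG ((P n).1 k) : UT m)) (wd_poly hG hDD hD1 _ (P n).2.1) (fun k => by
        show toGL m (ofG hG _) ∈ G
        rw [toGL_ofG]
        exact SetLike.coe_mem _))
    (fun n => by
      constructor
      · show ofG hG ((P n).1 n) = kk n * ofG hG (g n) * γγ n
        rw [hcc2, ofG_mul, hkγ, ← hkc n (ofG hG (g n)) (by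
          rw [toGL_ofG]
          exact SetLike.coe_mem _)]
        group
      · show ofG hG ((P n).1 (n + 1)) = kk n * ofG hG (g (n + 1)) * γγ n
        rw [hcc3, ofG_mul, hkγ, ← hkc n (ofG hG (g (n + 1))) (by
          rw [toGL_ofG]
          exact SetLike.coe_mem _)]
        group)
  have hwin : ∀ n : ℕ, SupJ f D g H n ≤
      H * Wg H n (fun k : ℕ => Fu Γ f (ofG hG ((P n).1 k))) + H * (ε / 2) := by
    intro n
    refine (hP n).trans (add_le_add ?_ le_rfl)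
    unfold Wg
    rw [mul_div_cancel₀ _ hH0.ne']
    refine le_of_eq ?_
    congr 1
    refine sum_congr rfl fun h _ => ?_
    beta_reduce
    rw [Fu_ofG, mul_comm]
    have h11 : (P n).1 ((n : ℤ) + (h : ℤ)) = (P n).1 ((n + h : ℕ) : ℤ) := by rw [Nat.cast_add]
    rw [h11]
    rfl
  have hN0 : (0 : ℝ) ≤ N := Nat.cast_nonneg _
  calc ∑ n ∈ Ico N (2 * N), SupJ f D g H n
      ≤ ∑ n ∈ Ico N (2 * N), (H * Wg H n (fun k : ℕ =>
        Fu Γ f (ofG hG ((P n).1 k))) + H * (ε / 2)) := sum_le_sum fun n _ => hwin n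
    _ = H * ∑ n ∈ Ico N (2 * N), Wg H n (fun k : ℕ => Fu Γ f (ofG hG ((P n).1 k))) +
        N * (H * (ε / 2)) := by
        rw [sum_add_distrib, mul_sum, sum_const, Nat.card_Ico, nsmul_eq_mul]
        have : 2 * N - N = N := by omega
        rw [this]
    _ ≤ H * (ε / 2 * N) + N * (H * (ε / 2)) :=
        add_le_add (mul_le_mul_of_nonneg_left h2 hH0.le) le_rfl
    _ = ε * H * N := by ring

end

end Pool.Agent.NG
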