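import Mathlib
import Pool.Agent.Lib.NG.CN
import Pool.Agent.Lib.NG.JCEN

/-!
# JET in natural density (MP_663568_nt), row JETN

From the maps `R` to the maps `P` (template NVJU), left factors in a compact set and right factors in
the lattice (template JCEN).  (helper11)
-/

set_option autoImplicit false
open Finset Topology

namespace Pool.Agent.NG

noncomputable section

open Amb AmbQ Pool.Agent.Lib.MP_663568_nt Pool.Agent.Lib.MP_663568_nt.Katai
  Pool.Agent.Lib.MP_663568_nt.Nul Pool.Agent.SV Pool.Agent.VQ Pool.Agent.NV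

namespace Jetn

/-- Constants for the elements of a list. -/
theorem unif {α : Type} (L : List α) (T : α → ℕ → ℕ → Prop)
    (h : ∀ a ∈ L, ∃ (B : ℝ) (H₀ : ℕ), 0 ≤ B ∧ ∀ H : ℕ, H₀ ≤ H → ∀ x : ℕ,
      (H : ℝ) ^ B ≤ x → T a H x) :
    ∃ (B : ℝ) (H₀ : ℕ), 0 ≤ B ∧ ∀ a ∈ L, ∀ H : ℕ, H₀ ≤ H → ∀ x : ℕ,
      (H : ℝ) ^ B ≤ x → T a H x := by
  induction L with
  | nil => exact ⟨0, 0, le_rfl, fun a ha => by simp at ha⟩
  | cons b L ih =>
    obtain ⟨B₁, H₁, hB₁, h1⟩ := h b (by simp)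
    obtain ⟨B₂, H₂, hB₂, h2⟩ := ih fun a ha => h a (by simp [ha])
    refine ⟨max B₁ B₂, max (max H₁ H₂) 1, hB₁.trans (le_max_left _ _), ?_⟩
    intro a ha H hH x hx
    have hH1 : (1 : ℝ) ≤ H := by exact_mod_cast (le_max_right _ _).trans hH
    have e1 : (H : ℝ) ^ B₁ ≤ x :=
      (Real.rpow_le_rpow_of_exponent_le hH1 (le_max_left _ _)).trans hx
    have e2 : (H : ℝ) ^ B₂ ≤ x :=
      (Real.rpow_le_rpow_of_exponent_le hH1 (le_max_right _ _)).trans hx
    rw [List.mem_cons] at ha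
    rcases ha with rfl | ha
    · exact h1 H (((le_max_left _ _).trans (le_max_left _ _)).trans hH) x e1
    · exact h2 a ha H (((le_max_right _ _).trans (le_max_left _ _)).trans hH) x e2

end Jetn

open Jcen in
/-- **Row JETN.** -/
theorem jetn : JETN_stmt := by
  intro hJ hM hLn hFN U _ Gf d hG F hF K hK hKG A ε hA hε
  obtain ⟨L, hL, hnet⟩ := Nj.net (Gf 0) (Gf (d + 1)) F hF K hK hKG (ε / 4) (by positivity)
  obtain ⟨M, hMd⟩ : ∃ M : ℝ, M = L.length + 1 := ⟨_, rfl⟩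
  have hM1 : 1 ≤ M := by
    rw [hMd]
    have : (0 : ℝ) ≤ L.length := Nat.cast_nonneg _
    linarith
  have hM0 : 0 < M := by linarith
  obtain ⟨m1, m2, m3, m4, m5, m6, m7⟩ := hM U ℤ Gf d hG
  obtain ⟨B, H₀, hB, hmain⟩ := Jetn.unif L (fun κ' H x => ∀ X : ℕ → ℤ → U, (∀ n, PS Gf 0 (X n)) →
      ChN X x ((H : ℝ) ^ A) → ∀ R : ℕ → ℤ → U, (∀ n, Jt Gf (Gf 0) (R n)) →
      ∑ n ∈ Ioc x (2 * x), Wg H n (fun m : ℕ => F (κ' * (X n m * R n ((m : ℤ) - n)))) ≤
        ε / (4 * M) * x)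
    (fun κ' hκ' => by
      obtain ⟨B, H₀, hB, h⟩ := hJ U Gf d hG (fun x => F (κ' * x))
        ((hFN U (Gf 0) (Gf (d + 1)) F (hG.rat 0) (FIL.nrm0 hG _) hF).1 κ' (hL κ' hκ')) A
        (ε / (4 * M)) hA (by positivity)
      exact ⟨B, H₀, hB, fun H hH x hx X hX hS R hR => h H hH x hx X hX hS R hR⟩)
  refine ⟨B, H₀, hB, ?_⟩
  intro H hH x hx X hX hS κ γ hκ hγ P hP hPX
  -- the normalised maps
  obtain ⟨P', hP'⟩ : ∃ P' : ℕ → ℤ → U, P' = fun n m => (κ n)⁻¹ * P n m * (γ n)⁻¹ := ⟨_, rfl⟩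
  have hκ0 : ∀ n, κ n ∈ Gf 0 := fun n => hKG (hκ n)
  have hPS : ∀ n, PS Gf 0 (P' n) := fun n => by
    rw [hP']
    exact m1 0 _ _ (m1 0 _ _ (m4 0 _ ((Gf 0).inv_mem (hκ0 n))) (hP n))
      (m4 0 _ ((Gf 0).inv_mem (hγ n).2))
  have hPX' : ∀ n : ℕ, P' n n = X n n ∧ P' n (n + 1) = X n (n + 1) := by
    intro n
    rw [hP']
    refine ⟨?_, ?_⟩
    · show (κ n)⁻¹ * P n n * (γ n)⁻¹ = X n n
      rw [(hPX n).1]
      group
    · show (κ n)⁻¹ * P n (n + 1) * (γ n)⁻¹ = X n (n + 1)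
      rw [(hPX n).2]
      group
  have hval : ∀ (n : ℕ) (m : ℤ), F (P n m) = F (κ n * P' n m) := by
    intro n m
    have h0 : P' n m ∈ Gf 0 := hPS n [] m
    have e : P n m = κ n * P' n m * γ n := by
      rw [hP']
      show P n m = κ n * ((κ n)⁻¹ * P n m * (γ n)⁻¹) * γ n
      group
    rw [e]
    exact hF.lat _ ((Gf 0).mul_mem (hκ0 n) h0) _ (hγ n).1 (hγ n).2
  -- the maps `R`
  have hR : ∀ n : ℕ, Jt Gf (Gf 0) fun h : ℤ => (X n (h + n))⁻¹ * P' n (h + n) := by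
    intro n
    have h3 : PS Gf 0 fun m : ℤ => (X n m)⁻¹ * P' n m := m1 0 _ _ (m2 0 _ (hX n)) (hPS n)
    have h4 : PS Gf 0 fun h : ℤ => (X n (h + n))⁻¹ * P' n (h + n) :=
      (hLn U ℤ Gf 0 fun m : ℤ => (X n m)⁻¹ * P' n m).1 ℤ (AddMonoidHom.id ℤ) n h3
    refine ⟨?_, ?_, ?_⟩
    · exact ((hLn U ℤ Gf 0 _).2.1 (Gf 0)).mpr ⟨h4, fun m => h4 [] m⟩
    · show (X n (0 + n))⁻¹ * P' n (0 + n) = 1
      rw [zero_add, (hPX' n).1, inv_mul_cancel]
    · show (X n (1 + n))⁻¹ * P' n (1 + n) = 1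
      rw [add_comm, (hPX' n).2, inv_mul_cancel]
  have hval2 : ∀ n m : ℕ,
      X n m * ((X n ((m : ℤ) - n + n))⁻¹ * P' n ((m : ℤ) - n + n)) = P' n m := by
    intro n m
    rw [sub_add_cancel, mul_inv_cancel_left]
  have hmain' : ∀ i : Fin L.length, ∑ n ∈ Ioc x (2 * x),
      Wg H n (fun m : ℕ => F (L.get i * P' n m)) ≤ ε / (4 * M) * x := by
    intro i
    have h5 := hmain (L.get i) (List.get_mem _ _) H hH x hx X hX hS _ hR
    simp only [hval2] at h5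
    exact h5
  have hWg : ∀ n, Wg H n (fun m : ℕ => F (P n m)) ≤
      ∑ i : Fin L.length, Wg H n (fun m : ℕ => F (L.get i * P' n m)) + ε / 4 := by
    intro n
    obtain ⟨κ', hκ', hnear⟩ := hnet (κ n) (hκ n)
    obtain ⟨i, hi⟩ := List.mem_iff_get.1 hκ'
    have h1 : Wg H n (fun m : ℕ => F (P n m)) ≤ Wg H n (fun m : ℕ => F (κ' * P' n m)) + ε / 4 := by
      refine wg_near H n _ _ (ε / 4) (by positivity) fun m => ?_
      rw [hval]
      exact hnear _ (hPS n [] _)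
    have h2 : Wg H n (fun m : ℕ => F (κ' * P' n m)) ≤
        ∑ i : Fin L.length, Wg H n (fun m : ℕ => F (L.get i * P' n m)) := by
      rw [← hi]
      exact Finset.single_le_sum
        (f := fun i : Fin L.length => Wg H n (fun m : ℕ => F (L.get i * P' n m)))
        (fun i _ => wg_nonneg _ _ _) (Finset.mem_univ i)
    linarith
  have hx0 : (0 : ℝ) ≤ x := Nat.cast_nonneg _
  calc ∑ n ∈ Ioc x (2 * x), Wg H n (fun m : ℕ => F (P n m))
      ≤ ∑ n ∈ Ioc x (2 * x), (∑ i : Fin L.length,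
          Wg H n (fun m : ℕ => F (L.get i * P' n m)) + ε / 4) :=
        Finset.sum_le_sum fun n _ => hWg n
    _ = ∑ i : Fin L.length, ∑ n ∈ Ioc x (2 * x), Wg H n (fun m : ℕ => F (L.get i * P' n m)) +
        ε / 4 * x := by
        rw [Finset.sum_add_distrib, Finset.sum_comm, Finset.sum_const, Nat.card_Ioc, nsmul_eq_mul]
        congr 1
        have : 2 * x - x = x := by omega
        rw [this, mul_comm]
    _ ≤ ∑ _i : Fin L.length, ε / (4 * M) * x + ε / 4 * x :=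
        add_le_add (Finset.sum_le_sum fun i _ => hmain' i) le_rfl
    _ ≤ ε * x := by
        rw [Finset.sum_const, Finset.card_univ, Fintype.card_fin, nsmul_eq_mul]
        have h2 : (L.length : ℝ) * (ε / (4 * M)) ≤ ε / 4 := by
          rw [mul_div_assoc', div_le_div_iff₀ (by positivity) (by norm_num)]
          have : (L.length : ℝ) ≤ M := by rw [hMd]; linarith
          nlinarith
        have h1 : (L.length : ℝ) * (ε / (4 * M) * x) ≤ ε / 4 * x := by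
          rw [← mul_assoc]
          exact mul_le_mul_of_nonneg_right h2 hx0
        have h3 : 0 ≤ ε * x := by positivity
        linarith

end

end Pool.Agent.NG
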