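import Mathlib
import Pool.Agent.Lib.NG.JFin

/-!
# JET (MP_663568_nt): differences of bounded polynomial maps

(helper26)
-/

set_option autoImplicit false
open Finset Topology Polynomial

namespace Pool.Agent.NG

open Amb Pool.Agent.Lib.MP_663568_nt Pool.Agent.Lib.MP_663568_nt.Katai
  Pool.Agent.Lib.MP_663568_nt.Nul Pool.Agent.SV Pool.Agent.VQ Pool.Agent.NV

noncomputable section

open FM FF JJ

namespace JP

/-- Polynomials are Lipschitz on intervals. -/
theorem lip (B : ℝ[X]) (R : ℝ) : ∃ L : ℝ, 0 ≤ L ∧ ∀ s ∈ Set.Icc 0 R, ∀ t ∈ Set.Icc 0 R,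
    |B.eval s - B.eval t| ≤ L * |s - t| := by
  obtain ⟨L, hL⟩ := (isCompact_Icc (a := (0 : ℝ)) (b := R)).exists_bound_of_continuousOn
    (f := fun x => B.derivative.eval x) B.derivative.continuous.continuousOn
  refine ⟨max L 0, le_max_right _ _, fun s hs t ht => ?_⟩
  have h := (convex_Icc (0 : ℝ) R).norm_image_sub_le_of_norm_deriv_le
    (f := fun x => B.eval x) (C := max L 0) (fun x _ => B.differentiableAt)
    (fun x hx => by
      rw [Polynomial.deriv]
      exact (hL x hx).trans (le_max_left _ _)) ht hs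
  simpa [Real.norm_eq_abs] using h

/-- The differences of a polynomial which is bounded on a long interval of integers. -/
theorem mark (d : ℕ) : ∃ C : ℝ, 0 ≤ C ∧ ∀ (u : ℤ → ℝ) (N : ℕ) (b : ℝ), Dg (d + 1) u → d + 1 ≤ N →
    (∀ k : ℕ, k ≤ N → |u k| ≤ b) → ∀ k : ℕ, k ≤ 2 * N →
    |u (k + 1) - u k| ≤ C * b / N := by
  classical
  have hl : ∀ i : ℕ, ∃ L : ℝ, 0 ≤ L ∧ ∀ s ∈ Set.Icc (0 : ℝ) (6 * (d + 1)), ∀ t ∈ Set.Icc (0 : ℝ)
      (6 * (d + 1)), |(Lagrange.basis (range (d + 1)) (fun i : ℕ => (i : ℝ)) i).eval s -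
        (Lagrange.basis (range (d + 1)) (fun i : ℕ => (i : ℝ)) i).eval t| ≤ L * |s - t| :=
    fun i => lip _ _
  choose L hL0 hL using hl
  refine ⟨∑ i ∈ range (d + 1), L i * (2 * (d + 1)), sum_nonneg fun i _ => by
    have := hL0 i
    positivity, ?_⟩
  intro u N b hu hN hb k hk
  obtain ⟨p, hp, hup⟩ := hu
  have hd0 : (0 : ℝ) < d + 1 := by positivity
  have hN0 : (0 : ℝ) < N := by
    have : (1 : ℝ) ≤ N := by exact_mod_cast (by omega : 1 ≤ N)
    linarith
  obtain ⟨M, hM⟩ : ∃ M : ℕ, M = N / (d + 1) := ⟨_, rfl⟩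
  have hM1 : 1 ≤ M := by
    rw [hM]
    exact (Nat.one_le_div_iff (by omega)).2 hN
  have hM2 : M * (d + 1) ≤ N := by
    rw [hM]
    exact Nat.div_mul_le_self _ _
  have hM3 : N < (M + 1) * (d + 1) := by
    rw [hM, mul_comm]
    exact Nat.lt_mul_div_succ N (by omega)
  have hMr : (1 : ℝ) ≤ M := by exact_mod_cast hM1
  have hM4 : (N : ℝ) ≤ 2 * (d + 1) * M := by
    have h1 : (N : ℝ) < (M + 1) * (d + 1) := by exact_mod_cast hM3
    nlinarith
  have hb0 : 0 ≤ b := (abs_nonneg _).trans (hb 0 (by omega))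
  obtain ⟨q, hq⟩ : ∃ q : ℝ[X], q = p.comp (C (M : ℝ) * X) := ⟨_, rfl⟩
  have hqe : ∀ t : ℝ, q.eval t = p.eval (M * t) := by
    intro t
    rw [hq, eval_comp]
    simp
  have hqd : q.degree < #(range (d + 1)) := by
    rw [card_range, hq]
    have h1 : p.degree < ((d + 1 : ℕ) : WithBot ℕ) := Polynomial.mem_degreeLT.1 hp
    by_cases h0 : p = 0
    · rw [h0, zero_comp, degree_zero]
      exact bot_lt_iff_ne_bot.2 (by simp)
    · refine lt_of_le_of_lt degree_le_natDegree ?_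
      have h2 : (p.comp (C (M : ℝ) * X)).natDegree ≤ p.natDegree := by
        refine natDegree_comp_le.trans ?_
        have h3 : (C (M : ℝ) * X).natDegree ≤ 1 := (natDegree_C_mul_le _ _).trans natDegree_X.le
        calc p.natDegree * (C (M : ℝ) * X).natDegree ≤ p.natDegree * 1 :=
              Nat.mul_le_mul_left _ h3
          _ = p.natDegree := mul_one _
      have h4 : p.natDegree < d + 1 := (natDegree_lt_iff_degree_lt h0).2 h1
      exact_mod_cast lt_of_le_of_lt h2 h4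
  have hint := Lagrange.eq_interpolate (s := range (d + 1)) (v := fun i : ℕ => (i : ℝ))
    (fun x _ y _ h => Nat.cast_injective h) hqd
  rw [Lagrange.interpolate_apply] at hint
  have hev : ∀ t : ℝ, q.eval t = ∑ i ∈ range (d + 1), q.eval (i : ℝ) *
      (Lagrange.basis (range (d + 1)) (fun i : ℕ => (i : ℝ)) i).eval t := by
    intro t
    conv_lhs => rw [hint]
    rw [eval_finsetSum]
    refine sum_congr rfl fun i _ => ?_
    rw [eval_mul, eval_C]
  have hqi : ∀ i ∈ range (d + 1), |q.eval (i : ℝ)| ≤ b := by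
    intro i hi
    rw [mem_range] at hi
    have h1 : M * i ≤ N := by
      calc M * i ≤ M * (d + 1) := Nat.mul_le_mul_left _ (by omega)
        _ ≤ N := hM2
    have h2 := hb (M * i) h1
    rw [hup] at h2
    rw [hqe]
    push_cast at h2
    exact h2
  have hM0 : (M : ℝ) ≠ 0 := by linarith
  have e1 : u (k + 1) = q.eval (((k : ℝ) + 1) / M) := by
    rw [hqe, hup]
    congr 1
    push_cast
    field_simp
  have e2 : u k = q.eval ((k : ℝ) / M) := by
    rw [hqe, hup]
    congr 1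
    push_cast
    field_simp
  have hk' : (k : ℝ) ≤ 2 * N := by exact_mod_cast hk
  have hN1 : (1 : ℝ) ≤ N := by exact_mod_cast (by omega : 1 ≤ N)
  have m1 : ((k : ℝ) + 1) / M ∈ Set.Icc (0 : ℝ) (6 * (d + 1)) := by
    refine ⟨by positivity, ?_⟩
    rw [div_le_iff₀ (by linarith)]
    nlinarith
  have m2 : (k : ℝ) / M ∈ Set.Icc (0 : ℝ) (6 * (d + 1)) := by
    refine ⟨by positivity, ?_⟩
    rw [div_le_iff₀ (by linarith)]
    nlinarith
  have e3 : |((k : ℝ) + 1) / M - k / M| = 1 / M := by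
    rw [← sub_div, add_sub_cancel_left]
    exact abs_of_nonneg (by positivity)
  rw [e1, e2, hev, hev, ← sum_sub_distrib]
  refine (abs_sum_le_sum_abs _ _).trans ?_
  rw [sum_mul, sum_div]
  refine sum_le_sum fun i hi => ?_
  rw [← mul_sub, abs_mul]
  have h5 := hL i _ m1 _ m2
  rw [e3] at h5
  calc _ ≤ b * (L i * (1 / M)) := mul_le_mul (hqi i hi) h5 (abs_nonneg _) hb0
    _ ≤ L i * (2 * (d + 1)) * b / N := by
      rw [le_div_iff₀ hN0]
      have h6 : (N : ℝ) * (1 / M) ≤ 2 * (d + 1) := by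
        rw [mul_one_div, div_le_iff₀ (by linarith)]
        exact hM4
      calc b * (L i * (1 / M)) * N = L i * b * (N * (1 / M)) := by ring
        _ ≤ L i * b * (2 * (d + 1)) := mul_le_mul_of_nonneg_left h6 (mul_nonneg (hL0 i) hb0)
        _ = _ := by ring

variable {m : ℕ}

/-- The quotient of two elements, in terms of the entries. -/
theorem nm_quot (x y : UT m) : nmU (y * x⁻¹) ≤ l1 (nilp y - nilp x) * (1 + nmU x⁻¹) := by
  have h1 : nilp (y * x⁻¹) = (nilp y - nilp x) + (nilp y - nilp x) * nilp x⁻¹ := by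
    have h2 : nilp (x * x⁻¹) = 0 := by rw [mul_inv_cancel, nilp_one]
    rw [nilp_mul] at h2
    rw [nilp_mul, sub_mul]
    have h3 : nilp x⁻¹ = -(nilp x * nilp x⁻¹) - nilp x := by
      rw [← sub_eq_zero, ← h2]
      abel
    calc nilp y * nilp x⁻¹ + nilp y + nilp x⁻¹
        = nilp y * nilp x⁻¹ + nilp y + (-(nilp x * nilp x⁻¹) - nilp x) := by rw [← h3]
      _ = nilp y - nilp x + (nilp y * nilp x⁻¹ - nilp x * nilp x⁻¹) := by abel
  rw [nmU_eq, h1]
  refine (l1_add _ _).trans ?_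
  have h2 := l1_mul (nilp y - nilp x) (nilp x⁻¹)
  rw [nmU_eq]
  linarith

/-- Size of the inverse. -/
theorem nm_inv_le (x : UT m) (R : ℝ) (hx : nmU x ≤ R) :
    nmU x⁻¹ ≤ ∑ k ∈ range m, R ^ (k + 1) := by
  rw [inv_eq]
  have h1 := nmU_pw x (t := -1) (by norm_num)
  refine h1.trans ?_
  rw [abs_neg, abs_one, one_mul]
  exact sum_le_sum fun k _ => pow_le_pow_left₀ (nmU_nonneg x) hx _

/-- The differences of a polynomial map which is bounded on a long interval. -/
theorem diff_small (m D : ℕ) (R : ℝ) : ∃ C : ℝ, 0 ≤ C ∧ ∃ N₀ : ℕ, ∀ N : ℕ, N₀ ≤ N →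
    ∀ κ : ℤ → UT m, (Wd D 0 fun k => nilp (κ k)) → (∀ k : ℕ, k ≤ N → nmU (κ k) ≤ R) →
    ∀ k : ℕ, k ≤ 2 * N → k ≤ N → nmU (κ (k + 1) * (κ k)⁻¹) ≤ C / N := by
  obtain ⟨C, hC0, hC⟩ := mark (D * m)
  refine ⟨m * m * (C * |R|) * (1 + ∑ k ∈ range m, |R| ^ (k + 1)), by positivity, D * m + 1, ?_⟩
  intro N hN κ hw hR k hk hk'
  have hN0 : (0 : ℝ) < N := by
    have : (1 : ℝ) ≤ N := by exact_mod_cast (by omega : 1 ≤ N)
    linarith
  have h1 : l1 (nilp (κ (k + 1)) - nilp (κ k)) ≤ m * m * (C * |R| / N) := by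
    unfold l1
    have h2 : ∀ i j : Fin m, |(nilp (κ (k + 1)) - nilp (κ k)) i j| ≤ C * |R| / N := by
      intro i j
      rw [Matrix.sub_apply]
      by_cases hij : (j : ℕ) < i
      · have e1 : nilp (κ (k + 1)) i j = 0 := (hw i j).1 hij (k + 1)
        have e2 : nilp (κ k) i j = 0 := (hw i j).1 hij k
        rw [e1, e2, sub_zero, abs_zero]
        positivity
      · have h3 : Dg (D * m + 1) fun k => nilp (κ k) i j := by
          refine dg_mono ?_ ((hw i j).2 (by omega))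
          have : D * ((j : ℕ) - i) ≤ D * m := Nat.mul_le_mul_left _ (by omega)
          omega
        refine hC (fun k => nilp (κ k) i j) N |R| h3 hN (fun k hk => ?_) k hk
        exact (l1_entry _ _ _).trans ((hR k hk).trans (le_abs_self R))
    calc ∑ i, ∑ j, |(nilp (κ (k + 1)) - nilp (κ k)) i j| ≤ ∑ _i : Fin m, ∑ _j : Fin m,
          C * |R| / N := sum_le_sum fun i _ => sum_le_sum fun j _ => h2 i j
      _ = m * m * (C * |R| / N) := by
        rw [sum_const, sum_const, card_univ, Fintype.card_fin, nsmul_eq_mul, nsmul_eq_mul]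
        ring
  have h4 := nm_quot (κ k) (κ (k + 1))
  have h5 := nm_inv_le (κ k) |R| ((hR k hk').trans (le_abs_self R))
  have h6 : 0 ≤ l1 (nilp (κ (k + 1)) - nilp (κ k)) := l1_nonneg _
  have h7 : 0 ≤ nmU (κ k)⁻¹ := nmU_nonneg _
  calc nmU (κ (k + 1) * (κ k)⁻¹) ≤ l1 (nilp (κ (k + 1)) - nilp (κ k)) * (1 + nmU (κ k)⁻¹) := h4
    _ ≤ m * m * (C * |R| / N) * (1 + ∑ k ∈ range m, |R| ^ (k + 1)) :=
      mul_le_mul h1 (by linarith) (by positivity) (by positivity)
    _ = _ := by ring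

/-- Powers of a small element. -/
theorem pow_small (x : UT m) (C H N : ℝ) (h : ℕ) (hh : (h : ℝ) ≤ H) (hN : 0 < N)
    (hx : nmU x ≤ C / N) (hC : 0 ≤ C) (hH : H * C / N ≤ 1) :
    nmU (x ^ h) ≤ 2 * (H * C / N) := by
  have h1 := nm_pow x h
  have h2 : (1 + nmU x) ^ h ≤ Real.exp (H * C / N) := by
    have h3 : 1 + nmU x ≤ Real.exp (nmU x) := by
      have := Real.add_one_le_exp (nmU x)
      linarith
    calc (1 + nmU x) ^ h ≤ Real.exp (nmU x) ^ h :=
          pow_le_pow_left₀ (by have := nmU_nonneg x; linarith) h3 _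
      _ = Real.exp (h * nmU x) := (Real.exp_nat_mul _ _).symm
      _ ≤ Real.exp (H * C / N) := by
          apply Real.exp_le_exp.2
          calc (h : ℝ) * nmU x ≤ H * (C / N) :=
                mul_le_mul hh hx (nmU_nonneg _) ((Nat.cast_nonneg h).trans hh)
            _ = H * C / N := by ring
  have hH0 : 0 ≤ H := (Nat.cast_nonneg h).trans hh
  have h4 := exp_small (u := H * C / N) (by positivity) hH
  linarith

end JP

end

end Pool.Agent.NG
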