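import Mathlib
import Pool.Agent.Lib.NG.JFP
import Pool.Agent.Lib.NG.JCFA

/-!
# JET (MP_663568_nt) for all `N` and `H`, natural density: families of bounded variation, on matrices

(helper26)
-/

set_option autoImplicit false
open Finset Topology Polynomial

namespace Pool.Agent.NG

open Amb Pool.Agent.Lib.MP_663568_nt Pool.Agent.Lib.MP_663568_nt.Katai
  Pool.Agent.Lib.MP_663568_nt.Nul Pool.Agent.SV Pool.Agent.VQ Pool.Agent.NV

noncomputable section

open FM FF JJ JP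

namespace JC

/-- A window as a difference of two sums from the start. -/
theorem win_sub (φ : ℕ → ℂ) (n H : ℕ) (hn : 1 ≤ n) :
    ∑ h ∈ Icc 1 H, φ (n + h) = ∑ h ∈ Icc 1 (n - 1 + H), φ (1 + h) -
      ∑ h ∈ Icc 1 (n - 1), φ (1 + h) := by
  have e : ∀ (ψ : ℕ → ℂ) (M : ℕ), ∑ h ∈ Icc 1 M, ψ h = ∑ i ∈ range M, ψ (1 + i) := by
    intro ψ M
    have h1 : Icc 1 M = Ico 1 (M + 1) := by
      ext x
      simp only [mem_Icc, mem_Ico]
      omega
    rw [h1, Finset.sum_Ico_eq_sum_range, Nat.add_sub_cancel]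
  rw [e, e, e, Finset.sum_range_add, add_sub_cancel_left]
  refine sum_congr rfl fun i _ => ?_
  congr 1
  omega

/-- The pointwise bound, for all maps. -/
theorem ptw (hJ : JETCK) {U : Type} [AmbQ U] {Gf : ℕ → Subgroup U} {d : ℕ} (hF : Filt Gf d)
    {F : U → ℂ} (hFn : Fn (Gf 0) (Gf (d + 1)) F) (ε : ℝ) (hε : 0 < ε) :
    ∃ C : ℝ, 0 ≤ C ∧ ∀ P : ℤ → U, PS Gf 0 P → ∀ n H : ℕ, 1 ≤ n →
      ‖∑ h ∈ Icc 1 H, muC (n + h) * F (P ((n + h : ℕ) : ℤ))‖ ≤ ε * (n + H) + C := by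
  obtain ⟨H₀, hmain⟩ := hJ U Gf d hF F hFn {1} isCompact_singleton
    (by
      intro x hx
      rw [Set.mem_singleton_iff] at hx
      rw [hx]
      exact (Gf 0).one_mem) (ε / 2) (by positivity)
  obtain ⟨Cb, hCb⟩ := hFn.bd
  have key : ∀ P : ℤ → U, PS Gf 0 P → ∀ M : ℕ,
      ‖∑ h ∈ Icc 1 M, muC (1 + h) * F (P ((1 + h : ℕ) : ℤ))‖ ≤ ε / 2 * M + H₀ * |Cb| := by
    intro P hP M
    rcases le_or_gt H₀ M with hM | hM
    · have h1 := hmain M hM 1 le_rfl P hP (fun _ => 1) (fun _ => 1)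
        (fun _ => Set.mem_singleton _) (fun _ => ⟨Subgroup.one_mem _, Subgroup.one_mem _⟩)
        (fun _ => P) (fun _ => hP) (fun n => ⟨by rw [one_mul, mul_one], by rw [one_mul, mul_one]⟩)
      have h2 : Ico 1 (2 * 1) = {1} := by
        ext x
        simp only [mem_Ico, mem_singleton]
        omega
      rw [h2, sum_singleton, Nat.cast_one, mul_one] at h1
      unfold Wg at h1
      rcases Nat.eq_zero_or_pos M with h0 | h0
      · subst h0
        simp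
        positivity
      · have hM0 : (0 : ℝ) < M := by exact_mod_cast h0
        rw [div_le_iff₀ hM0] at h1
        have h3 : 0 ≤ H₀ * |Cb| := by positivity
        exact h1.trans (by linarith)
    · refine (norm_sum_le _ _).trans ?_
      have h1 : ∀ h ∈ Icc 1 M, ‖muC (1 + h) * F (P ((1 + h : ℕ) : ℤ))‖ ≤ |Cb| := by
        intro h _
        rw [norm_mul]
        have h2 := hCb (P ((1 + h : ℕ) : ℤ)) (hP [] _)
        calc _ ≤ 1 * |Cb| := mul_le_mul (norm_muC _) (h2.trans (le_abs_self _)) (norm_nonneg _)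
              zero_le_one
          _ = |Cb| := one_mul _
      refine (sum_le_sum h1).trans ?_
      rw [sum_const, Nat.card_Icc, nsmul_eq_mul, Nat.add_sub_cancel]
      have h3 : (M : ℝ) * |Cb| ≤ H₀ * |Cb| :=
        mul_le_mul_of_nonneg_right (by exact_mod_cast hM.le) (abs_nonneg _)
      have h4 : 0 ≤ ε / 2 * M := by positivity
      linarith
  refine ⟨2 * (H₀ * |Cb|), by positivity, fun P hP n H hn => ?_⟩
  have h1 := win_sub (fun k => muC k * F (P (k : ℤ))) n H hn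
  rw [h1]
  refine (norm_sub_le _ _).trans ?_
  have h2 := key P hP (n - 1 + H)
  have h3 := key P hP (n - 1)
  have h4 : ((n - 1 + H : ℕ) : ℝ) ≤ n + H := by
    have : n - 1 + H ≤ n + H := by omega
    exact_mod_cast this
  have h5 : ((n - 1 : ℕ) : ℝ) ≤ n + H := by
    have : n - 1 ≤ n + H := by omega
    exact_mod_cast this
  have h6 := mul_le_mul_of_nonneg_left h4 (by positivity : 0 ≤ ε / 2)
  have h7 := mul_le_mul_of_nonneg_left h5 (by positivity : 0 ≤ ε / 2)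
  linarith

end JC

open JC

/-- **Theorem JET for groups of unitriangular matrices: all `N` and `H`, bounded variation.** -/
theorem jfinalC (hJ : JETCK) {m : ℕ} {G : Subgroup (Matrix.GeneralLinearGroup (Fin m) ℝ)}
    (hG : Unip G) {Γ : Subgroup G}
    (hΓ : ∀ γ ∈ Γ, ∀ i j, ∃ k : ℤ, ((γ : Matrix.GeneralLinearGroup (Fin m) ℝ) :
      Matrix (Fin m) (Fin m) ℝ) i j = k) [CompactSpace (G ⧸ Γ)] (f : G ⧸ Γ → ℂ)
    (hf : Continuous f) (D : ℕ) (A ε : ℝ) (hε : 0 < ε) :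
    ∃ H₀ : ℕ, ∀ H : ℕ, H₀ ≤ H → ∀ N : ℕ, 1 ≤ N →
    ∀ g : ℕ → ℤ → G, (∀ n, Poly D (g n)) →
    ∑ n ∈ Ico N (2 * N), min 1 (vj n (g n) (g (n + 1))) ≤ A →
    ∑ n ∈ Ico N (2 * N), SupJ f D (g n) H n ≤ ε * H * N := by
  classical
  rcases lt_or_ge A 0 with hA | hA
  · refine ⟨0, fun H _ N _ g _ hvar => ?_⟩
    exfalso
    have : 0 ≤ ∑ n ∈ Ico N (2 * N), min 1 (vj n (g n) (g (n + 1))) :=
      sum_nonneg fun n _ => le_min zero_le_one (vj_nonneg _ _ _)
    linarith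
  obtain ⟨D', hD'⟩ : ∃ D' : ℕ, D' = max D 1 := ⟨_, rfl⟩
  have hDD : D ≤ D' := by omega
  have hD1 : 1 ≤ D' := by omega
  have hR := rat_Gr hG Γ hΓ
  obtain ⟨f1, f2, f3⟩ := fut ker_row m (La' Γ) (La'_le hΓ) (Gr (La' Γ) (La'_le hΓ) G) hR
  have hF : Filt (fun i => Gr (La' Γ) (La'_le hΓ) G ⊓ lvS m (La' Γ) (La'_le hΓ) (cl' D' i))
      (D' * m) := filt_stretch f1 hD1
  have hG0 : Gr (La' Γ) (La'_le hΓ) G ⊓ lvS m (La' Γ) (La'_le hΓ) (cl' D' 0) =
      Gr (La' Γ) (La'_le hΓ) G := by rw [cl'_zero D' hD1]; exact f2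
  have hGd : Gr (La' Γ) (La'_le hΓ) G ⊓ lvS m (La' Γ) (La'_le hΓ) (cl' D' (D' * m + 1)) = ⊥ := by
    rw [cl'_top D' m hD1]; exact f3
  have hFn0 := fn_Fu hG Γ hΓ f hf
  have hFn : Fn (Gr (La' Γ) (La'_le hΓ) G ⊓ lvS m (La' Γ) (La'_le hΓ) (cl' D' 0))
      (Gr (La' Γ) (La'_le hΓ) G ⊓ lvS m (La' Γ) (La'_le hΓ) (cl' D' (D' * m + 1)))
      (fun x : UTG m (La' Γ) (La'_le hΓ) => Fu Γ f x) := by
    rw [hG0, hGd]
    exact hFn0
  obtain ⟨ρ, hρ, huc0⟩ := hFn0.uc (ε / 8) (by positivity)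
  have huc : ∀ k x : UT m, toGL m k ∈ G → toGL m x ∈ G → nmU k ≤ ρ →
      ‖Fu Γ f (k * x) - Fu Γ f x‖ ≤ ε / 8 := fun k x hk hx hn => huc0 k hk hn x hx
  obtain ⟨Kc, hKc, hKcG, hcen⟩ := ccc m (La' Γ) (La'_le hΓ) (Gr (La' Γ) (La'_le hΓ) G) hR
  -- the compact set
  obtain ⟨R, hRdef⟩ : ∃ R : ℝ, R = Real.exp A - 1 := ⟨_, rfl⟩
  obtain ⟨K, hKdef⟩ : ∃ K : Set (UTG m (La' Γ) (La'_le hΓ)), K =
      (fun q : UTG m (La' Γ) (La'_le hΓ) × UTG m (La' Γ) (La'_le hΓ) => q.1 * q.2) ''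
        (({x : UT m | nmU x ≤ R} ∩ (Gr (La' Γ) (La'_le hΓ) G : Set (UTG m (La' Γ) (La'_le hΓ)))) ×ˢ
          Kc) ∪ {1} := ⟨_, rfl⟩
  have hK : IsCompact K := by
    rw [hKdef]
    refine IsCompact.union ?_ isCompact_singleton
    refine IsCompact.image ?_ continuous_mul
    exact IsCompact.prod ((isCompact_nmU R).inter_right hR.cl) hKc
  have hKG : K ⊆ (Gr (La' Γ) (La'_le hΓ) G : Set (UTG m (La' Γ) (La'_le hΓ))) := by
    rw [hKdef]
    rintro x (⟨⟨a, b⟩, ⟨ha, hb⟩, rfl⟩ | hx)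
    · exact Subgroup.mul_mem _ ha.2 (hKcG hb)
    · rw [Set.mem_singleton_iff] at hx
      rw [hx]
      exact Subgroup.one_mem _
  have hKG' : K ⊆ ((Gr (La' Γ) (La'_le hΓ) G ⊓ lvS m (La' Γ) (La'_le hΓ) (cl' D' 0) :
        Subgroup (UTG m (La' Γ) (La'_le hΓ))) : Set (UTG m (La' Γ) (La'_le hΓ))) := by
    rw [hG0]
    exact hKG
  obtain ⟨C, hC0, N₀, hdiff⟩ := diff_small m D' R
  obtain ⟨η, hη⟩ : ∃ η : ℝ, η = min 1 (ρ / 2) / (C + 1) := ⟨_, rfl⟩
  have hη0 : 0 < η := by rw [hη]; positivity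
  have hηC : η * C ≤ min 1 (ρ / 2) := by
    have h1 : η * (C + 1) = min 1 (ρ / 2) := by
      rw [hη]
      have : C + 1 ≠ 0 := by positivity
      field_simp
    nlinarith
  obtain ⟨W, hW⟩ : ∃ W : ℝ, W = 1 / η + 1 := ⟨_, rfl⟩
  have hW0 : 0 < W := by rw [hW]; positivity
  obtain ⟨H₁, hmain⟩ := hJ (UTG m (La' Γ) (La'_le hΓ))
    (fun i => Gr (La' Γ) (La'_le hΓ) G ⊓ lvS m (La' Γ) (La'_le hΓ) (cl' D' i)) (D' * m) hF
    (fun x : UTG m (La' Γ) (La'_le hΓ) => Fu Γ f x) hFn K hK hKG'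
    (ε / (4 * (A + 1))) (by positivity)
  obtain ⟨C₂, hC₂0, hptw⟩ := ptw hJ hF hFn (ε / (4 * (2 * W + 1))) (by positivity)
  obtain ⟨H₂, hH₂⟩ := exists_nat_ge (4 * C₂ / ε)
  refine ⟨max (max H₁ H₂) (max N₀ 1), ?_⟩
  intro H hH N hN g hg hvar
  have hHN₀ : N₀ ≤ H := ((le_max_left _ _).trans (le_max_right _ _)).trans hH
  have hHone : 1 ≤ H := ((le_max_right _ _).trans (le_max_right _ _)).trans hH
  have hHH₂ : (H₂ : ℝ) ≤ H := by
    exact_mod_cast ((le_max_right _ _).trans (le_max_left _ _)).trans hH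
  have hHr : (1 : ℝ) ≤ H := by exact_mod_cast hHone
  have hH0 : (0 : ℝ) < H := by linarith
  have hNr : (1 : ℝ) ≤ N := by exact_mod_cast hN
  have hN0 : (0 : ℝ) < N := by linarith
  -- nearly optimal polynomials
  have hnear : ∀ n : ℕ, ∃ P : {P : ℤ → G // Poly D P ∧ ∃ c ∈ Subgroup.center G,
      P n = g n n * c ∧ P (n + 1) = g n (n + 1) * c},
      SupJ f D (g n) H n ≤
      ‖∑ h ∈ Finset.Icc 1 H, f (QuotientGroup.mk (P.1 (n + h))) *
        ((ArithmeticFunction.moebius (n + h) : ℤ) : ℂ)‖ + H * (ε / 8) := by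
    intro n
    have hne : Nonempty {P : ℤ → G // Poly D P ∧ ∃ c ∈ Subgroup.center G,
        P n = g n n * c ∧ P (n + 1) = g n (n + 1) * c} :=
      ⟨⟨g n, hg n, 1, Subgroup.one_mem _, (mul_one _).symm, (mul_one _).symm⟩⟩
    exact near_sup _ _ (by positivity)
  choose P hP using hnear
  have hPGr : ∀ n k, toGL m (ofG hG ((P n).1 k)) ∈ G := by
    intro n k
    rw [toGL_ofG]
    exact SetLike.coe_mem _
  have hPps : ∀ n, PS (fun i => Gr (La' Γ) (La'_le hΓ) G ⊓ lvS m (La' Γ) (La'_le hΓ) (cl' D' i)) 0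
      (fun k => (ofG hG ((P n).1 k) : UTG m (La' Γ) (La'_le hΓ))) := fun n =>
    ps_of_wd hD1 (La' Γ) (La'_le hΓ) (Gr (La' Γ) (La'_le hΓ) G)
      (fun k => (ofG hG ((P n).1 k) : UT m)) (wd_poly hG hDD hD1 (P n).1 (P n).2.1)
      (fun k => hPGr n k)
  have hsumF : ∀ n : ℕ, ∑ h ∈ Finset.Icc 1 H, f (QuotientGroup.mk ((P n).1 (n + h))) *
        ((ArithmeticFunction.moebius (n + h) : ℤ) : ℂ) =
      ∑ h ∈ Icc 1 H, muC (n + h) * Fu Γ f (ofG hG ((P n).1 ((n + h : ℕ) : ℤ))) := by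
    intro n
    refine sum_congr rfl fun h _ => ?_
    rw [Fu_ofG, mul_comm]
    have h11 : (P n).1 ((n : ℤ) + (h : ℤ)) = (P n).1 ((n + h : ℕ) : ℤ) := by rw [Nat.cast_add]
    rw [h11]
    rfl
  by_cases hcase : (H : ℝ) ≤ η * N ∧ N₀ ≤ N
  swap
  · -- short blocks: the pointwise bound
    have hNW : (N : ℝ) ≤ W * H := by
      by_cases h1 : N₀ ≤ N
      · have h2 : ¬ (H : ℝ) ≤ η * N := fun h => hcase ⟨h, h1⟩
        rw [not_le] at h2
        have h3 : (N : ℝ) ≤ 1 / η * H := by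
          rw [one_div, ← div_eq_inv_mul, le_div_iff₀ hη0]
          linarith
        rw [hW]
        nlinarith
      · have h2 : (N : ℝ) ≤ H := by exact_mod_cast (by omega : N ≤ H)
        have h3 : 0 < 1 / η := by positivity
        rw [hW]
        nlinarith
    have hterm : ∀ n ∈ Ico N (2 * N), SupJ f D (g n) H n ≤ ε * H := by
      intro n hn
      rw [mem_Ico] at hn
      refine (hP n).trans ?_
      rw [hsumF]
      have h1 := hptw (fun k => (ofG hG ((P n).1 k) : UTG m (La' Γ) (La'_le hΓ))) (hPps n) n H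
        (by omega)
      have h2 : ε / (4 * (2 * W + 1)) * (n + H) ≤ ε / 4 * H := by
        have h3 : (n : ℝ) ≤ 2 * N := by exact_mod_cast hn.2.le
        have h4 : (n : ℝ) + H ≤ (2 * W + 1) * H := by nlinarith
        calc ε / (4 * (2 * W + 1)) * (n + H) ≤ ε / (4 * (2 * W + 1)) * ((2 * W + 1) * H) :=
              mul_le_mul_of_nonneg_left h4 (by positivity)
          _ = ε / 4 * H := by
            have : 2 * W + 1 ≠ 0 := by positivity
            field_simp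
      have h5 : C₂ ≤ ε / 4 * H := by
        have h6 : 4 * C₂ / ε ≤ H := hH₂.trans hHH₂
        rw [div_le_iff₀ hε] at h6
        linarith
      have h7 : 0 ≤ H * ε := by positivity
      have h8 : ‖∑ h ∈ Icc 1 H, muC (n + h) * Fu Γ f (ofG hG ((P n).1 ((n + h : ℕ) : ℤ)))‖ ≤
          ε / (4 * (2 * W + 1)) * (n + H) + C₂ := h1
      nlinarith
    refine (sum_le_sum hterm).trans ?_
    rw [sum_const, Nat.card_Ico, nsmul_eq_mul]
    have : 2 * N - N = N := by omega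
    rw [this]
    exact le_of_eq (by ring)
  obtain ⟨hHN, hN₀⟩ := hcase
  -- the jumps
  obtain ⟨J, hJdef⟩ : ∃ J : Finset ℕ, J = (Ico N (2 * N)).filter
    fun n => 1 ≤ vj n (g n) (g (n + 1)) := ⟨_, rfl⟩
  have hJc : (#J : ℝ) ≤ A := by
    refine le_trans ?_ hvar
    calc (#J : ℝ) = ∑ n ∈ J, (1 : ℝ) := by rw [sum_const, nsmul_eq_mul, mul_one]
      _ ≤ ∑ n ∈ J, min 1 (vj n (g n) (g (n + 1))) := by
        refine sum_le_sum fun n hn => ?_
        rw [hJdef, mem_filter] at hn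
        exact le_min le_rfl hn.2
      _ ≤ _ := by
        rw [hJdef]
        refine sum_le_sum_of_subset_of_nonneg (filter_subset _ _) fun n _ _ => ?_
        exact le_min zero_le_one (vj_nonneg _ _ _)
  obtain ⟨S, hSdef⟩ : ∃ S : Finset ℕ, S = insert N (J.image fun j => j + 1) := ⟨_, rfl⟩
  have hSc : (#S : ℝ) ≤ A + 1 := by
    have h1 : #S ≤ #J + 1 := by
      rw [hSdef]
      refine (card_insert_le _ _).trans ?_
      have := card_image_le (s := J) (f := fun j => j + 1)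
      omega
    have h2 : (#S : ℝ) ≤ #J + 1 := by exact_mod_cast h1
    linarith
  have hst : ∀ n : ℕ, ∃ s : ℕ, N ≤ n → n < 2 * N → s ∈ S ∧ N ≤ s ∧ s ≤ n ∧
      ∀ i, s ≤ i → i < n → i ∉ J := by
    intro n
    by_cases hn : N ≤ n
    swap
    · exact ⟨0, fun h => absurd h hn⟩
    have hne : (S.filter fun x => x ≤ n).Nonempty := by
      refine ⟨N, ?_⟩
      rw [mem_filter, hSdef]
      exact ⟨mem_insert_self _ _, hn⟩
    refine ⟨(S.filter fun x => x ≤ n).max' hne, fun _ hn2 => ?_⟩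
    have h1 := (S.filter fun x => x ≤ n).max'_mem hne
    rw [mem_filter] at h1
    refine ⟨h1.1, ?_, h1.2, ?_⟩
    · refine le_max' _ _ ?_
      rw [mem_filter, hSdef]
      exact ⟨mem_insert_self _ _, hn⟩
    · intro i hi1 hi2 hiJ
      have h2 : i + 1 ∈ S.filter fun x => x ≤ n := by
        rw [mem_filter, hSdef]
        exact ⟨mem_insert_of_mem (mem_image_of_mem _ hiJ), by omega⟩
      have h3 := le_max' _ _ h2
      omega
  choose st hst1 using hst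
  -- the factors
  obtain ⟨κ, hκ⟩ : ∃ κ : ℕ → ℤ → UT m, κ = fun n k =>
    ofG hG (g n k) * (ofG hG (g (st n) k))⁻¹ := ⟨_, rfl⟩
  have hgG : ∀ n k, toGL m (ofG hG (g n k)) ∈ G := by
    intro n k
    rw [toGL_ofG]
    exact SetLike.coe_mem _
  have hκG : ∀ n k, toGL m (κ n k) ∈ G := by
    intro n k
    rw [hκ]
    simp only [map_mul, map_inv]
    exact G.mul_mem (hgG _ _) (G.inv_mem (hgG _ _))
  have hgw : ∀ n, Wd D' 0 fun k => nilp (ofG hG (g n k)) := fun n =>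
    wd_poly hG hDD hD1 (g n) (hg n)
  have hκw : ∀ n, Wd D' 0 fun k => nilp (κ n k) := by
    intro n
    apply wd_nilp
    have h1 : (fun k => (κ n k).1) = fun k =>
        (ofG hG (g n k)).1 * ((ofG hG (g (st n) k))⁻¹).1 := by
      rw [hκ]
      rfl
    rw [h1]
    exact wd_mul (wd_full _ (hgw n)) (wd_inv _ (hgw (st n)))
  have hκb : ∀ n : ℕ, N ≤ n → n < 2 * N → ∀ k : ℕ, k ≤ 4 * N → nmU (κ n k) ≤ R := by
    intro n hn1 hn2 k hk
    obtain ⟨_, h2, h3, h4⟩ := hst1 n hn1 hn2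
    have h5 := prod_small (fun i => ofG hG (g i k)) (fun i => min 1 (vj i (g i) (g (i + 1))))
      (st n) n h3 fun i hi1 hi2 => by
        have h6 : ¬ 1 ≤ vj i (g i) (g (i + 1)) := by
          intro h
          refine h4 i hi1 hi2 ?_
          rw [hJdef, mem_filter, mem_Ico]
          exact ⟨⟨by omega, by omega⟩, h⟩
        rw [min_eq_right (not_le.1 h6).le]
        exact le_vj hG i (g i) (g (i + 1)) k (by omega)
    have h6 : ∑ i ∈ Ico (st n) n, min 1 (vj i (g i) (g (i + 1))) ≤ A := by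
      refine le_trans ?_ hvar
      refine sum_le_sum_of_subset_of_nonneg ?_ fun i _ _ => le_min zero_le_one (vj_nonneg _ _ _)
      intro i hi
      rw [mem_Ico] at hi ⊢
      omega
    have h7 := Real.exp_le_exp.2 h6
    rw [hRdef, hκ]
    linarith
  obtain ⟨xx, hxx⟩ : ∃ xx : ℕ → UT m, xx = fun n : ℕ => κ n (n + 1) * (κ n n)⁻¹ := ⟨_, rfl⟩
  have hxxG : ∀ n, toGL m (xx n) ∈ G := by
    intro n
    rw [hxx]
    simp only [map_mul, map_inv]
    exact G.mul_mem (hκG _ _) (G.inv_mem (hκG _ _))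
  have hxs : ∀ n : ℕ, N ≤ n → n < 2 * N → nmU (xx n) ≤ C / N := by
    intro n hn1 hn2
    have h1 := hdiff (4 * N) (by omega) (κ n) (hκw n) (hκb n hn1 hn2) n (by omega) (by omega)
    rw [hxx]
    refine h1.trans ?_
    apply div_le_div_of_nonneg_left hC0 hN0
    push_cast
    linarith
  obtain ⟨y, hy⟩ : ∃ y : ℕ → ℤ → UT m, y = fun n (k : ℤ) =>
    pwU (xx n) ((k : ℝ) - ((n : ℤ) : ℝ)) := ⟨_, rfl⟩
  have hyG : ∀ n k, toGL m (y n k) ∈ G := by
    intro n k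
    rw [hy]
    exact hR.pwc (xx n : UT m) (hxxG n) _
  have hyn : ∀ n : ℕ, y n n = 1 := by
    intro n
    rw [hy]
    simp only [sub_self, pwU_zero]
  have hyn1 : ∀ n : ℕ, y n (n + 1) = xx n := by
    intro n
    rw [hy]
    have h1 : (((n : ℤ) + 1 : ℤ) : ℝ) - ((n : ℤ) : ℝ) = 1 := by push_cast; ring
    simp only [h1, pwU_one]
  have hyw : ∀ n, Wd D' 0 fun k => nilp (y n k) := by
    intro n
    apply wd_nilp
    rw [hy]
    exact wd_deg hD1 (wd_pw _ _)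
  -- the central constants
  have hcc : ∀ n : ℕ, ∃ c : G, (∀ x : G, x * c = c * x) ∧ (P n).1 n = g n n * c ∧
      (P n).1 (n + 1) = g n (n + 1) * c := by
    intro n
    obtain ⟨c, h1, h2, h3⟩ := (P n).2.2
    exact ⟨c, fun x => Subgroup.mem_center_iff.1 h1 x, h2, h3⟩
  choose cc hcc1 hcc2 hcc3 using hcc
  have hkg : ∀ n : ℕ, ∃ k : UT m, k ∈ Kc ∧ ∃ γ : UT m,
      (γ : UTG m (La' Γ) (La'_le hΓ)) ∈ (La : Subgroup (UTG m (La' Γ) (La'_le hΓ))) ∧
      toGL m γ ∈ G ∧ ofG hG (cc n) = k * γ ∧ ∀ x : UT m, toGL m x ∈ G → x * k = k * x := by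
    intro n
    obtain ⟨k, h1, γ, h2, h3, h5, _, h4⟩ := hcen (ofG hG (cc n) : UT m) (by
      show toGL m (ofG hG (cc n)) ∈ G
      rw [toGL_ofG]
      exact SetLike.coe_mem _) (by
      rintro (x : UT m) (hx : toGL m x ∈ G)
      show ofG hG (cc n) * x = x * ofG hG (cc n)
      have h6 := hcc1 n ⟨toGL m x, hx⟩
      apply toGL_inj
      rw [map_mul, map_mul, toGL_ofG]
      exact (congrArg Subtype.val h6).symm)
    exact ⟨k, h1, γ, h2, h3, h4, fun x hx => (h5 x hx).symm⟩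
  choose kk hkk γγ hγγ hγG hkγ hkc using hkg
  obtain ⟨P', hP'⟩ : ∃ P' : ℕ → ℤ → UT m, P' = fun n k => (y n k)⁻¹ * ofG hG ((P n).1 k) :=
    ⟨_, rfl⟩
  have hP'G : ∀ n k, toGL m (P' n k) ∈ G := by
    intro n k
    rw [hP']
    simp only [map_mul, map_inv]
    exact G.mul_mem (G.inv_mem (hyG _ _)) (hPGr _ _)
  have hP'w : ∀ n, Wd D' 0 fun k => nilp (P' n k) := by
    intro n
    apply wd_nilp
    have h1 : (fun k => (P' n k).1) = fun k => ((y n k)⁻¹).1 * (ofG hG ((P n).1 k)).1 := by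
      rw [hP']
      rfl
    rw [h1]
    exact wd_mul (wd_inv _ (hyw n)) (wd_full _ (wd_poly hG hDD hD1 _ (P n).2.1))
  have hP'1 : ∀ n : ℕ, P' n n = κ n n * kk n * ofG hG (g (st n) n) * γγ n := by
    intro n
    have h1 := hkc n (ofG hG (g (st n) n)) (hgG _ _)
    rw [hP']
    show (y n n)⁻¹ * ofG hG ((P n).1 n) = _
    rw [hyn, inv_one, one_mul, hcc2, ofG_mul, hkγ, hκ]
    show ofG hG (g n n) * (kk n * γγ n) =
      ofG hG (g n n) * (ofG hG (g (st n) n))⁻¹ * kk n * ofG hG (g (st n) n) * γγ n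
    rw [mul_assoc (ofG hG (g n n) * (ofG hG (g (st n) n))⁻¹) (kk n), ← h1]
    group
  have hP'2 : ∀ n : ℕ, P' n (n + 1) = κ n n * kk n * ofG hG (g (st n) (n + 1)) * γγ n := by
    intro n
    have h1 := hkc n (ofG hG (g (st n) (n + 1))) (hgG _ _)
    rw [hP']
    show (y n (n + 1))⁻¹ * ofG hG ((P n).1 (n + 1)) = _
    rw [hyn1, hcc3, ofG_mul, hkγ, hxx]
    show (κ n (n + 1) * (κ n n)⁻¹)⁻¹ * (ofG hG (g n (n + 1)) * (kk n * γγ n)) = _
    rw [mul_assoc (κ n n) (kk n), ← h1]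
    have h2 : ofG hG (g n (n + 1)) = κ n (n + 1) * ofG hG (g (st n) (n + 1)) := by
      rw [hκ]
      group
    rw [h2]
    group
  -- one start
  have hone : ∀ s : ℕ, ∑ n ∈ (Ico N (2 * N)).filter (fun n => st n = s),
      Wg H n (fun k : ℕ => Fu Γ f (P' n k)) ≤ ε / (4 * (A + 1)) * N := by
    intro s
    obtain ⟨kp, hkp1, hkp2⟩ : ∃ kp : ℕ → UT m,
        (∀ n, (n ∈ Ico N (2 * N) ∧ st n = s) → kp n = κ n n * kk n) ∧
        (∀ n, ¬ (n ∈ Ico N (2 * N) ∧ st n = s) → kp n = 1) :=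
      ⟨fun n => if n ∈ Ico N (2 * N) ∧ st n = s then κ n n * kk n else 1,
        fun n h => if_pos h, fun n h => if_neg h⟩
    obtain ⟨gp, hgp1, hgp2⟩ : ∃ gp : ℕ → UT m,
        (∀ n, (n ∈ Ico N (2 * N) ∧ st n = s) → gp n = γγ n) ∧
        (∀ n, ¬ (n ∈ Ico N (2 * N) ∧ st n = s) → gp n = 1) :=
      ⟨fun n => if n ∈ Ico N (2 * N) ∧ st n = s then γγ n else 1,
        fun n h => if_pos h, fun n h => if_neg h⟩
    obtain ⟨Q, hQ1, hQ2⟩ : ∃ Q : ℕ → ℤ → UT m,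
        (∀ n, (n ∈ Ico N (2 * N) ∧ st n = s) → Q n = P' n) ∧
        (∀ n, ¬ (n ∈ Ico N (2 * N) ∧ st n = s) → Q n = fun k => ofG hG (g s k)) :=
      ⟨fun n => if n ∈ Ico N (2 * N) ∧ st n = s then P' n else fun k => ofG hG (g s k),
        fun n h => if_pos h, fun n h => if_neg h⟩
    have hkpK : ∀ n, (kp n : UTG m (La' Γ) (La'_le hΓ)) ∈ K := by
      intro n
      rw [hKdef]
      by_cases h : n ∈ Ico N (2 * N) ∧ st n = s
      · rw [hkp1 n h]
        rw [mem_Ico] at h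
        exact Or.inl ⟨(κ n n, kk n), ⟨⟨hκb n h.1.1 h.1.2 n (by omega), hκG n n⟩, hkk n⟩, rfl⟩
      · rw [hkp2 n h]
        exact Or.inr rfl
    have hgpG : ∀ n, (gp n : UTG m (La' Γ) (La'_le hΓ)) ∈
        (La : Subgroup (UTG m (La' Γ) (La'_le hΓ))) ∧ (gp n : UTG m (La' Γ) (La'_le hΓ)) ∈
        (Gr (La' Γ) (La'_le hΓ) G ⊓ lvS m (La' Γ) (La'_le hΓ) (cl' D' 0) :
          Subgroup (UTG m (La' Γ) (La'_le hΓ))) := by
      intro n
      rw [hG0]
      by_cases h : n ∈ Ico N (2 * N) ∧ st n = s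
      · rw [hgp1 n h]
        exact ⟨hγγ n, hγG n⟩
      · rw [hgp2 n h]
        exact ⟨Subgroup.one_mem _, Subgroup.one_mem _⟩
    have hQps : ∀ n, PS (fun i => Gr (La' Γ) (La'_le hΓ) G ⊓ lvS m (La' Γ) (La'_le hΓ) (cl' D' i)) 0
        (Q n : ℤ → UTG m (La' Γ) (La'_le hΓ)) := by
      intro n
      by_cases h : n ∈ Ico N (2 * N) ∧ st n = s
      · rw [hQ1 n h]
        exact ps_of_wd hD1 (La' Γ) (La'_le hΓ) (Gr (La' Γ) (La'_le hΓ) G)
          (fun k => (P' n k : UT m)) (hP'w n) (fun k => hP'G n k)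
      · rw [hQ2 n h]
        exact ps_of_wd hD1 (La' Γ) (La'_le hΓ) (Gr (La' Γ) (La'_le hΓ) G)
          (fun k => (ofG hG (g s k) : UT m)) (hgw s) (fun k => hgG s k)
    have hQeq : ∀ n : ℕ, Q n n = kp n * ofG hG (g s n) * gp n ∧
        Q n (n + 1) = kp n * ofG hG (g s (n + 1)) * gp n := by
      intro n
      by_cases h : n ∈ Ico N (2 * N) ∧ st n = s
      · rw [hQ1 n h, hkp1 n h, hgp1 n h]
        obtain ⟨_, h2⟩ := h
        subst h2
        exact ⟨hP'1 n, hP'2 n⟩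
      · rw [hQ2 n h, hkp2 n h, hgp2 n h]
        exact ⟨by rw [one_mul, mul_one], by rw [one_mul, mul_one]⟩
    have h1 := hmain H (((le_max_left _ _).trans (le_max_left _ _)).trans hH) N hN
      (fun k => (ofG hG (g s k) : UTG m (La' Γ) (La'_le hΓ)))
      (ps_of_wd hD1 (La' Γ) (La'_le hΓ) (Gr (La' Γ) (La'_le hΓ) G)
        (fun k => (ofG hG (g s k) : UT m)) (hgw s) (fun k => hgG s k))
      kp gp hkpK hgpG Q hQps hQeq
    refine le_trans ?_ h1
    have h3 : ∀ n ∈ (Ico N (2 * N)).filter (fun n => st n = s),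
        Wg H n (fun k : ℕ => Fu Γ f (P' n k)) = Wg H n (fun k : ℕ => Fu Γ f (Q n k)) := by
      intro n hn
      rw [mem_filter] at hn
      rw [hQ1 n hn]
    rw [sum_congr rfl h3]
    exact sum_le_sum_of_subset_of_nonneg (filter_subset _ _) fun n _ _ => Jcen.wg_nonneg _ _ _
  have htot : ∑ n ∈ Ico N (2 * N), Wg H n (fun k : ℕ => Fu Γ f (P' n k)) ≤ ε / 4 * N := by
    rw [← sum_fiberwise_of_maps_to (t := S) (g := st) fun n hn => by
      rw [mem_Ico] at hn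
      exact (hst1 n hn.1 hn.2).1]
    refine (sum_le_sum fun s _ => hone s).trans ?_
    rw [sum_const, nsmul_eq_mul]
    have h1 : (0 : ℝ) < A + 1 := by linarith
    calc (#S : ℝ) * (ε / (4 * (A + 1)) * N) ≤ (A + 1) * (ε / (4 * (A + 1)) * N) :=
          mul_le_mul_of_nonneg_right hSc (by positivity)
      _ = ε / 4 * N := by field_simp
  have hwin : ∀ n ∈ Ico N (2 * N), SupJ f D (g n) H n ≤
      H * Wg H n (fun k : ℕ => Fu Γ f (P' n k)) + H * (ε / 4) := by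
    intro n hn
    rw [mem_Ico] at hn
    have hterm : ∀ h ∈ Icc 1 H, ‖muC (n + h) * Fu Γ f (ofG hG ((P n).1 ((n + h : ℕ) : ℤ))) -
        muC (n + h) * Fu Γ f (P' n ((n + h : ℕ) : ℤ))‖ ≤ ε / 8 := by
      intro h hh
      rw [mem_Icc] at hh
      have hhr : (h : ℝ) ≤ H := by exact_mod_cast hh.2
      have h5 : (H : ℝ) * C / N ≤ min 1 (ρ / 2) := by
        rw [div_le_iff₀ hN0]
        have h6 : (H : ℝ) * C ≤ η * N * C := mul_le_mul_of_nonneg_right hHN hC0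
        have h7 : η * N * C = η * C * N := by ring
        rw [h7] at h6
        exact h6.trans (mul_le_mul_of_nonneg_right hηC hN0.le)
      have h6 := pow_small (xx n) C H N h hhr hN0 (hxs n hn.1 hn.2) hC0
        (h5.trans (min_le_left _ _))
      have h7 : y n ((n + h : ℕ) : ℤ) = xx n ^ h := by
        rw [hy]
        have h1 : ((((n + h : ℕ) : ℤ)) : ℝ) - ((n : ℤ) : ℝ) = h := by push_cast; ring
        simp only [h1, pwU_nat]
      have h8 : ofG hG ((P n).1 ((n + h : ℕ) : ℤ)) = y n ((n + h : ℕ) : ℤ) *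
          P' n ((n + h : ℕ) : ℤ) := by
        rw [hP']
        group
      have h9 := huc (y n ((n + h : ℕ) : ℤ)) (P' n ((n + h : ℕ) : ℤ)) (hyG _ _) (hP'G _ _)
        (by
          rw [h7]
          refine h6.trans ?_
          have := h5.trans (min_le_right _ _)
          linarith)
      rw [← h8] at h9
      rw [← mul_sub, norm_mul]
      calc _ ≤ 1 * (ε / 8) := mul_le_mul (norm_muC _) h9 (norm_nonneg _) zero_le_one
        _ = ε / 8 := one_mul _
    refine (hP n).trans ?_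
    rw [hsumF]
    have h12 : (H : ℝ) * Wg H n (fun k : ℕ => Fu Γ f (P' n k)) =
        ‖∑ h ∈ Icc 1 H, muC (n + h) * Fu Γ f (P' n ((n + h : ℕ) : ℤ))‖ := by
      unfold Wg
      rw [mul_div_cancel₀ _ hH0.ne']
    rw [h12]
    have h13 := (norm_sub_norm_le (∑ h ∈ Icc 1 H, muC (n + h) *
        Fu Γ f (ofG hG ((P n).1 ((n + h : ℕ) : ℤ))))
      (∑ h ∈ Icc 1 H, muC (n + h) * Fu Γ f (P' n ((n + h : ℕ) : ℤ))))
    rw [← sum_sub_distrib] at h13
    have h14 := (norm_sum_le _ _).trans (sum_le_sum hterm)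
    rw [sum_const, Nat.card_Icc, nsmul_eq_mul, Nat.add_sub_cancel] at h14
    linarith
  calc ∑ n ∈ Ico N (2 * N), SupJ f D (g n) H n
      ≤ ∑ n ∈ Ico N (2 * N), (H * Wg H n (fun k : ℕ => Fu Γ f (P' n k)) + H * (ε / 4)) :=
        sum_le_sum hwin
    _ = H * ∑ n ∈ Ico N (2 * N), Wg H n (fun k : ℕ => Fu Γ f (P' n k)) + N * (H * (ε / 4)) := by
        rw [sum_add_distrib, ← mul_sum, sum_const, Nat.card_Ico, nsmul_eq_mul]
        congr 2
        have : 2 * N - N = N := by omega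
        rw [this]
    _ ≤ H * (ε / 4 * N) + N * (H * (ε / 4)) :=
        add_le_add (mul_le_mul_of_nonneg_left htot hH0.le) le_rfl
    _ ≤ ε * H * N := by
        have : 0 ≤ ε * H * N := by positivity
        nlinarith

end

end Pool.Agent.NG
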