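import Mathlib
import Pool.Agent.Lib.NG.JFin
import Pool.Agent.Lib.NG.CN

/-!
# JET (MP_663568_nt) in natural density: the theorem on matrices

(helper26)
-/

set_option autoImplicit false
open Finset Topology Polynomial

namespace Pool.Agent.NG

open Amb Pool.Agent.Lib.MP_663568_nt Pool.Agent.Lib.MP_663568_nt.Katai
  Pool.Agent.Lib.MP_663568_nt.Nul Pool.Agent.SV Pool.Agent.VQ Pool.Agent.NV

noncomputable section

open FM FF JJ

namespace JN

/-- The changes on the block `(x, 2 x]`. -/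
theorem chN_of {α : Type} {A : ℝ} {σ : ℕ → ℕ} {H x : ℕ}
    (hσ : ∀ j : ℕ, (({n : ℕ | 2 ^ j ≤ n ∧ n < 2 ^ (j + 1) ∧ σ (n + 1) ≠ σ n}.ncard : ℕ) : ℝ) ≤
      (H : ℝ) ^ (A + 2)) (hx : (0 : ℝ) < x) (hH : (3 : ℝ) ≤ H) (Q : ℕ → α) :
    ChN (fun n => Q (σ n)) x ((H : ℝ) ^ (A + 3)) := by
  classical
  unfold ChN
  have hx1 : x ≠ 0 := by
    rintro rfl
    simp at hx
  obtain ⟨j, hj⟩ : ∃ j : ℕ, j = Nat.log 2 x := ⟨_, rfl⟩
  have hj1 : 2 ^ j ≤ x := by rw [hj]; exact Nat.pow_log_le_self 2 hx1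
  have hj2 : x < 2 ^ (j + 1) := by rw [hj]; exact Nat.lt_pow_succ_log_self (by norm_num) x
  have hc : ∀ i : ℕ, (#((Ico (2 ^ i) (2 ^ (i + 1))).filter fun n => σ (n + 1) ≠ σ n) : ℝ) ≤
      (H : ℝ) ^ (A + 2) := by
    intro i
    refine le_trans (le_of_eq ?_) (hσ i)
    have h0 : {n : ℕ | 2 ^ i ≤ n ∧ n < 2 ^ (i + 1) ∧ σ (n + 1) ≠ σ n} =
        ((Ico (2 ^ i) (2 ^ (i + 1))).filter fun n => σ (n + 1) ≠ σ n : Finset ℕ) := by
      ext n
      simp [and_assoc]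
    rw [h0, Set.ncard_coe_finset]
  have hsub : ((Ioc x (2 * x)).filter fun n => Q (σ (n + 1)) ≠ Q (σ n)) ⊆
      ((Ico (2 ^ j) (2 ^ (j + 1))).filter fun n => σ (n + 1) ≠ σ n) ∪
      (((Ico (2 ^ (j + 1)) (2 ^ (j + 1 + 1))).filter fun n => σ (n + 1) ≠ σ n)) := by
    intro n hn
    rw [mem_filter, mem_Ioc] at hn
    have h1 : σ (n + 1) ≠ σ n := fun h => hn.2 (by rw [h])
    have h2 : 2 ^ (j + 1 + 1) = 2 * 2 ^ (j + 1) := by ring
    rw [mem_union, mem_filter, mem_filter, mem_Ico, mem_Ico]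
    rcases lt_or_ge n (2 ^ (j + 1)) with h | h
    · exact Or.inl ⟨⟨by omega, h⟩, h1⟩
    · exact Or.inr ⟨⟨h, by omega⟩, h1⟩
  have h3 : (#((Ioc x (2 * x)).filter fun n => Q (σ (n + 1)) ≠ Q (σ n)) : ℝ) ≤
      (H : ℝ) ^ (A + 2) + (H : ℝ) ^ (A + 2) := by
    refine le_trans ?_ (add_le_add (hc j) (hc (j + 1)))
    exact_mod_cast (card_le_card hsub).trans (card_union_le _ _)
  have h4 : (H : ℝ) ^ (A + 3) = (H : ℝ) ^ (A + 2) * H := by
    rw [show A + 3 = A + 2 + 1 by ring, Real.rpow_add (by linarith), Real.rpow_one]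
  have h5 : 0 < (H : ℝ) ^ (A + 2) := Real.rpow_pos_of_pos (by linarith) _
  rw [h4]
  refine le_trans ?_ (h3.trans (by nlinarith))
  refine le_of_eq ?_
  congr

end JN

open JN

/-- Natural means on one block, for families of bounded variation on all dyadic blocks. -/
theorem jfinalN0 (hJ : JETN') {m : ℕ} {G : Subgroup (Matrix.GeneralLinearGroup (Fin m) ℝ)}
    (hG : Unip G) {Γ : Subgroup G}
    (hΓ : ∀ γ ∈ Γ, ∀ i j, ∃ k : ℤ, ((γ : Matrix.GeneralLinearGroup (Fin m) ℝ) :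
      Matrix (Fin m) (Fin m) ℝ) i j = k) [CompactSpace (G ⧸ Γ)] (f : G ⧸ Γ → ℂ)
    (hf : Continuous f) (D : ℕ) (A ε : ℝ) (hε : 0 < ε) :
    ∃ (B : ℝ) (H₀ : ℕ), ∀ H : ℕ, H₀ ≤ H → ∀ N : ℕ, (H : ℝ) ^ B ≤ N →
    ∀ g : ℕ → ℤ → G, (∀ n, Poly D (g n)) →
    (∀ j : ℕ, ∑ n ∈ Ico (2 ^ j) (2 ^ (j + 1)), min 1 (vj n (g n) (g (n + 1))) ≤ (H : ℝ) ^ A) →
    ∑ n ∈ Ico N (2 * N), SupJ f D (g n) H n ≤ ε * H * N := by
  obtain ⟨D', hD'⟩ : ∃ D' : ℕ, D' = max D 1 := ⟨_, rfl⟩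
  have hDD : D ≤ D' := by omega
  have hD1 : 1 ≤ D' := by omega
  have hR := rat_Gr hG Γ hΓ
  obtain ⟨f1, f2, f3⟩ := fut ker_row m (La' Γ) (La'_le hΓ) (Gr (La' Γ) (La'_le hΓ) G) hR
  have hF : Filt (fun i => Gr (La' Γ) (La'_le hΓ) G ⊓ lvS m (La' Γ) (La'_le hΓ) (cl' D' i))
      (D' * m) := filt_stretch f1 hD1
  have hG0 : Gr (La' Γ) (La'_le hΓ) G ⊓ lvS m (La' Γ) (La'_le hΓ) (cl' D' 0) =
      Gr (La' Γ) (La'_le hΓ) G := by rw [cl'_zero D' hD1]; exact f2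
  have hGd : Gr (La' Γ) (La'_le hΓ) G ⊓ lvS m (La' Γ) (La'_le hΓ) (cl' D' (D' * m + 1)) = ⊥ := by
    rw [cl'_top D' m hD1]; exact f3
  have hFn0 := fn_Fu hG Γ hΓ f hf
  have hFn : Fn (Gr (La' Γ) (La'_le hΓ) G ⊓ lvS m (La' Γ) (La'_le hΓ) (cl' D' 0))
      (Gr (La' Γ) (La'_le hΓ) G ⊓ lvS m (La' Γ) (La'_le hΓ) (cl' D' (D' * m + 1)))
      (fun x : UTG m (La' Γ) (La'_le hΓ) => Fu Γ f x) := by
    rw [hG0, hGd]
    exact hFn0
  obtain ⟨ρ, hρ, huc0⟩ := hFn0.uc (ε / 8) (by positivity)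
  have huc : ∀ k x : UT m, toGL m k ∈ G → toGL m x ∈ G → nmU k ≤ ρ →
      ‖Fu Γ f (k * x) - Fu Γ f x‖ ≤ ε / 8 := fun k x hk hx hn => huc0 k hk hn x hx
  obtain ⟨ε', hε'⟩ : ∃ ε' : ℝ, ε' = min 1 (min (1 / (2 * (2 * (m : ℝ) + 1)))
    (ρ / (2 * (4 * (m : ℝ) + 5)))) := ⟨_, rfl⟩
  have hε'0 : 0 < ε' := by rw [hε']; positivity
  have hε'1 : ε' ≤ 1 := by rw [hε']; exact min_le_left _ _
  have hε'2 : (2 * m + 1) * (2 * ε') ≤ 1 := by
    have : ε' ≤ 1 / (2 * (2 * (m : ℝ) + 1)) := by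
      rw [hε']; exact (min_le_right _ _).trans (min_le_left _ _)
    rw [le_div_iff₀ (by positivity)] at this
    linarith
  have hε'3 : (4 * m + 5) * (2 * ε') ≤ ρ := by
    have : ε' ≤ ρ / (2 * (4 * (m : ℝ) + 5)) := by
      rw [hε']; exact (min_le_right _ _).trans (min_le_right _ _)
    rw [le_div_iff₀ (by positivity)] at this
    linarith
  obtain ⟨H₁, hH₁⟩ := BVx.check (max A 0) ε' (le_max_right _ _) hε'0 hε'1
  obtain ⟨K, hK, hKG, hcen⟩ := ccc m (La' Γ) (La'_le hΓ) (Gr (La' Γ) (La'_le hΓ) G) hR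
  obtain ⟨B, H₀, hB, hmain⟩ := hJ (UTG m (La' Γ) (La'_le hΓ))
    (fun i => Gr (La' Γ) (La'_le hΓ) G ⊓ lvS m (La' Γ) (La'_le hΓ) (cl' D' i)) (D' * m) hF
    (fun x : UTG m (La' Γ) (La'_le hΓ) => Fu Γ f x) hFn K hK
    (by
      show K ⊆ ((Gr (La' Γ) (La'_le hΓ) G ⊓ lvS m (La' Γ) (La'_le hΓ) (cl' D' 0) :
        Subgroup (UTG m (La' Γ) (La'_le hΓ))) : Set (UTG m (La' Γ) (La'_le hΓ)))
      rw [hG0]
      exact hKG)
    (max A 0 + 3) (ε / 4) (by positivity) (by positivity)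
  obtain ⟨Cb, hCb⟩ := hFn0.bd
  obtain ⟨H₂, hH₂⟩ := exists_nat_ge (4 * (max Cb 0 + ε / 4) / ε)
  refine ⟨max B 1 + 1, max (max H₀ H₁) H₂, ?_⟩
  intro H hH N hN g hg hvar
  obtain ⟨hH3N, hchk⟩ := hH₁ H (((le_max_right _ _).trans (le_max_left _ _)).trans hH)
  have hH3 : (3 : ℝ) ≤ H := by exact_mod_cast hH3N
  have hH0 : (0 : ℝ) < H := by linarith
  have hH1 : (1 : ℝ) ≤ H := by linarith
  obtain ⟨σ, hσ1, hσ2⟩ := hchk
    (fun n => min 1 (vj n (g n) (g (n + 1))))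
    (fun n => le_min zero_le_one (vj_nonneg _ _ _))
    (fun j => (hvar j).trans (Real.rpow_le_rpow_of_exponent_le hH1 (le_max_left _ _)))
  have hNB : (H : ℝ) ^ (max B 1) * H ≤ N := by
    refine le_trans (le_of_eq ?_) hN
    rw [Real.rpow_add hH0, Real.rpow_one]
  have hHB : (H : ℝ) ≤ (H : ℝ) ^ (max B 1) := by
    calc (H : ℝ) = (H : ℝ) ^ (1 : ℝ) := (Real.rpow_one _).symm
      _ ≤ _ := Real.rpow_le_rpow_of_exponent_le hH1 (le_max_right _ _)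
  have hN1 : 1 ≤ N := by
    have : (1 : ℝ) ≤ N := by nlinarith
    exact_mod_cast this
  obtain ⟨x, hxN⟩ : ∃ x : ℕ, N = x + 1 := ⟨N - 1, by omega⟩
  have hxB : (H : ℝ) ^ (max B 1) ≤ x := by
    have h1 : (N : ℝ) = x + 1 := by rw [hxN]; push_cast; ring
    nlinarith
  have hxH : (H : ℝ) ≤ x := hHB.trans hxB
  have hx0 : (0 : ℝ) < x := by linarith
  -- nearly optimal polynomials
  have hnear : ∀ n : ℕ, ∃ P : {P : ℤ → G // Poly D P ∧ ∃ c ∈ Subgroup.center G,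
      P n = g n n * c ∧ P (n + 1) = g n (n + 1) * c},
      SupJ f D (g n) H n ≤
      ‖∑ h ∈ Finset.Icc 1 H, f (QuotientGroup.mk (P.1 (n + h))) *
        ((ArithmeticFunction.moebius (n + h) : ℤ) : ℂ)‖ + H * (ε / 8) := by
    intro n
    have hne : Nonempty {P : ℤ → G // Poly D P ∧ ∃ c ∈ Subgroup.center G,
        P n = g n n * c ∧ P (n + 1) = g n (n + 1) * c} :=
      ⟨⟨g n, hg n, 1, Subgroup.one_mem _, (mul_one _).symm, (mul_one _).symm⟩⟩
    exact near_sup _ _ (by positivity)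
  choose P hP using hnear
  -- the central constants
  have hcc : ∀ n : ℕ, ∃ c : G, (∀ x : G, x * c = c * x) ∧ (P n).1 n = g n n * c ∧
      (P n).1 (n + 1) = g n (n + 1) * c := by
    intro n
    obtain ⟨c, h1, h2, h3⟩ := (P n).2.2
    exact ⟨c, fun x => Subgroup.mem_center_iff.1 h1 x, h2, h3⟩
  choose cc hcc1 hcc2 hcc3 using hcc
  have hkg : ∀ n : ℕ, ∃ k : UT m, k ∈ K ∧ ∃ γ : UT m,
      (γ : UTG m (La' Γ) (La'_le hΓ)) ∈ (La : Subgroup (UTG m (La' Γ) (La'_le hΓ))) ∧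
      toGL m γ ∈ G ∧ ofG hG (cc n) = k * γ ∧ ∀ x : UT m, toGL m x ∈ G → x * k = k * x := by
    intro n
    obtain ⟨k, h1, γ, h2, h3, h5, _, h4⟩ := hcen (ofG hG (cc n) : UT m) (by
      show toGL m (ofG hG (cc n)) ∈ G
      rw [toGL_ofG]
      exact SetLike.coe_mem _) (by
      rintro (x : UT m) (hx : toGL m x ∈ G)
      show ofG hG (cc n) * x = x * ofG hG (cc n)
      have h6 := hcc1 n ⟨toGL m x, hx⟩
      apply toGL_inj
      rw [map_mul, map_mul, toGL_ofG]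
      exact (congrArg Subtype.val h6).symm)
    exact ⟨k, h1, γ, h2, h3, h4, fun x hx => (h5 x hx).symm⟩
  choose kk hkk γγ hγγ hγG hkγ hkc using hkg
  -- the interpolating factors
  obtain ⟨a, ha⟩ : ∃ a : ℕ → UT m, a = fun n =>
    ofG hG (g n n) * (ofG hG (g (σ n) n))⁻¹ := ⟨_, rfl⟩
  obtain ⟨b, hb⟩ : ∃ b : ℕ → UT m, b = fun n =>
    ofG hG (g n (n + 1)) * (ofG hG (g (σ n) (n + 1)))⁻¹ := ⟨_, rfl⟩
  obtain ⟨κ, hκ⟩ : ∃ κ : ℕ → ℤ → UT m, κ = fun n (k : ℤ) =>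
    a n * pwU ((a n)⁻¹ * b n) ((k : ℝ) - ((n : ℤ) : ℝ)) := ⟨_, rfl⟩
  have haG : ∀ n, toGL m (a n) ∈ G := by
    intro n
    rw [ha]
    simp only [map_mul, map_inv, toGL_ofG]
    exact G.mul_mem (SetLike.coe_mem _) (G.inv_mem (SetLike.coe_mem _))
  have hbG : ∀ n, toGL m (b n) ∈ G := by
    intro n
    rw [hb]
    simp only [map_mul, map_inv, toGL_ofG]
    exact G.mul_mem (SetLike.coe_mem _) (G.inv_mem (SetLike.coe_mem _))
  have hκG : ∀ n k, toGL m (κ n k) ∈ G := by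
    intro n k
    rw [hκ]
    simp only [map_mul]
    refine G.mul_mem (haG n) ?_
    refine hR.pwc ((a n)⁻¹ * b n : UT m) ?_ _
    show toGL m ((a n)⁻¹ * b n) ∈ G
    rw [map_mul, map_inv]
    exact G.mul_mem (G.inv_mem (haG n)) (hbG n)
  have hκn : ∀ n : ℕ, κ n n = a n := by
    intro n
    rw [hκ]
    simp only [sub_self, pwU_zero, mul_one]
  have hκn1 : ∀ n : ℕ, κ n (n + 1) = b n := by
    intro n
    rw [hκ]
    have h1 : (((n : ℤ) + 1 : ℤ) : ℝ) - ((n : ℤ) : ℝ) = 1 := by push_cast; ring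
    simp only [h1, pwU_one, mul_inv_cancel_left]
  have hκw : ∀ n, Wd D' 0 fun k => nilp (κ n k) := by
    intro n
    apply wd_nilp
    have h1 : (fun k => (κ n k).1) = fun k : ℤ => (a n).1 *
        (pwU ((a n)⁻¹ * b n) ((k : ℝ) - ((n : ℤ) : ℝ))).1 := by
      rw [hκ]
      rfl
    rw [h1]
    refine wd_mul ?_ (wd_deg hD1 (wd_pw _ _))
    have h2 : Wd D' 0 fun _ : ℤ => (a n).1 := by
      intro i j
      refine ⟨fun h k => ?_, fun h => dg_const (by omega) _⟩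
      show (a n).1 i j = 0
      have h3 : (a n).1 i j = (1 : Matrix (Fin m) (Fin m) ℝ) i j + nilp (a n) i j := by
        rw [val_eq (a n)]
        rfl
      rw [h3, nilp_mem (a n) i j (by omega), add_zero, Matrix.one_apply_ne]
      intro h4
      rw [h4] at h
      omega
    exact h2
  have hPw : ∀ n, Wd D' 0 fun k => nilp ((κ n k)⁻¹ * ofG hG ((P n).1 k)) := by
    intro n
    apply wd_nilp
    have h1 : (fun k => ((κ n k)⁻¹ * ofG hG ((P n).1 k)).1) = fun k =>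
        ((κ n k)⁻¹).1 * (ofG hG ((P n).1 k)).1 := rfl
    rw [h1]
    exact wd_mul (wd_inv _ (hκw n)) (wd_full _ (wd_poly hG hDD hD1 _ (P n).2.1))
  have hPG : ∀ n k, toGL m ((κ n k)⁻¹ * ofG hG ((P n).1 k)) ∈ G := by
    intro n k
    rw [map_mul, map_inv, toGL_ofG]
    exact G.mul_mem (G.inv_mem (hκG n k)) (SetLike.coe_mem _)
  have h2 := hmain H (((le_max_left _ _).trans (le_max_left _ _)).trans hH) x
    ((Real.rpow_le_rpow_of_exponent_le hH1 (le_max_left _ _)).trans hxB)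
    (fun n k => (ofG hG (g (σ n) k) : UT m))
    (fun n => ps_of_wd hD1 (La' Γ) (La'_le hΓ) (Gr (La' Γ) (La'_le hΓ) G)
      (fun k => (ofG hG (g (σ n) k) : UT m)) (wd_poly hG hDD hD1 (g (σ n)) (hg _)) (fun k => by
        show toGL m (ofG hG _) ∈ G
        rw [toGL_ofG]
        exact SetLike.coe_mem _))
    (chN_of hσ1 hx0 hH3 (fun s => (fun k : ℤ => (ofG hG (g s k) : UT m))))
    kk γγ (fun n => hkk n)
    (fun n => ⟨hγγ n, by
      show γγ n ∈ (Gr (La' Γ) (La'_le hΓ) G ⊓ lvS m (La' Γ) (La'_le hΓ) (cl' D' 0) :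
        Subgroup (UTG m (La' Γ) (La'_le hΓ)))
      rw [hG0]
      exact hγG n⟩)
    (fun n k => ((κ n k)⁻¹ * ofG hG ((P n).1 k) : UT m))
    (fun n => ps_of_wd hD1 (La' Γ) (La'_le hΓ) (Gr (La' Γ) (La'_le hΓ) G)
      (fun k => ((κ n k)⁻¹ * ofG hG ((P n).1 k) : UT m)) (hPw n) (fun k => hPG n k))
    (fun n => by
      constructor
      · show (κ n n)⁻¹ * ofG hG ((P n).1 n) = kk n * ofG hG (g (σ n) n) * γγ n
        rw [hκn, hcc2, ha, ofG_mul, hkγ, ← hkc n (ofG hG (g (σ n) n)) (by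
          rw [toGL_ofG]
          exact SetLike.coe_mem _)]
        group
      · show (κ n (n + 1))⁻¹ * ofG hG ((P n).1 (n + 1)) =
          kk n * ofG hG (g (σ n) (n + 1)) * γγ n
        rw [hκn1, hcc3, hb, ofG_mul, hkγ, ← hkc n (ofG hG (g (σ n) (n + 1))) (by
          rw [toGL_ofG]
          exact SetLike.coe_mem _)]
        group)
  have hwin : ∀ n : ℕ, x < n → SupJ f D (g n) H n ≤
      H * Wg H n (fun k : ℕ => Fu Γ f ((κ n k)⁻¹ * ofG hG ((P n).1 k))) + H * (ε / 4) := by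
    intro n hnx
    have hnx' : (x : ℝ) < n := by exact_mod_cast hnx
    have hHn : H ≤ n := by
      have : (H : ℝ) ≤ n := by linarith
      exact_mod_cast this
    have hn3 : 3 ≤ n := hH3N.trans hHn
    obtain ⟨h3, h4, h5⟩ := hσ2 n hn3
    have hu1 : ε' / H < 1 := by
      rw [div_lt_one hH0]
      linarith
    have haS : nmU (a n) ≤ 2 * ε' / H := by
      rw [ha, mul_div_assoc]
      exact closej hG g (σ n) n (ε' / H) hu1 h4 h5 n (by omega)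
    have hbS : nmU (b n) ≤ 2 * ε' / H := by
      rw [hb, mul_div_assoc]
      have := closej hG g (σ n) n (ε' / H) hu1 h4 h5 (n + 1) (by omega)
      rw [Nat.cast_add, Nat.cast_one] at this
      exact this
    have hterm : ∀ h ∈ Icc 1 H, ‖f (QuotientGroup.mk ((P n).1 (n + h))) *
        ((ArithmeticFunction.moebius (n + h) : ℤ) : ℂ) -
        muC (n + h) * Fu Γ f ((κ n ((n + h : ℕ) : ℤ))⁻¹ * ofG hG ((P n).1 ((n + h : ℕ) : ℤ)))‖ ≤
        ε / 8 := by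
      intro h hh
      rw [mem_Icc] at hh
      have h6 := interp (a n) (b n) (2 * ε') H h hh.2 (by omega) haS hbS (by positivity) hε'2
      have h7 : κ n ((n + h : ℕ) : ℤ) = a n * pwU ((a n)⁻¹ * b n) h := by
        rw [hκ]
        have h1 : ((((n + h : ℕ) : ℤ)) : ℝ) - ((n : ℤ) : ℝ) = h := by push_cast; ring
        simp only [h1]
      have h8 : ofG hG ((P n).1 ((n + h : ℕ) : ℤ)) = κ n ((n + h : ℕ) : ℤ) *
          ((κ n ((n + h : ℕ) : ℤ))⁻¹ * ofG hG ((P n).1 ((n + h : ℕ) : ℤ))) := by group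
      have h9 := huc (κ n ((n + h : ℕ) : ℤ))
        ((κ n ((n + h : ℕ) : ℤ))⁻¹ * ofG hG ((P n).1 ((n + h : ℕ) : ℤ))) (hκG _ _) (hPG _ _)
        (by rw [h7]; exact h6.trans hε'3)
      rw [← h8, Fu_ofG] at h9
      rw [mul_comm (muC (n + h))]
      have h10 : ((ArithmeticFunction.moebius (n + h) : ℤ) : ℂ) = muC (n + h) := rfl
      rw [h10, ← sub_mul, norm_mul]
      have h11 : (P n).1 ((n : ℤ) + (h : ℤ)) = (P n).1 ((n + h : ℕ) : ℤ) := by rw [Nat.cast_add]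
      rw [h11]
      calc _ ≤ ε / 8 * 1 := mul_le_mul h9 (norm_muC _) (norm_nonneg _) (by positivity)
        _ = ε / 8 := mul_one _
    refine (hP n).trans ?_
    have h12 : (H : ℝ) * Wg H n (fun k : ℕ => Fu Γ f ((κ n k)⁻¹ * ofG hG ((P n).1 k))) =
        ‖∑ h ∈ Icc 1 H, muC (n + h) * Fu Γ f ((κ n ((n + h : ℕ) : ℤ))⁻¹ *
          ofG hG ((P n).1 ((n + h : ℕ) : ℤ)))‖ := by
      unfold Wg
      rw [mul_div_cancel₀ _ hH0.ne']
    rw [h12]
    have h13 := (norm_sub_norm_le (∑ h ∈ Finset.Icc 1 H, f (QuotientGroup.mk ((P n).1 (n + h))) *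
        ((ArithmeticFunction.moebius (n + h) : ℤ) : ℂ))
      (∑ h ∈ Icc 1 H, muC (n + h) * Fu Γ f ((κ n ((n + h : ℕ) : ℤ))⁻¹ *
          ofG hG ((P n).1 ((n + h : ℕ) : ℤ)))))
    rw [← sum_sub_distrib] at h13
    have h14 := (norm_sum_le _ _).trans (sum_le_sum hterm)
    rw [sum_const, Nat.card_Icc, nsmul_eq_mul] at h14
    have h15 : ((H + 1 - 1 : ℕ) : ℝ) = H := by rw [Nat.add_sub_cancel]
    rw [h15] at h14
    linarith
  have hlast : (H : ℝ) * Wg H (2 * x + 1) (fun k : ℕ => Fu Γ f ((κ (2 * x + 1) k)⁻¹ *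
      ofG hG ((P (2 * x + 1)).1 k))) ≤ H * max Cb 0 := by
    refine mul_le_mul_of_nonneg_left ?_ hH0.le
    unfold Wg
    rw [div_le_iff₀ hH0]
    refine (norm_sum_le _ _).trans ?_
    have h3 : ∀ h ∈ Icc 1 H, ‖muC (2 * x + 1 + h) * Fu Γ f ((κ (2 * x + 1)
        ((2 * x + 1 + h : ℕ) : ℤ))⁻¹ * ofG hG ((P (2 * x + 1)).1 ((2 * x + 1 + h : ℕ) : ℤ)))‖ ≤
        max Cb 0 := by
      intro h _
      rw [norm_mul]
      have h4 := hCb ((κ (2 * x + 1) ((2 * x + 1 + h : ℕ) : ℤ))⁻¹ *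
        ofG hG ((P (2 * x + 1)).1 ((2 * x + 1 + h : ℕ) : ℤ)) : UT m) (hPG _ _)
      calc _ ≤ 1 * max Cb 0 := mul_le_mul (norm_muC _) (h4.trans (le_max_left _ _))
            (norm_nonneg _) zero_le_one
        _ = max Cb 0 := one_mul _
    refine (sum_le_sum h3).trans ?_
    rw [sum_const, Nat.card_Icc, nsmul_eq_mul, Nat.add_sub_cancel, mul_comm]
  have hHN : 4 * (max Cb 0 + ε / 4) / ε ≤ (N : ℝ) := by
    refine hH₂.trans ?_
    have h3 : (H₂ : ℝ) ≤ H := by exact_mod_cast (le_max_right _ _).trans hH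
    have h4 : (x : ℝ) ≤ N := by
      rw [hxN]
      push_cast
      linarith
    linarith
  rw [div_le_iff₀ hε] at hHN
  have hsplit : Ico N (2 * N) = Ioc x (2 * x) ∪ {2 * x + 1} := by
    ext n
    rw [hxN]
    simp only [mem_Ico, mem_union, mem_Ioc, mem_singleton]
    omega
  have hdisj : Disjoint (Ioc x (2 * x)) {2 * x + 1} := by
    rw [disjoint_singleton_right, mem_Ioc]
    omega
  have hxN' : (x : ℝ) ≤ N := by
    rw [hxN]
    push_cast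
    linarith
  rw [hsplit, sum_union hdisj, sum_singleton]
  have h5 : ∑ n ∈ Ioc x (2 * x), SupJ f D (g n) H n ≤ H * (ε / 4 * x) + x * (H * (ε / 4)) := by
    calc ∑ n ∈ Ioc x (2 * x), SupJ f D (g n) H n
        ≤ ∑ n ∈ Ioc x (2 * x), (H * Wg H n (fun k : ℕ =>
          Fu Γ f ((κ n k)⁻¹ * ofG hG ((P n).1 k))) + H * (ε / 4)) :=
          sum_le_sum fun n hn => hwin n (mem_Ioc.1 hn).1
      _ = H * ∑ n ∈ Ioc x (2 * x), Wg H n (fun k : ℕ =>
          Fu Γ f ((κ n k)⁻¹ * ofG hG ((P n).1 k))) + x * (H * (ε / 4)) := by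
          rw [sum_add_distrib, ← mul_sum, sum_const, Nat.card_Ioc, nsmul_eq_mul]
          congr 2
          have : 2 * x - x = x := by omega
          rw [this]
      _ ≤ H * (ε / 4 * x) + x * (H * (ε / 4)) :=
          add_le_add (mul_le_mul_of_nonneg_left h2 hH0.le) le_rfl
  have h6 := hwin (2 * x + 1) (by omega)
  have h7 : (H : ℝ) * max Cb 0 + H * (ε / 4) ≤ H * (N * ε / 4) := by
    have : max Cb 0 + ε / 4 ≤ N * ε / 4 := by linarith
    have h8 := mul_le_mul_of_nonneg_left this hH0.le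
    linarith
  have h9 : (H : ℝ) * (ε / 4 * x) ≤ H * (ε / 4 * N) :=
    mul_le_mul_of_nonneg_left (mul_le_mul_of_nonneg_left hxN' (by positivity)) hH0.le
  have h10 : (0 : ℝ) ≤ ε * H * N := by positivity
  nlinarith

/-- **Theorem JET for groups of unitriangular matrices, in natural density.** -/
theorem jfinalN (hJ : JETN') {m : ℕ} {G : Subgroup (Matrix.GeneralLinearGroup (Fin m) ℝ)}
    (hG : Unip G) {Γ : Subgroup G}
    (hΓ : ∀ γ ∈ Γ, ∀ i j, ∃ k : ℤ, ((γ : Matrix.GeneralLinearGroup (Fin m) ℝ) :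
      Matrix (Fin m) (Fin m) ℝ) i j = k) [CompactSpace (G ⧸ Γ)] (f : G ⧸ Γ → ℂ)
    (hf : Continuous f) (D : ℕ) (A ε : ℝ) (hε : 0 < ε) :
    ∃ (B : ℝ) (H₀ : ℕ), ∀ H : ℕ, H₀ ≤ H → ∀ N : ℕ, (H : ℝ) ^ B ≤ N →
    ∀ g : ℕ → ℤ → G, (∀ n, Poly D (g n)) →
    ∑ n ∈ Ico N (2 * N), min 1 (vj n (g n) (g (n + 1))) ≤ (H : ℝ) ^ A →
    ∑ n ∈ Ico N (2 * N), SupJ f D (g n) H n ≤ ε * H * N := by
  obtain ⟨B, H₀, h⟩ := jfinalN0 hJ hG hΓ f hf D A ε hε
  refine ⟨B, H₀, fun H hH N hN g hg hvar => ?_⟩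
  obtain ⟨c, hc⟩ : ∃ c : ℕ → ℕ, c = fun n => max N (min n (2 * N)) := ⟨_, rfl⟩
  have hc1 : ∀ n, n ∈ Ico N (2 * N) → c n = n ∧ c (n + 1) = n + 1 := by
    intro n hn
    rw [mem_Ico] at hn
    rw [hc]
    constructor
    · show max N (min n (2 * N)) = n
      omega
    · show max N (min (n + 1) (2 * N)) = n + 1
      omega
  have hc2 : ∀ n, n ∉ Ico N (2 * N) → c (n + 1) = c n := by
    intro n hn
    rw [mem_Ico] at hn
    rw [hc]
    show max N (min (n + 1) (2 * N)) = max N (min n (2 * N))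
    omega
  have hv0 : ∀ n (u : ℤ → G), vj n u u = 0 := by
    intro n u
    unfold vj
    have h1 : ∀ k : Fin (4 * n + 1), ∑ i, ∑ j,
        |((u (k : ℕ) * (u (k : ℕ))⁻¹ : Matrix.GeneralLinearGroup (Fin m) ℝ) :
          Matrix (Fin m) (Fin m) ℝ) i j - (1 : Matrix (Fin m) (Fin m) ℝ) i j| = 0 := by
      intro k
      refine sum_eq_zero fun i _ => sum_eq_zero fun j _ => ?_
      rw [InvMemClass.coe_inv, mul_inv_cancel]
      simp
    simp only [h1]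
    exact ciSup_const
  have h1 := h H hH N hN (fun n => g (c n)) (fun n => hg _) (fun j => by
    refine le_trans ?_ hvar
    calc ∑ n ∈ Ico (2 ^ j) (2 ^ (j + 1)), min 1 (vj n (g (c n)) (g (c (n + 1))))
        = ∑ n ∈ (Ico (2 ^ j) (2 ^ (j + 1))).filter (fun n => n ∈ Ico N (2 * N)),
          min 1 (vj n (g (c n)) (g (c (n + 1)))) := by
          refine (sum_filter_of_ne fun n _ hn => ?_).symm
          by_contra h2
          apply hn
          rw [hc2 n h2, hv0]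
          exact min_eq_right zero_le_one
      _ ≤ ∑ n ∈ Ico N (2 * N), min 1 (vj n (g (c n)) (g (c (n + 1)))) := by
          refine sum_le_sum_of_subset_of_nonneg (fun n hn => (mem_filter.1 hn).2) fun n _ _ => ?_
          exact le_min zero_le_one (vj_nonneg _ _ _)
      _ = ∑ n ∈ Ico N (2 * N), min 1 (vj n (g n) (g (n + 1))) := by
          refine sum_congr rfl fun n hn => ?_
          rw [(hc1 n hn).1, (hc1 n hn).2])
  refine le_trans (le_of_eq ?_) h1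
  refine sum_congr rfl fun n hn => ?_
  show SupJ f D (g n) H n = SupJ f D (g (c n)) H n
  rw [(hc1 n hn).1]

end

end Pool.Agent.NG
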