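import Mathlib
import Pool.Agent.Lib.NG.JFN
import Pool.Agent.Lib.NG.JFC

/-!
# JET (MP_663568_nt) in natural density: the two forms together

(helper26)
-/

set_option autoImplicit false
open Finset Topology

namespace Pool.Agent.NG

noncomputable section

/-- **Theorem JET for groups of unitriangular matrices, natural means on the block `[N, 2 N)`.** -/
theorem jfinalU (hN : JETN') (hC : JETCK) {m : ℕ}
    {G : Subgroup (Matrix.GeneralLinearGroup (Fin m) ℝ)} (hG : Unip G) {Γ : Subgroup G}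
    (hΓ : ∀ γ ∈ Γ, ∀ i j, ∃ k : ℤ, ((γ : Matrix.GeneralLinearGroup (Fin m) ℝ) :
      Matrix (Fin m) (Fin m) ℝ) i j = k) [CompactSpace (G ⧸ Γ)] (f : G ⧸ Γ → ℂ)
    (hf : Continuous f) (D : ℕ) (A ε : ℝ) (hε : 0 < ε) :
    ∃ (B : ℝ) (H₀ : ℕ), ∀ H : ℕ, H₀ ≤ H → ∀ N : ℕ, 1 ≤ N →
    ∀ g : ℕ → ℤ → G, (∀ n, Poly D (g n)) →
    (∑ n ∈ Ico N (2 * N), min 1 (vj n (g n) (g (n + 1))) ≤ A ∨
      ((H : ℝ) ^ B ≤ N ∧ ∑ n ∈ Ico N (2 * N), min 1 (vj n (g n) (g (n + 1))) ≤ (H : ℝ) ^ A)) →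
    ∑ n ∈ Ico N (2 * N), SupJ f D (g n) H n ≤ ε * H * N := by
  obtain ⟨B, H₁, h1⟩ := jfinalN hN hG hΓ f hf D A ε hε
  obtain ⟨H₂, h2⟩ := jfinalC hC hG hΓ f hf D A ε hε
  refine ⟨B, max H₁ H₂, fun H hH N hN1 g hg h => ?_⟩
  rcases h with h | ⟨h, h'⟩
  · exact h2 H ((le_max_right _ _).trans hH) N hN1 g hg h
  · exact h1 H ((le_max_left _ _).trans hH) N h g hg h'

end

end Pool.Agent.NG
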