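import Mathlib
import Pool.Agent.Lib.NG.JFU

/-!
# JET (MP_663568_nt) in natural density: central drift

(helper26)
-/

set_option autoImplicit false
open Finset Topology Polynomial

namespace Pool.Agent.NG

open Amb Pool.Agent.Lib.MP_663568_nt Pool.Agent.Lib.MP_663568_nt.Katai
  Pool.Agent.Lib.MP_663568_nt.Nul Pool.Agent.SV Pool.Agent.VQ Pool.Agent.NV

noncomputable section

section

variable {m : ℕ} {G : Subgroup (Matrix.GeneralLinearGroup (Fin m) ℝ)}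

/-- The sum of the absolute values of the entries of `y x⁻¹ - 1`. -/
def dsj (x y : G) : ℝ := ∑ i, ∑ j,
  |((y * x⁻¹ : Matrix.GeneralLinearGroup (Fin m) ℝ) :
    Matrix (Fin m) (Fin m) ℝ) i j - (1 : Matrix (Fin m) (Fin m) ℝ) i j|

/-- The supremum of `|∑_{h ≤ H} f(P(n + h) Γ) μ(n + h)|` over all polynomial maps `P` of degree at
most `D` for which some `c` in the centre of `G` has `P(n) = g(n) c` and
`P(n + 1) = g(n + 1) c z`. -/
def SupJZ {Γ : Subgroup G} (f : G ⧸ Γ → ℂ) (D : ℕ) (g : ℤ → G) (z : G) (H n : ℕ) : ℝ :=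
  ⨆ P : {P : ℤ → G // Poly D P ∧ ∃ c ∈ Subgroup.center G, P n = g n * c ∧
      P (n + 1) = g (n + 1) * c * z},
    ‖∑ h ∈ Finset.Icc 1 H, f (QuotientGroup.mk (P.1 (n + h))) *
      ((ArithmeticFunction.moebius (n + h) : ℤ) : ℂ)‖

end

namespace JZ

open FM FF JJ JN

variable {m : ℕ} {G : Subgroup (Matrix.GeneralLinearGroup (Fin m) ℝ)}

theorem dsj_nonneg (x y : G) : 0 ≤ dsj x y := by
  unfold dsj
  positivity

theorem dsj_self (x : G) : dsj x x = 0 := by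
  unfold dsj
  refine sum_eq_zero fun i _ => sum_eq_zero fun j _ => ?_
  rw [InvMemClass.coe_inv, mul_inv_cancel]
  simp

theorem nm_dsj (hG : Unip G) (x y : G) : nmU (ofG hG y * (ofG hG x)⁻¹) = dsj x y := by
  rw [← ofG_inv, ← ofG_mul]
  rfl

/-- Closeness along the stretches, for the central elements. -/
theorem closez (hG : Unip G) (z : ℕ → G) (s n : ℕ) (u : ℝ) (hu : u < 1) (hsn : s ≤ n)
    (h : ∑ i ∈ Ico s n, min 1 (dsj (z i) (z (i + 1))) ≤ u) :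
    nmU (ofG hG (z n) * (ofG hG (z s))⁻¹) ≤ 2 * u := by
  have hnn : ∀ i, 0 ≤ min 1 (dsj (z i) (z (i + 1))) := fun i =>
    le_min zero_le_one (dsj_nonneg _ _)
  have hu0 : 0 ≤ u := le_trans (sum_nonneg fun i _ => hnn i) h
  have hD : ∀ i, s ≤ i → i < n → dsj (z i) (z (i + 1)) ≤ min 1 (dsj (z i) (z (i + 1))) := by
    intro i h1 h2
    have h3 := single_le_sum (f := fun i => min 1 (dsj (z i) (z (i + 1))))
      (fun i _ => hnn i) (mem_Ico.2 ⟨h1, h2⟩)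
    have h4 : min 1 (dsj (z i) (z (i + 1))) < 1 := by linarith
    rcases min_lt_iff.1 h4 with h5 | h5
    · exact absurd h5 (lt_irrefl _)
    · rw [min_eq_right h5.le]
  have h1 := prod_small (fun i => ofG hG (z i)) (fun i => min 1 (dsj (z i) (z (i + 1))))
    s n hsn fun i h2 h3 => (nm_dsj hG (z i) (z (i + 1))).le.trans (hD i h2 h3)
  have h2 : Real.exp (∑ i ∈ Ico s n, min 1 (dsj (z i) (z (i + 1)))) ≤ Real.exp u :=
    Real.exp_le_exp.2 h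
  have h3 := exp_small hu0 hu.le
  linarith

theorem cenU (hG : Unip G) {c : G} (hc : c ∈ Subgroup.center G) (x : UT m) (hx : toGL m x ∈ G) :
    ofG hG c * x = x * ofG hG c := by
  have h6 := Subgroup.mem_center_iff.1 hc ⟨toGL m x, hx⟩
  apply toGL_inj
  rw [map_mul, map_mul, toGL_ofG]
  exact (congrArg Subtype.val h6).symm

theorem memU (hG : Unip G) (c : G) : toGL m (ofG hG c) ∈ G := by
  rw [toGL_ofG]
  exact SetLike.coe_mem _

/-- The algebra at `n + 1`. -/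
theorem alg1 {U : Type*} [Group U] (g1 u1 c z w p : U) (hz : z * (u1 * c) = (u1 * c) * z)
    (hw : w * u1 = u1 * w) (hp : w * p = p * w) :
    (g1 * u1⁻¹ * (z * w⁻¹))⁻¹ * (g1 * c * z) = u1 * (p * w) * (p⁻¹ * c) := by
  have h1 : (g1 * u1⁻¹ * (z * w⁻¹))⁻¹ * (g1 * c * z) = w * (z⁻¹ * (u1 * c * z)) := by group
  rw [h1, ← hz, inv_mul_cancel_left, ← mul_assoc, hw, ← hp]
  group

theorem alg0 {U : Type*} [Group U] (g0 u0 c p : U) :
    (g0 * u0⁻¹)⁻¹ * (g0 * c) = u0 * p * (p⁻¹ * c) := by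
  group

/-- The polynomial maps of the family at the checkpoints. -/
def XZ (hG : Unip G) (u : ℤ → G) (w : G) (k : ℤ) : UT m :=
  ofG hG (u k) * pwU (ofG hG w) ((k : ℝ) - ((0 : ℤ) : ℝ))

theorem XZ_nat (hG : Unip G) (u : ℤ → G) (w : G) (n : ℕ) :
    XZ hG u w n = ofG hG (u n) * ofG hG w ^ n := by
  unfold XZ
  have h1 : (((n : ℕ) : ℤ) : ℝ) - ((0 : ℤ) : ℝ) = (n : ℕ) := by push_cast; ring
  rw [h1, pwU_nat]

theorem XZ_nat1 (hG : Unip G) (u : ℤ → G) (w : G) (n : ℕ) :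
    XZ hG u w (n + 1) = ofG hG (u (n + 1)) * (ofG hG w ^ n * ofG hG w) := by
  have h1 := XZ_nat hG u w (n + 1)
  rw [Nat.cast_add, Nat.cast_one, pow_succ] at h1
  exact h1

theorem XZ_w {D D' : ℕ} (hG : Unip G) (hDD : D ≤ D') (hD1 : 1 ≤ D') (u : ℤ → G) (hu : Poly D u)
    (w : G) : Wd D' 0 fun k => nilp (XZ hG u w k) := by
  apply wd_nilp
  have h1 : (fun k => (XZ hG u w k).1) = fun k : ℤ => (ofG hG (u k)).1 *
      (pwU (ofG hG w) ((k : ℝ) - ((0 : ℤ) : ℝ))).1 := rfl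
  rw [h1]
  exact wd_mul (wd_full _ (wd_poly hG hDD hD1 _ hu)) (wd_deg hD1 (wd_pw _ _))

theorem XZ_G {Γ : Subgroup G} (hG : Unip G)
    (hΓ : ∀ γ ∈ Γ, ∀ i j, ∃ k : ℤ, ((γ : Matrix.GeneralLinearGroup (Fin m) ℝ) :
      Matrix (Fin m) (Fin m) ℝ) i j = k)
    (hR : Rat (Gr (La' Γ) (La'_le hΓ) G)) (u : ℤ → G) (w : G) (k : ℤ) :
    toGL m (XZ hG u w k) ∈ G := by
  unfold XZ
  rw [map_mul]
  exact G.mul_mem (memU hG _) (hR.pwc (ofG hG w : UT m) (memU hG w) _)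

/-- The windows. -/
theorem win {Γ : Subgroup G} (hG : Unip G)
    (hΓ : ∀ γ ∈ Γ, ∀ i j, ∃ k : ℤ, ((γ : Matrix.GeneralLinearGroup (Fin m) ℝ) :
      Matrix (Fin m) (Fin m) ℝ) i j = k)
    (hR : Rat (Gr (La' Γ) (La'_le hΓ) G)) (f : G ⧸ Γ → ℂ) {D D' : ℕ} (hDD : D ≤ D')
    (hD1 : 1 ≤ D') {ε ρ ε' : ℝ} (hε : 0 < ε) (hε'0 : 0 < ε')
    (huc : ∀ k x : UT m, toGL m k ∈ G → toGL m x ∈ G → nmU k ≤ ρ →
      ‖Fu Γ f (k * x) - Fu Γ f x‖ ≤ ε / 8)
    (hε'2 : (2 * m + 1) * (6 * ε') ≤ 1) (hε'3 : (4 * m + 5) * (6 * ε') ≤ ρ)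
    (H n : ℕ) (hH : 1 ≤ H) (g u : ℤ → G) (hu : Poly D u) (z w : G)
    (hz : z ∈ Subgroup.center G) (hw : w ∈ Subgroup.center G) :
    ∃ (P' : ℤ → UT m) (c' : UT m), (Wd D' 0 fun k => nilp (P' k)) ∧ (∀ k, toGL m (P' k) ∈ G) ∧
      toGL m c' ∈ G ∧ (∀ x : UT m, toGL m x ∈ G → c' * x = x * c') ∧
      P' n = XZ hG u w n * c' ∧ P' (n + 1) = XZ hG u w (n + 1) * c' ∧
      (nmU (ofG hG (g n) * (ofG hG (u n))⁻¹) ≤ 6 * ε' / H →
        nmU (ofG hG (g (n + 1)) * (ofG hG (u (n + 1)))⁻¹ * (ofG hG z * (ofG hG w)⁻¹)) ≤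
          6 * ε' / H →
        SupJZ f D g z H n ≤ H * Wg H n (fun k : ℕ => Fu Γ f (P' k)) + H * (ε / 4)) := by
  have hH0 : (0 : ℝ) < H := by exact_mod_cast hH
  by_cases hne : Nonempty {P : ℤ → G // Poly D P ∧ ∃ c ∈ Subgroup.center G, P n = g n * c ∧
      P (n + 1) = g (n + 1) * c * z}
  swap
  · refine ⟨XZ hG u w, 1, XZ_w hG hDD hD1 u hu w, XZ_G hG hΓ hR u w, ?_, ?_, ?_, ?_, ?_⟩
    · rw [map_one]
      exact G.one_mem
    · intro x _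
      rw [one_mul, mul_one]
    · rw [mul_one]
    · rw [mul_one]
    · intro _ _
      have h1 : SupJZ f D g z H n = 0 := by
        unfold SupJZ
        rw [not_nonempty_iff] at hne
        exact Real.iSup_of_isEmpty _
      rw [h1]
      unfold Wg
      positivity
  obtain ⟨P, hP⟩ := near_sup (fun P : {P : ℤ → G // Poly D P ∧ ∃ c ∈ Subgroup.center G,
      P n = g n * c ∧ P (n + 1) = g (n + 1) * c * z} =>
    ‖∑ h ∈ Finset.Icc 1 H, f (QuotientGroup.mk (P.1 (n + h))) *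
      ((ArithmeticFunction.moebius (n + h) : ℤ) : ℂ)‖) (H * (ε / 8)) (by positivity)
  obtain ⟨c, hc, hP0, hP1⟩ := P.2.2
  obtain ⟨a, ha⟩ : ∃ a : UT m, a = ofG hG (g n) * (ofG hG (u n))⁻¹ := ⟨_, rfl⟩
  obtain ⟨b, hb⟩ : ∃ b : UT m, b = ofG hG (g (n + 1)) * (ofG hG (u (n + 1)))⁻¹ *
    (ofG hG z * (ofG hG w)⁻¹) := ⟨_, rfl⟩
  obtain ⟨κ, hκ⟩ : ∃ κ : ℤ → UT m, κ = fun (k : ℤ) =>
    a * pwU (a⁻¹ * b) ((k : ℝ) - ((n : ℤ) : ℝ)) := ⟨_, rfl⟩
  have haG : toGL m a ∈ G := by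
    rw [ha]
    simp only [map_mul, map_inv, toGL_ofG]
    exact G.mul_mem (SetLike.coe_mem _) (G.inv_mem (SetLike.coe_mem _))
  have hbG : toGL m b ∈ G := by
    rw [hb]
    simp only [map_mul, map_inv, toGL_ofG]
    exact G.mul_mem (G.mul_mem (SetLike.coe_mem _) (G.inv_mem (SetLike.coe_mem _)))
      (G.mul_mem (SetLike.coe_mem _) (G.inv_mem (SetLike.coe_mem _)))
  have hκG : ∀ k, toGL m (κ k) ∈ G := by
    intro k
    rw [hκ]
    simp only [map_mul]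
    refine G.mul_mem haG ?_
    refine hR.pwc (a⁻¹ * b : UT m) ?_ _
    show toGL m (a⁻¹ * b) ∈ G
    rw [map_mul, map_inv]
    exact G.mul_mem (G.inv_mem haG) hbG
  have hκn : κ n = a := by
    rw [hκ]
    simp only [sub_self, pwU_zero, mul_one]
  have hκn1 : κ (n + 1) = b := by
    rw [hκ]
    have h1 : (((n : ℤ) + 1 : ℤ) : ℝ) - ((n : ℤ) : ℝ) = 1 := by push_cast; ring
    simp only [h1, pwU_one, mul_inv_cancel_left]
  have hκw : Wd D' 0 fun k => nilp (κ k) := by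
    apply wd_nilp
    have h1 : (fun k => (κ k).1) = fun k : ℤ => a.1 *
        (pwU (a⁻¹ * b) ((k : ℝ) - ((n : ℤ) : ℝ))).1 := by
      rw [hκ]
      rfl
    rw [h1]
    refine wd_mul ?_ (wd_deg hD1 (wd_pw _ _))
    have h2 : Wd D' 0 fun _ : ℤ => a.1 := by
      intro i j
      refine ⟨fun h k => ?_, fun h => dg_const (by omega) _⟩
      show a.1 i j = 0
      have h3 : a.1 i j = (1 : Matrix (Fin m) (Fin m) ℝ) i j + nilp a i j := by
        rw [val_eq a]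
        rfl
      rw [h3, nilp_mem a i j (by omega), add_zero, Matrix.one_apply_ne]
      intro h4
      rw [h4] at h
      omega
    exact h2
  have hPw : Wd D' 0 fun k => nilp ((κ k)⁻¹ * ofG hG (P.1 k)) := by
    apply wd_nilp
    have h1 : (fun k => ((κ k)⁻¹ * ofG hG (P.1 k)).1) = fun k =>
        ((κ k)⁻¹).1 * (ofG hG (P.1 k)).1 := rfl
    rw [h1]
    exact wd_mul (wd_inv _ hκw) (wd_full _ (wd_poly hG hDD hD1 _ P.2.1))
  have hPG : ∀ k, toGL m ((κ k)⁻¹ * ofG hG (P.1 k)) ∈ G := by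
    intro k
    rw [map_mul, map_inv, toGL_ofG]
    exact G.mul_mem (G.inv_mem (hκG k)) (SetLike.coe_mem _)
  have hpG : toGL m ((ofG hG w) ^ n) ∈ G := by
    rw [map_pow]
    exact G.pow_mem (memU hG w) n
  have hpc : ∀ x : UT m, toGL m x ∈ G → (ofG hG w) ^ n * x = x * (ofG hG w) ^ n := by
    intro x hx
    exact (Commute.pow_left (show Commute (ofG hG w) x from cenU hG hw x hx) n)
  refine ⟨fun k => (κ k)⁻¹ * ofG hG (P.1 k), (ofG hG w ^ n)⁻¹ * ofG hG c, hPw, hPG, ?_, ?_, ?_,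
    ?_, ?_⟩
  · rw [map_mul, map_inv]
    exact G.mul_mem (G.inv_mem hpG) (memU hG c)
  · intro x hx
    have h1 : Commute (ofG hG w ^ n) x := hpc x hx
    have h2 : Commute (ofG hG c) x := cenU hG hc x hx
    exact (h1.inv_left.mul_left h2)
  · show (κ n)⁻¹ * ofG hG (P.1 n) = _
    rw [hκn, hP0, ha, ofG_mul, XZ_nat]
    exact alg0 _ _ _ _
  · show (κ (n + 1))⁻¹ * ofG hG (P.1 (n + 1)) = _
    rw [hκn1, hP1, hb, ofG_mul, ofG_mul, XZ_nat1]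
    apply alg1
    · apply cenU hG hz
      rw [map_mul]
      exact G.mul_mem (memU hG _) (memU hG _)
    · exact cenU hG hw _ (memU hG _)
    · exact cenU hG hw _ hpG
  intro haS hbS
  rw [← ha] at haS
  rw [← hb] at hbS
  have hterm : ∀ h ∈ Icc 1 H, ‖f (QuotientGroup.mk (P.1 (n + h))) *
      ((ArithmeticFunction.moebius (n + h) : ℤ) : ℂ) -
      muC (n + h) * Fu Γ f ((κ ((n + h : ℕ) : ℤ))⁻¹ * ofG hG (P.1 ((n + h : ℕ) : ℤ)))‖ ≤
      ε / 8 := by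
    intro h hh
    rw [mem_Icc] at hh
    have h6 := interp a b (6 * ε') H h hh.2 hH haS hbS (by positivity) hε'2
    have h7 : κ ((n + h : ℕ) : ℤ) = a * pwU (a⁻¹ * b) h := by
      rw [hκ]
      have h1 : ((((n + h : ℕ) : ℤ)) : ℝ) - ((n : ℤ) : ℝ) = h := by push_cast; ring
      simp only [h1]
    have h8 : ofG hG (P.1 ((n + h : ℕ) : ℤ)) = κ ((n + h : ℕ) : ℤ) *
        ((κ ((n + h : ℕ) : ℤ))⁻¹ * ofG hG (P.1 ((n + h : ℕ) : ℤ))) := by group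
    have h9 := huc (κ ((n + h : ℕ) : ℤ))
      ((κ ((n + h : ℕ) : ℤ))⁻¹ * ofG hG (P.1 ((n + h : ℕ) : ℤ))) (hκG _) (hPG _)
      (by rw [h7]; exact h6.trans hε'3)
    rw [← h8, Fu_ofG] at h9
    rw [mul_comm (muC (n + h))]
    have h10 : ((ArithmeticFunction.moebius (n + h) : ℤ) : ℂ) = muC (n + h) := rfl
    rw [h10, ← sub_mul, norm_mul]
    have h11 : P.1 ((n : ℤ) + (h : ℤ)) = P.1 ((n + h : ℕ) : ℤ) := by rw [Nat.cast_add]
    rw [h11]
    calc _ ≤ ε / 8 * 1 := mul_le_mul h9 (norm_muC _) (norm_nonneg _) (by positivity)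
      _ = ε / 8 := mul_one _
  refine hP.trans ?_
  have h12 : (H : ℝ) * Wg H n (fun k : ℕ => Fu Γ f ((κ k)⁻¹ * ofG hG (P.1 k))) =
      ‖∑ h ∈ Icc 1 H, muC (n + h) * Fu Γ f ((κ ((n + h : ℕ) : ℤ))⁻¹ *
        ofG hG (P.1 ((n + h : ℕ) : ℤ)))‖ := by
    unfold Wg
    rw [mul_div_cancel₀ _ hH0.ne']
  show _ ≤ (H : ℝ) * Wg H n (fun k : ℕ => Fu Γ f ((κ k)⁻¹ * ofG hG (P.1 k))) + H * (ε / 4)
  rw [h12]
  have h13 := (norm_sub_norm_le (∑ h ∈ Finset.Icc 1 H, f (QuotientGroup.mk (P.1 (n + h))) *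
      ((ArithmeticFunction.moebius (n + h) : ℤ) : ℂ))
    (∑ h ∈ Icc 1 H, muC (n + h) * Fu Γ f ((κ ((n + h : ℕ) : ℤ))⁻¹ *
        ofG hG (P.1 ((n + h : ℕ) : ℤ)))))
  rw [← sum_sub_distrib] at h13
  have h14 := (norm_sum_le _ _).trans (sum_le_sum hterm)
  rw [sum_const, Nat.card_Icc, nsmul_eq_mul] at h14
  have h15 : ((H + 1 - 1 : ℕ) : ℝ) = H := by rw [Nat.add_sub_cancel]
  rw [h15] at h14
  linarith

/-- A central element as a bounded central element times a central element of the lattice. -/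
theorem dec {Γ : Subgroup G}
    (hΓ : ∀ γ ∈ Γ, ∀ i j, ∃ k : ℤ, ((γ : Matrix.GeneralLinearGroup (Fin m) ℝ) :
      Matrix (Fin m) (Fin m) ℝ) i j = k)
    (K : Set (UTG m (La' Γ) (La'_le hΓ)))
    (hcen : ∀ c ∈ Gr (La' Γ) (La'_le hΓ) G, (∀ x ∈ Gr (La' Γ) (La'_le hΓ) G, c * x = x * c) →
      ∃ k ∈ K, ∃ γ ∈ (La : Subgroup (UTG m (La' Γ) (La'_le hΓ))),
      γ ∈ Gr (La' Γ) (La'_le hΓ) G ∧ (∀ x ∈ Gr (La' Γ) (La'_le hΓ) G, k * x = x * k) ∧
      (∀ x ∈ Gr (La' Γ) (La'_le hΓ) G, γ * x = x * γ) ∧ c = k * γ)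
    (c : UT m) (hcG : toGL m c ∈ G) (hc : ∀ x : UT m, toGL m x ∈ G → c * x = x * c) :
    ∃ k : UT m, k ∈ K ∧ ∃ γ : UT m,
      (γ : UTG m (La' Γ) (La'_le hΓ)) ∈ (La : Subgroup (UTG m (La' Γ) (La'_le hΓ))) ∧
      toGL m γ ∈ G ∧ ∀ x : UT m, toGL m x ∈ G → x * c = k * x * γ := by
  have h : ∃ k : UT m, k ∈ K ∧ ∃ γ : UT m,
      (γ : UTG m (La' Γ) (La'_le hΓ)) ∈ (La : Subgroup (UTG m (La' Γ) (La'_le hΓ))) ∧
      toGL m γ ∈ G ∧ c = k * γ ∧ ∀ x : UT m, toGL m x ∈ G → k * x = x * k := by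
    obtain ⟨k, h1, γ, h2, h3, h5, _, h4⟩ := hcen (c : UT m) hcG (fun x hx => hc x hx)
    exact ⟨k, h1, γ, h2, h3, h4, fun x hx => h5 x hx⟩
  obtain ⟨k, h1, γ, h2, h3, h4, h5⟩ := h
  refine ⟨k, h1, γ, h2, h3, fun x hx => ?_⟩
  rw [h5 x hx, h4, mul_assoc]

end JZ

open FM FF JJ JN JZ

/-- Natural means on one block, with central drift, for families of bounded variation on all
dyadic blocks. -/
theorem jfinalZ0 (hJ : JETN') {m : ℕ} {G : Subgroup (Matrix.GeneralLinearGroup (Fin m) ℝ)}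
    (hG : Unip G) {Γ : Subgroup G}
    (hΓ : ∀ γ ∈ Γ, ∀ i j, ∃ k : ℤ, ((γ : Matrix.GeneralLinearGroup (Fin m) ℝ) :
      Matrix (Fin m) (Fin m) ℝ) i j = k) [CompactSpace (G ⧸ Γ)] (f : G ⧸ Γ → ℂ)
    (hf : Continuous f) (D : ℕ) (A ε : ℝ) (hε : 0 < ε) :
    ∃ (B : ℝ) (H₀ : ℕ), ∀ H : ℕ, H₀ ≤ H → ∀ N : ℕ, (H : ℝ) ^ B ≤ N →
    ∀ (g : ℕ → ℤ → G) (z : ℕ → G), (∀ n, Poly D (g n)) → (∀ n, z n ∈ Subgroup.center G) →
    (∀ j : ℕ, ∑ n ∈ Ico (2 ^ j) (2 ^ (j + 1)),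
      min 1 (vj n (g n) (g (n + 1)) + dsj (z n) (z (n + 1))) ≤ (H : ℝ) ^ A) →
    ∑ n ∈ Ico N (2 * N), SupJZ f D (g n) (z n) H n ≤ ε * H * N := by
  obtain ⟨D', hD'⟩ : ∃ D' : ℕ, D' = max D 1 := ⟨_, rfl⟩
  have hDD : D ≤ D' := by omega
  have hD1 : 1 ≤ D' := by omega
  have hR := rat_Gr hG Γ hΓ
  obtain ⟨f1, f2, f3⟩ := fut ker_row m (La' Γ) (La'_le hΓ) (Gr (La' Γ) (La'_le hΓ) G) hR
  have hF : Filt (fun i => Gr (La' Γ) (La'_le hΓ) G ⊓ lvS m (La' Γ) (La'_le hΓ) (cl' D' i))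
      (D' * m) := filt_stretch f1 hD1
  have hG0 : Gr (La' Γ) (La'_le hΓ) G ⊓ lvS m (La' Γ) (La'_le hΓ) (cl' D' 0) =
      Gr (La' Γ) (La'_le hΓ) G := by rw [cl'_zero D' hD1]; exact f2
  have hGd : Gr (La' Γ) (La'_le hΓ) G ⊓ lvS m (La' Γ) (La'_le hΓ) (cl' D' (D' * m + 1)) = ⊥ := by
    rw [cl'_top D' m hD1]; exact f3
  have hFn0 := fn_Fu hG Γ hΓ f hf
  have hFn : Fn (Gr (La' Γ) (La'_le hΓ) G ⊓ lvS m (La' Γ) (La'_le hΓ) (cl' D' 0))
      (Gr (La' Γ) (La'_le hΓ) G ⊓ lvS m (La' Γ) (La'_le hΓ) (cl' D' (D' * m + 1)))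
      (fun x : UTG m (La' Γ) (La'_le hΓ) => Fu Γ f x) := by
    rw [hG0, hGd]
    exact hFn0
  obtain ⟨ρ, hρ, huc0⟩ := hFn0.uc (ε / 8) (by positivity)
  have huc : ∀ k x : UT m, toGL m k ∈ G → toGL m x ∈ G → nmU k ≤ ρ →
      ‖Fu Γ f (k * x) - Fu Γ f x‖ ≤ ε / 8 := fun k x hk hx hn => huc0 k hk hn x hx
  obtain ⟨ε', hε'⟩ : ∃ ε' : ℝ, ε' = min 1 (min (1 / (6 * (2 * (m : ℝ) + 1)))
    (ρ / (6 * (4 * (m : ℝ) + 5)))) := ⟨_, rfl⟩
  have hε'0 : 0 < ε' := by rw [hε']; positivity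
  have hε'1 : ε' ≤ 1 := by rw [hε']; exact min_le_left _ _
  have hε'2 : (2 * m + 1) * (6 * ε') ≤ 1 := by
    have : ε' ≤ 1 / (6 * (2 * (m : ℝ) + 1)) := by
      rw [hε']; exact (min_le_right _ _).trans (min_le_left _ _)
    rw [le_div_iff₀ (by positivity)] at this
    linarith
  have hε'3 : (4 * m + 5) * (6 * ε') ≤ ρ := by
    have : ε' ≤ ρ / (6 * (4 * (m : ℝ) + 5)) := by
      rw [hε']; exact (min_le_right _ _).trans (min_le_right _ _)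
    rw [le_div_iff₀ (by positivity)] at this
    linarith
  obtain ⟨H₁, hH₁⟩ := BVx.check (max A 0) ε' (le_max_right _ _) hε'0 hε'1
  obtain ⟨K, hK, hKG, hcen⟩ := ccc m (La' Γ) (La'_le hΓ) (Gr (La' Γ) (La'_le hΓ) G) hR
  obtain ⟨B, H₀, hB, hmain⟩ := hJ (UTG m (La' Γ) (La'_le hΓ))
    (fun i => Gr (La' Γ) (La'_le hΓ) G ⊓ lvS m (La' Γ) (La'_le hΓ) (cl' D' i)) (D' * m) hF
    (fun x : UTG m (La' Γ) (La'_le hΓ) => Fu Γ f x) hFn K hK
    (by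
      show K ⊆ ((Gr (La' Γ) (La'_le hΓ) G ⊓ lvS m (La' Γ) (La'_le hΓ) (cl' D' 0) :
        Subgroup (UTG m (La' Γ) (La'_le hΓ))) : Set (UTG m (La' Γ) (La'_le hΓ)))
      rw [hG0]
      exact hKG)
    (max A 0 + 3) (ε / 4) (by positivity) (by positivity)
  obtain ⟨Cb, hCb⟩ := hFn0.bd
  obtain ⟨H₂, hH₂⟩ := exists_nat_ge (4 * (max Cb 0 + ε / 4) / ε)
  refine ⟨max B 1 + 1, max (max H₀ H₁) H₂, ?_⟩
  intro H hH N hN g z hg hz hvar
  obtain ⟨hH3N, hchk⟩ := hH₁ H (((le_max_right _ _).trans (le_max_left _ _)).trans hH)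
  have hH3 : (3 : ℝ) ≤ H := by exact_mod_cast hH3N
  have hH0 : (0 : ℝ) < H := by linarith
  have hH1 : (1 : ℝ) ≤ H := by linarith
  have hdn : ∀ n, 0 ≤ vj n (g n) (g (n + 1)) + dsj (z n) (z (n + 1)) := fun n =>
    add_nonneg (vj_nonneg _ _ _) (dsj_nonneg _ _)
  obtain ⟨σ, hσ1, hσ2⟩ := hchk
    (fun n => min 1 (vj n (g n) (g (n + 1)) + dsj (z n) (z (n + 1))))
    (fun n => le_min zero_le_one (hdn n))
    (fun j => (hvar j).trans (Real.rpow_le_rpow_of_exponent_le hH1 (le_max_left _ _)))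
  have hNB : (H : ℝ) ^ (max B 1) * H ≤ N := by
    refine le_trans (le_of_eq ?_) hN
    rw [Real.rpow_add hH0, Real.rpow_one]
  have hHB : (H : ℝ) ≤ (H : ℝ) ^ (max B 1) := by
    calc (H : ℝ) = (H : ℝ) ^ (1 : ℝ) := (Real.rpow_one _).symm
      _ ≤ _ := Real.rpow_le_rpow_of_exponent_le hH1 (le_max_right _ _)
  have hN1 : 1 ≤ N := by
    have : (1 : ℝ) ≤ N := by nlinarith
    exact_mod_cast this
  obtain ⟨x, hxN⟩ : ∃ x : ℕ, N = x + 1 := ⟨N - 1, by omega⟩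
  have hxB : (H : ℝ) ^ (max B 1) ≤ x := by
    have h1 : (N : ℝ) = x + 1 := by rw [hxN]; push_cast; ring
    nlinarith
  have hxH : (H : ℝ) ≤ x := hHB.trans hxB
  have hx0 : (0 : ℝ) < x := by linarith
  have hwn := fun n : ℕ => win hG hΓ hR f hDD hD1 hε hε'0 huc hε'2 hε'3 H n (by omega) (g n)
    (g (σ n)) (hg _) (z n) (z (σ n)) (hz _) (hz _)
  choose P' c' hPw hPG hcG hcc hP0 hP1 hPS using hwn
  have hkg := fun n : ℕ => dec hΓ K hcen (c' n) (hcG n) (hcc n)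
  choose kk hkk γγ hγγ hγG hkγ using hkg
  have hXG := fun n : ℕ => XZ_G hG hΓ hR (g (σ n)) (z (σ n))
  have h2 := hmain H (((le_max_left _ _).trans (le_max_left _ _)).trans hH) x
    ((Real.rpow_le_rpow_of_exponent_le hH1 (le_max_left _ _)).trans hxB)
    (fun n k => (XZ hG (g (σ n)) (z (σ n)) k : UT m))
    (fun n => ps_of_wd hD1 (La' Γ) (La'_le hΓ) (Gr (La' Γ) (La'_le hΓ) G)
      (fun k => (XZ hG (g (σ n)) (z (σ n)) k : UT m)) (XZ_w hG hDD hD1 (g (σ n)) (hg _) _)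
      (fun k => hXG n k))
    (chN_of hσ1 hx0 hH3 (fun s => (fun k : ℤ => (XZ hG (g s) (z s) k : UT m))))
    kk γγ (fun n => hkk n)
    (fun n => ⟨hγγ n, by
      show γγ n ∈ (Gr (La' Γ) (La'_le hΓ) G ⊓ lvS m (La' Γ) (La'_le hΓ) (cl' D' 0) :
        Subgroup (UTG m (La' Γ) (La'_le hΓ)))
      rw [hG0]
      exact hγG n⟩)
    (fun n k => (P' n k : UT m))
    (fun n => ps_of_wd hD1 (La' Γ) (La'_le hΓ) (Gr (La' Γ) (La'_le hΓ) G)
      (fun k => (P' n k : UT m)) (hPw n) (fun k => hPG n k))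
    (fun n => ⟨(hP0 n).trans (hkγ n _ (hXG n _)), (hP1 n).trans (hkγ n _ (hXG n _))⟩)
  have hwin : ∀ n : ℕ, x < n → SupJZ f D (g n) (z n) H n ≤
      H * Wg H n (fun k : ℕ => Fu Γ f (P' n k)) + H * (ε / 4) := by
    intro n hnx
    have hnx' : (x : ℝ) < n := by exact_mod_cast hnx
    have hHn : H ≤ n := by
      have : (H : ℝ) ≤ n := by linarith
      exact_mod_cast this
    have hn3 : 3 ≤ n := hH3N.trans hHn
    obtain ⟨h3, h4, h5⟩ := hσ2 n hn3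
    have hu1 : ε' / H < 1 := by
      rw [div_lt_one hH0]
      linarith
    have hu0 : 0 < ε' / H := by positivity
    have h5a : ∑ i ∈ Ico (σ n) n, min 1 (vj i (g i) (g (i + 1))) ≤ ε' / H := by
      refine le_trans (sum_le_sum fun i _ => ?_) h5
      exact min_le_min le_rfl (le_add_of_nonneg_right (dsj_nonneg _ _))
    have h5b : ∑ i ∈ Ico (σ n) n, min 1 (dsj (z i) (z (i + 1))) ≤ ε' / H := by
      refine le_trans (sum_le_sum fun i _ => ?_) h5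
      exact min_le_min le_rfl (le_add_of_nonneg_left (vj_nonneg _ _ _))
    have haS : nmU (ofG hG (g n n) * (ofG hG (g (σ n) n))⁻¹) ≤ 2 * (ε' / H) :=
      closej hG g (σ n) n (ε' / H) hu1 h4 h5a n (by omega)
    have hbS : nmU (ofG hG (g n (n + 1)) * (ofG hG (g (σ n) (n + 1)))⁻¹) ≤ 2 * (ε' / H) := by
      have := closej hG g (σ n) n (ε' / H) hu1 h4 h5a (n + 1) (by omega)
      rw [Nat.cast_add, Nat.cast_one] at this
      exact this
    have hzS := closez hG z (σ n) n (ε' / H) hu1 h4 h5b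
    have h6 : 6 * ε' / H = 6 * (ε' / H) := by ring
    refine hPS n ?_ ?_
    · rw [h6]
      linarith
    · rw [h6]
      have h7 := nmU_mul (ofG hG (g n (n + 1)) * (ofG hG (g (σ n) (n + 1)))⁻¹)
        (ofG hG (z n) * (ofG hG (z (σ n)))⁻¹)
      have h8 := nmU_nonneg (ofG hG (g n (n + 1)) * (ofG hG (g (σ n) (n + 1)))⁻¹)
      have h9 := nmU_nonneg (ofG hG (z n) * (ofG hG (z (σ n)))⁻¹)
      have h10 : ε' / H ≤ 1 / 3 := by
        rw [div_le_div_iff₀ hH0 (by norm_num)]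
        linarith
      have h11 : nmU (ofG hG (g n (n + 1)) * (ofG hG (g (σ n) (n + 1)))⁻¹) *
          nmU (ofG hG (z n) * (ofG hG (z (σ n)))⁻¹) ≤ (2 * (ε' / H)) * (2 * (ε' / H)) :=
        mul_le_mul hbS hzS h9 (by positivity)
      nlinarith
  have hlast : (H : ℝ) * Wg H (2 * x + 1) (fun k : ℕ => Fu Γ f (P' (2 * x + 1) k)) ≤
      H * max Cb 0 := by
    refine mul_le_mul_of_nonneg_left ?_ hH0.le
    unfold Wg
    rw [div_le_iff₀ hH0]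
    refine (norm_sum_le _ _).trans ?_
    have h3 : ∀ h ∈ Icc 1 H, ‖muC (2 * x + 1 + h) * Fu Γ f (P' (2 * x + 1)
        ((2 * x + 1 + h : ℕ) : ℤ))‖ ≤ max Cb 0 := by
      intro h _
      rw [norm_mul]
      have h4 := hCb (P' (2 * x + 1) ((2 * x + 1 + h : ℕ) : ℤ) : UT m) (hPG _ _)
      calc _ ≤ 1 * max Cb 0 := mul_le_mul (norm_muC _) (h4.trans (le_max_left _ _))
            (norm_nonneg _) zero_le_one
        _ = max Cb 0 := one_mul _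
    refine (sum_le_sum h3).trans ?_
    rw [sum_const, Nat.card_Icc, nsmul_eq_mul, Nat.add_sub_cancel, mul_comm]
  have hHN : 4 * (max Cb 0 + ε / 4) / ε ≤ (N : ℝ) := by
    refine hH₂.trans ?_
    have h3 : (H₂ : ℝ) ≤ H := by exact_mod_cast (le_max_right _ _).trans hH
    have h4 : (x : ℝ) ≤ N := by
      rw [hxN]
      push_cast
      linarith
    linarith
  rw [div_le_iff₀ hε] at hHN
  have hsplit : Ico N (2 * N) = Ioc x (2 * x) ∪ {2 * x + 1} := by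
    ext n
    rw [hxN]
    simp only [mem_Ico, mem_union, mem_Ioc, mem_singleton]
    omega
  have hdisj : Disjoint (Ioc x (2 * x)) {2 * x + 1} := by
    rw [disjoint_singleton_right, mem_Ioc]
    omega
  have hxN' : (x : ℝ) ≤ N := by
    rw [hxN]
    push_cast
    linarith
  rw [hsplit, sum_union hdisj, sum_singleton]
  have h5 : ∑ n ∈ Ioc x (2 * x), SupJZ f D (g n) (z n) H n ≤ H * (ε / 4 * x) + x * (H * (ε / 4)) := by
    calc ∑ n ∈ Ioc x (2 * x), SupJZ f D (g n) (z n) H n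
        ≤ ∑ n ∈ Ioc x (2 * x), (H * Wg H n (fun k : ℕ => Fu Γ f (P' n k)) + H * (ε / 4)) :=
          sum_le_sum fun n hn => hwin n (mem_Ioc.1 hn).1
      _ = H * ∑ n ∈ Ioc x (2 * x), Wg H n (fun k : ℕ => Fu Γ f (P' n k)) + x * (H * (ε / 4)) := by
          rw [sum_add_distrib, ← mul_sum, sum_const, Nat.card_Ioc, nsmul_eq_mul]
          congr 2
          have : 2 * x - x = x := by omega
          rw [this]
      _ ≤ H * (ε / 4 * x) + x * (H * (ε / 4)) :=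
          add_le_add (mul_le_mul_of_nonneg_left h2 hH0.le) le_rfl
  have h6 := hwin (2 * x + 1) (by omega)
  have h7 : (H : ℝ) * max Cb 0 + H * (ε / 4) ≤ H * (N * ε / 4) := by
    have : max Cb 0 + ε / 4 ≤ N * ε / 4 := by linarith
    have h8 := mul_le_mul_of_nonneg_left this hH0.le
    linarith
  have h9 : (H : ℝ) * (ε / 4 * x) ≤ H * (ε / 4 * N) :=
    mul_le_mul_of_nonneg_left (mul_le_mul_of_nonneg_left hxN' (by positivity)) hH0.le
  have h10 : (0 : ℝ) ≤ ε * H * N := by positivity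
  nlinarith

/-- **Theorem JET for groups of unitriangular matrices, in natural density, with central
drift.** -/
theorem jfinalZN (hJ : JETN') {m : ℕ} {G : Subgroup (Matrix.GeneralLinearGroup (Fin m) ℝ)}
    (hG : Unip G) {Γ : Subgroup G}
    (hΓ : ∀ γ ∈ Γ, ∀ i j, ∃ k : ℤ, ((γ : Matrix.GeneralLinearGroup (Fin m) ℝ) :
      Matrix (Fin m) (Fin m) ℝ) i j = k) [CompactSpace (G ⧸ Γ)] (f : G ⧸ Γ → ℂ)
    (hf : Continuous f) (D : ℕ) (A ε : ℝ) (hε : 0 < ε) :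
    ∃ (B : ℝ) (H₀ : ℕ), ∀ H : ℕ, H₀ ≤ H → ∀ N : ℕ, (H : ℝ) ^ B ≤ N →
    ∀ (g : ℕ → ℤ → G) (z : ℕ → G), (∀ n, Poly D (g n)) → (∀ n, z n ∈ Subgroup.center G) →
    ∑ n ∈ Ico N (2 * N), min 1 (vj n (g n) (g (n + 1)) + dsj (z n) (z (n + 1))) ≤ (H : ℝ) ^ A →
    ∑ n ∈ Ico N (2 * N), SupJZ f D (g n) (z n) H n ≤ ε * H * N := by
  obtain ⟨B, H₀, h⟩ := jfinalZ0 hJ hG hΓ f hf D A ε hε
  refine ⟨B, H₀, fun H hH N hN g z hg hz hvar => ?_⟩
  obtain ⟨c, hc⟩ : ∃ c : ℕ → ℕ, c = fun n => max N (min n (2 * N)) := ⟨_, rfl⟩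
  have hc1 : ∀ n, n ∈ Ico N (2 * N) → c n = n ∧ c (n + 1) = n + 1 := by
    intro n hn
    rw [mem_Ico] at hn
    rw [hc]
    constructor
    · show max N (min n (2 * N)) = n
      omega
    · show max N (min (n + 1) (2 * N)) = n + 1
      omega
  have hc2 : ∀ n, n ∉ Ico N (2 * N) → c (n + 1) = c n := by
    intro n hn
    rw [mem_Ico] at hn
    rw [hc]
    show max N (min (n + 1) (2 * N)) = max N (min n (2 * N))
    omega
  have hv0 : ∀ n (u : ℤ → G), vj n u u = 0 := by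
    intro n u
    have h1 : vj n u u = ⨆ k : Fin (4 * n + 1), dsj (u (k : ℕ)) (u (k : ℕ)) := rfl
    rw [h1]
    simp only [dsj_self]
    exact ciSup_const
  have h1 := h H hH N hN (fun n => g (c n)) (fun n => z (c n)) (fun n => hg _) (fun n => hz _)
    (fun j => by
    refine le_trans ?_ hvar
    calc ∑ n ∈ Ico (2 ^ j) (2 ^ (j + 1)), min 1 (vj n (g (c n)) (g (c (n + 1))) +
          dsj (z (c n)) (z (c (n + 1))))
        = ∑ n ∈ (Ico (2 ^ j) (2 ^ (j + 1))).filter (fun n => n ∈ Ico N (2 * N)),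
          min 1 (vj n (g (c n)) (g (c (n + 1))) + dsj (z (c n)) (z (c (n + 1)))) := by
          refine (sum_filter_of_ne fun n _ hn => ?_).symm
          by_contra h2
          apply hn
          rw [hc2 n h2, hv0, dsj_self, add_zero]
          exact min_eq_right zero_le_one
      _ ≤ ∑ n ∈ Ico N (2 * N), min 1 (vj n (g (c n)) (g (c (n + 1))) +
          dsj (z (c n)) (z (c (n + 1)))) := by
          refine sum_le_sum_of_subset_of_nonneg (fun n hn => (mem_filter.1 hn).2) fun n _ _ => ?_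
          exact le_min zero_le_one (add_nonneg (vj_nonneg _ _ _) (dsj_nonneg _ _))
      _ = ∑ n ∈ Ico N (2 * N), min 1 (vj n (g n) (g (n + 1)) + dsj (z n) (z (n + 1))) := by
          refine sum_congr rfl fun n hn => ?_
          rw [(hc1 n hn).1, (hc1 n hn).2])
  refine le_trans (le_of_eq ?_) h1
  refine sum_congr rfl fun n hn => ?_
  show SupJZ f D (g n) (z n) H n = SupJZ f D (g (c n)) (z (c n)) H n
  rw [(hc1 n hn).1]

/-- Without drift. -/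
theorem supJZ_one {m : ℕ} {G : Subgroup (Matrix.GeneralLinearGroup (Fin m) ℝ)} {Γ : Subgroup G}
    (f : G ⧸ Γ → ℂ) (D : ℕ) (g : ℤ → G) (H n : ℕ) : SupJZ f D g 1 H n = SupJ f D g H n := by
  have key : ∀ (p q : (ℤ → G) → Prop) (F : (ℤ → G) → ℝ), p = q →
      (⨆ P : {P : ℤ → G // p P}, F P.1) = ⨆ P : {P : ℤ → G // q P}, F P.1 := by
    rintro p q F rfl
    rfl
  refine key (fun P : ℤ → G => Poly D P ∧ ∃ c ∈ Subgroup.center G, P n = g n * c ∧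
      P (n + 1) = g (n + 1) * c * 1) (fun P : ℤ → G => Poly D P ∧ ∃ c ∈ Subgroup.center G,
      P n = g n * c ∧ P (n + 1) = g (n + 1) * c)
    (fun P => ‖∑ h ∈ Finset.Icc 1 H, f (QuotientGroup.mk (P (n + h))) *
      ((ArithmeticFunction.moebius (n + h) : ℤ) : ℂ)‖) ?_
  funext P
  simp only [mul_one]

/-- **Theorem JET for groups of unitriangular matrices, natural means on the block `[N, 2 N)`,
with central drift.** -/
theorem jfinalZ (hN : JETN') (hC : JETCK) {m : ℕ}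
    {G : Subgroup (Matrix.GeneralLinearGroup (Fin m) ℝ)} (hG : Unip G) {Γ : Subgroup G}
    (hΓ : ∀ γ ∈ Γ, ∀ i j, ∃ k : ℤ, ((γ : Matrix.GeneralLinearGroup (Fin m) ℝ) :
      Matrix (Fin m) (Fin m) ℝ) i j = k) [CompactSpace (G ⧸ Γ)] (f : G ⧸ Γ → ℂ)
    (hf : Continuous f) (D : ℕ) (A ε : ℝ) (hε : 0 < ε) :
    ∃ (B : ℝ) (H₀ : ℕ), ∀ H : ℕ, H₀ ≤ H → ∀ N : ℕ, 1 ≤ N →
    ∀ (g : ℕ → ℤ → G) (z : ℕ → G), (∀ n, Poly D (g n)) → (∀ n, z n ∈ Subgroup.center G) →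
    (((∀ n, z n = 1) ∧ ∑ n ∈ Ico N (2 * N), min 1 (vj n (g n) (g (n + 1)) +
        dsj (z n) (z (n + 1))) ≤ A) ∨
      ((H : ℝ) ^ B ≤ N ∧ ∑ n ∈ Ico N (2 * N), min 1 (vj n (g n) (g (n + 1)) +
        dsj (z n) (z (n + 1))) ≤ (H : ℝ) ^ A)) →
    ∑ n ∈ Ico N (2 * N), SupJZ f D (g n) (z n) H n ≤ ε * H * N := by
  obtain ⟨B, H₁, h1⟩ := jfinalZN hN hG hΓ f hf D A ε hε
  obtain ⟨H₂, h2⟩ := jfinalC hC hG hΓ f hf D A ε hε
  refine ⟨B, max H₁ H₂, fun H hH N hN1 g z hg hz h => ?_⟩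
  rcases h with ⟨h, h'⟩ | ⟨h, h'⟩
  · simp only [h, supJZ_one]
    simp only [h, dsj_self, add_zero] at h'
    exact h2 H ((le_max_right _ _).trans hH) N hN1 g hg h'
  · exact h1 H ((le_max_left _ _).trans hH) N h g z hg hz h'

end

end Pool.Agent.NG
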