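import Mathlib
import Pool.Agent.Lib.NG.JFZ

/-!
# JET (MP_663568_nt): a neighbourhood inside the supremum

(helper19)
-/

set_option autoImplicit false
open Finset Topology Polynomial

namespace Pool.Agent.NG

open Amb Pool.Agent.Lib.MP_663568_nt Pool.Agent.Lib.MP_663568_nt.Katai
  Pool.Agent.Lib.MP_663568_nt.Nul Pool.Agent.SV Pool.Agent.VQ Pool.Agent.NV

noncomputable section

section

variable {m : ℕ} {G : Subgroup (Matrix.GeneralLinearGroup (Fin m) ℝ)}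

/-- The supremum of `|∑_{h ≤ H} f(P(n + h) Γ) μ(n + h)|` over all polynomial maps `P` of degree at
most `D` for which some `c` in the centre of `G` and some `k`, `k'` have `|k - 1| ≤ A`,
`|k' k⁻¹ - 1| ≤ A / H`, `P(n) = k g(n) c` and `P(n + 1) = k' g(n + 1) c z`. -/
def SupJB {Γ : Subgroup G} (A : ℝ) (f : G ⧸ Γ → ℂ) (D : ℕ) (g : ℤ → G) (z : G) (H n : ℕ) : ℝ :=
  ⨆ P : {P : ℤ → G // Poly D P ∧ ∃ c ∈ Subgroup.center G, ∃ k k' : G, dsj 1 k ≤ A ∧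
      dsj k k' ≤ A / H ∧ P n = k * (g n * c) ∧ P (n + 1) = k' * (g (n + 1) * c * z)},
    ‖∑ h ∈ Finset.Icc 1 H, f (QuotientGroup.mk (P.1 (n + h))) *
      ((ArithmeticFunction.moebius (n + h) : ℤ) : ℂ)‖

end

namespace JB

open FM FF JJ JN JZ

variable {m : ℕ} {G : Subgroup (Matrix.GeneralLinearGroup (Fin m) ℝ)}

theorem poly_of_wd (hG : Unip G) {D' : ℕ} (P : ℤ → G)
    (h : Wd D' 0 fun k => (ofG hG (P k)).1) : Poly (D' * m) P := by
  intro i j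
  rcases lt_or_ge (j : ℕ) (i : ℕ) with hij | hij
  · refine ⟨0, by simp, fun k => ?_⟩
    rw [eval_zero]
    exact (h i j).1 hij k
  · obtain ⟨p, hp, h1⟩ := (h i j).2 hij
    refine ⟨p, ?_, fun k => h1 k⟩
    rw [Polynomial.mem_degreeLT] at hp
    have h2 : p.natDegree ≤ D' * ((j : ℕ) - i) := by
      rw [Polynomial.natDegree_le_iff_degree_le]
      by_cases hp0 : p = 0
      · rw [hp0, degree_zero]
        exact bot_le
      · rw [degree_eq_natDegree hp0] at hp ⊢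
        have h3 : p.natDegree < D' * ((j : ℕ) - i) + 1 - 0 := by exact_mod_cast hp
        have h4 : p.natDegree ≤ D' * ((j : ℕ) - i) := by omega
        exact_mod_cast h4
    exact h2.trans (Nat.mul_le_mul_left _ (by omega))

theorem poly_up {D : ℕ} {P : ℤ → G} (hP : Poly D P) : Poly (max D 1 * m) P := fun i j => by
  obtain ⟨p, hp, h1⟩ := hP i j
  exact ⟨p, hp.trans ((le_max_left _ _).trans (Nat.le_mul_of_pos_right _ i.pos)), h1⟩

theorem dsj_one (hG : Unip G) (x : G) : dsj 1 x = nmU (ofG hG x) := by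
  rw [← nm_dsj hG, ofG_one, inv_one, mul_one]

theorem ofG_pow (hG : Unip G) (x : G) (h : ℕ) : ofG hG (x ^ h) = ofG hG x ^ h := by
  induction h with
  | zero => rw [pow_zero, pow_zero, ofG_one]
  | succ h ih => rw [pow_succ, pow_succ, ofG_mul, ih]

/-- Powers of a small element. -/
theorem dsj_pow (hG : Unip G) (x : G) (h : ℕ) :
    1 + dsj 1 (x ^ h) ≤ Real.exp (dsj 1 x * h) := by
  rw [dsj_one hG, dsj_one hG, ofG_pow]
  refine (nm_pow (ofG hG x) h).trans ?_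
  have h1 : 1 + nmU (ofG hG x) ≤ Real.exp (nmU (ofG hG x)) := by
    have := Real.add_one_le_exp (nmU (ofG hG x))
    linarith
  calc (1 + nmU (ofG hG x)) ^ h ≤ Real.exp (nmU (ofG hG x)) ^ h :=
        pow_le_pow_left₀ (by linarith [nmU_nonneg (ofG hG x)]) h1 h
    _ = Real.exp (nmU (ofG hG x) * h) := by rw [← Real.exp_nat_mul, mul_comm]

theorem dsj_mul (hG : Unip G) (x y : G) :
    1 + dsj 1 (x * y) ≤ (1 + dsj 1 x) * (1 + dsj 1 y) := by
  rw [dsj_one hG, dsj_one hG, dsj_one hG, ofG_mul]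
  have := nmU_mul (ofG hG x) (ofG hG y)
  linarith

section

variable {Γ : Subgroup G}

theorem ucG (hG : Unip G)
    (hΓ : ∀ γ ∈ Γ, ∀ i j, ∃ k : ℤ, ((γ : Matrix.GeneralLinearGroup (Fin m) ℝ) :
      Matrix (Fin m) (Fin m) ℝ) i j = k) [CompactSpace (G ⧸ Γ)] (f : G ⧸ Γ → ℂ)
    (hf : Continuous f) (η : ℝ) (hη : 0 < η) :
    ∃ ρ : ℝ, 0 < ρ ∧ ∀ ξ : G, dsj 1 ξ ≤ ρ → ∀ y : G ⧸ Γ, ‖f (ξ • y) - f y‖ ≤ η := by
  obtain ⟨ρ, hρ, huc0⟩ := (fn_Fu hG Γ hΓ f hf).uc η hη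
  refine ⟨ρ, hρ, fun ξ hξ y => ?_⟩
  obtain ⟨b, rfl⟩ := QuotientGroup.mk_surjective y
  have huc : ∀ k x : UT m, toGL m k ∈ G → toGL m x ∈ G → nmU k ≤ ρ →
      ‖Fu Γ f (k * x) - Fu Γ f x‖ ≤ η := fun k x hk hx hn => huc0 k hk hn x hx
  have h1 := huc (ofG hG ξ) (ofG hG b) (memU hG ξ) (memU hG b) (by rw [← dsj_one hG]; exact hξ)
  rw [← ofG_mul, Fu_ofG, Fu_ofG] at h1
  exact h1

theorem bdG (hG : Unip G)
    (hΓ : ∀ γ ∈ Γ, ∀ i j, ∃ k : ℤ, ((γ : Matrix.GeneralLinearGroup (Fin m) ℝ) :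
      Matrix (Fin m) (Fin m) ℝ) i j = k) [CompactSpace (G ⧸ Γ)] (f : G ⧸ Γ → ℂ)
    (hf : Continuous f) : ∃ C : ℝ, 0 ≤ C ∧ ∀ y : G ⧸ Γ, ‖f y‖ ≤ C := by
  obtain ⟨C, hC⟩ := (fn_Fu hG Γ hΓ f hf).bd
  refine ⟨max C 0, le_max_right _ _, fun y => ?_⟩
  obtain ⟨b, rfl⟩ := QuotientGroup.mk_surjective y
  have h1 : ‖Fu Γ f (ofG hG b)‖ ≤ C := hC (ofG hG b : UT m) (memU hG b)
  rw [Fu_ofG] at h1
  exact h1.trans (le_max_left _ _)

open Classical in
theorem netG (hG : Unip G)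
    (hΓ : ∀ γ ∈ Γ, ∀ i j, ∃ k : ℤ, ((γ : Matrix.GeneralLinearGroup (Fin m) ℝ) :
      Matrix (Fin m) (Fin m) ℝ) i j = k) [CompactSpace (G ⧸ Γ)] (f : G ⧸ Γ → ℂ)
    (hf : Continuous f) (R η : ℝ) (hη : 0 < η) :
    ∃ L : Finset G, ∀ κ : G, dsj 1 κ ≤ R → ∃ a ∈ L, ∀ y : G ⧸ Γ, ‖f (κ • y) - f (a • y)‖ ≤ η := by
  have hR := rat_Gr hG Γ hΓ
  obtain ⟨L, hL, hnet⟩ := Nj.net (Gr (La' Γ) (La'_le hΓ) G) ⊥
    (fun x : UTG m (La' Γ) (La'_le hΓ) => Fu Γ f x) (fn_Fu hG Γ hΓ f hf)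
    ({x : UT m | nmU x ≤ R} ∩ (Gr (La' Γ) (La'_le hΓ) G : Set (UTG m (La' Γ) (La'_le hΓ))))
    ((isCompact_nmU R).inter_right hR.cl) (fun x hx => hx.2) η hη
  obtain ⟨L', hnet'⟩ : ∃ L' : List (UT m), ∀ κ : UT m, nmU κ ≤ R → toGL m κ ∈ G →
      ∃ κ' : UT m, κ' ∈ L' ∧ toGL m κ' ∈ G ∧
      ∀ x : UT m, toGL m x ∈ G → ‖Fu Γ f (κ * x) - Fu Γ f (κ' * x)‖ ≤ η := by
    refine ⟨L, fun κ h1 h2 => ?_⟩
    obtain ⟨κ', h3, h4⟩ := hnet κ ⟨h1, h2⟩
    exact ⟨κ', h3, hL κ' h3, fun x hx => h4 x hx⟩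
  refine ⟨(L'.map fun x : UT m => if h : toGL m x ∈ G then (⟨toGL m x, h⟩ : G) else 1).toFinset,
    fun κ hκ => ?_⟩
  obtain ⟨κ', h3, h4, h5⟩ := hnet' (ofG hG κ) (by rw [← dsj_one hG]; exact hκ) (memU hG κ)
  refine ⟨⟨toGL m κ', h4⟩, ?_, fun y => ?_⟩
  · rw [List.mem_toFinset, List.mem_map]
    exact ⟨κ', h3, dif_pos h4⟩
  · obtain ⟨b, rfl⟩ := QuotientGroup.mk_surjective y
    have h6 := h5 (ofG hG b) (memU hG b)
    have h7 : κ' = ofG hG ⟨toGL m κ', h4⟩ := toGL_inj (by rw [toGL_ofG])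
    rw [h7, ← ofG_mul, ← ofG_mul, Fu_ofG, Fu_ofG] at h6
    exact h6

theorem supJZ_nonneg (f : G ⧸ Γ → ℂ) (D : ℕ) (g : ℤ → G) (z : G) (H n : ℕ) :
    0 ≤ SupJZ f D g z H n := Real.iSup_nonneg fun _ => norm_nonneg _

theorem supJZ_zero (f : G ⧸ Γ → ℂ) (D : ℕ) (g : ℤ → G) (z : G) (n : ℕ) :
    SupJZ f D g z 0 n ≤ 0 := by
  refine Real.iSup_le (fun P => ?_) le_rfl
  simp

theorem mu_le (k : ℕ) : ‖((ArithmeticFunction.moebius k : ℤ) : ℂ)‖ ≤ 1 := norm_muC k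

/-- A map in the index set. -/
theorem le_supJZ (f : G ⧸ Γ → ℂ) {C : ℝ} (hC : ∀ y, ‖f y‖ ≤ C) (D : ℕ) (g : ℤ → G) (z : G)
    (H n : ℕ) (P : ℤ → G) (hP : Poly D P) (c : G) (hc : c ∈ Subgroup.center G)
    (h0 : P n = g n * c) (h1 : P (n + 1) = g (n + 1) * c * z) :
    ‖∑ h ∈ Finset.Icc 1 H, f (QuotientGroup.mk (P (n + h))) *
      ((ArithmeticFunction.moebius (n + h) : ℤ) : ℂ)‖ ≤ SupJZ f D g z H n := by
  unfold SupJZ
  refine le_ciSup (f := fun P : {P : ℤ → G // Poly D P ∧ ∃ c ∈ Subgroup.center G, P n = g n * c ∧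
      P (n + 1) = g (n + 1) * c * z} =>
    ‖∑ h ∈ Finset.Icc 1 H, f (QuotientGroup.mk (P.1 (n + h))) *
      ((ArithmeticFunction.moebius (n + h) : ℤ) : ℂ)‖) ?_ ⟨P, hP, c, hc, h0, h1⟩
  refine ⟨H * C, ?_⟩
  rintro _ ⟨Q, rfl⟩
  refine (norm_sum_le _ _).trans ?_
  have h2 : ∀ h ∈ Icc 1 H, ‖f (QuotientGroup.mk (Q.1 (n + h))) *
      ((ArithmeticFunction.moebius (n + h) : ℤ) : ℂ)‖ ≤ C := by
    intro h _
    rw [norm_mul]
    have h3 : 0 ≤ C := (norm_nonneg _).trans (hC (QuotientGroup.mk (Q.1 (n + h))))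
    calc _ ≤ C * 1 := mul_le_mul (hC _) (mu_le _) (norm_nonneg _) h3
      _ = C := mul_one _
  refine (sum_le_sum h2).trans ?_
  rw [sum_const, Nat.card_Icc, nsmul_eq_mul, Nat.add_sub_cancel]

theorem blk (v : ℕ → ℂ) {s t : ℕ} (h : s ≤ t) :
    ∑ h ∈ Icc 1 t, v h - ∑ h ∈ Icc 1 s, v h = ∑ h ∈ Ioc s t, v h := by
  have h1 : Icc 1 t = Icc 1 s ∪ Ioc s t := by
    ext x
    simp only [mem_Icc, mem_union, mem_Ioc]
    omega
  have h2 : Disjoint (Icc 1 s) (Ioc s t) := by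
    rw [disjoint_left]
    intro x hx hx'
    rw [mem_Icc] at hx
    rw [mem_Ioc] at hx'
    omega
  rw [h1, sum_union h2, add_sub_cancel_left]

theorem zpw (hG : Unip G) (x : G) (i : ℤ) : ofG hG (x ^ i) = pwU (ofG hG x) (i : ℝ) := by
  cases i with
  | ofNat n =>
    have h1 : x ^ (Int.ofNat n) = x ^ n := zpow_natCast x n
    rw [h1, ofG_pow]
    have h2 : ((Int.ofNat n : ℤ) : ℝ) = n := by simp
    rw [h2, pwU_nat]
  | negSucc n =>
    rw [zpow_negSucc, ofG_inv, ofG_pow, ← pwU_nat, pwU_inv]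
    congr 1
    push_cast
    ring

/-- Unwinding the linear factor. -/
theorem polyU (hG : Unip G) {D : ℕ} (P : ℤ → G) (hP : Poly D P) (k x : G) (n : ℤ) :
    Poly (max D 1 * m) (fun i => k * (x ^ (i - n))⁻¹ * P i) := by
  apply poly_of_wd hG
  have hD1 : 1 ≤ max D 1 := le_max_right _ _
  have h1 : (fun i => (ofG hG (k * (x ^ (i - n))⁻¹ * P i)).1) = fun i : ℤ => (ofG hG k).1 *
      (pwU (ofG hG x⁻¹) ((i : ℝ) - n)).1 * (ofG hG (P i)).1 := by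
    funext i
    rw [ofG_mul, ofG_mul, ← inv_zpow, zpw]
    push_cast
    rfl
  rw [h1]
  have h2 : Wd (max D 1) 0 fun _ : ℤ => (ofG hG k).1 := by
    refine wd_full (fun _ => ofG hG k) (wd_poly hG (Nat.zero_le _) hD1 (fun _ => k) ?_)
    intro i j
    exact ⟨C (((k : Matrix.GeneralLinearGroup (Fin m) ℝ) : Matrix (Fin m) (Fin m) ℝ) i j),
      (natDegree_C _).le, fun _ => by rw [eval_C]⟩
  exact wd_mul (wd_mul h2 (wd_deg hD1 (wd_pw _ _))) (wd_full _ (wd_poly hG (le_max_left _ _) hD1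
    _ hP))

/-- The pointwise bound. -/
theorem ptb (hG : Unip G)
    (hΓ : ∀ γ ∈ Γ, ∀ i j, ∃ k : ℤ, ((γ : Matrix.GeneralLinearGroup (Fin m) ℝ) :
      Matrix (Fin m) (Fin m) ℝ) i j = k) [CompactSpace (G ⧸ Γ)] (f : G ⧸ Γ → ℂ)
    (hf : Continuous f) (D : ℕ) (A ε : ℝ) (hε : 0 < ε) :
    ∃ (J : ℕ) (L : Finset G), 1 ≤ J ∧ ∀ (g : ℤ → G) (z : G) (H n : ℕ), J ≤ H →
      SupJB A f D g z H n ≤ ε * H + 2 * ∑ a ∈ L, ∑ j ∈ range (J + 1),
        SupJZ (fun y => f (a • y)) (max D 1 * m) g z (j * H / J) n := by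
  obtain ⟨C, hC0, hC⟩ := bdG hG hΓ f hf
  obtain ⟨ρ, hρ, huc⟩ := ucG hG hΓ f hf (ε / 2) (by positivity)
  obtain ⟨L, hL⟩ := netG hG hΓ f hf (Real.exp |A| * (1 + |A|) - 1) (ε / 2) (by positivity)
  obtain ⟨J, hJ1, hJ⟩ : ∃ J : ℕ, 1 ≤ J ∧ Real.exp (2 * |A| / J) - 1 ≤ ρ := by
    have h1 : Filter.Tendsto (fun J : ℕ => Real.exp (2 * |A| / J) - 1) Filter.atTop (𝓝 0) := by
      have h2 : Filter.Tendsto (fun J : ℕ => 2 * |A| / (J : ℝ)) Filter.atTop (𝓝 0) :=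
        tendsto_const_div_atTop_nhds_zero_nat _
      have h3 := (Real.continuous_exp.tendsto 0).comp h2
      rw [Real.exp_zero] at h3
      have h4 := h3.sub_const 1
      rw [sub_self] at h4
      exact h4
    obtain ⟨J, h5, h6⟩ := ((h1.eventually (gt_mem_nhds hρ)).and
      (Filter.eventually_ge_atTop 1)).exists
    exact ⟨J, h6, h5.le⟩
  refine ⟨J, L, hJ1, fun g z H n hJH => ?_⟩
  have hJ0 : (0 : ℝ) < J := by exact_mod_cast hJ1
  have hJHr : (J : ℝ) ≤ H := by exact_mod_cast hJH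
  have hH0 : (0 : ℝ) < H := by linarith
  have hS0 : ∀ a ∈ L, ∀ j ∈ range (J + 1),
      0 ≤ SupJZ (fun y => f (a • y)) (max D 1 * m) g z (j * H / J) n :=
    fun a _ j _ => supJZ_nonneg _ _ _ _ _ _
  have hR0 : 0 ≤ ε * H + 2 * ∑ a ∈ L, ∑ j ∈ range (J + 1),
        SupJZ (fun y => f (a • y)) (max D 1 * m) g z (j * H / J) n := by
    have := sum_nonneg fun a ha => sum_nonneg (hS0 a ha)
    positivity
  refine Real.iSup_le ?_ hR0
  rintro ⟨P, hP, c, hc, k, k', hk, hk', hP0, hP1⟩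
  show ‖∑ h ∈ Finset.Icc 1 H, f (QuotientGroup.mk (P (n + h))) *
      ((ArithmeticFunction.moebius (n + h) : ℤ) : ℂ)‖ ≤ _
  obtain ⟨x, hx⟩ : ∃ x : G, x = k' * k⁻¹ := ⟨_, rfl⟩
  have hxA : dsj 1 x ≤ |A| / H := by
    have h1 : dsj 1 x = dsj k k' := by
      rw [dsj_one hG, hx, ofG_mul, ofG_inv, nm_dsj]
    rw [h1]
    exact hk'.trans (div_le_div_of_nonneg_right (le_abs_self A) hH0.le)
  obtain ⟨Q, hQ⟩ : ∃ Q : ℤ → G, Q = fun i => k⁻¹ * (x ^ (i - (n : ℤ)))⁻¹ * P i := ⟨_, rfl⟩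
  have hQP : Poly (max D 1 * m) Q := by
    rw [hQ]
    exact polyU hG P hP _ _ _
  have hQ0 : Q n = g n * c := by
    rw [hQ]
    show k⁻¹ * (x ^ ((n : ℤ) - (n : ℤ)))⁻¹ * P n = g n * c
    rw [sub_self, zpow_zero, hP0]
    group
  have hQ1 : Q (n + 1) = g (n + 1) * c * z := by
    rw [hQ]
    show k⁻¹ * (x ^ ((n : ℤ) + 1 - (n : ℤ)))⁻¹ * P (n + 1) = g (n + 1) * c * z
    have h1 : (n : ℤ) + 1 - (n : ℤ) = 1 := by ring
    rw [h1, zpow_one, hP1, hx]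
    group
  have hPQ : ∀ h : ℕ, P (n + h) = x ^ h * k * Q (n + h) := by
    intro h
    rw [hQ]
    show P (n + h) = x ^ h * k * (k⁻¹ * (x ^ ((n : ℤ) + (h : ℤ) - (n : ℤ)))⁻¹ * P (n + h))
    have h1 : (n : ℤ) + (h : ℤ) - (n : ℤ) = h := by ring
    rw [h1, zpow_natCast]
    group
  obtain ⟨t, ht⟩ : ∃ t : ℕ → ℕ, t = fun j => j * H / J := ⟨_, rfl⟩
  have ht0 : t 0 = 0 := by rw [ht]; simp
  have htJ : t J = H := by
    rw [ht]
    show J * H / J = H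
    exact Nat.mul_div_cancel_left H (by omega)
  have htm : ∀ j, t j ≤ t (j + 1) := by
    intro j
    rw [ht]
    exact Nat.div_le_div_right (Nat.mul_le_mul_right H (Nat.le_succ j))
  have htH : ∀ j, j ≤ J → t j ≤ H := by
    intro j hj
    rw [← htJ, ht]
    exact Nat.div_le_div_right (Nat.mul_le_mul_right H hj)
  have hstep : ∀ j, (t (j + 1) : ℝ) ≤ t j + 2 * (H / J) := by
    intro j
    have h1 : (t (j + 1) : ℝ) ≤ (((j + 1) * H : ℕ) : ℝ) / J := by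
      rw [ht]
      exact Nat.cast_div_le
    have h2 : ((j * H : ℕ) : ℝ) / J < t j + 1 := by
      rw [ht, div_lt_iff₀ hJ0]
      have h3 : j * H < (j * H / J + 1) * J := 
        (Nat.div_lt_iff_lt_mul (by omega)).1 (Nat.lt_succ_self _)
      exact_mod_cast h3
    have h4 : (1 : ℝ) ≤ H / J := by
      rw [le_div_iff₀ hJ0]
      linarith
    have h5 : (((j + 1) * H : ℕ) : ℝ) / J = ((j * H : ℕ) : ℝ) / J + H / J := by
      push_cast
      ring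
    linarith
  have hxp : ∀ h : ℕ, (h : ℝ) ≤ H → 1 + dsj 1 (x ^ h) ≤ Real.exp |A| := by
    intro h hh
    refine (dsj_pow hG x h).trans (Real.exp_le_exp.2 ?_)
    calc dsj 1 x * h ≤ |A| / H * H := mul_le_mul hxA hh (Nat.cast_nonneg _) (by positivity)
      _ = |A| := div_mul_cancel₀ _ hH0.ne'
  have hxs : ∀ h : ℕ, (h : ℝ) ≤ 2 * (H / J) → dsj 1 (x ^ h) ≤ ρ := by
    intro h hh
    have h1 : 1 + dsj 1 (x ^ h) ≤ Real.exp (2 * |A| / J) := by
      refine (dsj_pow hG x h).trans (Real.exp_le_exp.2 ?_)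
      calc dsj 1 x * h ≤ |A| / H * (2 * (H / J)) :=
            mul_le_mul hxA hh (Nat.cast_nonneg _) (by positivity)
        _ = 2 * |A| / J := by
          field_simp
    linarith
  have hnet : ∀ j : ℕ, ∃ a : G, j ≤ J → a ∈ L ∧
      ∀ y : G ⧸ Γ, ‖f ((x ^ t j * k) • y) - f (a • y)‖ ≤ ε / 2 := by
    intro j
    by_cases hj : j ≤ J
    · obtain ⟨a, ha, h1⟩ := hL (x ^ t j * k) (by
        have h2 := dsj_mul hG (x ^ t j) k
        have h3 := hxp (t j) (by exact_mod_cast htH j hj)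
        have h4 : 1 + dsj 1 k ≤ 1 + |A| := by linarith [le_abs_self A]
        have h5 : (1 + dsj 1 (x ^ t j)) * (1 + dsj 1 k) ≤ Real.exp |A| * (1 + |A|) :=
          mul_le_mul h3 h4 (by linarith [dsj_nonneg 1 k]) (Real.exp_pos _).le
        linarith)
      exact ⟨a, fun _ => ⟨ha, h1⟩⟩
    · exact ⟨1, fun h => absurd h hj⟩
  choose a ha using hnet
  obtain ⟨μ, hμ⟩ : ∃ μ : ℕ → ℂ, μ = fun h => ((ArithmeticFunction.moebius (n + h) : ℤ) : ℂ) :=
    ⟨_, rfl⟩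
  have hμ1 : ∀ h, ‖μ h‖ ≤ 1 := fun h => by rw [hμ]; exact mu_le _
  obtain ⟨S, hS⟩ : ∃ S : ℕ → ℕ → ℂ, S = fun (j s : ℕ) =>
    ∑ h ∈ Icc 1 s, f (a j • QuotientGroup.mk (Q (n + h))) * μ h := ⟨_, rfl⟩
  have hSle : ∀ j s, ‖S j s‖ ≤ SupJZ (fun y => f (a j • y)) (max D 1 * m) g z s n := by
    intro j s
    rw [hS, hμ]
    exact le_supJZ (fun y => f (a j • y)) (fun y => hC _) _ _ _ _ _ Q hQP c hc hQ0 hQ1
  have hblk : ∀ j ∈ range J, ‖∑ h ∈ Ioc (t j) (t (j + 1)),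
      f (QuotientGroup.mk (P (n + h))) * μ h‖ ≤ ε * ((t (j + 1) : ℝ) - t j) +
      (‖S j (t (j + 1))‖ + ‖S j (t j)‖) := by
    intro j hj
    rw [mem_range] at hj
    have h1 : ∑ h ∈ Ioc (t j) (t (j + 1)), f (QuotientGroup.mk (P (n + h))) * μ h =
        ∑ h ∈ Ioc (t j) (t (j + 1)), (f (QuotientGroup.mk (P (n + h))) -
          f (a j • QuotientGroup.mk (Q (n + h)))) * μ h + (S j (t (j + 1)) - S j (t j)) := by
      rw [hS]
      simp only
      rw [blk _ (htm j), ← sum_add_distrib]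
      refine sum_congr rfl fun h _ => ?_
      ring
    rw [h1]
    refine (norm_add_le _ _).trans (add_le_add ?_ (norm_sub_le _ _))
    refine (norm_sum_le _ _).trans ?_
    have h2 : ∀ h ∈ Ioc (t j) (t (j + 1)), ‖(f (QuotientGroup.mk (P (n + h))) -
        f (a j • QuotientGroup.mk (Q (n + h)))) * μ h‖ ≤ ε := by
      intro h hh
      rw [mem_Ioc] at hh
      have h3 : x ^ h = x ^ (h - t j) * x ^ t j := by
        rw [← pow_add]
        congr 1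
        omega
      have h4 : ((h - t j : ℕ) : ℝ) ≤ 2 * (H / J) := by
        rw [Nat.cast_sub hh.1.le]
        have h5 : (h : ℝ) ≤ t (j + 1) := by exact_mod_cast hh.2
        linarith [hstep j]
      have h6 := huc (x ^ (h - t j)) (hxs _ h4) ((x ^ t j * k) • QuotientGroup.mk (Q (n + h)))
      have h7 := (ha j hj.le).2 (QuotientGroup.mk (Q (n + h)))
      have h8 : f (QuotientGroup.mk (P (n + h))) = f (x ^ (h - t j) • ((x ^ t j * k) •
          (QuotientGroup.mk (Q (n + h)) : G ⧸ Γ))) := by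
        rw [hPQ, h3, smul_smul]
        congr 1
        show _ = (QuotientGroup.mk (x ^ (h - t j) * (x ^ t j * k) * Q (n + h)) : G ⧸ Γ)
        rw [mul_assoc (x ^ (h - t j)) (x ^ t j) k]
      rw [norm_mul, h8]
      have h9 : ‖f (x ^ (h - t j) • ((x ^ t j * k) • (QuotientGroup.mk (Q (n + h)) : G ⧸ Γ))) -
          f (a j • QuotientGroup.mk (Q (n + h)))‖ ≤ ε := by
        have h10 := norm_sub_le_norm_sub_add_norm_sub (f (x ^ (h - t j) • ((x ^ t j * k) •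
          (QuotientGroup.mk (Q (n + h)) : G ⧸ Γ)))) (f ((x ^ t j * k) •
          (QuotientGroup.mk (Q (n + h)) : G ⧸ Γ))) (f (a j • QuotientGroup.mk (Q (n + h))))
        linarith
      calc _ ≤ ε * 1 := mul_le_mul h9 (hμ1 h) (norm_nonneg _) hε.le
        _ = ε := mul_one _
    refine (sum_le_sum h2).trans ?_
    rw [sum_const, Nat.card_Ioc, nsmul_eq_mul, Nat.cast_sub (htm j), mul_comm]
  have hsum : ∀ s, s ≤ J → ∑ h ∈ Icc 1 (t s), f (QuotientGroup.mk (P (n + h))) * μ h =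
      ∑ j ∈ range s, ∑ h ∈ Ioc (t j) (t (j + 1)), f (QuotientGroup.mk (P (n + h))) * μ h := by
    intro s
    induction s with
    | zero =>
      intro _
      rw [ht0, sum_range_zero]
      simp
    | succ s ih =>
      intro hs
      rw [sum_range_succ, ← ih (by omega), ← blk _ (htm s)]
      ring
  have htot : ∑ h ∈ Finset.Icc 1 H, f (QuotientGroup.mk (P (n + h))) *
      ((ArithmeticFunction.moebius (n + h) : ℤ) : ℂ) =
      ∑ j ∈ range J, ∑ h ∈ Ioc (t j) (t (j + 1)), f (QuotientGroup.mk (P (n + h))) * μ h := by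
    rw [← hsum J le_rfl, htJ, hμ]
  rw [htot]
  refine (norm_sum_le _ _).trans ((sum_le_sum hblk).trans ?_)
  rw [sum_add_distrib, ← mul_sum, sum_range_sub (fun j => (t j : ℝ)), ht0, htJ, Nat.cast_zero,
    sub_zero]
  refine add_le_add le_rfl ?_
  obtain ⟨W, hW⟩ : ∃ W : ℕ → ℝ, W = fun j => ∑ b ∈ L,
    SupJZ (fun y => f (b • y)) (max D 1 * m) g z (t j) n := ⟨_, rfl⟩
  have hW1 : ∀ i j, j ≤ J → ‖S j (t i)‖ ≤ W i := by
    intro i j hj
    refine (hSle j (t i)).trans ?_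
    rw [hW]
    exact single_le_sum (f := fun b => SupJZ (fun y => f (b • y)) (max D 1 * m) g z (t i) n)
      (fun b _ => supJZ_nonneg _ _ _ _ _ _) (ha j hj).1
  have hW0 : ∀ i, 0 ≤ W i := fun i => (norm_nonneg _).trans (hW1 i 0 (Nat.zero_le _))
  have hW2 : ∑ b ∈ L, ∑ j ∈ range (J + 1),
      SupJZ (fun y => f (b • y)) (max D 1 * m) g z (j * H / J) n = ∑ j ∈ range (J + 1), W j := by
    rw [sum_comm, hW, ht]
  rw [hW2, two_mul]
  rw [sum_add_distrib]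
  refine add_le_add ?_ ?_
  · rw [sum_range_succ']
    refine le_trans (sum_le_sum fun j hj => hW1 (j + 1) j (mem_range.1 hj).le) ?_
    linarith [hW0 0]
  · rw [sum_range_succ]
    refine le_trans (sum_le_sum fun j hj => hW1 j j (mem_range.1 hj).le) ?_
    linarith [hW0 J]

end

end JB

open JB JZ

/-- **Theorem JET for groups of unitriangular matrices, natural means on the block `[N, 2 N)`,
with central drift, uniformly near the family.** -/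
theorem jfinalB (hN : JETN') (hC : JETCK) {m : ℕ}
    {G : Subgroup (Matrix.GeneralLinearGroup (Fin m) ℝ)} (hG : Unip G) {Γ : Subgroup G}
    (hΓ : ∀ γ ∈ Γ, ∀ i j, ∃ k : ℤ, ((γ : Matrix.GeneralLinearGroup (Fin m) ℝ) :
      Matrix (Fin m) (Fin m) ℝ) i j = k) [CompactSpace (G ⧸ Γ)] (f : G ⧸ Γ → ℂ)
    (hf : Continuous f) (D : ℕ) (A ε : ℝ) (hε : 0 < ε) :
    ∃ (B : ℝ) (H₀ : ℕ), ∀ H : ℕ, H₀ ≤ H → ∀ N : ℕ, 1 ≤ N →
    ∀ (g : ℕ → ℤ → G) (z : ℕ → G), (∀ n, Poly D (g n)) → (∀ n, z n ∈ Subgroup.center G) →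
    (((∀ n, z n = 1) ∧ ∑ n ∈ Ico N (2 * N), min 1 (vj n (g n) (g (n + 1)) +
        dsj (z n) (z (n + 1))) ≤ A) ∨
      ((H : ℝ) ^ B ≤ N ∧ ∑ n ∈ Ico N (2 * N), min 1 (vj n (g n) (g (n + 1)) +
        dsj (z n) (z (n + 1))) ≤ (H : ℝ) ^ A)) →
    ∑ n ∈ Ico N (2 * N), SupJB A f D (g n) (z n) H n ≤ ε * H * N := by
  obtain ⟨J, L, hJ1, hpt⟩ := ptb hG hΓ f hf D A (ε / 2) (by positivity)
  obtain ⟨ε', hε'⟩ : ∃ ε' : ℝ, ε' = ε / (4 * (L.card + 1) * (J + 1)) := ⟨_, rfl⟩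
  have hε'0 : 0 < ε' := by rw [hε']; positivity
  have hfa : ∀ a : G, Continuous fun y : G ⧸ Γ => f (a • y) := fun a =>
    hf.comp (continuous_const_smul a)
  choose Ba Ha hBH using fun a : G => jfinalZ hN hC hG hΓ (fun y => f (a • y)) (hfa a)
    (max D 1 * m) (2 * |A| + 1) ε' hε'0
  obtain ⟨B, hB⟩ : ∃ B : ℝ, B = ∑ a ∈ L, |Ba a| := ⟨_, rfl⟩
  obtain ⟨Hm, hHm⟩ : ∃ Hm : ℕ, Hm = ∑ a ∈ L, Ha a := ⟨_, rfl⟩
  refine ⟨B, J * Hm + 4 * J * J + J, fun H hH N hN1 g z hg hz hyp => ?_⟩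
  have hJH : J ≤ H := by omega
  have hq1 : J * Hm ≤ H := by omega
  have hq2 : 4 * J * J ≤ H := by omega
  have hH1 : 1 ≤ H := hJ1.trans hJH
  have hH1r : (1 : ℝ) ≤ H := by exact_mod_cast hH1
  have hH0 : (0 : ℝ) < H := by linarith
  have hq : Hm ≤ H / J ∧ H ≤ (H / J) * (H / J) := by
    constructor
    · rw [Nat.le_div_iff_mul_le (by omega)]
      linarith [mul_comm J Hm]
    · have h1 : 4 * J ≤ H / J := by
        rw [Nat.le_div_iff_mul_le (by omega)]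
        exact hq2
      have h2 : H < (H / J + 1) * J := (Nat.div_lt_iff_lt_mul (by omega)).1 (Nat.lt_succ_self _)
      nlinarith
  have hterm : ∀ a ∈ L, ∀ j ∈ range (J + 1), ∑ n ∈ Ico N (2 * N),
      SupJZ (fun y => f (a • y)) (max D 1 * m) (g n) (z n) (j * H / J) n ≤ ε' * H * N := by
    intro a ha j hj
    rw [mem_range] at hj
    rcases Nat.eq_zero_or_pos j with hj0 | hj0
    · subst hj0
      have h1 : ∀ n ∈ Ico N (2 * N),
          SupJZ (fun y => f (a • y)) (max D 1 * m) (g n) (z n) (0 * H / J) n ≤ 0 := by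
        intro n _
        rw [zero_mul, Nat.zero_div]
        exact supJZ_zero _ _ _ _ _
      exact (sum_nonpos h1).trans (by positivity)
    obtain ⟨T, hT⟩ : ∃ T : ℕ, T = j * H / J := ⟨_, rfl⟩
    have hTq : H / J ≤ T := by
      rw [hT]
      exact Nat.div_le_div_right (Nat.le_mul_of_pos_left H hj0)
    have hTH : T ≤ H := by
      rw [hT]
      calc j * H / J ≤ J * H / J := Nat.div_le_div_right (Nat.mul_le_mul_right H (by omega))
        _ = H := Nat.mul_div_cancel_left H (by omega)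
    have hTT : H ≤ T * T := hq.2.trans (Nat.mul_le_mul hTq hTq)
    have hT1 : 1 ≤ T := by
      by_contra h
      have h1 : T = 0 := by omega
      rw [h1] at hTT
      omega
    have hT1r : (1 : ℝ) ≤ T := by exact_mod_cast hT1
    have hTHr : (T : ℝ) ≤ H := by exact_mod_cast hTH
    have hTTr : (H : ℝ) ≤ T * T := by exact_mod_cast hTT
    have hHa : Ha a ≤ T := by
      refine le_trans ?_ (hq.1.trans hTq)
      rw [hHm]
      exact single_le_sum (f := Ha) (fun _ _ => Nat.zero_le _) ha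
    have hBa : |Ba a| ≤ B := by
      rw [hB]
      exact single_le_sum (f := fun a => |Ba a|) (fun _ _ => abs_nonneg _) ha
    rw [← hT]
    refine (hBH a T hHa N hN1 g z (fun n => poly_up (hg n)) hz ?_).trans ?_
    · rcases hyp with ⟨h1, h2⟩ | ⟨h1, h2⟩
      · left
        refine ⟨h1, h2.trans ?_⟩
        linarith [le_abs_self A, abs_nonneg A]
      · right
        refine ⟨le_trans ?_ h1, h2.trans ?_⟩
        · calc (T : ℝ) ^ Ba a ≤ (T : ℝ) ^ |Ba a| :=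
                Real.rpow_le_rpow_of_exponent_le hT1r (le_abs_self _)
            _ ≤ (H : ℝ) ^ |Ba a| := Real.rpow_le_rpow (by linarith) hTHr (abs_nonneg _)
            _ ≤ (H : ℝ) ^ B := Real.rpow_le_rpow_of_exponent_le hH1r hBa
        · calc (H : ℝ) ^ A ≤ (H : ℝ) ^ |A| :=
                Real.rpow_le_rpow_of_exponent_le hH1r (le_abs_self _)
            _ ≤ ((T : ℝ) * T) ^ |A| := Real.rpow_le_rpow hH0.le hTTr (abs_nonneg _)
            _ = (T : ℝ) ^ (2 * |A|) := by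
                rw [Real.rpow_mul (by linarith) 2 |A|, Real.rpow_two, sq]
            _ ≤ (T : ℝ) ^ (2 * |A| + 1) :=
                Real.rpow_le_rpow_of_exponent_le hT1r (by linarith)
    · exact mul_le_mul_of_nonneg_right (mul_le_mul_of_nonneg_left hTHr hε'0.le)
        (Nat.cast_nonneg _)
  refine (sum_le_sum fun n _ => hpt (g n) (z n) H n hJH).trans ?_
  rw [sum_add_distrib, sum_const, Nat.card_Ico, nsmul_eq_mul, ← mul_sum, sum_comm]
  have hNN : ((2 * N - N : ℕ) : ℝ) = N := by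
    have : 2 * N - N = N := by omega
    rw [this]
  rw [hNN]
  have h1 : ∑ a ∈ L, ∑ n ∈ Ico N (2 * N), ∑ j ∈ range (J + 1),
      SupJZ (fun y => f (a • y)) (max D 1 * m) (g n) (z n) (j * H / J) n ≤
      ∑ _a ∈ L, ∑ _j ∈ range (J + 1), ε' * H * N := by
    refine sum_le_sum fun a ha => ?_
    rw [sum_comm]
    exact sum_le_sum fun j hj => hterm a ha j hj
  rw [sum_const, sum_const, card_range, nsmul_eq_mul, nsmul_eq_mul] at h1
  have h2 : (L.card : ℝ) * (((J + 1 : ℕ) : ℝ) * (ε' * H * N)) ≤ ε / 4 * H * N := by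
    have h3 : ε' * (4 * (L.card + 1) * (J + 1)) = ε := by
      rw [hε']
      exact div_mul_cancel₀ _ (by positivity)
    have h4 : (L.card : ℝ) * (((J + 1 : ℕ) : ℝ) * (ε' * H * N)) ≤
        ((L.card : ℝ) + 1) * (((J + 1 : ℕ) : ℝ) * (ε' * H * N)) :=
      mul_le_mul_of_nonneg_right (by linarith) (by positivity)
    refine h4.trans (le_of_eq ?_)
    push_cast
    rw [← h3]
    ring
  linarith

end

end Pool.Agent.NG
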