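import Pool.Agent.Lib.NG.J
import Pool.Agent.Lib.NG.Box1
import Pool.Agent.Lib.NG.PRG
import Pool.Agent.Lib.NG.NrZ

/-!
# JET (MP_663568_nt), row JN1: a polynomial whose differences are near rationals at many points
(helper95)
-/

set_option autoImplicit false
open Finset Polynomial

namespace Pool.Agent.NG

noncomputable section

open Amb Pool.Agent.Lib.MP_663568_nt Pool.Agent.Lib.MP_663568_nt.Katai
  Pool.Agent.Lib.MP_663568_nt.Nul Pool.Agent.SV Pool.Agent.VQ Pool.Agent.NV

namespace JN1x

/-- the coefficient of `X ^ j` in `(X + 1) ^ i - X ^ i` -/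
def cfx (i j : ℕ) : ℤ := (i.choose j : ℤ) - if i = j then 1 else 0

theorem cfx_zero {i j : ℕ} (h : i ≤ j) : cfx i j = 0 := by
  unfold cfx
  rcases h.lt_or_eq with h | h
  · rw [Nat.choose_eq_zero_of_lt h, if_neg h.ne]
    simp
  · rw [h, if_pos rfl, Nat.choose_self]
    simp

theorem cfx_le {d i j : ℕ} (h : i ≤ d) : |(cfx i j : ℝ)| ≤ 2 ^ d := by
  have h1 : (i.choose j : ℝ) ≤ 2 ^ d := by
    have : i.choose j ≤ 2 ^ d :=
      (Nat.choose_le_two_pow i j).trans (Nat.pow_le_pow_right (by norm_num) h)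
    exact_mod_cast this
  have h0 : (0 : ℝ) ≤ (i.choose j : ℝ) := Nat.cast_nonneg _
  unfold cfx
  push_cast
  by_cases hij : i = j
  · rw [if_pos hij, hij, Nat.choose_self]
    simp
  · rw [if_neg hij, sub_zero, abs_of_nonneg h0]
    exact h1

theorem aux (d q Q : ℕ) (E₁ : ℝ) (hq : 1 ≤ q) (hE₁ : 0 ≤ E₁) : ∀ s : ℕ, ∃ (K : ℕ) (E' : ℝ),
    1 ≤ K ∧ 0 ≤ E' ∧ ∀ (H : ℕ) (p : ℕ → ℝ), 1 ≤ H →
    (∀ j ≤ d, nd ((q : ℝ) * (Q * ∑ i ∈ range (d + 1), p i * (cfx i j : ℝ))) ≤
      E₁ / (H : ℝ) ^ (j + 1)) →
    ∀ i, d - s < i → i ≤ d → nd (((Q * K : ℕ) : ℝ) * p i) ≤ E' / (H : ℝ) ^ i := by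
  intro s
  induction s with
  | zero =>
    refine ⟨1, 0, le_rfl, le_rfl, fun H p _ _ i h1 h2 => ?_⟩
    omega
  | succ s ih =>
    obtain ⟨K, E', hK, hE', h⟩ := ih
    by_cases hs : d ≤ s
    · refine ⟨K, E', hK, hE', fun H p hH hp i h1 h2 => h H p hH hp i (by omega) h2⟩
    · push Not at hs
      obtain ⟨i₀, hi₀⟩ : ∃ i₀, i₀ = d - s := ⟨_, rfl⟩
      have hi1 : 1 ≤ i₀ := by omega
      have hqr : (0 : ℝ) < q := by exact_mod_cast hq
      have hKr : (0 : ℝ) < K := by exact_mod_cast hK
      refine ⟨K * (q * i₀), K * E₁ + (d + 1) * (q * 2 ^ d * E') + q * i₀ * E',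
        Nat.mul_pos hK (Nat.mul_pos hq hi1), by positivity, fun H p hH hp i h1 h2 => ?_⟩
      have hHr : (1 : ℝ) ≤ H := by exact_mod_cast hH
      have hH0 : (0 : ℝ) < H := by linarith
      have hold : ∀ i, i₀ < i → i ≤ d → nd (((Q * K : ℕ) : ℝ) * p i) ≤ E' / (H : ℝ) ^ i :=
        fun i h1 h2 => h H p hH hp i (by omega) h2
      by_cases hi : i₀ < i
      · have e1 : ((Q * (K * (q * i₀)) : ℕ) : ℝ) * p i =
            (((q * i₀ : ℕ) : ℤ) : ℝ) * (((Q * K : ℕ) : ℝ) * p i) := by
          push_cast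
          ring
        rw [e1]
        refine (nd_int_mul_le _ _).trans ?_
        have e2 := hold i hi h2
        have e3 : |(((q * i₀ : ℕ) : ℤ) : ℝ)| = q * i₀ := by
          push_cast
          exact abs_of_nonneg (by positivity)
        rw [e3]
        calc (q : ℝ) * i₀ * nd (((Q * K : ℕ) : ℝ) * p i) ≤ q * i₀ * (E' / (H : ℝ) ^ i) :=
              mul_le_mul_of_nonneg_left e2 (by positivity)
          _ = (q * i₀ * E') / (H : ℝ) ^ i := by ring
          _ ≤ _ := by
            apply div_le_div_of_nonneg_right _ (by positivity)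
            have : 0 ≤ K * E₁ + (d + 1) * (q * 2 ^ d * E') := by positivity
            linarith
      · have hii : i = i₀ := by omega
        subst hii
        have hj := hp (i - 1) (by omega)
        rw [show i - 1 + 1 = i by omega] at hj
        have e1 : ∑ i' ∈ range (d + 1), p i' * (cfx i' (i - 1) : ℝ) = p i * i +
            ∑ i' ∈ (range (d + 1)).filter (fun i' => i < i'), p i' * (cfx i' (i - 1) : ℝ) := by
          have e2 : ∑ i' ∈ range (d + 1), p i' * (cfx i' (i - 1) : ℝ) =
              ∑ i' ∈ (range (d + 1)).filter (fun i' => i ≤ i'), p i' * (cfx i' (i - 1) : ℝ) := by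
            rw [sum_filter]
            refine sum_congr rfl fun i' _ => ?_
            split_ifs with h3
            · rfl
            · rw [cfx_zero (by omega)]
              simp
          have e3 : (range (d + 1)).filter (fun i' => i ≤ i') =
              insert i ((range (d + 1)).filter (fun i' => i < i')) := by
            ext x
            simp only [mem_filter, mem_range, mem_insert]
            omega
          rw [e2, e3, sum_insert (by simp)]
          congr 2
          unfold cfx
          rw [if_neg (by omega)]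
          have e4 : i.choose (i - 1) = i := by
            conv_lhs => rw [show i = (i - 1) + 1 by omega]
            simp
            omega
          rw [e4]
          simp
        have e5 : ((Q * (K * (q * i)) : ℕ) : ℝ) * p i =
            ((K : ℤ) : ℝ) * ((q : ℝ) * (Q * ∑ i' ∈ range (d + 1), p i' * (cfx i' (i - 1) : ℝ))) +
            ∑ i' ∈ (range (d + 1)).filter (fun i' => i < i'),
              ((-((q : ℤ) * cfx i' (i - 1)) : ℤ) : ℝ) * (((Q * K : ℕ) : ℝ) * p i') := by
          have e6 : ∑ i' ∈ (range (d + 1)).filter (fun i' => i < i'),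
              ((-((q : ℤ) * cfx i' (i - 1)) : ℤ) : ℝ) * (((Q * K : ℕ) : ℝ) * p i') =
              -((q : ℝ) * Q * K) * ∑ i' ∈ (range (d + 1)).filter (fun i' => i < i'),
                p i' * (cfx i' (i - 1) : ℝ) := by
            rw [mul_sum]
            refine sum_congr rfl fun i' _ => ?_
            push_cast
            ring
          rw [e6, e1]
          push_cast
          ring
        rw [e5]
        refine (nd_add_le _ _).trans ?_
        have e7 : nd (((K : ℤ) : ℝ) * ((q : ℝ) * (Q * ∑ i' ∈ range (d + 1),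
            p i' * (cfx i' (i - 1) : ℝ)))) ≤ (K * E₁) / (H : ℝ) ^ i := by
          refine (nd_int_mul_le _ _).trans ?_
          have : |((K : ℤ) : ℝ)| = K := by
            rw [Int.cast_natCast, Nat.abs_cast]
          rw [this, mul_div_assoc]
          exact mul_le_mul_of_nonneg_left hj (by positivity)
        have e8 : nd (∑ i' ∈ (range (d + 1)).filter (fun i' => i < i'),
              ((-((q : ℤ) * cfx i' (i - 1)) : ℤ) : ℝ) * (((Q * K : ℕ) : ℝ) * p i')) ≤
            ((d + 1) * (q * 2 ^ d * E')) / (H : ℝ) ^ i := by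
          refine (PRGx.nd_sum _ _).trans ?_
          have e9 : ∀ i' ∈ (range (d + 1)).filter (fun i' => i < i'),
              nd (((-((q : ℤ) * cfx i' (i - 1)) : ℤ) : ℝ) * (((Q * K : ℕ) : ℝ) * p i')) ≤
              (q * 2 ^ d * E') / (H : ℝ) ^ i := by
            intro i' hi'
            rw [mem_filter, mem_range] at hi'
            refine (nd_int_mul_le _ _).trans ?_
            have f1 : |((-((q : ℤ) * cfx i' (i - 1)) : ℤ) : ℝ)| ≤ q * 2 ^ d := by
              push_cast
              rw [abs_neg, abs_mul, Nat.abs_cast]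
              exact mul_le_mul_of_nonneg_left (cfx_le (by omega)) (by positivity)
            have f2 := hold i' hi'.2 (by omega)
            have f3 : E' / (H : ℝ) ^ i' ≤ E' / (H : ℝ) ^ i :=
              div_le_div_of_nonneg_left hE' (by positivity)
                (pow_le_pow_right₀ hHr (by omega))
            calc _ ≤ (q * 2 ^ d : ℝ) * (E' / (H : ℝ) ^ i) :=
                  mul_le_mul f1 (f2.trans f3) (nd_nonneg _) (by positivity)
              _ = (q * 2 ^ d * E') / (H : ℝ) ^ i := by ring
          refine (sum_le_sum e9).trans ?_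
          have f4 : #((range (d + 1)).filter (fun i' => i < i')) ≤ d + 1 :=
            (card_filter_le _ _).trans (by rw [card_range])
          have f5 : (#((range (d + 1)).filter (fun i' => i < i')) : ℝ) ≤ (d : ℝ) + 1 := by
            exact_mod_cast f4
          have f6 : (0 : ℝ) ≤ (q * 2 ^ d * E') / (H : ℝ) ^ i := by positivity
          rw [sum_const, nsmul_eq_mul]
          calc _ ≤ ((d : ℝ) + 1) * ((q * 2 ^ d * E') / (H : ℝ) ^ i) :=
                mul_le_mul_of_nonneg_right f5 f6
            _ = _ := by ring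
        calc _ ≤ (K * E₁) / (H : ℝ) ^ i + ((d + 1) * (q * 2 ^ d * E')) / (H : ℝ) ^ i :=
              add_le_add e7 e8
          _ = (K * E₁ + (d + 1) * (q * 2 ^ d * E')) / (H : ℝ) ^ i := by ring
          _ ≤ _ := by
            apply div_le_div_of_nonneg_right _ (by positivity)
            have : (0 : ℝ) ≤ q * i * E' := by positivity
            linarith

end JN1x

open JN1x

/-- **Row JN1.** -/
theorem jn1 : JN1_stmt := by
  classical
  intro d E c Q hE hc hQ
  obtain ⟨q, B, hq, hB, hrec⟩ := rec0 d (min c 1) (by positivity) (min_le_right _ _)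
  have hBr : (1 : ℝ) ≤ B := by exact_mod_cast hB
  obtain ⟨K, E', hK, hE', haux⟩ := aux d q Q (B * E) hq (by positivity) d
  refine ⟨E' * 2 ^ d, Q * K, max B (⌈E * B⌉₊ + 1), by positivity, Nat.mul_pos hQ hK,
    Dvd.intro _ rfl, fun H p S hH hS hcard hnd => ?_⟩
  have hHB : B ≤ H := (le_max_left _ _).trans hH
  have hHE : ⌈E * B⌉₊ + 1 ≤ H := (le_max_right _ _).trans hH
  have hH1 : 1 ≤ H := hB.trans hHB
  have hHr : (1 : ℝ) ≤ H := by exact_mod_cast hH1
  have hH0 : (0 : ℝ) < H := by linarith
  have hEB : E * B ≤ H := by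
    have h1 : E * B ≤ (⌈E * B⌉₊ : ℝ) := Nat.le_ceil _
    have h2 : (⌈E * B⌉₊ : ℝ) ≤ H := by exact_mod_cast (Nat.le_succ _).trans hHE
    linarith
  obtain ⟨P, hPd⟩ : ∃ P : ℝ[X], P = C (Q : ℝ) * ∑ i ∈ range (d + 1),
      C (p i) * ((X + 1) ^ i - X ^ i) := ⟨_, rfl⟩
  have hPn : P.natDegree ≤ d := by
    rw [hPd]
    refine (natDegree_C_mul_le _ _).trans (natDegree_sum_le_of_forall_le _ _ fun i hi => ?_)
    rw [mem_range] at hi
    refine (natDegree_C_mul_le _ _).trans ((natDegree_sub_le _ _).trans (max_le ?_ ?_))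
    · refine (natDegree_pow_le).trans ?_
      have : (X + 1 : ℝ[X]).natDegree ≤ 1 := by
        have h3 : (X + 1 : ℝ[X]) = X + C 1 := by simp
        rw [h3]
        exact (natDegree_X_add_C (1 : ℝ)).le
      calc i * (X + 1 : ℝ[X]).natDegree ≤ i * 1 := Nat.mul_le_mul_left _ this
        _ ≤ d := by omega
    · rw [natDegree_X_pow]
      omega
  have hPe : ∀ m : ℕ, P.eval (m : ℝ) = (Q : ℝ) * (pol d p ((m : ℤ) + 1) - pol d p m) := by
    intro m
    rw [hPd]
    simp only [eval_mul, eval_C, eval_finsetSum, eval_sub, eval_pow, eval_add, eval_X, eval_one]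
    congr 1
    unfold pol
    rw [← sum_sub_distrib]
    refine sum_congr rfl fun i _ => ?_
    push_cast
    ring
  have hPc : ∀ j, P.coeff j = (Q : ℝ) * ∑ i ∈ range (d + 1), p i * (cfx i j : ℝ) := by
    intro j
    rw [hPd, coeff_C_mul, finsetSum_coeff]
    congr 1
    refine sum_congr rfl fun i _ => ?_
    rw [coeff_C_mul, coeff_sub, coeff_X_add_one_pow, coeff_X_pow]
    congr 1
    unfold cfx
    push_cast
    congr 1
    by_cases hij : i = j
    · rw [if_pos hij.symm, if_pos hij]
    · rw [if_neg (Ne.symm hij), if_neg hij]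
  have h1 := hrec H P (E / H) hHB hPn (by positivity) (by
    rw [div_le_div_iff₀ hH0 (by linarith)]
    linarith) (by
    refine le_trans ?_ (hcard.trans (Nat.cast_le.2 (card_le_card ?_)))
    · exact mul_le_mul_of_nonneg_right (min_le_left _ _) hH0.le
    · intro n hn
      rw [mem_filter]
      refine ⟨hS hn, ?_⟩
      rw [hPe]
      exact hnd n hn)
  have h2 := haux H p hH1 (fun j hj => by
    have h3 := h1 j hj
    rw [hPc] at h3
    refine h3.trans (le_of_eq ?_)
    rw [pow_succ]
    field_simp)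
  refine ⟨p, fun m => rfl, fun j hj1 hj2 => ?_⟩
  have h3 := h2 j (by omega) hj2
  refine h3.trans ?_
  have h4 : (((2 * H : ℕ) : ℝ)) ^ j ≤ 2 ^ d * (H : ℝ) ^ j := by
    push_cast
    rw [mul_pow]
    exact mul_le_mul_of_nonneg_right (pow_le_pow_right₀ (by norm_num) hj2) (by positivity)
  rw [div_le_div_iff₀ (by positivity) (by positivity)]
  calc E' * (((2 * H : ℕ) : ℝ)) ^ j ≤ E' * (2 ^ d * (H : ℝ) ^ j) :=
        mul_le_mul_of_nonneg_left h4 hE'
    _ = E' * 2 ^ d * (H : ℝ) ^ j := by ring

end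

end Pool.Agent.NG
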