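import Mathlib
import Pool.Agent.Lib.NG.J
import Pool.Agent.Lib.NG.PRG

/-!
# Row JN2 (MP_663568_nt, JET): the differences of a polynomial near rationals.  (helper93)
-/

set_option autoImplicit false
open Finset

namespace Pool.Agent.NG

open Pool.Agent.Lib.MP_663568_nt Pool.Agent.Lib.MP_663568_nt.Katai
  Pool.Agent.Lib.MP_663568_nt.Nul

namespace JN2x

theorem pow_diff (n j : ℕ) : (n + 1) ^ j - n ^ j ≤ j * (n + 1) ^ (j - 1) := by
  induction j with
  | zero => simp
  | succ j ih =>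
    rcases Nat.eq_zero_or_pos j with rfl | hj
    · simp
    · have h1 : (n + 1) ^ j ≤ j * (n + 1) ^ (j - 1) + n ^ j := by omega
      have h2 : (n + 1) ^ (j + 1) ≤ (j + 1) * (n + 1) ^ j + n ^ (j + 1) := by
        have h3 : (n + 1) ^ (j + 1) = (n + 1) ^ j + n * (n + 1) ^ j := by ring
        have h4 : n * (n + 1) ^ j ≤ n * (j * (n + 1) ^ (j - 1) + n ^ j) :=
          Nat.mul_le_mul_left _ h1
        have h5 : n * (j * (n + 1) ^ (j - 1)) ≤ j * (n + 1) ^ j := by
          have h6 : (n + 1) ^ j = (n + 1) ^ (j - 1) * (n + 1) := by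
            rw [← pow_succ]; congr 1; omega
          rw [h6]
          have : n * (j * (n + 1) ^ (j - 1)) = j * ((n + 1) ^ (j - 1) * n) := by ring
          rw [this]
          exact Nat.mul_le_mul_left _ (Nat.mul_le_mul_left _ (by omega))
        have h7 : n * n ^ j = n ^ (j + 1) := by ring
        calc (n + 1) ^ (j + 1) = (n + 1) ^ j + n * (n + 1) ^ j := h3
          _ ≤ (n + 1) ^ j + (n * (j * (n + 1) ^ (j - 1)) + n * n ^ j) := by
              have := h4; rw [mul_add] at this; omega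
          _ ≤ (n + 1) ^ j + (j * (n + 1) ^ j + n ^ (j + 1)) := by rw [h7]; omega
          _ = (j + 1) * (n + 1) ^ j + n ^ (j + 1) := by ring
      have h8 : j + 1 - 1 = j := by omega
      rw [h8]
      omega

end JN2x

open JN2x in
/-- **Row JN2.** -/
theorem jn2 : JN2_stmt := by
  intro d E Q hE
  refine ⟨E * ∑ j ∈ range (d + 1), (j : ℝ), by positivity, ?_⟩
  rintro H P hH ⟨c, hc, hn⟩ n hnH
  have hH0 : (0 : ℝ) < H := by exact_mod_cast hH
  have h1 : (Q : ℝ) * (P ((n : ℤ) + 1) - P n) =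
      ∑ j ∈ range (d + 1), (((n + 1) ^ j - n ^ j : ℕ) : ℝ) * ((Q : ℝ) * c j) := by
    rw [hc, hc]
    unfold pol
    rw [← sum_sub_distrib, mul_sum]
    refine sum_congr rfl fun j _ => ?_
    have h2 : n ^ j ≤ (n + 1) ^ j := Nat.pow_le_pow_left (by omega) _
    rw [Nat.cast_sub h2]
    push_cast
    ring
  rw [h1]
  refine (PRGx.nd_sum _ _).trans ?_
  rw [mul_sum, sum_div]
  refine sum_le_sum fun j hj => ?_
  rw [mem_range] at hj
  refine (nd_nat_mul_le _ _).trans ?_
  rcases Nat.eq_zero_or_pos j with rfl | hj0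
  · simp
  · have h3 := hn j hj0 (by omega)
    have h4 : (((n + 1) ^ j - n ^ j : ℕ) : ℝ) ≤ j * (H : ℝ) ^ (j - 1) := by
      have h5 : (n + 1) ^ j - n ^ j ≤ j * H ^ (j - 1) :=
        (pow_diff n j).trans (Nat.mul_le_mul_left _ (Nat.pow_le_pow_left (by omega) _))
      exact_mod_cast h5
    have h6 : E / (((2 * H : ℕ) : ℝ)) ^ j ≤ E / (H : ℝ) ^ j := by
      push_cast
      gcongr
      linarith
    have h7 : (H : ℝ) ^ j = (H : ℝ) ^ (j - 1) * H := by
      rw [← pow_succ]; congr 1; omega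
    calc (((n + 1) ^ j - n ^ j : ℕ) : ℝ) * nd ((Q : ℝ) * c j)
        ≤ (j * (H : ℝ) ^ (j - 1)) * (E / (H : ℝ) ^ j) :=
          mul_le_mul h4 (h3.trans h6) (nd_nonneg _) (by positivity)
      _ = E * j / H := by
          rw [h7]
          field_simp

end Pool.Agent.NG
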