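import Pool.Agent.Lib.NG.J
import Pool.Agent.Lib.NG.NVZ
import Pool.Agent.Lib.VQ.RED
import Pool.Agent.Lib.NV.WNFIN
import Pool.Agent.Lib.NV.NSTEP
import Pool.Agent.Lib.VQ.REG

/-!
# JET (MP_663568_nt), row NVJ2: all blocks  (after NG.free; helper95)
-/

set_option autoImplicit false
open Finset Polynomial

namespace Pool.Agent.NG

noncomputable section

open Amb Pool.Agent.Lib.MP_663568_nt Pool.Agent.Lib.MP_663568_nt.Katai
  Pool.Agent.Lib.MP_663568_nt.Nul Pool.Agent.SV Pool.Agent.VQ Pool.Agent.NV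

namespace NVJ2x

theorem wg_le (l m : ℕ) (f : ℕ → ℂ) {C : ℝ} (hC : 0 ≤ C) (hf : ∀ n, ‖f n‖ ≤ C) : Wg l m f ≤ C := by
  unfold Wg
  refine div_le_of_le_mul₀ (Nat.cast_nonneg _) hC ?_
  refine (norm_sum_le _ _).trans ?_
  calc ∑ h ∈ Icc 1 l, ‖muC (m + h) * f (m + h)‖ ≤ ∑ _h ∈ Icc 1 l, C := by
        refine sum_le_sum fun h _ => ?_
        rw [norm_mul]
        calc _ ≤ 1 * C := mul_le_mul (norm_muC _) (hf _) (norm_nonneg _) zero_le_one
          _ = C := one_mul _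
    _ = C * l := by
        rw [sum_const, Nat.card_Icc, nsmul_eq_mul]
        simp
        ring

/-- Means along the orbit in a class. -/
theorem clsm (hN : NVPQ') (hFNC : FNC_stmt) (hL : LBM_stmt) (U : Type) [Amb U]
    (Gf : ℕ → Subgroup U) (d : ℕ) (hF : Filt Gf d) (F : U → ℂ) (hFn : Fn (Gf 0) (Gf (d + 1)) F)
    (m b : ℕ) (hm : 1 ≤ m) (hb : b < m) (w₁ w₂ : U) (hw₁ : w₁ ∈ Gf 0) (hw₂ : w₂ ∈ Gf 0)
    (A ε : ℝ) (hA : 0 ≤ A) (hε : 0 < ε) :
    ∃ (B : ℝ) (H₀ : ℕ), 0 ≤ B ∧ 1 ≤ H₀ ∧ ∀ H : ℕ, H₀ ≤ H →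
    ∀ xa xb : ℝ, (H : ℝ) ^ B ≤ xa → xa * H ≤ xb →
    ∀ X : ℕ → ℤ → U, (∀ n, PS Gf 0 (X n)) → SlowA X ((H : ℝ) ^ A) →
    ∑ n ∈ Ioc ⌊xa⌋₊ ⌊xb⌋₊, (1 / (n : ℝ)) *
      Wg H n (fun y => if y ≡ b [MOD m] then F (w₁ * X n (y : ℤ) * w₂) else 0) ≤
      ε * (Real.log xb - Real.log xa) := by
  classical
  have hanti : Antitone Gf := antitone_nat_of_succ_le hF.anti
  have hNM : Nrm (Gf 0) (Gf (d + 1)) := by
    intro x hx y hy
    have h := hF.com 0 (d + 1) x hx y hy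
    rw [Nat.zero_add] at h
    have h2 := (Gf (d + 1)).mul_mem h hy
    rwa [inv_mul_cancel_right] at h2
  have hF' : Fn (Gf 0) (Gf (d + 1)) fun x => F (w₁ * x) :=
    (hFNC U (Gf 0) (Gf (d + 1)) F (hF.rat 0) hNM hFn).1 w₁ hw₁
  obtain ⟨B, H₀, hB, hH₀, h⟩ := NSTEPx.unif (range m)
    (fun (r : ℕ) (B : ℝ) (H₀ : ℕ) => ∀ H : ℕ, H₀ ≤ H → ∀ xa xb : ℝ, (H : ℝ) ^ B ≤ xa →
      xa * H ≤ xb → ∀ X : ℕ → ℤ → U, (∀ n, PS Gf 0 (X n)) → SlowA X ((H : ℝ) ^ A) →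
      ∑ n ∈ Ioc ⌊xa⌋₊ ⌊xb⌋₊, (1 / (n : ℝ)) *
        Wg H n (fun y : ℕ => ee (r * y / m) * F (w₁ * X n (y : ℤ))) ≤
        ε * (Real.log xb - Real.log xa))
    (fun b B B' H H' hB hBB hH hHH h K hK xa xb hxa => h K (hHH.trans hK) xa xb
      ((Real.rpow_le_rpow_of_exponent_le (by
        have : 1 ≤ K := hH.trans (hHH.trans hK)
        exact_mod_cast this) hBB).trans hxa))
    (fun r _ => by
      obtain ⟨B, H₀, hB, h⟩ := hN U Gf d hF (fun x => F (w₁ * x)) hF' m r hm A ε hA hε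
      exact ⟨B, max 1 H₀, hB, le_max_left _ _, fun H hH => h H ((le_max_right _ _).trans hH)⟩)
  refine ⟨B, H₀, hB, hH₀, fun H hH xa xb hxa hxb X hX hS => ?_⟩
  have hmr : (0 : ℝ) < m := by exact_mod_cast hm
  have hmc : (m : ℂ) ≠ 0 := by exact_mod_cast hmr.ne'
  obtain ⟨Y, hY⟩ : ∃ Y : ℕ → ℤ → U, Y = fun n y => X n y * w₂ := ⟨_, rfl⟩
  have hYP : ∀ n, PS Gf 0 (Y n) := by
    intro n
    rw [hY]
    exact (hL U ℤ Gf d hF).1 0 _ _ (hX n) ((hL U ℤ Gf d hF).2.2.2.1 0 w₂ hw₂)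
  have hYS : SlowA Y ((H : ℝ) ^ A) := by
    rw [hY]
    exact SPLITx.slow_map (fun (g : ℤ → U) y => g y * w₂) hS
  have key : ∀ n, Wg H n (fun y : ℕ => if y ≡ b [MOD m] then F (w₁ * X n (y : ℤ) * w₂) else 0) ≤
      ∑ r ∈ range m, (1 / m : ℝ) * Wg H n (fun y : ℕ => ee (r * y / m) * F (w₁ * Y n (y : ℤ))) := by
    intro n
    have e1 : (fun y : ℕ => if y ≡ b [MOD m] then F (w₁ * X n (y : ℤ) * w₂) else 0) =
        fun y : ℕ => ∑ r ∈ range m, (((1 / m : ℝ) : ℂ) * ee (-(r * b / m))) *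
          (ee (r * y / m) * F (w₁ * Y n (y : ℤ))) := by
      funext y
      have e2 : ∀ r ∈ range m, (((1 / m : ℝ) : ℂ) * ee (-(r * b / m))) *
          (ee (r * y / m) * F (w₁ * Y n (y : ℤ))) =
          ((1 / m : ℝ) : ℂ) * F (w₁ * Y n (y : ℤ)) *
            ee ((r : ℝ) * (((y : ℝ) - b) / m)) := by
        intro r _
        have e3 : (r : ℝ) * (((y : ℝ) - b) / m) = -(r * b / m) + r * y / m := by ring
        rw [e3, ee_add]
        ring
      rw [sum_congr rfl e2, ← mul_sum, REDx.orth m hm y b hb]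
      have e4 : (y ≡ b [MOD m]) ↔ y % m = b := by
        unfold Nat.ModEq
        rw [Nat.mod_eq_of_lt hb]
      by_cases h1 : y % m = b
      · rw [if_pos (e4.2 h1), if_pos h1, hY]
        push_cast
        rw [mul_assoc w₁]
        field_simp
      · rw [if_neg (fun h2 => h1 (e4.1 h2)), if_neg h1, mul_zero]
    rw [e1]
    unfold Wg
    have e5 : ∑ h ∈ Icc 1 H, muC (n + h) * ∑ r ∈ range m, (((1 / m : ℝ) : ℂ) *
        ee (-(r * b / m))) * (ee (r * ((n + h : ℕ) : ℝ) / m) * F (w₁ * Y n ((n + h : ℕ) : ℤ))) =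
        ∑ r ∈ range m, (((1 / m : ℝ) : ℂ) * ee (-(r * b / m))) *
          ∑ h ∈ Icc 1 H, muC (n + h) * (ee (r * ((n + h : ℕ) : ℝ) / m) *
            F (w₁ * Y n ((n + h : ℕ) : ℤ))) := by
      simp_rw [mul_sum]
      rw [sum_comm]
      refine sum_congr rfl fun r _ => sum_congr rfl fun h _ => ?_
      ring
    rw [e5]
    have e6 : ∀ r ∈ range m, (1 / m : ℝ) * (‖∑ h ∈ Icc 1 H, muC (n + h) *
        (ee (r * ((n + h : ℕ) : ℝ) / m) * F (w₁ * Y n ((n + h : ℕ) : ℤ)))‖ / H) =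
        ((1 / m : ℝ) * ‖∑ h ∈ Icc 1 H, muC (n + h) *
        (ee (r * ((n + h : ℕ) : ℝ) / m) * F (w₁ * Y n ((n + h : ℕ) : ℤ)))‖) / H :=
      fun r _ => by ring
    rw [sum_congr rfl e6, ← sum_div]
    refine div_le_div_of_nonneg_right ?_ (Nat.cast_nonneg _)
    refine (norm_sum_le _ _).trans (sum_le_sum fun r _ => ?_)
    rw [norm_mul, norm_mul, norm_ee, mul_one, Complex.norm_real, Real.norm_eq_abs,
      abs_of_pos (by positivity)]
  calc ∑ n ∈ Ioc ⌊xa⌋₊ ⌊xb⌋₊, (1 / (n : ℝ)) *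
      Wg H n (fun y => if y ≡ b [MOD m] then F (w₁ * X n (y : ℤ) * w₂) else 0)
      ≤ ∑ n ∈ Ioc ⌊xa⌋₊ ⌊xb⌋₊, (1 / (n : ℝ)) * ∑ r ∈ range m, (1 / m : ℝ) *
          Wg H n (fun y : ℕ => ee (r * y / m) * F (w₁ * Y n (y : ℤ))) :=
        sum_le_sum fun n _ => mul_le_mul_of_nonneg_left (key n) (by positivity)
    _ = ∑ r ∈ range m, (1 / m : ℝ) * ∑ n ∈ Ioc ⌊xa⌋₊ ⌊xb⌋₊, (1 / (n : ℝ)) *
          Wg H n (fun y : ℕ => ee (r * y / m) * F (w₁ * Y n (y : ℤ))) := by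
        simp_rw [mul_sum]
        rw [sum_comm]
        refine sum_congr rfl fun r _ => sum_congr rfl fun n _ => ?_
        ring
    _ ≤ ∑ r ∈ range m, (1 / m : ℝ) * (ε * (Real.log xb - Real.log xa)) :=
        sum_le_sum fun r hr => mul_le_mul_of_nonneg_left (h r hr H hH xa xb hxa hxb Y hYP hYS)
          (by positivity)
    _ = ε * (Real.log xb - Real.log xa) := by
        rw [sum_const, card_range, nsmul_eq_mul]
        field_simp

/-- A block with a large sum. -/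
theorem block (W : ℕ → ℝ) (hW : ∀ n, 0 ≤ W n) (m₀ L l : ℕ) (hl : 1 ≤ l) (a S : ℝ) (ha : 0 ≤ a)
    (h1 : S ≤ ∑ j ∈ range L, W (m₀ + j)) (h2 : a * (L + l) < S) :
    ∃ N, m₀ ≤ N ∧ N < m₀ + L ∧ a * l ≤ ∑ n ∈ Ico N (N + l), W n := by
  by_contra hcon
  push Not at hcon
  have hS : 0 < S := lt_of_le_of_lt (by positivity) h2
  have h3 : ∀ K : ℕ, ∑ j ∈ range (K * l), W (m₀ + j) =
      ∑ k ∈ range K, ∑ n ∈ Ico (m₀ + k * l) (m₀ + k * l + l), W n := by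
    intro K
    induction K with
    | zero => simp
    | succ K ih =>
      rw [sum_range_succ, ← ih, Nat.succ_mul, sum_range_add, sum_Ico_eq_sum_range]
      congr 1
      rw [Nat.add_sub_cancel_left]
      refine sum_congr rfl fun j _ => ?_
      rw [← add_assoc]
  obtain ⟨K, hK⟩ : ∃ K, K = (L + l - 1) / l := ⟨_, rfl⟩
  have hK1 : L ≤ K * l := by
    have e1 := Nat.div_add_mod (L + l - 1) l
    have e2 := Nat.mod_lt (L + l - 1) (show 0 < l by omega)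
    rw [← hK] at e1
    have e3 : l * K = K * l := mul_comm _ _
    omega
  have hK2 : K * l ≤ L + l - 1 := by
    rw [hK]
    exact Nat.div_mul_le_self _ _
  have h4 : ∑ j ∈ range L, W (m₀ + j) ≤ ∑ j ∈ range (K * l), W (m₀ + j) :=
    sum_le_sum_of_subset_of_nonneg (range_mono hK1) fun j _ _ => hW _
  have h5 : ∑ k ∈ range K, ∑ n ∈ Ico (m₀ + k * l) (m₀ + k * l + l), W n ≤
      ∑ _k ∈ range K, a * l := by
    refine sum_le_sum fun k hk => ?_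
    rw [mem_range] at hk
    refine (hcon (m₀ + k * l) (by omega) ?_).le
    have e1 : (k + 1) * l ≤ K * l := Nat.mul_le_mul_right _ hk
    have e2 : (k + 1) * l = k * l + l := Nat.succ_mul _ _
    omega
  rw [h3] at h4
  rw [sum_const, card_range, nsmul_eq_mul] at h5
  have h6 : (K : ℝ) * l ≤ L + l := by
    have : K * l ≤ L + l := by omega
    exact_mod_cast this
  have h7 : (K : ℝ) * (a * l) = a * (K * l) := by ring
  have h8 : a * ((K : ℝ) * l) ≤ a * (L + l) := mul_le_mul_of_nonneg_left h6 ha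
  linarith

end NVJ2x

open NVJ2x

/-- **Row NVJ2.** -/
theorem nvj2 : NVJ2_stmt := by
  classical
  intro hJ hN hFNC hL U _ Gf d hF F hFn A ε₀ hA hε₀
  obtain ⟨C₀, hC₀⟩ := hFn.bd
  obtain ⟨C, hCd⟩ : ∃ C : ℝ, C = max C₀ 1 := ⟨_, rfl⟩
  have hC1 : 1 ≤ C := by rw [hCd]; exact le_max_right _ _
  have hC0 : 0 < C := by linarith
  have hFC : ∀ x ∈ Gf 0, ‖F x‖ ≤ C := fun x hx => (hC₀ x hx).trans (by
    rw [hCd]; exact le_max_left _ _)
  obtain ⟨e, hed⟩ : ∃ e : ℝ, e = min (ε₀ / C) 1 := ⟨_, rfl⟩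
  have he : 0 < e := by rw [hed]; exact lt_min (by positivity) one_pos
  have he1 : e ≤ 1 := by rw [hed]; exact min_le_right _ _
  have heε : e * C ≤ ε₀ := by
    have : e ≤ ε₀ / C := by rw [hed]; exact min_le_left _ _
    rwa [le_div_iff₀ hC0] at this
  obtain ⟨θ, c, q, H₁, L, hθ, hθ1, hc, hc1, hLw, hblk⟩ := hJ U Gf d hF F hFn (e ^ 3 / 2000)
    (by positivity)
  obtain ⟨B₁, H₃, hB₁, hreg⟩ := reg A (e / 2) (c * θ / 16) hA (by positivity) (by linarith)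
    (by positivity)
  obtain ⟨T, hT⟩ : ∃ T : ℝ, T = L.length * q * q + 1 := ⟨_, rfl⟩
  have hT0 : 0 < T := by rw [hT]; positivity
  obtain ⟨ε₃, hε₃⟩ : ∃ ε₃ : ℝ, ε₃ = c * θ / 16 * (e / 2) / (64 * T) := ⟨_, rfl⟩
  have hε₃0 : 0 < ε₃ := by rw [hε₃]; positivity
  obtain ⟨B₂, H₄, hB₂, hH₄, hcl⟩ := NSTEPx.unif
    ((univ : Finset (Fin L.length)) ×ˢ ((Icc 1 q) ×ˢ (range q)))
    (fun (i : Fin L.length × ℕ × ℕ) (B : ℝ) (H₀ : ℕ) => i.2.2 < i.2.1 → ∀ H : ℕ, H₀ ≤ H →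
      ∀ xa xb : ℝ, (H : ℝ) ^ B ≤ xa → xa * H ≤ xb →
      ∀ X : ℕ → ℤ → U, (∀ n, PS Gf 0 (X n)) → SlowA X ((H : ℝ) ^ (A + 1)) →
      ∑ n ∈ Ioc ⌊xa⌋₊ ⌊xb⌋₊, (1 / (n : ℝ)) *
        Wg H n (fun y => if y ≡ i.2.2 [MOD i.2.1] then
          F ((L.get i.1).1 * X n (y : ℤ) * (L.get i.1).2) else 0) ≤
        ε₃ * (Real.log xb - Real.log xa))
    (fun b B B' H H' hB hBB hH hHH h hb K hK xa xb hxa => h hb K (hHH.trans hK) xa xb
      ((Real.rpow_le_rpow_of_exponent_le (by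
        have : 1 ≤ K := hH.trans (hHH.trans hK)
        exact_mod_cast this) hBB).trans hxa))
    (fun i hi => by
      rw [mem_product, mem_product, mem_Icc] at hi
      by_cases hb : i.2.2 < i.2.1
      · obtain ⟨B, H₀, hB, hH₀, h⟩ := clsm hN hFNC hL U Gf d hF F hFn i.2.1 i.2.2 hi.2.1.1 hb
          (L.get i.1).1 (L.get i.1).2 (hLw _ (List.get_mem _ _)).1 (hLw _ (List.get_mem _ _)).2
          (A + 1) ε₃ (by linarith) hε₃0
        exact ⟨B, H₀, hB, hH₀, fun _ => h⟩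
      · exact ⟨0, 1, le_rfl, le_rfl, fun hb' => absurd hb' hb⟩)
  obtain ⟨H₅, hH₅2, hH₅⟩ := WFINx.large A c B₂ 1 H₄ hA hc
  obtain ⟨H₆, hH₆⟩ := exists_nat_ge (max (64 / e) (8 * C / (c * θ)))
  refine ⟨2 * (B₁ + B₂ + 2), max (max H₁ H₃) (max (max H₅ H₆) 16), by positivity, ?_⟩
  intro H hH xa xb hxa hxb X hX hXs R hR
  have hHa : H₁ ≤ H := by omega
  have hHb : H₃ ≤ H := by omega
  have hHc : H₅ ≤ H := by omega
  have hHd : H₆ ≤ H := by omega
  have hHe : 16 ≤ H := by omega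
  obtain ⟨f1, f2, -, -⟩ := hH₅ H hHc
  have hH16 : (16 : ℝ) ≤ H := by exact_mod_cast hHe
  have hH0 : (0 : ℝ) < H := by linarith
  have hH1 : (1 : ℝ) ≤ H := by linarith
  have hHe' : 64 / e ≤ H := (le_max_left _ _).trans (hH₆.trans (by exact_mod_cast hHd))
  have hHc' : 8 * C / (c * θ) ≤ H := (le_max_right _ _).trans (hH₆.trans (by exact_mod_cast hHd))
  rw [div_le_iff₀ he] at hHe'
  rw [div_le_iff₀ (by positivity)] at hHc'
  -- sizes
  have hpow : ∀ B : ℝ, 0 ≤ B → B ≤ B₁ + B₂ → ((4 * H : ℕ) : ℝ) ^ B * 16 ≤ xa := by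
    intro B hB0 hB
    have g1 : ((4 * H : ℕ) : ℝ) ≤ (H : ℝ) ^ (2 : ℝ) := by
      push_cast
      rw [Real.rpow_two]
      nlinarith
    calc ((4 * H : ℕ) : ℝ) ^ B * 16 ≤ ((H : ℝ) ^ (2 : ℝ)) ^ B * H :=
          mul_le_mul (Real.rpow_le_rpow (Nat.cast_nonneg _) g1 hB0) hH16 (by norm_num)
            (by positivity)
      _ = (H : ℝ) ^ (2 * B + 1) := by
          rw [← Real.rpow_mul hH0.le, Real.rpow_add hH0, Real.rpow_one]
      _ ≤ (H : ℝ) ^ (2 * (B₁ + B₂ + 2)) := Real.rpow_le_rpow_of_exponent_le hH1 (by linarith)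
      _ ≤ xa := hxa
  have hxa16 : (16 : ℝ) ≤ xa := by
    have := hpow 0 le_rfl (by positivity)
    rw [Real.rpow_zero, one_mul] at this
    exact this
  have hxa0 : 0 < xa := by linarith
  have hxab : xa ≤ xb := by nlinarith
  have hxb0 : 0 < xb := by linarith
  obtain ⟨xc, hxc⟩ : ∃ xc, xc = xa / 4 := ⟨_, rfl⟩
  have hxc0 : 0 < xc := by rw [hxc]; positivity
  obtain ⟨Λ, hΛ⟩ : ∃ Λ, Λ = Real.log xb - Real.log xa := ⟨_, rfl⟩
  have hlogH : Real.log H ≤ Λ := by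
    rw [hΛ, ← Real.log_div hxb0.ne' hxa0.ne']
    refine Real.log_le_log hH0 ?_
    rw [le_div_iff₀ hxa0]
    linarith
  have hlog4 : Real.log 4 ≤ Λ := (Real.log_le_log (by norm_num) (by linarith)).trans hlogH
  have hlog4' : 0 < Real.log 4 := Real.log_pos (by norm_num)
  have hΛ0 : 0 < Λ := hlog4'.trans_le hlog4
  have hΛ' : Real.log xb - Real.log xc = Λ + Real.log 4 := by
    rw [hxc, Real.log_div hxa0.ne' (by norm_num), hΛ]
    ring
  -- values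
  have hXv : ∀ n (m : ℤ), X n m ∈ Gf 0 := fun n m =>
    (((hL U ℤ Gf d hF).2.2.2.2.2.1 0 (X n)).1 (hX n)).1 m
  have hRv : ∀ n (m : ℤ), R n m ∈ Gf 0 := fun n m => by
    have h1 := (hR n).1 [] m
    have h2 : R n m ∈ cut (Gf 0) Gf 0 := h1
    exact h2.1
  obtain ⟨W, hWd⟩ : ∃ W : ℕ → ℝ, W = fun n => Wg H n (fun m : ℕ => F (X n (m : ℤ) *
      R n ((m : ℤ) - n))) := ⟨_, rfl⟩
  have hW0 : ∀ n, 0 ≤ W n := fun n => by rw [hWd]; exact SPLITx.wg_nonneg _ _ _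
  have hWC : ∀ n, W n ≤ C := fun n => by
    rw [hWd]
    exact wg_le _ _ _ hC0.le fun m => hFC _ ((Gf 0).mul_mem (hXv _ _) (hRv _ _))
  -- the functions of the classes
  obtain ⟨V, hVd⟩ : ∃ V : Fin L.length → ℕ → ℕ → ℕ → ℝ, V = fun i m b n =>
      Wg ⌊c * (H : ℝ)⌋₊ n (fun y => if y ≡ b [MOD m] then
        F ((L.get i).1 * X n (y : ℤ) * (L.get i).2) else 0) := ⟨_, rfl⟩
  have hV0 : ∀ i m b n, 0 ≤ V i m b n := fun i m b n => by rw [hVd]; exact SPLITx.wg_nonneg _ _ _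
  have hVC : ∀ i m b n, V i m b n ≤ C := fun i m b n => by
    rw [hVd]
    refine wg_le _ _ _ hC0.le fun y => ?_
    have hw := hLw _ (List.get_mem L i)
    split_ifs with h
    · exact hFC _ ((Gf 0).mul_mem ((Gf 0).mul_mem hw.1 (hXv _ _)) hw.2)
    · rw [norm_zero]
      exact hC0.le
  obtain ⟨I, hI⟩ : ∃ I : Finset (Fin L.length × ℕ × ℕ),
      I = ((univ : Finset (Fin L.length)) ×ˢ ((Icc 1 q) ×ˢ (range q))).filter
        fun i => i.2.2 < i.2.1 := ⟨_, rfl⟩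
  obtain ⟨G, hG⟩ : ∃ G : ℕ → ℝ, G = fun n => ∑ i ∈ I, V i.1 i.2.1 i.2.2 n := ⟨_, rfl⟩
  have hG0 : ∀ n, 0 ≤ G n := fun n => by
    rw [hG]
    exact sum_nonneg fun i _ => hV0 _ _ _ _
  show ∑ n ∈ Ioc ⌊xa⌋₊ ⌊xb⌋₊, (1 / (n : ℝ)) * Wg H n (fun m : ℕ => F (X n (m : ℤ) *
      R n ((m : ℤ) - n))) ≤ ε₀ * (Real.log xb - Real.log xa)
  rw [← hΛ]
  by_contra hcon
  rw [not_le] at hcon
  have hcon' : ε₀ * Λ < ∑ n ∈ Ioc ⌊xa⌋₊ ⌊xb⌋₊, (1 / (n : ℝ)) * W n := by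
    rw [hWd]
    exact hcon
  have hbig : e / 2 * (Real.log xb - Real.log xc) <
      ∑ n ∈ Ioc ⌊xc⌋₊ ⌊xb⌋₊, (1 / (n : ℝ)) * (W n / C) := by
    have g1 : ∑ n ∈ Ioc ⌊xa⌋₊ ⌊xb⌋₊, (1 / (n : ℝ)) * (W n / C) ≤
        ∑ n ∈ Ioc ⌊xc⌋₊ ⌊xb⌋₊, (1 / (n : ℝ)) * (W n / C) := by
      refine sum_le_sum_of_subset_of_nonneg (Ioc_subset_Ioc_left (Nat.floor_mono ?_)) ?_
      · rw [hxc]
        linarith
      · intro n _ _
        have := hW0 n
        positivity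
    have g2 : ∑ n ∈ Ioc ⌊xa⌋₊ ⌊xb⌋₊, (1 / (n : ℝ)) * (W n / C) =
        (∑ n ∈ Ioc ⌊xa⌋₊ ⌊xb⌋₊, (1 / (n : ℝ)) * W n) / C := by
      rw [sum_div]
      exact sum_congr rfl fun n _ => by ring
    have g3 : e * Λ < (∑ n ∈ Ioc ⌊xa⌋₊ ⌊xb⌋₊, (1 / (n : ℝ)) * W n) / C := by
      rw [lt_div_iff₀ hC0]
      refine lt_of_le_of_lt ?_ hcon'
      calc e * Λ * C = e * C * Λ := by ring
        _ ≤ ε₀ * Λ := mul_le_mul_of_nonneg_right heε hΛ0.le
    rw [hΛ']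
    have g4 : e / 2 * (Λ + Real.log 4) ≤ e * Λ := by nlinarith
    linarith
  have hfin := hreg (4 * H) (by omega) xc xb (by
      have := hpow B₁ hB₁ (by linarith)
      rw [hxc]
      linarith [Real.rpow_nonneg (Nat.cast_nonneg (α := ℝ) (4 * H)) B₁]) (by
      rw [hxc]
      push_cast
      linarith) {n | X (n + 1) ≠ X n} (fun j => by
      have h1 := hXs j
      have h2 : (H : ℝ) ^ A ≤ ((4 * H : ℕ) : ℝ) ^ A :=
        Real.rpow_le_rpow hH0.le (by push_cast; linarith) hA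
      refine le_trans (le_of_eq ?_) (h1.trans h2)
      norm_cast)
    (fun n => W n / C) G (fun n => div_nonneg (hW0 n) hC0.le)
    (fun n => by rw [div_le_one hC0]; exact hWC n) hG0 ?_ hbig
  · -- the sum of the right side
    have hsum : ∑ x ∈ Ioc ⌊xc / 2⌋₊ ⌊2 * xb⌋₊, (1 / (x : ℝ)) * G x =
        ∑ i ∈ I, ∑ x ∈ Ioc ⌊xc / 2⌋₊ ⌊2 * xb⌋₊, (1 / (x : ℝ)) * V i.1 i.2.1 i.2.2 x := by
      rw [hG]
      simp only [mul_sum]
      rw [sum_comm]
    have hb : ∑ i ∈ I, ∑ x ∈ Ioc ⌊xc / 2⌋₊ ⌊2 * xb⌋₊, (1 / (x : ℝ)) * V i.1 i.2.1 i.2.2 x ≤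
        ∑ _i ∈ I, ε₃ * (Real.log (2 * xb) - Real.log (xc / 2)) := by
      refine sum_le_sum fun i hi => ?_
      rw [hI, mem_filter] at hi
      rw [hVd]
      have hcH : (⌊c * (H : ℝ)⌋₊ : ℝ) ≤ H := by
        refine (Nat.floor_le (by positivity)).trans ?_
        nlinarith
      refine hcl i hi.1 hi.2 ⌊c * (H : ℝ)⌋₊ f1 (xc / 2) (2 * xb) ?_ ?_ X hX (fun j => ?_)
      · have g1 := hpow B₂ hB₂ (by linarith)
        have g2 : (⌊c * (H : ℝ)⌋₊ : ℝ) ^ B₂ ≤ ((4 * H : ℕ) : ℝ) ^ B₂ :=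
          Real.rpow_le_rpow (Nat.cast_nonneg _) (by push_cast; linarith) hB₂
        rw [hxc]
        linarith [Real.rpow_nonneg (Nat.cast_nonneg (α := ℝ) (4 * H)) B₂]
      · have g1 : xc / 2 * (⌊c * (H : ℝ)⌋₊ : ℝ) ≤ xc / 2 * H :=
          mul_le_mul_of_nonneg_left hcH (by positivity)
        rw [hxc] at g1 ⊢
        linarith
      · exact (hXs j).trans f2
    have hcard : (#I : ℝ) ≤ T := by
      have g1 : #I ≤ L.length * (q * q) := by
        rw [hI]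
        refine (card_filter_le _ _).trans (le_of_eq ?_)
        rw [card_product, card_product, card_univ, Fintype.card_fin, Nat.card_Icc, card_range]
        simp
      have g2 : (#I : ℝ) ≤ L.length * (q * q) := by exact_mod_cast g1
      rw [hT]
      linarith
    rw [hsum] at hfin
    have hfin' := hfin.trans hb
    rw [sum_const, nsmul_eq_mul] at hfin'
    have e5 : Real.log (2 * xb) - Real.log (xc / 2) = Λ + 2 * Real.log 4 := by
      have e6 : Real.log 4 = 2 * Real.log 2 := by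
        rw [show (4 : ℝ) = 2 ^ 2 by norm_num, Real.log_pow]
        push_cast
        ring
      rw [Real.log_mul (by norm_num) hxb0.ne', Real.log_div hxc0.ne' (by norm_num)]
      linarith
    rw [e5, hΛ'] at hfin'
    have e7 : (#I : ℝ) * (ε₃ * (Λ + 2 * Real.log 4)) ≤ T * (ε₃ * (Λ + 2 * Real.log 4)) :=
      mul_le_mul_of_nonneg_right hcard (by positivity)
    have e8 : T * (ε₃ * (Λ + 2 * Real.log 4)) =
        c * θ / 16 * (e / 2) / 64 * (Λ + 2 * Real.log 4) := by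
      rw [hε₃]
      field_simp
    have e9 : 0 < c * θ / 16 * (e / 2) := by positivity
    nlinarith [mul_pos e9 hΛ0, mul_pos e9 hlog4']
  · -- one region
    intro m₀ hm₀ hbad hcount
    obtain ⟨Lg, hLg⟩ : ∃ Lg, Lg = ⌊e / 2 / 16 * ((4 * H : ℕ) : ℝ)⌋₊ := ⟨_, rfl⟩
    rw [← hLg] at hcount
    have hch : ∀ n, m₀ ≤ n → n ≤ m₀ + 2 * (4 * H) → X (n + 1) = X n := by
      intro n h1 h2
      have := hbad n h1 h2
      simpa using this
    have hcst := WNFINx.const_of_no_change hch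
    have hLg1 : (Lg : ℝ) ≤ e / 8 * H := by
      rw [hLg]
      refine (Nat.floor_le (by positivity)).trans (le_of_eq ?_)
      push_cast
      ring
    have hLg2 : e / 16 * H ≤ Lg := by
      have g1 := Nat.lt_floor_add_one (e / 2 / 16 * ((4 * H : ℕ) : ℝ))
      rw [← hLg] at g1
      push_cast at g1
      nlinarith
    have hLgH : Lg ≤ H := by
      have : (Lg : ℝ) ≤ H := hLg1.trans (by nlinarith)
      exact_mod_cast this
    obtain ⟨l, hl⟩ : ∃ l, l = ⌊θ * (H : ℝ)⌋₊ := ⟨_, rfl⟩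
    have hl1 : (l : ℝ) ≤ H := by
      rw [hl]
      refine (Nat.floor_le (by positivity)).trans ?_
      nlinarith
    have hl2 : θ / 2 * H ≤ l := by
      have g1 := Nat.lt_floor_add_one (θ * (H : ℝ))
      rw [← hl] at g1
      have g2 : 8 * C ≤ θ * H := by nlinarith [mul_pos hθ hH0]
      nlinarith
    have hl3 : 1 ≤ l := by
      have g2 : 8 * C ≤ θ * H := by nlinarith [mul_pos hθ hH0]
      have : (1 : ℝ) ≤ l := by nlinarith
      exact_mod_cast this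
    have hlH : l ≤ H := by exact_mod_cast hl1
    have hS1 : e ^ 2 / 64 * C * Lg ≤ ∑ j ∈ range Lg, W (m₀ + j) := by
      have g1 : (#((range Lg).filter fun j => e / 2 / 2 ≤ W (m₀ + j) / C) : ℝ) *
          (e / 4 * C) ≤ ∑ j ∈ range Lg, W (m₀ + j) := by
        rw [← nsmul_eq_mul]
        refine le_trans ?_ (sum_le_sum_of_subset_of_nonneg (filter_subset
          (fun j => e / 2 / 2 ≤ W (m₀ + j) / C) (range Lg)) fun j _ _ => hW0 _)
        refine card_nsmul_le_sum _ _ _ fun j hj => ?_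
        have g2 := (mem_filter.1 hj).2
        rw [le_div_iff₀ hC0] at g2
        linarith
      have g3 : e / 2 / 8 * (Lg : ℝ) * (e / 4 * C) ≤
          (#((range Lg).filter fun j => e / 2 / 2 ≤ W (m₀ + j) / C) : ℝ) * (e / 4 * C) :=
        mul_le_mul_of_nonneg_right hcount (by positivity)
      calc e ^ 2 / 64 * C * Lg = e / 2 / 8 * (Lg : ℝ) * (e / 4 * C) := by ring
        _ ≤ _ := g3.trans g1
    obtain ⟨N, hN1, hN2, hN3⟩ := block W hW0 m₀ Lg l hl3 (e ^ 3 / 2000) (e ^ 2 / 64 * C * Lg)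
      (by positivity) hS1 (by
        have g1 : (Lg : ℝ) + l ≤ 17 / e * Lg := by
          have g2 : (l : ℝ) ≤ 16 / e * Lg := by
            rw [div_mul_eq_mul_div, le_div_iff₀ he]
            nlinarith
          have g3 : (1 : ℝ) ≤ 1 / e := by rw [le_div_iff₀ he]; linarith
          have g4 : (Lg : ℝ) ≤ 1 / e * Lg := by
            have : (0 : ℝ) ≤ Lg := Nat.cast_nonneg _
            nlinarith
          have g5 : 17 / e * (Lg : ℝ) = 1 / e * Lg + 16 / e * Lg := by ring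
          linarith
        have g6 : e ^ 3 / 2000 * ((Lg : ℝ) + l) ≤ e ^ 3 / 2000 * (17 / e * Lg) :=
          mul_le_mul_of_nonneg_left g1 (by positivity)
        have g7 : e ^ 3 / 2000 * (17 / e * Lg) = 17 / 2000 * (e ^ 2 * Lg) := by
          field_simp
        have hLg0 : (0 : ℝ) < Lg := lt_of_lt_of_le (by positivity) hLg2
        have g8 : 0 < e ^ 2 * (Lg : ℝ) := by positivity
        have g9 : e ^ 2 * (Lg : ℝ) ≤ C * (e ^ 2 * Lg) := by nlinarith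
        have g10 : e ^ 2 / 64 * C * (Lg : ℝ) = 1 / 64 * (C * (e ^ 2 * Lg)) := by ring
        rw [g10]
        linarith)
    have hXN : ∀ n, N ≤ n → n < N + 2 * H → X n = X m₀ := by
      intro n h1 h2
      have := hcst (n - m₀) (by omega)
      rwa [show m₀ + (n - m₀) = n by omega] at this
    obtain ⟨w, hw, m, b, hm1, hmq, hbm, hw2⟩ := hblk H N (X m₀) R hHa (hX _) hR (by
      rw [← hl]
      refine hN3.trans (sum_le_sum fun n hn => ?_)
      rw [mem_Ico] at hn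
      rw [hWd]
      simp only
      rw [hXN n hn.1 (by omega)])
    obtain ⟨i, hi, hiw⟩ := List.getElem_of_mem hw
    have hV : ∀ n, N ≤ n → n < N + 2 * H → V ⟨i, hi⟩ m b n = Wg ⌊c * (H : ℝ)⌋₊ n
        (fun y => if y ≡ b [MOD m] then F (w.1 * X m₀ (y : ℤ) * w.2) else 0) := by
      intro n h1 h2
      rw [hVd]
      simp only
      rw [hXN n h1 h2]
      have h3 : L.get ⟨i, hi⟩ = w := hiw
      rw [h3]
    have hVG : ∀ n, V ⟨i, hi⟩ m b n ≤ G n := by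
      intro n
      rw [hG]
      have hmem : ((⟨i, hi⟩, m, b) : Fin L.length × ℕ × ℕ) ∈ I := by
        rw [hI, mem_filter, mem_product, mem_product, mem_Icc, mem_range]
        exact ⟨⟨mem_univ _, ⟨hm1, hmq⟩, lt_of_lt_of_le hbm hmq⟩, hbm⟩
      exact single_le_sum (f := fun i : Fin L.length × ℕ × ℕ => V i.1 i.2.1 i.2.2 n)
        (fun i _ => hV0 _ _ _ _) hmem
    have h5 : c * l ≤ ∑ n ∈ Ico N (N + 2 * H), V ⟨i, hi⟩ m b n := by
      rw [hl]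
      refine hw2.trans (le_of_eq (sum_congr rfl fun n hn => ?_))
      rw [mem_Ico] at hn
      rw [hV n hn.1 hn.2]
    have h6 : ∑ n ∈ Ico N (N + 2 * H), V ⟨i, hi⟩ m b n ≤
        C + ∑ x ∈ Ioc m₀ (m₀ + 4 * H), G x := by
      have h7 : Ico N (N + 2 * H) ⊆ insert m₀ (Ioc m₀ (m₀ + 4 * H)) := by
        intro x hx
        rw [mem_Ico] at hx
        rw [mem_insert, mem_Ioc]
        omega
      refine (sum_le_sum_of_subset_of_nonneg h7 fun x _ _ => hV0 _ _ _ _).trans ?_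
      rw [sum_insert (by simp)]
      exact add_le_add (hVC _ _ _ _) (sum_le_sum fun x _ => hVG x)
    have h8 : c * θ / 16 * ((4 * H : ℕ) : ℝ) ≤ c * l - C := by
      push_cast
      have h9 : c * (θ / 2 * H) ≤ c * l := mul_le_mul_of_nonneg_left hl2 hc.le
      nlinarith
    linarith

end

end Pool.Agent.NG
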