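import Mathlib
import Pool.Agent.Lib.NG.J

/-!
# JET (MP_663568_nt), row NVJU: from the maps `R` to the maps `P`

(helper87)
-/

set_option autoImplicit false
open Finset Topology

namespace Pool.Agent.NG

noncomputable section

/-- Row NVJU. -/
theorem nvju : NVJU_stmt := by
  intro hN hM hL U _ Gf d hG F hF A ε hA hε
  obtain ⟨B, H₀, hB, h⟩ := hN U Gf d hG F hF A ε hA hε
  refine ⟨B, H₀, hB, ?_⟩
  intro H hH xa xb hxa hxb X hX hS P hP hPX
  obtain ⟨h1, h2, _⟩ := hM U ℤ Gf d hG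
  have hR : ∀ n : ℕ, Jt Gf (Gf 0) fun h : ℤ => (X n (h + n))⁻¹ * P n (h + n) := by
    intro n
    have h3 : PS Gf 0 fun m : ℤ => (X n m)⁻¹ * P n m := h1 0 _ _ (h2 0 _ (hX n)) (hP n)
    have h4 : PS Gf 0 fun h : ℤ => (X n (h + n))⁻¹ * P n (h + n) :=
      (hL U ℤ Gf 0 fun m : ℤ => (X n m)⁻¹ * P n m).1 ℤ (AddMonoidHom.id ℤ) n h3
    refine ⟨?_, ?_, ?_⟩
    · exact ((hL U ℤ Gf 0 _).2.1 (Gf 0)).mpr ⟨h4, fun m => h4 [] m⟩
    · show (X n (0 + n))⁻¹ * P n (0 + n) = 1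
      rw [zero_add, (hPX n).1, inv_mul_cancel]
    · show (X n (1 + n))⁻¹ * P n (1 + n) = 1
      rw [add_comm, (hPX n).2, inv_mul_cancel]
  have h5 := h H hH xa xb hxa hxb X hX hS _ hR
  have h6 : ∀ n m : ℕ, X n m * ((X n ((m : ℤ) - n + n))⁻¹ * P n ((m : ℤ) - n + n)) = P n m := by
    intro n m
    rw [sub_add_cancel, mul_inv_cancel_left]
  simp only [h6] at h5
  exact h5

end

end Pool.Agent.NG
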