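import Mathlib
import Pool.Agent.Lib.NG.J
import Pool.Agent.Lib.NG.LBN
import Pool.Agent.Lib.NG.FNC

/-!
# JET (MP_663568_nt), row PAIR: the relation of one pair (helper11)
-/

set_option autoImplicit false
open Finset Topology

namespace Pool.Agent.NG

noncomputable section

open Amb Pool.Agent.Lib.MP_663568_nt Pool.Agent.Lib.MP_663568_nt.Katai Pool.Agent.NV

namespace Pairx

section
variable {U : Type} [Amb U] {Gf : ℕ → Subgroup U} {d : ℕ}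

/-- Scalar multiples. -/
theorem fn_mul {G M : Subgroup U} {F : U → ℂ} (hF : Fn G M F) (b : ℝ) (hb : 0 < b) :
    Fn G M fun x => (b : ℂ) * F x := by
  have hnb : ∀ w : ℂ, ‖(b : ℂ) * w‖ = b * ‖w‖ := fun w => by
    rw [norm_mul, Complex.norm_real, Real.norm_of_nonneg hb.le]
  refine ⟨?_, fun ε hε => ?_, fun x hx γ hγ hγG => ?_, fun m hm x hx => ?_⟩
  · obtain ⟨B, hB⟩ := hF.bd
    refine ⟨b * B, fun x hx => ?_⟩
    rw [hnb]
    exact mul_le_mul_of_nonneg_left (hB x hx) hb.le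
  · obtain ⟨ρ, hρ, h⟩ := hF.uc (ε / b) (by positivity)
    refine ⟨ρ, hρ, fun k hk hkn x hx => ?_⟩
    rw [← mul_sub, hnb]
    calc b * ‖F (k * x) - F x‖ ≤ b * (ε / b) := mul_le_mul_of_nonneg_left (h k hk hkn x hx) hb.le
      _ = ε := mul_div_cancel₀ _ hb.ne'
  · show (b : ℂ) * F (x * γ) = (b : ℂ) * F x
    rw [hF.lat x hx γ hγ hγG]
  · show (b : ℂ) * F (m * x) = (b : ℂ) * F x
    rw [hF.inv m hm x hx]

theorem ps_shift {J : Subgroup U} {R : ℤ → U} (hR : PS (cut J Gf) 0 R) (n : ℤ) :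
    PS (cut J Gf) 0 fun m => R (m - n) := by
  have h := (lbn U ℤ (cut J Gf) 0 R).1 ℤ (AddMonoidHom.id ℤ) (-n) hR
  have e : (fun m : ℤ => R (m - n)) = fun m => R ((AddMonoidHom.id ℤ) m + -n) := by
    funext m
    rw [AddMonoidHom.id_apply, ← sub_eq_add_neg]
  rw [e]
  exact h

/-- The value of the character. -/
theorem chv {G J M : Subgroup U} {η₁ η₂ : U → ℝ} (hJG : J ≤ G) (hN : Nrm G J)
    (h1 : (∀ x ∈ G, η₁ x = 0) ∨ Chr G G M η₁) (h2 : (∀ x ∈ J, η₂ x = 0) ∨ Chr G J M η₂)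
    {g r r' : U} (hg : g ∈ G) (hr : r ∈ J) (hr' : r' ∈ J) :
    η₁ (g * r') + η₂ (g * r * (g * r')⁻¹) = η₁ g + η₂ r + (η₁ r' - η₂ r') := by
  have a1 : η₁ (g * r') = η₁ g + η₁ r' := by
    rcases h1 with h1 | h1
    · rw [h1 _ (G.mul_mem hg (hJG hr')), h1 _ hg, h1 _ (hJG hr'), add_zero]
    · exact h1.mul _ hg _ (hJG hr')
  have e : g * r * (g * r')⁻¹ = g * (r * r'⁻¹) * g⁻¹ := by group
  have a2 : η₂ (g * r * (g * r')⁻¹) = η₂ r - η₂ r' := by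
    rw [e]
    have hm : r * r'⁻¹ ∈ J := J.mul_mem hr (J.inv_mem hr')
    rcases h2 with h2 | h2
    · rw [h2 _ (hN g hg _ hm), h2 _ hr, h2 _ hr', sub_zero]
    · rw [h2.inv g hg _ hm, h2.mul _ hr _ (J.inv_mem hr')]
      have h0 := h2.mul _ hr' _ (J.inv_mem hr')
      have h00 := h2.mul 1 J.one_mem 1 J.one_mem
      rw [mul_inv_cancel] at h0
      rw [mul_one] at h00
      linarith
  rw [a1, a2]
  ring

end

end Pairx

open Pairx in
/-- **Row PAIR.** -/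
theorem pair : PAIR_stmt := by
  intro hLZ hG2 hCHF U _ Gf d J z k F c h hJ hz hzJ hk hF hV hc
  obtain ⟨g1, g2, g3, g4, g5, g6⟩ := hG2 U Gf d J h hJ
  obtain ⟨B₀, hB₀⟩ := hF.bd
  set B : ℝ := max B₀ 1 with hBd
  have hB1 : 1 ≤ B := le_max_right _ _
  have hB0 : 0 < B := by linarith
  have hB : ∀ x ∈ Gf 0, ‖F x‖ ≤ B := fun x hx => (hB₀ x hx).trans (le_max_left _ _)
  set b : ℝ := B⁻¹ with hb
  have hb0 : 0 < b := inv_pos.2 hB0
  set F₁ : U → ℂ := fun x => (b : ℂ) * F x with hF₁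
  have hF1 : Fn (Gf 0) (Gf (d + 1)) F₁ := fn_mul hF b hb0
  have hn1 : ∀ x ∈ Gf 0, ‖F₁ x‖ ≤ 1 := by
    intro x hx
    rw [hF₁]
    show ‖(b : ℂ) * F x‖ ≤ 1
    rw [norm_mul, Complex.norm_real, Real.norm_of_nonneg hb0.le]
    calc b * ‖F x‖ ≤ b * B := mul_le_mul_of_nonneg_left (hB x hx) hb0.le
      _ = 1 := by rw [hb]; exact inv_mul_cancel₀ hB0.ne'
  have hV1 : Vrt (Gf 0) F₁ z k := by
    intro t x hx
    show (b : ℂ) * F (pw t z * x) = ee (k * t) * ((b : ℂ) * F x)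
    rw [hV t x hx]
    ring
  set F₂ : U × U → ℂ := fun q => F₁ q.1 * (starRingEnd ℂ) (F₁ q.2) with hF₂
  have hF2 : Fn (G2 Gf J 0) (G2 Gf J (d + 1)) F₂ := g4 F₁ hF1
  have hn2 : ∀ q ∈ G2 Gf J 0, ‖F₂ q‖ ≤ 1 := by
    intro q hq
    rw [g2] at hq
    show ‖F₁ q.1 * (starRingEnd ℂ) (F₁ q.2)‖ ≤ 1
    rw [norm_mul, RCLike.norm_conj]
    calc ‖F₁ q.1‖ * ‖F₁ q.2‖ ≤ 1 * 1 :=
          mul_le_mul (hn1 _ hq.1) (hn1 _ hq.2.1) (norm_nonneg _) zero_le_one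
      _ = 1 := one_mul 1
  set c₁ : ℝ := min (c * b * b / 2) 1 with hc₁
  have hc10 : 0 < c₁ := lt_min (by positivity) one_pos
  obtain ⟨N, X, E, Q, L₀, hE, hQ, hX, hmain⟩ := hLZ d (U × U) (G2 Gf J) g1 (z, 1) k hk
    (g3 z hz hzJ) F₂ hF2 hn2 (g5 F₁ z k hV1) c₁ hc10 (min_le_right _ _)
  have hG20 : G2 Gf J 0 = FP (Gf 0) J := by
    unfold G2
    rw [inf_eq_left.2 hJ.le]
  have hch : ∀ i, ∃ w : (U → ℝ) × (U → ℝ), CP Gf d J w ∧
      ∀ q ∈ G2 Gf J 0, X i q = w.1 q.2 + w.2 (q.1 * q.2⁻¹) := by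
    intro i
    have hXi := hX i
    rw [hG20] at hXi
    obtain ⟨η₁, η₂, e1, e2, e3, e4⟩ := (hCHF U (Gf 0) J (h.rat 0) hJ.rat hJ.le hJ.nrm).1
      (Gf (d + 1)) (G2 Gf J (d + 1)) (X i) hXi (fun m hm => by
        refine ⟨?_, ?_⟩
        · rw [g2]
          refine ⟨hm, (Gf _).one_mem, ?_⟩
          show m * (1 : U)⁻¹ ∈ J
          rw [inv_one, mul_one]
          exact hJ.ge hm
        · rw [g2]
          refine ⟨hm, hm, ?_⟩
          show m * m⁻¹ ∈ J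
          rw [mul_inv_cancel]
          exact J.one_mem) hJ.ge
    refine ⟨(η₁, η₂), ⟨e2, e3, e4⟩, fun q hq => ?_⟩
    rw [hG20] at hq
    exact e1 q hq
  choose w hw1 hw2 using hch
  refine ⟨List.ofFn w, E, Q, L₀, ?_, hE, hQ, ?_⟩
  · intro v hv
    rw [List.mem_ofFn] at hv
    obtain ⟨i, rfl⟩ := hv
    exact hw1 i
  · intro H g R R' n n' hH hg hR hR' hsum
    have hps := g6 g _ _ hg (ps_shift hR n) (ps_shift hR' n')
    have hlow : c₁ * ((2 * H : ℕ) : ℝ) ≤ ‖∑ m ∈ range (2 * H),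
        F₂ ((fun m : ℤ => (g m * R (m - n), g m * R' (m - n'))) m)‖ := by
      have e : ∑ m ∈ range (2 * H), F₂ ((fun m : ℤ => (g m * R (m - n), g m * R' (m - n'))) m) =
          ((b * b : ℝ) : ℂ) * ∑ y ∈ range (2 * H), F (g y * R ((y : ℤ) - n)) *
            (starRingEnd ℂ) (F (g y * R' ((y : ℤ) - n'))) := by
        rw [Finset.mul_sum]
        refine Finset.sum_congr rfl fun y _ => ?_
        show (b : ℂ) * F (g y * R (y - n)) * (starRingEnd ℂ) ((b : ℂ) * F (g y * R' (y - n'))) = _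
        rw [map_mul, Complex.conj_ofReal, Complex.ofReal_mul]
        ring
      rw [e, norm_mul, Complex.norm_real, Real.norm_of_nonneg (by positivity)]
      have h1 : c₁ ≤ c * b * b / 2 := min_le_left _ _
      have h2 : (0 : ℝ) ≤ ((2 * H : ℕ) : ℝ) := Nat.cast_nonneg _
      calc c₁ * ((2 * H : ℕ) : ℝ) ≤ c * b * b / 2 * ((2 * H : ℕ) : ℝ) :=
            mul_le_mul_of_nonneg_right h1 h2
        _ = b * b * (c * H) := by push_cast; ring
        _ ≤ _ := mul_le_mul_of_nonneg_left hsum (by positivity)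
    obtain ⟨i, hi⟩ := hmain (2 * H) (by omega) _ hps hlow
    refine ⟨w i, List.mem_ofFn.2 ⟨i, rfl⟩, ?_⟩
    have e : (fun y : ℤ => (w i).1 (g y) + (w i).2 (R (y - n)) +
        ((w i).1 (R' (y - n')) - (w i).2 (R' (y - n')))) =
        fun m : ℤ => X i ((fun m : ℤ => (g m * R (m - n), g m * R' (m - n'))) m) := by
      funext y
      have r1 := (((lbn U ℤ Gf 0 R).2.1 J).1 hR).2 (y - n)
      have r2 := (((lbn U ℤ Gf 0 R').2.1 J).1 hR').2 (y - n')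
      have hgy : g y ∈ Gf 0 := hg [] y
      have hmem : ((fun m : ℤ => (g m * R (m - n), g m * R' (m - n'))) y) ∈ G2 Gf J 0 := hps [] y
      rw [hw2 i _ hmem]
      exact (chv hJ.le hJ.nrm (hw1 i).fst (hw1 i).snd hgy r1 r2).symm
    rw [e]
    exact hi

end

end Pool.Agent.NG
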