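import Mathlib
import Pool.Agent.Lib.NG.J

/-!
# Row REL (MP_663568_nt, JET): the relations.  (helper93)

Duality and the relation of one pair give one pair of characters `(w.1, w.2)` and many pairs
`(n, n')` for which `w.1 (g y) + w.2 (R_n (y - n)) + (w.1 - w.2) (R_n' (y - n'))` is near a rational
polynomial.  The difference of `w.2 (R_n (y - n))` at `y = n` is zero; so for one fixed `n'` the
remaining polynomial is near (`JN1`), and so is `w.2 (R_n (y - n))`.  If `w.2 = 0` on `J` the same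
argument at `y = n'` shows that `w.1 (g y)` is near.
-/

set_option autoImplicit false
open Finset

namespace Pool.Agent.NG

open Amb Pool.Agent.Lib.MP_663568_nt Pool.Agent.Lib.MP_663568_nt.Katai
  Pool.Agent.Lib.MP_663568_nt.Nul

namespace RELx

/-- Pigeonhole over a list. -/
theorem pigeon {α β : Type} (T : Finset β) (X : List α) (p : β → α → Prop)
    (h : ∀ t ∈ T, ∃ w ∈ X, p t w) (c : ℝ) (hc : 0 < c) (hT : c ≤ #T) :
    ∃ w ∈ X, ∃ T' : Finset β, T' ⊆ T ∧ (∀ t ∈ T', p t w) ∧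
      c / (X.length + 1) ≤ (#T' : ℝ) := by
  classical
  by_contra hne
  push Not at hne
  have h1 : T ⊆ X.toFinset.biUnion fun w => T.filter fun t => p t w := by
    intro t ht
    obtain ⟨w, hw, hp⟩ := h t ht
    rw [mem_biUnion]
    exact ⟨w, List.mem_toFinset.2 hw, mem_filter.2 ⟨ht, hp⟩⟩
  have h2 : #T ≤ ∑ w ∈ X.toFinset, #(T.filter fun t => p t w) :=
    (card_le_card h1).trans card_biUnion_le
  have h3 : (#T : ℝ) ≤ ∑ w ∈ X.toFinset, (#(T.filter fun t => p t w) : ℝ) := by exact_mod_cast h2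
  have h4 : ∑ w ∈ X.toFinset, (#(T.filter fun t => p t w) : ℝ) ≤
      ∑ w ∈ X.toFinset, c / (X.length + 1) := by
    refine sum_le_sum fun w hw => ?_
    exact (hne w (List.mem_toFinset.1 hw) _ (filter_subset _ _)
      (fun t ht => (mem_filter.1 ht).2)).le
  rw [sum_const, nsmul_eq_mul] at h4
  have h5 : (#X.toFinset : ℝ) ≤ X.length := by exact_mod_cast X.toFinset_card_le
  have h6 : (0 : ℝ) < (X.length : ℝ) + 1 := by positivity
  have h7 : (#X.toFinset : ℝ) * (c / (X.length + 1)) ≤ X.length * (c / (X.length + 1)) :=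
    mul_le_mul_of_nonneg_right h5 (by positivity)
  have h8 : (X.length : ℝ) * (c / (X.length + 1)) < c := by
    rw [mul_div_assoc', div_lt_iff₀ h6]
    nlinarith
  linarith

open Classical in
/-- Many second coordinates have many partners. -/
theorem popular (H : ℕ) (c : ℝ) (T : Finset (ℕ × ℕ)) (hT : T ⊆ range H ×ˢ range H) (hH : 1 ≤ H)
    (h : 2 * c * ((H : ℝ) * H) ≤ #T) : c * H ≤ (#((range H).filter fun n' =>
      c * H ≤ (#((range H).filter fun n => (n, n') ∈ T) : ℝ)) : ℝ) := by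
  set f : ℕ → ℕ := fun n' => #((range H).filter fun n => (n, n') ∈ T) with hf
  have hH0 : (0 : ℝ) < H := by exact_mod_cast hH
  have h1 : #T = ∑ n' ∈ range H, f n' := by
    rw [card_eq_sum_card_fiberwise (f := Prod.snd) (t := range H)]
    · refine sum_congr rfl fun n' _ => ?_
      refine card_bij' (fun q _ => q.1) (fun n _ => (n, n')) ?_ ?_ ?_ ?_
      · intro q hq
        obtain ⟨h2, h3⟩ := mem_filter.1 hq
        refine mem_filter.2 ⟨(mem_product.1 (hT h2)).1, ?_⟩
        rw [← h3]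
        exact h2
      · intro n hn
        exact mem_filter.2 ⟨(mem_filter.1 hn).2, rfl⟩
      · intro q hq
        rw [← (mem_filter.1 hq).2]
      · intro n hn
        rfl
    · intro q hq
      exact (mem_product.1 (hT hq)).2
  have h2 : (#T : ℝ) = ∑ n' ∈ range H, (f n' : ℝ) := by rw [h1]; push_cast; rfl
  have h3 : ∀ n', (f n' : ℝ) ≤ H := by
    intro n'
    have : f n' ≤ #(range H) := card_le_card (filter_subset _ _)
    rw [card_range] at this
    exact_mod_cast this
  rw [← sum_filter_add_sum_filter_not (range H) (fun n' => c * H ≤ (f n' : ℝ))] at h2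
  have h4 : ∑ n' ∈ (range H).filter (fun n' => c * H ≤ (f n' : ℝ)), (f n' : ℝ) ≤
      #((range H).filter (fun n' => c * H ≤ (f n' : ℝ))) * (H : ℝ) := by
    rw [← nsmul_eq_mul]
    exact sum_le_card_nsmul _ _ _ fun n' _ => h3 n'
  have h5 : ∑ n' ∈ (range H).filter (fun n' => ¬ c * H ≤ (f n' : ℝ)), (f n' : ℝ) ≤
      #((range H).filter (fun n' => ¬ c * H ≤ (f n' : ℝ))) * (c * H) := by
    rw [← nsmul_eq_mul]
    refine sum_le_card_nsmul _ _ _ fun n' hn' => ?_
    exact (not_le.1 (mem_filter.1 hn').2).le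
  by_cases hc : 0 ≤ c
  · have h6 : (#((range H).filter (fun n' => ¬ c * H ≤ (f n' : ℝ))) : ℝ) ≤ H := by
      have : #((range H).filter (fun n' => ¬ c * H ≤ (f n' : ℝ))) ≤ #(range H) :=
        card_le_card (filter_subset _ _)
      rw [card_range] at this
      exact_mod_cast this
    have h7 : (#((range H).filter (fun n' => ¬ c * H ≤ (f n' : ℝ))) : ℝ) * (c * H) ≤
        H * (c * H) := mul_le_mul_of_nonneg_right h6 (by positivity)
    have h8 : c * H * H ≤
        (#((range H).filter (fun n' => c * H ≤ (f n' : ℝ))) : ℝ) * (H : ℝ) := by nlinarith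
    exact le_of_mul_le_mul_right h8 hH0
  · have h6 : c * H ≤ 0 := mul_nonpos_of_nonpos_of_nonneg (not_le.1 hc).le hH0.le
    exact h6.trans (Nat.cast_nonneg _)

theorem nrz_mono {t d : ℕ} {E E' : ℝ} {Q L : ℕ} {P : ℤ → ℝ} (h : NrZ t d E Q L P) (hE : E ≤ E') :
    NrZ t d E' Q L P := by
  obtain ⟨c, h1, h2⟩ := h
  refine ⟨c, h1, fun j h3 h4 => (h2 j h3 h4).trans ?_⟩
  gcongr

theorem nrz_mul {t d : ℕ} {E : ℝ} {Q L : ℕ} {P : ℤ → ℝ} (h : NrZ t d E Q L P) (q : ℕ) :
    NrZ t d (q * E) (Q * q) L P := by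
  obtain ⟨c, h1, h2⟩ := h
  refine ⟨c, h1, fun j h3 h4 => ?_⟩
  have h5 : ((Q * q : ℕ) : ℝ) * c j = q * (Q * c j) := by push_cast; ring
  rw [h5, mul_div_assoc]
  exact (nd_nat_mul_le _ _).trans (mul_le_mul_of_nonneg_left (h2 j h3 h4) (Nat.cast_nonneg _))

section
variable {U : Type} [Amb U]

theorem foldr_shift (R : ℤ → U) (a : ℤ) (l : List ℤ) (n : ℤ) :
    l.foldr dif (fun y => R (y - a)) n = l.foldr dif R (n - a) := by
  induction l generalizing n with
  | nil => rfl
  | cons h l ih =>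
    change (l.foldr dif (fun y => R (y - a))) (n + h) *
      ((l.foldr dif (fun y => R (y - a))) n)⁻¹ =
      (l.foldr dif R) (n - a + h) * ((l.foldr dif R) (n - a))⁻¹
    rw [ih, ih, show n + h - a = n - a + h by ring]

theorem shift {Gf : ℕ → Subgroup U} {i : ℕ} {R : ℤ → U} (h : PS Gf i R) (a : ℤ) :
    PS Gf i fun y => R (y - a) := by
  intro l n
  rw [foldr_shift]
  exact h l (n - a)

end

end RELx

open RELx in
/-- **Row REL.** -/
theorem rel : REL_stmt := by
  intro hpair hdual hjn1 hjn2 hjn3 hdegz U _ Gf d J z k F δ hF hJ hz hzJ hk hFn hV hδ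
  have hle : ∀ i, Gf i ≤ Gf 0 := fun i => antitone_nat_of_succ_le hF.anti (Nat.zero_le i)
  obtain ⟨B₀, hB₀⟩ := hFn.bd
  obtain ⟨c, hc, hd⟩ := hdual δ (max B₀ 1) hδ (by positivity)
  obtain ⟨X₀, E, Q, H₁, hX₀, hE, hQ, hp⟩ := hpair U Gf d J z k F c hF hJ hz hzJ hk hFn hV hc
  obtain ⟨E₁, hE₁, h2⟩ := hjn2 d E Q hE
  have hm0 : (0 : ℝ) < (X₀.length : ℝ) + 1 := by positivity
  obtain ⟨c₁, hc₁def⟩ : ∃ c₁ : ℝ, c₁ = c / (X₀.length + 1) / 2 := ⟨_, rfl⟩
  have hc₁ : 0 < c₁ := by rw [hc₁def]; positivity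
  obtain ⟨E₂, Q₂, H₂, hE₂, hQ₂, ⟨q, rfl⟩, h1⟩ := hjn1 d E₁ c₁ Q hE₁ hc₁ hQ
  classical
  refine ⟨(X₀.map Prod.fst ++ X₀.map Prod.snd).filter
      (fun η => decide (Chr (Gf 0) J (Gf (d + 1)) η)),
    (X₀.map Prod.fst).filter
      (fun χ => decide (Chr (Gf 0) (Gf 0) (Gf (d + 1)) χ ∧ ∀ x ∈ J, χ x = 0)),
    q * E + E₂, c₁, Q * q, max (max H₁ H₂) 1, ?_, ?_, by positivity, hc₁, hQ₂, ?_⟩
  · intro η hη
    exact of_decide_eq_true (List.mem_filter.1 hη).2
  · intro χ hχ
    exact of_decide_eq_true (List.mem_filter.1 hχ).2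
  · intro H a g R S hH hD
    have hH1 : H₁ ≤ H := (le_max_left _ _).trans ((le_max_left _ _).trans hH)
    have hH2 : H₂ ≤ H := (le_max_right _ _).trans ((le_max_left _ _).trans hH)
    have hH3 : 1 ≤ H := (le_max_right _ _).trans hH
    have hH0 : (0 : ℝ) < H := by exact_mod_cast hH3
    have hg0 : ∀ y, g y ∈ Gf 0 := fun y => hD.pg [] y
    have hRJ : ∀ n ∈ S, ∀ y, R n y ∈ J := fun n hn y => ((hD.jt n hn).1 [] y).1
    obtain ⟨T, hTS, hTc, hT⟩ := hd H a (fun n y => F (g y * R n ((y : ℤ) - n))) S hD.ba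
      (fun n hn y => (hB₀ _ (mul_mem (hg0 _) (hJ.le (hRJ n hn _)))).trans (le_max_left _ _))
      hD.sub hD.card hD.cor
    obtain ⟨w, hw, T', hT', hTw, hTc'⟩ := pigeon T X₀
      (fun (t : ℕ × ℕ) (w : (U → ℝ) × (U → ℝ)) => NrZ 1 d E Q (2 * H) fun y =>
        w.1 (g y) + w.2 (R t.1 (y - t.1)) + (w.1 (R t.2 (y - t.2)) - w.2 (R t.2 (y - t.2))))
      (fun t ht => hp H g (R t.1) (R t.2) t.1 t.2 hH1 hD.pg
        (hD.jt _ (mem_product.1 (hTS ht)).1).1 (hD.jt _ (mem_product.1 (hTS ht)).2).1 (hT t ht))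
      (c * ((H : ℝ) * H)) (by positivity) hTc
    have hT'S : ∀ t ∈ T', t.1 ∈ S ∧ t.2 ∈ S := fun t ht => mem_product.1 (hTS (hT' ht))
    have hT'R : T' ⊆ range H ×ˢ range H := fun t ht =>
      mem_product.2 ⟨hD.sub (hT'S t ht).1, hD.sub (hT'S t ht).2⟩
    have hpop := popular H c₁ T' hT'R hH3 (by
      have e : 2 * c₁ * ((H : ℝ) * H) = c * ((H : ℝ) * H) / (X₀.length + 1) := by
        rw [hc₁def]; field_simp
      rw [e]
      exact hTc')
    set Pp : Finset ℕ := (range H).filter fun n' =>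
      c₁ * H ≤ (#((range H).filter fun n => (n, n') ∈ T') : ℝ) with hPp
    have hPp1 : ∀ n' ∈ Pp, ∃ n, (n, n') ∈ T' := by
      intro n' hn'
      have h3 := (mem_filter.1 hn').2
      have h4 : 0 < #((range H).filter fun n => (n, n') ∈ T') := by
        have : (0 : ℝ) < (#((range H).filter fun n => (n, n') ∈ T') : ℝ) :=
          lt_of_lt_of_le (by positivity) h3
        exact_mod_cast this
      obtain ⟨n, hn⟩ := card_pos.1 h4
      exact ⟨n, (mem_filter.1 hn).2⟩
    -- the two characters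
    have hcp := hX₀ w hw
    have hadd1 : ∀ x ∈ Gf 0, ∀ y ∈ Gf 0, w.1 (x * y) = w.1 x + w.1 y := by
      rcases hcp.fst with h | h
      · intro x hx y hy
        rw [h _ (mul_mem hx hy), h x hx, h y hy, add_zero]
      · exact h.mul
    have hadd2 : ∀ x ∈ J, ∀ y ∈ J, w.2 (x * y) = w.2 x + w.2 y := by
      rcases hcp.snd with h | h
      · intro x hx y hy
        rw [h _ (mul_mem hx hy), h x hx, h y hy, add_zero]
      · exact h.mul
    have hvan1 : ∀ x ∈ Gf (d + 1), w.1 x = 0 := by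
      rcases hcp.fst with h | h
      · exact fun x hx => h x (hle _ hx)
      · exact h.van
    have hvan2 : ∀ x ∈ Gf (d + 1), w.2 x = 0 := by
      rcases hcp.snd with h | h
      · exact fun x hx => h x (hJ.ge hx)
      · exact h.van
    have hone1 : w.1 1 = 0 := hvan1 1 (one_mem _)
    have hone2 : w.2 1 = 0 := hvan2 1 (one_mem _)
    obtain ⟨pg, hpg⟩ := hdegz U Gf d (Gf 0) w.1 g hadd1 (fun x hx => hvan1 x hx.2)
      (fun l n => ⟨hle _ (hD.pg l n), hD.pg l n⟩)
    have hR1 : ∀ n ∈ S, ∃ p : ℕ → ℝ, ∀ y : ℤ, w.1 (R n (y - n)) = pol d p y := fun n hn =>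
      hdegz U Gf d J w.1 _ (fun x hx y hy => hadd1 x (hJ.le hx) y (hJ.le hy))
        (fun x hx => hvan1 x hx.2) (shift (hD.jt n hn).1 (n : ℤ))
    have hR2 : ∀ n ∈ S, ∃ p : ℕ → ℝ, ∀ y : ℤ, w.2 (R n (y - n)) = pol d p y := fun n hn =>
      hdegz U Gf d J w.2 _ hadd2 (fun x hx => hvan2 x hx.2) (shift (hD.jt n hn).1 (n : ℤ))
    have hz0 : ∀ n ∈ S, R n ((n : ℤ) - n) = 1 := fun n hn => by
      rw [sub_self]; exact (hD.jt n hn).2.1
    have hz1 : ∀ n ∈ S, R n ((n : ℤ) + 1 - n) = 1 := fun n hn => by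
      rw [add_sub_cancel_left]; exact (hD.jt n hn).2.2
    by_cases h0 : ∀ x ∈ J, w.2 x = 0
    · -- the second character is zero
      have hne1 : ∃ x ∈ Gf 0, w.1 x ≠ 0 := by
        rcases hcp.ne with h | ⟨x, hx, hx'⟩
        · exact h
        · exact absurd (h0 x hx) hx'
      have hchr : Chr (Gf 0) (Gf 0) (Gf (d + 1)) w.1 := by
        rcases hcp.fst with h | h
        · obtain ⟨x, hx, hx'⟩ := hne1
          exact absurd (h x hx) hx'
        · exact h
      have hPS : ∀ n' ∈ Pp, n' ∈ S := fun n' hn' => by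
        obtain ⟨n, hn⟩ := hPp1 n' hn'
        exact (hT'S _ hn).2
      have hnr : ∀ n' ∈ Pp, NrZ 1 d E Q (2 * H) fun y => w.1 (g y) + w.1 (R n' (y - n')) := by
        intro n' hn'
        obtain ⟨n, hn⟩ := hPp1 n' hn'
        have h3 := hTw _ hn
        have h4 : (fun y : ℤ => w.1 (g y) + w.2 (R (n, n').1 (y - (n, n').1)) +
            (w.1 (R (n, n').2 (y - (n, n').2)) - w.2 (R (n, n').2 (y - (n, n').2)))) =
            fun y => w.1 (g y) + w.1 (R n' (y - n')) := by
          funext y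
          have h5 : w.2 (R n (y - n)) = 0 := h0 _ (hRJ n (hT'S _ hn).1 _)
          have h6 : w.2 (R n' (y - n')) = 0 := h0 _ (hRJ n' (hT'S _ hn).2 _)
          simp only [h5, h6]
          ring
        rw [h4] at h3
        exact h3
      have hgN : NrZ 1 d E₂ (Q * q) (2 * H) (pol d pg) := by
        refine h1 H pg Pp hH2 (filter_subset _ _) hpop fun n' hn' => ?_
        have h3 := h2 H _ hH3 (hnr n' hn') n' (mem_range.1 (mem_filter.1 hn').1)
        rw [hz0 n' (hPS n' hn'), hz1 n' (hPS n' hn'), hone1, add_zero, add_zero, hpg, hpg] at h3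
        exact h3
      have hpg' : (fun y => w.1 (g y)) = pol d pg := funext hpg
      by_cases h0' : ∀ x ∈ J, w.1 x = 0
      · right
        refine ⟨w.1, List.mem_filter.2 ⟨List.mem_map.2 ⟨w, hw, rfl⟩,
          decide_eq_true ⟨hchr, h0'⟩⟩, ?_⟩
        rw [hpg']
        exact nrz_mono hgN (by
          have : (0 : ℝ) ≤ q * E := by positivity
          linarith)
      · left
        push Not at h0'
        refine ⟨w.1, List.mem_filter.2 ⟨List.mem_append.2 (Or.inl (List.mem_map.2 ⟨w, hw, rfl⟩)),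
          decide_eq_true ⟨fun x hx y hy => hchr.mul x (hJ.le hx) y (hJ.le hy),
            fun u hu x hx => hchr.inv u hu x (hJ.le hx),
            fun γ hγ hγJ => hchr.int γ hγ (hJ.le hγJ), hchr.van,
            hchr.cont.mono hJ.le, h0'⟩⟩, Pp, hPS, hpop, fun n' hn' => ?_⟩
        have h3 := (hjn3 d (q * E) E₂ (Q * q) (2 * H) _ _ (nrz_mul (hnr n' hn') q) hgN).2
        have h4 : (fun m : ℤ => w.1 (g m) + w.1 (R n' (m - n')) - pol d pg m) =
            fun y => w.1 (R n' (y - n')) := by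
          funext y
          rw [hpg]
          ring
        rw [h4] at h3
        exact h3
    · -- the second character is not zero
      push Not at h0
      have hchr : Chr (Gf 0) J (Gf (d + 1)) w.2 := by
        rcases hcp.snd with h | h
        · obtain ⟨x, hx, hx'⟩ := h0
          exact absurd (h x hx) hx'
        · exact h
      have hPne : Pp.Nonempty := by
        rw [← card_pos]
        have : (0 : ℝ) < (#Pp : ℝ) := lt_of_lt_of_le (by positivity) hpop
        exact_mod_cast this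
      obtain ⟨n', hn'⟩ := hPne
      obtain ⟨n₀, hn₀⟩ := hPp1 n' hn'
      have hn'S : n' ∈ S := (hT'S _ hn₀).2
      obtain ⟨p1, hp1⟩ := hR1 n' hn'S
      obtain ⟨p2, hp2⟩ := hR2 n' hn'S
      obtain ⟨p, hpdef⟩ : ∃ p : ℕ → ℝ, p = fun j => pg j + (p1 j - p2 j) := ⟨_, rfl⟩
      have hpp : ∀ y : ℤ, w.1 (g y) + (w.1 (R n' (y - n')) - w.2 (R n' (y - n'))) =
          pol d p y := by
        intro y
        rw [hpg, hp1, hp2, hpdef]
        unfold pol
        rw [← sum_sub_distrib, ← sum_add_distrib]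
        exact sum_congr rfl fun j _ => by ring
      set S' : Finset ℕ := (range H).filter fun n => (n, n') ∈ T' with hS'
      have hS'S : S' ⊆ S := fun n hn => (hT'S _ (mem_filter.1 hn).2).1
      have hS'c : c₁ * H ≤ (#S' : ℝ) := (mem_filter.1 hn').2
      have hnr : ∀ n ∈ S', NrZ 1 d E Q (2 * H) fun y => w.2 (R n (y - n)) + pol d p y := by
        intro n hn
        have h3 := hTw _ (mem_filter.1 hn).2
        have h4 : (fun y : ℤ => w.1 (g y) + w.2 (R (n, n').1 (y - (n, n').1)) +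
            (w.1 (R (n, n').2 (y - (n, n').2)) - w.2 (R (n, n').2 (y - (n, n').2)))) =
            fun y => w.2 (R n (y - n)) + pol d p y := by
          funext y
          rw [← hpp y]
          simp only
          ring
        rw [h4] at h3
        exact h3
      have hpN : NrZ 1 d E₂ (Q * q) (2 * H) (pol d p) := by
        refine h1 H p S' hH2 (filter_subset _ _) hS'c fun n hn => ?_
        have h3 := h2 H _ hH3 (hnr n hn) n (mem_range.1 (mem_filter.1 hn).1)
        rw [hz0 n (hS'S hn), hz1 n (hS'S hn), hone2, zero_add, zero_add] at h3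
        exact h3
      left
      refine ⟨w.2, List.mem_filter.2 ⟨List.mem_append.2 (Or.inr (List.mem_map.2 ⟨w, hw, rfl⟩)),
        decide_eq_true hchr⟩, S', hS'S, hS'c, fun n hn => ?_⟩
      have h3 := (hjn3 d (q * E) E₂ (Q * q) (2 * H) _ _ (nrz_mul (hnr n hn) q) hpN).2
      have h4 : (fun m : ℤ => w.2 (R n (m - n)) + pol d p m - pol d p m) =
          fun y => w.2 (R n (y - n)) := by
        funext y
        ring
      rw [h4] at h3
      exact h3

end Pool.Agent.NG
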