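import Pool.Agent.Lib.NG.SPLx

/-!
# Row SPLG (MP_663568_nt, JET).  (helper3)
-/

set_option autoImplicit false
open Finset

namespace Pool.Agent.NG

open Pool.Agent.Lib.MP_663568_nt Pool.Agent.Lib.MP_663568_nt.Katai
  Pool.Agent.Lib.MP_663568_nt.Nul

theorem splg : SPLG_stmt := by
  intro d E Q hE hQ
  refine ⟨SPLx.Ec d E, SPLx.Ec_nonneg d hE, ?_⟩
  intro H j c hH hj hnr
  have hQ1 : (1 : ℝ) ≤ Q := by exact_mod_cast hQ
  have hQ0 : (0 : ℝ) < Q := by linarith
  have hH0 : (0 : ℝ) < H := by exact_mod_cast hH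
  have hc := SPLx.near_coeff hj hnr fun _ => rfl
  refine ⟨fun i => c i - SPLx.rp Q j c i, SPLx.rp Q j c, fun i => by ring, ?_⟩
  have h := SPLx.st_of (Q := Q) (H := H) (j := j) (d := d) (n := 0) (E := E)
    (S := fun i => c i - SPLx.rp Q j c i) (T := SPLx.rp Q j c) hE hQ hH hj (Nat.zero_le _) (by
      beta_reduce
      rw [SPLx.rp_near hQ c (Nat.zero_le _), div_le_one hQ0]
      have := nd_le_half ((Q : ℝ) * c 0)
      linarith) (fun i hi hij => by
      beta_reduce
      rw [SPLx.rp_near hQ c hij]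
      have h1 := hc i hi hij
      have h2 : nd ((Q : ℝ) * c i) / Q ≤ nd ((Q : ℝ) * c i) := div_le_self (nd_nonneg _) hQ1
      refine h2.trans (h1.trans ?_)
      apply div_le_div_of_nonneg_left hE (by positivity)
      apply pow_le_pow_left₀ hH0.le
      push_cast
      linarith) (SPLx.rp_rat Q j c)
  have e1 : ∀ (c' : ℕ → ℝ), (fun y : ℤ => pol j c' (y - ((0 : ℕ) : ℤ))) = pol j c' := by
    intro c'
    funext y
    rw [Nat.cast_zero, sub_zero]
  rw [e1, e1] at h
  exact h

end Pool.Agent.NG
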