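import Pool.Agent.Lib.NG.SPLx

/-!
# Row SPLJ (MP_663568_nt, JET).  (helper3)
-/

set_option autoImplicit false
open Finset

namespace Pool.Agent.NG

open Pool.Agent.Lib.MP_663568_nt Pool.Agent.Lib.MP_663568_nt.Katai
  Pool.Agent.Lib.MP_663568_nt.Nul

namespace SPLx

/-- The coefficients of the shifted polynomial. -/
def sh (d n : ℕ) (q : ℕ → ℝ) (i : ℕ) : ℝ :=
  ∑ k ∈ range (d + 1), q k * ((k.choose i : ℝ) * (n : ℝ) ^ (k - i))

theorem pol_sh (d n : ℕ) (q : ℕ → ℝ) (h : ℤ) : pol d (sh d n q) h = pol d q (h + n) := by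
  unfold pol sh
  calc ∑ i ∈ range (d + 1), (∑ k ∈ range (d + 1), q k * ((k.choose i : ℝ) * (n : ℝ) ^ (k - i))) *
        (h : ℝ) ^ i
      = ∑ i ∈ range (d + 1), ∑ k ∈ range (d + 1),
        q k * ((k.choose i : ℝ) * (n : ℝ) ^ (k - i)) * (h : ℝ) ^ i :=
        Finset.sum_congr rfl fun i _ => Finset.sum_mul _ _ _
    _ = ∑ k ∈ range (d + 1), ∑ i ∈ range (d + 1),
        q k * ((k.choose i : ℝ) * (n : ℝ) ^ (k - i)) * (h : ℝ) ^ i := Finset.sum_comm
    _ = ∑ k ∈ range (d + 1), q k * ((h + n : ℤ) : ℝ) ^ k := by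
        apply Finset.sum_congr rfl
        intro k hk
        push_cast
        rw [add_pow, Finset.mul_sum]
        symm
        rw [← Finset.sum_subset (range_mono (by have := mem_range.1 hk; omega :
          k + 1 ≤ d + 1))]
        · exact Finset.sum_congr rfl fun i _ => by ring
        · intro i _ hi
          have : k < i := by
            by_contra hle
            exact hi (mem_range.2 (by omega))
          rw [Nat.choose_eq_zero_of_lt this]
          simp

theorem nd_sum_le {ι : Type} (s : Finset ι) (f : ι → ℝ) :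
    nd (∑ i ∈ s, f i) ≤ ∑ i ∈ s, nd (f i) := by
  classical
  induction s using Finset.induction_on with
  | empty =>
    rw [Finset.sum_empty, Finset.sum_empty]
    exact (nd_le_abs 0).trans (by simp)
  | insert a s ha ih =>
    rw [Finset.sum_insert ha, Finset.sum_insert ha]
    exact (nd_add_le _ _).trans (by linarith)

theorem nd_sh {d n Q H : ℕ} {E : ℝ} {q : ℕ → ℝ} (hE : 0 ≤ E) (hH : 1 ≤ H) (hn : n ≤ H)
    (hq : ∀ k, 1 ≤ k → k ≤ d → nd ((Q : ℝ) * q k) ≤ E / (((2 * H : ℕ) : ℝ)) ^ k) {i : ℕ}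
    (hi : 1 ≤ i) : nd ((Q : ℝ) * sh d n q i) ≤ (d + 1) * E / (H : ℝ) ^ i := by
  have hH0 : (0 : ℝ) < H := by exact_mod_cast hH
  have hn' : (n : ℝ) ≤ H := by exact_mod_cast hn
  have e1 : (Q : ℝ) * sh d n q i =
      ∑ k ∈ range (d + 1), ((k.choose i * n ^ (k - i) : ℕ) : ℝ) * ((Q : ℝ) * q k) := by
    unfold sh
    rw [Finset.mul_sum]
    exact Finset.sum_congr rfl fun k _ => by push_cast; ring
  rw [e1]
  refine (nd_sum_le _ _).trans ?_
  have h1 : ∀ k ∈ range (d + 1), nd (((k.choose i * n ^ (k - i) : ℕ) : ℝ) * ((Q : ℝ) * q k)) ≤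
      E / (H : ℝ) ^ i := by
    intro k hk
    have hk' : k ≤ d := by have := mem_range.1 hk; omega
    refine (nd_nat_mul_le _ _).trans ?_
    rcases lt_or_ge k i with hlt | hge
    · rw [Nat.choose_eq_zero_of_lt hlt]
      simp only [zero_mul, Nat.cast_zero]
      positivity
    · have h2 := hq k (hi.trans hge) hk'
      have h3 : ((k.choose i * n ^ (k - i) : ℕ) : ℝ) ≤ 2 ^ k * (H : ℝ) ^ (k - i) := by
        push_cast
        apply mul_le_mul _ (pow_le_pow_left₀ (Nat.cast_nonneg _) hn' _) (by positivity)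
          (by positivity)
        exact_mod_cast Nat.choose_le_two_pow k i
      calc ((k.choose i * n ^ (k - i) : ℕ) : ℝ) * nd ((Q : ℝ) * q k) ≤
            (2 ^ k * (H : ℝ) ^ (k - i)) * (E / (((2 * H : ℕ) : ℝ)) ^ k) :=
            mul_le_mul h3 h2 (nd_nonneg _) (by positivity)
        _ = E / (H : ℝ) ^ i := by
            have h4 : (H : ℝ) ^ k = (H : ℝ) ^ (k - i) * (H : ℝ) ^ i := by
              rw [← pow_add, Nat.sub_add_cancel hge]
            push_cast
            rw [mul_pow, h4]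
            field_simp
  refine (Finset.sum_le_sum h1).trans (le_of_eq ?_)
  rw [Finset.sum_const, card_range, nsmul_eq_mul]
  push_cast
  ring

end SPLx

theorem splj : SPLJ_stmt := by
  intro d E Q hE hQ
  have hQ1 : (1 : ℝ) ≤ Q := by exact_mod_cast hQ
  have hQ0 : (0 : ℝ) < Q := by linarith
  obtain ⟨E1, hE1⟩ : ∃ E1 : ℝ, E1 = (d + 1) * E := ⟨_, rfl⟩
  have hE10 : 0 ≤ E1 := by rw [hE1]; positivity
  obtain ⟨K, hK⟩ : ∃ K : ℕ, K = ⌈(d + 1) * E1⌉₊ := ⟨_, rfl⟩
  have hK1 : (d + 1) * E1 ≤ K := by rw [hK]; exact Nat.le_ceil _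
  refine ⟨SPLx.Ec d E1, K + 1, SPLx.Ec_nonneg d hE10, ?_⟩
  intro H n j c hH hn hj hc0 hc1 hnr
  have hH1 : 1 ≤ H := by omega
  have hH0 : (0 : ℝ) < H := by exact_mod_cast hH1
  have hH1' : (1 : ℝ) ≤ H := by exact_mod_cast hH1
  have hHK : (K : ℝ) < H := by exact_mod_cast (by omega : K < H)
  -- the coefficients
  have hnd : ∀ i, 1 ≤ i → i ≤ j → nd ((Q : ℝ) * c i) ≤ E1 / (H : ℝ) ^ i := by
    intro i hi hij
    obtain ⟨q, hq1, hq2⟩ := hnr
    have h1 := unq d (fun k => if k ≤ j then c k else 0) (SPLx.sh d n q) (fun m => by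
      rw [pol_pad hj, SPLx.pol_sh, ← hq1]
      beta_reduce
      rw [add_sub_cancel_right]) i (hij.trans hj)
    beta_reduce at h1
    rw [if_pos hij] at h1
    rw [h1, hE1]
    exact SPLx.nd_sh hE hH1 hn.le hq2 hi
  have hc00 : c 0 = 0 := by
    unfold pol at hc0
    rw [Finset.sum_eq_single 0] at hc0
    · simpa using hc0
    · intro i _ hi
      simp [hi]
    · intro h
      exact absurd (mem_range.2 (Nat.succ_pos _)) h
  obtain ⟨T, hT⟩ : ∃ T : ℕ → ℝ, T = SPLx.rp Q j c := ⟨_, rfl⟩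
  obtain ⟨S, hS⟩ : ∃ S : ℕ → ℝ, S = fun i => c i - T i := ⟨_, rfl⟩
  have hT0 : T 0 = 0 := by
    rw [hT]
    unfold SPLx.rp
    rw [if_pos (Nat.zero_le _), hc00]
    simp
  have hS0 : S 0 = 0 := by
    rw [hS]
    beta_reduce
    rw [hT0, hc00, sub_zero]
  have hSi : ∀ i, 1 ≤ i → i ≤ j → |S i| * Q ≤ E1 / (H : ℝ) ^ i := by
    intro i hi hij
    rw [hS, hT]
    beta_reduce
    rw [SPLx.rp_near hQ c hij, div_mul_cancel₀ _ hQ0.ne']
    exact hnd i hi hij
  have hSi' : ∀ i, 1 ≤ i → i ≤ j → |S i| ≤ E1 / (H : ℝ) ^ i := by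
    intro i hi hij
    have h1 := hSi i hi hij
    have h2 : |S i| * 1 ≤ |S i| * Q := mul_le_mul_of_nonneg_left hQ1 (abs_nonneg _)
    linarith
  have hat0 : ∀ c' : ℕ → ℝ, c' 0 = 0 → pol j c' 0 = 0 := by
    intro c' hc'
    unfold pol
    apply Finset.sum_eq_zero
    intro i _
    rcases Nat.eq_zero_or_pos i with rfl | hi
    · rw [hc', zero_mul]
    · rw [Int.cast_zero, zero_pow (by omega), mul_zero]
  have hat1 : ∀ c' : ℕ → ℝ, pol j c' 1 = ∑ i ∈ range (j + 1), c' i := by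
    intro c'
    unfold pol
    exact Finset.sum_congr rfl fun i _ => by rw [Int.cast_one, one_pow, mul_one]
  have hsum : pol j S 1 + pol j T 1 = 0 := by
    rw [hat1, hat1, ← Finset.sum_add_distrib]
    rw [hat1] at hc1
    rw [← hc1]
    exact Finset.sum_congr rfl fun i _ => by rw [hS]; ring
  have hT1 : pol j T 1 = 0 := by
    have hz := SPLx.rp_rat Q j c
    rw [← hT] at hz
    choose z hz using hz
    have h1 : pol j T 1 * Q = ((∑ i ∈ range (j + 1), z i : ℤ) : ℝ) := by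
      rw [hat1, Finset.sum_mul]
      push_cast
      exact Finset.sum_congr rfl fun i _ => by rw [hz]; field_simp
    have h2 : |pol j S 1 * Q| < 1 := by
      rw [hat1, Finset.sum_mul]
      have h3 : |∑ i ∈ range (j + 1), S i * Q| ≤ ∑ _i ∈ range (j + 1), E1 / H := by
        refine (Finset.abs_sum_le_sum_abs _ _).trans (Finset.sum_le_sum fun i hi => ?_)
        have hij : i ≤ j := by have := mem_range.1 hi; omega
        rw [abs_mul, abs_of_pos hQ0]
        rcases Nat.eq_zero_or_pos i with rfl | hi0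
        · rw [hS0, abs_zero, zero_mul]
          positivity
        · refine (hSi i hi0 hij).trans ?_
          apply div_le_div_of_nonneg_left hE10 hH0
          calc (H : ℝ) = (H : ℝ) ^ 1 := (pow_one _).symm
            _ ≤ (H : ℝ) ^ i := pow_le_pow_right₀ hH1' hi0
      rw [Finset.sum_const, card_range, nsmul_eq_mul] at h3
      have h4 : ((j + 1 : ℕ) : ℝ) * (E1 / H) ≤ (d + 1) * (E1 / H) := by
        apply mul_le_mul_of_nonneg_right _ (by positivity)
        push_cast
        have : (j : ℝ) ≤ d := by exact_mod_cast hj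
        linarith
      have h5 : ((d : ℝ) + 1) * (E1 / H) < 1 := by
        rw [← mul_div_assoc, div_lt_one hH0]
        linarith
      linarith
    have h6 : pol j S 1 * Q = -(pol j T 1 * Q) := by
      have : pol j S 1 = -pol j T 1 := by linarith
      rw [this]
      ring
    rw [h6, abs_neg, h1] at h2
    have h7 : |∑ i ∈ range (j + 1), z i| < 1 := by exact_mod_cast h2
    rw [Int.abs_lt_one_iff] at h7
    rw [h7, Int.cast_zero] at h1
    exact (mul_eq_zero.1 h1).resolve_right hQ0.ne'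
  have hS1 : pol j S 1 = 0 := by linarith
  refine ⟨S, T, fun i => by rw [hS]; ring, hat0 S hS0, hS1, hat0 T hT0, hT1, ?_⟩
  apply SPLx.st_of hE10 hQ hH1 hj hn.le _ hSi'
  · rw [hT]
    exact SPLx.rp_rat Q j c
  · rw [hS0, abs_zero]
    exact zero_le_one

end Pool.Agent.NG
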