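import Mathlib
import Pool.Agent.Lib.NG.J

/-!
# JET (MP_663568_nt), row STEPA: from `ker η` to `J`  (helper68)
-/

set_option autoImplicit false
open Finset Topology

namespace Pool.Agent.NG

open Amb Pool.Agent.Lib.MP_663568_nt Pool.Agent.Lib.MP_663568_nt.Katai
  Pool.Agent.Lib.MP_663568_nt.Nul Pool.Agent.SV Pool.Agent.VQ Pool.Agent.NV

noncomputable section

namespace STEPAaux

theorem filt_le {U : Type} [Amb U] {Gf : ℕ → Subgroup U} {d : ℕ} (hG : Filt Gf d) (i : ℕ) :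
    Gf i ≤ Gf 0 := by
  induction i with
  | zero => exact le_rfl
  | succ i ih => exact (hG.anti i).trans ih

theorem nrmM {U : Type} [Amb U] {Gf : ℕ → Subgroup U} {d : ℕ} (hG : Filt Gf d) (i : ℕ) :
    Nrm (Gf 0) (Gf i) := by
  intro x hx y hy
  have h := hG.com 0 i x hx y hy
  rw [zero_add] at h
  have h2 := (Gf i).mul_mem h hy
  have h3 : x * y * x⁻¹ * y⁻¹ * y = x * y * x⁻¹ := by group
  rwa [h3] at h2

theorem pce_sub {s t m b L : ℕ} (h : t ≤ L) : pce s t m b ⊆ range L := by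
  intro y hy
  have := (mem_Ico.mp (mem_filter.mp hy).1).2
  exact mem_range.mpr (by omega)

/-- The intersection of two parts of classes. -/
theorem pce_inter {s t m b s' t' q b' : ℕ} (hne : (pce s t m b ∩ pce s' t' q b').Nonempty) :
    ∃ b'' : ℕ, pce s t m b ∩ pce s' t' q b' = pce (max s s') (min t t') (Nat.lcm m q) b'' := by
  obtain ⟨y₀, hy₀⟩ := hne
  simp only [pce, mem_inter, mem_filter, mem_Ico] at hy₀
  obtain ⟨⟨-, h1⟩, ⟨-, h2⟩⟩ := hy₀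
  refine ⟨y₀, ?_⟩
  ext y
  simp only [pce, mem_inter, mem_filter, mem_Ico, lt_min_iff, max_le_iff]
  constructor
  · rintro ⟨⟨⟨h3, h4⟩, h5⟩, ⟨⟨h6, h7⟩, h8⟩⟩
    refine ⟨⟨⟨h3, h6⟩, ⟨h4, h7⟩⟩, ?_⟩
    rw [Nat.modEq_iff_dvd]
    have h9 : (m : ℤ) ∣ (y₀ : ℤ) - y := (h5.trans h1.symm).dvd
    have h10 : (q : ℤ) ∣ (y₀ : ℤ) - y := (h8.trans h2.symm).dvd
    have h11 : ((Nat.lcm m q : ℕ) : ℤ) = ((Int.lcm (m : ℤ) (q : ℤ) : ℕ) : ℤ) := by
      rw [Int.lcm_natCast_natCast]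
    rw [h11]
    exact Int.coe_lcm_dvd h9 h10
  · rintro ⟨⟨⟨h3, h6⟩, ⟨h4, h7⟩⟩, h8⟩
    refine ⟨⟨⟨h3, h4⟩, ?_⟩, ⟨⟨h6, h7⟩, ?_⟩⟩
    · exact (h8.of_dvd (Nat.dvd_lcm_left m q)).trans h1
    · exact (h8.of_dvd (Nat.dvd_lcm_right m q)).trans h2

/-- One pair of constants and one part of a class. -/
theorem one {U : Type} [AmbQ U] {Gf : ℕ → Subgroup U} {d : ℕ} {J' : Subgroup U}
    (hFNC : FNC_stmt) (hLBM : LBM_stmt) (hG : Filt Gf d) (hL : LOC Gf d J') {F : U → ℂ}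
    (hF : Fn (Gf 0) (Gf (d + 1)) F) (w : U × U) (h1 : w.1 ∈ Gf 0) (h2 : w.2 ∈ Gf 0)
    (h3 : w.2 ∈ (AmbQ.Qr : Subgroup U)) (q : ℕ) (hq : 1 ≤ q) (δ' : ℝ) (hδ' : 0 < δ') :
    ∃ C : Cst U, C.Ok (Gf 0) ∧ 1 ≤ C.H₀ ∧ ∀ (H : ℕ) (a : ℕ → ℂ) (g : ℤ → U) (R : ℕ → ℤ → U)
      (S : Finset ℕ) (s t b : ℕ), C.H₀ ≤ H → (∀ y, ‖a y‖ ≤ 1) → PS Gf 0 g → S ⊆ range H →
      δ' * H ≤ #S → (∀ n ∈ S, Jt Gf J' (R n)) → t ≤ 2 * H →
      (∀ n ∈ S, δ' * H ≤ ‖∑ y ∈ pce s t q b,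
        a y * F (w.1 * (w.2⁻¹ * g y * w.2) * R n ((y : ℤ) - n))‖) → C.Cor F H a g := by
  have hF' : Fn (Gf 0) (Gf (d + 1)) fun x => F (w.1 * x) :=
    (hFNC U (Gf 0) (Gf (d + 1)) F (hG.rat 0) (nrmM hG (d + 1)) hF).1 w.1 h1
  obtain ⟨C, hC, hCor⟩ := hL _ hF' δ' hδ'
  refine ⟨⟨C.c, C.q * q, max 1 C.H₀, (fun x => w.1 * x * w.2⁻¹) '' C.K,
    (fun x => w.2 * x) '' C.Z⟩, ⟨hC.c0, ?_, ?_, hC.Zf.image _, ?_⟩, le_max_left _ _, ?_⟩
  · exact hC.K.image ((continuous_const.mul continuous_id).mul continuous_const)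
  · rintro x ⟨κ, hκ, rfl⟩
    exact (Gf 0).mul_mem ((Gf 0).mul_mem h1 (hC.KG hκ)) ((Gf 0).inv_mem h2)
  · rintro x ⟨ζ, hζ, rfl⟩
    exact ⟨(Gf 0).mul_mem h2 (hC.ZG ζ hζ).1, (AmbQ.Qr : Subgroup U).mul_mem h3 (hC.ZG ζ hζ).2⟩
  intro H a g R S s t b hH ha hg hSH hcard hR ht hcor
  have hH1 : 1 ≤ H := (le_max_left _ _).trans hH
  have hHr : (1 : ℝ) ≤ H := by exact_mod_cast hH1
  -- the conjugate of `g`
  have hg' : PS Gf 0 fun m => w.2⁻¹ * g m * w.2 := by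
    have hB := hLBM U ℤ Gf d hG
    exact hB.1 0 _ _ (hB.1 0 _ _ (hB.2.2.2.1 0 _ ((Gf 0).inv_mem h2)) hg) (hB.2.2.2.1 0 _ h2)
  have key := hCor H (fun y => if y ∈ pce s t q b then a y else 0)
    (fun m => w.2⁻¹ * g m * w.2) R S ((le_max_right _ _).trans hH) (by
      refine ⟨?_, hg', hSH, hcard, hR, ?_⟩
      · intro y
        split_ifs
        · exact ha y
        · simp
      · intro n hn
        refine (hcor n hn).trans (le_of_eq ?_)
        congr 1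
        have e1 : ∀ y ∈ range (2 * H), (if y ∈ pce s t q b then a y else 0) *
            F (w.1 * (w.2⁻¹ * g y * w.2 * R n ((y : ℤ) - n))) =
            if y ∈ pce s t q b then
              a y * F (w.1 * (w.2⁻¹ * g y * w.2) * R n ((y : ℤ) - n)) else 0 := by
          intro y _
          split_ifs
          · rw [mul_assoc w.1 (w.2⁻¹ * g y * w.2)]
          · rw [zero_mul]
        rw [Finset.sum_congr rfl e1, Finset.sum_ite_mem, inter_eq_right.mpr (pce_sub ht)])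
  obtain ⟨κ, hκ, ζ, hζ, s', t', m, b', hm, hmq, ht', hc'⟩ := key
  have e2 : ∑ y ∈ pce s' t' m b', (if y ∈ pce s t q b then a y else 0) *
      F (w.1 * (κ * (w.2⁻¹ * g y * w.2) * ζ)) =
      ∑ y ∈ pce s' t' m b' ∩ pce s t q b,
        a y * F (w.1 * κ * w.2⁻¹ * g y * (w.2 * ζ)) := by
    rw [← Finset.sum_ite_mem]
    refine Finset.sum_congr rfl fun y _ => ?_
    split_ifs
    · congr 2
      group
    · rw [zero_mul]
  rw [e2] at hc'
  have hne : (pce s' t' m b' ∩ pce s t q b).Nonempty := by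
    rw [Finset.nonempty_iff_ne_empty]
    intro h
    rw [h, Finset.sum_empty, norm_zero] at hc'
    have := mul_pos hC.c0 (show (0 : ℝ) < H by linarith)
    linarith
  obtain ⟨b'', hb''⟩ := pce_inter hne
  rw [hb''] at hc'
  refine ⟨w.1 * κ * w.2⁻¹, ⟨κ, hκ, rfl⟩, w.2 * ζ, ⟨ζ, hζ, rfl⟩, _, _, _, b'', ?_, ?_, ?_, hc'⟩
  · exact Nat.lcm_pos hm hq
  · exact (Nat.le_of_dvd (Nat.mul_pos hm hq) (Nat.lcm_dvd_mul m q)).trans
      (Nat.mul_le_mul_right q hmq)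
  · exact (min_le_left _ _).trans ht'

/-- The decomposition of `[0, 2 H)`. -/
theorem decomp {A : Type} [AddCommMonoid A] (ℓ q P L : ℕ) (hℓ : 1 ≤ ℓ) (hq : 1 ≤ q)
    (hP : L ≤ P * ℓ) (f : ℕ → A) :
    ∑ y ∈ range L, f y = ∑ p ∈ range P ×ˢ range q,
      ∑ y ∈ pce (p.1 * ℓ) (min ((p.1 + 1) * ℓ) L) q p.2, f y := by
  rw [← Finset.sum_fiberwise_of_maps_to (s := range L) (t := range P ×ˢ range q)
    (g := fun y => (y / ℓ, y % q))]
  · refine Finset.sum_congr rfl fun p hp => ?_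
    obtain ⟨hp1, hp2⟩ := mem_product.mp hp
    rw [mem_range] at hp1 hp2
    refine Finset.sum_congr ?_ fun _ _ => rfl
    ext y
    simp only [pce, mem_filter, mem_Ico, mem_range, lt_min_iff, Prod.ext_iff]
    have h1 : y / ℓ = p.1 ↔ p.1 * ℓ ≤ y ∧ y < (p.1 + 1) * ℓ := by
      rw [Nat.div_eq_iff (by omega)]
      constructor
      · rintro ⟨h2, h3⟩
        refine ⟨h2, ?_⟩
        have : (p.1 + 1) * ℓ = p.1 * ℓ + ℓ := by ring
        omega
      · rintro ⟨h2, h3⟩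
        refine ⟨h2, ?_⟩
        have : (p.1 + 1) * ℓ = p.1 * ℓ + ℓ := by ring
        omega
    have h4 : y % q = p.2 ↔ y ≡ p.2 [MOD q] := by
      rw [Nat.ModEq, Nat.mod_eq_of_lt hp2]
    rw [h1, h4]
    tauto
  · intro y hy
    rw [mem_range] at hy
    refine mem_product.mpr ⟨mem_range.mpr ?_, mem_range.mpr (Nat.mod_lt _ (by omega))⟩
    exact Nat.div_lt_of_lt_mul (by rw [mul_comm]; omega)

end STEPAaux

open STEPAaux

theorem stepa : STEPA_stmt := by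
  intro hFJ hCSTF hFNC hLBM _ U _ Gf d J η hG hJ hη hL F hF E δ Q hE hδ hQ
  obtain ⟨lam, q, H₁, L, hlam, hq, hLm, hfj⟩ :=
    hFJ U Gf d J η F E (δ / 4) Q hG hJ hη hF hE (by positivity) hQ
  set P : ℕ := ⌈4 / lam⌉₊ with hP
  have hPr : 4 / lam ≤ P := Nat.le_ceil _
  have hP0 : (0 : ℝ) < P := lt_of_lt_of_le (by positivity) hPr
  have hq0 : (0 : ℝ) < q := by exact_mod_cast hq
  set ν : ℝ := (P * q) * (L.length + 1) with hν
  have hν0 : 0 < ν := by positivity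
  set δ' : ℝ := δ / (2 * ν) with hδ'
  have hδ'0 : 0 < δ' := by positivity
  -- the constants
  have hw : ∀ i : Fin L.length, ∃ C : Cst U, C.Ok (Gf 0) ∧ 1 ≤ C.H₀ ∧ ∀ (H : ℕ) (a : ℕ → ℂ)
      (g : ℤ → U) (R : ℕ → ℤ → U) (S : Finset ℕ) (s t b : ℕ), C.H₀ ≤ H → (∀ y, ‖a y‖ ≤ 1) →
      PS Gf 0 g → S ⊆ range H → δ' * H ≤ #S → (∀ n ∈ S, Jt Gf (kerS J η) (R n)) → t ≤ 2 * H →
      (∀ n ∈ S, δ' * H ≤ ‖∑ y ∈ pce s t q b,
        a y * F ((L.getD i (1, 1)).1 * ((L.getD i (1, 1)).2⁻¹ * g y * (L.getD i (1, 1)).2) *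
          R n ((y : ℤ) - n))‖) → C.Cor F H a g := by
    intro i
    have hi : L.getD i (1, 1) ∈ L := by
      rw [List.getD_eq_getElem _ _ i.2]
      exact List.getElem_mem i.2
    obtain ⟨h1, h2, h3⟩ := hLm _ hi
    exact one hFNC hLBM hG hL hF _ h1 h2 h3 q hq δ' hδ'0
  choose C hOk hC1 hC using hw
  obtain ⟨C', hC'Ok, hC'H, hC'Cor⟩ := hCSTF U (Gf 0) L.length C hOk
  refine ⟨⟨C'.c, C'.q, C'.H₀ + H₁ + ⌈2 / lam⌉₊ + 1, C'.K, C'.Z⟩,
    ⟨hC'Ok.c0, hC'Ok.K, hC'Ok.KG, hC'Ok.Zf, hC'Ok.ZG⟩, ?_⟩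
  intro H a g R S hH hD hnr
  show C'.Cor F H a g
  have hH' : C'.H₀ + H₁ + ⌈2 / lam⌉₊ + 1 ≤ H := hH
  have hH1 : (1 : ℝ) ≤ H := by
    have : 1 ≤ H := by omega
    exact_mod_cast this
  have hlamH : 2 ≤ lam * H := by
    have h1 : 2 / lam ≤ H := by
      refine (Nat.le_ceil _).trans ?_
      have : ⌈2 / lam⌉₊ ≤ H := by omega
      exact_mod_cast this
    rwa [div_le_iff₀' hlam] at h1
  set ℓ : ℕ := ⌊lam * H⌋₊ with hℓ
  have hℓ1 : (ℓ : ℝ) ≤ lam * H := Nat.floor_le (by positivity)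
  have hℓ2 : lam * H / 2 ≤ ℓ := by
    have := Nat.lt_floor_add_one (lam * H)
    linarith
  have hℓ3 : 1 ≤ ℓ := by
    have h1 : (1 : ℝ) ≤ ℓ := by linarith
    exact_mod_cast h1
  have hcov : 2 * H ≤ P * ℓ := by
    have h1 : (2 : ℝ) * H ≤ P * ℓ := by
      calc (2 : ℝ) * H = 4 / lam * (lam * H / 2) := by field_simp; ring
        _ ≤ P * ℓ := mul_le_mul hPr hℓ2 (by positivity) (by positivity)
    exact_mod_cast h1
  -- one point
  have hpt : ∀ n ∈ S, ∃ (f : (ℕ × ℕ) × ℕ) (R' : ℤ → U),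
      f ∈ (range P ×ˢ range q) ×ˢ range L.length ∧ Jt Gf (kerS J η) R' ∧
      δ' * H ≤ ‖∑ y ∈ pce (f.1.1 * ℓ) (min ((f.1.1 + 1) * ℓ) (2 * H)) q f.1.2,
        a y * F ((L.getD f.2 (1, 1)).1 * ((L.getD f.2 (1, 1)).2⁻¹ * g y *
          (L.getD f.2 (1, 1)).2) * R' ((y : ℤ) - n))‖ := by
    intro n hn
    have hnH : n < H := mem_range.mp (hD.sub hn)
    have hfp : ∀ p : ℕ × ℕ, ∃ w ∈ L, ∃ R' : ℤ → U, Jt Gf (kerS J η) R' ∧
        ∀ y ∈ pce (p.1 * ℓ) (min ((p.1 + 1) * ℓ) (2 * H)) q p.2,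
          ‖F (g y * R n ((y : ℤ) - n)) - F (w.1 * (w.2⁻¹ * g y * w.2) * R' ((y : ℤ) - n))‖ ≤
            δ / 4 := by
      intro p
      apply hfj H n g (R n) (by omega) hnH hD.pg (hD.jt n hn) (hnr n hn)
      · exact min_le_right _ _
      · have h1 : ((min ((p.1 + 1) * ℓ) (2 * H) : ℕ) : ℝ) ≤ ((p.1 + 1) * ℓ : ℕ) := by
          exact_mod_cast min_le_left _ _
        refine h1.trans ?_
        push_cast
        linarith
    choose w hwL R' hR' hε using hfp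
    have hPq : (range P ×ˢ range q).Nonempty := by
      have h1 : 0 < P := by exact_mod_cast hP0
      exact ⟨(0, 0), mem_product.mpr ⟨mem_range.mpr h1, mem_range.mpr (by omega)⟩⟩
    have hsum : ∑ p ∈ range P ×ˢ range q, δ / (2 * (P * q)) * H ≤
        ∑ p ∈ range P ×ˢ range q,
          ‖∑ y ∈ pce (p.1 * ℓ) (min ((p.1 + 1) * ℓ) (2 * H)) q p.2,
            a y * F ((w p).1 * ((w p).2⁻¹ * g y * (w p).2) * R' p ((y : ℤ) - n))‖ := by
      have h1 := hD.cor n hn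
      rw [decomp ℓ q P (2 * H) hℓ3 hq hcov] at h1
      have h2 : ∀ p ∈ range P ×ˢ range q,
          ‖∑ y ∈ pce (p.1 * ℓ) (min ((p.1 + 1) * ℓ) (2 * H)) q p.2,
            a y * F (g y * R n ((y : ℤ) - n))‖ ≤
          ‖∑ y ∈ pce (p.1 * ℓ) (min ((p.1 + 1) * ℓ) (2 * H)) q p.2,
            a y * F ((w p).1 * ((w p).2⁻¹ * g y * (w p).2) * R' p ((y : ℤ) - n))‖ +
          ∑ y ∈ pce (p.1 * ℓ) (min ((p.1 + 1) * ℓ) (2 * H)) q p.2, δ / 4 := by
        intro p _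
        have h3 : ∑ y ∈ pce (p.1 * ℓ) (min ((p.1 + 1) * ℓ) (2 * H)) q p.2,
            a y * F (g y * R n ((y : ℤ) - n)) =
            ∑ y ∈ pce (p.1 * ℓ) (min ((p.1 + 1) * ℓ) (2 * H)) q p.2,
              a y * F ((w p).1 * ((w p).2⁻¹ * g y * (w p).2) * R' p ((y : ℤ) - n)) +
            ∑ y ∈ pce (p.1 * ℓ) (min ((p.1 + 1) * ℓ) (2 * H)) q p.2,
              a y * (F (g y * R n ((y : ℤ) - n)) -
                F ((w p).1 * ((w p).2⁻¹ * g y * (w p).2) * R' p ((y : ℤ) - n))) := by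
          rw [← Finset.sum_add_distrib]
          refine Finset.sum_congr rfl fun y _ => ?_
          ring
        rw [h3]
        refine (norm_add_le _ _).trans (add_le_add le_rfl ?_)
        refine (norm_sum_le _ _).trans (Finset.sum_le_sum fun y hy => ?_)
        rw [norm_mul]
        calc _ ≤ 1 * (δ / 4) := mul_le_mul (hD.ba y) (hε p y hy) (norm_nonneg _) zero_le_one
          _ = δ / 4 := one_mul _
      have h4 := h1.trans ((norm_sum_le _ _).trans (Finset.sum_le_sum h2))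
      rw [Finset.sum_add_distrib, ← decomp ℓ q P (2 * H) hℓ3 hq hcov (fun _ => δ / 4),
        Finset.sum_const, card_range, nsmul_eq_mul] at h4
      rw [Finset.sum_const, card_product, card_range, card_range, nsmul_eq_mul]
      push_cast at h4 ⊢
      have h5 : (P : ℝ) * q * (δ / (2 * (P * q)) * H) = δ / 2 * H := by
        field_simp
      rw [h5]
      linarith
    obtain ⟨p, hp, hple⟩ := Finset.exists_le_of_sum_le hPq hsum
    obtain ⟨i, hi, hiw⟩ := List.getElem_of_mem (hwL p)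
    refine ⟨(p, i), R' p, mem_product.mpr ⟨hp, mem_range.mpr hi⟩, hR' p, ?_⟩
    show δ' * H ≤ ‖∑ y ∈ pce (p.1 * ℓ) (min ((p.1 + 1) * ℓ) (2 * H)) q p.2,
        a y * F ((L.getD i (1, 1)).1 * ((L.getD i (1, 1)).2⁻¹ * g y *
          (L.getD i (1, 1)).2) * R' p ((y : ℤ) - n))‖
    rw [List.getD_eq_getElem _ _ hi, hiw]
    refine le_trans ?_ hple
    apply mul_le_mul_of_nonneg_right _ (by positivity)
    rw [hδ']
    apply div_le_div_of_nonneg_left hδ.le (by positivity)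
    rw [hν]
    have h6 : (0 : ℝ) ≤ L.length := by positivity
    have h7 : (0 : ℝ) < P * q := by positivity
    nlinarith
  choose! f R' hf hR' hcor' using hpt
  -- one class for many points
  have hSne : S.Nonempty := by
    rw [← Finset.card_pos]
    have h1 : (0 : ℝ) < #S := lt_of_lt_of_le (mul_pos hδ (by linarith)) hD.card
    exact_mod_cast h1
  obtain ⟨n₀, hn₀⟩ := hSne
  obtain ⟨fv, hfv, hfc⟩ := Finset.exists_le_card_fiber_of_nsmul_le_card_of_maps_to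
    (s := S) (t := (range P ×ˢ range q) ×ˢ range L.length) (f := f) (b := δ / ν * H) hf
    ⟨f n₀, hf n₀ hn₀⟩ (by
      rw [nsmul_eq_mul, card_product, card_product, card_range, card_range, card_range]
      refine le_trans ?_ hD.card
      push_cast
      have h1 : δ * H = ν * (δ / ν * H) := by field_simp
      rw [h1]
      apply mul_le_mul_of_nonneg_right _ (by positivity)
      rw [hν]
      apply mul_le_mul_of_nonneg_left _ (by positivity)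
      linarith)
  obtain ⟨hfv1, hfv2⟩ := mem_product.mp hfv
  rw [mem_range] at hfv2
  apply hC'Cor ⟨fv.2, hfv2⟩ F H a g
  refine hC ⟨fv.2, hfv2⟩ H a g R' (S.filter fun n => f n = fv) (fv.1.1 * ℓ)
    (min ((fv.1.1 + 1) * ℓ) (2 * H)) fv.1.2 ?_ hD.ba hD.pg ((filter_subset _ _).trans hD.sub) ?_
    ?_ (min_le_right _ _) ?_
  · exact (hC'H _).trans (by omega)
  · refine le_trans ?_ hfc
    apply mul_le_mul_of_nonneg_right _ (by positivity)
    rw [hδ']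
    apply div_le_div_of_nonneg_left hδ.le hν0
    linarith
  · intro n hn
    exact hR' n (mem_filter.mp hn).1
  · intro n hn
    obtain ⟨hn1, hn2⟩ := mem_filter.mp hn
    have h1 := hcor' n hn1
    rw [hn2] at h1
    exact h1

end

end Pool.Agent.NG
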