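import Mathlib
import Pool.Agent.Lib.NG.J

/-!
# JET (MP_663568_nt): cutting `[0, 2 H)` into parts of classes  (helper92)
-/

set_option autoImplicit false
open Finset Topology

namespace Pool.Agent.NG

noncomputable section

/-- `[0, 2 H)` is the union of the parts of classes `pce (i w) ((i + 1) w) q r`. -/
theorem pce_split {H w q T : ℕ} (hw : 1 ≤ w) (hq : 1 ≤ q) (hT : 2 * H ≤ T * w) {β : Type}
    [AddCommMonoid β] (f : ℕ → β) :
    ∑ y ∈ range (2 * H), f y = ∑ i ∈ range T ×ˢ range q,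
      ∑ y ∈ pce (i.1 * w) (min ((i.1 + 1) * w) (2 * H)) q i.2, f y := by
  have hmaps : ∀ y ∈ range (2 * H), (y / w, y % q) ∈ range T ×ˢ range q := by
    intro y hy
    rw [mem_range] at hy
    rw [mem_product, mem_range, mem_range]
    exact ⟨(Nat.div_lt_iff_lt_mul hw).mpr (lt_of_lt_of_le hy hT), Nat.mod_lt _ hq⟩
  rw [← Finset.sum_fiberwise_of_maps_to hmaps f]
  apply Finset.sum_congr rfl
  rintro ⟨i, r⟩ hi
  rw [mem_product, mem_range, mem_range] at hi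
  apply Finset.sum_congr _ (fun _ _ => rfl)
  ext y
  simp only [mem_filter, mem_range, Prod.mk.injEq, pce, mem_Ico, lt_min_iff]
  constructor
  · rintro ⟨h1, h2, h3⟩
    refine ⟨⟨?_, ?_, h1⟩, ?_⟩
    · rw [← h2]; exact Nat.div_mul_le_self y w
    · rw [← h2, mul_comm]; exact Nat.lt_mul_div_succ y hw
    · unfold Nat.ModEq
      rw [h3, Nat.mod_eq_of_lt hi.2]
  · rintro ⟨⟨h1, h2, h3⟩, h4⟩
    refine ⟨h3, ?_, ?_⟩
    · apply le_antisymm
      · exact Nat.lt_succ_iff.mp ((Nat.div_lt_iff_lt_mul hw).mpr h2)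
      · exact (Nat.le_div_iff_mul_le hw).mpr h1
    · unfold Nat.ModEq at h4
      rw [h4, Nat.mod_eq_of_lt hi.2]

/-- **Pieces**: `[0, 2 H)` is cut into at most `N` parts of classes modulo `q` of length at most
`lam H`; a sum of size `c H` is large on one of them, also after an error `ε` in each term. -/
theorem pieces (lam : ℝ) (q : ℕ) (hlam : 0 < lam) (hq : 1 ≤ q) : ∃ N H₁ : ℕ, 1 ≤ N ∧ 1 ≤ H₁ ∧
    ∀ H : ℕ, H₁ ≤ H → ∃ (P : Finset (ℕ × ℕ)) (s t : ℕ × ℕ → ℕ), #P = N ∧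
      (∀ i, t i ≤ 2 * H ∧ (t i : ℝ) ≤ s i + lam * H) ∧
      (∀ f : ℕ → ℂ, ∑ y ∈ range (2 * H), f y = ∑ i ∈ P, ∑ y ∈ pce (s i) (t i) q i.2, f y) ∧
      ∀ (f : ℕ → ℂ) (c ε : ℝ), c * H ≤ ‖∑ y ∈ range (2 * H), f y‖ →
        ∃ i ∈ P, (c - 2 * ε) / N * H ≤ ‖∑ y ∈ pce (s i) (t i) q i.2, f y‖ -
          ε * #(pce (s i) (t i) q i.2) := by
  set T : ℕ := ⌈4 / lam⌉₊ + 1 with hT
  refine ⟨T * q, ⌈2 / lam⌉₊ + 1, Nat.mul_pos (by omega) hq, by omega, ?_⟩
  intro H hH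
  have hHr : 2 ≤ lam * H := by
    have h1 : 2 / lam ≤ (H : ℝ) := (Nat.le_ceil _).trans (by exact_mod_cast (by omega : ⌈2 / lam⌉₊ ≤ H))
    rw [div_le_iff₀ hlam] at h1
    linarith [mul_comm (H : ℝ) lam]
  set w : ℕ := ⌊lam * H⌋₊ with hw
  have hw1 : (w : ℝ) ≤ lam * H := Nat.floor_le (by linarith)
  have hw2 : lam * H < w + 1 := Nat.lt_floor_add_one _
  have hwpos : 1 ≤ w := by
    have : (1 : ℝ) ≤ w := by linarith
    exact_mod_cast this
  have hTr : 4 / lam ≤ T := by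
    rw [hT]; push_cast
    linarith [Nat.le_ceil (4 / lam)]
  have hTw : 2 * H ≤ T * w := by
    have h1 : (4 : ℝ) ≤ T * lam := by rwa [div_le_iff₀ hlam] at hTr
    have h2 : lam * H / 2 ≤ w := by linarith
    have h3 : (2 : ℝ) * H ≤ T * w := by
      have hT0 : (0 : ℝ) ≤ T := Nat.cast_nonneg _
      calc (2 : ℝ) * H = 4 * H / 2 := by ring
        _ ≤ T * lam * H / 2 := by
            have := mul_le_mul_of_nonneg_right h1 (Nat.cast_nonneg H : (0 : ℝ) ≤ H)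
            linarith
        _ = T * (lam * H / 2) := by ring
        _ ≤ T * w := mul_le_mul_of_nonneg_left h2 hT0
    exact_mod_cast h3
  have hcard : #(range T ×ˢ range q) = T * q := by
    rw [card_product, card_range, card_range]
  refine ⟨range T ×ˢ range q, fun i => i.1 * w, fun i => min ((i.1 + 1) * w) (2 * H), hcard, ?_,
    fun f => pce_split hwpos hq hTw f, ?_⟩
  · intro i
    refine ⟨min_le_right _ _, ?_⟩
    have h1 : ((min ((i.1 + 1) * w) (2 * H) : ℕ) : ℝ) ≤ ((i.1 + 1) * w : ℕ) := by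
      exact_mod_cast min_le_left _ _
    refine h1.trans ?_
    push_cast
    linarith
  · intro f c ε hf
    have hne : (range T ×ˢ range q).Nonempty := by
      rw [← card_pos, hcard]; exact Nat.mul_pos (by omega) hq
    have h1 : ∑ i ∈ range T ×ˢ range q, ((c - 2 * ε) / (T * q : ℕ) * H : ℝ) ≤
        ∑ i ∈ range T ×ˢ range q,
          (‖∑ y ∈ pce (i.1 * w) (min ((i.1 + 1) * w) (2 * H)) q i.2, f y‖ -
          ε * #(pce (i.1 * w) (min ((i.1 + 1) * w) (2 * H)) q i.2)) := by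
      rw [sum_const, hcard, sum_sub_distrib, ← mul_sum]
      have h2 : (∑ i ∈ range T ×ˢ range q,
          (#(pce (i.1 * w) (min ((i.1 + 1) * w) (2 * H)) q i.2) : ℝ)) = 2 * H := by
        have h3 := pce_split hwpos hq hTw (fun _ => (1 : ℝ))
        simp only [sum_const, card_range, nsmul_eq_mul, mul_one] at h3
        rw [← h3]; push_cast; ring
      rw [h2]
      have h4 := norm_sum_le (range T ×ˢ range q)
        (fun i : ℕ × ℕ => ∑ y ∈ pce (i.1 * w) (min ((i.1 + 1) * w) (2 * H)) q i.2, f y)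
      rw [← pce_split hwpos hq hTw f] at h4
      have hN : ((T * q : ℕ) : ℝ) ≠ 0 := by
        have : 0 < T * q := Nat.mul_pos (by omega) hq
        positivity
      have h5 : (T * q) • ((c - 2 * ε) / (T * q : ℕ) * H : ℝ) = (c - 2 * ε) * H := by
        rw [nsmul_eq_mul]; field_simp
      rw [h5]
      linarith
    obtain ⟨i, hi, h6⟩ := exists_le_of_sum_le hne h1
    exact ⟨i, hi, h6⟩

/-- Pigeonhole on a set of `n`. -/
theorem pigeon {P : Finset (ℕ × ℕ)} {S : Finset ℕ} {N H : ℕ} {δ : ℝ} (hP : #P = N) (hN : 1 ≤ N)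
    (hS : δ * H ≤ #S) (f : ℕ → ℕ × ℕ) (hf : ∀ n ∈ S, f n ∈ P) :
    ∃ i ∈ P, δ / N * H ≤ #(S.filter fun n => f n = i) := by
  have hne : P.Nonempty := by rw [← card_pos]; omega
  have hN' : (0 : ℝ) < N := by exact_mod_cast hN
  obtain ⟨i, hi, h⟩ := Finset.exists_le_card_fiber_of_nsmul_le_card_of_maps_to hf hne
    (b := δ / N * H) (by rw [hP, nsmul_eq_mul]; calc
      (N : ℝ) * (δ / N * H) = δ * H := by field_simp
      _ ≤ #S := hS)
  exact ⟨i, hi, h⟩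

/-- The intersection of three parts of classes, if not empty, is a part of a class. -/
theorem pce_inter (s₁ t₁ q₁ b₁ s₂ t₂ q₂ b₂ : ℕ) (y₀ : ℕ) (h1 : y₀ ∈ pce s₁ t₁ q₁ b₁)
    (h2 : y₀ ∈ pce s₂ t₂ q₂ b₂) : pce s₁ t₁ q₁ b₁ ∩ pce s₂ t₂ q₂ b₂ =
      pce (max s₁ s₂) (min t₁ t₂) (Nat.lcm q₁ q₂) y₀ := by
  simp only [pce, mem_filter, mem_Ico] at h1 h2
  ext y
  simp only [pce, mem_inter, mem_filter, mem_Ico, max_le_iff, lt_min_iff]
  have hl : y ≡ y₀ [MOD Nat.lcm q₁ q₂] ↔ y ≡ y₀ [MOD q₁] ∧ y ≡ y₀ [MOD q₂] := by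
    rw [Nat.modEq_iff_dvd, Nat.modEq_iff_dvd, Nat.modEq_iff_dvd, Int.natCast_dvd, Int.natCast_dvd,
      Int.natCast_dvd, Nat.lcm_dvd_iff]
  rw [hl]
  constructor
  · rintro ⟨⟨⟨a1, a2⟩, a3⟩, ⟨a4, a5⟩, a6⟩
    exact ⟨⟨⟨a1, a4⟩, a2, a5⟩, a3.trans h1.2.symm, a6.trans h2.2.symm⟩
  · rintro ⟨⟨⟨a1, a4⟩, a2, a5⟩, a3, a6⟩
    exact ⟨⟨⟨a1, a2⟩, a3.trans h1.2⟩, ⟨a4, a5⟩, a6.trans h2.2⟩

end

end Pool.Agent.NG
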