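import Mathlib
import Pool.Agent.Lib.NG.PCS

/-!
# JET (MP_663568_nt), row STEPC: from the kernel of `χ` to `G`  (helper92)
-/

set_option autoImplicit false
open Finset Topology
open scoped Pointwise

namespace Pool.Agent.NG

noncomputable section

open Amb AmbQ Pool.Agent.Lib.MP_663568_nt Pool.Agent.Lib.MP_663568_nt.Katai
  Pool.Agent.Lib.MP_663568_nt.Nul Pool.Agent.SV Pool.Agent.VQ Pool.Agent.NV

theorem nrm_topJ {U : Type} [Amb U] {Gf : ℕ → Subgroup U} {d : ℕ} (hG : Filt Gf d) :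
    Nrm (Gf 0) (Gf (d + 1)) := by
  intro x hx y hy
  have h := hG.com 0 (d + 1) x hx y hy
  rw [zero_add] at h
  have h2 := (Gf (d + 1)).mul_mem h hy
  rwa [inv_mul_cancel_right] at h2

theorem ps_mem {U : Type} [Amb U] {Gf : ℕ → Subgroup U} {g : ℤ → U} (hg : PS Gf 0 g) (n : ℤ) :
    g n ∈ Gf 0 := hg [] n

/-- Exchange of the terms of a sum, with weights of norm at most one. -/
theorem sum_exch {W V : Finset ℕ} (hW : W ⊆ V) {a f f' : ℕ → ℂ} {ε : ℝ} (hε : 0 ≤ ε)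
    (ha : ∀ y, ‖a y‖ ≤ 1) (h : ∀ y ∈ W, ‖f y - f' y‖ ≤ ε) :
    ‖∑ y ∈ W, a y * f y‖ - ε * #V ≤ ‖∑ y ∈ W, a y * f' y‖ := by
  have h1 : ∑ y ∈ W, a y * f y = ∑ y ∈ W, a y * f' y + ∑ y ∈ W, a y * (f y - f' y) := by
    rw [← sum_add_distrib]
    exact sum_congr rfl fun y _ => by ring
  have h2 : ‖∑ y ∈ W, a y * (f y - f' y)‖ ≤ ε * #V := by
    calc ‖∑ y ∈ W, a y * (f y - f' y)‖ ≤ ∑ y ∈ W, ‖a y * (f y - f' y)‖ := norm_sum_le _ _
      _ ≤ ∑ _y ∈ W, ε := by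
          apply sum_le_sum
          intro y hy
          rw [norm_mul]
          calc ‖a y‖ * ‖f y - f' y‖ ≤ 1 * ε := mul_le_mul (ha y) (h y hy) (norm_nonneg _) zero_le_one
            _ = ε := one_mul _
      _ = ε * #W := by rw [sum_const, nsmul_eq_mul, mul_comm]
      _ ≤ ε * #V := mul_le_mul_of_nonneg_left (by exact_mod_cast card_le_card hW) hε
  have h3 := norm_add_le (∑ y ∈ W, a y * f' y) (∑ y ∈ W, a y * (f y - f' y))
  rw [← h1] at h3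
  linarith

/-- **Row STEPC.** -/
theorem stepc : STEPC_stmt := by
  intro hFG2 hFGB hCST hFNC _ U _ Gf d J χ hG hJ hχ hχJ hLOC F hF E δ Q hE hδ hQ
  obtain ⟨M₀, s, E', lam, q, H₀, L, hM, hs, hla, hE', hlam, hq, hL, hfg⟩ :=
    hFG2 U Gf d J χ F E (δ / 4) Q hG hJ hχ hχJ hF hE (by positivity) hQ
  obtain ⟨N, H₁, hN, hH₁, hpieces⟩ := pieces lam q hlam hq
  have hN0 : (0 : ℝ) < N := by exact_mod_cast hN
  have hδ' : 0 < δ / 2 / N := by positivity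
  have hnrm := nrm_topJ hG
  have hle0 : kf Gf χ 0 ≤ Gf 0 := inf_le_left
  have hFκ : ∀ κ ∈ Gf 0, Fn (kf Gf χ 0) (kf Gf χ (d + 1)) fun x => F (κ * x) := by
    intro κ hκ
    obtain ⟨h1, _, _⟩ := hFNC U (Gf 0) (Gf (d + 1)) F (hG.rat 0) hnrm hF
    obtain ⟨_, h2, _⟩ := hFNC U (Gf 0) (Gf (d + 1)) (fun x => F (κ * x)) (hG.rat 0) hnrm (h1 κ hκ)
    exact h2 _ _ inf_le_left inf_le_left
  have hC : ∀ i : Fin L.length, ∃ C : Cst U, C.Ok (kf Gf χ 0) ∧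
      ∀ (H : ℕ) (a : ℕ → ℂ) (g : ℤ → U) (R : ℕ → ℤ → U) (S : Finset ℕ), C.H₀ ≤ H →
        Dta (kf Gf χ) J (fun x => F (L.get i * x)) (δ / 2 / N) H a g R S →
        C.Cor (fun x => F (L.get i * x)) H a g := fun i =>
    hLOC _ (hFκ _ (hL _ (L.get_mem i))) _ hδ'
  choose C hCok hCcor using hC
  obtain ⟨C', hC'ok, hC'H, hC'cor⟩ := hCST U (kf Gf χ 0) L.length C hCok
  have hc0 : 0 < C'.c := hC'ok.c0
  have hLfin : ({κ | κ ∈ L} : Set U).Finite := L.finite_toSet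
  have hKs : IsCompact (({κ | κ ∈ L} : Set U) * C'.K) := hLfin.isCompact.mul hC'ok.K
  have hKsG : (({κ | κ ∈ L} : Set U) * C'.K) ⊆ Gf 0 := by
    rintro _ ⟨x, hx, y, hy, rfl⟩
    exact (Gf 0).mul_mem (hL x hx) (hle0 (hC'ok.KG hy))
  obtain ⟨lam₂, q₂, K', Z', hlam₂, hq₂, hK', hK'G, hZ', hZ'G, hfgb⟩ :=
    hFGB U (Gf 0) (Gf (d + 1)) F s M₀ E' (C'.c / 4) Q (({κ | κ ∈ L} : Set U) * C'.K) C'.Z
      (hG.rat 0) hF hs hM hla hE' (by positivity) hQ hKs hKsG hC'ok.Zf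
      (fun ζ hζ => ⟨hle0 (hC'ok.ZG ζ hζ).1, (hC'ok.ZG ζ hζ).2⟩)
  obtain ⟨N₂, H₂, hN₂, hH₂, hpieces₂⟩ := pieces lam₂ q₂ hlam₂ hq₂
  have hN20 : (0 : ℝ) < N₂ := by exact_mod_cast hN₂
  refine ⟨⟨C'.c / 2 / N₂, q₂ * (C'.q * q), max (max H₀ H₁) (max C'.H₀ H₂), K', Z'⟩,
    ⟨by show 0 < C'.c / 2 / N₂; positivity, hK', hK'G, hZ', hZ'G⟩, ?_⟩
  intro H a g R S hH hD hNr
  have hHm : max (max H₀ H₁) (max C'.H₀ H₂) ≤ H := hH
  have hH0 : H₀ ≤ H := (le_max_left _ _).trans ((le_max_left _ _).trans hHm)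
  have hH1 : H₁ ≤ H := (le_max_right _ _).trans ((le_max_left _ _).trans hHm)
  have hH3 : C'.H₀ ≤ H := (le_max_left _ _).trans ((le_max_right _ _).trans hHm)
  have hH2 : H₂ ≤ H := (le_max_right _ _).trans ((le_max_right _ _).trans hHm)
  have hHpos : (0 : ℝ) < H := by
    have : 0 < H := by omega
    exact_mod_cast this
  obtain ⟨Sf, Tf, hST, hfg'⟩ := hfg H g hH0 hD.pg hNr
  obtain ⟨P, s₁, t₁, hP, hst, -, hgood⟩ := hpieces H hH1
  have h1 : ∀ n ∈ S, ∃ i ∈ P, (δ - 2 * (δ / 4)) / N * H ≤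
      ‖∑ y ∈ pce (s₁ i) (t₁ i) q i.2, a y * F (g y * R n ((y : ℤ) - n))‖ -
        δ / 4 * #(pce (s₁ i) (t₁ i) q i.2) :=
    fun n hn => hgood (fun y => a y * F (g y * R n ((y : ℤ) - n))) δ (δ / 4) (hD.cor n hn)
  choose! f hfP hf using h1
  obtain ⟨i, hi, hcard⟩ := pigeon hP hN hD.card f hfP
  obtain ⟨ρ, g', hρ, -, hTρ, hg', hg'eq, κ, hκ, hR⟩ := hfg' (s₁ i) (t₁ i) i.2 (hst i).1 (hst i).2
  have hR2 : ∀ n : ℕ, ∃ R' : ℤ → U, n ∈ S → Jt (kf Gf χ) J R' ∧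
      ∀ y ∈ pce (s₁ i) (t₁ i) q i.2,
        ‖F (g y * R n ((y : ℤ) - n)) - F (κ * g' y * R' ((y : ℤ) - n))‖ ≤ δ / 4 := by
    intro n
    by_cases hn : n ∈ S
    · obtain ⟨R', h2, h3⟩ := hR n (R n) (hD.jt n hn)
      exact ⟨R', fun _ => ⟨h2, h3⟩⟩
    · exact ⟨fun _ => 1, fun h => absurd h hn⟩
  choose R' hR' using hR2
  obtain ⟨j, hj⟩ : ∃ j : Fin L.length, L.get j = κ := List.mem_iff_get.mp hκ
  have hsub : pce (s₁ i) (t₁ i) q i.2 ⊆ range (2 * H) := by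
    intro y hy
    simp only [pce, mem_filter, mem_Ico] at hy
    rw [mem_range]
    exact lt_of_lt_of_le hy.1.2 (hst i).1
  have hD' : Dta (kf Gf χ) J (fun x => F (L.get j * x)) (δ / 2 / N) H
      (fun y => if y ∈ pce (s₁ i) (t₁ i) q i.2 then a y else 0) g' R'
      (S.filter fun n => f n = i) := by
    refine ⟨?_, hg', (filter_subset _ _).trans hD.sub, ?_, ?_, ?_⟩
    · intro y
      split_ifs with h
      · exact hD.ba y
      · simp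
    · refine le_trans ?_ hcard
      apply mul_le_mul_of_nonneg_right _ hHpos.le
      apply div_le_div_of_nonneg_right _ hN0.le
      linarith
    · intro n hn
      exact (hR' n (mem_filter.mp hn).1).1
    · intro n hn
      obtain ⟨hnS, hni⟩ := mem_filter.mp hn
      have h2 := hf n hnS
      rw [hni] at h2
      have h3 := sum_exch (W := pce (s₁ i) (t₁ i) q i.2) (V := pce (s₁ i) (t₁ i) q i.2)
        (Subset.refl _) (a := a) (f := fun y => F (g y * R n ((y : ℤ) - n)))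
        (f' := fun y => F (κ * g' y * R' n ((y : ℤ) - n))) (ε := δ / 4) (by positivity) hD.ba
        (hR' n hnS).2
      have h4 : ∑ y ∈ range (2 * H), (if y ∈ pce (s₁ i) (t₁ i) q i.2 then a y else 0) *
          F (L.get j * (g' y * R' n ((y : ℤ) - n))) =
          ∑ y ∈ pce (s₁ i) (t₁ i) q i.2, a y * F (κ * g' y * R' n ((y : ℤ) - n)) := by
        rw [← sum_subset hsub (f := fun y : ℕ =>
          (if y ∈ pce (s₁ i) (t₁ i) q i.2 then a y else 0) *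
          F (L.get j * (g' y * R' n ((y : ℤ) - n))))]
        · apply sum_congr rfl
          intro y hy
          rw [if_pos hy, hj, ← mul_assoc]
        · intro y _ hy
          rw [if_neg hy, zero_mul]
      rw [h4]
      have h5 : (δ - 2 * (δ / 4)) / N = δ / 2 / N := by ring
      rw [h5] at h2
      exact h2.trans h3
  obtain ⟨κ₁, hκ₁, ζ, hζ, s₃, t₃, m, b, hm1, hmq, ht₃, hbig⟩ := hC'cor j _ H _ g'
    (hCcor j H _ g' R' _ ((hC'H j).trans hH3) hD')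
  -- the sum over the intersection of the two parts of classes
  have hW0 : ∑ y ∈ pce s₃ t₃ m b, (if y ∈ pce (s₁ i) (t₁ i) q i.2 then a y else 0) *
      F (L.get j * (κ₁ * g' y * ζ)) =
      ∑ y ∈ range (2 * H), if y ∈ pce s₃ t₃ m b ∩ pce (s₁ i) (t₁ i) q i.2 then
        a y * F (κ * κ₁ * g' y * ζ) else 0 := by
    rw [← sum_filter]
    have hset : (range (2 * H)).filter (fun y => y ∈ pce s₃ t₃ m b ∩ pce (s₁ i) (t₁ i) q i.2) =
        pce s₃ t₃ m b ∩ pce (s₁ i) (t₁ i) q i.2 := by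
      ext y
      rw [mem_filter]
      refine ⟨fun h => h.2, fun h => ⟨hsub (mem_inter.mp h).2, h⟩⟩
    rw [hset]
    rw [← sum_subset (inter_subset_left : pce s₃ t₃ m b ∩ pce (s₁ i) (t₁ i) q i.2 ⊆
      pce s₃ t₃ m b)]
    · apply sum_congr rfl
      intro y hy
      rw [if_pos (mem_inter.mp hy).2, hj]
      simp only [mul_assoc]
    · intro y hy hy2
      rw [if_neg (fun h => hy2 (mem_inter.mpr ⟨hy, h⟩)), zero_mul]
  obtain ⟨P₂, s₂, t₂, hP₂, hst₂, -, hgood₂⟩ := hpieces₂ H hH2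
  have hbig' : C'.c * H ≤ ‖∑ y ∈ pce s₃ t₃ m b,
      (if y ∈ pce (s₁ i) (t₁ i) q i.2 then a y else 0) * F (L.get j * (κ₁ * g' y * ζ))‖ := hbig
  rw [hW0] at hbig'
  obtain ⟨i₂, hi₂, hgd⟩ := hgood₂ _ C'.c (C'.c / 4) hbig'
  set W : Finset ℕ := pce (s₂ i₂) (t₂ i₂) q₂ i₂.2 ∩ (pce s₃ t₃ m b ∩ pce (s₁ i) (t₁ i) q i.2)
    with hW
  have hWsum : ∑ y ∈ pce (s₂ i₂) (t₂ i₂) q₂ i₂.2,
      (if y ∈ pce s₃ t₃ m b ∩ pce (s₁ i) (t₁ i) q i.2 then a y * F (κ * κ₁ * g' y * ζ) else 0) =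
      ∑ y ∈ W, a y * F (κ * κ₁ * g' y * ζ) := by
    rw [← sum_filter]
    apply sum_congr _ (fun _ _ => rfl)
    ext y
    simp only [hW, mem_filter, mem_inter]
  rw [hWsum] at hgd
  obtain ⟨κ', hκ', ζ', hζ', hback⟩ := hfgb H Sf Tf ρ (by omega) hST hρ (κ * κ₁)
    ⟨κ, hκ, κ₁, hκ₁, rfl⟩ ζ hζ (s₂ i₂) (t₂ i₂) i₂.2 (hst₂ i₂).1 (hst₂ i₂).2 W
    inter_subset_left (fun y hy => hTρ y (mem_inter.mp (mem_inter.mp hy).2).2)
  have hfin := sum_exch (W := W) (V := pce (s₂ i₂) (t₂ i₂) q₂ i₂.2) inter_subset_left (a := a)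
    (f := fun y => F (κ * κ₁ * g' y * ζ)) (f' := fun y => F (κ' * g y * ζ')) (ε := C'.c / 4)
    (by positivity) hD.ba (fun y hy => by
      have h6 := hback y hy (g y) (ps_mem hD.pg y)
      rw [← hg'eq] at h6
      exact h6)
  have hfin2 : C'.c / 2 / N₂ * H ≤ ‖∑ y ∈ W, a y * F (κ' * g y * ζ')‖ := by
    have h7 : (C'.c - 2 * (C'.c / 4)) / N₂ = C'.c / 2 / N₂ := by ring
    rw [h7] at hgd
    exact hgd.trans hfin
  have hWne : W.Nonempty := by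
    rw [Finset.nonempty_iff_ne_empty]
    intro h0
    rw [h0, sum_empty, norm_zero] at hfin2
    have : 0 < C'.c / 2 / N₂ * H := by positivity
    linarith
  obtain ⟨y₀, hy₀⟩ := hWne
  have hy1 := (mem_inter.mp hy₀).1
  have hy2 := (mem_inter.mp (mem_inter.mp hy₀).2).1
  have hy3 := (mem_inter.mp (mem_inter.mp hy₀).2).2
  have hi3 := pce_inter s₃ t₃ m b (s₁ i) (t₁ i) q i.2 y₀ hy2 hy3
  have hy4 : y₀ ∈ pce (max s₃ (s₁ i)) (min t₃ (t₁ i)) (Nat.lcm m q) y₀ := by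
    rw [← hi3]; exact (mem_inter.mp hy₀).2
  have hi4 := pce_inter (s₂ i₂) (t₂ i₂) q₂ i₂.2 (max s₃ (s₁ i)) (min t₃ (t₁ i)) (Nat.lcm m q) y₀
    y₀ hy1 hy4
  refine ⟨κ', hκ', ζ', hζ', max (s₂ i₂) (max s₃ (s₁ i)), min (t₂ i₂) (min t₃ (t₁ i)),
    Nat.lcm q₂ (Nat.lcm m q), y₀, ?_, ?_, ?_, ?_⟩
  · exact Nat.lcm_pos hq₂ (Nat.lcm_pos hm1 hq)
  · refine (Nat.lcm_le_mul hq₂ (Nat.lcm_pos hm1 hq)).trans ?_
    refine Nat.mul_le_mul_left _ ((Nat.lcm_le_mul hm1 hq).trans (Nat.mul_le_mul_right _ hmq))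
  · exact (min_le_left _ _).trans (hst₂ i₂).1
  · have h8 : W = pce (max (s₂ i₂) (max s₃ (s₁ i))) (min (t₂ i₂) (min t₃ (t₁ i)))
        (Nat.lcm q₂ (Nat.lcm m q)) y₀ := by rw [hW, hi3, hi4]
    rw [← h8]
    exact hfin2

end

end Pool.Agent.NG
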