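import Mathlib
import Pool.Agent.Lib.NG.J

/-!
# JET (MP_663568_nt), row T0J: the trivial case  (helper68)
-/

set_option autoImplicit false
open Finset Topology

namespace Pool.Agent.NG

open Amb Pool.Agent.Lib.MP_663568_nt Pool.Agent.Lib.MP_663568_nt.Katai
  Pool.Agent.Lib.MP_663568_nt.Nul Pool.Agent.SV Pool.Agent.VQ Pool.Agent.NV

noncomputable section

theorem t0j : T0J_stmt := by
  intro U _ Gf d J hG hJ hle F hF δ hδ
  refine ⟨⟨δ, 1, 1, {1}, {1}⟩, ⟨hδ, isCompact_singleton, ?_, Set.finite_singleton _, ?_⟩, ?_⟩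
  · intro x hx
    rw [Set.mem_singleton_iff.mp hx]
    exact (Gf 0).one_mem
  · intro ζ hζ
    rw [Set.mem_singleton_iff.mp hζ]
    exact ⟨(Gf 0).one_mem, (AmbQ.Qr : Subgroup U).one_mem⟩
  intro H a g R S hH hD
  have hH1 : (1 : ℝ) ≤ H := by exact_mod_cast hH
  have hS : S.Nonempty := by
    rw [← Finset.card_pos]
    have h1 : (0 : ℝ) < #S := lt_of_lt_of_le (mul_pos hδ (by linarith)) hD.card
    exact_mod_cast h1
  obtain ⟨n, hn⟩ := hS
  refine ⟨1, rfl, 1, rfl, 0, 2 * H, 1, 0, le_rfl, le_rfl, le_rfl, ?_⟩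
  have hp : pce 0 (2 * H) 1 0 = range (2 * H) := by
    ext y
    simp [pce, Nat.modEq_one]
  have h := hD.cor n hn
  rw [hp]
  refine h.trans (le_of_eq ?_)
  congr 1
  refine Finset.sum_congr rfl fun y _ => ?_
  have hg : g y ∈ Gf 0 := hD.pg [] y
  have hR : R n ((y : ℤ) - n) ∈ J ⊓ Gf 0 := (hD.jt n hn).1 [] _
  have hm : g y * R n ((y : ℤ) - n) * (g y)⁻¹ ∈ Gf (d + 1) := hle (hJ.nrm _ hg _ hR.1)
  have he : g y * R n ((y : ℤ) - n) = (g y * R n ((y : ℤ) - n) * (g y)⁻¹) * g y := by group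
  rw [he, hF.inv _ hm _ hg, one_mul, mul_one]

end

end Pool.Agent.NG
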