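import Mathlib
import Pool.Agent.Lib.NG.J

/-!
# JET (MP_663568_nt), row VRTJ: functions with a nonzero character along `z`  (helper68)
-/

set_option autoImplicit false
open Finset Topology

namespace Pool.Agent.NG

open Amb Pool.Agent.Lib.MP_663568_nt Pool.Agent.Lib.MP_663568_nt.Katai
  Pool.Agent.Lib.MP_663568_nt.Nul Pool.Agent.SV Pool.Agent.VQ Pool.Agent.NV

noncomputable section

namespace VRTJaux

/-- Fewer points and a smaller constant. -/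
theorem dta_mono {U : Type} [Amb U] {Gf : ℕ → Subgroup U} {J : Subgroup U} {F : U → ℂ}
    {δ δ' : ℝ} {H : ℕ} {a : ℕ → ℂ} {g : ℤ → U} {R : ℕ → ℤ → U} {S S' : Finset ℕ}
    (h : Dta Gf J F δ H a g R S) (hS : S' ⊆ S) (hδ : δ' ≤ δ) (hc : δ' * H ≤ #S') :
    Dta Gf J F δ' H a g R S' :=
  ⟨h.ba, h.pg, hS.trans h.sub, hc, fun n hn => h.jt n (hS hn),
    fun n hn => (mul_le_mul_of_nonneg_right hδ (Nat.cast_nonneg H)).trans (h.cor n (hS hn))⟩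

end VRTJaux

open VRTJaux

theorem vrtj : VRTJ_stmt := by
  intro hREL hA hC hCSTF U _ Gf d J z hG hJ hz hzJ hη hχ F k hk hF hV δ hδ
  obtain ⟨Y, X, E, δ', Q, H₁, hY, hX, hE, hδ', hQ, hrel⟩ :=
    hREL U Gf d J z k F δ hG hJ hz hzJ hk hF hV hδ
  have hm : 0 < min δ δ' := lt_min hδ hδ'
  -- the characters of `J`
  have h1 : ∀ i : Fin Y.length, ∃ C : Cst U, C.Ok (Gf 0) ∧ ∀ (H : ℕ) (a : ℕ → ℂ) (g : ℤ → U)
      (R : ℕ → ℤ → U) (S : Finset ℕ), C.H₀ ≤ H → Dta Gf J F (min δ δ') H a g R S →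
      (∀ n ∈ S, NrZ 1 d E Q (2 * H) fun y => (Y.get i) (R n (y - n))) → C.Cor F H a g := by
    intro i
    have hi := hY _ (List.get_mem Y i)
    exact hA U Gf d J (Y.get i) hG hJ hi (hη _ hi) F hF E (min δ δ') Q hE hm hQ
  choose CY hYok hYc using h1
  obtain ⟨C₁, hC₁, hC₁H, hC₁c⟩ := hCSTF U (Gf 0) Y.length CY hYok
  -- the characters of `G`
  have h2 : ∀ i : Fin X.length, ∃ C : Cst U, C.Ok (Gf 0) ∧ ∀ (H : ℕ) (a : ℕ → ℂ) (g : ℤ → U)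
      (R : ℕ → ℤ → U) (S : Finset ℕ), C.H₀ ≤ H → Dta Gf J F δ H a g R S →
      NrZ 1 d E Q (2 * H) (fun y => (X.get i) (g y)) → C.Cor F H a g := by
    intro i
    obtain ⟨hi1, hi2⟩ := hX _ (List.get_mem X i)
    exact hC U Gf d J (X.get i) hG hJ hi1 hi2 (hχ _ hi1 hi2) F hF E δ Q hE hδ hQ
  choose CX hXok hXc using h2
  obtain ⟨C₂, hC₂, hC₂H, hC₂c⟩ := hCSTF U (Gf 0) X.length CX hXok
  obtain ⟨C, hCok, hCH, hCc⟩ := hCSTF U (Gf 0) 2 ![C₁, C₂] (by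
    intro i
    fin_cases i
    · exact hC₁
    · exact hC₂)
  have hH1 : C₁.H₀ ≤ C.H₀ := hCH 0
  have hH2 : C₂.H₀ ≤ C.H₀ := hCH 1
  refine ⟨⟨C.c, C.q, C.H₀ + H₁, C.K, C.Z⟩, ⟨hCok.c0, hCok.K, hCok.KG, hCok.Zf, hCok.ZG⟩, ?_⟩
  intro H a g R S hH hD
  have hH' : C.H₀ + H₁ ≤ H := hH
  show C.Cor F H a g
  rcases hrel H a g R S (by omega) hD with ⟨η, hηY, S', hS', hc', hn'⟩ | ⟨χ, hχX, hn'⟩
  · obtain ⟨i, hi⟩ := List.get_of_mem hηY
    apply hCc 0 F H a g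
    apply hC₁c i F H a g
    have hle : (CY i).H₀ ≤ H := (hC₁H i).trans (by omega)
    refine hYc i H a g R S' hle (dta_mono hD hS' (min_le_left _ _) ?_) ?_
    · exact (mul_le_mul_of_nonneg_right (min_le_right _ _) (Nat.cast_nonneg H)).trans hc'
    · rw [hi]
      exact hn'
  · obtain ⟨i, hi⟩ := List.get_of_mem hχX
    apply hCc 1 F H a g
    apply hC₂c i F H a g
    have hle : (CX i).H₀ ≤ H := (hC₂H i).trans (by omega)
    refine hXc i H a g R S hle hD ?_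
    rw [hi]
    exact hn'

end

end Pool.Agent.NG
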