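import Mathlib
import Pool.Agent.Lib.NG.All
import Pool.Agent.Lib.NG.J
import Pool.Agent.Lib.NG.AMQ
import Pool.Agent.Lib.NG.CJQ
import Pool.Agent.Lib.NG.CSTF
import Pool.Agent.Lib.NG.DUAL
import Pool.Agent.Lib.NG.FG1
import Pool.Agent.Lib.NG.FG2
import Pool.Agent.Lib.NG.FGB
import Pool.Agent.Lib.NG.FJ1
import Pool.Agent.Lib.NG.FJ2
import Pool.Agent.Lib.NG.FOUJ
import Pool.Agent.Lib.NG.G2R
import Pool.Agent.Lib.NG.INDJ
import Pool.Agent.Lib.NG.JN1
import Pool.Agent.Lib.NG.JN2
import Pool.Agent.Lib.NG.JN3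
import Pool.Agent.Lib.NG.JCEN
import Pool.Agent.Lib.NG.NVJ1
import Pool.Agent.Lib.NG.NVJ2
import Pool.Agent.Lib.NG.NVJU
import Pool.Agent.Lib.NG.PAIR
import Pool.Agent.Lib.NG.REL
import Pool.Agent.Lib.NG.SPLG
import Pool.Agent.Lib.NG.SPLJ
import Pool.Agent.Lib.NG.STEPA
import Pool.Agent.Lib.NG.STEPC
import Pool.Agent.Lib.NG.T0J
import Pool.Agent.Lib.NG.VRTJ

/-!
# JET (MP_663568_nt): assembly

(helper19)
-/

set_option autoImplicit false

namespace Pool.Agent.NG

noncomputable section

/-- The inverse theorem for the means of functions along polynomial maps. -/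
theorem lz : ∀ d, LZ d := by
  have hdegz : DEGZ' := degz deg lbn
  have hsigz : SIGZ' := sigz sig lbn
  have hslp : SLP' := slp hdegz
  have hful : FUL1' := ful1 pwb coo fou
  have hsq : SQN' := sqn pwb chs fib lev fnc
  have hhps : HPS' := hps fib fil lbm lbn
  have hvst : VST' := vst pwb vdc fil hsq hhps
  have hqmp : QMP' := qmp pwb chs
  have hqdg : QDG' := qdg lbm lbn hsigz hdegz
  have hcas : CAS' := cas NV.brk unq ext_row fib chf hdegz hqmp hqdg hsf
  have hrfl' : RFL' := rfl_row ker_row fil lbm hdegz unq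
  have hfrt' : FRT' := frt pwb chs ker_row lev lbm hsigz hdegz unq hrfl'
  have hom : OM0' := om0 pwb chs fnc lbm lbn hdegz unq prg hrfl' hfrt'
  have hstp : STP' := stp coo fil hslp hful hvst hcas hom
  exact lza (lb1 chs hdegz hful) hrfl' hstp

/-- The local statement. -/
theorem indj_all : INDJ' := by
  have hdegz : DEGZ' := degz deg lbn
  have hsigz : SIGZ' := sigz sig lbn
  have pair' : PAIR' := pair lz g2r chf
  have rel' : REL' := rel pair' dual jn1 jn2 jn3 hdegz
  have fj1' : FJ1' := fj1 pwb chs ker_row lev lbm lbn hsigz hdegz unq splj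
  have fg1' : FG1' := fg1 pwb chs ker_row lev lbm lbn hsigz hdegz unq splg
  have fj2' : FJ2' := fj2 fj1' pwb lbm lbn
  have fg2' : FG2' := fg2 fg1' pwb lbm lbn
  have fgb' : FGB' := fgb pwb cjq
  have stepa' : STEPA' := stepa fj2' cstf fnc lbm lbn
  have stepc' : STEPC' := stepc fg2' fgb' cstf fnc ker_row
  have vrtj' : VRTJ' := vrtj rel' stepa' stepc' cstf
  exact indj t0j (fouj fou cstf lbn) vrtj' cenz' unb ker_row fil

/-- The means along progressions. -/
theorem nvpq' : NVPQ' := fun U _ Gf d hF F hFn q b hq A ε hA hε =>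
  nvpq nsa U Gf d hF F hFn q b hq A ε hA hε

/-- **Theorem JET** for ambient groups. -/
theorem jetu_all : JETU' :=
  nvju (nvj2 (nvj1 indj_all lbn) nvpq' fnc lbm) lbm lbn

/-- The same with left factors in a compact set and right factors in the lattice. -/
theorem jetk_all : JETK := jetk jetu_all

end

end Pool.Agent.NG
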