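import Pool.Agent.Lib.NG.CN
import Pool.Agent.Lib.NG.NVJ2

/-!
# JET in natural density (MP_663568_nt), row NVJN: all blocks

Sliding blocks; template: `clsm` and row NVJ2 of helper95.  (helper55)
-/

set_option autoImplicit false
open Finset

namespace Pool.Agent.NG

noncomputable section

open Amb Pool.Agent.Lib.MP_663568_nt Pool.Agent.Lib.MP_663568_nt.Katai
  Pool.Agent.Lib.MP_663568_nt.Nul Pool.Agent.SV Pool.Agent.VQ Pool.Agent.NV

namespace NVJNx

theorem chn_map {α β : Type} (f : α → β) {X : ℕ → α} {x : ℕ} {K : ℝ} (h : ChN X x K) :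
    ChN (fun n => f (X n)) x K := by
  classical
  unfold ChN at h ⊢
  refine le_trans ?_ h
  norm_cast
  refine card_le_card fun n hn => ?_
  rw [mem_filter] at hn ⊢
  exact ⟨hn.1, fun h2 => hn.2 (by simp only [h2])⟩

theorem chn_mono {α : Type} {X : ℕ → α} {x : ℕ} {K K' : ℝ} (h : ChN X x K) (hK : K ≤ K') :
    ChN X x K' := by
  classical
  unfold ChN at h ⊢
  exact h.trans hK

/-- Means along the orbit in a class. -/
theorem clsn (hN : NVPQN') (hFNC : FNC_stmt) (hL : LBM_stmt) (U : Type) [Amb U]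
    (Gf : ℕ → Subgroup U) (d : ℕ) (hF : Filt Gf d) (F : U → ℂ) (hFn : Fn (Gf 0) (Gf (d + 1)) F)
    (m b : ℕ) (hm : 1 ≤ m) (hb : b < m) (w₁ w₂ : U) (hw₁ : w₁ ∈ Gf 0) (hw₂ : w₂ ∈ Gf 0)
    (A ε : ℝ) (hA : 0 ≤ A) (hε : 0 < ε) :
    ∃ (B : ℝ) (H₀ : ℕ), 0 ≤ B ∧ 1 ≤ H₀ ∧ ∀ H : ℕ, H₀ ≤ H → ∀ x : ℕ, (H : ℝ) ^ B ≤ x →
    ∀ X : ℕ → ℤ → U, (∀ n, PS Gf 0 (X n)) → ChN X x ((H : ℝ) ^ A) →
    ∑ n ∈ Ioc x (2 * x),
      Wg H n (fun y => if y ≡ b [MOD m] then F (w₁ * X n (y : ℤ) * w₂) else 0) ≤ ε * x := by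
  classical
  have hNM : Nrm (Gf 0) (Gf (d + 1)) := by
    intro x hx y hy
    have h := hF.com 0 (d + 1) x hx y hy
    rw [Nat.zero_add] at h
    have h2 := (Gf (d + 1)).mul_mem h hy
    rwa [inv_mul_cancel_right] at h2
  have hF' : Fn (Gf 0) (Gf (d + 1)) fun x => F (w₁ * x) :=
    (hFNC U (Gf 0) (Gf (d + 1)) F (hF.rat 0) hNM hFn).1 w₁ hw₁
  obtain ⟨B, H₀, hB, hH₀, h⟩ := NSTEPx.unif (range m)
    (fun (r : ℕ) (B : ℝ) (H₀ : ℕ) => ∀ H : ℕ, H₀ ≤ H → ∀ x : ℕ, (H : ℝ) ^ B ≤ x →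
      ∀ X : ℕ → ℤ → U, (∀ n, PS Gf 0 (X n)) → ChN X x ((H : ℝ) ^ A) →
      ∑ n ∈ Ioc x (2 * x), Wg H n (fun y : ℕ => ee (r * y / m) * F (w₁ * X n (y : ℤ))) ≤ ε * x)
    (fun b B B' H H' hB hBB hH hHH h K hK x hxa => h K (hHH.trans hK) x
      ((Real.rpow_le_rpow_of_exponent_le (by
        have : 1 ≤ K := hH.trans (hHH.trans hK)
        exact_mod_cast this) hBB).trans hxa))
    (fun r _ => by
      obtain ⟨B, H₀, hB, h⟩ := hN U Gf d hF (fun x => F (w₁ * x)) hF' m r hm A ε hA hε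
      exact ⟨B, max 1 H₀, hB, le_max_left _ _, fun H hH => h H ((le_max_right _ _).trans hH)⟩)
  refine ⟨B, H₀, hB, hH₀, fun H hH x hx X hX hS => ?_⟩
  have hmr : (0 : ℝ) < m := by exact_mod_cast hm
  have hmc : (m : ℂ) ≠ 0 := by exact_mod_cast hmr.ne'
  obtain ⟨Y, hY⟩ : ∃ Y : ℕ → ℤ → U, Y = fun n y => X n y * w₂ := ⟨_, rfl⟩
  have hYP : ∀ n, PS Gf 0 (Y n) := by
    intro n
    rw [hY]
    exact (hL U ℤ Gf d hF).1 0 _ _ (hX n) ((hL U ℤ Gf d hF).2.2.2.1 0 w₂ hw₂)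
  have hYS : ChN Y x ((H : ℝ) ^ A) := by
    rw [hY]
    exact chn_map (fun (g : ℤ → U) y => g y * w₂) hS
  have key : ∀ n, Wg H n (fun y : ℕ => if y ≡ b [MOD m] then F (w₁ * X n (y : ℤ) * w₂) else 0) ≤
      ∑ r ∈ range m, (1 / m : ℝ) * Wg H n (fun y : ℕ => ee (r * y / m) * F (w₁ * Y n (y : ℤ))) := by
    intro n
    have e1 : (fun y : ℕ => if y ≡ b [MOD m] then F (w₁ * X n (y : ℤ) * w₂) else 0) =
        fun y : ℕ => ∑ r ∈ range m, (((1 / m : ℝ) : ℂ) * ee (-(r * b / m))) *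
          (ee (r * y / m) * F (w₁ * Y n (y : ℤ))) := by
      funext y
      have e2 : ∀ r ∈ range m, (((1 / m : ℝ) : ℂ) * ee (-(r * b / m))) *
          (ee (r * y / m) * F (w₁ * Y n (y : ℤ))) =
          ((1 / m : ℝ) : ℂ) * F (w₁ * Y n (y : ℤ)) *
            ee ((r : ℝ) * (((y : ℝ) - b) / m)) := by
        intro r _
        have e3 : (r : ℝ) * (((y : ℝ) - b) / m) = -(r * b / m) + r * y / m := by ring
        rw [e3, ee_add]
        ring
      rw [sum_congr rfl e2, ← mul_sum, REDx.orth m hm y b hb]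
      have e4 : (y ≡ b [MOD m]) ↔ y % m = b := by
        unfold Nat.ModEq
        rw [Nat.mod_eq_of_lt hb]
      by_cases h1 : y % m = b
      · rw [if_pos (e4.2 h1), if_pos h1, hY]
        push_cast
        rw [mul_assoc w₁]
        field_simp
      · rw [if_neg (fun h2 => h1 (e4.1 h2)), if_neg h1, mul_zero]
    rw [e1]
    unfold Wg
    have e5 : ∑ h ∈ Icc 1 H, muC (n + h) * ∑ r ∈ range m, (((1 / m : ℝ) : ℂ) *
        ee (-(r * b / m))) * (ee (r * ((n + h : ℕ) : ℝ) / m) * F (w₁ * Y n ((n + h : ℕ) : ℤ))) =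
        ∑ r ∈ range m, (((1 / m : ℝ) : ℂ) * ee (-(r * b / m))) *
          ∑ h ∈ Icc 1 H, muC (n + h) * (ee (r * ((n + h : ℕ) : ℝ) / m) *
            F (w₁ * Y n ((n + h : ℕ) : ℤ))) := by
      simp_rw [mul_sum]
      rw [sum_comm]
      refine sum_congr rfl fun r _ => sum_congr rfl fun h _ => ?_
      ring
    rw [e5]
    have e6 : ∀ r ∈ range m, (1 / m : ℝ) * (‖∑ h ∈ Icc 1 H, muC (n + h) *
        (ee (r * ((n + h : ℕ) : ℝ) / m) * F (w₁ * Y n ((n + h : ℕ) : ℤ)))‖ / H) =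
        ((1 / m : ℝ) * ‖∑ h ∈ Icc 1 H, muC (n + h) *
        (ee (r * ((n + h : ℕ) : ℝ) / m) * F (w₁ * Y n ((n + h : ℕ) : ℤ)))‖) / H :=
      fun r _ => by ring
    rw [sum_congr rfl e6, ← sum_div]
    refine div_le_div_of_nonneg_right ?_ (Nat.cast_nonneg _)
    refine (norm_sum_le _ _).trans (sum_le_sum fun r _ => ?_)
    rw [norm_mul, norm_mul, norm_ee, mul_one, Complex.norm_real, Real.norm_eq_abs,
      abs_of_pos (by positivity)]
  calc ∑ n ∈ Ioc x (2 * x),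
      Wg H n (fun y => if y ≡ b [MOD m] then F (w₁ * X n (y : ℤ) * w₂) else 0)
      ≤ ∑ n ∈ Ioc x (2 * x), ∑ r ∈ range m, (1 / m : ℝ) *
          Wg H n (fun y : ℕ => ee (r * y / m) * F (w₁ * Y n (y : ℤ))) :=
        sum_le_sum fun n _ => key n
    _ = ∑ r ∈ range m, (1 / m : ℝ) * ∑ n ∈ Ioc x (2 * x),
          Wg H n (fun y : ℕ => ee (r * y / m) * F (w₁ * Y n (y : ℤ))) := by
        rw [sum_comm]
        exact sum_congr rfl fun r _ => by rw [mul_sum]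
    _ ≤ ∑ r ∈ range m, (1 / m : ℝ) * (ε * x) :=
        sum_le_sum fun r hr => mul_le_mul_of_nonneg_left (h r hr H hH x hx Y hYP hYS)
          (by positivity)
    _ = ε * x := by
        rw [sum_const, card_range, nsmul_eq_mul]
        field_simp

theorem sum_le_card (W : ℕ → ℝ) (C : ℝ) (hWC : ∀ n, W n ≤ C) (a b : ℕ) (hab : a ≤ b) :
    ∑ n ∈ Ico a b, W n ≤ C * (b - a) := by
  calc ∑ n ∈ Ico a b, W n ≤ ∑ _n ∈ Ico a b, C := sum_le_sum fun n _ => hWC n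
    _ = C * (b - a) := by
      rw [sum_const, Nat.card_Ico, nsmul_eq_mul, Nat.cast_sub hab]
      ring

/-- Sliding blocks. -/
theorem slide (W G : ℕ → ℝ) (C : ℝ) (hC : 0 ≤ C) (hW0 : ∀ n, 0 ≤ W n) (hWC : ∀ n, W n ≤ C)
    (hG0 : ∀ n, 0 ≤ G n) (x l h : ℕ) (hl : 1 ≤ l) (hlh : l ≤ h) (hx : h ≤ x) (a b : ℝ)
    (ha : 0 ≤ a) (hb : 0 ≤ b) (S : Finset ℕ)
    (hkey : ∀ N, x < N → N + h ≤ 2 * x → (∀ n, N ≤ n → n < N + h → n ∉ S) →
      ∑ n ∈ Ico N (N + l), W n ≤ a * l + b * ∑ n ∈ Ico N (N + h), G n) :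
    ∑ n ∈ Ioc x (2 * x), W n ≤
      a * x + b * (h / l) * ∑ n ∈ Ioc x (2 * x), G n + C * h * (#S + 1) := by
  classical
  obtain ⟨y, hy⟩ : ∃ y, y = 2 * x - h := ⟨_, rfl⟩
  have hxy : x ≤ y := by omega
  have hyx : y + h = 2 * x := by omega
  have hl0 : (0 : ℝ) < l := by exact_mod_cast hl
  have hI : Ioc x (2 * x) = Ico (x + 1) (2 * x + 1) := by
    ext n
    rw [mem_Ioc, mem_Ico]
    omega
  rw [hI]
  -- (1)
  have h1 : ∀ j < l, ∑ n ∈ Ico (x + 1) (2 * x + 1), W n ≤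
      ∑ N ∈ Ico (x + 1) (y + 1), W (N + j) + C * h := by
    intro j hj
    have e1 : ∑ N ∈ Ico (x + 1) (y + 1), W (N + j) = ∑ n ∈ Ico (x + 1 + j) (y + 1 + j), W n :=
      sum_Ico_add' W (x + 1) (y + 1) j
    rw [e1, ← sum_Ico_consecutive W (show x + 1 ≤ x + 1 + j by omega)
      (show x + 1 + j ≤ 2 * x + 1 by omega),
      ← sum_Ico_consecutive W (show x + 1 + j ≤ y + 1 + j by omega)
      (show y + 1 + j ≤ 2 * x + 1 by omega)]
    have e2 := sum_le_card W C hWC (x + 1) (x + 1 + j) (by omega)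
    have e3 := sum_le_card W C hWC (y + 1 + j) (2 * x + 1) (by omega)
    have e4 : ((y : ℝ)) + h = 2 * x := by exact_mod_cast hyx
    push_cast at e2 e3
    nlinarith
  have h2 : l * ∑ n ∈ Ico (x + 1) (2 * x + 1), W n ≤
      ∑ N ∈ Ico (x + 1) (y + 1), ∑ n ∈ Ico N (N + l), W n + l * (C * h) := by
    have e1 : ∑ N ∈ Ico (x + 1) (y + 1), ∑ n ∈ Ico N (N + l), W n =
        ∑ j ∈ range l, ∑ N ∈ Ico (x + 1) (y + 1), W (N + j) := by
      rw [sum_comm]
      refine sum_congr rfl fun N _ => ?_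
      rw [sum_Ico_eq_sum_range, Nat.add_sub_cancel_left]
    rw [e1]
    calc (l : ℝ) * ∑ n ∈ Ico (x + 1) (2 * x + 1), W n =
          ∑ _j ∈ range l, ∑ n ∈ Ico (x + 1) (2 * x + 1), W n := by
          rw [sum_const, card_range, nsmul_eq_mul]
      _ ≤ ∑ j ∈ range l, (∑ N ∈ Ico (x + 1) (y + 1), W (N + j) + C * h) :=
          sum_le_sum fun j hj => h1 j (mem_range.1 hj)
      _ = _ := by rw [sum_add_distrib, sum_const, card_range, nsmul_eq_mul]
  -- (3)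
  obtain ⟨Bd, hBd⟩ : ∃ Bd : Finset ℕ, Bd = (Ico (x + 1) (y + 1)).filter
    fun N => ∃ n ∈ S, N ≤ n ∧ n < N + h := ⟨_, rfl⟩
  have h3 : ∀ N ∈ Ico (x + 1) (y + 1), ∑ n ∈ Ico N (N + l), W n ≤
      a * l + b * ∑ n ∈ Ico N (N + h), G n + (if N ∈ Bd then C * l else 0) := by
    intro N hN
    have hN' := mem_Ico.1 hN
    by_cases hc : N ∈ Bd
    · rw [if_pos hc]
      have e1 := sum_le_card W C hWC N (N + l) (by omega)
      have e2 : 0 ≤ ∑ n ∈ Ico N (N + h), G n := sum_nonneg fun n _ => hG0 n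
      push_cast at e1
      have e3 : 0 ≤ a * l := by positivity
      have e4 : 0 ≤ b * ∑ n ∈ Ico N (N + h), G n := mul_nonneg hb e2
      nlinarith
    · rw [if_neg hc, add_zero]
      refine hkey N (by omega) (by omega) fun n hn1 hn2 hn3 => hc ?_
      rw [hBd, mem_filter]
      exact ⟨hN, n, hn3, hn1, hn2⟩
  have h4 : ∑ N ∈ Ico (x + 1) (y + 1), ∑ n ∈ Ico N (N + h), G n ≤
      h * ∑ n ∈ Ico (x + 1) (2 * x + 1), G n := by
    have e1 : ∑ N ∈ Ico (x + 1) (y + 1), ∑ n ∈ Ico N (N + h), G n =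
        ∑ j ∈ range h, ∑ N ∈ Ico (x + 1) (y + 1), G (N + j) := by
      rw [sum_comm]
      refine sum_congr rfl fun N _ => ?_
      rw [sum_Ico_eq_sum_range, Nat.add_sub_cancel_left]
    rw [e1]
    calc ∑ j ∈ range h, ∑ N ∈ Ico (x + 1) (y + 1), G (N + j) ≤
          ∑ _j ∈ range h, ∑ n ∈ Ico (x + 1) (2 * x + 1), G n := by
          refine sum_le_sum fun j hj => ?_
          have hj' := mem_range.1 hj
          rw [sum_Ico_add' G (x + 1) (y + 1) j]
          exact sum_le_sum_of_subset_of_nonneg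
            (Ico_subset_Ico (by omega) (by omega)) fun n _ _ => hG0 n
      _ = _ := by rw [sum_const, card_range, nsmul_eq_mul]
  have h5 : (#Bd : ℝ) ≤ h * #S := by
    have e1 : Bd ⊆ S.biUnion fun n => Ico (n + 1 - h) (n + 1) := by
      intro N hN
      rw [hBd, mem_filter] at hN
      obtain ⟨_, n, hn1, hn2, hn3⟩ := hN
      rw [mem_biUnion]
      exact ⟨n, hn1, mem_Ico.2 ⟨by omega, by omega⟩⟩
    have e2 : #Bd ≤ #S * h := by
      refine (card_le_card e1).trans (card_biUnion_le_card_mul _ _ _ fun n _ => ?_)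
      rw [Nat.card_Ico]
      omega
    have e3 : (#Bd : ℝ) ≤ #S * h := by exact_mod_cast e2
    linarith
  have h6 : ∑ N ∈ Ico (x + 1) (y + 1), ∑ n ∈ Ico N (N + l), W n ≤
      a * l * x + b * (h * ∑ n ∈ Ico (x + 1) (2 * x + 1), G n) + C * l * (h * #S) := by
    calc ∑ N ∈ Ico (x + 1) (y + 1), ∑ n ∈ Ico N (N + l), W n ≤
          ∑ N ∈ Ico (x + 1) (y + 1), (a * l + b * ∑ n ∈ Ico N (N + h), G n +
            (if N ∈ Bd then C * l else 0)) := sum_le_sum h3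
      _ = a * l * (#(Ico (x + 1) (y + 1))) + b * ∑ N ∈ Ico (x + 1) (y + 1),
            ∑ n ∈ Ico N (N + h), G n + ∑ N ∈ Ico (x + 1) (y + 1), (if N ∈ Bd then C * l else 0) := by
          rw [sum_add_distrib, sum_add_distrib, sum_const, nsmul_eq_mul, mul_sum]
          ring
      _ ≤ _ := by
          have e1 : (#(Ico (x + 1) (y + 1)) : ℝ) ≤ x := by
            rw [Nat.card_Ico]
            have : y + 1 - (x + 1) ≤ x := by omega
            exact_mod_cast this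
          have e2 : ∑ N ∈ Ico (x + 1) (y + 1), (if N ∈ Bd then C * l else 0) ≤ C * l * #Bd := by
            rw [← sum_filter, sum_const, nsmul_eq_mul]
            have e3 : #((Ico (x + 1) (y + 1)).filter fun N => N ∈ Bd) ≤ #Bd :=
              card_le_card fun N hN => (mem_filter.1 hN).2
            have e4 : (#((Ico (x + 1) (y + 1)).filter fun N => N ∈ Bd) : ℝ) ≤ #Bd := by
              exact_mod_cast e3
            have e5 : 0 ≤ C * l := by positivity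
            nlinarith
          have e6 : a * l * (#(Ico (x + 1) (y + 1)) : ℝ) ≤ a * l * x :=
            mul_le_mul_of_nonneg_left e1 (by positivity)
          have e7 := mul_le_mul_of_nonneg_left h4 hb
          have e8 : C * l * (#Bd : ℝ) ≤ C * l * (h * #S) :=
            mul_le_mul_of_nonneg_left h5 (by positivity)
          linarith
  have h7 := h2.trans (add_le_add_left h6 (l * (C * h)))
  have h8 : ∑ n ∈ Ico (x + 1) (2 * x + 1), W n ≤
      (a * l * x + b * (h * ∑ n ∈ Ico (x + 1) (2 * x + 1), G n) + C * l * (h * #S) +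
        l * (C * h)) / l := by
    rw [le_div_iff₀ hl0]
    linarith
  refine h8.trans (le_of_eq ?_)
  field_simp
  ring

end NVJNx

open NVJNx NVJ2x

/-- **Row NVJN.** -/
theorem nvjn : NVJN_stmt := by
  classical
  intro hJ hN hFNC hL U _ Gf d hF F hFn A ε hA hε
  obtain ⟨C₀, hC₀⟩ := hFn.bd
  obtain ⟨C, hCd⟩ : ∃ C : ℝ, C = max C₀ 1 := ⟨_, rfl⟩
  have hC1 : 1 ≤ C := by rw [hCd]; exact le_max_right _ _
  have hC0 : 0 < C := by linarith
  have hFC : ∀ x ∈ Gf 0, ‖F x‖ ≤ C := fun x hx => (hC₀ x hx).trans (by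
    rw [hCd]; exact le_max_left _ _)
  obtain ⟨θ, c, q, H₁, L, hθ, hθ1, hc, hc1, hLw, hblk⟩ := hJ U Gf d hF F hFn (ε / 4)
    (by positivity)
  obtain ⟨T, hT⟩ : ∃ T : ℝ, T = L.length * q * q + 1 := ⟨_, rfl⟩
  have hT0 : 0 < T := by rw [hT]; positivity
  obtain ⟨ε₃, hε₃⟩ : ∃ ε₃ : ℝ, ε₃ = ε * c * θ / (16 * C * T) := ⟨_, rfl⟩
  have hε₃0 : 0 < ε₃ := by rw [hε₃]; positivity
  obtain ⟨B₂, H₄, hB₂, hH₄, hcl⟩ := NSTEPx.unif
    ((univ : Finset (Fin L.length)) ×ˢ ((Icc 1 q) ×ˢ (range q)))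
    (fun (i : Fin L.length × ℕ × ℕ) (B : ℝ) (H₀ : ℕ) => i.2.2 < i.2.1 → ∀ H : ℕ, H₀ ≤ H →
      ∀ x : ℕ, (H : ℝ) ^ B ≤ x →
      ∀ X : ℕ → ℤ → U, (∀ n, PS Gf 0 (X n)) → ChN X x ((H : ℝ) ^ (A + 1)) →
      ∑ n ∈ Ioc x (2 * x), Wg H n (fun y => if y ≡ i.2.2 [MOD i.2.1] then
          F ((L.get i.1).1 * X n (y : ℤ) * (L.get i.1).2) else 0) ≤ ε₃ * x)
    (fun b B B' H H' hB hBB hH hHH h hb K hK x hxa => h hb K (hHH.trans hK) x
      ((Real.rpow_le_rpow_of_exponent_le (by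
        have : 1 ≤ K := hH.trans (hHH.trans hK)
        exact_mod_cast this) hBB).trans hxa))
    (fun i hi => by
      rw [mem_product, mem_product, mem_Icc] at hi
      by_cases hb : i.2.2 < i.2.1
      · obtain ⟨B, H₀, hB, hH₀, h⟩ := clsn hN hFNC hL U Gf d hF F hFn i.2.1 i.2.2 hi.2.1.1 hb
          (L.get i.1).1 (L.get i.1).2 (hLw _ (List.get_mem _ _)).1 (hLw _ (List.get_mem _ _)).2
          (A + 1) ε₃ (by linarith) hε₃0
        exact ⟨B, H₀, hB, hH₀, fun _ => h⟩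
      · exact ⟨0, 1, le_rfl, le_rfl, fun hb' => absurd hb' hb⟩)
  obtain ⟨H₅, hH₅2, hH₅⟩ := WFINx.large A c B₂ 1 H₄ hA hc
  obtain ⟨H₆, hH₆⟩ := exists_nat_ge (max (16 * C / ε) (2 / θ))
  refine ⟨B₂ + A + 2, max (max H₁ H₅) (max H₆ 2), by positivity, ?_⟩
  intro H hH x hx X hX hXs R hR
  have hHa : H₁ ≤ H := by omega
  have hHc : H₅ ≤ H := by omega
  have hHd : H₆ ≤ H := by omega
  have hHe : 2 ≤ H := by omega
  obtain ⟨f1, f2, -, -⟩ := hH₅ H hHc
  have hH2 : (2 : ℝ) ≤ H := by exact_mod_cast hHe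
  have hH0 : (0 : ℝ) < H := by linarith
  have hH1 : (1 : ℝ) ≤ H := by linarith
  have hHC : 16 * C / ε ≤ H := (le_max_left _ _).trans (hH₆.trans (by exact_mod_cast hHd))
  have hHθ : 2 / θ ≤ H := (le_max_right _ _).trans (hH₆.trans (by exact_mod_cast hHd))
  rw [div_le_iff₀ hε] at hHC
  rw [div_le_iff₀ hθ] at hHθ
  have hHA : (1 : ℝ) ≤ (H : ℝ) ^ A := Real.one_le_rpow hH1 hA
  -- sizes
  have hxB : (H : ℝ) ^ (A + 2) ≤ x :=
    (Real.rpow_le_rpow_of_exponent_le hH1 (by linarith)).trans hx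
  have hxA : (H : ℝ) ^ A * (H * H) ≤ x := by
    refine le_trans (le_of_eq ?_) hxB
    rw [Real.rpow_add hH0, Real.rpow_two]
    ring
  have hx2H : 2 * H ≤ x := by
    have : (2 * H : ℝ) ≤ x := by nlinarith
    exact_mod_cast this
  have hx0 : (0 : ℝ) ≤ x := Nat.cast_nonneg _
  -- values
  have hXv : ∀ n (m : ℤ), X n m ∈ Gf 0 := fun n m =>
    (((hL U ℤ Gf d hF).2.2.2.2.2.1 0 (X n)).1 (hX n)).1 m
  have hRv : ∀ n (m : ℤ), R n m ∈ Gf 0 := fun n m => by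
    have h1 := (hR n).1 [] m
    have h2 : R n m ∈ cut (Gf 0) Gf 0 := h1
    exact h2.1
  obtain ⟨W, hWd⟩ : ∃ W : ℕ → ℝ, W = fun n => Wg H n (fun m : ℕ => F (X n (m : ℤ) *
      R n ((m : ℤ) - n))) := ⟨_, rfl⟩
  have hW0 : ∀ n, 0 ≤ W n := fun n => by rw [hWd]; exact SPLITx.wg_nonneg _ _ _
  have hWC : ∀ n, W n ≤ C := fun n => by
    rw [hWd]
    exact wg_le _ _ _ hC0.le fun m => hFC _ ((Gf 0).mul_mem (hXv _ _) (hRv _ _))
  -- the functions of the classes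
  obtain ⟨V, hVd⟩ : ∃ V : Fin L.length → ℕ → ℕ → ℕ → ℝ, V = fun i m b n =>
      Wg ⌊c * (H : ℝ)⌋₊ n (fun y => if y ≡ b [MOD m] then
        F ((L.get i).1 * X n (y : ℤ) * (L.get i).2) else 0) := ⟨_, rfl⟩
  have hV0 : ∀ i m b n, 0 ≤ V i m b n := fun i m b n => by rw [hVd]; exact SPLITx.wg_nonneg _ _ _
  obtain ⟨I, hI⟩ : ∃ I : Finset (Fin L.length × ℕ × ℕ),
      I = ((univ : Finset (Fin L.length)) ×ˢ ((Icc 1 q) ×ˢ (range q))).filter
        fun i => i.2.2 < i.2.1 := ⟨_, rfl⟩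
  obtain ⟨G, hG⟩ : ∃ G : ℕ → ℝ, G = fun n => ∑ i ∈ I, V i.1 i.2.1 i.2.2 n := ⟨_, rfl⟩
  have hG0 : ∀ n, 0 ≤ G n := fun n => by
    rw [hG]
    exact sum_nonneg fun i _ => hV0 _ _ _ _
  have hcH : (⌊c * (H : ℝ)⌋₊ : ℝ) ≤ H := by
    refine (Nat.floor_le (by positivity)).trans ?_
    nlinarith
  -- the sum of the right side
  have hGs : ∑ n ∈ Ioc x (2 * x), G n ≤ T * (ε₃ * x) := by
    have hsum : ∑ n ∈ Ioc x (2 * x), G n = ∑ i ∈ I, ∑ n ∈ Ioc x (2 * x), V i.1 i.2.1 i.2.2 n := by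
      rw [hG]
      exact sum_comm
    have hb : ∑ i ∈ I, ∑ n ∈ Ioc x (2 * x), V i.1 i.2.1 i.2.2 n ≤ ∑ _i ∈ I, ε₃ * x := by
      refine sum_le_sum fun i hi => ?_
      rw [hI, mem_filter] at hi
      rw [hVd]
      refine hcl i hi.1 hi.2 ⌊c * (H : ℝ)⌋₊ f1 x ?_ X hX (chn_mono hXs f2)
      calc (⌊c * (H : ℝ)⌋₊ : ℝ) ^ B₂ ≤ (H : ℝ) ^ B₂ :=
            Real.rpow_le_rpow (Nat.cast_nonneg _) hcH hB₂
        _ ≤ (H : ℝ) ^ (B₂ + A + 2) := Real.rpow_le_rpow_of_exponent_le hH1 (by linarith)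
        _ ≤ x := hx
    have hcard : (#I : ℝ) ≤ T := by
      have g1 : #I ≤ L.length * (q * q) := by
        rw [hI]
        refine (card_filter_le _ _).trans (le_of_eq ?_)
        rw [card_product, card_product, card_univ, Fintype.card_fin, Nat.card_Icc, card_range]
        simp
      have g2 : (#I : ℝ) ≤ L.length * (q * q) := by exact_mod_cast g1
      rw [hT]
      linarith
    rw [hsum]
    refine hb.trans ?_
    rw [sum_const, nsmul_eq_mul]
    exact mul_le_mul_of_nonneg_right hcard (by positivity)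
  -- the length of the blocks
  obtain ⟨l, hl⟩ : ∃ l, l = ⌊θ * (H : ℝ)⌋₊ := ⟨_, rfl⟩
  have hl1 : (l : ℝ) ≤ H := by
    rw [hl]
    refine (Nat.floor_le (by positivity)).trans ?_
    nlinarith
  have hl2 : θ / 2 * H ≤ l := by
    have g1 := Nat.lt_floor_add_one (θ * (H : ℝ))
    rw [← hl] at g1
    nlinarith
  have hl0 : (0 : ℝ) < l := lt_of_lt_of_le (by positivity) hl2
  have hl3 : 1 ≤ l := by exact_mod_cast hl0
  have hlH : l ≤ H := by exact_mod_cast hl1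
  -- the changes
  obtain ⟨S, hS⟩ : ∃ S : Finset ℕ, S = (Ioc x (2 * x)).filter fun n => X (n + 1) ≠ X n := ⟨_, rfl⟩
  have hSc : (#S : ℝ) ≤ (H : ℝ) ^ A := by
    unfold ChN at hXs
    rw [hS]
    refine le_trans (le_of_eq ?_) hXs
    norm_cast
  have hmain := slide W G C hC0.le hW0 hWC hG0 x l (2 * H) hl3 (by omega) hx2H (ε / 4) (C / c)
    (by positivity) (by positivity) S (by
      intro N hN1 hN2 hN3
      have hch : ∀ n, N ≤ n → n < N + 2 * H → X (n + 1) = X n := by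
        intro n h1 h2
        have h3 := hN3 n h1 h2
        rw [hS, mem_filter] at h3
        by_contra h4
        exact h3 ⟨mem_Ioc.2 ⟨by omega, by omega⟩, h4⟩
      have hXN : ∀ j, j < 2 * H → X (N + j) = X N := by
        intro j
        induction j with
        | zero => intro _; rfl
        | succ j ih =>
          intro hj
          rw [← add_assoc, hch (N + j) (by omega) (by omega)]
          exact ih (by omega)
      have hXN' : ∀ n, N ≤ n → n < N + 2 * H → X n = X N := by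
        intro n h1 h2
        have := hXN (n - N) (by omega)
        rwa [show N + (n - N) = n by omega] at this
      have hGn : 0 ≤ ∑ n ∈ Ico N (N + 2 * H), G n := sum_nonneg fun n _ => hG0 n
      have hCc : 0 ≤ C / c := by positivity
      by_cases hsm : ∑ n ∈ Ico N (N + l), W n ≤ ε / 4 * l
      · have := mul_nonneg hCc hGn
        linarith
      · rw [not_le] at hsm
        obtain ⟨w, hw, m, b, hm1, hmq, hbm, hw2⟩ := hblk H N (X N) R hHa (hX _) hR (by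
          rw [← hl]
          refine hsm.le.trans (sum_le_sum fun n hn => ?_)
          rw [mem_Ico] at hn
          rw [hWd]
          simp only
          rw [hXN' n hn.1 (by omega)])
        obtain ⟨i, hi, hiw⟩ := List.getElem_of_mem hw
        have hV : ∀ n, N ≤ n → n < N + 2 * H → V ⟨i, hi⟩ m b n = Wg ⌊c * (H : ℝ)⌋₊ n
            (fun y => if y ≡ b [MOD m] then F (w.1 * X N (y : ℤ) * w.2) else 0) := by
          intro n h1 h2
          rw [hVd]
          simp only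
          rw [hXN' n h1 h2]
          have h3 : L.get ⟨i, hi⟩ = w := hiw
          rw [h3]
        have hVG : ∀ n, V ⟨i, hi⟩ m b n ≤ G n := by
          intro n
          rw [hG]
          have hmem : ((⟨i, hi⟩, m, b) : Fin L.length × ℕ × ℕ) ∈ I := by
            rw [hI, mem_filter, mem_product, mem_product, mem_Icc, mem_range]
            exact ⟨⟨mem_univ _, ⟨hm1, hmq⟩, lt_of_lt_of_le hbm hmq⟩, hbm⟩
          exact single_le_sum (f := fun i : Fin L.length × ℕ × ℕ => V i.1 i.2.1 i.2.2 n)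
            (fun i _ => hV0 _ _ _ _) hmem
        have h5 : c * l ≤ ∑ n ∈ Ico N (N + 2 * H), G n := by
          rw [hl]
          refine hw2.trans (sum_le_sum fun n hn => ?_)
          rw [mem_Ico] at hn
          rw [← hV n hn.1 hn.2]
          exact hVG n
        have h6 := sum_le_card W C hWC N (N + l) (by omega)
        push_cast at h6
        have h7 : C * l ≤ C / c * ∑ n ∈ Ico N (N + 2 * H), G n := by
          rw [div_mul_eq_mul_div, le_div_iff₀ hc]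
          nlinarith
        have h8 : 0 ≤ ε / 4 * l := by positivity
        nlinarith)
  have hfin : C / c * ((2 * H : ℕ) / l) * ∑ n ∈ Ioc x (2 * x), G n ≤ ε / 4 * x := by
    have g1 : ((2 * H : ℕ) : ℝ) / l ≤ 4 / θ := by
      rw [div_le_div_iff₀ hl0 hθ]
      push_cast
      nlinarith
    have g2 : 0 ≤ ∑ n ∈ Ioc x (2 * x), G n := sum_nonneg fun n _ => hG0 n
    calc C / c * ((2 * H : ℕ) / l) * ∑ n ∈ Ioc x (2 * x), G n ≤
          C / c * (4 / θ) * ∑ n ∈ Ioc x (2 * x), G n :=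
          mul_le_mul_of_nonneg_right (mul_le_mul_of_nonneg_left g1 (by positivity)) g2
      _ ≤ C / c * (4 / θ) * (T * (ε₃ * x)) := mul_le_mul_of_nonneg_left hGs (by positivity)
      _ = ε / 4 * x := by
          rw [hε₃]
          field_simp
          ring
  have hbad : C * ((2 * H : ℕ) : ℝ) * (#S + 1) ≤ ε / 4 * x := by
    push_cast
    have g1 : (#S : ℝ) + 1 ≤ 2 * (H : ℝ) ^ A := by linarith
    have g2 : C * (2 * (H : ℝ)) * (#S + 1) ≤ C * (2 * H) * (2 * (H : ℝ) ^ A) :=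
      mul_le_mul_of_nonneg_left g1 (by positivity)
    have g3 : C * (2 * (H : ℝ)) * (2 * (H : ℝ) ^ A) = 4 * C * (H * (H : ℝ) ^ A) := by ring
    have g4 : 0 ≤ (H : ℝ) * (H : ℝ) ^ A := by positivity
    have g5 : 4 * C * ((H : ℝ) * (H : ℝ) ^ A) ≤ H * ε / 4 * (H * (H : ℝ) ^ A) :=
      mul_le_mul_of_nonneg_right (by linarith) g4
    have g6 : (H : ℝ) * ε / 4 * (H * (H : ℝ) ^ A) = ε / 4 * ((H : ℝ) ^ A * (H * H)) := by ring
    have g7 : ε / 4 * ((H : ℝ) ^ A * (H * H)) ≤ ε / 4 * x :=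
      mul_le_mul_of_nonneg_left hxA (by positivity)
    linarith
  have hgoal : ∑ n ∈ Ioc x (2 * x), W n ≤ ε * x := by
    have : 0 ≤ ε / 4 * (x : ℝ) := by positivity
    linarith
  rw [hWd] at hgoal
  exact hgoal

end

end Pool.Agent.NG
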