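import Pool.Agent.Lib.NG.CN
import Pool.Agent.Lib.NG.LBN
import Pool.Agent.Lib.NV.NSTEP

/-!
# Row NVPQN (MP_663568_nt, JET in natural density): natural means along progressions.

The index `b` of the phase becomes a part of the data: `α = {(b, X)}`, `dil p (b, X) = (b p, X (p ·))`.
(helper68)
-/

set_option autoImplicit false
open Finset

namespace Pool.Agent.NG

open Amb Pool.Agent.Lib.MP_663568_nt Pool.Agent.Lib.MP_663568_nt.Katai
  Pool.Agent.Lib.MP_663568_nt.Nul Pool.Agent.SV Pool.Agent.VQ Pool.Agent.NV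

noncomputable section

namespace NVPQNx

theorem ee_int (z : ℤ) : ee z = 1 := by
  unfold ee
  have : (2 * Real.pi * Complex.I * ((z : ℝ) : ℂ)) = (z : ℂ) * (2 * Real.pi * Complex.I) := by
    push_cast
    ring
  rw [this, Complex.exp_int_mul_two_pi_mul_I]

theorem ee_norm (x : ℝ) : ‖ee x‖ = 1 := by
  unfold ee
  rw [show 2 * Real.pi * Complex.I * (x : ℂ) = ((2 * Real.pi * x : ℝ) : ℂ) * Complex.I by
    push_cast; ring]
  exact Complex.norm_exp_ofReal_mul_I _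

theorem ee_add (x y : ℝ) : ee (x + y) = ee x * ee y := by
  unfold ee
  rw [← Complex.exp_add]
  congr 1
  push_cast
  ring

theorem ee_mod' (q m r k : ℕ) (hq : 1 ≤ q) :
    ee (((r + q * k : ℕ) : ℝ) * m / q) = ee ((r : ℝ) * m / q) := by
  have hq0 : (q : ℝ) ≠ 0 := by positivity
  have h2 : ((r + q * k : ℕ) : ℝ) * m / q = (r : ℝ) * m / q + (((k * m : ℕ) : ℤ) : ℝ) := by
    push_cast
    field_simp
  rw [h2, ee_add, ee_int, mul_one]

theorem ee_mod (q b m : ℕ) (hq : 1 ≤ q) : ee ((b : ℝ) * m / q) = ee (((b % q : ℕ) : ℝ) * m / q) := by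
  have h := ee_mod' q m (b % q) (b / q) hq
  rwa [Nat.mod_add_div] at h

theorem wg_nonneg (l m : ℕ) (g : ℕ → ℂ) : 0 ≤ Wg l m g := by
  unfold Wg
  positivity

theorem wg_mul (l m : ℕ) (c : ℂ) (g : ℕ → ℂ) : Wg l m (fun k => c * g k) = ‖c‖ * Wg l m g := by
  unfold Wg
  have h : ∑ h ∈ Icc 1 l, muC (m + h) * (c * g (m + h)) =
      c * ∑ h ∈ Icc 1 l, muC (m + h) * g (m + h) := by
    rw [mul_sum]
    exact sum_congr rfl fun h _ => by ring
  rw [h, norm_mul, mul_div_assoc]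

/-- Dilates of polynomial maps. -/
theorem ps_mul {U : Type} [Amb U] {Gf : ℕ → Subgroup U} {g : ℤ → U} (hg : PS Gf 0 g) (p : ℤ) :
    PS Gf 0 fun m : ℤ => g (p * m) := by
  have h1 := (lbn U ℤ Gf 0 g).1 ℤ (AddMonoidHom.mulLeft p) 0 hg
  have h2 : (fun x : ℤ => g (AddMonoidHom.mulLeft p x + 0)) = fun m => g (p * m) := by
    funext x
    rw [add_zero]
    rfl
  rwa [h2] at h1

end NVPQNx

open NVPQNx

/-- **Row NVPQN.** -/
theorem nvpqn : NVPQN_stmt := by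
  intro hC hN U _ Gf d hF F hFn q b hq A ε hA hε
  classical
  obtain ⟨C₀, hC₀⟩ := hFn.bd
  obtain ⟨C, hCd⟩ : ∃ C : ℝ, C = max C₀ 1 := ⟨_, rfl⟩
  have hC1 : 1 ≤ C := by rw [hCd]; exact le_max_right _ _
  have hC0 : 0 < C := by linarith
  have hq0 : (0 : ℝ) < q := by exact_mod_cast hq
  have hFC : ∀ x ∈ Gf 0, ‖F x‖ ≤ C := fun x hx => (hC₀ x hx).trans (by
    rw [hCd]; exact le_max_left _ _)
  have hCn : ‖((1 / C : ℝ) : ℂ)‖ = 1 / C := by
    rw [Complex.norm_real, Real.norm_eq_abs, abs_of_pos (by positivity)]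
  let α := ℕ × {g : ℤ → U // PS Gf 0 g}
  let ev : α → ℕ → ℂ := fun x m =>
    ((1 / C : ℝ) : ℂ) * (ee ((x.1 : ℝ) * m / q) * F (x.2.1 (m : ℤ)))
  let dil : ℕ → α → α := fun p x => (x.1 * p, ⟨fun m => x.2.1 ((p : ℤ) * m), ps_mul x.2.2 p⟩)
  have hev : ∀ (x : α) m, ‖ev x m‖ ≤ 1 := by
    intro x m
    show ‖((1 / C : ℝ) : ℂ) * (ee ((x.1 : ℝ) * m / q) * F (x.2.1 (m : ℤ)))‖ ≤ 1
    rw [norm_mul, norm_mul, hCn, ee_norm, one_mul, one_div, inv_mul_le_iff₀ hC0, mul_one]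
    exact hFC _ (x.2.2 [] _)
  have hdil : ∀ p (x : α) k, ev (dil p x) k = ev x (p * k) := by
    intro p x k
    show ((1 / C : ℝ) : ℂ) * (ee (((x.1 * p : ℕ) : ℝ) * k / q) * F (x.2.1 ((p : ℤ) * (k : ℤ)))) =
      ((1 / C : ℝ) : ℂ) * (ee ((x.1 : ℝ) * ((p * k : ℕ) : ℝ) / q) * F (x.2.1 ((p * k : ℕ) : ℤ)))
    rw [show ((x.1 * p : ℕ) : ℝ) * k / q = (x.1 : ℝ) * ((p * k : ℕ) : ℝ) / q by
      push_cast; ring, show ((p * k : ℕ) : ℤ) = (p : ℤ) * (k : ℤ) by push_cast; ring]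
  have hS : Smn ev := by
    intro A' ε' hA' hε'
    obtain ⟨B, H₀, hB, hH₀, h⟩ := NSTEPx.unif (range q)
      (fun (r : ℕ) (B : ℝ) (H₀ : ℕ) => ∀ H : ℕ, H₀ ≤ H → ∀ xa xb : ℝ, (H : ℝ) ^ B ≤ xa →
        xa * H ≤ xb → ∀ X : ℕ → ℤ → U, (∀ n, PS Gf 0 (X n)) → SlowA X ((H : ℝ) ^ A') →
        ∑ n ∈ Ioc ⌊xa⌋₊ ⌊xb⌋₊, (1 / (n : ℝ)) *
          Wg H n (fun m : ℕ => ee (r * m / q) * F (X n (m : ℤ))) ≤
          ε' / q * (Real.log xb - Real.log xa))
      (fun b B B' H H' hB hBB hH hHH h K hK xa xb hxa => h K (hHH.trans hK) xa xb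
        ((Real.rpow_le_rpow_of_exponent_le (by
          have : 1 ≤ K := hH.trans (hHH.trans hK)
          exact_mod_cast this) hBB).trans hxa))
      (fun r _ => by
        obtain ⟨B, H₀, hB, h⟩ := hN U Gf d hF F hFn q r hq A' (ε' / q) hA' (by positivity)
        exact ⟨B, max 1 H₀, hB, le_max_left _ _, fun H hH => h H ((le_max_right _ _).trans hH)⟩)
    refine ⟨B, H₀, hB, fun H hH xa xb hxa hxb X hX => ?_⟩
    have hY : SlowA (fun n => (X n).2.1) ((H : ℝ) ^ A') :=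
      NSTEPx.slow_map (fun x : α => x.2.1) hX
    have key : ∀ n, Wg H n (ev (X n)) ≤
        ∑ r ∈ range q, Wg H n (fun m : ℕ => ee (r * m / q) * F ((X n).2.1 (m : ℤ))) := by
      intro n
      have e1 : ev (X n) = fun m : ℕ => ((1 / C : ℝ) : ℂ) *
          (ee ((((X n).1 % q : ℕ) : ℝ) * m / q) * F ((X n).2.1 (m : ℤ))) := by
        funext m
        show ((1 / C : ℝ) : ℂ) * (ee (((X n).1 : ℝ) * m / q) * F ((X n).2.1 (m : ℤ))) = _
        rw [ee_mod q (X n).1 m hq]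
      rw [e1, wg_mul, hCn]
      have h1 : Wg H n (fun m : ℕ =>
          ee ((((X n).1 % q : ℕ) : ℝ) * m / q) * F ((X n).2.1 (m : ℤ))) ≤
          ∑ r ∈ range q, Wg H n (fun m : ℕ => ee (r * m / q) * F ((X n).2.1 (m : ℤ))) :=
        single_le_sum (f := fun r : ℕ =>
          Wg H n (fun m : ℕ => ee (r * m / q) * F ((X n).2.1 (m : ℤ))))
          (fun r _ => wg_nonneg _ _ _) (mem_range.2 (Nat.mod_lt _ hq))
      refine le_trans ?_ h1
      rw [one_div, inv_mul_le_iff₀ hC0]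
      nlinarith [wg_nonneg H n (fun m : ℕ =>
          ee ((((X n).1 % q : ℕ) : ℝ) * m / q) * F ((X n).2.1 (m : ℤ)))]
    calc ∑ n ∈ Ioc ⌊xa⌋₊ ⌊xb⌋₊, (1 / (n : ℝ)) * Wg H n (ev (X n)) ≤
        ∑ n ∈ Ioc ⌊xa⌋₊ ⌊xb⌋₊, (1 / (n : ℝ)) *
          ∑ r ∈ range q, Wg H n (fun m : ℕ => ee (r * m / q) * F ((X n).2.1 (m : ℤ))) :=
          sum_le_sum fun n _ => mul_le_mul_of_nonneg_left (key n) (by positivity)
      _ = ∑ r ∈ range q, ∑ n ∈ Ioc ⌊xa⌋₊ ⌊xb⌋₊, (1 / (n : ℝ)) *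
          Wg H n (fun m : ℕ => ee (r * m / q) * F ((X n).2.1 (m : ℤ))) := by
          rw [sum_comm]
          exact sum_congr rfl fun n _ => mul_sum _ _ _
      _ ≤ ∑ _r ∈ range q, ε' / q * (Real.log xb - Real.log xa) :=
          sum_le_sum fun r hr => h r hr H hH xa xb hxa hxb (fun n => (X n).2.1)
            (fun n => (X n).2.2) hY
      _ = ε' * (Real.log xb - Real.log xa) := by
          rw [sum_const, card_range, nsmul_eq_mul]
          field_simp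
  obtain ⟨B, H₀, hB, h⟩ := hC α ev dil hev hdil hS A (ε / C) hA (by positivity)
  refine ⟨B, H₀, hB, fun H hH x hx X hX hch => ?_⟩
  have hch' : ChN (fun n => ((b, ⟨X n, hX n⟩) : α)) x ((H : ℝ) ^ A) := by
    refine le_trans ?_ hch
    norm_cast
    refine card_le_card ?_
    intro n hn
    rw [mem_filter] at hn ⊢
    refine ⟨hn.1, fun h1 => hn.2 ?_⟩
    exact Prod.ext rfl (Subtype.ext h1)
  have h1 := h H hH x hx (fun n => (b, ⟨X n, hX n⟩)) hch'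
  have h2 : ∀ n, Wg H n (ev (b, ⟨X n, hX n⟩)) =
      1 / C * Wg H n (fun m : ℕ => ee (b * m / q) * F (X n (m : ℤ))) := by
    intro n
    show Wg H n (fun m : ℕ => ((1 / C : ℝ) : ℂ) * (ee ((b : ℝ) * m / q) * F (X n (m : ℤ)))) = _
    rw [wg_mul, hCn]
  simp only [h2] at h1
  rw [← mul_sum] at h1
  calc ∑ n ∈ Ioc x (2 * x), Wg H n (fun m : ℕ => ee (b * m / q) * F (X n (m : ℤ))) =
      C * (1 / C * ∑ n ∈ Ioc x (2 * x), Wg H n (fun m : ℕ => ee (b * m / q) * F (X n (m : ℤ)))) := by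
        field_simp
    _ ≤ C * (ε / C * x) := mul_le_mul_of_nonneg_left h1 hC0.le
    _ = ε * x := by field_simp

end

end Pool.Agent.NG
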