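import Mathlib
import Pool.Agent.Lib.NG.CN

/-!
# JET in natural density (MP_663568_nt), rows SEL and CESN  (helper19)

From each dyadic interval one prime is chosen; the dilates by these primes form a slow family.
-/

set_option autoImplicit false
open Finset Topology

namespace Pool.Agent.NG

noncomputable section

open Amb Pool.Agent.Lib.MP_663568_nt Pool.Agent.Lib.MP_663568_nt.Katai
  Pool.Agent.Lib.MP_663568_nt.Nul Pool.Agent.SV Pool.Agent.VQ Pool.Agent.NV

namespace SELx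

/-- Chebyshev's bound. -/
theorem cheb (i : ℕ) (hi : 1 ≤ i) :
    ∑ p ∈ (Ico (2 ^ i) (2 ^ (i + 1))).filter Nat.Prime, 1 / (p : ℝ) ≤ 4 / i := by
  set S := (Ico (2 ^ i) (2 ^ (i + 1))).filter Nat.Prime with hS
  have h1 : (2 ^ i) ^ #S ≤ 2 ^ (4 * 2 ^ i) := by
    calc (2 ^ i) ^ #S = ∏ p ∈ S, 2 ^ i := by rw [Finset.prod_const]
      _ ≤ ∏ p ∈ S, p := Finset.prod_le_prod' fun p hp => by
          simp only [hS, Finset.mem_filter, Finset.mem_Ico] at hp; exact hp.1.1
      _ ≤ ∏ p ∈ (range (2 ^ (i + 1) + 1)).filter Nat.Prime, p := by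
          refine Finset.prod_le_prod_of_subset_of_one_le' (fun p hp => ?_) fun p hp _ => ?_
          · simp only [hS, Finset.mem_filter, Finset.mem_Ico] at hp
            simp only [Finset.mem_filter, Finset.mem_range]
            exact ⟨by omega, hp.2⟩
          · exact (Finset.mem_filter.1 hp).2.one_lt.le
      _ = primorial (2 ^ (i + 1)) := rfl
      _ ≤ 4 ^ (2 ^ (i + 1)) := primorial_le_four_pow _
      _ = 2 ^ (4 * 2 ^ i) := by
          rw [show (4 : ℕ) = 2 ^ 2 by norm_num, ← pow_mul]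
          congr 1
          ring
  have h2 : i * #S ≤ 4 * 2 ^ i := by
    rw [← pow_mul] at h1
    exact (Nat.pow_le_pow_iff_right (by norm_num)).1 h1
  have hi0 : (0 : ℝ) < i := by exact_mod_cast hi
  have h3 : (i : ℝ) * #S ≤ 4 * 2 ^ i := by exact_mod_cast h2
  calc ∑ p ∈ S, 1 / (p : ℝ) ≤ ∑ p ∈ S, 1 / (2 : ℝ) ^ i := by
        refine Finset.sum_le_sum fun p hp => ?_
        simp only [hS, Finset.mem_filter, Finset.mem_Ico] at hp
        have : ((2 : ℝ) ^ i) ≤ p := by exact_mod_cast hp.1.1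
        gcongr
    _ = #S / (2 : ℝ) ^ i := by
        rw [Finset.sum_const, nsmul_eq_mul]
        ring
    _ ≤ 4 / i := by
        rw [div_le_div_iff₀ (by positivity) hi0]
        linarith

theorem Wg_nn (l m : ℕ) (g : ℕ → ℂ) : 0 ≤ Wg l m g := by
  unfold Wg
  positivity

/-- The index of the dyadic interval, for the parity `r`. -/
def io (x r k : ℕ) : ℕ :=
  if Nat.log 2 (x / k) % 2 = r then Nat.log 2 (x / k) else Nat.log 2 (x / k) + 1

theorem io_eq {x r k p i : ℕ} (hr : i % 2 = r) (hk : 0 < k) (h1 : x < p * k) (h2 : p * k ≤ 2 * x)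
    (hp : Nat.log 2 p = i) (hp0 : 0 < p) (hi : 1 ≤ i) : io x r k = i := by
  have p1 : 2 ^ i ≤ p := by rw [← hp]; exact Nat.pow_log_le_self 2 hp0.ne'
  have p2 : p < 2 ^ (i + 1) := by rw [← hp]; exact Nat.lt_pow_succ_log_self (by norm_num) p
  have a1 : 2 ^ (i - 1) ≤ x / k := by
    rw [Nat.le_div_iff_mul_le hk]
    have e : 2 ^ i = 2 * 2 ^ (i - 1) := by
      obtain ⟨j, rfl⟩ : ∃ j, i = j + 1 := ⟨i - 1, by omega⟩
      rw [Nat.add_sub_cancel, pow_succ]
      ring
    have : 2 ^ i * k ≤ p * k := Nat.mul_le_mul_right _ p1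
    rw [e] at this
    nlinarith
  have a2 : x / k < 2 ^ (i + 1) := by
    rw [Nat.div_lt_iff_lt_mul hk]
    calc x < p * k := h1
      _ ≤ 2 ^ (i + 1) * k := Nat.mul_le_mul_right _ p2.le
  have a0 : x / k ≠ 0 := by
    have : 0 < 2 ^ (i - 1) := by positivity
    omega
  have b1 : i - 1 ≤ Nat.log 2 (x / k) := Nat.le_log_of_pow_le (by norm_num) a1
  have b2 : Nat.log 2 (x / k) < i + 1 := Nat.log_lt_of_lt_pow a0 a2
  unfold io
  split_ifs with h
  · omega
  · omega

/-- The logarithm changes at most once in a dyadic block. -/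
theorem log_block (x j : ℕ) :
    Nat.log 2 (x / 2 ^ j) ≤ Nat.log 2 (x / 2 ^ (j + 1)) + 1 := by
  rw [pow_succ, ← Nat.div_div_eq_div_mul, Nat.log_div_base]
  omega

theorem card_drop (L : ℕ → ℕ) (hL : ∀ k, L (k + 1) ≤ L k) (a b : ℕ) (hab : a ≤ b) :
    #((Ico a b).filter fun k => L (k + 1) ≠ L k) + L b ≤ L a := by
  induction b, hab using Nat.le_induction with
  | base => simp
  | succ b hb ih =>
    have e : (Ico a (b + 1)).filter (fun k => L (k + 1) ≠ L k) ⊆
        (Ico a b).filter (fun k => L (k + 1) ≠ L k) ∪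
          (if L (b + 1) ≠ L b then {b} else ∅) := by
      intro k hk
      simp only [Finset.mem_filter, Finset.mem_Ico] at hk
      rcases Nat.lt_or_ge k b with h | h
      · exact Finset.mem_union_left _ (by simp only [Finset.mem_filter, Finset.mem_Ico]; exact ⟨⟨hk.1.1, h⟩, hk.2⟩)
      · have : k = b := by omega
        subst this
        apply Finset.mem_union_right
        rw [if_pos hk.2]
        simp
    have c := (Finset.card_le_card e).trans (Finset.card_union_le _ _)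
    have d := hL b
    by_cases h : L (b + 1) = L b
    · rw [if_neg (by simpa using h)] at c
      simp only [Finset.card_empty] at c
      omega
    · rw [if_pos h, Finset.card_singleton] at c
      omega

section
variable {α : Type}

/-- The family extended by constants. -/
def ext (X : ℕ → α) (x n : ℕ) : α := X (max (x + 1) (min n (2 * x)))

theorem ext_eq (X : ℕ → α) {x n : ℕ} (h1 : x < n) (h2 : n ≤ 2 * x) : ext X x n = X n := by
  unfold ext
  congr 1
  omega

theorem ext_ne (X : ℕ → α) {x n : ℕ} (h : ext X x (n + 1) ≠ ext X x n) :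
    n ∈ Ioc x (2 * x) ∧ X (n + 1) ≠ X n := by
  unfold ext at h
  rw [Finset.mem_Ioc]
  by_cases h1 : x < n
  · by_cases h2 : n < 2 * x
    · refine ⟨by omega, ?_⟩
      have e1 : max (x + 1) (min (n + 1) (2 * x)) = n + 1 := by omega
      have e2 : max (x + 1) (min n (2 * x)) = n := by omega
      rwa [e1, e2] at h
    · exfalso
      apply h
      congr 1
      omega
  · exfalso
    apply h
    congr 1
    omega

/-- A change of `k ↦ Z (p k)` comes from a change of `Z`. -/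
theorem change (Z : ℕ → α) (p k : ℕ) (hp : 0 < p) (h : Z (p * (k + 1)) ≠ Z (p * k)) :
    ∃ n, Z (n + 1) ≠ Z n ∧ n / p = k := by
  by_contra hc
  push Not at hc
  apply h
  have : ∀ t, t ≤ p → Z (p * k + t) = Z (p * k) := by
    intro t
    induction t with
    | zero => intro _; rfl
    | succ t ih =>
      intro ht
      rw [← ih (by omega)]
      by_contra h'
      refine hc (p * k + t) h' ?_
      rw [Nat.mul_add_div hp, Nat.div_eq_of_lt (by omega), add_zero]
  have e := this p le_rfl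
  rw [← e]
  congr 1

/-- The slow family of the chosen primes. -/
def fam (dil : ℕ → α → α) (X : ℕ → α) (x : ℕ) (pr : ℕ → ℕ) (r k : ℕ) : α :=
  dil (pr (io x r k)) (ext X x (pr (io x r k) * k))

theorem fam_slow (dil : ℕ → α → α) (X : ℕ → α) (x : ℕ) (pr : ℕ → ℕ) (hpr : ∀ i, 0 < pr i)
    (r : ℕ) (K : ℝ) (hX : ChN X x K) : SlowA (fam dil X x pr r) (1 + 3 * K) := by
  classical
  intro j
  set C : Finset ℕ := (Ioc x (2 * x)).filter fun n => X (n + 1) ≠ X n with hC
  have hCK : (#C : ℝ) ≤ K := by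
    have := hX
    unfold ChN at this
    convert this using 2
  set a := Nat.log 2 (x / 2 ^ j) with ha
  have anti : ∀ k, 1 ≤ k → Nat.log 2 (x / (k + 1)) ≤ Nat.log 2 (x / k) := fun k hk =>
    Nat.log_mono_right (Nat.div_le_div_left (by omega) (by omega))
  set S := (Ico (2 ^ j) (2 ^ (j + 1))).filter fun n =>
    fam dil X x pr r (n + 1) ≠ fam dil X x pr r n with hS
  set L : ℕ → ℕ := fun k => Nat.log 2 (x / (max k 1)) with hL
  have hLa : ∀ k, L (k + 1) ≤ L k := fun k => Nat.log_mono_right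
    (Nat.div_le_div_left (by omega) (by omega))
  have hb1 : #((Ico (2 ^ j) (2 ^ (j + 1))).filter fun k => L (k + 1) ≠ L k) ≤ 1 := by
    have h := card_drop L hLa (2 ^ j) (2 ^ (j + 1)) (Nat.pow_le_pow_right (by norm_num) (by omega))
    have e1 : L (2 ^ j) = Nat.log 2 (x / 2 ^ j) := by
      rw [hL]
      have : max (2 ^ j) 1 = 2 ^ j := max_eq_left Nat.one_le_two_pow
      simp only [this]
    have e2 : L (2 ^ (j + 1)) = Nat.log 2 (x / 2 ^ (j + 1)) := by
      rw [hL]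
      have : max (2 ^ (j + 1)) 1 = 2 ^ (j + 1) := max_eq_left Nat.one_le_two_pow
      simp only [this]
    have := log_block x j
    omega
  -- the values of `io`
  have hval : ∀ k, 2 ^ j ≤ k → k < 2 ^ (j + 1) → io x r k ∈ Icc (a - 1) (a + 1) := by
    intro k h1 h2
    have l1 : Nat.log 2 (x / k) ≤ a := Nat.log_mono_right
      (Nat.div_le_div_left h1 (by positivity))
    have kp : 0 < k := lt_of_lt_of_le (by positivity) h1
    have l2 : Nat.log 2 (x / 2 ^ (j + 1)) ≤ Nat.log 2 (x / k) := Nat.log_mono_right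
      (Nat.div_le_div_left h2.le kp)
    have l3 := log_block x j
    rw [Finset.mem_Icc]
    unfold io
    split_ifs
    · omega
    · omega
  have hsub : S ⊆ ((Ico (2 ^ j) (2 ^ (j + 1))).filter fun k => L (k + 1) ≠ L k) ∪
      (Icc (a - 1) (a + 1)).biUnion fun i => C.image fun n => n / pr i := by
    intro k hk
    simp only [hS, Finset.mem_filter, Finset.mem_Ico] at hk
    have k1 : 1 ≤ k := le_trans Nat.one_le_two_pow hk.1.1
    by_cases hLk : L (k + 1) = L k
    · apply Finset.mem_union_right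
      have e : io x r (k + 1) = io x r k := by
        have h1 : Nat.log 2 (x / (k + 1)) = Nat.log 2 (x / k) := by
          have := hLk
          simp only [hL] at this
          rwa [max_eq_left (by omega : 1 ≤ k + 1), max_eq_left k1] at this
        unfold io
        rw [h1]
      rw [Finset.mem_biUnion]
      refine ⟨io x r k, hval k hk.1.1 hk.1.2, ?_⟩
      have hne : ext X x (pr (io x r k) * (k + 1)) ≠ ext X x (pr (io x r k) * k) := by
        intro h
        apply hk.2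
        unfold fam
        rw [e, h]
      obtain ⟨n, hn, hnk⟩ := change (ext X x) (pr (io x r k)) k (hpr _) hne
      rw [Finset.mem_image]
      refine ⟨n, ?_, hnk⟩
      rw [hC, Finset.mem_filter]
      exact ext_ne X hn
    · apply Finset.mem_union_left
      rw [Finset.mem_filter, Finset.mem_Ico]
      exact ⟨hk.1, hLk⟩
  have hcard : #S ≤ 1 + 3 * #C := by
    refine (Finset.card_le_card hsub).trans ((Finset.card_union_le _ _).trans ?_)
    have h2 : #((Icc (a - 1) (a + 1)).biUnion fun i => C.image fun n => n / pr i) ≤ 3 * #C := by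
      refine (Finset.card_biUnion_le).trans ?_
      calc ∑ i ∈ Icc (a - 1) (a + 1), #(C.image fun n => n / pr i)
          ≤ ∑ i ∈ Icc (a - 1) (a + 1), #C := Finset.sum_le_sum fun i _ => Finset.card_image_le
        _ = #(Icc (a - 1) (a + 1)) * #C := by rw [Finset.sum_const, smul_eq_mul]
        _ ≤ 3 * #C := by
            refine Nat.mul_le_mul_right _ ?_
            rw [Nat.card_Icc]
            omega
    omega
  have : (#S : ℝ) ≤ 1 + 3 * #C := by exact_mod_cast hcard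
  have h3 : (#S : ℝ) ≤ 1 + 3 * K := by linarith
  convert h3 using 2

end

end SELx

open SELx in
/-- **Row SEL.** -/
theorem sel : SEL_stmt := by
  intro α ev dil hev hdil hS A κ ε hA hκ hκ8 hε
  classical
  have hε₂ : 0 < κ * ε / 16 := by positivity
  obtain ⟨B', H₀', hB', hmain⟩ := hS (2 * (A + 1) / κ) (κ * ε / 16) (by positivity) hε₂
  have T1 : ∀ᶠ H : ℕ in Filter.atTop, (H₀' : ℝ) + 2 ≤ (H : ℝ) ^ (κ / 2) :=
    ((tendsto_rpow_atTop (half_pos hκ)).comp tendsto_natCast_atTop_atTop).eventually_ge_atTop _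
  have T2 : ∀ᶠ H : ℕ in Filter.atTop, 4 / κ ≤ Real.logb 2 (H : ℝ) :=
    ((Real.tendsto_logb_atTop (by norm_num : (1 : ℝ) < 2)).comp
      tendsto_natCast_atTop_atTop).eventually_ge_atTop _
  obtain ⟨H₁, hH₁⟩ := Filter.eventually_atTop.1 (T1.and (T2.and (Filter.eventually_ge_atTop 4)))
  refine ⟨B' + 1, H₁, by linarith, fun H hH => ?_⟩
  obtain ⟨hM, hlog, hH4⟩ := hH₁ H hH
  have H4 : (4 : ℝ) ≤ H := by exact_mod_cast hH4
  have H1 : (1 : ℝ) ≤ H := by linarith
  have H0 : (0 : ℝ) < H := by linarith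
  have hHk : (H : ℝ) ^ κ = (H : ℝ) ^ (κ / 2) * (H : ℝ) ^ (κ / 2) := by
    rw [← Real.rpow_add H0]
    congr 1
    ring
  have hH₀'0 : (0 : ℝ) ≤ H₀' := Nat.cast_nonneg _
  have hk2 : (2 : ℝ) ≤ (H : ℝ) ^ (κ / 2) := by linarith
  have hkk : 2 * (H : ℝ) ^ (κ / 2) ≤ (H : ℝ) ^ κ := by
    rw [hHk]
    exact mul_le_mul_of_nonneg_right hk2 (by positivity)
  obtain ⟨l, hl⟩ : ∃ l : ℕ, l = ⌊(H : ℝ) ^ κ⌋₊ := ⟨_, rfl⟩
  have l1 : (l : ℝ) ≤ (H : ℝ) ^ κ := by rw [hl]; exact Nat.floor_le (by positivity)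
  have l2 : (H : ℝ) ^ κ < l + 1 := by rw [hl]; exact Nat.lt_floor_add_one _
  have l3 : (H : ℝ) ^ (κ / 2) ≤ l := by linarith
  have l4 : (H : ℝ) ^ κ / 2 ≤ l := by linarith
  have hl1 : 1 ≤ l := by
    have : (1 : ℝ) ≤ l := by linarith
    exact_mod_cast this
  have hlH : H₀' ≤ l := by
    have : (H₀' : ℝ) ≤ l := by linarith
    exact_mod_cast this
  rw [← hl]
  refine ⟨hl1, fun x hx X hX => ?_⟩
  have hx0 : (0 : ℝ) < x := lt_of_lt_of_le (by positivity) hx
  have hxn : 0 < x := by exact_mod_cast hx0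
  obtain ⟨Z, hZ⟩ : ∃ Z : ℕ, Z = ⌊(H : ℝ) ^ (1 / 4 : ℝ)⌋₊ := ⟨_, rfl⟩
  have Z1 : (Z : ℝ) ≤ (H : ℝ) ^ (1 / 4 : ℝ) := by rw [hZ]; exact Nat.floor_le (by positivity)
  have Z2 : (H : ℝ) ^ (1 / 4 : ℝ) < Z + 1 := by rw [hZ]; exact Nat.lt_floor_add_one _
  have Z3 : 1 ≤ Z := by
    rw [hZ]
    exact Nat.le_floor (by
      push_cast
      exact Real.one_le_rpow H1 (by norm_num))
  obtain ⟨i0, hi0⟩ : ∃ i : ℕ, i = Nat.log 2 l := ⟨_, rfl⟩
  obtain ⟨i1, hi1⟩ : ∃ i : ℕ, i = Nat.log 2 Z := ⟨_, rfl⟩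
  have q1 : 2 ^ i0 ≤ l := by rw [hi0]; exact Nat.pow_log_le_self 2 (by omega)
  have q2 : l < 2 ^ (i0 + 1) := by rw [hi0]; exact Nat.lt_pow_succ_log_self (by norm_num) l
  have q3 : 2 ^ i1 ≤ Z := by rw [hi1]; exact Nat.pow_log_le_self 2 (by omega)
  have q4 : Z < 2 ^ (i1 + 1) := by rw [hi1]; exact Nat.lt_pow_succ_log_self (by norm_num) Z
  -- logarithms
  obtain ⟨lg, hlg⟩ : ∃ y : ℝ, y = Real.logb 2 (H : ℝ) := ⟨_, rfl⟩
  rw [← hlg] at hlog
  have hκlg : 4 ≤ κ * lg := by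
    rw [div_le_iff₀ hκ] at hlog
    linarith
  have r1 : (i1 : ℝ) ≤ lg / 4 := by
    have a : ((2 : ℝ) ^ i1) ≤ (H : ℝ) ^ (1 / 4 : ℝ) := by
      have : ((2 : ℝ) ^ i1) ≤ Z := by exact_mod_cast q3
      linarith
    have b := Real.logb_le_logb_of_le (by norm_num : (1 : ℝ) < 2) (by positivity) a
    rw [Real.logb_pow, Real.logb_self_eq_one (by norm_num), mul_one,
      Real.logb_rpow_eq_mul_logb_of_pos H0, ← hlg] at b
    linarith
  have r0 : κ * lg - 2 < i0 := by
    have a : (H : ℝ) ^ κ / 2 < (2 : ℝ) ^ (i0 + 1) := by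
      have : (l : ℝ) < (2 : ℝ) ^ (i0 + 1) := by exact_mod_cast q2
      linarith
    have b := Real.logb_lt_logb (by norm_num : (1 : ℝ) < 2) (by positivity) a
    rw [Real.logb_pow, Real.logb_self_eq_one (by norm_num), mul_one,
      Real.logb_div (by positivity) (by norm_num), Real.logb_self_eq_one (by norm_num),
      Real.logb_rpow_eq_mul_logb_of_pos H0, ← hlg] at b
    push_cast at b
    linarith
  have hi0pos : (2 : ℝ) < i0 := by linarith
  have hi01 : 1 ≤ i0 := by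
    have : (1 : ℝ) < i0 := by linarith
    have : 1 < i0 := by exact_mod_cast this
    omega
  have hratio : κ * (i1 + 2) ≤ i0 := by
    have : κ * (i1 + 2) ≤ κ * (lg / 4 + 2) := by gcongr
    nlinarith
  -- the end points
  obtain ⟨xa, hxa⟩ : ∃ y : ℝ, y = (x : ℝ) / 2 ^ (i1 + 1) := ⟨_, rfl⟩
  obtain ⟨xb, hxb⟩ : ∃ y : ℝ, y = 2 * (x : ℝ) / 2 ^ i0 := ⟨_, rfl⟩
  have xa0 : 0 < xa := by rw [hxa]; positivity
  have xb0 : 0 < xb := by rw [hxb]; positivity
  have c4 : (l : ℝ) ^ B' ≤ xa := by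
    have a1 : (l : ℝ) ≤ H := l1.trans (by
      calc (H : ℝ) ^ κ ≤ (H : ℝ) ^ (1 : ℝ) := Real.rpow_le_rpow_of_exponent_le H1 (by linarith)
        _ = H := Real.rpow_one _)
    have a2 : (l : ℝ) ^ B' ≤ (H : ℝ) ^ B' := Real.rpow_le_rpow (by positivity) a1 hB'
    have a3 : (2 : ℝ) ^ (i1 + 1) ≤ H := by
      have b1 : ((2 : ℝ) ^ i1) ≤ (H : ℝ) ^ (1 / 4 : ℝ) := by
        have : ((2 : ℝ) ^ i1) ≤ Z := by exact_mod_cast q3
        linarith
      have b2 : (H : ℝ) ^ (1 / 4 : ℝ) ≤ (H : ℝ) ^ (1 / 2 : ℝ) :=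
        Real.rpow_le_rpow_of_exponent_le H1 (by norm_num)
      have b3 : (H : ℝ) ^ (1 / 2 : ℝ) * (H : ℝ) ^ (1 / 2 : ℝ) = H := by
        rw [← Real.rpow_add H0]
        norm_num
      have b4 : (2 : ℝ) ≤ (H : ℝ) ^ (1 / 2 : ℝ) := by
        by_contra hc
        push Not at hc
        have : (H : ℝ) ^ (1 / 2 : ℝ) * (H : ℝ) ^ (1 / 2 : ℝ) < 2 * 2 :=
          mul_lt_mul'' hc hc (by positivity) (by positivity)
        linarith
      rw [pow_succ]
      nlinarith
    rw [hxa, le_div_iff₀ (by positivity)]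
    calc (l : ℝ) ^ B' * 2 ^ (i1 + 1) ≤ (H : ℝ) ^ B' * H := by gcongr
      _ = (H : ℝ) ^ (B' + 1) := by rw [Real.rpow_add H0, Real.rpow_one]
      _ ≤ x := hx
  have c5 : xa * l ≤ xb := by
    have a1 : (l : ℝ) * 2 ^ i0 ≤ 2 ^ (i1 + 1) := by
      have b0 : ((2 : ℝ) ^ i0) ≤ l := by exact_mod_cast q1
      have b1 : (l : ℝ) * 2 ^ i0 ≤ (H : ℝ) ^ κ * (H : ℝ) ^ κ :=
        mul_le_mul l1 (b0.trans l1) (by positivity) (by positivity)
      have b2 : (H : ℝ) ^ κ * (H : ℝ) ^ κ ≤ (H : ℝ) ^ (1 / 4 : ℝ) := by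
        rw [← Real.rpow_add H0]
        exact Real.rpow_le_rpow_of_exponent_le H1 (by linarith)
      have b3 : ((Z : ℝ) + 1) ≤ 2 ^ (i1 + 1) := by exact_mod_cast q4
      linarith
    rw [hxa, hxb, div_mul_eq_mul_div, div_le_div_iff₀ (by positivity) (by positivity)]
    have : (x : ℝ) * l * 2 ^ i0 = x * (l * 2 ^ i0) := by ring
    rw [this]
    calc (x : ℝ) * (l * 2 ^ i0) ≤ x * 2 ^ (i1 + 1) := by gcongr
      _ ≤ 2 * x * 2 ^ (i1 + 1) := by nlinarith [mul_pos hx0 (pow_pos (two_pos : (0 : ℝ) < 2) (i1 + 1))]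
  have clog : Real.log xb - Real.log xa ≤ i1 + 2 := by
    rw [hxa, hxb, Real.log_div (by positivity) (by positivity),
      Real.log_div (by positivity) (by positivity), Real.log_mul (by norm_num) (by positivity),
      Real.log_pow, Real.log_pow]
    have h2 : Real.log 2 ≤ 1 := by
      have := Real.log_two_lt_d9
      linarith
    have h20 : 0 < Real.log 2 := Real.log_pos (by norm_num)
    push_cast
    have : Real.log 2 * (i1 + 2) ≤ 1 * (i1 + 2) := by gcongr
    nlinarith [mul_nonneg (Nat.cast_nonneg (α := ℝ) i0) h20.le]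
  -- the slow families
  have c3 : 1 + 3 * (H : ℝ) ^ A ≤ (l : ℝ) ^ (2 * (A + 1) / κ) := by
    have a1 : (1 : ℝ) ≤ (H : ℝ) ^ A := Real.one_le_rpow H1 hA
    calc 1 + 3 * (H : ℝ) ^ A ≤ H * (H : ℝ) ^ A := by nlinarith
      _ = (H : ℝ) ^ (A + 1) := by rw [Real.rpow_add H0, Real.rpow_one]; ring
      _ = ((H : ℝ) ^ (κ / 2)) ^ (2 * (A + 1) / κ) := by
          rw [← Real.rpow_mul H0.le]
          congr 1
          field_simp
      _ ≤ (l : ℝ) ^ (2 * (A + 1) / κ) :=
          Real.rpow_le_rpow (by positivity) l3 (by positivity)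
  have hfam : ∀ (pr : ℕ → ℕ), (∀ i, 0 < pr i) → ∀ r : ℕ,
      ∑ k ∈ Ioc ⌊xa⌋₊ ⌊xb⌋₊, (1 / (k : ℝ)) * Wg l k (ev (fam dil X x pr r k)) ≤
        κ * ε / 16 * (i1 + 2) := by
    intro pr hpr r
    refine (hmain l hlH xa xb c4 c5 (fam dil X x pr r) fun j => ?_).trans ?_
    · exact (fam_slow dil X x pr hpr r _ hX j).trans c3
    · exact mul_le_mul_of_nonneg_left clog hε₂.le
  -- the chosen primes
  obtain ⟨PP, hPP⟩ : ∃ S : Finset ℕ, S = PPs H κ (1 / 4) := ⟨_, rfl⟩
  rw [← hPP]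
  have memPP : ∀ p ∈ PP, p.Prime ∧ i0 ≤ Nat.log 2 p ∧ Nat.log 2 p ≤ i1 := by
    intro p hp
    rw [hPP, PPs, Finset.mem_filter, Finset.mem_Icc] at hp
    obtain ⟨⟨-, hpZ⟩, hpp, hpk⟩ := hp
    refine ⟨hpp, ?_, ?_⟩
    · rw [hi0]
      refine Nat.log_mono_right ?_
      have : (l : ℝ) ≤ p := l1.trans hpk
      exact_mod_cast this
    · rw [hi1, hZ]
      exact Nat.log_mono_right hpZ
  have hch : ∀ i : ℕ, ∃ q : ℕ, 0 < q ∧ (∀ p ∈ PP, Nat.log 2 p = i → Tp ev X x l p ≤ Tp ev X x l q) ∧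
      ((∃ p ∈ PP, Nat.log 2 p = i) → q ∈ PP ∧ Nat.log 2 q = i) := by
    intro i
    rcases (PP.filter fun p => Nat.log 2 p = i).eq_empty_or_nonempty with he | hne
    · refine ⟨1, one_pos, fun p hp hpi => ?_, fun ⟨p, hp, hpi⟩ => ?_⟩
      · exfalso
        have : p ∈ PP.filter fun p => Nat.log 2 p = i := Finset.mem_filter.2 ⟨hp, hpi⟩
        rw [he] at this
        exact absurd this (Finset.notMem_empty _)
      · exfalso
        have : p ∈ PP.filter fun p => Nat.log 2 p = i := Finset.mem_filter.2 ⟨hp, hpi⟩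
        rw [he] at this
        exact absurd this (Finset.notMem_empty _)
    · obtain ⟨q, hq, hmax⟩ := Finset.exists_max_image _ (Tp ev X x l) hne
      rw [Finset.mem_filter] at hq
      exact ⟨q, (memPP q hq.1).1.pos, fun p hp hpi => hmax p (Finset.mem_filter.2 ⟨hp, hpi⟩),
        fun _ => hq⟩
  choose pr hpr0 hprmax hprmem using hch
  obtain ⟨J, hJ⟩ : ∃ J : Finset ℕ, J = (Icc i0 i1).filter fun i => ∃ p ∈ PP, Nat.log 2 p = i :=
    ⟨_, rfl⟩
  have memJ : ∀ i ∈ J, (pr i).Prime ∧ Nat.log 2 (pr i) = i ∧ i0 ≤ i ∧ i ≤ i1 := by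
    intro i hi
    rw [hJ, Finset.mem_filter, Finset.mem_Icc] at hi
    have := hprmem i hi.2
    exact ⟨(memPP _ this.1).1, this.2, hi.1.1, hi.1.2⟩
  have Tnn : ∀ p, 0 ≤ Tp ev X x l p := by
    intro p
    unfold Tp
    have : 0 ≤ ∑ k ∈ Ioc (x / p) (2 * x / p), Wg l k fun m => ev (X (p * k)) (p * m) :=
      Finset.sum_nonneg fun k _ => SELx.Wg_nn _ _ _
    positivity
  -- one parity class
  have hcls : ∀ r : ℕ, ∑ i ∈ J.filter (fun i => i % 2 = r), Tp ev X x l (pr i) ≤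
      2 * (κ * ε / 16 * (i1 + 2)) := by
    intro r
    obtain ⟨f, hf⟩ : ∃ f : ℕ → ℝ, f = fun k : ℕ => (1 / (k : ℝ)) *
      Wg l k (ev (fam dil X x pr r k)) := ⟨_, rfl⟩
    have fnn : ∀ k, 0 ≤ f k := fun k => by
      rw [hf]
      exact mul_nonneg (by positivity) (SELx.Wg_nn _ _ _)
    have hone : ∀ i ∈ J.filter (fun i => i % 2 = r), Tp ev X x l (pr i) ≤
        ∑ k ∈ (Ioc ⌊xa⌋₊ ⌊xb⌋₊).filter (fun k => io x r k = i), 2 * f k := by
      intro i hi
      rw [Finset.mem_filter] at hi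
      obtain ⟨hp, hplog, hi0i, hii1⟩ := memJ i hi.1
      obtain ⟨p, hpdef⟩ : ∃ p, p = pr i := ⟨_, rfl⟩
      rw [← hpdef] at hp hplog ⊢
      have p0 : 0 < p := hp.pos
      have p1 : 2 ^ i ≤ p := by rw [← hplog]; exact Nat.pow_log_le_self 2 p0.ne'
      have p2 : p < 2 ^ (i + 1) := by rw [← hplog]; exact Nat.lt_pow_succ_log_self (by norm_num) p
      have hk : ∀ k ∈ Ioc (x / p) (2 * x / p), 0 < k ∧ x < p * k ∧ p * k ≤ 2 * x := by
        intro k hk
        rw [Finset.mem_Ioc] at hk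
        have a1 : x < k * p := (Nat.div_lt_iff_lt_mul p0).1 hk.1
        have a2 : k * p ≤ 2 * x := (Nat.le_div_iff_mul_le p0).1 hk.2
        exact ⟨lt_of_le_of_lt (Nat.zero_le _) hk.1, by rwa [mul_comm], by rwa [mul_comm]⟩
      unfold Tp
      rw [Finset.mul_sum]
      calc ∑ k ∈ Ioc (x / p) (2 * x / p), (p : ℝ) / x *
            Wg l k (fun m => ev (X (p * k)) (p * m))
          ≤ ∑ k ∈ Ioc (x / p) (2 * x / p), 2 * f k := by
            refine Finset.sum_le_sum fun k hkm => ?_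
            obtain ⟨k0, k1, k2⟩ := hk k hkm
            have eio : io x r k = i := io_eq hi.2 k0 k1 k2 hplog p0 (by omega)
            have efam : (fun m => ev (X (p * k)) (p * m)) = ev (fam dil X x pr r k) := by
              funext m
              unfold fam
              rw [eio, ← hpdef, ext_eq X k1 k2, hdil]
            rw [hf, efam]
            have k0' : (0 : ℝ) < k := by exact_mod_cast k0
            have hc : (p : ℝ) / x ≤ 2 * (1 / k) := by
              rw [mul_one_div, div_le_div_iff₀ hx0 k0']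
              exact_mod_cast k2
            calc (p : ℝ) / x * Wg l k (ev (fam dil X x pr r k))
                ≤ 2 * (1 / k) * Wg l k (ev (fam dil X x pr r k)) :=
                  mul_le_mul_of_nonneg_right hc (SELx.Wg_nn _ _ _)
              _ = 2 * (1 / (k : ℝ) * Wg l k (ev (fam dil X x pr r k))) := by ring
        _ ≤ ∑ k ∈ (Ioc ⌊xa⌋₊ ⌊xb⌋₊).filter (fun k => io x r k = i), 2 * f k := by
            refine Finset.sum_le_sum_of_subset_of_nonneg (fun k hkm => ?_) fun k _ _ =>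
              mul_nonneg (by norm_num) (fnn k)
            obtain ⟨k0, k1, k2⟩ := hk k hkm
            have k0' : (0 : ℝ) < k := by exact_mod_cast k0
            rw [Finset.mem_filter, Finset.mem_Ioc]
            refine ⟨⟨?_, ?_⟩, io_eq hi.2 k0 k1 k2 hplog p0 (by omega)⟩
            · rw [Nat.floor_lt xa0.le, hxa, div_lt_iff₀ (by positivity)]
              have b1 : p * k ≤ 2 ^ (i1 + 1) * k := Nat.mul_le_mul_right _
                (p2.le.trans (Nat.pow_le_pow_right (by norm_num) (by omega)))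
              have b2 : x < k * 2 ^ (i1 + 1) := by
                rw [mul_comm k]
                omega
              exact_mod_cast b2
            · refine Nat.le_floor ?_
              rw [hxb, le_div_iff₀ (by positivity)]
              have b1 : 2 ^ i0 * k ≤ p * k := Nat.mul_le_mul_right _
                ((Nat.pow_le_pow_right (by norm_num) hi0i).trans p1)
              have b2 : k * 2 ^ i0 ≤ 2 * x := by
                rw [mul_comm k]
                omega
              exact_mod_cast b2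
    calc ∑ i ∈ J.filter (fun i => i % 2 = r), Tp ev X x l (pr i)
        ≤ ∑ i ∈ J.filter (fun i => i % 2 = r),
            ∑ k ∈ (Ioc ⌊xa⌋₊ ⌊xb⌋₊).filter (fun k => io x r k = i), 2 * f k :=
          Finset.sum_le_sum hone
      _ ≤ ∑ k ∈ Ioc ⌊xa⌋₊ ⌊xb⌋₊, 2 * f k :=
          Finset.sum_fiberwise_le_sum_of_sum_fiber_nonneg fun i _ =>
            Finset.sum_nonneg fun k _ => mul_nonneg (by norm_num) (fnn k)
      _ = 2 * ∑ k ∈ Ioc ⌊xa⌋₊ ⌊xb⌋₊, f k := by rw [Finset.mul_sum]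
      _ ≤ 2 * (κ * ε / 16 * (i1 + 2)) := by
          rw [hf]
          have := hfam pr hpr0 r
          linarith
  -- the sum over the chosen primes
  have hJs : ∑ i ∈ J, Tp ev X x l (pr i) ≤ 4 * (κ * ε / 16 * (i1 + 2)) := by
    have e : ∑ r ∈ range 2, ∑ i ∈ J.filter (fun i => i % 2 = r), Tp ev X x l (pr i) =
        ∑ i ∈ J, Tp ev X x l (pr i) :=
      Finset.sum_fiberwise_of_maps_to (fun i _ => Finset.mem_range.2 (Nat.mod_lt _ (by norm_num))) _
    rw [← e]
    calc ∑ r ∈ range 2, ∑ i ∈ J.filter (fun i => i % 2 = r), Tp ev X x l (pr i)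
        ≤ ∑ r ∈ range 2, 2 * (κ * ε / 16 * (i1 + 2)) := Finset.sum_le_sum fun r _ => hcls r
      _ = 4 * (κ * ε / 16 * (i1 + 2)) := by
          rw [Finset.sum_const, Finset.card_range, nsmul_eq_mul]
          push_cast
          ring
  have i00 : (0 : ℝ) < i0 := by linarith
  have e1 : ∑ i ∈ J, ∑ p ∈ PP.filter (fun p => Nat.log 2 p = i), 1 / (p : ℝ) * Tp ev X x l p =
      ∑ p ∈ PP, 1 / (p : ℝ) * Tp ev X x l p := by
    refine Finset.sum_fiberwise_of_maps_to (fun p hp => ?_) _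
    rw [hJ, Finset.mem_filter, Finset.mem_Icc]
    exact ⟨(memPP p hp).2, p, hp, rfl⟩
  rw [← e1]
  calc ∑ i ∈ J, ∑ p ∈ PP.filter (fun p => Nat.log 2 p = i), 1 / (p : ℝ) * Tp ev X x l p
      ≤ ∑ i ∈ J, 4 / (i0 : ℝ) * Tp ev X x l (pr i) := by
        refine Finset.sum_le_sum fun i hi => ?_
        obtain ⟨-, -, hi0i, -⟩ := memJ i hi
        calc ∑ p ∈ PP.filter (fun p => Nat.log 2 p = i), 1 / (p : ℝ) * Tp ev X x l p
            ≤ ∑ p ∈ PP.filter (fun p => Nat.log 2 p = i), 1 / (p : ℝ) * Tp ev X x l (pr i) := by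
              refine Finset.sum_le_sum fun p hp => ?_
              rw [Finset.mem_filter] at hp
              exact mul_le_mul_of_nonneg_left (hprmax i p hp.1 hp.2) (by positivity)
          _ = (∑ p ∈ PP.filter (fun p => Nat.log 2 p = i), 1 / (p : ℝ)) *
                Tp ev X x l (pr i) := by rw [Finset.sum_mul]
          _ ≤ 4 / (i0 : ℝ) * Tp ev X x l (pr i) := by
              refine mul_le_mul_of_nonneg_right ?_ (Tnn _)
              have s1 : ∑ p ∈ PP.filter (fun p => Nat.log 2 p = i), 1 / (p : ℝ) ≤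
                  ∑ p ∈ (Ico (2 ^ i) (2 ^ (i + 1))).filter Nat.Prime, 1 / (p : ℝ) := by
                refine Finset.sum_le_sum_of_subset_of_nonneg (fun p hp => ?_) fun p _ _ => by
                  positivity
                rw [Finset.mem_filter] at hp
                have hpp := (memPP p hp.1).1
                rw [Finset.mem_filter, Finset.mem_Ico]
                refine ⟨⟨?_, ?_⟩, hpp⟩
                · rw [← hp.2]; exact Nat.pow_log_le_self 2 hpp.pos.ne'
                · rw [← hp.2]; exact Nat.lt_pow_succ_log_self (by norm_num) p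
              refine s1.trans ((cheb i (by omega)).trans ?_)
              have : (i0 : ℝ) ≤ i := by exact_mod_cast hi0i
              gcongr
    _ = 4 / (i0 : ℝ) * ∑ i ∈ J, Tp ev X x l (pr i) := by rw [Finset.mul_sum]
    _ ≤ 4 / (i0 : ℝ) * (4 * (κ * ε / 16 * (i1 + 2))) := by gcongr
    _ = ε * (κ * (i1 + 2)) / i0 := by ring
    _ ≤ ε * i0 / i0 := by gcongr
    _ = ε := by field_simp

/-- **Row CESN.** -/
theorem cesn : CESN_stmt := by
  intro hT hSel α ev dil hev hdil hS A ε₀ hA hε₀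
  obtain ⟨ε, hεd⟩ : ∃ ε : ℝ, ε = min ε₀ 1 := ⟨_, rfl⟩
  have hε : 0 < ε := by rw [hεd]; exact lt_min hε₀ one_pos
  have hε1 : ε ≤ 1 := by rw [hεd]; exact min_le_right _ _
  have hεε : ε ≤ ε₀ := by rw [hεd]; exact min_le_left _ _
  obtain ⟨κ, B₁, H₁, hκ, hκ8, hB₁, h1⟩ := hT A ε hA hε hε1
  obtain ⟨B₂, H₂, hB₂, h2⟩ := hSel α ev dil hev hdil hS A κ (ε / 8) hA hκ hκ8 (by positivity)
  refine ⟨max B₁ B₂, max 1 (max H₁ H₂), le_max_of_le_left hB₁, fun H hH x hx X hX => ?_⟩
  have hHa : 1 ≤ H := by omega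
  have hHb : H₁ ≤ H := by omega
  have hHc : H₂ ≤ H := by omega
  have H1 : (1 : ℝ) ≤ H := by exact_mod_cast hHa
  have hx1 : (H : ℝ) ^ B₁ ≤ x :=
    (Real.rpow_le_rpow_of_exponent_le H1 (le_max_left _ _)).trans hx
  have hx2 : (H : ℝ) ^ B₂ ≤ x :=
    (Real.rpow_le_rpow_of_exponent_le H1 (le_max_right _ _)).trans hx
  obtain ⟨hL, h1'⟩ := h1 H hHb
  obtain ⟨hl, h2'⟩ := h2 H hHc
  by_contra hcon
  push Not at hcon
  have hx0 : (0 : ℝ) ≤ x := Nat.cast_nonneg _
  have big : ε * x ≤ ∑ n ∈ Ioc x (2 * x), Wg H n (ev (X n)) :=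
    (mul_le_mul_of_nonneg_right hεε hx0).trans hcon.le
  have hlk : ((⌊(H : ℝ) ^ κ⌋₊ : ℕ) : ℝ) ≤ (H : ℝ) ^ (1 / 4 : ℝ) :=
    (Nat.floor_le (by positivity)).trans
      (Real.rpow_le_rpow_of_exponent_le H1 (by linarith))
  have a := h1' α ev hev x hx1 X hX big ⌊(H : ℝ) ^ κ⌋₊ hl hlk
  have b := h2' x hx2 X hX
  have Tnn : ∀ p, 0 ≤ Tp ev X x ⌊(H : ℝ) ^ κ⌋₊ p := by
    intro p
    unfold Tp
    have : 0 ≤ ∑ k ∈ Ioc (x / p) (2 * x / p), Wg ⌊(H : ℝ) ^ κ⌋₊ k fun m => ev (X (p * k)) (p * m) :=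
      Finset.sum_nonneg fun k _ => SELx.Wg_nn _ _ _
    positivity
  have c : ∑ p ∈ PPs H κ (1 / 4), wt (PPs H κ (1 / 4)) p * Tp ev X x ⌊(H : ℝ) ^ κ⌋₊ p ≤
      ∑ p ∈ PPs H κ (1 / 4), 1 / (p : ℝ) * Tp ev X x ⌊(H : ℝ) ^ κ⌋₊ p := by
    refine Finset.sum_le_sum fun p hp => mul_le_mul_of_nonneg_right ?_ (Tnn p)
    rw [PPs, Finset.mem_filter] at hp
    have p0 : (0 : ℝ) < p := by exact_mod_cast hp.2.1.pos
    unfold wt
    rw [div_le_div_iff₀ (by positivity) p0]
    nlinarith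
  linarith

end

end Pool.Agent.NG
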