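import Mathlib
import Pool.Agent.Lib.NG.CN
import Pool.Agent.Lib.NV.DILA
import Pool.Agent.Lib.VQ.TKG

/-!
# JET in natural density (MP_663568_nt), row TKN: Turán–Kubilius on windows (helper32)
-/

set_option autoImplicit false
open Finset MeasureTheory

namespace Pool.Agent.NG

noncomputable section

open Amb Pool.Agent.Lib.MP_663568_nt Pool.Agent.Lib.MP_663568_nt.Katai
  Pool.Agent.Lib.MP_663568_nt.Nul Pool.Agent.SV Pool.Agent.VQ Pool.Agent.NV

namespace TKNx

open Pool.Agent.NV.DILAx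

variable {α : Type}

/-- the function at the lower level on integers -/
def GG (ev : α → ℕ → ℂ) (Q : ℕ → α) (l p m : ℕ) : ℝ := Wg l (m / p) fun k => ev (Q m) (p * k)

theorem GG_nonneg (ev : α → ℕ → ℂ) (Q : ℕ → α) (l p m : ℕ) : 0 ≤ GG ev Q l p m := Wg_nonneg _ _ _

theorem GG_le_one {ev : α → ℕ → ℂ} (hev : ∀ x m, ‖ev x m‖ ≤ 1) (Q : ℕ → α) (l p m : ℕ) :
    GG ev Q l p m ≤ 1 := Wg_le_one _ _ fun _ => hev _ _

theorem FF_eq (ev : α → ℕ → ℂ) (Q : ℕ → α) (l p m : ℕ) {t : ℝ} (h1 : (m : ℝ) ≤ t)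
    (h2 : t < m + 1) : FF ev Q l p t = GG ev Q l p m := by
  have h3 : ⌊t⌋₊ = m := (Nat.floor_eq_iff ((Nat.cast_nonneg m).trans h1)).2 ⟨h1, h2⟩
  unfold FF GG
  rw [Nat.floor_div_natCast, h3]

theorem int1 (ev : α → ℕ → ℂ) (Q : ℕ → α) (l p m : ℕ) :
    ∫ t in (m : ℝ)..((m : ℝ) + 1), FF ev Q l p t = GG ev Q l p m := by
  rw [intervalIntegral.integral_of_le (by linarith), integral_Ioc_eq_integral_Ioo,
    setIntegral_congr_fun (g := fun _ => GG ev Q l p m) measurableSet_Ioo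
      (fun t ht => FF_eq ev Q l p m ht.1.le ht.2)]
  simp

theorem iiFF {ev : α → ℕ → ℂ} (hev : ∀ x m, ‖ev x m‖ ≤ 1) (Q : ℕ → α) (l p : ℕ) (a b : ℝ) :
    IntervalIntegrable (FF ev Q l p) volume a b := by
  refine (intervalIntegrable_const (c := (1 : ℝ))).mono_fun
    (FF_meas ev Q l p).aestronglyMeasurable (Filter.Eventually.of_forall fun t => ?_)
  simp only []
  rw [Real.norm_of_nonneg (FF_nonneg ev Q l p t)]
  simpa using FF_le_one hev Q l p t

theorem intFF {ev : α → ℕ → ℂ} (hev : ∀ x m, ‖ev x m‖ ≤ 1) (Q : ℕ → α) (l p n H : ℕ) :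
    ∫ t in (n : ℝ)..(n + H), FF ev Q l p t = ∑ i ∈ range H, GG ev Q l p (n + i) := by
  have h := intervalIntegral.sum_integral_adjacent_intervals (f := FF ev Q l p) (μ := volume)
    (a := fun i : ℕ => (n : ℝ) + i) (n := H) fun k _ => iiFF hev Q l p _ _
  simp only [Nat.cast_zero, add_zero] at h
  rw [← h]
  refine sum_congr rfl fun i _ => ?_
  have h2 := int1 ev Q l p (n + i)
  push_cast at h2 ⊢
  rw [← add_assoc]
  exact h2

theorem shift_le {g : ℕ → ℝ} (hg : ∀ m, 0 ≤ g m) {a b c i : ℕ} (hi : b + i ≤ c) :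
    ∑ n ∈ Ioc a b, g (n + i) ≤ ∑ m ∈ Ioc a c, g m := by
  have h1 : ∑ n ∈ Ioc a b, g (n + i) = ∑ m ∈ (Ioc a b).image (fun n => n + i), g m := by
    rw [sum_image]
    intro x _ y _ h
    exact Nat.add_right_cancel h
  rw [h1]
  refine sum_le_sum_of_subset_of_nonneg ?_ fun m _ _ => hg m
  intro m hm
  rw [mem_image] at hm
  obtain ⟨n, hn, rfl⟩ := hm
  rw [mem_Ioc] at hn ⊢
  omega

theorem fib_le {c : ℕ → ℝ} (hc : ∀ k, 0 ≤ c k) {p : ℕ} (hp : 1 ≤ p) (x y : ℕ) :
    ∑ m ∈ Ioc x y, c (m / p) ≤ p * ∑ k ∈ Icc (x / p) (y / p), c k := by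
  classical
  have hmap : ∀ m ∈ Ioc x y, m / p ∈ Icc (x / p) (y / p) := by
    intro m hm
    rw [mem_Ioc] at hm
    rw [mem_Icc]
    exact ⟨Nat.div_le_div_right hm.1.le, Nat.div_le_div_right hm.2⟩
  rw [← sum_fiberwise_of_maps_to hmap, mul_sum]
  refine sum_le_sum fun k _ => ?_
  have h1 : ∑ m ∈ Ioc x y with m / p = k, c (m / p) = ∑ m ∈ Ioc x y with m / p = k, c k :=
    sum_congr rfl fun m hm => by rw [(mem_filter.1 hm).2]
  rw [h1, sum_const, nsmul_eq_mul]
  refine mul_le_mul_of_nonneg_right ?_ (hc k)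
  have h2 : (Ioc x y).filter (fun m => m / p = k) ⊆ Ico (p * k) (p * k + p) := by
    intro m hm
    rw [mem_filter] at hm
    rw [mem_Ico]
    have h3 := Nat.div_add_mod m p
    have h4 := Nat.mod_lt m (show 0 < p by omega)
    rw [hm.2] at h3
    omega
  have h3 := card_le_card h2
  rw [Nat.card_Ico, Nat.add_sub_cancel_left] at h3
  exact_mod_cast h3

/-- comparison of the two means at the lower level -/
theorem cmp {ev : α → ℕ → ℂ} (hev : ∀ x m, ‖ev x m‖ ≤ 1) (Q : ℕ → α) {x p : ℕ} (l : ℕ)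
    (hx : 1 ≤ x) (hp : 1 ≤ p) :
    ∑ m ∈ Ioc x (2 * x), GG ev Q l p m ≤
      p + x * Tp ev Q x l p + p * ∑ j ∈ Ioc x (2 * x), ch Q j := by
  classical
  set c : ℕ → ℝ := fun k => if k = x / p then 1 else Wg l k fun m => ev (Q (p * k)) (p * m) with hc
  have hc0 : ∀ k, 0 ≤ c k := by
    intro k
    simp only [hc]
    split_ifs
    · norm_num
    · exact Wg_nonneg _ _ _
  set d : ℕ → ℝ := fun m => ∑ j ∈ Ioc x (2 * x), if j < m ∧ m ≤ j + p then ch Q j else 0 with hd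
  have hterm : ∀ j m : ℕ, 0 ≤ if j < m ∧ m ≤ j + p then ch Q j else 0 := by
    intro j m
    split_ifs
    · exact ch_nonneg Q j
    · exact le_rfl
  have hd0 : ∀ m, 0 ≤ d m := fun m => sum_nonneg fun j _ => hterm j m
  have hpt : ∀ m ∈ Ioc x (2 * x), GG ev Q l p m ≤ c (m / p) + d m := by
    intro m hm
    rw [mem_Ioc] at hm
    by_cases h1 : m / p = x / p
    · have h2 : c (m / p) = 1 := by simp only [hc]; rw [if_pos h1]
      rw [h2]
      have := GG_le_one hev Q l p m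
      have := hd0 m
      linarith
    · have hle : x / p ≤ m / p := Nat.div_le_div_right hm.1.le
      have hlt : x / p + 1 ≤ m / p := by omega
      have h3 := Nat.div_add_mod m p
      have h4 := Nat.mod_lt m (show 0 < p by omega)
      have h5 : x < p * (m / p) := by
        have h6 : p * (x / p + 1) ≤ p * (m / p) := Nat.mul_le_mul_left p hlt
        have h7 := Nat.div_add_mod x p
        have h8 := Nat.mod_lt x (show 0 < p by omega)
        rw [mul_add] at h6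
        omega
      have h2 : c (m / p) = Wg l (m / p) fun k => ev (Q (p * (m / p))) (p * k) := by
        simp only [hc]; rw [if_neg h1]
      by_cases hq : ∀ i < m - p * (m / p), Q (p * (m / p) + i + 1) = Q (p * (m / p) + i)
      · have h6 := const_win hq (m - p * (m / p)) le_rfl
        rw [show p * (m / p) + (m - p * (m / p)) = m by omega] at h6
        have h7 : GG ev Q l p m = c (m / p) := by
          rw [h2]
          unfold GG
          rw [h6]
        rw [h7]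
        have := hd0 m
        linarith
      · push Not at hq
        obtain ⟨i, hi, hne⟩ := hq
        have h6 : (1 : ℝ) ≤ d m := by
          have hj : p * (m / p) + i ∈ Ioc x (2 * x) := by
            rw [mem_Ioc]
            omega
          refine le_trans ?_ (single_le_sum (f := fun j => if j < m ∧ m ≤ j + p then ch Q j else 0)
            (fun j _ => hterm j m) hj)
          have h7 : p * (m / p) + i < m ∧ m ≤ p * (m / p) + i + p := by omega
          simp only [if_pos h7]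
          unfold ch
          rw [if_pos hne]
        have := GG_le_one hev Q l p m
        have := hc0 (m / p)
        linarith
  have hC : ∑ m ∈ Ioc x (2 * x), c (m / p) ≤ p + x * Tp ev Q x l p := by
    refine (fib_le hc0 hp x (2 * x)).trans ?_
    have h1 : x / p ≤ 2 * x / p := Nat.div_le_div_right (by omega)
    have h2 : Icc (x / p) (2 * x / p) = insert (x / p) (Ioc (x / p) (2 * x / p)) := by
      ext k
      simp only [mem_Icc, mem_insert, mem_Ioc]
      omega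
    rw [h2, sum_insert (by simp)]
    have h3 : c (x / p) = 1 := if_pos rfl
    have h4 : ∑ k ∈ Ioc (x / p) (2 * x / p), c k =
        ∑ k ∈ Ioc (x / p) (2 * x / p), Wg l k fun m => ev (Q (p * k)) (p * m) := by
      refine sum_congr rfl fun k hk => ?_
      rw [mem_Ioc] at hk
      simp only [hc]
      rw [if_neg (by omega)]
    rw [h3, h4]
    unfold Tp
    have hx0 : (x : ℝ) ≠ 0 := by
      have : x ≠ 0 := by omega
      exact_mod_cast this
    refine le_of_eq ?_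
    field_simp
  have hD : ∑ m ∈ Ioc x (2 * x), d m ≤ p * ∑ j ∈ Ioc x (2 * x), ch Q j := by
    simp only [hd]
    rw [sum_comm, mul_sum]
    refine sum_le_sum fun j _ => ?_
    rw [← sum_filter, sum_const, nsmul_eq_mul]
    refine mul_le_mul_of_nonneg_right ?_ (ch_nonneg Q j)
    have h2 : (Ioc x (2 * x)).filter (fun m => j < m ∧ m ≤ j + p) ⊆ Ioc j (j + p) := by
      intro m hm
      rw [mem_filter] at hm
      rw [mem_Ioc]
      exact hm.2
    have h3 := card_le_card h2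
    rw [Nat.card_Ioc, Nat.add_sub_cancel_left] at h3
    exact_mod_cast h3
  refine (sum_le_sum hpt).trans ?_
  rw [sum_add_distrib]
  linarith

theorem ch_sum {Q : ℕ → α} {x : ℕ} {K : ℝ} (h : ChN Q x K) : ∑ j ∈ Ioc x (2 * x), ch Q j ≤ K := by
  classical
  unfold ChN at h
  refine le_trans (le_of_eq ?_) h
  rw [card_eq_sum_ones, sum_filter]
  push_cast
  refine sum_congr rfl fun m _ => ?_
  unfold ch
  split_ifs <;> rfl

theorem Ls_mono {P P' : Finset ℕ} (h : P ⊆ P') : Ls P ≤ Ls P' := by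
  unfold Ls
  exact sum_le_sum_of_subset_of_nonneg h fun p _ _ => by positivity

theorem PPs_mono {H : ℕ} {κ κ' κ₂ : ℝ} (hH : (1 : ℝ) ≤ H) (h : κ ≤ κ') :
    PPs H κ' κ₂ ⊆ PPs H κ κ₂ := by
  intro p hp
  rw [PPs, mem_filter] at hp ⊢
  exact ⟨hp.1, hp.2.1, (Real.rpow_le_rpow_of_exponent_le hH h).trans hp.2.2⟩

end TKNx

open TKNx Pool.Agent.NV.DILAx

/-- Row TKN. -/
theorem tkn : TKN_stmt := by
  classical
  intro A ε hA hε hε1
  obtain ⟨K, η, hK, hη0, hη1, htk⟩ := tkg (ε / 8) (by linarith)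
  obtain ⟨κ', hκ', hle', X₁, hX₁⟩ := RB.mertens (max 1 K) (1 / 4) (by norm_num) le_rfl
    (le_max_left _ _)
  set κ : ℝ := min κ' (1 / 8) with hκ
  have hκ0 : 0 < κ := lt_min hκ' (by norm_num)
  have hκ8 : κ ≤ 1 / 8 := min_le_right _ _
  have hκκ : κ ≤ κ' := min_le_left _ _
  have hevt : ∀ᶠ H : ℕ in Filter.atTop, K ≤ (H : ℝ) ^ κ ∧ K ≤ (H : ℝ) ^ (1 / 2 : ℝ) ∧
      1 / η ≤ (H : ℝ) ^ (1 / 2 : ℝ) ∧ 32 / ε ≤ (H : ℝ) ∧ (3 : ℝ) ≤ H := by
    have h1 := (tendsto_rpow_atTop hκ0).comp (tendsto_natCast_atTop_atTop (R := ℝ))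
    have h3 := (tendsto_rpow_atTop (show (0 : ℝ) < 1 / 2 by norm_num)).comp
      (tendsto_natCast_atTop_atTop (R := ℝ))
    have h4 := tendsto_natCast_atTop_atTop (R := ℝ)
    exact (h1.eventually_ge_atTop K).and ((h3.eventually_ge_atTop _).and
      ((h3.eventually_ge_atTop _).and ((h4.eventually_ge_atTop _).and (h4.eventually_ge_atTop 3))))
  obtain ⟨H₀, hH₀⟩ := Filter.eventually_atTop.1 (hevt.and (Filter.eventually_ge_atTop X₁))
  refine ⟨κ, A + 2, H₀, hκ0, hκ8, by linarith, fun H hH => ?_⟩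
  obtain ⟨⟨hA1, hB1, hC1, hD1, hE1⟩, hHX⟩ := hH₀ H hH
  have hH0 : (0 : ℝ) < H := by linarith
  have hH1 : (1 : ℝ) ≤ H := by linarith
  have hHn : 1 ≤ H := by exact_mod_cast hH1
  have hL := (hX₁ H hHX).trans (Ls_mono (PPs_mono (κ₂ := 1 / 4) hH1 hκκ))
  set PP := PPs H κ (1 / 4) with hPP
  have hL1 : 1 ≤ Ls PP := (le_max_left _ _).trans hL
  have hLK : K ≤ Ls PP := (le_max_right _ _).trans hL
  refine ⟨hL1, fun α ev hev x hx Q hQ hmass l hl1 hl => ?_⟩
  set Z : ℝ := (H : ℝ) ^ (1 / 4 : ℝ) with hZ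
  have hZH : Z ≤ H := by
    calc Z ≤ (H : ℝ) ^ (1 : ℝ) := Real.rpow_le_rpow_of_exponent_le hH1 (by norm_num)
      _ = H := Real.rpow_one _
  have hpr : ∀ p ∈ PP, p.Prime ∧ K ≤ p ∧ (p : ℝ) ≤ Z := by
    intro p hp
    rw [hPP, PPs, mem_filter, mem_Icc] at hp
    exact ⟨hp.2.1, hA1.trans hp.2.2, (Nat.cast_le.2 hp.1.2).trans (Nat.floor_le (by positivity))⟩
  have hZ2 : Z ^ 2 = (H : ℝ) ^ (1 / 2 : ℝ) := by
    rw [hZ, ← Real.rpow_natCast, ← Real.rpow_mul hH0.le]
    norm_num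
  have hHH : (H : ℝ) ^ (1 / 2 : ℝ) * (H : ℝ) ^ (1 / 2 : ℝ) = H := by
    rw [← Real.rpow_add hH0]; norm_num
  have hKZ : K * Z ^ 2 ≤ H := by
    rw [hZ2]
    calc K * (H : ℝ) ^ (1 / 2 : ℝ) ≤ (H : ℝ) ^ (1 / 2 : ℝ) * (H : ℝ) ^ (1 / 2 : ℝ) :=
          mul_le_mul_of_nonneg_right hB1 (by positivity)
      _ = H := hHH
  have hlZ : l * Z ≤ η * H := by
    have h1 : l * Z ≤ Z ^ 2 := by
      rw [sq]
      exact mul_le_mul_of_nonneg_right hl (by positivity)
    rw [hZ2] at h1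
    rw [div_le_iff₀ hη0] at hC1
    calc l * Z ≤ 1 * (H : ℝ) ^ (1 / 2 : ℝ) := by rw [one_mul]; exact h1
      _ ≤ (H : ℝ) ^ (1 / 2 : ℝ) * η * (H : ℝ) ^ (1 / 2 : ℝ) :=
          mul_le_mul_of_nonneg_right hC1 (by positivity)
      _ = η * ((H : ℝ) ^ (1 / 2 : ℝ) * (H : ℝ) ^ (1 / 2 : ℝ)) := by ring
      _ = η * H := by rw [hHH]
  have htk2 := fun n g hg => htk PP Z hpr hLK H l hKZ hl1 hlZ n g hg
  have hwt : ∀ p ∈ PP, 0 ≤ wt PP p := fun p _ => wt_nonneg_b hL1 p
  have hwt1 : ∑ p ∈ PP, wt PP p = 1 := sum_wt_b hL1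
  set KK : ℝ := (H : ℝ) ^ A with hKK
  have hKK1 : 1 ≤ KK := Real.one_le_rpow hH1 hA
  have hxx : KK * H ^ 2 ≤ x := by
    have h1 : (H : ℝ) ^ (A + 2) = KK * H ^ 2 := by
      rw [hKK, Real.rpow_add hH0]
      norm_cast
    rwa [h1] at hx
  have hHx : (H : ℝ) ≤ x := by
    have h1 : (H : ℝ) ≤ H ^ 2 := by
      rw [sq]
      exact le_mul_of_one_le_right hH0.le hH1
    have h2 : (H : ℝ) ^ 2 ≤ KK * H ^ 2 := le_mul_of_one_le_left (by positivity) hKK1
    linarith
  have hHxn : H ≤ x := by exact_mod_cast hHx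
  have hx1 : 1 ≤ x := hHn.trans hHxn
  have hx0 : (0 : ℝ) < x := by exact_mod_cast (by omega : 0 < x)
  have hch := ch_sum hQ
  have hch0 : 0 ≤ ∑ j ∈ Ioc x (2 * x), ch Q j := sum_nonneg fun j _ => ch_nonneg Q j
  set T := ∑ p ∈ PP, wt PP p * Tp ev Q x l p with hT
  -- the windows inside the block
  have h1 : ∑ n ∈ Ioc x (2 * x - H), Wg H n (ev (Q n)) ≤
      ε / 8 * x + (∑ p ∈ PP, wt PP p * ∑ m ∈ Ioc x (2 * x), GG ev Q l p m) + H * KK := by
    have h2 : ∀ n ∈ Ioc x (2 * x - H), Wg H n (ev (Q n)) ≤ ε / 8 +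
        (∑ p ∈ PP, wt PP p * (1 / H * ∑ i ∈ range H, GG ev Q l p (n + i))) +
        ∑ i ∈ range H, ch Q (n + i) := by
      intro n _
      have h3 := point (by linarith : 0 ≤ ε / 8) PP hwt hHn hev Q n (htk2 n)
      refine h3.trans (le_of_eq ?_)
      congr 2
      refine sum_congr rfl fun p _ => ?_
      rw [intFF hev]
    refine (sum_le_sum h2).trans ?_
    rw [sum_add_distrib, sum_add_distrib]
    have h3 : ∑ n ∈ Ioc x (2 * x - H), ε / 8 ≤ ε / 8 * x := by
      rw [sum_const, nsmul_eq_mul, Nat.card_Ioc, mul_comm]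
      refine mul_le_mul_of_nonneg_left ?_ (by linarith)
      have : 2 * x - H - x ≤ x := by omega
      exact_mod_cast this
    have h4 : ∑ n ∈ Ioc x (2 * x - H), ∑ i ∈ range H, ch Q (n + i) ≤ H * KK := by
      rw [sum_comm]
      have h5 : ∀ i ∈ range H, ∑ n ∈ Ioc x (2 * x - H), ch Q (n + i) ≤ KK := by
        intro i hi
        rw [mem_range] at hi
        exact (shift_le (ch_nonneg Q) (by omega)).trans hch
      refine (sum_le_sum h5).trans (le_of_eq ?_)
      rw [sum_const, card_range, nsmul_eq_mul]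
    have h6 : ∑ n ∈ Ioc x (2 * x - H),
        ∑ p ∈ PP, wt PP p * (1 / H * ∑ i ∈ range H, GG ev Q l p (n + i)) ≤
        ∑ p ∈ PP, wt PP p * ∑ m ∈ Ioc x (2 * x), GG ev Q l p m := by
      rw [sum_comm]
      refine sum_le_sum fun p hp => ?_
      rw [← mul_sum]
      refine mul_le_mul_of_nonneg_left ?_ (hwt p hp)
      rw [← mul_sum, sum_comm]
      have h5 : ∀ i ∈ range H, ∑ n ∈ Ioc x (2 * x - H), GG ev Q l p (n + i) ≤
          ∑ m ∈ Ioc x (2 * x), GG ev Q l p m := by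
        intro i hi
        rw [mem_range] at hi
        exact shift_le (GG_nonneg ev Q l p) (by omega)
      have h7 := sum_le_sum h5
      rw [sum_const, card_range, nsmul_eq_mul] at h7
      refine (mul_le_mul_of_nonneg_left h7 (by positivity)).trans (le_of_eq ?_)
      field_simp
    linarith
  -- the other windows
  have h2 : ∑ n ∈ Ioc (2 * x - H) (2 * x), Wg H n (ev (Q n)) ≤ H := by
    refine (sum_le_sum fun n _ => Wg_le_one H n (hev (Q n))).trans ?_
    rw [sum_const, nsmul_eq_mul, mul_one, Nat.card_Ioc]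
    have : 2 * x - (2 * x - H) ≤ H := by omega
    exact_mod_cast this
  have h3 : ∑ n ∈ Ioc x (2 * x), Wg H n (ev (Q n)) =
      ∑ n ∈ Ioc x (2 * x - H), Wg H n (ev (Q n)) +
        ∑ n ∈ Ioc (2 * x - H) (2 * x), Wg H n (ev (Q n)) :=
    (sum_Ioc_consecutive _ (by omega) (by omega)).symm
  have h4 : ∑ p ∈ PP, wt PP p * ∑ m ∈ Ioc x (2 * x), GG ev Q l p m ≤ x * T + H * (1 + KK) := by
    have h5 : ∀ p ∈ PP, wt PP p * ∑ m ∈ Ioc x (2 * x), GG ev Q l p m ≤
        x * (wt PP p * Tp ev Q x l p) + H * (1 + KK) * wt PP p := by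
      intro p hp
      obtain ⟨hp1, -, hp3⟩ := hpr p hp
      have hpH : (p : ℝ) ≤ H := hp3.trans hZH
      have h6 := cmp hev Q l hx1 hp1.one_lt.le
      have h7 : (p : ℝ) * ∑ j ∈ Ioc x (2 * x), ch Q j ≤ H * KK :=
        mul_le_mul hpH hch hch0 hH0.le
      have h8 : ∑ m ∈ Ioc x (2 * x), GG ev Q l p m ≤ x * Tp ev Q x l p + H * (1 + KK) := by
        linarith
      refine (mul_le_mul_of_nonneg_left h8 (hwt p hp)).trans (le_of_eq ?_)
      ring
    refine (sum_le_sum h5).trans (le_of_eq ?_)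
    rw [sum_add_distrib, ← mul_sum, ← mul_sum, hwt1, mul_one]
  have h5 : H * KK * 32 ≤ ε * x := by
    rw [div_le_iff₀ hε] at hD1
    have h6 : H * KK * 32 ≤ H * KK * (H * ε) :=
      mul_le_mul_of_nonneg_left hD1 (by positivity)
    have h7 : H * KK * (H * ε) = ε * (KK * H ^ 2) := by ring
    rw [h7] at h6
    exact h6.trans (mul_le_mul_of_nonneg_left hxx hε.le)
  have h6 : (H : ℝ) ≤ H * KK := le_mul_of_one_le_right hH0.le hKK1
  have h7 : ε * x ≤ ε / 8 * x + x * T + ε / 8 * x := by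
    have h8 : (H : ℝ) * (1 + KK) = H + H * KK := by ring
    rw [h8] at h4
    linarith
  have h8 : x * (ε / 4) ≤ x * T := by
    have h9 : x * (ε / 4) ≤ (ε - ε / 4) * x := by nlinarith
    linarith
  exact le_of_mul_le_mul_left h8 hx0

end

end Pool.Agent.NG
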