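import Mathlib
import Pool.Agent.Lib.NG.JMain
import Pool.Agent.Lib.NG.SEL
import Pool.Agent.Lib.NG.TKN
import Pool.Agent.Lib.NG.NVJN
import Pool.Agent.Lib.NG.NVPQN
import Pool.Agent.Lib.NG.JETN
import Pool.Agent.Lib.NG.JCE

/-!
# JET in natural density (MP_663568_nt): assembly  (helper19)
-/

set_option autoImplicit false

namespace Pool.Agent.NG

noncomputable section

/-- Natural means from logarithmic means. -/
theorem cesn' : CESN' := cesn tkn sel

/-- The natural means along progressions. -/
theorem nvpqn' : NVPQN' := nvpqn cesn' nvpq'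

/-- **Theorem JET** in natural density for ambient groups. -/
theorem jetn_all : JETN' :=
  jetn (nvjn (nvj1 indj_all lbn) nvpqn' fnc lbm) lbm lbn fnc

/-- **Theorem JETC** (one `g`, all `N` and `H`) for ambient groups. -/
theorem jetcu_all : JETCU := jce (nvj1 indj_all lbn) nvpqn' fnc lbm lbn

end

end Pool.Agent.NG
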