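import Mathlib
import Pool.Agent.Lib.NG.J

/-!
# Row JN3 (MP_663568_nt, JET): sums and differences of polynomials near rationals.  (helper93)
-/

set_option autoImplicit false
open Finset

namespace Pool.Agent.NG

open Pool.Agent.Lib.MP_663568_nt Pool.Agent.Lib.MP_663568_nt.Katai
  Pool.Agent.Lib.MP_663568_nt.Nul

/-- **Row JN3.** -/
theorem jn3 : JN3_stmt := by
  rintro d E E' Q L P P' ⟨c, hc, hE⟩ ⟨c', hc', hE'⟩
  refine ⟨⟨fun j => c j + c' j, fun m => ?_, fun j h1 h2 => ?_⟩,
    ⟨fun j => c j - c' j, fun m => ?_, fun j h1 h2 => ?_⟩⟩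
  · simp only [hc, hc', pol]
    rw [← sum_add_distrib]
    exact sum_congr rfl fun j _ => by ring
  · have h3 : (Q : ℝ) * (c j + c' j) = Q * c j + Q * c' j := by ring
    rw [h3, add_div]
    exact (nd_add_le _ _).trans (add_le_add (hE j h1 h2) (hE' j h1 h2))
  · simp only [hc, hc', pol]
    rw [← sum_sub_distrib]
    exact sum_congr rfl fun j _ => by ring
  · have h3 : (Q : ℝ) * (c j - c' j) = Q * c j - Q * c' j := by ring
    rw [h3, add_div]
    exact (nd_sub_le _ _).trans (add_le_add (hE j h1 h2) (hE' j h1 h2))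

end Pool.Agent.NG
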