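import Pool.Agent.Lib.NG.CN

/-!
# JET in natural density (MP_663568_nt), row KAT: the windows at the multiples of primes

(helper95)
-/

set_option autoImplicit false
open Finset

namespace Pool.Agent.NG

open Pool.Agent.Lib.MP_663568_nt Pool.Agent.Lib.MP_663568_nt.Katai Pool.Agent.Lib.MP_663568_nt.Nul
  Pool.Agent.SV Pool.Agent.VQ Pool.Agent.NV Amb

noncomputable section

namespace KATx

/-- Means over shorter windows. -/
theorem avg (f : ℕ → ℂ) (hf : ∀ m, ‖f m‖ ≤ 1) (u v w : ℕ) (huv : u ≤ v) (hw : 1 ≤ w) :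
    ‖∑ k ∈ Ioc u v, f k‖ ≤ ∑ k ∈ Ioc u v, ‖∑ h ∈ Icc 1 w, f (k + h)‖ / w + 2 * w := by
  have hw0 : (0 : ℝ) < w := by exact_mod_cast hw
  have h1 : ∀ h : ℕ, ‖∑ k ∈ Ioc u v, f k - ∑ k ∈ Ioc u v, f (k + h)‖ ≤ 2 * h := by
    intro h
    induction h with
    | zero => simp
    | succ h ih =>
      have h2 : ‖∑ k ∈ Ioc u v, f (k + h) - ∑ k ∈ Ioc u v, f (k + (h + 1))‖ ≤ 2 := by
        have h3 : ∑ k ∈ Ioc u v, f (k + h) - ∑ k ∈ Ioc u v, f (k + (h + 1)) =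
            f (u + 1 + h) - f (v + 1 + h) := by
          clear ih
          induction v, huv using Nat.le_induction with
          | base => simp
          | succ v huv ih =>
            rw [sum_Ioc_succ_top (by omega), sum_Ioc_succ_top (by omega)]
            have h4 : v + 1 + (h + 1) = v + 1 + 1 + h := by omega
            rw [h4]
            have h5 : ∑ k ∈ Ioc u v, f (k + h) + f (v + 1 + h) -
                (∑ k ∈ Ioc u v, f (k + (h + 1)) + f (v + 1 + 1 + h)) =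
                (∑ k ∈ Ioc u v, f (k + h) - ∑ k ∈ Ioc u v, f (k + (h + 1))) + f (v + 1 + h) -
                  f (v + 1 + 1 + h) := by ring
            rw [h5, ih]
            ring
        rw [h3]
        refine (norm_sub_le _ _).trans ?_
        linarith [hf (u + 1 + h), hf (v + 1 + h)]
      have h6 : ∑ k ∈ Ioc u v, f k - ∑ k ∈ Ioc u v, f (k + (h + 1)) =
          (∑ k ∈ Ioc u v, f k - ∑ k ∈ Ioc u v, f (k + h)) +
          (∑ k ∈ Ioc u v, f (k + h) - ∑ k ∈ Ioc u v, f (k + (h + 1))) := by ring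
      rw [h6]
      refine (norm_add_le _ _).trans ?_
      push_cast
      linarith
  have h2 : (w : ℝ) * ‖∑ k ∈ Ioc u v, f k‖ ≤
      ∑ k ∈ Ioc u v, ‖∑ h ∈ Icc 1 w, f (k + h)‖ + 2 * w * w := by
    have h3 : (w : ℂ) * ∑ k ∈ Ioc u v, f k = ∑ k ∈ Ioc u v, ∑ h ∈ Icc 1 w, f (k + h) +
        ∑ h ∈ Icc 1 w, (∑ k ∈ Ioc u v, f k - ∑ k ∈ Ioc u v, f (k + h)) := by
      rw [sum_sub_distrib, sum_const, Nat.card_Icc, nsmul_eq_mul, sum_comm (s := Icc 1 w)]
      simp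
    calc (w : ℝ) * ‖∑ k ∈ Ioc u v, f k‖ = ‖(w : ℂ) * ∑ k ∈ Ioc u v, f k‖ := by
          rw [norm_mul, Complex.norm_natCast]
      _ ≤ ‖∑ k ∈ Ioc u v, ∑ h ∈ Icc 1 w, f (k + h)‖ +
          ‖∑ h ∈ Icc 1 w, (∑ k ∈ Ioc u v, f k - ∑ k ∈ Ioc u v, f (k + h))‖ := by
        rw [h3]
        exact norm_add_le _ _
      _ ≤ ∑ k ∈ Ioc u v, ‖∑ h ∈ Icc 1 w, f (k + h)‖ + ∑ _h ∈ Icc 1 w, 2 * (w : ℝ) := by
        refine add_le_add (norm_sum_le _ _) ((norm_sum_le _ _).trans (sum_le_sum fun h hh => ?_))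
        refine (h1 h).trans ?_
        have : (h : ℝ) ≤ w := by exact_mod_cast (mem_Icc.1 hh).2
        linarith
      _ = ∑ k ∈ Ioc u v, ‖∑ h ∈ Icc 1 w, f (k + h)‖ + 2 * w * w := by
        rw [sum_const, Nat.card_Icc, nsmul_eq_mul]
        simp
        ring
  rw [← sum_div, div_add' _ _ _ hw0.ne', le_div_iff₀ hw0]
  linarith

/-- The multiples of `p`. -/
theorem mult (g : ℕ → ℂ) (p n H : ℕ) (hp : 0 < p) :
    ∑ m ∈ (Ioc n (n + H)).filter (fun m => p ∣ m), g m =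
      ∑ k ∈ Ioc (n / p) ((n + H) / p), g (p * k) := by
  symm
  refine sum_bij (fun k _ => p * k) ?_ ?_ ?_ ?_
  · intro k hk
    rw [mem_Ioc] at hk
    rw [mem_filter, mem_Ioc]
    refine ⟨⟨?_, ?_⟩, Dvd.intro _ rfl⟩
    · have := (Nat.div_lt_iff_lt_mul hp).1 hk.1
      rwa [mul_comm] at this
    · have := (Nat.le_div_iff_mul_le hp).1 hk.2
      rwa [mul_comm] at this
  · intro k _ k' _ h
    exact Nat.eq_of_mul_eq_mul_left hp h
  · intro m hm
    rw [mem_filter, mem_Ioc] at hm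
    obtain ⟨k, rfl⟩ := hm.2
    refine ⟨k, ?_, rfl⟩
    rw [mem_Ioc]
    refine ⟨(Nat.div_lt_iff_lt_mul hp).2 ?_, (Nat.le_div_iff_mul_le hp).2 ?_⟩
    · rw [mul_comm]; exact hm.1.1
    · rw [mul_comm]; exact hm.1.2
  · intro k _
    rfl

theorem muC_prime (p : ℕ) (hp : p.Prime) : muC p = -1 := by
  unfold muC
  rw [ArithmeticFunction.moebius_apply_prime hp]
  simp

theorem muC_dvd (p k : ℕ) (hp : p.Prime) (h : p ∣ k) : muC (p * k) = 0 := by
  unfold muC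
  rw [ArithmeticFunction.moebius_eq_zero_of_not_squarefree]
  · simp
  · intro hs
    obtain ⟨j, rfl⟩ := h
    have := hs p ⟨j, by ring⟩
    exact hp.one_lt.ne' (Nat.isUnit_iff.1 this)

/-- The number of multiples of `p`. -/
theorem cnt (p n H : ℕ) (hp : 0 < p) :
    (#((Ioc (n / p) ((n + H) / p)).filter fun k => p ∣ k) : ℝ) ≤ H / (p : ℝ) ^ 2 + 1 := by
  have hp0 : (0 : ℝ) < p := by exact_mod_cast hp
  have h1 : (#((Ioc (n / p) ((n + H) / p)).filter fun k => p ∣ k) : ℝ) =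
      (#(Ioc (n / p / p) ((n + H) / p / p)) : ℝ) := by
    congr 1
    symm
    refine card_bij (fun k _ => p * k) ?_ ?_ ?_
    · intro k hk
      rw [mem_Ioc] at hk
      rw [mem_filter, mem_Ioc]
      refine ⟨⟨?_, ?_⟩, Dvd.intro _ rfl⟩
      · have := (Nat.div_lt_iff_lt_mul hp).1 hk.1
        rwa [mul_comm] at this
      · have := (Nat.le_div_iff_mul_le hp).1 hk.2
        rwa [mul_comm] at this
    · intro k _ k' _ h
      exact Nat.eq_of_mul_eq_mul_left hp h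
    · intro m hm
      rw [mem_filter, mem_Ioc] at hm
      obtain ⟨k, rfl⟩ := hm.2
      refine ⟨k, ?_, rfl⟩
      rw [mem_Ioc]
      refine ⟨(Nat.div_lt_iff_lt_mul hp).2 ?_, (Nat.le_div_iff_mul_le hp).2 ?_⟩
      · rw [mul_comm]; exact hm.1.1
      · rw [mul_comm]; exact hm.1.2
  rw [h1, Nat.card_Ioc, Nat.div_div_eq_div_mul, Nat.div_div_eq_div_mul]
  have h2 : n / (p * p) ≤ (n + H) / (p * p) := Nat.div_le_div_right (Nat.le_add_right _ _)
  rw [Nat.cast_sub h2]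
  have h3 : (((n + H) / (p * p) : ℕ) : ℝ) ≤ ((n + H : ℕ) : ℝ) / ((p * p : ℕ) : ℝ) :=
    Nat.cast_div_le
  have h4 : ((n : ℕ) : ℝ) / ((p * p : ℕ) : ℝ) ≤ ((n / (p * p) : ℕ) : ℝ) + 1 := by
    have hpp : (0 : ℝ) < ((p * p : ℕ) : ℝ) := by push_cast; positivity
    rw [div_le_iff₀ hpp]
    have h5 := Nat.lt_div_mul_add (a := n) (b := p * p) (by positivity)
    have h6 : (n : ℝ) < ((n / (p * p) * (p * p) + p * p : ℕ) : ℝ) := by exact_mod_cast h5
    push_cast at h6 ⊢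
    nlinarith
  have h5 : ((n + H : ℕ) : ℝ) / ((p * p : ℕ) : ℝ) = (n : ℝ) / ((p * p : ℕ) : ℝ) +
      H / (p : ℝ) ^ 2 := by
    push_cast
    rw [add_div, sq]
  linarith

/-- The multiples of `d` in `(u, v]`. -/
theorem dcount (d u v : ℕ) (hd : 0 < d) (huv : u ≤ v) :
    |(#((Ioc u v).filter fun m => d ∣ m) : ℝ) - ((v : ℝ) - u) / d| ≤ 1 := by
  have hd0 : (0 : ℝ) < d := by exact_mod_cast hd
  have h1 : #((Ioc u v).filter fun m => d ∣ m) = #(Ioc (u / d) (v / d)) := by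
    symm
    refine card_bij (fun k _ => d * k) ?_ ?_ ?_
    · intro k hk
      rw [mem_Ioc] at hk
      rw [mem_filter, mem_Ioc]
      refine ⟨⟨?_, ?_⟩, Dvd.intro _ rfl⟩
      · have := (Nat.div_lt_iff_lt_mul hd).1 hk.1
        rwa [mul_comm] at this
      · have := (Nat.le_div_iff_mul_le hd).1 hk.2
        rwa [mul_comm] at this
    · intro k _ k' _ h
      exact Nat.eq_of_mul_eq_mul_left hd h
    · intro m hm
      rw [mem_filter, mem_Ioc] at hm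
      obtain ⟨k, rfl⟩ := hm.2
      refine ⟨k, ?_, rfl⟩
      rw [mem_Ioc]
      refine ⟨(Nat.div_lt_iff_lt_mul hd).2 ?_, (Nat.le_div_iff_mul_le hd).2 ?_⟩
      · rw [mul_comm]; exact hm.1.1
      · rw [mul_comm]; exact hm.1.2
  rw [h1, Nat.card_Ioc, Nat.cast_sub (Nat.div_le_div_right huv)]
  have h2 : ((v / d : ℕ) : ℝ) ≤ (v : ℝ) / d := Nat.cast_div_le
  have h3 : ((u / d : ℕ) : ℝ) ≤ (u : ℝ) / d := Nat.cast_div_le
  have h4 : ∀ n : ℕ, (n : ℝ) / d < ((n / d : ℕ) : ℝ) + 1 := by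
    intro n
    rw [div_lt_iff₀ hd0]
    have h5 := Nat.lt_div_mul_add (a := n) (b := d) hd
    have h6 : (n : ℝ) < ((n / d * d + d : ℕ) : ℝ) := by exact_mod_cast h5
    push_cast at h6 ⊢
    nlinarith
  have h5 := h4 u
  have h6 := h4 v
  rw [sub_div, abs_le]
  constructor <;> linarith

/-- Turán - Kubilius. -/
theorem tkw (P : Finset ℕ) (M u v : ℕ) (hP : ∀ p ∈ P, p.Prime ∧ p ≤ M) (huv : u ≤ v)
    (hM : M ^ 2 ≤ v - u) :
    ∑ m ∈ Ioc u v, ((#(P.filter fun p => p ∣ m) : ℝ) - ∑ p ∈ P, (1 : ℝ) / p) ^ 2 ≤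
      3 * ((v : ℝ) - u) * (∑ p ∈ P, (1 : ℝ) / p + 1) := by
  classical
  obtain ⟨L, hL⟩ : ∃ L : ℝ, L = ∑ p ∈ P, (1 : ℝ) / p := ⟨_, rfl⟩
  have hL0 : 0 ≤ L := by rw [hL]; exact sum_nonneg fun p _ => by positivity
  obtain ⟨W, hW⟩ : ∃ W : ℝ, W = (v : ℝ) - u := ⟨_, rfl⟩
  rw [← hL, ← hW]
  have hcardP : #P ≤ M := by
    have : P ⊆ Icc 1 M := fun p hp => mem_Icc.2 ⟨(hP p hp).1.pos, (hP p hp).2⟩
    have h := card_le_card this
    rwa [Nat.card_Icc, Nat.add_sub_cancel] at h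
  have hn2 : ((#P : ℝ)) ^ 2 ≤ W := by
    have h1 : (#P) ^ 2 ≤ v - u := (Nat.pow_le_pow_left hcardP 2).trans hM
    have h2 : (((#P) ^ 2 : ℕ) : ℝ) ≤ ((v - u : ℕ) : ℝ) := by exact_mod_cast h1
    rw [Nat.cast_sub huv] at h2
    rw [hW]
    exact_mod_cast h2
  have hW0 : 0 ≤ W := (sq_nonneg _).trans hn2
  have hnn : (#P : ℝ) ≤ (#P : ℝ) ^ 2 := by
    have : #P ≤ (#P) ^ 2 := Nat.le_self_pow two_ne_zero _
    exact_mod_cast this
  have hsum1 : W * L - #P ≤ ∑ m ∈ Ioc u v, (#(P.filter fun p => p ∣ m) : ℝ) := by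
    have e1 : ∑ m ∈ Ioc u v, (#(P.filter fun p => p ∣ m) : ℝ) =
        ∑ p ∈ P, (#((Ioc u v).filter fun m => p ∣ m) : ℝ) := by
      simp_rw [card_filter]
      push_cast
      rw [sum_comm]
    rw [e1, hL, mul_sum]
    have e2 : ∑ p ∈ P, W * (1 / (p : ℝ)) - (#P : ℝ) = ∑ p ∈ P, (W / (p : ℝ) - 1) := by
      rw [sum_sub_distrib, sum_const, nsmul_eq_mul, mul_one]
      congr 1
      exact sum_congr rfl fun p _ => by ring
    rw [e2]
    refine sum_le_sum fun p hp => ?_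
    have := (abs_le.1 (dcount p u v (hP p hp).1.pos huv)).1
    rw [← hW] at this
    linarith
  have hsum2 : ∑ m ∈ Ioc u v, (#(P.filter fun p => p ∣ m) : ℝ) ^ 2 ≤
      W * L ^ 2 + W * L + (#P : ℝ) ^ 2 := by
    have e1 : ∑ m ∈ Ioc u v, (#(P.filter fun p => p ∣ m) : ℝ) ^ 2 =
        ∑ p ∈ P, ∑ q ∈ P, (#((Ioc u v).filter fun m => p ∣ m ∧ q ∣ m) : ℝ) := by
      have e2 : ∀ m, (#(P.filter fun p => p ∣ m) : ℝ) ^ 2 =
          ∑ p ∈ P, ∑ q ∈ P, (if p ∣ m ∧ q ∣ m then (1 : ℝ) else 0) := by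
        intro m
        rw [sq, card_filter]
        push_cast
        rw [sum_mul_sum]
        refine sum_congr rfl fun p _ => sum_congr rfl fun q _ => ?_
        by_cases h1 : p ∣ m <;> by_cases h2 : q ∣ m <;> simp [h1, h2]
      simp_rw [e2]
      rw [sum_comm]
      refine sum_congr rfl fun p _ => ?_
      rw [sum_comm]
      refine sum_congr rfl fun q _ => ?_
      rw [card_filter]
      push_cast
      rfl
    rw [e1]
    have e3 : ∀ p ∈ P, ∀ q ∈ P, (#((Ioc u v).filter fun m => p ∣ m ∧ q ∣ m) : ℝ) ≤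
        W * (1 / (p : ℝ)) * (1 / (q : ℝ)) + (if p = q then W * (1 / (p : ℝ)) else 0) + 1 := by
      intro p hp q hq
      have hp1 := (hP p hp).1
      have hq1 := (hP q hq).1
      have hp0 : (0 : ℝ) < p := by exact_mod_cast hp1.pos
      have hq0 : (0 : ℝ) < q := by exact_mod_cast hq1.pos
      by_cases h : p = q
      · subst h
        rw [if_pos rfl]
        simp only [and_self]
        have := (abs_le.1 (dcount p u v hp1.pos huv)).2
        rw [← hW] at this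
        have h2 : 0 ≤ W * (1 / (p : ℝ)) * (1 / (p : ℝ)) := by positivity
        have h3 : W / (p : ℝ) = W * (1 / (p : ℝ)) := by ring
        linarith
      · rw [if_neg h]
        have hco : Nat.Coprime p q := (Nat.coprime_primes hp1 hq1).2 h
        have h1 : (Ioc u v).filter (fun m => p ∣ m ∧ q ∣ m) =
            (Ioc u v).filter fun m => p * q ∣ m := by
          refine filter_congr fun m _ => ?_
          exact ⟨fun h => hco.mul_dvd_of_dvd_of_dvd h.1 h.2,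
            fun h => ⟨(dvd_mul_right _ _).trans h, (dvd_mul_left _ _).trans h⟩⟩
        rw [h1]
        have := (abs_le.1 (dcount (p * q) u v (Nat.mul_pos hp1.pos hq1.pos) huv)).2
        rw [← hW] at this
        push_cast at this
        have h3 : W / ((p : ℝ) * q) = W * (1 / (p : ℝ)) * (1 / (q : ℝ)) := by
          field_simp
        linarith
    refine (sum_le_sum fun p hp => sum_le_sum fun q hq => e3 p hp q hq).trans (le_of_eq ?_)
    simp_rw [sum_add_distrib]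
    have e4 : ∑ p ∈ P, ∑ q ∈ P, W * (1 / (p : ℝ)) * (1 / (q : ℝ)) = W * L ^ 2 := by
      rw [hL, sq, sum_mul_sum, mul_sum]
      refine sum_congr rfl fun p _ => ?_
      rw [mul_sum]
      exact sum_congr rfl fun q _ => by ring
    have e5 : ∑ p ∈ P, ∑ q ∈ P, (if p = q then W * (1 / (p : ℝ)) else 0) = W * L := by
      rw [hL, mul_sum]
      refine sum_congr rfl fun p hp => ?_
      rw [sum_ite_eq, if_pos hp]
    rw [e4, e5]
    simp only [sum_const, nsmul_eq_mul, mul_one]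
    ring
  have hexp : ∑ m ∈ Ioc u v, ((#(P.filter fun p => p ∣ m) : ℝ) - L) ^ 2 =
      ∑ m ∈ Ioc u v, (#(P.filter fun p => p ∣ m) : ℝ) ^ 2 -
        2 * L * ∑ m ∈ Ioc u v, (#(P.filter fun p => p ∣ m) : ℝ) + W * L ^ 2 := by
    have e1 : ∀ m, ((#(P.filter fun p => p ∣ m) : ℝ) - L) ^ 2 =
        (#(P.filter fun p => p ∣ m) : ℝ) ^ 2 - 2 * L * (#(P.filter fun p => p ∣ m) : ℝ) +
          L ^ 2 := fun m => by ring
    simp_rw [e1]
    rw [sum_add_distrib, sum_sub_distrib, ← mul_sum, sum_const, Nat.card_Ioc, nsmul_eq_mul,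
      Nat.cast_sub huv, hW]
  rw [hexp]
  have h1 : 2 * L * (W * L - #P) ≤ 2 * L * ∑ m ∈ Ioc u v, (#(P.filter fun p => p ∣ m) : ℝ) :=
    mul_le_mul_of_nonneg_left hsum1 (by positivity)
  have h2 : 2 * L * (#P : ℝ) ≤ 2 * L * W :=
    mul_le_mul_of_nonneg_left (hnn.trans hn2) (by positivity)
  nlinarith [mul_nonneg hW0 hL0]

/-- The Möbius function at multiples of `p`. -/
theorem dilp (ψ : ℕ → ℂ) (hψ : ∀ m, ‖ψ m‖ ≤ 1) (p n H w : ℕ) (hp : p.Prime) (hw : 1 ≤ w) :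
    ‖∑ m ∈ (Ioc n (n + H)).filter (fun m => p ∣ m), muC m * ψ m‖ ≤
      ∑ k ∈ Ioc (n / p) ((n + H) / p), Wg w k (fun k => ψ (p * k)) + 2 * w +
        (H / (p : ℝ) ^ 2 + 1) := by
  classical
  rw [mult _ p n H hp.pos]
  have h1 : ∑ k ∈ Ioc (n / p) ((n + H) / p), muC (p * k) * ψ (p * k) =
      -∑ k ∈ Ioc (n / p) ((n + H) / p), muC k * ψ (p * k) +
      ∑ k ∈ (Ioc (n / p) ((n + H) / p)).filter (fun k => p ∣ k), muC k * ψ (p * k) := by
    rw [sum_filter, ← sum_neg_distrib, ← sum_add_distrib]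
    refine sum_congr rfl fun k _ => ?_
    by_cases h : p ∣ k
    · rw [if_pos h, muC_dvd p k hp h]
      ring
    · rw [if_neg h, muC_mul p hp k h, muC_prime p hp]
      ring
  rw [h1]
  refine (norm_add_le _ _).trans (add_le_add ?_ ?_)
  · rw [norm_neg]
    refine (avg _ (fun k => ?_) _ _ w (Nat.div_le_div_right (Nat.le_add_right _ _)) hw).trans
      (le_of_eq rfl)
    rw [norm_mul]
    exact mul_le_one₀ (norm_muC _) (norm_nonneg _) (hψ _)
  · refine (norm_sum_le _ _).trans (le_trans ?_ (cnt p n H hp.pos))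
    rw [← nsmul_one, ← sum_const]
    refine sum_le_sum fun k _ => ?_
    rw [norm_mul]
    exact mul_le_one₀ (norm_muC _) (norm_nonneg _) (hψ _)

end KATx

open KATx

/-- **Row KAT.** -/
theorem kat (P : Finset ℕ) (M N H w : ℕ) (ψ : ℕ → ℕ → ℂ) (hψ : ∀ n m, ‖ψ n m‖ ≤ 1)
    (hP : ∀ p ∈ P, p.Prime ∧ p ≤ M) (hw : 1 ≤ w) (hMw : 2 * M * w ≤ H) (hHN : H ≤ N)
    (hMN : M ^ 2 ≤ N) :
    (∑ p ∈ P, (1 : ℝ) / p) * ∑ n ∈ Ico N (2 * N), Wg H n (ψ n) ≤
      4 * N * Real.sqrt (∑ p ∈ P, (1 : ℝ) / p + 1) + 4 * N +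
      ∑ p ∈ P, (1 / (H : ℝ)) * ∑ n ∈ Ico N (2 * N), ∑ k ∈ Ioc (n / p) ((n + H) / p),
        Wg w k (fun k => ψ n (p * k)) := by
  classical
  obtain ⟨L, hL⟩ : ∃ L : ℝ, L = ∑ p ∈ P, (1 : ℝ) / p := ⟨_, rfl⟩
  have hL0 : 0 ≤ L := by rw [hL]; exact sum_nonneg fun p _ => by positivity
  obtain ⟨ω, hω⟩ : ∃ ω : ℕ → ℝ, ω = fun m => (#(P.filter fun p => p ∣ m) : ℝ) := ⟨_, rfl⟩
  have hcardP : (#P : ℝ) ≤ M := by
    have : P ⊆ Icc 1 M := fun p hp => mem_Icc.2 ⟨(hP p hp).1.pos, (hP p hp).2⟩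
    have h := card_le_card this
    rw [Nat.card_Icc, Nat.add_sub_cancel] at h
    exact_mod_cast h
  by_cases hP0 : P = ∅
  · subst hP0
    simp
  have hM1 : 1 ≤ M := by
    obtain ⟨p, hp⟩ := nonempty_iff_ne_empty.2 hP0
    exact Nat.one_le_iff_ne_zero.2 (Nat.pos_iff_ne_zero.1
      (lt_of_lt_of_le (hP p hp).1.pos (hP p hp).2))
  have hH : 1 ≤ H := by nlinarith
  have hH0 : (0 : ℝ) < H := by exact_mod_cast hH
  have hN0 : (0 : ℝ) ≤ N := Nat.cast_nonneg _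
  rw [← hL]
  -- one window
  have h1 : ∀ n : ℕ, L * (Wg H n (ψ n) * H) ≤ ∑ h ∈ Icc 1 H, |ω (n + h) - L| +
      ∑ p ∈ P, (∑ k ∈ Ioc (n / p) ((n + H) / p), Wg w k (fun k => ψ n (p * k)) + 2 * w +
        (H / (p : ℝ) ^ 2 + 1)) := by
    intro n
    have e1 : Wg H n (ψ n) * H = ‖∑ h ∈ Icc 1 H, muC (n + h) * ψ n (n + h)‖ := by
      unfold Wg
      rw [div_mul_cancel₀ _ hH0.ne']
    have e2 : (L : ℂ) * ∑ h ∈ Icc 1 H, muC (n + h) * ψ n (n + h) =
        ∑ h ∈ Icc 1 H, ((L - ω (n + h) : ℝ) : ℂ) * (muC (n + h) * ψ n (n + h)) +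
        ∑ h ∈ Icc 1 H, ((ω (n + h) : ℝ) : ℂ) * (muC (n + h) * ψ n (n + h)) := by
      rw [mul_sum, ← sum_add_distrib]
      refine sum_congr rfl fun h _ => ?_
      push_cast
      ring
    have e3 : ∑ h ∈ Icc 1 H, ((ω (n + h) : ℝ) : ℂ) * (muC (n + h) * ψ n (n + h)) =
        ∑ p ∈ P, ∑ m ∈ (Ioc n (n + H)).filter (fun m => p ∣ m), muC m * ψ n m := by
      have e4 : ∑ h ∈ Icc 1 H, ((ω (n + h) : ℝ) : ℂ) * (muC (n + h) * ψ n (n + h)) =
          ∑ m ∈ Ioc n (n + H), ((ω m : ℝ) : ℂ) * (muC m * ψ n m) := by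
        refine sum_bij (fun h _ => n + h) ?_ ?_ ?_ ?_
        · intro h hh
          rw [mem_Icc] at hh
          rw [mem_Ioc]
          omega
        · intro h _ h' _ hh
          omega
        · intro m hm
          rw [mem_Ioc] at hm
          exact ⟨m - n, by rw [mem_Icc]; omega, by omega⟩
        · intro h _
          rfl
      rw [e4]
      simp_rw [sum_filter]
      rw [sum_comm]
      refine sum_congr rfl fun m _ => ?_
      rw [hω]
      simp only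
      rw [card_filter]
      push_cast
      rw [sum_mul]
      refine sum_congr rfl fun p _ => ?_
      by_cases h : p ∣ m
      · simp [h]
      · simp [h]
    calc L * (Wg H n (ψ n) * H) = ‖(L : ℂ) * ∑ h ∈ Icc 1 H, muC (n + h) * ψ n (n + h)‖ := by
          rw [e1, norm_mul, Complex.norm_real, Real.norm_eq_abs, abs_of_nonneg hL0]
      _ ≤ ‖∑ h ∈ Icc 1 H, ((L - ω (n + h) : ℝ) : ℂ) * (muC (n + h) * ψ n (n + h))‖ +
          ‖∑ p ∈ P, ∑ m ∈ (Ioc n (n + H)).filter (fun m => p ∣ m), muC m * ψ n m‖ := by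
        rw [e2, e3]
        exact norm_add_le _ _
      _ ≤ _ := by
        refine add_le_add ((norm_sum_le _ _).trans (sum_le_sum fun h _ => ?_))
          ((norm_sum_le _ _).trans (sum_le_sum fun p hp => ?_))
        · rw [norm_mul, Complex.norm_real, Real.norm_eq_abs, abs_sub_comm, norm_mul]
          exact mul_le_of_le_one_right (abs_nonneg _)
            (mul_le_one₀ (norm_muC _) (norm_nonneg _) (hψ _ _))
        · exact dilp (ψ n) (hψ n) p n H w (hP p hp).1 hw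
  -- the second moment
  have h2 : ∑ m ∈ Ioc N (3 * N), |ω m - L| ≤ 4 * N * Real.sqrt (L + 1) := by
    have e1 : (∑ m ∈ Ioc N (3 * N), |ω m - L|) ^ 2 ≤
        #(Ioc N (3 * N)) * ∑ m ∈ Ioc N (3 * N), |ω m - L| ^ 2 := sq_sum_le_card_mul_sum_sq
    have e2 := tkw P M N (3 * N) hP (by omega) (by omega)
    have e3 : ∑ m ∈ Ioc N (3 * N), |ω m - L| ^ 2 ≤ 3 * (((3 * N : ℕ) : ℝ) - N) * (L + 1) := by
      refine le_trans (le_of_eq ?_) (e2.trans (le_of_eq ?_))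
      · refine sum_congr rfl fun m _ => ?_
        rw [sq_abs, hω, hL]
      · rw [hL]
    have e4 : (#(Ioc N (3 * N)) : ℝ) = 2 * N := by
      rw [Nat.card_Ioc, show 3 * N - N = 2 * N by omega]
      push_cast
      ring
    rw [e4] at e1
    push_cast at e3
    have e5 : (∑ m ∈ Ioc N (3 * N), |ω m - L|) ^ 2 ≤ (4 * N * Real.sqrt (L + 1)) ^ 2 := by
      rw [mul_pow, Real.sq_sqrt (by linarith)]
      have e6 : 2 * (N : ℝ) * ∑ m ∈ Ioc N (3 * N), |ω m - L| ^ 2 ≤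
          2 * N * (3 * (3 * N - N) * (L + 1)) := mul_le_mul_of_nonneg_left e3 (by positivity)
      nlinarith [mul_nonneg (mul_nonneg hN0 hN0) (show (0 : ℝ) ≤ L + 1 by linarith)]
    exact le_of_sq_le_sq e5 (by positivity)
  have h3 : ∑ n ∈ Ico N (2 * N), ∑ h ∈ Icc 1 H, |ω (n + h) - L| ≤
      H * (4 * N * Real.sqrt (L + 1)) := by
    rw [sum_comm]
    have e1 : ∀ h ∈ Icc 1 H, ∑ n ∈ Ico N (2 * N), |ω (n + h) - L| ≤
        4 * N * Real.sqrt (L + 1) := by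
      intro h hh
      rw [mem_Icc] at hh
      refine le_trans ?_ h2
      rw [← sum_image (s := Ico N (2 * N)) (f := fun m => |ω m - L|) (g := fun n => n + h)
        (fun x _ y _ hxy => by simpa using hxy)]
      refine sum_le_sum_of_subset_of_nonneg ?_ fun m _ _ => abs_nonneg _
      intro m hm
      rw [mem_image] at hm
      obtain ⟨n, hn, rfl⟩ := hm
      rw [mem_Ico] at hn
      rw [mem_Ioc]
      omega
    refine (sum_le_sum e1).trans (le_of_eq ?_)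
    rw [sum_const, Nat.card_Icc, nsmul_eq_mul]
    simp
  -- the sum of 1 / p ^ 2
  have h4 : ∑ p ∈ P, (1 : ℝ) / (p : ℝ) ^ 2 ≤ 1 := by
    have e1 : P ⊆ Ioc 1 M := fun p hp => mem_Ioc.2 ⟨(hP p hp).1.one_lt, (hP p hp).2⟩
    have e2 : ∑ p ∈ P, (1 : ℝ) / (p : ℝ) ^ 2 ≤ ∑ p ∈ Ioc 1 M, ((p : ℝ) ^ 2)⁻¹ := by
      refine le_trans (le_of_eq (sum_congr rfl fun p _ => one_div _))
        (sum_le_sum_of_subset_of_nonneg e1 fun p _ _ => by positivity)
    have e3 := sum_Ioc_inv_sq_le_sub (α := ℝ) (k := 1) (n := M) one_ne_zero hM1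
    have e4 : (0 : ℝ) ≤ (M : ℝ)⁻¹ := by positivity
    simp only [Nat.cast_one, inv_one] at e3
    linarith
  -- assembly
  have h5 : L * ∑ n ∈ Ico N (2 * N), Wg H n (ψ n) * H ≤
      H * (4 * N * Real.sqrt (L + 1)) + (∑ p ∈ P, ∑ n ∈ Ico N (2 * N),
        ∑ k ∈ Ioc (n / p) ((n + H) / p), Wg w k (fun k => ψ n (p * k)) +
        (N : ℝ) * (#P * (2 * w + 1) + H * ∑ p ∈ P, (1 : ℝ) / (p : ℝ) ^ 2)) := by
    rw [mul_sum]
    refine (sum_le_sum fun n _ => h1 n).trans ?_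
    rw [sum_add_distrib]
    refine add_le_add h3 (le_of_eq ?_)
    rw [sum_comm]
    have e1 : ∀ p ∈ P, ∑ n ∈ Ico N (2 * N), (∑ k ∈ Ioc (n / p) ((n + H) / p),
        Wg w k (fun k => ψ n (p * k)) + 2 * w + (H / (p : ℝ) ^ 2 + 1)) =
        ∑ n ∈ Ico N (2 * N), ∑ k ∈ Ioc (n / p) ((n + H) / p), Wg w k (fun k => ψ n (p * k)) +
        ((N : ℝ) * (2 * w + 1) + N * (H * (1 / (p : ℝ) ^ 2))) := by
      intro p _
      have e2 : ∀ n : ℕ, (∑ k ∈ Ioc (n / p) ((n + H) / p), Wg w k (fun k => ψ n (p * k)) +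
          2 * (w : ℝ) + (H / (p : ℝ) ^ 2 + 1)) =
          ∑ k ∈ Ioc (n / p) ((n + H) / p), Wg w k (fun k => ψ n (p * k)) +
          ((2 * w + 1) + H * (1 / (p : ℝ) ^ 2)) := fun n => by ring
      simp_rw [e2]
      rw [sum_add_distrib, sum_const, Nat.card_Ico, nsmul_eq_mul,
        show 2 * N - N = N by omega]
      ring
    rw [sum_congr rfl e1, sum_add_distrib, sum_add_distrib, sum_const, nsmul_eq_mul, ← mul_sum,
      ← mul_sum]
    ring
  have h6 : (#P : ℝ) * (2 * w + 1) ≤ 2 * H := by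
    have e1 : (1 : ℝ) ≤ w := by exact_mod_cast hw
    have e2 : (2 : ℝ) * M * w ≤ H := by exact_mod_cast hMw
    have e3 : (#P : ℝ) * (2 * w + 1) ≤ M * (2 * w + 1) :=
      mul_le_mul_of_nonneg_right hcardP (by positivity)
    have e4 : (0 : ℝ) ≤ M := Nat.cast_nonneg _
    nlinarith
  have h7 : (N : ℝ) * (#P * (2 * w + 1) + H * ∑ p ∈ P, (1 : ℝ) / (p : ℝ) ^ 2) ≤ N * (4 * H) := by
    refine mul_le_mul_of_nonneg_left ?_ hN0
    have : (H : ℝ) * ∑ p ∈ P, (1 : ℝ) / (p : ℝ) ^ 2 ≤ H * 1 :=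
      mul_le_mul_of_nonneg_left h4 hH0.le
    linarith
  have h8 : L * ∑ n ∈ Ico N (2 * N), Wg H n (ψ n) * H =
      (L * ∑ n ∈ Ico N (2 * N), Wg H n (ψ n)) * H := by
    rw [← sum_mul]
    ring
  rw [h8] at h5
  have h9 : (∑ p ∈ P, (1 / (H : ℝ)) * ∑ n ∈ Ico N (2 * N), ∑ k ∈ Ioc (n / p) ((n + H) / p),
      Wg w k (fun k => ψ n (p * k))) * H = ∑ p ∈ P, ∑ n ∈ Ico N (2 * N),
        ∑ k ∈ Ioc (n / p) ((n + H) / p), Wg w k (fun k => ψ n (p * k)) := by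
    rw [sum_mul]
    refine sum_congr rfl fun p _ => ?_
    field_simp
  have h10 : (L * ∑ n ∈ Ico N (2 * N), Wg H n (ψ n)) * H ≤
      (4 * N * Real.sqrt (L + 1) + 4 * N + ∑ p ∈ P, (1 / (H : ℝ)) * ∑ n ∈ Ico N (2 * N),
        ∑ k ∈ Ioc (n / p) ((n + H) / p), Wg w k (fun k => ψ n (p * k))) * H := by
    rw [add_mul, add_mul, h9]
    linarith
  exact le_of_mul_le_mul_right h10 hH0

end

end Pool.Agent.NG
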