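import Mathlib
import Pool.Agent.Lib.NG.LJC
import Pool.Agent.Lib.NG.C

/-!
# NVG2 (MP_663568_nt), row NRP: from a progression to all the integers  (helper55)
-/

set_option autoImplicit false
open Finset Polynomial

namespace Pool.Agent.NG

noncomputable section

namespace Lj

/-- The array of the coefficients of a polynomial in one variable. -/
theorem poly_arr {d : ℕ} (R : ℝ[X]) (hR : R.natDegree ≤ d) (x : ℝ) :
    R.eval x = mev (fun a : Fin 1 → Fin (d + 1) => R.coeff (a 0 : ℕ)) (fun _ => x) := by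
  rw [mev_one, arrP_eval, Polynomial.eval_eq_sum_range' (n := d + 1) (by omega)]
  exact (Fin.sum_univ_eq_sum_range (fun j => R.coeff j * x ^ j) (d + 1)).symm

theorem poly_near {d : ℕ} {P : ℤ → ℝ} (R : ℝ[X]) (hR : R.natDegree ≤ d)
    (hP : ∀ m : ℤ, P m = R.eval (m : ℝ)) (m₀ : ℤ) :
    ∃ c : (Fin 1 → Fin (d + 1)) → ℝ, ∀ x : Fin 1 → ℤ, P (m₀ + x 0) = mev c fun i => (x i : ℝ) := by
  refine ⟨fun a => (R.comp (X + C (m₀ : ℝ))).coeff (a 0 : ℕ), ?_⟩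
  intro x
  have h1 : (R.comp (X + C (m₀ : ℝ))).natDegree ≤ d := by
    rw [natDegree_comp, natDegree_X_add_C, mul_one]
    exact hR
  have h2 : (fun i => (x i : ℝ)) = fun _ : Fin 1 => (x 0 : ℝ) := by
    funext i
    rw [Subsingleton.elim i 0]
  rw [h2, ← poly_arr _ h1, hP, eval_comp, eval_add, eval_X, eval_C]
  congr 1
  push_cast
  ring

end Lj

open Lj in
/-- Row NRP (with a nonempty interval). -/
theorem nrp' : ∀ (d q Q₁ : ℕ) (E : ℝ), 1 ≤ q → 1 ≤ Q₁ → 0 < E →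
    ∃ (Q' : ℕ) (E' : ℝ), 1 ≤ Q' ∧ 0 < E' ∧ Q₁ ∣ Q' ∧ ∀ (m₀ L L' : ℕ) (b : ℤ) (P : ℤ → ℝ),
    (∃ R : ℝ[X], R.natDegree ≤ d ∧ ∀ m : ℤ, P m = R.eval (m : ℝ)) → (m₀ : ℤ) ≤ b →
    b < m₀ + q → 1 ≤ L → 1 ≤ L' → L ≤ E * L' → Near 1 d E Q₁ ![L'] (fun u => P (b + q * u 0)) →
    Nr1 d E' Q' m₀ L P := by
  intro d q Q₁ E hq hQ₁ hE
  set E₁ : ℝ := 2 ^ d * (((d : ℝ) + 1) * 2 ^ d) * E with hE₁
  have hE₁0 : 0 < E₁ := by positivity
  set K : ℝ := max E 1 with hK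
  have hK1 : 1 ≤ K := le_max_right _ _
  refine ⟨Q₁ * q ^ d, (K ^ d) ^ 1 * E₁, Nat.mul_pos hQ₁ (pow_pos hq d), by positivity,
    Dvd.intro _ rfl, ?_⟩
  intro m₀ L L' b P hR hb0 hb1 hL hL' hLE hn
  obtain ⟨R, hR1, hR2⟩ := hR
  obtain ⟨a₀, rfl⟩ := Int.eq_ofNat_of_zero_le ((Int.natCast_nonneg m₀).trans hb0)
  have h1 := near_unprog (d := d) (E := E) (Q := q) (Q₃ := Q₁) (m₀ := m₀) (a₀ := a₀) (L := q * L')
    (T := L') (P := P) hE.le hq hQ₁ (by exact_mod_cast hb0) (by exact_mod_cast hb1) hL'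
    (Nat.mul_pos hq hL') (by omega) (poly_near R hR1 hR2 m₀) hn
  have h2 := near_expand (K := K) (L' := ![L]) h1 hE₁0.le hK1 (by
    intro i
    fin_cases i
    show (L : ℝ) ≤ K * ((q * L' : ℕ) : ℝ)
    have h3 : E * (L' : ℝ) ≤ K * L' := mul_le_mul_of_nonneg_right (le_max_left _ _)
      (Nat.cast_nonneg _)
    have h4 : (1 : ℝ) ≤ q := by exact_mod_cast hq
    have h5 : K * (L' : ℝ) ≤ K * ((q : ℝ) * L') := by
      apply mul_le_mul_of_nonneg_left _ (by linarith)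
      nlinarith [(Nat.cast_nonneg L' : (0 : ℝ) ≤ L')]
    push_cast
    linarith) (by
    intro i
    fin_cases i
    exact hL)
  exact h2

end

end Pool.Agent.NG
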