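import Mathlib
import Pool.Agent.Lib.NG.C
import Pool.Agent.Lib.NG.NVGA
import Pool.Agent.Lib.NG.LBM
import Pool.Agent.Lib.NG.LBN
import Pool.Agent.Lib.NG.SIG
import Pool.Agent.Lib.NG.SIGZ
import Pool.Agent.Lib.NG.PWB
import Pool.Agent.Lib.NG.PLM

/-!
# NVG2 (MP_663568_nt), row NVGP: from the statement NS for all the groups to the theorem for
polynomial sequences `m ↦ ∏_j b_j ^ C(m, i_j)` with `b_j ∈ G`, which change slowly with `n`.
(helper11, after NVGA of helper24)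
-/

set_option autoImplicit false
open Finset Topology

namespace Pool.Agent.NG

open Amb Pool.Agent.Lib.MP_663568_nt Pool.Agent.Lib.MP_663568_nt.Katai Pool.Agent.NV

noncomputable section

section
variable {U : Type} [Amb U]

theorem filt_anti {Gf : ℕ → Subgroup U} {d : ℕ} (hF : Filt Gf d) {i j : ℕ} (h : i ≤ j) :
    Gf j ≤ Gf i := by
  induction h with
  | refl => exact le_refl _
  | step _ ih => exact (hF.anti _).trans ih

/-- The filtration `G'_i = G_(⌈i / t⌉)`. -/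
def dilF (t : ℕ) (Gf : ℕ → Subgroup U) (i : ℕ) : Subgroup U := Gf ((i + t - 1) / t)

theorem dilF_zero {t : ℕ} (ht : 1 ≤ t) (Gf : ℕ → Subgroup U) : dilF t Gf 0 = Gf 0 := by
  unfold dilF
  rw [Nat.div_eq_of_lt (by omega)]

theorem dilF_last {t : ℕ} (ht : 1 ≤ t) (Gf : ℕ → Subgroup U) (d : ℕ) :
    dilF t Gf (t * d + 1) = Gf (d + 1) := by
  unfold dilF
  congr 1
  have e : t * d + 1 + t - 1 = t * (d + 1) := by rw [Nat.mul_add]; omega
  rw [e, Nat.mul_div_cancel_left _ (by omega)]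

theorem dilF_filt {t : ℕ} (ht : 1 ≤ t) {Gf : ℕ → Subgroup U} {d : ℕ} (hF : Filt Gf d) :
    Filt (dilF t Gf) (t * d) where
  rat i := hF.rat _
  anti i := filt_anti hF (Nat.div_le_div_right (by omega))
  top := by
    unfold dilF
    have e1 : (1 + t - 1) / t = 1 := by
      rw [Nat.add_sub_cancel_left]
      exact Nat.div_self (by omega)
    have e0 : (0 + t - 1) / t = 0 := Nat.div_eq_of_lt (by omega)
    rw [e1, e0]
    exact hF.top
  com i j := by
    intro x hx y hy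
    have h := hF.com _ _ x hx y hy
    refine filt_anti hF ?_ h
    rw [Nat.div_le_iff_le_mul_add_pred (by omega)]
    have h1 : i + t - 1 < t * ((i + t - 1) / t + 1) := by
      rw [mul_comm]
      exact Nat.lt_mul_of_div_lt (Nat.lt_succ_self _) (by omega)
    have h2 : j + t - 1 < t * ((j + t - 1) / t + 1) := by
      rw [mul_comm]
      exact Nat.lt_mul_of_div_lt (Nat.lt_succ_self _) (by omega)
    rw [Nat.mul_add] at h1 h2 ⊢
    omega
  stab i hi := by
    rw [dilF_last ht]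
    unfold dilF
    refine hF.stab _ ?_
    rw [Nat.lt_iff_add_one_le, Nat.le_div_iff_mul_le (by omega)]
    have : (d + 1) * t = t * d + t := by ring
    omega

theorem filt_succ {Gf : ℕ → Subgroup U} {d : ℕ} (hF : Filt Gf d) : Filt Gf (d + 1) where
  rat := hF.rat
  anti := hF.anti
  top := hF.top
  com := hF.com
  stab i hi := by rw [hF.stab i (by omega), hF.stab (d + 1 + 1) (by omega)]

/-- The coefficients of the binomial polynomial. -/
def cb (k j : ℕ) : ℝ := (descPochhammer ℝ k).coeff j / (k.factorial : ℝ)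

theorem pol_cb (k m : ℕ) : pol k (cb k) (m : ℤ) = (Nat.choose m k : ℝ) := by
  have h1 : (descPochhammer ℝ k).eval (m : ℝ) = (m.descFactorial k : ℝ) :=
    descPochhammer_eval_eq_descFactorial ℝ m k
  rw [Polynomial.eval_eq_sum_range' (n := k + 1)
    (by rw [descPochhammer_natDegree]; exact Nat.lt_succ_self k),
    Nat.descFactorial_eq_factorial_mul_choose] at h1
  have hk : (k.factorial : ℝ) ≠ 0 := by exact_mod_cast k.factorial_ne_zero
  unfold pol cb
  rw [Int.cast_natCast]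
  have h2 : ∑ j ∈ range (k + 1), (descPochhammer ℝ k).coeff j / (k.factorial : ℝ) * (m : ℝ) ^ j =
      (∑ j ∈ range (k + 1), (descPochhammer ℝ k).coeff j * (m : ℝ) ^ j) / (k.factorial : ℝ) := by
    rw [sum_div]
    exact sum_congr rfl fun j _ => by ring
  rw [h2, h1]
  push_cast
  field_simp

theorem ps_list {Gf : ℕ → Subgroup U} {d : ℕ} (hF : Filt Gf d) (J : ℕ) (f : Fin J → ℤ → U)
    (h : ∀ j, PS Gf 0 (f j)) : PS Gf 0 fun m => (List.ofFn fun j => f j m).prod := by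
  obtain ⟨h1, -, -, h4, -, -, -⟩ := lbm U ℤ Gf d hF
  induction J with
  | zero =>
    have e : (fun m : ℤ => (List.ofFn fun j : Fin 0 => f j m).prod) = fun _ => 1 := by
      funext m
      simp
    rw [e]
    exact h4 0 1 (one_mem _)
  | succ J ih =>
    have e : (fun m : ℤ => (List.ofFn fun j : Fin (J + 1) => f j m).prod) =
        fun m => f 0 m * (List.ofFn fun j : Fin J => f j.succ m).prod := by
      funext m
      rw [List.ofFn_succ, List.prod_cons]
    rw [e]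
    exact h1 0 _ _ (h 0) (ih (fun j => f j.succ) fun j => h j.succ)

/-- The sequence `m ↦ ∏_j b_j ^ C(m, i_j)`, with real powers. -/
def wd {J : ℕ} (i : Fin J → ℕ) (b : Fin J → U) (m : ℤ) : U :=
  (List.ofFn fun j => pw (pol (i j) (cb (i j)) m) (b j)).prod

theorem wd_nat {J : ℕ} (i : Fin J → ℕ) (b : Fin J → U) (m : ℕ) :
    wd i b (m : ℤ) = (List.ofFn fun j => b j ^ Nat.choose m (i j)).prod := by
  unfold wd
  congr 2
  funext j
  rw [pol_cb, pw_nat]

theorem wd_ps {Gf : ℕ → Subgroup U} {d : ℕ} (hF : Filt Gf d) {J : ℕ} (i : Fin J → ℕ) (t : ℕ)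
    (ht : 1 ≤ t) (hi : ∀ j, i j ≤ t) (b : Fin J → U) (hb : ∀ j, b j ∈ Gf 0) :
    PS (dilF t Gf) 0 (wd i b) := by
  have hF' := dilF_filt ht (filt_succ hF)
  refine ps_list hF' J _ fun j => ?_
  refine (sigz sig lbn) U (dilF t Gf) (t * (d + 1)) (i j) (b j) (cb (i j)) hF' ?_ ?_
  · calc i j ≤ t := hi j
      _ ≤ t * (d + 1) := Nat.le_mul_of_pos_right t (by omega)
  · have h1 : dilF t Gf t ≤ dilF t Gf (i j) := filt_anti hF' (hi j)
    refine h1 ?_
    unfold dilF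
    have e1 : (t + t - 1) / t = 1 := by
      rw [Nat.div_eq_iff (by omega)]
      omega
    rw [e1, hF.top]
    exact hb j

/-- The data of a word. -/
def wdDat {Gf : ℕ → Subgroup U} {d : ℕ} (hF : Filt Gf d) {J : ℕ} (i : Fin J → ℕ) (t : ℕ)
    (ht : 1 ≤ t) (hi : ∀ j, i j ≤ t) (r : {b : Fin J → U // ∀ j, b j ∈ Gf 0}) :
    Dat (dilF t Gf) 1 :=
  ⟨wd i r.1, wd_ps hF i t ht hi r.1 r.2, Set.univ⟩

end

/-- **Row NVGP.** -/
theorem nvgp (hN : NSA) (U : Type) [Amb U] (Gf : ℕ → Subgroup U) (d : ℕ) (hF : Filt Gf d)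
    (F : U → ℂ) (hFn : Fn (Gf 0) (Gf (d + 1)) F) (J : ℕ) (i : Fin J → ℕ) (A ε : ℝ) (hA : 0 ≤ A)
    (hε : 0 < ε) : ∃ (B : ℝ) (H₀ : ℕ), 0 ≤ B ∧ ∀ H : ℕ, H₀ ≤ H → ∀ xa xb : ℝ,
    (H : ℝ) ^ B ≤ xa → xa * H ≤ xb → ∀ b : ℕ → Fin J → U, (∀ n j, b n j ∈ Gf 0) →
    SlowA b ((H : ℝ) ^ A) →
    ∑ n ∈ Ioc ⌊xa⌋₊ ⌊xb⌋₊, (1 / (n : ℝ)) *
      (‖∑ h ∈ Icc 1 H, muC (n + h) *
        F ((List.ofFn fun j => b n j ^ Nat.choose (n + h) (i j)).prod)‖ / H) ≤
      ε * (Real.log xb - Real.log xa) := by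
  classical
  set t : ℕ := (∑ j, i j) + 1 with htd
  have ht : 1 ≤ t := by omega
  have hi : ∀ j, i j ≤ t := fun j => by
    have := single_le_sum (f := i) (fun _ _ => Nat.zero_le _) (mem_univ j)
    omega
  have hF' := dilF_filt ht (filt_succ hF)
  have hFn' : Fn (dilF t Gf 0) (dilF t Gf (t * (d + 1) + 1)) F := by
    rw [dilF_zero ht, dilF_last ht, hF.stab (d + 1 + 1) (by omega)]
    exact hFn
  obtain ⟨B, H₀, hB, h⟩ := hN U (dilF t Gf) _ (dilF t Gf 0) hF' (nvga_nor hF') F hFn' 1 1 1 le_rfl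
    le_rfl (dvd_refl 1) one_pos A ε hA hε
  refine ⟨B, H₀, hB, fun H hH xa xb hxa hxb b hb hs => ?_⟩
  have h1 := h H hH xa xb hxa hxb (fun n => wdDat hF i t ht hi ⟨b n, hb n⟩) ?_ ?_
  · refine le_trans (le_of_eq ?_) h1
    refine Finset.sum_congr rfl fun n _ => ?_
    congr 1
    change _ = ‖∑ h ∈ Icc 1 H, muC (n + h) * _‖ / H
    congr 2
    refine Finset.sum_congr rfl fun k _ => ?_
    congr 1
    unfold Dat.ev
    rw [if_pos (show ((n + k : ℕ) : ZMod 1) ∈ (wdDat hF i t ht hi ⟨b n, hb n⟩).A from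
      Set.mem_univ _)]
    change _ = F (wd i (b n) ((n + k : ℕ) : ℤ))
    rw [wd_nat]
  · intro j
    refine le_trans ?_ (hs j)
    refine Nat.cast_le.mpr (Finset.card_le_card ?_)
    intro n hn
    simp only [Finset.mem_filter] at hn ⊢
    refine ⟨hn.1, fun e => hn.2 ?_⟩
    have e3 : (⟨b (n + 1), hb (n + 1)⟩ : {b : Fin J → U // ∀ j, b j ∈ Gf 0}) = ⟨b n, hb n⟩ :=
      Subtype.ext e
    exact congrArg (wdDat hF i t ht hi) e3
  · intro m _ a _
    exact plg U (dilF t Gf) _ a 1 1 1 m _ H _ hF' one_pos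
      (wdDat hF i t ht hi ⟨b m, hb m⟩).ps

end

end Pool.Agent.NG
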