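import Pool.Agent.Lib.NG.J
import Pool.Agent.Lib.NG.NrZ
import Pool.Agent.Lib.NG.UNQ

/-!
# Rows SPLJ, SPLG (MP_663568_nt, JET): common part.  (helper3)
-/

set_option autoImplicit false
open Finset

namespace Pool.Agent.NG

open Pool.Agent.Lib.MP_663568_nt Pool.Agent.Lib.MP_663568_nt.Katai
  Pool.Agent.Lib.MP_663568_nt.Nul

namespace SPLx

/-- The rational part of the coefficients. -/
noncomputable def rp (Q j : ℕ) (c : ℕ → ℝ) (i : ℕ) : ℝ :=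
  if i ≤ j then (round ((Q : ℝ) * c i) : ℝ) / Q else 0

theorem rp_rat (Q j : ℕ) (c : ℕ → ℝ) (i : ℕ) : ∃ z : ℤ, rp Q j c i = z / Q := by
  unfold rp
  split_ifs with h
  · exact ⟨_, rfl⟩
  · exact ⟨0, by simp⟩

theorem rp_near {Q j : ℕ} (hQ : 1 ≤ Q) (c : ℕ → ℝ) {i : ℕ} (hi : i ≤ j) :
    |c i - rp Q j c i| = nd ((Q : ℝ) * c i) / Q := by
  have hQ0 : (0 : ℝ) < Q := by exact_mod_cast hQ
  unfold rp nd
  rw [if_pos hi, eq_div_iff hQ0.ne']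
  calc |c i - (round ((Q : ℝ) * c i) : ℝ) / Q| * Q =
        |c i - (round ((Q : ℝ) * c i) : ℝ) / Q| * |(Q : ℝ)| := by rw [abs_of_pos hQ0]
    _ = |(c i - (round ((Q : ℝ) * c i) : ℝ) / Q) * Q| := (abs_mul _ _).symm
    _ = _ := by
        congr 1
        field_simp

/-- The constant. -/
noncomputable def Ec (d : ℕ) (E : ℝ) : ℝ := (d + 1) * (1 + (d + 1) * (2 ^ d * E))

theorem Ec_nonneg (d : ℕ) {E : ℝ} (hE : 0 ≤ E) : 0 ≤ Ec d E := by
  unfold Ec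
  positivity

theorem sum_le_Ec {d j : ℕ} {E : ℝ} (hE : 0 ≤ E) (hj : j ≤ d) {f : ℕ → ℝ} {K : ℝ} (hK : 0 ≤ K)
    (hf : ∀ i, i ≤ j → f i ≤ (1 + (d + 1) * (2 ^ d * E)) * K) :
    ∑ i ∈ range (j + 1), f i ≤ Ec d E * K := by
  have h1 : ∑ i ∈ range (j + 1), f i ≤
      ∑ _i ∈ range (j + 1), (1 + (d + 1) * (2 ^ d * E)) * K :=
    Finset.sum_le_sum fun i hi => hf i (by have := mem_range.1 hi; omega)
  rw [Finset.sum_const, card_range, nsmul_eq_mul] at h1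
  refine h1.trans ?_
  have h2 : ((j + 1 : ℕ) : ℝ) ≤ d + 1 := by
    push_cast
    have : (j : ℝ) ≤ d := by exact_mod_cast hj
    linarith
  unfold Ec
  calc ((j + 1 : ℕ) : ℝ) * ((1 + (d + 1) * (2 ^ d * E)) * K) ≤
        (d + 1) * ((1 + (d + 1) * (2 ^ d * E)) * K) :=
        mul_le_mul_of_nonneg_right h2 (by positivity)
    _ = _ := by ring

theorem abs_pol_le {d j H : ℕ} {E : ℝ} {S : ℕ → ℝ} (hE : 0 ≤ E) (hH : 1 ≤ H) (hj : j ≤ d)
    (h0 : |S 0| ≤ 1) (hS : ∀ i, 1 ≤ i → i ≤ j → |S i| ≤ E / (H : ℝ) ^ i) {x : ℤ}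
    (hx : |(x : ℝ)| ≤ 2 * H) : |pol j S x| ≤ Ec d E := by
  have hH0 : (0 : ℝ) < H := by exact_mod_cast hH
  unfold pol
  refine (Finset.abs_sum_le_sum_abs _ _).trans ?_
  rw [← mul_one (Ec d E)]
  apply sum_le_Ec hE hj zero_le_one
  intro i hi
  rw [mul_one, abs_mul, abs_pow]
  have h2d : (1 : ℝ) ≤ 2 ^ d := one_le_pow₀ (by norm_num)
  rcases Nat.eq_zero_or_pos i with rfl | hi0
  · rw [pow_zero, mul_one]
    have : 0 ≤ ((d : ℝ) + 1) * (2 ^ d * E) := by positivity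
    linarith
  · have h1 : |S i| * |(x : ℝ)| ^ i ≤ E / (H : ℝ) ^ i * (2 * H) ^ i := by
      apply mul_le_mul (hS i hi0 hi) (pow_le_pow_left₀ (abs_nonneg _) hx i) (by positivity)
        (by positivity)
    have h2 : E / (H : ℝ) ^ i * (2 * H) ^ i = 2 ^ i * E := by
      rw [mul_pow]
      field_simp
    have h3 : (2 : ℝ) ^ i ≤ 2 ^ d := pow_le_pow_right₀ (by norm_num) (hi.trans hj)
    have h4 : (2 : ℝ) ^ i * E ≤ 2 ^ d * E := mul_le_mul_of_nonneg_right h3 hE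
    have h5 : 2 ^ d * E ≤ ((d : ℝ) + 1) * (2 ^ d * E) := by
      have : 0 ≤ (d : ℝ) * (2 ^ d * E) := by positivity
      linarith
    rw [h2] at h1
    linarith

theorem abs_pol_sub_le {d j H : ℕ} {E : ℝ} {S : ℕ → ℝ} (hE : 0 ≤ E) (hH : 1 ≤ H) (hj : j ≤ d)
    (hS : ∀ i, 1 ≤ i → i ≤ j → |S i| ≤ E / (H : ℝ) ^ i) {x x' : ℤ}
    (hx : |(x : ℝ)| ≤ 2 * H) (hx' : |(x' : ℝ)| ≤ 2 * H) :
    |pol j S x - pol j S x'| ≤ Ec d E * (|(x : ℝ) - x'| / H) := by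
  have hH0 : (0 : ℝ) < H := by exact_mod_cast hH
  unfold pol
  rw [← Finset.sum_sub_distrib]
  refine (Finset.abs_sum_le_sum_abs _ _).trans ?_
  apply sum_le_Ec hE hj (by positivity)
  intro i hi
  rw [← mul_sub, abs_mul]
  rcases Nat.eq_zero_or_pos i with rfl | hi0
  · rw [pow_zero, pow_zero, sub_self, abs_zero, mul_zero]
    positivity
  · have h1 := abs_pow_sub_pow_le (x : ℝ) (x' : ℝ) i
    have h2 : max |(x : ℝ)| |(x' : ℝ)| ^ (i - 1) ≤ (2 * H : ℝ) ^ (i - 1) :=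
      pow_le_pow_left₀ (le_max_of_le_left (abs_nonneg _)) (max_le hx hx') _
    have h3 : |(x : ℝ) ^ i - (x' : ℝ) ^ i| ≤ |(x : ℝ) - x'| * i * (2 * H : ℝ) ^ (i - 1) :=
      h1.trans (mul_le_mul_of_nonneg_left h2 (by positivity))
    have h4 : |S i| * |(x : ℝ) ^ i - (x' : ℝ) ^ i| ≤
        E / (H : ℝ) ^ i * (|(x : ℝ) - x'| * i * (2 * H : ℝ) ^ (i - 1)) :=
      mul_le_mul (hS i hi0 hi) h3 (abs_nonneg _) (by positivity)
    refine h4.trans ?_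
    obtain ⟨k, rfl⟩ : ∃ k, i = k + 1 := ⟨i - 1, by omega⟩
    have h5 : E / (H : ℝ) ^ (k + 1) * (|(x : ℝ) - x'| * ((k + 1 : ℕ) : ℝ) *
        (2 * H : ℝ) ^ (k + 1 - 1)) = (((k + 1 : ℕ) : ℝ) * (2 ^ k * E)) * (|(x : ℝ) - x'| / H) := by
      rw [Nat.add_sub_cancel, mul_pow, pow_succ]
      field_simp
    rw [h5]
    apply mul_le_mul_of_nonneg_right _ (by positivity)
    have h6 : (2 : ℝ) ^ k ≤ 2 ^ d := pow_le_pow_right₀ (by norm_num) (by omega)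
    have h7 : (((k + 1 : ℕ) : ℝ)) ≤ d + 1 := by
      have : ((k + 1 : ℕ) : ℝ) ≤ d := by exact_mod_cast hi.trans hj
      linarith
    have h8 : (((k + 1 : ℕ) : ℝ) * (2 ^ k * E)) ≤ (d + 1) * (2 ^ d * E) := by
      apply mul_le_mul h7 (mul_le_mul_of_nonneg_right h6 hE) (by positivity) (by positivity)
    linarith

/-- A rational polynomial on integers. -/
theorem pol_rat {Q j : ℕ} {T : ℕ → ℝ} {z : ℕ → ℤ} (hz : ∀ i, T i = z i / Q) (x : ℤ) :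
    pol j T x = ((∑ i ∈ range (j + 1), z i * x ^ i : ℤ) : ℝ) / Q := by
  unfold pol
  push_cast
  rw [Finset.sum_div]
  exact Finset.sum_congr rfl fun i _ => by rw [hz]; ring

theorem st_of {Q H j d n : ℕ} {E : ℝ} {S T : ℕ → ℝ} (hE : 0 ≤ E) (hQ : 1 ≤ Q) (hH : 1 ≤ H)
    (hj : j ≤ d) (hn : n ≤ H) (h0 : |S 0| ≤ 1)
    (hS : ∀ i, 1 ≤ i → i ≤ j → |S i| ≤ E / (H : ℝ) ^ i) (hT : ∀ i, ∃ z : ℤ, T i = z / Q) :
    ST (Ec d E) Q H (fun y => pol j S (y - n)) fun y => pol j T (y - n) := by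
  have hQ0 : (0 : ℝ) < Q := by exact_mod_cast hQ
  choose z hz using hT
  have hb : ∀ y : ℤ, 0 ≤ y → y < 2 * H → |((y - n : ℤ) : ℝ)| ≤ 2 * H := by
    intro y h1 h2
    have h3 : |y - (n : ℤ)| ≤ 2 * H := by
      rw [abs_le]
      constructor
      · omega
      · omega
    exact_mod_cast h3
  refine ⟨?_, ?_, ?_, ?_⟩
  · intro y h1 h2
    exact abs_pol_le hE hH hj h0 hS (hb y h1 h2)
  · intro y y' h1 h2 h1' h2'
    refine (abs_pol_sub_le hE hH hj hS (hb y h1 h2) (hb y' h1' h2')).trans (le_of_eq ?_)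
    rw [show ((y - n : ℤ) : ℝ) - ((y' - n : ℤ) : ℝ) = (y : ℝ) - y' by push_cast; ring]
    ring
  · intro y
    exact ⟨_, pol_rat hz _⟩
  · intro M y y' hyy
    have h1 : ((Q * M : ℕ) : ℤ) ∣ (y - n) - (y' - n) := by
      have := hyy.symm.dvd
      rwa [show y - (n : ℤ) - (y' - n) = y - y' by ring]
    have h2 : ((Q * M : ℕ) : ℤ) ∣ ∑ i ∈ range (j + 1), z i * (y - n) ^ i -
        ∑ i ∈ range (j + 1), z i * (y' - n) ^ i := by
      rw [← Finset.sum_sub_distrib]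
      apply Finset.dvd_sum
      intro i _
      rw [← mul_sub]
      exact Dvd.dvd.mul_left (h1.trans (sub_dvd_pow_sub_pow _ _ i)) _
    obtain ⟨k, hk⟩ := h2
    refine ⟨k, ?_⟩
    beta_reduce
    rw [pol_rat hz, pol_rat hz, ← sub_div, ← Int.cast_sub, hk]
    push_cast
    field_simp

/-- The coefficients of a polynomial near rationals. -/
theorem near_coeff {d j Q L : ℕ} {E : ℝ} {c : ℕ → ℝ} {P : ℤ → ℝ} (hj : j ≤ d)
    (h : NrZ 1 d E Q L P) (hP : ∀ m, P m = pol j c m) :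
    ∀ i, 1 ≤ i → i ≤ j → nd ((Q : ℝ) * c i) ≤ E / (L : ℝ) ^ i := by
  obtain ⟨c', h1, h2⟩ := h
  intro i hi hij
  have h3 := unq d (fun k => if k ≤ j then c k else 0) c' (fun m => by
    rw [pol_pad hj, ← hP, h1]) i (hij.trans hj)
  beta_reduce at h3
  rw [if_pos hij] at h3
  rw [h3]
  exact h2 i hi (hij.trans hj)

end SPLx

end Pool.Agent.NG
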