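import Mathlib
import Pool.Agent.Lib.NG.B
import Pool.Agent.Lib.NG.PWJ
import Pool.Agent.Lib.NG.FIL
import Pool.Agent.Lib.NG.FNC
import Pool.Agent.Lib.NG.PWB

/-!
# NVG2 (MP_663568_nt), row SQN: the functions on the square  (helper70)
-/

set_option autoImplicit false
open Finset Topology

namespace Pool.Agent.NG

noncomputable section

open Amb Pool.Agent.Lib.MP_663568_nt Pool.Agent.Lib.MP_663568_nt.Katai
  Pool.Agent.Lib.MP_663568_nt.Nul Pool.Agent.SV Pool.Agent.VQ Pool.Agent.NV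

theorem sqn_tau_cont {U : Type} [Amb U] {D : ℕ} (e : Fin D → U) :
    Continuous fun v : Fin D → ℝ => tau e v := by
  have h : (fun v : Fin D → ℝ => tau e v) =
      fun v => ((List.finRange D).map fun i => pw (v i) (e i)).prod := by
    funext v
    rw [tau, List.ofFn_eq_map]
  rw [h]
  apply continuous_list_prod
  intro i _
  exact pw_cont.comp (Continuous.prodMk (continuous_apply i) (continuous_const (y := e i)))

theorem sqn : SQN_stmt := by
  intro hPWB hCHS hFIB hLEV hFNC U _ Gf d hd hF D kp e κ hC F hFn hF1 ξ hξ hV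
  have hd1 : 1 ≤ d := by omega
  have hlv0 : FIL.lv d 0 = 1 := by
    unfold FIL.lv
    omega
  have hlvd : FIL.lv d (d - 1 + 1) = d := by
    unfold FIL.lv
    omega
  have m0 : ∀ q : U × U, q ∈ Gsq Gf d 0 ↔ q.2 ∈ Gf 1 ∧ q.1 * q.2⁻¹ ∈ Gf (1 + 1) := by
    intro q
    rw [FIL.mem_Gsq pwj hFIB hF hd1 0 q, hlv0]
  have md : ∀ q : U × U, q ∈ Gsq Gf d (d - 1 + 1) ↔ q.2 ∈ Gf d ∧ q.1 * q.2⁻¹ ∈ Gf (d + 1) := by
    intro q
    rw [FIL.mem_Gsq pwj hFIB hF hd1 (d - 1 + 1) q, hlvd]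
  have le0 : ∀ i, Gf i ≤ Gf 0 := FIL.le0 hF
  have p2 : ∀ q ∈ Gsq Gf d 0, q.2 ∈ Gf 0 := fun q hq => le0 1 ((m0 q).mp hq).1
  have p1 : ∀ q ∈ Gsq Gf d 0, q.1 ∈ Gf 0 := by
    intro q hq
    have h1 : q.1 = q.1 * q.2⁻¹ * q.2 := by group
    rw [h1]
    exact (Gf 0).mul_mem (le0 _ ((m0 q).mp hq).2) (p2 q hq)
  have ht : ∀ v, tau e v ∈ Gf 0 := fun v => (hC.tau v).1
  -- translation by an element of the last group
  have key : ∀ (v : Fin D → ℝ), ∀ m ∈ Gf d, ∀ x ∈ Gf 0,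
      F (tau e v * (m * x)) = ee (ξ m) * F (tau e v * x) := by
    intro v m hm x hx
    have h1 : tau e v * (m * x) = (tau e v * m * (tau e v)⁻¹) * (tau e v * x) := by group
    rw [h1, hV _ (FIL.nrm0 hF d _ (ht v) _ hm) _ ((Gf 0).mul_mem (ht v) hx), hξ.inv _ (ht v) _ hm]
  have eec : ∀ x : ℝ, ee x * (starRingEnd ℂ) (ee x) = 1 := by
    intro x
    rw [← ee_sub, sub_self]
    have := ee_int 0
    simpa using this
  refine ⟨?_, ?_⟩
  · obtain ⟨j, M, s, -, -, hM, hs, -, hs1, hsla⟩ := hLEV U Gf d (Gf d) ξ hF (hF.rat d)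
      (FIL.nrm0 hF d) (hF.anti d) (le0 d) hξ
    have hsd : s ∈ Gf d := hs.1
    have hwd : pw (M : ℝ) s ∈ Gf d := (hF.rat d).pwc s hsd M
    have hξw : ξ (pw (M : ℝ) s) = M := by
      rw [hCHS U (Gf d) ξ (hF.rat d).pwc hξ.mul hξ.cont s hsd M, hs1, mul_one]
    have hM0 : (M : ℝ) ≠ 0 := by
      have : M ≠ 0 := by omega
      exact_mod_cast this
    refine ⟨pw (M : ℝ) s, (M : ℤ), by exact_mod_cast hM0, ⟨?_, ?_, ?_, ?_⟩, ?_⟩
    · exact Subgroup.mem_prod.mpr ⟨hsla, (La : Subgroup U).one_mem⟩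
    · rw [m0]
      refine ⟨(Gf 1).one_mem, ?_⟩
      show pw (M : ℝ) s * (1 : U)⁻¹ ∈ Gf (1 + 1)
      rw [inv_one, mul_one]
      exact FIL.anti_le hF (by omega) hwd
    · intro g hg t
      rw [md]
      have hpw : pw t ((pw (M : ℝ) s, 1) : U × U) = (pw t (pw (M : ℝ) s), 1) :=
        Prod.ext rfl ((hPWB U).2.2.2.2.1 t)
      rw [hpw]
      constructor
      · show g.2 * 1 * g.2⁻¹ * (1 : U)⁻¹ ∈ Gf d
        have e1 : g.2 * 1 * g.2⁻¹ * (1 : U)⁻¹ = 1 := by group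
        rw [e1]
        exact (Gf d).one_mem
      · show g.1 * pw t (pw (M : ℝ) s) * g.1⁻¹ * (pw t (pw (M : ℝ) s))⁻¹ *
          (g.2 * 1 * g.2⁻¹ * (1 : U)⁻¹)⁻¹ ∈ Gf (d + 1)
        have e1 : g.2 * 1 * g.2⁻¹ * (1 : U)⁻¹ = 1 := by group
        rw [e1, inv_one, mul_one]
        have h2 := hF.com 1 d g.1 (by rw [hF.top]; exact p1 g hg) (pw t (pw (M : ℝ) s))
          ((hF.rat d).pwc _ hwd t)
        rwa [add_comm 1 d] at h2
    · intro h
      rw [md] at h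
      have h2 := h.2
      have h3 : pw (M : ℝ) s * (1 : U)⁻¹ ∈ Gf (d + 1) := h2
      rw [inv_one, mul_one] at h3
      have h4 := hξ.van _ h3
      rw [hξw] at h4
      exact hM0 h4
    · intro v
      have hprod := fn_prod (fn_translate (FIL.nrm0 hF (d + 1)) hFn (ht v)) hFn
      have hle : Gsq Gf d 0 ≤ (Gf 0).prod (Gf 0) := fun q hq =>
        Subgroup.mem_prod.mpr ⟨p1 q hq, p2 q hq⟩
      have hres := fn_restrict hprod hle (bot_le : (⊥ : Subgroup (U × U)) ≤ _)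
      refine ⟨⟨hres.bd, hres.uc, hres.lat, ?_⟩, ?_, ?_⟩
      · intro m hm x hx
        rw [md] at hm
        have hm1 : m.1 ∈ Gf d := by
          have h1 : m.1 = m.1 * m.2⁻¹ * m.2 := by group
          rw [h1]
          exact (Gf d).mul_mem (hF.anti d hm.2) hm.1
        have hξm : ξ m.1 = ξ m.2 := by
          have h1 : m.1 = m.1 * m.2⁻¹ * m.2 := by group
          rw [h1, hξ.mul _ (hF.anti d hm.2) _ hm.1, hξ.van _ hm.2, zero_add]
        show F (tau e v * (m.1 * x.1)) * (starRingEnd ℂ) (F (m.2 * x.2)) =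
          F (tau e v * x.1) * (starRingEnd ℂ) (F x.2)
        rw [key v _ hm1 _ (p1 x hx), hV _ hm.1 _ (p2 x hx), hξm, map_mul]
        calc _ = (ee (ξ m.2) * (starRingEnd ℂ) (ee (ξ m.2))) *
              (F (tau e v * x.1) * (starRingEnd ℂ) (F x.2)) := by ring
          _ = _ := by rw [eec, one_mul]
      · intro q hq
        show ‖F (tau e v * q.1) * (starRingEnd ℂ) (F q.2)‖ ≤ 1
        rw [norm_mul, RCLike.norm_conj]
        exact mul_le_one₀ (hF1 _ ((Gf 0).mul_mem (ht v) (p1 q hq))) (norm_nonneg _)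
          (hF1 _ (p2 q hq))
      · intro t x hx
        have hpw : pw t ((pw (M : ℝ) s, 1) : U × U) = (pw t (pw (M : ℝ) s), 1) :=
          Prod.ext rfl ((hPWB U).2.2.2.2.1 t)
        rw [hpw]
        show F (tau e v * (pw t (pw (M : ℝ) s) * x.1)) * (starRingEnd ℂ) (F (1 * x.2)) =
          ee ((M : ℤ) * t) * (F (tau e v * x.1) * (starRingEnd ℂ) (F x.2))
        rw [key v _ ((hF.rat d).pwc _ hwd t) _ (p1 x hx), one_mul,
          hCHS U (Gf d) ξ (hF.rat d).pwc hξ.mul hξ.cont _ hwd t, hξw, mul_assoc]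
        congr 2
        push_cast
        ring
  · intro ε hε
    obtain ⟨ρ, hρ, hu⟩ := hFn.uc ε hε
    have hcomp : IsCompact (Set.Icc (0 : Fin D → ℝ) 1) := isCompact_Icc
    have hct := sqn_tau_cont e
    have hU : ∀ v' ∈ Set.Icc (0 : Fin D → ℝ) 1,
        {v : Fin D → ℝ | nm (tau e v * (tau e v')⁻¹) < ρ} ∈ 𝓝 v' := by
      intro v' _
      apply IsOpen.mem_nhds
      · exact isOpen_lt (nm_cont.comp (hct.mul continuous_const)) continuous_const
      · show nm (tau e v' * (tau e v')⁻¹) < ρ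
        rw [mul_inv_cancel, nm_one]
        exact hρ
    obtain ⟨T, hT1, hT2⟩ := hcomp.elim_nhds_subcover _ hU
    refine ⟨T.card, fun n => (T.equivFin.symm n).1, ?_⟩
    intro v hv
    have hvm : v ∈ Set.Icc (0 : Fin D → ℝ) 1 := ⟨fun i => (hv i).1, fun i => (hv i).2⟩
    obtain ⟨v', hv', hvv⟩ := Set.mem_iUnion₂.mp (hT2 hvm)
    refine ⟨T.equivFin ⟨v', hv'⟩, ?_⟩
    intro q hq
    have hsy : (T.equivFin.symm (T.equivFin ⟨v', hv'⟩)).1 = v' := by
      rw [Equiv.symm_apply_apply]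
    show ‖Fsq e F v q - Fsq e F (T.equivFin.symm (T.equivFin ⟨v', hv'⟩)).1 q‖ ≤ ε
    rw [hsy]
    have hvv' : nm (tau e v * (tau e v')⁻¹) < ρ := hvv
    have hk : tau e v * (tau e v')⁻¹ ∈ Gf 0 := (Gf 0).mul_mem (ht v) ((Gf 0).inv_mem (ht v'))
    have hx : tau e v' * q.1 ∈ Gf 0 := (Gf 0).mul_mem (ht v') (p1 q hq)
    have h1 := hu _ hk hvv'.le _ hx
    have h2 : tau e v * (tau e v')⁻¹ * (tau e v' * q.1) = tau e v * q.1 := by group
    rw [h2] at h1
    show ‖F (tau e v * q.1) * (starRingEnd ℂ) (F q.2) -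
      F (tau e v' * q.1) * (starRingEnd ℂ) (F q.2)‖ ≤ ε
    rw [← sub_mul, norm_mul, RCLike.norm_conj]
    calc _ ≤ ε * 1 := mul_le_mul h1 (hF1 _ (p2 q hq)) (norm_nonneg _) hε.le
      _ = ε := mul_one _

end

end Pool.Agent.NG
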