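import Pool.Agent.Lib.NV.SYC
import Pool.Agent.Lib.NV.DESA

/-!
# Rows SYC and DESA with the position of the cell (MP_663568_nt, NVG)

The relation in SYCM may use the position of the cell and that both primes are good; the property
in DESAM may depend on the base point.  (after helper87, helper80; helper95)
-/

set_option autoImplicit false
open Finset MeasureTheory Polynomial

namespace Pool.Agent.NG

open Pool.Agent.Lib.MP_663568_nt Pool.Agent.Lib.MP_663568_nt.Katai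
  Pool.Agent.Lib.MP_663568_nt.Nul Pool.Agent.SV Pool.Agent.VQ Pool.Agent.NV

open Pool.Agent.VQ.SYBx in
open Classical in
/-- Row SYCM: row SYC, the relation may use the position of the cell. -/
def SYCM_stmt : Prop := ∀ (T : Type) [Fintype T] [Nonempty T] (A κ₁ κ₂ e c : ℝ), 0 ≤ A →
  0 < κ₁ → κ₁ ≤ κ₂ → κ₂ ≤ 1 / 4 → 0 < e → 0 < c → c ≤ 1 →
  ∃ (δ B : ℝ) (H₀ : ℕ), δ = c / 2 / Fintype.card T ∧ B = A + 6 ∧ H₀ = 3000 ∧ ∀ H : ℕ, H₀ ≤ H →
  1 ≤ Ls (PPs H κ₁ κ₂) → ∀ (α : Type) (ev : α → ℕ → ℂ), (∀ x m, ‖ev x m‖ ≤ 1) →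
  ∀ xa xb : ℝ, (H : ℝ) ^ B ≤ xa → xa * H ≤ xb → xb ≤ xa * (H : ℝ) ^ 2 →
  ∀ (Q : ℕ → α) (l K : ℕ), 1 ≤ l → l ≤ H → K = ⌈(H : ℝ) ^ (A + 1)⌉₊ →
  ∀ Rel : T → ℕ → ℕ → ℕ → Prop,
  (∀ p ∈ PPs H κ₁ κ₂, ∀ p' ∈ PPs H κ₁ κ₂, ∀ (v : ℝ) (n L : ℕ), GoodA ev Q K l xa xb e p v →
    GoodA ev Q K l xa xb e p' v → n = aj K (cl K v) → L = aj K (cl K v + 1) - n →
    (∀ m : ℕ, n ≤ m → m < n + L → 1 ≤ m ∧ cl K (Real.log m) = cl K v) →
    (n : ℝ) ≤ 2 * Real.exp v → Real.exp v ≤ 2 * n →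
    xa / (H : ℝ) ^ B ≤ L →
    c / 8 * L ≤ (#((Ico n (n + L)).filter fun m : ℕ =>
      c ≤ Kg l m (lo ev Q p v) (lo ev Q p' v)) : ℝ) → ∃ θ : T, Rel θ p p' (cl K v)) →
  (∀ p p', MeasurableSet (NpA ev Q K l xa xb e c p p')) →
  c * (Real.log xb - Real.log xa) ≤ ∑ p ∈ PPs H κ₁ κ₂, ∑ p' ∈ PPs H κ₁ κ₂,
    wt (PPs H κ₁ κ₂) p * wt (PPs H κ₁ κ₂) p' *
      (volume (NpA ev Q K l xa xb e c p p')).toReal →
  ∃ (θ : T) (pr : ℕ → ℕ) (G : ℕ → Set ℝ), (∀ p, MeasurableSet (G p)) ∧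
    (∀ p, ∀ u ∈ G p, p ∈ PPs H κ₁ κ₂ ∧ pr (cl K u) ∈ PPs H κ₁ κ₂ ∧
      GoodA ev Q K l xa xb e p u ∧ GoodA ev Q K l xa xb e (pr (cl K u)) u ∧
      Rel θ p (pr (cl K u)) (cl K u)) ∧
    δ * (Real.log xb - Real.log xa) ≤ ∑ p ∈ PPs H κ₁ κ₂, wt (PPs H κ₁ κ₂) p *
      (volume (G p)).toReal

open Pool.Agent.VQ.SYBx Pool.Agent.VQ.SYAx in
/-- **Row SYCM.** -/
theorem sycm : SYCM_stmt := by
  classical
  intro Ty _ _ A κ₁ κ₂ e c hA hκ₁ hκ hκ₂ he hc hc1
  have hTy : (1 : ℝ) ≤ Fintype.card Ty := by exact_mod_cast Fintype.card_pos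
  refine ⟨c / 2 / Fintype.card Ty, A + 6, 3000, rfl, rfl, rfl, ?_⟩
  intro H hH hLs α₀ ev hev xa xb hxa hxab _ Q l K hl1 _ hK Rl hRl hmeas hsum
  obtain ⟨PP, hPP⟩ : ∃ PP : Finset ℕ, PP = PPs H κ₁ κ₂ := ⟨_, rfl⟩
  rw [← hPP] at hsum hLs ⊢
  -- the size of `H`
  have hH3000 : (3000 : ℝ) ≤ H := by exact_mod_cast hH
  have hH0 : (0 : ℝ) < H := by linarith
  have hH1 : (1 : ℝ) ≤ H := by linarith
  have hlH : 8 ≤ Real.log H := by
    rw [Real.le_log_iff_exp_le hH0]
    have h1 := Real.exp_one_lt_d9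
    have h2 : Real.exp 8 = Real.exp 1 ^ 8 := by rw [← Real.exp_nat_mul]; norm_num
    rw [h2]
    calc Real.exp 1 ^ 8 ≤ (2.7182818286 : ℝ) ^ 8 := by gcongr
      _ ≤ 3000 := by norm_num
      _ ≤ H := hH3000
  set s : ℝ := Real.sqrt H with hs
  have hs0 : 0 < s := Real.sqrt_pos.2 hH0
  have hss : s * s = H := Real.mul_self_sqrt hH0.le
  have hs50 : 50 ≤ s := by
    rw [hs]; exact Real.le_sqrt_of_sq_le (by linarith)
  -- `K`
  have hHA : (1 : ℝ) ≤ (H : ℝ) ^ A := Real.one_le_rpow hH1 hA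
  have hHA1 : (H : ℝ) ^ (A + 1) = (H : ℝ) ^ A * H := by rw [Real.rpow_add hH0, Real.rpow_one]
  have hKge : (H : ℝ) ^ A * H ≤ K := by
    rw [← hHA1, hK]
    exact Nat.le_ceil _
  have hKle : (K : ℝ) ≤ 2 * ((H : ℝ) ^ A * H) := by
    have h1 : (K : ℝ) ≤ (H : ℝ) ^ A * H + 1 := by
      rw [← hHA1, hK]
      exact (Nat.ceil_lt_add_one (by positivity)).le
    nlinarith
  have hK3' : (3 : ℝ) ≤ K := by nlinarith
  have hK3 : 3 ≤ K := by exact_mod_cast hK3'
  have hK1 : 1 ≤ K := by omega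
  -- `xa`, `xb`
  have hHA6 : (H : ℝ) ^ A * H ^ 6 = (H : ℝ) ^ (A + 6) := by
    rw [Real.rpow_add hH0, show (6 : ℝ) = ((6 : ℕ) : ℝ) by norm_num, Real.rpow_natCast]
  have hxa0 : 0 < xa := lt_of_lt_of_le (Real.rpow_pos_of_pos hH0 _) hxa
  have hxb0 : 0 < xb := lt_of_lt_of_le (by positivity) hxab
  have hxa6 : (H : ℝ) ^ A * H ^ 6 ≤ xa := by rw [hHA6]; exact hxa
  have hlxa : 6 * Real.log H ≤ Real.log xa := by
    have h1 : (H : ℝ) ^ 6 ≤ xa := by
      refine le_trans ?_ hxa6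
      have : (0 : ℝ) ≤ (H : ℝ) ^ 6 := by positivity
      nlinarith
    have h2 := Real.log_le_log (by positivity) h1
    rw [Real.log_pow] at h2
    exact_mod_cast h2
  obtain ⟨Λ, hΛ⟩ : ∃ Λ : ℝ, Λ = Real.log xb - Real.log xa := ⟨_, rfl⟩
  rw [← hΛ] at hsum ⊢
  have hΛ1 : Real.log H ≤ Λ := by
    have := Real.log_le_log (by positivity) hxab
    rw [Real.log_mul hxa0.ne' hH0.ne'] at this
    linarith
  have hpp : ∀ p ∈ PP, 1 ≤ p ∧ 0 ≤ Real.log p ∧ Real.log p ≤ 1 / 4 * Real.log H := by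
    intro p hp
    rw [hPP, PPs, mem_filter, mem_Icc] at hp
    have h1 : (p : ℝ) ≤ (H : ℝ) ^ κ₂ :=
      (Nat.cast_le.2 hp.1.2).trans (Nat.floor_le (by positivity))
    have hp0 : (0 : ℝ) < p := by exact_mod_cast hp.1.1
    refine ⟨hp.1.1, Real.log_natCast_nonneg _, ?_⟩
    have h2 := Real.log_le_log hp0 h1
    rw [Real.log_rpow hH0] at h2
    nlinarith
  set N : ℕ → ℕ → Set ℝ := fun p p' => NpA ev Q K l xa xb e c p p' with hN
  have hNv : ∀ p ∈ PP, ∀ p' v, v ∈ N p p' → Real.log xa - 1 / 4 * Real.log H ≤ v ∧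
      v ≤ Real.log xb ∧ 0 ≤ v ∧ 8 ≤ Real.exp v := by
    intro p hp p' v hv
    obtain ⟨h1, h2, h3⟩ := hpp p hp
    have h4 := hv.1.1
    have h5 := hv.1.2.1
    have h6 : 8 ≤ v := by linarith
    refine ⟨by linarith, by linarith, by linarith, ?_⟩
    have := Real.add_one_le_exp v
    linarith
  have hfin : ∀ p ∈ PP, ∀ p' j, volume (N p p' ∩ Ej K j) ≠ ⊤ := by
    intro p hp p' j
    refine ne_top_of_le_ne_top (b := volume (Set.Icc 0 (Real.log xb))) (by simp) (measure_mono ?_)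
    intro v hv
    have := hNv p hp p' v hv.1
    exact ⟨this.2.2.1, this.2.1⟩
  obtain ⟨J, hJ⟩ : ∃ J : ℕ, J = ⌊(K : ℝ) * Real.log xb⌋₊ + 1 := ⟨_, rfl⟩
  set α : ℕ → ℕ → ℕ → ℝ := fun j p p' => (volume (N p p' ∩ Ej K j)).toReal with hα
  set I : Set ℝ := Set.Icc (Real.log xa - 1 / 4 * Real.log H - 1) (Real.log xb + 1) with hI
  set μ : ℕ → ℝ := fun j => (volume (Ej K j ∩ I)).toReal with hμ
  -- large cells are related
  have hkey : ∀ j, ∀ p ∈ PP, ∀ p' ∈ PP, (N p p' ∩ Ej K j).Nonempty →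
      c / 4 * (Real.log (aj K (j + 1)) - Real.log (aj K j)) ≤ α j p p' → ∃ θ, Rl θ p p' j := by
    intro j p hp p' hp' hne hbig
    obtain ⟨u, hu1, hu2⟩ := hne
    obtain ⟨h3, h4, h5, h6⟩ := hNv p hp _ u hu1
    have hcl : cl K u = j := (cl_iff hK1 h5).2 hu2
    obtain ⟨g1, g2, g3⟩ := hu1
    obtain ⟨f1, f2, f3⟩ := cell_facts hK3 h6 hu2
    set L : ℕ := aj K (j + 1) - aj K j with hL
    have hmono : aj K j ≤ aj K (j + 1) := aj_mono K (Nat.le_succ j)
    have hLr : (L : ℝ) = (aj K (j + 1) : ℝ) - aj K j := by rw [hL, Nat.cast_sub hmono]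
    have hK0 : (0 : ℝ) < K := by linarith
    have hLxa : xa ≤ L * ((H : ℝ) ^ A * H ^ 2) := by
      have k1 := len_ge K j
      rw [← hLr] at k1
      have k2 : xa ≤ Real.exp u * s := by
        have k3 : Real.log xa ≤ u + 1 / 2 * Real.log H := by linarith
        have k4 := Real.exp_le_exp.2 k3
        rw [Real.exp_log hxa0, Real.exp_add] at k4
        have k5 : Real.exp (1 / 2 * Real.log H) = s := by
          rw [hs, Real.sqrt_eq_rpow, Real.rpow_def_of_pos hH0, mul_comm]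
        rwa [k5] at k4
      have k6 : Real.exp u / 2 ≤ Real.exp ((j : ℝ) / K) := by linarith
      have k7 : Real.exp u / 2 / (2 * ((H : ℝ) ^ A * H)) ≤ Real.exp ((j : ℝ) / K) / K := by
        gcongr
      have k8 : Real.exp u / 2 / (2 * ((H : ℝ) ^ A * H)) * ((H : ℝ) ^ A * H ^ 2) =
          Real.exp u * H / 4 := by field_simp; ring
      have k9 : (H : ℝ) ^ A * H ^ 2 ≤ xa := by
        refine le_trans ?_ hxa6
        gcongr
        norm_num
      have k10 : 0 < (H : ℝ) ^ A * H ^ 2 := by positivity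
      calc xa ≤ (s / 4) * xa - xa := by nlinarith
        _ ≤ (s / 4) * (Real.exp u * s) - (H : ℝ) ^ A * H ^ 2 := by
            have : s / 4 * xa ≤ s / 4 * (Real.exp u * s) := by gcongr
            linarith
        _ = Real.exp u * H / 4 - (H : ℝ) ^ A * H ^ 2 := by rw [← hss]; ring
        _ = (Real.exp u / 2 / (2 * ((H : ℝ) ^ A * H)) - 1) * ((H : ℝ) ^ A * H ^ 2) := by
            rw [sub_mul, k8, one_mul]
        _ ≤ L * ((H : ℝ) ^ A * H ^ 2) := by
            refine mul_le_mul_of_nonneg_right ?_ k10.le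
            linarith
    have hLB : xa / (H : ℝ) ^ (A + 6) ≤ L := by
      rw [div_le_iff₀ (by positivity), ← hHA6]
      refine hLxa.trans ?_
      have : (H : ℝ) ^ 2 ≤ H ^ 6 := pow_le_pow_right₀ hH1 (by norm_num)
      gcongr
    have hKv : ∀ v ∈ N p p' ∩ Ej K j, c ≤ Kg l ⌊Real.exp v⌋₊ (lo ev Q p u) (lo ev Q p' u) := by
      intro v hv
      obtain ⟨q3, q4, q5, q6⟩ := hNv p hp _ v hv.1
      have hclv : cl K v = cl K u := by rw [hcl]; exact (cl_iff hK1 q5).2 hv.2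
      have q7 := hv.1.2.2
      have q8 : lo ev Q p v = lo ev Q p u := by
        unfold lo
        rw [g1.2.2.1 v hclv]
      have q9 : lo ev Q p' v = lo ev Q p' u := by
        unfold lo
        rw [g2.2.2.1 v hclv]
      rw [← q8, ← q9]
      exact q7
    have hcount := SYCx.count_cell (fun m => c ≤ Kg l m (lo ev Q p u) (lo ev Q p' u))
      (c₁ := c / 4) hK3 f1 (Set.inter_subset_right (s := N p p') (t := Ej K j)) (by positivity)
      hKv hbig
    rw [← hL] at hcount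
    have hcell : ∀ m : ℕ, aj K j ≤ m → m < aj K j + L → 1 ≤ m ∧ cl K (Real.log m) = cl K u := by
      intro m hm1 hm2
      have hm3 : 1 ≤ m := (aj_pos K j).trans hm1
      have hm0 : (0 : ℝ) < m := by exact_mod_cast hm3
      have hm4 : m < aj K (j + 1) := by omega
      refine ⟨hm3, ?_⟩
      rw [hcl, cl_iff hK1 (Real.log_natCast_nonneg m), mem_Ej_iff, Real.exp_log hm0,
        Nat.floor_natCast]
      exact ⟨hm1, hm4⟩
    have hn1 : (aj K j : ℝ) ≤ 2 * Real.exp u := by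
      have k1 := (mem_Ej_iff.1 hu2).1
      have k2 : (aj K j : ℝ) ≤ ⌊Real.exp u⌋₊ := by exact_mod_cast k1
      have k3 := Nat.floor_le (Real.exp_pos u).le
      have k4 := Real.exp_pos u
      linarith
    have hn2 : Real.exp u ≤ 2 * aj K j := by
      have k1 := (mem_Ej_iff.1 hu2).2
      have k2 : Real.exp u < aj K (j + 1) := by
        have := Nat.lt_of_floor_lt k1
        exact this
      have k3 := aj_double hK3 f1
      have k4 := le_aj K j
      linarith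
    have h7 := hRl p (hPP ▸ hp) p' (hPP ▸ hp') u (aj K j) L g1 g2 (by rw [hcl]) (by rw [hcl, hL])
      hcell hn1 hn2 hLB (by
      refine le_trans (le_of_eq ?_) (hcount.trans (le_of_eq ?_))
      · ring
      · norm_cast)
    rwa [hcl] at h7
  obtain ⟨p0, hp0, hbig⟩ := choice PP (wt PP) (wt_nonneg PP) (sum_wt PP hLs) J α μ
    (fun j p p' => ∃ θ, Rl θ p p' j) (c := c)
    (Λ := Λ) (T := Λ + 1 / 4 * Real.log H + 2) hc.le (by
      intro j p hp p' hp' hr
      have hμ0 : 0 ≤ μ j := ENNReal.toReal_nonneg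
      by_cases hne : (N p p' ∩ Ej K j).Nonempty
      · have h1 : α j p p' < c / 4 * (Real.log (aj K (j + 1)) - Real.log (aj K j)) := by
          by_contra h2
          exact hr (hkey j p hp p' hp' hne (not_lt.1 h2))
        obtain ⟨v, hv1, hv2⟩ := hne
        obtain ⟨h3, h4, h5, h6⟩ := hNv p hp p' v hv1
        obtain ⟨h7, h8, h9⟩ := cell_facts hK3 h6 hv2
        have h10 : Ej K j ⊆ I := by
          intro w hw
          have := hw.1
          have := hw.2
          have := hv2.1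
          have := hv2.2
          exact ⟨by linarith, by linarith⟩
        have h11 : μ j = Real.log (aj K (j + 1)) - Real.log (aj K j) := by
          rw [hμ]
          simp only
          rw [Set.inter_eq_left.2 h10, vol_Ej]
        rw [h11]
        exact h1.le
      · have h1 : α j p p' = 0 := by
          rw [hα]
          simp only
          rw [Set.not_nonempty_iff_eq_empty.1 hne, measure_empty, ENNReal.toReal_zero]
        rw [h1]
        positivity) (by
      have h1 := sum_le_vol K J (a := Real.log xa - 1 / 4 * Real.log H - 1) (b := Real.log xb + 1)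
        (by linarith)
      refine h1.trans (le_of_eq ?_)
      rw [hΛ]; ring) (by linarith) (by
      refine hsum.trans ?_
      refine sum_le_sum fun p hp => sum_le_sum fun p' _ => ?_
      have hww : 0 ≤ wt PP p * wt PP p' := mul_nonneg (wt_nonneg _ _) (wt_nonneg _ _)
      refine mul_le_mul_of_nonneg_left ?_ hww
      refine vol_le_sum hK1 (fun v hv => ?_) (fun j => hfin p hp p' j)
      obtain ⟨h3, h4, h5, h6⟩ := hNv p hp p' v hv
      rw [hJ]
      exact ⟨h5, cl_lt h5 h4⟩) (fun j => ENNReal.toReal_nonneg)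
  obtain ⟨θ, hθ⟩ := SYCx.pigeon PP (wt PP) (wt_nonneg PP) J (fun j p => α j p (p0 j))
    (fun j p => ENNReal.toReal_nonneg) (fun θ j p => Rl θ p (p0 j) j) (D := c / 2 * Λ)
    (by convert hbig)
  -- the sets
  set T : ℕ → ℕ → Set ℝ := fun p j => if Rl θ p (p0 j) j then N p (p0 j) ∩ Ej K j else ∅ with hT
  have hTm : ∀ p j, MeasurableSet (T p j) := by
    intro p j
    rw [hT]
    simp only
    split_ifs
    · exact (hmeas p (p0 j)).inter (meas_Ej K j)
    · exact MeasurableSet.empty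
  have hTs : ∀ p j, T p j ⊆ Ej K j := by
    intro p j
    rw [hT]
    simp only
    split_ifs
    · exact Set.inter_subset_right
    · exact Set.empty_subset _
  refine ⟨θ, p0, fun p => if p ∈ PP then ⋃ j ∈ range J, T p j else ∅, ?_, ?_, ?_⟩
  · intro p
    simp only
    split_ifs
    · exact Finset.measurableSet_biUnion _ fun j _ => hTm p j
    · exact MeasurableSet.empty
  · intro p u hu
    simp only at hu
    by_cases hp : p ∈ PP
    · rw [if_pos hp, Set.mem_iUnion₂] at hu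
      obtain ⟨j, _, hj⟩ := hu
      rw [hT] at hj
      simp only at hj
      split_ifs at hj with hr
      · obtain ⟨hu1, hu2⟩ := hj
        obtain ⟨h3, h4, h5, h6⟩ := hNv p hp _ u hu1
        have hcl : cl K u = j := (cl_iff hK1 h5).2 hu2
        obtain ⟨g1, g2, g3⟩ := hu1
        rw [hcl]
        exact ⟨hp, hp0 j, g1, g2, hr⟩
      · exact absurd hj (Set.notMem_empty u)
    · rw [if_neg hp] at hu
      exact absurd hu (Set.notMem_empty u)
  · refine le_trans (le_of_eq ?_) (hθ.trans (le_of_eq ?_))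
    · ring
    · refine sum_congr rfl fun p hp => ?_
      simp only [if_pos hp]
      rw [sum_part K J (T p) (hTm p) (hTs p) (by
        intro j
        rw [hT]
        simp only
        split_ifs
        · exact hfin p hp _ _
        · simp)]
      congr 1
      refine sum_congr rfl fun j _ => ?_
      rw [hT]
      simp only
      split_ifs with hr
      · rfl
      · simp

/-- Row DESAM: row DESA, the property may depend on the base point. -/
def DESAM_stmt : Prop := ∀ (α : Type) (ev : α → ℕ → ℂ) (dl : ℕ → α → α),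
  (∀ (p : ℕ) (x : α) (m : ℕ), ev (dl p x) m = ev x (p * m)) → ∀ (P : ℕ → α → Prop) (x₀ : α),
  (∀ m, P m x₀) → ∀ (l K : ℕ) (xa xb e : ℝ) (Q : ℕ → α) (pr : ℕ → ℕ) (S : Set ℝ), 1 ≤ l →
  1 ≤ K → 1 ≤ xa → 0 ≤ e → MeasurableSet S →
  (∀ u ∈ S, xa < (⌊Real.exp u⌋₊ : ℝ) ∧ (⌊Real.exp u⌋₊ : ℝ) ≤ xb ∧ CstA Q K (pr (cl K u)) u ∧
    e ≤ Wg l ⌊Real.exp u⌋₊ (lo ev Q (pr (cl K u)) u) ∧
    ∀ m : ℕ, 1 ≤ m → cl K (Real.log m) = cl K u →
      P m (dl (pr (cl K u)) (Q ⌊((pr (cl K u) : ℕ) : ℝ) * Real.exp u⌋₊))) →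
  ∃ Q' : ℕ → α, SlowA Q' (K + 2) ∧ (∀ m, 1 ≤ m → P m (Q' m)) ∧
    e * (volume S).toReal ≤ ∑ m ∈ Ioc ⌊xa⌋₊ ⌊xb⌋₊, (1 / (m : ℝ)) * Wg l m (ev (Q' m))

/-- **Row DESAM.** -/
theorem desam : DESAM_stmt := by
  classical
  intro α ev dl hdl P x₀ hx₀ l K xa xb e Q pr S hl hK hxa he hSm hS
  set c : ℕ → ℕ := fun m => ⌊(K : ℝ) * Real.log (m : ℝ)⌋₊ with hc
  have hcl : ∀ u, cl K u = c ⌊Real.exp u⌋₊ := fun u => rfl
  have hcm : ∀ n, c n ≤ c (n + 1) := by
    intro n
    rw [hc]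
    simp only
    apply Nat.floor_mono
    apply mul_le_mul_of_nonneg_left _ (Nat.cast_nonneg _)
    rcases Nat.eq_zero_or_pos n with rfl | hn
    · simp
    · apply Real.log_le_log (by exact_mod_cast hn)
      push_cast
      linarith
  set g : ℝ → α := fun u => dl (pr (cl K u)) (Q ⌊((pr (cl K u) : ℕ) : ℝ) * Real.exp u⌋₊) with hg
  set f : ℕ → α := fun j => if h : ∃ u ∈ S, cl K u = j then g h.choose else x₀ with hfd
  have hf : ∀ u ∈ S, f (cl K u) = g u := by
    intro u hu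
    have h : ∃ u' ∈ S, cl K u' = cl K u := ⟨u, hu, rfl⟩
    have h1 : f (cl K u) = g h.choose := dif_pos h
    have h2 : cl K h.choose = cl K u := h.choose_spec.2
    rw [h1, hg]
    simp only
    rw [h2, (hS u hu).2.2.1 h.choose h2]
  have hf' : ∀ j, f j = x₀ ∨ ∃ u ∈ S, cl K u = j ∧ f j = g u := by
    intro j
    by_cases h : ∃ u ∈ S, cl K u = j
    · exact Or.inr ⟨h.choose, h.choose_spec.1, h.choose_spec.2, dif_pos h⟩
    · exact Or.inl (dif_neg h)
  have hlo : ∀ u, lo ev Q (pr (cl K u)) u = ev (g u) := by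
    intro u
    funext m
    rw [hg]
    simp only
    rw [hdl]
    rfl
  refine ⟨fun m => f (c m), ?_, ?_, ?_⟩
  · intro j
    have h1 := DESAx.jumps c hcm (2 ^ j) (2 ^ (j + 1)) (Nat.pow_le_pow_right (by norm_num) (by omega))
    have h2 : ((Ico (2 ^ j) (2 ^ (j + 1))).filter fun n => f (c (n + 1)) ≠ f (c n)).card ≤
        ((Ico (2 ^ j) (2 ^ (j + 1))).filter fun n => c (n + 1) ≠ c n).card := by
      apply card_le_card
      intro n hn
      rw [mem_filter] at hn ⊢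
      exact ⟨hn.1, fun h => hn.2 (by rw [h])⟩
    have h3 := DESAx.dyadic K j
    have h4 : ((((Ico (2 ^ j) (2 ^ (j + 1))).filter fun n => f (c (n + 1)) ≠ f (c n)).card : ℕ) : ℝ) +
        (c (2 ^ j) : ℝ) ≤ (c (2 ^ (j + 1)) : ℝ) := by
      exact_mod_cast (by omega : ((Ico (2 ^ j) (2 ^ (j + 1))).filter
        fun n => f (c (n + 1)) ≠ f (c n)).card + c (2 ^ j) ≤ c (2 ^ (j + 1)))
    have h5 : (c (2 ^ (j + 1)) : ℝ) ≤ (c (2 ^ j) : ℝ) + (K + 2) := h3
    have h6 : ((((Ico (2 ^ j) (2 ^ (j + 1))).filter fun n => f (c (n + 1)) ≠ f (c n)).card : ℕ) : ℝ) ≤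
        K + 2 := by linarith
    convert h6
  · intro m hm
    rcases hf' (c m) with h | ⟨u, hu, hcu, h⟩
    · simp only
      rw [h]
      exact hx₀ m
    · simp only
      rw [h]
      refine (hS u hu).2.2.2.2 m hm ?_
      have hm0 : (0 : ℝ) < m := by exact_mod_cast hm
      rw [hcu, hcl, Real.exp_log hm0, Nat.floor_natCast]
  · set I := Ioc ⌊xa⌋₊ ⌊xb⌋₊ with hI
    set Sm : ℕ → Set ℝ := fun m => {u | u ∈ S ∧ ⌊Real.exp u⌋₊ = m} with hSmd
    have hxa0 : 0 ≤ xa := by linarith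
    have hmem : ∀ m, (Sm m).Nonempty → (1 : ℝ) ≤ m ∧ e ≤ Wg l m (ev (f (c m))) := by
      rintro m ⟨u, hu, hum⟩
      obtain ⟨a1, -, -, a4, -⟩ := hS u hu
      rw [hlo, ← hf u hu, hcl, hum] at a4
      rw [hum] at a1
      exact ⟨by linarith, a4⟩
    have hcov : S ⊆ ⋃ m ∈ I, Sm m := by
      intro u hu
      obtain ⟨a1, a2, -⟩ := hS u hu
      simp only [Set.mem_iUnion]
      refine ⟨⌊Real.exp u⌋₊, ?_, hu, rfl⟩
      rw [hI, mem_Ioc]
      exact ⟨(Nat.floor_lt hxa0).2 a1, Nat.le_floor a2⟩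
    have hvol : ∀ m, volume (Sm m) ≤ ENNReal.ofReal (if (Sm m).Nonempty then 1 / (m : ℝ) else 0) := by
      intro m
      split_ifs with hn
      · obtain ⟨hm, -⟩ := hmem m hn
        have hm0 : (0 : ℝ) < m := by linarith
        have hsub : Sm m ⊆ Set.Ico (Real.log m) (Real.log (m + 1)) := by
          rintro u ⟨-, hum⟩
          have h0 : 0 ≤ Real.exp u := (Real.exp_pos u).le
          have h1 : (m : ℝ) ≤ Real.exp u := by rw [← hum]; exact Nat.floor_le h0
          have h2 : Real.exp u < m + 1 := by rw [← hum]; exact Nat.lt_floor_add_one _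
          constructor
          · rwa [Real.log_le_iff_le_exp hm0]
          · rwa [Real.lt_log_iff_exp_lt (by linarith)]
        refine (measure_mono hsub).trans ?_
        rw [Real.volume_Ico]
        apply ENNReal.ofReal_le_ofReal
        rw [← Real.log_div (by linarith) hm0.ne']
        have h3 := Real.log_le_sub_one_of_pos (show 0 < ((m : ℝ) + 1) / m by positivity)
        have h4 : ((m : ℝ) + 1) / m - 1 = 1 / m := by field_simp; ring
        linarith
      · rw [Set.not_nonempty_iff_eq_empty] at hn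
        rw [hn]
        simp
    have hv0 : ∀ m : ℕ, 0 ≤ (if (Sm m).Nonempty then 1 / (m : ℝ) else 0) := by
      intro m
      split_ifs <;> positivity
    have htot : (volume S).toReal ≤ ∑ m ∈ I, (if (Sm m).Nonempty then 1 / (m : ℝ) else 0) := by
      have h1 : volume S ≤ ENNReal.ofReal (∑ m ∈ I, (if (Sm m).Nonempty then 1 / (m : ℝ) else 0)) := by
        refine (measure_mono hcov).trans ((measure_biUnion_finset_le I Sm).trans ?_)
        rw [ENNReal.ofReal_sum_of_nonneg fun m _ => hv0 m]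
        exact sum_le_sum fun m _ => hvol m
      exact ENNReal.toReal_le_of_le_ofReal (sum_nonneg fun m _ => hv0 m) h1
    calc e * (volume S).toReal ≤ e * ∑ m ∈ I, (if (Sm m).Nonempty then 1 / (m : ℝ) else 0) :=
          mul_le_mul_of_nonneg_left htot he
      _ = ∑ m ∈ I, e * (if (Sm m).Nonempty then 1 / (m : ℝ) else 0) := by rw [mul_sum]
      _ ≤ ∑ m ∈ I, (1 / (m : ℝ)) * Wg l m (ev (f (c m))) := by
          refine sum_le_sum fun m _ => ?_
          have hW : 0 ≤ Wg l m (ev (f (c m))) := by unfold Wg; positivity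
          split_ifs with hn
          · rw [mul_comm]
            exact mul_le_mul_of_nonneg_left (hmem m hn).2 (by positivity)
          · rw [mul_zero]
            positivity

end Pool.Agent.NG
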