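import Pool.Agent.Lib.NG.KAT
import Pool.Agent.Lib.SV.RB

/-!
# JET in natural density (MP_663568_nt), row TKN: Turán - Kubilius on windows (second moment)

(helper95)
-/

set_option autoImplicit false
open Finset

namespace Pool.Agent.NG

open Pool.Agent.Lib.MP_663568_nt Pool.Agent.Lib.MP_663568_nt.Katai Pool.Agent.Lib.MP_663568_nt.Nul
  Pool.Agent.SV Pool.Agent.VQ Pool.Agent.NV Amb

noncomputable section

namespace KATx

theorem wg_nonneg (l m : ℕ) (g : ℕ → ℂ) : 0 ≤ Wg l m g := by unfold Wg; positivity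

theorem wg_le_one (l m : ℕ) {g : ℕ → ℂ} (hg : ∀ m, ‖g m‖ ≤ 1) : Wg l m g ≤ 1 := by
  unfold Wg
  refine div_le_one_of_le₀ ?_ (Nat.cast_nonneg _)
  refine (norm_sum_le _ _).trans ?_
  calc ∑ h ∈ Icc 1 l, ‖muC (m + h) * g (m + h)‖ ≤ ∑ _h ∈ Icc 1 l, (1 : ℝ) := by
        refine sum_le_sum fun h _ => ?_
        rw [norm_mul]
        exact mul_le_one₀ (norm_muC _) (norm_nonneg _) (hg _)
    _ = l := by simp

theorem card_win (p u H : ℕ) (hp : 0 < p) :
    (#(Ioc (u / p) ((u + H) / p)) : ℝ) ≤ (H : ℝ) / p + 1 := by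
  have hp0 : (0 : ℝ) < p := by exact_mod_cast hp
  rw [Nat.card_Ioc, Nat.cast_sub (Nat.div_le_div_right (Nat.le_add_right _ _))]
  have h2 : (((u + H) / p : ℕ) : ℝ) ≤ ((u + H : ℕ) : ℝ) / p := Nat.cast_div_le
  have h4 : (u : ℝ) / p < ((u / p : ℕ) : ℝ) + 1 := by
    rw [div_lt_iff₀ hp0]
    have h5 := Nat.lt_div_mul_add (a := u) (b := p) hp
    have h6 : (u : ℝ) < ((u / p * p + p : ℕ) : ℝ) := by exact_mod_cast h5
    push_cast at h6 ⊢
    nlinarith
  push_cast at h2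
  rw [add_div] at h2
  linarith

/-- One prime. -/
theorem onep {α : Type} (ev : α → ℕ → ℂ) (hev : ∀ x m, ‖ev x m‖ ≤ 1) (X : ℕ → α) (x H l p : ℕ)
    (K : ℝ) (hp : 0 < p) (hpH : p ≤ H) (hK : 1 ≤ K) (hX : ChN X x K) :
    (1 / (H : ℝ)) * ∑ n ∈ Ico (x + 1) (2 * (x + 1)), ∑ k ∈ Ioc (n / p) ((n + H) / p),
      Wg l k (fun k => ev (X n) (p * k)) ≤
    ∑ k ∈ Ioc (x / p) (2 * x / p), Wg l k (fun m => ev (X (p * k)) (p * m)) +
      11 * H * K * (1 / (p : ℝ)) := by
  classical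
  have hp0 : (0 : ℝ) < p := by exact_mod_cast hp
  have hH : 0 < H := lt_of_lt_of_le hp hpH
  have hH0 : (0 : ℝ) < H := by exact_mod_cast hH
  have hpH' : (p : ℝ) ≤ H := by exact_mod_cast hpH
  have h1H : 1 ≤ (H : ℝ) / p := by rwa [le_div_iff₀ hp0, one_mul]
  obtain ⟨T, hT⟩ : ∃ T : ℕ → ℝ, T = fun k => Wg l k fun m => ev (X (p * k)) (p * m) := ⟨_, rfl⟩
  have hT0 : ∀ k, 0 ≤ T k := fun k => by rw [hT]; exact wg_nonneg _ _ _
  have hT1 : ∀ k, T k ≤ 1 := fun k => by rw [hT]; exact wg_le_one _ _ fun m => hev _ _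
  obtain ⟨S, hS⟩ : ∃ S, S = (Ioc x (2 * x)).filter fun n => X (n + 1) ≠ X n := ⟨_, rfl⟩
  have hSK : (#S : ℝ) ≤ K := by
    rw [hS]
    refine le_trans (le_of_eq ?_) hX
    norm_cast
  obtain ⟨Bd, hBd⟩ : ∃ Bd : Finset ℕ, Bd = (Ico (x + 1) (2 * (x + 1))).filter fun n =>
      ∃ j, n ≤ j ∧ j < n + H ∧ X (j + 1) ≠ X j := ⟨_, rfl⟩
  -- the bad n
  have hBdc : (#Bd : ℝ) ≤ 4 * H * K := by
    have h1 : Bd ⊆ (S.biUnion fun j => Ioc (j - H) j ∪ {0}) ∪ Ioc (2 * x - H) (2 * x + 1) := by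
      intro n hn
      rw [hBd, mem_filter, mem_Ico] at hn
      obtain ⟨⟨h1, h2⟩, j, h3, h4, h5⟩ := hn
      rw [mem_union]
      by_cases hj : j ≤ 2 * x
      · left
        rw [mem_biUnion]
        refine ⟨j, ?_, ?_⟩
        · rw [hS, mem_filter, mem_Ioc]
          exact ⟨⟨by omega, hj⟩, h5⟩
        · rw [mem_union, mem_Ioc]
          left
          omega
      · right
        rw [mem_Ioc]
        omega
    have h2 : #Bd ≤ #S * (H + 1) + (H + 1) := by
      refine (card_le_card h1).trans ((card_union_le _ _).trans (add_le_add ?_ ?_))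
      · refine card_biUnion_le_card_mul _ _ _ fun j _ => ?_
        refine (card_union_le _ _).trans ?_
        rw [Nat.card_Ioc, card_singleton]
        omega
      · rw [Nat.card_Ioc]
        omega
    have h3 : (#Bd : ℝ) ≤ #S * (H + 1) + (H + 1) := by exact_mod_cast h2
    have h6 : (1 : ℝ) ≤ H := by exact_mod_cast hH
    have h4 : (#S : ℝ) * (H + 1) ≤ K * (H + 1) := mul_le_mul_of_nonneg_right hSK (by positivity)
    nlinarith
  -- one n
  have hone : ∀ n ∈ Ico (x + 1) (2 * (x + 1)), ∑ k ∈ Ioc (n / p) ((n + H) / p),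
      Wg l k (fun k => ev (X n) (p * k)) ≤ ∑ k ∈ Ioc (n / p) ((n + H) / p), T k +
        (if n ∈ Bd then 2 * ((H : ℝ) / p) else 0) := by
    intro n hn
    by_cases hb : n ∈ Bd
    · rw [if_pos hb]
      have h1 : ∑ k ∈ Ioc (n / p) ((n + H) / p), Wg l k (fun k => ev (X n) (p * k)) ≤
          (H : ℝ) / p + 1 := by
        refine le_trans ?_ (card_win p n H hp)
        rw [← nsmul_one, ← sum_const]
        exact sum_le_sum fun k _ => wg_le_one _ _ fun m => hev _ _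
      have h2 : 0 ≤ ∑ k ∈ Ioc (n / p) ((n + H) / p), T k := sum_nonneg fun k _ => hT0 k
      linarith
    · rw [if_neg hb, add_zero]
      have hcst : ∀ i, i ≤ H → X (n + i) = X n := by
        intro i
        induction i with
        | zero => intro _; rfl
        | succ i ih =>
          intro hi
          rw [← ih (by omega), ← add_assoc]
          by_contra hne
          apply hb
          rw [hBd, mem_filter]
          exact ⟨hn, n + i, by omega, by omega, hne⟩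
      refine le_of_eq (sum_congr rfl fun k hk => ?_)
      rw [mem_Ioc] at hk
      have h1 : n < p * k := by
        have := (Nat.div_lt_iff_lt_mul hp).1 hk.1
        rwa [mul_comm] at this
      have h2 : p * k ≤ n + H := by
        have := (Nat.le_div_iff_mul_le hp).1 hk.2
        rwa [mul_comm] at this
      rw [hT]
      simp only
      have h3 := hcst (p * k - n) (by omega)
      rw [show n + (p * k - n) = p * k by omega] at h3
      rw [h3]
  -- the sum over n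
  have hT2 : ∑ k ∈ Ioc (x / p) ((2 * x + (H + 1)) / p), T k ≤
      ∑ k ∈ Ioc (x / p) (2 * x / p), T k + (((H : ℝ) + 1) / p + 1) := by
    have h1 : Ioc (x / p) ((2 * x + (H + 1)) / p) =
        Ioc (x / p) (2 * x / p) ∪ Ioc (2 * x / p) ((2 * x + (H + 1)) / p) := by
      rw [Ioc_union_Ioc_eq_Ioc (Nat.div_le_div_right (by omega))
        (Nat.div_le_div_right (by omega))]
    rw [h1, sum_union (by
      rw [disjoint_left]
      intro a ha hb
      rw [mem_Ioc] at ha hb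
      omega)]
    refine add_le_add le_rfl ?_
    have h2 := card_win p (2 * x) (H + 1) hp
    push_cast at h2
    refine le_trans ?_ h2
    rw [← nsmul_one, ← sum_const]
    exact sum_le_sum fun k _ => hT1 k
  have hsum : ∑ n ∈ Ico (x + 1) (2 * (x + 1)), ∑ k ∈ Ioc (n / p) ((n + H) / p), T k ≤
      H * (∑ k ∈ Ioc (x / p) (2 * x / p), T k + (((H : ℝ) + 1) / p + 1)) := by
    obtain ⟨g, hg⟩ : ∃ g : ℕ → ℝ, g = fun m => if p ∣ m then T (m / p) else 0 := ⟨_, rfl⟩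
    have hg0 : ∀ m, 0 ≤ g m := fun m => by
      rw [hg]
      simp only
      split_ifs
      · exact hT0 _
      · exact le_rfl
    have e1 : ∀ u v : ℕ, ∑ k ∈ Ioc (u / p) ((u + v) / p), T k = ∑ m ∈ Ioc u (u + v), g m := by
      intro u v
      rw [hg, ← sum_filter]
      symm
      refine sum_bij (fun m _ => m / p) ?_ ?_ ?_ ?_
      · intro m hm
        rw [mem_filter, mem_Ioc] at hm
        obtain ⟨k, rfl⟩ := hm.2
        rw [Nat.mul_div_cancel_left _ hp, mem_Ioc]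
        refine ⟨(Nat.div_lt_iff_lt_mul hp).2 ?_, (Nat.le_div_iff_mul_le hp).2 ?_⟩
        · rw [mul_comm]; exact hm.1.1
        · rw [mul_comm]; exact hm.1.2
      · intro m hm m' hm' h
        rw [mem_filter] at hm hm'
        rw [← Nat.mul_div_cancel' hm.2, ← Nat.mul_div_cancel' hm'.2, h]
      · intro k hk
        rw [mem_Ioc] at hk
        refine ⟨p * k, ?_, Nat.mul_div_cancel_left _ hp⟩
        rw [mem_filter, mem_Ioc]
        refine ⟨⟨?_, ?_⟩, Dvd.intro _ rfl⟩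
        · have := (Nat.div_lt_iff_lt_mul hp).1 hk.1
          rwa [mul_comm] at this
        · have := (Nat.le_div_iff_mul_le hp).1 hk.2
          rwa [mul_comm] at this
      · intro m _
        rfl
    have e2 : ∀ n, ∑ m ∈ Ioc n (n + H), g m = ∑ h ∈ Icc 1 H, g (n + h) := by
      intro n
      symm
      refine sum_bij (fun h _ => n + h) ?_ ?_ ?_ ?_
      · intro h hh
        rw [mem_Icc] at hh
        rw [mem_Ioc]
        omega
      · intro h _ h' _ hh
        omega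
      · intro m hm
        rw [mem_Ioc] at hm
        exact ⟨m - n, by rw [mem_Icc]; omega, by omega⟩
      · intro h _
        rfl
    simp_rw [e1, e2]
    rw [sum_comm]
    have e3 : ∀ h ∈ Icc 1 H, ∑ n ∈ Ico (x + 1) (2 * (x + 1)), g (n + h) ≤
        ∑ k ∈ Ioc (x / p) (2 * x / p), T k + (((H : ℝ) + 1) / p + 1) := by
      intro h hh
      rw [mem_Icc] at hh
      refine le_trans ?_ hT2
      have e4 := e1 x (x + (H + 1))
      rw [show x + (x + (H + 1)) = 2 * x + (H + 1) by ring] at e4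
      rw [e4, ← sum_image (s := Ico (x + 1) (2 * (x + 1))) (f := g) (g := fun n => n + h)
        (fun a _ b _ hab => by simpa using hab)]
      refine sum_le_sum_of_subset_of_nonneg ?_ fun m _ _ => hg0 m
      intro m hm
      rw [mem_image] at hm
      obtain ⟨n, hn, rfl⟩ := hm
      rw [mem_Ico] at hn
      rw [mem_Ioc]
      omega
    refine (sum_le_sum e3).trans (le_of_eq ?_)
    rw [sum_const, Nat.card_Icc, nsmul_eq_mul]
    simp
  have hall : ∑ n ∈ Ico (x + 1) (2 * (x + 1)), ∑ k ∈ Ioc (n / p) ((n + H) / p),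
      Wg l k (fun k => ev (X n) (p * k)) ≤
      H * (∑ k ∈ Ioc (x / p) (2 * x / p), T k + (((H : ℝ) + 1) / p + 1)) +
        #Bd * (2 * ((H : ℝ) / p)) := by
    refine (sum_le_sum hone).trans ?_
    rw [sum_add_distrib]
    refine add_le_add hsum ?_
    rw [← sum_filter, sum_const, nsmul_eq_mul]
    refine mul_le_mul_of_nonneg_right ?_ (by positivity)
    have : ((Ico (x + 1) (2 * (x + 1))).filter fun n => n ∈ Bd) ⊆ Bd := fun n hn =>
      (mem_filter.1 hn).2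
    exact_mod_cast card_le_card this
  have h5 : ((H : ℝ) + 1) / p + 1 ≤ 3 * H * K * (1 / p) := by
    have h6 : (1 : ℝ) ≤ H := by exact_mod_cast hH
    have h7 : ((H : ℝ) + 1) / p + 1 ≤ 3 * ((H : ℝ) / p) := by
      have : ((H : ℝ) + 1) / p ≤ 2 * ((H : ℝ) / p) := by
        rw [← mul_div_assoc]
        exact div_le_div_of_nonneg_right (by linarith) hp0.le
      linarith
    have h8 : 3 * ((H : ℝ) / p) ≤ 3 * ((H : ℝ) / p) * K := le_mul_of_one_le_right (by positivity) hK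
    calc _ ≤ 3 * ((H : ℝ) / p) * K := h7.trans h8
      _ = _ := by ring
  have h9 : (1 / (H : ℝ)) * (#Bd * (2 * ((H : ℝ) / p))) ≤ 8 * H * K * (1 / p) := by
    have : (1 / (H : ℝ)) * (#Bd * (2 * ((H : ℝ) / p))) = #Bd * (2 * (1 / (p : ℝ))) := by
      field_simp
    rw [this]
    calc #Bd * (2 * (1 / (p : ℝ))) ≤ 4 * H * K * (2 * (1 / (p : ℝ))) :=
          mul_le_mul_of_nonneg_right hBdc (by positivity)
      _ = _ := by ring
  have h10 := mul_le_mul_of_nonneg_left hall (show 0 ≤ 1 / (H : ℝ) by positivity)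
  have h11 : (1 / (H : ℝ)) * (H * (∑ k ∈ Ioc (x / p) (2 * x / p), T k + (((H : ℝ) + 1) / p + 1)) +
      #Bd * (2 * ((H : ℝ) / p))) = ∑ k ∈ Ioc (x / p) (2 * x / p), T k +
      (((H : ℝ) + 1) / p + 1) + (1 / (H : ℝ)) * (#Bd * (2 * ((H : ℝ) / p))) := by
    rw [mul_add, ← mul_assoc, one_div_mul_cancel hH0.ne', one_mul]
  rw [h11] at h10
  rw [hT] at h10
  refine h10.trans ?_
  linarith

end KATx

open KATx

/-- **Row TKN.** -/
theorem tkn_b : TKN_stmt := by
  intro A ε hA hε hε1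
  obtain ⟨κ, hκ, hκ8, X₀, hX₀⟩ := RB.mertens (max 1 ((100 / ε) ^ 2)) (1 / 8) (by norm_num)
    (by norm_num) (le_max_left _ _)
  obtain ⟨H₁, hH₁⟩ := exists_nat_ge (44 / ε)
  refine ⟨κ, A + 2, max X₀ (max H₁ 16), hκ, hκ8, by linarith, fun H hH => ?_⟩
  have hHa : X₀ ≤ H := by omega
  have hHb : H₁ ≤ H := by omega
  have hHc : 16 ≤ H := by omega
  have hH16 : (16 : ℝ) ≤ H := by exact_mod_cast hHc
  have hH0 : (0 : ℝ) < H := by linarith
  have hH1 : (1 : ℝ) ≤ H := by linarith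
  have hHε : 44 ≤ ε * H := by
    have : 44 / ε ≤ H := hH₁.trans (by exact_mod_cast hHb)
    rw [div_le_iff₀ hε] at this
    linarith
  obtain ⟨P, hP⟩ : ∃ P, P = PPs H κ (1 / 4) := ⟨_, rfl⟩
  obtain ⟨L, hL⟩ : ∃ L, L = Ls P := ⟨_, rfl⟩
  have hsub : PPs H κ (1 / 8) ⊆ P := by
    intro p hp
    rw [hP]
    rw [PPs, mem_filter, mem_Icc] at hp ⊢
    refine ⟨⟨hp.1.1, hp.1.2.trans (Nat.floor_mono ?_)⟩, hp.2⟩
    exact Real.rpow_le_rpow_of_exponent_le hH1 (by norm_num)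
  have hLK : max 1 ((100 / ε) ^ 2) ≤ L := by
    refine (hX₀ H hHa).trans ?_
    rw [hL, Ls, Ls]
    exact sum_le_sum_of_subset_of_nonneg hsub fun p _ _ => by positivity
  have hL1 : 1 ≤ L := (le_max_left _ _).trans hLK
  have hL2 : (100 / ε) ^ 2 ≤ L := (le_max_right _ _).trans hLK
  rw [← hP, ← hL]
  refine ⟨hL1, fun α ev hev x hx X hX hbig l hl hlH => ?_⟩
  obtain ⟨M, hM⟩ : ∃ M, M = ⌊(H : ℝ) ^ (1 / 4 : ℝ)⌋₊ := ⟨_, rfl⟩
  have hPM : ∀ p ∈ P, p.Prime ∧ p ≤ M := by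
    intro p hp
    rw [hP, PPs, mem_filter, mem_Icc] at hp
    exact ⟨hp.2.1, by rw [hM]; exact hp.1.2⟩
  have hq0 : 0 ≤ (H : ℝ) ^ (1 / 4 : ℝ) := by positivity
  have hq4 : ((H : ℝ) ^ (1 / 4 : ℝ)) ^ 4 = H := by
    rw [← Real.rpow_natCast, ← Real.rpow_mul hH0.le]
    norm_num
  have hq2 : 2 ≤ (H : ℝ) ^ (1 / 4 : ℝ) := by
    by_contra hcon
    rw [not_le] at hcon
    have : ((H : ℝ) ^ (1 / 4 : ℝ)) ^ 4 < 2 ^ 4 := pow_lt_pow_left₀ hcon hq0 (by norm_num)
    rw [hq4] at this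
    norm_num at this
    linarith
  obtain ⟨q, hq⟩ : ∃ q, q = (H : ℝ) ^ (1 / 4 : ℝ) := ⟨_, rfl⟩
  rw [← hq] at hq0 hq4 hq2 hlH
  have hMq : (M : ℝ) ≤ q := by
    rw [hM, ← hq]
    exact Nat.floor_le hq0
  have hqq : 2 * q * q ≤ H := by
    rw [← hq4]
    nlinarith [sq_nonneg q, mul_self_nonneg (q * q)]
  have hMl : 2 * M * l ≤ H := by
    have h1 : (2 : ℝ) * M * l ≤ 2 * q * q := by
      have h2 : (M : ℝ) * l ≤ q * q := mul_le_mul hMq hlH (Nat.cast_nonneg _) hq0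
      nlinarith
    have h2 : (2 : ℝ) * M * l ≤ H := h1.trans hqq
    exact_mod_cast h2
  have hpow : (H : ℝ) ^ (A + 2) = (H : ℝ) ^ A * H * H := by
    rw [Real.rpow_add hH0, Real.rpow_two]
    ring
  have hHA : 1 ≤ (H : ℝ) ^ A := Real.one_le_rpow hH1 hA
  have hxH : (H : ℝ) * H ≤ x := by
    refine le_trans ?_ hx
    rw [hpow]
    nlinarith [mul_pos hH0 hH0]
  have hx1 : (1 : ℝ) ≤ x := by nlinarith
  have hx0 : (0 : ℝ) < x := by linarith
  have hHx : H ≤ x + 1 := by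
    have : (H : ℝ) ≤ x := by nlinarith
    have : H ≤ x := by exact_mod_cast this
    omega
  have hMx : M ^ 2 ≤ x + 1 := by
    have h1 : (M : ℝ) ^ 2 ≤ x := by
      have : (M : ℝ) ^ 2 ≤ q * q := by
        rw [sq]
        exact mul_le_mul hMq hMq (Nat.cast_nonneg _) hq0
      nlinarith
    have : M ^ 2 ≤ x := by exact_mod_cast h1
    omega
  have hk := kat P M (x + 1) H l (fun n => ev (X n)) (fun n m => hev _ _) hPM hl hMl hHx hMx
  have hLs : ∑ p ∈ P, (1 : ℝ) / p = L := by rw [hL, Ls]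
  rw [hLs] at hk
  have h1 : ε * x ≤ ∑ n ∈ Ico (x + 1) (2 * (x + 1)), Wg H n (ev (X n)) := by
    refine hbig.trans (sum_le_sum_of_subset_of_nonneg ?_ fun n _ _ => wg_nonneg _ _ _)
    intro n hn
    rw [mem_Ioc] at hn
    rw [mem_Ico]
    omega
  have h2 : ∑ p ∈ P, (1 / (H : ℝ)) * ∑ n ∈ Ico (x + 1) (2 * (x + 1)),
      ∑ k ∈ Ioc (n / p) ((n + H) / p), Wg l k (fun k => ev (X n) (p * k)) ≤
      ∑ p ∈ P, ((x : ℝ) * (1 / p * Tp ev X x l p)) + 11 * H * (H : ℝ) ^ A * L := by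
    rw [← hLs, mul_sum, ← sum_add_distrib]
    refine sum_le_sum fun p hp => ?_
    have hp1 := (hPM p hp).1.pos
    have hp0 : (0 : ℝ) < p := by exact_mod_cast hp1
    have hpH : p ≤ H := by
      have h3 : (p : ℝ) ≤ M := by exact_mod_cast (hPM p hp).2
      have h4 : (p : ℝ) ≤ H := by nlinarith
      exact_mod_cast h4
    refine (onep ev hev X x H l p ((H : ℝ) ^ A) hp1 hpH hHA hX).trans (le_of_eq ?_)
    unfold Tp
    congr 1
    field_simp
  have h3 : L * (ε * x) ≤ L * ∑ n ∈ Ico (x + 1) (2 * (x + 1)), Wg H n (ev (X n)) :=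
    mul_le_mul_of_nonneg_left h1 (by linarith)
  obtain ⟨s, hs⟩ : ∃ s, s = Real.sqrt (L + 1) := ⟨_, rfl⟩
  have hs2 : s ^ 2 = L + 1 := by rw [hs]; exact Real.sq_sqrt (by linarith)
  have hs0 : 0 ≤ s := by rw [hs]; exact Real.sqrt_nonneg _
  have hs100 : 100 ≤ ε * s := by
    have h4 : (100 / ε) ^ 2 ≤ s ^ 2 := by rw [hs2]; linarith
    have h5 : 100 / ε ≤ s := by
      refine (pow_le_pow_iff_left₀ (by positivity) hs0 two_ne_zero).1 h4
    rw [div_le_iff₀ hε] at h5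
    linarith
  have hs1 : 100 ≤ s := by nlinarith
  have hN : ((x + 1 : ℕ) : ℝ) ≤ 2 * x := by push_cast; linarith
  rw [← hs] at hk
  have h6 : 4 * ((x + 1 : ℕ) : ℝ) * s + 4 * ((x + 1 : ℕ) : ℝ) ≤ ε / 2 * L * x := by
    have h7 : 4 * ((x + 1 : ℕ) : ℝ) * s + 4 * ((x + 1 : ℕ) : ℝ) ≤ (8 * s + 8) * x := by
      have h8 : 0 ≤ 4 * s + 4 := by linarith
      nlinarith
    have h9 : 8 * s + 8 ≤ ε / 2 * L := by
      have h10 : L = s ^ 2 - 1 := by linarith
      rw [h10]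
      nlinarith
    exact h7.trans (mul_le_mul_of_nonneg_right h9 hx0.le)
  have h7 : 11 * (H : ℝ) * (H : ℝ) ^ A * L ≤ ε / 4 * L * x := by
    have h8 : 11 * (H : ℝ) * (H : ℝ) ^ A ≤ ε / 4 * x := by
      have h9 : ε / 4 * ((H : ℝ) ^ A * H * H) ≤ ε / 4 * x := by
        rw [← hpow]
        exact mul_le_mul_of_nonneg_left hx (by positivity)
      have h10 : 11 * ((H : ℝ) ^ A * H) ≤ ε / 4 * H * ((H : ℝ) ^ A * H) :=
        mul_le_mul_of_nonneg_right (by linarith) (by positivity)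
      nlinarith
    nlinarith
  have h8 : ε / 4 * L * x ≤ ∑ p ∈ P, ((x : ℝ) * (1 / p * Tp ev X x l p)) := by nlinarith
  rw [← mul_sum] at h8
  have h9 : ∑ p ∈ P, wt P p * Tp ev X x l p = (∑ p ∈ P, 1 / (p : ℝ) * Tp ev X x l p) / L := by
    rw [sum_div]
    refine sum_congr rfl fun p _ => ?_
    unfold wt
    rw [← hL]
    ring
  rw [h9, le_div_iff₀ (by linarith)]
  have h10 : (ε / 4 * L) * x ≤ (∑ p ∈ P, 1 / (p : ℝ) * Tp ev X x l p) * x := by linarith
  exact le_of_mul_le_mul_right h10 hx0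

end

end Pool.Agent.NG
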